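import Pool.Agent.H42.Reg

/-! A dense Aronszajn line on which the second player of the nested interval game has a
stationary winning strategy. -/

namespace Pool.Agent.H42.Aron

open Set Pool.Agent.H42.Reg
open Cardinal hiding univ

variable {S : Type} [LinearOrder S] [WellFoundedLT S]

theorem exists_coh (hne : Nonempty S) (hc : ∀ a : S, (Iio a).Countable) :
    ∃ e : S → S → ℕ, (∀ δ k, {ξ | ξ < δ ∧ e δ ξ ≤ k}.Finite) ∧
      ∀ α β, {ξ | ξ < α ∧ ξ < β ∧ e α ξ ≠ e β ξ}.Finite := by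
  classical
  have hh : ∀ δ : S, ∃ h : ℕ → S, Iio δ ⊆ range h := fun δ =>
    (countable_iff_exists_subset_range.1 (hc δ))
  choose h hh using hh
  have hn : ∀ δ ξ : S, ∃ n, ξ < δ → (ξ ≤ h δ n ∧ h δ n < δ) ∧
      ∀ m, ξ ≤ h δ m → h δ m < δ → n ≤ m := by
    intro δ ξ
    by_cases hx : ξ < δ
    · obtain ⟨m, hm⟩ := hh δ hx
      obtain ⟨n, h1, h2⟩ := exists_min (fun n => ξ ≤ h δ n ∧ h δ n < δ)
        ⟨m, hm.ge, hm.symm ▸ hx⟩
      exact ⟨n, fun _ => ⟨h1, fun m a b => not_lt.1 fun c => h2 m c ⟨a, b⟩⟩⟩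
    · exact ⟨0, fun h => absurd h hx⟩
  choose n hn using hn
  obtain ⟨e, he⟩ := exists_rec (T := S) (fun _ : S => (0 : ℕ))
    (fun δ f ξ => if ξ < δ then max (f (h δ (n δ ξ)) ξ) (n δ ξ) else 0) (by
      intro δ f f' hf
      funext ξ
      split_ifs with hx
      · rw [hf _ (hn δ ξ hx).1.2]
      · rfl)
  have he' : ∀ δ ξ, ξ < δ → e δ ξ = max (e (h δ (n δ ξ)) ξ) (n δ ξ) := fun δ ξ hx => by
    rw [congrFun (he δ) ξ, if_pos hx]
  have key : ∀ δ, (∀ k, {ξ | ξ < δ ∧ e δ ξ ≤ k}.Finite) ∧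
      ∀ α < δ, {ξ | ξ < α ∧ e α ξ ≠ e δ ξ}.Finite := by
    intro δ
    induction δ using WellFoundedLT.induction with
    | ind δ ih =>
      have sym : ∀ α < δ, ∀ β < δ, {ξ | ξ < α ∧ ξ < β ∧ e α ξ ≠ e β ξ}.Finite := by
        intro α ha β hb
        rcases lt_trichotomy α β with c | c | c
        · exact ((ih β hb).2 α c).subset fun ξ hx => ⟨hx.1, hx.2.2⟩
        · subst c; exact finite_empty.subset fun ξ hx => hx.2.2 rfl
        · exact ((ih α ha).2 β c).subset fun ξ hx => ⟨hx.2.1, hx.2.2.symm⟩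
      have one : ∀ m k, {ξ | h δ m < δ ∧ ξ ≤ h δ m ∧ e (h δ m) ξ ≤ k}.Finite := by
        intro m k
        by_cases c : h δ m < δ
        · refine (((ih _ c).1 k).insert (h δ m)).subset fun ξ hx => ?_
          rcases hx.2.1.eq_or_lt with d | d
          · exact Or.inl d
          · exact Or.inr ⟨d, hx.2.2⟩
        · exact finite_empty.subset fun ξ hx => c hx.1
      refine ⟨fun k => ?_, fun α ha => ?_⟩
      · refine ((finite_Iic k).biUnion fun m _ => one m k).subset fun ξ hx => ?_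
        have h1 := he' δ ξ hx.1
        have h2 := hx.2
        rw [h1, max_le_iff] at h2
        exact mem_biUnion (show n δ ξ ∈ Iic k from h2.2)
          ⟨(hn δ ξ hx.1).1.2, (hn δ ξ hx.1).1.1, h2.1⟩
      · obtain ⟨m, hm⟩ := hh δ ha
        have two : ∀ j, {ξ | h δ j < δ ∧ ξ < α ∧ ξ ≤ h δ j ∧ e α ξ ≠ max (e (h δ j) ξ) j}.Finite := by
          intro j
          by_cases c : h δ j < δ
          · refine (((one j j).union (sym α ha _ c)).insert (h δ j)).subset fun ξ hx => ?_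
            rcases hx.2.2.1.eq_or_lt with d | d
            · exact Or.inl d
            · right
              by_cases q : e (h δ j) ξ ≤ j
              · exact Or.inl ⟨c, d.le, q⟩
              · refine Or.inr ⟨hx.2.1, d, ?_⟩
                have := hx.2.2.2
                rwa [max_eq_left (not_le.1 q).le] at this
          · exact finite_empty.subset fun ξ hx => c hx.1
        refine ((finite_Iic m).biUnion fun j _ => two j).subset fun ξ hx => ?_
        have hx' : ξ < δ := hx.1.trans ha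
        refine mem_biUnion (show n δ ξ ∈ Iic m from
          (hn δ ξ hx').2 m (hm.symm ▸ hx.1.le) (hm.symm ▸ ha)) ?_
        refine ⟨(hn δ ξ hx').1.2, hx.1, (hn δ ξ hx').1.1, ?_⟩
        rw [← he' δ ξ hx']
        exact hx.2
  refine ⟨e, fun δ => (key δ).1, fun α β => ?_⟩
  rcases lt_trichotomy α β with c | c | c
  · exact ((key β).2 α c).subset fun ξ hx => ⟨hx.1, hx.2.2⟩
  · subst c; exact finite_empty.subset fun ξ hx => hx.2.2 rfl
  · exact ((key α).2 β c).subset fun ξ hx => ⟨hx.2.1, hx.2.2.symm⟩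

abbrev F (S : Type) := Lex (S → ℚ≥0)

omit [WellFoundedLT S] in
theorem lt_of {a b : F S} (i : S) (h : ∀ j < i, a j = b j) (h' : a i < b i) : a < b := ⟨i, h, h'⟩

theorem le_apply {a b : F S} (hab : a ≤ b) (i : S) (h : ∀ j < i, a j = b j) : a i ≤ b i :=
  not_lt.1 fun hc => (lt_of i (fun j hj => (h j hj).symm) hc).not_ge hab

theorem le_of {a b : F S} (h : ∀ i, a i ≤ b i) : a ≤ b :=
  Pi.toLex_monotone (a := ofLex a) (b := ofLex b) h

theorem conv {a b x : F S} (h1 : a ≤ x) (h2 : x ≤ b) {β : S} (h : ∀ j ≤ β, a j = b j) :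
    ∀ j ≤ β, x j = a j := by
  intro j
  induction j using WellFoundedLT.induction with
  | ind j ih =>
    intro hj
    have q : ∀ i < j, x i = a i := fun i hi => ih i hi (hi.le.trans hj)
    refine le_antisymm ?_ (le_apply h1 j fun i hi => (q i hi).symm)
    rw [h j hj]
    exact le_apply h2 j fun i hi => (q i hi).trans (h i (hi.le.trans hj))

/-- `t` is a node of height `α`. -/
def Node (e : S → S → ℕ) (t : F S) (α : S) : Prop :=
  (∀ ξ, α < ξ → t ξ = 0) ∧ {ξ | ξ < α ∧ t ξ ≠ e α ξ}.Finite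

/-- Cut `t` at `β` and put the value `q` there. -/
noncomputable def cut (t : F S) (β : S) (q : ℚ≥0) : F S :=
  toLex fun ξ => if ξ < β then t ξ else if ξ = β then q else 0

omit [WellFoundedLT S] in
theorem cut_lt {t : F S} {β ξ : S} {q : ℚ≥0} (h : ξ < β) : cut t β q ξ = t ξ := if_pos h

omit [WellFoundedLT S] in
theorem cut_eq {t : F S} {β : S} {q : ℚ≥0} : cut t β q β = q :=
  (if_neg (lt_irrefl β)).trans (if_pos rfl)

omit [WellFoundedLT S] in
theorem cut_gt {t : F S} {β ξ : S} {q : ℚ≥0} (h : β < ξ) : cut t β q ξ = 0 :=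
  (if_neg h.not_gt).trans (if_neg h.ne')

variable {e : S → S → ℕ}

omit [WellFoundedLT S] in
theorem node_cut (h2 : ∀ α β, {ξ | ξ < α ∧ ξ < β ∧ e α ξ ≠ e β ξ}.Finite) {t : F S} {α β : S}
    (ht : Node e t α) (hβ : ∀ ξ < β, ξ ≤ α) (q : ℚ≥0) : Node e (cut t β q) β := by
  refine ⟨fun ξ hx => cut_gt hx, ((ht.2.union (h2 α β)).insert α).subset fun ξ hx => ?_⟩
  rcases (hβ ξ hx.1).eq_or_lt with d | d
  · exact Or.inl d
  · right
    by_cases c : t ξ = e α ξ
    · refine Or.inr ⟨d, hx.1, fun w => hx.2 ?_⟩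
      rw [cut_lt hx.1, c, w]
    · exact Or.inl ⟨d, c⟩

omit [WellFoundedLT S] in
theorem node_fin (h1 : ∀ δ k, {ξ | ξ < δ ∧ e δ ξ ≤ k}.Finite) {t : F S} {α : S}
    (ht : Node e t α) (q : ℚ≥0) : {ξ | ξ < α ∧ t ξ ≤ q}.Finite := by
  obtain ⟨k, hk⟩ := exists_nat_ge q
  refine (ht.2.union (h1 α k)).subset fun ξ hx => ?_
  by_cases c : t ξ = e α ξ
  · refine Or.inr ⟨hx.1, ?_⟩
    have := hx.2.trans hk
    rw [c] at this
    exact_mod_cast this
  · exact Or.inl ⟨hx.1, c⟩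

omit [WellFoundedLT S] in
theorem cIic (hc : ∀ a : S, (Iio a).Countable) (a : S) : (Iic a).Countable := by
  rw [← Iio_insert]; exact (hc a).insert a

omit [WellFoundedLT S] in
theorem node_count (hc : ∀ a : S, (Iio a).Countable) (β : S) :
    {t : F S | ∃ α ≤ β, Node e t α}.Countable := by
  classical
  have : ∀ α, {t : F S | Node e t α}.Countable := by
    intro α
    let g : S → ℚ≥0 := fun ξ => if ξ < α then e α ξ else 0
    have hs : (Iic α ×ˢ (univ : Set ℚ≥0)).Countable := (cIic hc α).prod countable_univ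
    refine MapsTo.countable_of_injOn (f := fun t : F S => {p : S × ℚ≥0 | t p.1 = p.2 ∧ p.2 ≠ g p.1})
      (fun t ht => ?_) (fun t _ t' _ htt => ?_) (countable_ofPred_finite_subset hs)
    · refine ⟨((ht.2.insert α).image fun ξ => (ξ, t ξ)).subset ?_, ?_⟩
      · rintro ⟨ξ, q⟩ ⟨hq', hq⟩
        obtain rfl : t ξ = q := hq'
        refine ⟨ξ, ?_, rfl⟩
        rcases lt_trichotomy ξ α with c | c | c
        · exact Or.inr ⟨c, by simpa [g, c] using hq⟩
        · exact Or.inl c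
        · exact absurd (by simp [g, c.not_gt, ht.1 ξ c]) hq
      · rintro ⟨ξ, q⟩ ⟨hq', hq⟩
        obtain rfl : t ξ = q := hq'
        refine ⟨not_lt.1 fun c => hq ?_, trivial⟩
        simp [g, c.not_gt, ht.1 ξ c]
    · refine funext fun ξ => ?_
      have htt' := fun q => Set.ext_iff.1 htt (ξ, q)
      by_cases c : t ξ = g ξ
      · by_contra d
        have := (htt' (t' ξ)).2 ⟨rfl, fun w => d (c.trans w.symm)⟩
        exact d this.1
      · exact ((htt' (t ξ)).1 ⟨rfl, c⟩).1.symm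
  refine ((cIic hc β).biUnion fun α _ => this α).mono ?_
  rintro t ⟨α, h1, h2⟩
  exact mem_biUnion h1 h2

theorem exists_fib {X Y : Type*} (f : X → Y) {U : Set X} (hU : ¬ U.Countable) {C : Set Y}
    (hC : C.Countable) (hf : ∀ x ∈ U, f x ∈ C) : ∃ c, ¬ {x | x ∈ U ∧ f x = c}.Countable := by
  by_contra hc
  push Not at hc
  refine hU ((hC.biUnion fun c _ => hc c).mono fun x hx => ?_)
  exact mem_biUnion (hf x hx) ⟨hx, rfl⟩

/-- The line. -/
abbrev L (e : S → S → ℕ) := {t : F S // ∃ α, Node e t α}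

noncomputable def ht (t : L e) : S := t.2.choose

omit [WellFoundedLT S] in
theorem ht_spec (t : L e) : Node e t.1 (ht t) := t.2.choose_spec

omit [WellFoundedLT S] in
theorem cls (hc : ∀ a : S, (Iio a).Countable)
    (h2 : ∀ α β, {ξ | ξ < α ∧ ξ < β ∧ e α ξ ≠ e β ξ}.Finite) {X : Type*} (g : X → L e)
    {U : Set X} (hU : ¬ U.Countable) (β : S) :
    ∃ V ⊆ U, ¬ V.Countable ∧ ∀ x ∈ V, ∀ y ∈ V, ∀ ξ ≤ β, (g x).1 ξ = (g y).1 ξ := by
  have hr : ∀ t : L e, ∀ ξ ≤ β, cut t.1 β (t.1 β) ξ = t.1 ξ := fun t ξ hx => by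
    rcases hx.eq_or_lt with c | c
    · rw [c, cut_eq]
    · exact cut_lt c
  obtain ⟨c, hc'⟩ := exists_fib (fun x => cut (g x).1 β ((g x).1 β)) hU (node_count (e := e) hc β)
    (fun x _ => by
      rcases le_total β (ht (g x)) with d | d
      · exact ⟨β, le_rfl, node_cut h2 (ht_spec _) (fun ξ hx => hx.le.trans d) _⟩
      · refine ⟨ht (g x), d, ?_⟩
        have : cut (g x).1 β ((g x).1 β) = (g x).1 := funext fun ξ => by
          rcases le_or_gt ξ β with c | c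
          · exact hr _ ξ c
          · exact (cut_gt c).trans ((ht_spec _).1 ξ (d.trans_lt c)).symm
        rw [this]
        exact ht_spec _)
  refine ⟨_, fun x hx => hx.1, hc', fun x hx y hy ξ hξ => ?_⟩
  rw [← hr _ ξ hξ, ← hr _ ξ hξ, hx.2, hy.2]

theorem no_seq (hS : RegUnc S) (hc : ∀ a : S, (Iio a).Countable)
    (h1 : ∀ δ k, {ξ | ξ < δ ∧ e δ ξ ≤ k}.Finite)
    (h2 : ∀ α β, {ξ | ξ < α ∧ ξ < β ∧ e α ξ ≠ e β ξ}.Finite) (g : S → L e)
    (hi : Function.Injective g) (hg : Monotone g ∨ Antitone g) : False := by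
  have hU : ¬ (univ : Set S).Countable := fun h => by
    have := le_aleph0_iff_set_countable.2 h
    rw [mk_univ] at this
    exact hS.unc.not_ge this
  have s1 : ∀ β, ∃ i, ∀ j, i ≤ j → ∀ ξ ≤ β, (g j).1 ξ = (g i).1 ξ := by
    intro β
    obtain ⟨V, -, v2, v3⟩ := cls hc h2 g hU β
    obtain ⟨i, hi⟩ : V.Nonempty := nonempty_iff_ne_empty.2 fun h => v2 (h ▸ countable_empty)
    refine ⟨i, fun j hj => ?_⟩
    obtain ⟨k, hk, hjk⟩ : ∃ k ∈ V, j ≤ k := by
      by_contra hh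
      push Not at hh
      exact v2 ((hc j).mono hh)
    rcases hg with hg | hg
    · exact conv (hg hj) (hg hjk) (v3 i hi k hk)
    · intro ξ hξ
      rw [conv (hg hjk) (hg hj) (v3 k hk i hi) ξ hξ, v3 k hk i hi ξ hξ]
  choose i hi' using s1
  obtain ⟨q, hq⟩ := exists_fib (fun β => (g (i β)).1 β) hU countable_univ (fun _ _ => trivial)
  have hinf : {β | β ∈ univ ∧ (g (i β)).1 β = q}.Infinite := fun h => hq h.countable
  obtain ⟨G, g1, g2, g3⟩ := hinf.exists_subset_countable_infinite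
  obtain ⟨b, hb⟩ := hS.bdd_countable g2
  have hb' : {j | ht (g j) ≤ b}.Countable := by
    refine MapsTo.countable_of_injOn (f := fun j => (g j).1) (fun j hj => ?_)
      (fun j _ k _ h => hi (Subtype.ext h)) (node_count (e := e) hc b)
    exact ⟨_, hj, ht_spec _⟩
  obtain ⟨j, hj⟩ := hS.bdd_countable (hb'.union (g2.image i))
  have hj1 : b < ht (g j) := not_le.1 fun c => lt_irrefl j (hj j (Or.inl c))
  refine g3 ((node_fin h1 (ht_spec (g j)) q).subset fun β hβ => ⟨(hb β hβ).trans hj1, ?_⟩)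
  rw [hi' β j (hj _ (Or.inr ⟨β, hβ, rfl⟩)).le β le_rfl]
  exact (g1 hβ).2.le

theorem no_real (hS : RegUnc S) (hc : ∀ a : S, (Iio a).Countable)
    (h2 : ∀ α β, {ξ | ξ < α ∧ ξ < β ∧ e α ξ ≠ e β ξ}.Finite) (X : Set (L e))
    (hX : ¬ X.Countable) (φ : X ↪o ℝ) : False := by
  have hU : ¬ (univ : Set X).Countable := fun h => hX (countable_coe_iff.1 (countable_univ_iff.1 h))
  obtain ⟨x₀, -⟩ : (univ : Set X).Nonempty :=
    nonempty_iff_ne_empty.2 fun h => hU (h ▸ countable_empty)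
  have hd : ∀ p : ℚ × ℚ, ∃ d : X, (∃ y : X, (p.1 : ℝ) < φ y ∧ φ y < p.2) →
      (p.1 : ℝ) < φ d ∧ φ d < p.2 := by
    intro p
    by_cases c : ∃ y : X, (p.1 : ℝ) < φ y ∧ φ y < p.2
    · exact ⟨c.choose, fun _ => c.choose_spec⟩
    · exact ⟨x₀, fun h => absurd h c⟩
  choose d hd using hd
  obtain ⟨β, hβ⟩ := hS.bdd_countable (countable_range fun p => ht (d p).1)
  obtain ⟨V, -, v2, v3⟩ := cls hc h2 (fun x : X => x.1) hU β
  have hinf : V.Infinite := fun h => v2 h.countable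
  obtain ⟨s, s1, s2⟩ := hinf.exists_subset_card_eq 3
  let o := s.orderEmbOfFin s2
  have ho : ∀ k, o k ∈ V := fun k => s1 (s.orderEmbOfFin_mem s2 k)
  obtain ⟨p, p1, p2⟩ := exists_rat_btwn (φ.strictMono (o.strictMono (show (0 : Fin 3) < 1 by decide)))
  obtain ⟨q, q1, q2⟩ := exists_rat_btwn (φ.strictMono (o.strictMono (show (1 : Fin 3) < 2 by decide)))
  obtain ⟨d1, d2⟩ := hd (p, q) ⟨o 1, p2, q1⟩
  have e1 : o 0 < d (p, q) := φ.lt_iff_lt.1 (p1.trans d1)
  have e2 : d (p, q) < o 2 := φ.lt_iff_lt.1 (d2.trans q2)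
  have e3 := conv (a := (o 0).1.1) (b := (o 2).1.1) (x := (d (p, q)).1.1) e1.le e2.le
    (v3 _ (ho 0) _ (ho 2))
  refine e1.not_ge (show (d (p, q)).1.1 ≤ (o 0).1.1 from le_of fun ξ => ?_)
  rcases le_or_gt ξ β with c | c
  · exact (e3 ξ c).le
  · rw [(ht_spec _).1 ξ ((hβ _ ⟨(p, q), rfl⟩).trans c)]
    exact zero_le

theorem unc (hS : RegUnc S)
    (h2 : ∀ α β, {ξ | ξ < α ∧ ξ < β ∧ e α ξ ≠ e β ξ}.Finite) : Uncountable (L e) := by
  refine ⟨fun h => ?_⟩
  obtain ⟨β, hβ⟩ := hS.bdd_countable (countable_range fun t : L e => ht t)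
  have hn : Node e (cut (toLex fun ξ => (e β ξ : ℚ≥0)) β 1) β :=
    ⟨fun ξ hx => cut_gt hx, finite_empty.subset fun ξ hx => hx.2 (cut_lt hx.1)⟩
  have := (ht_spec ⟨_, β, hn⟩).1 β (hβ _ ⟨_, rfl⟩)
  exact one_ne_zero (cut_eq.symm.trans this)

theorem dense (h2 : ∀ α β, {ξ | ξ < α ∧ ξ < β ∧ e α ξ ≠ e β ξ}.Finite) :
    DenselyOrdered (L e) := by
  refine ⟨fun a b hab => ?_⟩
  obtain ⟨i, i1, i2⟩ := (show a.1 < b.1 from hab)
  obtain ⟨q, q1, q2⟩ := exists_between i2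
  have hi : i ≤ ht b := not_lt.1 fun c => by
    have := (ht_spec b).1 i c
    exact (i2.trans_eq this).not_ge zero_le
  refine ⟨⟨cut b.1 i q, i, node_cut h2 (ht_spec b) (fun ξ hx => hx.le.trans hi) q⟩, ?_, ?_⟩
  · exact lt_of i (fun j hj => (i1 j hj).trans (cut_lt hj).symm) (q1.trans_eq cut_eq.symm)
  · exact lt_of i (fun j hj => cut_lt hj) (cut_eq.trans_lt q2)

theorem strat (hS : RegUnc S) (h1 : ∀ δ k, {ξ | ξ < δ ∧ e δ ξ ≤ k}.Finite)
    (h2 : ∀ α β, {ξ | ξ < α ∧ ξ < β ∧ e α ξ ≠ e β ξ}.Finite) :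
    ∃ σ : L e → L e, (∀ a, a < σ a) ∧ (∀ a x, a < x → x < σ a → σ x < σ a) ∧
      ∀ a : ℕ → L e, (∀ n, a n < a (n + 1) ∧ a (n + 1) < σ (a n)) →
        ∀ x, ¬ ∀ n, a n < x ∧ x < σ (a n) := by
  have hs : ∀ a : L e, ∃ s, ht a < s ∧ ∀ ξ < s, ξ ≤ ht a := fun a => by
    obtain ⟨s, s1, s2⟩ := exists_min (fun s => ht a < s) (hS.exists_gt _)
    exact ⟨s, s1, fun ξ hx => not_lt.1 (s2 ξ hx)⟩
  choose s s1 s2 using hs
  let σ : L e → L e := fun a => ⟨cut a.1 (s a) 1, s a, node_cut h2 (ht_spec a) (s2 a) 1⟩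
  have k : ∀ a x : L e, a < x → x < σ a →
      (∀ ξ < s a, x.1 ξ = a.1 ξ) ∧ x.1 (s a) < 1 ∧ s a ≤ ht x := by
    intro a x c1 c2
    have k1 : ∀ ξ < s a, x.1 ξ = a.1 ξ := fun ξ hx =>
      conv (a := a.1) (x := x.1) (b := (σ a).1) c1.le c2.le
        (fun j hj => (cut_lt (hj.trans_lt (s1 a))).symm) ξ (s2 a ξ hx)
    refine ⟨k1, not_le.1 fun c => c2.not_ge (show (σ a).1 ≤ x.1 from le_of fun ξ => ?_),
      not_lt.1 fun c => c1.ne (Subtype.ext (funext fun ξ => ?_))⟩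
    · rcases lt_trichotomy ξ (s a) with d | d | d
      · exact ((cut_lt d).trans (k1 ξ d).symm).le
      · rw [d]; exact cut_eq.trans_le c
      · exact (cut_gt d).trans_le zero_le
    · rcases lt_or_ge ξ (s a) with d | d
      · exact (k1 ξ d).symm
      · exact ((ht_spec a).1 ξ ((s1 a).trans_le d)).trans ((ht_spec x).1 ξ (c.trans_le d)).symm
  refine ⟨σ, fun a => ?_, fun a x c1 c2 => ?_, fun a ha x hx => ?_⟩
  · refine lt_of (s a) (fun j hj => (cut_lt hj).symm) ?_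
    rw [(ht_spec a).1 _ (s1 a)]
    exact zero_lt_one.trans_eq cut_eq.symm
  · obtain ⟨k1, k2, k3⟩ := k a x c1 c2
    have : s a < s x := k3.trans_lt (s1 x)
    exact lt_of (s a) (fun j hj => (cut_lt (hj.trans this)).trans ((k1 j hj).trans (cut_lt hj).symm))
      ((cut_lt this).trans_lt (k2.trans_eq cut_eq.symm))
  · have hm : StrictMono fun n => s (a n) := strictMono_nat_of_lt_succ fun n =>
      (k _ _ (ha n).1 (ha n).2).2.2.trans_lt (s1 _)
    refine infinite_range_of_injective hm.injective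
      ((node_fin h1 (ht_spec x) 1).subset ?_)
    rintro _ ⟨n, rfl⟩
    exact ⟨(hm (Nat.lt_succ_self n)).trans_le (k _ _ (hx (n + 1)).1 (hx (n + 1)).2).2.2,
      (k _ _ (hx n).1 (hx n).2).2.1.le⟩

end Pool.Agent.H42.Aron
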