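import Mathlib

/-! Definitions: Ascoli spaces, `k_ℝ`-spaces, cosmic spaces. -/

namespace Pool.Agent.H42.AscDefs

/-- Every compact subset of `C_k(X)` is evenly continuous. -/
def Ascoli (X : Type) [TopologicalSpace X] : Prop :=
  ∀ K : Set C(X, ℝ), IsCompact K → Continuous fun p : X × K => p.2.1 p.1

/-- Every real function continuous on each compact set is continuous. -/
def KR (X : Type) [TopologicalSpace X] : Prop :=
  ∀ f : X → ℝ, (∀ K : Set X, IsCompact K → ContinuousOn f K) → Continuous f

/-- Regular with a countable network. -/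
def Cosmic (X : Type) [TopologicalSpace X] : Prop :=
  RegularSpace X ∧ ∃ 𝒩 : Set (Set X), 𝒩.Countable ∧
    ∀ (U : Set X) (x : X), IsOpen U → x ∈ U → ∃ N ∈ 𝒩, x ∈ N ∧ N ⊆ U

end Pool.Agent.H42.AscDefs
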