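import Pool.Agent.H42.TStar
import Pool.Agent.H42.AscDefs

/-! Under `𝔠 < 2 ^ ℵ₁`: a countable Ascoli space that is not a `k_ℝ`-space. -/

open Set Filter Cardinal Topology TopologicalSpace

namespace Pool.Agent.H42.Asc

open Pool.Agent.H42.Dirac Pool.Agent.H42.AscDefs

lemma asc {X : Type} [TopologicalSpace X] (h : ∀ (U : Set X) (x : X), IsOpen U → x ∈ closure U →
    ∃ s : ℕ → X, (∀ n, s n ∈ U) ∧ Tendsto s atTop (𝓝 x)) : Ascoli X := by
  intro K hK
  have key : ∀ (x : X) (ε : ℝ), 0 < ε → ∀ᶠ y in 𝓝 x, ∀ f ∈ K, dist (f y) (f x) ≤ ε := by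
    intro x ε hε
    by_contra hn
    have hU : IsOpen (⋃ f ∈ K, {y | ε < dist (f y) (f x)}) :=
      isOpen_biUnion fun f _ => isOpen_lt continuous_const (f.continuous.dist continuous_const)
    obtain ⟨s, hs, ht⟩ := h _ x hU (mem_closure_iff_frequently.2
      ((not_eventually.1 hn).mono fun y hy => by simpa using hy))
    choose f hf hf' using fun n => mem_iUnion₂.1 (hs n)
    obtain ⟨g, -, hg⟩ := hK.exists_mapClusterPt (f := atTop) (u := f)
      (tendsto_principal.2 (Eventually.of_forall hf))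
    have h1 : ∀ᶠ k in 𝓝 g, ∀ y ∈ insert x (range s), dist (g y) (k y) < ε / 3 :=
      Metric.tendstoUniformlyOn_iff.1 (ContinuousMap.tendsto_iff_forall_isCompact_tendstoUniformlyOn.1
        tendsto_id _ ht.isCompact_insert_range) _ (by positivity)
    obtain ⟨n, h2, h3⟩ := ((mapClusterPt_iff_frequently.1 hg _ h1).and_eventually
      (Metric.tendsto_nhds.1 ((g.continuous.tendsto x).comp ht) (ε / 3) (by positivity))).exists
    have a := h2 x (Or.inl rfl)
    have b := h2 (s n) (Or.inr ⟨n, rfl⟩)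
    have c : ε < dist (f n (s n)) (f n x) := hf' n
    have d := dist_triangle4 (f n (s n)) (g (s n)) (g x) (f n x)
    rw [dist_comm] at b
    simp only [Function.comp] at h3
    linarith
  refine continuous_iff_continuousAt.2 fun p => Metric.tendsto_nhds.2 fun ε hε => ?_
  have h1 := (continuous_fst.tendsto p).eventually (key p.1 (ε / 2) (by positivity))
  have h2 := Metric.tendsto_nhds.1 (((continuous_eval_const p.1).comp
    (continuous_subtype_val.comp continuous_snd)).tendsto p) (ε / 2) (by positivity)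
  filter_upwards [h1, h2] with q a b
  have c := a _ q.2.2
  have d := dist_triangle (q.2.1 q.1) (q.2.1 p.1) (p.2.1 p.1)
  simp only [Function.comp] at b
  linarith

lemma tower : ∃ x : W → Set ℕ,
    ∀ α β, α < β → (x β \ x α).Finite ∧ (x α \ x β).Infinite := by
  obtain ⟨f, hf⟩ := TStar.rec_o (T := W) (σ := Set ℕ)
    (fun α g s => s.Infinite ∧ ∀ β, (s \ g β).Finite ∧ (g β \ s).Infinite)
    (fun α g hg => by
      have := (Iio_count α).to_subtype
      obtain ⟨E, hE, hEg⟩ := Tau.pseudo g (fun β => (hg β).1) fun β γ => by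
        rcases lt_trichotomy β γ with h | rfl | h
        exacts [Or.inr ((hg γ).2 ⟨β, h⟩).1, Or.inl (by simp), Or.inl ((hg β).2 ⟨γ, h⟩).1]
      let u := Set.Infinite.natEmbedding _ hE
      refine ⟨range fun n => (u (2 * n) : ℕ), infinite_range_of_injective fun a b h => by
        have := u.injective (Subtype.ext h); omega, fun β => ⟨(hEg β).subset
        (sdiff_subset_sdiff_left (range_subset_iff.2 fun n => (u _).2)), fun h => ?_⟩⟩
      refine infinite_range_of_injective (f := fun n => (u (2 * n + 1) : ℕ)) (fun a b h => by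
        have := u.injective (Subtype.ext h); omega) (((hEg β).union h).subset ?_)
      rintro _ ⟨n, rfl⟩
      by_cases h' : (u (2 * n + 1) : ℕ) ∈ g β
      · refine Or.inr ⟨h', fun ⟨k, hk⟩ => ?_⟩
        have := u.injective (Subtype.ext hk); omega
      · exact Or.inl ⟨(u _).2, h'⟩)
  exact ⟨f, fun α β h => (hf β).2 ⟨α, h⟩⟩

lemma grp : ∃ D : AddSubgroup (W → ZMod 2), (D : Set (W → ZMod 2)).Countable ∧
    Dense (D : Set (W → ZMod 2)) ∧ ∀ O : Set (W → ZMod 2), IsOpen O → 0 ∈ closure O →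
      ∃ s : ℕ → W → ZMod 2, (∀ n, s n ∈ O ∧ s n ∈ D) ∧ Tendsto s atTop (𝓝 0) := by
  classical
  obtain ⟨x, hx⟩ := tower
  let D : AddSubgroup (W → ZMod 2) :=
    { carrier := {d | ∃ n, ∀ β γ, (∀ i < n, i ∈ x β ↔ i ∈ x γ) → d β = d γ}
      zero_mem' := ⟨0, fun _ _ _ => rfl⟩
      add_mem' := fun ⟨m, ha⟩ ⟨n, hb⟩ => ⟨max m n, fun β γ h => congrArg₂ (· + ·)
        (ha β γ fun i hi => h i (lt_max_of_lt_left hi))
        (hb β γ fun i hi => h i (lt_max_of_lt_right hi))⟩
      neg_mem' := fun ⟨m, ha⟩ => ⟨m, fun β γ h => congrArg Neg.neg (ha β γ h)⟩ }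
  have hint : ∀ (I : Finset W) (y : W → ZMod 2), ∃ d ∈ D, ∀ i ∈ I, d i = y i := fun I y => by
    have : ∀ᶠ n in atTop, ∀ β ∈ I, ∀ γ ∈ I, (∀ i < n, i ∈ x β ↔ i ∈ x γ) → β = γ :=
      (eventually_all_finset I).2 fun β _ => (eventually_all_finset I).2 fun γ _ => by
        rcases lt_trichotomy β γ with h | h | h
        · obtain ⟨i, h1, h2⟩ := (hx _ _ h).2.nonempty
          exact (eventually_gt_atTop i).mono fun n hn h' => absurd ((h' i hn).1 h1) h2
        · exact Eventually.of_forall fun _ _ => h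
        · obtain ⟨i, h1, h2⟩ := (hx _ _ h).2.nonempty
          exact (eventually_gt_atTop i).mono fun n hn h' => absurd ((h' i hn).2 h1) h2
    obtain ⟨n, hn⟩ := this.exists
    refine ⟨fun β => ∑ γ ∈ I, if ∀ i < n, i ∈ x β ↔ i ∈ x γ then y γ else 0,
      ⟨n, fun β γ h => Finset.sum_congr rfl fun δ _ => if_congr
        (forall₂_congr fun i hi => by rw [h i hi]) rfl rfl⟩, fun β hβ => ?_⟩
    beta_reduce
    rw [Finset.sum_eq_single β (fun γ hγ hne => if_neg fun h => hne (hn β hβ γ hγ h).symm)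
      (fun h => absurd hβ h), if_pos fun _ _ => Iff.rfl]
  have hbox : ∀ (y : W → ZMod 2) (O : Set (W → ZMod 2)), O ∈ 𝓝 y →
      ∃ I : Finset W, ∀ z, (∀ i ∈ I, z i = y i) → z ∈ O := fun y O hO => by
    rw [nhds_pi, Filter.mem_pi'] at hO
    obtain ⟨I, v, hv, hI⟩ := hO
    exact ⟨I, fun z hz => hI fun i hi => hz i hi ▸ mem_of_mem_nhds (hv i)⟩
  refine ⟨D, ?_, fun y => mem_closure_iff_nhds.2 fun O hO => ?_, fun O hO h0 => ?_⟩
  · refine (countable_range fun (p : Σ n, (Fin n → Prop) → ZMod 2) β =>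
      p.2 fun i => i.1 ∈ x β).mono ?_
    rintro d ⟨n, hn⟩
    refine ⟨⟨n, fun s => if h : ∃ β, s = fun i => i.1 ∈ x β then d h.choose else 0⟩,
      funext fun β => ?_⟩
    have h : ∃ γ, (fun i : Fin n => i.1 ∈ x β) = fun i => i.1 ∈ x γ := ⟨β, rfl⟩
    exact (dif_pos h).trans (hn _ _ fun i hi => (congrFun h.choose_spec ⟨i, hi⟩).to_iff).symm
  · obtain ⟨I, hI⟩ := hbox y O hO
    obtain ⟨d, hd, h⟩ := hint I y
    exact ⟨d, hI d h, hd⟩
  have op : ∀ i, IsOpen {y : W → ZMod 2 | y i = 0} := fun i =>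
    (isOpen_discrete ({0} : Set (ZMod 2))).preimage
      (continuous_apply (A := fun _ : W => ZMod 2) i)
  have : ∀ H : Finset W, ∃ (y : W → ZMod 2) (I : Finset W), (∀ i ∈ H, y i = 0) ∧
      ∀ z, (∀ i ∈ I, z i = y i) → z ∈ O := fun H => by
    obtain ⟨y, h1, h2⟩ := mem_closure_iff_nhds.1 h0 {y | ∀ i ∈ H, y i = 0}
      ((eventually_all_finset H).2 fun i _ => (op i).mem_nhds rfl)
    obtain ⟨I, hI⟩ := hbox y O (hO.mem_nhds h2)
    exact ⟨y, I, h1, hI⟩
  choose Y I hY hI using this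
  let H : ℕ → Finset W := fun n => Nat.rec ∅ (fun _ r => r ∪ I r) n
  have hH : Monotone H := monotone_nat_of_le_succ fun n => Finset.subset_union_left
  obtain ⟨γ, hγ⟩ := bdd _ (countable_iUnion fun n => (I (H n)).countable_toSet)
  obtain ⟨α, hα⟩ := bdd {γ} (countable_singleton γ)
  obtain ⟨e, he⟩ := (Iic_count α).exists_eq_range ⟨α, mem_Iic.2 le_rfl⟩
  have hm : ∀ n, ∃ m, n < m ∧ m ∉ x α ∧ ∀ i ∈ I (H n), m ∈ x i := fun n => by
    obtain ⟨m, h1, h2⟩ := ((hx _ _ (hα γ rfl)).2.sdiff ((I (H n)).finite_toSet.biUnion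
      fun i hi => (hx i γ (hγ i (mem_iUnion.2 ⟨n, hi⟩))).1)).exists_gt n
    exact ⟨m, h2, h1.1.2, fun i hi => by_contra fun h => h1.2 (mem_iUnion₂.2 ⟨i, hi, h1.1.1, h⟩)⟩
  choose m hm1 hm2 hm3 using hm
  choose d hd hd' using fun n => hint (I (H n) ∪ (Finset.range n).image e)
    fun i => if i ∈ I (H n) then Y (H n) i else 0
  refine ⟨fun n β => if m n ∈ x β then d n β else 0, fun n => ⟨hI (H n) _ fun i hi => ?_, ?_⟩,
    tendsto_pi_nhds.2 fun β => tendsto_const_nhds.congr' ?_⟩
  · simp only [hm3 n i hi, if_true, hd' n i (Finset.mem_union_left _ hi), hi]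
  · obtain ⟨k, hk⟩ := hd n
    exact ⟨max k (m n + 1), fun β δ h => if_congr (h _ (by omega))
      (hk β δ fun i hi => h i (by omega)) rfl⟩
  rcases le_or_gt β α with h | h
  · obtain ⟨k, rfl⟩ : β ∈ range e := he ▸ h
    have h1 : ∀ᶠ n in atTop, e k ∈ I (H n) → Y (H n) (e k) = 0 := by
      by_cases h2 : ∃ j, e k ∈ I (H j)
      · obtain ⟨j, hj⟩ := h2
        exact (eventually_ge_atTop (j + 1)).mono fun n hn _ =>
          hY _ _ (hH hn (Finset.mem_union_right _ hj))
      · exact Eventually.of_forall fun n hn => absurd ⟨n, hn⟩ h2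
    filter_upwards [h1, eventually_gt_atTop k] with n a b
    rw [hd' n _ (Finset.mem_union_right _ (Finset.mem_image_of_mem _ (Finset.mem_range.2 b)))]
    split_ifs with c d'
    exacts [(a d').symm, rfl, rfl]
  · obtain ⟨N, hN⟩ := (hx _ _ h).1.bddAbove
    filter_upwards [eventually_ge_atTop N] with n hn
    exact (if_neg fun h' => absurd (hN ⟨h', hm2 n⟩) (by have := hm1 n; omega)).symm

theorem main (hc : (𝔠 : Cardinal.{0}) < 2 ^ ℵ₁) : ∃ (X : Type) (_ : TopologicalSpace X),
    T35Space X ∧ Countable X ∧ Cosmic X ∧ Ascoli X ∧ ¬ KR X := by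
  classical
  obtain ⟨D, hD, hd, hk⟩ := grp
  have := hD.to_subtype
  obtain ⟨g, hg⟩ : ∃ g : W → ZMod 2, ∀ s : ℕ → W → ZMod 2, (∀ n, s n ∈ D) →
      ¬ Tendsto s atTop (𝓝 g) := by
    by_contra h
    push Not at h
    choose s h1 h2 using h
    have := mk_le_of_injective (f := fun g n => (⟨s g n, h1 g n⟩ : (D : Set (W → ZMod 2))))
      fun a b hab => tendsto_nhds_unique (h2 a) (by
        rw [show s a = s b from funext fun n => congrArg Subtype.val (congrFun hab n)]; exact h2 b)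
    rw [← power_def, ← power_def, W_card, show #(ZMod 2) = 2 by simp, mk_nat] at this
    exact hc.not_ge (this.trans ((power_le_power_right mk_le_aleph0).trans (by simp)))
  let X : Set (W → ZMod 2) := D ∪ (fun d => g + d) '' D
  have hX : Countable X := (hD.union (hD.image _)).to_subtype
  have hadd : ∀ x ∈ X, ∀ d ∈ D, x + d ∈ X := by
    rintro _ (hx | ⟨x, hx, rfl⟩) d h
    exacts [Or.inl (D.add_mem hx h), Or.inr ⟨_, D.add_mem hx h, (add_assoc _ _ _).symm⟩]
  refine ⟨X, inferInstance, inferInstance, hX, ⟨inferInstance, range singleton, countable_range _,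
    fun U x _ hx => ⟨_, ⟨x, rfl⟩, rfl, singleton_subset_iff.2 hx⟩⟩, asc fun U x hU hx => ?_,
    fun h => ?_⟩
  · obtain ⟨O, hO, rfl⟩ := isOpen_induced_iff.1 hU
    obtain ⟨s, h1, h2⟩ := hk ((fun y => x.1 + y) ⁻¹' O) (hO.preimage (continuous_const_add _)) (by
      refine (Homeomorph.addLeft x.1).preimage_closure O ▸ ?_
      simpa using closure_mono (image_preimage_subset _ _) (closure_subtype.1 hx))
    exact ⟨fun n => ⟨x.1 + s n, hadd _ x.2 _ (h1 n).2⟩, fun n => (h1 n).1,
      tendsto_subtype_rng.2 (by simpa using h2.const_add x.1)⟩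
  have hc := h (fun x => if x.1 ∈ D then 0 else 1) fun K hK => by
    have : ∀ p : X × X, ∃ i, p.1 ≠ p.2 → p.1.1 i ≠ p.2.1 i := fun p => by
      by_cases h : p.1 = p.2
      · exact ⟨(Cardinal.infinite_iff.2 (W_card ▸ aleph0_le_aleph 1)).nonempty.some,
          fun h' => absurd h h'⟩
      · obtain ⟨i, hi⟩ := Function.ne_iff.1 (Subtype.coe_ne_coe.2 h)
        exact ⟨i, fun _ => hi⟩
    choose j hj using this
    have := isCompact_iff_compactSpace.1 hK
    have := (Continuous.isClosedEmbedding (f := fun (y : K) p => y.1.1 (j p))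
      (continuous_pi fun p => (continuous_apply _).comp
        (continuous_subtype_val.comp continuous_subtype_val)) fun a b hab => Subtype.ext
          (by_contra fun h => hj (a.1, b.1) h (congrFun hab _))).isEmbedding.secondCountableTopology
    refine continuousOn_iff_continuous_domRestrict.2 (SeqContinuous.continuous fun s y hs => ?_)
    have hs' := (continuous_subtype_val.comp continuous_subtype_val).tendsto y |>.comp hs
    refine tendsto_const_nhds.congr' (by_contra fun hn => ?_)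
    obtain ⟨φ, h1, h2⟩ := extraction_of_frequently_atTop (not_eventually.1 hn)
    have h3 := hs'.comp h1.tendsto_atTop
    by_cases hy : y.1.1 ∈ D
    · have h4 : ∀ n, (s (φ n)).1.1 ∉ D := fun n h => h2 n (by simp [hy, h])
      choose d h5 h6 using fun n => (s (φ n)).1.2.resolve_left (h4 n)
      refine hg (fun n => y.1.1 - d n) (fun n => D.sub_mem hy (h5 n)) ?_
      convert (h3.const_sub (y.1.1 + g)) using 2 with n
      · simp only [Function.comp, ← h6 n]; abel
      · simp
    · have h4 : ∀ n, (s (φ n)).1.1 ∈ D := fun n => by_contra fun h => h2 n (by simp [hy, h])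
      obtain ⟨d, h5, h6⟩ := y.1.2.resolve_left hy
      refine hg (fun n => (s (φ n)).1.1 - d) (fun n => D.sub_mem (h4 n) h5) ?_
      exact (eq_sub_of_add_eq h6).symm ▸ h3.sub_const d
  have hgX : g ∈ X := Or.inr ⟨0, D.zero_mem, add_zero g⟩
  have h1 : (⟨g, hgX⟩ : X) ∈ closure (Subtype.val ⁻¹' D) := closure_subtype.2 (closure_mono
    (by intro d h; exact ⟨⟨d, Or.inl h⟩, h, rfl⟩) (hd g))
  have h2 := closure_minimal (t := {x : X | (if x.1 ∈ D then 0 else 1 : ℝ) = 0})
    (fun x hx => if_pos hx) (isClosed_eq hc continuous_const) h1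
  have h3 : g ∉ D := fun h => hg (fun _ => g) (fun _ => h) tendsto_const_nhds
  simp [h3] at h2

end Pool.Agent.H42.Asc
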