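import Pool.Agent.H42.Bau6

/-! Strongly and totally avoiding sets. -/

namespace Pool.Agent.H42.Bau

open Set Cardinal Filter Topology PiNat IMeag

/-- `X` strongly avoids `Y` -/
def SAv (X Y : Set (ℕ → Bool)) : Prop :=
  ∀ Z ⊆ X, #Z = #X → ∀ f : Z → Y, Continuous f → #(range f) < #X

/-- `X` totally avoids `Y` -/
def TAv (X Y : Set (ℕ → Bool)) : Prop :=
  ∀ Z ⊆ X, #Z = #X → ∀ f : Z → Y, Continuous f → (range f).Countable

def Uc (c : Set (List Bool)) : Set (ℕ → Bool) := {x | ∃ k, res x k ∈ c}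

open Classical in
noncomputable def Fc (c : ℕ → Set (List Bool)) (x : ℕ → Bool) : ℕ → Bool :=
  fun n => decide (x ∈ Uc (c n))

theorem Uc_open (c) : IsOpen (Uc c) := isOpen_iff_forall_mem_open.2 fun x ⟨k, a⟩ =>
  ⟨cylinder x k, fun y b => ⟨k, by rw [cylinder_eq_res] at b; exact b ▸ a⟩, isOpen_cylinder _ _ _,
    self_mem_cylinder _ _⟩

theorem ex_code {Z Y : Set (ℕ → Bool)} {f : Z → Y} (h : Continuous f) :
    ∃ c, ∀ z : Z, (f z).1 = Fc c z := by
  refine ⟨fun n => {s | ∀ z : Z, res z.1 s.length = s → (f z).1 n = true}, fun z => funext fun n => ?_⟩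
  have : (f z).1 n = true ↔ z.1 ∈ Uc {s | ∀ z : Z, res z.1 s.length = s → (f z).1 n = true} := by
    refine ⟨fun a => ?_, fun ⟨k, a⟩ => a z (by simp)⟩
    obtain ⟨O, b, c⟩ := isOpen_induced_iff.1 ((isOpen_discrete {true}).preimage
      ((continuous_apply n).comp (continuous_subtype_val.comp h)))
    obtain ⟨k, d⟩ := ex_cyl b (c.ge a : z.1 ∈ O)
    exact ⟨k, fun w e => c.le (d (by rw [cylinder_eq_res]; simpa using e))⟩
  simp only [Fc, ← this, Bool.decide_eq_true]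

theorem fibers (c) : ∃ G : Set (ℕ → Bool), G.Countable ∧ ∀ y ∉ G, {x | Fc c x ≠ y} ∈ residual _ := by
  let D := ⋂ n, Uc (c n) ∪ interior (Uc (c n))ᶜ
  have hD : D ∈ residual _ := countable_iInter_mem.2 fun n => residual_of_dense_open
    ((Uc_open _).union isOpen_interior) (by
      rw [interior_compl, dense_iff_closure_eq, closure_union]
      exact eq_univ_of_forall fun x => (em _).imp_right fun a => subset_closure a)
  refine ⟨⋃ s : List Bool, {y | ∀ x ∈ D, res x s.length = s → Fc c x = y} ∩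
    {y | ∃ x ∈ D, res x s.length = s}, countable_iUnion fun s => Subsingleton.countable ?_,
    fun y a => ?_⟩
  · rintro y ⟨a, x, b, d⟩ y' ⟨a', -⟩
    rw [← a x b d, a' x b d]
  · have : IsNowhereDense (D ∩ {x | Fc c x = y}) := by
      by_contra b
      obtain ⟨z, b⟩ := nonempty_iff_ne_empty.2 b
      obtain ⟨k, d⟩ := ex_cyl isOpen_interior b
      refine a (mem_iUnion.2 ⟨res z k, fun x e f => funext fun n => ?_, ?_⟩)
      · have g := mem_closure_iff.1 (interior_subset (d (show x ∈ cylinder z k by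
          rw [cylinder_eq_res]; simpa using f)))
        rcases mem_iInter.1 e n with i | i
        · obtain ⟨w, j, -, l⟩ := g _ (Uc_open _) i
          simp [← show Fc c w = y from l, Fc, i, j]
        · obtain ⟨w, j, -, l⟩ := g _ isOpen_interior i
          simp [← show Fc c w = y from l, Fc, show x ∉ _ from interior_subset i,
            show w ∉ _ from interior_subset j]
      · obtain ⟨w, i, j⟩ := (dense_of_mem_residual hD).exists_mem_open (isOpen_cylinder _ z k)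
          ⟨z, self_mem_cylinder _ _⟩
        exact ⟨w, i, by rw [cylinder_eq_res] at j; simpa using j⟩
    exact mem_of_superset (inter_mem hD this.isMeagre) fun x b e => b.2 ⟨b.1, e⟩

theorem ne_res (w : ℕ → Bool) : {x | x ≠ w} ∈ residual (ℕ → Bool) := by
  refine mem_of_superset (match_res (P := fun _ => True) (.of_forall fun _ => trivial)
    (fun m => m + 1) fun _ i => !w i) fun y a b => ?_
  obtain ⟨m, c⟩ := a.exists
  simpa [b] using c.2 m le_rfl (by omega)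

theorem strong (h : covM = 𝔠) :
    ∃ X Y : Set (ℕ → Bool), KDense 𝔠 X ∧ KDense 𝔠 Y ∧ SAv X Y ∧ SAv Y X := by
  classical
  choose G g1 g2 using fibers
  have pick : ∀ {ι : Type} (_ : #ι < 𝔠) (W : ι → ℕ → Bool) (C : ι → ℕ → Set (List Bool))
      (z : ℕ → Bool) (k : ℕ), ∃ x ∈ cylinder z k, ∀ i j, x ≠ W i ∧ x ≠ Fc (C j) (W i) ∧
        (W i ∉ G (C j) → Fc (C j) x ≠ W i) := fun {ι} a W C z k => by
    have ho : IsOpenMap (pre z k) := fun U b => by
      convert (isOpen_cylinder _ z k).inter (b.preimage (sh_c k)) using 1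
      ext y
      exact ⟨by rintro ⟨w, c, rfl⟩; exact ⟨pre_mem _ _ _, by simpa [sh_pre] using c⟩,
        fun c => ⟨_, c.2, pre_sh c.1⟩⟩
    obtain ⟨y, b⟩ := cov_res (ι := ι × ι) (by
      rw [h, mk_prod, lift_id]; exact mul_lt_of_lt aleph0_le_continuum a a)
      (fun t => pre z k ⁻¹' {x | x ≠ W t.1 ∧ x ≠ Fc (C t.2) (W t.1) ∧
        (W t.1 ∉ G (C t.2) → Fc (C t.2) x ≠ W t.1)}) fun t =>
      tendsto_residual_of_isOpenMap (pre_c z k) ho (inter_mem (ne_res _) (inter_mem (ne_res _) (by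
        by_cases c : W t.1 ∈ G (C t.2)
        · exact univ_mem' fun _ d => (d c).elim
        · exact mem_of_superset (g2 _ _ c) fun _ d _ => d)))
    exact ⟨_, pre_mem _ _ _, fun i j => b (i, j)⟩
  obtain ⟨e⟩ : Nonempty ((𝔠 : Cardinal.{0}).ord.ToType ≃
      (ℕ → Set (List Bool)) × (ℕ → Bool) × ℕ) := Cardinal.eq.1 (by simp)
  have hI : ∀ a : (𝔠 : Cardinal.{0}).ord.ToType, #(Iio a) < 𝔠 := fun a => by
    simpa using mk_Iio_lt a (by simp)
  obtain ⟨p, hp⟩ := TStar.rec_o (T := (𝔠 : Cardinal.{0}).ord.ToType)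
    (σ := (ℕ → Bool) × (ℕ → Bool)) (fun a g s =>
      (s.1 ∈ cylinder (e a).2.1 (e a).2.2 ∧ s.2 ∈ cylinder (e a).2.1 (e a).2.2) ∧
      (∀ b, s.1 ≠ (g b).1 ∧ s.2 ≠ (g b).2) ∧ ∀ d : Iio a, (∀ b, s.1 ≠ Fc (e d).1 (g b).2 ∧
        ((g b).2 ∉ G (e d).1 → Fc (e d).1 s.1 ≠ (g b).2) ∧ s.2 ≠ Fc (e d).1 (g b).1 ∧
        ((g b).1 ∉ G (e d).1 → Fc (e d).1 s.2 ≠ (g b).1)) ∧ s.2 ≠ Fc (e d).1 s.1 ∧
        (s.1 ∉ G (e d).1 → Fc (e d).1 s.2 ≠ s.1)) fun a g _ => by
      have h2 : #(Iio a × Fin 3) < 𝔠 := by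
        rw [mk_prod, lift_id, lift_id]
        exact mul_lt_of_lt aleph0_le_continuum (hI a) ((lt_aleph0_of_finite _).trans aleph0_lt_continuum)
      obtain ⟨x, x1, x2⟩ := pick h2 (fun i => if i.2 = 0 then (g i.1).1 else (g i.1).2)
        (fun i => (e i.1).1) (e a).2.1 (e a).2.2
      obtain ⟨y, y1, y2⟩ := pick h2
        (fun i => if i.2 = 0 then (g i.1).1 else if i.2 = 1 then (g i.1).2 else x)
        (fun i => (e i.1).1) (e a).2.1 (e a).2.2
      exact ⟨(x, y), ⟨x1, y1⟩, fun b => ⟨(x2 (b, 0) (b, 0)).1, (y2 (b, 1) (b, 0)).1⟩, fun d =>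
        ⟨fun b => ⟨(x2 (b, 1) (d, 0)).2.1, (x2 (b, 1) (d, 0)).2.2, (y2 (b, 0) (d, 0)).2.1,
          (y2 (b, 0) (d, 0)).2.2⟩, (y2 (d, 2) (d, 0)).2⟩⟩
  have kd : ∀ u : (𝔠 : Cardinal.{0}).ord.ToType → ℕ → Bool, (∀ a, u a ∈ cylinder (e a).2.1 (e a).2.2) →
      (∀ a b, b < a → u a ≠ u b) → KDense 𝔠 (range u) := fun u u1 u2 U a ⟨z, b⟩ => by
    have inj : Function.Injective u := fun a b c => by
      rcases lt_trichotomy a b with d | d | d
      exacts [(u2 b a d c.symm).elim, d, (u2 a b d c).elim]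
    obtain ⟨k, c⟩ := ex_cyl a b
    refine le_antisymm ((mk_set_le _).trans (by simp)) (le_trans (by simp) (mk_le_of_injective
      (f := fun t : ℕ → Set (List Bool) => (⟨u (e.symm (t, z, k)), ⟨_, rfl⟩,
        c (by simpa using u1 (e.symm (t, z, k)))⟩ : ↥(range u ∩ U))) fun s t d => ?_))
    simpa using inj (congrArg Subtype.val d)
  have sa : ∀ u v : (𝔠 : Cardinal.{0}).ord.ToType → ℕ → Bool, KDense 𝔠 (range u) →
      (∀ d a b, d < a → Fc (e d).1 (u a) = v b → v b ∈ G (e d).1) → SAv (range u) (range v) :=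
    fun u v u1 u2 Z a _ f c => by
    obtain ⟨t, ht⟩ := ex_code c
    rw [show #(range u) = 𝔠 by simpa using u1 univ isOpen_univ univ_nonempty,
      ← mk_image_eq Subtype.val_injective]
    set d := e.symm (t, fun _ => true, 0)
    refine (mk_le_mk_of_subset (t := G t ∪ (fun a => Fc t (u a)) '' insert d (Iio d)) ?_).trans_lt
      ((mk_union_le _ _).trans_lt (add_lt_of_lt aleph0_le_continuum
        ((le_aleph0_iff_set_countable.2 (g1 t)).trans_lt aleph0_lt_continuum)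
        (mk_image_le.trans_lt (mk_insert_le.trans_lt (add_lt_of_lt aleph0_le_continuum (hI d)
          (one_lt_aleph0.trans aleph0_lt_continuum))))))
    rintro _ ⟨_, ⟨z, rfl⟩, rfl⟩
    obtain ⟨i, j⟩ := a z.2
    obtain ⟨l, m⟩ := (f z).2
    rcases lt_or_ge d i with n | n
    · exact Or.inl (by simpa [d, m] using u2 d i l n (by simp [d, j, m, ht]))
    · exact Or.inr ⟨i, n.eq_or_lt, by simp [j, ht]⟩
  have k1 := kd (fun a => (p a).1) (fun a => (hp a).1.1) fun a b c => ((hp a).2.1 ⟨b, c⟩).1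
  have k2 := kd (fun a => (p a).2) (fun a => (hp a).1.2) fun a b c => ((hp a).2.1 ⟨b, c⟩).2
  refine ⟨_, _, k1, k2, sa _ _ k1 fun d a b c f => ?_, sa _ _ k2 fun d a b c f => ?_⟩
  · by_contra g
    rcases lt_trichotomy a b with i | rfl | i
    · exact (((hp b).2.2 ⟨d, c.trans i⟩).1 ⟨a, i⟩).2.2.1 f.symm
    · exact ((hp a).2.2 ⟨d, c⟩).2.1 f.symm
    · exact (((hp a).2.2 ⟨d, c⟩).1 ⟨b, i⟩).2.1 g f
  · by_contra g
    rcases lt_trichotomy a b with i | rfl | i
    · exact (((hp b).2.2 ⟨d, c.trans i⟩).1 ⟨a, i⟩).1 f.symm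
    · exact ((hp a).2.2 ⟨d, c⟩).2.2 g f
    · exact (((hp a).2.2 ⟨d, c⟩).1 ⟨b, i⟩).2.2.2 g f

theorem sub_kd {X : Set (ℕ → Bool)} (h : KDense 𝔠 X) : ∃ A ⊆ X, KDense ℵ₁ A := by
  have : ∀ s : List Bool, ∃ A ⊆ X ∩ cylinder (fun i => s.getD i true) s.length, #A = ℵ₁ := fun s =>
    le_mk_iff_exists_subset.1 (by
      rw [h _ (isOpen_cylinder _ _ _) ⟨_, self_mem_cylinder _ _⟩]; exact aleph_one_le_continuum)
  choose A a1 a2 using this
  refine ⟨⋃ s, A s, iUnion_subset fun s => (a1 s).trans inter_subset_left, fun U b ⟨z, c⟩ => ?_⟩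
  obtain ⟨k, d⟩ := ex_cyl b c
  refine le_antisymm ((mk_le_mk_of_subset inter_subset_left).trans ((mk_iUnion_le _).trans ?_))
    ((a2 (List.ofFn fun i : Fin k => z i)).ge.trans (mk_le_mk_of_subset fun x e =>
      ⟨mem_iUnion.2 ⟨_, e⟩, d fun i f => ?_⟩))
  · simp [a2]
  · simpa [f] using (a1 _ e).2 i (by simpa using f)

theorem no_total (hw : BAw ℵ₁ (ℕ → Bool)) {X Y : Set (ℕ → Bool)} (hX : KDense 𝔠 X)
    (hY : KDense 𝔠 Y) : ¬ TAv X Y := fun h => by
  classical
  obtain ⟨A, a1, a2⟩ := sub_kd hX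
  obtain ⟨B, b1, b2⟩ := sub_kd hY
  obtain ⟨f, g, hf⟩ := H_cyl hw a2 b2 (fun _ => true) 1
  have kB : #B = ℵ₁ := by simpa using b2 univ isOpen_univ univ_nonempty
  obtain ⟨y, hy⟩ : B.Nonempty := by
    rw [← nonempty_coe_sort, ← mk_ne_zero_iff, kB]; exact (aleph_pos _).ne'
  let K := cylinder (fun _ : ℕ => true) 1
  let Z := A ∩ K ∪ X ∩ Kᶜ
  have hK : IsClosed K := by
    have : K = (fun x : ℕ → Bool => x 0) ⁻¹' {true} := by ext; simp [K, mem_cylinder_iff]
    exact this ▸ isClosed_singleton.preimage (continuous_apply 0)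
  let F : Prop → (ℕ → Bool) → ℕ → Bool := fun q x => if q then f x else y
  have hF : ContinuousOn (fun x => F (x ∈ K) x) Z := glue_c ((lc_mem _ _).mono (subset_univ _))
    fun q => by
      by_cases c : q
      · simp only [F, if_pos c]
        exact hf.c1.mono fun x a => a.1.resolve_right fun d => d.2 ((show (x ∈ K) = q from a.2) ▸ c)
      · simp only [F, if_neg c]
        exact continuousOn_const
  have hm : ∀ z ∈ Z, F (z ∈ K) z ∈ Y := fun z a => by
    by_cases c : z ∈ K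
    · simpa [F, c] using b1 (hf.m1 (a.resolve_right fun d => d.2 c))
    · simpa [F, c] using b1 hy
  have hZ : Z ⊆ X := union_subset (inter_subset_left.trans a1) inter_subset_left
  have := (h Z hZ (le_antisymm (mk_le_mk_of_subset hZ) (by
    rw [show #X = 𝔠 by simpa using hX univ isOpen_univ univ_nonempty,
      ← hX _ hK.isOpen_compl ⟨fun _ => false, by simp [K, mem_cylinder_iff]⟩]
    exact mk_le_mk_of_subset subset_union_right)) (fun z => ⟨_, hm z z.2⟩)
    (hF.domRestrict.subtype_mk _)).image Subtype.val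
  refine (kB.ge.trans (le_aleph0_iff_set_countable.2 (this.mono fun w a => ?_))).not_gt
    aleph0_lt_aleph_one
  exact ⟨_, ⟨⟨g w, Or.inl (hf.m2 a)⟩, rfl⟩, by simp [F, K, (hf.m2 a).2, hf.l2 w a]⟩

end Pool.Agent.H42.Bau
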