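import Pool.Agent.H42.IMeag

/-! Pairs of Silver conditions, levels and limits. -/

namespace Pool.Agent.H42.BG

open Set Filter Classical

abbrev C := ℕ → Bool

structure Cond where
  a : C
  b : C
  D : Set ℕ
  disj : ∀ n ∉ D, a n = false ∨ b n = false

def Cond.pts (p : Cond) : Set C := {x | (∀ n ∉ p.D, x n = p.a n) ∨ ∀ n ∉ p.D, x n = p.b n}

def Le (q p : Cond) : Prop := q.D ⊆ p.D ∧ ∀ n ∉ p.D, q.a n = p.a n ∧ q.b n = p.b n

lemma Le.refl (p : Cond) : Le p p := ⟨subset_rfl, fun _ _ => ⟨rfl, rfl⟩⟩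

lemma Le.trans {r q p : Cond} (h : Le r q) (h' : Le q p) : Le r p :=
  ⟨h.1.trans h'.1, fun n hn =>
    ⟨((h.2 n fun e => hn (h'.1 e)).1).trans (h'.2 n hn).1,
      ((h.2 n fun e => hn (h'.1 e)).2).trans (h'.2 n hn).2⟩⟩

lemma Le.pts {q p : Cond} (h : Le q p) : q.pts ⊆ p.pts := by
  rintro x (hx | hx)
  · exact Or.inl fun n hn => (hx n fun e => hn (h.1 e)).trans (h.2 n hn).1
  · exact Or.inr fun n hn => (hx n fun e => hn (h.1 e)).trans (h.2 n hn).2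

structure Lev where
  D : Set ℕ
  L : Set Cond
  inf : D.Infinite
  cnt : L.Countable
  ne : L.Nonempty
  sub : ∀ p ∈ L, (D \ p.D).Finite

def Lev.pts (P : Lev) : Set C := ⋃ p ∈ P.L, p.pts

def Rel (P Q : Lev) : Prop := (Q.D \ P.D).Finite ∧ (∀ q ∈ Q.L, ∃ p ∈ P.L, Le q p) ∧
  ∀ p ∈ P.L, ∀ k, ∃ q ∈ Q.L, Le q p ∧ p.D ∩ (Q.D ∪ Iio k) ⊆ q.D

lemma Rel.refl (P : Lev) : Rel P P :=
  ⟨by simp, fun q h => ⟨q, h, Le.refl q⟩, fun p h _ => ⟨p, h, Le.refl p, inter_subset_left⟩⟩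

lemma fin_bd {s : Set ℕ} (h : s.Finite) (k : ℕ) : ∃ k', k ≤ k' ∧ s ⊆ Iio k' := by
  obtain ⟨b, hb⟩ := h.bddAbove
  exact ⟨max k (b + 1), le_max_left _ _, fun n hn =>
    lt_of_lt_of_le (Nat.lt_succ_of_le (hb hn)) (le_max_right _ _)⟩

lemma ext_one {P Q : Lev} (h : Rel P Q) {E : Set ℕ} (hE : (E \ Q.D).Finite) {p : Cond}
    (hp : p ∈ P.L) (k : ℕ) : ∃ q ∈ Q.L, Le q p ∧ p.D ∩ (E ∪ Iio k) ⊆ q.D := by
  obtain ⟨k', h1, h2⟩ := fin_bd hE k
  obtain ⟨q, hq, h3, h4⟩ := h.2.2 p hp k'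
  refine ⟨q, hq, h3, fun n hn => h4 ⟨hn.1, ?_⟩⟩
  rcases hn.2 with h5 | h5
  · by_cases h6 : n ∈ Q.D
    exacts [Or.inl h6, Or.inr (h2 ⟨h5, h6⟩)]
  · exact Or.inr (lt_of_lt_of_le h5 h1)

lemma sd_trans {A B E : Set ℕ} (h : (A \ B).Finite) (h' : (B \ E).Finite) : (A \ E).Finite :=
  (h.union h').subset fun n hn => by
    by_cases h1 : n ∈ B
    exacts [Or.inr ⟨h1, hn.2⟩, Or.inl ⟨hn.1, h1⟩]

lemma Rel.trans {P Q R : Lev} (h : Rel P Q) (h' : Rel Q R) : Rel P R := by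
  refine ⟨sd_trans h'.1 h.1, fun r hr => ?_, fun p hp k => ?_⟩
  · obtain ⟨q, hq, h1⟩ := h'.2.1 r hr
    obtain ⟨p, hp, h2⟩ := h.2.1 q hq
    exact ⟨p, hp, h1.trans h2⟩
  · obtain ⟨q, hq, h1, h2⟩ := ext_one h h'.1 hp k
    obtain ⟨r, hr, h3, h4⟩ := h'.2.2 q hq k
    exact ⟨r, hr, h3.trans h1, fun n hn => h4 ⟨h2 hn, hn.2⟩⟩

lemma Rel.pts {P Q : Lev} (h : Rel P Q) : Q.pts ⊆ P.pts := by
  intro x hx
  obtain ⟨q, hq, hx⟩ := mem_iUnion₂.1 hx
  obtain ⟨p, hp, h1⟩ := h.2.1 q hq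
  exact mem_iUnion₂.2 ⟨p, hp, h1.pts hx⟩

lemma lim_cond (r : ℕ → Cond) (hr : ∀ j, Le (r (j + 1)) (r j)) (E : Set ℕ)
    (hE : ∀ j, E ⊆ (r j).D) : ∃ q : Cond, q.D = E ∧ ∀ j, Le q (r j) := by
  have hm : ∀ i j, i ≤ j → Le (r j) (r i) := by
    intro i j hij
    induction j, hij using Nat.le_induction with
    | base => exact Le.refl _
    | succ j _ ih => exact (hr j).trans ih
  refine ⟨⟨fun n => if h : ∃ j, n ∉ (r j).D then (r (Nat.find h)).a n else false,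
    fun n => if h : ∃ j, n ∉ (r j).D then (r (Nat.find h)).b n else false, E, fun n _ => ?_⟩,
    rfl, fun j => ⟨hE j, fun n hn => ?_⟩⟩
  · by_cases h : ∃ j, n ∉ (r j).D
    · simp only [dif_pos h]; exact (r _).disj n (Nat.find_spec h)
    · simp only [dif_neg h]; simp
  · have h : ∃ j, n ∉ (r j).D := ⟨j, hn⟩
    have := (hm _ _ (Nat.find_min' h hn)).2 n (Nat.find_spec h)
    simp only [dif_pos h]
    exact ⟨this.1.symm, this.2.symm⟩

lemma pseudo (A : ℕ → Set ℕ) (hA : ∀ i, (A i).Infinite) (h : ∀ i, (A (i + 1) \ A i).Finite) :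
    ∃ E : Set ℕ, E.Infinite ∧ ∀ i, (E \ A i).Finite := by
  have hm : ∀ i j, i ≤ j → (A j \ A i).Finite := by
    intro i j hij
    induction j, hij using Nat.le_induction with
    | base => simp
    | succ j _ ih => exact sd_trans (h j) ih
  have h1 : ∀ j, ∃ n, j ≤ n ∧ ∀ i ≤ j, n ∈ A i := by
    intro j
    have := (hA j).sdiff (((finite_le_nat j).biUnion fun i hi => hm i j hi).union (finite_lt_nat j))
    obtain ⟨n, h2, h3⟩ := this.nonempty
    refine ⟨n, not_lt.1 fun e => h3 (Or.inr e), fun i hi => ?_⟩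
    by_contra h4
    exact h3 (Or.inl (mem_iUnion₂.2 ⟨i, hi, h2, h4⟩))
  choose c h2 h3 using h1
  refine ⟨range c, infinite_of_forall_exists_gt fun n => ⟨c (n + 1), mem_range_self _, h2 _⟩,
    fun i => ((finite_lt_nat i).image c).subset ?_⟩
  rintro _ ⟨⟨j, rfl⟩, hj⟩
  exact ⟨j, not_le.1 fun e => hj (h3 j i e), rfl⟩

lemma lim_lev (P : ℕ → Lev) (hP : ∀ i, Rel (P i) (P (i + 1))) : ∃ Q : Lev, ∀ i, Rel (P i) Q := by
  have hm : ∀ i j, i ≤ j → Rel (P i) (P j) := by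
    intro i j hij
    induction j, hij using Nat.le_induction with
    | base => exact Rel.refl _
    | succ j _ ih => exact ih.trans (hP j)
  obtain ⟨E, hE, hE'⟩ := pseudo (fun i => (P i).D) (fun i => (P i).inf) fun i => (hP i).1
  have key : ∀ i, ∀ p : (P i).L, ∀ k : ℕ, ∃ q : Cond, q.D = p.1.D ∩ (E ∪ Iio k) ∧ Le q p ∧
      ∀ j, ∃ r ∈ (P j).L, Le q r := by
    intro i p k
    have st : ∀ j, ∀ r : (P (i + j)).L, ∃ r' : (P (i + (j + 1))).L, Le r' r ∧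
        r.1.D ∩ (E ∪ Iio k) ⊆ r'.1.D := by
      intro j r
      obtain ⟨q, h1, h2⟩ := ext_one (hP (i + j)) (hE' _) r.2 k
      exact ⟨⟨q, h1⟩, h2⟩
    choose nx h1 h2 using st
    let r : ∀ j, (P (i + j)).L := fun j => Nat.rec p (fun j r => nx j r) j
    have h3 : ∀ j, p.1.D ∩ (E ∪ Iio k) ⊆ (r j).1.D := by
      intro j
      induction j with
      | zero => exact inter_subset_left
      | succ j ih => exact fun n hn => h2 j (r j) ⟨ih hn, hn.2⟩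
    obtain ⟨q, h4, h5⟩ := lim_cond (fun j => (r j).1) (fun j => h1 j (r j)) _ h3
    refine ⟨q, h4, h5 0, fun j => ?_⟩
    obtain ⟨s, hs, h6⟩ := (hm j (i + j) (by omega)).2.1 _ (r j).2
    exact ⟨s, hs, (h5 j).trans h6⟩
  choose q h1 h2 h3 using key
  refine ⟨⟨E, ⋃ i, ⋃ p : (P i).L, range (q i p), hE, ?_, ?_, ?_⟩, fun i => ⟨hE' i, ?_, ?_⟩⟩
  · refine countable_iUnion fun i => ?_
    have := (P i).cnt.to_subtype
    exact countable_iUnion fun p => countable_range _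
  · obtain ⟨p, hp⟩ := (P 0).ne
    exact ⟨q 0 ⟨p, hp⟩ 0, mem_iUnion₂.2 ⟨0, ⟨p, hp⟩, mem_range_self _⟩⟩
  · intro s hs
    obtain ⟨i, p, k, rfl⟩ := mem_iUnion₂.1 hs
    refine (sd_trans (hE' i) ((P i).sub _ p.2)).subset fun n hn => ⟨hn.1, fun e => hn.2 ?_⟩
    rw [h1]; exact ⟨e, Or.inl hn.1⟩
  · intro s hs
    obtain ⟨j, p, k, rfl⟩ := mem_iUnion₂.1 hs
    exact h3 j p k i
  · intro p hp k
    exact ⟨q i ⟨p, hp⟩ k, mem_iUnion₂.2 ⟨i, ⟨p, hp⟩, mem_range_self _⟩, h2 i ⟨p, hp⟩ k,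
      (h1 i ⟨p, hp⟩ k).ge⟩

lemma two_pts {G : Set C} (hG : G ∈ residual C) {S : Set ℕ} (hS : S.Infinite) :
    ∃ (wa wb : C) (T : Set ℕ), T ⊆ S ∧ T.Infinite ∧ (∀ n, wa n = false ∨ wb n = false) ∧
      (∀ w : C, (∀ n ∉ T, w n = wa n) → w ∈ G) ∧ ∀ w : C, (∀ n ∉ T, w n = wb n) → w ∈ G := by
  obtain ⟨l, s, hs⟩ := IMeag.meagre_sub (M := Gᶜ) (by simpa [IsMeagre] using hG)
  choose nx h1 h2 using hS.exists_gt
  let q : ℕ → ℕ := fun c => max (c + 1) (l (c + 1))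
  let c : ℕ → ℕ := fun j => Nat.rec (nx 0) (fun _ c => nx (max (q c) (l (q c)))) j
  have hc : ∀ j, q (c j) < c (j + 1) ∧ l (q (c j)) < c (j + 1) := fun j =>
    max_lt_iff.1 (h2 (max (q (c j)) (l (q (c j)))))
  have hq : ∀ j, c j + 1 ≤ q (c j) ∧ l (c j + 1) ≤ q (c j) := fun j =>
    ⟨le_max_left _ _, le_max_right _ _⟩
  have hsm : StrictMono c := strictMono_nat_of_lt_succ fun j => by
    have := hc j; have := hq j; omega
  have huniq : ∀ i j n, c i ≤ n → n < c (i + 1) → c j ≤ n → n < c (j + 1) → i = j := by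
    intro i j n a1 a2 a3 a4
    have b1 : i < j + 1 := hsm.lt_iff_lt.1 (a1.trans_lt a4)
    have b2 : j < i + 1 := hsm.lt_iff_lt.1 (a3.trans_lt a2)
    omega
  have gen : ∀ (m : ℕ → ℕ), (∀ j, c j < m j ∧ l (m j) ≤ c (j + 1)) → ∀ w : C,
      (∀ n ∉ range c, w n = decide (∃ j, m j ≤ n ∧ n < l (m j) ∧ s (m j) n = true)) → w ∈ G := by
    intro m hm w hw
    refine not_not.1 (hs w (frequently_atTop.2 fun N => ⟨m N, ?_, fun i a1 a2 => ?_⟩))
    · have := hsm.le_apply (x := N); have := hm N; omega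
    · have b := hm N
      have hi : i ∉ range c := by
        rintro ⟨j, rfl⟩
        have := huniq j N (c j) le_rfl (hsm (Nat.lt_succ_self j)) (by omega) (by omega)
        subst this; omega
      rw [hw i hi]
      cases h : s (m N) i
      · refine decide_eq_false ?_
        rintro ⟨j, a3, a4, a5⟩
        have b' := hm j
        have := huniq j N i (by omega) (by omega) (by omega) (by omega)
        subst this; simp [h] at a5
      · exact decide_eq_true ⟨N, a1, a2, h⟩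
  refine ⟨_, _, range c, ?_, infinite_range_of_injective hsm.injective, fun n => ?_,
    gen (fun j => c j + 1) fun j => ?_, gen (fun j => q (c j)) fun j => ?_⟩
  · rintro _ ⟨j, rfl⟩
    cases j <;> exact h1 _
  · by_contra h
    simp only [not_or, Bool.not_eq_false, decide_eq_true_eq] at h
    obtain ⟨⟨i, a1, a2, -⟩, j, a3, a4, -⟩ := h
    have b1 := hc i; have b2 := hq i; have b3 := hc j; have b4 := hq j
    have := huniq i j n (by omega) (by omega) (by omega) (by omega)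
    subst this; omega
  · have := hc j; have := hq j; omega
  · have := hc j; have := hq j; omega

end Pool.Agent.H42.BG
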