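import Pool.Agent.H42.BG1

/-! Thinning a level so that a sequence of Borel omega-covers gets a gamma-selection. -/

namespace Pool.Agent.H42.BG

open Set Filter Classical

lemma cont_res {κ : Type} [Countable κ] (B : κ → Set C) (hB : ∀ j, MeasurableSet (B j)) :
    ∃ G ∈ residual C, ∀ j, ∀ w0 ∈ G, w0 ∈ B j →
      ∃ N, ∀ w ∈ G, (∀ n < N, w n = w0 n) → w ∈ B j := by
  choose O hO h using fun j => (hB j).baireMeasurableSet.residualEq_isOpen
  refine ⟨⋂ j, {w | w ∈ B j ↔ w ∈ O j}, countable_iInter_mem.2 fun j => ?_, fun j w0 h0 h1 => ?_⟩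
  · filter_upwards [h j] with w hw using Iff.of_eq hw
  · obtain ⟨_, ⟨z, l, rfl⟩, h4, h5⟩ :=
      (PiNat.isTopologicalBasis_cylinders fun _ => Bool).exists_subset_of_mem_open
        ((mem_iInter.1 h0 j).1 h1) (hO j)
    exact ⟨l, fun w hw e => (mem_iInter.1 hw j).2 (h5 fun i hi => (e i hi).trans (h4 i hi))⟩

structure St where
  S : Set ℕ
  u : C
  v : C
  inf : S.Infinite
  disj : ∀ n, u n = false ∨ v n = false

noncomputable def child (p : Cond) (K : ℕ) (s : St) : Cond :=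
  ⟨fun n => if n ∈ p.D then s.u n else p.a n, fun n => if n ∈ p.D then s.v n else p.b n,
    p.D ∩ (s.S ∪ Iio K), fun n _ => by
      by_cases h : n ∈ p.D
      · simpa [h] using s.disj n
      · simpa [h] using p.disj n h⟩

lemma child_le (p : Cond) (K : ℕ) (s : St) : Le (child p K s) p :=
  ⟨inter_subset_left, fun n hn => by simp [child, hn]⟩

def StLe (K : ℕ) (t s : St) : Prop :=
  t.S ⊆ s.S ∧ s.S ∩ Iio K ⊆ t.S ∧ ∀ n ∉ s.S, t.u n = s.u n ∧ t.v n = s.v n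

lemma child_mono (p : Cond) {K K' : ℕ} (hK : K ≤ K') {t s : St} (h1 : t.S ⊆ s.S)
    (h2 : ∀ n ∉ s.S, t.u n = s.u n ∧ t.v n = s.v n) : Le (child p K t) (child p K' s) := by
  refine ⟨fun n hn => ⟨hn.1, hn.2.imp (fun e => h1 e) fun e => lt_of_lt_of_le e hK⟩, fun n hn => ?_⟩
  by_cases h : n ∈ p.D
  · have : n ∉ s.S := fun e => hn ⟨h, Or.inl e⟩
    simp [child, h, h2 n this]
  · simp [child, h]

noncomputable def phi (K : ℕ) (S D : Set ℕ) (a u : C) (s : Fin K → Bool) (w : C) : C := fun n =>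
  if n ∈ D then (if h : n < K then s ⟨n, h⟩ else if n ∈ S then w n else u n) else a n

lemma phi_meas (K : ℕ) (S D : Set ℕ) (a u : C) (s : Fin K → Bool) :
    Measurable (phi K S D a u s) := by
  refine measurable_pi_lambda _ fun n => ?_
  unfold phi
  split_ifs
  exacts [measurable_const, measurable_pi_apply n, measurable_const, measurable_const]

lemma phi_side {K N : ℕ} {S T D : Set ℕ} {a u w0 x : C} (hN : K ≤ N)
    (hx : ∀ n ∉ D ∩ (((S ∩ Iio K) ∪ (T \ Iio N)) ∪ Iio K),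
      x n = if n ∈ D then (if n ∈ S then w0 n else u n) else a n) (hT : T ⊆ S) :
    ∃ (s : Fin K → Bool) (w : C), (∀ n ∉ T, w n = w0 n) ∧ (∀ n < N, w n = w0 n) ∧
      phi K S D a u s w = x := by
  refine ⟨fun i => x i, fun n => if n ∈ T \ Iio N then x n else w0 n, fun n hn => ?_,
    fun n hn => ?_, funext fun n => ?_⟩
  · exact if_neg fun e : n ∈ T \ Iio N => hn e.1
  · exact if_neg fun e : n ∈ T \ Iio N => e.2 hn
  · unfold phi
    by_cases h1 : n ∈ D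
    · by_cases h2 : n < K
      · simp [h1, h2]
      · by_cases h3 : n ∈ T \ Iio N
        · simp only [h1, h2, hT h3.1, h3, if_true, dif_neg, not_false_iff]
        · have := hx n (by
            rintro ⟨-, (e | e) | e⟩
            exacts [h2 e.2, h3 e, h2 e])
          rw [this]
          simp only [h1, h2, h3, if_true, if_false, dif_neg, not_false_iff]
    · rw [hx n fun e => h1 e.1]; simp [h1]

lemma step {P : Set Cond} (hP : P.Finite) {F : Set C} (hF : F.Finite) (K : ℕ) (s : St)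
    (U : ℕ → Set C) (hU : ∀ m, MeasurableSet (U m))
    (h : ∀ F' ⊆ F ∪ ⋃ p ∈ P, p.pts, F'.Finite → ∃ m, F' ⊆ U m) :
    ∃ (m : ℕ) (t : St), F ⊆ U m ∧ (∀ p ∈ P, (child p K t).pts ⊆ U m) ∧ StLe K t s := by
  have := hP.to_subtype
  let fa : P × (Fin K → Bool) → C → C := fun i => phi K s.S i.1.1.D i.1.1.a s.u i.2
  let fb : P × (Fin K → Bool) → C → C := fun i => phi K s.S i.1.1.D i.1.1.b s.v i.2
  obtain ⟨Ga, hGa, ha⟩ := cont_res (fun j : (P × (Fin K → Bool)) × ℕ => fa j.1 ⁻¹' U j.2)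
    fun j => phi_meas _ _ _ _ _ _ (hU _)
  obtain ⟨Gb, hGb, hb⟩ := cont_res (fun j : (P × (Fin K → Bool)) × ℕ => fb j.1 ⁻¹' U j.2)
    fun j => phi_meas _ _ _ _ _ _ (hU _)
  obtain ⟨wa, wb, T, h1, h2, h3, h4, h5⟩ := two_pts (inter_mem hGa hGb) s.inf
  obtain ⟨m, hm⟩ := h (F ∪ (range (fun i => fa i wa) ∪ range (fun i => fb i wb))) (by
    refine union_subset_union subset_rfl ?_
    rintro _ (⟨i, rfl⟩ | ⟨i, rfl⟩)
    · exact mem_iUnion₂.2 ⟨i.1.1, i.1.2, Or.inl fun n hn => by simp [fa, phi, hn]⟩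
    · exact mem_iUnion₂.2 ⟨i.1.1, i.1.2, Or.inr fun n hn => by simp [fb, phi, hn]⟩)
    (hF.union ((finite_range _).union (finite_range _)))
  choose Na hNa using fun i => ha (i, m) wa (h4 wa fun _ _ => rfl).1
    (hm (Or.inr (Or.inl ⟨i, rfl⟩)))
  choose Nb hNb using fun i => hb (i, m) wb (h5 wb fun _ _ => rfl).2
    (hm (Or.inr (Or.inr ⟨i, rfl⟩)))
  obtain ⟨N, hN, hN'⟩ := fin_bd ((finite_range Na).union (finite_range Nb)) K
  refine ⟨m, ⟨(s.S ∩ Iio K) ∪ (T \ Iio N), fun n => if n ∈ s.S then wa n else s.u n,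
    fun n => if n ∈ s.S then wb n else s.v n,
    Set.Infinite.mono subset_union_right (h2.sdiff (finite_lt_nat N)), fun n => ?_⟩,
    fun x hx => hm (Or.inl hx), ?_, ?_, subset_union_left, fun n hn => by simp [hn]⟩
  · by_cases e : n ∈ s.S
    · simpa [e] using h3 n
    · simpa [e] using s.disj n
  · rintro p hp x (hx | hx)
    · obtain ⟨r, w, e1, e2, rfl⟩ := phi_side hN hx h1
      exact hNa (⟨p, hp⟩, r) w (h4 w e1).1 fun n hn =>
        e2 n (hn.trans (hN' (Or.inl (mem_range_self _))))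
    · obtain ⟨r, w, e1, e2, rfl⟩ := phi_side hN hx h1
      exact hNb (⟨p, hp⟩, r) w (h5 w e1).2 fun n hn =>
        e2 n (hn.trans (hN' (Or.inr (mem_range_self _))))
  · rintro n (e | e)
    exacts [e.1, h1 e.1]

lemma gam (P : Lev) {Z : Set C} (hZ : Z.Countable) (U : ℕ → ℕ → Set C)
    (hU : ∀ n m, MeasurableSet (U n m))
    (h : ∀ n, ∀ F ⊆ Z ∪ P.pts, F.Finite → ∃ m, F ⊆ U n m) :
    ∃ (Q : Lev) (f : ℕ → ℕ), Rel P Q ∧ ∀ x ∈ Z ∪ Q.pts, ∀ᶠ n in atTop, x ∈ U n (f n) := by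
  obtain ⟨e, he⟩ := P.cnt.exists_eq_range P.ne
  obtain ⟨z, hz⟩ : ∃ z : ℕ → Set C, (∀ j, (z j).Finite ∧ z j ⊆ Z) ∧
      ∀ x ∈ Z, ∀ᶠ j in atTop, x ∈ z j := by
    obtain ⟨g, hg⟩ := (hZ.insert default).exists_eq_range (insert_nonempty _ _)
    refine ⟨fun j => g '' Iic j ∩ Z, fun j => ⟨((finite_le_nat j).image g).inter_of_left _,
      inter_subset_right⟩, fun x hx => ?_⟩
    obtain ⟨i, rfl⟩ : x ∈ range g := hg ▸ Or.inr hx
    filter_upwards [eventually_ge_atTop i] with j hj using ⟨⟨i, hj, rfl⟩, hx⟩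
  have st : ∀ (j : ℕ) (s : St × ℕ), ∃ (m : ℕ) (t : St × ℕ), z j ⊆ U j m ∧
      (∀ i ≤ j, (child (e i) t.2 t.1).pts ⊆ U j m) ∧ StLe t.2 t.1 s.1 ∧
      ∃ c ∈ s.1.S, max s.2 j < c ∧ c < t.2 := by
    intro j s
    obtain ⟨c, hc, hc'⟩ := s.1.inf.exists_gt (max s.2 j)
    obtain ⟨m, t, h1, h2, h3⟩ := step ((finite_le_nat j).image e) (hz.1 j).1 (c + 1) s.1 (U j)
      (hU j) fun F hF => h j F (hF.trans (union_subset_union (hz.1 j).2 (by
        refine iUnion₂_subset ?_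
        rintro _ ⟨i, -, rfl⟩ x hx
        exact mem_iUnion₂.2 ⟨e i, he ▸ mem_range_self i, hx⟩)))
    exact ⟨m, (t, c + 1), h1, fun i hi => h2 _ ⟨i, hi, rfl⟩, h3, c, hc, hc', Nat.lt_succ_self c⟩
  choose mm nx h1 h2 h3 c h4 h5 h6 using st
  let s : ℕ → St × ℕ := fun j => Nat.rec (⟨P.D, fun _ => false, fun _ => false, P.inf,
    fun _ => Or.inl rfl⟩, 0) (fun j s => nx j s) j
  have hs : ∀ j, s (j + 1) = nx j (s j) := fun j => rfl
  have hK : StrictMono fun j => (s j).2 := strictMono_nat_of_lt_succ fun j => by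
    have := h5 j (s j); have := h6 j (s j); rw [hs]; omega
  have hmono : ∀ i j, i ≤ j → StLe (s i).2 (s j).1 (s i).1 := by
    intro i j hij
    induction j, hij using Nat.le_induction with
    | base => exact ⟨subset_rfl, inter_subset_left, fun _ _ => ⟨rfl, rfl⟩⟩
    | succ j hij ih =>
      have h7 := h3 j (s j)
      rw [← hs] at h7
      refine ⟨h7.1.trans ih.1, fun n hn => h7.2.1 ⟨ih.2.1 hn, ?_⟩, fun n hn => ?_⟩
      · exact lt_of_lt_of_le hn.2 (hK.monotone (hij.trans (Nat.le_succ j)))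
      · have h8 := h7.2.2 n fun e => hn (ih.1 e)
        exact ⟨h8.1.trans (ih.2.2 n hn).1, h8.2.trans (ih.2.2 n hn).2⟩
  have hc : ∀ j, c j (s j) ∈ ⋂ i, (s i).1.S := by
    intro j
    have h7 : c j (s j) ∈ (s (j + 1)).1.S := (h3 j (s j)).2.1 ⟨h4 j _, h6 j _⟩
    refine mem_iInter.2 fun i => ?_
    rcases le_total i (j + 1) with e | e
    · exact (hmono _ _ e).1 h7
    · exact (hmono _ _ e).2.1 ⟨h7, h6 j _⟩
  obtain ⟨q, hq1, hq2⟩ := lim_cond (fun j => ⟨(s j).1.u, (s j).1.v, (s j).1.S,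
    fun n _ => (s j).1.disj n⟩) (fun j => ⟨(hmono j _ (Nat.le_succ j)).1,
      (hmono j _ (Nat.le_succ j)).2.2⟩) (⋂ i, (s i).1.S) fun j => iInter_subset _ j
  let t : St := ⟨q.D, fun n => if n ∈ q.D then false else q.a n, fun n => q.b n, by
    rw [hq1]
    exact infinite_of_forall_exists_gt fun n => ⟨c n (s n), hc n, (max_lt_iff.1 (h5 n _)).2⟩,
    fun n => by
      by_cases e : n ∈ q.D
      · simp [e]
      · simpa [e] using q.disj n e⟩
  have hsub : q.D ⊆ P.D := (hq2 0).1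
  refine ⟨⟨q.D, range fun i : ℕ × ℕ => child (e i.1) i.2 t, t.inf, countable_range _,
    range_nonempty _, ?_⟩, fun j => mm j (s j), ⟨?_, ?_, fun p hp k => ?_⟩, ?_⟩
  · rintro _ ⟨i, rfl⟩
    exact (P.sub (e i.1) (he ▸ mem_range_self _)).subset fun n hn =>
      ⟨hsub hn.1, fun e => hn.2 ⟨e, Or.inl hn.1⟩⟩
  · simp [sdiff_eq_empty.2 hsub]
  · rintro _ ⟨i, rfl⟩
    exact ⟨e i.1, he ▸ mem_range_self _, child_le _ _ _⟩
  · obtain ⟨i, rfl⟩ : p ∈ range e := he ▸ hp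
    exact ⟨_, ⟨(i, k), rfl⟩, child_le _ _ _, subset_rfl⟩
  · rintro x (hx | hx)
    · filter_upwards [hz.2 x hx] with j hj using h1 j _ hj
    · obtain ⟨_, ⟨i, rfl⟩, hx⟩ := mem_iUnion₂.1 hx
      filter_upwards [eventually_ge_atTop (max i.1 i.2)] with j hj
      refine h2 j (s j) i.1 (le_of_max_le_left hj) (Le.pts (child_mono _ ?_ ?_ ?_) hx)
      · have := h5 j (s j); have := h6 j (s j); omega
      · exact (hq2 (j + 1)).1
      · intro n hn
        have h7 := (hq2 (j + 1)).2 n hn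
        have h8 : n ∉ q.D := fun e => hn ((hq2 (j + 1)).1 e)
        exact ⟨by simp only [t, if_neg h8]; exact h7.1, h7.2⟩

end Pool.Agent.H42.BG
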