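import Mathlib

open MeasureTheory Set Filter Topology Cardinal Ordinal BoundedContinuousFunction

namespace Pool.Agent.H42.Dirac

abbrev W := (ω_ 1 : Ordinal.{0}).ToType

lemma W_card : #W = ℵ₁ := by simp [W]

lemma Iio_count (a : W) : (Set.Iio a).Countable := by
  have h := mk_Iio_lt a (by simp)
  rw [W_card, ← succ_aleph0, Order.lt_succ_iff] at h
  exact le_aleph0_iff_set_countable.1 h

lemma Iic_count (a : W) : (Set.Iic a).Countable := by
  rw [← Set.Iio_insert]; exact (Iio_count a).insert a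

lemma bdd (s : Set W) (hs : s.Countable) : ∃ b, ∀ a ∈ s, a < b := by
  by_contra h
  push Not at h
  have h1 : (Set.univ : Set W) ⊆ ⋃ a ∈ s, Set.Iic a := by
    intro b _
    obtain ⟨a, ha, hb⟩ := h b
    exact mem_iUnion₂.2 ⟨a, ha, hb⟩
  have h2 : (Set.univ : Set W).Countable :=
    (hs.biUnion fun a _ => Iic_count a).mono h1
  have h3 : #W ≤ ℵ₀ := by
    have := le_aleph0_iff_set_countable.2 h2
    simpa using this
  rw [W_card] at h3
  exact absurd h3 (not_le.2 aleph0_lt_aleph_one)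

lemma fin_count {α : Type} {C : Set α} (hC : C.Countable) :
    {t : Finset α | (t : Set α) ⊆ C}.Countable := by
  have h := (Set.countable_ofPred_finite_subset hC).preimage_of_injOn
    (f := fun t : Finset α => (t : Set α)) (fun _ _ _ _ h => Finset.coe_injective h)
  exact h.mono fun t ht => And.intro t.finite_toSet ht

lemma op_coord (ξ : W) (c : Bool) : IsOpen {b : W → Bool | b ξ = c} :=
  (isOpen_discrete {c}).preimage (continuous_apply (A := fun _ : W => Bool) ξ)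

lemma closing {α : Type} (g : Finset α → Set α) (hg : ∀ t, (g t).Countable) (C0 : Set α)
    (h0 : C0.Countable) :
    ∃ C : Set α, C.Countable ∧ C0 ⊆ C ∧ ∀ t : Finset α, (t : Set α) ⊆ C → g t ⊆ C := by
  let D : ℕ → Set α := fun n => Nat.rec C0
    (fun _ E => E ∪ ⋃ t ∈ {t : Finset α | (t : Set α) ⊆ E}, g t) n
  have hD : ∀ n, (D n).Countable := by
    intro n
    induction n with
    | zero => exact h0
    | succ n ih =>
      exact ih.union ((fin_count ih).biUnion fun t _ => hg t)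
  have hm : Monotone D := monotone_nat_of_le_succ fun n => subset_union_left
  refine ⟨⋃ n, D n, countable_iUnion hD, subset_iUnion D 0, fun t ht => ?_⟩
  obtain ⟨n, hn⟩ : ∃ n, (t : Set α) ⊆ D n :=
    hm.directed_le.exists_mem_subset_of_finset_subset_biUnion ht
  refine subset_trans ?_ (subset_iUnion D (n + 1))
  exact fun x hx => Or.inr (mem_iUnion₂.2 ⟨t, hn, hx⟩)

lemma ex_F (N : Set (Set ℝ)) (hN : #N ≤ ℵ₁) (h0 : ∀ s ∈ N, volume s = 0)
    (hU : ⋃₀ N = Set.univ) :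
    ∃ F : W → Set ℝ, (∀ ξ, IsCompact (F ξ)) ∧ (∀ ξ, F ξ ⊆ Icc 0 1) ∧
      (∀ ξ, (1 / 2 : ℝ) ≤ volume.real (F ξ)) ∧ ∀ z, {ξ | z ∈ F ξ}.Countable := by
  rw [← W_card] at hN
  obtain ⟨e⟩ := (Cardinal.le_def _ _).1 hN
  have hM : ∀ ξ : W, volume (⋃ s ∈ {s : N | e s < ξ}, (s : Set ℝ)) = 0 := by
    intro ξ
    refine (measure_biUnion_null_iff ?_).2 fun s _ => h0 s s.2
    exact (Iio_count ξ).preimage e.injective
  have hF : ∀ ξ : W, ∃ K : Set ℝ, IsCompact K ∧ K ⊆ Icc 0 1 ∧ (1 / 2 : ℝ) ≤ volume.real K ∧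
      ∀ s : N, e s < ξ → Disjoint K s := by
    intro ξ
    obtain ⟨M, hM1, hM2, hM3⟩ := exists_measurable_superset_of_null (hM ξ)
    have h1 : volume (Icc (0:ℝ) 1 \ M) = 1 := by
      rw [measure_sdiff_null hM3]; simp
    obtain ⟨K, hK1, hK2, hK3⟩ := (measurableSet_Icc.diff hM2).exists_lt_isCompact
      (μ := volume) (r := ENNReal.ofReal (1 / 2)) (by rw [h1]; simp)
    refine ⟨K, hK2, fun z hz => (hK1 hz).1, ?_, fun s hs => ?_⟩
    · exact (ENNReal.ofReal_le_iff_le_toReal hK2.measure_lt_top.ne).1 hK3.le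
    · exact disjoint_left.2 fun z hz hzs => (hK1 hz).2 (hM1 (mem_iUnion₂.2 ⟨s, hs, hzs⟩))
  choose F h1 h2 h3 h4 using hF
  refine ⟨F, h1, h2, h3, fun z => ?_⟩
  obtain ⟨s, hs, hz⟩ : z ∈ ⋃₀ N := hU ▸ mem_univ z
  refine (Iic_count (e ⟨s, hs⟩)).mono fun ξ hξ => ?_
  by_contra hlt
  exact disjoint_left.1 (h4 ξ ⟨s, hs⟩ (not_le.1 hlt)) hξ hz

def XS (F : W → Set ℝ) : Set (W → Bool) :=
  {a | ∃ z ∈ Icc (0:ℝ) 1, ∀ ξ, a ξ = true → z ∈ F ξ}

lemma XS_closed {F : W → Set ℝ} (hF : ∀ ξ, IsCompact (F ξ)) : IsClosed (XS F) := by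
  rw [← isOpen_compl_iff, isOpen_iff_forall_mem_open]
  intro a ha
  have h1 : Icc (0:ℝ) 1 ∩ ⋂ ξ : {ξ // a ξ = true}, F ξ = ∅ := by
    refine eq_empty_of_forall_notMem fun z hz => ha ⟨z, hz.1, fun ξ hξ => ?_⟩
    exact mem_iInter.1 hz.2 ⟨ξ, hξ⟩
  obtain ⟨t, ht⟩ := isCompact_Icc.elim_finite_subfamily_closed _
    (fun ξ : {ξ // a ξ = true} => (hF ξ).isClosed) h1
  refine ⟨⋂ ξ ∈ t, {b | b ξ = true}, ?_, ?_, ?_⟩
  · rintro b hb ⟨z, hz, hz'⟩
    refine eq_empty_iff_forall_notMem.1 ht z ⟨hz, mem_iInter₂.2 fun ξ hξ => hz' ξ ?_⟩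
    exact mem_iInter₂.1 hb ξ hξ
  · refine isOpen_biInter_finset fun ξ _ => ?_
    exact op_coord _ _
  · exact mem_iInter₂.2 fun ξ _ => ξ.2

lemma nhds_fin {S : Set (W → Bool)} {y : S} {U : Set S} (hU : U ∈ 𝓝 y) :
    ∃ t : Finset W, ∀ b : S, (∀ ξ ∈ t, b.1 ξ = y.1 ξ) → b ∈ U := by
  rw [mem_nhds_subtype] at hU
  obtain ⟨V, hV, hVU⟩ := hU
  rw [nhds_pi, Filter.mem_pi'] at hV
  obtain ⟨t, u, hu, h⟩ := hV
  refine ⟨t, fun b hb => hVU (h fun ξ hξ => ?_)⟩
  rw [hb ξ hξ]; exact mem_of_mem_nhds (hu ξ)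

lemma tight {S : Set (W → Bool)} (hS : ∀ a ∈ S, {ξ | a ξ = true}.Countable)
    (A : Set S) (y : S) (hy : y ∈ closure A) : ∃ T ⊆ A, T.Countable ∧ y ∈ closure T := by
  classical
  have h1 : ∀ t : Finset W, ∃ b ∈ A, ∀ ξ ∈ t, b.1 ξ = y.1 ξ := by
    intro t
    have ho : IsOpen (⋂ ξ ∈ t, {b : S | b.1 ξ = y.1 ξ}) :=
      isOpen_biInter_finset fun ξ _ =>
        (op_coord ξ (y.1 ξ)).preimage continuous_subtype_val
    obtain ⟨b, hb, hbA⟩ := mem_closure_iff.1 hy _ ho (mem_iInter₂.2 fun _ _ => rfl)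
    exact ⟨b, hbA, fun ξ hξ => mem_iInter₂.1 hb ξ hξ⟩
  choose s hsA hs using h1
  obtain ⟨C, hC, hC0, hCc⟩ := closing (fun t => {ξ | (s t).1 ξ = true})
    (fun t => hS _ (s t).2) _ (hS _ y.2)
  refine ⟨s '' {t | (t : Set W) ⊆ C}, by rintro _ ⟨t, -, rfl⟩; exact hsA t, ?_, ?_⟩
  · exact (fin_count hC).image _
  · rw [mem_closure_iff_nhds]
    intro U hU
    obtain ⟨t, ht⟩ := nhds_fin hU
    have hsub : ((t.filter (· ∈ C) : Finset W) : Set W) ⊆ C := by
      intro ξ hξ; simpa using (Finset.mem_filter.1 hξ).2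
    refine ⟨s (t.filter (· ∈ C)), ht _ fun ξ hξ => ?_, _, hsub, rfl⟩
    by_cases hc : ξ ∈ C
    · exact hs _ ξ (Finset.mem_filter.2 ⟨hξ, hc⟩)
    · have e1 : ¬ (s (t.filter (· ∈ C))).1 ξ = true := fun h => hc (hCc _ hsub h)
      have e2 : ¬ y.1 ξ = true := fun h => hc (hC0 h)
      simp only [Bool.not_eq_true] at e1 e2
      rw [e1, e2]

noncomputable def ind (S : Set (W → Bool)) [CompactSpace S] (ξ : W) : S →ᵇ ℝ :=
  mkOfCompact ⟨fun a => if a.1 ξ = true then 1 else 0,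
    (continuous_of_discreteTopology (f := fun b : Bool => if b = true then (1:ℝ) else 0)).comp
      ((continuous_apply ξ).comp continuous_subtype_val)⟩

lemma ind_apply (S : Set (W → Bool)) [CompactSpace S] (ξ : W) (a : S) :
    ind S ξ a = if a.1 ξ = true then 1 else 0 := rfl

lemma ex_fin {F : W → Set ℝ} [CompactSpace (XS F)] [MeasurableSpace (XS F)] [BorelSpace (XS F)]
    (h1 : ∀ ξ, IsCompact (F ξ)) (h2 : ∀ ξ, F ξ ⊆ Icc 0 1)
    (h3 : ∀ ξ, (1 / 2 : ℝ) ≤ volume.real (F ξ)) (t : Finset W) :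
    ∃ μ : ProbabilityMeasure (XS F), ∀ ξ, (ξ ∈ t → 1 / 2 ≤ ∫ a, ind _ ξ a ∂(μ : Measure (XS F))) ∧
      (ξ ∉ t → ∫ a, ind _ ξ a ∂(μ : Measure (XS F)) = 0) := by
  classical
  let g : (t → Bool) → (W → Bool) := fun c ξ => if h : ξ ∈ t then c ⟨ξ, h⟩ else false
  let z0 : XS F := ⟨fun _ => false, 0, by simp, by simp⟩
  let G : (t → Bool) → XS F := fun c => if h : g c ∈ XS F then ⟨g c, h⟩ else z0
  let ψ : ℝ → (t → Bool) := fun z ξ => decide (z ∈ F ξ)
  have hψ : Measurable ψ := by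
    refine measurable_pi_lambda _ fun ξ => ?_
    refine measurable_to_bool ?_
    convert (h1 ξ).isClosed.measurableSet using 1
    ext z; simp [ψ]
  have hG : Measurable G := measurable_of_finite G
  have hmem : ∀ z, g (ψ z) ∈ XS F := by
    intro z
    by_cases hz : z ∈ Icc (0:ℝ) 1
    · refine ⟨z, hz, fun ξ hξ => ?_⟩
      by_cases h : ξ ∈ t <;> simp [g, ψ, h] at hξ
      exact hξ
    · refine ⟨0, by simp, fun ξ hξ => ?_⟩
      by_cases h : ξ ∈ t <;> simp [g, ψ, h] at hξ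
      exact absurd (h2 ξ hξ) hz
  have hval : ∀ z ξ, (G (ψ z)).1 ξ = true ↔ ξ ∈ t ∧ z ∈ F ξ := by
    intro z ξ
    simp only [G, dif_pos (hmem z), g, ψ]
    by_cases h : ξ ∈ t <;> simp [h]
  let m : Measure ℝ := volume.restrict (Icc 0 1)
  haveI : IsProbabilityMeasure m := ⟨by simp [m]⟩
  have hm := hG.comp hψ
  haveI : IsProbabilityMeasure (m.map (G ∘ ψ)) := Measure.isProbabilityMeasure_map hm.aemeasurable
  refine ⟨⟨m.map (G ∘ ψ), inferInstance⟩, fun ξ => ?_⟩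
  have hI : ∫ a, ind _ ξ a ∂(m.map (G ∘ ψ)) = ∫ z, ind _ ξ (G (ψ z)) ∂m :=
    integral_map hm.aemeasurable (ind _ ξ).continuous.aestronglyMeasurable
  simp only [ProbabilityMeasure.coe_mk, hI]
  constructor
  · intro hξ
    have : (fun z => ind _ ξ (G (ψ z))) = (F ξ).indicator 1 := by
      funext z
      rw [ind_apply]
      by_cases hz : z ∈ F ξ <;> simp [hval, hξ, hz]
    rw [this, integral_indicator_one (h1 ξ).isClosed.measurableSet]
    simp only [m, Measure.real, Measure.restrict_apply (h1 ξ).isClosed.measurableSet,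
      inter_eq_left.2 (h2 ξ)]
    exact h3 ξ
  · intro hξ
    have : (fun z => ind _ ξ (G (ψ z))) = fun _ => 0 := by
      funext z
      rw [ind_apply]; simp [hval, hξ]
    rw [this]; simp

lemma ex_mu {F : W → Set ℝ} [CompactSpace (XS F)] [MeasurableSpace (XS F)] [BorelSpace (XS F)]
    (h1 : ∀ ξ, IsCompact (F ξ)) (h2 : ∀ ξ, F ξ ⊆ Icc 0 1)
    (h3 : ∀ ξ, (1 / 2 : ℝ) ≤ volume.real (F ξ)) (α : W) :
    ∃ μ : ProbabilityMeasure (XS F), (μ : Measure (XS F)).Regular ∧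
      ∀ ξ, (α ≤ ξ → 1 / 2 ≤ ∫ a, ind _ ξ a ∂(μ : Measure (XS F))) ∧
      (ξ < α → ∫ a, ind _ ξ a ∂(μ : Measure (XS F)) = 0) := by
  classical
  let C : W → Set (ProbabilityMeasure (XS F)) := fun ξ =>
    {μ | (α ≤ ξ → 1 / 2 ≤ ∫ a, ind _ ξ a ∂(μ : Measure (XS F))) ∧
      (ξ < α → ∫ a, ind _ ξ a ∂(μ : Measure (XS F)) = 0)}
  have hC : ∀ ξ, IsClosed (C ξ) := by
    intro ξ
    have hc := ProbabilityMeasure.continuous_integral_boundedContinuousFunction (ind (XS F) ξ)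
    rcases le_or_gt α ξ with h | h
    · simp only [C, h, not_lt.2 h, true_implies, false_implies, and_true]
      exact isClosed_le continuous_const hc
    · simp only [C, h, not_le.2 h, true_implies, false_implies, true_and]
      exact isClosed_eq hc continuous_const
  have hne : (⋂ ξ, C ξ).Nonempty := by
    by_contra hemp
    rw [not_nonempty_iff_eq_empty] at hemp
    obtain ⟨t, ht⟩ := isCompact_univ.elim_finite_subfamily_closed C hC (by simp [hemp])
    obtain ⟨μ, hμ⟩ := ex_fin h1 h2 h3 (t.filter (α ≤ ·))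
    refine eq_empty_iff_forall_notMem.1 ht μ ⟨mem_univ _, mem_iInter₂.2 fun ξ hξ => ?_⟩
    exact ⟨fun h => (hμ ξ).1 (Finset.mem_filter.2 ⟨hξ, h⟩),
      fun h => (hμ ξ).2 fun h' => absurd (Finset.mem_filter.1 h').2 (not_le.2 h)⟩
  obtain ⟨μ, hμ⟩ := hne
  obtain ⟨ν, hν, hf, he⟩ := (μ : Measure (XS F)).exists_regular_eq_of_compactSpace
  have hp : IsProbabilityMeasure ν := by
    have := he 1
    simp only [coe_one, Pi.one_apply, integral_const, probReal_univ, _root_.smul_eq_mul, mul_one] at this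
    exact ⟨(ENNReal.toReal_eq_one_iff _).1 this.symm⟩
  refine ⟨⟨ν, hp⟩, hν, fun ξ => ?_⟩
  simp only [ProbabilityMeasure.coe_mk, ← he]
  exact mem_iInter.1 hμ ξ

theorem main (N : Set (Set ℝ)) (hN : #N ≤ ℵ₁) (h0 : ∀ s ∈ N, volume s = 0)
    (hU : ⋃₀ N = Set.univ) :
    ∃ (X : Type) (_ : TopologicalSpace X) (_ : CompactSpace X) (_ : T2Space X)
      (_ : MeasurableSpace X) (_ : BorelSpace X),
      (∀ (S : Set X) (y : X), y ∈ closure S → ∃ T ⊆ S, T.Countable ∧ y ∈ closure T) ∧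
      ∃ (x : X) (A : Set (ProbabilityMeasure X)), (∀ μ ∈ A, (μ : Measure X).Regular) ∧
        (⟨Measure.dirac x, inferInstance⟩ : ProbabilityMeasure X) ∈ closure A ∧
        ∀ B ⊆ A, B.Countable →
          (⟨Measure.dirac x, inferInstance⟩ : ProbabilityMeasure X) ∉ closure B := by
  obtain ⟨F, h1, h2, h3, h4⟩ := ex_F N hN h0 hU
  haveI : CompactSpace (XS F) := isCompact_iff_compactSpace.1 (XS_closed h1).isCompact
  letI : MeasurableSpace (XS F) := borel _
  haveI : BorelSpace (XS F) := ⟨rfl⟩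
  let z0 : XS F := ⟨fun _ => false, 0, by simp, by simp⟩
  choose μ hr hμ using ex_mu h1 h2 h3
  refine ⟨XS F, inferInstance, inferInstance, inferInstance, inferInstance, inferInstance,
    tight ?_, z0, range μ, by rintro _ ⟨α, rfl⟩; exact hr α, ?_, ?_⟩
  · rintro a ⟨z, -, hz⟩
    exact (h4 z).mono hz
  · haveI : Nonempty W := by
      obtain ⟨b, -⟩ := bdd ∅ countable_empty
      exact ⟨b⟩
    refine mem_closure_of_tendsto (X := ProbabilityMeasure (XS F)) (b := atTop) (f := μ)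
      (ProbabilityMeasure.tendsto_iff_forall_integral_tendsto.2 fun f => ?_)
      (Eventually.of_forall mem_range_self)
    have hn : ∀ n : ℕ, ∃ t : Finset W, ∀ b : XS F, (∀ ξ ∈ t, b.1 ξ = z0.1 ξ) →
        b ∈ f ⁻¹' Metric.ball (f z0) (1 / (n + 1)) := fun n =>
      nhds_fin (f.continuous.continuousAt.preimage_mem_nhds
        (Metric.ball_mem_nhds _ Nat.one_div_pos_of_nat))
    choose t ht using hn
    obtain ⟨β, hβ⟩ := bdd (⋃ n, (t n : Set W)) (countable_iUnion fun n => (t n).countable_toSet)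
    refine tendsto_const_nhds.congr' ?_
    filter_upwards [eventually_ge_atTop β] with α hα
    have hae : ∀ ξ < α, ∀ᵐ a ∂(μ α : Measure (XS F)), a.1 ξ = false := by
      intro ξ hξ
      have := (integral_eq_zero_iff_of_nonneg (f := fun a => ind (XS F) ξ a)
        (fun a => by simp only [ind_apply, Pi.zero_apply]; split_ifs <;> simp) ((ind (XS F) ξ).integrable _)).1
        ((hμ α ξ).2 hξ)
      filter_upwards [this] with a ha
      rw [ind_apply] at ha
      by_contra h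
      simp [Bool.not_eq_false _ ▸ h] at ha
    have hae2 : ∀ᵐ a ∂(μ α : Measure (XS F)), ∀ ξ ∈ Set.Iio α, a.1 ξ = false :=
      (ae_ball_iff (Iio_count α)).2 hae
    have hae3 : (fun a => f a) =ᵐ[(μ α : Measure (XS F))] fun _ => f z0 := by
      filter_upwards [hae2] with a ha
      refine eq_of_forall_dist_le fun ε hε => ?_
      obtain ⟨n, hn⟩ := exists_nat_one_div_lt hε
      have := ht n a fun ξ hξ => ha ξ ((hβ ξ (mem_iUnion.2 ⟨n, hξ⟩)).trans_le hα)
      exact (Metric.mem_ball.1 this).le.trans hn.le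
    rw [integral_congr_ae hae3]
    simp
  · intro B hB hc hcl
    haveI : Nonempty W := by
      obtain ⟨b, -⟩ := bdd ∅ countable_empty
      exact ⟨b⟩
    obtain ⟨s, -, hs, rfl⟩ : ∃ s ⊆ (Set.univ : Set W), s.Countable ∧ B = μ '' s := by
      choose! g hg using hB
      refine ⟨g '' B, subset_univ _, hc.image g, ?_⟩
      rw [image_image]
      exact (image_congr hg ▸ image_id' B).symm
    obtain ⟨β, hβ⟩ := bdd s hs
    have hcs : IsClosed {ν : ProbabilityMeasure (XS F) |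
        1 / 2 ≤ ∫ a, ind _ β a ∂(ν : Measure (XS F))} :=
      isClosed_le continuous_const
        (ProbabilityMeasure.continuous_integral_boundedContinuousFunction (ind (XS F) β))
    have := closure_minimal (by rintro _ ⟨α, hα, rfl⟩; exact (hμ α β).1 (hβ α hα).le) hcs hcl
    have h5 : 1 / 2 ≤ ∫ a, ind _ β a ∂(Measure.dirac z0) := this
    rw [integral_dirac, ind_apply] at h5
    simp [z0] at h5
    linarith

end Pool.Agent.H42.Dirac
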