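import Pool.Agent.H42.BG2
import Pool.Agent.H42.Dirac

/-! Under CH: a Borel gamma-set with a centred subset whose pairwise meets are dominating. -/

namespace Pool.Agent.H42.BG

open Set Filter Classical Cardinal Pool.Agent.H42.Dirac

lemma rec_w {σ : Type} [Nonempty σ] (Good : ∀ α : W, (Iio α → σ) → σ → Prop)
    (st : ∀ α (g : Iio α → σ), (∀ β : Iio α, Good β (fun γ => g ⟨γ, lt_trans γ.2 β.2⟩) (g β)) →
      ∃ s, Good α g s) : ∃ f : W → σ, ∀ α, Good α (fun β => f β) (f α) := by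
  let f : W → σ := (wellFounded_lt (α := W)).fix fun α prev =>
    Classical.epsilon (Good α fun β => prev β β.2)
  have hf : ∀ α, f α = Classical.epsilon (Good α fun β => f β) := fun α =>
    WellFounded.fix_eq _ _ _
  refine ⟨f, fun α => ?_⟩
  induction α using WellFoundedLT.induction with
  | ind α ih =>
    rw [hf α]
    exact Classical.epsilon_spec (st α (fun β => f β) fun β => ih β β.2)

lemma ex_enum (hCH : (𝔠 : Cardinal.{0}) = ℵ₁) {τ : Type} [Nonempty τ] (h : #τ ≤ 𝔠) :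
    ∃ e : W → τ, Function.Surjective e := by
  rw [hCH, ← W_card] at h
  obtain ⟨i⟩ := (Cardinal.le_def _ _).1 h
  exact ⟨Function.invFun i, Function.invFun_surjective i.injective⟩

lemma card_meas : #{s : Set C // MeasurableSet s} ≤ 𝔠 := by
  obtain ⟨b, hb, he⟩ := MeasurableSpace.CountablyGenerated.isCountablyGenerated (α := C)
  have := MeasurableSpace.cardinal_measurableSet_le_continuum (s := b)
    ((le_aleph0_iff_set_countable.2 hb).trans aleph0_le_continuum)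
  rw [← he] at this
  exact this

lemma lim_w (α : W) (P : Iio α → Lev) (h : ∀ β γ, β < γ → Rel (P β) (P γ)) :
    ∃ Q : Lev, ∀ β, Rel (P β) Q := by
  rcases isEmpty_or_nonempty (Iio α) with h0 | h0
  · exact ⟨⟨Set.univ, {⟨fun _ => false, fun _ => false, Set.univ, fun _ _ => Or.inl rfl⟩},
      infinite_univ, countable_singleton _, singleton_nonempty _, by simp⟩, fun β => h0.elim β⟩
  have := (Iio_count α).to_subtype
  obtain ⟨e, he⟩ := exists_surjective_nat (Iio α)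
  have hle : ∀ β γ, β ≤ γ → Rel (P β) (P γ) := fun β γ hh => by
    rcases hh.eq_or_lt with rfl | hh
    exacts [Rel.refl _, h _ _ hh]
  obtain ⟨Q, hQ⟩ := lim_lev (fun i => P (partialSups e i)) fun i =>
    hle _ _ ((partialSups e).monotone (Nat.le_succ i))
  refine ⟨Q, fun β => ?_⟩
  obtain ⟨i, rfl⟩ := he β
  exact (hle _ _ (le_partialSups e i)).trans (hQ i)

lemma sparse {S : Set ℕ} (hS : S.Infinite) (g : ℕ → ℕ) :
    ∃ E ⊆ S, E.Infinite ∧ ∀ n, (E ∩ Iic (g n)).ncard ≤ n := by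
  choose c h1 h2 using fun j => hS.exists_gt (max j (partialSups g j))
  refine ⟨range c, range_subset_iff.2 h1, infinite_of_forall_exists_gt fun n =>
    ⟨c n, mem_range_self _, (max_lt_iff.1 (h2 n)).1⟩, fun n => ?_⟩
  have : range c ∩ Iic (g n) ⊆ c '' Iio n := by
    rintro _ ⟨⟨j, rfl⟩, hj⟩
    refine ⟨j, (not_le.1 fun e => ?_ : j < n), rfl⟩
    exact absurd (((le_partialSups_of_le g e).trans_lt (max_lt_iff.1 (h2 j)).2).trans_le hj)
      (lt_irrefl _)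
  refine (ncard_le_ncard this ((finite_lt_nat n).image c)).trans
    ((ncard_image_le (finite_lt_nat n)).trans ?_)
  exact (Set.ncard_Iio_nat n).le

def meet (x y : C) : Set ℕ := {n | x n = true ∧ y n = true}

lemma pair (P : Lev) {E : Set ℕ} (hE : E ⊆ P.D) (hi : E.Infinite) :
    ∃ (Q : Lev) (x y : C), Rel P Q ∧ x ∈ P.pts ∧ y ∈ P.pts ∧ meet x y ⊆ E ∧ Q.D = meet x y := by
  obtain ⟨p, hp⟩ := P.ne
  have hE' : (E ∩ p.D).Infinite :=
    Set.Infinite.mono (fun n hn => ⟨hn.1, not_not.1 fun e => hn.2 ⟨hE hn.1, e⟩⟩)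
      (hi.sdiff (P.sub p hp))
  refine ⟨⟨E ∩ p.D, P.L, hE', P.cnt, P.ne, fun q hq => (P.sub q hq).subset fun n hn =>
    ⟨hE hn.1.1, hn.2⟩⟩, fun n => if n ∈ p.D then decide (n ∈ E) else p.a n,
    fun n => if n ∈ p.D then decide (n ∈ E) else p.b n, ⟨?_, fun q h => ⟨q, h, Le.refl q⟩,
    fun q h _ => ⟨q, h, Le.refl q, inter_subset_left⟩⟩,
    mem_iUnion₂.2 ⟨p, hp, Or.inl fun n hn => if_neg hn⟩,
    mem_iUnion₂.2 ⟨p, hp, Or.inr fun n hn => if_neg hn⟩, ?_, ?_⟩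
  · simp [sdiff_eq_empty.2 (inter_subset_left.trans hE)]
  · intro n hn
    by_cases h : n ∈ p.D
    · simpa [meet, h] using hn
    · have := p.disj n h
      simp only [meet, h, if_false, mem_ofPred] at hn
      simp [hn.1, hn.2] at this
  · ext n
    by_cases h : n ∈ p.D
    · simp [meet, h]
    · have := p.disj n h
      simp only [meet, h, if_false, mem_ofPred, mem_inter_iff, and_false, false_iff]
      rintro ⟨a, b⟩
      simp [a, b] at this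

structure Stage where
  P : Lev
  Z : Set C
  x : C
  y : C

theorem core (hCH : (𝔠 : Cardinal.{0}) = ℵ₁) : ∃ X Y : Set C, Y ⊆ X ∧
    (∀ U : ℕ → ℕ → Set C, (∀ n m, MeasurableSet (U n m)) →
      (∀ n, ∀ F ⊆ X, F.Finite → ∃ m, F ⊆ U n m) → ∃ f : ℕ → ℕ, ∀ x ∈ X, ∀ᶠ n in atTop,
        x ∈ U n (f n)) ∧
    (∀ F ⊆ Y, F.Finite → {n | ∀ x ∈ F, x n = true}.Infinite) ∧
    ∀ g : ℕ → ℕ, ∃ x ∈ Y, ∃ y ∈ Y, ∀ n, (meet x y ∩ Iic (g n)).ncard ≤ n := by
  obtain ⟨e, he⟩ := ex_enum hCH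
    (τ := (ℕ → ℕ) × (ℕ → ℕ → {s : Set C // MeasurableSet s})) (by
      have h1 : #(ℕ → ℕ → {s : Set C // MeasurableSet s}) ≤ 𝔠 := by
        simp only [mk_pi, prod_const, lift_id, mk_nat]
        calc _ ≤ (𝔠 ^ ℵ₀) ^ ℵ₀ := power_le_power_right (power_le_power_right card_meas)
          _ = 𝔠 := by simp
      simp only [mk_prod, lift_id]
      calc _ ≤ 𝔠 * 𝔠 := mul_le_mul' (by simp) h1
        _ = 𝔠 := by simp)
  have : Nonempty Stage := ⟨⟨⟨Set.univ, {⟨fun _ => false, fun _ => false, Set.univ,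
    fun _ _ => Or.inl rfl⟩}, infinite_univ, countable_singleton _, singleton_nonempty _, by simp⟩,
    ∅, default, default⟩⟩
  obtain ⟨f, hf⟩ := rec_w (σ := Stage) (fun α g s => s.Z.Countable ∧
    (∀ β, Rel (g β).P s.P ∧ s.Z ⊆ (g β).P.pts) ∧ s.x ∈ s.Z ∧ s.y ∈ s.Z ∧
    s.P.D ⊆ meet s.x s.y ∧ (∀ n, (meet s.x s.y ∩ Iic ((e α).1 n)).ncard ≤ n) ∧
    ((∃ n, ∃ F ⊆ (⋃ β, (g β).Z) ∪ s.Z, F.Finite ∧ ∀ m, ¬ F ⊆ ((e α).2 n m).1) ∨
      ∃ k : ℕ → ℕ, ∀ x ∈ ((⋃ β, (g β).Z) ∪ s.Z) ∪ s.P.pts, ∀ᶠ n in atTop,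
        x ∈ ((e α).2 n (k n)).1)) (by
    intro α g hg
    obtain ⟨Q0, hQ0⟩ := lim_w α (fun β => (g β).P) fun β γ h => ((hg γ).2.1 ⟨β, h⟩).1
    obtain ⟨E, hE1, hE2, hE3⟩ := sparse Q0.inf (e α).1
    obtain ⟨Q, x, y, h1, h2, h3, h4, h5⟩ := pair Q0 hE1 hE2
    have h6 : ∀ n, (meet x y ∩ Iic ((e α).1 n)).ncard ≤ n := fun n =>
      (ncard_le_ncard (inter_subset_inter_left _ h4)
        ((finite_le_nat _).inter_of_right _)).trans (hE3 n)
    have hxy : ({x, y} : Set C) ⊆ Q0.pts := by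
      rintro _ (rfl | rfl); exacts [h2, h3]
    by_cases hk : ∀ n, ∀ F ⊆ ((⋃ β, (g β).Z) ∪ {x, y}) ∪ Q.pts, F.Finite →
        ∃ m, F ⊆ ((e α).2 n m).1
    · have := (Iio_count α).to_subtype
      obtain ⟨R, k, h7, h8⟩ := gam Q ((countable_iUnion fun β => (hg β).1).union
        (toFinite {x, y}).countable) _ (fun n m => ((e α).2 n m).2) hk
      let R' : Lev := ⟨R.D ∩ Q.D, R.L, Set.Infinite.mono
        (fun n hn => ⟨hn.1, not_not.1 fun e => hn.2 ⟨hn.1, e⟩⟩) (R.inf.sdiff h7.1), R.cnt, R.ne,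
        fun q hq => (R.sub q hq).subset fun n hn => ⟨hn.1.1, hn.2⟩⟩
      have h9 : Rel R R' := ⟨by simp [R', sdiff_eq_empty.2 inter_subset_left],
        fun q h => ⟨q, h, Le.refl q⟩, fun q h _ => ⟨q, h, Le.refl q, inter_subset_left⟩⟩
      exact ⟨⟨R', {x, y}, x, y⟩, (toFinite _).countable, fun β =>
        ⟨(((hQ0 β).trans h1).trans h7).trans h9, hxy.trans (hQ0 β).pts⟩, Or.inl rfl, Or.inr rfl,
        inter_subset_right.trans h5.le, h6, Or.inr ⟨k, h8⟩⟩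
    · push Not at hk
      obtain ⟨n, F, a1, a2, a3⟩ := hk
      refine ⟨⟨Q, {x, y} ∪ F ∩ Q.pts, x, y⟩,
        ((toFinite _).union (a2.inter_of_left _)).countable, fun β => ⟨(hQ0 β).trans h1,
        union_subset (hxy.trans (hQ0 β).pts) (inter_subset_right.trans ((hQ0 β).trans h1).pts)⟩,
        Or.inl (Or.inl rfl), Or.inl (Or.inr rfl), h5.le, h6, Or.inl ⟨n, F, fun z hz => ?_, a2, a3⟩⟩
      rcases a1 hz with (h | h) | h
      exacts [Or.inl h, Or.inr (Or.inl h), Or.inr (Or.inr ⟨hz, h⟩)])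
  refine ⟨⋃ α, (f α).Z, ⋃ α, {(f α).x, (f α).y}, iUnion_mono fun α => ?_, fun U hU h => ?_,
    fun F hF hfin => ?_, fun g => ?_⟩
  · rintro _ (rfl | rfl)
    exacts [(hf α).2.2.1, (hf α).2.2.2.1]
  · obtain ⟨α, hα⟩ := he (default, fun n m => ⟨U n m, hU n m⟩)
    rcases (hf α).2.2.2.2.2.2 with ⟨n, F, a1, a2, a3⟩ | ⟨k, hk⟩
    · obtain ⟨m, hm⟩ := h n F (a1.trans (union_subset
        (iUnion_subset fun β => subset_iUnion (fun α => (f α).Z) β)
        (subset_iUnion (fun α => (f α).Z) α))) a2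
      rw [hα] at a3
      exact absurd hm (a3 m)
    · rw [hα] at hk
      refine ⟨k, fun x hx => hk x ?_⟩
      obtain ⟨β, hβ⟩ := mem_iUnion.1 hx
      rcases lt_trichotomy β α with h1 | rfl | h1
      · exact Or.inl (Or.inl (mem_iUnion.2 ⟨⟨β, h1⟩, hβ⟩))
      · exact Or.inl (Or.inr hβ)
      · exact Or.inr (((hf β).2.1 ⟨α, h1⟩).2 hβ)
  · have : Nonempty W := (bdd ∅ countable_empty).elim fun b _ => ⟨b⟩
    choose! b hb using fun x (hx : x ∈ F) => mem_iUnion.1 (hF hx)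
    obtain ⟨γ, hγ⟩ := bdd (b '' F) (hfin.image b).countable
    refine Set.Infinite.mono ?_ ((f γ).P.inf.sdiff (hfin.biUnion
      (t := fun x => (f γ).P.D \ (f (b x)).P.D) fun x hx =>
      ((hf γ).2.1 ⟨b x, hγ _ ⟨x, hx, rfl⟩⟩).1.1))
    intro n hn x hx
    have h1 : n ∈ (f (b x)).P.D := not_not.1 fun e => hn.2 (mem_iUnion₂.2 ⟨x, hx, hn.1, e⟩)
    have h2 := (hf (b x)).2.2.2.2.1 h1
    rcases hb x hx with h3 | h3 <;> rw [h3]
    exacts [h2.1, h2.2]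
  · obtain ⟨α, hα⟩ := he (g, fun _ _ => ⟨∅, MeasurableSet.empty⟩)
    refine ⟨_, mem_iUnion.2 ⟨α, Or.inl rfl⟩, _, mem_iUnion.2 ⟨α, Or.inr rfl⟩, ?_⟩
    have := (hf α).2.2.2.2.2.1
    rwa [hα] at this

end Pool.Agent.H42.BG
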