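import Mathlib

/-! Countable Borel covers and the selection principles `S1` and `Sfin`. -/

namespace Pool.Agent.H42.BG

/-- a countable cover of `Y` by Borel subsets of `Y`, not containing `Y` itself -/
def BCov (Y : Type) [TopologicalSpace Y] (𝒰 : Set (Set Y)) : Prop :=
  𝒰.Countable ∧ (∀ U ∈ 𝒰, @MeasurableSet Y (borel Y) U) ∧ ⋃₀ 𝒰 = Set.univ ∧ Set.univ ∉ 𝒰

/-- a countable Borel omega-cover -/
def BOm (Y : Type) [TopologicalSpace Y] (𝒰 : Set (Set Y)) : Prop :=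
  BCov Y 𝒰 ∧ ∀ F : Set Y, F.Finite → ∃ U ∈ 𝒰, F ⊆ U

/-- a countable Borel gamma-cover -/
def BGa (Y : Type) [TopologicalSpace Y] (𝒰 : Set (Set Y)) : Prop :=
  BCov Y 𝒰 ∧ 𝒰.Infinite ∧ ∀ x, {U ∈ 𝒰 | x ∉ U}.Finite

/-- the selection principle `S1(A, B)` -/
def S1 {Y : Type} (A B : Set (Set Y) → Prop) : Prop :=
  ∀ 𝒰 : ℕ → Set (Set Y), (∀ n, A (𝒰 n)) →
    ∃ U : ℕ → Set Y, (∀ n, U n ∈ 𝒰 n) ∧ B (Set.range U)

/-- the selection principle `Sfin(A, B)` -/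
def Sfin {Y : Type} (A B : Set (Set Y) → Prop) : Prop :=
  ∀ 𝒰 : ℕ → Set (Set Y), (∀ n, A (𝒰 n)) →
    ∃ F : ℕ → Set (Set Y), (∀ n, (F n).Finite ∧ F n ⊆ 𝒰 n) ∧ B (⋃ n, F n)

end Pool.Agent.H42.BG
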