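import Pool.Agent.H42.BG3
import Pool.Agent.H42.BGDefs

/-! Transfer of the construction to the real line. -/

namespace Pool.Agent.H42.BG

open Set Filter Classical Cardinal MeasureTheory

lemma S1.sfin {Y : Type} {A B : Set (Set Y) → Prop} (h : S1 A B) : Sfin A B := by
  intro 𝒰 h𝒰
  obtain ⟨U, h1, h2⟩ := h 𝒰 h𝒰
  refine ⟨fun n => {U n}, fun n => ⟨finite_singleton _, singleton_subset_iff.2 (h1 n)⟩, ?_⟩
  rwa [iUnion_singleton_eq_range]

lemma S1.mono {Y : Type} {A A' B B' : Set (Set Y) → Prop} (h : S1 A B) (hA : ∀ U, A' U → A U)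
    (hB : ∀ U, B U → B' U) : S1 A' B' := fun 𝒰 h𝒰 =>
  (h 𝒰 fun n => hA _ (h𝒰 n)).imp fun _ h => ⟨h.1, hB _ h.2⟩

lemma Sfin.mono {Y : Type} {A A' B B' : Set (Set Y) → Prop} (h : Sfin A B)
    (hA : ∀ U, A' U → A U) (hB : ∀ U, B U → B' U) : Sfin A' B' := fun 𝒰 h𝒰 =>
  (h 𝒰 fun n => hA _ (h𝒰 n)).imp fun _ h => ⟨h.1, hB _ h.2⟩

lemma BGa.om {Y : Type} [TopologicalSpace Y] {𝒰 : Set (Set Y)} (h : BGa Y 𝒰) : BOm Y 𝒰 := by
  refine ⟨h.1, fun F hF => ?_⟩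
  obtain ⟨U, h1, h2⟩ := (h.2.1.sdiff (hF.biUnion fun x _ => h.2.2 x)).nonempty
  exact ⟨U, h1, fun x hx => not_not.1 fun e => h2 (mem_iUnion₂.2 ⟨x, hx, h1, e⟩)⟩

lemma bga_range {Y : Type} [TopologicalSpace Y] {U : ℕ → Set Y}
    (h1 : ∀ n, MeasurableSet[borel Y] (U n)) (h2 : ∀ n, U n ≠ Set.univ)
    (h3 : ∀ x, ∀ᶠ n in atTop, x ∈ U n) : BGa Y (range U) := by
  refine ⟨⟨countable_range _, forall_mem_range.2 h1, eq_univ_of_forall fun x => ?_,
    fun ⟨n, hn⟩ => h2 n hn⟩, fun hf => ?_, fun x => ?_⟩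
  · obtain ⟨n, hn⟩ := (h3 x).exists
    exact ⟨U n, mem_range_self n, hn⟩
  · have := hf.to_subtype
    obtain ⟨V, hV⟩ := Finite.exists_infinite_fiber fun n => (⟨U n, mem_range_self n⟩ : range U)
    obtain ⟨V, n, rfl⟩ := V
    refine h2 n (eq_univ_of_forall fun x => ?_)
    obtain ⟨m, a1, a2⟩ := ((Nat.frequently_atTop_iff_infinite.2 (infinite_coe_iff.1 hV)).and_eventually
      (h3 x)).exists
    rwa [show U m = U n from congrArg Subtype.val a1] at a2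
  · have := (Nat.cofinite_eq_atTop ▸ h3 x : ∀ᶠ n in cofinite, x ∈ U n)
    refine ((eventually_cofinite.1 this).image U).subset ?_
    rintro _ ⟨⟨n, rfl⟩, hn⟩
    exact ⟨n, hn, rfl⟩

lemma meas_sub {X : Set ℝ} {U : Set X} (h : MeasurableSet[borel X] U) :
    ∃ V : Set ℝ, MeasurableSet V ∧ Subtype.val ⁻¹' V = U := by
  rw [← BorelSpace.measurable_eq (α := X)] at h
  exact h

lemma enum_cov {X : Set ℝ} {𝒰 : Set (Set X)} (h : BCov X 𝒰) (hne : 𝒰.Nonempty) :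
    ∃ V : ℕ → Set ℝ, (∀ m, MeasurableSet (V m)) ∧ 𝒰 = range fun m => Subtype.val ⁻¹' V m := by
  obtain ⟨e, he⟩ := h.1.exists_eq_range hne
  choose V h1 h2 using fun m => meas_sub (h.2.1 (e m) (he ▸ mem_range_self m))
  exact ⟨V, h1, he.trans (congrArg range (funext h2).symm)⟩

/-- index form of the Borel gamma property -/
def Gam (X : Set ℝ) : Prop := ∀ U : ℕ → ℕ → Set ℝ, (∀ n m, MeasurableSet (U n m)) →
  (∀ n, ∀ F ⊆ X, F.Finite → ∃ m, F ⊆ U n m) → ∃ f : ℕ → ℕ, ∀ x ∈ X, ∀ᶠ n in atTop, x ∈ U n (f n)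

lemma Gam.s1 {X : Set ℝ} (h : Gam X) : S1 (BOm X) (BGa X) := by
  intro 𝒰 h𝒰
  choose V h1 h2 using fun n => enum_cov (h𝒰 n).1
    (((h𝒰 n).2 ∅ finite_empty).imp fun _ h => h.1)
  obtain ⟨f, hf⟩ := h V h1 fun n F hF hfin => by
    obtain ⟨U, a1, a2⟩ := (h𝒰 n).2 (Subtype.val ⁻¹' F) (hfin.preimage Subtype.val_injective.injOn)
    rw [h2 n] at a1
    obtain ⟨m, rfl⟩ := a1
    exact ⟨m, fun x hx => a2 (show (⟨x, hF hx⟩ : X) ∈ Subtype.val ⁻¹' F from hx)⟩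
  have h3 : ∀ n, Subtype.val ⁻¹' V n (f n) ∈ 𝒰 n := fun n => h2 n ▸ mem_range_self (f n)
  exact ⟨_, h3, bga_range (fun n => (h𝒰 n).1.2.1 _ (h3 n))
    (fun n e => (h𝒰 n).1.2.2.2 (e ▸ h3 n)) fun x => hf x x.2⟩

lemma meas_meet {Y : Type} [MeasurableSpace Y] {a b : Y → C} (ha : Measurable a)
    (hb : Measurable b) (n m : ℕ) :
    MeasurableSet {z | n < (meet (a z) (b z) ∩ Iic m).ncard} := by
  have h1 : Measurable fun z (i : Fin (m + 1)) => (a z i, b z i) :=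
    measurable_pi_lambda _ fun i => ((measurable_pi_apply _).comp ha).prodMk
      ((measurable_pi_apply _).comp hb)
  have h2 := h1 (MeasurableSet.of_discrete (s := {r : Fin (m + 1) → Bool × Bool |
    n < {i : ℕ | ∃ h : i < m + 1, r ⟨i, h⟩ = (true, true)}.ncard}))
  convert h2 using 1
  ext z
  simp only [mem_ofPred, mem_preimage]
  congr! 2
  ext i
  simp only [meet, mem_inter_iff, mem_ofPred, mem_Iic, Prod.mk.injEq, exists_prop]
  rw [Nat.lt_succ_iff, and_comm]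

lemma meas_fin {Y : Type} [MeasurableSpace Y] {a b : Y → C} (ha : Measurable a)
    (hb : Measurable b) : MeasurableSet {z | (meet (a z) (b z)).Finite} := by
  have : {z | (meet (a z) (b z)).Finite} =
      ⋃ N : ℕ, ⋂ i : ℕ, {z | N ≤ i → ¬ (a z i = true ∧ b z i = true)} := by
    ext z
    simp only [mem_ofPred, mem_iUnion, mem_iInter]
    constructor
    · intro h
      obtain ⟨N, -, hN⟩ := fin_bd h 0
      exact ⟨N, fun i hi e => absurd (hN e) (not_lt.2 hi)⟩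
    · rintro ⟨N, hN⟩
      exact (finite_lt_nat N).subset fun i hi => not_le.1 fun e => hN i e hi
  rw [this]
  refine MeasurableSet.iUnion fun N => MeasurableSet.iInter fun i => ?_
  exact (((measurable_pi_apply i).comp ha).prodMk ((measurable_pi_apply i).comp hb))
    (MeasurableSet.of_discrete (s := {r : Bool × Bool | N ≤ i → ¬ (r.1 = true ∧ r.2 = true)}))

lemma ex_big {s : Set ℕ} (hs : s.Infinite) (n : ℕ) : ∃ m, n < (s ∩ Iic m).ncard := by
  obtain ⟨t, h1, h2, h3⟩ := hs.exists_subset_ncard_eq (n + 1)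
  obtain ⟨m, -, hm⟩ := fin_bd h2 0
  exact ⟨m, lt_of_lt_of_le (by omega) (ncard_le_ncard (subset_inter h1 fun i hi => Iio_subset_Iic_self (hm hi))
    ((finite_le_nat m).inter_of_right _))⟩

lemma bound_fin {Y : Type} {V : ℕ → Set Y} (hV : Monotone V) {F : Set (Set Y)} (h : F.Finite)
    (h' : F ⊆ range V) : ∃ m, ∀ U ∈ F, U ⊆ V m := by
  choose! c hc using h'
  obtain ⟨m, -, hm⟩ := fin_bd (h.image c) 0
  exact ⟨m, fun U hU => hc hU ▸ hV (hm ⟨U, hU, rfl⟩).le⟩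

theorem real_core (hCH : (𝔠 : Cardinal.{0}) = ℵ₁) : ∃ X Y : Set ℝ, Y ⊆ X ∧ Gam X ∧
    ¬ Sfin (BOm (Fin 2 → X)) (BCov (Fin 2 → X)) ∧ ¬ Sfin (BOm Y) (BOm Y) ∧
    ∃ V : ℕ → ℕ → Set (Fin 2 → ℝ), (∀ n m, MeasurableSet (V n m)) ∧
      (∀ n, ⋃ m, V n m = Set.univ) ∧
      ∀ g : ℕ → ℕ, ∃ z : Fin 2 → ℝ, (∀ i, z i ∈ X) ∧ ∀ n, z ∉ V n (g n) := by
  obtain ⟨X, Y, h1, h2, h3, h4⟩ := core hCH
  have : PolishSpace C := ⟨⟩
  have : Uncountable C := by rw [← aleph0_lt_mk_iff]; simp [aleph0_lt_continuum]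
  let φ : ℝ ≃ᵐ C := PolishSpace.measurableEquivOfNotCountable not_countable not_countable
  let V : ℕ → ℕ → Set (Fin 2 → ℝ) := fun n m =>
    {z | (meet (φ (z 0)) (φ (z 1))).Finite} ∪ {z | n < (meet (φ (z 0)) (φ (z 1)) ∩ Iic m).ncard}
  have hV : ∀ n m, MeasurableSet (V n m) := fun n m =>
    (meas_fin (by fun_prop) (by fun_prop)).union (meas_meet (by fun_prop) (by fun_prop) n m)
  have hV1 : ∀ n z, ∃ m, z ∈ V n m := fun n z => by
    by_cases h : (meet (φ (z 0)) (φ (z 1))).Finite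
    exacts [⟨0, Or.inl h⟩, (ex_big h n).imp fun m hm => Or.inr hm]
  have hV2 : ∀ n, Monotone (V n) := fun n m m' h => union_subset_union subset_rfl fun z hz =>
    lt_of_lt_of_le hz (ncard_le_ncard (inter_subset_inter_right _ (Iic_subset_Iic.2 h))
      ((finite_le_nat _).inter_of_right _))
  have hV3 : ∀ g : ℕ → ℕ, ∃ z : Fin 2 → ℝ, (∀ i, z i ∈ φ ⁻¹' Y) ∧ ∀ n, z ∉ V n (g n) := by
    intro g
    obtain ⟨x, hx, y, hy, h5⟩ := h4 g
    refine ⟨![φ.symm x, φ.symm y], by simp [Fin.forall_fin_two, hx, hy], fun n => ?_⟩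
    have h6 := h3 {x, y} (by rintro _ (rfl | rfl) <;> assumption) (toFinite _)
    simp only [V, mem_union, mem_ofPred, Matrix.cons_val_zero, Matrix.cons_val_one,
      MeasurableEquiv.apply_symm_apply, not_or, not_lt]
    exact ⟨fun e => h6 (e.subset fun i hi => ⟨hi x (Or.inl rfl), hi y (Or.inr rfl)⟩), h5 n⟩
  refine ⟨φ ⁻¹' X, φ ⁻¹' Y, preimage_mono h1, fun U hU h => ?_, fun h => ?_, fun h => ?_,
    V, hV, fun n => eq_univ_of_forall fun z => mem_iUnion.2 (hV1 n z), fun g =>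
    (hV3 g).imp fun z hz => ⟨fun i => h1 (hz.1 i), hz.2⟩⟩
  · obtain ⟨f, hf⟩ := h2 (fun n m => φ.symm ⁻¹' U n m) (fun n m => φ.symm.measurable (hU n m))
      fun n F hF hfin => (h n (φ ⁻¹' F) (preimage_mono hF)
        (hfin.preimage φ.injective.injOn)).imp fun m hm x hx => hm (by simpa using hx)
    exact ⟨f, fun x hx => by simpa using hf (φ x) hx⟩
  · let ι : (Fin 2 → φ ⁻¹' X) → (Fin 2 → ℝ) := fun z i => z i
    have hι : Measurable ι := by fun_prop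
    have hm : ∀ n, Monotone fun m => ι ⁻¹' V n m := fun n m m' h => preimage_mono (hV2 n h)
    have h5 : ∀ g : ℕ → ℕ, ∃ z, ∀ n, z ∉ ι ⁻¹' V n (g n) := fun g =>
      (hV3 g).elim fun z hz => ⟨fun i => ⟨z i, h1 (hz.1 i)⟩, hz.2⟩
    obtain ⟨F, a1, a2⟩ := h (fun n => range fun m => ι ⁻¹' V n m) fun n => by
      refine ⟨⟨countable_range _, forall_mem_range.2 fun m => ?_, eq_univ_of_forall fun z => ?_,
        fun ⟨m, hm⟩ => ?_⟩, fun F hF => ?_⟩
      · rw [← BorelSpace.measurable_eq (α := Fin 2 → φ ⁻¹' X)]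
        exact hι (hV n m)
      · exact (hV1 n (ι z)).elim fun m hm => ⟨_, mem_range_self m, hm⟩
      · obtain ⟨z, hz⟩ := h5 fun _ => m
        exact hz n (by rw [show ι ⁻¹' V n m = Set.univ from hm]; trivial)
      · choose c hc using fun z => hV1 n (ι z)
        obtain ⟨m, -, b⟩ := fin_bd (hF.image c) 0
        exact ⟨_, mem_range_self m, fun z hz => hV2 n (b ⟨z, hz, rfl⟩).le (hc z)⟩
    choose g hg using fun n => bound_fin (hm n) (a1 n).1 (a1 n).2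
    obtain ⟨z, hz⟩ := h5 g
    obtain ⟨U, b1, b2⟩ : z ∈ ⋃₀ ⋃ n, F n := a2.2.2.1 ▸ mem_univ z
    obtain ⟨n, b1⟩ := mem_iUnion.1 b1
    exact hz n (hg n U b1 b2)
  · let A : Finset ℕ → Set (φ ⁻¹' Y) := fun s => {x | ∀ i ∈ s, φ x i = true}
    have key : ∀ g : ℕ → ℕ, ∃ x y : φ ⁻¹' Y, ∀ n (s : Finset ℕ), s.card = n + 1 →
        (s : Set ℕ) ⊆ Iic (g n) → ¬ {x, y} ⊆ A s := by
      intro g
      obtain ⟨x, hx, y, hy, h5⟩ := h4 g
      refine ⟨⟨φ.symm x, by simpa using hx⟩, ⟨φ.symm y, by simpa using hy⟩, fun n s a1 a2 a3 => ?_⟩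
      have b1 := a3 (Or.inl rfl)
      have b2 := a3 (Or.inr rfl)
      simp only [A, mem_ofPred, MeasurableEquiv.apply_symm_apply] at b1 b2
      have := (ncard_le_ncard (subset_inter (fun i hi => ⟨b1 i hi, b2 i hi⟩) a2 :
        (s : Set ℕ) ⊆ meet x y ∩ Iic (g n)) ((finite_le_nat _).inter_of_right _)).trans (h5 n)
      rw [ncard_coe_finset] at this
      omega
    have om : ∀ n (F : Set (φ ⁻¹' Y)), F.Finite → ∃ U ∈ A '' {s | s.card = n + 1}, F ⊆ U := by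
      intro n F hF
      obtain ⟨s, b1, b2⟩ := (h3 ((fun x : φ ⁻¹' Y => φ x) '' F)
        (by rintro _ ⟨x, -, rfl⟩; exact x.2) (hF.image _)).exists_subset_card_eq (n + 1)
      exact ⟨_, ⟨s, b2, rfl⟩, fun x hx i hi => b1 hi _ ⟨x, hx, rfl⟩⟩
    obtain ⟨F, a1, a2⟩ := h (fun n => A '' {s | s.card = n + 1}) fun n => by
      refine ⟨⟨(to_countable _).image _, ?_, eq_univ_of_forall fun z => ?_, ?_⟩, om n⟩
      · rintro _ ⟨s, -, rfl⟩
        rw [← BorelSpace.measurable_eq (α := φ ⁻¹' Y)]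
        simp only [A, ofPred_forall]
        refine MeasurableSet.iInter fun i => MeasurableSet.iInter fun _ => ?_
        exact ((measurable_pi_apply i).comp (φ.measurable.comp measurable_subtype_coe))
          (measurableSet_singleton true)
      · obtain ⟨U, b1, b2⟩ := om n {z} (finite_singleton z)
        exact ⟨U, b1, b2 rfl⟩
      · rintro ⟨s, b1, b2⟩
        obtain ⟨m, -, b3⟩ := fin_bd s.finite_toSet 0
        obtain ⟨x, y, b4⟩ := key fun _ => m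
        exact b4 n s b1 (fun i hi => Iio_subset_Iic_self (b3 hi)) (b2 ▸ subset_univ _)
    have : ∀ n, ∃ m, ∀ U ∈ F n, ∃ s : Finset ℕ, s.card = n + 1 ∧ (s : Set ℕ) ⊆ Iic m ∧ A s = U := by
      intro n
      choose! c hc using fun U (hU : U ∈ F n) => (a1 n).2 hU
      obtain ⟨m, -, b⟩ := fin_bd ((a1 n).1.biUnion fun U _ => (c U).finite_toSet) 0
      exact ⟨m, fun U hU => ⟨c U, (hc U hU).1,
        fun i hi => Iio_subset_Iic_self (b (mem_iUnion₂.2 ⟨U, hU, hi⟩)), (hc U hU).2⟩⟩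
    choose g hg using this
    obtain ⟨x, y, b⟩ := key g
    obtain ⟨U, b1, b2⟩ := a2.2 {x, y} (toFinite _)
    obtain ⟨n, b1⟩ := mem_iUnion.1 b1
    obtain ⟨s, b3, b4, rfl⟩ := hg n U b1
    exact b n s b3 b4 b2

end Pool.Agent.H42.BG
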