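import Mathlib

/-! Barely independent families. -/

namespace Pool.Agent.H42.Bar

open Set Cardinal

/-- the splitting number -/
noncomputable def sNum : Cardinal.{0} :=
  sInf {c | ∃ S : Set (Set ℕ), #S = c ∧
    ∀ X : Set ℕ, X.Infinite → ∃ s ∈ S, (X ∩ s).Infinite ∧ (X \ s).Infinite}

/-- the reaping number -/
noncomputable def rNum : Cardinal.{0} :=
  sInf {c | ∃ R : Set (Set ℕ), #R = c ∧ (∀ r ∈ R, r.Infinite) ∧
    ∀ s : Set ℕ, ∃ r ∈ R, (r ∩ s).Finite ∨ (r \ s).Finite}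

/-- the Boolean combination `⋂ 𝒜^h`, with `A^0 = A` and `A^1` the complement -/
def Comb {X : Type} (A : Set (Set X)) (h : Set X → Bool) : Set X :=
  {x | ∀ a ∈ A, (x ∈ a ↔ h a = false)}

/-- `I` is a barely independent family over `X` (of size `λ = #X`) -/
def Barely {X : Type} (I : Set (Set X)) : Prop :=
  (∀ a ∈ I, #a = #X) ∧ I.Infinite ∧ (∀ A ⊆ I, A.Finite → ∀ h, #(Comb A h) = #X) ∧
    ∀ A ⊆ I, #A = ℵ₀ → ∀ h, #(Comb A h) < #X

/-- there is a barely independent family over the cardinal `l` -/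
def Ex (l : Cardinal.{0}) : Prop := ∃ I : Set (Set l.ord.ToType), Barely I

theorem core {X : Type} {I : Set (Set X)} (hI : Barely I) (h0 : ℵ₀ < (#X).ord.cof)
    (H : ∀ T : X → Set ℕ, ∃ R : Set (Set ℕ), #R < (#X).ord.cof ∧ (∀ r ∈ R, r.Infinite) ∧
      ∀ x, ∃ r ∈ R, (r ∩ T x).Finite ∨ (r \ T x).Finite) : False := by
  let e := hI.2.1.natEmbedding
  have ie : Function.Injective fun n => (e n).1 := Subtype.val_injective.comp e.injective
  obtain ⟨R, h1, h2, h3⟩ := H fun x => {n | x ∈ (e n).1}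
  let P : R × ℕ × Bool → Set X := fun t => Comb ((fun n => (e n).1) '' (t.1.1 \ Iic t.2.1)) fun _ => t.2.2
  have h4 : (univ : Set X) ⊆ ⋃ t, P t := fun x _ => by
    obtain ⟨r, a, b | b⟩ := h3 x
    · obtain ⟨k, hk⟩ := b.bddAbove
      refine mem_iUnion.2 ⟨⟨⟨r, a⟩, k, true⟩, ?_⟩
      rintro _ ⟨n, c, rfl⟩
      simpa using fun d => c.2 (hk ⟨c.1, d⟩)
    · obtain ⟨k, hk⟩ := b.bddAbove
      refine mem_iUnion.2 ⟨⟨⟨r, a⟩, k, false⟩, ?_⟩
      rintro _ ⟨n, c, rfl⟩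
      simpa using not_not.1 fun d => c.2 (hk ⟨c.1, d⟩)
  have h5 : #(R × ℕ × Bool) < (#X).ord.cof := by
    simpa using mul_lt_of_lt h0.le h1 h0
  have h6 : ∀ t, #(P t) < #X := fun t => hI.2.2.2 _ (by rintro _ ⟨n, -, rfl⟩; exact (e n).2) (by
    rw [mk_image_eq ie]
    have := ((h2 _ t.1.2).sdiff (finite_Iic t.2.1)).to_subtype
    exact mk_eq_aleph0 _) _
  have hc : (#X).ord.cof ≤ #X := (Ordinal.cof_le_card _).trans_eq (card_ord _)
  refine ((mk_iUnion_le P).trans_lt (mul_lt_of_lt (h0.le.trans hc) (h5.trans_le hc)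
    (iSup_lt_of_lt_cof_ord h5 h6))).not_ge ?_
  rw [← mk_univ]
  exact mk_le_mk_of_subset h4

theorem no_s {l : Cardinal.{0}} (h0 : ℵ₀ < l.ord.cof) (h : l < sNum) : ¬ Ex l := fun ⟨_, hI⟩ =>
  core hI (by simpa using h0) fun T => by
    have : ¬ ∀ X : Set ℕ, X.Infinite → ∃ s ∈ range T, (X ∩ s).Infinite ∧ (X \ s).Infinite :=
      fun c => (h.trans_le (csInf_le' ⟨range T, rfl, c⟩)).not_ge (by simpa using mk_range_le (f := T))
    push Not at this
    obtain ⟨r, a, b⟩ := this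
    refine ⟨{r}, by simpa using one_lt_aleph0.trans h0, by simpa using a, fun x => ⟨r, rfl, ?_⟩⟩
    exact (em (r ∩ T x).Finite).imp id (b _ ⟨x, rfl⟩)

theorem no_r {l : Cardinal.{0}} (h0 : ℵ₀ < l.ord.cof) (h : rNum < l.ord.cof) : ¬ Ex l :=
  fun ⟨_, hI⟩ => core hI (by simpa using h0) fun T => by
    obtain ⟨R, a, b, c⟩ := csInf_mem (s := {c | ∃ R : Set (Set ℕ), #R = c ∧ (∀ r ∈ R, r.Infinite) ∧
      ∀ s : Set ℕ, ∃ r ∈ R, (r ∩ s).Finite ∨ (r \ s).Finite}) ⟨_, {r | r.Infinite}, rfl,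
        fun _ => id, fun s => (em s.Finite).elim (fun d => ⟨univ, infinite_univ, Or.inl (by simpa)⟩)
          fun d => ⟨s, d, Or.inr (by simp)⟩⟩
    exact ⟨R, by simpa using a.trans_lt h, b, fun x => c _⟩

end Pool.Agent.H42.Bar
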