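import Pool.Agent.H42.BauDefs

/-! Gluing homeomorphisms; h-homogeneity from the weak axiom. -/

namespace Pool.Agent.H42.Bau

open Set Cardinal Filter Topology PiNat

section
variable {X : Type} [TopologicalSpace X]

structure Hom (U V : Set X) (f g : X → X) : Prop where
  m1 : MapsTo f U V
  m2 : MapsTo g V U
  l1 : ∀ x ∈ U, g (f x) = x
  l2 : ∀ y ∈ V, f (g y) = y
  c1 : ContinuousOn f U
  c2 : ContinuousOn g V

def H (U V : Set X) : Prop := ∃ f g, Hom U V f g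

theorem Hom.symm {U V : Set X} {f g} (h : Hom U V f g) : Hom V U g f :=
  ⟨h.m2, h.m1, h.l2, h.l1, h.c2, h.c1⟩

theorem H.symm {U V : Set X} (h : H U V) : H V U := let ⟨f, g, h⟩ := h; ⟨g, f, h.symm⟩

theorem H.trans {U V W : Set X} (h : H U V) (h' : H V W) : H U W := by
  obtain ⟨f, g, h⟩ := h
  obtain ⟨f', g', h'⟩ := h'
  exact ⟨f' ∘ f, g ∘ g', h'.m1.comp h.m1, h.m2.comp h'.m2,
    fun x a => by simp [h'.l1 _ (h.m1 a), h.l1 _ a], fun x a => by simp [h.l2 _ (h'.m2 a), h'.l2 _ a],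
    h'.c1.comp h.c1 h.m1, h.c2.comp h'.c2 h'.m2⟩

theorem H_of {U V : Set X} (e : U ≃ₜ V) : H U V := by
  classical
  refine ⟨fun x => if h : x ∈ U then (e ⟨x, h⟩).1 else x,
    fun x => if h : x ∈ V then (e.symm ⟨x, h⟩).1 else x, fun x a => by simp [a],
    fun x a => by simp [a], fun x a => by simp [a], fun x a => by simp [a], ?_, ?_⟩
  · rw [continuousOn_iff_continuous_domRestrict]
    convert continuous_subtype_val.comp e.continuous using 1
    funext x; simp [x.2]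
  · rw [continuousOn_iff_continuous_domRestrict]
    convert continuous_subtype_val.comp e.symm.continuous using 1
    funext x; simp [x.2]

/-- locally constant on `U` -/
def LC {ι : Type} (p : X → ι) (U : Set X) : Prop := ∀ x ∈ U, ∀ᶠ y in 𝓝[U] x, p y = p x

theorem glue_c {ι : Type} {U : Set X} {p : X → ι} (hp : LC p U) {f : ι → X → X}
    (h : ∀ i, ContinuousOn (f i) (U ∩ p ⁻¹' {i})) : ContinuousOn (fun x => f (p x) x) U := by
  intro x a
  have h1 : U ∩ p ⁻¹' {p x} ∈ 𝓝[U] x := inter_mem self_mem_nhdsWithin (hp x a)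
  refine ((h (p x) x ⟨a, rfl⟩).mono_of_mem_nhdsWithin h1).congr_of_eventuallyEq
    ((hp x a).mono fun y b => by simp [b]) rfl

theorem glue {ι : Type} {U V : Set X} {p q : X → ι} (hp : LC p U) (hq : LC q V) {f g : ι → X → X}
    (h : ∀ i, Hom (U ∩ p ⁻¹' {i}) (V ∩ q ⁻¹' {i}) (f i) (g i)) :
    Hom U V (fun x => f (p x) x) (fun y => g (q y) y) ∧ ∀ x ∈ U, q (f (p x) x) = p x := by
  have h1 : ∀ x ∈ U, f (p x) x ∈ V ∧ q (f (p x) x) = p x := fun x a => (h (p x)).m1 ⟨a, rfl⟩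
  have h2 : ∀ x ∈ V, g (q x) x ∈ U ∧ p (g (q x) x) = q x := fun x a => (h (q x)).m2 ⟨a, rfl⟩
  refine ⟨⟨fun x a => (h1 x a).1, fun x a => (h2 x a).1, fun x a => ?_, fun x a => ?_,
    glue_c hp fun i => (h i).c1, glue_c hq fun i => (h i).c2⟩, fun x a => (h1 x a).2⟩
  · simp only [(h1 x a).2]; exact (h _).l1 x ⟨a, rfl⟩
  · simp only [(h2 x a).2]; exact (h _).l2 x ⟨a, rfl⟩

theorem LC.comp {ι : Type} {U V : Set X} {p : X → ι} (hp : LC p V) {f : X → X}
    (hf : ContinuousOn f U) (hm : MapsTo f U V) : LC (p ∘ f) U := fun x a =>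
  ((hf x a).tendsto_nhdsWithin hm).eventually (hp _ (hm a))

theorem LC.mono {ι : Type} {U V : Set X} {p : X → ι} (hp : LC p V) (h : U ⊆ V) : LC p U :=
  fun x a => (hp x (h a)).filter_mono (nhdsWithin_mono _ h)

theorem LC.map {ι ι' : Type} {U : Set X} {p : X → ι} (hp : LC p U) (r : ι → ι') :
    LC (fun x => r (p x)) U := fun x a => (hp x a).mono fun y b => congrArg r b

theorem LC.pair {ι ι' : Type} {U : Set X} {p : X → ι} {q : X → ι'} (hp : LC p U) (hq : LC q U) :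
    LC (fun x => (p x, q x)) U := fun x a => ((hp x a).and (hq x a)).mono fun y b =>
  Prod.ext b.1 b.2

theorem LC.open {ι : Type} {U : Set X} {p : X → ι} (hp : LC p U) (T : Set ι) :
    ∃ O, IsOpen O ∧ U ∩ p ⁻¹' T = U ∩ O := by
  have : ∀ x ∈ U, ∃ O, IsOpen O ∧ x ∈ O ∧ O ∩ U ⊆ {y | p y = p x} := fun x a =>
    mem_nhdsWithin.1 (hp x a)
  choose! O h1 h2 h3 using this
  refine ⟨⋃ x ∈ U ∩ p ⁻¹' T, O x, isOpen_biUnion fun x a => h1 x a.1, Subset.antisymm
    (fun x a => ⟨a.1, mem_biUnion a (h2 x a.1)⟩) fun y ⟨a, b⟩ => ⟨a, ?_⟩⟩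
  obtain ⟨x, c, d⟩ := mem_iUnion₂.1 b
  have : p y = p x := h3 x c.1 ⟨d, a⟩
  show p y ∈ T
  rw [this]; exact c.2
end

variable {S : Type} [TopologicalSpace S] [DiscreteTopology S]

theorem cyl_nhds (x : ℕ → S) (k : ℕ) : cylinder x k ∈ 𝓝 x :=
  (isOpen_cylinder _ x k).mem_nhds (self_mem_cylinder x k)

theorem ex_cyl {O : Set (ℕ → S)} (hO : IsOpen O) {x} (h : x ∈ O) : ∃ k, cylinder x k ⊆ O := by
  obtain ⟨_, ⟨z, l, rfl⟩, h4, h5⟩ :=
    (isTopologicalBasis_cylinders fun _ => S).exists_subset_of_mem_open h hO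
  exact ⟨l, by rwa [mem_cylinder_iff_eq.1 h4]⟩

def sh (k : ℕ) (y : ℕ → S) : ℕ → S := fun i => y (i + k)

def pre (x : ℕ → S) (k : ℕ) (z : ℕ → S) : ℕ → S := fun i => if i < k then x i else z (i - k)

theorem sh_c (k : ℕ) : Continuous (sh (S := S) k) := continuous_pi fun _ => continuous_apply _

theorem pre_c (x : ℕ → S) (k : ℕ) : Continuous (pre x k) := continuous_pi fun i => by
  unfold pre; split_ifs; exacts [continuous_const, continuous_apply _]

omit [TopologicalSpace S] [DiscreteTopology S] in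
theorem sh_pre (x : ℕ → S) (k : ℕ) (z) : sh k (pre x k z) = z := by funext i; simp [sh, pre]

omit [TopologicalSpace S] [DiscreteTopology S] in
theorem pre_mem (x : ℕ → S) (k : ℕ) (z) : pre x k z ∈ cylinder x k := fun i h => by simp [pre, h]

omit [TopologicalSpace S] [DiscreteTopology S] in
theorem pre_sh {x : ℕ → S} {k : ℕ} {y} (h : y ∈ cylinder x k) : pre x k (sh k y) = y := by
  funext i
  by_cases a : i < k
  · simp [pre, a, h i a]
  · simp [pre, a, sh, Nat.sub_add_cancel (not_lt.1 a)]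

theorem kd_pre {κ} {A : Set (ℕ → S)} (hA : KDense κ A) (x : ℕ → S) (k : ℕ) :
    KDense κ (pre x k ⁻¹' A) := by
  rintro U hU ⟨z, hz⟩
  rw [← hA (cylinder x k ∩ sh k ⁻¹' U) ((isOpen_cylinder _ x k).inter (hU.preimage (sh_c k)))
    ⟨pre x k z, pre_mem _ _ _, by simpa [sh_pre] using hz⟩, ← mk_image_eq
      (f := pre x k) (Function.LeftInverse.injective (sh_pre x k))]
  congr 2
  ext y
  constructor
  · rintro ⟨w, ⟨a, b⟩, rfl⟩
    exact ⟨a, pre_mem _ _ _, by simpa [sh_pre] using b⟩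
  · rintro ⟨a, b, c⟩
    exact ⟨sh k y, ⟨by simpa [pre_sh b] using a, c⟩, pre_sh b⟩

theorem H_cyl {κ} (hw : BAw κ (ℕ → S)) {A B : Set (ℕ → S)} (hA : KDense κ A) (hB : KDense κ B)
    (x : ℕ → S) (k : ℕ) : H (A ∩ cylinder x k) B := by
  obtain ⟨e⟩ := hw _ _ (kd_pre hA x k) hB
  refine H.trans ⟨sh k, pre x k, fun y a => ?_, fun y a => ⟨a, pre_mem _ _ _⟩, fun y a => pre_sh a.2,
    fun y _ => sh_pre .., (sh_c k).continuousOn, (pre_c x k).continuousOn⟩ (H_of e)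
  show pre x k (sh k y) ∈ A
  rw [pre_sh a.2]; exact a.1

theorem kd_ne {κ} (h0 : κ ≠ 0) {A : Set (ℕ → S)} (hA : KDense κ A) {U} (hU : IsOpen U)
    (h : U.Nonempty) : (A ∩ U).Nonempty := by
  rw [← nonempty_coe_sort, ← mk_ne_zero_iff, hA U hU h]; exact h0

theorem lab [Countable S] [Nontrivial S] {κ} (hw : BAw κ (ℕ → S)) (h0 : κ ≠ 0)
    (hu : ¬ KDense κ (univ : Set (ℕ → S))) {A B : Set (ℕ → S)} (hA : KDense κ A) (hB : KDense κ B)
    {O} (hO : IsOpen O) (hn : O.Nonempty) :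
    ∃ p : (ℕ → S) → ℕ, LC p (A ∩ O) ∧ ∀ n, H (A ∩ O ∩ p ⁻¹' {n}) B := by
  classical
  obtain ⟨x0, hx0⟩ := hn
  obtain ⟨k0, hk0⟩ := ex_cyl hO hx0
  obtain ⟨w, hw'⟩ : ∃ w, pre x0 k0 w ∉ A := by
    by_contra c
    push Not at c
    exact hu (by convert kd_pre hA x0 k0; exact (eq_univ_of_forall c).symm)
  set z := pre x0 k0 w
  have hz : z ∈ O := hk0 (pre_mem _ _ _)
  have hO' : IsOpen (O \ {z}) := hO.sdiff isClosed_singleton
  have ex : ∀ x : ℕ → S, ∃ k, cylinder x k ⊆ O \ {z} ∨ x ∉ O \ {z} := fun x => by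
    by_cases a : x ∈ O \ {z}
    · exact (ex_cyl hO' a).imp fun k => Or.inl
    · exact ⟨0, Or.inr a⟩
  let k : (ℕ → S) → ℕ := fun x => Nat.find (ex x)
  have hk : ∀ x ∈ O \ {z}, cylinder x (k x) ⊆ O \ {z} := fun x a =>
    (Nat.find_spec (ex x)).resolve_right (not_not.2 a)
  have hk2 : ∀ x ∈ O \ {z}, ∀ y ∈ cylinder x (k x), k y = k x := fun x a y b => by
    have c := mem_cylinder_iff_eq.1 b
    refine (Nat.find_eq_iff _).2 ⟨Or.inl (c ▸ hk x a), fun m hm d => ?_⟩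
    refine Nat.find_min (ex x) hm (Or.inl ?_)
    rw [← mem_cylinder_iff_eq.1 (cylinder_anti x hm.le b)]
    exact d.resolve_right (not_not.2 (hk x a b))
  let p : (ℕ → S) → List S := fun x => res x (k x)
  have hA' : ∀ x ∈ A ∩ O, x ∈ O \ {z} := fun x a => ⟨a.2, fun c => hw' (c ▸ a.1)⟩
  have hp : ∀ x ∈ A ∩ O, A ∩ O ∩ p ⁻¹' {p x} = A ∩ cylinder x (k x) := fun x a => by
    ext y
    constructor
    · rintro ⟨b, c⟩
      have c' : res y (k y) = res x (k x) := c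
      have d : k y = k x := by simpa using congrArg List.length c'
      rw [d] at c'
      exact ⟨b.1, by rw [cylinder_eq_res]; exact c'⟩
    · rintro ⟨b, c⟩
      refine ⟨⟨b, (hk x (hA' x a) c).1⟩, ?_⟩
      show res y (k y) = res x (k x)
      rw [hk2 x (hA' x a) y c]
      rwa [cylinder_eq_res] at c
  have hI : (p '' (A ∩ O)).Infinite := by
    refine fun c => ?_
    obtain ⟨N, hN⟩ := (c.image List.length).bddAbove
    obtain ⟨s, hs⟩ := exists_ne (z N)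
    obtain ⟨y, h1, h2, h3⟩ := kd_ne h0 hA ((isOpen_cylinder _ z N).inter hO') (by
      obtain ⟨l, hl⟩ := ex_cyl hO hz
      obtain ⟨t, ht⟩ := exists_ne (z (N + l))
      refine ⟨Function.update z (N + l) t, fun i a => by simp [show i ≠ N + l by omega],
        hl fun i a => by simp [show i ≠ N + l by omega], fun d => ht ?_⟩
      simpa using congrFun (mem_singleton_iff.1 d) (N + l))
    have h4 : k y ≤ N := by simpa [p] using hN ⟨_, ⟨y, ⟨h1, h3.1⟩, rfl⟩, rfl⟩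
    exact (hk y h3 (cylinder_anti y h4 ((mem_cylinder_comm _ _ _).1 h2))).2 rfl
  have := hI.to_subtype
  obtain ⟨e⟩ : Nonempty (p '' (A ∩ O) ≃ ℕ) := nonempty_equiv_of_countable
  refine ⟨fun x => if h : p x ∈ p '' (A ∩ O) then e ⟨_, h⟩ else 0, LC.map (p := p) (fun x a => ?_)
    (fun l => if h : l ∈ p '' (A ∩ O) then e ⟨_, h⟩ else 0), fun n => ?_⟩
  · refine mem_of_superset (inter_mem self_mem_nhdsWithin
      (mem_nhdsWithin_of_mem_nhds (cyl_nhds x (k x)))) fun y b => ?_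
    exact ((hp x a).ge ⟨b.1.1, b.2⟩).2
  · obtain ⟨x, a, b⟩ := (e.symm n).2
    convert H_cyl hw hA hB x (k x) using 1
    rw [← hp x a]
    ext y
    refine and_congr_right fun c => ?_
    simp only [mem_preimage, mem_singleton_iff, dif_pos (mem_image_of_mem p c), b,
      ← e.eq_symm_apply, Subtype.ext_iff]

theorem HH [Countable S] [Nontrivial S] {κ} (hw : BAw κ (ℕ → S)) (h0 : κ ≠ 0)
    (hu : ¬ KDense κ (univ : Set (ℕ → S))) {A B : Set (ℕ → S)} (hA : KDense κ A) (hB : KDense κ B)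
    {O O'} (hO : IsOpen O) (hn : O.Nonempty) (hO' : IsOpen O') (hn' : O'.Nonempty) :
    H (A ∩ O) (B ∩ O') := by
  obtain ⟨p, h1, h2⟩ := lab hw h0 hu hA hB hO hn
  obtain ⟨q, h3, h4⟩ := lab hw h0 hu hB hB hO' hn'
  choose f g h using fun n => (h2 n).trans (h4 n).symm
  exact ⟨_, _, (glue h1 h3 h).1⟩

end Pool.Agent.H42.Bau
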