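import Pool.Agent.H42.Bau1

/-! The refinement step. -/

namespace Pool.Agent.H42.Bau

open Set Cardinal Filter Topology PiNat

variable {S : Type} [TopologicalSpace S] [DiscreteTopology S]

structure St (A B : Set (ℕ → S)) where
  f : (ℕ → S) → (ℕ → S)
  g : (ℕ → S) → (ℕ → S)
  c : (ℕ → S) → ℕ
  d : (ℕ → S) → ℕ
  hom : Hom A B f g
  lc : LC c univ
  ld : LC d univ
  cd : ∀ a ∈ A, d (f a) = c a

def St.swap {A B : Set (ℕ → S)} (σ : St A B) : St B A :=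
  ⟨σ.g, σ.f, σ.d, σ.c, σ.hom.symm, σ.ld, σ.lc, fun y h => by
    rw [← σ.cd _ (σ.hom.m2 h), σ.hom.l2 y h]⟩

def Ref {A B : Set (ℕ → S)} (σ τ : St A B) : Prop :=
  ∃ r : ℕ → ℕ, (∀ x, σ.c x = r (τ.c x)) ∧ ∀ y, σ.d y = r (τ.d y)

theorem lc_cyl {ι : Type} {p : (ℕ → S) → ι} {U} (h : LC p U) {x} (a : x ∈ U) :
    ∃ l, ∀ y ∈ U, y ∈ cylinder x l → p y = p x := by
  obtain ⟨O, h1, h2, h3⟩ := mem_nhdsWithin.1 (h x a)
  obtain ⟨l, hl⟩ := ex_cyl h1 h2
  exact ⟨l, fun y b c => h3 ⟨hl c, b⟩⟩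

theorem lc_of {ι : Type} {p : (ℕ → S) → ι} (h : ∀ x, ∃ l, ∀ y ∈ cylinder x l, p y = p x) :
    LC p univ := fun x _ => by
  obtain ⟨l, hl⟩ := h x
  exact mem_nhdsWithin_of_mem_nhds (mem_of_superset (cyl_nhds x l) hl)

theorem lc_mem (z : ℕ → S) (l : ℕ) : LC (fun x => x ∈ cylinder z l) univ :=
  lc_of fun x => ⟨l, fun y h => by
    rw [mem_cylinder_iff_eq, mem_cylinder_iff_eq, mem_cylinder_iff_eq.1 h]⟩

theorem fwd [Countable S] {A B : Set (ℕ → S)} (hB : ∀ U, IsOpen U → U.Nonempty → (B ∩ U).Nonempty)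
    (hh : ∀ O O', IsOpen O → O.Nonempty → IsOpen O' → O'.Nonempty → H (A ∩ O) (B ∩ O'))
    (σ : St A B) (k : ℕ) : ∃ idx : (ℕ → S) → ℕ, ∀ m, ∃ τ : St A B, Ref σ τ ∧
      (∀ x x', τ.c x = τ.c x' → x' ∈ cylinder x k) ∧ ∀ y ∈ B, idx y < m → τ.g y = σ.g y := by
  classical
  let _ := Encodable.ofCountable S
  let c' : (ℕ → S) → ℕ := fun x => Nat.pair (σ.c x) (Encodable.encode (res x k))
  have hc' : LC c' univ := (σ.lc.pair (lc_of (p := fun x => res x k) fun x =>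
    ⟨k, fun y h => by rwa [cylinder_eq_res] at h⟩)).map fun t => Nat.pair t.1 (Encodable.encode t.2)
  have hq : LC (c' ∘ σ.g) B := hc'.comp σ.hom.c2 (mapsTo_univ _ _)
  choose! l hl using fun y (a : y ∈ B) => lc_cyl (hq.pair (σ.ld.mono (subset_univ B))) a
  choose l' hl' using fun y => lc_cyl σ.ld (mem_univ y)
  let L := fun y => l y + l' y
  refine ⟨fun y => Encodable.encode (res y (L y)), fun m => ?_⟩
  let W : Set (ℕ → S) := {z | ∃ y ∈ B, Encodable.encode (res y (L y)) < m ∧ z ∈ cylinder y (L y)}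
  obtain ⟨N, hN⟩ : ∃ N, ∀ s : List S, Encodable.encode s < m → s.length ≤ N := by
    obtain ⟨N, h⟩ := (((finite_Iio m).preimage
      (Encodable.encode_injective (α := List S)).injOn).image List.length).bddAbove
    exact ⟨N, fun s a => h ⟨s, a, rfl⟩⟩
  have hW0 : ∀ z ∈ W, ∀ z' ∈ cylinder z N, z' ∈ W := fun z ⟨y, a, b, c⟩ z' e =>
    ⟨y, a, b, mem_cylinder_iff_eq.1 c ▸ cylinder_anti z (by simpa using hN _ b) e⟩
  have hW : LC (· ∈ W) univ := lc_of fun x => ⟨N, fun y h => propext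
    ⟨fun a => hW0 y a x ((mem_cylinder_comm _ _ _).1 h), fun a => hW0 x a y h⟩⟩
  have hY : ∀ z ∈ W, ∃ n, ∀ y ∈ B, z ∈ cylinder y (L y) → c' (σ.g y) = n := by
    rintro z ⟨y0, a, -, b⟩
    refine ⟨c' (σ.g y0), fun y c d => ?_⟩
    obtain ⟨w, e1, e2, e3⟩ := hB _ ((isOpen_cylinder _ y (L y)).inter (isOpen_cylinder _ y0 (L y0)))
      ⟨z, d, b⟩
    exact (congrArg Prod.fst (hl y c w e1 (cylinder_anti y (Nat.le_add_right _ _) e2))).symm.trans
      (congrArg Prod.fst (hl y0 a w e1 (cylinder_anti y0 (Nat.le_add_right _ _) e3)))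
  choose! Y hY using hY
  let J : ℕ → Set ℕ := fun t => {i | ∃ a ∈ A, σ.f a ∉ W ∧ σ.c a = t ∧ c' a = i}
  have hE : ∀ t, ∃ e : (ℕ → S) → ℕ, LC e univ ∧ (∀ z ∉ W, σ.d z = t → e z ∈ J t) ∧
      ∀ i ∈ J t, ∃ z ∉ W, σ.d z = t ∧ e z = i := fun t => by
    by_cases h : ∃ z ∉ W, σ.d z = t
    · obtain ⟨z, h1, h2⟩ := h
      obtain ⟨n, hn⟩ := lc_cyl (hW.pair σ.ld) (mem_univ z)
      have h3 : ∀ y ∈ cylinder z n, y ∉ W ∧ σ.d y = t := fun y a =>
        ⟨fun b => h1 ((congrArg Prod.fst (hn y trivial a)).mp b),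
          (congrArg Prod.snd (hn y trivial a)).trans h2⟩
      obtain ⟨y, h4, h5⟩ := hB _ (isOpen_cylinder _ z n) ⟨z, self_mem_cylinder _ _⟩
      have h6 : c' (σ.g y) ∈ J t := ⟨_, σ.hom.m2 h4, by rw [σ.hom.l2 y h4]; exact (h3 y h5).1,
        (σ.swap.cd y h4).trans (h3 y h5).2, rfl⟩
      refine ⟨fun w => if c' (sh n w) ∈ J t then c' (sh n w) else c' (σ.g y),
        (hc'.comp (sh_c n).continuousOn (mapsTo_univ _ _)).map
          (fun i => if i ∈ J t then i else c' (σ.g y)), fun w _ _ => ?_, fun i a => ?_⟩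
      · beta_reduce; split_ifs <;> assumption
      · obtain ⟨b, -, -, -, e⟩ := id a
        exact ⟨pre z n b, (h3 _ (pre_mem _ _ _)).1, (h3 _ (pre_mem _ _ _)).2,
          by simp only [sh_pre, e, if_pos a]⟩
    · refine ⟨fun _ => 0, fun _ _ => .of_forall fun _ => rfl, fun z a b => (h ⟨z, a, b⟩).elim,
        fun i ⟨a, b, c, d, _⟩ => (h ⟨_, c, (σ.cd a b).trans d⟩).elim⟩
  choose e e1 e2 e3 using hE
  let d' : (ℕ → S) → ℕ := fun z => if z ∈ W then Y z else e (σ.d z) z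
  have hd' : LC d' univ := lc_of fun z => by
    by_cases a : z ∈ W
    · obtain ⟨y, b, c, d⟩ := id a
      refine ⟨L y, fun w f => ?_⟩
      have f' : w ∈ cylinder y (L y) := mem_cylinder_iff_eq.1 d ▸ f
      have g : w ∈ W := ⟨y, b, c, f'⟩
      simp only [d', if_pos a, if_pos g, ← hY z a y b d, ← hY w g y b f']
    · obtain ⟨n, hn⟩ := lc_cyl ((hW.pair σ.ld).pair (e1 (σ.d z))) (mem_univ z)
      refine ⟨n, fun w f => ?_⟩
      have g := hn w trivial f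
      simp only [Prod.mk.injEq] at g
      simp only [d', if_neg a, if_neg (g.1.1 ▸ a : w ∉ W), g.1.2, g.2]
  let p : (ℕ → S) → Option ℕ := fun a => if σ.f a ∈ W then none else some (c' a)
  let q : (ℕ → S) → Option ℕ := fun z => if z ∈ W then none else some (d' z)
  have hp : LC p A := ((hW.comp σ.hom.c1 (mapsTo_univ _ _)).pair (hc'.mono (subset_univ _))).map
    fun t => if t.1 then none else some t.2
  have hq' : LC q univ := (hW.pair hd').map fun t => if t.1 then none else some t.2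
  have hF : ∀ i, ∃ F G, Hom (A ∩ p ⁻¹' {i}) (B ∩ q ⁻¹' {i}) F G ∧ (i = none → F = σ.f ∧ G = σ.g) := by
    rintro (_ | i)
    · refine ⟨σ.f, σ.g, ⟨fun x a => ⟨σ.hom.m1 a.1, ?_⟩, fun x a => ⟨σ.hom.m2 a.1, ?_⟩,
        fun x a => σ.hom.l1 x a.1, fun x a => σ.hom.l2 x a.1, σ.hom.c1.mono inter_subset_left,
        σ.hom.c2.mono inter_subset_left⟩, fun _ => ⟨rfl, rfl⟩⟩
      · simpa [p, q] using a.2
      · simpa [p, q, σ.hom.l2 x a.1] using a.2
    · suffices H (A ∩ p ⁻¹' {some i}) (B ∩ q ⁻¹' {some i}) by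
        obtain ⟨F, G, h⟩ := this
        exact ⟨F, G, h, by simp⟩
      by_cases h : ∃ a ∈ A, σ.f a ∉ W ∧ c' a = i
      · obtain ⟨a, h1, h2, h3⟩ := h
        obtain ⟨O, h4, h5⟩ := hp.open {some i}
        obtain ⟨O', h6, h7⟩ := hq'.open {some i}
        rw [univ_inter, univ_inter] at h7
        obtain ⟨z, b1, b2, b3⟩ := e3 (σ.c a) i ⟨a, h1, h2, rfl, h3⟩
        rw [h5, h7]
        exact hh _ _ h4 ⟨a, (h5.le ⟨h1, by simp [p, h2, h3]⟩).2⟩ h6
          ⟨z, h7.le (by simp [q, d', b1, b2, b3])⟩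
      · have h1 : A ∩ p ⁻¹' {some i} = ∅ := eq_empty_of_forall_notMem fun a b =>
          h ⟨a, b.1, by simpa [p] using b.2⟩
        have h2 : B ∩ q ⁻¹' {some i} = ∅ := eq_empty_of_forall_notMem fun z b => by
          have c : z ∉ W ∧ d' z = i := by simpa [q] using b.2
          obtain ⟨a, d1, d2, -, d3⟩ := e2 _ z c.1 rfl
          exact h ⟨a, d1, d2, by rw [d3, ← c.2]; simp [d', c.1]⟩
        rw [h1, h2]
        exact ⟨id, id, mapsTo_id _, mapsTo_id _, by simp, by simp, continuousOn_id, continuousOn_id⟩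
  choose F G h1 h2 using hF
  obtain ⟨h3, h4⟩ := glue hp (hq'.mono (subset_univ B)) h1
  refine ⟨⟨_, _, c', d', h3, hc', hd', fun a b => ?_⟩, ⟨fun n => n.unpair.1, by simp [c'],
    fun z => ?_⟩, fun x x' a => ?_, fun y a b => ?_⟩
  · by_cases c : σ.f a ∈ W
    · obtain ⟨y, d1, d2, d3⟩ := id c
      have := congrArg Prod.fst (hl y d1 _ (σ.hom.m1 b) (cylinder_anti y (Nat.le_add_right _ _) d3))
      simp only [Function.comp, σ.hom.l1 a b] at this
      simp only [p, if_pos c, (h2 none rfl).1, d', ← hY _ c y d1 d3, this]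
    · have := h4 a b
      simp only [p, if_neg c] at this ⊢
      simp only [q] at this
      split_ifs at this
      simpa using this
  · show σ.d z = (d' z).unpair.1
    by_cases c : z ∈ W
    · obtain ⟨y, d1, d2, d3⟩ := id c
      simp only [d', if_pos c, ← hY _ c y d1 d3, c', Nat.unpair_pair]
      exact (hl' y z trivial (cylinder_anti y (Nat.le_add_left _ _) d3)).trans (σ.swap.cd y d1).symm
    · obtain ⟨a, -, -, d2, d3⟩ := e2 _ z c rfl
      simp only [d', if_neg c, ← d3, c', Nat.unpair_pair, d2]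
  · rw [cylinder_eq_res]
    exact (Encodable.encode_injective (Nat.pair_eq_pair.1 a).2).symm
  · have c : y ∈ W := ⟨y, a, b, self_mem_cylinder _ _⟩
    simp only [q, if_pos c, (h2 none rfl).2]

theorem step [Countable S] {A B : Set (ℕ → S)}
    (hA : ∀ U, IsOpen U → U.Nonempty → (A ∩ U).Nonempty)
    (hB : ∀ U, IsOpen U → U.Nonempty → (B ∩ U).Nonempty)
    (hh : ∀ O O', IsOpen O → O.Nonempty → IsOpen O' → O'.Nonempty → H (A ∩ O) (B ∩ O'))
    (σ : St A B) (k : ℕ) : ∃ ia ib : (ℕ → S) → ℕ, ∀ m, ∃ τ : St A B, Ref σ τ ∧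
      (Even k → ∀ x x', τ.c x = τ.c x' → x' ∈ cylinder x k) ∧
      (¬ Even k → ∀ x x', τ.d x = τ.d x' → x' ∈ cylinder x k) ∧
      (∀ y ∈ A, ia y < m → τ.f y = σ.f y) ∧ ∀ y ∈ B, ib y < m → τ.g y = σ.g y := by
  by_cases hk : Even k
  · obtain ⟨i, hi⟩ := fwd hB hh σ k
    refine ⟨i ∘ σ.f, i, fun m => (hi m).imp fun τ ⟨a, b, c⟩ => ⟨a, fun _ => b, fun d => (d hk).elim,
      fun y d e => ?_, c⟩⟩
    have := c _ (σ.hom.m1 d) e
    rw [σ.hom.l1 y d] at this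
    rw [← τ.hom.l2 _ (σ.hom.m1 d), this]
  · obtain ⟨i, hi⟩ := fwd hA (fun O O' a b c d => (hh O' O c d a b).symm) σ.swap k
    refine ⟨i, i ∘ σ.g, fun m => ?_⟩
    obtain ⟨τ, ⟨r, a1, a2⟩, b, c⟩ := hi m
    refine ⟨τ.swap, ⟨r, a2, a1⟩, fun d => (hk d).elim, fun _ => b, c, fun y d e => ?_⟩
    have := c _ (σ.hom.m2 d) e
    rw [show σ.swap.g (σ.g y) = y from σ.hom.l2 y d] at this
    show τ.f y = σ.g y
    rw [← τ.hom.l2 _ (σ.hom.m2 d), this]

end Pool.Agent.H42.Bau
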