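import Pool.Agent.H42.Bau2

/-! The limit homeomorphism. -/

namespace Pool.Agent.H42.Bau

open Set Cardinal Filter Topology PiNat IMeag

variable {S : Type} [TopologicalSpace S] [DiscreteTopology S]

theorem lim {c d : ℕ → (ℕ → S) → ℕ} (hc : ∀ n, LC (c n) univ) (hd : ∀ n, LC (d n) univ)
    (hr : ∀ n N, n ≤ N → ∃ r : ℕ → ℕ, (∀ x, c n x = r (c N x)) ∧ ∀ y, d n y = r (d N y))
    (hdet : ∀ i, ∃ n, ∀ y y', d n y = d n y' → y i = y' i) (hex : ∀ n x, ∃ y, c n x = d n y) :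
    ∃ h : (ℕ → S) → (ℕ → S), Continuous h ∧ ∀ x y, h x = y ↔ ∀ n, c n x = d n y := by
  choose y hy using hex
  choose n hn using hdet
  have h1 : ∀ m N, m ≤ N → ∀ x, d m (y N x) = c m x := fun m N a x => by
    obtain ⟨r, a, b⟩ := hr m N a
    rw [a, b, hy]
  have h2 : ∀ m x, c m x = d m fun i => y (n i) x i := fun m x => by
    obtain ⟨l, hl⟩ := lc_cyl (hd m) (mem_univ fun i => y (n i) x i)
    obtain ⟨N, hN⟩ := ((finite_Iio l).image n).bddAbove
    rw [← hl (y (N + m) x) trivial fun i a => hn i _ _ ?_, h1 _ _ (Nat.le_add_left _ _)]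
    rw [h1 _ _ ((hN ⟨i, a, rfl⟩).trans (Nat.le_add_right _ _)), hy]
  refine ⟨fun x i => y (n i) x i, continuous_pi fun i => continuous_iff_continuousAt.2 fun x => ?_,
    fun x z => ⟨fun a m => a ▸ h2 m x, fun a => funext fun i => hn i _ _ (by rw [← hy, a])⟩⟩
  refine (continuousAt_const (y := y (n i) x i)).congr ?_
  have := hc (n i) x trivial
  rw [nhdsWithin_univ] at this
  exact this.mono fun w a => hn i _ _ (by rw [← hy, ← hy, a])

theorem stab {α : Type} {u : ℕ → α} (h : ∀ᶠ n in atTop, u (n + 1) = u n) :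
    ∃ N, ∀ n ≥ N, u n = u N := by
  obtain ⟨N, h⟩ := eventually_atTop.1 h
  exact ⟨N, fun n a => Nat.le_induction rfl (fun m b c => (h m b).trans c) n a⟩

theorem ext_homeo [Countable S] {A B : Set (ℕ → S)} (bA : #A < bN) (bB : #B < bN)
    (hA : ∀ U, IsOpen U → U.Nonempty → (A ∩ U).Nonempty)
    (hB : ∀ U, IsOpen U → U.Nonempty → (B ∩ U).Nonempty)
    (hh : ∀ O O', IsOpen O → O.Nonempty → IsOpen O' → O'.Nonempty → H (A ∩ O) (B ∩ O')) :
    ∃ h : (ℕ → S) ≃ₜ (ℕ → S), h '' A = B := by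
  have ne : (univ : Set (ℕ → S)).Nonempty ∨ (univ : Set (ℕ → S)) = ∅ := (eq_empty_or_nonempty _).symm
  rcases ne with ne | ne
  swap
  · refine ⟨Homeomorph.refl _, ?_⟩
    rw [subset_eq_empty (subset_univ B) ne]
    exact subset_eq_empty (subset_univ _) ne
  obtain ⟨f0, g0, h0⟩ := hh _ _ isOpen_univ ne isOpen_univ ne
  rw [inter_univ, inter_univ] at h0
  choose ia ib nxt h1 h2 h3 h4 h5 using step hA hB hh
  let st : List ℕ → St A B := fun s => s.rec ⟨f0, g0, fun _ => 0, fun _ => 0, h0,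
    fun _ _ => .of_forall fun _ => rfl, fun _ _ => .of_forall fun _ => rfl, fun _ _ => rfl⟩
    fun m s σ => nxt σ s.length m
  let F : ((ℕ → S) → List ℕ → ℕ) → (ℕ → S) → ℕ → ℕ := fun i x n => i x (Denumerable.ofNat _ n)
  obtain ⟨Ga, hGa⟩ := bdd bA fun a => F (fun x s => ia (st s) s.length x) a.1
  obtain ⟨Gb, hGb⟩ := bdd bB fun a => F (fun x s => ib (st s) s.length x) a.1
  let s : ℕ → List ℕ := fun n => n.rec [] fun _ t =>
    (Ga (Encodable.encode t) + Gb (Encodable.encode t) + 1) :: t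
  have hl : ∀ n, (s n).length = n := fun n => by
    induction n with
    | zero => rfl
    | succ n ih => exact congrArg (· + 1) ih
  have ht : Tendsto (fun n => Encodable.encode (s n)) atTop atTop :=
    Function.Injective.nat_tendsto_atTop fun a b c => by
      rw [← hl a, ← hl b, Encodable.encode_injective c]
  let σ := fun n => st (s n)
  have hs : ∀ n, σ (n + 1) =
      nxt (σ n) n (Ga (Encodable.encode (s n)) + Gb (Encodable.encode (s n)) + 1) := fun n => by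
    show nxt (σ n) (s n).length _ = _
    rw [hl]
  have hr : ∀ n N, n ≤ N → Ref (σ n) (σ N) := fun n N a => by
    refine Nat.le_induction ⟨id, fun _ => rfl, fun _ => rfl⟩ (fun m _ ⟨r, b, c⟩ => ?_) N a
    obtain ⟨r', d, e⟩ := h1 (σ m) m (Ga (Encodable.encode (s m)) + Gb (Encodable.encode (s m)) + 1)
    rw [← hs] at d e
    exact ⟨r ∘ r', fun x => by rw [b, d]; rfl, fun x => by rw [c, e]; rfl⟩
  have ex : ∀ {A B : Set (ℕ → S)} (_ : ∀ U, IsOpen U → U.Nonempty → (A ∩ U).Nonempty)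
      (τ : St A B) x, ∃ y, τ.c x = τ.d y := fun hA τ x => by
    obtain ⟨l, hl⟩ := lc_cyl τ.lc (mem_univ x)
    obtain ⟨a, b, c⟩ := hA _ (isOpen_cylinder _ x l) ⟨x, self_mem_cylinder _ _⟩
    exact ⟨τ.f a, by rw [τ.cd a b, hl a trivial c]⟩
  obtain ⟨u, u1, u2⟩ := lim (fun n => (σ n).lc) (fun n => (σ n).ld) hr (fun i =>
    ⟨2 * i + 1 + 1, fun y y' a => by
      rw [hs (2 * i + 1)] at a
      exact (h3 _ _ _ (by simp) y y' a i (by omega)).symm⟩) fun n => ex hA (σ n)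
  obtain ⟨v, v1, v2⟩ := lim (fun n => (σ n).ld) (fun n => (σ n).lc)
    (fun n N a => (hr n N a).imp fun _ b => b.symm) (fun i =>
    ⟨2 * (i + 1) + 1, fun y y' a => by
      rw [hs (2 * (i + 1))] at a
      exact (h2 _ _ _ (by simp) y y' a i (by omega)).symm⟩) fun n => ex hB (σ n).swap
  have key : ∀ a ∈ A, ∀ N, (∀ n ≥ N, (σ n).f a = (σ N).f a) → u a = (σ N).f a := fun a b N c =>
    (u2 _ _).2 fun n => by
      obtain ⟨r, d, e⟩ := hr n (N + n) (Nat.le_add_left _ _)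
      rw [d, e, ← c _ (Nat.le_add_right N n), (σ _).cd a b]
  refine ⟨⟨⟨u, v, fun x => (v2 _ _).2 fun n => ((u2 _ _).1 rfl n).symm,
    fun x => (u2 _ _).2 fun n => ((v2 _ _).1 rfl n).symm⟩, u1, v1⟩, Subset.antisymm ?_ fun y b => ?_⟩
  · rintro _ ⟨a, b, rfl⟩
    obtain ⟨N, hN⟩ := stab (u := fun n => (σ n).f a) ((ht.eventually (hGa ⟨a, b⟩)).mono fun n c => by
      simp only [F, Denumerable.ofNat_encode, hl] at c
      rw [hs]
      exact h4 _ _ _ a b (by have : ia (σ n) n a ≤ _ := c; omega))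
    show u a ∈ B
    rw [key a b N hN]
    exact (σ N).hom.m1 b
  · obtain ⟨N, hN⟩ := stab (u := fun n => (σ n).g y) ((ht.eventually (hGb ⟨y, b⟩)).mono fun n c => by
      simp only [F, Denumerable.ofNat_encode, hl] at c
      rw [hs]
      exact h5 _ _ _ y b (by have : ib (σ n) n y ≤ _ := c; omega))
    refine ⟨_, (σ N).hom.m2 b, ?_⟩
    show u _ = y
    rw [key _ ((σ N).hom.m2 b) N fun n c => ?_, (σ N).hom.l2 y b]
    rw [(σ N).hom.l2 y b, ← hN n c, (σ n).hom.l2 y b]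

end Pool.Agent.H42.Bau
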