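import Pool.Agent.H42.Tau1

/-! Gamma-subcovers of tau-star covers of the Cantor space. -/

namespace Pool.Agent.H42.TStar

open Set Cardinal

/-- The statement of the problem. -/
def Stmt : Prop :=
  ∀ U : ℕ → Set (ℕ → Bool), (∀ n, IsOpen (U n)) → Function.Injective U → (∀ n, U n ≠ Set.univ) →
    (∀ x : ℕ → Bool, {n : ℕ | x ∈ U n}.Infinite) →
    (∃ B : (ℕ → Bool) → Set ℕ, (∀ x, B x ⊆ {n : ℕ | x ∈ U n} ∧ (B x).Infinite) ∧
      (∀ x y, (B x \ B y).Finite ∨ (B y \ B x).Finite)) →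
    ∃ A : Set ℕ, A.Infinite ∧ ∀ x : ℕ → Bool, {n : ℕ | n ∈ A ∧ x ∉ U n}.Finite

/-- `p = c`. -/
def PC : Prop := ∀ 𝓕 : Set (Set ℕ), #𝓕 < 𝔠 → (∀ G ⊆ 𝓕, G.Finite → (⋂₀ G).Infinite) →
  ∃ A : Set ℕ, A.Infinite ∧ ∀ F ∈ 𝓕, (A \ F).Finite

/-- `cov(M)`. -/
noncomputable def covM : Cardinal.{0} :=
  sInf {c | ∃ 𝓜 : Set (Set (ℕ → ℕ)), (∀ M ∈ 𝓜, IsMeagre M) ∧ ⋃₀ 𝓜 = Set.univ ∧ #𝓜 = c}

/-- Every almost-inclusion chain has coinitiality below `cov(M)`. -/
def ShortChains : Prop := ∀ T : Set (Set ℕ),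
  (∀ s ∈ T, ∀ t ∈ T, (s \ t).Finite ∨ (t \ s).Finite) →
    ∃ S ⊆ T, #S < covM ∧ ∀ t ∈ T, ∃ s ∈ S, (s \ t).Finite

lemma rec_o {T σ : Type} [LinearOrder T] [WellFoundedLT T] [Nonempty σ]
    (Good : ∀ α : T, (Iio α → σ) → σ → Prop)
    (st : ∀ α (g : Iio α → σ), (∀ β : Iio α, Good β (fun γ => g ⟨γ, lt_trans γ.2 β.2⟩) (g β)) →
      ∃ s, Good α g s) : ∃ f : T → σ, ∀ α, Good α (fun β => f β) (f α) := by
  let f : T → σ := (wellFounded_lt (α := T)).fix fun α prev =>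
    Classical.epsilon (Good α fun β => prev β β.2)
  have hf : ∀ α, f α = Classical.epsilon (Good α fun β => f β) := fun α =>
    WellFounded.fix_eq _ _ _
  refine ⟨f, fun α => ?_⟩
  induction α using WellFoundedLT.induction with
  | ind α ih =>
    rw [hf α]
    exact Classical.epsilon_spec (st α (fun β => f β) fun β => ih β β.2)

lemma tr {a b c : Set ℕ} (h1 : (a \ b).Finite) (h2 : (b \ c).Finite) : (a \ c).Finite :=
  (h1.union h2).subset fun x hx => by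
    by_cases h : x ∈ b
    exacts [Or.inr ⟨h, hx.2⟩, Or.inl ⟨hx.1, h⟩]

def Big (B : Set ℕ) : Prop :=
  ∀ N, ∃ k, ∃ S : Finset ℕ, N ≤ S.card ∧ ∀ n ∈ S, n ∈ B ∧ n.sqrt = k

def z (x : ℕ → Bool) : Set ℕ := {n | x n = true ∧ ∀ m < n, m.sqrt = n.sqrt → x m = false}

lemma big_univ : Big Set.univ := fun N => ⟨N, Finset.Ico (N * N) (N * N + N), by simp,
  fun n hn => ⟨trivial, by
    rw [Finset.mem_Ico] at hn
    exact (Nat.eq_sqrt.2 ⟨hn.1, by nlinarith [hn.2]⟩).symm⟩⟩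

lemma Big.mono {B C : Set ℕ} (h : Big B) (hf : (B \ C).Finite) : Big C := fun N => by
  classical
  obtain ⟨k, S, h1, h2⟩ := h (N + hf.toFinset.card)
  refine ⟨k, S \ hf.toFinset, ?_, fun n hn => ?_⟩
  · have := Finset.le_card_sdiff hf.toFinset S
    omega
  · rw [Finset.mem_sdiff, Finite.mem_toFinset] at hn
    exact ⟨by_contra fun h => hn.2 ⟨(h2 n hn.1).1, h⟩, (h2 n hn.1).2⟩

lemma Big.diff {B : Set ℕ} (h : Big B) (x : ℕ → Bool) : Big (B \ z x) := fun N => by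
  classical
  obtain ⟨k, S, h1, h2⟩ := h (N + 1)
  refine ⟨k, S.filter (· ∉ z x), ?_, fun n hn => ?_⟩
  · have a := Finset.card_filter_add_card_filter_not (s := S) (· ∈ z x)
    have b : (S.filter (· ∈ z x)).card ≤ 1 := Finset.card_le_one.2 fun a ha b hb => by
      rw [Finset.mem_filter] at ha hb
      have e : a.sqrt = b.sqrt := (h2 a ha.1).2.trans (h2 b hb.1).2.symm
      rcases lt_trichotomy a b with c | c | c
      · exact absurd (hb.2.2 a c e) (by simp [ha.2.1])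
      · exact c
      · exact absurd (ha.2.2 b c e.symm) (by simp [hb.2.1])
    omega
  · rw [Finset.mem_filter] at hn
    exact ⟨⟨(h2 n hn.1).1, hn.2⟩, (h2 n hn.1).2⟩

lemma Big.inf {B : Set ℕ} (h : Big B) : B.Infinite := fun hf => by
  obtain ⟨k, S, h1, h2⟩ := h.mono (C := ∅) (by simpa) 1
  obtain ⟨n, hn⟩ := Finset.card_pos.1 h1
  exact (h2 n hn).1

lemma big_ps (hp : PC) {ι : Type} (hι : #ι < 𝔠) (t : ι → Set ℕ)
    (ht : ∀ G : Finset ι, Big (⋂ i ∈ G, t i)) : ∃ E, Big E ∧ ∀ i, (E \ t i).Finite := by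
  classical
  let e : ℕ ≃ Finset ℕ := (Denumerable.eqv _).symm
  let a : ι ⊕ ℕ → Set ℕ := Sum.elim (fun i => {j | ∀ n ∈ e j, n ∈ t i})
    fun N => {j | N ≤ (e j).card ∧ ∃ k, ∀ n ∈ e j, n.sqrt = k}
  obtain ⟨A, hA, hA'⟩ := hp (range a) (mk_range_le.trans_lt (by
    simpa using add_lt_of_lt aleph0_le_continuum hι aleph0_lt_continuum)) (by
    intro G hG hf hfin
    obtain ⟨I, -, hI, rfl⟩ := exists_subset_image_finite_and.1 ⟨G, image_univ ▸ hG, hf, rfl⟩
    obtain ⟨M, hM⟩ := (hfin.image fun j => (e j).card).bddAbove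
    obtain ⟨K, hK⟩ := (hI.preimage Sum.inr_injective.injOn).bddAbove
    obtain ⟨k, S, h1, h2⟩ := ht (hI.preimage Sum.inl_injective.injOn).toFinset (M + K + 1)
    have : e.symm S ∈ ⋂₀ (a '' I) := by
      rintro _ ⟨i | N, hi, rfl⟩
      · simpa [a] using fun n hn => mem_iInter₂.1 (h2 n hn).1 i (by simpa using hi)
      · have := hK (show N ∈ Sum.inr ⁻¹' I from hi)
        simpa [a] using ⟨by omega, k, fun n hn => (h2 n hn).2⟩
    have := hM ⟨_, this, rfl⟩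
    simp only [Equiv.apply_symm_apply] at this
    omega)
  refine ⟨⋃ j ∈ A ∩ a (Sum.inr 0), e j, fun N => ?_, fun i => ?_⟩
  · obtain ⟨j, j1, j2⟩ := (hA.sdiff ((hA' _ ⟨Sum.inr N, rfl⟩))).nonempty
    obtain ⟨h, k, hk⟩ : j ∈ a (Sum.inr N) := by_contra fun h => j2 ⟨j1, h⟩
    exact ⟨k, e j, h, fun n hn => ⟨mem_iUnion₂.2 ⟨j, ⟨j1, Nat.zero_le _, k, hk⟩, hn⟩, hk n hn⟩⟩
  · refine ((hA' _ ⟨Sum.inl i, rfl⟩).biUnion fun j _ => (e j).finite_toSet).subset ?_
    rintro n ⟨h1, h2⟩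
    obtain ⟨j, j1, j2⟩ := mem_iUnion₂.1 h1
    exact mem_iUnion₂.2 ⟨j, ⟨j1.1, fun h => h2 (h n j2)⟩, j2⟩

theorem neg (hp : PC) : ¬ Stmt := by
  classical
  intro h
  obtain ⟨e⟩ : Nonempty ((𝔠 : Cardinal.{0}).ord.ToType ≃ (ℕ → Bool)) := Cardinal.eq.1 (by simp)
  obtain ⟨t, ht⟩ := rec_o (T := (𝔠 : Cardinal.{0}).ord.ToType) (σ := Set ℕ)
    (fun α g s => Big s ∧ Disjoint s (z (e α)) ∧ ∀ β, (s \ g β).Finite) fun α g hg => by
      obtain ⟨E, h1, h2⟩ := big_ps hp (ι := Iio α) (by simpa using mk_Iio_lt α (by simp)) g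
        fun G => by
          rcases G.eq_empty_or_nonempty with rfl | hG
          · simpa using big_univ
          refine (hg (G.max' hG)).1.mono ?_
          rw [sdiff_eq, compl_iInter₂, inter_iUnion₂]
          refine G.finite_toSet.biUnion fun β hβ => ?_
          rcases (G.le_max' β hβ).eq_or_lt with e | e
          · simp [← e]
          · exact (hg (G.max' hG)).2.2 ⟨β, e⟩
      exact ⟨E \ z (e α), h1.diff _, disjoint_sdiff_left, fun β => (h2 β).subset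
        (sdiff_subset_sdiff_left sdiff_subset)⟩
  have one : ∀ n m, m ∈ z (fun k => decide (k = n)) ↔ m = n := fun n m =>
    ⟨fun h => by simpa using h.1, fun h => ⟨by simp [h], fun k hk _ => by simp; omega⟩⟩
  have sub : ∀ x, t (e.symm x) ⊆ {n | x ∈ {x | n ∉ z x}} := fun x n hn hz =>
    disjoint_left.1 (ht (e.symm x)).2.1 hn (by simpa using hz)
  obtain ⟨A, hA, hA'⟩ := h (fun n => {x | n ∉ z x}) (fun n => by
      have : {x | n ∉ z x} = (fun x (i : Fin (n + 1)) => x i) ⁻¹' {y | ¬ (y (Fin.last n) = true ∧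
          ∀ m : Fin (n + 1), m.1 < n → m.1.sqrt = n.sqrt → y m = false)} := by
        ext x
        exact not_congr (and_congr Iff.rfl ⟨fun h m => h m, fun h m hm => h ⟨m, by omega⟩ hm⟩)
      rw [this]
      exact (isOpen_discrete _).preimage (by fun_prop))
    (fun n m hnm => by
      have : (fun k => decide (k = n)) ∉ {x | m ∉ z x} := by
        rw [← show _ = {x | m ∉ z x} from hnm]; exact fun h => h ((one n n).2 rfl)
      exact ((one n m).1 (not_not.1 this)).symm)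
    (fun n hn => (hn.ge (mem_univ fun k => decide (k = n))) ((one n n).2 rfl))
    (fun x => (ht _).1.inf.mono (sub x))
    ⟨fun x => t (e.symm x), fun x => ⟨sub x, (ht _).1.inf⟩, fun x y => by
      rcases lt_trichotomy (e.symm x) (e.symm y) with c | c | c
      exacts [Or.inr ((ht _).2.2 ⟨_, c⟩), Or.inl (by simp [c]), Or.inl ((ht _).2.2 ⟨_, c⟩)]⟩
  have hf := hA' fun n => decide (n ∈ A)
  refine hA ((hf.biUnion (t := fun m => Iio ((m.sqrt + 1) * (m.sqrt + 1)))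
    fun m _ => finite_Iio _).subset fun n hn => ?_)
  have ex : ∃ m, m ∈ A ∧ m.sqrt = n.sqrt := ⟨n, hn, rfl⟩
  refine mem_iUnion₂.2 ⟨Nat.find ex, ⟨(Nat.find_spec ex).1, not_not.2 ⟨by
    simpa using (Nat.find_spec ex).1, fun m hm e => by
      simpa using fun h => Nat.find_min ex hm ⟨h, e.trans (Nat.find_spec ex).2⟩⟩⟩, ?_⟩
  rw [(Nat.find_spec ex).2]
  exact Nat.lt_succ_sqrt n

lemma retr {C : Set (ℕ → ℕ)} (hC : IsClosed C) (hne : C.Nonempty) :
    ∃ φ : (ℕ → ℕ) → ℕ → ℕ, Continuous φ ∧ (∀ x, φ x ∈ C) ∧ ∀ x n, ∀ y ∈ C,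
      (∀ i < n, y i = φ x i) → ∃ x', (∀ i < n, x' i = x i) ∧ φ x' = y := by
  classical
  have : ∀ (n : ℕ) (y : C) (k : ℕ), ∃ w : C, (∀ i < n, w.1 i = y.1 i) ∧
      ∀ v ∈ C, (∀ i < n, v i = y.1 i) → v n = k → w.1 n = k := by
    intro n y k
    by_cases h : ∃ v ∈ C, (∀ i < n, v i = y.1 i) ∧ v n = k
    · obtain ⟨v, a, b, c⟩ := h
      exact ⟨⟨v, a⟩, b, fun _ _ _ _ => c⟩
    · exact ⟨y, fun _ _ => rfl, fun v a b c => absurd ⟨v, a, b, c⟩ h⟩
  choose nx n1 n2 using this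
  obtain ⟨ψ, ψ0, ψ1⟩ : ∃ ψ : (ℕ → ℕ) → ℕ → C, (∀ x, ψ x 0 = ⟨_, hne.some_mem⟩) ∧
      ∀ x n, ψ x (n + 1) = nx n (ψ x n) (x n) :=
    ⟨fun x n => Nat.rec ⟨_, hne.some_mem⟩ (fun n y => nx n y (x n)) n, fun _ => rfl,
      fun _ _ => rfl⟩
  have loc : ∀ n x x', (∀ i < n, x' i = x i) → ψ x' n = ψ x n := by
    intro n x x' h
    induction n with
    | zero => rw [ψ0, ψ0]
    | succ n ih => rw [ψ1, ψ1, ih fun i hi => h i (by omega), h n (by omega)]
  have st : ∀ x n i, i < n → (ψ x n).1 i = (ψ x (i + 1)).1 i := by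
    intro x n i hi
    induction n with
    | zero => omega
    | succ n ih =>
      rcases Nat.lt_succ_iff_lt_or_eq.1 hi with h | rfl
      · rw [ψ1, n1 _ _ _ i h, ih h]
      · rfl
  refine ⟨fun x i => (ψ x (i + 1)).1 i, continuous_pi fun i => ?_, fun x => ?_,
    fun x n y hy h => ⟨fun i => if i < n then x i else y i, fun i hi => if_pos hi, ?_⟩⟩
  · refine IsLocallyConstant.continuous ((IsLocallyConstant.iff_eventually_eq _).2 fun x => ?_)
    filter_upwards [(PiNat.isOpen_cylinder (fun _ => ℕ) x (i + 1)).mem_nhds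
      (PiNat.self_mem_cylinder x _)] with x' hx'
    rw [loc (i + 1) x x' hx']
  · refine hC.mem_of_tendsto (f := fun n => (ψ x n).1) (b := Filter.atTop)
      (tendsto_pi_nhds.2 fun i => tendsto_const_nhds.congr' ?_)
      (Filter.Eventually.of_forall fun n => (ψ x n).2)
    filter_upwards [Filter.eventually_gt_atTop i] with n hn
    exact (st x n i hn).symm
  · have key : ∀ m, ∀ i < n + m, (ψ (fun i => if i < n then x i else y i) (n + m)).1 i = y i := by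
      intro m
      induction m with
      | zero =>
        intro i hi
        rw [Nat.add_zero, loc n x _ fun i hi => if_pos hi, st x n i hi, h i hi]
      | succ m ih =>
        intro i hi
        rw [← Nat.add_assoc, ψ1]
        rcases (show i < n + m ∨ i = n + m by omega) with c | rfl
        · rw [n1 _ _ _ i c, ih i c]
        · rw [n2 _ _ _ y hy (fun j hj => (ih j hj).symm) (by simp)]
          simp
    funext i
    exact (st _ (n + (i + 1)) i (by omega)).symm.trans (key _ i (by omega))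

theorem pos (hs : ShortChains) : Stmt := by
  classical
  rintro U hU - - - ⟨B, hB, hch⟩
  have hm : Measurable fun (x : ℕ → Bool) (n : ℕ) => decide (x ∈ U n) :=
    measurable_pi_lambda _ fun n => measurable_to_bool (by
      convert (hU n).measurableSet using 1
      ext x; simp)
  have : PolishSpace (ℕ → Bool) := ⟨⟩
  obtain ⟨g, hgs, hg⟩ : ∃ g : (ℕ → ℕ) → ℕ → Bool, Function.Surjective g ∧
      Continuous ((fun (x : ℕ → Bool) (n : ℕ) => decide (x ∈ U n)) ∘ g) := by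
    obtain ⟨τ, -, hc, hp⟩ := hm.exists_continuous
    obtain ⟨g, hg, hgs⟩ := @PolishSpace.exists_nat_nat_continuous_surjective _ τ hp _
    exact ⟨g, hgs, @Continuous.comp _ _ _ _ τ Pi.topologicalSpace _ _ hc hg⟩
  have hcl : ∀ n, IsClosed {y | g y ∈ U n} := fun n => by
    convert (isClosed_singleton (x := true)).preimage ((continuous_apply n).comp hg) using 1
    ext y; simp
  by_contra hn
  push Not at hn
  have no : ∀ A : Set ℕ, A.Infinite → ¬ ∀ y, (A \ {n | g y ∈ U n}).Finite := fun A hA h => by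
    obtain ⟨x, hx⟩ := hn A hA
    obtain ⟨y, rfl⟩ := hgs x
    exact hx (h y)
  have lb : ∀ x : ℕ → ℕ → Bool, ∃ w, ∀ k, (B w \ B (x k)).Finite := by
    intro x
    by_contra h
    push Not at h
    obtain ⟨A, a1, a2⟩ := Tau.pseudo (fun k => B (x k)) (fun k => (hB _).2) fun _ _ => hch _ _
    refine no A a1 fun y => ?_
    obtain ⟨k, hk⟩ := h (g y)
    exact (tr (a2 k) ((hch _ _).resolve_left hk)).subset (sdiff_subset_sdiff_right (hB _).1)
  let Sm : Set (ℕ → ℕ) → Prop := fun s => ∃ w, ∀ y ∈ s, (B w \ {n | g y ∈ U n}).Finite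
  let O : Set (ℕ → ℕ) := ⋃₀ {s | IsOpen s ∧ Sm s}
  have hO : Sm O := by
    obtain ⟨T, t1, t2, t3⟩ := TopologicalSpace.isOpen_sUnion_countable {s | IsOpen s ∧ Sm s}
      fun s hs => hs.1
    obtain ⟨f, hf⟩ := (t1.insert ∅).exists_eq_range (insert_nonempty _ _)
    have : ∀ k, Sm (f k) := fun k => by
      rcases (hf ▸ mem_range_self k : f k ∈ insert ∅ T) with e | e
      exacts [⟨fun _ => true, by simp [e]⟩, (t2 e).2]
    choose x hx using this
    obtain ⟨w, hw⟩ := lb x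
    refine ⟨w, fun y hy => ?_⟩
    obtain ⟨s, s1, s2⟩ := t3.ge hy
    obtain ⟨k, rfl⟩ : s ∈ range f := hf ▸ mem_insert_of_mem _ s1
    exact tr (hw k) (hx k y s2)
  obtain ⟨w0, hw0⟩ := hO
  obtain ⟨φ, φ1, φ2, φ3⟩ := retr (C := Oᶜ) (isOpen_sUnion fun s hs => hs.1).isClosed_compl (by
    by_contra h
    exact no _ (hB w0).2 fun y => hw0 y (by_contra fun hy => h ⟨y, hy⟩))
  obtain ⟨S, s1, s2, s3⟩ := hs (range B) (by rintro _ ⟨x, rfl⟩ _ ⟨y, rfl⟩; exact hch x y)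
  let M : Set ℕ → Set (ℕ → ℕ) := fun t => ⋃ m, {x | ∀ k ∈ t, m ≤ k → g (φ x) ∈ U k}
  have hM : ∀ t ∈ S, IsMeagre (M t) := by
    intro t ht
    obtain ⟨w, rfl⟩ := s1 ht
    refine isMeagre_iUnion fun m => IsNowhereDense.isMeagre ?_
    have cl : IsClosed {x | ∀ k ∈ B w, m ≤ k → g (φ x) ∈ U k} := by
      simp only [ofPred_forall]
      exact isClosed_iInter fun k => isClosed_iInter fun _ => isClosed_iInter fun _ =>
        (hcl k).preimage φ1
    rw [cl.isNowhereDense_iff, eq_empty_iff_forall_notMem]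
    intro x hx
    obtain ⟨_, ⟨x0, n, rfl⟩, c1, c2⟩ := (PiNat.isTopologicalBasis_cylinders
      (fun _ => ℕ)).exists_subset_of_mem_open hx isOpen_interior
    obtain ⟨v, hv⟩ := lb fun k => if k = 0 then w else w0
    refine φ2 x ⟨PiNat.cylinder (φ x) n, ⟨PiNat.isOpen_cylinder _ _ _, v, fun y hy => ?_⟩,
      PiNat.self_mem_cylinder _ _⟩
    by_cases c : y ∈ O
    · exact tr (by simpa using hv 1) (hw0 y c)
    · obtain ⟨x', a, rfl⟩ := φ3 x n y c hy
      have := interior_subset (c2 (show x' ∈ PiNat.cylinder x0 n from fun i hi =>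
        (a i hi).trans (c1 i hi)))
      exact tr (by simpa using hv 0) ((finite_Iio m).subset fun k hk =>
        lt_of_not_ge fun h => hk.2 (this k hk.1 h))
  refine s2.not_ge (le_trans (csInf_le' ?_) (mk_image_le (f := M)))
  refine ⟨M '' S, by rintro _ ⟨t, ht, rfl⟩; exact hM t ht, eq_univ_of_forall fun x => ?_, rfl⟩
  obtain ⟨s, a, b⟩ := s3 _ ⟨g (φ x), rfl⟩
  obtain ⟨m, hm⟩ := b.bddAbove
  exact ⟨_, ⟨s, a, rfl⟩, mem_iUnion.2 ⟨m + 1, fun k hk h => (hB _).1 (by_contra fun h' => by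
    have := hm ⟨hk, h'⟩; omega)⟩⟩

end Pool.Agent.H42.TStar
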