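import Pool.Agent.H42.Bau3
import Pool.Agent.H42.TStar

/-! The weak axiom fails at `𝔟` and from `non(M)` on. -/

namespace Pool.Agent.H42.Bau

open Set Cardinal Filter Topology PiNat IMeag

theorem Hom.cl {X : Type} [TopologicalSpace X] {U V : Set X} {f g} (h : Hom U V f g) {C : Set X}
    (hC : IsClosed C) {x} (a : x ∈ U) : x ∈ closure (U ∩ f ⁻¹' C) ↔ f x ∈ C :=
  ⟨fun b => closure_minimal (by rintro _ ⟨y, c, rfl⟩; exact c.2) hC
    (((h.c1 x a).mono inter_subset_left).mem_closure_image b), fun b => subset_closure ⟨a, b⟩⟩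

theorem mscale : ∃ f : bN.ord.ToType → ℕ → ℕ, (∀ a, Monotone (f a)) ∧
    (∀ a b, a < b → ∀ᶠ n in atTop, f a n < f b n) ∧
    ∀ g : ℕ → ℕ, ∃ a, ¬∀ᶠ n in atTop, f a n ≤ g n := by
  obtain ⟨F, h1, h2⟩ := ex_unb
  obtain ⟨e⟩ : Nonempty (bN.ord.ToType ≃ F) := Cardinal.eq.1 (by simp [h2])
  obtain ⟨f, hf⟩ := TStar.rec_o (T := bN.ord.ToType) (σ := ℕ → ℕ)
    (fun a g s => Monotone s ∧ (∀ n, (e a).1 n ≤ s n) ∧ ∀ b, ∀ᶠ n in atTop, g b n < s n)
    fun a g _ => by
      obtain ⟨h, hh⟩ := bdd (by simpa using mk_Iio_lt a (by simp)) g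
      have : ∀ n, (e a).1 n + h n + 1 ≤ partialSups (fun n => (e a).1 n + h n + 1) n :=
        le_partialSups (fun n => (e a).1 n + h n + 1)
      exact ⟨partialSups (fun n => (e a).1 n + h n + 1), (partialSups _).monotone,
        fun n => by have := this n; omega,
        fun b => (hh b).mono fun n c => by have := this n; omega⟩
  refine ⟨f, fun a => (hf a).1, fun a b c => (hf b).2.2 ⟨a, c⟩, fun g => ?_⟩
  obtain ⟨h, a, b⟩ := h1 g
  refine ⟨e.symm ⟨h, a⟩, fun c => ?_⟩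
  obtain ⟨n, d, k⟩ := (b.and_eventually c).exists
  have := (hf (e.symm ⟨h, a⟩)).2.1 n
  simp only [Equiv.apply_symm_apply] at this
  omega

variable {S : Type} [TopologicalSpace S] [DiscreteTopology S] [Countable S]

def Md {ι : Type} (t : ι → ℕ → S) (I : Set ι) : Set (ℕ → S) :=
  {y | ∃ a ∈ I, ∀ᶠ n in atTop, y n = t a n}

omit [TopologicalSpace S] [DiscreteTopology S] in
theorem md_le {ι : Type} (t : ι → ℕ → S) (I : Set ι) : #(Md t I) ≤ #I * ℵ₀ := by
  have h : ∀ x : ℕ → S, {y : ℕ → S | ∀ᶠ n in atTop, y n = x n}.Countable := fun x => by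
    refine (countable_iUnion (t := fun k => {y : ℕ → S | ∀ n ≥ k, y n = x n}) fun k => ?_).mono
      fun y a => mem_iUnion.2 (eventually_atTop.1 a)
    refine MapsTo.countable_of_injOn (f := fun y (i : Fin k) => y i) (mapsTo_univ _ _)
      (fun y a z b c => funext fun i => ?_) countable_univ
    rcases lt_or_ge i k with d | d
    · exact congrFun c ⟨i, d⟩
    · rw [a i d, b i d]
  have : Md t I = ⋃ a : I, {y : ℕ → S | ∀ᶠ n in atTop, y n = t a n} := by ext; simp [Md]
  rw [this]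
  exact (mk_iUnion_le _).trans (mul_le_mul_right (ciSup_le' fun a =>
    le_aleph0_iff_set_countable.2 (h _)) _)

theorem kd_md {ι : Type} (t : ι → ℕ → S) (h0 : ℵ₀ ≤ #ι)
    (ht : ∀ a b, (∀ᶠ n in atTop, t a n = t b n) → a = b) : KDense #ι (Md t univ) := by
  rintro U hU ⟨x, hx⟩
  obtain ⟨k, hk⟩ := ex_cyl hU hx
  refine le_antisymm ((mk_le_mk_of_subset inter_subset_left).trans ((md_le t _).trans_eq ?_))
    (mk_le_of_injective (f := fun a => ⟨fun i => if i < k then x i else t a i, ⟨a, trivial,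
      (eventually_ge_atTop k).mono fun n b => by simp [not_lt.2 b]⟩, hk fun i b => by simp [b]⟩)
      fun a b c => ht a b ((eventually_ge_atTop k).mono fun n d => ?_))
  · rw [mk_univ, mul_eq_left h0 h0 aleph0_ne_zero]
  · simpa [not_lt.2 d] using congrFun (congrArg Subtype.val c) n

omit [DiscreteTopology S] [Countable S] in
theorem kd_union {κ} (h0 : ℵ₀ ≤ κ) {A Z : Set (ℕ → S)} (hA : KDense κ A) (hZ : #Z ≤ κ) :
    KDense κ (A ∪ Z) := fun U a b => by
  refine le_antisymm ?_ ((hA U a b).ge.trans (mk_le_mk_of_subset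
    (inter_subset_inter_left _ subset_union_left)))
  rw [union_inter_distrib_right]
  exact (mk_union_le _ _).trans (add_le_of_le h0 (hA U a b).le
    ((mk_le_mk_of_subset inter_subset_left).trans hZ))

theorem not_b [Nontrivial S] : ¬ BAw bN (ℕ → S) := fun hw => by
  classical
  obtain ⟨s0, s1, hs⟩ := exists_pair_ne S
  obtain ⟨f, f0, f1, f2⟩ := mscale
  let X : (ℕ → ℕ) → ℕ → S := fun g n => if n.unpair.2 ≤ g n.unpair.1 then s0 else s1
  let G : (Σ k, Fin k → ℕ) → ℕ → S := fun σ n =>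
    if h : n.unpair.1 < σ.1 then (if n.unpair.2 ≤ σ.2 ⟨_, h⟩ then s0 else s1) else s0
  have tp : ∀ g : ℕ → ℕ, Tendsto (fun n => Nat.pair n (g n)) atTop atTop := fun g =>
    tendsto_atTop_mono (fun n => Nat.left_le_pair n _) tendsto_id
  have lt : ∀ a b, a < b → ∀ y : ℕ → S, (∀ᶠ n in atTop, y n = X (f a) n) →
      ∀ᶠ n in atTop, y (Nat.pair n (f b n)) = s1 := fun a b c y d =>
    (((tp (f b)).eventually d).and (f1 a b c)).mono fun n e => by simp [e.1, X, not_le.2 e.2]
  have ge : ∀ a b, b ≤ a → ∀ y : ℕ → S, (∀ᶠ n in atTop, y n = X (f a) n) →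
      ∀ᶠ n in atTop, y (Nat.pair n (f b n)) = s0 := fun a b c y d => by
    have : ∀ᶠ n in atTop, f b n ≤ f a n := c.eq_or_lt.elim (fun e => by simp [e])
      fun e => (f1 b a e).mono fun _ => le_of_lt
    exact (((tp (f b)).eventually d).and this).mono fun n e => by simp [e.1, X, e.2]
  have inj : ∀ a b, (∀ᶠ n in atTop, X (f a) n = X (f b) n) → a = b := fun a b c => by
    rcases lt_trichotomy a b with d | d | d
    · obtain ⟨n, e1, e2⟩ := ((lt a b d _ (.of_forall fun _ => rfl)).and (ge b b le_rfl _ c)).exists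
      exact (hs (e2.symm.trans e1)).elim
    · exact d
    · obtain ⟨n, e1, e2⟩ := ((lt b a d _ c).and (ge a a le_rfl _ (.of_forall fun _ => rfl))).exists
      exact (hs (e2.symm.trans e1)).elim
  have hA := kd_md (fun a => X (f a)) (by simpa using aleph0_lt_b.le) inj
  rw [show #bN.ord.ToType = bN by simp] at hA
  obtain ⟨e⟩ := hw _ _ (kd_union aleph0_lt_b.le hA (Z := range G)
    ((le_aleph0_iff_set_countable.2 (countable_range G)).trans aleph0_lt_b.le)) hA
  obtain ⟨u, v, h⟩ := H_of e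
  choose a _ ha using fun σ => h.m1 (Or.inr ⟨σ, rfl⟩ : G σ ∈ _)
  obtain ⟨g, hg⟩ := bdd (mk_le_aleph0.trans_lt aleph0_lt_b) fun σ => f (a σ)
  obtain ⟨c, hc⟩ := f2 g
  have ac : ∀ σ, a σ < c := fun σ => by
    by_contra d
    refine hc ((not_lt.1 d).eq_or_lt.elim (fun e => e ▸ hg σ) fun e => ?_)
    exact ((f1 _ _ e).and (hg σ)).mono fun n k => k.1.le.trans k.2
  let C : ℕ → Set (ℕ → S) := fun j => {y | ∀ n ≥ j, y (Nat.pair n (f c n)) = s0}
  have hC : ∀ j, IsClosed (C j) := fun j => by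
    simp only [C, ofPred_forall]
    exact isClosed_iInter fun n => isClosed_iInter fun _ =>
      isClosed_eq (continuous_apply _) continuous_const
  let C' := fun j => closure ((Md (fun a => X (f a)) univ ∪ range G) ∩ u ⁻¹' C j)
  have hG : ∀ j σ, G σ ∉ C' j := fun j σ b => by
    obtain ⟨n, e1, e2⟩ := ((lt _ _ (ac σ) _ (ha σ)).and (eventually_ge_atTop j)).exists
    exact hs (((h.cl (hC j) (Or.inr ⟨σ, rfl⟩)).1 b n e2).symm.trans e1)
  have hb : ∀ j n, ∃ b, ∀ a, X (f a) ∈ C' j → f a n ≤ b := fun j n => by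
    induction n using Nat.strong_induction_on with
    | _ n ih =>
    choose b hb using fun i : Fin n => ih i i.2
    choose L hL using fun s => ex_cyl isClosed_closure.isOpen_compl (hG j ⟨n, s⟩)
    obtain ⟨N, hN⟩ := ((Finite.pi fun i => finite_Iic (b i)).image L).bddAbove
    refine ⟨N, fun a d => not_lt.1 fun k => hL (fun i => f a i) (fun i m => ?_) d⟩
    have := hN ⟨fun i => f a i, fun i _ => hb i a d, rfl⟩
    by_cases w : i.unpair.1 < n
    · simp [X, G, w]
    · have := f0 a (not_lt.1 w)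
      have := Nat.unpair_right_le i
      simp only [X, G, dif_neg w]
      rw [if_pos (by omega)]
  choose b hb using hb
  obtain ⟨g1, hg1⟩ := bdd (by simpa using aleph0_lt_b) b
  have hm : ∀ a, X (f a) ∈ Md (fun a => X (f a)) univ ∪ range G := fun a =>
    Or.inl ⟨a, trivial, .of_forall fun _ => rfl⟩
  have small : #{a | ∀ j, X (f a) ∉ C' j} < bN := by
    refine lt_of_le_of_lt (mk_le_of_injective (f := fun a => (⟨u (X (f a.1)), ?_⟩ :
      Md (fun a => X (f a)) (Iio c))) fun a a' k => Subtype.ext (inj _ _ (.of_forall fun n => ?_)))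
      ((md_le _ _).trans_lt (mul_lt_of_lt aleph0_lt_b.le (by simpa using mk_Iio_lt c (by simp))
        aleph0_lt_b))
    · obtain ⟨d, -, k⟩ := h.m1 (hm a.1)
      refine ⟨d, (not_le.1 fun m => ?_ : d < c), k⟩
      obtain ⟨j, hj⟩ := eventually_atTop.1 (ge d c m _ k)
      exact a.2 j ((h.cl (hC j) (hm _)).2 hj)
    · rw [← h.l1 _ (hm a.1), ← h.l1 _ (hm a'.1),
        show u (X (f a.1)) = u (X (f a'.1)) from congrArg Subtype.val k]
  obtain ⟨g2, hg2⟩ := bdd small fun a => f a.1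
  obtain ⟨d, hd⟩ := f2 (g1 + g2)
  by_cases k : ∀ j, X (f d) ∉ C' j
  · exact hd ((hg2 ⟨d, k⟩).mono fun n m => m.trans (Nat.le_add_left _ _))
  · push Not at k
    obtain ⟨j, k⟩ := k
    exact hd ((hg1 j).mono fun n m => ((hb j n d k).trans m).trans (Nat.le_add_right _ _))

theorem not_m [Nontrivial S] {κ} (h0 : ℵ₀ ≤ κ) (hm : nonMX (ℕ → S) ≤ κ) {A : Set (ℕ → S)}
    (hA : KDense κ A) : ¬ BAw κ (ℕ → S) := fun hw => by
  classical
  obtain ⟨s0, s1, hs⟩ := exists_pair_ne S
  obtain ⟨Z, h1, h2⟩ := csInf_mem (s := {c | ∃ Z : Set (ℕ → S), ¬ IsMeagre Z ∧ #Z = c})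
    ⟨_, univ, not_isMeagre_of_isOpen isOpen_univ ⟨fun _ => s0, trivial⟩, rfl⟩
  have hk : #A = κ := by simpa using hA univ isOpen_univ ⟨fun _ => s0, trivial⟩
  let t : A → ℕ → S := fun a n => if n.unpair.1 = 0 then s0 else a.1 (n.unpair.1 - 1)
  have tp : ∀ i : ℕ, Tendsto (fun n => Nat.pair i n) atTop atTop := fun i =>
    tendsto_atTop_mono (fun n => Nat.right_le_pair i n) tendsto_id
  have hB := kd_md t (hk ▸ h0) fun a b c => Subtype.ext (funext fun i => by
    obtain ⟨n, d⟩ := ((tp (i + 1)).eventually c).exists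
    simpa [t] using d)
  rw [hk] at hB
  have hA' := kd_union h0 hA (h2.le.trans hm)
  obtain ⟨e⟩ := hw _ _ hA' hB
  obtain ⟨u, v, h⟩ := H_of e
  let C : ℕ → Set (ℕ → S) := fun j => {y | ∀ n ≥ j, y (Nat.pair 0 n) = s0}
  have hC : ∀ j, IsClosed (C j) := fun j => by
    simp only [C, ofPred_forall]
    exact isClosed_iInter fun n => isClosed_iInter fun _ =>
      isClosed_eq (continuous_apply _) continuous_const
  have k0 : κ ≠ 0 := (aleph0_pos.trans_le h0).ne'
  refine h1 (IsMeagre.mono (s := ⋃ j, closure ((A ∪ Z) ∩ u ⁻¹' C j)) (fun z a => ?_)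
    (isMeagre_iUnion fun j => IsNowhereDense.isMeagre ?_))
  · obtain ⟨d, -, k⟩ := h.m1 (Or.inr a)
    obtain ⟨j, hj⟩ := eventually_atTop.1 ((tp 0).eventually k)
    exact mem_iUnion.2 ⟨j, subset_closure ⟨Or.inr a, fun n b => by simpa [t] using hj n b⟩⟩
  · rw [isClosed_closure.isNowhereDense_iff]
    by_contra c
    obtain ⟨x, a, b⟩ := kd_ne k0 hA' isOpen_interior (nonempty_iff_ne_empty.2 c)
    have d := (h.c2 _ (h.m1 a)).preimage_mem_nhdsWithin
      (isOpen_interior.mem_nhds (by rwa [h.l1 x a]))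
    obtain ⟨O, e1, e2, e3⟩ := mem_nhdsWithin.1 d
    obtain ⟨l, hl⟩ := ex_cyl e1 e2
    let y := Function.update (u x) (Nat.pair 0 (j + l)) s1
    have y1 : y ∈ Md t univ := by
      obtain ⟨d, -, k⟩ := h.m1 a
      exact ⟨d, trivial, (k.and (eventually_gt_atTop (Nat.pair 0 (j + l)))).mono fun n m => by
        simp [y, m.2.ne', m.1]⟩
    have y2 := (h.cl (hC j) (h.m2 y1)).1 (interior_subset (e3 ⟨hl fun i m => by
      have := Nat.right_le_pair 0 (j + l)
      simp [y, show i ≠ Nat.pair 0 (j + l) by omega], y1⟩)) (j + l) (Nat.le_add_right _ _)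
    rw [h.l2 y y1] at y2
    exact hs (by simpa [y] using y2.symm)

theorem main [Nontrivial S] {κ} (hκ : κ ≤ bN ∨ nonMX (ℕ → S) ≤ κ) :
    BAw κ (ℕ → S) ↔ BA κ (ℕ → S) := by
  refine ⟨fun hw A B hA hB => ?_, fun h A B hA hB => ?_⟩
  · have ne : (univ : Set (ℕ → S)).Nonempty := univ_nonempty
    have kA : #A = κ := by simpa using hA univ isOpen_univ ne
    have kB : #B = κ := by simpa using hB univ isOpen_univ ne
    by_cases h0 : κ = 0
    · refine ⟨Homeomorph.refl _, ?_⟩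
      rw [mk_set_eq_zero_iff.1 (kA.trans h0), mk_set_eq_zero_iff.1 (kB.trans h0), image_empty]
    have hb : κ < bN := by
      by_contra c
      rcases hκ with d | d
      · exact not_b (d.antisymm (not_lt.1 c) ▸ hw)
      · exact not_m (aleph0_lt_b.le.trans (not_lt.1 c)) d hA hw
    refine ext_homeo (kA ▸ hb) (kB ▸ hb) (fun U => kd_ne h0 hA) (fun U => kd_ne h0 hB)
      fun O O' => HH hw h0 (fun c => hb.not_ge ?_) hA hB
    obtain ⟨F, -, hF⟩ := ex_unb
    rw [← c univ isOpen_univ ne, ← hF, inter_univ, mk_univ]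
    refine (mk_set_le F).trans ?_
    simp only [mk_pi, prod_const, lift_uzero, mk_nat, aleph0_power_aleph0]
    rw [← two_power_aleph0]
    exact power_le_power_right (two_le_iff.2 (exists_pair_ne S))
  · obtain ⟨e, rfl⟩ := h A B hA hB
    exact ⟨e.image A⟩

end Pool.Agent.H42.Bau
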