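import Pool.Agent.H42.Bau4

/-! A `λ`-set of size `κ ≤ min (cov(M), non(M))`, and `BA⁻_κ` forces `κ < 𝔟` there. -/

namespace Pool.Agent.H42.Bau

open Set Cardinal Filter Topology PiNat IMeag

/-- the least number of meager sets covering the Cantor space -/
noncomputable def covM : Cardinal.{0} :=
  sInf {c | ∃ F : Set (Set (ℕ → Bool)), (∀ M ∈ F, IsMeagre M) ∧ ⋃₀ F = Set.univ ∧ #F = c}

theorem cov_res {ι : Type} (h : #ι < covM) (R : ι → Set (ℕ → Bool))
    (hR : ∀ i, R i ∈ residual _) : ∃ y, ∀ i, y ∈ R i := by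
  by_contra c
  push Not at c
  refine (h.trans_le (csInf_le' ⟨range fun i => (R i)ᶜ, ?_, eq_univ_of_forall fun y => ?_,
    rfl⟩)).not_ge mk_range_le
  · rintro _ ⟨i, rfl⟩
    simpa [IsMeagre] using hR i
  · obtain ⟨i, a⟩ := c y
    exact ⟨_, ⟨i, rfl⟩, a⟩

theorem not_lam {κ} (hb : bN ≤ κ) {B : Set (ℕ → Bool)} (hB : KDense κ B)
    (hL : ∀ D ⊆ B, D.Countable → ∃ S : Set (Set (ℕ → Bool)), S.Countable ∧
      (∀ C ∈ S, IsClosed C ∧ ∀ d ∈ D, d ∉ C) ∧ (B \ ⋃₀ S).Countable) :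
    ¬ BAw κ (ℕ → Bool) := fun hw => by
  classical
  obtain ⟨f, f0, -, f2⟩ := mscale
  let X : (ℕ → ℕ) → ℕ → Bool := fun g n => decide (n.unpair.2 ≤ g n.unpair.1)
  let G : (Σ k, Fin k → ℕ) → ℕ → Bool := fun σ n =>
    if h : n.unpair.1 < σ.1 then decide (n.unpair.2 ≤ σ.2 ⟨_, h⟩) else true
  have inj : Function.Injective X := fun g g' c => funext fun n => by
    have a := congrFun c (Nat.pair n (g n))
    have b := congrFun c (Nat.pair n (g' n))
    simp [X] at a b
    omega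
  have h0 := aleph0_lt_b.le.trans hb
  obtain ⟨e⟩ := hw _ _ (kd_union h0 hB (Z := X '' range f ∪ range G) ((mk_union_le _ _).trans
    (add_le_of_le h0 (mk_image_le.trans (mk_range_le.trans (by simpa using hb)))
      ((le_aleph0_iff_set_countable.2 (countable_range G)).trans h0)))) hB
  obtain ⟨u, v, h⟩ := H_of e
  have gm : ∀ σ, G σ ∈ B ∪ (X '' range f ∪ range G) := fun σ => Or.inr (Or.inr ⟨σ, rfl⟩)
  obtain ⟨S, s1, s2, s3⟩ := hL (u '' range G) (by rintro _ ⟨_, ⟨σ, rfl⟩, rfl⟩; exact h.m1 (gm σ))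
    ((countable_range G).image u)
  let C' := fun j : S => closure ((B ∪ (X '' range f ∪ range G)) ∩ u ⁻¹' j.1)
  have hG : ∀ j σ, G σ ∉ C' j := fun j σ b =>
    (s2 _ j.2).2 _ ⟨_, ⟨σ, rfl⟩, rfl⟩ ((h.cl (s2 _ j.2).1 (gm σ)).1 b)
  have hb : ∀ j n, ∃ b, ∀ a, X (f a) ∈ C' j → f a n ≤ b := fun j n => by
    induction n using Nat.strong_induction_on with
    | _ n ih =>
    choose b hb using fun i : Fin n => ih i i.2
    choose L hL using fun s => ex_cyl isClosed_closure.isOpen_compl (hG j ⟨n, s⟩)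
    obtain ⟨N, hN⟩ := ((Finite.pi fun i => finite_Iic (b i)).image L).bddAbove
    refine ⟨N, fun a d => not_lt.1 fun k => hL (fun i => f a i) (fun i m => ?_) d⟩
    have := hN ⟨fun i => f a i, fun i _ => hb i a d, rfl⟩
    by_cases w : i.unpair.1 < n
    · simp [X, G, w]
    · have := f0 a (not_lt.1 w)
      have := Nat.unpair_right_le i
      simp only [X, G, dif_neg w]
      exact decide_eq_true (by omega)
  choose b hb using hb
  obtain ⟨g1, hg1⟩ := bdd ((le_aleph0_iff_set_countable.2 s1).trans_lt aleph0_lt_b) b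
  have hm : ∀ g ∈ range f, X g ∈ B ∪ (X '' range f ∪ range G) := fun g a =>
    Or.inr (Or.inl ⟨g, a, rfl⟩)
  have small : {g ∈ range f | ∀ j, X g ∉ C' j}.Countable :=
    MapsTo.countable_of_injOn (f := fun g => u (X g)) (t := B \ ⋃₀ S) (fun g a => ⟨h.m1 (hm g a.1),
      fun ⟨C, c, d⟩ => a.2 ⟨C, c⟩ ((h.cl (s2 C c).1 (hm g a.1)).2 d)⟩)
      (fun g a g' a' k => inj (by
        rw [← h.l1 _ (hm g a.1), ← h.l1 _ (hm g' a'.1), show u (X g) = u (X g') from k])) s3
  obtain ⟨g2, hg2⟩ := bdd ((le_aleph0_iff_set_countable.2 small).trans_lt aleph0_lt_b) fun a => a.1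
  obtain ⟨d, hd⟩ := f2 (g1 + g2)
  by_cases k : ∀ j, X (f d) ∉ C' j
  · exact hd ((hg2 ⟨f d, ⟨d, rfl⟩, k⟩).mono fun n m => m.trans (Nat.le_add_left _ _))
  · push Not at k
    obtain ⟨j, k⟩ := k
    exact hd ((hg1 j).mono fun n m => ((hb j n d k).trans m).trans (Nat.le_add_right _ _))

theorem ex_lam {κ} (h0 : ℵ₀ ≤ κ) (h1 : κ ≤ covM) (h2 : κ ≤ nonMX (ℕ → Bool)) :
    ∃ B : Set (ℕ → Bool), KDense κ B ∧
    ∀ D ⊆ B, D.Countable → ∃ S : Set (Set (ℕ → Bool)), S.Countable ∧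
      (∀ C ∈ S, IsClosed C ∧ ∀ d ∈ D, d ∉ C) ∧ (B \ ⋃₀ S).Countable := by
  classical
  obtain ⟨e, he⟩ := exists_surjective_nat (List Bool)
  let Mt : (ℕ → Bool) → ℕ → ℕ → Prop := fun y m k =>
    ∀ i, m ≤ i → i < (e k).length → y i = (e k).getD i false
  let Hit : (ℕ → Bool) → (ℕ → ℕ) → Prop := fun y u => ∃ᶠ m in atTop, Mt y m (u m)
  obtain ⟨p, hp⟩ := TStar.rec_o (T := κ.ord.ToType) (σ := (ℕ → Bool) × (ℕ → ℕ))
    (fun a g s => (∀ b, ¬ Hit (g b).1 s.2) ∧ Hit s.1 s.2 ∧ ∀ b, Hit s.1 (g b).2) fun a g _ => by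
      have ha : #(Iio a) < κ := by simpa using mk_Iio_lt a (by simp)
      have hm : IsMeagre (range fun b => (g b).1) := by
        by_contra c
        exact (mk_range_le.trans_lt (ha.trans_le h2)).not_ge (csInf_le' ⟨_, c, rfl⟩)
      obtain ⟨l, s, hs⟩ := meagre_sub hm
      choose u hu using fun m => he (List.ofFn fun i : Fin (l m) => s m i)
      obtain ⟨y, hy⟩ := cov_res (ι := Option (Iio a))
        (by simpa using (add_lt_of_lt h0 ha (one_lt_aleph0.trans_le h0)).trans_le h1)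
        (fun o => {y | Hit y (o.elim u fun b => (g b).2)}) fun o => by
          simpa only [true_and] using match_res (P := fun _ => True) (.of_forall fun _ => trivial)
            (fun m => (e (o.elim u (fun b => (g b).2) m)).length)
            fun m i => (e (o.elim u (fun b => (g b).2) m)).getD i false
      refine ⟨(y, u), fun b c => hs _ (c.mono fun m d i i1 i2 => ?_) ⟨b, rfl⟩, hy none,
        fun b => hy (some b)⟩
      simpa [hu, i2] using d i i1 (by simpa [hu] using i2)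
  have key : ∀ a b, ¬ Hit (p a).1 (p b).2 ↔ a < b := fun a b =>
    ⟨fun c => not_le.1 fun d => c (d.eq_or_lt.elim (fun e => e ▸ (hp b).2.1)
      fun e => (hp a).2.2 ⟨b, e⟩), fun c => (hp b).1 ⟨a, c⟩⟩
  let t : κ.ord.ToType → ℕ → Bool := fun a n =>
    if n.unpair.1 = 0 then (p a).1 n.unpair.2 else decide ((p a).2 (n.unpair.1 - 1) = n.unpair.2)
  let I : κ.ord.ToType → ℕ → Set (ℕ → Bool) := fun b j =>
    {z | ∀ m ≥ j, ¬ Mt (fun i => z (Nat.pair 0 i)) m ((p b).2 m)}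
  let T : κ.ord.ToType → ℕ → Set (ℕ → Bool) := fun b j =>
    {z | ∀ m ≥ j, ∀ k, Mt (p b).1 m k → z (Nat.pair (m + 1) k) = false}
  have hI : ∀ b j, IsClosed (I b j) := fun b j => by
    simp only [I, ofPred_forall]
    refine isClosed_iInter fun m => isClosed_iInter fun _ => isClosed_compl_iff.2 ?_
    refine isOpen_iff_forall_mem_open.2 fun z a => ⟨cylinder z (Nat.pair 0 (e ((p b).2 m)).length),
      fun w c i i1 i2 => (c _ (Nat.pair_lt_pair_right 0 i2)).trans (a i i1 i2), isOpen_cylinder _ _ _,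
      self_mem_cylinder _ _⟩
  have hT : ∀ b j, IsClosed (T b j) := fun b j => by
    simp only [T, ofPred_forall]
    exact isClosed_iInter fun m => isClosed_iInter fun _ => isClosed_iInter fun k =>
      isClosed_iInter fun _ => isClosed_eq (continuous_apply _) continuous_const
  have sI : ∀ a b z, (∀ᶠ n in atTop, z n = t a n) → ((∃ j, z ∈ I b j) ↔ a < b) := fun a b z c => by
    obtain ⟨N, c⟩ := eventually_atTop.1 c
    rw [← key, not_frequently]
    refine (eventually_atTop (p := fun m =>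
      ¬ Mt (fun i => z (Nat.pair 0 i)) m ((p b).2 m))).symm.trans <| eventually_congr ((eventually_ge_atTop N).mono fun m d => not_congr
      (forall_congr' fun i => forall_congr' fun i1 => ?_))
    simp only [c _ ((d.trans i1).trans (Nat.right_le_pair 0 i)), t, Nat.unpair_pair, if_true]
  have sT : ∀ a b z, (∀ᶠ n in atTop, z n = t a n) → ((∃ j, z ∈ T b j) ↔ b < a) := fun a b z c => by
    obtain ⟨N, c⟩ := eventually_atTop.1 c
    rw [← key, not_frequently]
    refine (eventually_atTop (p := fun m =>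
      ∀ k, Mt (p b).1 m k → z (Nat.pair (m + 1) k) = false)).symm.trans <| eventually_congr ((eventually_ge_atTop N).mono fun m d => ?_)
    have : ∀ k, z (Nat.pair (m + 1) k) = decide ((p a).2 m = k) := fun k => by
      simp [c _ ((d.trans m.le_succ).trans (Nat.left_le_pair _ k)), t]
    simp only [this, decide_eq_false_iff_not]
    exact ⟨fun h k => h _ k rfl, fun h k q r => h (r ▸ q)⟩
  have hB := kd_md t (by simpa using h0) fun a b c => by
    have h3 := (sI a a _ (.of_forall fun _ => rfl)).symm.trans (sI b a _ c)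
    have h4 := (sI a b _ (.of_forall fun _ => rfl)).symm.trans (sI b b _ c)
    simp only [lt_self_iff_false, false_iff, iff_false, not_lt] at h3 h4
    exact h3.antisymm h4
  refine ⟨_, by simpa using hB, fun D d1 d2 => ?_⟩
  have : Nonempty κ.ord.ToType := by
    rw [← mk_ne_zero_iff]; simpa using (aleph0_pos.trans_le h0).ne'
  choose! r _ hr using fun d (a : d ∈ D) => d1 a
  let J := r '' D
  have hJ : J.Countable := d2.image r
  have := hJ.to_subtype
  let P : Option J → κ.ord.ToType → Prop := fun o a => ∀ c ∈ o, a < c.1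
  let Q : Option J → Set κ.ord.ToType := fun o => {b | ∀ c ∈ J, P o c → c < b}
  let β : {o // (Q o).Nonempty} → κ.ord.ToType := fun o => wellFounded_lt.min _ o.2
  let C : {o // (Q o).Nonempty} × ℕ × ℕ → Set (ℕ → Bool) := fun w =>
    (⋂ c ∈ w.1.1, I c.1 w.2.1) ∩ T (β w.1) w.2.2
  refine ⟨range C, countable_range _, ?_, ?_⟩
  · rintro _ ⟨w, rfl⟩
    refine ⟨(isClosed_biInter fun c _ => hI _ _).inter (hT _ _), fun d a b => ?_⟩
    exact ((sT _ _ _ (hr d a)).1 ⟨_, b.2⟩).not_gt (wellFounded_lt.min_mem _ w.1.2 _ ⟨d, a, rfl⟩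
      fun c k => (sI _ _ _ (hr d a)).1 ⟨_, mem_iInter₂.1 b.1 c k⟩)
  · refine (le_aleph0_iff_set_countable.1 ((md_le t (J ∪ range β)).trans
      (mul_le_of_le le_rfl (le_aleph0_iff_set_countable.2 (hJ.union (countable_range _)))
        le_rfl))).mono ?_
    rintro z ⟨⟨a, -, h3⟩, h4⟩
    refine ⟨a, ?_, h3⟩
    by_contra h5
    simp only [mem_union, not_or] at h5
    obtain ⟨o, o1, o2⟩ : ∃ o, P o a ∧ a ∈ Q o := by
      by_cases h : {c ∈ J | a < c}.Nonempty
      · have h6 := wellFounded_lt.min_mem _ h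
        refine ⟨some ⟨_, h6.1⟩, fun c k => by cases k; exact h6.2, fun c k q => ?_⟩
        exact lt_of_le_of_ne (not_lt.1 fun v => wellFounded_lt.not_lt_min {c ∈ J | a < c} ⟨k, v⟩ (q _ rfl))
          fun v => h5.1 (v ▸ k)
      · exact ⟨none, by simp [P], fun c k _ => lt_of_le_of_ne (not_lt.1 fun v => h ⟨c, k, v⟩)
          fun v => h5.1 (v ▸ k)⟩
    obtain ⟨j', h6⟩ := (sT a (β ⟨o, a, o2⟩) z h3).2 (lt_of_le_of_ne
      (not_lt.1 (wellFounded_lt.not_lt_min _ o2)) fun v => h5.2 ⟨_, v⟩)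
    obtain ⟨j, h7⟩ : ∃ j, z ∈ ⋂ c ∈ o, I c.1 j := by
      rcases o with _ | c
      · simp
      · simpa using (sI a c z h3).2 (o1 c rfl)
    exact h4 ⟨_, ⟨(⟨o, a, o2⟩, j, j'), rfl⟩, h7, h6⟩

theorem lt_b {κ} (h0 : ℵ₀ ≤ κ) {A : Set (ℕ → Bool)} (hA : KDense κ A) (hw : BAw κ (ℕ → Bool)) :
    κ < nonMX (ℕ → Bool) ∧ (κ ≤ max bN covM → κ < bN) := by
  have h1 : κ < nonMX (ℕ → Bool) := not_le.1 fun c => not_m h0 c hA hw
  refine ⟨h1, fun h => not_le.1 fun c => ?_⟩
  rcases le_max_iff.1 h with d | d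
  · exact not_b (d.antisymm c ▸ hw)
  · obtain ⟨B, h2, h3⟩ := ex_lam h0 d h1.le
    exact not_lam c h2 h3 hw

theorem ex_kd {κ} (h0 : ℵ₀ ≤ κ) (h : κ ≤ 𝔠) : ∃ A : Set (ℕ → Bool), KDense κ A := by
  obtain ⟨e⟩ : Nonempty (κ.out ↪ (ℕ → Bool)) := by
    rw [← Cardinal.le_def]; simpa using h
  have := kd_md (fun a n => e a n.unpair.1) (by simpa using h0) fun a b c => by
    refine e.injective (funext fun i => ?_)
    obtain ⟨n, d⟩ := ((tendsto_atTop_mono (fun n => Nat.right_le_pair i n) tendsto_id).eventually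
      c).exists
    simpa using d
  exact ⟨_, by simpa using this⟩

end Pool.Agent.H42.Bau
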