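import Pool.Agent.H42.Bau5

/-! `BA⁻_κ` and `cov(M) = κ`. -/

namespace Pool.Agent.H42.Bau

open Set Cardinal Filter Topology PiNat IMeag

/-- strong measure zero subsets of the Cantor space -/
def SN (A : Set (ℕ → Bool)) : Prop :=
  ∀ k : ℕ → ℕ, ∃ s : ℕ → ℕ → Bool, ∀ x ∈ A, ∃ n, ∀ i < k n, x i = s n i

theorem modulus {φ : (ℕ → Bool) → ℕ → Bool} (h : Continuous φ) (k : ℕ) :
    ∃ l, ∀ x y, (∀ i < l, x i = y i) → ∀ i < k, φ x i = φ y i := by
  have : ∀ x, ∃ l, cylinder x l ⊆ φ ⁻¹' cylinder (φ x) k := fun x =>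
    ex_cyl ((isOpen_cylinder _ _ _).preimage h) (self_mem_cylinder _ _)
  choose l hl using this
  obtain ⟨t, ht⟩ := isCompact_univ.elim_finite_subcover (fun x => cylinder x (l x))
    (fun x => isOpen_cylinder _ _ _) fun x _ => mem_iUnion.2 ⟨x, self_mem_cylinder _ _⟩
  refine ⟨t.sup l, fun x y a i b => ?_⟩
  obtain ⟨z, c, d⟩ := mem_iUnion₂.1 (ht (mem_univ x))
  exact (hl z d i b).trans (hl z (fun j e =>
    (a j (e.trans_le (Finset.le_sup c))).symm.trans (d j e)) i b).symm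

theorem cov_bounds : ℵ₀ ≤ covM ∧ covM ≤ 𝔠 := by
  have h : ∀ x : ℕ → Bool, IsMeagre ({x} : Set (ℕ → Bool)) := fun x => by
    refine mem_of_superset (match_res (P := fun _ => True) (.of_forall fun _ => trivial)
      (fun m => m + 1) fun _ i => !x i) fun y a b => ?_
    obtain ⟨m, c⟩ := a.exists
    simpa [mem_singleton_iff.1 b] using c.2 m le_rfl (by omega)
  have h2 : #(range (singleton : (ℕ → Bool) → Set (ℕ → Bool))) ∈ {c | ∃ F : Set (Set (ℕ → Bool)),
      (∀ M ∈ F, IsMeagre M) ∧ ⋃₀ F = Set.univ ∧ #F = c} :=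
    ⟨_, by rintro _ ⟨x, rfl⟩; exact h x, by ext; simp, rfl⟩
  refine ⟨not_lt.1 fun c => ?_, (csInf_le' h2).trans (mk_range_le.trans (by simp))⟩
  obtain ⟨F, a, b, d⟩ := csInf_mem ⟨_, h2⟩
  have e : F.Countable := le_aleph0_iff_set_countable.1 (d.trans_le c.le)
  refine not_isMeagre_of_isOpen isOpen_univ (univ_nonempty (α := ℕ → Bool)) ?_
  rw [← b, sUnion_eq_biUnion]
  exact isMeagre_biUnion e a

theorem no_sn (hw : BAw covM (ℕ → Bool)) :
    covM < bN ∧ ∀ A, SN A → #A < covM := by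
  classical
  obtain ⟨h0, h1⟩ := cov_bounds
  obtain ⟨A0, hA0⟩ := ex_kd h0 h1
  have hb := (lt_b h0 hA0 hw).2 (le_max_right _ _)
  refine ⟨hb, fun A' hA' => not_le.1 fun c => ?_⟩
  obtain ⟨A, a1, a2⟩ := le_mk_iff_exists_subset.1 c
  have hB := kd_md (fun (a : A) n => a.1 n.unpair.1) (a2 ▸ h0) fun a b c => by
    refine Subtype.ext (funext fun i => ?_)
    obtain ⟨n, d⟩ := ((tendsto_atTop_mono (fun n => Nat.right_le_pair i n) tendsto_id).eventually
      c).exists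
    simpa using d
  rw [a2] at hB
  obtain ⟨F, f1, f2, f3⟩ := csInf_mem (s := {c | ∃ F : Set (Set (ℕ → Bool)),
      (∀ M ∈ F, IsMeagre M) ∧ ⋃₀ F = Set.univ ∧ #F = c}) (by
    by_contra d
    rw [covM, not_nonempty_iff_eq_empty.1 d] at h0
    simp [aleph0_ne_zero] at h0)
  choose l s hs using fun M : F => meagre_sub (f1 _ M.2)
  obtain ⟨g, hg⟩ := bdd (f3.trans_lt hb) l
  let m : ℕ → ℕ := fun n => n.rec 0 fun _ x => x + g x + 1
  have hm : StrictMono m := strictMono_nat_of_lt_succ fun n => by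
    show m n < m n + g (m n) + 1
    omega
  have ex : ∀ i, ∃ n, i < m (n + 1) := fun i => ⟨i, (hm.le_apply).trans_lt (hm i.lt_succ_self)⟩
  let q : ℕ → ℕ := fun i => Nat.find (ex i)
  have hq : ∀ n i, m n ≤ i → i < m (n + 1) → q i = n := fun n i a b =>
    (Nat.find_eq_iff _).2 ⟨b, fun k c => not_lt.2 ((hm.monotone c).trans a)⟩
  let z : F → ℕ → Bool := fun M i => s M (m (q i)) i
  obtain ⟨H, hH⟩ := (main (Or.inl hb.le)).1 hw _ _ hB
    (kd_union h0 hB (Z := range z) (mk_range_le.trans f3.le))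
  obtain ⟨e, he⟩ := exists_surjective_nat (List Bool)
  let ψ : ℕ → (ℕ → Bool) → ℕ → Bool := fun w x n => (e w).getD n (x n.unpair.1)
  have hψ : ∀ w, Continuous (H ∘ ψ w) := fun w => H.continuous.comp (continuous_pi fun n =>
    (continuous_of_discreteTopology (f := fun b => (e w).getD n b)).comp (continuous_apply _))
  choose L hL using fun w => modulus (hψ w)
  choose σ hσ using fun r : ℕ => hA' fun j => L r.unpair.1 (m (Nat.pair r j + 1))
  let y : ℕ → Bool := fun i => H (ψ (q i).unpair.1.unpair.1 (σ (q i).unpair.1 (q i).unpair.2)) i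
  obtain ⟨M, h2, h3⟩ : y ∈ ⋃₀ F := f2 ▸ mem_univ y
  refine hs ⟨M, h2⟩ y (frequently_atTop.2 fun N => ?_) h3
  obtain ⟨x, ⟨a, -, h4⟩, h5⟩ := hH.ge (Or.inr ⟨⟨M, h2⟩, rfl⟩)
  obtain ⟨k, h4⟩ := eventually_atTop.1 h4
  obtain ⟨w, hw'⟩ := he (List.ofFn fun i : Fin k => x i)
  have h6 : ψ w a = x := funext fun n => by
    by_cases d : n < k
    · simp [ψ, hw', d]
    · simp [ψ, hw', d, h4 n (not_lt.1 d)]
  obtain ⟨K, h7⟩ := eventually_atTop.1 (hg ⟨M, h2⟩)
  obtain ⟨j, h8⟩ := hσ (Nat.pair w (N + K)) a (a1 a.2)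
  set n := Nat.pair (Nat.pair w (N + K)) j with hn
  have h9 : N + K ≤ m n :=
    ((Nat.right_le_pair w _).trans (Nat.left_le_pair _ j)).trans hm.le_apply
  refine ⟨m n, by omega, fun i b d => ?_⟩
  have i1 : i < m (n + 1) := by
    have := h7 (m n) (by omega)
    show i < m n + g (m n) + 1
    omega
  have := hL w _ _ _ (by simpa using h8) i i1
  simp only [Function.comp, h6, h5, z, hq n i b i1] at this
  simp only [y, hq n i b i1, hn, Nat.unpair_pair]
  exact this.symm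

end Pool.Agent.H42.Bau
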