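import Pool.Agent.H42.IMeag

/-! Baumgartner axioms. -/

namespace Pool.Agent.H42.Bau

open Set Cardinal

/-- `A` is `κ`-dense -/
def KDense {X : Type} [TopologicalSpace X] (κ : Cardinal.{0}) (A : Set X) : Prop :=
  ∀ U : Set X, IsOpen U → U.Nonempty → #(A ∩ U : Set X) = κ

/-- the full axiom `BA_κ(X)` -/
def BA (κ : Cardinal.{0}) (X : Type) [TopologicalSpace X] : Prop :=
  ∀ A B : Set X, KDense κ A → KDense κ B → ∃ h : X ≃ₜ X, h '' A = B

/-- the weak axiom `BA⁻_κ(X)` -/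
def BAw (κ : Cardinal.{0}) (X : Type) [TopologicalSpace X] : Prop :=
  ∀ A B : Set X, KDense κ A → KDense κ B → Nonempty (A ≃ₜ B)

/-- the least size of a non-meager subset of `X` -/
noncomputable def nonMX (X : Type) [TopologicalSpace X] : Cardinal.{0} :=
  sInf {c | ∃ Z : Set X, ¬ IsMeagre Z ∧ #Z = c}

end Pool.Agent.H42.Bau
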