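import Pool.Agent.H42.Reg

/-! Transversals and Bernstein sets. -/

namespace Pool.Agent.H42.Bern

open Cardinal Set Pool.Agent.H42.Reg

universe u

theorem exists_transversal {ι α : Type u} {κ : Cardinal.{u}} (hι : #ι ≤ κ) (F : ι → Set α)
    (hF : ∀ i, κ ≤ #(F i)) : ∃ f : ι → α, f.Injective ∧ ∀ i, f i ∈ F i := by
  classical
  cases isEmpty_or_nonempty ι with
  | inl h => exact ⟨isEmptyElim, fun a => isEmptyElim a, fun a => isEmptyElim a⟩
  | inr h =>
  obtain ⟨e⟩ : Nonempty (ι ↪ κ.ord.ToType) := by rw [← Cardinal.le_def, mk_ord_toType]; exact hι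
  let _ : LinearOrder ι := LinearOrder.lift' e e.injective
  have _ : WellFoundedLT ι := ⟨InvImage.wf e wellFounded_lt⟩
  have hlt : ∀ i : ι, #(Iio i) < κ := fun i =>
    lt_of_le_of_lt (mk_le_of_injective (f := fun j : Iio i => (⟨e j.1, j.2⟩ : Iio (e i)))
      fun a b hab => Subtype.ext (e.injective (congrArg Subtype.val hab)))
      (mk_Iio_toType_ord_lt (e i))
  have step : ∀ (i : ι) (f : ι → α), ∃ a ∈ F i, a ∉ f '' Iio i := by
    intro i f
    by_contra hc
    push Not at hc
    exact ((hF i).trans (mk_le_mk_of_subset hc)).not_gt (mk_image_le.trans_lt (hlt i))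
  have step' : ∀ (i : ι) (s : Set α), ∃ a ∈ F i, (∃ a ∈ F i, a ∉ s) → a ∉ s := by
    intro i s
    by_cases h : ∃ a ∈ F i, a ∉ s
    · obtain ⟨a, h1, h2⟩ := h; exact ⟨a, h1, fun _ => h2⟩
    · have : #(F i) ≠ 0 := (((zero_le).trans_lt (hlt i)).trans_le (hF i)).ne'
      obtain ⟨a, h1⟩ := mk_ne_zero_iff.1 this
      exact ⟨a, h1, fun h' => absurd h' h⟩
  choose st hst1 hst2 using step'
  obtain ⟨f, hf⟩ := exists_rec (T := ι) (st h.some ∅) (fun i f => st i (f '' Iio i))
    (fun i f f' h => congrArg (st i) (image_congr fun j hj => h j hj))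
  have key : ∀ i j, j < i → f i ≠ f j := fun i j hj hc =>
    hst2 i _ (step i f) (hf i ▸ ⟨j, hj, hc.symm⟩)
  refine ⟨f, fun i j hij => ?_, fun i => hf i ▸ hst1 _ _⟩
  rcases lt_trichotomy i j with h | h | h
  · exact absurd hij.symm (key j i h)
  · exact h
  · exact absurd hij (key i j h)

theorem mk_borel_real {s : Set ℝ} (hs : MeasurableSet s) (hc : ¬ s.Countable) :
    #s = continuum := by
  have := hs.standardBorel
  rw [(PolishSpace.measurableEquivNatBoolOfNotCountable (α := s)
    (by rwa [countable_coe_iff])).toEquiv.cardinal_eq]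
  simp

theorem exists_bernstein : ∃ B : Set ℝ, ∀ s : Set ℝ, MeasurableSet s →
    (s ⊆ B → s.Countable) ∧ (s ⊆ Bᶜ → s.Countable) := by
  have h1 : #{s : Set ℝ | MeasurableSet s} ≤ continuum := by
    have := MeasurableSpace.cardinal_measurableSet_le_continuum
      (s := ⋃ a : ℚ, {Iio (a : ℝ)}) (by
        refine le_trans (le_aleph0_iff_set_countable.2 ?_) aleph0_le_continuum
        exact countable_iUnion fun a => countable_singleton _)
    rwa [← Real.borel_eq_generateFrom_Iio_rat, ← BorelSpace.measurable_eq (α := ℝ)] at this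
  let ι := {s : Set ℝ // MeasurableSet s ∧ ¬ s.Countable}
  have h2 : #(ι × Bool) ≤ continuum := by
    have : #ι ≤ continuum := le_trans (mk_le_mk_of_subset (s := {s | MeasurableSet s ∧ ¬ s.Countable})
      fun s hs => hs.1) h1
    rw [mk_prod, lift_id, lift_id]
    exact (mul_le_mul' this (by simpa using (natCast_lt_aleph0 (n := 2)).le.trans aleph0_le_continuum)).trans_eq
      (mul_eq_self aleph0_le_continuum)
  obtain ⟨f, hf1, hf2⟩ := exists_transversal h2 (fun p => p.1.1)
    (fun p => (mk_borel_real p.1.2.1 p.1.2.2).ge)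
  refine ⟨range fun s : ι => f (s, true), fun s hs => ⟨fun h => ?_, fun h => ?_⟩⟩
  · by_contra hc
    obtain ⟨t, ht⟩ := h (hf2 (⟨s, hs, hc⟩, false))
    simpa using congrArg Prod.snd (hf1 ht)
  · by_contra hc
    exact h (hf2 (⟨s, hs, hc⟩, true)) ⟨_, rfl⟩

end Pool.Agent.H42.Bern
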