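import Pool.Agent.H42.Reg

/-! Stationary sets via closure points, Fodor's lemma and Solovay splitting. -/

namespace Pool.Agent.H42.Stat

open Cardinal Set Pool.Agent.H42.Reg

universe u

variable {T : Type u} [LinearOrder T]

/-- Stationarity, through closure points of functions. -/
def Stat (S : Set T) : Prop := ∀ g : T → T, ∃ β ∈ S, (∃ i, i < β) ∧ ∀ i < β, g i < β

/-- Points of countable cofinality. -/
def CofW (δ : T) : Prop := ∃ a : ℕ → T, (∀ n, a n < δ) ∧ ∀ i < δ, ∃ n, i < a n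

theorem Stat.mono {S S' : Set T} (h : Stat S) (hs : S ⊆ S') : Stat S' := fun g => by
  obtain ⟨β, h1, h2⟩ := h g
  exact ⟨β, hs h1, h2⟩

theorem Stat.isStationary [WellFoundedLT T] (hT : RegUnc T) {S : Set T} (h : Stat S) :
    IsStationary S := by
  intro C hC
  have : ∀ i, ∃ c ∈ C, i < c := fun i => by
    obtain ⟨j, hj⟩ := hT.exists_gt i
    obtain ⟨c, h1, h2⟩ := hC.isCofinal j
    exact ⟨c, h1, hj.trans_le h2⟩
  choose g hg1 hg2 using this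
  obtain ⟨β, h1, ⟨i, hi⟩, h3⟩ := h g
  refine ⟨β, h1, hC.isLUB_mem (t := C ∩ Iio β) inter_subset_left ⟨g i, hg1 i, h3 i hi⟩
    ⟨fun x hx => hx.2.le, fun b hb => not_lt.1 fun hc => ?_⟩⟩
  exact (hg2 b).not_ge (hb ⟨hg1 b, h3 b hc⟩)

theorem isClub_closure [WellFoundedLT T] (hT : RegUnc T) (g : T → T) (δ : T) :
    IsClub {β | δ < β ∧ ∀ i < β, g i < β} := by
  constructor
  · intro s hs ⟨a, ha⟩ _ b hb
    refine ⟨(hs ha).1.trans_le (hb.1 ha), fun i hi => ?_⟩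
    obtain ⟨c, hc, hic⟩ := (lt_isLUB_iff hb).1 hi
    exact ((hs hc).2 i hic).trans_le (hb.1 hc)
  · intro a
    obtain ⟨β, h1, h2⟩ := hT.closure_nat (fun _ => g) (max a δ)
    exact ⟨β, ⟨(le_max_right _ _).trans_lt h1, h2 0⟩, ((le_max_left _ _).trans_lt h1).le⟩

theorem stat_of_isStationary [WellFoundedLT T] (hT : RegUnc T) {S : Set T} (h : IsStationary S) :
    Stat S := by
  intro g
  obtain ⟨δ⟩ := hT.nonempty
  obtain ⟨β, h1, h2, h3⟩ := h (isClub_closure hT g δ)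
  exact ⟨β, h1, ⟨δ, h2⟩, h3⟩

theorem fodor (hT : RegUnc T) {S : Set T} (hS : Stat S) (f : T → T)
    (hf : ∀ β ∈ S, (∃ i, i < β) → f β < β) : ∃ ξ, Stat {β | β ∈ S ∧ f β = ξ} := by
  by_contra hc
  unfold Stat at hc
  push Not at hc
  choose g hg using hc
  have : ∀ i : T, ∃ b, ∀ ξ ≤ i, ∀ j ≤ i, g ξ j < b := by
    intro i
    have hc : #(Iic i × Iic i) < #T := by
      rw [mk_prod, lift_id]
      exact mul_lt_of_lt hT.inf (hT.init_le i) (hT.init_le i)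
    obtain ⟨b, hb⟩ := hT.bdd_fun hc (fun p => g p.1 p.2)
    exact ⟨b, fun ξ hξ j hj => hb (⟨ξ, hξ⟩, ⟨j, hj⟩)⟩
  choose G hG using this
  obtain ⟨β, h1, h2, h3⟩ := hS G
  obtain ⟨j, hj1, hj2⟩ := hg (f β) β ⟨h1, rfl⟩ h2
  exact ((hG _ _ (le_max_left _ _) _ (le_max_right _ _)).trans
    (h3 _ (max_lt (hf β h1 h2) hj1))).not_ge hj2

theorem stat_cofW [WellFoundedLT T] (hT : RegUnc T) : Stat {δ : T | CofW δ} := by
  intro g
  have step : ∀ b : T, ∃ b', b < b' ∧ ∀ i < b, g i < b' := by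
    intro b
    obtain ⟨c, hc⟩ := hT.bdd_fun (hT.init b) (fun p => g p.1)
    obtain ⟨d, hd⟩ := hT.exists_gt (max b c)
    exact ⟨d, (le_max_left _ _).trans_lt hd, fun i hi =>
      (hc ⟨i, hi⟩).trans ((le_max_right _ _).trans_lt hd)⟩
  choose st hst1 hst2 using step
  obtain ⟨δ⟩ := hT.nonempty
  let s : ℕ → T := fun n => st^[n] δ
  have hs : ∀ n, s (n + 1) = st (s n) := fun n => Function.iterate_succ_apply' _ _ _
  obtain ⟨b, hb⟩ := hT.bdd_nat s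
  obtain ⟨c, hc1, -, hc3⟩ := exists_lub (range s) b (by rintro _ ⟨n, rfl⟩; exact (hb n).le)
  have hlt : ∀ n, s n < c := fun n => (hst1 _).trans_le (hs n ▸ hc1 _ ⟨n + 1, rfl⟩)
  refine ⟨c, ⟨s, hlt, fun i hi => ?_⟩, ⟨_, hlt 0⟩, fun i hi => ?_⟩
  · obtain ⟨_, ⟨n, rfl⟩, hn⟩ := hc3 i hi
    exact ⟨n, hn⟩
  · obtain ⟨_, ⟨n, rfl⟩, hn⟩ := hc3 i hi
    exact (hst2 _ i hn).trans (hs n ▸ hlt (n + 1))

theorem solovay [WellFoundedLT T] (hT : RegUnc T) {ι : Type u} (hι : #ι ≤ #T) :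
    ∃ S : ι → Set T, (∀ i, Stat (S i)) ∧ (∀ i, ∀ δ ∈ S i, CofW δ) ∧
      ∀ i j δ, δ ∈ S i → δ ∈ S j → i = j := by
  obtain ⟨δ₀⟩ := hT.nonempty
  have : ∀ δ : T, ∃ a : ℕ → T, CofW δ → (∀ n, a n < δ) ∧ ∀ i < δ, ∃ n, i < a n := by
    intro δ
    by_cases h : CofW δ
    · obtain ⟨a, ha⟩ := h; exact ⟨a, fun _ => ha⟩
    · exact ⟨fun _ => δ₀, fun h' => absurd h' h⟩
  choose a ha using this
  have hn : ∃ n, ∀ η, Stat {δ | CofW δ ∧ η ≤ a δ n} := by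
    by_contra hc
    unfold Stat at hc
    push Not at hc
    choose η g hg using hc
    obtain ⟨e, he⟩ := hT.bdd_nat η
    choose G hG using fun i => hT.bdd_nat (fun n => g n i)
    obtain ⟨β, h1, ⟨i, hi⟩, h3⟩ := stat_cofW hT (fun i => max e (G i))
    obtain ⟨n, hn⟩ := (ha β h1).2 e ((le_max_left _ _).trans_lt (h3 i hi))
    obtain ⟨j, hj1, hj2⟩ := hg n β ⟨h1, ((he n).trans hn).le⟩ ⟨i, hi⟩
    exact ((hG j n).trans ((le_max_right _ _).trans_lt (h3 j hj1))).not_ge hj2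
  obtain ⟨n, hn⟩ := hn
  have hun : ∀ η, ∃ ξ ∈ {ξ | Stat {δ | CofW δ ∧ a δ n = ξ}}, η ≤ ξ := by
    intro η
    obtain ⟨ξ, hξ⟩ := fodor hT (hn η) (fun δ => a δ n) (fun β hβ _ => (ha β hβ.1).1 n)
    refine ⟨ξ, hξ.mono fun δ hδ => ⟨hδ.1.1, hδ.2⟩, ?_⟩
    obtain ⟨β, h1, -⟩ := hξ id
    exact h1.2 ▸ h1.1.2
  obtain ⟨e⟩ := (Cardinal.le_def _ _).1 (hι.trans_eq (hT.card_of_unbdd hun).symm)
  refine ⟨fun i => {δ | CofW δ ∧ a δ n = e i}, fun i => (e i).2, fun i δ h => h.1,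
    fun i j δ h1 h2 => e.injective (Subtype.ext (h1.2.symm.trans h2.2))⟩

/-- `κ⁺` many eventually different functions. -/
theorem exists_evdiff (hT : RegUnc T) {L : Type u} [LinearOrder L] [WellFoundedLT L]
    (hL : ∀ i : L, #(Iio i) ≤ #T) :
    ∃ f : L → T → T, ∀ i j, i ≠ j → ∃ b, ∀ ξ, b ≤ ξ → f i ξ ≠ f j ξ := by
  classical
  obtain ⟨δ₀⟩ := hT.nonempty
  have he : ∀ i : L, ∃ e : L → T, InjOn e (Iio i) := by
    intro c
    obtain ⟨f⟩ := (Cardinal.le_def _ _).1 (hL c)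
    refine ⟨fun a => if h : a < c then f ⟨a, h⟩ else δ₀, fun a ha b hb hab => ?_⟩
    simp only [mem_Iio] at ha hb
    simp only [ha, hb, dif_pos] at hab
    exact congrArg Subtype.val (f.injective hab)
  choose e he using he
  have hb : ∀ (i : L) (F : L → T → T) (ξ : T), ∃ b, ∀ j < i, e i j ≤ ξ → F j ξ < b := by
    intro i F ξ
    have hc : #{j | j < i ∧ e i j ≤ ξ} < #T := by
      refine lt_of_le_of_lt ?_ (hT.init_le ξ)
      refine mk_le_of_injective (f := fun j => ⟨e i j.1, j.2.2⟩) fun x y hxy => ?_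
      exact Subtype.ext (he i x.2.1 y.2.1 (congrArg Subtype.val hxy))
    obtain ⟨b, hb⟩ := hT.bdd_fun hc (fun j => F j.1 ξ)
    exact ⟨b, fun j h1 h2 => hb ⟨j, h1, h2⟩⟩
  choose B hB using hb
  obtain ⟨f, hf⟩ := exists_rec (T := L) (fun _ : T => δ₀)
    (fun i F => B i (fun j => if j < i then F j else fun _ => δ₀))
    (by
      intro i F F' h
      congr 1
      funext j
      by_cases hj : j < i
      · simp only [if_pos hj, h j hj]
      · simp only [if_neg hj])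
  have key : ∀ i j, j < i → ∀ ξ, e i j ≤ ξ → f j ξ < f i ξ := by
    intro i j hj ξ hξ
    have := hB i (fun j => if j < i then f j else fun _ => δ₀) ξ j hj hξ
    rw [if_pos hj, ← hf i] at this
    exact this
  refine ⟨f, fun i j hij => ?_⟩
  rcases lt_or_gt_of_ne hij with h | h
  · exact ⟨e j i, fun ξ hξ => (key j i h ξ hξ).ne⟩
  · exact ⟨e i j, fun ξ hξ => (key i j h ξ hξ).ne'⟩

/-- An independent family of `κ⁺` sets modulo the nonstationary ideal. -/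
theorem exists_indep [WellFoundedLT T] (hT : RegUnc T) {L : Type u} [LinearOrder L]
    [WellFoundedLT L] (hL : ∀ i : L, #(Iio i) ≤ #T) :
    ∃ A : L → Set T, ∀ (J : Set L), #J < #T → ∀ i ∉ J,
      IsStationary {δ | (∀ j ∈ J, δ ∈ A j) ∧ δ ∉ A i} := by
  obtain ⟨f, hf⟩ := exists_evdiff hT hL
  obtain ⟨S, h1, -, h3⟩ := solovay hT (ι := T × T) (by
    rw [mk_prod, lift_id, mul_eq_self hT.inf])
  refine ⟨fun i => {δ | ∀ ξ, δ ∉ S (ξ, f i ξ)}, fun J hJ i hi => ?_⟩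
  have : ∀ j : J, ∃ b, ∀ ξ, b ≤ ξ → f i ξ ≠ f j ξ := fun j =>
    hf i j fun h => hi (h ▸ j.2)
  choose b hb using this
  obtain ⟨ξ, hξ⟩ := hT.bdd_fun hJ b
  refine Stat.isStationary hT ((h1 (ξ, f i ξ)).mono
    fun δ hδ => ⟨fun j hj η hη => ?_, fun h => h ξ hδ⟩)
  have := h3 _ _ _ hδ hη
  obtain ⟨rfl, h4⟩ := Prod.ext_iff.1 this
  exact hb ⟨j, hj⟩ ξ (hξ ⟨j, hj⟩).le h4

end Pool.Agent.H42.Stat
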