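import Pool.Agent.H42.CelDefs
import Pool.Agent.H42.Stat

namespace Pool.Agent.H42.Cel1
open Pool.Agent.H42.CelDefs Cardinal Set

theorem cel_le {P : Type} [Preorder P] {κ : Cardinal} (h : ℵ₀ ≤ κ) :
    cel P ≤ κ ↔ ∀ A : Set P, Anti A → #A ≤ κ := by
  have : Nonempty {A : Set P // Anti A} := ⟨⟨∅, pairwise_empty _⟩⟩
  rw [cel, sup_le_iff, ciSup_le_iff bddAbove_of_small]
  exact ⟨fun h A hA => h.2 ⟨A, hA⟩, fun h' => ⟨h, fun A => h' A.1 A.2⟩⟩

def FS {T : Type} (R : T → T → Prop) : Type := {F : Finset T // ∀ α ∈ F, ∀ β ∈ F, R α β}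

instance {T : Type} (R : T → T → Prop) : Preorder (FS R) where
  le F G := G.1 ⊆ F.1
  le_refl _ := subset_rfl
  le_trans _ _ _ h h' := Finset.Subset.trans h' h

theorem compat {T : Type} {R : T → T → Prop} (F G : FS R)
    (h : ∀ α ∈ F.1, ∀ β ∈ G.1, R α β ∧ R β α) : ∃ r, r ≤ F ∧ r ≤ G := by
  classical
  refine ⟨⟨F.1 ∪ G.1, fun α hα β hβ => ?_⟩, Finset.subset_union_left, Finset.subset_union_right⟩
  rcases Finset.mem_union.1 hα with h1 | h1 <;> rcases Finset.mem_union.1 hβ with h2 | h2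
  exacts [F.2 α h1 β h2, (h α h1 β h2).1, (h β h2 α h1).2, G.2 α h1 β h2]

theorem main {κ : Cardinal.{0}} (hκ : ℵ₀ < κ) (H : Gap (Order.succ κ)) :
    ∃ (P : Type) (_ : Preorder P), pc P = ℵ₀ ∧ κ < den P ∧
      ∃ (Q : Type) (_ : Preorder Q), cel Q ≤ κ ∧ κ < cel (P × Q) := by
  classical
  obtain ⟨a₀, b, h1, h2, h3⟩ := H
  let T := (Order.succ κ).ord.ToType
  have hT : Reg.RegUnc T := Reg.regUnc_toType (isRegular_succ hκ.le) (hκ.trans (Order.lt_succ κ))
  have hc : #T = Order.succ κ := by simp [T]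
  have : Nonempty T := hT.nonempty
  let a : T → Set ℕ := fun α => a₀ α \ b α
  have hd : ∀ α, Disjoint (a α) (b α) := fun α => disjoint_sdiff_left
  have ha : ∀ α β, α ≤ β → (a α \ a β).Finite := fun α β h => by
    rcases h.eq_or_lt with rfl | h
    · simp
    · refine ((h1 α β h).1.union (h2 β)).subset fun x hx => ?_
      by_cases h4 : x ∈ a₀ β
      · exact Or.inr ⟨h4, by_contra fun h5 => hx.2 ⟨h4, h5⟩⟩
      · exact Or.inl ⟨hx.1.1, h4⟩
  have hb : ∀ α β, α ≤ β → (b α \ b β).Finite := fun α β h => by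
    rcases h.eq_or_lt with rfl | h
    · simp
    · exact (h1 α β h).2
  have hfin : ∀ {s : Set T}, #s < #T → #{F : Finset T | (F : Set T) ⊆ s} < #T := fun {s} hs => by
    have : #{F : Finset T | (F : Set T) ⊆ s} ≤ #(Finset s) := mk_le_of_injective
      (f := fun F => F.1.subtype (· ∈ s)) fun F G h => Subtype.ext (by
        have := congrArg (Finset.map (Function.Embedding.subtype _)) h
        rwa [Finset.subtype_map_of_mem (fun x hx => F.2 hx),
          Finset.subtype_map_of_mem (fun x hx => G.2 hx)] at this)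
    refine this.trans_lt ?_
    rcases finite_or_infinite s with h | h
    · exact (lt_aleph0_of_finite _).trans hT.unc
    · rwa [mk_finset_of_infinite]
  let P := FS fun α β => Disjoint (a α) (b β)
  let Q := FS fun α β => α ≠ β → ¬ (Disjoint (a α) (b β) ∧ Disjoint (a β) (b α))
  let p : T → P := fun α => ⟨{α}, by simpa using hd α⟩
  let q : T → Q := fun α => ⟨{α}, by simp⟩
  have hsp : ℵ₀ ∈ spec P := ⟨le_rfl, fun Q' _ hQ' => (cel_le le_rfl).2 fun A hA => by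
    by_contra hlt
    have h4 : ℵ₁ ≤ #A := by rw [← succ_aleph0]; exact Order.succ_le_of_lt (not_le.1 hlt)
    obtain ⟨A', h5, h6⟩ := le_mk_iff_exists_subset.1 h4
    have h7 : #A' < #T := by
      rw [h6, hc, ← succ_aleph0]; exact (Order.succ_le_of_lt hκ).trans_lt (Order.lt_succ κ)
    choose m hm using fun z : A' => Finset.exists_le z.1.1.1
    obtain ⟨γ, hγ⟩ := hT.bdd_fun h7 m
    have : ∀ z : A', ∃ n : ℕ, ∀ α ∈ z.1.1.1, ∀ x, n ≤ x → (x ∈ a α → x ∈ a γ) ∧
        (x ∈ b α → x ∈ b γ) := fun z => by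
      obtain ⟨n, hn⟩ := (z.1.1.1.finite_toSet.biUnion fun α hα =>
        (ha α γ ((hm z α hα).trans (hγ z).le)).union
          (hb α γ ((hm z α hα).trans (hγ z).le))).bddAbove
      refine ⟨n + 1, fun α hα x hx => ⟨fun h => by_contra fun h' => ?_,
        fun h => by_contra fun h' => ?_⟩⟩
      · have := hn (mem_biUnion hα (Or.inl ⟨h, h'⟩)); omega
      · have := hn (mem_biUnion hα (Or.inr ⟨h, h'⟩)); omega
    choose n hn using this
    let τ : A' → ℕ × Finset ℕ × Finset ℕ := fun z => (n z,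
      (Finset.range (n z)).filter (fun x => ∃ α ∈ z.1.1.1, x ∈ a α),
      (Finset.range (n z)).filter fun x => ∃ α ∈ z.1.1.1, x ∈ b α)
    have key : ∀ z w, τ z = τ w → ∀ α ∈ z.1.1.1, ∀ β ∈ w.1.1.1, Disjoint (a α) (b β) := by
      intro z w h α hα β hβ
      simp only [τ, Prod.mk.injEq] at h
      refine Set.disjoint_left.2 fun x h8 h9 => ?_
      by_cases hx : n z ≤ x
      · exact Set.disjoint_left.1 (hd γ) ((hn z α hα x hx).1 h8) ((hn w β hβ x (h.1 ▸ hx)).2 h9)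
      · have : x ∈ (Finset.range (n w)).filter (fun x => ∃ α ∈ w.1.1.1, x ∈ a α) :=
          h.2.1 ▸ Finset.mem_filter.2 ⟨Finset.mem_range.2 (not_le.1 hx), α, hα, h8⟩
        obtain ⟨-, α', h10, h11⟩ := Finset.mem_filter.1 this
        exact Set.disjoint_left.1 (w.1.1.2 α' h10 β hβ) h11 h9
    have hinc : ∀ z w : A', τ z = τ w → z ≠ w → ¬ ∃ r, r ≤ z.1.2 ∧ r ≤ w.1.2 := by
      rintro z w h hne ⟨r, h8, h9⟩
      obtain ⟨s, h10, h11⟩ := compat z.1.1 w.1.1 fun α hα β hβ =>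
        ⟨key z w h α hα β hβ, key w z h.symm β hβ α hα⟩
      exact hA (h5 z.2) (h5 w.2) (fun h => hne (Subtype.ext h)) ⟨(s, r), ⟨h10, h8⟩, h11, h9⟩
    have h8 : (Set.univ : Set A').Countable := by
      rw [← preimage_univ (f := τ), ← iUnion_of_singleton, preimage_iUnion]
      refine countable_iUnion fun t => ?_
      have h9 := (cel_le le_rfl).1 hQ' ((fun z : A' => z.1.2) '' (τ ⁻¹' {t})) (by
        rintro _ ⟨z, hz, rfl⟩ _ ⟨w, hw, rfl⟩ h
        exact hinc z w (hz.trans hw.symm) fun h' => h (by rw [h']))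
      refine Set.countable_of_injective_of_countable_image (fun z hz w hw h => ?_)
        (le_aleph0_iff_set_countable.1 h9)
      by_contra hne
      exact hinc z w (hz.trans hw.symm) hne ⟨z.1.2, le_rfl, h.le⟩
    have h9 := le_aleph0_iff_set_countable.2 h8
    rw [mk_univ, h6] at h9
    exact h9.not_gt aleph0_lt_aleph_one⟩
  refine ⟨P, inferInstance, le_antisymm (csInf_le' hsp) (le_csInf ⟨_, hsp⟩ fun _ h => h.1), ?_,
    Q, inferInstance, (cel_le hκ.le).2 fun A hA => ?_, ?_⟩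
  · have hne : {c | ℵ₀ ≤ c ∧ ∃ D : Set P, (∀ p, ∃ d ∈ D, d ≤ p) ∧ #D = c}.Nonempty := by
      refine ⟨_, ?_, Set.univ, fun p => ⟨p, trivial, le_rfl⟩, rfl⟩
      rw [mk_univ]
      exact hT.inf.trans (mk_le_of_injective (f := p) fun α β h =>
        Finset.singleton_injective (congrArg Subtype.val h))
    obtain ⟨-, D, h4, h5⟩ := csInf_mem hne
    by_contra h6
    have h7 : #D < #T := by
      rw [hc]; exact (h5.le.trans (not_lt.1 h6)).trans_lt (Order.lt_succ κ)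
    choose m hm using fun z : D => Finset.exists_le z.1.1
    obtain ⟨γ, hγ⟩ := hT.bdd_fun h7 m
    obtain ⟨d, h8, h9⟩ := h4 (p γ)
    exact (hγ ⟨d, h8⟩).not_ge (hm ⟨d, h8⟩ γ (h9 (Finset.mem_singleton_self γ)))
  · by_contra hlt
    have h4 : #T ≤ #A := hc ▸ Order.succ_le_of_lt (not_le.1 hlt)
    have : ∀ γ : T, ∃ F ∈ A, ∃ α ∈ F.1, γ ≤ α := fun γ => by
      by_contra h
      push Not at h
      refine (h4.trans (mk_le_of_injective (f := fun F : A =>
        (⟨F.1.1, fun α hα => h F.1 F.2 α hα⟩ : {F : Finset T | (F : Set T) ⊆ Iio γ}))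
        fun F G h => Subtype.ext (Subtype.ext (Subtype.mk.inj h)))).not_gt (hfin (hT.init γ))
    choose F hF μ hμ1 hμ2 using this
    have : ∀ γ : T, ∃ ξ, (∃ i, i < γ) → ξ < γ ∧ ∀ α ∈ (F γ).1, α < γ → α ≤ ξ := fun γ => by
      by_cases h : ∃ i, i < γ
      · obtain ⟨i, hi⟩ := h
        obtain ⟨ξ, h5, h6⟩ := Finset.exists_max_image (insert i ((F γ).1.filter (· < γ))) id
          (Finset.insert_nonempty _ _)
        refine ⟨ξ, fun _ => ⟨?_, fun α hα h => h6 α (Finset.mem_insert_of_mem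
          (Finset.mem_filter.2 ⟨hα, h⟩))⟩⟩
        rcases Finset.mem_insert.1 h5 with rfl | h
        exacts [hi, (Finset.mem_filter.1 h).2]
      · exact ⟨γ, fun h' => absurd h' h⟩
    choose f hf using this
    obtain ⟨ξ, hξ⟩ := Stat.fodor hT (Stat.stat_of_isStationary hT IsStationary.univ) f
      fun β _ h => (hf β h).1
    obtain ⟨r, hr⟩ : ∃ r : Finset T, ∀ δ, ∃ γ, δ < γ ∧ (F γ).1.filter (· < γ) = r := by
      by_contra h
      push Not at h
      choose δ hδ using h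
      obtain ⟨β, hβ⟩ := hT.bdd_fun (hfin (hT.init_le ξ)) fun r => δ r.1
      obtain ⟨γ, h5, ⟨i, h6⟩, h7⟩ := hξ fun _ => β
      refine hδ _ γ ((hβ ⟨(F γ).1.filter (· < γ), fun α hα => ?_⟩).trans (h7 i h6)) rfl
      obtain ⟨h8, h9⟩ := Finset.mem_filter.1 hα
      exact h5.2 ▸ (hf γ ⟨i, h6⟩).2 α h8 h9
    choose γ hγ1 hγ2 using hr
    let s : T → Set T := fun δ => {α | α ∈ (F (γ δ)).1 ∧ γ δ ≤ α}
    have hs : ∀ δ, (s δ).Finite := fun δ => (F (γ δ)).1.finite_toSet.subset fun α h => h.1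
    have hr : ∀ δ η α, α ∈ (F (γ δ)).1 → α ∉ s δ → α ∈ (F (γ η)).1 := fun δ η α h h' => by
      have : α ∈ r := hγ2 δ ▸ Finset.mem_filter.2 ⟨h, not_le.1 fun h'' => h' ⟨h, h''⟩⟩
      rw [← hγ2 η] at this
      exact (Finset.mem_filter.1 this).1
    have key : ∀ δ η x, x ∈ ⋂ α ∈ s δ, a α → x ∉ ⋂ α ∈ s η, b α := by
      intro δ η x h5 h6
      have h7 : ∀ α ∈ s δ, ∀ β ∈ s η, ¬ Disjoint (a α) (b β) := fun α hα β hβ h =>
        Set.disjoint_left.1 h (mem_iInter₂.1 h5 α hα) (mem_iInter₂.1 h6 β hβ)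
      refine hA (hF (γ δ)) (hF (γ η)) (fun h => ?_) (compat _ _ fun α hα β hβ => ?_)
      · have h8 : max (μ (γ δ)) (μ (γ η)) ∈ (F (γ δ)).1 := by
          rcases max_choice (μ (γ δ)) (μ (γ η)) with h9 | h9 <;> rw [h9]
          exacts [hμ1 _, h ▸ hμ1 _]
        exact h7 _ ⟨h8, (hμ2 _).trans (le_max_left _ _)⟩ _
          ⟨h ▸ h8, (hμ2 _).trans (le_max_right _ _)⟩ (hd _)
      · by_cases h8 : α ∈ s δ
        · by_cases h9 : β ∈ s η
          · exact ⟨fun _ h => h7 α h8 β h9 h.1, fun _ h => h7 α h8 β h9 h.2⟩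
          · exact ⟨(F _).2 α hα β (hr η δ β hβ h9), (F _).2 β (hr η δ β hβ h9) α hα⟩
        · exact ⟨(F _).2 α (hr δ η α hα h8) β hβ, (F _).2 β hβ α (hr δ η α hα h8)⟩
    refine h3 ⟨⋃ δ, ⋂ α ∈ s δ, a α, fun δ => ⟨?_, ?_⟩⟩
    · refine ((h2 δ).union ((hs δ).biUnion fun α hα =>
        ha δ α ((hγ1 δ).le.trans hα.2))).subset fun x hx => ?_
      by_cases h5 : x ∈ b δ
      · exact Or.inl ⟨hx.1, h5⟩
      · by_contra h6
        refine hx.2 (mem_iUnion.2 ⟨δ, mem_iInter₂.2 fun α hα => by_contra fun h7 => h6 ?_⟩)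
        exact Or.inr (mem_biUnion hα ⟨⟨hx.1, h5⟩, h7⟩)
    · refine ((hs δ).biUnion fun α hα => hb δ α ((hγ1 δ).le.trans hα.2)).subset fun x hx => ?_
      obtain ⟨η, h5⟩ := mem_iUnion.1 hx.2
      by_contra h6
      exact key η δ x h5 (mem_iInter₂.2 fun α hα => by_contra fun h7 =>
        h6 (mem_biUnion hα ⟨hx.1, h7⟩))
  · by_contra h4
    have h5 := (cel_le hκ.le).1 (not_lt.1 h4) (range fun α => (p α, q α)) (by
      rintro _ ⟨α, rfl⟩ _ ⟨β, rfl⟩ h ⟨⟨u, v⟩, ⟨h5, h6⟩, h7, h8⟩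
      have e1 := h5 (Finset.mem_singleton_self α)
      have e2 := h7 (Finset.mem_singleton_self β)
      exact v.2 α (h6 (Finset.mem_singleton_self α)) β (h8 (Finset.mem_singleton_self β))
        (fun h' => h (by rw [h'])) ⟨u.2 α e1 β e2, u.2 β e2 α e1⟩)
    rw [mk_range_eq _ fun α β h => Finset.singleton_injective
      (congrArg (fun z : P × Q => z.1.1) h), hc] at h5
    exact h5.not_gt (Order.lt_succ κ)

end Pool.Agent.H42.Cel1
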