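import Mathlib

namespace Pool.Agent.H42.CelDefs
open Cardinal Set

/-- antichains: pairwise incompatible sets -/
def Anti {P : Type} [Preorder P] (A : Set P) : Prop :=
  A.Pairwise fun p q => ¬ ∃ r, r ≤ p ∧ r ≤ q

/-- cellularity -/
noncomputable def cel (P : Type) [Preorder P] : Cardinal.{0} :=
  ℵ₀ ⊔ ⨆ A : {A : Set P // Anti A}, #A.1

/-- cellular spectrum -/
def spec (P : Type) [Preorder P] : Set Cardinal.{0} :=
  {κ | ℵ₀ ≤ κ ∧ ∀ (Q : Type) [Preorder Q], cel Q ≤ κ → cel (P × Q) ≤ κ}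

/-- productive cellularity -/
noncomputable def pc (P : Type) [Preorder P] : Cardinal.{0} := sInf (spec P)

/-- density -/
noncomputable def den (P : Type) [Preorder P] : Cardinal.{0} :=
  sInf {c | ℵ₀ ≤ c ∧ ∃ D : Set P, (∀ p, ∃ d ∈ D, d ≤ p) ∧ #D = c}

/-- a `(θ, θ)`-gap in `P(ω)/fin` -/
def Gap (θ : Cardinal.{0}) : Prop :=
  ∃ a b : θ.ord.ToType → Set ℕ, (∀ α β, α < β → (a α \ a β).Finite ∧ (b α \ b β).Finite) ∧
    (∀ α, (a α ∩ b α).Finite) ∧ ¬ ∃ c : Set ℕ, ∀ α, (a α \ c).Finite ∧ (b α ∩ c).Finite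

end Pool.Agent.H42.CelDefs
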