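import Pool.Agent.H82.LuzD

/-! Under CH: a non-cosmic space whose co-diagonal is discretely countable. -/

namespace Pool.Agent.H42.Codi

open Set Cardinal Topology Pool.Agent.H82.Luz

theorem main (CH : continuum.{0} = ℵ₁) : ∃ (X : Type) (_ : TopologicalSpace X), T35Space X ∧
    (∀ D : Set {p : X × X // p.1 ≠ p.2}, IsDiscrete D → IsSigmaCompact (closure D)) ∧
    ¬ ∃ N : Set (Set X), N.Countable ∧ ∀ U, IsOpen U → ∃ M ⊆ N, U = ⋃₀ M := by
  obtain ⟨x, h1, h2⟩ := lspace CH
  have hc : ∀ A : Set (range x), A.Countable → IsClosed A := fun A hA => by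
    choose t ht using fun y : range x => y.2
    obtain ⟨η, hη⟩ := bdd (hA.image t)
    refine isOpen_compl_iff.1 (isOpen_iff_mem_nhds.2 fun y hy => ?_)
    obtain ⟨ξ, a, b⟩ := h2 η (t y)
    refine Filter.mem_of_superset (((isOpen_discrete {true}).preimage
      (f := fun z : range x => z.1 ξ) ((continuous_apply (A := fun _ => Bool) ξ).comp
        continuous_subtype_val)).mem_nhds (ht y ▸ a :)) fun z hz c => hy ?_
    have := b _ (hη _ ⟨z, c, rfl⟩) ((congrFun (ht z) ξ).trans hz)
    rwa [show y = z from Subtype.ext (by rw [← ht, ← ht, this])]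
  refine ⟨range x, inferInstance, inferInstance, fun D hD => ?_, fun ⟨N, n1, n2⟩ => ?_⟩
  · have := h1 2
    have he : IsEmbedding fun p : {p : range x × range x // p.1 ≠ p.2} =>
        (Homeomorph.finTwoArrow (X := range x)).symm p.1 :=
      (Homeomorph.isEmbedding _).comp IsEmbedding.subtypeVal
    have hD' : D.Countable := ((he.isInducing.isLindelof_iff).2
      (HereditarilyLindelofSpace.isLindelof _)).countable_of_isDiscrete hD
    have c1 := hD'.image fun p => p.1.1
    have c2 := hD'.image fun p => p.1.2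
    have : (closure D).Countable := ((c1.prod c2).preimage Subtype.val_injective).mono
      (closure_minimal (fun p hp => And.intro ⟨p, hp, rfl⟩ ⟨p, hp, rfl⟩)
        (((hc _ c1).prod (hc _ c2)).preimage continuous_subtype_val))
    rw [← biUnion_of_singleton (closure D)]
    exact isSigmaCompact_biUnion this fun _ _ => isCompact_singleton.isSigmaCompact
  · choose f hf using fun M : {M : Set (range x) // M.Nonempty} => M.2
    have c1 := (n1.preimage (Subtype.val_injective (p := Set.Nonempty))).image f
    obtain ⟨M, m1, m2⟩ := n2 _ (hc _ c1).isOpen_compl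
    have hu : (Set.univ : Set (range x)).Countable := c1.mono fun y _ => by_contra fun c => by
      obtain ⟨A, a1, a2⟩ : y ∈ ⋃₀ M := m2 ▸ c
      exact (m2.ge ⟨A, a1, hf ⟨A, y, a2⟩⟩) ⟨⟨A, y, a2⟩, m1 a1, rfl⟩
    obtain ⟨β, hβ⟩ := bdd (countable_of_injective_of_countable_image (s := Set.univ)
      (f := fun α => (⟨x α, α, rfl⟩ : range x)) (fun α _ γ _ e => by
        obtain ⟨η, hη⟩ := bdd (countable_singleton α)
        obtain ⟨ξ, a, b⟩ := h2 η γ
        exact b α (hη α rfl) ((congrFun (congrArg Subtype.val e) ξ).trans a)) (hu.mono (subset_univ _)))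
    exact lt_irrefl β (hβ β trivial)

end Pool.Agent.H42.Codi
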