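import Pool.Agent.H42.Reg

/-! There is a non-meager independent family of size `non(meager)`. -/

namespace Pool.Agent.H42.IMeag

open Set Cardinal Filter PiNat

/-- the least size of a non-meager subset of the Cantor space -/
noncomputable def nonM : Cardinal.{0} := sInf {c | ∃ X : Set (ℕ → Bool), ¬ IsMeagre X ∧ #X = c}

/-- independent families of infinite subsets of `ℕ`, given by characteristic functions -/
def Indep (A : Set (ℕ → Bool)) : Prop :=
  (∀ a ∈ A, {n | a n = true}.Infinite) ∧ ∀ F ⊆ A, ∀ G ⊆ A, F.Finite → G.Finite → Disjoint F G →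
    {n | (∀ a ∈ F, a n = true) ∧ ∀ b ∈ G, b n = false}.Infinite

/-- the least size of a non-meager independent family -/
noncomputable def iM : Cardinal.{0} :=
  sInf {c | ∃ A : Set (ℕ → Bool), Indep A ∧ ¬ IsMeagre A ∧ #A = c}

theorem open_dense {U : Set (ℕ → Bool)} (h1 : IsOpen U) (h2 : Dense U) (m : ℕ) :
    ∃ (l : ℕ) (s : ℕ → Bool), ∀ y : ℕ → Bool, (∀ i, m ≤ i → i < l → y i = s i) → y ∈ U := by
  let φ : (ℕ → Bool) → (ℕ → Bool) ≃ₜ (ℕ → Bool) := fun t =>
    Homeomorph.mk (Function.Involutive.toPerm (fun x i => xor (x i) (t i)) fun x => by simp)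
      (by exact continuous_pi fun i =>
        (continuous_of_discreteTopology (f := fun b => xor b (t i))).comp (continuous_apply i))
      (by exact continuous_pi fun i =>
        (continuous_of_discreteTopology (f := fun b => xor b (t i))).comp (continuous_apply i))
  have hT : {t : ℕ → Bool | ∀ i ≥ m, t i = false}.Finite := by
    refine Finite.of_injOn (f := fun t (i : Fin m) => t i) (mapsTo_univ _ _)
      (fun t h t' h' e => funext fun i => ?_) finite_univ
    rcases lt_or_ge i m with h3 | h3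
    · exact congrFun e ⟨i, h3⟩
    · rw [h i h3, h' i h3]
  have h3 := hT.isOpen_biInter (f := fun t => φ t ⁻¹' U) fun t _ => h1.preimage (φ t).continuous
  obtain ⟨s, hs⟩ := (dense_biInter_of_isOpen (f := fun t => φ t ⁻¹' U)
    (fun t _ => h1.preimage (φ t).continuous) hT.countable
    fun t _ => h2.preimage (φ t).isOpenMap).nonempty
  obtain ⟨_, ⟨z, l, rfl⟩, h4, h5⟩ :=
    (isTopologicalBasis_cylinders fun _ => Bool).exists_subset_of_mem_open hs h3
  refine ⟨l, z, fun y hy => ?_⟩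
  have h6 := mem_iInter₂.1 (h5 (show (fun i => if i < m then z i else y i) ∈ cylinder z l from
    fun i hi => by by_cases h : i < m <;> simp [h, hy i, hi, not_lt.1]))
    (fun i => if i < m then xor (z i) (y i) else false) fun i hi => by simp [not_lt.2 hi]
  convert mem_preimage.1 h6 using 1
  funext i
  show y i = xor (if i < m then z i else y i) (if i < m then xor (z i) (y i) else false)
  by_cases h : i < m <;> simp [h]

theorem meagre_sub {M : Set (ℕ → Bool)} (h : IsMeagre M) : ∃ (l : ℕ → ℕ) (s : ℕ → ℕ → Bool),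
    ∀ y : ℕ → Bool, (∃ᶠ m in atTop, ∀ i, m ≤ i → i < l m → y i = s m i) → y ∉ M := by
  obtain ⟨S, h1, h2, h3, h4⟩ := mem_residual_iff.1 h
  obtain ⟨e, he⟩ := (h3.insert Set.univ).exists_eq_range (insert_nonempty _ _)
  have h5 : ∀ n, IsOpen (e n) ∧ Dense (e n) := fun n => by
    rcases (he ▸ mem_range_self n : e n ∈ insert Set.univ S) with h | h
    exacts [h ▸ ⟨isOpen_univ, dense_univ⟩, ⟨h1 _ h, h2 _ h⟩]
  choose l s hs using fun m => open_dense
    ((finite_le_nat m).isOpen_biInter (f := e) fun n _ => (h5 n).1)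
    (dense_biInter_of_isOpen (fun n _ => (h5 n).1) (to_countable _) fun n _ => (h5 n).2) m
  refine ⟨l, s, fun y hy => h4 fun U hU => ?_⟩
  obtain ⟨n, rfl⟩ : U ∈ range e := he ▸ Or.inr hU
  obtain ⟨m, h6, h7⟩ := frequently_atTop.1 hy n
  exact mem_iInter₂.1 (hs m y h7) n h6

theorem match_res {P : ℕ → Prop} (hP : ∃ᶠ m in atTop, P m) (l : ℕ → ℕ) (s : ℕ → ℕ → Bool) :
    {x : ℕ → Bool | ∃ᶠ m in atTop, P m ∧ ∀ i, m ≤ i → i < l m → x i = s m i} ∈
      residual (ℕ → Bool) := by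
  classical
  simp only [frequently_atTop, ofPred_forall]
  refine countable_iInter_mem.2 fun N => residual_of_dense_open ?_ ?_
  · refine isOpen_iff_forall_mem_open.2 fun x ⟨m, h1, h2, h3⟩ => ⟨cylinder x (l m),
      fun y hy => ⟨m, h1, h2, fun i a b => (hy i b).trans (h3 i a b)⟩, isOpen_cylinder _ _ _,
      self_mem_cylinder _ _⟩
  · refine (isTopologicalBasis_cylinders fun _ => Bool).dense_iff.2 ?_
    rintro _ ⟨x, n, rfl⟩ -
    obtain ⟨m, h1, h2⟩ := frequently_atTop.1 hP (max n N)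
    refine ⟨fun i => if i < m then x i else s m i, fun i hi => ?_, m, le_of_max_le_right h1, h2,
      fun i a _ => by simp [not_lt.2 a]⟩
    simp [hi.trans_le (le_of_max_le_left h1)]

theorem ex_mem {X C : Set (ℕ → Bool)} (h : ¬ IsMeagre X) (hC : C ∈ residual (ℕ → Bool)) :
    ∃ x ∈ X, x ∈ C := by
  by_contra hc
  exact h (mem_of_superset hC fun x hx hX => hc ⟨x, hX, hx⟩)

/-- the bounding number -/
noncomputable def bN : Cardinal.{0} :=
  sInf {c | ∃ F : Set (ℕ → ℕ), (∀ g : ℕ → ℕ, ∃ f ∈ F, ∃ᶠ n in atTop, g n < f n) ∧ #F = c}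

theorem bdd {ι : Type} (h : #ι < bN) (f : ι → ℕ → ℕ) :
    ∃ g : ℕ → ℕ, ∀ i, ∀ᶠ n in atTop, f i n ≤ g n := by
  by_contra hc
  push Not at hc
  refine (mk_range_le.trans_lt h).not_ge (csInf_le' ⟨range f, fun g => ?_, rfl⟩)
  obtain ⟨i, hi⟩ := hc g
  exact ⟨_, ⟨i, rfl⟩, hi⟩

theorem ex_unb : ∃ F : Set (ℕ → ℕ), (∀ g : ℕ → ℕ, ∃ f ∈ F, ∃ᶠ n in atTop, g n < f n) ∧ #F = bN :=
  csInf_mem (s := {c | ∃ F : Set (ℕ → ℕ),
    (∀ g : ℕ → ℕ, ∃ f ∈ F, ∃ᶠ n in atTop, g n < f n) ∧ #F = c})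
    ⟨_, Set.univ, fun g => ⟨fun n => g n + 1, trivial, Frequently.of_forall fun _ =>
      Nat.lt_succ_self _⟩, rfl⟩

theorem aleph0_lt_b : ℵ₀ < bN := by
  by_contra h
  obtain ⟨F, hd, hF⟩ := ex_unb
  have hc : F.Countable := by rw [← le_aleph0_iff_set_countable, hF]; exact not_lt.1 h
  obtain ⟨f0, hf0, -⟩ := hd id
  obtain ⟨e, rfl⟩ := hc.exists_eq_range ⟨f0, hf0⟩
  obtain ⟨_, ⟨i, rfl⟩, hi⟩ := hd fun n => ∑ m ∈ Finset.range (n + 1), e m n
  obtain ⟨n, h1, h2⟩ := frequently_atTop.1 hi i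
  exact h2.not_ge (Finset.single_le_sum (f := fun m => e m n) (fun _ _ => Nat.zero_le _)
    (Finset.mem_range.2 (Nat.lt_succ_of_le h1)))

theorem b_le {X : Set (ℕ → Bool)} (h : ¬ IsMeagre X) : bN ≤ #X := by
  by_contra hc
  obtain ⟨g, hg⟩ := bdd (not_le.1 hc) fun x n => sInf {k | n ≤ k ∧ x.1 k = true}
  obtain ⟨x, h1, h2, h3⟩ := ex_mem h (inter_mem
    (match_res (P := fun _ => True) (.of_forall fun _ => trivial) (fun m => m + 1) fun _ _ => true)
    (match_res (P := fun _ => True) (.of_forall fun _ => trivial) (fun m => g m + 1) fun _ _ => false))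
  obtain ⟨n, h4, h5⟩ := (h3.and_eventually (hg ⟨x, h1⟩)).exists
  obtain ⟨m, h6, h7⟩ := frequently_atTop.1 h2 n
  have h8 := Nat.sInf_mem (s := {k | n ≤ k ∧ x k = true}) ⟨m, h6, h7.2 m le_rfl (by omega)⟩
  have := h4.2 _ h8.1 (Nat.lt_succ_of_le h5)
  rw [h8.2] at this
  simp at this

theorem mk_finset_lt {ι : Type} {c : Cardinal} (hc : ℵ₀ < c) (h : #ι < c) : #(Finset ι) < c := by
  rcases finite_or_infinite ι with _ | _
  · exact (lt_aleph0_of_finite _).trans hc
  · rwa [mk_finset_of_infinite]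

theorem fin_im {α β : Type} {f : α → β} {S : Set α} {T : Set β} (h : T.Finite) (h' : T ⊆ f '' S) :
    ∃ s ⊆ S, s.Finite ∧ f '' s = T := by
  obtain ⟨s, h1, h2, h3⟩ := exists_subset_image_finite_and (p := fun t => t = T).1 ⟨T, h', h, rfl⟩
  exact ⟨s, h1, h2, h3⟩

/-- all finite intersections are infinite -/
def Fip (C : Set (Set ℕ)) : Prop := ∀ T ⊆ C, T.Finite → (⋂₀ T).Infinite

theorem step (C : Set (Set ℕ)) (F : ℕ → ℕ) : ∃ D : Set ℕ, (#C < bN → Fip C → Fip (insert D C)) ∧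
    ∃ᶠ m in atTop, ∀ k, m ≤ k → k < F m → k ∉ D := by
  by_cases h : #C < bN ∧ Fip C
  swap
  · exact ⟨∅, fun h1 h2 => absurd ⟨h1, h2⟩ h, .of_forall fun _ _ _ _ => notMem_empty _⟩
  choose nx n1 n2 using fun s : Finset C => (h.2 (Subtype.val '' (s : Set C))
    (by rintro _ ⟨x, -, rfl⟩; exact x.2) (s.finite_toSet.image _)).exists_gt
  obtain ⟨g, hg⟩ := bdd (mk_finset_lt aleph0_lt_b h.1) nx
  let p : ℕ → ℕ := fun k => Nat.rec 0 (fun _ a => a + g a + 1 + F (a + g a + 1)) k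
  have p1 : ∀ k, p (k + 1) = p k + g (p k) + 1 + F (p k + g (p k) + 1) := fun _ => rfl
  have p2 : StrictMono p := strictMono_nat_of_lt_succ fun k => by rw [p1]; omega
  refine ⟨{n | ∃ k, p k ≤ n ∧ n ≤ g (p k)}, fun _ _ T hT hf => ?_, frequently_atTop.2 fun N =>
    ⟨p N + g (p N) + 1, by have : N ≤ p N := p2.le_apply; omega, ?_⟩⟩
  · obtain ⟨N, hN⟩ := eventually_atTop.1
      (hg (hf.preimage (Subtype.val_injective (p := (· ∈ C))).injOn).toFinset)
    refine infinite_of_forall_exists_gt fun n => ?_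
    have h1 : max n N ≤ p (max n N) := p2.le_apply
    refine ⟨_, fun Z hZ => ?_, ((le_max_left _ _).trans h1).trans_lt (n2
      (hf.preimage (Subtype.val_injective (p := (· ∈ C))).injOn).toFinset (p (max n N)))⟩
    rcases hT hZ with rfl | h2
    · exact ⟨_, (n2 _ _).le, hN _ ((le_max_right _ _).trans h1)⟩
    · exact n1 _ _ Z ⟨⟨Z, h2⟩, by simpa using hZ, rfl⟩
  · rintro k h1 h2 ⟨j, h3, h4⟩
    rcases lt_trichotomy j N with h5 | rfl | h5
    · have := p2.monotone (Nat.succ_le_of_lt h5)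
      rw [Nat.succ_eq_add_one, p1] at this
      omega
    · omega
    · have := p2.monotone (Nat.succ_le_of_lt h5)
      rw [Nat.succ_eq_add_one, p1] at this
      omega

theorem ex_filter : ∃ C : Set (Set ℕ), #C ≤ bN ∧ Fip C ∧
    ∀ g : ℕ → ℕ, ∃ D ∈ C, ∃ᶠ m in atTop, ∀ k, m ≤ k → k < g m → k ∉ D := by
  classical
  obtain ⟨F, hF, hb⟩ := ex_unb
  let f : F → ℕ → ℕ := fun x n => ∑ m ∈ Finset.range (n + 1), x.1 m
  have f1 : ∀ x, Monotone (f x) := fun x => monotone_nat_of_le_succ fun n => by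
    simp only [f]; rw [Finset.sum_range_succ _ (n + 1)]; omega
  have f2 : ∀ x n, x.1 n ≤ f x n := fun x n => by
    simp only [f]; rw [Finset.sum_range_succ]; omega
  by_cases h : ∃ g : ℕ → ℕ, ∀ s : Finset F, ∃ᶠ n in atTop, s.sup (f · n) < g n
  · obtain ⟨g, hg⟩ := h
    refine ⟨range fun x => {n | f x n < g n}, mk_range_le.trans hb.le, fun T hT hf => ?_,
      fun l => ?_⟩
    · obtain ⟨s, -, h1, rfl⟩ := fin_im hf (image_univ ▸ hT)
      refine Set.Infinite.mono ?_ (Nat.frequently_atTop_iff_infinite.1 (hg h1.toFinset))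
      rintro n hn _ ⟨x, hx, rfl⟩
      exact (Finset.le_sup (f := (f · n)) (h1.mem_toFinset.2 hx)).trans_lt hn
    · obtain ⟨x, h1, h2⟩ := hF fun n => ∑ k ∈ Finset.range (l n), g k
      refine ⟨_, ⟨⟨x, h1⟩, rfl⟩, h2.mono fun m hm k h3 h4 h5 => hm.not_ge ?_⟩
      exact (f2 ⟨x, h1⟩ m).trans ((f1 _ h3).trans ((le_of_lt h5).trans
        (Finset.single_le_sum (f := g) (fun _ _ => Nat.zero_le _) (Finset.mem_range.2 h4))))
  · push Not at h
    have : Infinite F := by rw [infinite_iff, hb]; exact aleph0_lt_b.le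
    obtain ⟨e⟩ : Nonempty (bN.ord.ToType ≃ Finset F) := Cardinal.eq.1 (by simp [hb])
    choose D D1 D2 using step
    obtain ⟨E, hE⟩ := Reg.exists_rec ∅ (fun a (E : bN.ord.ToType → Set ℕ) =>
      D (E '' Iio a) fun n => (e a).sup (f · n)) fun a E E' h => by
        rw [image_congr (s := Iio a) h]
    have key : ∀ S : Set bN.ord.ToType, (∀ a ∈ S, Fip (E '' Iic a)) → Fip (E '' S) := by
      intro S hS T hT hf
      obtain ⟨s, h1, h2, rfl⟩ := fin_im hf hT
      rcases s.eq_empty_or_nonempty with rfl | h3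
      · simpa using infinite_univ
      · obtain ⟨a, h4, h5⟩ := exists_max_image s id h2 h3
        exact hS a (h1 h4) _ (image_mono h5) hf
    have ind : ∀ a, Fip (E '' Iic a) := fun a => by
      induction a using WellFoundedLT.induction with
      | ind a ih =>
        rw [← Iio_insert, image_insert_eq, hE a]
        exact D1 _ _ (mk_image_le.trans_lt ((mk_Iio_lt a (by simp)).trans_eq (by simp)))
          (key _ ih)
    refine ⟨range E, mk_range_le.trans (by simp), by simpa using key Set.univ fun a _ => ind a,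
      fun g => ?_⟩
    obtain ⟨s, hs⟩ := h g
    obtain ⟨a, rfl⟩ := e.surjective s
    refine ⟨_, ⟨a, rfl⟩, ?_⟩
    rw [hE a]
    exact ((D2 _ _).and_eventually hs).mono fun m h k h1 h2 => h.1 k h1 (h2.trans_le h.2)

theorem main {X : Set (ℕ → Bool)} (hX : ¬ IsMeagre X) :
    ∃ A : Set (ℕ → Bool), Indep A ∧ ¬ IsMeagre A ∧ #A ≤ #X := by
  classical
  obtain ⟨C, c1, c2, c3⟩ := ex_filter
  have hc : #(C × X) ≤ #X := by
    rw [mk_prod, lift_id, lift_id]
    exact (mul_le_mul_left (c1.trans (b_le hX)) _).trans_eq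
      (mul_eq_self (aleph0_lt_b.le.trans (b_le hX)))
  obtain ⟨ρ⟩ : Nonempty (C × X ↪ (ℕ → Bool)) := hc.trans (mk_set_le X)
  obtain ⟨dec, hdec⟩ := exists_surjective_nat (Finset (List Bool))
  let y : C × X → ℕ → Bool := fun t n => if n.sqrt ∈ t.1.1 then
    decide (∃ l ∈ dec (n - n.sqrt * n.sqrt), l = res (ρ t) l.length) else t.2.1 n
  have key : ∀ F ⊆ range y, ∀ G ⊆ range y, F.Finite → G.Finite → Disjoint F G →
      {n | (∀ a ∈ F, a n = true) ∧ ∀ b ∈ G, b n = false}.Infinite := by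
    intro F hF G hG f1 g1 hd
    obtain ⟨F, -, f2, rfl⟩ := fin_im f1 (image_univ ▸ hF)
    obtain ⟨G, -, g2, rfl⟩ := fin_im g1 (image_univ ▸ hG)
    obtain ⟨K, hK⟩ : ∃ K, ∀ t ∈ F ×ˢ G, res (ρ t.1) K ≠ res (ρ t.2) K := by
      refine ((eventually_all_finite (l := atTop) (f2.prod g2)).2 fun t ht => ?_).exists
      obtain ⟨i, hi⟩ := Function.ne_iff.1 (ρ.injective.ne fun h : t.1 = t.2 =>
        disjoint_left.1 hd ⟨_, ht.1, rfl⟩ ⟨_, ht.2, by rw [h]⟩)
      exact (eventually_gt_atTop i).mono fun K h1 h2 => hi (res_eq_res.1 h2 h1)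
    obtain ⟨j, hj⟩ := hdec (f2.image fun t => res (ρ t) K).toFinset
    refine infinite_of_forall_exists_gt fun N => ?_
    obtain ⟨k, h1, h2⟩ := (c2 ((fun t : C × X => t.1.1) '' (F ∪ G))
      (by rintro _ ⟨t, -, rfl⟩; exact t.1.2) ((f2.union g2).image _)).exists_gt (max N j)
    have h3 : (k * k + j).sqrt = k := Nat.sqrt_add_eq _ (by have := le_max_right N j; omega)
    refine ⟨k * k + j, ⟨?_, ?_⟩, by have := le_max_left N j; nlinarith⟩
    · rintro _ ⟨t, ht, rfl⟩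
      simp only [y, h3, if_pos (h1 _ ⟨t, Or.inl ht, rfl⟩), Nat.add_sub_cancel_left, hj,
        decide_eq_true_eq]
      exact ⟨res (ρ t) K, by simpa using ⟨_, _, _, _, ht, rfl⟩, by rw [res_length]⟩
    · rintro _ ⟨t, ht, rfl⟩
      simp only [y, h3, if_pos (h1 _ ⟨t, Or.inr ht, rfl⟩), Nat.add_sub_cancel_left, hj,
        decide_eq_false_iff_not, Finite.mem_toFinset]
      rintro ⟨_, ⟨s, hs, rfl⟩, h4⟩
      rw [res_length] at h4
      exact hK (s, t) ⟨hs, ht⟩ h4
  refine ⟨range y, ⟨fun a ha => ?_, key⟩, fun hm => ?_, mk_range_le.trans hc⟩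
  · simpa using key {a} (singleton_subset_iff.2 ha) ∅ (empty_subset _) (toFinite _) (toFinite _)
      (by simp)
  · obtain ⟨l, s, hs⟩ := meagre_sub hm
    obtain ⟨D, h1, h2⟩ := c3 fun k => l (k * k)
    obtain ⟨x, h3, h4⟩ := ex_mem hX (match_res (P := fun m => ∀ i, m ≤ i → i < l m → i.sqrt ∉ D)
      (frequently_atTop.2 fun N => by
        obtain ⟨k, h3, h4⟩ := frequently_atTop.1 h2 N
        exact ⟨k * k, by nlinarith, fun i a b => h4 _ (Nat.le_sqrt.2 a)
          ((Nat.sqrt_le_self i).trans_lt b)⟩) l s)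
    refine hs _ (h4.mono fun m h i a b => ?_) ⟨(⟨D, h1⟩, ⟨x, h3⟩), rfl⟩
    simp only [y, if_neg (h.1 i a b)]
    exact h.2 i a b

theorem iM_eq : iM = nonM := by
  obtain ⟨X, h1, h2⟩ := csInf_mem (s := {c | ∃ X : Set (ℕ → Bool), ¬ IsMeagre X ∧ #X = c})
    ⟨_, Set.univ, not_isMeagre_of_isOpen isOpen_univ univ_nonempty, rfl⟩
  obtain ⟨A, h3, h4, h5⟩ := main h1
  refine le_antisymm (le_trans (csInf_le' ⟨A, h3, h4, rfl⟩) (h5.trans_eq h2))
    (le_csInf ⟨_, A, h3, h4, rfl⟩ ?_)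
  rintro _ ⟨B, -, h6, rfl⟩
  exact csInf_le' ⟨B, h6, rfl⟩

end Pool.Agent.H42.IMeag
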