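import Pool.Agent.H42.CofinDefs
import Pool.Agent.H42.IMeag
import Pool.Agent.H42.TStar

/-! The meager ideal is an increasing union of `add(M)` many sigma-ideals. -/

namespace Pool.Agent.H42.Cofin

open Set Filter Cardinal PiNat Topology

theorem add_le {X : Type} {I : Set (Set X)} {γ : Ordinal.{0}} (h : γ ∈ lens Down I) :
    (addN I).ord ≤ γ := by
  obtain ⟨h1, J, h2, h3, rfl⟩ := h
  have : NoMaxOrder γ.ToType :=
    Ordinal.isSuccPrelimit_type_lt_iff.1 (by simpa using h1.isSuccPrelimit)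
  have : ∀ a, ∃ A ∈ ⋃ a, J a, A ∉ J a := fun a => by
    obtain ⟨b, hb⟩ := exists_gt a
    obtain ⟨A, c, d⟩ := exists_of_ssubset (h2 hb)
    exact ⟨A, mem_iUnion.2 ⟨b, c⟩, d⟩
  choose A a1 a2 using this
  refine ord_le.2 (le_trans (b := #(range A)) (csInf_le' ⟨_, range_subset_iff.2 a1, rfl, fun c => ?_⟩)
    (mk_range_le.trans_eq (by simp)))
  obtain ⟨a, c⟩ := mem_iUnion.1 c
  exact a2 a (h3 a _ c _ (subset_sUnion_of_mem ⟨a, rfl⟩))

/-- a strictly increasing unbounded chain inside a cofinal subfamily -/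
theorem chain {X : Type} {I B : Set (Set X)} (hI : Idl I) (h1 : ∀ x, {x} ∈ I) (h2 : Set.univ ∉ I)
    (hB : B ⊆ I) (hc : ∀ A ∈ I, ∃ C ∈ B, A ⊆ C) : ℵ₀ ≤ addN I ∧
      ∃ A : (addN I).ord.ToType → Set X, StrictMono A ∧ (∀ a, A a ∈ B) ∧ ⋃ a, A a ∉ I := by
  obtain ⟨F, f1, f2, f3⟩ := csInf_mem (s := {c | ∃ F ⊆ I, #F = c ∧ ⋃₀ F ∉ I})
    ⟨_, range singleton, range_subset_iff.2 h1, rfl, by rwa [sUnion_range, iUnion_of_singleton]⟩
  refine ⟨?_, ?_⟩
  · by_contra! c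
    refine f3 (Set.Finite.induction_on_subset (motive := fun G _ => ⋃₀ G ∈ I) F
      (lt_aleph0_iff_set_finite.1 (f2.trans_lt c)) (by simpa using hI.2.1) fun a _ _ b => ?_)
    rw [sUnion_insert]
    exact hI.2.2 _ (f1 a) _ b
  obtain ⟨e⟩ : Nonempty ((addN I).ord.ToType ≃ F) := Cardinal.eq.1 (by rw [f2]; simp [addN])
  obtain ⟨A, hA⟩ := TStar.rec_o (T := (addN I).ord.ToType) (σ := Set X)
    (fun a g s => s ∈ B ∧ (e a).1 ⊆ s ∧ ∀ b, g b ⊂ s) fun a g hg => by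
      have c : ⋃₀ range g ∈ I := by_contra fun c => (mk_range_le.trans_lt
        (by simpa using mk_Iio_lt a (by simp) : #(Iio a) < addN I)).not_ge
          (csInf_le' ⟨_, range_subset_iff.2 fun b => hB (hg b).1, rfl, c⟩)
      obtain ⟨x, hx⟩ := (ne_univ_iff_exists_notMem _).1 fun d : ⋃₀ range g = Set.univ => h2 (d ▸ c)
      obtain ⟨C, c1, c2⟩ := hc _ (hI.2.2 _ (hI.2.2 _ c _ (f1 (e a).2)) _ (h1 x))
      exact ⟨C, c1, (subset_union_right.trans subset_union_left).trans c2, fun b =>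
        ⟨((subset_sUnion_of_mem (mem_range_self b)).trans (subset_union_left.trans subset_union_left)).trans c2,
          fun d => hx ⟨_, ⟨b, rfl⟩, d (c2 (Or.inr rfl))⟩⟩⟩
  refine ⟨A, fun a b c => (hA b).2.2 ⟨a, c⟩, fun a => (hA a).1, fun c => f3 (hI.1 _ c _ ?_)⟩
  rintro x ⟨s, d, f⟩
  exact mem_iUnion.2 ⟨e.symm ⟨s, d⟩, (hA _).2.1 (by simpa using f)⟩

/-- the basic meager sets -/
def T (n : ℕ → ℕ) (y : ℕ → Bool) : Set (ℕ → Bool) :=
  {x | ∀ᶠ k in atTop, ∃ i, n k ≤ i ∧ i < n (k + 1) ∧ x i ≠ y i}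

theorem prime {n : ℕ → ℕ} (hn : StrictMono n) (y : ℕ → Bool) (m : ℕ → ℕ → ℕ)
    (hm : ∀ j, StrictMono (m j)) (z : ℕ → ℕ → Bool) (h : ∀ j, ¬T n y ⊆ T (m j) (z j)) :
    ¬T n y ⊆ ⋃ j, T (m j) (z j) := by
  classical
  let K : Set (ℕ → Bool) := {x | ∀ k, ∃ i, n k ≤ i ∧ i < n (k + 1) ∧ x i ≠ y i}
  have op : ∀ (a b : ℕ) (w : ℕ → Bool), IsOpen {x : ℕ → Bool | ∀ i, a ≤ i → i < b → x i = w i} :=
    fun a b w => isOpen_iff_forall_mem_open.2 fun x h => ⟨cylinder x b,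
      fun v hv i c d => (hv i d).trans (h i c d), isOpen_cylinder _ _ _, self_mem_cylinder _ _⟩
  have hK : IsClosed K := by
    simp only [K, ofPred_forall]
    refine isClosed_iInter fun k => ?_
    convert (op (n k) (n (k + 1)) y).isClosed_compl using 1
    ext x
    simp
  have : CompactSpace K := isCompact_iff_compactSpace.1 hK.isCompact
  have : Nonempty K := ⟨⟨fun i => !y i, fun k => ⟨n k, le_rfl, hn (by omega), by simp⟩⟩⟩
  obtain ⟨x, hx⟩ := (dense_iInter_of_isOpen (f := fun t : ℕ × ℕ => ⋃ k ≥ t.2,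
      Subtype.val ⁻¹' {x : ℕ → Bool | ∀ i, m t.1 k ≤ i → i < m t.1 (k + 1) → x i = z t.1 i})
    (fun t => isOpen_biUnion fun k _ => (op _ _ _).preimage continuous_subtype_val) fun t => by
      refine ((isTopologicalBasis_cylinders fun _ => Bool).isInducing
        (IsInducing.subtypeVal (t := K))).dense_iff.2 ?_
      rintro _ ⟨_, ⟨w, l, rfl⟩, rfl⟩ ⟨x, hx⟩
      obtain ⟨v, v1, v2⟩ := not_subset.1 (h t.1)
      obtain ⟨a, ha⟩ := eventually_atTop.1 v1
      obtain ⟨k, k1, k2⟩ := frequently_atTop.1 (not_eventually.1 v2) (max t.2 (n (max a l)))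
      refine ⟨⟨fun i => if i < n (max a l) then x.1 i else v i, fun k => ?_⟩, fun i c => ?_,
        mem_iUnion₂.2 ⟨k, le_of_max_le_left k1, fun i c d => ?_⟩⟩
      · rcases lt_or_ge k (max a l) with c | c
        · obtain ⟨i, d, e, f⟩ := x.2 k
          exact ⟨i, d, e, by beta_reduce; rwa [if_pos (e.trans_le (hn.monotone c))]⟩
        · obtain ⟨i, d, e, f⟩ := ha k (le_of_max_le_left c)
          exact ⟨i, d, e, by beta_reduce; rwa [if_neg ((hn.monotone c).trans d).not_gt]⟩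
      · exact (if_pos (c.trans_le ((le_max_right a l).trans hn.le_apply))).trans (hx i c)
      · refine (if_neg ((le_of_max_le_right k1).trans ((hm _).le_apply.trans c)).not_gt).trans ?_
        by_contra e
        exact k2 ⟨i, c, d, e⟩).nonempty (X := K)
  intro c
  obtain ⟨j, c⟩ := mem_iUnion.1 (c (.of_forall x.2))
  obtain ⟨N, c⟩ := eventually_atTop.1 c
  obtain ⟨k, d, e⟩ := mem_iUnion₂.1 (mem_iInter.1 hx (j, N))
  obtain ⟨i, f, g, u⟩ := c k d
  exact u (e i f g)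

theorem T_meagre {n : ℕ → ℕ} (hn : StrictMono n) (y : ℕ → Bool) : IsMeagre (T n y) := by
  refine mem_of_superset (IMeag.match_res (P := (· ∈ range n))
    (Nat.frequently_atTop_iff_infinite.2 (infinite_range_of_injective hn.injective))
    (fun m => n (Function.invFun n m + 1)) fun _ => y) fun x h c => ?_
  obtain ⟨N, c⟩ := eventually_atTop.1 c
  obtain ⟨_, d, ⟨k, rfl⟩, e⟩ := frequently_atTop.1 h (n N)
  obtain ⟨i, f, g, u⟩ := c k (hn.le_iff_le.1 d)
  exact u (e i f (by rwa [Function.leftInverse_invFun hn.injective]))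

theorem T_cof {M : Set (ℕ → Bool)} (h : IsMeagre M) : ∃ n y, StrictMono n ∧ M ⊆ T n y := by
  obtain ⟨l, s, h⟩ := IMeag.meagre_sub h
  obtain ⟨n, h1⟩ : ∃ n : ℕ → ℕ, ∀ k, n (k + 1) = max (l (n k)) (n k + 1) :=
    ⟨fun k => Nat.rec 0 (fun _ a => max (l a) (a + 1)) k, fun _ => rfl⟩
  have hn : StrictMono n := strictMono_nat_of_lt_succ fun k =>
    h1 k ▸ Nat.lt_of_succ_le (le_max_right _ _)
  refine ⟨n, fun i => s (n (Nat.findGreatest (n · ≤ i) i)) i, hn, fun x hx => ?_⟩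
  by_contra c
  refine h x (hn.tendsto_atTop.frequently ((not_eventually.1 c).mono fun k c i d e => ?_)) hx
  have f : i < n (k + 1) := e.trans_le (h1 k ▸ le_max_left _ _)
  have : Nat.findGreatest (n · ≤ i) i = k := Nat.findGreatest_eq_iff.2 ⟨hn.le_apply.trans d,
    fun _ => d, fun j g _ u => (f.trans_le (hn.monotone g)).not_ge u⟩
  by_contra u
  exact c ⟨i, d, f, by beta_reduce; rwa [this]⟩

theorem meagre : IsLeast (lens SIdl {M : Set (ℕ → Bool) | IsMeagre M})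
    (addN {M : Set (ℕ → Bool) | IsMeagre M}).ord := by
  refine ⟨?_, fun γ ⟨a, J, b, c, d⟩ => add_le ⟨a, J, b, fun a => (c a).1, d⟩⟩
  obtain ⟨h0, A, a1, a2, a3⟩ := chain (I := {M : Set (ℕ → Bool) | IsMeagre M})
    (B := {B | ∃ n y, StrictMono n ∧ B = T n y})
    ⟨fun _ a _ b => a.mono b, IsMeagre.empty, fun _ a _ b => a.union b⟩
    (fun x => by
      obtain ⟨y, rfl⟩ : ∃ y : ℕ → Bool, x = fun i => !y i := ⟨fun i => !x i, by simp⟩
      exact (T_meagre strictMono_id y).mono (singleton_subset_iff.2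
        (.of_forall fun k => ⟨k, le_rfl, Nat.lt_succ_self k, by simp⟩)))
    (not_isMeagre_of_isOpen isOpen_univ univ_nonempty)
    (by rintro _ ⟨n, y, h, rfl⟩; exact T_meagre h y) fun M h => by
      obtain ⟨n, y, a, b⟩ := T_cof h
      exact ⟨_, ⟨n, y, a, rfl⟩, b⟩
  have hl := isSuccLimit_ord h0
  let J := fun a => {C | ∃ (m : ℕ → ℕ → ℕ) (z : ℕ → ℕ → Bool), (∀ j, StrictMono (m j) ∧
    ¬A a ⊆ T (m j) (z j)) ∧ C ⊆ ⋃ j, T (m j) (z j)}
  have key : ∀ a n y, StrictMono n → ¬A a ⊆ T n y → ∀ C ⊆ T n y, C ∈ J a := fun a n y b c C d =>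
    ⟨fun _ => n, fun _ => y, fun _ => ⟨b, c⟩, by rwa [iUnion_const]⟩
  refine ⟨hl, J, fun a b c => ⟨fun C ⟨m, z, d, e⟩ => ⟨m, z, fun j => ⟨(d j).1, fun f =>
    (d j).2 ((a1 c).le.trans f)⟩, e⟩, fun d => ?_⟩, fun a => ⟨fun C ⟨m, z, d, e⟩ D f =>
      ⟨m, z, d, f.trans e⟩, ?_, fun C h => ?_⟩, Subset.antisymm (iUnion_subset ?_) fun M h => ?_⟩
  · obtain ⟨n, y, e, f⟩ := a2 a
    obtain ⟨m, z, g, k⟩ := d (key b n y e (f ▸ (a1 c).2) _ f.le)
    exact prime e y m (fun j => (g j).1) z (fun j => f ▸ (g j).2) (f ▸ k)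
  · obtain ⟨n, y, e, f⟩ := a2 a
    obtain ⟨x, hx⟩ : (T n y).Nonempty :=
      ⟨fun i => !y i, .of_forall fun k => ⟨n k, le_rfl, e (by omega), by simp⟩⟩
    refine key a id x strictMono_id (fun c => ?_) _ (empty_subset _)
    obtain ⟨k, i, -, -, c⟩ := (c (f ▸ hx)).exists
    exact c rfl
  · choose m z d e using h
    refine ⟨fun j => m j.unpair.1 j.unpair.2, fun j => z j.unpair.1 j.unpair.2, fun j => d _ _,
      iUnion_subset fun j => (e j).trans (iUnion_subset fun k => ?_)⟩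
    exact subset_iUnion_of_subset (j.pair k) (by simp)
  · rintro a C ⟨m, z, d, e⟩
    exact (isMeagre_iUnion fun j => T_meagre (d j).1 _).mono e
  · obtain ⟨n, y, b, c⟩ := T_cof h
    obtain ⟨a, d⟩ : ∃ a, ¬A a ⊆ T n y := by
      by_contra! d
      exact a3 ((T_meagre b y).mono (iUnion_subset d))
    exact mem_iUnion.2 ⟨a, key a n y b d _ c⟩

end Pool.Agent.H42.Cofin
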