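import Pool.Agent.H42.CofinDefs2
import Pool.Agent.H42.TStar
import Pool.Agent.H42.Dirac

/-! Separating the variants of cofin. -/

namespace Pool.Agent.H42.Cofin

open Set Filter Cardinal Pool.Agent.H42.IMeag Pool.Agent.H42.Spl

/-- points with blocks of length in `S` below `f` -/
def B (S : Set ℕ) (f : ℕ → ℕ) : Set (ℕ → Bool) :=
  {z | ∃ N ∈ S, ∀ m, ∃ τ : List (ℕ × ℕ), z (Encodable.encode τ) = true ∧ τ.length = N ∧
    ∀ t ∈ τ, m ≤ t.1 ∧ t.2 < f t.1}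

def II (S : Set ℕ) : Set (Set (ℕ → Bool)) := {A | ∃ f, A ⊆ B S f}

theorem B_mono (S : Set ℕ) {f g : ℕ → ℕ} (h : ∀ᶠ n in atTop, f n ≤ g n) : B S f ⊆ B S g := by
  rintro z ⟨N, a, b⟩
  obtain ⟨k, h⟩ := eventually_atTop.1 h
  refine ⟨N, a, fun m => ?_⟩
  obtain ⟨τ, c, d, e⟩ := b (max m k)
  exact ⟨τ, c, d, fun t ht => ⟨le_of_max_le_left (e t ht).1,
    (e t ht).2.trans_le (h _ (le_of_max_le_right (e t ht).1))⟩⟩

theorem borel_II (S : Set ℕ) : BorelI (II S) := by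
  refine ⟨⟨fun A ⟨f, a⟩ C b => ⟨f, b.trans a⟩, ⟨id, empty_subset _⟩, fun A h => ?_⟩,
    fun A ⟨f, a⟩ => ⟨_, ⟨f, Subset.rfl⟩, ?_, a⟩⟩
  · choose f hf using h
    obtain ⟨g, hg⟩ := bdd (by simpa using aleph0_lt_b) f
    exact ⟨g, iUnion_subset fun n => (hf n).trans (B_mono S (hg n))⟩
  · rw [← BorelSpace.measurable_eq (α := ℕ → Bool)]
    unfold B
    measurability

theorem B_prime {S : Set ℕ} {f : ℕ → ℕ} (l : List (ℕ → ℕ)) (h : l.length ∈ S)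
    (h' : ∀ g ∈ l, ¬∀ᶠ n in atTop, f n ≤ g n) : ¬B S f ⊆ ⋃ g ∈ l, B S g := by
  classical
  have : ∀ (g : ℕ → ℕ) (m : ℕ), ∃ k, g ∈ l → m ≤ k ∧ g k < f k := fun g m => by
    by_cases c : g ∈ l
    · obtain ⟨k, a, b⟩ := frequently_atTop.1 (not_eventually.1 (h' g c)) m
      exact ⟨k, fun _ => ⟨a, not_le.1 b⟩⟩
    · exact ⟨0, fun d => absurd d c⟩
  choose k hk using this
  let τ : ℕ → List (ℕ × ℕ) := fun m => l.map fun g => (k g m, g (k g m))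
  intro c
  obtain ⟨g, a, N, -, b⟩ := mem_iUnion₂.1 (c (a := fun j => decide (∃ m, j = Encodable.encode (τ m)))
    ⟨_, h, fun m => ⟨τ m, by simp, by simp [τ], fun t ht => by
      obtain ⟨g, a, rfl⟩ := List.mem_map.1 ht
      exact hk g m a⟩⟩)
  obtain ⟨σ, d, -, e⟩ := b 0
  obtain ⟨m, d⟩ := of_decide_eq_true d
  rw [Encodable.encode_injective d] at e
  exact (e _ (List.mem_map_of_mem a)).2.false

/-- the next element of `A` -/
noncomputable def nxt (A : Set ℕ) (k : ℕ) : ℕ := sInf {a | a ∈ A ∧ k ≤ a}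

theorem nxt_mem {A : Set ℕ} (h : A.Infinite) (k : ℕ) : nxt A k ∈ A ∧ k ≤ nxt A k := by
  obtain ⟨a, b, c⟩ := h.exists_gt k
  exact Nat.sInf_mem (s := {a | a ∈ A ∧ k ≤ a}) ⟨a, b, c.le⟩

theorem cover (N : ℕ) (f p : ℕ → ℕ) (hp : StrictMono p) : ∃ Z : ℕ → Set ℕ, (∀ r, (Z r).Infinite) ∧
    B {N} f ⊆ ⋃ r ∈ Finset.range (2 * N + 1), B {N} (nxt (⋃ n ∈ Z r, Ico (p n) (p (n + 1)))) := by
  obtain ⟨q, hq⟩ : ∃ q : ℕ → ℕ, ∀ j, q (j + 1) = q j + 1 + (Finset.range (p (q j))).sup f :=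
    ⟨fun j => Nat.rec 0 (fun _ a => a + 1 + (Finset.range (p a)).sup f) j, fun _ => rfl⟩
  have q1 : StrictMono q := strictMono_nat_of_lt_succ fun j => by rw [hq]; omega
  have q2 := hp.comp q1
  let Z : ℕ → Set ℕ := fun r => range fun j => q ((2 * N + 1) * j + r)
  have hZ : ∀ r, (Z r).Infinite := fun r => infinite_range_of_injective fun a b e => by
    simpa using q1.injective e
  refine ⟨Z, hZ, ?_⟩
  rintro z ⟨N', h0, h⟩
  rw [show N' = N from h0] at h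
  let ι : ℕ → ℕ := fun k => Nat.find (⟨k + 1, q2.le_apply⟩ : ∃ j, k < p (q j))
  have key : ∀ m, ∃ r : Fin (2 * N + 1), ∃ τ : List (ℕ × ℕ), z (Encodable.encode τ) = true ∧
      τ.length = N ∧ ∀ t ∈ τ, m ≤ t.1 ∧ t.2 < nxt (⋃ n ∈ Z r, Ico (p n) (p (n + 1))) t.1 := by
    intro m
    obtain ⟨τ, a, b, c⟩ := h m
    obtain ⟨r, r1, r2⟩ := Finset.exists_mem_notMem_of_card_lt_card
      (s := (τ.map (fun t => ι t.1 % (2 * N + 1)) ++
        τ.map fun t => (ι t.1 - 1) % (2 * N + 1)).toFinset)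
      (t := Finset.range (2 * N + 1)) ((List.toFinset_card_le _).trans_lt (by simp; omega))
    simp only [List.mem_toFinset, List.mem_append, List.mem_map, not_or, not_exists, not_and,
      Finset.mem_range] at r1 r2
    refine ⟨⟨r, r1⟩, τ, a, b, fun t ht => ⟨(c t ht).1, (c t ht).2.trans_le ?_⟩⟩
    obtain ⟨d, e⟩ := nxt_mem (A := ⋃ n ∈ Z r, Ico (p n) (p (n + 1)))
      (((hZ r).image hp.injective.injOn).mono (by
        rintro _ ⟨n, d, rfl⟩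
        exact mem_iUnion₂.2 ⟨n, d, le_rfl, hp (Nat.lt_succ_self n)⟩)) t.1
    obtain ⟨_, ⟨j, rfl⟩, d1, d2⟩ := mem_iUnion₂.1 d
    have u : ι t.1 ≤ (2 * N + 1) * j + r + 1 := Nat.find_min' _
      ((e.trans_lt d2).trans_le (hp.monotone (q1 (Nat.lt_succ_self _))))
    have v : ((2 * N + 1) * j + r) % (2 * N + 1) = r := by
      rw [Nat.mul_add_mod, Nat.mod_eq_of_lt r1]
    have w : ι t.1 + 1 ≤ (2 * N + 1) * j + r := by
      by_contra w
      rcases (by omega : ι t.1 = (2 * N + 1) * j + r ∨ ι t.1 - 1 = (2 * N + 1) * j + r) with x | x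
      · exact r2.1 t ht (x ▸ v)
      · exact r2.2 t ht (x ▸ v)
    refine le_trans ?_ ((hp.le_apply.trans (q2.monotone w)).trans d1)
    rw [hq]
    exact (Finset.le_sup (Finset.mem_range.2 (Nat.find_spec
      (⟨t.1 + 1, q2.le_apply⟩ : ∃ j, t.1 < p (q j))))).trans (Nat.le_add_left _ _)
  choose r hr using key
  obtain ⟨s, hs⟩ := Finite.exists_infinite_fiber r
  refine mem_iUnion₂.2 ⟨s, Finset.mem_range.2 s.2, N, rfl, fun m => ?_⟩
  obtain ⟨k, a, b⟩ := (infinite_coe_iff.1 hs).exists_gt m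
  obtain ⟨τ, c, d, e⟩ := hr k
  exact ⟨τ, c, d, fun t ht => ⟨b.le.trans (e t ht).1, (show r k = s from a) ▸ (e t ht).2⟩⟩

theorem g_le {S : Set ℕ} {P : Set (Set (ℕ → Bool)) → Prop} (hP : ∀ J, P J → Idl J ∧
    ∀ f, (∀ N ∈ S, B {N} f ∈ J) → B S f ∈ J) {δ : Ordinal.{0}} (h : δ ∈ lens P (II S)) :
    gNum.ord ≤ δ := by
  obtain ⟨h1, J, h2, h3, h4⟩ := h
  have : NoMaxOrder δ.ToType :=
    Ordinal.isSuccPrelimit_type_lt_iff.1 (by simpa using h1.isSuccPrelimit)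
  refine ord_le.2 (le_trans (b := #(range fun a => {A | A.Infinite ∧ B S (nxt A) ∉ J a}))
    (csInf_le' ⟨_, rfl, forall_mem_range.2 fun a => ⟨fun _ h => h.1, fun Z c Y d e => ⟨d, fun f =>
      c.2 ((hP _ (h3 a)).1.1 _ f _ (B_mono S ?_))⟩, fun p hp => ?_⟩, ?_⟩)
    (mk_range_le.trans_eq (by simp)))
  · obtain ⟨k, hk⟩ := e.bddAbove
    filter_upwards [eventually_gt_atTop k] with n hn
    refine Nat.sInf_le ⟨by_contra fun g => ?_, (nxt_mem d n).2⟩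
    exact (hn.trans_le (nxt_mem d n).2).not_ge (hk ⟨(nxt_mem d n).1, g⟩)
  · obtain ⟨b, hb⟩ := exists_gt a
    obtain ⟨A, c, d⟩ := exists_of_ssubset (h2 hb)
    obtain ⟨f, e⟩ : A ∈ II S := h4 ▸ mem_iUnion.2 ⟨b, c⟩
    obtain ⟨⟨i1, i2, i3⟩, i4⟩ := hP _ (h3 a)
    obtain ⟨N, g, k⟩ : ∃ N ∈ S, B {N} f ∉ J a := by
      by_contra! g
      exact d (i1 _ (i4 f g) _ e)
    obtain ⟨Z, z1, z2⟩ := cover N f p hp
    by_contra! u
    refine k (i1 _ ?_ _ z2)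
    refine Finset.induction_on (motive := fun s => ⋃ r ∈ s,
      B {N} (nxt (⋃ n ∈ Z r, Ico (p n) (p (n + 1)))) ∈ J a) _ (by simpa using i2) fun r s _ v => ?_
    rw [Finset.set_biUnion_insert]
    refine i3 _ (i1 (B S _) (by_contra fun w => u _ (z1 r) ⟨((z1 r).image hp.injective.injOn).mono
      ?_, w⟩) _ ?_) _ v
    · rintro _ ⟨n, d, rfl⟩
      exact mem_iUnion₂.2 ⟨n, d, le_rfl, hp (Nat.lt_succ_self n)⟩
    · rintro z ⟨_, rfl, x⟩
      exact ⟨_, g, x⟩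
  · refine eq_empty_of_forall_notMem fun A hA => ?_
    obtain ⟨a, c⟩ := mem_iUnion.1 (h4 ▸ ⟨_, Subset.rfl⟩ : B S (nxt A) ∈ ⋃ a, J a)
    exact (hA _ ⟨a, rfl⟩).2 c

theorem scale : ∃ f : bN.ord.ToType → ℕ → ℕ, (∀ a b, a < b → ∀ᶠ n in atTop, f a n < f b n) ∧
    ∀ g : ℕ → ℕ, ∃ a, ¬∀ᶠ n in atTop, f a n ≤ g n := by
  obtain ⟨F, h1, h2⟩ := ex_unb
  obtain ⟨e⟩ : Nonempty (bN.ord.ToType ≃ F) := Cardinal.eq.1 (by simp [h2])
  obtain ⟨f, hf⟩ := TStar.rec_o (T := bN.ord.ToType) (σ := ℕ → ℕ)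
    (fun a g s => (∀ n, (e a).1 n ≤ s n) ∧ ∀ b, ∀ᶠ n in atTop, g b n < s n) fun a g _ => by
      obtain ⟨h, hh⟩ := bdd (by simpa using mk_Iio_lt a (by simp)) g
      exact ⟨fun n => (e a).1 n + h n + 1, fun n => by beta_reduce; omega,
        fun b => (hh b).mono fun n c => by beta_reduce; omega⟩
  refine ⟨f, fun a b c => (hf b).2 ⟨a, c⟩, fun g => ?_⟩
  obtain ⟨h, a, b⟩ := h1 g
  refine ⟨e.symm ⟨h, a⟩, fun c => ?_⟩
  obtain ⟨n, d, k⟩ := (b.and_eventually c).exists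
  have := (hf (e.symm ⟨h, a⟩)).1 n
  simp only [Equiv.apply_symm_apply] at this
  omega

theorem b_mem {S : Set ℕ} (h1 : 1 ∈ S) {P : Set (Set (ℕ → Bool)) → Prop}
    (hP : ∀ Q : (ℕ → ℕ) → Prop, P {A | ∃ l : List (ℕ → ℕ), l.length ∈ S ∧ (∀ g ∈ l, Q g) ∧
      A ⊆ ⋃ g ∈ l, B S g}) : bN.ord ∈ lens P (II S) := by
  obtain ⟨f, f1, f2⟩ := scale
  refine ⟨isSuccLimit_ord aleph0_lt_b.le, fun a => {A | ∃ l : List (ℕ → ℕ), l.length ∈ S ∧
    (∀ g ∈ l, ¬∀ᶠ n in atTop, f a n ≤ g n) ∧ A ⊆ ⋃ g ∈ l, B S g}, fun a b c =>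
    ⟨fun A ⟨l, d, e, k⟩ => ⟨l, d, fun g u v => e g u (((f1 a b c).and v).mono fun n w =>
      w.1.le.trans w.2), k⟩, fun d => ?_⟩, fun a => hP _,
    Subset.antisymm (iUnion_subset ?_) fun A ⟨g, c⟩ => ?_⟩
  · obtain ⟨l, u, v, w⟩ := d (a := B S (f a)) ⟨[f a], h1, fun g e k => by
      obtain ⟨n, u, v⟩ := ((f1 a b c).and k).exists
      rw [List.mem_singleton.1 e] at v
      omega, by simp⟩
    exact B_prime l u v w
  · rintro a A ⟨l, -, -, c⟩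
    obtain ⟨g, hg⟩ := bdd (l.finite_toSet.lt_aleph0.trans aleph0_lt_b) fun g => g.1
    exact ⟨g, c.trans (iUnion₂_subset fun h d => B_mono S (hg ⟨h, d⟩))⟩
  · obtain ⟨a, d⟩ := f2 g
    exact mem_iUnion.2 ⟨a, [g], h1, by simpa using d, by simpa using c⟩

theorem partA (h : bN < gNum) : Below (lens Down (II {1})) (lens Idl (II {1})) :=
  ⟨_, b_mem (S := {1}) rfl fun _ _ ⟨l, a, b, c⟩ _ d => ⟨l, a, b, d.trans c⟩, fun _ c =>
    (ord_lt_ord.2 h).trans_le (g_le (fun _ a => ⟨a, fun _ b => b 1 rfl⟩) c)⟩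

theorem partB (h : bN < gNum) : Below (lens Idl (II Set.univ)) (lens SIdl (II Set.univ)) := by
  refine ⟨_, b_mem (S := Set.univ) trivial fun _ => ⟨fun _ ⟨l, a, b, c⟩ _ d => ⟨l, a, b, d.trans c⟩,
    ⟨[], trivial, by simp, empty_subset _⟩, fun _ ⟨l, _, b, c⟩ _ ⟨l', _, b', c'⟩ =>
      ⟨l ++ l', trivial, fun g d => (List.mem_append.1 d).elim (b g) (b' g), ?_⟩⟩, fun _ c =>
    (ord_lt_ord.2 h).trans_le (g_le (fun J a => ⟨⟨a.1, a.2.1, fun A u C v => ?_⟩,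
      fun f b => a.1 _ (a.2.2 _ fun N => b N trivial) _ fun z ⟨N, _, d⟩ =>
        mem_iUnion.2 ⟨N, N, rfl, d⟩⟩) c)⟩
  · exact union_subset (c.trans (iUnion₂_subset fun g d => subset_iUnion₂_of_subset g
      (List.mem_append_left _ d) Subset.rfl)) (c'.trans (iUnion₂_subset fun g d =>
        subset_iUnion₂_of_subset g (List.mem_append_right _ d) Subset.rfl))
  · refine a.1 _ (a.2.2 (fun n => if n = 0 then A else C) fun n => by split_ifs <;> assumption) _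
      (union_subset (subset_iUnion_of_subset 0 (by simp)) (subset_iUnion_of_subset 1 (by simp)))

theorem partC : BorelI {A | A.Countable} ∧ Below (lens SIdl {A : Set (ℕ → Bool) | A.Countable})
    (lens (fun J => SIdl J ∧ ∀ x, {x} ∈ J) {A : Set (ℕ → Bool) | A.Countable}) := by
  refine ⟨⟨⟨fun _ a _ b => a.mono b, countable_empty, fun _ => countable_iUnion⟩, fun A a =>
    ⟨A, a, by rw [← BorelSpace.measurable_eq (α := ℕ → Bool)]; exact a.measurableSet, Subset.rfl⟩⟩,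
    Ordinal.omega 1, ⟨isSuccLimit_omega 1, ?_⟩, fun δ ⟨h1, J, h2, h3, h4⟩ => ?_⟩
  · obtain ⟨e⟩ : Nonempty (Dirac.W ↪ (ℕ → Bool)) := by
      rw [← Cardinal.le_def, Dirac.W_card]
      simpa using aleph_one_le_continuum
    refine ⟨fun a => {A | A.Countable ∧ ∀ b, e b ∈ A → b < a}, fun a b c => ⟨fun A h =>
      ⟨h.1, fun d f => (h.2 d f).trans c⟩, fun d => lt_irrefl a ((d (a := {e a})
        ⟨countable_singleton _, fun _ f => e.injective f ▸ c⟩).2 a rfl)⟩, fun a =>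
      ⟨fun _ h _ c => ⟨h.1.mono c, fun b d => h.2 b (c d)⟩, ⟨countable_empty, fun _ => False.elim⟩,
        fun A h => ⟨countable_iUnion fun n => (h n).1, fun b c => ?_⟩⟩,
      Subset.antisymm (iUnion_subset fun _ _ h => h.1) fun A h => ?_⟩
    · obtain ⟨n, c⟩ := mem_iUnion.1 c
      exact (h n).2 b c
    · obtain ⟨a, c⟩ := Dirac.bdd _ (h.preimage e.injective)
      exact mem_iUnion.2 ⟨a, h, c⟩
  · have : NoMaxOrder δ.ToType :=
      Ordinal.isSuccPrelimit_type_lt_iff.1 (by simpa using h1.isSuccPrelimit)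
    obtain ⟨a⟩ := Ordinal.nonempty_toType_iff.2 h1.ne_bot
    obtain ⟨b, hb⟩ := exists_gt a
    obtain ⟨A, c, d⟩ := exists_of_ssubset (h2 hb)
    have e : A.Countable := (h4 ▸ mem_iUnion.2 ⟨b, c⟩ : A ∈ {A : Set (ℕ → Bool) | A.Countable})
    obtain ⟨g, hg⟩ := (e.insert 0).exists_eq_range (insert_nonempty _ _)
    refine (d ((h3 a).1.1 _ ((h3 a).1.2.2 (fun n => {g n}) fun n => (h3 a).2 _) _ ?_)).elim
    rw [iUnion_singleton_eq_range, ← hg]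
    exact subset_insert _ _

end Pool.Agent.H42.Cofin
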