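import Mathlib

/-! Additivity and lengths of increasing chains with a given union. -/

namespace Pool.Agent.H42.Cofin

open Cardinal

variable {X : Type}

/-- closed under subsets -/
def Down (J : Set (Set X)) : Prop := ∀ A ∈ J, ∀ B ⊆ A, B ∈ J

/-- closed under subsets and finite unions -/
def Idl (J : Set (Set X)) : Prop := Down J ∧ ∅ ∈ J ∧ ∀ A ∈ J, ∀ B ∈ J, A ∪ B ∈ J

/-- closed under subsets and countable unions -/
def SIdl (J : Set (Set X)) : Prop :=
  Down J ∧ ∅ ∈ J ∧ ∀ A : ℕ → Set X, (∀ n, A n ∈ J) → ⋃ n, A n ∈ J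

/-- the limit ordinals `γ` such that `I` is the union of a strictly increasing `γ`-sequence of
families with property `P` -/
def lens (P : Set (Set X) → Prop) (I : Set (Set X)) : Set Ordinal.{0} :=
  {γ | Order.IsSuccLimit γ ∧
    ∃ J : γ.ToType → Set (Set X), StrictMono J ∧ (∀ a, P (J a)) ∧ ⋃ a, J a = I}

/-- the additivity -/
noncomputable def addN (I : Set (Set X)) : Cardinal.{0} :=
  sInf {c | ∃ F ⊆ I, #F = c ∧ ⋃₀ F ∉ I}

end Pool.Agent.H42.Cofin
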