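import Pool.Agent.H42.TauDefs

/-! `Split(Λ, Λ)`, the reaping number and the groupwise density number. -/

namespace Pool.Agent.H42.Spl

open Cardinal Pool.Agent.H42.Tau

/-- `Split(Λ, Λ)` -/
def SplitL (Z : Type) [TopologicalSpace Z] : Prop :=
  ∀ 𝒰 : Set (Set Z), Large 𝒰 → ∃ 𝒱 𝒲, 𝒱 ∪ 𝒲 = 𝒰 ∧ Disjoint 𝒱 𝒲 ∧
    (∃ 𝒱' ⊆ 𝒱, Large 𝒱') ∧ ∃ 𝒲' ⊆ 𝒲, Large 𝒲'

/-- the reaping number -/
noncomputable def rNum : Cardinal.{0} :=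
  sInf {c | ∃ R : Set (Set ℕ), #R = c ∧ (∀ r ∈ R, r.Infinite) ∧
    ∀ A : Set ℕ, ∃ r ∈ R, (r \ A).Finite ∨ (r ∩ A).Finite}

/-- groupwise dense families -/
def GD (G : Set (Set ℕ)) : Prop :=
  (∀ Z ∈ G, Z.Infinite) ∧ (∀ Z ∈ G, ∀ Z' : Set ℕ, Z'.Infinite → (Z' \ Z).Finite → Z' ∈ G) ∧
    ∀ p : ℕ → ℕ, StrictMono p →
      ∃ I : Set ℕ, I.Infinite ∧ (⋃ n ∈ I, Set.Ico (p n) (p (n + 1))) ∈ G

/-- the groupwise density number -/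
noncomputable def gNum : Cardinal.{0} :=
  sInf {c | ∃ 𝔊 : Set (Set (Set ℕ)), #𝔊 = c ∧ (∀ G ∈ 𝔊, GD G) ∧ ⋂₀ 𝔊 = ∅}

/-- the product of a compact space and a `Split(Λ, Λ)` space is `Split(Λ, Λ)` -/
def ProdQ : Prop :=
  ∀ (X Y : Type) [TopologicalSpace X] [TopologicalSpace Y]
    [TopologicalSpace.SeparableSpace X] [TopologicalSpace.MetrizableSpace X]
    [TopologicalSpace.SeparableSpace Y] [TopologicalSpace.MetrizableSpace Y] [CompactSpace X],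
    SplitL Y → SplitL (X × Y)

end Pool.Agent.H42.Spl
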