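import Pool.Agent.H42.CofinDefs
import Pool.Agent.H42.SplDefs
import Pool.Agent.H42.IMeag

/-! Borel sigma-ideals on the Cantor space. -/

namespace Pool.Agent.H42.Cofin

/-- a sigma-ideal each member of which lies in a Borel member -/
def BorelI (I : Set (Set (ℕ → Bool))) : Prop :=
  SIdl I ∧ ∀ A ∈ I, ∃ B ∈ I, @MeasurableSet _ (borel _) B ∧ A ⊆ B

/-- the least element of `L` exists and is below the least element of `L'`, which is infinity
when `L'` is empty -/
def Below (L L' : Set Ordinal.{0}) : Prop := ∃ γ ∈ L, ∀ δ ∈ L', γ < δ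

end Pool.Agent.H42.Cofin
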