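import Pool.Agent.H42.Bau6

/-! The cofinality of the strong measure zero ideal and `𝔟`. -/

namespace Pool.Agent.H42.Bau

open Set Cardinal Filter Topology PiNat IMeag

/-- the least size of a subset of the Cantor space that is not strong measure zero -/
noncomputable def nonSN : Cardinal.{0} := sInf {c | ∃ A : Set (ℕ → Bool), ¬ SN A ∧ #A = c}

/-- the cofinality of the strong measure zero ideal -/
noncomputable def cofSN : Cardinal.{0} :=
  sInf {c | ∃ F : Set (Set (ℕ → Bool)), (∀ A ∈ F, SN A) ∧ (∀ A, SN A → ∃ B ∈ F, A ⊆ B) ∧ #F = c}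

theorem sn_countable {A : Set (ℕ → Bool)} (h : A.Countable) : SN A := fun _ => by
  obtain ⟨e, he⟩ := (h.insert fun _ => true).exists_eq_range (insert_nonempty _ _)
  refine ⟨e, fun x a => ?_⟩
  obtain ⟨n, rfl⟩ : x ∈ range e := he ▸ Or.inr a
  exact ⟨n, fun _ _ => rfl⟩

theorem cof_gt (h : ∀ A : Set (ℕ → Bool), #A < bN → SN A) : bN < cofSN := by
  classical
  by_contra c
  obtain ⟨F, h1, h2, h3⟩ := csInf_mem (s := {c | ∃ F : Set (Set (ℕ → Bool)), (∀ A ∈ F, SN A) ∧
    (∀ A, SN A → ∃ B ∈ F, A ⊆ B) ∧ #F = c}) ⟨_, {A | SN A}, fun _ => id,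
      fun A a => ⟨A, a, Subset.rfl⟩, rfl⟩
  obtain ⟨ι⟩ : Nonempty (F ↪ bN.ord.ToType) := by
    rw [← Cardinal.le_def]; simpa using h3.le.trans (not_lt.1 c)
  obtain ⟨f, f0, f1, f2⟩ := mscale
  let X : (ℕ → ℕ) → ℕ → Bool := fun g n => decide (n.unpair.2 ≤ g n.unpair.1)
  let G : (Σ k, Fin k → ℕ) → ℕ → Bool := fun σ n =>
    if h : n.unpair.1 < σ.1 then decide (n.unpair.2 ≤ σ.2 ⟨_, h⟩) else true
  have ex : ∀ B : F, ∃ g, Monotone g ∧ f (ι B) ≤ g ∧ X g ∉ B.1 := fun B => by
    obtain ⟨s, hs⟩ := h1 _ B.2 fun n => Nat.pair n (f (ι B) n + n + 1) + 1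
    refine ⟨fun n => f (ι B) n + n + if s n (Nat.pair n (f (ι B) n + n + 1)) then 0 else 1,
      monotone_nat_of_le_succ fun n => ?_, fun n => by beta_reduce; omega, fun a => ?_⟩
    · have := f0 (ι B) n.le_succ
      simp only [Nat.succ_eq_add_one] at this
      split_ifs <;> omega
    · obtain ⟨n, d⟩ := hs _ a
      have := d _ (Nat.lt_succ_self _)
      cases e : s n (Nat.pair n (f (ι B) n + n + 1)) <;> simp [X, e] at this
  choose g g1 g2 g3 using ex
  suffices SN (range fun B => X (g B)) by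
    obtain ⟨B, a, b⟩ := h2 _ this
    exact g3 ⟨B, a⟩ (b ⟨_, rfl⟩)
  intro k
  obtain ⟨e, he⟩ := exists_surjective_nat (Σ k, Fin k → ℕ)
  let U := ⋃ n, cylinder (G (e n)) (k (2 * n))
  have hb : ∀ n, ∃ b, ∀ a, X (g a) ∉ U → g a n ≤ b := fun n => by
    induction n using Nat.strong_induction_on with
    | _ n ih =>
    choose b hb using fun i : Fin n => ih i i.2
    choose L hL using fun s => ex_cyl (O := U) (isOpen_iUnion fun _ => isOpen_cylinder _ _ _)
      (x := G ⟨n, s⟩) (by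
        obtain ⟨m, a⟩ := he ⟨n, s⟩
        exact mem_iUnion.2 ⟨m, a ▸ self_mem_cylinder _ _⟩)
    obtain ⟨N, hN⟩ := ((Finite.pi fun i => finite_Iic (b i)).image L).bddAbove
    refine ⟨N, fun a d => not_lt.1 fun k => d (hL (fun i => g a i) fun i m => ?_)⟩
    have := hN ⟨fun i => g a i, fun i _ => hb i a d, rfl⟩
    by_cases w : i.unpair.1 < n
    · simp [X, G, w]
    · have := g1 a (not_lt.1 w)
      have := Nat.unpair_right_le i
      simp only [X, G, dif_neg w]
      exact decide_eq_true (by omega)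
  choose b hb using hb
  obtain ⟨a, ha⟩ := f2 b
  have small : #((fun B => X (g B)) '' (ι ⁻¹' Iio a)) < bN :=
    mk_image_le.trans_lt ((mk_preimage_of_injective _ _ ι.injective).trans_lt
      (by simpa using mk_Iio_lt a (by simp)))
  obtain ⟨s, hs⟩ := h _ small fun n => k (2 * n + 1)
  refine ⟨fun n => if n % 2 = 0 then G (e (n / 2)) else s (n / 2), ?_⟩
  rintro _ ⟨B, rfl⟩
  by_cases d : X (g B) ∈ U
  · obtain ⟨n, w⟩ := mem_iUnion.1 d
    exact ⟨2 * n, fun i m => by simpa using w i m⟩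
  · have hv : ι B < a := not_le.1 fun v => ha (by
      have : ∀ᶠ n in atTop, f a n ≤ f (ι B) n := v.eq_or_lt.elim (fun e => by simp [e])
        fun e => (f1 _ _ e).mono fun _ => le_of_lt
      exact this.mono fun n m => m.trans ((g2 B n).trans (hb n B d)))
    obtain ⟨n, w⟩ := hs _ ⟨B, hv, rfl⟩
    refine ⟨2 * n + 1, fun i m => ?_⟩
    beta_reduce
    rw [if_neg (by omega), show (2 * n + 1) / 2 = n by omega]
    exact w i m

end Pool.Agent.H42.Bau
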