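import Pool.Agent.H42.Reg

/-! A transitive distance function on a successor cardinal and a colouring of its cube. -/

namespace Pool.Agent.H42.Cube

open Cardinal Set Pool.Agent.H42.Reg

universe u

theorem exists_rho {κ : Cardinal.{u}} (hκ : ℵ₀ ≤ κ) {T : Type u} [LinearOrder T] [WellFoundedLT T]
    (hT : ∀ c : T, #(Iio c) ≤ κ) :
    ∃ ρ : T → T → κ.ord.ToType,
      (∀ a b c, a < b → b < c → ρ a c ≤ max (ρ a b) (ρ b c)) ∧
      ∀ c ν, #{a | a < c ∧ ρ a c ≤ ν} < κ := by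
  classical
  have hK : #κ.ord.ToType = κ := mk_ord_toType κ
  have hne : Nonempty κ.ord.ToType := by
    rw [← mk_ne_zero_iff, hK]; exact (aleph0_pos.trans_le hκ).ne'
  have he : ∀ c : T, ∃ e : T → κ.ord.ToType, InjOn e (Iio c) := by
    intro c
    have : #(Iio c) ≤ #κ.ord.ToType := by rw [hK]; exact hT c
    obtain ⟨f⟩ := (Cardinal.le_def _ _).1 this
    refine ⟨fun a => if h : a < c then f ⟨a, h⟩ else hne.some, fun a ha b hb hab => ?_⟩
    simp only [mem_Iio] at ha hb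
    simp only [ha, hb, dif_pos] at hab
    exact congrArg Subtype.val (f.injective hab)
  choose e he using he
  let step : κ.ord.ToType → T → T → Prop := fun ν a b => a < b ∧ e b a ≤ ν
  let F : κ.ord.ToType → T → T → Prop := fun ν => Relation.TransGen (step ν)
  have hmono : ∀ ν ν', ν ≤ ν' → ∀ a b, F ν a b → F ν' a b := by
    intro ν ν' h a b hab
    induction hab with
    | single hxy => exact Relation.TransGen.single ⟨hxy.1, hxy.2.trans h⟩
    | tail _ hxy ih => exact Relation.TransGen.tail ih ⟨hxy.1, hxy.2.trans h⟩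
  have hex : ∀ a c, ∃ ν, a < c → F ν a c ∧ ∀ ν', F ν' a c → ν ≤ ν' := by
    intro a c
    by_cases hac : a < c
    · obtain ⟨ν, h1, h2⟩ := exists_min (fun ν => F ν a c)
        ⟨e c a, Relation.TransGen.single ⟨hac, le_rfl⟩⟩
      exact ⟨ν, fun _ => ⟨h1, fun ν' h => not_lt.1 fun hc => h2 _ hc h⟩⟩
    · exact ⟨hne.some, fun h => absurd h hac⟩
  choose ρ hρ using hex
  refine ⟨ρ, fun a b c hab hbc => ?_, fun c ν => ?_⟩
  · apply (hρ a c (hab.trans hbc)).2
    exact (hmono _ _ (le_max_left _ _) _ _ (hρ a b hab).1).trans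
      (hmono _ _ (le_max_right _ _) _ _ (hρ b c hbc).1)
  · have hν : #(Iic ν) < κ := by
      have h1 : #(Iio ν) < κ := mk_Iio_toType_ord_lt ν
      have h2 : Iic ν = insert ν (Iio ν) := by
        ext x; simp [le_iff_eq_or_lt]
      rw [h2]
      exact mk_insert_le.trans_lt (add_lt_of_lt hκ h1 (one_lt_aleph0.trans_le hκ))
    obtain ⟨μ, hμ, hμκ, hνμ⟩ : ∃ μ : Cardinal.{u}, μ.IsRegular ∧ μ ≤ κ ∧ #(Iic ν) < μ := by
      rcases hκ.eq_or_lt with h | h
      · exact ⟨ℵ₀, isRegular_aleph0, hκ, h ▸ hν⟩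
      · refine ⟨Order.succ (max #(Iic ν) ℵ₀), isRegular_succ (le_max_right _ _),
          Order.succ_le_of_lt (max_lt hν h), (le_max_left _ _).trans_lt (Order.lt_succ _)⟩
    have key : ∀ c, #{a | F ν a c} < μ := by
      intro c
      induction c using WellFoundedLT.induction with
      | ind c ih =>
        have hs : #{b | step ν b c} < μ := by
          refine lt_of_le_of_lt ?_ hνμ
          refine mk_le_of_injective (f := fun b => ⟨e c b.1, b.2.2⟩) fun x y hxy => ?_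
          exact Subtype.ext (he c x.2.1 y.2.1 (congrArg Subtype.val hxy))
        have hsub : {a | F ν a c} ⊆ {b | step ν b c} ∪ ⋃ b ∈ {b | step ν b c}, {a | F ν a b} := by
          intro a ha
          rcases Relation.TransGen.tail'_iff.1 ha with ⟨b, h1, h2⟩
          rcases (Relation.reflTransGen_iff_eq_or_transGen.1 h1) with h | h
          · left; rw [← h]; exact h2
          · right; exact mem_biUnion h2 h
        refine (mk_le_mk_of_subset hsub).trans_lt ((mk_union_le _ _).trans_lt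
          (add_lt_of_lt hμ.aleph0_le hs ?_))
        exact (card_biUnion_lt_iff_forall_of_isRegular hμ hs).2 fun b hb => ih b hb.1
    refine lt_of_le_of_lt (mk_le_mk_of_subset ?_) ((key c).trans_le hμκ)
    intro a ha
    exact hmono _ _ ha.2 _ _ (hρ a c ha.1).1

section core

variable {κ : Cardinal.{u}} {T : Type u} [LinearOrder T] {K : Type u} [LinearOrder K]

/-- The comparison of two points as seen from `m`. -/
def Nearer (ρ : T → T → K) (m x y : T) : Prop := ρ x m < ρ y m ∨ (ρ x m = ρ y m ∧ x < y)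

theorem nearer_of_not {ρ : T → T → K} {m x y : T} (h : ¬ Nearer ρ m x y) (hxy : x ≠ y) :
    Nearer ρ m y x := by
  unfold Nearer at *
  push Not at h
  rcases h.1.eq_or_lt with h1 | h1
  · exact Or.inr ⟨h1, lt_of_le_of_ne (h.2 h1.symm) hxy.symm⟩
  · exact Or.inl h1

/-- `s` is the least bound below which `A` has `κ` points. -/
def Top (κ : Cardinal.{u}) (A : Set T) (s : T) : Prop :=
  κ ≤ #(A ∩ Iio s : Set T) ∧ ∀ t < s, #(A ∩ Iio t : Set T) < κ

theorem Top.above (hκ : ℵ₀ ≤ κ) {A : Set T} {s : T} (h : Top κ A s) {t : T} (ht : t < s) :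
    ∃ a ∈ A, t < a ∧ a < s := by
  by_contra hc
  push Not at hc
  have hsub : A ∩ Iio s ⊆ insert t (A ∩ Iio t) := by
    rintro a ⟨ha, has⟩
    rcases lt_trichotomy a t with h1 | h1 | h1
    · exact Or.inr ⟨ha, h1⟩
    · exact Or.inl h1
    · exact absurd has (not_lt.2 (hc a ha h1))
  have := h.1.trans ((mk_le_mk_of_subset hsub).trans mk_insert_le)
  exact this.not_gt (add_lt_of_lt hκ (h.2 t ht) (one_lt_aleph0.trans_le hκ))

theorem Top.nonempty (hκ : ℵ₀ ≤ κ) {A : Set T} {s : T} (h : Top κ A s) : ∃ a ∈ A, a < s := by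
  have : #(A ∩ Iio s : Set T) ≠ 0 := ((aleph0_pos.trans_le hκ).trans_le h.1).ne'
  obtain ⟨a, ha⟩ := mk_ne_zero_iff.1 this
  exact ⟨a, ha.1, ha.2⟩

/-- One of the three conditions of a monochromatic cube. -/
def Pat (ρ : T → T → K) (A B C : Set T) : Prop :=
  ∀ x ∈ A, ∀ y ∈ B, ∀ z ∈ C, x < z → y < z → x ≠ y → Nearer ρ z x y

theorem step_top (hκ : ℵ₀ ≤ κ) {ρ : T → T → K} (hρ : ∀ c ν, #{a | a < c ∧ ρ a c ≤ ν} < κ)
    {A B C : Set T} {a b c : T} (hA : Top κ A a) (hB : Top κ B b) (hC : Top κ C c)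
    (hP : Pat ρ A B C) (hac : a < c) (hbc : b ≤ c) : False := by
  obtain ⟨y, hy, hyb⟩ := hB.nonempty hκ
  obtain ⟨z, hz, hz1, -⟩ := hC.above hκ (max_lt hac (hyb.trans_le hbc))
  have haz : a < z := (le_max_left _ _).trans_lt hz1
  have hyz : y < z := (le_max_right _ _).trans_lt hz1
  have : ∃ x ∈ A, x < a ∧ ρ y z < ρ x z := by
    by_contra hc
    push Not at hc
    have hsub : A ∩ Iio a ⊆ {x | x < z ∧ ρ x z ≤ ρ y z} := fun x hx =>
      ⟨hx.2.trans haz, hc x hx.1 hx.2⟩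
    exact (hA.1.trans (mk_le_mk_of_subset hsub)).not_gt (hρ _ _)
  obtain ⟨x, hx, hxa, hlt⟩ := this
  have hne : x ≠ y := by rintro rfl; exact lt_irrefl _ hlt
  rcases hP x hx y hy z hz (hxa.trans haz) hyz hne with h | h
  · exact lt_asymm h hlt
  · exact hlt.ne' h.1

theorem descend {ρ : T → T → K} (ht : ∀ a b c, a < b → b < c → ρ a c ≤ max (ρ a b) (ρ b c))
    {A B C : Set T} (hP : Pat ρ A B C) {x y z : T} (hx : x ∈ A) (hy : y ∈ B) (hz : z ∈ C)
    (hyx : y < x) (hxz : x < z) : ρ x z < ρ y x := by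
  have h1 : ρ x z < ρ y z := by
    rcases hP x hx y hy z hz hxz (hyx.trans hxz) hyx.ne' with h | h
    · exact h
    · exact absurd h.2 hyx.not_gt
  rcases le_max_iff.1 (ht y x z hyx hxz) with h | h
  · exact h1.trans_le h
  · exact absurd h h1.not_ge

theorem core [WellFoundedLT T] [WellFoundedLT K] (hκ : ℵ₀ ≤ κ) {ρ : T → T → K}
    (ht : ∀ a b c, a < b → b < c → ρ a c ≤ max (ρ a b) (ρ b c))
    (hρ : ∀ c ν, #{a | a < c ∧ ρ a c ≤ ν} < κ)
    {A B C : Set T} {a b c : T} (hA : Top κ A a) (hB : Top κ B b) (hC : Top κ C c)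
    (h1 : Pat ρ A B C) (h2 : Pat ρ B C A) (h3 : Pat ρ C A B) : False := by
  have e1 : b ≤ c → c ≤ a := fun h => not_lt.1 fun h' => step_top hκ hρ hA hB hC h1 h' h
  have e2 : c ≤ a → a ≤ b := fun h => not_lt.1 fun h' => step_top hκ hρ hB hC hA h2 h' h
  have e3 : a ≤ b → b ≤ c := fun h => not_lt.1 fun h' => step_top hκ hρ hC hA hB h3 h' h
  have hall : b ≤ c ∧ c ≤ a ∧ a ≤ b := by
    by_cases hbc : b ≤ c
    · exact ⟨hbc, e1 hbc, e2 (e1 hbc)⟩
    · by_cases hca : c ≤ a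
      · exact ⟨e3 (e2 hca), hca, e2 hca⟩
      · have hab : a ≤ b := ((not_le.1 hca).trans (not_le.1 hbc)).le
        exact absurd (e3 hab) hbc
  have hb : b = a := le_antisymm (hall.1.trans hall.2.1) hall.2.2
  have hc : c = a := le_antisymm hall.2.1 (hall.2.2.trans hall.1)
  rw [hb] at hB
  rw [hc] at hC
  have key : ∀ ν : K, ∀ p q, p < q → q < a → ρ p q = ν →
      ((p ∈ B ∧ q ∈ A) ∨ (p ∈ A ∧ q ∈ C) ∨ (p ∈ C ∧ q ∈ B)) → False := by
    intro ν
    induction ν using WellFoundedLT.induction with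
    | ind ν ih =>
      intro p q hpq hqa hν h
      rcases h with h | h | h
      · obtain ⟨z, hz, hqz, hza⟩ := hC.above hκ hqa
        exact ih _ (hν ▸ descend ht h1 h.2 h.1 hz hpq hqz) q z hqz hza rfl
          (Or.inr (Or.inl ⟨h.2, hz⟩))
      · obtain ⟨z, hz, hqz, hza⟩ := hB.above hκ hqa
        exact ih _ (hν ▸ descend ht h3 h.2 h.1 hz hpq hqz) q z hqz hza rfl
          (Or.inr (Or.inr ⟨h.2, hz⟩))
      · obtain ⟨z, hz, hqz, hza⟩ := hA.above hκ hqa
        exact ih _ (hν ▸ descend ht h2 h.2 h.1 hz hpq hqz) q z hqz hza rfl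
          (Or.inl ⟨h.2, hz⟩)
  obtain ⟨p, hp, hpa⟩ := hB.nonempty hκ
  obtain ⟨q, hq, hpq, hqa⟩ := hA.above hκ hpa
  exact key _ p q hpq hqa rfl (Or.inl ⟨hp, hq⟩)

end core

theorem exists_top {κ : Cardinal.{u}} {T : Type u} [LinearOrder T] [WellFoundedLT T]
    (hT : RegUnc T) (hκ : κ < #T) {A : Set T} (hA : κ ≤ #A) : ∃ s, Top κ A s := by
  obtain ⟨A', hA', hc⟩ := le_mk_iff_exists_subset.1 hA
  obtain ⟨b, hb⟩ := hT.bdd A' (hc ▸ hκ)
  obtain ⟨s, h1, h2⟩ := exists_min (fun s => κ ≤ #(A ∩ Iio s : Set T))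
    ⟨b, hc ▸ mk_le_mk_of_subset fun x hx => ⟨hA' hx, hb x hx⟩⟩
  exact ⟨s, h1, fun t ht => not_le.1 (h2 t ht)⟩

theorem cube {κ : Cardinal.{u}} (hκ : ℵ₀ ≤ κ) :
    ∃ c : (Order.succ κ).ord.ToType → (Order.succ κ).ord.ToType → (Order.succ κ).ord.ToType → Bool,
      ∀ H I J : Set (Order.succ κ).ord.ToType, κ ≤ #H → κ ≤ #I → κ ≤ #J → ∀ i : Bool,
        ∃ x ∈ H, ∃ y ∈ I, ∃ z ∈ J, c x y z = i := by
  classical
  have hT : RegUnc (Order.succ κ).ord.ToType :=
    regUnc_toType (isRegular_succ hκ) (hκ.trans_lt (Order.lt_succ κ))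
  have hcard : #(Order.succ κ).ord.ToType = Order.succ κ := mk_ord_toType _
  obtain ⟨ρ, ht, hρ⟩ := exists_rho hκ (T := (Order.succ κ).ord.ToType)
    (fun c => Order.lt_succ_iff.1 ((hT.init c).trans_eq hcard))
  refine ⟨fun x y z => decide (if x < z ∧ y < z then Nearer ρ z x y else
    if y < x ∧ z < x then Nearer ρ x y z else Nearer ρ y z x), fun H I J hH hI hJ i => ?_⟩
  have hlt : κ < #(Order.succ κ).ord.ToType := by rw [hcard]; exact Order.lt_succ κ
  obtain ⟨a, ha⟩ := exists_top hT hlt hH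
  obtain ⟨b, hb⟩ := exists_top hT hlt hI
  obtain ⟨c, hc⟩ := exists_top hT hlt hJ
  by_contra hcon
  push Not at hcon
  cases i with
  | false =>
    simp only [ne_eq, decide_eq_false_iff_not, not_not] at hcon
    refine core hκ ht hρ ha hb hc ?_ ?_ ?_
    · intro x hx y hy z hz h1 h2 _
      have := hcon x hx y hy z hz
      rwa [if_pos ⟨h1, h2⟩] at this
    · intro y hy z hz x hx h1 h2 _
      have := hcon x hx y hy z hz
      rwa [if_neg (fun h => lt_asymm h.1 h2), if_pos ⟨h1, h2⟩] at this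
    · intro z hz x hx y hy h1 h2 _
      have := hcon x hx y hy z hz
      rwa [if_neg (fun h => lt_asymm h.2 h1), if_neg (fun h => lt_asymm h.1 h2)] at this
  | true =>
    simp only [ne_eq, decide_eq_true_eq] at hcon
    refine core hκ ht hρ hb ha hc ?_ ?_ ?_
    · intro y hy x hx z hz h1 h2 h3
      have := hcon x hx y hy z hz
      rw [if_pos ⟨h2, h1⟩] at this
      exact nearer_of_not this h3.symm
    · intro x hx z hz y hy h1 h2 h3
      have := hcon x hx y hy z hz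
      rw [if_neg (fun h => lt_asymm h.2 h2), if_neg (fun h => lt_asymm h.1 h1)] at this
      exact nearer_of_not this h3.symm
    · intro z hz y hy x hx h1 h2 h3
      have := hcon x hx y hy z hz
      rw [if_neg (fun h => lt_asymm h.1 h1), if_pos ⟨h2, h1⟩] at this
      exact nearer_of_not this h3.symm

end Pool.Agent.H42.Cube
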