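import Pool.Agent.H42.WeakDiamond

/-! Monochromatic sets for colourings that are regressive with respect to the first difference. -/

namespace Pool.Agent.H42.DeltaReg

open Cardinal Set Pool.Agent.H42.Reg Pool.Agent.H42.WeakDiamond

universe u

theorem mono_core {T : Type u} [LinearOrder T] [WellFoundedLT T] (h : RegUnc T) (M : Type u)
    (hM : #M < #T) (hM0 : ℵ₀ ≤ #M) (hT : #T ≤ 2 ^ #M)
    (hpow : ∀ ν < #T, (2 : Cardinal.{u}) ^ ν ≤ 2 ^ #M) (hlt : (2 : Cardinal.{u}) ^ #M < 2 ^ #T)
    (m : T) (c : (T → Bool) → (T → Bool) → T) (hsymm : ∀ x y, c x y = c y x)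
    (hreg : ∀ x y δ, x δ ≠ y δ → (∀ i < δ, x i = y i) → m < δ → c x y < δ) :
    ∃ Y : Set (T → Bool), #Y = #T ∧ ∃ col, ∀ x ∈ Y, ∀ y ∈ Y, x ≠ y →
      c x y = col ∧ ∀ i ≤ m, x i = y i := by
  classical
  let Spl : (T → Bool) → T → (T → Bool) → Prop := fun x δ y => (∀ i < δ, y i = x i) ∧ y δ ≠ x δ
  let Good : (T → Bool) → T → (T → T → Bool) → (T → Bool) → Prop := fun x δ prev y =>
    Spl x δ y ∧ ∀ η < δ, c (prev η) y = c (prev η) x
  let P : (T → Bool) → T → (T → T → Bool) → (T → Bool) → Prop := fun x δ prev y =>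
    Spl x δ y ∧ ((∃ y', Good x δ prev y') → Good x δ prev y)
  have hPex : ∀ x δ prev, ∃ y, P x δ prev y := by
    intro x δ prev
    by_cases hg : ∃ y', Good x δ prev y'
    · obtain ⟨y, hy⟩ := hg
      exact ⟨y, hy.1, fun _ => hy⟩
    · refine ⟨Function.update x δ (!x δ), ⟨fun i hi => ?_, ?_⟩, fun hh => absurd hh hg⟩
      · rw [Function.update_of_ne hi.ne]
      · simp
  have hPcongr : ∀ x x' δ prev prev', (∀ i ≤ δ, x i = x' i) → (∀ η < δ, prev η = prev' η) →
      (∀ η < δ, c (prev η) x = c (prev' η) x') → P x δ prev = P x' δ prev' := by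
    intro x x' δ prev prev' h1 h2 h3
    have hS : Spl x δ = Spl x' δ := by
      funext y
      apply propext
      simp only [Spl]
      rw [h1 δ le_rfl]
      refine and_congr_left fun _ => forall_congr' fun i => forall_congr' fun hi => ?_
      rw [h1 i hi.le]
    have hG : Good x δ prev = Good x' δ prev' := by
      funext y
      apply propext
      simp only [Good]
      rw [hS]
      refine and_congr_right fun _ => forall_congr' fun i => forall_congr' fun hi => ?_
      rw [h3 i hi, h2 i hi]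
    funext y
    simp only [P]
    rw [hS, hG]
  have hZex : ∀ x : T → Bool, ∃ Z : T → T → Bool, ∀ δ, Z δ = Classical.epsilon (P x δ Z) := by
    intro x
    apply exists_rec x (fun δ prev => Classical.epsilon (P x δ prev))
    intro δ f f' hf
    rw [hPcongr x x δ f f' (fun _ _ => rfl) hf (fun η hη => by rw [hf η hη])]
  choose Z hZ using hZex
  have hZP : ∀ x δ, P x δ (Z x) (Z x δ) := by
    intro x δ
    have := Classical.epsilon_spec (hPex x δ (Z x))
    rwa [← hZ] at this
  let t : (T → Bool) → T → T := fun x η => c (Z x η) x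
  have hloc : ∀ x x' δ, (∀ i < δ, x i = x' i) → (∀ i < δ, t x i = t x' i) →
      ∀ η < δ, Z x η = Z x' η := by
    intro x x' δ h1 h2 η
    induction η using WellFoundedLT.induction with
    | ind η ih =>
      intro hη
      rw [hZ x η, hZ x' η, hPcongr x x' η (Z x) (Z x') (fun i hi => h1 i (hi.trans_lt hη))
        (fun i hi => ih i hi (hi.trans hη)) (fun i hi => h2 i (hi.trans hη))]
  let S : (T → Bool) → T → Prop := fun x δ => ∃ y', Good x δ (Z x) y'
  by_contra hno
  have hZinj : ∀ x, Function.Injective (Z x) := by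
    intro x a b hab
    by_contra hne
    rcases lt_or_gt_of_ne hne with hl | hl
    · exact (hZP x a).1.2 (hab ▸ (hZP x b).1.1 a hl)
    · exact (hZP x b).1.2 (hab ▸ (hZP x a).1.1 b hl)
  have hthin : ∀ x col, ∃ b, ∀ δ ∈ {δ | S x δ ∧ m < δ ∧ t x δ = col}, δ < b := by
    intro x col
    apply h.bdd
    refine lt_of_le_of_ne (mk_set_le _) fun hc => hno ?_
    refine ⟨Z x '' {δ | S x δ ∧ m < δ ∧ t x δ = col}, by rw [mk_image_eq (hZinj x), hc], col, ?_⟩
    rintro _ ⟨a, ha, rfl⟩ _ ⟨b, hb, rfl⟩ hab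
    refine ⟨?_, fun i hi => ?_⟩
    · have hne : a ≠ b := fun hh => hab (by rw [hh])
      rcases lt_or_gt_of_ne hne with hl | hl
      · rw [((hZP x b).2 hb.1).2 a hl]; exact ha.2.2
      · rw [hsymm, ((hZP x a).2 ha.1).2 b hl]; exact hb.2.2
    · rw [(hZP x a).1.1 i (hi.trans_lt ha.2.1), (hZP x b).1.1 i (hi.trans_lt hb.2.1)]
  choose g hg using hthin
  let Q : T → (T → Bool × T) → Bool → Prop := fun δ H b =>
    ∃ x, (∀ i < δ, H i = (x i, t x i)) ∧ ¬ S x δ ∧ x δ = b
  refine hlt.not_ge (ds h M (Bool × T) hM hM0 hT ?_ hpow m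
    (fun δ H => Classical.epsilon (Q δ H)) ?_ ?_)
  · have : #(Bool × T) = 2 * #T := by simp
    rw [this]
    have h2 : ℵ₀ ≤ (2 : Cardinal.{u}) ^ #M := h.inf.trans hT
    exact mul_le_of_le h2 ((natCast_le_aleph0 (n := 2)).trans h2) hT
  · intro δ H H' hH
    have : Q δ H = Q δ H' := by
      funext b
      apply propext
      simp only [Q]
      refine exists_congr fun x => and_congr_left fun _ =>
        forall_congr' fun i => forall_congr' fun hi => ?_
      rw [hH i hi]
    simp only [this]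
  · intro x
    refine ⟨fun i => (x i, t x i), g x, fun δ hδ hcl => ?_⟩
    have hS : ¬ S x δ := by
      intro hS
      have h1 : t x δ < δ := hreg _ _ δ (hZP x δ).1.2 (hZP x δ).1.1 hδ
      exact (hg x (t x δ) δ ⟨hS, hδ, rfl⟩).asymm (hcl _ h1)
    have hQ : ∃ b, Q δ (fun i => (x i, t x i)) b := ⟨x δ, x, fun _ _ => rfl, hS, rfl⟩
    obtain ⟨x', h1, -, h3⟩ := Classical.epsilon_spec hQ
    show x δ = Classical.epsilon (Q δ (fun i => (x i, t x i)))
    rw [← h3]
    by_contra hne
    apply hS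
    have hx : ∀ i < δ, x i = x' i := fun i hi => congrArg Prod.fst (h1 i hi)
    have ht : ∀ i < δ, t x i = t x' i := fun i hi => congrArg Prod.snd (h1 i hi)
    refine ⟨x', ⟨fun i hi => (hx i hi).symm, fun hh => hne hh.symm⟩, fun η hη => ?_⟩
    have := ht η hη
    simp only [t] at this
    rw [this, hloc x x' δ hx ht η hη]

/-- The least cardinal whose power set exceeds `2 ^ ν` is regular. -/
theorem exists_theta {ν κ : Cardinal.{u}} (hν : ℵ₀ ≤ ν) (hlt : (2 : Cardinal.{u}) ^ ν < 2 ^ κ) :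
    ∃ θ : Cardinal.{u}, θ ≤ κ ∧ ν < θ ∧ θ ≤ 2 ^ ν ∧ (∀ μ < θ, (2 : Cardinal.{u}) ^ μ ≤ 2 ^ ν) ∧
      (2 : Cardinal.{u}) ^ ν < 2 ^ θ ∧ RegUnc θ.ord.ToType := by
  obtain ⟨θ, h1, h2⟩ := exists_min (fun θ : Cardinal.{u} => (2 : Cardinal.{u}) ^ ν < 2 ^ θ) ⟨κ, hlt⟩
  have h3 : ∀ μ < θ, (2 : Cardinal.{u}) ^ μ ≤ 2 ^ ν := fun μ hμ => not_lt.1 (h2 μ hμ)
  have hνθ : ν < θ := not_le.1 fun hc => h1.not_ge (power_le_power_left two_ne_zero hc)
  have hcard : #θ.ord.ToType = θ := mk_ord_toType θ
  have hinit : ∀ a : θ.ord.ToType, #(Iio a) < θ := fun a => mk_Iio_toType_ord_lt a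
  refine ⟨θ, not_lt.1 fun hc => h2 κ hc hlt, hνθ,
    not_lt.1 fun hc => (cantor _).not_ge (h3 _ hc), h3, h1, ?_, ?_, ?_⟩
  · rw [hcard]; exact hν.trans_lt hνθ
  · intro s hs
    rw [hcard] at hs
    by_contra hc
    push Not at hc
    have hIic : ∀ a : θ.ord.ToType, #(Iic a) < θ := by
      intro a
      rw [← Iio_insert]
      exact mk_insert_le.trans_lt
        (add_lt_of_lt (hν.trans hνθ.le) (hinit a) (one_lt_aleph0.trans_le (hν.trans hνθ.le)))
    have hle : #(θ.ord.ToType → Bool) ≤ #(∀ a : s, (Iic a.1 → Bool)) := by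
      refine mk_le_of_injective (f := fun x a i => x i) fun x y hxy => ?_
      funext b
      obtain ⟨a, ha, hba⟩ := hc b
      exact congrFun (congrFun hxy ⟨a, ha⟩) ⟨b, hba⟩
    have h4 : #(θ.ord.ToType → Bool) = 2 ^ θ := by simp
    rw [h4, mk_pi] at hle
    refine h1.not_ge (hle.trans ((prod_le_prod _ (fun _ => 2 ^ ν) fun a => ?_).trans ?_))
    · have : #(Iic a.1 → Bool) = 2 ^ #(Iic a.1) := by simp
      rw [this]; exact h3 _ (hIic _)
    · rw [prod_const', ← power_mul]
      exact h3 _ (mul_lt_of_lt (hν.trans hνθ.le) hνθ hs)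
  · intro a; rw [hcard]; exact hinit a

/-- Main theorem. -/
theorem mono_main {κ ν : Cardinal.{u}} (hν : ℵ₀ ≤ ν) (hlt : (2 : Cardinal.{u}) ^ ν < 2 ^ κ)
    (m : κ.ord.ToType) (hm : #(Iio m) ≤ ν)
    (c : (κ.ord.ToType → Bool) → (κ.ord.ToType → Bool) → κ.ord.ToType)
    (hsymm : ∀ x y, c x y = c y x)
    (hreg : ∀ x y δ, x δ ≠ y δ → (∀ i < δ, x i = y i) → m < δ → c x y < δ) :
    ∃ Y : Set (κ.ord.ToType → Bool), ν < #Y ∧ ∃ col, ∀ x ∈ Y, ∀ y ∈ Y, x ≠ y → c x y = col := by
  classical
  obtain ⟨θ, hθκ, hνθ, hθ2, hpow, hlt', h⟩ := exists_theta hν hlt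
  have hcard : #θ.ord.ToType = θ := mk_ord_toType θ
  let ι : θ.ord.ToType ≤i κ.ord.ToType := Ordinal.initialSegToType (ord_le_ord.2 hθκ)
  have hιinj : Function.Injective ι := ι.injective
  have hιlt : ∀ a b, ι a < ι b ↔ a < b := fun a b => ι.map_rel_iff
  have hιinit : ∀ a b, b < ι a → ∃ a', ι a' = b := fun a b hb => ι.mem_range_of_rel hb
  have hmr : ∃ m', ι m' = m := by
    by_contra hc
    push Not at hc
    have : ∀ a, ι a < m := by
      intro a
      rcases lt_trichotomy (ι a) m with h1 | h1 | h1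
      · exact h1
      · exact absurd h1 (hc a)
      · obtain ⟨a', ha'⟩ := hιinit a m h1
        exact absurd ha' (hc a')
    have h2 : #θ.ord.ToType ≤ #(Iio m) :=
      mk_le_of_injective (f := fun a => (⟨ι a, this a⟩ : Iio m))
        fun a b hab => hιinj (congrArg Subtype.val hab)
    rw [hcard] at h2
    exact (h2.trans hm).not_gt hνθ
  obtain ⟨m', rfl⟩ := hmr
  haveI := h.nonempty
  let ex : (θ.ord.ToType → Bool) → (κ.ord.ToType → Bool) := fun x =>
    Function.extend ι x (fun _ => false)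
  have hex : ∀ x a, ex x (ι a) = x a := fun x a => hιinj.extend_apply _ _ _
  have hexinj : Function.Injective ex := fun x y hxy => funext fun a => by
    rw [← hex x a, ← hex y a, hxy]
  have hkey : ∀ x y δ, x δ ≠ y δ → (∀ i < δ, x i = y i) → m' < δ →
      ∃ a < δ, c (ex x) (ex y) = ι a := by
    intro x y δ h1 h2 h3
    have := hreg (ex x) (ex y) (ι δ) (by rwa [hex, hex]) (by
      intro i hi
      obtain ⟨a, rfl⟩ := hιinit _ _ hi
      rw [hex, hex]; exact h2 a ((hιlt _ _).1 hi)) ((hιlt _ _).2 h3)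
    obtain ⟨a, ha⟩ := hιinit _ _ this
    exact ⟨a, (hιlt _ _).1 (ha ▸ this), ha.symm⟩
  obtain ⟨Y, hY, col, hcol⟩ := mono_core h ν.out (by rw [mk_out, hcard]; exact hνθ)
    (by rw [mk_out]; exact hν) (by rw [mk_out, hcard]; exact hθ2)
    (by rw [mk_out, hcard]; exact hpow) (by rw [mk_out, hcard]; exact hlt') m'
    (fun x y => Function.invFun ι (c (ex x) (ex y))) (fun x y => by rw [hsymm]) (by
      intro x y δ h1 h2 h3
      obtain ⟨a, ha, hc⟩ := hkey x y δ h1 h2 h3
      rw [hc, Function.leftInverse_invFun hιinj]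
      exact ha)
  refine ⟨ex '' Y, by rw [mk_image_eq hexinj, hY, hcard]; exact hνθ, ι col, ?_⟩
  rintro _ ⟨x, hx, rfl⟩ _ ⟨y, hy, rfl⟩ hxy
  have hne : x ≠ y := fun hh => hxy (by rw [hh])
  obtain ⟨h1, h2⟩ := hcol x hx y hy hne
  obtain ⟨δ, hδ1, hδ2⟩ := exists_min (fun i => x i ≠ y i) (Function.ne_iff.1 hne)
  push Not at hδ2
  obtain ⟨a, -, hc⟩ := hkey x y δ hδ1 hδ2 (not_le.1 fun hc => hδ1 (h2 δ hc))
  rw [hc, Function.leftInverse_invFun hιinj] at h1
  rw [hc, h1]

/-- A monochromatic set with four points always exists. -/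
theorem four {K : Type u} [LinearOrder K] [WellFoundedLT K] (e : ℕ → K) (w : K) (he : StrictMono e)
    (hw : ∀ n, e n < w) (hi : ∀ a < w, ∃ n, a = e n)
    (c : (K → Bool) → (K → Bool) → K) (hsymm : ∀ x y, c x y = c y x)
    (hreg : ∀ x y δ, x δ ≠ y δ → (∀ i < δ, x i = y i) → (∃ j, j < δ) → c x y < δ) :
    ∃ Y : Finset (K → Bool), Y.card = 4 ∧ ∃ col, ∀ x ∈ Y, ∀ y ∈ Y, x ≠ y → c x y = col := by
  classical
  by_contra hno
  let C : (ℕ → Bool) → ℕ → (K → Bool) → Prop := fun b n x => ∀ k ≤ n, x (e k) = b k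
  let Inv : (ℕ → Bool) → ℕ → Prop := fun b n =>
    ∀ x y, C b n x → C b n y → x ≠ y → ∀ k < n, c x y ≠ e k
  have hlt : ∀ a n, a < e n → ∃ k < n, a = e k := by
    intro a n ha
    obtain ⟨k, rfl⟩ := hi a (ha.trans (hw n))
    exact ⟨k, he.lt_iff_lt.1 ha, rfl⟩
  have step : ∀ b n, Inv b n → ∃ v, Inv (Function.update b (n + 1) v) (n + 1) := by
    intro b n hb
    by_contra hc
    push Not at hc
    have hup : ∀ v x, C (Function.update b (n + 1) v) (n + 1) x → C b n x ∧ x (e (n + 1)) = v := by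
      intro v x hx
      refine ⟨fun k hk => ?_, ?_⟩
      · rw [hx k (by omega), Function.update_of_ne (by omega)]
      · rw [hx (n + 1) le_rfl, Function.update_self]
    have hedge : ∀ v, ∃ x y, C b n x ∧ C b n y ∧ x (e (n + 1)) = v ∧ y (e (n + 1)) = v ∧ x ≠ y ∧
        c x y = e n := by
      intro v
      have := hc v
      simp only [Inv] at this
      push Not at this
      obtain ⟨x, y, hx, hy, hxy, k, hk, hcxy⟩ := this
      refine ⟨x, y, (hup v x hx).1, (hup v y hy).1, (hup v x hx).2, (hup v y hy).2, hxy, ?_⟩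
      rcases Nat.lt_succ_iff_lt_or_eq.1 hk with h1 | h1
      · exact absurd hcxy (hb x y (hup v x hx).1 (hup v y hy).1 hxy k h1)
      · rw [hcxy, h1]
    have hcross : ∀ x y, C b n x → C b n y → x (e (n + 1)) ≠ y (e (n + 1)) → c x y = e n := by
      intro x y hx hy hxy
      have h1 := hreg x y (e (n + 1)) hxy (by
        intro i hi'
        obtain ⟨k, hk, rfl⟩ := hlt _ _ hi'
        rw [hx k (by omega), hy k (by omega)]) ⟨e 0, he (by omega)⟩
      obtain ⟨k, hk, h2⟩ := hlt _ _ h1
      rcases Nat.lt_succ_iff_lt_or_eq.1 hk with h3 | h3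
      · exact absurd h2 (hb x y hx hy (fun hh => hxy (by rw [hh])) k h3)
      · rw [h2, h3]
    obtain ⟨x, x', hx, hx', h1, h2, h3, h4⟩ := hedge false
    obtain ⟨y, y', hy, hy', h5, h6, h7, h8⟩ := hedge true
    have d1 : x (e (n + 1)) ≠ y (e (n + 1)) := by simp [h1, h5]
    have d2 : x (e (n + 1)) ≠ y' (e (n + 1)) := by simp [h1, h6]
    have d3 : x' (e (n + 1)) ≠ y (e (n + 1)) := by simp [h2, h5]
    have d4 : x' (e (n + 1)) ≠ y' (e (n + 1)) := by simp [h2, h6]
    have n1 : x ≠ y := fun hh => d1 (by rw [hh])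
    have n2 : x ≠ y' := fun hh => d2 (by rw [hh])
    have n3 : x' ≠ y := fun hh => d3 (by rw [hh])
    have n4 : x' ≠ y' := fun hh => d4 (by rw [hh])
    have c1 := hcross _ _ hx hy d1
    have c2 := hcross _ _ hx hy' d2
    have c3 := hcross _ _ hx' hy d3
    have c4 := hcross _ _ hx' hy' d4
    apply hno
    refine ⟨{x, x', y, y'}, ?_, e n, ?_⟩
    · rw [Finset.card_insert_of_notMem (by simp [h3, n1, n2]),
        Finset.card_insert_of_notMem (by simp [n3, n4]), Finset.card_pair h7]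
    · intro p hp q hq hpq
      simp only [Finset.mem_insert, Finset.mem_singleton] at hp hq
      rcases hp with rfl | rfl | rfl | rfl <;> rcases hq with rfl | rfl | rfl | rfl <;>
        first
          | exact absurd rfl hpq
          | assumption
          | (rw [hsymm]; assumption)
  choose v hv using step
  let f : ∀ n : ℕ, {b : ℕ → Bool // Inv b n} := fun n =>
    Nat.rec (motive := fun n => {b : ℕ → Bool // Inv b n})
      ⟨fun _ => false, fun x y _ _ _ k hk => absurd hk (Nat.not_lt_zero k)⟩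
      (fun n p => ⟨Function.update p.1 (n + 1) (v p.1 n p.2), hv p.1 n p.2⟩) n
  have hf : ∀ n, (f (n + 1)).1 = Function.update (f n).1 (n + 1) (v (f n).1 n (f n).2) :=
    fun n => rfl
  have hst : ∀ n k, k ≤ n → (f n).1 k = (f k).1 k := by
    intro n k hk
    induction n, hk using Nat.le_induction with
    | base => rfl
    | succ n hk ih => rw [hf, Function.update_of_ne (by omega), ih]
  let r : Bool → K → Bool := fun v => Function.extend e (fun k => (f k).1 k) (fun _ => v)
  have hr : ∀ v k, r v (e k) = (f k).1 k := fun v k => he.injective.extend_apply _ _ _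
  have hrw : ∀ v, r v w = v := by
    intro v
    apply Function.extend_apply'
    rintro ⟨k, hk⟩
    exact (hw k).ne hk
  have hne : r false w ≠ r true w := by simp [hrw]
  have h1 := hreg (r false) (r true) w hne (by
    intro i hi'
    obtain ⟨k, rfl⟩ := hi i hi'
    rw [hr, hr]) ⟨e 0, hw 0⟩
  obtain ⟨n, hn⟩ := hi _ h1
  refine (f (n + 1)).2 (r false) (r true) (fun k hk => ?_) (fun k hk => ?_)
    (fun hh => hne (by rw [hh])) n (by omega) hn
  · rw [hr, hst _ _ hk]
  · rw [hr, hst _ _ hk]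

/-- If the power set of `K` injects into the reals, some regressive colouring has no monochromatic
set with more than four points. -/
theorem no_five {K : Type u} [LinearOrder K] [WellFoundedLT K] (e : ℕ → K) (w : K)
    (he : StrictMono e) (hw : ∀ n, e n < w) (hi : ∀ a < w, ∃ n, a = e n)
    (φ : (K → Bool) → (ℕ → Bool)) (hφ : Function.Injective φ) :
    ∃ c : (K → Bool) → (K → Bool) → K, (∀ x y, c x y = c y x) ∧
      (∀ x y δ, x δ ≠ y δ → (∀ i < δ, x i = y i) → (∃ j, j < δ) → c x y < δ) ∧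
      ∀ (Y : Set (K → Bool)) (col : K), (∀ x ∈ Y, ∀ y ∈ Y, x ≠ y → c x y = col) → #Y ≤ 4 := by
  classical
  let c : (K → Bool) → (K → Bool) → K := fun x y =>
    if x (e 0) ≠ y (e 0) then w else
      if h : ∃ n, x (e (n + 1)) ≠ y (e (n + 1)) then e (Nat.find h) else
        if h' : ∃ n, φ x n ≠ φ y n then e (Nat.find h') else w
  have hlt : ∀ a n, a < e n → ∃ k < n, a = e k := by
    intro a n ha
    obtain ⟨k, rfl⟩ := hi a (ha.trans (hw n))
    exact ⟨k, he.lt_iff_lt.1 ha, rfl⟩
  refine ⟨c, fun x y => ?_, fun x y δ h1 h2 h3 => ?_, fun Y col hY => ?_⟩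
  · simp only [c, ne_comm]
  · have hne : x ≠ y := fun hh => h1 (by rw [hh])
    have h0 : e 0 < δ := by
      obtain ⟨j, hj⟩ := h3
      by_contra hc
      obtain ⟨k, hk, -⟩ := hlt j 0 (hj.trans_le (not_lt.1 hc))
      omega
    have h0' : ¬ x (e 0) ≠ y (e 0) := not_not.2 (h2 _ h0)
    simp only [c, if_neg h0']
    split_ifs with h h'
    · have hs := Nat.find_spec h
      by_cases hd : δ < w
      · obtain ⟨k, rfl⟩ := hi δ hd
        have hk : 0 < k := he.lt_iff_lt.1 h0
        obtain ⟨k, rfl⟩ : ∃ j, k = j + 1 := ⟨k - 1, by omega⟩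
        exact he (Nat.lt_succ_of_le (Nat.find_min' h h1))
      · exact (hw _).trans_le (not_lt.1 hd)
    · push Not at h
      by_cases hd : δ < w
      · obtain ⟨k, rfl⟩ := hi δ hd
        have hk : 0 < k := he.lt_iff_lt.1 h0
        obtain ⟨k, rfl⟩ : ∃ j, k = j + 1 := ⟨k - 1, by omega⟩
        exact absurd (h k) h1
      · exact (hw _).trans_le (not_lt.1 hd)
    · push Not at h'
      exact absurd (hφ (funext h')) hne
  · have h4 : #(ULift.{u} (Bool × Bool)) = 4 := by simp
    rw [← h4]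
    by_cases hcol : col = w
    · refine mk_le_of_injective (f := fun y : Y => ⟨(y.1 (e 0), false)⟩) fun x y hxy => ?_
      by_contra hne
      have hne' : x.1 ≠ y.1 := fun hh => hne (Subtype.ext hh)
      have h1 := hY x x.2 y y.2 hne'
      have h0 : x.1 (e 0) = y.1 (e 0) := by simpa using hxy
      simp only [c, if_neg (not_not.2 h0), hcol] at h1
      split_ifs at h1 with h h'
      · exact (hw _).ne h1
      · exact (hw _).ne h1
      · push Not at h'
        exact hne' (hφ (funext h'))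
    · by_cases hr : ∃ n, col = e n
      · obtain ⟨n, rfl⟩ := hr
        refine mk_le_of_injective (f := fun y : Y => ⟨(y.1 (e (n + 1)), φ y n)⟩) fun x y hxy => ?_
        by_contra hne
        have hne' : x.1 ≠ y.1 := fun hh => hne (Subtype.ext hh)
        have h1 := hY x x.2 y y.2 hne'
        have h0 : x.1 (e (n + 1)) = y.1 (e (n + 1)) ∧ φ x n = φ y n := by simpa using hxy
        simp only [c] at h1
        split_ifs at h1 with h'' h h'
        · exact hcol h1.symm
        · have := Nat.find_spec h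
          rw [he.injective h1] at this
          exact this h0.1
        · have := Nat.find_spec h'
          rw [he.injective h1] at this
          exact this h0.2
        · exact hcol h1.symm
      · refine mk_le_of_injective (f := fun _ : Y => ⟨(false, false)⟩) fun x y _ => ?_
        by_contra hne
        have hne' : x.1 ≠ y.1 := fun hh => hne (Subtype.ext hh)
        have h1 := hY x x.2 y y.2 hne'
        simp only [c] at h1
        split_ifs at h1 with h'' h h'
        · exact hcol h1.symm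
        · exact hr ⟨_, h1.symm⟩
        · exact hr ⟨_, h1.symm⟩
        · exact hcol h1.symm

end Pool.Agent.H42.DeltaReg
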