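import Mathlib

/-! A monotone choice of `G_δ` representatives of measurable sets of reals. -/

namespace Pool.Agent.H42.Dens

open Set MeasureTheory Metric Filter Topology

/-- Points lying in arbitrarily short intervals almost filled by `M`. -/
def psi (M : Set ℝ) : Set ℝ :=
  ⋂ n : ℕ, ⋃ (c : ℝ) (r : ℝ) (_ : 0 < r ∧ r < 1 / ((n : ℝ) + 1) ∧
    ENNReal.ofReal ((1 - 1 / ((n : ℝ) + 2)) * (2 * r)) < volume (M ∩ ball c r)), ball c r

theorem psi_gdelta (M : Set ℝ) : IsGδ (psi M) :=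
  IsGδ.iInter fun _ => (isOpen_iUnion fun _ => isOpen_iUnion fun _ => isOpen_iUnion fun _ =>
    isOpen_ball).isGδ

theorem psi_mono_ae {M M' : Set ℝ} (h : M ≤ᵐ[volume] M') : psi M ⊆ psi M' := by
  intro x hx
  simp only [psi, mem_iInter, mem_iUnion] at hx ⊢
  intro n
  obtain ⟨c, r, ⟨h1, h2, h3⟩, h4⟩ := hx n
  exact ⟨c, r, ⟨h1, h2, h3.trans_le (measure_mono_ae (h.inter (ae_eq_refl _).le))⟩, h4⟩

theorem psi_congr {M M' : Set ℝ} (h : M =ᵐ[volume] M') : psi M = psi M' :=
  (psi_mono_ae h.le).antisymm (psi_mono_ae h.symm.le)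

theorem psi_ae_meas {M : Set ℝ} (hM : MeasurableSet M) : M =ᵐ[volume] psi M := by
  filter_upwards [Besicovitch.ae_tendsto_measure_inter_div_of_measurableSet volume hM] with x hx
  have hvol : ∀ r : ℝ, volume (closedBall x r) = ENNReal.ofReal (2 * r) :=
    fun r => Real.volume_closedBall x r
  have hball : ∀ (c r : ℝ), volume (M ∩ ball c r) = volume (M ∩ closedBall c r) := by
    intro c r
    apply measure_congr
    refine (ae_eq_refl M).inter ?_
    rw [Real.ball_eq_Ioo, Real.closedBall_eq_Icc]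
    exact Ioo_ae_eq_Icc
  apply propext
  constructor
  · intro hxM
    have hxM' : x ∈ M := hxM
    rw [indicator_of_mem hxM'] at hx
    show x ∈ psi M
    simp only [psi, mem_iInter, mem_iUnion]
    intro n
    have hpos : (0 : ℝ) < 1 / ((n : ℝ) + 2) := by positivity
    have hlt : ENNReal.ofReal (1 - 1 / ((n : ℝ) + 2)) < (1 : ℝ → ENNReal) x := by
      show _ < (1 : ENNReal)
      rw [ENNReal.ofReal_lt_one]; linarith
    have h1 := hx.eventually (lt_mem_nhds hlt)
    have h2 : ∀ᶠ r in 𝓝[>] (0 : ℝ), r < 1 / ((n : ℝ) + 1) :=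
      mem_nhdsWithin_of_mem_nhds (gt_mem_nhds (by positivity))
    obtain ⟨r, ⟨h3, h4⟩, h5⟩ := ((h1.and h2).and self_mem_nhdsWithin).exists
    have h5' : 0 < r := h5
    refine ⟨x, r, ⟨h5', h4, ?_⟩, mem_ball_self h5'⟩
    rw [hball, ENNReal.ofReal_mul' (by positivity)]
    rw [hvol, ENNReal.lt_div_iff_mul_lt (Or.inl (by simpa using h5'))
      (Or.inl ENNReal.ofReal_ne_top)] at h3
    exact h3
  · intro hxp
    have hxp' : x ∈ psi M := hxp
    show x ∈ M
    by_contra hxM
    rw [indicator_of_notMem hxM] at hx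
    have hlt : (0 : ENNReal) < ENNReal.ofReal (1 / 4) := by simp
    have h1 := hx.eventually (gt_mem_nhds hlt)
    obtain ⟨ε, hε, h2⟩ := (nhdsGT_basis (0 : ℝ)).eventually_iff.1 h1
    obtain ⟨n, hn⟩ := exists_nat_one_div_lt (half_pos hε)
    simp only [psi, mem_iInter, mem_iUnion] at hxp'
    obtain ⟨c, r, ⟨h3, h4, h5⟩, h6⟩ := hxp' n
    have h7 := h2 (show 2 * r ∈ Ioo 0 ε from ⟨by positivity, by linarith⟩)
    rw [hvol, ENNReal.div_lt_iff (Or.inl (by simpa using h3))
      (Or.inl ENNReal.ofReal_ne_top), ← ENNReal.ofReal_mul (by positivity)] at h7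
    have hsub : M ∩ ball c r ⊆ M ∩ closedBall x (2 * r) := by
      refine inter_subset_inter_right _ fun y hy => ?_
      rw [mem_ball] at hy h6
      rw [mem_closedBall]
      linarith [dist_triangle_right y x c]
    have h8 := (h5.trans_le (measure_mono hsub)).trans h7
    rw [ENNReal.ofReal_lt_ofReal_iff (by positivity)] at h8
    have h9 : 1 / ((n : ℝ) + 2) ≤ 1 / 2 :=
      one_div_le_one_div_of_le (by norm_num) (by linarith [Nat.cast_nonneg (α := ℝ) n])
    nlinarith

theorem psi_ae {M : Set ℝ} (hM : NullMeasurableSet M volume) : M =ᵐ[volume] psi M := by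
  obtain ⟨M', h1, h2⟩ := hM
  have h3 : M =ᵐ[volume] M' := h2
  rw [psi_congr h3]
  exact h3.trans (psi_ae_meas h1)

end Pool.Agent.H42.Dens
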