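import Pool.Agent.H42.OmB

/-! Dense `ω`-bounded subgroups of `ℤ(2) ^ ω₁` determine it. -/

open Set Filter Topology Cardinal TopologicalSpace

namespace Pool.Agent.H42.Det

open Pool.Agent.H42.Dirac Pool.Agent.H42.OmB

lemma ext_char {G : Type} [AddCommGroup G] [TopologicalSpace G] [IsTopologicalAddGroup G]
    (D : AddSubgroup G) (hd : Dense (D : Set G)) (χ : D →ₜ+ UnitAddCircle) :
    ∃ ψ : G →ₜ+ UnitAddCircle, ∀ d : D, ψ d = χ d := by
  let := IsTopologicalAddGroup.rightUniformSpace G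
  have : IsUniformAddGroup G := isUniformAddGroup_of_addCommGroup
  have hu : UniformContinuous χ := uniformContinuous_addMonoidHom_of_continuous χ.continuous
  have hc := (hd.uniformContinuous_extend hu).continuous
  have he := hd.extend_of_ind hu
  refine ⟨⟨AddMonoidHom.mk' (hd.extend χ) fun a b => ?_, hc⟩, he⟩
  refine hd.denseRange_val.induction_on₂ (isClosed_eq (by fun_prop) (by fun_prop))
    (fun a b => ?_) a b
  rw [he, he, ← map_add, ← he]; rfl

lemma half {x : UnitAddCircle} (h : x + x = 0) (h2 : x ≠ ((1 / 2 : ℝ) : UnitAddCircle)) :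
    x = 0 := by
  obtain ⟨r, rfl⟩ := QuotientAddGroup.mk_surjective x
  obtain ⟨n, hn⟩ := (AddCircle.coe_eq_zero_iff (1 : ℝ)).1 (show ((r + r : ℝ) : UnitAddCircle) = 0
    from h)
  simp only [zsmul_eq_mul, mul_one] at hn
  obtain ⟨k, rfl | rfl⟩ := Int.even_or_odd' n
  · exact (AddCircle.coe_eq_zero_iff (1 : ℝ)).2 ⟨k, by
      simp only [zsmul_eq_mul, mul_one]; push_cast at hn; linarith⟩
  · refine absurd (sub_eq_zero.1 ?_) h2
    exact (AddCircle.coe_eq_zero_iff (1 : ℝ) (x := r - 1 / 2)).2 ⟨k, by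
      simp only [zsmul_eq_mul, mul_one]; push_cast at hn; linarith⟩

lemma half_ne : (0 : UnitAddCircle) ≠ ((1 / 2 : ℝ) : UnitAddCircle) := fun h0 => by
  obtain ⟨n, hn⟩ := (AddCircle.coe_eq_zero_iff (1 : ℝ)).1 h0.symm
  have h2 : ((2 * n : ℤ) : ℝ) = (1 : ℤ) := by
    simp only [zsmul_eq_mul, mul_one] at hn
    push_cast; linarith
  have := Int.cast_injective h2
  omega

lemma two (y : W → ZMod 2) : y + y = 0 := funext fun i => CharTwo.add_self_eq_zero (y i)

lemma vanish (ψ : (W → ZMod 2) →ₜ+ UnitAddCircle) (x : W → W → ZMod 2)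
    (h0 : ∀ α, ∀ i < α, x α i = 0) (h1 : ∀ α, x α α = 1) (hψ : ∀ α, ψ (x α) = 0) : ψ = 0 := by
  classical
  have hU := ψ.continuous.continuousAt.preimage_mem_nhds (x := 0)
    (compl_singleton_mem_nhds ((map_zero ψ).trans_ne half_ne))
  rw [nhds_pi, Filter.mem_pi'] at hU
  obtain ⟨I, v, hv, hI⟩ := hU
  have hs : ∀ y, ψ y = ∑ i ∈ I, ψ (Pi.single i (y i)) := fun y => by
    rw [← map_sum, ← sub_eq_zero, ← map_sub]
    refine half (by rw [← map_add, two, map_zero]) (hI fun i hi => ?_)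
    have : (y - ∑ j ∈ I, Pi.single j (y j) : W → ZMod 2) i = 0 := by
      simp [Finset.sum_apply, Pi.single_apply, Finset.mem_coe.1 hi]
    rw [this]; exact mem_of_mem_nhds (hv i)
  have hz : ∀ i c, ψ (Pi.single i 1) = 0 → ψ (Pi.single i c) = 0 := fun i c h => by
    obtain rfl | rfl : c = 0 ∨ c = 1 := by revert c; decide
    · simp
    · exact h
  have hall : ∀ i ∈ I, ψ (Pi.single i 1) = 0 := by
    by_contra hne
    push Not at hne
    obtain ⟨α, hα, hmax⟩ := (I.filter fun i => ψ (Pi.single i 1) ≠ 0).exists_max_image id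
      (let ⟨i, hi, h⟩ := hne; ⟨i, Finset.mem_filter.2 ⟨hi, h⟩⟩)
    rw [Finset.mem_filter] at hα
    apply hα.2
    rw [← hψ α, hs (x α), Finset.sum_eq_single α, h1]
    · intro i hi hia
      rcases lt_or_gt_of_ne hia with h | h
      · simp [h0 α i h]
      · refine hz _ _ (by_contra fun h' => ?_)
        exact absurd (hmax i (Finset.mem_filter.2 ⟨hi, h'⟩)) (not_le.2 h)
    · exact fun h => absurd hα.1 h
  ext y
  rw [hs y]
  exact Finset.sum_eq_zero fun i hi => hz _ _ (hall i hi)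

lemma seq (D : AddSubgroup (W → ZMod 2)) (hd : Dense (D : Set (W → ZMod 2)))
    (hb : ∀ S ⊆ (D : Set (W → ZMod 2)), S.Countable → closure S ⊆ D) (α : W) :
    ∃ c ∈ D, (∀ i < α, c i = 0) ∧ c α = 1 := by
  classical
  have := (Iic_count α).to_subtype
  let π : (W → ZMod 2) → Iic α → ZMod 2 := fun x i => x i
  have hπ : Continuous π := continuous_pi fun i => continuous_apply _
  obtain ⟨T, hT, hTc, hTd⟩ :=
    (IsSeparable.of_separableSpace (π '' D)).exists_countable_dense_subset
  have := hTc.to_subtype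
  choose g hg hgπ using fun t : T => hT t.2
  have hC : IsCompact (closure (range g)) := isClosed_closure.isCompact
  have h1 : closure T ⊆ π '' closure (range g) := closure_minimal
    (fun t ht => ⟨g ⟨t, ht⟩, subset_closure ⟨_, rfl⟩, hgπ _⟩) (hC.image hπ).isClosed
  have h2 : π (Pi.single α 1) ∈ closure T := closure_minimal hTd isClosed_closure
    (image_closure_subset_closure_image hπ ⟨_, hd _, rfl⟩)
  obtain ⟨c, hc, he⟩ := h1 h2
  refine ⟨c, hb _ (range_subset_iff.2 hg) (countable_range g) hc, fun i hi => ?_, ?_⟩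
  · exact (congrFun he ⟨i, hi.le⟩).trans (Pi.single_eq_of_ne hi.ne _)
  · exact (congrFun he ⟨α, mem_Iic.2 le_rfl⟩).trans (Pi.single_eq_same _ _)

lemma main (D : AddSubgroup (W → ZMod 2)) (hd : Dense (D : Set (W → ZMod 2)))
    (hb : ∀ S : Set D, S.Countable → IsCompact (closure S)) :
    IsHomeomorph fun χ : (W → ZMod 2) →ₜ+ UnitAddCircle =>
      χ.comp (⟨D.subtype, continuous_subtype_val⟩ : D →ₜ+ (W → ZMod 2)) := by
  have hb' : ∀ S ⊆ (D : Set (W → ZMod 2)), S.Countable → closure S ⊆ D := fun S hS hc => by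
    have := ((hb (Subtype.val ⁻¹' S) (hc.preimage Subtype.val_injective)).image
      continuous_subtype_val).isClosed
    refine (closure_minimal (fun x hx => ?_) this).trans (by rintro _ ⟨d, -, rfl⟩; exact d.2)
    exact ⟨⟨x, hS hx⟩, subset_closure hx, rfl⟩
  choose x hx h0 h1 using seq D hd hb'
  have ht := tz h0
  have : Nonempty W := (Cardinal.infinite_iff.2 (W_card ▸ aleph0_le_aleph 1)).nonempty
  have hC : closure (range x) ⊆ D := by
    intro y hy
    by_cases hy0 : y = 0
    · exact hy0 ▸ D.zero_mem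
    obtain ⟨U, V, hU, hV, hxU, h0V, hUV⟩ := t2_separation hy0
    obtain ⟨α, hα⟩ := eventually_atTop.1 (ht (hV.mem_nhds h0V))
    refine hb' _ (by rintro _ ⟨β, -, rfl⟩; exact hx β) ((Iio_count α).image x)
      (closure_mono ?_ (hU.inter_closure ⟨hxU, hy⟩))
    rintro _ ⟨hy, β, rfl⟩
    exact ⟨β, lt_of_not_ge fun hβ => hUV.ne_of_mem hy (hα β hβ) rfl, rfl⟩
  have hK : IsCompact ((Subtype.val : D → _) ⁻¹' closure (range x)) :=
    IsInducing.subtypeVal.isCompact_preimage' isClosed_closure.isCompact (by simpa using hC)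
  have : DiscreteTopology (D →ₜ+ UnitAddCircle) := by
    refine discreteTopology_of_isOpen_singleton_zero ?_
    convert (ContinuousMap.isOpen_setOfPred_mapsTo hK
      (isOpen_compl_singleton (x := ((1 / 2 : ℝ) : UnitAddCircle)))).preimage
      (ContinuousAddMonoidHom.isInducing_toContinuousMap D UnitAddCircle).continuous
    refine Subset.antisymm ?_ fun χ hχ => ?_
    · rintro _ rfl d -
      exact half_ne
    obtain ⟨ψ, hψ⟩ := ext_char D hd χ
    have := vanish ψ x h0 h1 fun α => half (by rw [← map_add, two, map_zero])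
      ((hψ ⟨x α, hx α⟩).trans_ne (hχ (x := ⟨x α, hx α⟩) (subset_closure ⟨α, rfl⟩)))
    ext d
    rw [← hψ, this]; rfl
  refine ⟨ContinuousAddMonoidHom.continuous_comp_left _, fun _ _ => isOpen_discrete _,
    fun χ ψ h => ?_, fun χ => ?_⟩
  · ext1 y
    exact congrFun (χ.continuous.ext_on hd ψ.continuous fun d hd =>
      DFunLike.congr_fun h ⟨d, hd⟩) y
  · obtain ⟨ψ, hψ⟩ := ext_char D hd χ
    exact ⟨ψ, DFunLike.ext _ _ hψ⟩

end Pool.Agent.H42.Det
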