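import Pool.Agent.H42.DindDefs
import Pool.Agent.H42.TStar
import Pool.Agent.H33.BernGrp

/-! A Boolean group that is not d-independent while its square is. -/

namespace Pool.Agent.H42.Dind1

open Set Filter Topology Cardinal Submodule Pool.Agent.H42.DindDefs Pool.Agent.H33.BernGrp

abbrev F := ZMod 2
abbrev K := (𝔠 : Cardinal.{0}).ord.ToType
abbrev V := Option K × ℕ →₀ F
abbrev Ω := Option K × ℕ → F

lemma dense_of {U J : Type} [AddCommGroup U] [Module F U] [TopologicalSpace U]
    (φ : J → U →ₗ[F] F) (h : IsInducing fun u j => φ j u) (D : Submodule F U)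
    (hD : ∀ ψ ∈ span F (range φ), (∀ d ∈ D, ψ d = 0) → ψ = 0) : Dense (D : Set U) := by
  classical
  refine fun x => mem_closure_iff_nhds.2 fun W hW => ?_
  rw [h.nhds_eq_comap, nhds_pi] at hW
  obtain ⟨W', hW', hWW⟩ := hW
  obtain ⟨I, v, hv, hI⟩ := Filter.mem_pi'.1 hW'
  let E : U →ₗ[F] I → F := LinearMap.pi fun j => φ j
  obtain ⟨d, d1, d2⟩ : E x ∈ D.map E := by
    by_contra c
    obtain ⟨l, l1, l2⟩ := exists_le_ker_of_notMem c
    refine l1 (congrArg (· x) (hD (l ∘ₗ E) ?_ fun d hd => l2 ⟨d, hd, rfl⟩))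
    have : l ∘ₗ E = ∑ j : I, l (fun i => if j = i then 1 else 0) • φ j := by
      ext u
      rw [LinearMap.comp_apply, LinearMap.pi_apply_eq_sum_univ l]
      simp [E, mul_comm]
    exact this ▸ sum_mem fun j _ => smul_mem _ _ (subset_span ⟨_, rfl⟩)
  refine ⟨d, hWW (hI fun j hj => ?_), d1⟩
  · skip
    have := mem_of_mem_nhds (hv j)
    rwa [show φ j x = φ j d from (congrFun d2 ⟨j, hj⟩).symm] at this

/-- Pairing. -/
noncomputable abbrev P := Finsupp.llift F F F (Option K × ℕ)

/-- Blocks of a functional. -/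
abbrev blk (k : Option K) : Ω →ₗ[F] ℕ → F := LinearMap.funLeft F F (Prod.mk k)

/-- Block inclusions. -/
noncomputable abbrev ι (k : Option K) : (ℕ →₀ F) →ₗ[F] V := Finsupp.lmapDomain F F (Prod.mk k)

/-- The shift. -/
def A : (ℕ → F) →ₗ[F] ℕ → F := LinearMap.pi fun n => n.casesOn 0 LinearMap.proj

lemma ι_inj (k : Option K) : Function.Injective (ι k) :=
  Finsupp.mapDomain_injective (Prod.mk_right_injective k)

lemma P_ι (w : Ω) (k : Option K) (s : ℕ →₀ F) :
    P w (ι k s) = Finsupp.llift F F F ℕ (blk k w) s := by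
  refine congrArg (· s) (?_ : P w ∘ₗ ι k = Finsupp.llift F F F ℕ (blk k w))
  ext
  simp

lemma ext (d : ℕ → V) (hd : Disjoint (span F (range d)) (LinearMap.range (ι none))) (u : ℕ → F) :
    ∃ w : Ω, blk none w = u ∧ {k | blk k w ≠ 0}.Countable ∧ ∀ n, P w (d n) = 0 := by
  classical
  obtain ⟨g, hg⟩ := ((span F (range d)).mkQ ∘ₗ ι none).exists_leftInverse_of_injective (by
    rw [LinearMap.ker_comp, ker_mkQ, eq_bot_iff]
    exact fun s hs => ι_inj none ((disjoint_def.1 hd _ hs ⟨s, rfl⟩).trans (map_zero _).symm))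
  let φ := Finsupp.llift F F F ℕ u ∘ₗ g ∘ₗ (span F (range d)).mkQ
  let N := insert none (⋃ n, Prod.fst '' ((d n).support : Set (Option K × ℕ)))
  refine ⟨fun k => if k.1 ∈ N then φ (.single k 1) else 0, funext fun n => ?_,
    ((countable_iUnion fun n => (Finset.countable_toSet _).image _).insert _).mono (s₂ := N)
      fun k hk => by_contra fun c => hk (funext fun n => if_neg c), fun n => ?_⟩
  · rw [LinearMap.funLeft_apply, if_pos (show none ∈ N from mem_insert _ _)]
    have := congrArg (· (.single n 1)) hg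
    simp only [LinearMap.comp_apply, Finsupp.lmapDomain_apply, Finsupp.mapDomain_single] at this
    simp [φ, -mkQ_apply, this]
  · have : φ (d n) = 0 := by
      simp [φ, (Quotient.mk_eq_zero _).2 (subset_span (mem_range_self n))]
    refine Eq.trans ?_ this
    rw [Finsupp.llift_apply, Finsupp.lift_apply]
    conv_rhs => rw [← (d n).sum_single, map_finsuppSum φ]
    refine Finset.sum_congr rfl fun k hk => ?_
    beta_reduce
    rw [← Finsupp.smul_single_one k (d n k), map_smul,
      if_pos (show k.1 ∈ N from Or.inr (mem_iUnion.2 ⟨n, k, hk, rfl⟩))]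

lemma inj (c : F × F) (hc : c ≠ 0) : 
    Function.Injective (c.1 • LinearMap.id + c.2 • A : (ℕ → F) →ₗ[F] ℕ → F) := by
  refine (injective_iff_map_eq_zero _).2 fun u hu => funext fun n => ?_
  have h0 : c.1 * u 0 = 0 := by simpa [A] using congrFun hu 0
  have h1 : ∀ n, c.1 * u (n + 1) + c.2 * u n = 0 := fun n => congrFun hu (n + 1)
  by_cases h : c.1 = 0
  · exact (mul_eq_zero.1 (by simpa [h] using h1 n)).resolve_left fun e => hc (Prod.ext h e)
  induction n with
  | zero => exact (mul_eq_zero.1 h0).resolve_left h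
  | succ n ih => exact (mul_eq_zero.1 (by simpa [show u n = 0 from ih] using h1 n)).resolve_left h

/-- What was produced before a stage. -/
def Z {I : Type} (g : I → Ω) : Submodule F (ℕ → F) :=
  span F ((⋃ β, range fun k => blk k (g β)) ∪ range fun β => A (blk none (g β)))

lemma seq : ∃ w : K → Ω, (∀ α, ∀ c : F × F, c ≠ 0 →
      c.1 • blk none (w α) + c.2 • A (blk none (w α)) ∉ Z fun β : Iio α => w β) ∧
    ∀ (d : ℕ → V) (s : ℕ →₀ F), Disjoint (span F (range d)) (LinearMap.range (ι none)) → s ≠ 0 →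
      ∃ α, (∀ n, P (w α) (d n) = 0) ∧ P (w α) (ι none s) = 1 := by
  have hK : #K = 𝔠 := mk_ord_toType _
  have : Infinite K := infinite_iff.2 (hK ▸ aleph0_le_continuum)
  obtain ⟨t⟩ : Nonempty ((ℕ → V) × (ℕ →₀ F) ↪ K) := by
    rw [← Cardinal.le_def, hK]
    have h1 : (𝔠 : Cardinal.{0}) + 1 = 𝔠 := add_one_eq aleph0_le_continuum
    have h2 : max (𝔠 : Cardinal.{0}) 2 = 𝔠 := max_eq_left (nat_lt_continuum 2).le
    simp [hK, h1, h2]
  let τ := Function.invFun t
  obtain ⟨w, hw⟩ := TStar.rec_o (T := K) (σ := Ω) (fun α g w => {k | blk k w ≠ 0}.Countable ∧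
    (∀ c : F × F, c ≠ 0 → c.1 • blk none w + c.2 • A (blk none w) ∉ Z g) ∧
    (Disjoint (span F (range (τ α).1)) (LinearMap.range (ι none)) → (τ α).2 ≠ 0 →
      (∀ n, P w ((τ α).1 n) = 0) ∧ P w (ι none (τ α).2) = 1)) fun α g hg => by
    have hI : #(Iio α) < 𝔠 := by simpa using mk_Iio_lt α (by simp)
    have hZ : #(Z g : Set (ℕ → F)) < 𝔠 := mk_span_lt aleph0_lt_continuum
      (by simpa using nat_lt_continuum 2)
      ((mk_union_le _ _).trans_lt (add_lt_of_lt aleph0_le_continuum
        ((mk_iUnion_le_sum_mk.trans (sum_le_sum _ (fun _ => ℵ₀) fun β => le_aleph0_iff_set_countable.2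
          ((((hg β).1.image fun k => blk k (g β)).insert 0).mono ?_))).trans_lt
          (by simpa using mul_lt_of_lt aleph0_le_continuum hI aleph0_lt_continuum))
        (mk_range_le.trans_lt hI)))
    swap
    · rintro _ ⟨k, rfl⟩
      exact or_iff_not_imp_left.2 fun c => ⟨k, c, rfl⟩
    let B := ⋃ c : {c : F × F // c ≠ 0}, 
      (c.1.1 • LinearMap.id + c.1.2 • A : (ℕ → F) →ₗ[F] ℕ → F) ⁻¹' (Z g : Set (ℕ → F))
    have hB : #B < 𝔠 := (mk_iUnion_le_sum_mk.trans (sum_le_sum _ (fun _ => #(Z g : Set (ℕ → F)))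
      fun c => mk_preimage_of_injective _ _ (inj _ c.2))).trans_lt (by
        simpa using mul_lt_of_lt aleph0_le_continuum (nat_lt_continuum 3) hZ)
    obtain ⟨u, u1, u2⟩ : ∃ u ∉ B, (τ α).2 ≠ 0 → Finsupp.llift F F F ℕ u (τ α).2 = 1 := by
      obtain ⟨δ, hδ⟩ : ∃ δ, (τ α).2 ≠ 0 → Finsupp.llift F F F ℕ δ (τ α).2 = 1 := by
        by_cases c : (τ α).2 = 0
        · exact ⟨0, fun e => absurd c e⟩
        obtain ⟨n, hn⟩ := Finsupp.ne_iff.1 c
        refine ⟨Pi.single n 1, fun _ => ?_⟩
        revert hn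
        simp only [Finsupp.llift_apply, Finsupp.lift_apply, Pi.single_apply, smul_eq_mul, mul_ite,
          mul_one, mul_zero, Finsupp.sum_ite_self_eq', Finsupp.coe_zero, Pi.zero_apply]
        generalize (τ α).2 n = a
        decide +revert
      obtain ⟨u, hu⟩ := (ne_univ_iff_exists_notMem (B ∪ (· + δ) ⁻¹' B)).1 fun e => by
        have := (mk_union_le _ _).trans_lt (add_lt_of_lt aleph0_le_continuum hB
          ((mk_preimage_of_injective _ _ (add_left_injective δ)).trans_lt hB))
        simp [e] at this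
      by_cases c : Finsupp.llift F F F ℕ u (τ α).2 = 1
      · exact ⟨u, fun e => hu (Or.inl e), fun _ => c⟩
      refine ⟨u + δ, fun e => hu (Or.inr e), fun e => ?_⟩
      rw [map_add, LinearMap.add_apply, hδ e]
      revert c
      generalize Finsupp.llift F F F ℕ u (τ α).2 = a
      decide +revert
    have u3 := fun c hc e => u1 (mem_iUnion.2 ⟨⟨c, hc⟩, e⟩)
    by_cases c : Disjoint (span F (range (τ α).1)) (LinearMap.range (ι none))
    · obtain ⟨w, rfl, w2, w3⟩ := ext _ c u
      exact ⟨w, w2, u3, fun _ e => ⟨w3, (P_ι ..).trans (u2 e)⟩⟩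
    · obtain ⟨w, rfl, w2, -⟩ := ext 0 (by simp) u
      exact ⟨w, w2, u3, fun e => absurd e c⟩
  refine ⟨w, fun α => (hw α).2.1, fun d s h1 h2 => ⟨t (d, s), ?_⟩⟩
  have := (hw (t (d, s))).2.2
  simp only [τ, Function.leftInverse_invFun t.injective (d, s)] at this
  exact this h1 h2

lemma key {w : K → Ω} (hw : ∀ α, ∀ c : F × F, c ≠ 0 →
      c.1 • blk none (w α) + c.2 • A (blk none (w α)) ∉ Z fun β : Iio α => w β) (ξ : K)
    (J : Finset K) : ∀ a ∈ span F (w '' J), ∀ b ∈ span F (w '' J), blk (some ξ) a = blk none b →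
      blk (some ξ) b = A (blk none a) → a = 0 ∧ b = 0 := by
  induction J using Finset.induction_on_max with
  | empty => simp +contextual
  | insert α J hJ ih =>
    intro a ha b hb h1 h2
    rw [Finset.coe_insert, image_insert_eq, mem_span_insert] at ha hb
    obtain ⟨c, a, ha, rfl⟩ := ha
    obtain ⟨c', b, hb, rfl⟩ := hb
    have k1 : ∀ k, ∀ a ∈ span F (w '' J), blk k a ∈ Z fun β : Iio α => w β := fun k =>
      span_le (p := comap (blk k) (Z fun β : Iio α => w β)).2 (image_subset_iff.2 fun β hβ =>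
        subset_span (Or.inl (mem_iUnion.2 ⟨⟨β, hJ β hβ⟩, k, rfl⟩)))
    have k2 : ∀ a ∈ span F (w '' J), A (blk none a) ∈ Z fun β : Iio α => w β :=
      span_le (p := comap (A ∘ₗ blk none) (Z fun β : Iio α => w β)).2 (image_subset_iff.2 fun β hβ =>
        subset_span (Or.inr ⟨⟨β, hJ β hβ⟩, rfl⟩))
    simp only [map_add, map_smul] at h1 h2
    have e1 := sub_mem (k1 (some ξ) a ha) (k1 none b hb)
    have e2 := sub_mem (k1 (some ξ) b hb) (k2 a ha)
    rw [sub_eq_sub_iff_add_eq_add.2 ((add_comm _ _).trans h1)] at e1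
    rw [sub_eq_sub_iff_add_eq_add.2 ((add_comm _ _).trans h2)] at e2
    have : c = 0 ∧ c' = 0 := by
      by_contra hc
      have h3 : ∀ x : F, x = 0 ∨ x = 1 := by decide
      rcases h3 c with rfl | rfl <;> rcases h3 c' with rfl | rfl
      · exact hc ⟨rfl, rfl⟩
      · exact hw α (1, 0) (by decide) (by simpa using e1)
      · exact hw α (0, 1) (by decide) (by simpa using e2)
      · exact hw α (1, -1) (by decide) (by
          simpa [← sub_eq_add_neg, -ZMod.neg_eq_self_mod_two] using sub_mem e1 e2)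
    obtain ⟨rfl, rfl⟩ := this
    simpa using ih a ha b hb (by simpa using h1) (by simpa using h2)

theorem main : ∃ (G : Type) (_ : AddCommGroup G) (_ : TopologicalSpace G),
    IsTopologicalAddGroup G ∧ T2Space G ∧ DInd (G × G) ∧ ¬ DInd G := by
  classical
  obtain ⟨w, h1, h2⟩ := seq
  let e : V →ₗ[F] K → F := LinearMap.pi fun α => P (w α)
  let : TopologicalSpace V := .induced e inferInstance
  have he : IsEmbedding e := ⟨⟨rfl⟩, (injective_iff_map_eq_zero _).2 fun v hv => by_contra fun c => by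
    by_cases d : v ∈ LinearMap.range (ι none)
    · obtain ⟨s, rfl⟩ := d
      obtain ⟨α, -, a⟩ := h2 0 s (by simp) fun e => c (e ▸ map_zero _)
      exact one_ne_zero (a.symm.trans (congrFun hv α))
    · obtain ⟨α, a, b⟩ := h2 (fun _ => v + ι none (.single 0 1)) (.single 0 1) (by
        rw [range_const, disjoint_comm, disjoint_span_singleton]
        exact fun e => absurd ((Submodule.add_mem_iff_left _ (LinearMap.mem_range_self _ _)).1 e) d) (by simp)
      have := a 0
      rw [map_add, b, show P (w α) v = 0 from congrFun hv α, zero_add] at this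
      exact one_ne_zero this⟩
  refine ⟨V, inferInstance, inferInstance, he.isInducing.topologicalAddGroup e,
    he.t2Space, ⟨inferInstance, fun S hS => ?_⟩, fun h => ?_⟩
  · obtain ⟨ξ, hξ⟩ := (ne_univ_iff_exists_notMem (⋃ x : S, some ⁻¹' (Prod.fst ''
        (x.1.1.support ∪ x.1.2.support : Set (Option K × ℕ))))).1 fun e => by
      have := (mk_iUnion_le_sum_mk.trans (sum_le_sum _ (fun _ => ℵ₀) fun x : S =>
        le_aleph0_iff_set_countable.2 ((((x.1.1.support.countable_toSet.union
          x.1.2.support.countable_toSet).image Prod.fst).preimage (Option.some_injective K))))).trans_lt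
        (by simpa using mul_lt_of_lt aleph0_le_continuum hS aleph0_lt_continuum)
      simp [e] at this
    let sh : (ℕ →₀ F) →ₗ[F] ℕ →₀ F := Finsupp.lcomapDomain Nat.succ Nat.succ_injective
    let L : (ℕ →₀ F) × (ℕ →₀ F) →ₗ[F] V × V :=
      ((ι (some ξ)).coprod (ι none ∘ₗ sh)).prod ((ι none).coprod (ι (some ξ)))
    refine ⟨(LinearMap.range L).toAddSubgroup, (countable_range L).to_subtype, dense_of
      (Sum.elim (fun α => P (w α) ∘ₗ .fst F V V) fun α => P (w α) ∘ₗ .snd F V V) ?_ _
      fun ψ hψ h => ?_, eq_bot_iff.2 ?_⟩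
    · exact (Homeomorph.sumArrowHomeomorphProdArrow.isInducing.of_comp_iff).1
        (he.isInducing.prodMap he.isInducing)
    · obtain ⟨⟨a, b⟩, ⟨ha, hb⟩, rfl⟩ : ψ ∈ ((span F (range w)).prod (span F (range w))).map
          ((LinearMap.lcomp F F (.fst F V V) ∘ₗ P.toLinearMap).coprod
            (LinearMap.lcomp F F (.snd F V V) ∘ₗ P.toLinearMap)) := by
        refine span_le.2 ?_ hψ
        rintro _ ⟨α | α, rfl⟩
        · exact ⟨(w α, 0), ⟨subset_span ⟨α, rfl⟩, zero_mem _⟩, by simp; rfl⟩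
        · exact ⟨(0, w α), ⟨zero_mem _, subset_span ⟨α, rfl⟩⟩, by simp; rfl⟩
      obtain ⟨J, hJ⟩ : ∃ J : Finset K, a ∈ span F (w '' J) ∧ b ∈ span F (w '' J) := by
        obtain ⟨c, rfl⟩ := Finsupp.mem_span_range_iff_exists_finsupp.1 ha
        obtain ⟨c', rfl⟩ := Finsupp.mem_span_range_iff_exists_finsupp.1 hb
        exact ⟨c.support ∪ c'.support, sum_mem fun i hi => smul_mem _ _
          (subset_span ⟨i, Finset.mem_union_left _ hi, rfl⟩), sum_mem fun i hi => smul_mem _ _
          (subset_span ⟨i, Finset.mem_union_right _ hi, rfl⟩)⟩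
      have hn : ∀ x y : F, x + y = 0 → x = y := by decide
      obtain ⟨rfl, rfl⟩ := key h1 ξ J a hJ.1 b hJ.2
        (funext fun n => hn _ _ (by simpa [L] using h _ ⟨(.single n 1, 0), rfl⟩))
        (funext fun n => hn _ _ (by
          have := h _ ⟨(0, .single n 1), rfl⟩
          cases n <;> simpa [L, A, sh, add_comm] using this))
      exact map_zero _
    · rintro _ ⟨a, ⟨x, y⟩, rfl⟩
      have k : ∀ v : V, (∀ n, (some ξ, n) ∉ v.support) → ∀ x y, v = ι (some ξ) x + ι none y → x = 0 :=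
        fun v hv x y e => Finsupp.ext fun n => by
          have := Finsupp.notMem_support_iff.1 (hv n)
          rwa [e, Finsupp.add_apply, Finsupp.lmapDomain_apply, Finsupp.lmapDomain_apply,
            Finsupp.mapDomain_apply (Prod.mk_right_injective _),
            Finsupp.mapDomain_of_notMem_range _ _ (by simp), add_zero] at this
      obtain rfl := k _ (fun n c => hξ (mem_iUnion.2 ⟨⟨_, a⟩, _, Or.inl c, rfl⟩)) x (sh y) rfl
      obtain rfl := k _ (fun n c => hξ (mem_iUnion.2 ⟨⟨_, a⟩, _, Or.inr c, rfl⟩)) y 0 (add_comm _ _)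
      exact map_zero L
  obtain ⟨D, d1, d2, d3⟩ := h.2 (LinearMap.range (ι none)).toAddSubgroup
    ((le_aleph0_iff_set_countable.2 (countable_range (ι none))).trans_lt aleph0_lt_continuum)
  obtain ⟨d, hd⟩ := (D : Set V).to_countable.exists_eq_range ⟨0, D.zero_mem⟩
  obtain ⟨α, a, b⟩ := h2 d (.single 0 1) (disjoint_def.2 fun v h1 h2 => (eq_bot_iff.1 d3)
    ⟨h2, span_le (p := AddSubgroup.toZModSubmodule 2 D).2 hd.ge h1⟩) (by simp)
  exact one_ne_zero (b.symm.trans (closure_minimal (t := {v | e v α = 0}) (hd ▸ range_subset_iff.2 a)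
    (isClosed_eq ((continuous_apply α).comp he.continuous) continuous_const) (d2 _)))

end Pool.Agent.H42.Dind1
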