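import Mathlib

/-! d-independent groups. -/

namespace Pool.Agent.H42.DindDefs

open Cardinal

/-- `G` is non-trivial and each subgroup of size `< 𝔠` meets some countable dense subgroup
trivially. -/
def DInd (G : Type) [AddCommGroup G] [TopologicalSpace G] : Prop :=
  Nontrivial G ∧ ∀ S : AddSubgroup G, #S < 𝔠 →
    ∃ D : AddSubgroup G, Countable D ∧ Dense (D : Set G) ∧ S ⊓ D = ⊥

end Pool.Agent.H42.DindDefs
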