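import Pool.Agent.H42.Stat

/-! A strongly distributive poset on which the closure player has no winning strategy. -/

namespace Pool.Agent.H42.Distr

open Cardinal Set Pool.Agent.H42.Reg Pool.Agent.H42.Stat

universe u

variable {T : Type u} [LinearOrder T]

/-- `δ` is an accumulation point of `c`. -/
def Acc (c : Set T) (δ : T) : Prop := (∃ i, i < δ) ∧ ∀ i < δ, ∃ x ∈ c, i < x ∧ x < δ

/-- Conditions. -/
def Cond (κ : Cardinal.{u}) (S : Set T) (c : Set T) : Prop := #c ≤ κ ∧ ∀ δ ∈ S, ¬ Acc c δ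

/-- End extension. -/
def EE (d c : Set T) : Prop := c ⊆ d ∧ ∀ x ∈ d, ∀ y ∈ c, x ≤ y → x ∈ c

theorem EE.rfl {c : Set T} : EE c c := ⟨subset_rfl, fun _ h _ _ _ => h⟩

theorem EE.trans {e d c : Set T} (h1 : EE e d) (h2 : EE d c) : EE e c :=
  ⟨h2.1.trans h1.1, fun x hx y hy hxy => h2.2 x (h1.2 x hx y (h2.1 hy) hxy) y hy hxy⟩

/-- The poset. -/
def PP (κ : Cardinal.{u}) (S : Set T) : Type u := {c : Set T // Cond κ S c}

instance (κ : Cardinal.{u}) (S : Set T) : PartialOrder (PP κ S) where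
  le d c := EE d.1 c.1
  le_refl _ := EE.rfl
  le_trans _ _ _ := EE.trans
  le_antisymm _ _ h1 h2 := Subtype.ext (h2.1.antisymm h1.1)

instance (κ : Cardinal.{u}) (S : Set T) : OrderTop (PP κ S) where
  top := ⟨∅, by simp, fun δ _ h => by
    obtain ⟨i, hi⟩ := h.1
    obtain ⟨x, hx, -⟩ := h.2 i hi
    exact hx⟩
  le_top _ := ⟨empty_subset _, fun _ _ _ h => h.elim⟩

theorem cond_insert {κ : Cardinal.{u}} (hκ : ℵ₀ ≤ κ) {S c : Set T} {ξ : T} (hc : Cond κ S c)
    (h : ∀ x ∈ c, x < ξ) : Cond κ S (insert ξ c) ∧ EE (insert ξ c) c := by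
  refine ⟨⟨mk_insert_le.trans ((add_le_add hc.1 (one_le_aleph0.trans hκ)).trans_eq
    (add_eq_self hκ)), fun δ hδ hA => hc.2 δ hδ ⟨hA.1, fun i hi => ?_⟩⟩, subset_insert _ _, ?_⟩
  · obtain ⟨x, hx, h1, h2⟩ := hA.2 i hi
    rcases hx with rfl | hx
    · obtain ⟨y, hy, h3, -⟩ := hA.2 x h2
      rcases hy with rfl | hy
      · exact absurd h3 (lt_irrefl _)
      · exact absurd h3 (h y hy).not_gt
    · exact ⟨x, hx, h1, h2⟩
  · rintro x (rfl | hx) y hy hxy
    · exact absurd hxy (h y hy).not_ge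
    · exact hx

theorem bdd_ord (hT : RegUnc T) {κ : Cardinal.{u}} (hκ : κ < #T) {α : Ordinal.{u}}
    (hα : α ≤ κ.ord) (f : Ordinal.{u} → T) : ∃ b, ∀ β < α, f β < b := by
  obtain ⟨b, hb⟩ := hT.bdd_fun (ι := κ.ord.ToType) (by rwa [mk_ord_toType])
    (fun i => f (Ordinal.ToType.mk.symm i))
  refine ⟨b, fun β hβ => ?_⟩
  simpa using hb (Ordinal.ToType.mk ⟨β, hβ.trans_le hα⟩)

/-- Closed copies of `κ` avoiding `S` inside every club. -/
def Fat (κ : Cardinal.{u}) (S : Set T) : Prop :=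
  ∀ (g : T → T) (δ : T), ∃ k : Ordinal.{u} → T, ∀ α < κ.ord, k α ∉ S ∧ δ < k α ∧
    (∀ β < α, k β < k α) ∧ (∀ i < k α, g i < k α) ∧
    (Order.IsSuccLimit α → ∀ i < k α, ∃ β < α, i < k β)

theorem fat_empty [WellFoundedLT T] (hT : RegUnc T) {κ : Cardinal.{u}} (hκ : κ < #T) :
    Fat κ (∅ : Set T) := by
  classical
  intro g δ
  let Q : Ordinal.{u} → (Ordinal.{u} → T) → T → Prop := fun α k c => δ < c ∧
    (∀ β < α, k β < c) ∧ (∀ i < c, g i < c) ∧ (Order.IsSuccLimit α → ∀ i < c, ∃ β < α, i < k β)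
  obtain ⟨k, hk⟩ := exists_rec (T := Ordinal.{u}) δ
    (fun α k => if h : ∃ c, Q α k c then h.choose else δ)
    (by
      intro α f f' h
      have : Q α f = Q α f' := by
        funext c
        simp only [Q]
        congr 2
        · exact propext (forall₂_congr fun β hβ => by rw [h β hβ])
        · congr 1
          refine propext (imp_congr_right fun _ => forall₂_congr fun i _ =>
            exists_congr fun β => and_congr_right fun hβ => by rw [h β hβ])
      simp only [this])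
  have key : ∀ α < κ.ord, Q α k (k α) := by
    intro α
    induction α using WellFoundedLT.induction with
    | ind α ih =>
      intro hα
      have hex : ∃ c, Q α k c := by
        obtain ⟨b, hb⟩ := bdd_ord hT hκ hα.le k
        by_cases hl : Order.IsSuccLimit α
        · obtain ⟨c, h1, -, h3⟩ := exists_lub (k '' Iio α) b
            (by rintro _ ⟨β, hβ, rfl⟩; exact (hb β hβ).le)
          have h4 : ∀ β < α, k β < c := fun β hβ =>
            ((ih _ (hl.succ_lt hβ) ((hl.succ_lt hβ).trans hα)).2.1 β (Order.lt_succ β)).trans_le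
              (h1 _ ⟨_, hl.succ_lt hβ, rfl⟩)
          refine ⟨c, (ih 0 hl.bot_lt (hl.bot_lt.trans hα)).1.trans (h4 0 hl.bot_lt), h4,
            fun i hi => ?_, fun _ i hi => ?_⟩
          · obtain ⟨_, ⟨β, hβ, rfl⟩, h⟩ := h3 i hi
            exact ((ih β hβ (lt_trans hβ hα)).2.2.1 i h).trans (h4 β hβ)
          · obtain ⟨_, ⟨β, hβ, rfl⟩, h⟩ := h3 i hi
            exact ⟨β, hβ, h⟩
        · obtain ⟨c, h1, h2⟩ := hT.closure_nat (fun _ => g) (max b δ)
          exact ⟨c, (le_max_right _ _).trans_lt h1,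
            fun β hβ => (hb β hβ).trans ((le_max_left _ _).trans_lt h1), h2 0,
            fun h => absurd h hl⟩
      rw [hk α, dif_pos hex]
      exact hex.choose_spec
  exact ⟨k, fun α hα => ⟨notMem_empty _, key α hα⟩⟩

theorem exists_fat [WellFoundedLT T] (hT : RegUnc T) {κ : Cardinal.{u}}
    (hκ : Order.succ κ < #T) : ∃ S : Set T, Stat S ∧ (∀ δ ∈ S, CofW δ) ∧ Fat κ S := by
  have hc : #(Order.succ κ).ord.ToType = Order.succ κ := mk_ord_toType _
  obtain ⟨S, h1, h2, h3⟩ := solovay hT (ι := (Order.succ κ).ord.ToType) (hc.trans_le hκ.le)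
  by_contra hcon
  push Not at hcon
  have : ∀ i, ∃ (g : T → T) (δ : T), ¬ ∃ k : Ordinal.{u} → T, ∀ α < κ.ord, k α ∉ S i ∧ δ < k α ∧
      (∀ β < α, k β < k α) ∧ (∀ i < k α, g i < k α) ∧
      (Order.IsSuccLimit α → ∀ i < k α, ∃ β < α, i < k β) := by
    intro i
    have := hcon (S i) (h1 i) (h2 i)
    unfold Fat at this
    simpa only [not_forall] using this
  choose g δ hg using this
  choose G hG using fun x => hT.bdd_fun (hc.trans_lt hκ) (fun i => g i x)
  obtain ⟨d, hd⟩ := hT.bdd_fun (hc.trans_lt hκ) δ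
  obtain ⟨k, hk⟩ := fat_empty hT ((Order.lt_succ κ).trans hκ) G d
  have : ∃ i, ∀ α < κ.ord, k α ∉ S i := by
    by_contra h
    push Not at h
    choose a ha1 ha2 using h
    have : #(Order.succ κ).ord.ToType ≤ #κ.ord.ToType := by
      refine mk_le_of_injective (f := fun i => Ordinal.ToType.mk ⟨a i, ha1 i⟩) fun i j hij => ?_
      have h4 : a i = a j := congrArg Subtype.val (Ordinal.ToType.mk.injective hij)
      exact h3 i j _ (ha2 i) (h4 ▸ ha2 j)
    rw [hc, mk_ord_toType] at this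
    exact this.not_gt (Order.lt_succ κ)
  obtain ⟨i, hi⟩ := this
  refine hg i ⟨k, fun α hα => ⟨hi α hα, (hd i).trans (hk α hα).2.1, (hk α hα).2.2.1,
    fun x hx => (hG x i).trans ((hk α hα).2.2.2.1 x hx), (hk α hα).2.2.2.2⟩⟩

theorem distr [WellFoundedLT T] (hT : RegUnc T) {κ : Cardinal.{u}} (hκ : ℵ₀ ≤ κ) (hκT : κ < #T)
    (hpow : ∀ μ < #T, μ ^ κ < #T) {S : Set T} (hS : Fat κ S) (D : Ordinal.{u} → Set (PP κ S))
    (hD : ∀ α < κ.ord, ∀ p, ∃ q ∈ D α, q ≤ p) (p : PP κ S) :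
    ∃ q : Ordinal.{u} → PP κ S, q 0 ≤ p ∧ ∀ α < κ.ord, q α ∈ D α ∧ ∀ β < α, q α ≤ q β := by
  classical
  have hnx : ∀ (α : Ordinal.{u}) (c : PP κ S), ∃ q : PP κ S, α < κ.ord → q ∈ D α ∧ q ≤ c := by
    intro α c
    by_cases h : α < κ.ord
    · obtain ⟨q, h1, h2⟩ := hD α h c; exact ⟨q, fun _ => ⟨h1, h2⟩⟩
    · exact ⟨c, fun h' => absurd h' h⟩
  choose nx hnx using hnx
  choose bnd hbnd using fun c : PP κ S => hT.bdd c.1 (c.2.1.trans_lt hκT)
  have hg : ∀ i : T, ∃ b, ∀ α < κ.ord, ∀ c : PP κ S, c.1 ⊆ Iic i → bnd (nx α c) < b := by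
    intro i
    have h1 : #{c : PP κ S // c.1 ⊆ Iic i} < #T := by
      refine lt_of_le_of_lt ?_ ((mk_bounded_subset_le (Iic i) κ).trans_lt
        (hpow _ (max_lt (hT.init_le i) hT.unc)))
      refine mk_le_of_injective (f := fun c => ⟨c.1.1, c.2, c.1.2.1⟩) fun c c' h => ?_
      exact Subtype.ext (Subtype.ext (Subtype.mk.inj h))
    choose B hB using fun c : PP κ S => bdd_ord hT hκT le_rfl (fun α => bnd (nx α c))
    obtain ⟨b, hb⟩ := hT.bdd_fun h1 (fun c => B c.1)
    exact ⟨b, fun α hα c hc => (hB c α hα).trans (hb ⟨c, hc⟩)⟩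
  choose g hg using hg
  obtain ⟨k, hk⟩ := hS g (bnd p)
  let v : Ordinal.{u} → (Ordinal.{u} → PP κ S) → Set T := fun α f => p.1 ∪ ⋃ β < α, (f β).1
  obtain ⟨q, hq⟩ := exists_rec (T := Ordinal.{u}) p
    (fun α f => if h : Cond κ S (insert (k α) (v α f)) then nx α ⟨_, h⟩ else p)
    (by
      intro α f f' h
      have : v α f = v α f' := by
        simp only [v]
        congr 1
        exact iUnion₂_congr fun β hβ => by rw [h β hβ]
      simp only [this])
  have hlim : Order.IsSuccLimit κ.ord := isSuccLimit_ord hκ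
  have key : ∀ α < κ.ord, q α ∈ D α ∧ q α ≤ p ∧ (∀ β < α, q α ≤ q β) ∧ k α ∈ (q α).1 ∧
      ∀ x ∈ (q α).1, x < k (Order.succ α) := by
    intro α
    induction α using WellFoundedLT.induction with
    | ind α ih =>
      intro hα
      have ih' := fun β (hβ : β < α) => ih β hβ (hβ.trans hα)
      have hv1 : ∀ x ∈ v α q, x < k α := by
        rintro x (hx | hx)
        · exact (hbnd p x hx).trans (hk α hα).2.1
        · obtain ⟨β, hβ, hx⟩ := mem_iUnion₂.1 hx
          refine ((ih' β hβ).2.2.2.2 x hx).trans_le ?_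
          rcases (Order.succ_le_of_lt hβ).eq_or_lt with h | h
          · rw [h]
          · exact ((hk α hα).2.2.1 _ h).le
      have hv2 : EE (v α q) p.1 := by
        refine ⟨subset_union_left, ?_⟩
        rintro x (hx | hx) y hy hxy
        · exact hx
        · obtain ⟨β, hβ, hx⟩ := mem_iUnion₂.1 hx
          exact (ih' β hβ).2.1.2 x hx y hy hxy
      have hv3 : ∀ β < α, EE (v α q) (q β).1 := by
        intro β hβ
        refine ⟨fun x hx => Or.inr (mem_iUnion₂.2 ⟨β, hβ, hx⟩), ?_⟩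
        rintro x (hx | hx) y hy hxy
        · exact (ih' β hβ).2.1.1 hx
        · obtain ⟨γ, hγ, hx⟩ := mem_iUnion₂.1 hx
          rcases lt_trichotomy γ β with h | h | h
          · exact ((ih' β hβ).2.2.1 γ h).1 hx
          · exact h ▸ hx
          · exact ((ih' γ hγ).2.2.1 β h).2 x hx y hy hxy
      have hacc : ∀ (c : PP κ S) (δ : T), EE (v α q) c.1 → δ ∈ S → Acc (v α q) δ →
          (∃ y ∈ c.1, δ ≤ y) ∨ (v α q ⊆ c.1) → False := by
        intro c δ hE hδ hA h
        refine c.2.2 δ hδ ⟨hA.1, fun i hi => ?_⟩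
        obtain ⟨x, hx, h1, h2⟩ := hA.2 i hi
        rcases h with ⟨y, hy, h⟩ | h
        · exact ⟨x, hE.2 x hx y hy (h2.le.trans h), h1, h2⟩
        · exact ⟨x, h hx, h1, h2⟩
      have hv4 : Cond κ S (v α q) := by
        constructor
        · have hsub : v α q ⊆ p.1 ∪ ⋃ i : {i : κ.ord.ToType //
              (Ordinal.ToType.mk.symm i : Ordinal.{u}) < α}, (q (Ordinal.ToType.mk.symm i.1)).1 := by
            rintro x (hx | hx)
            · exact Or.inl hx
            · obtain ⟨β, hβ, hx⟩ := mem_iUnion₂.1 hx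
              refine Or.inr (mem_iUnion.2 ⟨⟨Ordinal.ToType.mk ⟨β, hβ.trans hα⟩, by simpa using hβ⟩,
                by simpa using hx⟩)
          refine (mk_le_mk_of_subset hsub).trans ((mk_union_le _ _).trans
            ((add_le_add p.2.1 ?_).trans_eq (add_eq_self hκ)))
          refine (mk_iUnion_le _).trans ((mul_le_mul' ?_ (ciSup_le' fun i => (q _).2.1)).trans_eq
            (mul_eq_self hκ))
          exact (mk_subtype_le _).trans_eq (mk_ord_toType κ)
        · intro δ hδ hA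
          rcases Ordinal.zero_or_succ_or_isSuccLimit α with h | ⟨β, h⟩ | h
          · refine hacc p δ hv2 hδ hA (Or.inr ?_)
            rintro x (hx | hx)
            · exact hx
            · obtain ⟨β, hβ, hx⟩ := mem_iUnion₂.1 hx
              rw [h] at hβ
              exact absurd hβ not_lt_zero
          · have hβ : β < α := h ▸ Order.lt_succ β
            refine hacc (q β) δ (hv3 β hβ) hδ hA (Or.inr ?_)
            rintro x (hx | hx)
            · exact (ih' β hβ).2.1.1 hx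
            · obtain ⟨γ, hγ, hx⟩ := mem_iUnion₂.1 hx
              rw [← h] at hγ
              rcases (Order.le_of_lt_succ hγ).eq_or_lt with h1 | h1
              · exact h1 ▸ hx
              · exact ((ih' β hβ).2.2.1 γ h1).1 hx
          · rcases lt_trichotomy δ (k α) with h1 | h1 | h1
            · obtain ⟨β, hβ, h2⟩ := (hk α hα).2.2.2.2 h δ h1
              exact hacc (q β) δ (hv3 β hβ) hδ hA (Or.inl ⟨_, (ih' β hβ).2.2.2.1, h2.le⟩)
            · exact (hk α hα).1 (h1 ▸ hδ)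
            · obtain ⟨x, hx, h2, -⟩ := hA.2 _ h1
              exact h2.not_gt (hv1 x hx)
      obtain ⟨c1, c2⟩ := cond_insert hκ hv4 hv1
      have e : q α = nx α ⟨_, c1⟩ := by rw [hq α, dif_pos c1]
      have c3 : EE (q α).1 (insert (k α) (v α q)) := e ▸ (hnx α ⟨_, c1⟩ hα).2
      refine ⟨e ▸ (hnx α _ hα).1, (c3.trans c2).trans hv2,
        fun β hβ => (c3.trans c2).trans (hv3 β hβ), c3.1 (mem_insert _ _), fun x hx => ?_⟩
      have c4 := hg (k α) α hα ⟨_, c1⟩ (by
        rintro y (rfl | hy)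
        · exact le_rfl
        · exact (hv1 y hy).le)
      rw [← e] at c4
      have hs := hk _ (hlim.succ_lt hα)
      exact (hbnd _ x hx).trans (c4.trans (hs.2.2.2.1 _ (hs.2.2.1 _ (Order.lt_succ α))))
  exact ⟨q, (key 0 hlim.bot_lt).2.1, fun α hα => ⟨(key α hα).1, (key α hα).2.2.1⟩⟩

theorem no_strategy [WellFoundedLT T] (hT : RegUnc T) {κ : Cardinal.{u}} (hκ : ℵ₀ < κ)
    (hκT : κ < #T) (hpow : ∀ μ < #T, μ ^ κ < #T) {S : Set T} (hS : Stat S)
    (hS' : ∀ δ ∈ S, CofW δ) (σ : (α : Ordinal.{u}) → (Iio α → PP κ S) → PP κ S)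
    (hσ : ∀ β < κ.ord, β % 2 = 0 → ∀ p : Ordinal.{u} → PP κ S,
      (∀ α < β, (∀ γ < α, p α ≤ p γ) ∧ (α % 2 = 0 → p α = σ α fun γ => p γ)) →
      ∀ γ < β, σ β (fun γ => p γ) ≤ p γ) : False := by
  classical
  have hω : Ordinal.omega0 < κ.ord := by rw [← ord_aleph0]; exact ord_lt_ord.2 hκ
  have hnat : ∀ α : Ordinal.{u}, ∃ n : ℕ, α < Ordinal.omega0 → α = n := by
    intro α
    by_cases h : α < Ordinal.omega0
    · obtain ⟨n, hn⟩ := Ordinal.lt_omega0.1 h; exact ⟨n, fun _ => hn⟩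
    · exact ⟨0, fun h' => absurd h' h⟩
  choose nt hnt using hnat
  have hnt' : ∀ n : ℕ, nt n = n := fun n => by
    have := hnt n (Ordinal.natCast_lt_omega0 n)
    exact_mod_cast this.symm
  have hlt : ∀ (n : ℕ) (γ : Ordinal.{u}), γ < n → nt γ < n := fun n γ h => by
    rw [hnt γ (h.trans (Ordinal.natCast_lt_omega0 n))] at h
    exact_mod_cast h
  choose bnd hbnd using fun c : PP κ S => hT.bdd c.1 (c.2.1.trans_lt hκT)
  let ins : T → PP κ S → PP κ S := fun x c => ⟨insert (max x (bnd c)) c.1,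
    (cond_insert hκ.le c.2 fun y hy => (hbnd c y hy).trans_le (le_max_right _ _)).1⟩
  have hins : ∀ x c, ins x c ≤ c := fun x c =>
    (cond_insert hκ.le c.2 fun y hy => (hbnd c y hy).trans_le (le_max_right _ _)).2
  let Φ : (ℕ → T) → ℕ → (ℕ → PP κ S) → PP κ S := fun a n f =>
    if n % 2 = 0 then σ n (fun γ => f (nt γ)) else ins (a (n / 2)) (f (n - 1))
  have hΦ : ∀ a a' n f f', a (n / 2) = a' (n / 2) → (∀ i < n, f i = f' i) →
      Φ a n f = Φ a' n f' := by
    intro a a' n f f' h1 h2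
    simp only [Φ]
    split_ifs with h
    · congr 1
      funext γ
      exact h2 _ (hlt n γ γ.2)
    · rw [h1, h2 (n - 1) (by omega)]
  choose Q hQ using fun a => exists_rec (T := ℕ) (⊤ : PP κ S) (Φ a) (fun n f f' => hΦ a a n f f' rfl)
  have hQc : ∀ a a' n, (∀ m ≤ n, a m = a' m) → Q a n = Q a' n := by
    intro a a' n
    induction n using Nat.strong_induction_on with
    | _ n ih =>
      intro h
      rw [hQ a n, hQ a' n]
      exact hΦ a a' n _ _ (h _ (Nat.div_le_self n 2))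
        fun i hi => ih i hi fun m hm => h m (hm.trans hi.le)
  have hg : ∀ i : T, ∃ b, ∀ (a : ℕ → Iic i) (n : ℕ), bnd (Q (fun m => a m) n) < b := by
    intro i
    have h1 : #(ℕ → Iic i) < #T := by
      refine lt_of_le_of_lt ?_ (hpow _ (max_lt (hT.init_le i) hT.unc))
      have : #(ℕ → Iic i) = #(Iic i) ^ (ℵ₀ : Cardinal.{u}) := by simp
      rw [this]
      exact (power_le_power_right (le_max_left _ _)).trans
        (power_le_power_left ((aleph0_pos.trans_le (le_max_right _ _)).ne') hκ.le)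
    choose B hB using fun a : ℕ → Iic i => hT.bdd_nat (fun n => bnd (Q (fun m => a m) n))
    obtain ⟨b, hb⟩ := hT.bdd_fun h1 B
    exact ⟨b, fun a n => (hB a n).trans (hb a)⟩
  choose g hg using hg
  obtain ⟨δ, hδ, h0, hcl⟩ := hS g
  obtain ⟨a, ha1, ha2⟩ := hS' δ hδ
  have hb : ∀ n, bnd (Q a n) < δ := by
    intro n
    obtain ⟨m, -, hm⟩ := Finset.exists_max_image (Finset.range (n + 1)) a ⟨0, by simp⟩
    let a' : ℕ → Iic (a m) := fun j => if h : j ≤ n then
      ⟨a j, hm j (Finset.mem_range.2 (Nat.lt_succ_of_le h))⟩ else ⟨a m, le_rfl⟩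
    rw [hQc a (fun j => a' j) n fun j hj => by simp [a', hj]]
    exact (hg _ a' n).trans (hcl _ (ha1 m))
  have hmod : ∀ n : ℕ, ((n : Ordinal.{u}) % 2 = 0) ↔ n % 2 = 0 := fun n => by
    have : (n : Ordinal.{u}) % 2 = ((n % 2 : ℕ) : Ordinal.{u}) := by
      rw [Ordinal.natCast_mod]; rfl
    rw [this, Nat.cast_eq_zero]
  have hstep : ∀ β ≤ Ordinal.omega0, (∀ n : ℕ, (n : Ordinal.{u}) < β → ∀ m < n, Q a n ≤ Q a m) →
      ∀ α < β, (∀ γ < α, Q a (nt α) ≤ Q a (nt γ)) ∧
        (α % 2 = 0 → Q a (nt α) = σ α fun γ => Q a (nt γ)) := by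
    intro β hβ h α hα
    obtain ⟨n, rfl⟩ := Ordinal.lt_omega0.1 (hα.trans_le hβ)
    rw [hnt']
    refine ⟨fun γ hγ => h n hα _ (hlt n γ hγ), fun h2 => ?_⟩
    rw [hQ a n]
    exact if_pos ((hmod n).1 h2)
  have hleg : ∀ n, ∀ m < n, Q a n ≤ Q a m := by
    intro n
    induction n using Nat.strong_induction_on with
    | _ n ih =>
      intro m hm
      by_cases h : n % 2 = 0
      · have := hσ n ((Ordinal.natCast_lt_omega0 n).trans hω) ((hmod n).2 h) (fun α => Q a (nt α))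
          (hstep n (Ordinal.natCast_lt_omega0 n).le fun k hk => ih k (by exact_mod_cast hk))
          m (by exact_mod_cast hm)
        rw [hnt'] at this
        rw [hQ a n]
        simp only [Φ, if_pos h]
        exact this
      · rw [hQ a n]
        simp only [Φ, if_neg h]
        refine (hins _ _).trans ?_
        rcases (show m ≤ n - 1 by omega).eq_or_lt with h1 | h1
        · rw [h1]
        · exact ih (n - 1) (by omega) m h1
  have h2 : (Ordinal.omega0 : Ordinal.{u}) % 2 = 0 := by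
    apply Ordinal.mod_eq_zero_of_dvd
    exact ⟨Ordinal.omega0, (Ordinal.mul_omega0 (by norm_num)
      (Ordinal.natCast_lt_omega0 2)).symm⟩
  have hfin := hσ _ hω h2 (fun α => Q a (nt α)) (hstep _ le_rfl fun n _ => hleg n)
  refine (σ Ordinal.omega0 fun γ => Q a (nt γ)).2.2 δ hδ ⟨h0, fun i hi => ?_⟩
  obtain ⟨n, hn⟩ := ha2 i hi
  refine ⟨max (a n) (bnd (Q a (2 * n))), (hfin (2 * n + 1 : ℕ) (Ordinal.natCast_lt_omega0 _)).1 ?_,
    hn.trans_le (le_max_left _ _), max_lt (ha1 n) (hb _)⟩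
  rw [hnt', hQ a (2 * n + 1)]
  simp only [Φ, if_neg (show ¬ (2 * n + 1) % 2 = 0 by omega),
    show (2 * n + 1) / 2 = n by omega, Nat.add_sub_cancel]
  exact mem_insert _ _

end Pool.Agent.H42.Distr
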