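import Pool.Agent.H42.Sum3

/-! Under `u < g`, property `(*)` implies the Menger property: the main argument. -/

namespace Pool.Agent.H42.Sumg

open Set Filter Cardinal Topology Pool.Agent.H42.Tau Pool.Agent.H42.PolD Pool.Agent.H42.Spl

lemma loc {q : ℕ → ℕ} (hq : StrictMono q) {n : ℕ} (h : q 0 ≤ n) :
    ∃ j, n ∈ Ico (q j) (q (j + 1)) := by
  have a : ∃ j, n < q (j + 1) := ⟨n, hq.le_apply⟩
  refine ⟨Nat.find a, ?_, Nat.find_spec a⟩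
  rcases e : Nat.find a with _ | j
  exacts [h, not_lt.1 (Nat.find_min a (by omega))]

lemma uniq {q : ℕ → ℕ} (hq : StrictMono q) {n j k : ℕ} (a : n ∈ Ico (q j) (q (j + 1)))
    (b : n ∈ Ico (q k) (q (k + 1))) : j = k := by
  have := hq.lt_iff_lt.1 (a.1.trans_lt b.2)
  have := hq.lt_iff_lt.1 (b.1.trans_lt a.2)
  omega

lemma cnt {H : ℕ → ℝ} (hH : Monotone H) {q : ℕ → ℕ} (hq : StrictMono q) (hk : ∀ k, ∃ n : ℕ,
    (∃ l, H l ∈ Ioo (n - 1 : ℝ) (n + 1)) ∧ n ∈ Ico (q k) (q (k + 1))) (j : ℕ) :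
    H j < q (2 * j + 1) := by
  have key : ∃ l, j ≤ l ∧ H l < q (2 * j + 1) := by
    induction j with
    | zero =>
      obtain ⟨n, ⟨l, a1⟩, a2⟩ := hk 0
      exact ⟨l, l.zero_le, a1.2.trans_le (by exact_mod_cast a2.2)⟩
    | succ j ih =>
      obtain ⟨l, a0, a3⟩ := ih
      obtain ⟨n, ⟨m, a1⟩, a2⟩ := hk (2 * j + 1 + 1)
      refine ⟨m, a0.trans_lt (not_le.1 fun c => ?_), a1.2.trans_le (by exact_mod_cast a2.2)⟩
      have a4 : (q (2 * j + 1) : ℝ) + 1 ≤ n := by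
        exact_mod_cast (hq (Nat.lt_succ_self _)).trans_le a2.1
      linarith [hH c, a1.1]
  obtain ⟨l, a1, a2⟩ := key
  exact (hH a1).trans_lt a2

lemma full {Y : Type} (h : uNum < gNum) (Ψ : Y → Set ℕ) : (∃ q : ℕ → ℕ, StrictMono q ∧
    ∀ Z : Set ℕ, Z.Infinite → ∃ y, ({n | ∃ k ∉ Z, n ∈ Ico (q k) (q (k + 1))} ∩ Ψ y).Finite) ∨
    ∃ ι : Type, #ι < dNum ∧ ∃ q : ι → ℕ → ℕ, (∀ b, StrictMono (q b)) ∧
      ∀ y, ∃ b, ∀ k, ∃ n ∈ Ψ y, n ∈ Ico (q b k) (q b (k + 1)) := by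
  refine or_iff_not_imp_left.2 fun hc => ?_
  push Not at hc
  obtain ⟨U, B, a1, a2, a3, a4⟩ := ex_base
  obtain ⟨Z, hZ⟩ := nonempty_iff_ne_empty.2 fun e => (mk_range_le.trans_lt (a2.trans_lt h)).not_ge
    (csInf_le' ⟨range fun b : B => {Z : Set ℕ | Z.Infinite ∧
      ∃ (T : {T : Set ℕ // ∀ y, (T ∩ Ψ y).Infinite}) (N : ℕ), ∀ n ∈ T.1, N ≤ n →
      ∃ m ∈ b.1, ∀ z ∈ Z, z ≤ n ↔ z ≤ m}, rfl, forall_mem_range.2 fun b => gd _ (fun q hq => by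
        obtain ⟨Z, c1, c2⟩ := hc q hq
        exact ⟨⟨_, c2⟩, c1.mono fun k hk n ⟨j, d1, d2⟩ d3 => d1 (uniq hq d2 d3 ▸ hk)⟩)
        (inf_of_mem a1 (a3 _ b.2)), e⟩)
  have hZ' := forall_mem_range.1 hZ
  obtain ⟨b0, hb0, -⟩ := a4 _ univ_mem
  obtain ⟨s, hs⟩ := ex_next (hZ' ⟨b0, hb0⟩).1
  choose u hu using fun b : B => ex_next (inf_of_mem a1 (a3 _ b.2))
  let q : B → ℕ → ℕ := fun b k => (fun j => s (u b (s j) + 1))^[k] 0
  have hq : ∀ b k, q b (k + 1) = s (u b (s (q b k)) + 1) := fun b k =>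
    Function.iterate_succ_apply' _ _ _
  refine ⟨B, a2.trans_lt (h.trans_le g_le_d), q, fun b => strictMono_nat_of_lt_succ fun k => ?_,
    fun y => ?_⟩
  · rw [hq]
    exact ((hs _).2.trans (hu b _).2).trans_lt (hs _).2
  obtain ⟨b, c1, c2⟩ := a4 {m | ∃ n ∈ Ψ y, ∀ z ∈ Z, z ≤ n ↔ z ≤ m} (by
    by_contra c
    obtain ⟨b, c1, c2⟩ := a4 _ (Ultrafilter.compl_mem_iff_notMem.2 c)
    obtain ⟨-, T, N, c3⟩ := hZ' ⟨b, c1⟩
    obtain ⟨n, c4, c5⟩ := (T.2 y).exists_gt N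
    obtain ⟨m, c6, c7⟩ := c3 n c4.1 c5.le
    exact c2 c6 ⟨n, c4.2, c7⟩)
  refine ⟨⟨b, c1⟩, fun k => ?_⟩
  obtain ⟨n, d1, d2⟩ := c2 (hu ⟨b, c1⟩ (s (q ⟨b, c1⟩ k))).1
  refine ⟨n, d1, (hs _).2.trans ((d2 _ (hs _).1).2 (hu _ _).2), ?_⟩
  rw [hq]
  exact not_le.1 fun c => (Nat.lt_of_succ_le (hs _).2).not_ge ((d2 _ (hs _).1).1 c)

theorem pos (h : uNum < gNum) (X : Type) [TopologicalSpace X] [CompletelyRegularSpace X]
    [Nonempty X] (hX : Star X) : Menger X := fun 𝒰 h1 => by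
  by_contra hc
  have := hX.lind
  choose g g1 F g2 g3 g4 using fun i => level (h1 i)
  have hd : ∀ b : ℕ → ℕ, ∃ x, ∀ i, b i < g i x := fun b => by
    by_contra! c
    refine hc ⟨fun i => F i (b i), fun i => ⟨g3 _ _, g2 _ _⟩, fun U hU => ?_,
      eq_univ_of_forall fun x => ?_⟩
    · obtain ⟨i, hi⟩ := mem_iUnion.1 hU
      exact (h1 i).1 U (g2 _ _ hi)
    · obtain ⟨i, hi⟩ := c x
      obtain ⟨U, a1, a2⟩ := g4 i _ x hi
      exact ⟨U, mem_iUnion.2 ⟨i, a1⟩, a2⟩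
  let H : ℕ → X → ℝ := fun i y => ∑ j ∈ Finset.range (i + 1), (|g j y| + 1)
  have H1 : ∀ y, Monotone (H · y) := fun y => monotone_nat_of_le_succ fun i => by
    simp only [H]; rw [Finset.sum_range_succ _ (i + 1)]; linarith [abs_nonneg (g (i + 1) y)]
  have H2 : ∀ i y, g i y ≤ H i y := fun i y => (le_abs_self _).trans ((le_add_of_nonneg_right
    zero_le_one).trans (Finset.single_le_sum (f := fun j => |g j y| + 1) (fun _ _ => by positivity)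
    (Finset.self_mem_range_succ i)))
  have H3 : ∀ (i : ℕ) y, (i : ℝ) + 1 ≤ H i y := fun i y => by
    simpa using Finset.card_nsmul_le_sum (Finset.range (i + 1)) (fun j => |g j y| + 1) 1
      fun j _ => by simp
  let Ψ : X → Set ℕ := fun y => {n | ∃ i, H i y ∈ Ioo (n - 1 : ℝ) (n + 1)}
  have H4 : ∀ i y, ⌊H i y⌋₊ ∈ Ψ y := fun i y => ⟨i,
    by linarith [Nat.floor_le (a := H i y) (by linarith [H3 i y])], Nat.lt_floor_add_one _⟩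
  rcases full h Ψ with ⟨q, hq, a⟩ | ⟨ι, a1, q, a2, a3⟩
  swap
  · obtain ⟨G, -, -, hG⟩ := not_dom a1 fun b j => q b (2 * j + 1)
    obtain ⟨x, hx⟩ := hd G
    obtain ⟨b, hb⟩ := a3 x
    obtain ⟨j, hj⟩ := (hG b).exists
    have : (q b (2 * j + 1) : ℝ) < G j := by exact_mod_cast hj
    linarith [cnt (H1 x) (a2 b) hb j, hx j, H2 j x]
  choose w hw using fun m => hd fun _ => m
  have hw' : ∀ m : ℕ, m ≤ H 0 (w m) := fun m => (hw m 0).le.trans (H2 _ _)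
  let t : ℕ → ℕ := fun k => (fun j => ⌊H 0 (w (q j))⌋₊ + j + 1)^[k] 0
  have ht : ∀ k, t (k + 1) = ⌊H 0 (w (q (t k)))⌋₊ + t k + 1 := fun k =>
    Function.iterate_succ_apply' _ _ _
  have ht' : StrictMono t := strictMono_nat_of_lt_succ fun k => by rw [ht]; omega
  have hqt : StrictMono fun k => q (t k) := hq.comp ht'
  refine kill (fun k => {y | ∃ n ∈ Ψ y, n ∈ Ico (q (t k)) (q (t (k + 1)))}) (fun k => ?_)
    (fun k => w (q (t k))) (fun k => ⟨_, H4 0 _, Nat.le_floor (hw' _), ?_⟩)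
    (fun j k e ⟨n, ⟨i, b1⟩, b2⟩ => ?_) (fun y => infinite_of_forall_exists_gt fun k => ?_)
    (fun Z hZ => ?_) hX
  · simp only [Ψ, mem_ofPred_eq]
    simp only [ofPred_exists, ofPred_and]
    exact isOpen_iUnion fun n => IsOpen.inter (isOpen_iUnion fun i =>
      isOpen_Ioo.preimage (f := H i) (by fun_prop)) isOpen_const
  · exact lt_of_lt_of_le (by rw [ht]; omega) hq.le_apply
  · have : (n : ℝ) + 1 ≤ q (t k) := by exact_mod_cast b2.2.trans_le (hqt.monotone e)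
    linarith [hw' (q (t k)), H1 (w (q (t k))) i.zero_le, b1.2]
  · have b1 : q (t (k + 1)) ≤ ⌊H (q (t (k + 1))) y⌋₊ := Nat.le_floor (by linarith [H3 (q (t (k + 1))) y])
    obtain ⟨j, hj⟩ := loc hqt ((hqt.monotone (Nat.zero_le _)).trans b1)
    exact ⟨j, ⟨_, H4 _ _, hj⟩, Nat.lt_of_succ_lt_succ (hqt.lt_iff_lt.1 (b1.trans_lt hj.2))⟩
  obtain ⟨y, hy⟩ := a {l | ∃ k ∈ Z, l ∈ Ico (t k) (t (k + 1))} ((hZ.image ht'.injective.injOn).mono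
    (image_subset_iff.2 fun k hk => ⟨k, hk, le_rfl, ht' k.lt_succ_self⟩))
  obtain ⟨M, hM⟩ := hy.bddAbove
  refine ⟨y, (finite_le_nat M).subset fun k ⟨⟨n, b1, b2⟩, b3⟩ => ?_⟩
  obtain ⟨l, hl⟩ := loc hq ((hq.monotone (Nat.zero_le _)).trans b2.1)
  refine (hqt.le_apply.trans b2.1).trans (hM ⟨⟨l, fun ⟨j, c1, c2⟩ => b3 ?_, hl⟩, b1⟩)
  exact uniq ht' c2 ⟨Nat.le_of_lt_succ (hq.lt_iff_lt.1 (b2.1.trans_lt hl.2)),
    hq.lt_iff_lt.1 (hl.1.trans_lt b2.2)⟩ ▸ c1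

end Pool.Agent.H42.Sumg
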