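import Pool.Agent.H42.BG3
import Pool.Agent.H42.Sum4

/-! Closed sets in which late coordinates can be switched on, levels, limits. -/

namespace Pool.Agent.H42.Dlt

open Set Filter Topology Pool.Agent.H42.Dirac

abbrev C := ℕ → Bool

def Ag (k : ℕ) (x y : C) : Prop := ∀ i < k, x i = y i

lemma Ag.refl (k : ℕ) (x : C) : Ag k x x := fun _ _ => rfl

lemma Ag.symm {k : ℕ} {x y : C} (h : Ag k x y) : Ag k y x := fun i hi => (h i hi).symm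

lemma Ag.trans {k l : ℕ} {x y z : C} (h : Ag k x y) (h' : Ag l y z) (e : k ≤ l) : Ag k x z :=
  fun i hi => (h i hi).trans (h' i (hi.trans_le e))

lemma Ag.mono {k l : ℕ} {x y : C} (h : Ag l x y) (e : k ≤ l) : Ag k x y :=
  fun i hi => h i (hi.trans_le e)

lemma clopen_at (b : ℕ) (s : Set Bool) : IsClopen {y : C | y b ∈ s} :=
  (isClopen_discrete s).preimage (continuous_apply b)

lemma clopen_ag (k : ℕ) (x : C) : IsClopen {y | Ag k x y} := by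
  simp only [Ag, ofPred_forall]
  exact (finite_lt_nat k).isClopen_biInter fun i _ => clopen_at i {v | x i = v}

lemma ex_ag {U : Set C} (hU : IsOpen U) {x : C} (hx : x ∈ U) : ∃ m, ∀ y, Ag m x y → y ∈ U := by
  obtain ⟨_, ⟨z, l, rfl⟩, h4, h5⟩ :=
    (PiNat.isTopologicalBasis_cylinders fun _ => Bool).exists_subset_of_mem_open hx hU
  exact ⟨l, fun w e => h5 fun i hi => (e i hi).symm.trans (h4 i hi)⟩

lemma fin_dense (S : Set C) (l : ℕ) : ∃ R ⊆ S, R.Finite ∧ ∀ x ∈ S, ∃ y ∈ R, Ag l x y := by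
  obtain ⟨R, a, b, c⟩ := (exists_subset_image_finite_and (f := fun (x : C) (i : Fin l) => x i)
    (s := S) (p := (· = (fun (x : C) (i : Fin l) => x i) '' S))).1 ⟨_, Subset.rfl, toFinite _, rfl⟩
  refine ⟨R, a, b, fun x hx => ?_⟩
  obtain ⟨y, d, e⟩ := c.ge ⟨x, hx, rfl⟩
  exact ⟨y, d, fun i hi => (congrFun e ⟨i, hi⟩).symm⟩

lemma cpt {K : ℕ → Set C} (h1 : ∀ n, K (n + 1) ⊆ K n) (h2 : ∀ n, IsClosed (K n)) {T : Set C}
    (h3 : IsClosed T) (h4 : ∀ n, ∃ y ∈ K n, y ∈ T) : ∃ y ∈ ⋂ n, K n, y ∈ T := by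
  obtain ⟨y, hy⟩ := IsCompact.nonempty_iInter_of_sequence_nonempty_isCompact_isClosed
    (fun n => K n ∩ T) (fun n => inter_subset_inter_left _ (h1 n)) h4
    ((h2 0).inter h3).isCompact fun n => (h2 n).inter h3
  exact ⟨y, mem_iInter.2 fun n => (mem_iInter.1 hy n).1, (mem_iInter.1 hy 0).2⟩

def Good (K : Set C) : Prop := IsClosed K ∧ K.Nonempty ∧
  ∀ k, ∃ M, ∀ x ∈ K, ∀ b, M ≤ b → ∃ y ∈ K, Ag k x y ∧ y b = true

def R (k : ℕ) (q p : Set C) : Prop :=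
  q ⊆ p ∧ ∀ x ∈ p, ∀ b, ∃ y ∈ q, Ag k x y ∧ (x b = true → y b = true)

lemma R.refl (k : ℕ) (p : Set C) : R k p p := ⟨Subset.rfl, fun x h _ => ⟨x, h, Ag.refl _ _, id⟩⟩

lemma R.trans {k l : ℕ} {r q p : Set C} (h : R l r q) (h' : R k q p) (e : k ≤ l) : R k r p :=
  ⟨h.1.trans h'.1, fun x hx b => by
    obtain ⟨y, a1, a2, a3⟩ := h'.2 x hx b
    obtain ⟨z, a4, a5, a6⟩ := h.2 y a1 b
    exact ⟨z, a4, a2.trans a5 e, a6 ∘ a3⟩⟩

lemma fus (k : ℕ) (r : ℕ → Set C) (h1 : ∀ j, Good (r j)) (h2 : ∀ j, R (k + j) (r (j + 1)) (r j)) :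
    Good (⋂ j, r j) ∧ R k (⋂ j, r j) (r 0) := by
  have h3 : ∀ j i, j ≤ i → R (k + j) (r i) (r j) := fun j i h => by
    induction i, h using Nat.le_induction with
    | base => exact R.refl _ _
    | succ i h ih => exact (h2 i).trans ih (by omega)
  have h4 : ∀ j, R (k + j) (⋂ j, r j) (r j) := fun j => ⟨iInter_subset _ j, fun x hx b =>
    cpt (fun n => (h2 n).1) (fun n => (h1 n).1)
      ((clopen_ag _ x).1.inter (clopen_at b {v | x b = true → v = true}).1) fun n => by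
        obtain ⟨y, a1, a2⟩ := (h3 j (max j n) (le_max_left _ _)).2 x hx b
        exact ⟨y, (h3 n _ (le_max_right _ _)).1 a1, a2⟩⟩
  refine ⟨⟨isClosed_iInter fun j => (h1 j).1, ?_, fun l => ?_⟩, h4 0⟩
  · obtain ⟨x, hx⟩ := (h1 0).2.1
    exact ((h4 0).2 x hx 0).imp fun _ h => h.1
  · obtain ⟨M, hM⟩ := (h1 l).2.2 l
    refine ⟨M, fun x hx b hb => ?_⟩
    obtain ⟨y, a1, a2, a3⟩ := hM x ((h4 l).1 hx) b hb
    obtain ⟨z, a4, a5, a6⟩ := (h4 l).2 y a1 b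
    exact ⟨z, a4, a2.trans a5 (by omega), a6 a3⟩

structure Lev where
  L : Set (Set C)
  cnt : L.Countable
  ne : L.Nonempty
  good : ∀ p ∈ L, Good p

def Rel (P Q : Lev) : Prop := (∀ q ∈ Q.L, ∃ p ∈ P.L, q ⊆ p) ∧ ∀ p ∈ P.L, ∀ k, ∃ q ∈ Q.L, R k q p

lemma Rel.refl (P : Lev) : Rel P P :=
  ⟨fun q h => ⟨q, h, Subset.rfl⟩, fun p h k => ⟨p, h, R.refl k p⟩⟩

lemma Rel.trans {P Q S : Lev} (h : Rel P Q) (h' : Rel Q S) : Rel P S := by
  refine ⟨fun r hr => ?_, fun p hp k => ?_⟩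
  · obtain ⟨q, hq, h1⟩ := h'.1 r hr
    obtain ⟨p, hp, h2⟩ := h.1 q hq
    exact ⟨p, hp, h1.trans h2⟩
  · obtain ⟨q, hq, h1⟩ := h.2 p hp k
    obtain ⟨r, hr, h3⟩ := h'.2 q hq k
    exact ⟨r, hr, h3.trans h1 le_rfl⟩

lemma Rel.pts {P Q : Lev} (h : Rel P Q) : ⋃₀ Q.L ⊆ ⋃₀ P.L := fun _ ⟨q, a, b⟩ =>
  (h.1 q a).elim fun p hp => ⟨p, hp.1, hp.2 b⟩

lemma lim_lev (P : ℕ → Lev) (hP : ∀ i, Rel (P i) (P (i + 1))) : ∃ Q : Lev, ∀ i, Rel (P i) Q := by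
  have hm : ∀ i j, i ≤ j → Rel (P i) (P j) := fun i j h => by
    induction j, h using Nat.le_induction with
    | base => exact Rel.refl _
    | succ j _ ih => exact ih.trans (hP j)
  have key : ∀ i, ∀ p : (P i).L, ∀ k : ℕ, ∃ q, Good q ∧ R k q p ∧ ∀ j, ∃ r ∈ (P j).L, q ⊆ r := by
    intro i p k
    choose nx h1 h2 using fun j (r : (P (i + j)).L) => (hP (i + j)).2 r r.2 (k + j)
    let r : ∀ j, (P (i + j)).L := fun j => Nat.rec p (fun j r => ⟨nx j r, h1 j r⟩) j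
    obtain ⟨h3, h4⟩ := fus k (fun j => (r j).1) (fun j => (P _).good _ (r j).2) fun j => h2 j (r j)
    refine ⟨_, h3, h4, fun j => ?_⟩
    obtain ⟨s, hs, h6⟩ := (hm j (i + j) (by omega)).1 _ (r j).2
    exact ⟨s, hs, (iInter_subset _ j).trans h6⟩
  choose q h1 h2 h3 using key
  refine ⟨⟨⋃ i, ⋃ p : (P i).L, range (q i p), countable_iUnion fun i => ?_, ?_, fun s hs => ?_⟩,
    fun i => ⟨fun s hs => ?_, fun p hp k =>
      ⟨_, mem_iUnion₂.2 ⟨i, ⟨p, hp⟩, mem_range_self k⟩, h2 i ⟨p, hp⟩ k⟩⟩⟩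
  · have := (P i).cnt.to_subtype
    exact countable_iUnion fun p => countable_range _
  · obtain ⟨p, hp⟩ := (P 0).ne
    exact ⟨q 0 ⟨p, hp⟩ 0, mem_iUnion₂.2 ⟨0, ⟨p, hp⟩, mem_range_self _⟩⟩
  · obtain ⟨i, p, k, rfl⟩ := mem_iUnion₂.1 hs
    exact h1 i p k
  · obtain ⟨j, p, k, rfl⟩ := mem_iUnion₂.1 hs
    exact h3 j p k i

lemma lim_w (P0 : Lev) (α : W) (P : Iio α → Lev) (h0 : ∀ β, Rel P0 (P β))
    (h : ∀ β γ, β < γ → Rel (P β) (P γ)) : ∃ Q : Lev, Rel P0 Q ∧ ∀ β, Rel (P β) Q := by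
  rcases isEmpty_or_nonempty (Iio α) with e | e
  · exact ⟨P0, Rel.refl _, fun β => e.elim β⟩
  have := (Iio_count α).to_subtype
  obtain ⟨e, he⟩ := exists_surjective_nat (Iio α)
  have hle : ∀ β γ, β ≤ γ → Rel (P β) (P γ) := fun β γ hh => by
    rcases hh.eq_or_lt with rfl | hh
    exacts [Rel.refl _, h _ _ hh]
  obtain ⟨Q, hQ⟩ := lim_lev (fun i => P (partialSups e i)) fun i =>
    hle _ _ ((partialSups e).monotone (Nat.le_succ i))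
  refine ⟨Q, (h0 _).trans (hQ 0), fun β => ?_⟩
  obtain ⟨i, rfl⟩ := he β
  exact (hle _ _ (le_partialSups e i)).trans (hQ i)

end Pool.Agent.H42.Dlt
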