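import Pool.Agent.H42.Dlt1

/-! Thinning a level along a two-dimensional family of members of an omega-cover. -/

namespace Pool.Agent.H42.Dlt

open Set Filter Topology Classical

def Prom (V : ℕ → ℕ → Set C) (x : C) : Prop :=
  ∃ c : C, ∀ i, ∀ᶠ j in atTop, c i = c j → x ∈ V i j

lemma thin (P : Lev) {Dn Z : Set C} (hD : ∀ p ∈ P.L, ∀ x ∈ p, ∀ k, ∃ y ∈ p ∩ Dn, Ag k x y)
    (hZ : Z.Countable) (U : ℕ → Set C) (hU : ∀ m, IsOpen (U m))
    (h : ∀ F ⊆ Z ∪ ⋃₀ P.L ∩ Dn, F.Finite → ∃ m, F ⊆ U m) :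
    ∃ (Q : Lev) (f : ℕ → ℕ → ℕ), Rel P Q ∧ ∀ x ∈ Z ∪ ⋃₀ Q.L, Prom (fun i j => U (f i j)) x := by
  obtain ⟨e, he⟩ := P.cnt.exists_eq_range P.ne
  obtain ⟨z, hz⟩ : ∃ z : ℕ → Set C, (∀ j, (z j).Finite ∧ z j ⊆ Z) ∧
      ∀ x ∈ Z, ∀ᶠ j in atTop, x ∈ z j := by
    obtain ⟨g, hg⟩ := (hZ.insert default).exists_eq_range (insert_nonempty _ _)
    refine ⟨fun j => g '' Iic j ∩ Z, fun j => ⟨((finite_le_nat j).image g).inter_of_left _,
      inter_subset_right⟩, fun x hx => ?_⟩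
    obtain ⟨i, rfl⟩ : x ∈ range g := hg ▸ Or.inr hx
    filter_upwards [eventually_ge_atTop i] with j hj using ⟨⟨i, hj, rfl⟩, hx⟩
  let p : ℕ → Set C := fun n => e n.unpair.1
  have hp : ∀ n, p n ∈ P.L := fun n => he ▸ mem_range_self _
  choose M hM using fun n => (P.good _ (hp n)).2.2
  let I : ℕ → ℕ := fun r => r.unpair.1
  let J : ℕ → ℕ := fun r => r.unpair.1 + r.unpair.2 + 1
  let S := {s : (ℕ → C → Set C) × ℕ × ℕ // (∀ n c, s.1 n c ⊆ p n) ∧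
    (∀ n c, ∀ x ∈ s.1 n c, ∀ y ∈ p n, Ag s.2.1 x y → y ∈ s.1 n c) ∧
    ∀ n c c', Ag s.2.2 c c' → s.1 n c = s.1 n c'}
  have st : ∀ (r : ℕ) (s : S), ∃ (t : S) (u l : ℕ), s.1.2.1 ≤ l ∧ l < t.1.2.1 ∧
      (∀ n ≤ r, M n s.1.2.1 ≤ l) ∧ (∀ n c, t.1.1 n c ⊆ s.1.1 n c) ∧
      (∀ n c, ∀ x ∈ s.1.1 n c, ∃ y ∈ t.1.1 n c, Ag l x y) ∧
      (∀ n c, ¬(c (I r) = c (J r) ∧ n ≤ r) → t.1.1 n c = s.1.1 n c) ∧
      (∀ n c, c (I r) = c (J r) ∧ n ≤ r → t.1.1 n c ⊆ U u) ∧ z r ⊆ U u := by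
    rintro r ⟨⟨K, m, N⟩, a1, a2, a3⟩
    dsimp only at a1 a2 a3 ⊢
    let l := m + (Finset.range (r + 1)).sup (M · m)
    obtain ⟨T, -, b1, b2⟩ := fin_dense Set.univ N
    choose ρ b3 b4 b5 using fun A => fin_dense (A ∩ Dn) l
    have b6 : (⋃ n ≤ r, ⋃ c ∈ T, ρ (K n c)).Finite :=
      (finite_le_nat r).biUnion fun n _ => b1.biUnion fun c _ => b4 _
    obtain ⟨u, hu⟩ := h _ (union_subset_union (hz.1 r).2 (iUnion₂_subset fun n _ =>
      iUnion₂_subset fun c _ y hy => ⟨⟨_, hp n, a1 n c (b3 _ hy).1⟩, (b3 _ hy).2⟩))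
      ((hz.1 r).1.union b6)
    choose! μ hμ using fun y hy => ex_ag (hU u) (hu (Or.inr hy) : y ∈ U u)
    obtain ⟨m', b7, b8⟩ := BG.fin_bd (b6.image μ) (l + 1)
    refine ⟨⟨⟨fun n c => if c (I r) = c (J r) ∧ n ≤ r then
      K n c ∩ {y | ∃ x ∈ ⋃ n ≤ r, ⋃ c ∈ T, ρ (K n c), Ag m' x y} else K n c, m', N + J r + 1⟩,
      fun n c => ?_, fun n c x hx y hy a => ?_, fun n c c' a => ?_⟩, u, l, by omega, b7,
      fun n hn => (Finset.le_sup (f := (M · m)) (by simp; omega)).trans (Nat.le_add_left _ _),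
      fun n c => ?_, fun n c x hx => ?_, fun n c a => if_neg a, fun n c a => ?_,
      subset_union_left.trans hu⟩ <;> dsimp only at *
    · split_ifs
      exacts [inter_subset_left.trans (a1 n c), a1 n c]
    · split_ifs at hx ⊢
      exacts [⟨a2 n c x hx.1 y hy (a.mono (by omega)), hx.2.imp fun w h => ⟨h.1, h.2.trans a le_rfl⟩⟩,
        a2 n c x hx y hy (a.mono (by omega))]
    · rw [a3 n c c' (a.mono (by omega)), a (I r) (by simp only [I, J]; omega), a (J r) (by omega)]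
    · split_ifs
      exacts [inter_subset_left, Subset.rfl]
    · split_ifs with a
      · obtain ⟨c', d1, d2⟩ := b2 c trivial
        obtain ⟨y, d3, d4⟩ := hD _ (hp n) x (a1 n c hx) l
        rw [a3 n c c' d2] at hx ⊢
        obtain ⟨w, d5, d6⟩ := b5 _ y ⟨a2 n c' x hx y d3.1 (d4.mono (by omega)), d3.2⟩
        exact ⟨w, ⟨(b3 _ d5).1, w, mem_iUnion₂.2 ⟨n, a.2, mem_iUnion₂.2 ⟨c', d1, d5⟩⟩,
          Ag.refl _ _⟩, d4.trans d6 le_rfl⟩
      · exact ⟨x, hx, Ag.refl _ _⟩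
    · rw [if_pos a]
      rintro y ⟨-, x, d1, d2⟩
      exact hμ x d1 y (d2.mono (b8 ⟨x, d1, rfl⟩).le)
  choose nx u l s1 s2 s3 s4 s5 s6 s7 s8 using st
  let s : ℕ → S := fun r => r.rec ⟨⟨fun n _ => p n, 0, 0⟩, fun _ _ => Subset.rfl,
    fun _ _ _ _ _ h _ => h, fun _ _ _ _ => rfl⟩ nx
  let K : ℕ → ℕ → C → Set C := fun r => (s r).1.1
  let m : ℕ → ℕ := fun r => (s r).1.2.1
  let L : ℕ → ℕ := fun r => l r (s r)
  have t1 : ∀ r, m r ≤ L r ∧ L r < m (r + 1) := fun r => ⟨s1 r _, s2 r _⟩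
  have hm : StrictMono m := strictMono_nat_of_lt_succ fun r => (t1 r).1.trans_lt (t1 r).2
  have hL : StrictMono L := strictMono_nat_of_lt_succ fun r => (t1 r).2.trans_le (t1 (r + 1)).1
  have cl : ∀ r n, IsClosed {w : C × C | w.1 ∈ K r n w.2} := fun r n =>
    isClosed_of_closure_subset fun w hw => by
      obtain ⟨w', d1, d2⟩ := mem_closure_iff.1 hw _
        (((clopen_ag (m r) w.1).2.prod (clopen_ag (s r).1.2.2 w.2).2)) ⟨Ag.refl _ _, Ag.refl _ _⟩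
      refine (s r).2.2.1 n _ w'.1 ((s r).2.2.2 n _ _ d1.2 ▸ d2) _ ?_ d1.1.symm
      exact closure_minimal (t := Prod.fst ⁻¹' p n) (fun w h => (s r).2.1 n w.2 h)
        ((P.good _ (hp n)).1.preimage continuous_fst) hw
  have an : ∀ n c, Antitone (K · n c) := fun n c => antitone_nat_of_succ_le fun r => s4 r _ n c
  have de : ∀ r n c, ∀ x ∈ K r n c, ∃ y ∈ ⋂ r, K r n c, Ag (L r) x y := fun r n c x hx =>
    cpt (fun r => s4 r _ n c) (fun r => (cl r n).preimage (f := fun x => (x, c)) (by fun_prop))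
      (clopen_ag _ x).1 fun r' => by
    suffices ∀ r', r ≤ r' → ∃ y ∈ K r' n c, Ag (L r) x y from
      (this _ (le_max_left r r')).imp fun y h => ⟨an n c (le_max_right _ _) h.1, h.2⟩
    intro r' hr
    induction r', hr using Nat.le_induction with
    | base => exact ⟨x, hx, Ag.refl _ _⟩
    | succ r' hr ih =>
      obtain ⟨y, d1, d2⟩ := ih
      obtain ⟨w, d3, d4⟩ := s5 r' _ n c y d1
      exact ⟨w, d3, d2.trans d4 (hL.monotone hr)⟩
  have warm : ∀ r0 n c r b, ∀ x ∈ K r0 n c, n ≤ r0 → r0 ≤ r → c (I r) ≠ c (J r) →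
      b ∈ Ico (L r) (L (r + 1)) → ∃ y ∈ ⋃ c, ⋂ r, K r n c, Ag (m r0) x y ∧ y b = true := by
    intro r0 n c r b x hx d1 d2 d3 d4
    obtain ⟨x', d5, d6⟩ := de r0 n c x hx
    have d7 := mem_iInter.1 d5 r
    obtain ⟨y, d8, d9, d10⟩ := hM n (m r) x' ((s r).2.1 n c d7) b ((s3 r _ n (by omega)).trans d4.1)
    obtain ⟨w, e1, e2⟩ := de (r + 1) n c y
      ((s6 r _ n c fun h => d3 h.1).ge ((s r).2.2.1 n c x' d7 y d8 d9))
    exact ⟨w, mem_iUnion.2 ⟨c, e1⟩, ((d6.mono (t1 _).1).trans d9 (hm.monotone d2)).trans e2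
      ((hm.monotone (by omega)).trans (t1 _).1), e2 b d4.2 ▸ d10⟩
  have loc : ∀ r b, L r ≤ b → ∃ r', r ≤ r' ∧ b ∈ Ico (L r') (L (r' + 1)) := fun r b hb => by
    obtain ⟨r', d⟩ := Sumg.loc hL ((hL.monotone r.zero_le).trans hb)
    exact ⟨r', Nat.le_of_lt_succ (hL.lt_iff_lt.1 (hb.trans_lt d.2)), d⟩
  have hR : ∀ n, R n (⋃ c, ⋂ r, K r n c) (p n) := fun n => by
    have d0 : ∀ c, ∀ r ≤ n, K r n c = p n := fun c r hr => by
      induction r with
      | zero => rfl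
      | succ r ih => exact (s6 r _ n c (by omega)).trans (ih (by omega))
    refine ⟨iUnion_subset fun c => iInter_subset _ 0, fun x hx b => ?_⟩
    by_cases hb : b < L n
    · obtain ⟨y, d1, d2⟩ := de n n default x (d0 _ n le_rfl ▸ hx)
      exact ⟨y, mem_iUnion.2 ⟨_, d1⟩, d2.mono (hm.le_apply.trans (t1 n).1), fun h => d2 b hb ▸ h⟩
    · obtain ⟨r, d1, d2⟩ := loc n b (not_lt.1 hb)
      obtain ⟨y, d3, d4, d5⟩ := warm n n (fun t => decide (t = J r)) r b x (d0 _ n le_rfl ▸ hx)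
        le_rfl d1 (by simp [I, J]; omega) d2
      exact ⟨y, d3, d4.mono hm.le_apply, fun _ => d5⟩
  have hJ : ∀ i, Tendsto (fun j => Nat.pair i (j - i - 1)) atTop atTop := fun i =>
    tendsto_atTop_atTop.2 fun b => ⟨b + i + 1, fun j hj =>
      le_trans (by omega) (Nat.right_le_pair _ _)⟩
  refine ⟨⟨range fun n => ⋃ c, ⋂ r, K r n c, countable_range _, range_nonempty _,
    forall_mem_range.2 fun n => ⟨?_, ?_, fun k => ?_⟩⟩,
    fun i j => u (Nat.pair i (j - i - 1)) (s (Nat.pair i (j - i - 1))), ⟨forall_mem_range.2 fun n =>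
      ⟨_, hp n, (hR n).1⟩, fun q hq k => ?_⟩, ?_⟩
  · convert isClosedMap_fst_of_compactSpace _ (isClosed_iInter (cl · n)) using 1
    ext; simp
  · obtain ⟨x, hx⟩ := (P.good _ (hp n)).2.1
    exact ((hR n).2 x hx 0).imp fun _ h => h.1
  · refine ⟨L (n + k + Nat.pair (s (n + k)).1.2.2 (s (n + k)).1.2.2), fun x hx b hb => ?_⟩
    obtain ⟨c, hc⟩ := mem_iUnion.1 hx
    obtain ⟨r, d1, d2⟩ := loc _ b hb
    have d3 : (s (n + k)).1.2.2 ≤ J r := not_lt.1 fun d => by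
      have := (Nat.pair_lt_pair_left r.unpair.2 (show r.unpair.1 < (s (n + k)).1.2.2 by
        simp only [J] at d; omega)).trans (Nat.pair_lt_pair_right _
          (show r.unpair.2 < (s (n + k)).1.2.2 by simp only [J] at d; omega))
      rw [Nat.pair_unpair] at this
      omega
    obtain ⟨y, d4, d5, d6⟩ := warm (n + k) n (Function.update c (J r) (!c (I r))) r b x
      (((s (n + k)).2.2.2 n c _ fun t ht =>
        (Function.update_of_ne (ht.trans_le d3).ne _ _).symm).le (mem_iInter.1 hc (n + k)))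
        (by omega) (by omega) (by
        rw [Function.update_of_ne (by simp only [I, J]; omega)]; simp) d2
    exact ⟨y, d4, d5.mono (le_trans (by omega) hm.le_apply), d6⟩
  · obtain ⟨a, rfl⟩ : q ∈ range e := he ▸ hq
    refine ⟨_, ⟨Nat.pair a k, rfl⟩, ?_⟩
    simpa [p] using (hR (Nat.pair a k)).trans (R.refl k _) (Nat.right_le_pair _ _)
  · rintro x (hx | ⟨_, ⟨n, rfl⟩, hx⟩)
    · exact ⟨default, fun i => ((hJ i).eventually (hz.2 x hx)).mono fun j hj _ => s8 _ _ hj⟩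
    · obtain ⟨c, hc⟩ := mem_iUnion.1 hx
      refine ⟨c, fun i => ?_⟩
      filter_upwards [(hJ i).eventually (eventually_ge_atTop n), eventually_gt_atTop i]
        with j d1 d2 d3
      refine s7 _ _ n c ⟨?_, d1⟩ (mem_iInter.1 hc (_ + 1))
      simp only [I, J, Nat.unpair_pair]
      rw [d3]; congr 1; omega

end Pool.Agent.H42.Dlt
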