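import Pool.Agent.H42.PolODefs

/-! The ultrafilter versions of the delta-property and the gamma-property. -/

namespace Pool.Agent.H42.Dlt

open Pool.Agent.H42.PolO

/-- the `p`-limit of a sequence of sets -/
def plim {X : Type} (p : Ultrafilter ℕ) (Y : ℕ → Set X) : Set X := ⋃ A ∈ p, ⋂ n ∈ A, Y n

/-- the smallest family containing `𝒰` and closed under `p`-limits of sequences -/
def Lp {X : Type} (p : Ultrafilter ℕ) (𝒰 : Set (Set X)) : Set (Set X) :=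
  ⋂₀ {L | 𝒰 ⊆ L ∧ ∀ Y : ℕ → Set X, (∀ n, Y n ∈ L) → plim p Y ∈ L}

/-- property `δ_p` -/
def DeltaP (p : Ultrafilter ℕ) (X : Type) [TopologicalSpace X] : Prop :=
  ∀ 𝒰 : Set (Set X), Om 𝒰 → Set.univ ∈ Lp p 𝒰

/-- property `γ_p` -/
def GammaP (p : Ultrafilter ℕ) (X : Type) [TopologicalSpace X] : Prop :=
  ∀ 𝒰 : Set (Set X), Om 𝒰 → ∃ U : ℕ → Set X, (∀ n, U n ∈ 𝒰) ∧ ∀ x, {n | x ∈ U n} ∈ p

end Pool.Agent.H42.Dlt
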