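import Pool.Agent.H42.PropT

/-! Twin clopen sets that force a weak* null sequence on every algebra with property (T)
containing enough of their unions. -/

namespace Pool.Agent.H42.GroT1

open Set MeasureTheory Filter Topology Pool.Agent.H42.PropT

instance : IsProbabilityMeasure lam := by unfold lam; infer_instance

noncomputable def psi (m : ℕ) (A : Set (ℕ → Bool)) : ℝ :=
  lam.real (A ∩ {x | x m = false}) - lam.real (A ∩ {x | x m = true})

theorem mV (m : ℕ) (b : Bool) : MeasurableSet {x : ℕ → Bool | x m = b} :=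
  show MeasurableSet ((fun x : ℕ → Bool => x m) ⁻¹' {b}) from
    measurable_pi_apply m (measurableSet_singleton b)

theorem psi_union (m : ℕ) {A A' : Set (ℕ → Bool)} (h : Disjoint A A') (h' : MeasurableSet A') :
    psi m (A ∪ A') = psi m A + psi m A' := by
  have : ∀ b, lam.real ((A ∪ A') ∩ {x | x m = b}) =
      lam.real (A ∩ {x | x m = b}) + lam.real (A' ∩ {x | x m = b}) := fun b => by
    rw [union_inter_distrib_right, measureReal_union
      (h.mono inter_subset_left inter_subset_left) (h'.inter (mV m b))]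
  simp only [psi, this]; ring

theorem abs_psi {m : ℕ} {A S : Set (ℕ → Bool)} (h : A ⊆ S) : |psi m A| ≤ lam.real S := by
  have : ∀ b, lam.real (A ∩ {x | x m = b}) ≤ lam.real S := fun b =>
    measureReal_mono (inter_subset_left.trans h)
  have h1 := this false
  have h2 := this true
  have h3 : 0 ≤ lam.real (A ∩ {x | x m = false}) := measureReal_nonneg
  have h4 : 0 ≤ lam.real (A ∩ {x | x m = true}) := measureReal_nonneg
  rw [psi, abs_le]; constructor <;> linarith

theorem lam_atom (x : ℕ → Bool) (n : ℕ) : lam.real (atom x n) = 2⁻¹ ^ (n + 1) := by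
  have := lam_pi (Finset.range (n + 1)) x
  simp only [Finset.mem_range, Nat.lt_succ_iff, Finset.card_range] at this
  rw [Measure.real, atom, this]; simp

theorem decay {B : Set (Set (ℕ → Bool))} (h : HasT B) {A : Set (ℕ → Bool)} (hA : A ∈ B)
    {ε : ℝ} (hε : 0 < ε) : ∀ᶠ m : ℕ in atTop, m * |psi m A| ≤ ε := by
  obtain ⟨n, -, h1⟩ := h.2.2.2.2 {A} (singleton_subset_iff.2 hA) (finite_singleton A) ε hε
  filter_upwards [eventually_gt_atTop n] with m hm
  let π : (ℕ → Bool) → Fin (n + 1) → Bool := fun x i => x i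
  have hπ : Measurable π := by fun_prop
  have key : ∀ S, lam.real S = ∑ t, lam.real (π ⁻¹' {t} ∩ S) := fun S => by
    have := sum_measureReal_preimage_singleton (μ := lam.restrict S) Finset.univ (f := π)
      fun y _ => hπ (measurableSet_singleton y)
    simp only [Finset.coe_univ, preimage_univ, measureReal_restrict_apply_univ] at this
    rw [← this]
    exact Finset.sum_congr rfl fun t _ =>
      measureReal_restrict_apply (hπ (measurableSet_singleton t))
  have hat : ∀ t, ∃ x, π ⁻¹' {t} = atom x n := fun t =>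
    ⟨fun i => if h : i < n + 1 then t ⟨i, h⟩ else false, by
      ext y
      simp only [π, atom, mem_preimage, mem_singleton_iff, funext_iff, mem_ofPred]
      exact ⟨fun h i hi => by rw [dif_pos (Nat.lt_succ_of_le hi)]; exact h ⟨i, _⟩,
        fun h i => by rw [h i (Nat.le_of_lt_succ i.2), dif_pos i.2]⟩⟩
  have h2 : psi m A = ∑ t, psi m (A ∩ π ⁻¹' {t}) := by
    simp only [psi, Finset.sum_sub_distrib]
    rw [key (A ∩ _), key (A ∩ {x | x m = true})]
    simp only [← inter_assoc, inter_comm _ A]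
  have h3 : (0 : ℝ) < m := by exact_mod_cast (Nat.zero_le n).trans_lt hm
  have h4 : |psi m A| ≤ ∑ t, ε * lam.real (π ⁻¹' {t} ∩ univ) / m := by
    rw [h2]
    refine (Finset.abs_sum_le_sum_abs _ _).trans (Finset.sum_le_sum fun t _ => ?_)
    obtain ⟨x, hx⟩ := hat t
    rw [inter_univ, hx]
    exact (h1 x A rfl).2 m hm
  rw [← Finset.sum_div, ← Finset.mul_sum, ← key, probReal_univ, mul_one, le_div_iff₀ h3] at h4
  linarith

/-- the levels -/
def lv : ℕ → ℕ
  | 0 => 1
  | k + 1 => 2 ^ (lv k + 3)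

theorem lv_lt (k : ℕ) : lv k + 3 < lv (k + 1) := Nat.lt_two_pow_self

theorem lv_mono : StrictMono lv := strictMono_nat_of_lt_succ fun k => by
  have := lv_lt k; omega

theorem lv_lt' {j k : ℕ} (h : j < k) : lv j + 3 < lv k :=
  (lv_lt j).trans_le (lv_mono.monotone h)

/-- the twin sets -/
def C (k : ℕ) : Set (ℕ → Bool) :=
  {x | (∀ i ≤ lv k, x i = false) ∧ x (lv k + 1) = true ∧ x (lv k + 2) = x (lv (k + 1))}

def CU (Y : Set ℕ) : Set (ℕ → Bool) := ⋃ j ∈ Y, C j

theorem C_clopen (k : ℕ) : IsClopen (C k) := by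
  let π : (ℕ → Bool) → Fin (lv (k + 1) + 1) → Bool := fun x i => x i
  have := lv_lt k
  have h : C k = π ⁻¹' {x | (∀ i : Fin _, i.1 ≤ lv k → x i = false) ∧
      x ⟨lv k + 1, by omega⟩ = true ∧ x ⟨lv k + 2, by omega⟩ = x ⟨lv (k + 1), by omega⟩} := by
    ext x
    exact and_congr_left' ⟨fun h i => h i, fun h i hi => h ⟨i, by omega⟩ hi⟩
  exact h ▸ (isClopen_discrete _).preimage (by fun_prop)

theorem C_meas (k : ℕ) : MeasurableSet (C k) := (C_clopen k).isOpen.measurableSet

theorem CU_meas (Y : Set ℕ) : MeasurableSet (CU Y) :=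
  .biUnion (to_countable Y) fun k _ => C_meas k

theorem C_disj {j k : ℕ} (h : j ≠ k) : Disjoint (C j) (C k) := by
  wlog hjk : j < k generalizing j k
  · exact (this h.symm (by omega)).symm
  have := lv_lt' hjk
  exact disjoint_left.2 fun x h1 h2 => by
    have h3 := h2.1 (lv j + 1) (by omega)
    simp [h1.2.1] at h3

theorem CU_disj {Y Z : Set ℕ} (h : Disjoint Y Z) : Disjoint (CU Y) (CU Z) := by
  simp only [CU, disjoint_iUnion₂_left, disjoint_iUnion₂_right]
  exact fun j hj k hk => C_disj fun e => disjoint_left.1 h hk (e ▸ hj)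

theorem CU_sub {Y : Set ℕ} {n : ℕ} (h : ∀ j ∈ Y, n ≤ lv j) : CU Y ⊆ atom (fun _ => false) n :=
  iUnion₂_subset fun j hj _ hx i hi => hx.1 i (hi.trans (h j hj))

theorem flip_mp (T : Set ℕ) [DecidablePred (· ∈ T)] :
    MeasurePreserving (fun (x : ℕ → Bool) i => if i ∈ T then !x i else x i) lam lam := by
  refine ⟨by fun_prop, ?_⟩
  rw [lam, Measure.infinitePi_map_pi (f := fun i b => if i ∈ T then !b else b) _
    fun _ => by fun_prop]
  congr 1
  funext i
  split_ifs
  · refine Measure.ext_of_singleton fun b => ?_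
    rw [Measure.map_apply (by fun_prop) (measurableSet_singleton _),
      show (fun b => !b) ⁻¹' {b} = {!b} by ext c; cases b <;> cases c <;> simp]
    simp
  · exact Measure.map_id

theorem C_bal {j m : ℕ} (h : lv j + 1 < m) :
    lam (C j ∩ {x | x m = false}) = lam (C j ∩ {x | x m = true}) := by
  classical
  have := lv_lt j
  rw [← (flip_mp {lv j + 2, lv (j + 1), m}).measure_preimage
    ((C_meas j).inter (mV m true)).nullMeasurableSet]
  congr 1
  ext x
  simp only [C, mem_inter_iff, mem_ofPred, mem_preimage, mem_insert_iff, mem_singleton_iff,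
    true_or, or_true, if_true, Bool.not_inj_iff, Bool.not_eq_true']
  rw [if_neg (by omega)]
  refine and_congr_left' (and_congr_left' (forall₂_congr fun i hi => ?_))
  rw [if_neg (by omega)]

theorem psi_CU {Y : Set ℕ} {m : ℕ} (h : ∀ j ∈ Y, lv j + 1 < m) : psi m (CU Y) = 0 := by
  have : ∀ b, lam (CU Y ∩ {x | x m = b}) = ∑' j : Y, lam (C j ∩ {x | x m = b}) := fun b => by
    rw [CU, iUnion₂_inter, measure_biUnion (to_countable Y)
      (fun i _ j _ e => (C_disj e).mono inter_subset_left inter_subset_left)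
      fun j _ => (C_meas j).inter (mV m b)]
  rw [psi, Measure.real, Measure.real, this, this, tsum_congr fun j : Y => C_bal (h j j.2),
    sub_self]

theorem small {ε : ℝ} (hε : 0 < ε) : ∀ᶠ k in atTop, ∀ t : ℕ, lv (k + 1) ≤ t →
    t * (2⁻¹ : ℝ) ^ t ≤ ε * 2⁻¹ ^ (lv k + 1) := by
  obtain ⟨N, hN⟩ := eventually_atTop.1
    ((tendsto_pow_const_div_const_pow_of_one_lt 2 (one_lt_two (α := ℝ))).eventually_le_const hε)
  filter_upwards [eventually_ge_atTop N] with k hk t ht
  have h1 := hN t (hk.trans ((lv_mono.id_le k).trans ((lv_mono.monotone (Nat.le_succ k)).trans ht)))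
  have h2 : (2 : ℝ) ^ (lv k + 1) ≤ t := by
    exact_mod_cast (Nat.pow_le_pow_right two_pos (by omega)).trans ht
  rw [inv_pow, inv_pow, ← div_eq_mul_inv, ← div_eq_mul_inv, le_div_iff₀ (by positivity)]
  refine le_trans ?_ h1
  rw [div_mul_eq_mul_div, sq]
  gcongr

end Pool.Agent.H42.GroT1
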