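import Pool.Agent.H42.TauDefs
import Pool.Agent.H42.BG3
import Pool.Agent.H42.GroT1

/-! Sierpinski sets satisfy `T choose Γ`; under CH the product of two of them can fail
`Split(T, T)`. -/

namespace Pool.Agent.H42.Tau

open Set Filter MeasureTheory Topology Cardinal Pool.Agent.H42.PropT Pool.Agent.H42.Dirac

lemma pseudo {ι : Type} [Countable ι] (A : ι → Set ℕ) (hA : ∀ i, (A i).Infinite)
    (h : ∀ i j, (A i \ A j).Finite ∨ (A j \ A i).Finite) :
    ∃ E : Set ℕ, E.Infinite ∧ ∀ i, (E \ A i).Finite := by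
  rcases isEmpty_or_nonempty ι with h0 | h0
  · exact ⟨Set.univ, infinite_univ, fun i => isEmptyElim i⟩
  have key : ∀ i j, (A i \ A j).Finite → cofinite ⊓ 𝓟 (A i) ≤ cofinite ⊓ 𝓟 (A j) := fun i j h =>
    le_inf inf_le_left (le_principal_iff.2 (mem_inf_principal.2 (h.subset fun x hx => by
      simpa using hx)))
  have : (⨅ i, cofinite ⊓ 𝓟 (A i)).NeBot := iInf_neBot_of_directed
    (fun i j => (h i j).elim (fun h => ⟨i, le_rfl, key i j h⟩) fun h => ⟨j, key j i h, le_rfl⟩)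
    fun i => cofinite_inf_principal_neBot_iff.2 (hA i)
  have : (cofinite : Filter ℕ).IsCountablyGenerated := Nat.cofinite_eq_atTop ▸ inferInstance
  obtain ⟨c, hc⟩ := exists_seq_tendsto (⨅ i, cofinite ⊓ 𝓟 (A i))
  simp only [tendsto_iInf, tendsto_inf, tendsto_principal] at hc
  refine ⟨range c, fun hf => ?_, fun i => ?_⟩
  · obtain ⟨n, hn⟩ := ((hc (Classical.arbitrary ι)).1.eventually hf.compl_mem_cofinite).exists
    exact hn ⟨n, rfl⟩
  · have := (hc i).2
    rw [← Nat.cofinite_eq_atTop] at this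
    refine (this.image c).subset ?_
    rintro _ ⟨⟨n, rfl⟩, hn⟩
    exact ⟨n, hn, rfl⟩

lemma two {α : Type} {S : Set α} (h : S.Infinite) :
    ∃ A ⊆ S, A.Infinite ∧ (S \ A).Infinite := by
  let e := h.natEmbedding
  refine ⟨range fun n => e (2 * n), range_subset_iff.2 fun n => (e _).2,
    infinite_range_of_injective fun a b hab => ?_,
    infinite_of_injective_forall_mem (f := fun n => (e (2 * n + 1)).1) (fun a b hab => ?_)
      fun n => ⟨(e _).2, fun ⟨m, hm⟩ => ?_⟩⟩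
  · have := e.injective (Subtype.ext hab); omega
  · have := e.injective (Subtype.ext hab); omega
  · have := e.injective (Subtype.ext hm); omega

variable {X : Type} [TopologicalSpace X]

lemma GamC.tau {𝒰 𝒱 : Set (Set X)} (h : GamC 𝒰) (h1 : 𝒱 ⊆ 𝒰) (h2 : 𝒱.Infinite) : TauC 𝒱 := by
  have key : ∀ x, {U | U ∈ 𝒱 ∧ x ∈ U}.Infinite := fun x =>
    (h2.sdiff (h.2.2 x)).mono fun U hU => ⟨hU.1, by_contra fun h' => hU.2 ⟨h1 hU.1, h'⟩⟩
  exact ⟨⟨⟨fun U hU => h.1.1 U (h1 hU), eq_univ_of_forall fun x => (key x).nonempty,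
    fun h' => h.1.2.2 (h1 h')⟩, key⟩,
    fun x y => Or.inl ((h.2.2 y).subset fun U hU => ⟨h1 hU.1, hU.2.2⟩)⟩

lemma TG.split (h : TG X) : SplitTT X := fun 𝒰 hU => by
  obtain ⟨𝒱, h1, h2⟩ := h 𝒰 hU
  obtain ⟨A, h3, h4, h5⟩ := two h2.2.1
  exact ⟨A, 𝒰 \ A, union_sdiff_cancel (h3.trans h1), disjoint_sdiff_right,
    ⟨A, Subset.rfl, h2.tau h3 h4⟩, 𝒱 \ A, sdiff_subset_sdiff_left h1, h2.tau sdiff_subset h5⟩

lemma count_large [SecondCountableTopology X] {𝒰 : Set (Set X)} (h : Large 𝒰) :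
    ∃ 𝒱 ⊆ 𝒰, 𝒱.Countable ∧ ∀ x, {U | U ∈ 𝒱 ∧ x ∈ U}.Infinite := by
  have key : ∀ O : Set X, ∃ T ⊆ {U | U ∈ 𝒰 ∧ O ⊆ U}, T.Countable ∧
      (T.Finite → {U | U ∈ 𝒰 ∧ O ⊆ U} ⊆ T) := fun O => by
    by_cases h : {U | U ∈ 𝒰 ∧ O ⊆ U}.Finite
    · exact ⟨_, Subset.rfl, h.countable, fun _ => Subset.rfl⟩
    · exact ⟨range fun n => (Set.Infinite.natEmbedding _ h n).1, range_subset_iff.2 fun n =>
        (Set.Infinite.natEmbedding _ h n).2, countable_range _, fun h' => absurd h'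
        (infinite_range_of_injective
          (Subtype.val_injective.comp (Set.Infinite.natEmbedding _ h).injective))⟩
  choose T h1 h2 h3 using key
  refine ⟨⋃ O ∈ TopologicalSpace.countableBasis X, T O, iUnion₂_subset fun O _ U hU =>
    (h1 O hU).1, (TopologicalSpace.countable_countableBasis X).biUnion fun O _ => h2 O,
    fun x hf => h.2 x (hf.subset fun U hU => ⟨?_, hU.2⟩)⟩
  obtain ⟨O, a, b, c⟩ := (TopologicalSpace.isBasis_countableBasis X).exists_subset_of_mem_open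
    hU.2 (h.1.1 U hU.1)
  exact mem_iUnion₂.2 ⟨O, a, h3 O (hf.subset fun V hV =>
    ⟨mem_iUnion₂.2 ⟨O, a, hV⟩, (h1 O hV).2 b⟩) ⟨hU.1, c⟩⟩

lemma sierp {Ω : Type} [MeasurableSpace Ω] (μ : Measure Ω) [IsFiniteMeasure μ]
    {R : Ω → Ω → Prop} (hR : MeasurableSet {p : Ω × Ω | R p.1 p.2}) {Y : Type} (e : Y → Ω)
    (hS : ∀ N, μ N = 0 → (e ⁻¹' N).Countable) (h : ∀ x y, R (e x) (e y) ∨ R (e y) (e x)) :
    ∃ D : Set Y, D.Countable ∧ ∀ y, ∃ d ∈ D, R (e d) (e y) := by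
  have hm : ∀ x, MeasurableSet {y | R x y} := fun x => measurable_prodMk_left hR
  obtain ⟨𝒟, h1, h2, h3⟩ := Measure.exists_ae_subset_biUnion_countable μ
    (C := range fun x => {y | R (e x) y}) (forall_mem_range.2 fun x => hm _)
  obtain ⟨D, h4, rfl⟩ : ∃ D : Set Y, D.Countable ∧ (fun x => {y | R (e x) y}) '' D = 𝒟 := by
    choose g hg using fun s : 𝒟 => h1 s.2
    have := h2.to_subtype
    exact ⟨range g, countable_range g, by
      rw [← range_comp]; exact (congrArg range (funext hg)).trans Subtype.range_val⟩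
  set A := ⋃₀ ((fun x => {y | R (e x) y}) '' D)
  have hA : MeasurableSet A := .sUnion h2 (forall_mem_image.2 fun x _ => hm _)
  have h5 : MeasurableSet {p : Ω × Ω | R p.1 p.2 ∧ p.2 ∉ A} := hR.inter (measurable_snd hA.compl)
  have hG : MeasurableSet {x | μ {y | R x y ∧ y ∉ A} = 0} :=
    measurable_measure_prodMk_left h5 (measurableSet_singleton 0)
  have h6 := (Measure.ae_ae_comm (μ := μ) (ν := μ)
    (p := fun x y => ¬((R x y ∧ y ∉ A) ∧ μ {y | R x y ∧ y ∉ A} = 0))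
    (h5.inter (measurable_fst hG)).compl).1 (.of_forall fun x => by
      by_cases h : μ {y | R x y ∧ y ∉ A} = 0
      · exact measure_mono_null (fun y hy => (not_not.1 hy).1) h
      · exact .of_forall fun y h' => h h'.2)
  have h7 : ∀ x, μ {y | R (e x) y ∧ y ∉ A} = 0 := fun x => ae_le_set.1 (h3 _ ⟨x, rfl⟩)
  have h8 : (e ⁻¹' Aᶜ).Countable := by
    by_contra hc
    obtain ⟨y, y1, y2⟩ := not_subset.1 fun h' => hc ((hS _ h6).mono h')
    refine hc (((hS _ (not_not.1 y2)).union (hS _ (h7 y))).mono fun x hx => ?_)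
    exact (h x y).imp (fun h' h'' => h'' ⟨⟨h', y1⟩, h7 x⟩) fun h' => ⟨h', hx⟩
  refine ⟨D ∪ e ⁻¹' Aᶜ, h4.union h8, fun y => ?_⟩
  by_cases hy : e y ∈ A
  · obtain ⟨_, ⟨d, d1, rfl⟩, d2⟩ := hy
    exact ⟨d, Or.inl d1, d2⟩
  · exact ⟨y, Or.inr hy, (h y y).elim id id⟩

lemma tg_of [Nonempty X] {e : X → ℕ → Bool} (he : IsInducing e)
    (hS : ∀ N, lam N = 0 → (e ⁻¹' N).Countable) : TG X := fun 𝒰 hU => by
  have := he.secondCountableTopology
  obtain ⟨𝒱, h1, h2, h3⟩ := count_large hU.1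
  have := h2.to_subtype
  have := ((h3 (Classical.arbitrary X)).mono fun _ h => h.1).to_subtype
  obtain ⟨f⟩ := nonempty_equiv_of_countable (α := ℕ) (β := 𝒱)
  have hf : Function.Injective fun n => (f n).1 := Subtype.val_injective.comp f.injective
  choose O h4 h5 using fun n => he.isOpen_iff.1 (hU.1.1.1 _ (h1 (f n).2))
  have h6 : ∀ x n, e x ∈ O n ↔ x ∈ (f n).1 := fun x n => by rw [← h5]; rfl
  obtain ⟨D, h7, h8⟩ := sierp lam (R := fun x y => ∀ᶠ n in atTop, x ∈ O n → y ∈ O n) (by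
    simp only [eventually_atTop, ofPred_exists, ofPred_forall (ι := ℕ),
      ofPred_forall (ι := _ ≥ _)]
    refine .iUnion fun N => .iInter fun n => .iInter fun _ => ?_
    simp only [imp_iff_not_or]
    exact (measurable_fst (h4 n).measurableSet.compl).union
      (measurable_snd (h4 n).measurableSet)) e hS fun x y => by
    simp only [← Nat.cofinite_eq_atTop, eventually_cofinite, h6, Classical.not_imp]
    exact (hU.2 x y).imp
      (fun h => (h.preimage hf.injOn).subset fun n hn => ⟨h1 (f n).2, hn⟩)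
      fun h => (h.preimage hf.injOn).subset fun n hn => ⟨h1 (f n).2, hn⟩
  have := h7.to_subtype
  obtain ⟨E, h9, h10⟩ := pseudo (fun d : D => {n | d.1 ∈ (f n).1})
    (fun d hd => h3 d ((hd.image fun n => (f n).1).subset fun U hU =>
      ⟨f.symm ⟨U, hU.1⟩, by simpa using hU.2, by simp⟩))
    fun x y => (hU.2 x y).imp
      (fun h => (h.preimage hf.injOn).subset fun n hn => ⟨h1 (f n).2, hn⟩)
      fun h => (h.preimage hf.injOn).subset fun n hn => ⟨h1 (f n).2, hn⟩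
  have hs : (fun n => (f n).1) '' E ⊆ 𝒰 := image_subset_iff.2 fun n _ => h1 (f n).2
  have hi : ((fun n => (f n).1) '' E).Infinite := h9.image hf.injOn
  have key : ∀ x, {U | U ∈ (fun n => (f n).1) '' E ∧ x ∉ U}.Finite := fun x => by
    obtain ⟨d, d1, d2⟩ := h8 x
    rw [← Nat.cofinite_eq_atTop] at d2
    refine (((h10 ⟨d, d1⟩).union d2).image fun n => (f n).1).subset ?_
    rintro _ ⟨⟨n, a, rfl⟩, b⟩
    refine ⟨n, ?_, rfl⟩
    by_cases h : d ∈ (f n).1
    · exact Or.inr fun h' => b ((h6 _ _).1 (h' ((h6 _ _).2 h)))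
    · exact Or.inl ⟨a, h⟩
  refine ⟨_, hs, ⟨fun U h => hU.1.1.1 U (hs h), eq_univ_of_forall fun x => ?_,
    fun h => hU.1.1.2.2 (hs h)⟩, hi, key⟩
  obtain ⟨U, a, b⟩ := (hi.sdiff (key x)).nonempty
  exact ⟨U, a, by_contra fun h => b ⟨a, h⟩⟩

end Pool.Agent.H42.Tau
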