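import Pool.Agent.H42.Dlt2
import Pool.Agent.H42.DltDefs
import Pool.Agent.H42.Tau1

/-! Under CH: a set with `δ_p` for all `p` that fails `γ_q` for some `q`. -/

namespace Pool.Agent.H42.Dlt

open Set Filter Topology Classical Cardinal Pool.Agent.H42.Dirac Pool.Agent.H42.PolO

lemma hit {p : Set C} (hp : Good p) {E : Set ℕ} (hE : E.Infinite) :
    ∃ x ∈ p, {b | b ∈ E ∧ x b = true}.Infinite := by
  have st : ∀ s : p × ℕ, ∃ t : p × ℕ, Ag s.2 s.1 t.1 ∧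
      ∃ b ∈ E, s.2 ≤ b ∧ b < t.2 ∧ t.1.1 b = true := fun s => by
    obtain ⟨M, hM⟩ := hp.2.2 s.2
    obtain ⟨b, a1, a2⟩ := hE.exists_gt (M + s.2)
    obtain ⟨y, a3, a4, a5⟩ := hM _ s.1.2 b (by omega)
    exact ⟨(⟨y, a3⟩, b + 1), a4, b, a1, by omega, by simp, a5⟩
  choose nx h1 b h2 h3 h4 h5 using st
  let s : ℕ → p × ℕ := fun n => nx^[n] (⟨_, hp.2.1.some_mem⟩, 0)
  have hs : ∀ n, s (n + 1) = nx (s n) := fun n => Function.iterate_succ_apply' _ _ _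
  have h6 : StrictMono fun n => (s n).2 := strictMono_nat_of_lt_succ fun n => by
    rw [hs]; exact (h3 _).trans_lt (h4 _)
  obtain ⟨x, a1, a2⟩ := cpt (K := fun n => {y | Ag (s n).2 (s n).1 y}) (fun n y hy => by
    rw [hs] at hy; exact (h1 _).trans hy ((h3 _).trans (h4 _).le)) (fun n => (clopen_ag _ _).1)
    hp.1 fun n => ⟨_, Ag.refl _ _, (s n).1.2⟩
  refine ⟨x, a2, infinite_of_forall_exists_gt fun n => ⟨b (s (n + 1)), ⟨h2 _, ?_⟩,
    (h6.le_apply (x := n + 1)).trans (h3 _)⟩⟩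
  have := mem_iInter.1 a1 (n + 1 + 1)
  rw [hs] at this
  exact this _ (h4 _) ▸ h5 _

lemma pp {V : ℕ → ℕ → Set C} {x : C} (h : Prom V x) {p : Ultrafilter ℕ} (hp : ∀ n, {n} ∉ p) :
    ∀ᶠ i in (p : Filter ℕ), ∀ᶠ j in (p : Filter ℕ), x ∈ V i j := by
  obtain ⟨c, hc⟩ := h
  have h1 : (p : Filter ℕ) ≤ atTop := Nat.cofinite_eq_atTop ▸ p.le_cofinite_or_eq_pure.resolve_right
    fun ⟨a, ha⟩ => hp a (by rw [ha]; exact Ultrafilter.mem_pure.2 rfl)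
  obtain ⟨v, hv⟩ := (Ultrafilter.eventually_exists_iff (f := p) (P := fun v i => c i = v)).1
    (Eventually.of_forall fun a => ⟨c a, rfl⟩)
  filter_upwards [hv] with i hi
  filter_upwards [hv, h1 (hc i)] with j a b using b (hi.trans a.symm)

theorem core (hCH : (𝔠 : Cardinal.{0}) = ℵ₁) : ∃ X : Set C,
    (∀ U : ℕ → Set C, (∀ m, IsOpen (U m)) → (∀ F ⊆ X, F.Finite → ∃ m, F ⊆ U m) →
      ∃ f : ℕ → ℕ → ℕ, ∀ x ∈ X, Prom (fun i j => U (f i j)) x) ∧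
    (∀ E : Set ℕ, E.Infinite → ∃ x ∈ X, {b | b ∈ E ∧ x b = true}.Infinite) ∧
    ∀ F ⊆ X, F.Finite → ∀ N, ∃ b, N ≤ b ∧ ∀ x ∈ F, x b = false := by
  let ι : Finset ℕ → C := fun s i => decide (i ∈ s)
  obtain ⟨P0, f0, -, h0⟩ := thin ⟨{Set.univ}, countable_singleton _, singleton_nonempty _, by
      rintro _ rfl
      exact ⟨isClosed_univ, univ_nonempty, fun k => ⟨k, fun x _ b hb => ⟨Function.update x b true,
        trivial, fun i hi => (Function.update_of_ne (by omega) _ _).symm, by simp⟩⟩⟩⟩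
    (Dn := range ι) (by
      rintro _ rfl x - k
      exact ⟨ι ((Finset.range k).filter (x · = true)), ⟨trivial, _, rfl⟩,
        fun i hi => by simp [ι, hi]⟩) (countable_range ι) (fun m => {x | x m = false})
    (fun m => (clopen_at m {false}).2) fun F a b => by
      obtain ⟨t, -, c, rfl⟩ := (exists_subset_image_finite_and (f := ι) (s := Set.univ)
        (p := (· = F))).1 ⟨_, fun x hx => by simpa using (a hx).elim id And.right, b, rfl⟩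
      obtain ⟨m, -, d⟩ := BG.fin_bd (c.biUnion fun s _ => s.finite_toSet) 0
      exact ⟨m, image_subset_iff.2 fun s hs => decide_eq_false fun e =>
        lt_irrefl m (d (mem_iUnion₂.2 ⟨s, hs, e⟩))⟩
  obtain ⟨e, he⟩ := BG.ex_enum hCH (τ := Set ℕ × (ℕ → {s : Set C // MeasurableSet s})) (by
      have h1 : #(ℕ → {s : Set C // MeasurableSet s}) ≤ 𝔠 := by
        simp only [mk_pi, prod_const, lift_id, mk_nat]
        exact (power_le_power_right BG.card_meas).trans (by simp)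
      simp only [mk_prod, lift_id]
      exact (mul_le_mul' (b := 𝔠) (by simp) h1).trans (by simp))
  have : Nonempty (Lev × Set C) := ⟨(P0, ∅)⟩
  obtain ⟨f, hf⟩ := BG.rec_w (σ := Lev × Set C) (fun α g s => s.2.Countable ∧ Rel P0 s.1 ∧
    s.2 ⊆ ⋃₀ P0.L ∧ (∀ β, Rel (g β).1 s.1 ∧ s.2 ⊆ ⋃₀ (g β).1.L) ∧
    ((e α).1.Infinite → ∃ x ∈ s.2, {b | b ∈ (e α).1 ∧ x b = true}.Infinite) ∧
    ((∀ m, IsOpen ((e α).2 m).1) → (∃ F ⊆ (⋃ β, (g β).2) ∪ s.2, F.Finite ∧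
      ∀ m, ¬F ⊆ ((e α).2 m).1) ∨ ∃ k : ℕ → ℕ → ℕ, ∀ x ∈ ((⋃ β, (g β).2) ∪ s.2) ∪ ⋃₀ s.1.L,
        Prom (fun i j => ((e α).2 (k i j)).1) x)) (by
    intro α g hg
    obtain ⟨Q, h1, h2⟩ := lim_w P0 α (fun β => (g β).1) (fun β => (hg β).2.1)
      fun β γ h => ((hg γ).2.2.2.1 ⟨β, h⟩).1
    obtain ⟨x, h3, h4⟩ : ∃ x ∈ ⋃₀ Q.L,
        (e α).1.Infinite → {b | b ∈ (e α).1 ∧ x b = true}.Infinite := by
      obtain ⟨p, hp⟩ := Q.ne
      by_cases h : (e α).1.Infinite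
      · exact (hit (Q.good p hp) h).imp fun x hx => ⟨⟨p, hp, hx.1⟩, fun _ => hx.2⟩
      · exact (Q.good p hp).2.1.imp fun x hx => ⟨⟨p, hp, hx⟩, fun h' => absurd h' h⟩
    have h5 := singleton_subset_iff.2 h3
    by_cases hk : (∀ m, IsOpen ((e α).2 m).1) ∧ ∀ F ⊆ ((⋃ β, (g β).2) ∪ {x}) ∪ ⋃₀ Q.L ∩ Set.univ,
        F.Finite → ∃ m, F ⊆ ((e α).2 m).1
    · have := (Iio_count α).to_subtype
      obtain ⟨S, k, h7, h8⟩ := thin Q (fun p _ x hx k => ⟨x, ⟨hx, trivial⟩, Ag.refl _ _⟩)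
        ((countable_iUnion fun β => (hg β).1).union (countable_singleton x)) _ hk.1 hk.2
      exact ⟨(S, {x}), countable_singleton x, h1.trans h7, h5.trans h1.pts, fun β =>
        ⟨(h2 β).trans h7, h5.trans (h2 β).pts⟩, fun h => ⟨x, rfl, h4 h⟩, fun _ => Or.inr ⟨k, h8⟩⟩
    · obtain ⟨F, a1, a2, a3⟩ : ∃ F ⊆ ((⋃ β, (g β).2) ∪ {x}) ∪ ⋃₀ Q.L ∩ Set.univ, F.Finite ∧
          ((∀ m, IsOpen ((e α).2 m).1) → ∀ m, ¬F ⊆ ((e α).2 m).1) := by
        by_cases h : ∀ m, IsOpen ((e α).2 m).1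
        · simpa [h] using hk
        · exact ⟨∅, empty_subset _, finite_empty, fun h' => absurd h' h⟩
      have a4 : {x} ∪ F ∩ ⋃₀ Q.L ⊆ ⋃₀ Q.L := union_subset h5 inter_subset_right
      refine ⟨(Q, {x} ∪ F ∩ ⋃₀ Q.L), ((toFinite _).union (a2.inter_of_left _)).countable, h1,
        a4.trans h1.pts, fun β => ⟨h2 β, a4.trans (h2 β).pts⟩, fun h => ⟨x, Or.inl rfl, h4 h⟩,
        fun h => Or.inl ⟨F, fun z hz => ?_, a2, a3 h⟩⟩
      rcases a1 hz with (h | h) | h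
      exacts [Or.inl h, Or.inr (Or.inl h), Or.inr (Or.inr ⟨hz, h.1⟩)])
  refine ⟨⋃ α, (f α).2, fun U hU h => ?_, fun E hE => ?_, fun F a b N => ?_⟩
  · obtain ⟨α, hα⟩ := he (∅, fun m => ⟨U m, (hU m).measurableSet⟩)
    have := (hf α).2.2.2.2.2
    rw [hα] at this
    rcases this hU with ⟨F, a1, a2, a3⟩ | ⟨k, hk⟩
    · exact (h F (a1.trans (union_subset (iUnion_subset fun β => subset_iUnion (fun α => (f α).2) β)
        (subset_iUnion (fun α => (f α).2) α))) a2).elim fun m hm => absurd hm (a3 m)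
    · refine ⟨k, fun x hx => hk x ?_⟩
      obtain ⟨β, hβ⟩ := mem_iUnion.1 hx
      rcases lt_trichotomy β α with h1 | rfl | h1
      exacts [Or.inl (Or.inl (mem_iUnion.2 ⟨⟨β, h1⟩, hβ⟩)), Or.inl (Or.inr hβ),
        Or.inr (((hf β).2.2.2.1 ⟨α, h1⟩).2 hβ)]
  · obtain ⟨α, hα⟩ := he (E, fun _ => ⟨∅, MeasurableSet.empty⟩)
    have := (hf α).2.2.2.2.1
    rw [hα] at this
    exact (this hE).imp fun x hx => ⟨mem_iUnion.2 ⟨α, hx.1⟩, hx.2⟩
  · have h1 := (eventually_all_finite (b.insert (ι (Finset.range N)))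
      (l := (hyperfilter ℕ : Filter ℕ))
      (p := fun x i => ∀ᶠ j in (hyperfilter ℕ : Filter ℕ), x (f0 i j) = false)).2 fun x hx =>
      pp (h0 x (hx.imp (fun h => ⟨_, h.symm⟩) fun h => iUnion_subset (fun α => (hf α).2.2.1) (a h)))
        fun n => (finite_singleton n).notMem_hyperfilter
    obtain ⟨i, hi⟩ := h1.exists
    obtain ⟨j, hj⟩ := ((eventually_all_finite (b.insert _)).2 hi).exists
    exact ⟨f0 i j, by simpa [ι] using hj _ (Or.inl rfl), fun x hx => hj x (Or.inr hx)⟩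

theorem main (hCH : (𝔠 : Cardinal.{0}) = ℵ₁) : ∃ X : Set (ℕ → Bool),
    (∀ p : Ultrafilter ℕ, (∀ n, {n} ∉ p) → DeltaP p X) ∧
    ∃ q : Ultrafilter ℕ, (∀ n, {n} ∉ q) ∧ ¬GammaP q X := by
  obtain ⟨X, h1, h2, h3⟩ := core hCH
  refine ⟨X, fun p hp 𝒰 hU L hL => ?_, ?_⟩
  · obtain ⟨u, q, hq⟩ := enum hU
    choose V a1 a2 using fun m => isOpen_induced_iff.1 (hU.1 _ (u m).2)
    obtain ⟨f, hf⟩ := h1 V a1 fun F a b => by
      obtain ⟨m, hm⟩ := Ultrafilter.nonempty_of_mem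
        (hq _ (b.preimage Subtype.val_injective.injOn))
      exact ⟨m, fun x hx => (a2 m).ge (hm (show (⟨x, a hx⟩ : X) ∈ Subtype.val ⁻¹' F from hx))⟩
    convert hL.2 (fun i => plim p fun j => u (f i j)) fun i => hL.2 _ fun j => hL.1 (u _).2
    refine (eq_univ_of_forall fun x : X => mem_iUnion₂.2 ⟨_, pp (hf x x.2) hp, ?_⟩).symm
    refine mem_iInter₂.2 fun i hi => mem_iUnion₂.2 ⟨{j | x.1 ∈ V (f i j)}, hi, ?_⟩
    exact mem_iInter₂.2 fun j hj => (a2 _).le hj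
  obtain ⟨e, he⟩ := BG.ex_enum hCH (τ := ℕ → ℕ) (by simp)
  obtain ⟨t, ht⟩ := BG.rec_w (σ := Set ℕ) (fun α g s => s.Infinite ∧ (∀ β, (s \ g β).Finite) ∧
    ((∀ n, ∃ x ∈ X, x (e α n) = true) → ∃ x ∈ X, ∀ n ∈ s, x (e α n) = true)) fun α g hg => by
    have := (Iio_count α).to_subtype
    obtain ⟨E, a1, a2⟩ := Tau.pseudo g (fun β => (hg β).1) fun β γ => by
      rcases lt_trichotomy β γ with h | rfl | h
      exacts [Or.inr ((hg γ).2.1 ⟨β, h⟩), Or.inl (by simp), Or.inl ((hg β).2.1 ⟨γ, h⟩)]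
    by_cases h : (e α '' E).Finite
    · obtain ⟨b, hb⟩ : ∃ b, (E ∩ {n | e α n = b}).Infinite := by
        by_contra! c
        exact a1 ((h.biUnion fun b _ => c b).subset fun n hn =>
          mem_iUnion₂.2 ⟨_, ⟨n, hn, rfl⟩, hn, rfl⟩)
      refine ⟨_, hb, fun β => (a2 β).subset fun n h => ⟨h.1.1, h.2⟩, fun h => ?_⟩
      obtain ⟨m, hm⟩ := hb.nonempty
      exact (h m).imp fun x hx => ⟨hx.1, fun n hn => by rw [hn.2, ← hm.2]; exact hx.2⟩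
    · obtain ⟨x, a3, a4⟩ := h2 _ h
      exact ⟨E ∩ {n | x (e α n) = true}, Infinite.of_image (e α) (a4.mono fun b hb =>
        hb.1.elim fun n c => ⟨n, ⟨c.1, (congrArg x c.2).trans hb.2⟩, c.2⟩), fun β => (a2 β).subset fun n h => ⟨h.1.1, h.2⟩,
        fun _ => ⟨x, a3, fun n h => h.2⟩⟩
  have key : ∀ i j, (t i \ t j).Finite → cofinite ⊓ 𝓟 (t i) ≤ cofinite ⊓ 𝓟 (t j) := fun i j h =>
    le_inf inf_le_left (le_principal_iff.2 (mem_inf_principal.2 (h.subset fun x hx => by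
      simpa using hx)))
  obtain ⟨α0, -⟩ := he id
  have : Nonempty W := ⟨α0⟩
  have : (⨅ i, cofinite ⊓ 𝓟 (t i)).NeBot := iInf_neBot_of_directed (fun i j => by
      rcases lt_trichotomy i j with h | rfl | h
      exacts [⟨j, key _ _ ((ht j).2.1 ⟨i, h⟩), le_rfl⟩, ⟨i, le_rfl, le_rfl⟩,
        ⟨i, le_rfl, key _ _ ((ht i).2.1 ⟨j, h⟩)⟩])
    fun i => cofinite_inf_principal_neBot_iff.2 (ht i).1
  have hq := fun i => (Ultrafilter.of_le (⨅ i, cofinite ⊓ 𝓟 (t i))).trans (iInf_le _ i)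
  refine ⟨Ultrafilter.of (⨅ i, cofinite ⊓ 𝓟 (t i)), fun n => Ultrafilter.compl_mem_iff_notMem.1
    ((hq α0).trans inf_le_left (finite_singleton n).compl_mem_cofinite), fun h => ?_⟩
  obtain ⟨U, a1, a2⟩ := h ((range fun b => {x : X | x.1 b = false}) \ {Set.univ}) ⟨by
    rintro _ ⟨⟨b, rfl⟩, -⟩
    exact (clopen_at b {false}).2.preimage continuous_subtype_val, fun h => h.2 rfl, fun F hF => by
    obtain ⟨x, a, b⟩ := h2 {b | ∀ x ∈ F, x.1 b = false} (infinite_of_forall_exists_gt fun N =>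
      (h3 _ (Subtype.coe_image_subset X F) (hF.image _) (N + 1)).imp fun b hb =>
        ⟨fun x hx => hb.2 _ ⟨x, hx, rfl⟩, hb.1⟩)
    obtain ⟨b, c, d⟩ := b.nonempty
    exact ⟨_, ⟨⟨b, rfl⟩, (ne_univ_iff_exists_notMem _).2 ⟨⟨x, a⟩, by simp [d]⟩⟩, c⟩⟩
  choose f hf using fun n => (a1 n).1
  obtain ⟨α, rfl⟩ := he f
  obtain ⟨x, a3, a4⟩ := (ht α).2.2 fun n => by
    obtain ⟨x, hx⟩ := (ne_univ_iff_exists_notMem _).1 (a1 n).2
    exact ⟨x, x.2, by simpa [← hf n] using hx⟩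
  obtain ⟨n, b1, b2⟩ := Ultrafilter.nonempty_of_mem (inter_mem (a2 ⟨x, a3⟩)
    ((hq α).trans inf_le_right (mem_principal_self _)))
  simp [← hf n, a4 n b2] at b1

end Pool.Agent.H42.Dlt
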