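import Pool.Agent.H42.DomDefs

namespace Pool.Agent.H42.Dom

open Set

universe u

variable {X : Type u} [TopologicalSpace X]

def Sm {α : Type u} (b : Prop) (s : Set α) : Prop := s.Finite ∧ (b → s.Subsingleton)

def Sel (b : Prop) (X : Type u) [TopologicalSpace X] : Prop :=
  ∀ 𝒰 : ℕ → Set (Set X), (∀ n, DOm (𝒰 n)) →
    ∃ F : ℕ → Set (Set X), (∀ n, F n ⊆ 𝒰 n ∧ Sm b (F n)) ∧ DOm (⋃ n, F n)

lemma Sm.image {α β : Type u} {b : Prop} {s : Set α} (h : Sm b s) (f : α → β) : Sm b (f '' s) :=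
  ⟨h.1.image f, fun hb => (h.2 hb).image f⟩

lemma mk_dom {𝒰 : Set (Set X)} (h1 : ∀ U ∈ 𝒰, IsOpen U ∧ ¬ univ ⊆ closure U)
    (h2 : ∀ F : Set (Set X), F.Finite → (∀ G ∈ F, IsOpen G ∧ G.Nonempty) →
      ∃ U ∈ 𝒰, ∀ G ∈ F, (U ∩ G).Nonempty) : DOm 𝒰 := by
  refine ⟨fun U hU => (h1 U hU).1, ?_, fun U hU => (h1 U hU).2, h2⟩
  rw [dense_iff_inter_open]
  intro G hG hne
  obtain ⟨U, hU, h⟩ := h2 {G} (finite_singleton _) (by simp [hG, hne])
  obtain ⟨x, hx1, hx2⟩ := h G rfl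
  exact ⟨x, hx2, U, hU, hx1⟩

lemma sfin_iff : Sfin X ↔ Sel False X := by
  simp only [Sfin, Sel, Sm, false_imp_iff, and_true]

lemma s1_iff : S1 X ↔ Sel True X := by
  constructor
  · intro h 𝒰 h𝒰
    obtain ⟨U, h1, h2⟩ := h 𝒰 h𝒰
    refine ⟨fun n => {U n}, fun n => ⟨by simpa using h1 n, finite_singleton _,
      fun _ => subsingleton_singleton⟩, ?_⟩
    rwa [iUnion_singleton_eq_range]
  · intro h 𝒰 h𝒰
    obtain ⟨F, h1, h2⟩ := h 𝒰 h𝒰
    have : ∀ n, ∃ U ∈ 𝒰 n, F n ⊆ {U} := by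
      intro n
      rcases ((h1 n).2.2 trivial).eq_empty_or_singleton with e | ⟨U, e⟩
      · obtain ⟨U, hU, -⟩ := (h𝒰 n).2.2.2 ∅ finite_empty (by simp)
        exact ⟨U, hU, by simp [e]⟩
      · exact ⟨U, (h1 n).1 (by simp [e]), e.le⟩
    choose U hU hF using this
    refine ⟨U, hU, mk_dom ?_ fun G hG hG' => ?_⟩
    · rintro _ ⟨n, rfl⟩
      exact ⟨(h𝒰 n).1 _ (hU n), (h𝒰 n).2.2.1 _ (hU n)⟩
    · obtain ⟨V, hV, hm⟩ := h2.2.2.2 G hG hG'
      obtain ⟨n, hn⟩ := mem_iUnion.1 hV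
      exact ⟨V, ⟨n, (hF n hn).symm⟩, hm⟩

lemma sel_weak {b : Prop} (h : Sel b X) : Sel False X := fun 𝒰 h𝒰 => by
  obtain ⟨F, h1, h2⟩ := h 𝒰 h𝒰
  exact ⟨F, fun n => ⟨(h1 n).1, (h1 n).2.1, False.elim⟩, h2⟩

/-- infinite type -/
def IT (X : Type u) [TopologicalSpace X] : Prop :=
  ∀ F : Set (Set X), F.Finite → (∀ G ∈ F, IsOpen G ∧ G.Nonempty) →
    ∃ U, IsOpen U ∧ ¬ univ ⊆ closure U ∧ ∀ G ∈ F, (U ∩ G).Nonempty

def Box {ι : Type} (B : ι → Set X) : Prop := ∀ i, IsOpen (B i) ∧ (B i).Nonempty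

def DO {ι : Type} (D : Set (ι → Set X)) : Prop :=
  (∀ B, Box B → ∃ B' ∈ D, Box B' ∧ ∀ i, B' i ⊆ B i) ∧
    ∀ B ∈ D, ∀ B', Box B' → (∀ i, B' i ⊆ B i) → B' ∈ D

def Sep (S : ℕ → Set X) (N : ℕ) (A B : Set X) : Prop :=
  ∃ s < N, (A ⊆ S s ∧ Disjoint B (S s)) ∨ (B ⊆ S s ∧ Disjoint A (S s))

def Good {ι : Type} (S : ℕ → Set X) (N : ℕ) (G : ι → Set X) : Prop :=
  ∀ i j, i ≠ j → IsPreirreducible (G j) ∨ Sep S N (G i) (G j)

lemma decide_ex (S : ℕ → Set X) (hS : ∀ s, IsOpen (S s)) (N : ℕ) (G : Set X) (h1 : IsOpen G)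
    (h2 : G.Nonempty) : ∃ p, p ⊆ G ∧ IsOpen p ∧ p.Nonempty ∧
      (∀ s < N, p ⊆ S s ∨ Disjoint p (S s)) ∧
      (IsPreirreducible p ∨ ∀ A ⊆ p, IsOpen A → A.Nonempty → ¬ IsPreirreducible A) := by
  have : ∃ p, p ⊆ G ∧ IsOpen p ∧ p.Nonempty ∧ ∀ s < N, p ⊆ S s ∨ Disjoint p (S s) := by
    induction N with
    | zero => exact ⟨G, le_rfl, h1, h2, by simp⟩
    | succ N ih =>
      obtain ⟨p, a, b, c, d⟩ := ih
      by_cases hp : (p ∩ S N).Nonempty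
      · refine ⟨p ∩ S N, inter_subset_left.trans a, b.inter (hS N), hp, fun s hs => ?_⟩
        rcases Nat.lt_succ_iff_lt_or_eq.1 hs with hs | rfl
        · exact (d s hs).imp (inter_subset_left.trans ·) (·.mono_left inter_subset_left)
        · exact Or.inl inter_subset_right
      · refine ⟨p, a, b, c, fun s hs => ?_⟩
        rcases Nat.lt_succ_iff_lt_or_eq.1 hs with hs | rfl
        · exact d s hs
        · exact Or.inr (disjoint_iff_inter_eq_empty.2 (not_nonempty_iff_eq_empty.1 hp))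
  obtain ⟨p, a, b, c, d⟩ := this
  by_cases h : ∀ A ⊆ p, IsOpen A → A.Nonempty → ¬ IsPreirreducible A
  · exact ⟨p, a, b, c, d, Or.inr h⟩
  · push Not at h
    obtain ⟨A, e, f, g, k⟩ := h
    exact ⟨A, e.trans a, f, g, fun s hs => (d s hs).imp (e.trans ·) (·.mono_left e), Or.inl k⟩

lemma shrink {ι : Type} {A : Type u} [Finite ι] (p : A → Set X)
    (hp : ∀ a, IsOpen (p a) ∧ (p a).Nonempty) (D : (ι → A) → Set (ι → Set X))
    (hD : ∀ τ, DO (D τ)) (s : Finset (ι → A)) :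
    ∃ q : A → Set X, (∀ a, q a ⊆ p a ∧ IsOpen (q a) ∧ (q a).Nonempty) ∧
      ∀ τ ∈ s, (∀ i j, i ≠ j → τ i = τ j → IsPreirreducible (p (τ i))) →
        (fun i => q (τ i)) ∈ D τ := by
  classical
  induction s using Finset.induction_on with
  | empty => exact ⟨p, fun a => ⟨le_rfl, hp a⟩, by simp⟩
  | insert τ s _ ih =>
    obtain ⟨q, hq, hs⟩ := ih
    by_cases hτ : ∀ i j, i ≠ j → τ i = τ j → IsPreirreducible (p (τ i))
    swap
    · refine ⟨q, hq, fun σ hσ h => ?_⟩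
      rcases Finset.mem_insert.1 hσ with rfl | hσ
      · exact absurd h hτ
      · exact hs σ hσ h
    obtain ⟨B, hB, hB1, hB2⟩ := (hD τ).1 (fun i => q (τ i)) fun i => (hq _).2
    let r : A → Set X := fun a => q a ∩ ⋂ i ∈ {i | τ i = a}, B i
    have hr : ∀ a, r a ⊆ q a ∧ IsOpen (r a) ∧ (r a).Nonempty := by
      intro a
      refine ⟨inter_subset_left, (hq a).2.1.inter
        ((toFinite _).isOpen_biInter fun i _ => (hB1 i).1), ?_⟩
      by_cases h : ∃ i j, i ≠ j ∧ τ i = a ∧ τ j = a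
      · obtain ⟨i, j, hij, hi, hj⟩ := h
        have hpre : IsIrreducible (q a) := ⟨(hq a).2.2,
          (hi ▸ hτ i j hij (hi.trans hj.symm)).open_subset (hq a).2.1 (hq a).1⟩
        have := isIrreducible_iff_sInter.1 hpre ((toFinite (B '' {i | τ i = a})).toFinset)
          (by simp only [Finite.mem_toFinset]; rintro _ ⟨k, -, rfl⟩; exact (hB1 k).1)
          (by
            simp only [Finite.mem_toFinset]; rintro _ ⟨k, hk, rfl⟩
            obtain ⟨x, hx⟩ := (hB1 k).2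
            exact ⟨x, by rw [← show τ k = a from hk]; exact hB2 k hx, hx⟩)
        simpa only [Finite.coe_toFinset, sInter_image] using this
      · push Not at h
        by_cases h' : ∃ i, τ i = a
        · obtain ⟨i, hi⟩ := h'
          obtain ⟨x, hx⟩ := (hB1 i).2
          refine ⟨x, by rw [← hi]; exact hB2 i hx, mem_iInter₂.2 fun j hj => ?_⟩
          by_cases e : i = j
          · exact e ▸ hx
          · exact absurd hj (h i j e hi)
        · obtain ⟨x, hx⟩ := (hq a).2.2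
          exact ⟨x, hx, mem_iInter₂.2 fun j hj => absurd ⟨j, hj⟩ h'⟩
    refine ⟨r, fun a => ⟨(hr a).1.trans (hq a).1, (hr a).2⟩, fun σ hσ h => ?_⟩
    rcases Finset.mem_insert.1 hσ with rfl | hσ
    · exact (hD σ).2 B hB _ (fun i => (hr _).2) fun i x hx => mem_iInter₂.1 hx.2 i rfl
    · exact (hD σ).2 _ (hs σ hσ h) _ (fun i => (hr _).2) fun i => (hr _).1

lemma cert {ι : Type} [Finite ι] (hX : IT X) (S : ℕ → Set X) (hS : ∀ s, IsOpen (S s)) (N : ℕ)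
    (D : ℕ → Set (ι → Set X)) (hD : ∀ j, DO (D j)) :
    DOm {V | IsOpen V ∧ ¬ univ ⊆ closure V ∧ ∃ c : ℕ → ι → Set X, (∀ j, c j ∈ D j) ∧
      ∀ G, Box G → Good S N G → (∀ i, (V ∩ G i).Nonempty) →
        ∃ j, ∀ i, (c j i ∩ G i).Nonempty} := by
  classical
  refine mk_dom (fun U hU => ⟨hU.1, hU.2.1⟩) fun F hF hF' => ?_
  obtain ⟨U, hU1, hU2, hU3⟩ := hX F hF hF'
  have hne : Nonempty X := by
    by_contra h
    exact hU2 fun x _ => absurd ⟨x⟩ h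
  have := hF.to_subtype
  choose p hp1 hp2 hp3 hp4 hp5 using fun a : F => decide_ex S hS N (U ∩ a)
    (hU1.inter (hF' a a.2).1) (hU3 a a.2)
  obtain ⟨e, he⟩ := exists_injective_nat (ι → F)
  have := Fintype.ofFinite (ι → F)
  obtain ⟨q, hq, hqD⟩ := shrink p (fun a => ⟨hp2 a, hp3 a⟩) (fun τ => D (e τ)) (fun τ => hD _)
    Finset.univ
  have hc : ∀ j, ∃ c ∈ D j, ∀ τ, e τ = j →
      (∀ i j, i ≠ j → τ i = τ j → IsPreirreducible (p (τ i))) → c = fun i => q (τ i) := by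
    intro j
    by_cases h : ∃ τ, e τ = j ∧ ∀ i j, i ≠ j → τ i = τ j → IsPreirreducible (p (τ i))
    · obtain ⟨τ, rfl, h⟩ := h
      exact ⟨_, hqD τ (Finset.mem_univ _) h, fun σ hσ _ => by rw [he hσ]⟩
    · obtain ⟨B, hB, -⟩ := (hD j).1 (fun _ => univ) fun _ => ⟨isOpen_univ, univ_nonempty⟩
      exact ⟨B, hB, fun τ h1 h2 => absurd ⟨τ, h1, h2⟩ h⟩
  choose c hc1 hc2 using hc
  refine ⟨⋃ a, q a, ⟨isOpen_iUnion fun a => (hq a).2.1, fun h => hU2 (h.trans (closure_mono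
    (iUnion_subset fun a => (hq a).1.trans ((hp1 a).trans inter_subset_left)))), c, hc1,
    fun G hG hgood hV => ?_⟩, fun G hG => ?_⟩
  · have : ∀ i, ∃ a, (q a ∩ G i).Nonempty := fun i => by
      obtain ⟨x, hx1, hx2⟩ := hV i
      obtain ⟨a, ha⟩ := mem_iUnion.1 hx1
      exact ⟨a, x, ha, hx2⟩
    choose τ hτ using this
    refine ⟨e τ, fun i => ?_⟩
    rw [hc2 _ τ rfl fun i j hij hτ' => ?_]
    · exact hτ i
    have m1 : (p (τ i) ∩ G i).Nonempty := (hτ i).mono (inter_subset_inter_left _ (hq _).1)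
    have m2 : (p (τ i) ∩ G j).Nonempty := by
      rw [hτ']; exact (hτ j).mono (inter_subset_inter_left _ (hq _).1)
    rcases hgood i j hij with h | ⟨s, hs, h⟩
    · refine (hp5 (τ i)).resolve_right fun h' => h' _ inter_subset_left
        ((hp2 _).inter (hG j).1) m2 (h.open_subset ((hp2 _).inter (hG j).1) inter_subset_right)
    · exfalso
      obtain ⟨x, x1, x2⟩ := m1
      obtain ⟨y, y1, y2⟩ := m2
      rcases hp4 (τ i) s hs with d | d <;> rcases h with h | h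
      · exact disjoint_left.1 h.2 y2 (d y1)
      · exact disjoint_left.1 h.2 x2 (d x1)
      · exact disjoint_left.1 d x1 (h.1 x2)
      · exact disjoint_left.1 d y1 (h.1 y2)
  · obtain ⟨x, hx⟩ := (hq ⟨G, hG⟩).2.2
    exact ⟨x, mem_iUnion.2 ⟨_, hx⟩, (hp1 _ ((hq _).1 hx)).2⟩

lemma sel_box {ι : Type} [Finite ι] {b : Prop} (h : Sel b X) (hX : IT X) (S : ℕ → Set X)
    (hS : ∀ s, IsOpen (S s)) (N : ℕ) (D : ℕ × ℕ → Set (ι → Set X)) (hD : ∀ j, DO (D j)) :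
    ∃ C : ℕ × ℕ → Set (ι → Set X), (∀ j, C j ⊆ D j ∧ Sm b (C j)) ∧
      ∀ G, Box G → Good S N G → ∃ j, ∃ c ∈ C j, ∀ i, (c i ∩ G i).Nonempty := by
  classical
  obtain ⟨F, hF, hF'⟩ := h _ fun r => cert hX S hS N (fun j => D (r, j)) fun j => hD _
  have : ∀ r V, ∃ c : ℕ → ι → Set X, V ∈ F r → (∀ j, c j ∈ D (r, j)) ∧
      ∀ G, Box G → Good S N G → (∀ i, (V ∩ G i).Nonempty) →
        ∃ j, ∀ i, (c j i ∩ G i).Nonempty := by
    intro r V
    by_cases hV : V ∈ F r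
    · obtain ⟨c, hc⟩ := ((hF r).1 hV).2.2
      exact ⟨c, fun _ => hc⟩
    · exact ⟨fun _ _ => ∅, fun h => absurd h hV⟩
  choose c hc using this
  refine ⟨fun j => (fun V => c j.1 V j.2) '' F j.1, fun j => ⟨?_, (hF j.1).2.image _⟩,
    fun G hG hg => ?_⟩
  · rintro _ ⟨V, hV, rfl⟩
    exact (hc _ V hV).1 _
  · obtain ⟨V, hV, hm⟩ := hF'.2.2.2 (range G) (finite_range G) (by rintro _ ⟨i, rfl⟩; exact hG i)
    obtain ⟨r, hr⟩ := mem_iUnion.1 hV
    obtain ⟨j, hj⟩ := (hc r V hr).2 G hG hg fun i => hm _ ⟨i, rfl⟩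
    exact ⟨(r, j), _, ⟨V, hr, rfl⟩, hj⟩

end Pool.Agent.H42.Dom
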