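import Pool.Agent.H42.Dom1

namespace Pool.Agent.H42.Dom

open Set

universe u

variable {X : Type u} [TopologicalSpace X]

lemma it_of_pow {ι : Type} [Finite ι] {𝒰 : Set (Set (ι → X))} (h : DOm 𝒰) : IT X := by
  classical
  intro F hF hF'
  by_contra hn
  push Not at hn
  have := hF.to_subtype
  obtain ⟨U, hU, hm⟩ := h.2.2.2 (range fun τ : ι → F => univ.pi fun i => (τ i : Set X))
    (finite_range _) (by
      rintro _ ⟨τ, rfl⟩
      exact ⟨isOpen_set_pi finite_univ fun i _ => (hF' _ (τ i).2).1,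
        univ_pi_nonempty_iff.2 fun i => (hF' _ (τ i).2).2⟩)
  have key : ∀ J : Finset ι, ∀ G : ι → Set X, Box G → (∀ i ∉ J, G i ∈ F) →
      (U ∩ univ.pi G).Nonempty := by
    intro J
    induction J using Finset.induction_on with
    | empty => exact fun G _ hG => hm _ ⟨fun i => ⟨G i, hG i (by simp)⟩, rfl⟩
    | insert k J hk ih =>
      intro G hG hGF
      let V : Set X := (fun x => x k) '' (U ∩ univ.pi (Function.update G k univ))
      have hV : IsOpen V := isOpenMap_eval k _ ((h.1 U hU).inter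
        (isOpen_set_pi finite_univ fun i _ => by
          by_cases e : i = k
          · subst e; simp
          · simp [e, (hG i).1]))
      have hd : univ ⊆ closure V := by
        by_contra hd
        obtain ⟨a, ha, e⟩ := hn V hV hd
        obtain ⟨x, hx1, hx2⟩ := ih (Function.update G k a) (fun i => by
          by_cases e : i = k
          · subst e; simpa using hF' a ha
          · simpa [e] using hG i) (fun i hi => by
          by_cases e : i = k
          · subst e; simpa using ha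
          · simpa [e] using hGF i (by simp [e, hi]))
        have : x k ∈ V ∩ a := ⟨⟨x, ⟨hx1, fun i _ => by
          by_cases e : i = k
          · subst e; simp
          · simpa [e] using hx2 i trivial⟩, rfl⟩, by simpa using hx2 k trivial⟩
        rw [e] at this; exact this
      obtain ⟨y, hy⟩ := (hG k).2
      obtain ⟨_, hz, x, ⟨hx1, hx2⟩, rfl⟩ := mem_closure_iff.1 (hd (mem_univ y)) _ (hG k).1 hy
      refine ⟨x, hx1, fun i _ => ?_⟩
      by_cases e : i = k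
      · subst e; exact hz
      · simpa [e] using hx2 i trivial
  apply h.2.2.1 U hU
  intro x _
  have := Fintype.ofFinite ι
  refine mem_closure_iff.2 fun O hO hx => ?_
  obtain ⟨G, hG, hGO⟩ := isOpen_pi_iff'.1 hO x hx
  obtain ⟨y, hy1, hy2⟩ := key Finset.univ G (fun i => ⟨(hG i).1, _, (hG i).2⟩) (by simp)
  exact ⟨y, hGO hy2, hy1⟩

def Spl (S : ℕ → Set X) : Prop := ∀ G, IsOpen G → G.Nonempty →
  (∃ A ⊆ G, IsOpen A ∧ A.Nonempty ∧ IsPreirreducible A) ∨
    ∃ s, (G ∩ S s).Nonempty ∧ ¬ G ⊆ closure (S s)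

lemma Sep.mono {S : ℕ → Set X} {N M : ℕ} {A B A' B' : Set X} (h : Sep S N A B) (hN : N ≤ M)
    (hA : A' ⊆ A) (hB : B' ⊆ B) : Sep S M A' B' := by
  obtain ⟨s, hs, h⟩ := h
  exact ⟨s, hs.trans_le hN, h.imp (fun h => ⟨hA.trans h.1, h.2.mono_left hB⟩)
    fun h => ⟨hB.trans h.1, h.2.mono_left hA⟩⟩

lemma good_ex {ι : Type} [Finite ι] {S : ℕ → Set X} (hS : ∀ s, IsOpen (S s)) (h : Spl S)
    (G : ι → Set X) (hG : Box G) : ∃ N G', Box G' ∧ (∀ i, G' i ⊆ G i) ∧ Good S N G' := by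
  classical
  have key : ∀ s : Finset (ι × ι), ∃ N G', Box G' ∧ (∀ i, G' i ⊆ G i) ∧
      ∀ p ∈ s, p.1 ≠ p.2 → IsPreirreducible (G' p.2) ∨ Sep S N (G' p.1) (G' p.2) := by
    intro s
    induction s using Finset.induction_on with
    | empty => exact ⟨0, G, hG, fun _ => le_rfl, by simp⟩
    | insert p s _ ih =>
      obtain ⟨N, H, h1, h2, h3⟩ := ih
      obtain ⟨i, j⟩ := p
      by_cases hij : i = j
      · refine ⟨N, H, h1, h2, fun p hp hne => ?_⟩
        rcases Finset.mem_insert.1 hp with rfl | hp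
        · exact absurd hij hne
        · exact h3 p hp hne
      have : ∃ M A B, N ≤ M ∧ A ⊆ H i ∧ B ⊆ H j ∧ (IsOpen A ∧ A.Nonempty) ∧
          (IsOpen B ∧ B.Nonempty) ∧ (IsPreirreducible B ∨ Sep S M A B) := by
        rcases h _ (h1 j).1 (h1 j).2 with ⟨A, a, b, c, d⟩ | ⟨t, a, b⟩
        · exact ⟨N, H i, A, le_rfl, le_rfl, a, h1 i, ⟨b, c⟩, Or.inl d⟩
        by_cases hi : (H i ∩ S t).Nonempty
        · refine ⟨N + t + 1, H i ∩ S t, H j \ closure (S t), by omega, inter_subset_left,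
            diff_subset, ⟨(h1 i).1.inter (hS t), hi⟩, ⟨(h1 j).1.sdiff isClosed_closure,
            diff_nonempty.2 b⟩, Or.inr ⟨t, by omega, Or.inl ⟨inter_subset_right,
            disjoint_left.2 fun x hx hx' => hx.2 (subset_closure hx')⟩⟩⟩
        · exact ⟨N + t + 1, H i, H j ∩ S t, by omega, le_rfl, inter_subset_left, h1 i,
            ⟨(h1 j).1.inter (hS t), a⟩, Or.inr ⟨t, by omega, Or.inr ⟨inter_subset_right,
            disjoint_iff_inter_eq_empty.2 (not_nonempty_iff_eq_empty.1 hi)⟩⟩⟩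
      obtain ⟨M, A, B, hM, hA, hB, oA, oB, hAB⟩ := this
      let K : ι → Set X := fun k => if k = i then A else if k = j then B else H k
      have hK : ∀ k, K k ⊆ H k ∧ IsOpen (K k) ∧ (K k).Nonempty := by
        intro k
        simp only [K]
        split_ifs with a b
        · exact ⟨a ▸ hA, oA⟩
        · exact ⟨b ▸ hB, oB⟩
        · exact ⟨le_rfl, h1 k⟩
      refine ⟨M, K, fun k => (hK k).2, fun k => (hK k).1.trans (h2 k), fun p hp hne => ?_⟩
      rcases Finset.mem_insert.1 hp with rfl | hp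
      · simpa [K, Ne.symm hij] using hAB
      · exact (h3 p hp hne).imp (fun h => h.open_subset (hK _).2.1 (hK _).1)
          fun h => h.mono hM (hK _).1 (hK _).1
  have := Fintype.ofFinite ι
  obtain ⟨N, H, h1, h2, h3⟩ := key Finset.univ
  exact ⟨N, H, h1, h2, fun i j hij => h3 (i, j) (Finset.mem_univ _) hij⟩

theorem pow_sel {ι : Type} [Finite ι] {b : Prop} (h : Sel b X) {S : ℕ → Set X}
    (hS : ∀ s, IsOpen (S s)) (hsp : Spl S) : Sel b (ι → X) := by
  classical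
  intro 𝒰 h𝒰
  have hX : IT X := it_of_pow (h𝒰 0)
  have := Fintype.ofFinite ι
  let e : ℕ ≃ (ℕ × ℕ) × ℕ × ℕ := (Denumerable.eqv _).symm
  let D : ∀ m : ℕ, ℕ → Set (Fin m × ι → Set X) := fun m n =>
    {B | ∃ U ∈ 𝒰 n, ∀ a, (univ.pi fun i => B (a, i)) ⊆ U}
  have hD : ∀ m n, DO (D m n) := by
    intro m n
    refine ⟨fun B hB => ?_, fun B ⟨U, hU, hB⟩ B' _ hB' =>
      ⟨U, hU, fun a x hx => hB a fun i _ => hB' _ (hx i trivial)⟩⟩
    obtain ⟨U, hU, hm⟩ := (h𝒰 n).2.2.2 (range fun a : Fin m => univ.pi fun i => B (a, i))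
      (finite_range _) (by
        rintro _ ⟨a, rfl⟩
        exact ⟨isOpen_set_pi finite_univ fun i _ => (hB _).1,
          univ_pi_nonempty_iff.2 fun i => (hB _).2⟩)
    have : ∀ a : Fin m, ∃ G : ι → Set X, Box G ∧ (∀ i, G i ⊆ B (a, i)) ∧ univ.pi G ⊆ U := by
      intro a
      obtain ⟨x, hx1, hx2⟩ := hm _ ⟨a, rfl⟩
      obtain ⟨G, hG, hGO⟩ := isOpen_pi_iff'.1 ((h𝒰 n).1 U hU) x hx1
      exact ⟨fun i => G i ∩ B (a, i), fun i => ⟨(hG i).1.inter (hB _).1, x i, (hG i).2,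
        hx2 i trivial⟩, fun i => inter_subset_right, fun y hy => hGO fun i _ => (hy i trivial).1⟩
    choose G h1 h2 h3 using this
    exact ⟨fun p => G p.1 p.2, ⟨U, hU, h3⟩, fun p => h1 _ _, fun p => h2 _ _⟩
  choose C hC hC' using fun p : ℕ × ℕ => sel_box (ι := Fin p.1 × ι) h hX S hS p.2
    (fun j => D p.1 (e.symm (p, j))) fun j => hD _ _
  have : ∀ m n (B : Fin m × ι → Set X), ∃ U, B ∈ D m n →
      U ∈ 𝒰 n ∧ ∀ a, (univ.pi fun i => B (a, i)) ⊆ U := by
    intro m n B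
    by_cases hB : B ∈ D m n
    · obtain ⟨U, hU⟩ := hB
      exact ⟨U, fun _ => hU⟩
    · exact ⟨∅, fun h => absurd h hB⟩
  choose u hu using this
  have hsub : ∀ n, u (e n).1.1 n '' C (e n).1 (e n).2 ⊆ 𝒰 n := by
    rintro n _ ⟨B, hB, rfl⟩
    have := (hC _ _).1 hB
    rw [Prod.mk.eta, e.symm_apply_apply] at this
    exact (hu _ _ _ this).1
  refine ⟨fun n => u (e n).1.1 n '' C (e n).1 (e n).2, fun n => ⟨hsub n,
    ⟨(hC _ _).2.1.image _, fun hb => ((hC _ _).2.2 hb).image _⟩⟩, mk_dom ?_ fun F hF hF' => ?_⟩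
  · intro U hU
    obtain ⟨n, hn⟩ := mem_iUnion.1 hU
    exact ⟨(h𝒰 n).1 U (hsub n hn), (h𝒰 n).2.2.1 U (hsub n hn)⟩
  obtain ⟨m, f, -, rfl⟩ := hF.fin_param
  have : ∀ a : Fin m, ∃ G : ι → Set X, Box G ∧ univ.pi G ⊆ f a := by
    intro a
    obtain ⟨o, x, hx⟩ := hF' _ ⟨a, rfl⟩
    obtain ⟨G, hG, hGO⟩ := isOpen_pi_iff'.1 o x hx
    exact ⟨G, fun i => ⟨(hG i).1, _, (hG i).2⟩, hGO⟩
  choose G h1 h2 using this
  obtain ⟨N, H, g1, g2, g3⟩ := good_ex hS hsp (fun p : Fin m × ι => G p.1 p.2) fun p => h1 _ _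
  obtain ⟨j, c, hc, hm⟩ := hC' (m, N) H g1 g3
  obtain ⟨n, hn⟩ := e.surjective ((m, N), j)
  have hcD : c ∈ D m n := by
    have := (hC _ _).1 hc
    rwa [← hn, e.symm_apply_apply] at this
  refine ⟨u m n c, mem_iUnion.2 ⟨n, by rw [hn]; exact ⟨c, hc, rfl⟩⟩, ?_⟩
  rintro _ ⟨a, rfl⟩
  choose x hx using hm
  exact ⟨fun i => x (a, i), (hu _ _ _ hcD).2 a fun i _ => (hx _).1,
    h2 a fun i _ => g2 (a, i) (hx _).2⟩

theorem offdiag {n : ℕ} (h : Sel False X) (hX : IT X) (Wd : Fin n → Set X)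
    (hW : ∀ i, IsOpen (Wd i)) (hd : Pairwise fun i j => Disjoint (Wd i) (Wd j)) {κ : Type}
    (B : κ → Fin n → Set X) (A : Set κ) (hB : ∀ a ∈ A, Box (B a) ∧ ∀ i, B a i ⊆ Wd i)
    (hA : A.Pairwise fun a b => ∃ i, Disjoint (B a i) (B b i)) : A.Countable := by
  classical
  let D : Set (Fin n → Set X) := {c | (∃ a ∈ A, ∀ i, c i ⊆ B a i) ∨
    ∀ a ∈ A, ∃ i, Disjoint (c i) (B a i)}
  have hD : DO D := by
    refine ⟨fun c hc => ?_, fun c hc c' _ h' => hc.imp
      (fun ⟨a, ha, h⟩ => ⟨a, ha, fun i => (h' i).trans (h i)⟩)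
      fun h a ha => (h a ha).imp fun i hi => hi.mono_left (h' i)⟩
    by_cases h : ∀ a ∈ A, ∃ i, Disjoint (c i) (B a i)
    · exact ⟨c, Or.inr h, hc, fun _ => le_rfl⟩
    · push Not at h
      obtain ⟨a, ha, h⟩ := h
      exact ⟨fun i => c i ∩ B a i, Or.inl ⟨a, ha, fun i => inter_subset_right⟩,
        fun i => ⟨(hc i).1.inter ((hB a ha).1 i).1, not_disjoint_iff_nonempty_inter.1 (h i)⟩,
        fun i => inter_subset_left⟩
  obtain ⟨C, h1, h2⟩ := sel_box h hX (fun s => if hs : s < n then Wd ⟨s, hs⟩ else univ)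
    (fun s => by split_ifs; exacts [hW _, isOpen_univ]) n (fun _ => D) fun _ => hD
  have hc : (⋃ j, C j).Countable := countable_iUnion fun j => (h1 j).2.1.countable
  refine (hc.biUnion (t := fun c _ => {a ∈ A | ∀ i, (c i ∩ B a i).Nonempty}) ?_).mono ?_
  · intro c hc
    obtain ⟨j, hj⟩ := mem_iUnion.1 hc
    rcases (h1 j).1 hj with ⟨a, ha, h⟩ | h
    · refine (countable_singleton a).mono fun b hb => ?_
      by_contra e
      obtain ⟨i, hi⟩ := hA hb.1 ha e
      obtain ⟨x, x1, x2⟩ := hb.2 i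
      exact disjoint_left.1 hi x2 (h i x1)
    · refine countable_empty.mono fun b hb => ?_
      obtain ⟨i, hi⟩ := h b hb.1
      exact not_disjoint_iff_nonempty_inter.2 (hb.2 i) hi
  · intro a ha
    obtain ⟨j, c, hc, hm⟩ := h2 (B a) (hB a ha).1 fun i j hij => Or.inr ⟨i, i.2, Or.inl
      ⟨by simpa using (hB a ha).2 i, by simpa using (hd hij.symm).mono_left ((hB a ha).2 j)⟩⟩
    exact mem_iUnion₂.2 ⟨c, mem_iUnion.2 ⟨j, hc⟩, ha, hm⟩

end Pool.Agent.H42.Dom
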