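import Pool.Agent.H42.Dom2
import Pool.Agent.H42.Dirac

namespace Pool.Agent.H42.Dom

open Set Pool.Agent.H42.Dirac

universe u

lemma rec_u {σ : Type u} [Nonempty σ] (Good : ∀ α : W, (Iio α → σ) → σ → Prop)
    (st : ∀ α (g : Iio α → σ), (∀ β : Iio α, Good β (fun γ => g ⟨γ, lt_trans γ.2 β.2⟩) (g β)) →
      ∃ s, Good α g s) : ∃ f : W → σ, ∀ α, Good α (fun β => f β) (f α) := by
  let f : W → σ := (wellFounded_lt (α := W)).fix fun α prev =>
    Classical.epsilon (Good α fun β => prev β β.2)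
  have hf : ∀ α, f α = Classical.epsilon (Good α fun β => f β) := fun α =>
    WellFounded.fix_eq _ _ _
  refine ⟨f, fun α => ?_⟩
  induction α using WellFoundedLT.induction with
  | ind α ih =>
    rw [hf α]
    exact Classical.epsilon_spec (st α (fun β => f β) fun β => ih β β.2)

lemma prune (Y : Type) [PartialOrder Y] (wf : WellFoundedLT Y) (h0 : ¬ (univ : Set Y).Countable)
    (h1 : ∀ t : Y, IsChain (· ≤ ·) (Iio t)) (h2 : ∀ C : Set Y, IsChain (· ≤ ·) C → C.Countable)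
    (h3 : ∀ A : Set Y, IsAntichain (· ≤ ·) A → A.Countable)
    (h4 : ∀ (n : ℕ) (t : Fin n → Y), Pairwise (fun i j => ¬ t i ≤ t j) →
      ∀ A : Set (Fin n → Y), (∀ a ∈ A, ∀ i, t i ≤ a i) →
        A.Pairwise (fun a b => ∃ i, ¬ a i ≤ b i ∧ ¬ b i ≤ a i) → A.Countable) :
    ∃ (T : Type) (_ : PartialOrder T), FreeSuslin T := by
  have hB : {y : Y | (Ici y).Countable}.Countable := by
    refine ((h3 {y | (Ici y).Countable ∧ ∀ z < y, ¬ (Ici z).Countable}
      fun a ha b hb hab h => hb.2 a (lt_of_le_of_ne h hab) ha.1).biUnion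
      fun y hy => hy.1).mono fun y hy => ?_
    obtain ⟨m, hm, hm'⟩ := wf.wf.has_min {z | z ≤ y ∧ (Ici z).Countable} ⟨y, le_rfl, hy⟩
    exact mem_iUnion₂.2 ⟨m, ⟨hm.2, fun z hz h => hm' z ⟨hz.le.trans hm.1, h⟩ hz⟩, hm.1⟩
  have hv : Function.Injective (Subtype.val : {y : Y // ¬ (Ici y).Countable} → Y) :=
    Subtype.val_injective
  refine ⟨{y : Y // ¬ (Ici y).Countable}, inferInstance, ?_, inferInstance, fun t => ?_,
    fun t ht => ?_, fun C hC => ?_, fun A hA => ?_, fun n t ht A hA hA' => ?_⟩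
  · by_contra h
    exact h0 (hB.mono fun y _ => by_contra fun hy => h ⟨⟨y, hy⟩⟩)
  · exact fun a ha b hb hab => h1 t.1 ha hb (hv.ne hab)
  · refine t.2 (((ht.image Subtype.val).union hB).mono fun y hy => ?_)
    by_cases h : (Ici y).Countable
    · exact Or.inr h
    · exact Or.inl ⟨⟨y, h⟩, hy, rfl⟩
  · refine countable_of_injective_of_countable_image hv.injOn (h2 _ ?_)
    rintro _ ⟨a, ha, rfl⟩ _ ⟨b, hb, rfl⟩ hab
    exact hC ha hb fun e => hab (congrArg _ e)
  · refine countable_of_injective_of_countable_image hv.injOn (h3 _ ?_)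
    rintro _ ⟨a, ha, rfl⟩ _ ⟨b, hb, rfl⟩ hab
    exact hA ha hb fun e => hab (congrArg _ e)
  · refine countable_of_injective_of_countable_image (f := fun a i => (a i).1)
      (fun a _ b _ e => funext fun i => hv (congrFun e i)) (h4 n (fun i => (t i).1) ht _ ?_ ?_)
    · rintro _ ⟨a, ha, rfl⟩ i
      exact hA a ha i
    · rintro _ ⟨a, ha, rfl⟩ _ ⟨b, hb, rfl⟩ hab
      exact hA' ha hb fun e => hab (by rw [e])

variable {X : Type u} [TopologicalSpace X]

theorem tree_ex (h : Sel False X) (hX : IT X)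
    (hn : ¬ ∃ S : ℕ → Set X, (∀ s, IsOpen (S s)) ∧ Spl S) :
    ∃ (T : Type) (_ : PartialOrder T), FreeSuslin T := by
  classical
  let Al : Set X → Prop := fun G => IsOpen G ∧ G.Nonempty ∧ ¬ IsPreirreducible G
  have h1 : ∀ Z : Set (Set X), Z.Countable → (∀ S ∈ Z, IsOpen S) →
      ∃ G, Al G ∧ ∀ S ∈ Z, (G ∩ S).Nonempty → G ⊆ closure S := by
    intro Z hZ hZ'
    obtain ⟨S, hS⟩ := (hZ.insert ∅).exists_eq_range (insert_nonempty _ _)
    have : ¬ Spl S := fun h => hn ⟨S, fun s => by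
      rcases (hS ▸ mem_range_self s : S s ∈ insert ∅ Z) with e | e
      exacts [e ▸ isOpen_empty, hZ' _ e], h⟩
    simp only [Spl, not_forall, not_or, not_exists, not_and, not_not] at this
    obtain ⟨G, a, b, c, d⟩ := this
    refine ⟨G, ⟨a, b, c G le_rfl a b⟩, fun S' hS' => ?_⟩
    obtain ⟨s, rfl⟩ : S' ∈ range S := hS ▸ mem_insert_of_mem _ hS'
    exact d s
  have h2 : ∀ G, ∃ A B, Al G → (A ⊆ G ∧ IsOpen A ∧ A.Nonempty) ∧ (B ⊆ G ∧ IsOpen B ∧ B.Nonempty) ∧
      Disjoint A B := by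
    intro G
    by_cases hG : Al G
    · obtain ⟨a, b, c⟩ := hG
      simp only [IsPreirreducible, not_forall] at c
      obtain ⟨A, B, c1, c2, c3, c4, c5⟩ := c
      exact ⟨G ∩ A, G ∩ B, fun _ => ⟨⟨inter_subset_left, a.inter c1, c3⟩, ⟨inter_subset_left,
        a.inter c2, c4⟩, disjoint_left.2 fun x x1 x2 => c5 ⟨x, x1.1, x1.2, x2.2⟩⟩⟩
    · exact ⟨∅, ∅, fun h => absurd h hG⟩
  choose s0 s1 hs using h2
  obtain ⟨f, hf⟩ := rec_u (σ := Set X) (fun α g G => Al G ∧ ∀ β, ∀ S ∈ ({g β, s0 (g β), s1 (g β)} :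
      Set (Set X)), (G ∩ S).Nonempty → G ⊆ closure S) (by
    intro α g hg
    have := (Iio_count α).to_subtype
    obtain ⟨G, a, b⟩ := h1 (⋃ β, {g β, s0 (g β), s1 (g β)})
      (countable_iUnion fun β => (toFinite _).countable) (by
        intro S hS
        obtain ⟨β, hβ⟩ := mem_iUnion.1 hS
        rcases hβ with rfl | rfl | rfl
        exacts [(hg β).1.1, (hs _ (hg β).1).1.2.1, (hs _ (hg β).1).2.1.2.1])
    exact ⟨G, a, fun β S hS => b S (mem_iUnion.2 ⟨β, hS⟩)⟩)
  have fo : ∀ α, IsOpen (f α) := fun α => (hf α).1.1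
  have fn : ∀ α, (f α).Nonempty := fun α => (hf α).1.2.1
  have fc : ∀ α β, β < α → (f α ∩ f β).Nonempty → f α ⊆ closure (f β) := fun α β h =>
    (hf α).2 ⟨β, h⟩ _ (Or.inl rfl)
  have mt : ∀ {O A B : Set X}, IsOpen O → IsOpen A → (O ∩ A).Nonempty → O ⊆ closure B →
      (A ∩ B).Nonempty := fun o a ⟨x, hx⟩ b => by
    obtain ⟨y, y1, y2⟩ := mem_closure_iff.1 (b hx.1) _ (o.inter a) hx
    exact ⟨y, y1.2, y2⟩
  have mc : ∀ {O A : Set X}, IsOpen O → O.Nonempty → O ⊆ closure A → (O ∩ A).Nonempty :=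
    fun o ⟨x, hx⟩ b => mem_closure_iff.1 (b hx) _ o hx
  let r : W → W → Prop := fun β α => β = α ∨ (β < α ∧ (f α ∩ f β).Nonempty)
  have rm : ∀ a b, r a b → (f b ∩ f a).Nonempty := by
    rintro a b (rfl | h)
    exacts [by simpa using fn a, h.2]
  have inc : ∀ a b, ¬ r a b → ¬ r b a → Disjoint (f a) (f b) := by
    intro a b h1 h2
    by_contra h
    rw [not_disjoint_iff_nonempty_inter] at h
    rcases lt_trichotomy a b with c | c | c
    exacts [h1 (Or.inr ⟨c, inter_comm (f a) _ ▸ h⟩), h1 (Or.inl c), h2 (Or.inr ⟨c, h⟩)]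
  have rl : ∀ a b, r a b → a ≤ b := fun a b h => h.elim le_of_eq fun h => h.1.le
  have ccc : ∀ (H : W → Set X) (A : Set W), (∀ a ∈ A, IsOpen (H a) ∧ (H a).Nonempty) →
      A.Pairwise (fun a b => Disjoint (H a) (H b)) → A.Countable := fun H A a b =>
    offdiag (n := 1) h hX (fun _ => univ) (fun _ => isOpen_univ)
      (fun i j hij => absurd (Subsingleton.elim i j) hij) (fun a _ => H a) A
      (fun x hx => ⟨fun _ => a x hx, fun _ => subset_univ _⟩) fun x hx y hy e => ⟨0, b hx hy e⟩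
  have rlt : ∀ a b, r a b ∧ ¬ r b a → a < b ∧ (f b ∩ f a).Nonempty := fun a b h =>
    h.1.resolve_left fun e => h.2 (Or.inl e.symm)
  have rtr : ∀ a b c, r a b → r b c → r a c := by
    rintro a b c (rfl | h1) (rfl | h2)
    exacts [Or.inl rfl, Or.inr h2, Or.inr h1, Or.inr ⟨h1.1.trans h2.1, mc (fo c) (fn c)
      ((fc c b h2.1 h2.2).trans (closure_minimal (fc b a h1.1 h1.2) isClosed_closure))⟩]
  refine @prune W
    { le := r
      lt := fun a b => r a b ∧ ¬ r b a
      le_refl := fun a => Or.inl rfl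
      le_trans := rtr
      lt_iff_le_not_ge := fun _ _ => Iff.rfl
      le_antisymm := fun a b h1 h2 => le_antisymm (rl a b h1) (rl b a h2) }
    (@IsWellFounded.mk _ _ (Subrelation.wf (fun {a b} h => (rlt a b h).1)
    wellFounded_lt)) ?_ ?_ ?_ ?_ ?_
  · intro hc
    obtain ⟨b, hb⟩ := bdd _ hc
    exact lt_irrefl _ (hb b trivial)
  · intro t a ha b hb _
    by_contra hh
    have := inc a b (fun h => hh (Or.inl h)) fun h => hh (Or.inr h)
    exact not_disjoint_iff_nonempty_inter.2 (mt (fo t) (fo a) (rlt a t ha).2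
      (fc t b (rlt b t hb).1 (rlt b t hb).2)) this
  · intro C hC
    let H : W → Set X := fun β => if ∃ α ∈ C, β < α ∧ (f α ∩ s0 (f β)).Nonempty then s1 (f β)
      else s0 (f β)
    have hH : ∀ β, H β ⊆ f β ∧ IsOpen (H β) ∧ (H β).Nonempty := fun β => by
      simp only [H]; split_ifs
      exacts [(hs _ (hf β).1).2.1, (hs _ (hf β).1).1]
    have key : ∀ β ∈ C, ∀ γ ∈ C, β < γ → Disjoint (H β) (H γ) := by
      intro β _ γ hγ hlt
      refine Disjoint.mono_right (hH γ).1 ?_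
      by_contra hd
      rw [not_disjoint_iff_nonempty_inter, inter_comm] at hd
      simp only [H] at hd
      split_ifs at hd with c
      · obtain ⟨α, hα, c1, c2⟩ := c
        have e1 := (hf α).2 ⟨β, c1⟩ _ (Or.inr (Or.inl rfl)) c2
        have e2 := (hf γ).2 ⟨β, hlt⟩ _ (Or.inr (Or.inr rfl)) hd
        have e3 : (f α ∩ f γ).Nonempty := by
          by_cases e : α = γ
          · simpa [e] using fn γ
          · exact (hC hα hγ e).elim (fun h => inter_comm (f γ) _ ▸ rm _ _ h) (rm _ _)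
        have o := (fo α).inter (fo γ)
        exact not_disjoint_iff_nonempty_inter.2 (mt o (hs _ (hf β).1).1.2.1
          (mc o e3 (inter_subset_left.trans e1)) (inter_subset_right.trans e2))
          (hs _ (hf β).1).2.2
      · exact c ⟨γ, hγ, hlt, hd⟩
    exact ccc H C (fun a _ => (hH a).2) fun a ha b hb e =>
      (lt_or_gt_of_ne e).elim (key a ha b hb) fun h => (key b hb a ha h).symm
  · exact fun A hA => ccc f A (fun a _ => ⟨fo a, fn a⟩) fun a ha b hb e =>
      inc a b (hA ha hb e) (hA hb ha e.symm)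
  · intro n t ht A hA hA'
    refine offdiag h hX (fun i => f (t i)) (fun i => fo _)
      (fun i j hij => inc _ _ (ht hij) (ht hij.symm)) (fun a i => f (a i) ∩ f (t i)) A
      (fun a ha => ⟨fun i => ⟨(fo _).inter (fo _), rm _ _ (hA a ha i)⟩,
        fun i => inter_subset_right⟩) fun a ha b hb e => ?_
    obtain ⟨i, h1, h2⟩ := hA' ha hb e
    exact ⟨i, (inc _ _ h1 h2).mono inter_subset_left inter_subset_left⟩

theorem pos (hn : ¬ ∃ (T : Type) (_ : PartialOrder T), FreeSuslin T) {b : Prop} (h : Sel b X)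
    (k : ℕ) : Sel b (Fin k → X) := by
  by_cases hX : IT X
  · obtain ⟨S, h1, h2⟩ := not_not.1 fun h' => hn (tree_ex (sel_weak h) hX h')
    exact pow_sel h h1 h2
  · exact fun 𝒰 h𝒰 => absurd (it_of_pow (h𝒰 0)) hX

end Pool.Agent.H42.Dom
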