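import Pool.Agent.H42.Dom3

namespace Pool.Agent.H42.Dom

open Set TopologicalSpace

lemma max_anti {α : Type} (D : Set α) (R : α → α → Prop) (hs : ∀ a b, R a b → R b a)
    (hi : ∀ a, ¬ R a a) : ∃ A ⊆ D, A.Pairwise R ∧ ∀ d ∈ D, ∃ a ∈ A, ¬ R a d := by
  obtain ⟨A, hA⟩ := zorn_subset {A | A ⊆ D ∧ A.Pairwise R} fun c hc hch =>
    ⟨⋃₀ c, ⟨sUnion_subset fun A hA => (hc hA).1,
      (pairwise_sUnion hch.directedOn).2 fun A hA => (hc hA).2⟩, fun A hA => subset_sUnion_of_mem hA⟩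
  refine ⟨A, hA.prop.1, hA.prop.2, fun d hd => ?_⟩
  by_contra h
  push Not at h
  have : insert d A ⊆ A := hA.2 ⟨insert_subset hd hA.prop.1,
    pairwise_insert.2 ⟨hA.prop.2, fun b hb _ => ⟨hs _ _ (h b hb), h b hb⟩⟩⟩ (subset_insert _ _)
  exact hi d (h d (this (mem_insert _ _)))

lemma close {T : Type} (g : ∀ m : ℕ, (Fin m → T) → Set T) (hg : ∀ m r, (g m r).Countable) :
    ∃ S : Set T, S.Countable ∧ ∀ m r, (∀ i, r i ∈ S) → g m r ⊆ S := by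
  let st : Set T → Set T := fun S => S ∪ ⋃ m, ⋃ r ∈ {r : Fin m → T | ∀ i, r i ∈ S}, g m r
  let S : ℕ → Set T := fun k => st^[k] ∅
  have hS : ∀ k, S (k + 1) = st (S k) := fun k => Function.iterate_succ_apply' _ _ _
  have hm : Monotone S := monotone_nat_of_le_succ fun k => by rw [hS]; exact subset_union_left
  refine ⟨⋃ k, S k, countable_iUnion fun k => ?_, fun m r hr => ?_⟩
  · induction k with
    | zero => exact countable_empty
    | succ k ih =>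
      rw [hS]
      exact ih.union (countable_iUnion fun m => (countable_pi fun _ => ih).biUnion fun r _ => hg m r)
  · choose k hk using fun i => mem_iUnion.1 (hr i)
    obtain ⟨K, hK⟩ := (finite_range k).bddAbove
    refine fun x hx => mem_iUnion.2 ⟨K + 1, ?_⟩
    rw [hS]
    exact Or.inr (mem_iUnion.2 ⟨m, mem_iUnion₂.2 ⟨r, fun i => hm (hK ⟨i, rfl⟩) (hk i), hx⟩⟩)

variable {T : Type} [PartialOrder T]

def cone (t : T) : Set (Flag T) := {b | t ∈ b}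

def top (T : Type) [PartialOrder T] : TopologicalSpace (Flag T) := generateFrom (range cone)

lemma cmp (hT : FreeSuslin T) {a b t : T} (ha : a ≤ t) (hb : b ≤ t) : a ≤ b ∨ b ≤ a := by
  rcases ha.eq_or_lt with rfl | ha'
  · exact Or.inr hb
  rcases hb.eq_or_lt with rfl | hb'
  · exact Or.inl ha
  exact (hT.2.2.1 t).total ha' hb'

lemma cone_anti (hT : FreeSuslin T) {s t : T} (h : s ≤ t) : cone t ⊆ cone s := fun b hb =>
  Flag.mem_iff_forall_le_or_ge.2 fun u hu =>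
    (b.le_or_le hu hb).elim (cmp hT h) fun h' => Or.inl (h.trans h')

lemma cone_ne (t : T) : (cone t).Nonempty := Flag.exists_mem t

lemma basis (hT : FreeSuslin T) : @IsTopologicalBasis _ (top T) (range cone) := by
  letI := top T
  refine ⟨?_, eq_univ_of_forall fun b => ?_, rfl⟩
  · rintro _ ⟨s, rfl⟩ _ ⟨t, rfl⟩ b ⟨h1, h2⟩
    rcases b.le_or_le h1 h2 with h | h
    · exact ⟨_, ⟨t, rfl⟩, h2, subset_inter (cone_anti hT h) le_rfl⟩
    · exact ⟨_, ⟨s, rfl⟩, h1, subset_inter le_rfl (cone_anti hT h)⟩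
  · by_contra h
    obtain ⟨t⟩ := hT.1
    exact h ⟨_, ⟨t, rfl⟩, Flag.mem_iff_forall_le_or_ge.2 fun u hu => absurd ⟨_, ⟨u, rfl⟩, hu⟩ h⟩

lemma sub_cone (hT : FreeSuslin T) {O : Set (Flag T)} (hO : @IsOpen _ (top T) O) {t : T}
    (h : (O ∩ cone t).Nonempty) : ∃ p, t ≤ p ∧ cone p ⊆ O := by
  letI := top T
  obtain ⟨b, h1, h2⟩ := h
  obtain ⟨_, ⟨s, rfl⟩, h3, h4⟩ := (basis hT).exists_subset_of_mem_open h1 hO
  rcases b.le_or_le h3 h2 with h | h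
  · exact ⟨t, le_rfl, (cone_anti hT h).trans h4⟩
  · exact ⟨s, h, h4⟩

lemma sub_cone' (hT : FreeSuslin T) {O : Set (Flag T)} (hO : @IsOpen _ (top T) O)
    (h : O.Nonempty) : ∃ p, cone p ⊆ O := by
  letI := top T
  obtain ⟨b, h1⟩ := h
  obtain ⟨_, ⟨s, rfl⟩, -, h4⟩ := (basis hT).exists_subset_of_mem_open h1 hO
  exact ⟨s, h4⟩

lemma clopen (hT : FreeSuslin T) (t : T) : @IsClopen _ (top T) (cone t) := by
  letI := top T
  refine ⟨isOpen_compl_iff.1 ((basis hT).isOpen_iff.2 fun b hb => ?_),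
    (basis hT).isOpen ⟨t, rfl⟩⟩
  have := mt Flag.mem_iff_forall_le_or_ge.2 hb
  push Not at this
  obtain ⟨s, h1, h2⟩ := this
  exact ⟨_, ⟨s, rfl⟩, h1, fun c hc hc' => (c.le_or_le hc' hc).elim h2.1 h2.2⟩

lemma t2 (hT : FreeSuslin T) : @T2Space _ (top T) := by
  letI := top T
  refine ⟨fun b c hbc => ?_⟩
  have : ∃ t ∈ b, t ∉ c := by
    by_contra h
    push Not at h
    exact hbc (SetLike.coe_injective (b.max_chain' c.Chain' h))
  obtain ⟨t, h1, h2⟩ := this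
  exact ⟨cone t, (cone t)ᶜ, (clopen hT t).2, (clopen hT t).compl.2, h1, h2, disjoint_compl_right⟩

lemma zerodim (hT : FreeSuslin T) :
    @IsTopologicalBasis _ (top T) {s | @IsClopen _ (top T) s} := by
  letI := top T
  refine isTopologicalBasis_of_isOpen_of_nhds (fun u hu => hu.2) fun b u hb hu => ?_
  obtain ⟨_, ⟨s, rfl⟩, h3, h4⟩ := (basis hT).exists_subset_of_mem_open hb hu
  exact ⟨_, clopen hT s, h3, h4⟩

theorem not_sq (hT : FreeSuslin T) : letI := top T; ¬ Sel False (Fin 2 → Flag T) := by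
  letI := top T
  intro h
  let bx : T × T → Set (Fin 2 → Flag T) := fun p => univ.pi ![cone p.1, cone p.2]
  have bo : ∀ p, IsOpen (bx p) ∧ (bx p).Nonempty := fun p =>
    ⟨isOpen_set_pi finite_univ fun i _ => by fin_cases i <;> exact (clopen hT _).2,
      univ_pi_nonempty_iff.2 fun i => by fin_cases i <;> exact cone_ne _⟩
  let P : Set (T × T) := {p | ¬ p.1 ≤ p.2 ∧ ¬ p.2 ≤ p.1}
  have nd : ∀ Z ⊆ P, Z.Countable → ¬ univ ⊆ closure (⋃ p ∈ Z, bx p) := by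
    intro Z hZ hc hd
    have ic : ∀ s : T, (Iic s).Countable := fun s => hT.2.2.2.2.1 _ fun a ha b hb _ => cmp hT ha hb
    obtain ⟨t0⟩ := hT.1
    obtain ⟨t, -, ht⟩ := not_subset.1 fun h => hT.2.2.2.1 t0
      ((hc.biUnion fun p _ => (ic p.1).union (ic p.2)).mono h)
    obtain ⟨x, hx⟩ := (bo (t, t)).2
    obtain ⟨y, y1, y2⟩ := mem_closure_iff.1 (hd (mem_univ x)) _ (bo _).1 hx
    obtain ⟨p, hp, y2⟩ := mem_iUnion₂.1 y2
    have a := ((y 0).le_or_le (y2 0 trivial) (y1 0 trivial)).resolve_right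
      fun h => ht (mem_iUnion₂.2 ⟨p, hp, Or.inl h⟩)
    have b := ((y 1).le_or_le (y2 1 trivial) (y1 1 trivial)).resolve_right
      fun h => ht (mem_iUnion₂.2 ⟨p, hp, Or.inr h⟩)
    exact (cmp hT a b).elim (hZ hp).1 (hZ hp).2
  have dn : ∀ G : Set (Fin 2 → Flag T), IsOpen G ∧ G.Nonempty → ∃ p ∈ P, bx p ⊆ G := by
    rintro G ⟨o, x, hx⟩
    obtain ⟨u, hu, huG⟩ := isOpen_pi_iff'.1 o x hx
    obtain ⟨s, hs⟩ := sub_cone' hT (hu 0).1 ⟨_, (hu 0).2⟩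
    obtain ⟨t, ht⟩ := sub_cone' hT (hu 1).1 ⟨_, (hu 1).2⟩
    have sp : ∀ m : T, ∃ p ∈ P, m ≤ p.1 ∧ m ≤ p.2 := fun m => by
      by_contra hh
      refine hT.2.2.2.1 m (hT.2.2.2.2.1 _ fun a ha b hb _ => ?_)
      by_contra h'
      exact hh ⟨(a, b), not_or.1 h', ha, hb⟩
    have : ∃ p ∈ P, s ≤ p.1 ∧ t ≤ p.2 := by
      by_cases h1 : s ≤ t
      · obtain ⟨p, a, b, c⟩ := sp t
        exact ⟨p, a, h1.trans b, c⟩
      by_cases h2 : t ≤ s
      · obtain ⟨p, a, b, c⟩ := sp s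
        exact ⟨p, a, b, h2.trans c⟩
      exact ⟨(s, t), ⟨h1, h2⟩, le_rfl, le_rfl⟩
    obtain ⟨p, a, b, c⟩ := this
    refine ⟨p, a, fun y hy => huG fun i _ => ?_⟩
    fin_cases i
    exacts [hs (cone_anti hT b (hy 0 trivial)), ht (cone_anti hT c (hy 1 trivial))]
  obtain ⟨F, hF, hF'⟩ := h (fun _ => {U | ∃ Z ⊆ P, Z.Finite ∧ U = ⋃ p ∈ Z, bx p}) fun _ =>
    mk_dom (by
      rintro _ ⟨Z, a, b, rfl⟩
      exact ⟨isOpen_biUnion fun p _ => (bo p).1, nd Z a b.countable⟩) (by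
      intro F hF hF'
      have := hF.to_subtype
      choose p hp hp' using fun G : F => dn G (hF' _ G.2)
      refine ⟨_, ⟨range p, range_subset_iff.2 hp, finite_range p, rfl⟩, fun G hG => ?_⟩
      obtain ⟨x, hx⟩ := (bo (p ⟨G, hG⟩)).2
      exact ⟨x, mem_iUnion₂.2 ⟨_, ⟨_, rfl⟩, hx⟩, hp' _ hx⟩)
  have hc : (⋃ n, F n).Countable := countable_iUnion fun n => (hF n).2.1.countable
  have := hc.to_subtype
  choose Z z1 z2 z3 using fun U : ↥(⋃ n, F n) => (mem_iUnion.1 U.2).elim fun n hn => (hF n).1 hn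
  refine nd (⋃ U, Z U) (iUnion_subset z1) (countable_iUnion fun U => (z2 U).countable)
    fun x _ => closure_mono ?_ (hF'.2.1 x)
  rintro y ⟨U, hU, hy⟩
  have : y ∈ ⋃ p ∈ Z ⟨U, hU⟩, bx p := z3 ⟨U, hU⟩ ▸ hy
  obtain ⟨p, a, b⟩ := mem_iUnion₂.1 this
  exact mem_iUnion₂.2 ⟨p, mem_iUnion.2 ⟨_, a⟩, b⟩

theorem sel_tree (hT : FreeSuslin T) : letI := top T; S1 (Flag T) := by
  letI := top T
  classical
  intro 𝒰 h𝒰
  let D : ℕ → ∀ m, (Fin m → T) → Set (Fin m → T) := fun n m r =>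
    {p | (∀ i, r i ≤ p i) ∧ ∃ U ∈ 𝒰 n, ∀ i, cone (p i) ⊆ U}
  have : ∀ n m (r : Fin m → T), ∃ A : Set (Fin m → T), A.Countable ∧ A ⊆ D n m r ∧
      (Pairwise (fun i j => ¬ r i ≤ r j) → ∀ d ∈ D n m r, ∃ a ∈ A, ∀ i, a i ≤ d i ∨ d i ≤ a i) := by
    intro n m r
    by_cases hr : Pairwise fun i j => ¬ r i ≤ r j
    · obtain ⟨A, a, b, c⟩ := max_anti (D n m r) (fun a b => ∃ i, ¬ a i ≤ b i ∧ ¬ b i ≤ a i)
        (fun _ _ ⟨i, h⟩ => ⟨i, h.symm⟩) fun _ ⟨i, h⟩ => h.1 le_rfl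
      refine ⟨A, hT.2.2.2.2.2.2 m r hr A (fun x hx => (a hx).1) b, a, fun _ d hd => ?_⟩
      obtain ⟨x, x1, x2⟩ := c d hd
      exact ⟨x, x1, fun i => by_contra fun h => x2 ⟨i, not_or.1 h⟩⟩
    · exact ⟨∅, countable_empty, empty_subset _, fun h => absurd h hr⟩
  choose A A1 A2 A3 using this
  have hN : ∀ s : T, {l | ∀ p < l, p ≤ s}.Countable := fun s =>
    ((hT.2.2.2.2.1 (Iic s) fun a ha b hb _ => cmp hT ha hb).union
      (hT.2.2.2.2.2.1 {l | (∀ p < l, p ≤ s) ∧ ¬ l ≤ s} fun a ha b hb e h =>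
        ha.2 (hb.1 a (lt_of_le_of_ne h e)))).mono fun l hl => by
      by_cases h : l ≤ s
      exacts [Or.inl h, Or.inr ⟨hl, h⟩]
  obtain ⟨t0⟩ := hT.1
  obtain ⟨S, hS, hcl⟩ := close (fun m r => insert t0 ((⋃ i, {l | ∀ p < l, p ≤ r i}) ∪
    ⋃ n, ⋃ a ∈ A n m r, range a)) fun m r => ((countable_iUnion fun i => hN _).union
      (countable_iUnion fun n => (A1 n m r).biUnion fun a _ => countable_range a)).insert _
  have s0 : t0 ∈ S := hcl 0 Fin.elim0 (fun i => i.elim0) (mem_insert _ _)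
  have sN : ∀ s ∈ S, ∀ l, (∀ p < l, p ≤ s) → l ∈ S := fun s hs l hl =>
    hcl 1 (fun _ => s) (fun _ => hs) (Or.inr (Or.inl (mem_iUnion.2 ⟨0, hl⟩)))
  have sD : ∀ s ∈ S, ∀ l ≤ s, l ∈ S := fun s hs l hl => sN s hs l fun p hp => hp.le.trans hl
  let L : Set T := {l | l ∉ S ∧ ∀ p < l, p ∈ S}
  have hL : L.Countable := hT.2.2.2.2.2.1 _ fun a ha b hb e h =>
    ha.1 (hb.2 a (lt_of_le_of_ne h e))
  have nb : ∀ l ∈ L, ∀ s ∈ S, ∃ p < l, ¬ p ≤ s := fun l hl s hs => by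
    by_contra h
    push Not at h
    exact hl.1 (sN s hs l h)
  have ub : ∀ l ∈ L, ∀ Z : Set T, Z.Finite → Z ⊆ Iio l → ∃ r < l, ∀ z ∈ Z, z ≤ r := by
    intro l hl Z hZ
    induction Z, hZ using Set.Finite.induction_on with
    | empty => exact fun _ => (nb l hl t0 s0).imp fun p hp => ⟨hp.1, by simp⟩
    | @insert a Z _ _ ih =>
      intro h
      obtain ⟨r, r1, r2⟩ := ih ((subset_insert _ _).trans h)
      have ha : a < l := h (mem_insert _ _)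
      rcases cmp hT ha.le r1.le with c | c
      · exact ⟨r, r1, forall_mem_insert.2 ⟨c, r2⟩⟩
      · exact ⟨a, ha, forall_mem_insert.2 ⟨le_rfl, fun z hz => (r2 z hz).trans c⟩⟩
  have key : ∀ n, ∀ E : Set T, E.Finite → E ⊆ L → ∃ U ∈ 𝒰 n, ∀ l ∈ E, cone l ⊆ U := by
    intro n E hE hEL
    obtain ⟨m, f, hf, hr⟩ := (hE.image Iio).fin_param
    choose l l1 l2 using fun i => (hr ▸ mem_range_self i : f i ∈ Iio '' E)
    have one : ∀ i j, ¬ Iio (l j) ⊆ Iio (l i) → ∃ p < l i, ∃ q < l j, ¬ p ≤ q ∧ ¬ q ≤ p := by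
      intro i j h
      obtain ⟨s, s1, s2⟩ := not_subset.1 h
      obtain ⟨p, p1, p2⟩ := nb _ (hEL (l1 i)) s ((hEL (l1 j)).2 s s1)
      exact ⟨p, p1, s, s1, p2, fun h => s2 (h.trans_lt p1)⟩
    have : ∀ i j, ∃ p < l i, ∃ q < l j, i ≠ j → ¬ p ≤ q ∧ ¬ q ≤ p := by
      intro i j
      by_cases e : i = j
      · obtain ⟨p, hp, -⟩ := nb _ (hEL (l1 i)) t0 s0
        exact ⟨p, hp, p, e ▸ hp, fun h => absurd e h⟩
      by_cases h : Iio (l j) ⊆ Iio (l i)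
      · obtain ⟨p, a, q, b, c⟩ := one j i fun h' => e (hf (by
          rw [← l2, ← l2]; exact h'.antisymm h))
        exact ⟨q, b, p, a, fun _ => c.symm⟩
      · obtain ⟨p, a, q, b, c⟩ := one i j h
        exact ⟨p, a, q, b, fun _ => c⟩
    choose p p1 q q1 pq using this
    choose r r1 r2 using fun i => ub _ (hEL (l1 i)) (range (p i) ∪ range fun j => q j i)
      ((finite_range _).union (finite_range _))
      (union_subset (range_subset_iff.2 (p1 i)) (range_subset_iff.2 fun j => q1 j i))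
    have hr' : Pairwise fun i j => ¬ r i ≤ r j := fun i j e h =>
      (cmp hT ((r2 i _ (Or.inl ⟨j, rfl⟩)).trans h) (r2 j _ (Or.inr ⟨i, rfl⟩))).elim
        (pq i j e).1 (pq i j e).2
    obtain ⟨U, hU, hm⟩ := (h𝒰 n).2.2.2 (range fun i => cone (l i)) (finite_range _)
      (by rintro _ ⟨i, rfl⟩; exact ⟨(clopen hT _).2, cone_ne _⟩)
    choose d d1 d2 using fun i => sub_cone hT ((h𝒰 n).1 U hU) (hm _ ⟨i, rfl⟩)
    obtain ⟨a, ha, had⟩ := A3 n m r hr' d ⟨fun i => (r1 i).le.trans (d1 i), U, hU, d2⟩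
    have aS : ∀ i, a i ∈ S := fun i => hcl m r (fun i => (hEL (l1 i)).2 _ (r1 i))
      (Or.inr (Or.inr (mem_iUnion.2 ⟨n, mem_iUnion₂.2 ⟨a, ha, i, rfl⟩⟩)))
    have al : ∀ i, a i < l i := fun i => by
      have nl : ¬ l i ≤ a i := fun h => (hEL (l1 i)).1 (sD _ (aS i) _ h)
      have := (cmp hT ((had i).resolve_right fun h => nl ((d1 i).trans h)) (d1 i)).resolve_right nl
      exact lt_of_le_not_ge this nl
    obtain ⟨-, V, hV, hV'⟩ := A2 n m r ha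
    refine ⟨V, hV, fun x hx => ?_⟩
    obtain ⟨i, hi⟩ : Iio x ∈ range f := hr ▸ mem_image_of_mem _ hx
    have : a i ∈ Iio x := by rw [← hi, ← l2]; exact al i
    exact (cone_anti hT (le_of_lt this)).trans (hV' i)
  obtain ⟨E, hE⟩ := (countable_ofPred_finite_subset hL).exists_eq_range
    ⟨∅, finite_empty, empty_subset _⟩
  choose U hU hU' using fun n => key n (E n) (hE.ge ⟨n, rfl⟩).1 (hE.ge ⟨n, rfl⟩).2
  refine ⟨U, hU, mk_dom (by
    rintro _ ⟨n, rfl⟩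
    exact ⟨(h𝒰 n).1 _ (hU n), (h𝒰 n).2.2.1 _ (hU n)⟩) fun F hF hF' => ?_⟩
  have : ∀ G : F, ∃ l ∈ L, (cone l ∩ G).Nonempty := by
    intro G
    obtain ⟨t, ht⟩ := sub_cone' hT (hF' _ G.2).1 (hF' _ G.2).2
    obtain ⟨s, s1, s2⟩ := not_subset.1 fun h => hT.2.2.2.1 t (hS.mono h)
    obtain ⟨l, l1, l2⟩ := hT.2.1.wf.has_min {z | z ≤ s ∧ z ∉ S} ⟨s, le_rfl, s2⟩
    obtain ⟨x, hx⟩ := cone_ne s
    exact ⟨l, ⟨l1.2, fun p hp => by_contra fun h => l2 p ⟨hp.le.trans l1.1, h⟩ hp⟩,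
      x, cone_anti hT l1.1 hx, ht (cone_anti hT s1 hx)⟩
  choose l l1 l2 using this
  have := hF.to_subtype
  obtain ⟨n, hn⟩ : range l ∈ range E := by
    rw [← hE]; exact ⟨finite_range l, range_subset_iff.2 l1⟩
  exact ⟨U n, ⟨n, rfl⟩, fun G hG => (l2 ⟨G, hG⟩).mono
    (inter_subset_inter_left _ (hU' n _ (hn ▸ mem_range_self _)))⟩

end Pool.Agent.H42.Dom
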