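import Mathlib

/-! Definitions for selection principles for dense families and free Suslin trees. -/

namespace Pool.Agent.H42.Dom

open Set

universe u

/-- The class `D_Omega` of families of open sets. -/
def DOm {X : Type u} [TopologicalSpace X] (𝒰 : Set (Set X)) : Prop :=
  (∀ U ∈ 𝒰, IsOpen U) ∧ Dense (⋃₀ 𝒰) ∧ (∀ U ∈ 𝒰, ¬ univ ⊆ closure U) ∧
    ∀ F : Set (Set X), F.Finite → (∀ G ∈ F, IsOpen G ∧ G.Nonempty) →
      ∃ U ∈ 𝒰, ∀ G ∈ F, (U ∩ G).Nonempty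

/-- `S_1(D_Omega, D_Omega)`. -/
def S1 (X : Type u) [TopologicalSpace X] : Prop :=
  ∀ 𝒰 : ℕ → Set (Set X), (∀ n, DOm (𝒰 n)) →
    ∃ U : ℕ → Set X, (∀ n, U n ∈ 𝒰 n) ∧ DOm (range U)

/-- `S_fin(D_Omega, D_Omega)`. -/
def Sfin (X : Type u) [TopologicalSpace X] : Prop :=
  ∀ 𝒰 : ℕ → Set (Set X), (∀ n, DOm (𝒰 n)) →
    ∃ F : ℕ → Set (Set X), (∀ n, F n ⊆ 𝒰 n ∧ (F n).Finite) ∧ DOm (⋃ n, F n)

/-- A free Suslin tree: a tree all of whose cones are uncountable, with countable chains and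
antichains, such that products of pairwise disjoint cones have no uncountable antichain. -/
def FreeSuslin (T : Type) [PartialOrder T] : Prop :=
  Nonempty T ∧ WellFoundedLT T ∧ (∀ t : T, IsChain (· ≤ ·) (Iio t)) ∧
    (∀ t : T, ¬ (Ici t).Countable) ∧
    (∀ C : Set T, IsChain (· ≤ ·) C → C.Countable) ∧
    (∀ A : Set T, IsAntichain (· ≤ ·) A → A.Countable) ∧
    ∀ (n : ℕ) (t : Fin n → T), Pairwise (fun i j => ¬ t i ≤ t j) →
      ∀ A : Set (Fin n → T), (∀ a ∈ A, ∀ i, t i ≤ a i) →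
        A.Pairwise (fun a b => ∃ i, ¬ a i ≤ b i ∧ ¬ b i ≤ a i) → A.Countable

end Pool.Agent.H42.Dom
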