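import Mathlib

/-! Thinning for Erdos-Ulam ideals and ideals given by modulus functions. -/

namespace Pool.Agent.H42.EUId

open Filter Finset Topology
open scoped Classical

/-- The points of least weight in their block of length `M`. -/
def B (h : ℕ → ℝ) (M : ℕ) : Set ℕ :=
  {x | ∀ y, y / M = x / M → h x < h y ∨ (h x = h y ∧ x ≤ y)}

theorem B_anti (h : ℕ → ℝ) {M N : ℕ} (hd : M ∣ N) : B h N ⊆ B h M := by
  obtain ⟨c, rfl⟩ := hd
  intro x hx y hy
  apply hx
  rw [← Nat.div_div_eq_div_mul, ← Nat.div_div_eq_div_mul, hy]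

theorem exists_x (h : ℕ → ℝ) {M : ℕ} (hM : 0 < M) (j : ℕ) : ∃ x ∈ B h M, x / M = j := by
  have hne : (Ico (j * M) (j * M + M)).Nonempty := ⟨j * M, by simp [hM]⟩
  have hmem : ∀ y, y ∈ Ico (j * M) (j * M + M) ↔ y / M = j := fun y => by
    rw [mem_Ico, Nat.div_eq_iff hM]
    omega
  obtain ⟨x, hx, hx'⟩ := exists_min_image _ (fun y => toLex (h y, y)) hne
  refine ⟨x, fun y hy => ?_, (hmem x).1 hx⟩
  have := hx' y ((hmem y).2 (hy.trans ((hmem x).1 hx)))
  rwa [Prod.Lex.toLex_le_toLex] at this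

theorem B_count (h : ℕ → ℝ) {M : ℕ} (hM : 0 < M) (n : ℕ) :
    n / M ≤ ((range n).filter (· ∈ B h M)).card := by
  choose x x1 x2 using exists_x h hM
  rw [← card_range (n / M)]
  refine card_le_card_of_injOn x (fun j hj => ?_) fun j _ k _ e => by rw [← x2 j, e, x2]
  simp only [coe_filter, mem_range, Set.mem_ofPred_eq, coe_range, Set.mem_Iio] at hj ⊢
  refine ⟨not_le.1 fun c => ?_, x1 j⟩
  have := Nat.div_le_div_right (c := M) c
  rw [x2] at this
  omega

theorem B_sum {h : ℕ → ℝ} (h0 : ∀ i, 0 ≤ h i) {M : ℕ} (hM : 0 < M) (n : ℕ) :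
    M * ∑ i ∈ (range n).filter (· ∈ B h M), h i ≤ ∑ i ∈ range (n + M), h i := by
  choose x x1 x2 using exists_x h hM
  have k1 : ∀ J, M * ∑ j ∈ range J, h (x j) ≤ ∑ i ∈ range (J * M), h i := by
    intro J
    induction J with
    | zero => simp
    | succ J ih =>
      rw [sum_range_succ, mul_add, Nat.succ_mul, sum_range_add]
      refine add_le_add ih ?_
      have : ∑ _i ∈ range M, h (x J) = M * h (x J) := by simp
      rw [← this]
      refine sum_le_sum fun i hi => ?_
      have := x1 J (J * M + i) (by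
        rw [x2, Nat.div_eq_iff hM]; have := mem_range.1 hi; omega)
      rcases this with c | c
      · exact c.le
      · exact c.1.le
  have k2 : (range n).filter (· ∈ B h M) ⊆ (range (n / M + 1)).image x := by
    intro y hy
    obtain ⟨y1, y2⟩ := mem_filter.1 hy
    refine mem_image.2 ⟨y / M, mem_range.2 (Nat.lt_succ_of_le
      (Nat.div_le_div_right (mem_range.1 y1).le)), ?_⟩
    rcases y2 (x (y / M)) (x2 _) with c | c <;> rcases x1 (y / M) y (x2 _).symm with d | d
    · exact absurd c d.not_gt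
    · exact absurd c d.1.not_gt
    · exact absurd d c.1.not_gt
    · exact le_antisymm d.2 c.2
  calc (M : ℝ) * ∑ i ∈ (range n).filter (· ∈ B h M), h i
      ≤ M * ∑ j ∈ range (n / M + 1), h (x j) := by
        refine mul_le_mul_of_nonneg_left ?_ (Nat.cast_nonneg _)
        refine (sum_le_sum_of_subset_of_nonneg k2 fun i _ _ => h0 i).trans ?_
        exact sum_image_le_of_nonneg fun i _ => h0 i
    _ ≤ ∑ i ∈ range ((n / M + 1) * M), h i := k1 _
    _ ≤ _ := by
        refine sum_le_sum_of_subset_of_nonneg (range_mono ?_) fun i _ _ => h0 i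
        have := Nat.div_mul_le_self n M
        rw [Nat.succ_mul]; omega

theorem shift {h : ℕ → ℝ} (h1 : Tendsto (fun n => ∑ i ∈ range n, h i) atTop atTop)
    (h2 : Tendsto (fun n => h n / ∑ i ∈ range (n + 1), h i) atTop (𝓝 0)) (M : ℕ) :
    Tendsto (fun n => (∑ i ∈ range n, h i) / ∑ i ∈ range (n + M), h i) atTop (𝓝 1) := by
  have hp : ∀ M, ∀ᶠ n in atTop, 0 < ∑ i ∈ range (n + M), h i := fun M =>
    (h1.comp (tendsto_add_atTop_nat M)).eventually_gt_atTop 0
  have one : Tendsto (fun n => (∑ i ∈ range n, h i) / ∑ i ∈ range (n + 1), h i) atTop (𝓝 1) := by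
    have := h2.const_sub 1
    rw [sub_zero] at this
    refine this.congr' ((hp 1).mono fun n hn => ?_)
    simp only
    rw [eq_div_iff hn.ne', sub_mul, div_mul_cancel₀ _ hn.ne', sum_range_succ]
    ring
  induction M with
  | zero =>
    refine tendsto_const_nhds.congr' ((hp 0).mono fun n hn => ?_)
    exact (div_self hn.ne').symm
  | succ M ih =>
    have := ih.mul (one.comp (tendsto_add_atTop_nat M))
    rw [mul_one] at this
    refine this.congr' ((hp M).mono fun n hn => ?_)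
    simp only [Function.comp]
    rw [div_mul_div_cancel₀ hn.ne', add_assoc]

theorem thin {h : ℕ → ℝ} (h0 : ∀ i, 0 ≤ h i)
    (h1 : Tendsto (fun n => ∑ i ∈ range n, h i) atTop atTop)
    (h2 : Tendsto (fun n => h n / ∑ i ∈ range (n + 1), h i) atTop (𝓝 0))
    (W : ℕ → ℕ → Prop) (hW : ∀ M, 0 < M → ∃ᶠ n in atTop, W M n) :
    ∃ A : Set ℕ, Tendsto (fun n => (∑ i ∈ (range n).filter (· ∈ A), h i) / ∑ i ∈ range n, h i)
      atTop (𝓝 0) ∧ ∃ᶠ n in atTop, ∃ M, W M n ∧ n / M ≤ ((range n).filter (· ∈ A)).card := by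
  have st : ∀ j m : ℕ, ∃ n, m < n ∧ W (2 ^ (j + 1)) n ∧ n / 2 ^ (j + 1) + m ≤ n / 2 ^ j := by
    intro j m
    obtain ⟨n, n1, n2⟩ := frequently_atTop.1 (hW (2 ^ (j + 1)) (by positivity)) (2 ^ j * (2 * m) + m + 1)
    refine ⟨n, by omega, n2, ?_⟩
    have : 2 * m ≤ n / 2 ^ j := (Nat.le_div_iff_mul_le (by positivity)).2 (by rw [mul_comm]; omega)
    rw [pow_succ, ← Nat.div_div_eq_div_mul]
    omega
  choose s s1 s2 s3 using st
  let t : ℕ → ℕ := fun j => Nat.rec 0 (fun j m => s j m) j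
  have ht : ∀ j, t (j + 1) = s j (t j) := fun j => rfl
  have tm : StrictMono t := strictMono_nat_of_lt_succ fun j => s1 j _
  obtain ⟨A, hA⟩ : ∃ A : Set ℕ, ∀ x, x ∈ A ↔ ∀ j, t j ≤ x → x ∈ B h (2 ^ j) :=
    ⟨{x | ∀ j, t j ≤ x → x ∈ B h (2 ^ j)}, fun _ => Iff.rfl⟩
  refine ⟨A, ?_, frequently_atTop.2 fun j => ⟨t (j + 1), (Nat.le_succ j).trans (tm.id_le _),
    2 ^ (j + 1), s2 j _, ?_⟩⟩
  · rw [Metric.tendsto_nhds]
    intro ε hε
    obtain ⟨j, hj⟩ := exists_pow_lt_of_lt_one (show 0 < ε / 4 by positivity)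
      (show (1 / 2 : ℝ) < 1 by norm_num)
    have e1 := (shift h1 h2 (2 ^ j)).eventually_const_lt (show (1 / 2 : ℝ) < 1 by norm_num)
    have e2 := h1.eventually_gt_atTop (2 / ε * ∑ i ∈ range (t j), h i)
    filter_upwards [e1, e2, h1.eventually_gt_atTop 0,
      (h1.comp (tendsto_add_atTop_nat (2 ^ j))).eventually_gt_atTop 0] with n c1 c2 c3 c4
    simp only [Function.comp] at c4
    rw [Real.dist_eq, sub_zero, abs_of_nonneg (div_nonneg (sum_nonneg fun i _ => h0 i) c3.le),
      div_lt_iff₀ c3]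
    have a1 : ∑ i ∈ (range n).filter (· ∈ A), h i ≤
        ∑ i ∈ range (t j), h i + ∑ i ∈ (range n).filter (· ∈ B h (2 ^ j)), h i := by
      have : (range n).filter (· ∈ A) ⊆ range (t j) ∪ (range n).filter (· ∈ B h (2 ^ j)) := by
        intro y hy
        obtain ⟨y1, y2⟩ := mem_filter.1 hy
        rcases lt_or_ge y (t j) with c | c
        · exact mem_union_left _ (mem_range.2 c)
        · exact mem_union_right _ (mem_filter.2 ⟨y1, (hA y).1 y2 j c⟩)
      refine (sum_le_sum_of_subset_of_nonneg this fun i _ _ => h0 i).trans ?_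
      rw [← sum_union_inter]
      exact le_add_of_nonneg_right (sum_nonneg fun i _ => h0 i)
    have a2 := B_sum h0 (show 0 < 2 ^ j by positivity) n
    rw [lt_div_iff₀ c4] at c1
    have a3 : (0 : ℝ) < 2 ^ j := by positivity
    rw [one_div, inv_pow, inv_lt_iff_one_lt_mul₀ a3] at hj
    push_cast at a2
    rw [div_mul_eq_mul_div, div_lt_iff₀ hε] at c2
    have a4 : ∑ i ∈ (range n).filter (· ∈ B h (2 ^ j)), h i ≤ ε / 2 * ∑ i ∈ range n, h i := by
      refine le_of_mul_le_mul_left (a2.trans ?_) a3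
      nlinarith
    nlinarith
  · have a1 := B_count h (show 0 < 2 ^ j by positivity) (t (j + 1))
    have a2 := s3 j (t j)
    rw [← ht] at a2
    have : (range (t (j + 1))).filter (· ∈ B h (2 ^ j)) ⊆
        range (t j) ∪ (range (t (j + 1))).filter (· ∈ A) := by
      intro y hy
      obtain ⟨y1, y2⟩ := mem_filter.1 hy
      rcases lt_or_ge y (t j) with c | c
      · exact mem_union_left _ (mem_range.2 c)
      · refine mem_union_right _ (mem_filter.2 ⟨y1, (hA y).2 fun i hi =>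
          B_anti h (pow_dvd_pow 2 ?_) y2⟩)
        exact Nat.lt_succ_iff.1 (tm.lt_iff_lt.1 (hi.trans_lt (mem_range.1 y1)))
    have a3 := (card_le_card this).trans (card_union_le _ _)
    rw [card_range] at a3
    omega

theorem mono_env (G : ℕ → ℕ) (hG : ∀ n, n ≤ G n) :
    ∃ g : ℕ → ℕ, Monotone g ∧ (∀ n, n ≤ g n) ∧ ∀ a : ℕ → ℕ, Monotone a →
      (Tendsto (fun n => (a n : ℝ) / G n) atTop (𝓝 0) ↔
        Tendsto (fun n => (a n : ℝ) / g n) atTop (𝓝 0)) := by
  have : ∀ n, ∃ m, n ≤ m ∧ ∀ k, n ≤ k → G m ≤ G k := fun n => by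
    obtain ⟨m, m1, m2⟩ := (wellFounded_lt.onFun (f := G)).has_min (Set.Ici n) ⟨n, Set.mem_Ici.2 le_rfl⟩
    exact ⟨m, m1, fun k hk => not_lt.1 (m2 k hk)⟩
  choose m m1 m2 using this
  refine ⟨fun n => G (m n), fun a b hab => m2 a _ (hab.trans (m1 b)),
    fun n => (m1 n).trans (hG _), fun a ha => ⟨fun h => ?_, fun h => ?_⟩⟩
  · refine squeeze_zero (fun n => by positivity) (fun n => ?_)
      (h.comp (tendsto_atTop_mono m1 tendsto_id))
    simp only [Function.comp]
    gcongr
    exact ha (m1 n)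
  · refine squeeze_zero' (Eventually.of_forall fun n => by positivity) ?_ h
    filter_upwards [eventually_gt_atTop 0] with n hn
    have : 0 < G (m n) := hn.trans_le ((m1 n).trans (hG _))
    gcongr
    exact m2 n n le_rfl

/-- `φ` is the restriction of the modulus function to the naturals, `γ n = f (g n)`. -/
theorem key (φ γ : ℕ → ℝ) (p0 : ∀ n, 0 ≤ φ n) (p1 : ∀ n, 0 < n → 0 < φ n) (p2 : Monotone φ)
    (p3 : ∀ M n, φ (M * n) ≤ M * φ n) (hγ : ∀ᶠ n in atTop, 0 < γ n)
    (hE : ∀ δ > 0, ∃ M, 0 < M ∧ ∀ᶠ n in atTop, φ (n / M) ≤ δ * γ n) (a : ℕ → ℕ) (ha : ∀ n, a n ≤ n) :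
    Tendsto (fun n => φ (a n) / γ n) atTop (𝓝 0) ↔
      Tendsto (fun n => (a n : ℝ) / (n * (⌊γ n / φ n⌋₊ + 1) : ℕ)) atTop (𝓝 0) := by
  constructor
  · intro h
    rw [Metric.tendsto_nhds]
    intro ε hε
    obtain ⟨M, hM⟩ := exists_nat_gt (1 / ε)
    have hM0 : (0 : ℝ) < M := lt_trans (by positivity) hM
    rw [div_lt_iff₀ hε] at hM
    filter_upwards [h.eventually_lt_const (show (0 : ℝ) < 1 / (M * M) by positivity), hγ,
      eventually_gt_atTop 0] with n c1 c2 c3
    have c4 : (0 : ℝ) < n := by exact_mod_cast c3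
    have c5 := p1 n c3
    rw [Real.dist_eq, sub_zero, abs_of_nonneg (by positivity), div_lt_iff₀ (by positivity)]
    push_cast
    have c6 := Nat.lt_floor_add_one (γ n / φ n)
    set K : ℝ := ⌊γ n / φ n⌋₊ + 1 with hK
    have c7 : 1 ≤ K := by rw [hK]; linarith [Nat.cast_nonneg (α := ℝ) ⌊γ n / φ n⌋₊]
    have c8 : (a n : ℝ) ≤ n := by exact_mod_cast ha n
    rcases le_or_gt (M : ℝ) K with d | d
    · have : 1 < ε * K := by nlinarith
      nlinarith
    · have d1 : M * a n < n := by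
        by_contra hc
        have e1 := (p2 (not_lt.1 hc)).trans (p3 M (a n))
        rw [div_lt_iff₀ c5] at c6
        rw [div_lt_div_iff₀ c2 (by positivity)] at c1
        have := p0 (a n)
        nlinarith
      have d2 : (M : ℝ) * a n < n := by exact_mod_cast d1
      have d3 : (a n : ℝ) < ε * n := by nlinarith [Nat.cast_nonneg (α := ℝ) (a n)]
      nlinarith [mul_pos hε c4]
  · intro h
    rw [Metric.tendsto_nhds]
    intro ε hε
    obtain ⟨M, hM0, hM⟩ := hE (ε / 2) (by positivity)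
    filter_upwards [h.eventually_lt_const
      (show (0 : ℝ) < 1 / ((M + 1) * (2 / ε + 1)) by positivity), hγ,
      eventually_gt_atTop 0, hM] with n c1 c2 c3 c0
    have c4 : (0 : ℝ) < n := by exact_mod_cast c3
    have c5 := p1 n c3
    rw [Real.dist_eq, sub_zero, abs_of_nonneg (div_nonneg (p0 _) c2.le), div_lt_iff₀ c2]
    refine lt_of_le_of_lt (b := ε / 2 * γ n) ?_ (by nlinarith)
    rcases le_or_gt (φ n) (ε / 2 * γ n) with d | d
    · exact (p2 (ha n)).trans d
    · have d1 : γ n / φ n ≤ 2 / ε := by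
        rw [div_le_div_iff₀ c5 hε]; nlinarith
      have d2 : (⌊γ n / φ n⌋₊ : ℝ) ≤ 2 / ε := (Nat.floor_le (by positivity)).trans d1
      rw [div_lt_div_iff₀ (by positivity) (by positivity)] at c1
      push_cast at c1
      have d3 : (a n : ℝ) * (M + 1) < n := by
        refine lt_of_mul_lt_mul_right (a := 2 / ε + 1) ?_ (by positivity)
        nlinarith
      have d4 : a n * (M + 1) < n := by exact_mod_cast d3
      refine (p2 ((Nat.le_div_iff_mul_le hM0).2 ?_)).trans c0
      nlinarith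

end Pool.Agent.H42.EUId
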