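import Pool.Agent.H42.EnhDefs

/-! Upper bounds for the Euclidean cover number. -/

namespace Pool.Agent.H42.Enh1

open Set Filter Topology Cardinal Pool.Agent.H42.EnhDefs

lemma clos {X I : Type} {κ : Cardinal} (hκ : ℵ₀ ≤ κ) (hI : κ ^ #I ≤ κ) (F : (I → X) → Set X)
    (hF : ∀ s, #(F s) ≤ κ) (x : X) :
    ∃ R : Set X, x ∈ R ∧ #R ≤ κ ∧ ∀ s, (∀ i, s i ∈ R) → F s ⊆ R := by
  have hg : ∀ s, ∃ g : κ.out → X, F s ⊆ range g := fun s => by
    obtain ⟨f⟩ : Nonempty (F s ↪ κ.out) := by rw [← Cardinal.le_def, mk_out]; exact hF s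
    exact ⟨Function.extend f Subtype.val fun _ => x, fun y hy =>
      ⟨f ⟨y, hy⟩, f.injective.extend_apply _ _ _⟩⟩
  choose g hg using hg
  let β : Option κ.out → Type := fun o => o.elim PEmpty fun _ => I
  let ev : WType β → X := WType.elim X fun p => match p with
    | ⟨none, _⟩ => x
    | ⟨some a, t⟩ => g t a
  refine ⟨range ev, ⟨⟨none, fun i => PEmpty.elim i⟩, rfl⟩,
    mk_range_le.trans (WType.cardinalMk_le_of_le ?_), fun s hs y hy => ?_⟩
  · refine (sum_le_sum _ (fun _ => κ) fun o => ?_).trans ?_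
    · cases o
      · exact (show κ ^ #PEmpty = 1 by simp).trans_le (one_le_aleph0.trans hκ)
      · exact hI
    · simp [add_one_eq hκ, mul_eq_self hκ]
  · choose t ht using hs
    obtain ⟨a, rfl⟩ := hg s hy
    exact ⟨⟨some a, t⟩, congrArg (g · a) (funext ht)⟩

lemma small {X : Type} [TopologicalSpace X] [T2Space X] [FirstCountableTopology X]
    (h : ∀ x : X, ∃ V ∈ 𝓝 x, #V ≤ 𝔠) (x : X) : #(connectedComponent x) ≤ 𝔠 := by
  choose V hV hc using h
  obtain ⟨R, hx, hR, H⟩ := clos (I := ℕ) aleph0_le_continuum (by simp)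
    (fun s : ℕ → X => V (s 0) ∪ {z | Tendsto s atTop (𝓝 z)}) (fun s => (mk_union_le _ _).trans
      (add_le_of_le aleph0_le_continuum (hc _) ((Set.Subsingleton.countable fun a ha b hb =>
        tendsto_nhds_unique ha hb).le_aleph0.trans aleph0_le_continuum))) x
  refine (mk_le_mk_of_subset (IsClopen.connectedComponent_subset ⟨?_, ?_⟩ hx)).trans hR
  · refine isClosed_of_closure_subset fun z hz => ?_
    obtain ⟨s, hs, hz⟩ := mem_closure_iff_seq_limit.1 hz
    exact H s hs (Or.inr hz)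
  · exact isOpen_iff_mem_nhds.2 fun y hy => mem_of_superset (hV y)
      (subset_union_left.trans (H (fun _ => y) fun _ => hy))

lemma chart {n : ℕ} {M : Type} [TopologicalSpace M] {U : Set M} (h : Eucl n U) :
    ∃ e : EuclideanSpace ℝ (Fin n) → M, IsOpenEmbedding e ∧ range e = U := by
  obtain ⟨h, ⟨φ⟩⟩ := h
  exact ⟨_, h.isOpenEmbedding_subtypeVal.comp φ.symm.isOpenEmbedding, by
    rw [range_comp, φ.symm.surjective.range_eq, image_univ, Subtype.range_coe]⟩

lemma cardE (n : ℕ) : #(EuclideanSpace ℝ (Fin n)) ≤ 𝔠 := by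
  rw [mk_congr (WithLp.equiv 2 _)]
  simpa [mk_real] using power_nat_le (n := n) aleph0_le_continuum

lemma att {M : Type} {P : Set M → Prop} (h : ∀ x, ∃ U, P U ∧ x ∈ U) :
    ∃ 𝒰 : Set (Set M), #𝒰 = covNum P ∧ (∀ U ∈ 𝒰, P U) ∧ ⋃₀ 𝒰 = Set.univ :=
  csInf_mem (s := {c | ∃ 𝒰 : Set (Set M), #𝒰 = c ∧ (∀ U ∈ 𝒰, P U) ∧ ⋃₀ 𝒰 = Set.univ})
    ⟨_, {U | P U}, rfl, fun _ h => h, eq_univ_of_forall fun x => h x⟩

lemma cov_le {M I : Type} {P : Set M → Prop} (U : I → Set M) (h : ∀ i, P (U i))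
    (h' : ∀ x, ∃ i, x ∈ U i) : covNum P ≤ #I :=
  (csInf_le' (s := {c | ∃ 𝒰 : Set (Set M), #𝒰 = c ∧ (∀ U ∈ 𝒰, P U) ∧ ⋃₀ 𝒰 = Set.univ})
    ⟨range U, rfl, forall_mem_range.2 h, by
      rw [sUnion_range]; exact eq_univ_of_forall fun x => mem_iUnion.2 (h' x)⟩).trans mk_range_le

theorem upper {n : ℕ} {M : Type} [TopologicalSpace M] (h : ENH n M) (hc : ∀ m, 𝔠 ≤ covB m) :
    E n M ≤ OH M := by
  have := h.conn
  choose W hW hx using h.loc
  choose e he hr using fun x => chart (hW x)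
  obtain ⟨𝒰, h1, h2, h3⟩ := att (P := fun U : Set M => IsOpen U ∧ T2Space U) fun x =>
    ⟨W x, ⟨(hW x).1, (hW x).2.some.isEmbedding.t2Space⟩, hx x⟩
  have h3' : ∀ x, ∃ U ∈ 𝒰, x ∈ U := fun x => mem_sUnion.1 (h3 ▸ mem_univ x)
  have hp : ∀ x, ∃ p, e x p = x := fun x => by have := hx x; rwa [← hr] at this
  choose p hp using hp
  have hn : ∀ x, 𝓝 x = map (e x) (𝓝 (p x)) := fun x => by rw [(he x).map_nhds_eq, hp]
  have fc : FirstCountableTopology M := ⟨fun x => by rw [hn]; infer_instance⟩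
  have lc : LocallyConnectedSpace M := locallyConnectedSpace_iff_connected_subsets.2
    fun x U hU => by
      rw [hn] at hU ⊢
      obtain ⟨V, a, b, c⟩ := locallyConnectedSpace_iff_connected_subsets.1 inferInstance _ _ hU
      exact ⟨_, image_mem_map a, b.image _ (he x).continuous.continuousOn, image_subset_iff.2 c⟩
  have hU : 𝔠 ≤ #𝒰 := by
    obtain ⟨x⟩ : Nonempty M := inferInstance
    have key : ∀ q, ∃ U : 𝒰, q ∈ e x ⁻¹' frontier U.1 := fun q => by
      obtain ⟨y, a, b⟩ := h.nh (e x q)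
      obtain ⟨U, c, d⟩ := h3' y
      refine ⟨⟨U, c⟩, ?_⟩
      rw [mem_preimage, (h2 U c).1.frontier_eq]
      refine ⟨mem_closure_iff.2 fun V hV hq => inter_comm U V ▸ b U V (h2 U c).1 hV d hq,
        fun hq => ?_⟩
      have := (h2 U c).2
      obtain ⟨A, B, o1, o2, m1, m2, dj⟩ := t2_separation
        (show (⟨y, d⟩ : U) ≠ ⟨_, hq⟩ from fun g => a (congrArg Subtype.val g))
      have ho := (h2 U c).1.isOpenMap_subtype_val
      exact (b _ _ (ho _ o1) (ho _ o2) ⟨_, m1, rfl⟩ ⟨_, m2, rfl⟩).not_disjoint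
        (disjoint_image_of_injective Subtype.val_injective dj)
    have nd : ∀ U : 𝒰, IsNowhereDense (e x ⁻¹' frontier U.1) := fun U => by
      rw [(he x).isOpenMap.preimage_frontier_eq_frontier_preimage (he x).continuous,
        isClosed_frontier.isNowhereDense_iff, ← frontier_compl]
      exact interior_frontier ((h2 _ U.2).1.preimage (he x).continuous).isClosed_compl
    cases n with
    | zero =>
      obtain ⟨U, hU⟩ := key 0
      have := nd U
      rw [eq_univ_of_forall fun q => (Subsingleton.elim 0 q ▸ hU : q ∈ e x ⁻¹' frontier U.1)]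
        at this
      simp [IsNowhereDense] at this
    | succ m => exact (hc m).trans (cov_le _ nd key)
  have hi := aleph0_le_continuum.trans hU
  have hC : ∀ U ∈ 𝒰, ∀ y, #(connectedComponentIn U y) ≤ 𝔠 := fun U hU y => by
    by_cases hy : y ∈ U
    · have := (h2 U hU).2
      rw [connectedComponentIn_eq_image hy]
      refine mk_image_le.trans (small (fun z => ⟨_, continuous_subtype_val.continuousAt.preimage_mem_nhds
        ((hW z).1.mem_nhds (hx z)), (mk_preimage_of_injective _ _ Subtype.val_injective).trans ?_⟩) _)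
      rw [← hr]
      exact mk_range_le.trans (cardE n)
    · simp [connectedComponentIn_eq_empty hy]
  obtain ⟨x⟩ : Nonempty M := inferInstance
  obtain ⟨R, a, b, c⟩ := clos (I := Unit) hi (by simp)
    (fun s : Unit → M => ⋃ U : 𝒰, connectedComponentIn U.1 (s ())) (fun s =>
      (mk_iUnion_le_sum_mk.trans (sum_le_sum _ (fun _ => #𝒰) fun U => (hC _ U.2 _).trans hU)).trans
        (by simp [mul_eq_self hi])) x
  have c' : ∀ y ∈ R, ∀ U ∈ 𝒰, connectedComponentIn U y ⊆ R := fun y hy U hU =>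
    (subset_iUnion (fun U : 𝒰 => connectedComponentIn U.1 y) ⟨U, hU⟩).trans
      (c (fun _ => y) fun _ => hy)
  have hR : R = Set.univ := IsClopen.eq_univ ⟨isClosed_of_closure_subset fun z hz => by
      obtain ⟨U, d, f⟩ := h3' z
      obtain ⟨y, g, k⟩ := mem_closure_iff.1 hz _ (h2 U d).1.connectedComponentIn
        (mem_connectedComponentIn f)
      exact c' y k U d (connectedComponentIn_eq g ▸ mem_connectedComponentIn f),
    isOpen_iff_mem_nhds.2 fun y hy => by
      obtain ⟨U, d, f⟩ := h3' y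
      exact mem_of_superset ((h2 U d).1.connectedComponentIn.mem_nhds (mem_connectedComponentIn f))
        (c' y hy U d)⟩ ⟨x, a⟩
  refine (cov_le W hW fun x => ⟨x, hx x⟩).trans (le_trans ?_ h1.le)
  rwa [hR, Cardinal.mk_univ] at b

end Pool.Agent.H42.Enh1
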