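import Pool.Agent.H42.Enh1

/-! A doubled Euclidean space times the Pruefer surface. -/

namespace Pool.Agent.H42.Enh2

open Set Filter Topology Cardinal Pool.Agent.H42.EnhDefs Pool.Agent.H42.Enh1

lemma glue {I X Y : Type} [TopologicalSpace X] (φ : I → X → Y) (hi : ∀ i, (φ i).Injective)
    (ho : ∀ i j U, IsOpen U → IsOpen (φ j ⁻¹' (φ i '' U))) (i : I) :
    letI : TopologicalSpace Y := ⨆ i, .coinduced (φ i) inferInstance; IsOpenEmbedding (φ i) := by
  let : TopologicalSpace Y := ⨆ i, .coinduced (φ i) inferInstance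
  exact .of_continuous_injective_isOpenMap (continuous_iSup_rng continuous_coinduced_rng) (hi i)
    fun U hU => isOpen_iSup_iff.2 fun j => isOpen_coinduced.2 (ho i j U hU)

lemma conn {I X Y : Type} [TopologicalSpace X] [TopologicalSpace Y] [ConnectedSpace X]
    (φ : I → X → Y) (hc : ∀ i, Continuous (φ i)) (hs : ∀ y, ∃ i x, φ i x = y) (i₀ : I)
    (h : ∀ i, ∃ a b, φ i a = φ i₀ b) : ConnectedSpace Y := by
  obtain ⟨x⟩ : Nonempty X := inferInstance
  refine connectedSpace_iff_univ.2 ⟨⟨φ i₀ x, trivial⟩, isPreconnected_of_forall (φ i₀ x) fun y _ => ?_⟩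
  obtain ⟨i, z, rfl⟩ := hs y
  obtain ⟨a, b, e⟩ := h i
  exact ⟨range (φ i) ∪ range (φ i₀), subset_univ _, Or.inr ⟨x, rfl⟩, Or.inl ⟨z, rfl⟩,
    (isPreconnected_range (hc i)).union _ ⟨a, rfl⟩ ⟨b, e.symm⟩ (isPreconnected_range (hc i₀))⟩

lemma prufer : ∃ (P : Type) (_ : TopologicalSpace P) (φ : ℝ → ℝ × ℝ → P), T2Space P ∧
    ConnectedSpace P ∧ (∀ a, IsOpenEmbedding (φ a)) ∧ (∀ y, ∃ a p, φ a p = y) ∧
    ∀ a b p q, p.2 < 0 → φ a p = φ b q → a = b := by
  let φ : ℝ → ℝ × ℝ → {t : ℝ × ℝ × ℝ // 0 < t.1 → t.2.2 = 0} := fun a p =>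
    ⟨(p.2, if 0 < p.2 then (a + p.1 * p.2, 0) else (p.1, a)), fun h => by simp [show 0 < p.2 from h]⟩
  have key : ∀ a b p q, φ a p = φ b q ↔ p.2 = q.2 ∧
      (0 < q.2 ∧ a + p.1 * q.2 = b + q.1 * q.2 ∨ q.2 ≤ 0 ∧ p.1 = q.1 ∧ a = b) := by
    rintro a b ⟨u, v⟩ ⟨u', v'⟩
    simp only [φ, Subtype.mk.injEq, Prod.mk.injEq]
    refine and_congr_right fun h => ?_
    subst h
    by_cases h : 0 < v
    · simp [h, h.not_ge]
    · simp [h, not_lt.1 h]
  have hi : ∀ a, (φ a).Injective := fun a p q h => by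
    obtain ⟨h, ⟨c, d⟩ | ⟨_, d, _⟩⟩ := (key _ _ _ _).1 h
    · exact Prod.ext (mul_right_cancel₀ c.ne' (add_left_cancel d)) h
    · exact Prod.ext d h
  have hs : ∀ y, (∃ p, φ y.1.2.2 p = y) ∧ (0 < y.1.1 → ∀ a, ∃ p, φ a p = y) := by
    rintro ⟨⟨v, u, a⟩, h⟩
    have : 0 < v → ∀ b, ∃ p, φ b p = ⟨⟨v, u, a⟩, h⟩ := fun c b => ⟨((u - b) / v, v), by
      simp [φ, c, c.ne', show a = 0 from h c]⟩
    refine ⟨?_, this⟩
    by_cases c : 0 < v
    · exact this c _
    · exact ⟨(u, v), by simp [φ, c]⟩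
  have he := glue φ hi fun a b U hU => by
    by_cases c : a = b
    · rwa [c, preimage_image_eq _ (hi b)]
    have : ContinuousOn (fun q : ℝ × ℝ => ((b - a) / q.2 + q.1, q.2)) {q | 0 < q.2} :=
      ((continuousOn_const.div continuousOn_snd fun q h => ne_of_gt h).add continuousOn_fst).prodMk
        continuousOn_snd
    convert this.isOpen_inter_preimage (isOpen_lt continuous_const continuous_snd) hU using 1
    ext q
    refine ⟨fun ⟨p, d, e⟩ => ?_, fun ⟨d, e⟩ => ⟨_, e, (key _ _ _ _).2 ⟨rfl, Or.inl ⟨d, ?_⟩⟩⟩⟩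
    · obtain ⟨f, ⟨g, k⟩ | ⟨_, _, g⟩⟩ := (key _ _ _ _).1 e
      · refine ⟨g, ?_⟩
        have : p = ((b - a) / q.2 + q.1, q.2) := Prod.ext (by field_simp; linarith) f
        rwa [this] at d
      · exact absurd g c
    · have : q.2 ≠ 0 := ne_of_gt (show q.2 > 0 from d)
      field_simp
      ring
  let τ : TopologicalSpace {t : ℝ × ℝ × ℝ // 0 < t.1 → t.2.2 = 0} :=
    ⨆ i, .coinduced (φ i) inferInstance
  refine ⟨_, τ, φ, ⟨fun x y h => ?_⟩, conn φ (fun a => (he a).continuous)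
    (fun y => ⟨_, (hs y).1⟩) 0 fun a => ⟨(-a, 1), (0, 1), (key _ _ _ _).2 (by simp)⟩, he,
    fun y => ⟨_, (hs y).1⟩, fun a b p q c d => ?_⟩
  · have same : ∀ a, (∃ p, φ a p = x) → (∃ q, φ a q = y) → ∃ U V, IsOpen[τ] U ∧ IsOpen[τ] V ∧
        x ∈ U ∧ y ∈ V ∧ Disjoint U V := by
      rintro a ⟨p, rfl⟩ ⟨q, rfl⟩
      exact separated_by_isOpenEmbedding (he a) fun e => h (congrArg _ e)
    by_cases c : 0 < x.1.1
    · exact same _ ((hs x).2 c _) (hs y).1
    by_cases d : 0 < y.1.1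
    · exact same _ (hs x).1 ((hs y).2 d _)
    by_cases e : x.1.2.2 = y.1.2.2
    · exact same _ (hs x).1 (e ▸ (hs y).1)
    have hw : Continuous[τ, inferInstance] fun t => if 0 < t.1.1 then t.1.2.1 else t.1.2.2 :=
      continuous_iSup_dom.2 fun a => continuous_coinduced_dom.2
        (Continuous.congr (f := fun p : ℝ × ℝ => a + p.1 * max p.2 0) (by fun_prop) fun p => by
          by_cases c : 0 < p.2
          · simp [φ, c, c.le]
          · simp [φ, c, not_lt.1 c])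
    exact separated_by_continuous hw (by simpa [c, d] using e)
  · obtain ⟨f, ⟨g, _⟩ | ⟨_, _, g⟩⟩ := (key _ _ _ _).1 d
    · linarith
    · exact g

lemma double {X I : Type} [TopologicalSpace X] [ConnectedSpace X] (K : I → Set X)
    (hc : ∀ i, IsClosed (K i)) (hn : ∀ i, interior (K i) = ∅) (hK : ∀ x, ∃ i, x ∈ K i) :
    ∃ (D : Type) (_ : TopologicalSpace D) (j : Option I → X → D), ConnectedSpace D ∧
      (∀ o, IsOpenEmbedding (j o)) ∧ (∀ y, ∃ o p, j o p = y) ∧ ∀ y : D, (NH y).Nonempty := by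
  classical
  let j : Option I → X → {t : X × Option I // ∀ i, t.2 = some i → t.1 ∈ K i} := fun o x =>
    ⟨(x, if ∃ i, o = some i ∧ x ∈ K i then o else none), fun i h => by
      dsimp only at h ⊢
      split_ifs at h with c
      obtain ⟨k, rfl, c⟩ := c
      cases h
      exact c⟩
  let L : Option I → Set X := fun o => o.elim ∅ K
  have hL : ∀ o, IsClosed (L o) := fun o => by cases o; exacts [isClosed_empty, hc _]
  have key : ∀ o o' p q, j o p = j o' q ↔ p = q ∧ (o = o' ∨ q ∉ L o ∧ q ∉ L o') := by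
    intro o o' p q
    simp only [j, Subtype.mk.injEq, Prod.mk.injEq]
    refine and_congr_right fun h => ?_
    subst h
    cases o <;> cases o' <;> simp [L]
    rename_i a b
    by_cases c : p ∈ K a <;> by_cases d : p ∈ K b <;> simp [c, d] <;> rintro rfl <;>
      contradiction
  have hi : ∀ o, (j o).Injective := fun o p q h => ((key _ _ _ _).1 h).1
  have he := glue j hi fun a b U hU => by
    by_cases c : a = b
    · rwa [c, preimage_image_eq _ (hi b)]
    convert hU.inter ((hL a).isOpen_compl.inter (hL b).isOpen_compl) using 1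
    ext q
    refine ⟨fun ⟨p, d, e⟩ => ?_, fun ⟨d, e⟩ => ⟨_, d, (key _ _ _ _).2 ⟨rfl, Or.inr e⟩⟩⟩
    obtain ⟨rfl, e⟩ := (key _ _ _ _).1 e
    exact ⟨d, e.resolve_left c⟩
  let τ : TopologicalSpace {t : X × Option I // ∀ i, t.2 = some i → t.1 ∈ K i} :=
    ⨆ i, .coinduced (j i) inferInstance
  have hs : ∀ y, j y.1.2 y.1.1 = y := by
    rintro ⟨⟨x, o⟩, h⟩
    cases o
    · simp [j]
    · simp [j, h _ rfl]
  have hd : ∀ i U, IsOpen U → U.Nonempty → ∃ q ∈ U, j (some i) q = j none q := fun i U a b => by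
    by_contra! c
    refine b.ne_empty (subset_eq_empty (interior_maximal (fun q d => ?_) a) (hn i))
    by_contra e
    exact c q d ((key _ _ _ _).2 ⟨rfl, Or.inr ⟨e, id⟩⟩)
  have ns : ∀ i x, x ∈ K i → j (some i) x ≠ j none x ∧ ∀ U V, IsOpen[τ] U → IsOpen[τ] V →
      j (some i) x ∈ U → j none x ∈ V → (U ∩ V).Nonempty := fun i x h =>
    ⟨fun e => by simpa [L, h] using (key _ _ _ _).1 e, fun U V a b c d => by
      obtain ⟨q, e, f⟩ := hd i _ ((a.preimage (he (some i)).continuous).inter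
        (b.preimage (he none).continuous)) ⟨x, c, d⟩
      exact ⟨_, e.1, f ▸ e.2⟩⟩
  refine ⟨_, τ, j, conn j (fun a => (he a).continuous) (fun y => ⟨_, _, hs y⟩) none fun o => ?_,
    he, fun y => ⟨_, _, hs y⟩, fun y => ?_⟩
  · cases o with
    | none => exact ⟨Classical.arbitrary X, _, rfl⟩
    | some i =>
      obtain ⟨q, -, e⟩ := hd i _ isOpen_univ univ_nonempty
      exact ⟨_, _, e⟩
  · rw [← hs y]
    obtain ⟨⟨x, o⟩, h⟩ := y
    cases o with
    | none =>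
      obtain ⟨i, c⟩ := hK x
      exact ⟨_, ns i x c⟩
    | some i =>
      obtain ⟨a, b⟩ := ns i x (h i rfl)
      exact ⟨_, a.symm, fun U V c d e f => inter_comm V U ▸ b V U d c f e⟩

theorem lower {m : ℕ} (h : covB m < 𝔠) :
    ∃ (M : Type) (_ : TopologicalSpace M), ENH (m + 3) M ∧ OH M < E (m + 3) M := by
  obtain ⟨𝒦, h1, h2, h3⟩ := att
    (P := fun K : Set (EuclideanSpace ℝ (Fin (m + 1))) => IsNowhereDense K) fun x =>
      ⟨{x}, isClosed_singleton.isNowhereDense_iff.2 (interior_singleton x), rfl⟩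
  obtain ⟨D, _, j, c1, e1, s1, n1⟩ := double (fun K : 𝒦 => closure K.1) (fun _ => isClosed_closure)
    (fun K => h2 _ K.2) fun x => by
      obtain ⟨K, a, b⟩ := mem_sUnion.1 (h3 ▸ mem_univ x)
      exact ⟨⟨K, a⟩, subset_closure b⟩
  obtain ⟨P, _, φ, t2, c2, e2, s2, d2⟩ := prufer
  let ψ : (EuclideanSpace ℝ (Fin (m + 1)) × ℝ × ℝ) ≃L[ℝ] EuclideanSpace ℝ (Fin (m + 3)) :=
    .ofFinrankEq (by simp)
  have hM : ENH (m + 3) (D × P) := by
    refine ⟨inferInstance, fun x => ?_, fun x => ?_⟩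
    · obtain ⟨o, p, a⟩ := s1 x.1
      obtain ⟨i, q, b⟩ := s2 x.2
      have := (e1 o).prodMap (e2 i)
      exact ⟨_, ⟨this.isOpen_range, ⟨this.isEmbedding.toHomeomorph.symm.trans ψ.toHomeomorph⟩⟩,
        (p, q), Prod.ext a b⟩
    · obtain ⟨y, a, b⟩ := n1 x.1
      refine ⟨(y, x.2), fun e => a (congrArg Prod.fst e), fun U V c d e f => ?_⟩
      obtain ⟨z, g⟩ := b _ _ (c.preimage (Continuous.prodMk_left x.2))
        (d.preimage (Continuous.prodMk_left x.2)) e f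
      exact ⟨(z, x.2), g⟩
  refine ⟨D × P, inferInstance, hM, ((cov_le (fun o => range (Prod.map (j o) id)) (fun o => ?_)
    fun x => ?_).trans_lt ?_).trans_le (b := 𝔠) ?_⟩
  · have := (e1 o).prodMap (IsOpenEmbedding.id (X := P))
    exact ⟨this.isOpen_range, this.isEmbedding.toHomeomorph.symm.isEmbedding.t2Space⟩
  · obtain ⟨o, p, a⟩ := s1 x.1
    exact ⟨o, (p, x.2), Prod.ext a rfl⟩
  · rw [mk_option, h1]
    exact add_lt_of_lt aleph0_le_continuum h (one_lt_aleph0.trans aleph0_lt_continuum)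
  obtain ⟨𝒰, g1, g2, g3⟩ := att hM.loc
  rw [E, ← g1]
  by_contra! c
  let H : ℝ → Set (D × P) := fun a => Prod.snd ⁻¹' (φ a '' {p | p.2 < 0})
  have hH : ∀ U : 𝒰, {a | (U.1 ∩ H a).Nonempty}.Countable := fun U => by
    obtain ⟨e, he, hr⟩ := chart (g2 _ U.2)
    refine Set.PairwiseDisjoint.countable_of_isOpen (s := fun a => e ⁻¹' H a)
      (fun a _ b _ hab => disjoint_left.2 fun z ⟨p, f, g⟩ ⟨q, _, k⟩ =>
        hab (d2 _ _ _ _ f (g.trans k.symm)))
      (fun a _ => (((e2 a).isOpenMap _ (isOpen_lt continuous_snd continuous_const)).preimage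
        continuous_snd).preimage he.continuous) fun a ⟨z, f, g⟩ => ?_
    rw [← hr] at f
    obtain ⟨w, rfl⟩ := f
    exact ⟨w, g⟩
  have : (⋃ U : 𝒰, {a | (U.1 ∩ H a).Nonempty}) = Set.univ := eq_univ_of_forall fun a => by
    obtain ⟨U, f, g⟩ := mem_sUnion.1 (g3 ▸ mem_univ (j none 0, φ a (0, -1)))
    exact mem_iUnion.2 ⟨⟨U, f⟩, _, g, _, by simp, rfl⟩
  have k := (mk_iUnion_le_sum_mk (f := fun U : 𝒰 => {a | (U.1 ∩ H a).Nonempty})).trans
    (sum_le_sum _ (fun _ => ℵ₀) fun U => (hH U).le_aleph0)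
  rw [this, Cardinal.mk_univ, mk_real, sum_const'] at k
  exact k.not_gt (mul_lt_of_lt aleph0_le_continuum c aleph0_lt_continuum)

end Pool.Agent.H42.Enh2
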