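import Mathlib

/-! Everywhere non-Hausdorff manifolds and two cover numbers. -/

namespace Pool.Agent.H42.EnhDefs

open Cardinal

/-- The points other than `z` that cannot be separated from `z` by open sets. -/
def NH {M : Type} [TopologicalSpace M] (z : M) : Set M :=
  {y | y ≠ z ∧ ∀ U V : Set M, IsOpen U → IsOpen V → y ∈ U → z ∈ V → (U ∩ V).Nonempty}

/-- `U` is open and homeomorphic to `ℝ ^ n`. -/
def Eucl (n : ℕ) {M : Type} [TopologicalSpace M] (U : Set M) : Prop :=
  IsOpen U ∧ Nonempty (U ≃ₜ EuclideanSpace ℝ (Fin n))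

/-- `M` is connected, each point has an open neighbourhood homeomorphic to `ℝ ^ n`, and each
point has a point that cannot be separated from it. -/
structure ENH (n : ℕ) (M : Type) [TopologicalSpace M] : Prop where
  conn : ConnectedSpace M
  loc : ∀ x : M, ∃ U : Set M, Eucl n U ∧ x ∈ U
  nh : ∀ x : M, (NH x).Nonempty

/-- The least size of a cover of `M` by sets with property `P`. -/
noncomputable def covNum {M : Type} (P : Set M → Prop) : Cardinal :=
  sInf {c | ∃ 𝒰 : Set (Set M), #𝒰 = c ∧ (∀ U ∈ 𝒰, P U) ∧ ⋃₀ 𝒰 = Set.univ}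

/-- The least size of a cover of `M` by open sets homeomorphic to `ℝ ^ n`. -/
noncomputable def E (n : ℕ) (M : Type) [TopologicalSpace M] : Cardinal :=
  covNum fun U : Set M => Eucl n U

/-- The least size of a cover of `M` by open Hausdorff subspaces. -/
noncomputable def OH (M : Type) [TopologicalSpace M] : Cardinal :=
  covNum fun U : Set M => IsOpen U ∧ T2Space U

/-- The least number of nowhere dense sets that cover `ℝ ^ (n + 1)`. -/
noncomputable def covB (n : ℕ) : Cardinal :=
  covNum fun K : Set (EuclideanSpace ℝ (Fin (n + 1))) => IsNowhereDense K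

end Pool.Agent.H42.EnhDefs
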