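import Pool.Agent.H42.EntCDefs
import Pool.Agent.H42.TStar

namespace Pool.Agent.H42.EntC1
open Pool.Agent.H42.EntCDefs Cardinal MeasureTheory Set Function
open scoped ENNReal

theorem covB_lt (h : NonNullSmall) : covB < 𝔠 := by
  obtain ⟨X, hX, h0⟩ := h
  refine lt_of_le_of_lt (csInf_le' ⟨range fun x : X => (fun y => x.1 - y) ⁻¹' {z | Liouville z}ᶜ,
    rfl, ?_, ?_⟩) (mk_range_le.trans_lt hX)
  · rintro _ ⟨x, rfl⟩
    have h1 : IsMeagre {z : ℝ | Liouville z}ᶜ := by
      rw [IsMeagre, compl_compl]; exact eventually_residual_liouville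
    exact h1.preimage_of_isOpenMap (by fun_prop) (Homeomorph.subLeft x.1).isOpenMap
  · refine eq_univ_of_forall fun y => ?_
    by_contra hy
    refine h0 (measure_mono_null (t := (fun x => x - y) ⁻¹' {z | Liouville z}) (fun x hx => ?_) ?_)
    · by_contra h2
      exact hy ⟨_, ⟨⟨x, hx⟩, rfl⟩, h2⟩
    · simp only [sub_eq_add_neg]
      rw [measure_preimage_add_right]; exact volume_setOfPred_liouville

theorem line_null {k : ℕ} (B : Set (Fin k → ℝ)) (hB : MeasurableSet B) (v : Fin k → ℝ)
    (h : ∀ x, volume {t : ℝ | x + t • v ∈ B} = 0) : volume B = 0 := by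
  have hm : MeasurableSet {p : (Fin k → ℝ) × ℝ | p.1 + p.2 • v ∈ B} :=
    hB.preimage (by fun_prop)
  have h1 : (volume.prod volume) {p : (Fin k → ℝ) × ℝ | p.1 + p.2 • v ∈ B} = 0 := by
    rw [Measure.prod_apply hm]
    simp only [preimage_ofPred_eq, h, lintegral_zero]
  rw [Measure.prod_apply_symm hm] at h1
  have h2 : ∀ t : ℝ, volume ((fun x : Fin k → ℝ => (x, t)) ⁻¹'
      {p : (Fin k → ℝ) × ℝ | p.1 + p.2 • v ∈ B}) = volume B := fun t =>
    measure_preimage_add_right volume (t • v) B
  simp only [h2, lintegral_const, Real.volume_univ] at h1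
  simpa using h1

theorem anti_null {n : ℕ} (F : Set (Fin n → ℝ)) (t : Fin n → Fin 2) (hn : 0 < n)
    (h : ∀ a ∈ F, ∀ b ∈ F, a ≠ b → ¬ ∀ i, (t i = 0 ↔ a i < b i)) : volume (closure F) = 0 := by
  let v : Fin n → ℝ := fun i => if t i = 0 then 1 else -1
  have key : ∀ y ∈ closure F, ∀ z ∈ closure F, ¬ ∀ i, 0 < v i * (z i - y i) := by
    intro y hy z hz hlt
    have ho : IsOpen {p : (Fin n → ℝ) × (Fin n → ℝ) | ∀ i, 0 < v i * (p.2 i - p.1 i)} := by
      rw [ofPred_forall]
      exact isOpen_iInter_of_finite fun i => isOpen_lt continuous_const (by fun_prop)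
    have hc : (y, z) ∈ closure (F ×ˢ F) := by rw [closure_prod_eq]; exact ⟨hy, hz⟩
    obtain ⟨⟨a, b⟩, h1, ha, hb⟩ := mem_closure_iff.1 hc _ ho hlt
    refine h a ha b hb (fun hab => ?_) fun i => ?_
    · have := h1 ⟨0, hn⟩
      simp [hab] at this
    · have := h1 i
      by_cases hi : t i = 0
      · simp only [v, hi, if_true] at this
        simp only [hi, true_iff]; linarith
      · simp only [v, hi, if_false] at this
        simp only [hi, false_iff, not_lt]; linarith
  refine line_null _ isClosed_closure.measurableSet v fun x =>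
    Set.Subsingleton.measure_zero (fun s hs r hr => ?_) _
  by_contra hne
  have hv : ∀ i, v i * v i = 1 := fun i => by by_cases hi : t i = 0 <;> simp [v, hi]
  rcases lt_or_gt_of_ne hne with h1 | h1
  · refine key _ hs _ hr fun i => ?_
    simp only [Pi.add_apply, Pi.smul_apply, smul_eq_mul]
    nlinarith [hv i]
  · refine key _ hr _ hs fun i => ?_
    simp only [Pi.add_apply, Pi.smul_apply, smul_eq_mul]
    nlinarith [hv i]

noncomputable def Y {n : ℕ} (x : Fin (n + 1) → ℝ) (j : Fin (n + 1)) : ℝ :=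
  x j - (∑ k, x k) / (n + 1)

theorem sum_Y {n : ℕ} (x : Fin (n + 1) → ℝ) : ∑ j, Y x j = 0 := by
  simp only [Y, Finset.sum_sub_distrib, Finset.sum_const, Finset.card_univ, Fintype.card_fin,
    nsmul_eq_mul]
  push_cast
  field_simp
  ring

theorem Y_line {n : ℕ} (x : Fin (n + 1) → ℝ) (j j' k : Fin (n + 1)) (t : ℝ) :
    Y (x + t • (Pi.single j 1 - Pi.single j' 1 : Fin (n + 1) → ℝ)) k =
      Y x k + t * ((if k = j then 1 else 0) - if k = j' then 1 else 0) := by
  simp only [Y, Pi.add_apply, Pi.smul_apply, Pi.sub_apply, smul_eq_mul, Finset.sum_add_distrib,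
    ← Finset.mul_sum, Finset.sum_sub_distrib, Pi.single_apply]
  simp
  ring

theorem meas_Y {n : ℕ} (j : Fin (n + 1)) : Measurable fun x : Fin (n + 1) → ℝ => Y x j := by
  unfold Y; fun_prop

noncomputable def g {n : ℕ} (N : Set (Fin n → ℝ)) (s : Finset (Fin n)) : (Fin n → ℝ) → ℝ≥0∞ :=
  ∫⋯∫⁻_s, N.indicator 1 ∂(fun _ => volume)

noncomputable def ev {n : ℕ} (φ : Fin n → ℝ ⊕ Fin (n + 1)) (x : Fin (n + 1) → ℝ) : Fin n → ℝ :=
  fun k => (φ k).elim id (Y x)

def Bad {n : ℕ} (N : Set (Fin n → ℝ)) (s : Finset (Fin n)) (i : Fin n)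
    (φ : Fin n → ℝ ⊕ Fin (n + 1)) : Set (Fin (n + 1) → ℝ) :=
  {x | (i ∉ s ∧ ∃ j j', j ≠ j' ∧ φ i = .inr j ∧ ∀ k ≠ i, φ k ≠ .inr j ∧ φ k ≠ .inr j') ∧
    g N s (ev φ x) ≠ 0 ∧ g N (insert i s) (ev φ x) = 0}

theorem bad_null {n : ℕ} (N : Set (Fin n → ℝ)) (hN : MeasurableSet N) (s : Finset (Fin n))
    (i : Fin n) (φ : Fin n → ℝ ⊕ Fin (n + 1)) : volume (Bad N s i φ) = 0 := by
  by_cases h : i ∉ s ∧ ∃ j j', j ≠ j' ∧ φ i = .inr j ∧ ∀ k ≠ i, φ k ≠ .inr j ∧ φ k ≠ .inr j'
  swap
  · have : Bad N s i φ = ∅ := eq_empty_of_forall_notMem fun x hx => h hx.1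
    simp [this]
  obtain ⟨hi, j, j', hj, h1, h2⟩ := h
  have hI : Measurable (N.indicator (1 : (Fin n → ℝ) → ℝ≥0∞)) := measurable_one.indicator hN
  have hg : ∀ s, Measurable (g N s) := fun s => hI.lmarginal _
  have hev : Measurable (ev φ) := measurable_pi_lambda _ fun k => by
    unfold ev
    cases φ k with
    | inl r => exact measurable_const
    | inr j => exact meas_Y j
  refine measure_mono_null (t := {x | g N s (ev φ x) ≠ 0 ∧ g N (insert i s) (ev φ x) = 0})
    (fun x hx => hx.2) (line_null _ ?_ (Pi.single j 1 - Pi.single j' 1) fun x => ?_)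
  · exact (((hg s).comp hev) (measurableSet_singleton 0)).compl.inter
      (((hg _).comp hev) (measurableSet_singleton 0))
  · have h3 : ∀ t : ℝ, ev φ (x + t • (Pi.single j 1 - Pi.single j' 1 : Fin (n + 1) → ℝ)) =
        update (ev φ x) i (Y x j + t) := by
      intro t
      funext k
      by_cases hk : k = i
      · subst hk
        simp [ev, h1, Y_line, hj]
      · rw [update_of_ne hk]
        unfold ev
        have := h2 k hk
        cases hφ : φ k with
        | inl r => rfl
        | inr l =>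
          rw [hφ] at this
          have h4 : l ≠ j := fun h => this.1 (by rw [h])
          have h5 : l ≠ j' := fun h => this.2 (by rw [h])
          simp [Y_line, h4, h5]
    by_cases h0 : g N (insert i s) (ev φ x) = 0
    · unfold g at h0
      rw [lmarginal_insert _ hI hi] at h0
      have h4 : volume {w : ℝ | g N s (update (ev φ x) i w) ≠ 0} = 0 :=
        (lintegral_eq_zero_iff ((hg s).comp (measurable_update _))).1 h0
      rw [← measure_preimage_add volume (Y x j)] at h4
      refine measure_mono_null (fun t ht => ?_) h4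
      have := ht.1
      rw [h3] at this
      exact this
    · have : {t : ℝ | x + t • (Pi.single j 1 - Pi.single j' 1 : Fin (n + 1) → ℝ) ∈
          {x | g N s (ev φ x) ≠ 0 ∧ g N (insert i s) (ev φ x) = 0}} = ∅ := by
        refine eq_empty_of_forall_notMem fun t ht => h0 ?_
        have := ht.2
        rw [h3] at this
        unfold g at this ⊢
        rwa [lmarginal_update_of_mem _ (Finset.mem_insert_self i s)] at this
      rw [this, measure_empty]

theorem eq_null {n : ℕ} (hn : 0 < n) (j : Fin (n + 1)) (r : ℝ) :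
    volume {x : Fin (n + 1) → ℝ | Y x j = r} = 0 := by
  have : Nontrivial (Fin (n + 1)) := Fin.nontrivial_iff_two_le.2 (by omega)
  obtain ⟨j', hj⟩ := exists_ne j
  refine line_null _ (meas_Y j (measurableSet_singleton r)) (Pi.single j 1 - Pi.single j' 1)
    fun x => Set.Subsingleton.measure_zero (fun s hs t ht => ?_) _
  simp only [mem_ofPred_eq, Y_line, if_true, hj.symm, if_false] at hs ht
  linarith

theorem ne_null {n : ℕ} (j k : Fin (n + 1)) :
    volume {x : Fin (n + 1) → ℝ | j ≠ k ∧ Y x j = Y x k} = 0 := by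
  by_cases h : j = k
  · simp [h]
  refine measure_mono_null (t := {x | Y x j = Y x k}) (fun x hx => hx.2)
    (line_null _ (measurableSet_eq_fun (meas_Y j) (meas_Y k)) (Pi.single j 1 - Pi.single k 1)
    fun x => Set.Subsingleton.measure_zero (fun s hs t ht => ?_) _)
  simp only [mem_ofPred_eq, Y_line, if_true, h, Ne.symm h, if_false] at hs ht
  linarith

theorem mk_meas (n : ℕ) : #{N : Set (Fin n → ℝ) | IsClosed N} ≤ 𝔠 := by
  obtain ⟨b, hb, -, hB⟩ := TopologicalSpace.exists_countable_basis (Fin n → ℝ)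
  have h1 : {N : Set (Fin n → ℝ) | IsClosed N} ⊆
      range fun S : Set b => (⋃₀ (Subtype.val '' S))ᶜ := by
    intro N hN
    obtain ⟨S, hS, h⟩ := hB.open_eq_sUnion hN.isOpen_compl
    refine ⟨Subtype.val ⁻¹' S, ?_⟩
    simp only
    rw [image_preimage_eq_of_subset (by simpa using hS), ← h, compl_compl]
  refine (mk_le_mk_of_subset h1).trans (mk_range_le.trans ?_)
  rw [mk_set, ← two_power_aleph0]
  exact power_le_power_left two_ne_zero (le_aleph0_iff_set_countable.2 hb)

theorem star (H : CovNull) : Star := by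
  classical
  intro n hn
  let W := (𝔠 : Cardinal.{0}).ord.ToType
  have hW : #W = 𝔠 := by simp [W]
  have hI : ∀ α : W, #(Iio α) < 𝔠 := fun α => (mk_Iio_lt α (by simp [W])).trans_eq hW
  have hc : ℵ₀ < 𝔠 := aleph0_lt_continuum
  have hIi : ∀ α : W, #(Iic α) < 𝔠 := fun α => by
    rw [← Iio_insert]
    exact mk_insert_le.trans_lt (add_lt_of_lt hc.le (hI α) (one_lt_aleph0.trans hc))
  obtain ⟨e, he⟩ : ∃ e : W → {N : Set (Fin n → ℝ) | IsClosed N}, Surjective e := by
    obtain ⟨f⟩ := (Cardinal.le_def _ _).1 ((mk_meas n).trans hW.ge)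
    have : Nonempty {N : Set (Fin n → ℝ) | IsClosed N} := ⟨⟨∅, isClosed_empty⟩⟩
    exact ⟨invFun f, invFun_surjective f.injective⟩
  obtain ⟨x, hx⟩ := TStar.rec_o (T := W) (σ := Fin (n + 1) → ℝ)
    (fun α p y => (∀ j k, j ≠ k → Y y j ≠ Y y k) ∧ (∀ β j k, Y y j ≠ Y (p β) k) ∧
      ∀ (β : Iio α) s i (ψ : Fin n → (Iio α × Fin (n + 1)) ⊕ Fin (n + 1)),
        y ∉ Bad (e β).1 s i fun k => (ψ k).map (fun z => Y (p z.1) z.2) id) (fun α p _ => by
      let ι := (Fin (n + 1) × Fin (n + 1)) ⊕ (Iio α × Fin (n + 1) × Fin (n + 1)) ⊕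
        (Iio α × Finset (Fin n) × Fin n × (Fin n → (Iio α × Fin (n + 1)) ⊕ Fin (n + 1)))
      let A : ι → Set (Fin (n + 1) → ℝ) := fun z => z.elim
        (fun z => {y | z.1 ≠ z.2 ∧ Y y z.1 = Y y z.2}) fun z => z.elim
        (fun z => {y | Y y z.2.1 = Y (p z.1) z.2.2}) fun z =>
          Bad (e z.1).1 z.2.1 z.2.2.1 fun k => (z.2.2.2 k).map (fun z => Y (p z.1) z.2) id
      have hf : ∀ (T : Type) [Finite T], #T < 𝔠 := fun T _ => (lt_aleph0_of_finite T).trans hc
      have hp : ∀ {S T : Type}, #S < 𝔠 → #T < 𝔠 → #(S × T) < 𝔠 := fun h h' => by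
        simpa using mul_lt_of_lt hc.le h h'
      have hs : ∀ {S T : Type}, #S < 𝔠 → #T < 𝔠 → #(S ⊕ T) < 𝔠 := fun h h' => by
        simpa using add_lt_of_lt hc.le h h'
      have hq : ∀ {S : Type}, #S < 𝔠 → #(Fin n → S) < 𝔠 := fun {S} h => by
        rw [mk_arrow]
        simp only [mk_fin, lift_id]
        rw [power_natCast]
        exact (power_nat_le_max).trans_lt (max_lt h hc)
      have hι : #ι < 𝔠 := hs (hf _) (hs (hp (hI α) (hf _))
        (hp (hI α) (hp (hf _) (hp (hf _) (hq (hs (hp (hI α) (hf _)) (hf _)))))))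
      have h1 := H (n + 1) (range A) (mk_range_le.trans_lt hι) (by
        rintro _ ⟨z | z | z, rfl⟩
        · exact ne_null _ _
        · exact eq_null (by omega) _ _
        · exact bad_null _ (e z.1).2.measurableSet z.2.1 z.2.2.1
            fun k => (z.2.2.2 k).map (fun z => Y (p z.1) z.2) id)
      obtain ⟨y, hy⟩ := (ne_univ_iff_exists_notMem _).1 h1
      refine ⟨y, fun j k h h' => hy ⟨_, ⟨.inl (j, k), rfl⟩, h, h'⟩,
        fun β j k h => hy ⟨_, ⟨.inr (.inl (β, j, k)), rfl⟩, h⟩,
        fun β s i ψ h => hy ⟨_, ⟨.inr (.inr (β, s, i, ψ)), rfl⟩, h⟩⟩)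
  have hdis : ∀ α β, α ≠ β → ∀ j k, Y (x α) j ≠ Y (x β) k := by
    intro α β h j k
    rcases lt_or_gt_of_ne h with h | h
    · exact ((hx β).2.1 ⟨α, h⟩ k j).symm
    · exact (hx α).2.1 ⟨β, h⟩ j k
  refine ⟨range fun z : W × Fin (n + 1) => Y (x z.1) z.2, fun F hF h1 h2 t => ?_, fun h => ?_⟩
  · by_contra hne
    have h0 := anti_null F t (by omega) fun a ha b hb hab h => hne ⟨a, ha, b, hb, hab, h⟩
    obtain ⟨β, hβ⟩ := he ⟨closure F, isClosed_closure⟩
    have hex : ∃ a ∈ F, ∀ i, a i ∉ range fun z : Iic β × Fin (n + 1) => Y (x z.1) z.2 := by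
      by_contra hno
      push Not at hno
      choose I hI' using hno
      choose Z hZ using hI'
      have : #F ≤ #(Iic β × Fin (n + 1)) := mk_le_of_injective
        (f := fun a : F => Z a.1 a.2) fun a b hab => by
          by_contra hne'
          refine h2 a.2 b.2 (fun h => hne' (Subtype.ext h)) (I a a.2) (I b b.2) ?_
          rw [← hZ a.1 a.2, ← hZ b.1 b.2]
          simp only at hab
          rw [hab]
      refine this.not_gt ?_
      rw [hF]
      simpa using mul_lt_of_lt hc.le (hIi β) ((lt_aleph0_of_finite (Fin (n + 1))).trans hc)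
    obtain ⟨a, ha, hab⟩ := hex
    choose Z hZ using (h1 a ha).2
    have hlt : ∀ i, β < (Z i).1 := fun i => by
      by_contra h
      exact hab i ⟨(⟨(Z i).1, not_lt.1 h⟩, (Z i).2), hZ i⟩
    have key : ∀ m, m ≤ n → ∃ s : Finset (Fin n), s.card = m ∧
        (∀ i ∈ s, ∀ k ∉ s, (Z k).1 ≤ (Z i).1) ∧ g (closure F) s a ≠ 0 := by
      intro m
      induction m with
      | zero =>
        intro _
        refine ⟨∅, rfl, by simp, ?_⟩
        simp [g, indicator_of_mem (subset_closure ha)]
      | succ m ih =>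
        intro hm
        obtain ⟨s, hs, h3, h4⟩ := ih (by omega)
        obtain ⟨i, hi, hmax⟩ := Finset.exists_max_image sᶜ (fun k => (Z k).1)
          (Finset.card_pos.1 (by rw [Finset.card_compl, hs]; simp; omega))
        have hi' : i ∉ s := Finset.mem_compl.1 hi
        refine ⟨insert i s, by rw [Finset.card_insert_of_notMem hi', hs], ?_, fun h5 => ?_⟩
        · intro i' hi'' k hk
          rw [Finset.mem_insert, not_or] at hk
          rcases Finset.mem_insert.1 hi'' with rfl | h
          · exact hmax k (Finset.mem_compl.2 hk.2)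
          · exact h3 i' h k hk.2
        · obtain ⟨j', hj'⟩ : ∃ j', j' ∉ Finset.univ.image fun k => (Z k).2 := by
            by_contra h
            push Not at h
            have := (Finset.card_le_card (fun j _ => h j :
              Finset.univ ⊆ Finset.univ.image fun k => (Z k).2)).trans Finset.card_image_le
            simp at this
          let α := (Z i).1
          let ψ : Fin n → (Iio α × Fin (n + 1)) ⊕ Fin (n + 1) := fun k =>
            if h : (Z k).1 < α then .inl (⟨_, h⟩, (Z k).2) else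
              if (Z k).1 = α then .inr (Z k).2 else .inl (⟨β, hlt i⟩, 0)
          have hev : ∀ k ∉ s, ev (fun k => (ψ k).map
              (fun z => Y (x z.1) z.2) id) (x α) k = a k := by
            intro k hk
            rcases (hmax k (Finset.mem_compl.2 hk)).lt_or_eq with h | h
            · simp only [ev, ψ, dif_pos (show (Z k).1 < α from h), Sum.map_inl, Sum.elim_inl, id]
              exact hZ k
            · have h' : (Z k).1 = α := h
              simp only [ev, ψ, h', lt_irrefl, dite_false, if_true, Sum.map_inr, Sum.elim_inr, id]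
              rw [← h']; exact hZ k
          refine (hx α).2.2 ⟨β, hlt i⟩ s i ψ ⟨⟨hi', (Z i).2, j', fun h => hj' ?_, ?_, ?_⟩, ?_, ?_⟩
          · exact Finset.mem_image.2 ⟨i, Finset.mem_univ _, h⟩
          · simp [ψ, α]
          · intro k hk
            by_cases h : (Z k).1 < α
            · simp [ψ, h]
            · by_cases h' : (Z k).1 = α
              · simp only [ψ, h', lt_irrefl, dite_false, if_true, Sum.map_inr, id, ne_eq,
                  Sum.inr.injEq]
                refine ⟨fun h6 => hk ((h1 a ha).1 ?_),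
                  fun h6 => hj' (Finset.mem_image.2 ⟨k, Finset.mem_univ _, h6⟩)⟩
                rw [← hZ k, ← hZ i]
                simp only
                rw [h', h6]
              · simp [ψ, h, h']
          · simp only [hβ]
            unfold g at h4 ⊢
            rwa [lmarginal_congr _ _ hev]
          · simp only [hβ]
            unfold g at h5 ⊢
            rwa [lmarginal_congr _ _ fun k hk => hev k fun h => hk (Finset.mem_insert_of_mem h)]
    obtain ⟨s, hs, -, h3⟩ := key n le_rfl
    obtain rfl : s = Finset.univ := Finset.eq_univ_of_card s (by simpa using hs)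
    refine h3 ?_
    unfold g
    rw [lmarginal_univ]
    simp only
    rw [lintegral_indicator_one isClosed_closure.measurableSet]
    exact h0
  · have hinj : Injective fun α => Y (x α) := fun α β h => by
      by_contra h'
      exact hdis α β h' 0 0 (congrFun h 0)
    obtain ⟨_, ⟨α, rfl⟩, _, ⟨β, rfl⟩, -, h1⟩ := h (range fun α => Y (x α))
      ((mk_range_eq _ hinj).trans hW) (by
        rintro _ ⟨α, rfl⟩
        exact ⟨fun j k h => by_contra fun h' => (hx α).1 j k h' h, fun i => ⟨(α, i), rfl⟩⟩) (by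
        rintro _ ⟨α, rfl⟩ _ ⟨β, rfl⟩ h
        exact hdis α β fun h' => h (by rw [h'])) (fun _ => 0)
    have := Finset.sum_lt_sum_of_nonempty Finset.univ_nonempty fun i _ => (h1 i).1 rfl
    rw [sum_Y, sum_Y] at this
    exact lt_irrefl _ this

end Pool.Agent.H42.EntC1
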