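import Mathlib

namespace Pool.Agent.H42.EntCDefs
open Cardinal MeasureTheory Set

/-- `E` is `(κ, n)`-entangled. -/
def Ent (κ : Cardinal.{0}) (n : ℕ) (E : Set ℝ) : Prop :=
  ∀ F : Set (Fin n → ℝ), #F = κ → (∀ a ∈ F, Function.Injective a ∧ ∀ i, a i ∈ E) →
    (F.Pairwise fun a b => ∀ i j, a i ≠ b j) →
    ∀ t : Fin n → Fin 2, ∃ a ∈ F, ∃ b ∈ F, a ≠ b ∧ ∀ i, (t i = 0 ↔ a i < b i)

/-- The statement `(*)`. -/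
def Star : Prop := ∀ n > 1, ∃ E : Set ℝ, Ent 𝔠 n E ∧ ¬ Ent 𝔠 (n + 1) E

/-- `cov(null) = 𝔠`: no Euclidean space is a union of fewer than `𝔠` Lebesgue null sets. -/
def CovNull : Prop := ∀ (k : ℕ) (𝒩 : Set (Set (Fin k → ℝ))), #𝒩 < 𝔠 →
  (∀ A ∈ 𝒩, volume A = 0) → ⋃₀ 𝒩 ≠ Set.univ

/-- `non(null) < 𝔠`. -/
def NonNullSmall : Prop := ∃ X : Set ℝ, #X < 𝔠 ∧ volume X ≠ 0

/-- `cov(B)`: least size of a family of meager sets covering the real line. -/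
noncomputable def covB : Cardinal.{0} :=
  sInf {c | ∃ 𝒜 : Set (Set ℝ), #𝒜 = c ∧ (∀ A ∈ 𝒜, IsMeagre A) ∧ ⋃₀ 𝒜 = Set.univ}

end Pool.Agent.H42.EntCDefs
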