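import Pool.Agent.H42.OmB

/-! Under `p > ω₁`, `ℝ ^ ω₁` is `F`-separable. -/

open Set Filter Topology Cardinal TopologicalSpace

namespace Pool.Agent.H42.FSep

open Pool.Agent.H42.Dirac Pool.Agent.H42.OmB

/-- The `F`-closure of `A`. -/
def FClosure {Y : Type} [TopologicalSpace Y] (A : Set Y) : Set Y :=
  {y | y ∈ closure A ∧ ∀ A' ⊆ A, y ∈ closure A' →
    ∃ s : ℕ → Y, (∀ n, s n ∈ A') ∧ Tendsto s atTop (𝓝 y)}

/-- `Y` has a countable `F`-dense subset. -/
def FSeparable (Y : Type) [TopologicalSpace Y] : Prop :=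
  ∃ A : Set Y, A.Countable ∧ FClosure A = Set.univ

lemma seqc {Y : Type} [TopologicalSpace Y] (h : PBig) {e : Y → W → ℝ} (he : IsInducing e)
    {S : Set Y} (hS : S.Countable) {x : Y} (hx : x ∈ closure S) :
    ∃ s : ℕ → Y, (∀ n, s n ∈ S) ∧ Tendsto s atTop (𝓝 x) := by
  obtain ⟨s0, rfl⟩ := hS.exists_eq_range (closure_nonempty_iff.1 ⟨x, hx⟩)
  choose V hV using fun i : W => (𝓝 (e x i)).exists_antitone_basis
  let s : ℕ → Y := fun m => s0 m.unpair.1
  let A : W × ℕ → Set ℕ := fun q => {m | e (s m) q.1 ∈ V q.1 q.2}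
  have hfin : ∀ G ⊆ range A, G.Finite → (⋂₀ G).Infinite := by
    intro G hG hf
    have h1 : ∀ᶠ y in 𝓝 x, ∀ F ∈ G, ∀ m, s m = y → m ∈ F := by
      refine (eventually_all_finite hf).2 fun F hF => ?_
      obtain ⟨q, rfl⟩ := hG hF
      filter_upwards [((continuous_apply q.1).comp he.continuous).continuousAt.preimage_mem_nhds
        ((hV q.1).1.mem_of_mem (i := q.2) trivial)] with y hy m hm
      show e (s m) q.1 ∈ V q.1 q.2
      rw [hm]; exact hy
    obtain ⟨y, ⟨k, rfl⟩, hy⟩ := ((mem_closure_iff_frequently.1 hx).and_eventually h1).exists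
    refine infinite_of_injective_forall_mem (f := fun j => Nat.pair k j)
      (fun a b hab => (Nat.pair_eq_pair.1 hab).2) fun j F hF => hy F hF _ (by simp [s])
  obtain ⟨B, hB, hBA⟩ := h (range A) (mk_range_le.trans (by simp)) hfin
  have hne : NeBot (cofinite ⊓ 𝓟 B) := hB.cofinite_inf_principal_neBot
  have ht : Tendsto s (cofinite ⊓ 𝓟 B) (𝓝 x) := by
    rw [he.tendsto_nhds_iff, tendsto_pi_nhds]
    intro i
    rw [(hV i).1.tendsto_right_iff]
    intro n _
    rw [eventually_inf_principal, eventually_cofinite]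
    exact (hBA _ ⟨(i, n), rfl⟩).subset fun m hm => Classical.not_imp.1 hm
  have hcg : (cofinite ⊓ 𝓟 B).IsCountablyGenerated := by
    rw [Nat.cofinite_eq_atTop]; infer_instance
  obtain ⟨u, hu⟩ := (cofinite ⊓ 𝓟 B).exists_seq_tendsto
  exact ⟨s ∘ u, fun n => ⟨_, rfl⟩, ht.comp hu⟩

theorem main (h : PBig) : ∃ (X : Type) (_ : TopologicalSpace X), T35Space X ∧
    FSeparable {f : X → ℝ // Continuous f} ∧ ¬ FrechetUrysohnSpace {f : X → ℝ // Continuous f} := by
  classical
  let : TopologicalSpace W := ⊥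
  have : DiscreteTopology W := ⟨rfl⟩
  let j : (W → ℝ) → {f : W → ℝ // Continuous f} := fun f => ⟨f, continuous_of_discreteTopology⟩
  have hj : Continuous j := continuous_id.subtype_mk _
  refine ⟨W, ⊥, inferInstance, ?_, fun hF => ?_⟩
  · obtain ⟨e⟩ : Nonempty (W ↪ ℝ) := by
      rw [← Cardinal.le_def, W_card, mk_real]; exact aleph_one_le_continuum
    have : SeparableSpace {f : W → ℝ // Continuous f} := by
      refine DenseRange.separableSpace (f := fun g : C(ℝ, ℝ) => j (g ∘ e)) ?_
        (hj.comp (continuous_pi fun y => continuous_eval_const (e y)))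
      refine IsInducing.subtypeVal.dense_iff.2 fun f => mem_closure_iff_nhds.2 fun V hV => ?_
      rw [nhds_pi, Filter.mem_pi'] at hV
      obtain ⟨I, v, hv, hI⟩ := hV
      have hI' := (I.finite_toSet.image e)
      have := hI'.to_subtype
      have : Nonempty W := (Cardinal.infinite_iff.2 (W_card ▸ aleph0_le_aleph 1)).nonempty
      obtain ⟨g, hg⟩ := ContinuousMap.exists_restrict_eq hI'.isClosed
        ⟨fun z => f.1 (Function.invFun e z), continuous_of_discreteTopology⟩
      refine ⟨g ∘ e, hI fun y hy => ?_, _, ⟨g, rfl⟩, rfl⟩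
      have := DFunLike.congr_fun hg ⟨e y, y, hy, rfl⟩
      simp only [ContinuousMap.restrict_apply, ContinuousMap.coe_mk,
        Function.leftInverse_invFun e.injective y] at this
      exact (show (g ∘ e) y = f.1 y from this) ▸ mem_of_mem_nhds (hv y)
    obtain ⟨A, hA, hd⟩ := exists_countable_dense {f : W → ℝ // Continuous f}
    exact ⟨A, hA, eq_univ_of_forall fun y => ⟨hd y, fun A' h' hy =>
      seqc h IsInducing.subtypeVal (hA.mono h') hy⟩⟩
  · let d : W → W → ℝ := fun α i => if i < α then 0 else 1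
    have : Nonempty W := (Cardinal.infinite_iff.2 (W_card ▸ aleph0_le_aleph 1)).nonempty
    have ht : Tendsto (j ∘ d) atTop (𝓝 (j 0)) := (hj.tendsto 0).comp (tendsto_pi_nhds.2 fun i => by
      obtain ⟨b, hb⟩ := bdd {i} (countable_singleton i)
      exact tendsto_const_nhds.congr' ((eventually_ge_atTop b).mono fun α hα =>
        (if_pos ((hb i rfl).trans_le hα)).symm))
    obtain ⟨s, hs, hs'⟩ := hF.1 _ (mem_closure_of_tendsto ht
      (Eventually.of_forall fun α => mem_range_self (f := j ∘ d) α))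
    choose a ha using hs
    obtain ⟨b, hb⟩ := bdd _ (countable_range a)
    have h1 := ((continuous_apply b).comp continuous_subtype_val).tendsto _ |>.comp hs'
    have h2 : ∀ n, (s n).1 b = 1 := fun n => by
      rw [← ha n]; exact if_neg (hb _ ⟨n, rfl⟩).not_gt
    exact one_ne_zero (tendsto_nhds_unique (tendsto_const_nhds.congr fun n => (h2 n).symm) h1)

end Pool.Agent.H42.FSep
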