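import Pool.Agent.H42.FanDefs
import Pool.Agent.H42.TStar

/-! The sequential fan with uncountably many spines. -/

open Set Filter Topology TopologicalSpace

namespace Pool.Agent.H42.Fan

open Pool.Agent.H42.FanDefs

def X : Type := Option (ℝ × ℕ)

def o : X := none
def pt (p : ℝ × ℕ) : X := some p

lemma pt_inj : Function.Injective pt := Option.some_injective _
lemma pt_ne (p : ℝ × ℕ) : pt p ≠ o := Option.some_ne_none p
lemma cases (x : X) : x = o ∨ ∃ p, x = pt p := by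
  rcases x with _ | p
  exacts [Or.inl rfl, Or.inr ⟨p, rfl⟩]

instance : TopologicalSpace X where
  IsOpen U := o ∈ U → ∀ α, ∀ᶠ n in atTop, pt (α, n) ∈ U
  isOpen_univ := fun _ _ => Eventually.of_forall fun _ => trivial
  isOpen_inter := fun _ _ h1 h2 h α => (h1 h.1 α).and (h2 h.2 α)
  isOpen_sUnion := fun _ h ⟨t, ht, h0⟩ α => (h t ht h0 α).mono fun _ hn => ⟨t, ht, hn⟩

lemma op {U : Set X} : IsOpen U ↔ (o ∈ U → ∀ α, ∀ᶠ n in atTop, pt (α, n) ∈ U) := Iff.rfl

lemma op1 {U : Set X} (h : o ∉ U) : IsOpen U := fun h' => absurd h' h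

lemma opD {D : Set X} (h : ∀ α, {n | pt (α, n) ∈ D}.Finite) : IsOpen Dᶜ := fun _ α => by
  rw [← Nat.cofinite_eq_atTop]; exact (h α).compl_mem_cofinite

instance : T1Space X := ⟨fun _ => ⟨opD fun _ => Set.Subsingleton.finite fun _ ha _ hb =>
  (Prod.ext_iff.1 (pt_inj (ha.trans hb.symm))).2⟩⟩

instance : RegularSpace X := .of_exists_mem_nhds_isClosed_subset fun x s hs => by
  rcases cases x with rfl | ⟨p, rfl⟩
  · exact ⟨interior s, interior_mem_nhds.2 hs, ⟨op1 fun h => h (mem_interior_iff_mem_nhds.2 hs)⟩,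
      interior_subset⟩
  · exact ⟨{pt p}, (op1 (pt_ne p).symm).mem_nhds rfl, isClosed_singleton,
      singleton_subset_iff.2 (mem_of_mem_nhds hs)⟩

instance : T3Space X := {}

lemma cpt {Y : Type} [TopologicalSpace Y] (S : SX Y) : IsCompact S.1 := by
  obtain ⟨-, -, F, hF, h, hS⟩ := S.2
  rw [hS]
  refine hF.isCompact_sUnion fun C hC => ?_
  obtain ⟨x, a, hx, rfl⟩ := h C hC
  exact hx.isCompact_insert_range

instance : T3Space (SX X) := by
  have : IsEmbedding fun S : SX X => (⟨S.1, cpt S⟩ : Compacts X) :=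
    letI := TopologicalSpace.vietoris X
    Compacts.isEmbedding_coe.of_comp_iff.1 ⟨⟨rfl⟩, Subtype.val_injective⟩
  have : T3Space (Compacts X) := {}
  exact ‹IsEmbedding _›.t3Space

lemma fin {K : Set X} (hK : IsCompact K) (h : o ∉ K) : K.Finite := by
  obtain ⟨t, -, ht⟩ := hK.elim_nhds_subcover (fun x => {x}) fun x hx =>
    (op1 fun h' => h ((mem_singleton_iff.1 h').symm ▸ hx)).mem_nhds rfl
  refine t.finite_toSet.subset fun x hx => ?_
  obtain ⟨y, hy, rfl⟩ := mem_iUnion₂.1 (ht hx)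
  exact hy

lemma supp_fin {K : Set X} (hK : IsCompact K) : {α | ∃ n, pt (α, n) ∈ K}.Finite := by
  choose! g hg using fun α (h : ∃ n, pt (α, n) ∈ K) => h
  let D := (fun α => pt (α, g α)) '' {α | ∃ n, pt (α, n) ∈ K}
  have hD : IsClosed D := ⟨opD fun α => (finite_singleton (g α)).subset (by
    rintro n ⟨β, -, h⟩
    obtain ⟨rfl, rfl⟩ := Prod.ext_iff.1 (pt_inj h)
    rfl)⟩
  have hc := hK.of_isClosed_subset hD (by rintro _ ⟨α, hα, rfl⟩; exact hg α hα)
  exact Finite.of_finite_image (fin hc fun ⟨_, _, h⟩ => pt_ne _ h)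
    fun a _ b _ h => (Prod.ext_iff.1 (pt_inj h)).1

def N (T : Set (ℝ × ℕ)) (b : Prop) (m : ℕ) : Set (Set X) :=
  {L | (∀ p, p.2 ≤ m → (pt p ∈ L ↔ p ∈ T)) ∧ (∀ p, pt p ∈ L → ∃ n, (p.1, n) ∈ T) ∧
    (b → o ∈ L) ∧ (¬ b → L ⊆ pt '' T)}

lemma sigma : SigmaSpace (SX X) := by
  let := TopologicalSpace.vietoris X
  let Q : ℕ → Set (Set (SX X)) := fun m =>
    {P | ∃ T b, (∀ p ∈ T, p.2 ≤ m) ∧ P = Subtype.val ⁻¹' N T b m}
  refine ⟨inferInstance, _, ⟨Q, fun m K => ?_, rfl⟩, fun K U hU hKU => ?_⟩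
  · let D := pt '' {p | p.2 ≤ m ∧ ¬ ∃ n, pt (p.1, n) ∈ K.1}
    have hD : IsOpen Dᶜ := opD fun α => (finite_Iic m).subset (by
      rintro n ⟨p, hp, h⟩
      obtain rfl := pt_inj h
      exact hp.1)
    refine ⟨_, (isOpen_induced hD.powerset_vietoris).mem_nhds (fun x hx => ?_), ?_⟩
    · rintro ⟨p, hp, rfl⟩
      exact hp.2 ⟨_, hx⟩
    refine Finite.of_finite_image ?_ Subtype.val_injective.injOn
    refine (((((supp_fin (cpt K)).prod (finite_Iic m)).powerset.prod (finite_univ (α := Prop))).image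
      fun q => (Subtype.val ⁻¹' N q.1 q.2 m : Set (SX X)))).subset ?_
    rintro _ ⟨⟨_, T, b, hT, rfl⟩, ⟨L, hL, hLD⟩, rfl⟩
    refine ⟨(T, b), ⟨fun p hp => ⟨by_contra fun h => ?_, hT p hp⟩, trivial⟩, rfl⟩
    exact hLD ((hL.1 p (hT p hp)).2 hp) ⟨p, ⟨hT p hp, h⟩, rfl⟩
  let T : ℕ → Set (ℝ × ℕ) := fun m => {p | p.2 ≤ m ∧ pt p ∈ K.1}
  have h1 : ∀ᶠ m in atTop, K.1 ∈ N (T m) (o ∈ K.1) m := by
    have ha : ∀ᶠ m in atTop, ∀ α ∈ {α | ∃ n, pt (α, n) ∈ K.1}, ∃ n, (α, n) ∈ T m :=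
      (eventually_all_finite (supp_fin (cpt K))).2 fun α ⟨n, hn⟩ =>
        (eventually_ge_atTop n).mono fun m hm => ⟨n, hm, hn⟩
    have hb : ∀ᶠ m in atTop, o ∉ K.1 → K.1 ⊆ pt '' T m := by
      by_cases h : o ∈ K.1
      · exact Eventually.of_forall fun _ h' => absurd h h'
      have hf := fin (cpt K) h
      refine ((eventually_all_finite hf).2 fun x hx => ?_).mono fun m hm _ => hm
      rcases cases x with rfl | ⟨p, rfl⟩
      · exact absurd hx h
      · exact (eventually_ge_atTop p.2).mono fun m hm => ⟨p, ⟨hm, hx⟩, rfl⟩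
    filter_upwards [ha, hb] with m a b
    exact ⟨fun p hp => ⟨fun h => ⟨hp, h⟩, fun h => h.2⟩, fun p hp => a _ ⟨_, hp⟩, id, b⟩
  have h2 : ∀ V : Set (Set X), IsOpen V → K.1 ∈ V → ∀ᶠ m in atTop, N (T m) (o ∈ K.1) m ⊆ V := by
    intro V hV
    induction hV with
    | basic V hV =>
      rcases hV with ⟨V, hV, rfl⟩ | ⟨V, -, rfl⟩
      · intro hK
        by_cases h : o ∈ K.1
        · have : ∀ᶠ m in atTop, ∀ α ∈ {α | ∃ n, pt (α, n) ∈ K.1}, ∀ n, m ≤ n → pt (α, n) ∈ V :=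
            (eventually_all_finite (supp_fin (cpt K))).2 fun α _ =>
              eventually_forall_ge_atTop.2 (hV (hK h) α)
          filter_upwards [this] with m hm L hL x hx
          rcases cases x with rfl | ⟨p, rfl⟩
          · exact hK h
          rcases le_total p.2 m with h' | h'
          · exact hK ((hL.1 p h').1 hx).2
          · obtain ⟨n, hn⟩ := hL.2.1 p hx
            exact hm _ ⟨n, hn.2⟩ _ h'
        · refine Eventually.of_forall fun m L hL x hx => ?_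
          obtain ⟨p, hp, rfl⟩ := hL.2.2.2 h hx
          exact hK hp.2
      · rintro ⟨x, hx, hxV⟩
        rcases cases x with rfl | ⟨p, rfl⟩
        · exact Eventually.of_forall fun m L hL => ⟨o, hL.2.2.1 hx, hxV⟩
        · exact (eventually_ge_atTop p.2).mono fun m hm L hL => ⟨_, (hL.1 p hm).2 ⟨hm, hx⟩, hxV⟩
    | univ => exact fun _ => Eventually.of_forall fun _ => subset_univ _
    | inter s t _ _ a b => exact fun h => ((a h.1).and (b h.2)).mono fun m hm => subset_inter hm.1 hm.2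
    | sUnion S _ a => exact fun ⟨t, ht, h⟩ => (a t ht h).mono fun m hm => subset_sUnion_of_subset _ t hm ht
  obtain ⟨V, hV, rfl⟩ := isOpen_induced_iff.1 hU
  obtain ⟨m, a, b⟩ := (h1.and (h2 V hV hKU)).exists
  exact ⟨_, mem_iUnion.2 ⟨m, T m, _, fun p hp => hp.1, rfl⟩, a, preimage_mono b⟩

lemma not_aleph : ¬ AlephSpace (SX X) := by
  classical
  let := TopologicalSpace.vietoris X
  rintro ⟨-, _, ⟨Q, hQ, rfl⟩, hk⟩
  let s : X → SX X := fun x => ⟨{x}, singleton_nonempty x, isClosed_singleton, {{x}},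
    finite_singleton _, by rintro _ rfl; exact ⟨fun _ => x, x, tendsto_const_nhds, by simp⟩, by simp⟩
  have hs : Continuous s := continuous_induced_rng.2
    (Compacts.continuous_coe.comp Compacts.continuous_singleton)
  choose O hO hf using fun n => hQ n (s o)
  have hC : (⋃ n, Subtype.val '' {P : Q n | (P.1 ∩ O n).Nonempty}).Countable :=
    countable_iUnion fun n => ((hf n).image _).countable
  obtain ⟨P, hP⟩ := (hC.insert ∅).exists_eq_range (insert_nonempty _ _)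
  let F : ℕ → Set ℝ := fun k => {α | ∃ n, s (pt (α, n)) ∈ P k}
  obtain ⟨a, ha⟩ := TStar.rec_o (T := ℕ) (σ := ℝ)
    (fun k g a => ((F k).Infinite → a ∈ F k) ∧ ∀ j, g j ≠ a) fun k g _ => by
      by_cases h : (F k).Infinite
      · obtain ⟨a, h1, h2⟩ := h.exists_notMem_finite (finite_range g)
        exact ⟨a, fun _ => h1, fun j hj => h2 ⟨j, hj⟩⟩
      · obtain ⟨a, -, h2⟩ := infinite_univ.exists_notMem_finite (finite_range g)
        exact ⟨a, fun h' => absurd h' h, fun j hj => h2 ⟨j, hj⟩⟩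
  have hai : Function.Injective a := fun i j h => by
    rcases lt_trichotomy i j with h' | h' | h'
    exacts [absurd h ((ha j).2 ⟨i, h'⟩), h', absurd h.symm ((ha i).2 ⟨j, h'⟩)]
  choose! g hg using fun k (h : (F k).Infinite) => (ha k).1 h
  obtain ⟨α, hα⟩ : ∃ α, α ∉ range a ∪ ⋃ k ∈ {k | (F k).Finite}, F k := by
    by_contra h
    push Not at h
    exact not_countable_univ (((countable_range a).union
      ((to_countable _).biUnion fun k hk => hk.countable)).mono fun x _ => h x)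
  let D := range fun k => pt (a k, g k)
  have hD : IsOpen Dᶜ := opD fun β => Set.Subsingleton.finite (by
    rintro m ⟨i, hi⟩ n ⟨j, hj⟩
    obtain ⟨h1, rfl⟩ := Prod.ext_iff.1 (pt_inj hi)
    obtain ⟨h2, rfl⟩ := Prod.ext_iff.1 (pt_inj hj)
    exact congrArg g (hai (h1.trans h2.symm)))
  have ht : Tendsto (fun n => pt (α, n)) atTop (𝓝 o) := fun V hV => by
    obtain ⟨W, h1, h2, h3⟩ := mem_nhds_iff.1 hV
    exact (h2 h3 α).mono fun n hn => h1 hn
  obtain ⟨R, hR, hRf, hK, hU⟩ := hk _ _ (ht.isCompact_insert_range.image hs)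
    (isOpen_induced hD.powerset_vietoris) (by
      rintro _ ⟨x, hx, rfl⟩ _ rfl ⟨k, hk⟩
      rcases hx with rfl | ⟨n, rfl⟩
      · exact pt_ne _ hk
      · exact hα (Or.inl ⟨k, (Prod.ext_iff.1 (pt_inj hk)).1⟩))
  obtain ⟨A, hA, hfr⟩ : ∃ A ∈ R, ∃ᶠ n in atTop, s (pt (α, n)) ∈ A := by
    by_contra h
    push Not at h
    obtain ⟨n, hn⟩ := ((eventually_all_finite hRf).2 h).exists
    obtain ⟨A, h1, h2⟩ := hK ⟨_, Or.inr ⟨n, rfl⟩, rfl⟩
    exact hn A h1 h2
  obtain ⟨m, hm⟩ := mem_iUnion.1 (hR hA)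
  obtain ⟨n, h1, h2⟩ := (hfr.and_eventually ((hs.tendsto o).comp ht (hO m))).exists
  obtain ⟨k, rfl⟩ : A ∈ range P :=
    hP ▸ Or.inr (mem_iUnion.2 ⟨m, ⟨A, hm⟩, ⟨_, h1, h2⟩, rfl⟩)
  by_cases h : (F k).Finite
  · exact hα (Or.inr (mem_iUnion₂.2 ⟨k, h, n, h1⟩))
  · exact hU ⟨_, hA, hg k h⟩ rfl ⟨k, rfl⟩

end Pool.Agent.H42.Fan
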