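import Mathlib

/-! Definitions: the hyperspace of finite unions of convergent sequences, `σ`- and `ℵ`-spaces. -/

open Set Filter Topology

namespace Pool.Agent.H42.FanDefs

/-- A convergent sequence together with its limit. -/
def IsConvSeq {X : Type} [TopologicalSpace X] (C : Set X) : Prop :=
  ∃ (x : ℕ → X) (a : X), Tendsto x atTop (𝓝 a) ∧ C = insert a (range x)

/-- Nonempty closed sets that are unions of finitely many convergent sequences. -/
def SX (X : Type) [TopologicalSpace X] : Type :=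
  {S : Set X // S.Nonempty ∧ IsClosed S ∧
    ∃ 𝓕 : Set (Set X), 𝓕.Finite ∧ (∀ C ∈ 𝓕, IsConvSeq C) ∧ S = ⋃₀ 𝓕}

/-- The Vietoris topology. -/
instance (X : Type) [TopologicalSpace X] : TopologicalSpace (SX X) :=
  TopologicalSpace.induced Subtype.val (TopologicalSpace.vietoris X)

/-- A countable union of locally finite families. -/
def SigmaLF {Y : Type} [TopologicalSpace Y] (𝒜 : Set (Set Y)) : Prop :=
  ∃ Q : ℕ → Set (Set Y), (∀ n, LocallyFinite fun P : Q n => P.1) ∧ 𝒜 = ⋃ n, Q n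

/-- A network. -/
def IsNetwork {Y : Type} [TopologicalSpace Y] (𝒜 : Set (Set Y)) : Prop :=
  ∀ (y : Y) (U : Set Y), IsOpen U → y ∈ U → ∃ P ∈ 𝒜, y ∈ P ∧ P ⊆ U

/-- A `k`-network. -/
def IsKNetwork {Y : Type} [TopologicalSpace Y] (𝒜 : Set (Set Y)) : Prop :=
  ∀ K U : Set Y, IsCompact K → IsOpen U → K ⊆ U →
    ∃ 𝒬 ⊆ 𝒜, 𝒬.Finite ∧ K ⊆ ⋃₀ 𝒬 ∧ ⋃₀ 𝒬 ⊆ U

/-- A regular Hausdorff space with a `σ`-locally finite network. -/
def SigmaSpace (Y : Type) [TopologicalSpace Y] : Prop :=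
  T3Space Y ∧ ∃ 𝒜 : Set (Set Y), SigmaLF 𝒜 ∧ IsNetwork 𝒜

/-- A regular Hausdorff space with a `σ`-locally finite `k`-network. -/
def AlephSpace (Y : Type) [TopologicalSpace Y] : Prop :=
  T3Space Y ∧ ∃ 𝒜 : Set (Set Y), SigmaLF 𝒜 ∧ IsKNetwork 𝒜

end Pool.Agent.H42.FanDefs
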