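import Pool.Agent.H42.ZFDefs

/-! A forcing framework: names over a preorder, two-valued quotients by ultrafilters that
contain all dense lower sets, and the axioms of ZFC in these quotients. -/

namespace Pool.Agent.H42.ZF

open Set

inductive Nm (P : Type) : Type 1
  | mk (ι : Type) (A : ι → Nm P) (b : ι → P) : Nm P

variable {P : Type}

def Nm.ι : Nm P → Type
  | .mk ι _ _ => ι

def Nm.A : (x : Nm P) → x.ι → Nm P
  | .mk _ A _ => A

def Nm.b : (x : Nm P) → x.ι → P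
  | .mk _ _ b => b

variable [Preorder P]

def eqF : Nm P → Nm P → P → Prop
  | .mk _ A b, .mk _ C d => fun p =>
    (∀ i q, q ≤ p → q ≤ b i → ∃ r ≤ q, ∃ j, r ≤ d j ∧ eqF (A i) (C j) r) ∧
    (∀ j q, q ≤ p → q ≤ d j → ∃ r ≤ q, ∃ i, r ≤ b i ∧ eqF (A i) (C j) r)

theorem eqF_iff (x y : Nm P) (p : P) : eqF x y p ↔
    (∀ i q, q ≤ p → q ≤ x.b i → ∃ r ≤ q, ∃ j, r ≤ y.b j ∧ eqF (x.A i) (y.A j) r) ∧
    (∀ j q, q ≤ p → q ≤ y.b j → ∃ r ≤ q, ∃ i, r ≤ x.b i ∧ eqF (x.A i) (y.A j) r) := by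
  cases x; cases y; rfl

theorem eqF_mono {x y : Nm P} {p q : P} (h : eqF x y p) (hq : q ≤ p) : eqF x y q := by
  rw [eqF_iff] at h ⊢
  exact ⟨fun i r hr => h.1 i r (hr.trans hq), fun i r hr => h.2 i r (hr.trans hq)⟩

theorem eqF_reg {x y : Nm P} {p : P} (h : ∀ q ≤ p, ∃ r ≤ q, eqF x y r) : eqF x y p := by
  rw [eqF_iff]
  constructor
  · intro i q hq hb
    obtain ⟨r, hr, h'⟩ := h q hq
    obtain ⟨s, hs, h''⟩ := ((eqF_iff _ _ _).1 h').1 i r le_rfl (hr.trans hb)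
    exact ⟨s, hs.trans hr, h''⟩
  · intro i q hq hb
    obtain ⟨r, hr, h'⟩ := h q hq
    obtain ⟨s, hs, h''⟩ := ((eqF_iff _ _ _).1 h').2 i r le_rfl (hr.trans hb)
    exact ⟨s, hs.trans hr, h''⟩

theorem eqF_refl (x : Nm P) (p : P) : eqF x x p := by
  induction x generalizing p with
  | mk ι A b ih =>
    exact ⟨fun i q _ hb => ⟨q, le_rfl, i, hb, ih i q⟩, fun i q _ hb => ⟨q, le_rfl, i, hb, ih i q⟩⟩

theorem eqF_symm {x y : Nm P} {p : P} (h : eqF x y p) : eqF y x p := by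
  induction x generalizing y p with
  | mk ι A b ih =>
    cases y with
    | mk κ C d =>
      refine ⟨fun j q hq hb => ?_, fun i q hq hb => ?_⟩
      · obtain ⟨r, hr, i, h1, h2⟩ := h.2 j q hq hb
        exact ⟨r, hr, i, h1, ih i h2⟩
      · obtain ⟨r, hr, j, h1, h2⟩ := h.1 i q hq hb
        exact ⟨r, hr, j, h1, ih i h2⟩

theorem eqF_trans {x y z : Nm P} {p : P} (h : eqF x y p) (h' : eqF y z p) : eqF x z p := by
  induction x generalizing y z p with
  | mk ι A b ih =>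
    cases y with
    | mk κ C d =>
      cases z with
      | mk μ D e =>
        refine ⟨fun i q hq hb => ?_, fun k q hq hb => ?_⟩
        · obtain ⟨r, hr, j, h1, h2⟩ := h.1 i q hq hb
          obtain ⟨s, hs, k, h3, h4⟩ := h'.1 j r (hr.trans hq) h1
          exact ⟨s, hs.trans hr, k, h3, ih i (eqF_mono h2 hs) h4⟩
        · obtain ⟨r, hr, j, h1, h2⟩ := h'.2 k q hq hb
          obtain ⟨s, hs, i, h3, h4⟩ := h.2 j r (hr.trans hq) h1
          exact ⟨s, hs.trans hr, i, h3, ih i h4 (eqF_mono h2 hs)⟩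

def memF (x y : Nm P) (p : P) : Prop := ∀ q ≤ p, ∃ r ≤ q, ∃ j, r ≤ y.b j ∧ eqF x (y.A j) r

theorem memF_congr {x x' y y' : Nm P} {p : P} (h : memF x y p) (h1 : eqF x x' p)
    (h2 : eqF y y' p) : memF x' y' p := by
  intro q hq
  obtain ⟨r, hr, j, h3, h4⟩ := h q hq
  obtain ⟨s, hs, k, h5, h6⟩ := ((eqF_iff _ _ _).1 h2).1 j r (hr.trans hq) h3
  exact ⟨s, hs.trans hr, k, h5, eqF_trans (eqF_symm (eqF_mono h1 (hs.trans (hr.trans hq))))
    (eqF_trans (eqF_mono h4 hs) h6)⟩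

/-- Ultrafilters on the set of conditions that contain every dense lower set. -/
structure Ult (P : Type) [Preorder P] where
  U : Ultrafilter P
  dense : ∀ D : Set P, IsLowerSet D → (∀ p, ∃ q ≤ p, q ∈ D) → D ∈ U

theorem ex_ult (p : P) : ∃ U : Ult P, Iic p ∈ U.U := by
  let F : Filter P :=
    { sets := {S | ∃ D : Set P, IsLowerSet D ∧ (∀ p, ∃ q ≤ p, q ∈ D) ∧ D ∩ Iic p ⊆ S}
      univ_sets := ⟨univ, isLowerSet_univ, fun p => ⟨p, le_rfl, trivial⟩, subset_univ _⟩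
      sets_of_superset := fun ⟨D, h1, h2, h3⟩ h => ⟨D, h1, h2, h3.trans h⟩
      inter_sets := fun ⟨D, h1, h2, h3⟩ ⟨D', h1', h2', h3'⟩ => ⟨D ∩ D', h1.inter h1', fun q => by
        obtain ⟨r, hr, hD⟩ := h2 q
        obtain ⟨s, hs, hD'⟩ := h2' r
        exact ⟨s, hs.trans hr, h1 hs hD, hD'⟩,
        fun x hx => ⟨h3 ⟨hx.1.1, hx.2⟩, h3' ⟨hx.1.2, hx.2⟩⟩⟩ }
  have hF : F.NeBot := by
    rw [← Filter.forall_mem_nonempty_iff_neBot]
    rintro S ⟨D, -, h2, h3⟩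
    obtain ⟨q, hq, hD⟩ := h2 p
    exact ⟨q, h3 ⟨hD, hq⟩⟩
  refine ⟨⟨Ultrafilter.of F, fun D h1 h2 => Ultrafilter.of_le F ⟨D, h1, h2, inter_subset_left⟩⟩,
    Ultrafilter.of_le F ⟨univ, isLowerSet_univ, fun p => ⟨p, le_rfl, trivial⟩, inter_subset_right⟩⟩

/-- `p` forces `Q`. -/
def Frc (p : P) (Q : Ult P → Prop) : Prop := ∀ U : Ult P, Iic p ∈ U.U → Q U

/-- `Q` has a truth value. -/
def Cl (Q : Ult P → Prop) : Prop := ∀ U, Q U ↔ {p | Frc p Q} ∈ U.U

theorem Frc.mono {p q : P} {Q : Ult P → Prop} (h : Frc p Q) (hq : q ≤ p) : Frc q Q :=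
  fun U hU => h U (Filter.mem_of_superset hU (Iic_subset_Iic.2 hq))

theorem Frc.imp {p : P} {Q R : Ult P → Prop} (h : Frc p Q) (h' : ∀ U, Q U → R U) : Frc p R :=
  fun U hU => h' U (h U hU)

theorem Frc.ex {p : P} {Q : Ult P → Prop} (h : Frc p Q) : ∃ U, Iic p ∈ U.U ∧ Q U := by
  obtain ⟨U, hU⟩ := ex_ult p
  exact ⟨U, hU, h U hU⟩

theorem Ult.or_neg (U : Ult P) {S : Set P} (hS : IsLowerSet S) :
    S ∪ {q | ∀ r ≤ q, r ∉ S} ∈ U.U := by
  refine U.dense _ (hS.union fun a b hab h r hr => h r (hr.trans hab)) fun p => ?_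
  by_cases h : ∃ r ≤ p, r ∈ S
  · obtain ⟨r, hr, h⟩ := h; exact ⟨r, hr, Or.inl h⟩
  · exact ⟨p, le_rfl, Or.inr fun r hr h' => h ⟨r, hr, h'⟩⟩

/-- A set dense below the members of a set in `U` is in `U`. -/
theorem Ult.of_dense (U : Ult P) {S T : Set P} (hS : IsLowerSet S) (hT : T ∈ U.U)
    (h : ∀ p ∈ T, ∃ q ≤ p, q ∈ S) : S ∈ U.U := by
  filter_upwards [U.or_neg hS, hT] with p h1 h2
  rcases h1 with h1 | h1
  · exact h1
  · obtain ⟨q, hq, h3⟩ := h p h2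
    exact absurd h3 (h1 q hq)

theorem frc_iff {Q : Ult P → Prop} {S : Set P} (hS : IsLowerSet S) (h : ∀ U, Q U ↔ S ∈ U.U)
    (p : P) : Frc p Q ↔ ∀ q ≤ p, ∃ r ≤ q, r ∈ S := by
  constructor
  · intro hp q hq
    obtain ⟨U, hU, hQ⟩ := (hp.mono hq).ex
    obtain ⟨r, h1, h2⟩ := Filter.nonempty_of_mem (Filter.inter_mem hU ((h U).1 hQ))
    exact ⟨r, h1, h2⟩
  · intro hp U hU
    exact (h U).2 (U.of_dense hS hU hp)

theorem lower_frc (Q : Ult P → Prop) : IsLowerSet {p | Frc p Q} := fun _ _ hab h => h.mono hab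

theorem cl_of_set {Q : Ult P → Prop} {S : Set P} (hS : IsLowerSet S) (h : ∀ U, Q U ↔ S ∈ U.U) :
    Cl Q := by
  intro U
  rw [h]
  constructor
  · intro h'
    filter_upwards [h'] with p hp
    exact (frc_iff hS h p).2 fun q hq => ⟨q, le_rfl, hS hq hp⟩
  · intro h'
    exact U.of_dense hS h' fun p hp => (frc_iff hS h p).1 hp p le_rfl

theorem cl_set {S : Set P} (hS : IsLowerSet S) : Cl (fun U : Ult P => S ∈ U.U) :=
  cl_of_set hS fun _ => Iff.rfl

theorem Cl.dense {Q : Ult P → Prop} (h : Cl Q) {p : P} (hp : ∀ q ≤ p, ∃ r ≤ q, Frc r Q) :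
    Frc p Q := (frc_iff (lower_frc Q) h p).2 hp

theorem Cl.all {Q : Ult P → Prop} (h : Cl Q) (hp : ∀ q, ∃ r ≤ q, Frc r Q) (U : Ult P) : Q U :=
  (h U).2 (U.dense _ (lower_frc Q) hp)

theorem cl_not {Q : Ult P → Prop} (h : Cl Q) : Cl (fun U => ¬ Q U) := by
  refine cl_of_set (S := {q | ∀ r ≤ q, ¬ Frc r Q}) (fun a b hab h r hr => h r (hr.trans hab))
    fun U => ?_
  rw [h]
  constructor
  · intro h'
    exact (Ultrafilter.union_mem_iff.1 (U.or_neg (lower_frc Q))).resolve_left h'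
  · intro h1 h2
    obtain ⟨r, h3, h4⟩ := Filter.nonempty_of_mem (Filter.inter_mem h1 h2)
    exact h3 r le_rfl h4

theorem Cl.decide {Q : Ult P → Prop} (h : Cl Q) {p : P} (hp : ¬ Frc p Q) :
    ∃ q ≤ p, Frc q (fun U => ¬ Q U) := by
  by_contra hc
  refine hp fun U hU => ?_
  by_contra hQ
  obtain ⟨r, h3, h4⟩ := Filter.nonempty_of_mem (Filter.inter_mem hU ((cl_not h U).1 hQ))
  exact hc ⟨r, h3, h4⟩

/-- If `Q` holds in `U`, some condition below `p` forces it. -/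
theorem Cl.ex {Q : Ult P → Prop} (h : Cl Q) {p : P} {U : Ult P} (hU : Iic p ∈ U.U) (hQ : Q U) :
    ∃ q ≤ p, Frc q Q := by
  obtain ⟨r, h3, h4⟩ := Filter.nonempty_of_mem (Filter.inter_mem hU ((h U).1 hQ))
  exact ⟨r, h3, h4⟩

theorem cl_and {Q R : Ult P → Prop} (h : Cl Q) (h' : Cl R) : Cl (fun U => Q U ∧ R U) :=
  cl_of_set ((lower_frc Q).inter (lower_frc R)) fun U => by
    rw [h U, h' U]; exact Filter.inter_mem_iff.symm

theorem Cl.congr {Q R : Ult P → Prop} (h : Cl Q) (h' : ∀ U, R U ↔ Q U) : Cl R := by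
  have : R = Q := funext fun U => propext (h' U)
  rwa [this]

theorem cl_imp {Q R : Ult P → Prop} (h : Cl Q) (h' : Cl R) : Cl (fun U => Q U → R U) :=
  (cl_not (cl_and h (cl_not h'))).congr fun U => by tauto

theorem cl_or {Q R : Ult P → Prop} (h : Cl Q) (h' : Cl R) : Cl (fun U => Q U ∨ R U) :=
  (cl_imp (cl_not h) h').congr fun U => by tauto

theorem cl_iff {Q R : Ult P → Prop} (h : Cl Q) (h' : Cl R) : Cl (fun U => Q U ↔ R U) :=
  (cl_and (cl_imp h h') (cl_imp h' h)).congr fun U => by tauto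

theorem cl_const (a : Prop) : Cl (fun _ : Ult P => a) := by
  by_cases h : a
  · exact cl_of_set isLowerSet_univ fun U => iff_of_true h Filter.univ_mem
  · exact cl_of_set isLowerSet_empty fun U => by simp [h]

theorem cl_fin {ι : Type} [Finite ι] {Q : ι → Ult P → Prop} (h : ∀ i, Cl (Q i)) :
    Cl (fun U => ∀ i, Q i U) :=
  cl_of_set (isLowerSet_iInter fun i => lower_frc (Q i)) fun U => by
    rw [← Ultrafilter.mem_coe, Filter.iInter_mem]; exact forall_congr' fun i => h i U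

/-- To prove `Q` it suffices to refute every condition forcing its negation. -/
theorem Cl.by_contra {Q : Ult P → Prop} (h : Cl Q) (hp : ∀ p, ¬ Frc p (fun U => ¬ Q U))
    (U : Ult P) : Q U := by
  refine h.all (fun q => ⟨q, le_rfl, ?_⟩) U
  by_contra hc
  obtain ⟨r, -, hr⟩ := h.decide hc
  exact hp r hr

def Ult.setoid (U : Ult P) : Setoid (Nm P) where
  r x y := {p | eqF x y p} ∈ U.U
  iseqv := ⟨fun x => Filter.univ_mem' (eqF_refl x),
    fun h => Filter.mem_of_superset h fun _ => eqF_symm,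
    fun h h' => by filter_upwards [h, h'] with p using eqF_trans⟩

/-- The two-valued model. -/
def M (U : Ult P) : Type 1 := Quotient U.setoid

def mk (U : Ult P) (x : Nm P) : M U := Quotient.mk U.setoid x

def E (U : Ult P) : M U → M U → Prop :=
  Quotient.lift₂ (s₁ := U.setoid) (s₂ := U.setoid) (fun x y => {p | memF x y p} ∈ U.U) (by
    intro x y x' y' h1 h2
    refine propext ⟨fun h => ?_, fun h => ?_⟩
    · filter_upwards [h, h1, h2] with p using memF_congr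
    · filter_upwards [h, h1, h2] with p a b c using memF_congr a (eqF_symm b) (eqF_symm c))

theorem mk_surj {U : Ult P} (a : M U) : ∃ x, mk U x = a := Quotient.exists_rep a

theorem mk_eq {U : Ult P} {x y : Nm P} : mk U x = mk U y ↔ {p | eqF x y p} ∈ U.U :=
  Quotient.eq

theorem cl_eq (x y : Nm P) : Cl (fun U => mk U x = mk U y) :=
  cl_of_set (fun _ _ hab h => eqF_mono h hab) fun _ => mk_eq

theorem lower_memF (x y : Nm P) : IsLowerSet {p | memF x y p} :=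
  fun _ _ hab h q hq => h q (hq.trans hab)

theorem cl_mem (x y : Nm P) : Cl (fun U => E U (mk U x) (mk U y)) :=
  cl_of_set (lower_memF x y) fun _ => Iff.rfl

theorem frc_eq {x y : Nm P} {p : P} : Frc p (fun U => mk U x = mk U y) ↔ eqF x y p := by
  rw [frc_iff (fun _ _ hab h => eqF_mono h hab) fun _ => mk_eq]
  exact ⟨eqF_reg, fun h q hq => ⟨q, le_rfl, eqF_mono h hq⟩⟩

theorem frc_mem {x y : Nm P} {p : P} : Frc p (fun U => E U (mk U x) (mk U y)) ↔ memF x y p := by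
  rw [frc_iff (Q := fun U => E U (mk U x) (mk U y)) (lower_memF x y) fun _ => Iff.rfl]
  refine ⟨fun h q hq => ?_, fun h q hq => ⟨q, le_rfl, lower_memF x y hq h⟩⟩
  obtain ⟨r, hr, h'⟩ := h q hq
  obtain ⟨s, hs, h''⟩ := h' r le_rfl
  exact ⟨s, hs.trans hr, h''⟩

theorem mem_intro (y : Nm P) (j : y.ι) : Frc (y.b j) (fun U => E U (mk U (y.A j)) (mk U y)) :=
  frc_mem.2 fun q hq => ⟨q, le_rfl, j, hq, eqF_refl _ _⟩

theorem mem_elim {x y : Nm P} {p : P} (h : Frc p (fun U => E U (mk U x) (mk U y))) :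
    ∃ q ≤ p, ∃ j, q ≤ y.b j ∧ Frc q (fun U => mk U x = mk U (y.A j)) := by
  obtain ⟨q, hq, j, h1, h2⟩ := frc_mem.1 h p le_rfl
  exact ⟨q, hq, j, h1, frc_eq.2 h2⟩

/-- The maximum principle. -/
theorem max_pr (Q : ∀ U : Ult P, M U → Prop) (hQ : ∀ x, Cl (fun U => Q U (mk U x))) :
    ∃ x, ∀ U, (∃ y, Q U y) → Q U (mk U x) := by
  classical
  let S : Set P := {p | ∃ x, Frc p (fun U => Q U (mk U x))}
  obtain ⟨A, hA⟩ := zorn_subset {A : Set P | A ⊆ S ∧ ∀ a ∈ A, ∀ b ∈ A, ∀ r, r ≤ a → r ≤ b → a = b}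
    (fun c hc hch => ⟨⋃₀ c, ⟨sUnion_subset fun A hA => (hc hA).1, by
      rintro a ⟨A, hA, ha⟩ b ⟨B, hB, hb⟩
      rcases hch.total hA hB with h | h
      · exact (hc hB).2 a (h ha) b hb
      · exact (hc hA).2 a ha b (h hb)⟩, fun s hs => subset_sUnion_of_mem hs⟩)
  have hmax : ∀ p ∈ S, ∃ a ∈ A, ∃ r, r ≤ a ∧ r ≤ p := by
    intro p hp
    by_contra hc
    push Not at hc
    have h1 : insert p A ⊆ A := hA.2 ⟨insert_subset hp hA.1.1, by
      rintro a (rfl | ha) b (rfl | hb) r h1 h2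
      · rfl
      · exact absurd h1 (hc b hb r h2)
      · exact absurd h2 (hc a ha r h1)
      · exact hA.1.2 a ha b hb r h1 h2⟩ (subset_insert _ _)
    exact hc p (h1 (mem_insert _ _)) p le_rfl le_rfl
  have hx : ∀ a : A, ∃ x, Frc a.1 (fun U => Q U (mk U x)) := fun a => hA.1.1 a.2
  choose x hx using hx
  let y : Nm P := .mk (Σ a : A, {ir : (x a).ι × P // ir.2 ≤ a.1 ∧ ir.2 ≤ (x a).b ir.1})
    (fun t => (x t.1).A t.2.1.1) (fun t => t.2.1.2)
  have hy : ∀ a : A, eqF y (x a) a.1 := by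
    intro a
    rw [eqF_iff]
    constructor
    · rintro ⟨a', ⟨i, r⟩, h1, h2⟩ q hq hr
      have : a = a' := Subtype.ext (hA.1.2 _ a.2 _ a'.2 q hq (le_trans hr h1))
      subst this
      exact ⟨q, le_rfl, i, le_trans hr h2, eqF_refl _ _⟩
    · intro j q hq hb
      exact ⟨q, le_rfl, ⟨a, ⟨j, q⟩, hq, hb⟩, le_rfl, eqF_refl _ _⟩
  refine ⟨y, fun U ⟨z, hz⟩ => ?_⟩
  obtain ⟨z, rfl⟩ := mk_surj z
  refine (hQ y U).2 (U.of_dense (lower_frc _) ((hQ z U).1 hz) fun p hp => ?_)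
  obtain ⟨a, ha, r, h1, h2⟩ := hmax p ⟨z, hp⟩
  refine ⟨r, h2, fun V hV => ?_⟩
  have h3 : mk V y = mk V (x ⟨a, ha⟩) := (frc_eq.2 (hy ⟨a, ha⟩)).mono h1 V hV
  show Q V (mk V y)
  rw [h3]
  exact (hx ⟨a, ha⟩).mono h1 V hV

theorem cl_ex {Q : ∀ U : Ult P, M U → Prop} (hQ : ∀ x, Cl (fun U => Q U (mk U x))) :
    Cl (fun U => ∃ y, Q U y) := by
  obtain ⟨x, hx⟩ := max_pr Q hQ
  exact (hQ x).congr fun U => ⟨hx U, fun h => ⟨_, h⟩⟩

theorem cl_all {Q : ∀ U : Ult P, M U → Prop} (hQ : ∀ x, Cl (fun U => Q U (mk U x))) :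
    Cl (fun U => ∀ y, Q U y) :=
  (cl_not (cl_ex (Q := fun U y => ¬ Q U y) fun x => cl_not (hQ x))).congr fun U => by simp

theorem cl_exu {Q : ∀ U : Ult P, M U → Prop} (hQ : ∀ x, Cl (fun U => Q U (mk U x))) :
    Cl (fun U => ∃! y, Q U y) :=
  cl_ex (Q := fun U y => Q U y ∧ ∀ z, Q U z → z = y) fun x =>
    cl_and (hQ x) (cl_all fun z => cl_imp (hQ z) (cl_eq z x))

theorem mk_update (U : Ult P) (v : ℕ → Nm P) (i : ℕ) (x : Nm P) :
    Function.update (fun i => mk U (v i)) i (mk U x) = fun j => mk U (Function.update v i x j) :=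
  (Function.comp_update (mk U) v i x).symm

theorem cl_sat (φ : Fml) (v : ℕ → Nm P) : Cl (fun U => Sat (E U) φ (fun i => mk U (v i))) := by
  induction φ generalizing v with
  | mem i j => exact cl_mem _ _
  | eq i j => exact cl_eq _ _
  | neg a ih => exact cl_not (ih v)
  | and a b iha ihb => exact cl_and (iha v) (ihb v)
  | all i a ih =>
    refine cl_all (Q := fun U x => Sat (E U) a (Function.update (fun i => mk U (v i)) i x))
      fun x => (ih (Function.update v i x)).congr fun U => ?_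
    rw [mk_update]

end Pool.Agent.H42.ZF
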