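import Pool.Agent.H42.Frc1

/-! The two-valued quotients are models of ZFC. -/

namespace Pool.Agent.H42.ZF

open Set

variable {P : Type} [Preorder P]

/-- Instance form of `Cl`, so that instance search proves it along the shape of a formula. -/
class C (Q : Ult P → Prop) : Prop where
  cl : Cl Q

theorem cl {Q : Ult P → Prop} [h : C Q] : Cl Q := h.cl

section inst
variable {Q R : Ult P → Prop} {S : ∀ U : Ult P, M U → Prop}
instance (priority := low) cConst (a : Prop) : C (fun _ : Ult P => a) := ⟨cl_const a⟩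
instance cNot [C Q] : C (fun U => ¬ Q U) := ⟨cl_not cl⟩
instance cAnd [C Q] [C R] : C (fun U => Q U ∧ R U) := ⟨cl_and cl cl⟩
instance cOr [C Q] [C R] : C (fun U => Q U ∨ R U) := ⟨cl_or cl cl⟩
instance cImp [C Q] [C R] : C (fun U => Q U → R U) := ⟨cl_imp cl cl⟩
instance cIff [C Q] [C R] : C (fun U => Q U ↔ R U) := ⟨cl_iff cl cl⟩
instance cAll [∀ x, C (fun U => S U (mk U x))] : C (fun U => ∀ y, S U y) := ⟨cl_all fun _ => cl⟩
instance cEx [∀ x, C (fun U => S U (mk U x))] : C (fun U => ∃ y, S U y) := ⟨cl_ex fun _ => cl⟩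
instance cExu [∀ x, C (fun U => S U (mk U x))] : C (fun U => ∃! y, S U y) := ⟨cl_exu fun _ => cl⟩
instance cEq (x y : Nm P) : C (fun U => mk U x = mk U y) := ⟨cl_eq x y⟩
instance cNe (x y : Nm P) : C (fun U => mk U x ≠ mk U y) := ⟨cl_not (cl_eq x y)⟩
instance cMem (x y : Nm P) : C (fun U => E U (mk U x) (mk U y)) := ⟨cl_mem x y⟩
instance cG (p : P) : C (fun U : Ult P => Iic p ∈ U.U) := ⟨cl_set (isLowerSet_Iic p)⟩
instance cSat (φ : Fml) (v : ℕ → Nm P) : C (fun U => Sat (E U) φ (fun i => mk U (v i))) :=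
  ⟨cl_sat φ v⟩
instance cSub (x y : Nm P) : C (fun U => Sub (E U) (mk U x) (mk U y)) := by
  unfold Sub; infer_instance
instance cIsPair (x y z : Nm P) : C (fun U => IsPair (E U) (mk U x) (mk U y) (mk U z)) := by
  unfold IsPair; infer_instance
instance cApp (x y z : Nm P) : C (fun U => App (E U) (mk U x) (mk U y) (mk U z)) := by
  unfold App; infer_instance
instance cIsFun (x y z : Nm P) : C (fun U => IsFun (E U) (mk U x) (mk U y) (mk U z)) := by
  unfold IsFun; infer_instance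
instance cIsFunSet (x y z : Nm P) : C (fun U => IsFunSet (E U) (mk U x) (mk U y) (mk U z)) := by
  unfold IsFunSet; infer_instance
instance cRestr (x y z : Nm P) : C (fun U => Restr (E U) (mk U x) (mk U y) (mk U z)) := by
  unfold Restr; infer_instance
instance cSucc (x y : Nm P) : C (fun U => Succ (E U) (mk U x) (mk U y)) := by
  unfold Succ; infer_instance
instance cInd (x : Nm P) : C (fun U => Ind (E U) (mk U x)) := by
  unfold Ind; infer_instance
instance cIsOmega (x : Nm P) : C (fun U => IsOmega (E U) (mk U x)) := by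
  unfold IsOmega; infer_instance
end inst

/-- Density argument below a hypothesis. -/
theorem by_dense {H R : Ult P → Prop} [C H] [C R] (h : ∀ p, Frc p H → ∃ q ≤ p, Frc q R)
    (U : Ult P) (hU : H U) : R U :=
  (cl (Q := R) U).2 (U.of_dense (lower_frc R) ((cl (Q := H) U).1 hU) h)

theorem frc_and {p : P} {Q R : Ult P → Prop} (h : Frc p Q) (h' : Frc p R) :
    Frc p (fun U => Q U ∧ R U) := fun U hU => ⟨h U hU, h' U hU⟩

theorem frc_G {p q : P} (h : p ≤ q) : Frc p (fun U => Iic q ∈ U.U) :=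
  fun _ hU => Filter.mem_of_superset hU (Iic_subset_Iic.2 h)

theorem frc_ex {p : P} {S : ∀ U : Ult P, M U → Prop} [∀ x, C (fun U => S U (mk U x))]
    (h : Frc p (fun U => ∃ y, S U y)) : ∃ x, Frc p (fun U => S U (mk U x)) := by
  obtain ⟨x, hx⟩ := max_pr S fun _ => cl
  exact ⟨x, h.imp hx⟩

@[elab_as_elim] theorem mem_cases {z y : Nm P} {R : Ult P → Prop} [C R]
    (h : ∀ j U, Iic (y.b j) ∈ U.U → mk U z = mk U (y.A j) → R U) (U : Ult P)
    (hU : E U (mk U z) (mk U y)) : R U := by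
  refine by_dense (H := fun U => E U (mk U z) (mk U y)) (fun p hp => ?_) U hU
  obtain ⟨q, hq, j, h1, h2⟩ := mem_elim hp
  exact ⟨q, hq, fun V hV => h j V (frc_G h1 V hV) (h2 V hV)⟩

/-- The set of the `A i` for which `Q i` holds. -/
def fam {ι : Type} (A : ι → Nm P) (Q : ι → Ult P → Prop) : Nm P :=
  .mk {ip : ι × P // Frc ip.2 (Q ip.1)} (fun t => A t.1.1) (fun t => t.1.2)

section fam
variable {ι : Type} {A : ι → Nm P} {Q : ι → Ult P → Prop}

theorem fam_intro (i : ι) [C (Q i)] {U : Ult P} (h : Q i U) :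
    E U (mk U (A i)) (mk U (fam A Q)) :=
  by_dense (H := Q i) (R := fun U => E U (mk U (A i)) (mk U (fam A Q)))
    (fun p hp => ⟨p, le_rfl, mem_intro (fam A Q) ⟨(i, p), hp⟩⟩) U h

theorem fam_elim {z : Nm P} {p : P} (h : Frc p (fun U => E U (mk U z) (mk U (fam A Q)))) :
    ∃ q ≤ p, ∃ i, Frc q (fun U => Q i U ∧ mk U z = mk U (A i)) := by
  obtain ⟨q, hq, ⟨⟨i, r⟩, hr⟩, h1, h2⟩ := mem_elim h
  exact ⟨q, hq, i, frc_and (Frc.mono hr h1) h2⟩

@[elab_as_elim] theorem fam_cases {z : Nm P} {R : Ult P → Prop} [C R]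
    (h : ∀ i U, Q i U → mk U z = mk U (A i) → R U) (U : Ult P)
    (hU : E U (mk U z) (mk U (fam A Q))) : R U :=
  mem_cases (y := fam A Q) (fun j V hV => h j.1.1 V (j.2 V hV)) U hU

/-- For a finite family membership is plain. -/
theorem fam_fin [Finite ι] [∀ i, C (Q i)] {U : Ult P} {z : M U} :
    E U z (mk U (fam A Q)) ↔ ∃ i, Q i U ∧ z = mk U (A i) := by
  obtain ⟨z, rfl⟩ := mk_surj z
  refine ⟨fun h => ?_, fun ⟨i, h1, h2⟩ => h2 ▸ fam_intro i h1⟩
  have : C (fun U => ∃ i, Q i U ∧ mk U z = mk U (A i)) :=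
    ⟨(cl_not (cl_fin (Q := fun i U => ¬ (Q i U ∧ mk U z = mk U (A i))) fun _ => cl)).congr
      fun U => by simp⟩
  exact fam_cases (R := fun U => ∃ i, Q i U ∧ mk U z = mk U (A i))
    (fun i V h1 h2 => ⟨i, h1, h2⟩) U h

/-- `i` is the least index with `Q i` that names its value. -/
def least (A : ι → Nm P) (Q : ι → Ult P → Prop) (i : ι) (U : Ult P) : Prop :=
  Q i U ∧ {p | ∀ j, WellOrderingRel j i →
    Frc p (fun U => ¬ (Q j U ∧ mk U (A j) = mk U (A i)))} ∈ U.U

instance cLeast [∀ i, C (Q i)] (i : ι) : C (least A Q i) :=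
  ⟨cl_and cl (cl_set fun _ _ hab h j hj => (h j hj).mono hab)⟩

theorem least_uniq [∀ i, C (Q i)] {i j : ι} {U : Ult P} (hi : least A Q i U) (hj : least A Q j U)
    (h : mk U (A i) = mk U (A j)) : i = j := by
  rcases trichotomous_of WellOrderingRel i j with h' | h' | h'
  · exact absurd ⟨hi.1, h⟩ ((cl (Q := fun U => ¬ (Q i U ∧ mk U (A i) = mk U (A j))) U).2
      (Filter.mem_of_superset hj.2 fun p hp => hp i h'))
  · exact h'
  · exact absurd ⟨hj.1, h.symm⟩ ((cl (Q := fun U => ¬ (Q j U ∧ mk U (A j) = mk U (A i))) U).2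
      (Filter.mem_of_superset hi.2 fun p hp => hp j h'))

theorem least_ex [∀ i, C (Q i)] {i : ι} {p : P} (h : Frc p (Q i)) :
    ∃ q ≤ p, ∃ j, Frc q (fun U => least A Q j U ∧ mk U (A j) = mk U (A i)) := by
  have hne : {j | ∃ q ≤ p, Frc q (fun U => Q j U ∧ mk U (A j) = mk U (A i))}.Nonempty :=
    ⟨i, p, le_rfl, h.imp fun U h => ⟨h, rfl⟩⟩
  obtain ⟨j, ⟨q, hq, hj⟩, hmin⟩ := (IsWellFounded.wf (r := WellOrderingRel)).has_min _ hne
  refine ⟨q, hq, j, fun U hU => ⟨⟨(hj U hU).1, Filter.mem_of_superset hU fun r hr k hk => ?_⟩,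
    (hj U hU).2⟩⟩
  by_contra hc
  obtain ⟨s, hs, h'⟩ := (cl (Q := fun U => ¬ (Q k U ∧ mk U (A k) = mk U (A j)))).decide hc
  refine hmin k ⟨s, hs.trans (le_trans hr hq), fun V hV => ?_⟩ hk
  have h1 := not_not.1 (h' V hV)
  exact ⟨h1.1, h1.2.trans (hj.mono (hs.trans hr) V hV).2⟩

@[elab_as_elim] theorem least_cases [∀ i, C (Q i)] {i : ι} {R : Ult P → Prop} [C R]
    (h : ∀ j U, least A Q j U → mk U (A j) = mk U (A i) → R U) (U : Ult P) (hU : Q i U) : R U := by
  refine by_dense (H := Q i) (fun p hp => ?_) U hU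
  obtain ⟨q, hq, j, hj⟩ := least_ex (A := A) hp
  exact ⟨q, hq, hj.imp fun V hV => h j V hV.1 hV.2⟩

end fam

theorem M_ext {U : Ult P} {x y : M U} (h : ∀ z, E U z x ↔ E U z y) : x = y := by
  obtain ⟨x, rfl⟩ := mk_surj x
  obtain ⟨y, rfl⟩ := mk_surj y
  refine by_dense (H := fun U => ∀ z, E U z (mk U x) ↔ E U z (mk U y))
    (R := fun U => mk U x = mk U y) (fun p hp => ⟨p, le_rfl, frc_eq.2 ?_⟩) U h
  rw [eqF_iff]
  constructor
  · intro i q hq hb
    exact frc_mem.1 (fun V hV => (hp.mono hq V hV _).1 ((mem_intro x i).mono hb V hV)) q le_rfl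
  · intro j q hq hb
    obtain ⟨r, hr, i, h1, h2⟩ :=
      frc_mem.1 (fun V hV => (hp.mono hq V hV _).2 ((mem_intro y j).mono hb V hV)) q le_rfl
    exact ⟨r, hr, i, h1, eqF_symm h2⟩

theorem M_found {U : Ult P} (x : M U) (h : ∃ y, E U y x) :
    ∃ y, E U y x ∧ ¬ ∃ z, E U z x ∧ E U z y := by
  obtain ⟨x, rfl⟩ := mk_surj x
  obtain ⟨y, h⟩ := h
  obtain ⟨y, rfl⟩ := mk_surj y
  induction y generalizing U with
  | mk ι A b ih =>
    by_contra hc
    have h1 : ∃ z, E U z (mk U x) ∧ E U z (mk U (.mk ι A b)) := by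
      by_contra h1; exact hc ⟨_, h, h1⟩
    obtain ⟨z, h1, h2⟩ := h1
    obtain ⟨z, rfl⟩ := mk_surj z
    exact hc (mem_cases (y := .mk ι A b) (R := fun U => E U (mk U z) (mk U x) →
      ∃ y, E U y (mk U x) ∧ ¬ ∃ z, E U z (mk U x) ∧ E U z y)
      (fun j V _ h3 h4 => ih j (h3 ▸ h4)) U h2 h1)

/-- Separation for every property with truth values. -/
def sepN (x : Nm P) (S : ∀ U : Ult P, M U → Prop) : Nm P :=
  fam x.A (fun i U => Iic (x.b i) ∈ U.U ∧ S U (mk U (x.A i)))

theorem mem_sepN {x : Nm P} {S : ∀ U : Ult P, M U → Prop} [∀ x, C (fun U => S U (mk U x))]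
    {U : Ult P} {z : M U} : E U z (mk U (sepN x S)) ↔ E U z (mk U x) ∧ S U z := by
  obtain ⟨z, rfl⟩ := mk_surj z
  constructor
  · exact fam_cases (R := fun U => E U (mk U z) (mk U x) ∧ S U (mk U z))
      (fun i V h1 h2 => by rw [h2]; exact ⟨mem_intro x i V h1.1, h1.2⟩) U
  · rintro ⟨h1, h2⟩
    exact mem_cases (R := fun U => S U (mk U z) → E U (mk U z) (mk U (sepN x S)))
      (fun i V h1 h2 h3 => by rw [h2] at h3 ⊢; exact fam_intro i ⟨h1, h3⟩) U h1 h2

def upair (x y : Nm P) : Nm P := fam (fun b : Bool => cond b x y) (fun _ _ => True)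

theorem mem_upair {x y : Nm P} {U : Ult P} {z : M U} :
    E U z (mk U (upair x y)) ↔ z = mk U x ∨ z = mk U y := by
  simp [upair, fam_fin, or_comm]

def insN (a y : Nm P) : Nm P :=
  fam (fun o : Option y.ι => o.elim a y.A) (fun o U => ∀ i ∈ o, Iic (y.b i) ∈ U.U)

theorem mem_insN {a y : Nm P} {U : Ult P} {z : M U} :
    E U z (mk U (insN a y)) ↔ E U z (mk U y) ∨ z = mk U a := by
  obtain ⟨z, rfl⟩ := mk_surj z
  constructor
  · refine fam_cases (R := fun U => E U (mk U z) (mk U y) ∨ mk U z = mk U a) ?_ U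
    rintro (_ | i) V h1 h2
    · exact Or.inr h2
    · exact Or.inl (h2 ▸ mem_intro y i V (h1 i rfl))
  · rintro (h | h)
    · refine mem_cases (R := fun U => E U (mk U z) (mk U (insN a y))) (fun i V h1 h2 => ?_) U h
      have : C (fun U : Ult P => ∀ j ∈ some i, Iic (y.b j) ∈ U.U) :=
        ⟨(cl (Q := fun U : Ult P => Iic (y.b i) ∈ U.U)).congr fun U => by simp⟩
      rw [h2]
      exact fam_intro (A := fun o : Option y.ι => o.elim a y.A) (some i) (by simpa using h1)
    · have : C (fun U : Ult P => ∀ j ∈ (none : Option y.ι), Iic (y.b j) ∈ U.U) :=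
        ⟨(cl_const True).congr fun U => by simp⟩
      rw [h]
      exact fam_intro (A := fun o : Option y.ι => o.elim a y.A) none (by simp)

def natN : ℕ → Nm P
  | 0 => fam (fun e : Empty => e.elim) (fun _ _ => True)
  | n + 1 => insN (natN n) (natN n)

def omegaN : Nm P := fam natN (fun _ _ => True)

theorem not_mem_zero {U : Ult P} (z : M U) : ¬ E U z (mk U (natN 0)) := by
  simp [natN, fam_fin]

theorem succ_natN {U : Ult P} (n : ℕ) : Succ (E U) (mk U (natN (n + 1))) (mk U (natN n)) :=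
  fun _ => mem_insN

theorem nat_mem_omega {U : Ult P} (n : ℕ) : E U (mk U (natN n)) (mk U omegaN) :=
  fam_intro n trivial

@[elab_as_elim] theorem nat_cases {z : Nm P} {R : Ult P → Prop} [C R]
    (h : ∀ n U, mk U z = mk U (natN n) → R U) (U : Ult P)
    (hU : E U (mk U z) (mk U omegaN)) : R U :=
  fam_cases (fun n V _ => h n V) U hU

/-- A name that contains every subset of `x`. -/
def powN (x : Nm P) : Nm P :=
  fam (fun s : x.ι → P → Prop =>
    Nm.mk {ip : x.ι × P // s ip.1 ip.2} (fun t => x.A t.1.1) (fun t => t.1.2)) (fun _ _ => True)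

theorem mem_powN {x : Nm P} {U : Ult P} {z : M U} (h : Sub (E U) z (mk U x)) :
    E U z (mk U (powN x)) := by
  obtain ⟨z, rfl⟩ := mk_surj z
  have h1 : mk U z = mk U (fam x.A (fun i U => E U (mk U (x.A i)) (mk U z))) := by
    refine M_ext fun w => ?_
    obtain ⟨w, rfl⟩ := mk_surj w
    constructor
    · intro h2
      exact mem_cases (R := fun U => E U (mk U w) (mk U z) →
        E U (mk U w) (mk U (fam x.A (fun i U => E U (mk U (x.A i)) (mk U z)))))
        (fun i V _ h3 h4 => by rw [h3] at h4 ⊢; exact fam_intro i h4) U (h _ h2) h2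
    · exact fam_cases (R := fun U => E U (mk U w) (mk U z)) (fun i V h1 h2 => by rw [h2]; exact h1) U
  rw [h1]
  exact fam_intro (Q := fun _ _ => True)
    (fun i p => Frc p (fun U => E U (mk U (x.A i)) (mk U z))) trivial

theorem M_coll (A : Nm P) (S : ∀ U : Ult P, M U → M U → Prop)
    [∀ x y, C (fun U => S U (mk U x) (mk U y))] :
    ∃ Y : Nm P, ∀ U x, E U x (mk U A) → (∃ y, S U x y) → ∃ y, E U y (mk U Y) ∧ S U x y := by
  choose y hy using fun i => max_pr (fun U y => S U (mk U (A.A i)) y) fun _ => cl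
  refine ⟨fam y (fun _ _ => True), fun U x hx => ?_⟩
  obtain ⟨x, rfl⟩ := mk_surj x
  exact mem_cases (R := fun U => (∃ y, S U (mk U x) y) →
    ∃ z, E U z (mk U (fam y (fun _ _ => True))) ∧ S U (mk U x) z)
    (fun i V _ h2 h3 => by rw [h2] at h3 ⊢; exact ⟨_, fam_intro i trivial, hy i V h3⟩) U hx

theorem M_choice {U : Ult P} (F : M U) (h1 : ∀ x, E U x F → ∃ y, E U y x)
    (h2 : ∀ x y, E U x F → E U y F → x ≠ y → ¬ ∃ z, E U z x ∧ E U z y) :
    ∃ D, ∀ x, E U x F → ∃! z, E U z x ∧ E U z D := by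
  obtain ⟨F, rfl⟩ := mk_surj F
  choose y hy using fun i => max_pr (fun U y => E U y (mk U (F.A i))) fun _ => cl
  let L := least F.A (fun i U => Iic (F.b i) ∈ U.U)
  refine ⟨mk U (fam y L), fun x hx => ?_⟩
  obtain ⟨x, rfl⟩ := mk_surj x
  have key : ∀ z, E U z (mk U x) → E U z (mk U (fam y L)) → ∀ w, E U w (mk U x) →
      E U w (mk U (fam y L)) → z = w := by
    intro z hz hz' w hw hw'
    obtain ⟨z, rfl⟩ := mk_surj z
    obtain ⟨w, rfl⟩ := mk_surj w
    revert h1 h2 hx hz hw hw'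
    refine fam_cases (fun i U hi e1 h1 h2 hx hz hw hw' => ?_) U hz'
    revert hi e1 h1 h2 hx hz hw
    refine fam_cases (fun j U hj e2 hi e1 h1 h2 hx hz hw => ?_) U hw'
    have a1 := mem_intro F i U hi.1
    have a2 := mem_intro F j U hj.1
    have b1 : mk U (F.A i) = mk U x := by
      by_contra hc; exact h2 _ _ a1 hx hc ⟨_, hy i U (h1 _ a1), e1 ▸ hz⟩
    have b2 : mk U (F.A j) = mk U x := by
      by_contra hc; exact h2 _ _ a2 hx hc ⟨_, hy j U (h1 _ a2), e2 ▸ hw⟩
    rw [e1, e2, least_uniq hi hj (b1.trans b2.symm)]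
  have hex : ∃ z, E U z (mk U x) ∧ E U z (mk U (fam y L)) := by
    have := h1 _ hx
    clear key h1 h2
    revert this
    refine mem_cases (fun i U hi e1 => ?_) U hx
    revert e1
    refine least_cases (A := F.A) (Q := fun i U => Iic (F.b i) ∈ U.U)
      (fun j U hj e2 e1 h => ?_) U hi
    rw [e1, ← e2] at h ⊢
    exact ⟨_, hy j U h, fam_intro j hj⟩
  obtain ⟨z, hz⟩ := hex
  exact ⟨z, hz, fun w hw => key w hw.1 hw.2 z hz.1 hz.2⟩

theorem M_zfc (U : Ult P) : ZFC (E U) where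
  ext _ _ := M_ext
  found := M_found
  sep φ v x := by
    obtain ⟨x, rfl⟩ := mk_surj x
    choose v' hv using fun i => mk_surj (v i)
    obtain rfl : v = fun i => mk U (v' i) := funext fun i => (hv i).symm
    have : ∀ z, C (fun U => Sat (E U) φ (Function.update (fun i => mk U (v' i)) 0 (mk U z))) :=
      fun z => ⟨(cl_sat φ (Function.update v' 0 z)).congr fun U => by rw [mk_update]⟩
    exact ⟨_, fun z => mem_sepN
      (S := fun U z => Sat (E U) φ (Function.update (fun i => mk U (v' i)) 0 z))⟩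
  pair x y := by
    obtain ⟨x, rfl⟩ := mk_surj x
    obtain ⟨y, rfl⟩ := mk_surj y
    exact ⟨_, mem_upair.2 (Or.inl rfl), mem_upair.2 (Or.inr rfl)⟩
  union F := by
    obtain ⟨F, rfl⟩ := mk_surj F
    refine ⟨mk U (fam (fun t : Σ i : F.ι, (F.A i).ι => (F.A t.1).A t.2) (fun _ _ => True)),
      fun Y x h1 h2 => ?_⟩
    obtain ⟨Y, rfl⟩ := mk_surj Y
    obtain ⟨x, rfl⟩ := mk_surj x
    revert h1
    refine mem_cases (fun i U _ e1 h1 => ?_) U h2
    rw [e1] at h1
    refine mem_cases (fun j U _ e2 => ?_) U h1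
    rw [e2]
    exact fam_intro (A := fun t : Σ i : F.ι, (F.A i).ι => (F.A t.1).A t.2) ⟨i, j⟩ trivial
  repl φ v A h := by
    obtain ⟨A, rfl⟩ := mk_surj A
    choose v' hv using fun i => mk_surj (v i)
    obtain rfl : v = fun i => mk U (v' i) := funext fun i => (hv i).symm
    have : ∀ x y, C (fun U => Sat (E U) φ (Function.update
        (Function.update (fun i => mk U (v' i)) 0 (mk U x)) 1 (mk U y))) :=
      fun x y => ⟨(cl_sat φ (Function.update (Function.update v' 0 x) 1 y)).congr fun U => by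
        rw [mk_update, mk_update]⟩
    obtain ⟨Y, hY⟩ := M_coll A (fun U x y => Sat (E U) φ (Function.update
        (Function.update (fun i => mk U (v' i)) 0 x) 1 y))
    exact ⟨mk U Y, fun x hx => hY U x hx (h x hx).exists⟩
  inf := by
    refine ⟨mk U omegaN, ⟨_, nat_mem_omega 0, not_mem_zero⟩, fun y hy => ?_⟩
    obtain ⟨y, rfl⟩ := mk_surj y
    refine nat_cases (fun n U e => ?_) U hy
    rw [e]
    exact ⟨_, nat_mem_omega (n + 1), succ_natN n⟩
  pow x := by
    obtain ⟨x, rfl⟩ := mk_surj x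
    exact ⟨_, fun z hz => mem_powN hz⟩
  choice := M_choice

end Pool.Agent.H42.ZF
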