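import Pool.Agent.H42.Frc2

/-! Names for pairs, natural numbers, relations, functions and sequences. -/

namespace Pool.Agent.H42.ZF

open Set

variable {P : Type} [Preorder P] {U : Ult P}

theorem ex_upair (a b : M U) : ∃ z, ∀ w, E U w z ↔ w = a ∨ w = b := by
  obtain ⟨a, rfl⟩ := mk_surj a
  obtain ⟨b, rfl⟩ := mk_surj b
  exact ⟨_, fun _ => mem_upair⟩

def kpair (x y : Nm P) : Nm P := upair (upair x x) (upair x y)

theorem isPair_kpair (x y : Nm P) : IsPair (E U) (mk U (kpair x y)) (mk U x) (mk U y) := by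
  intro z
  rw [kpair, mem_upair]
  refine or_congr ⟨fun h w => ?_, fun h => M_ext fun w => ?_⟩
    ⟨fun h w => ?_, fun h => M_ext fun w => ?_⟩
  · rw [h, mem_upair, or_self]
  · rw [h, mem_upair, or_self]
  · rw [h, mem_upair]
  · rw [h, mem_upair]

theorem IsPair.uniq {p q a b : M U} (h : IsPair (E U) p a b) (h' : IsPair (E U) q a b) : p = q :=
  M_ext fun z => (h z).trans (h' z).symm

theorem IsPair.inj {p a b c d : M U} (h : IsPair (E U) p a b) (h' : IsPair (E U) p c d) :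
    a = c ∧ b = d := by
  have h1 : ∀ {a b c d : M U}, IsPair (E U) p a b → IsPair (E U) p c d →
      a = c ∧ (b = c ∨ b = d) := by
    intro a b c d h h'
    obtain ⟨z, hz⟩ := ex_upair a a
    obtain ⟨y, hy⟩ := ex_upair a b
    constructor
    · rcases (h' z).1 ((h z).2 (Or.inl fun w => by rw [hz, or_self])) with h2 | h2
      · exact (h2 a).1 ((hz a).2 (Or.inl rfl))
      · exact ((hz c).1 ((h2 c).2 (Or.inl rfl))).elim Eq.symm Eq.symm
    · rcases (h' y).1 ((h y).2 (Or.inr hy)) with h2 | h2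
      · exact Or.inl ((h2 b).1 ((hy b).2 (Or.inr rfl)))
      · exact (h2 b).1 ((hy b).2 (Or.inr rfl))
  obtain ⟨e1, e2⟩ := h1 h h'
  obtain ⟨-, e3⟩ := h1 h' h
  refine ⟨e1, ?_⟩
  rcases e2 with e2 | e2
  · rcases e3 with e3 | e3
    · rw [e2, e3, e1]
    · exact e3.symm
  · exact e2

theorem mem_natN {n : ℕ} {z : M U} : E U z (mk U (natN n)) ↔ ∃ m < n, z = mk U (natN m) := by
  induction n with
  | zero => simp [not_mem_zero]
  | succ n ih =>
    rw [succ_natN n z, ih]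
    constructor
    · rintro (⟨m, hm, h⟩ | h)
      · exact ⟨m, by omega, h⟩
      · exact ⟨n, by omega, h⟩
    · rintro ⟨m, hm, h⟩
      rcases Nat.lt_succ_iff_lt_or_eq.1 hm with h' | rfl
      · exact Or.inl ⟨m, h', h⟩
      · exact Or.inr h

theorem not_mem_self (z : M U) : ¬ E U z z := by
  intro h
  obtain ⟨y, hy⟩ := ex_upair z z
  obtain ⟨w, h1, h2⟩ := M_found y ⟨z, (hy z).2 (Or.inl rfl)⟩
  have : w = z := ((hy w).1 h1).elim id id
  exact h2 ⟨z, (hy z).2 (Or.inl rfl), this ▸ h⟩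

theorem natN_inj {m n : ℕ} (h : mk U (natN m) = mk U (natN n)) : m = n := by
  rcases lt_trichotomy m n with h' | h' | h'
  · exact absurd (mem_natN.2 ⟨m, h', h.symm⟩) (not_mem_self (mk U (natN n)))
  · exact h'
  · exact absurd (mem_natN.2 ⟨n, h', h⟩) (not_mem_self (mk U (natN m)))

theorem natN_mem {m n : ℕ} : E U (mk U (natN m)) (mk U (natN n)) ↔ m < n :=
  mem_natN.trans ⟨fun ⟨_, hk, h⟩ => natN_inj h ▸ hk, fun h => ⟨m, h, rfl⟩⟩

theorem eq_zero {e : M U} (h : ∀ z, ¬ E U z e) : e = mk U (natN 0) :=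
  M_ext fun z => iff_of_false (h z) (not_mem_zero z)

theorem Succ.uniq {s t n : M U} (h : Succ (E U) s n) (h' : Succ (E U) t n) : s = t :=
  M_ext fun z => (h z).trans (h' z).symm

theorem isOmega_omegaN : IsOmega (E U) (mk U omegaN) := by
  refine ⟨⟨fun e he => eq_zero he ▸ nat_mem_omega 0, fun n s hn hs => ?_⟩, fun I hI z hz => ?_⟩
  · obtain ⟨n, rfl⟩ := mk_surj n
    obtain ⟨s, rfl⟩ := mk_surj s
    revert hs
    refine nat_cases (fun k U e hs => ?_) U hn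
    rw [e] at hs
    rw [hs.uniq (succ_natN k)]
    exact nat_mem_omega _
  · obtain ⟨I, rfl⟩ := mk_surj I
    obtain ⟨z, rfl⟩ := mk_surj z
    revert hI
    refine nat_cases (fun k U e hI => ?_) U hz
    rw [e]
    clear e
    induction k with
    | zero => exact hI.1 _ not_mem_zero
    | succ k ih => exact hI.2 _ _ ih (succ_natN k)

theorem IsOmega.eq {w : M U} (h : IsOmega (E U) w) : w = mk U omegaN :=
  M_ext fun z => ⟨h.2 _ isOmega_omegaN.1 z, isOmega_omegaN.2 _ h.1 z⟩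

/-- The set of the pairs `(A i, B i)` for which `Q i` holds. -/
def rel {ι : Type} (A B : ι → Nm P) (Q : ι → Ult P → Prop) : Nm P :=
  fam (fun i => kpair (A i) (B i)) Q

section rel
variable {ι : Type} {A B : ι → Nm P} {Q : ι → Ult P → Prop}

theorem rel_intro (i : ι) [C (Q i)] (h : Q i U) :
    App (E U) (mk U (rel A B Q)) (mk U (A i)) (mk U (B i)) :=
  ⟨_, fam_intro (A := fun i => kpair (A i) (B i)) i h, isPair_kpair _ _⟩

@[elab_as_elim] theorem rel_cases {a b : Nm P} {R : Ult P → Prop} [C R]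
    (h : ∀ i U, Q i U → mk U a = mk U (A i) → mk U b = mk U (B i) → R U) (U : Ult P)
    (hU : App (E U) (mk U (rel A B Q)) (mk U a) (mk U b)) : R U := by
  obtain ⟨p, h1, h2⟩ := hU
  obtain ⟨p, rfl⟩ := mk_surj p
  revert h2
  refine fam_cases (A := fun i => kpair (A i) (B i)) (fun i U hi e h2 => ?_) U h1
  rw [e] at h2
  obtain ⟨e1, e2⟩ := h2.inj (isPair_kpair _ _)
  exact h i U hi e1 e2

@[elab_as_elim] theorem rel_mem {p : Nm P} {R : Ult P → Prop} [C R]
    (h : ∀ i U, Q i U → IsPair (E U) (mk U p) (mk U (A i)) (mk U (B i)) → R U) (U : Ult P)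
    (hU : E U (mk U p) (mk U (rel A B Q))) : R U :=
  fam_cases (A := fun i => kpair (A i) (B i))
    (fun i U hi e => h i U hi (e ▸ isPair_kpair _ _)) U hU

theorem rel_fin [Finite ι] [∀ i, C (Q i)] {a b : M U} :
    App (E U) (mk U (rel A B Q)) a b ↔ ∃ i, Q i U ∧ a = mk U (A i) ∧ b = mk U (B i) := by
  constructor
  · rintro ⟨p, h1, h2⟩
    obtain ⟨i, hi, rfl⟩ := fam_fin.1 h1
    exact ⟨i, hi, h2.inj (isPair_kpair _ _)⟩
  · rintro ⟨i, hi, rfl, rfl⟩
    exact rel_intro i hi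

theorem rel_pairs (p : M U) (h : E U p (mk U (rel A B Q))) : ∃ a b, IsPair (E U) p a b := by
  obtain ⟨p, rfl⟩ := mk_surj p
  exact rel_mem (fun i U _ h => ⟨_, _, h⟩) U h

end rel

theorem IsFun.pairs {f A B : M U} (h : IsFun (E U) f A B) (p : M U) (hp : E U p f) :
    ∃ a b, IsPair (E U) p a b := by
  obtain ⟨a, b, -, -, h⟩ := h.1 p hp
  exact ⟨a, b, h⟩

theorem IsFun.dom {f A B a b : M U} (h : IsFun (E U) f A B) (h' : App (E U) f a b) :
    E U a A ∧ E U b B := by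
  obtain ⟨p, h1, h2⟩ := h'
  obtain ⟨c, d, h3, h4, h5⟩ := h.1 p h1
  obtain ⟨rfl, rfl⟩ := h2.inj h5
  exact ⟨h3, h4⟩

theorem IsFun.uniq {f A B a b c : M U} (h : IsFun (E U) f A B) (h1 : App (E U) f a b)
    (h2 : App (E U) f a c) : b = c := by
  obtain ⟨d, -, hd⟩ := h.2 a (h.dom h1).1
  rw [hd b h1, hd c h2]

theorem IsFun.ex {f A B a : M U} (h : IsFun (E U) f A B) (h1 : E U a A) :
    ∃ b, App (E U) f a b := by
  obtain ⟨d, hd, -⟩ := h.2 a h1
  exact ⟨d, hd⟩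

theorem rel_ext {f g : M U} (hf : ∀ p, E U p f → ∃ a b, IsPair (E U) p a b)
    (hg : ∀ p, E U p g → ∃ a b, IsPair (E U) p a b)
    (h : ∀ a b, App (E U) f a b ↔ App (E U) g a b) : f = g := by
  refine M_ext fun p => ⟨fun hp => ?_, fun hp => ?_⟩
  · obtain ⟨a, b, h1⟩ := hf p hp
    obtain ⟨q, h2, h3⟩ := (h a b).1 ⟨p, hp, h1⟩
    rwa [h1.uniq h3]
  · obtain ⟨a, b, h1⟩ := hg p hp
    obtain ⟨q, h2, h3⟩ := (h a b).2 ⟨p, hp, h1⟩
    rwa [h1.uniq h3]

theorem isFun_of {f A B : M U} (hf : ∀ p, E U p f → ∃ a b, IsPair (E U) p a b)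
    (h1 : ∀ a b, App (E U) f a b → E U a A ∧ E U b B)
    (h2 : ∀ a, E U a A → ∃ b, App (E U) f a b)
    (h3 : ∀ a b c, App (E U) f a b → App (E U) f a c → b = c) : IsFun (E U) f A B := by
  refine ⟨fun p hp => ?_, fun a ha => ?_⟩
  · obtain ⟨a, b, h⟩ := hf p hp
    exact ⟨a, b, (h1 a b ⟨p, hp, h⟩).1, (h1 a b ⟨p, hp, h⟩).2, h⟩
  · obtain ⟨b, hb⟩ := h2 a ha
    exact ⟨b, hb, fun c hc => h3 a c b hc hb⟩

theorem IsFun.eq {f g A B B' : M U} (hf : IsFun (E U) f A B) (hg : IsFun (E U) g A B')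
    (h : ∀ a b, App (E U) f a b → App (E U) g a b) : f = g := by
  refine rel_ext hf.pairs hg.pairs fun a b => ⟨h a b, fun h' => ?_⟩
  obtain ⟨c, hc⟩ := hf.ex (hg.dom h').1
  rwa [hg.uniq h' (h a c hc)]

/-- The sequence `n ↦ g n`. -/
def fullN (g : ℕ → Nm P) : Nm P := rel natN g (fun _ _ => True)

/-- The finite sequence `(g 0, ..., g (n-1))`. -/
def seqN (g : ℕ → Nm P) (n : ℕ) : Nm P :=
  rel (fun i : Fin n => natN i) (fun i => g i) (fun _ _ => True)

theorem app_fullN (g : ℕ → Nm P) (n : ℕ) :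
    App (E U) (mk U (fullN g)) (mk U (natN n)) (mk U (g n)) := rel_intro n trivial

theorem app_fullN_iff {g : ℕ → Nm P} {n : ℕ} {b : M U} :
    App (E U) (mk U (fullN g)) (mk U (natN n)) b ↔ b = mk U (g n) := by
  obtain ⟨b, rfl⟩ := mk_surj b
  refine ⟨fun h => ?_, fun h => h ▸ app_fullN g n⟩
  refine rel_cases (fun i U _ e1 e2 => ?_) U h
  rw [e2, natN_inj e1]

theorem app_seqN {g : ℕ → Nm P} {n : ℕ} {a b : M U} :
    App (E U) (mk U (seqN g n)) a b ↔ ∃ i < n, a = mk U (natN i) ∧ b = mk U (g i) := by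
  rw [seqN, rel_fin]
  exact ⟨fun ⟨i, _, h⟩ => ⟨i, i.2, h⟩, fun ⟨i, hi, h⟩ => ⟨⟨i, hi⟩, trivial, h⟩⟩

theorem isFun_seqN {g : ℕ → Nm P} {n : ℕ} {B : M U} (h : ∀ i < n, E U (mk U (g i)) B) :
    IsFun (E U) (mk U (seqN g n)) (mk U (natN n)) B := by
  refine isFun_of rel_pairs (fun a b h' => ?_) (fun a ha => ?_) (fun a b c h1 h2 => ?_)
  · obtain ⟨i, hi, rfl, rfl⟩ := app_seqN.1 h'
    exact ⟨natN_mem.2 hi, h i hi⟩
  · obtain ⟨i, hi, rfl⟩ := mem_natN.1 ha
    exact ⟨_, app_seqN.2 ⟨i, hi, rfl, rfl⟩⟩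
  · obtain ⟨i, hi, rfl, rfl⟩ := app_seqN.1 h1
    obtain ⟨j, hj, e, rfl⟩ := app_seqN.1 h2
    rw [natN_inj e]

/-- `fullN g` is a function into `B` below a condition that forces every `g n` into `B`. -/
theorem isFun_fullN {g : ℕ → Nm P} {B : Nm P} {p : P}
    (h : ∀ n, Frc p (fun U => E U (mk U (g n)) (mk U B))) :
    Frc p (fun U => IsFun (E U) (mk U (fullN g)) (mk U omegaN) (mk U B)) := by
  intro U hU
  refine isFun_of rel_pairs (fun a b h' => ?_) (fun a ha => ?_) (fun a b c h1 h2 => ?_)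
  · obtain ⟨a, rfl⟩ := mk_surj a
    obtain ⟨b, rfl⟩ := mk_surj b
    revert hU
    refine rel_cases (fun i U _ e1 e2 hU => ?_) U h'
    rw [e1, e2]
    exact ⟨nat_mem_omega i, h i U hU⟩
  · obtain ⟨a, rfl⟩ := mk_surj a
    refine nat_cases (fun i U e => ?_) U ha
    rw [e]
    exact ⟨_, app_fullN g i⟩
  · obtain ⟨a, rfl⟩ := mk_surj a
    obtain ⟨b, rfl⟩ := mk_surj b
    obtain ⟨c, rfl⟩ := mk_surj c
    revert h2
    refine rel_cases (fun i U _ e1 e2 h2 => ?_) U h1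
    rw [e1] at h2
    rw [e2, app_fullN_iff.1 h2]

theorem Restr.app {s f n a b : M U} (h : Restr (E U) s f n) :
    App (E U) s a b ↔ E U a n ∧ App (E U) f a b := by
  constructor
  · rintro ⟨p, h1, h2⟩
    obtain ⟨h3, c, d, h4, h5⟩ := (h p).1 h1
    exact ⟨(h2.inj h5).1 ▸ h4, p, h3, h2⟩
  · rintro ⟨h1, p, h2, h3⟩
    exact ⟨p, (h p).2 ⟨h2, a, b, h1, h3⟩, h3⟩

theorem Restr.uniq {s t f n : M U} (h : Restr (E U) s f n) (h' : Restr (E U) t f n) : s = t :=
  M_ext fun z => (h z).trans (h' z).symm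

theorem restr_seqN {f A B : M U} {g : ℕ → Nm P} {n : ℕ} (hf : IsFun (E U) f A B)
    (h : ∀ i < n, App (E U) f (mk U (natN i)) (mk U (g i))) :
    Restr (E U) (mk U (seqN g n)) f (mk U (natN n)) := by
  intro p
  constructor
  · intro hp
    obtain ⟨i, -, rfl⟩ := (fam_fin (A := fun i : Fin n => kpair (natN i) (g i))
      (Q := fun _ _ => True)).1 hp
    obtain ⟨q, h1, h2⟩ := h i i.2
    exact ⟨(h2.uniq (isPair_kpair _ _)) ▸ h1, _, _, natN_mem.2 i.2, isPair_kpair _ _⟩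
  · rintro ⟨h1, a, b, h2, h3⟩
    obtain ⟨i, hi, rfl⟩ := mem_natN.1 h2
    rw [hf.uniq ⟨p, h1, h3⟩ (h i hi)] at h3
    rw [h3.uniq (isPair_kpair _ _)]
    exact fam_intro (A := fun i : Fin n => kpair (natN i) (g i)) (Q := fun _ _ => True)
      ⟨i, hi⟩ trivial

theorem seqN_eq {s B : M U} {g : ℕ → Nm P} {n : ℕ} (hs : IsFun (E U) s (mk U (natN n)) B)
    (h : ∀ i < n, App (E U) s (mk U (natN i)) (mk U (g i))) : s = mk U (seqN g n) :=
  ((isFun_seqN fun i hi => (hs.dom (h i hi)).2).eq hs fun a b h' => by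
    obtain ⟨i, hi, rfl, rfl⟩ := app_seqN.1 h'
    exact h i hi).symm

/-- The set of all functions from `A` to `B`. -/
def funN (A B : Nm P) : Nm P :=
  sepN (powN (rel (fun t : A.ι × B.ι => A.A t.1) (fun t => B.A t.2) (fun _ _ => True)))
    (fun U f => IsFun (E U) f (mk U A) (mk U B))

theorem isFunSet_funN (A B : Nm P) : IsFunSet (E U) (mk U (funN A B)) (mk U A) (mk U B) := by
  intro f
  rw [funN, mem_sepN]
  refine ⟨fun h => h.2, fun h => ⟨mem_powN fun p hp => ?_, h⟩⟩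
  obtain ⟨a, b, h1, h2, h3⟩ := h.1 p hp
  obtain ⟨a, rfl⟩ := mk_surj a
  obtain ⟨b, rfl⟩ := mk_surj b
  obtain ⟨p, rfl⟩ := mk_surj p
  clear hp h
  revert h2 h3
  refine mem_cases (fun i U _ e1 h2 h3 => ?_) U h1
  revert e1 h3
  refine mem_cases (fun j U _ e2 e1 h3 => ?_) U h2
  rw [e1, e2] at h3
  rw [h3.uniq (isPair_kpair _ _)]
  exact fam_intro (A := fun t : A.ι × B.ι => kpair (A.A t.1) (B.A t.2)) (i, j) trivial

theorem IsFunSet.uniq {F G A B : M U} (h : IsFunSet (E U) F A B) (h' : IsFunSet (E U) G A B) :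
    F = G := M_ext fun z => (h z).trans (h' z).symm

/-- A value of a function into `ω` can be decided. -/
theorem decide_nat {x : Nm P} {p : P} (h : Frc p (fun U => E U (mk U x) (mk U omegaN))) :
    ∃ q ≤ p, ∃ k, Frc q (fun U => mk U x = mk U (natN k)) := by
  obtain ⟨q, hq, k, h⟩ := fam_elim h
  exact ⟨q, hq, k, h.imp fun _ h => h.2⟩

theorem decide_app {f a A : Nm P} {p : P}
    (h : Frc p (fun U => IsFun (E U) (mk U f) (mk U A) (mk U omegaN) ∧ E U (mk U a) (mk U A))) :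
    ∃ q ≤ p, ∃ k, Frc q (fun U => App (E U) (mk U f) (mk U a) (mk U (natN k))) := by
  obtain ⟨x, hx⟩ := frc_ex (S := fun U y => App (E U) (mk U f) (mk U a) y)
    (h.imp fun U h => h.1.ex h.2)
  obtain ⟨q, hq, k, hk⟩ := decide_nat (x := x) fun U hU => ((h U hU).1.dom (hx U hU)).2
  refine ⟨q, hq, k, fun U hU => ?_⟩
  have h1 : mk U x = mk U (natN k) := hk U hU
  beta_reduce
  rw [← h1]
  exact hx.mono hq U hU

/-- The function on `{A i}` whose value at `A i` is `k` below the conditions in `g i k`. -/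
def niceN {ι : Type} (A : ι → Nm P) (g : ι → ℕ → LowerSet P) : Nm P :=
  rel (fun t : ι × ℕ => A t.1) (fun t => natN t.2) (fun t U => (g t.1 t.2 : Set P) ∈ U.U)

instance cLower (S : LowerSet P) : C (fun U : Ult P => (S : Set P) ∈ U.U) := ⟨cl_set S.lower⟩

/-- The truth values of the statements `m (A i) = k`. -/
def nice {ι : Type} (A : ι → Nm P) (m : Nm P) (i : ι) (k : ℕ) : LowerSet P :=
  ⟨{p | Frc p (fun U => App (E U) (mk U m) (mk U (A i)) (mk U (natN k)))}, lower_frc _⟩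

theorem app_niceN {ι : Type} {A : ι → Nm P} {g : ι → ℕ → LowerSet P} {i : ι} {k : ℕ}
    (h : (g i k : Set P) ∈ U.U) :
    App (E U) (mk U (niceN A g)) (mk U (A i)) (mk U (natN k)) :=
  rel_intro (A := fun t : ι × ℕ => A t.1) (B := fun t => natN t.2)
    (Q := fun t U => (g t.1 t.2 : Set P) ∈ U.U) (i, k) h

theorem eq_niceN {ι : Type} {A : ι → Nm P} {K m : Nm P}
    (hK : ∀ a p, Frc p (fun U => E U (mk U a) (mk U K)) →
      ∃ q ≤ p, ∃ i, Frc q (fun U => mk U a = mk U (A i)))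
    (h : IsFun (E U) (mk U m) (mk U K) (mk U omegaN)) : mk U m = mk U (niceN A (nice A m)) := by
  refine rel_ext h.pairs rel_pairs fun a b => ⟨fun h' => ?_, fun h' => ?_⟩
  · obtain ⟨a, rfl⟩ := mk_surj a
    obtain ⟨b, rfl⟩ := mk_surj b
    obtain ⟨h1, h2⟩ := h.dom h'
    clear h
    revert h1 h'
    refine nat_cases (fun k U e h' h1 => ?_) U h2
    rw [e] at h' ⊢
    clear e
    revert h'
    refine by_dense (H := fun U => E U (mk U a) (mk U K))
      (R := fun U => App (E U) (mk U m) (mk U a) (mk U (natN k)) →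
        App (E U) (mk U (niceN A (nice A m))) (mk U a) (mk U (natN k))) (fun p hp => ?_) U h1
    obtain ⟨q, hq, i, hi⟩ := hK a p hp
    refine ⟨q, hq, hi.imp fun U e h' => ?_⟩
    rw [e] at h' ⊢
    exact app_niceN ((cl (Q := fun U => App (E U) (mk U m) (mk U (A i)) (mk U (natN k))) U).1 h')
  · obtain ⟨a, rfl⟩ := mk_surj a
    obtain ⟨b, rfl⟩ := mk_surj b
    clear h
    refine rel_cases (fun t U h1 e1 e2 => ?_) U h'
    rw [e1, e2]
    exact (cl (Q := fun U => App (E U) (mk U m) (mk U (A t.1)) (mk U (natN t.2))) U).2 h1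

end Pool.Agent.H42.ZF
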