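import Pool.Agent.H42.Frc3

/-! Posets of partial functions, supports, countably closed posets. -/

namespace Pool.Agent.H42.ZF

open Set Cardinal

section closed
variable {P : Type} [Preorder P] {U : Ult P}

theorem fin_cases {T : Type*} [Nonempty T] {p : P} {R : ℕ → T → Ult P → Prop} (N : ℕ)
    (h : ∀ n < N, ∀ q ≤ p, ∃ r ≤ q, ∃ a, Frc r (R n a)) :
    ∃ q ≤ p, ∃ g : ℕ → T, ∀ n < N, Frc q (R n (g n)) := by
  induction N with
  | zero => exact ⟨p, le_rfl, fun _ => Classical.arbitrary T, fun _ h => absurd h (by omega)⟩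
  | succ N ih =>
    obtain ⟨q, hq, g, hg⟩ := ih fun n hn => h n (by omega)
    obtain ⟨r, hr, a, ha⟩ := h N (by omega) q hq
    refine ⟨r, hr.trans hq, Function.update g N a, fun n hn => ?_⟩
    rcases Nat.lt_succ_iff_lt_or_eq.1 hn with h' | rfl
    · rw [Function.update_of_ne h'.ne]; exact (hg n h').mono hr
    · rwa [Function.update_self]

/-- Every decreasing sequence has a lower bound. -/
def SClosed (P : Type) [Preorder P] : Prop := ∀ p : ℕ → P, Antitone p → ∃ q, ∀ n, q ≤ p n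

theorem omega_cases (hP : SClosed P) {T : Type*} {p : P} {R : ℕ → T → Ult P → Prop}
    (h : ∀ n, ∀ q ≤ p, ∃ r ≤ q, ∃ a, Frc r (R n a)) :
    ∃ q ≤ p, ∃ g : ℕ → T, ∀ n, Frc q (R n (g n)) := by
  choose! F hF G hG using fun n (q : {q // q ≤ p}) => h n q.1 q.2
  let s : ℕ → {q // q ≤ p} := fun n =>
    Nat.rec ⟨p, le_rfl⟩ (fun n q => ⟨F n q, (hF n q).trans q.2⟩) n
  obtain ⟨q, hq⟩ := hP (fun n => (s n).1) (antitone_nat_of_succ_le fun n => hF n (s n))
  exact ⟨q, hq 0, fun n => G n (s n), fun n => (hG n (s n)).mono (hq (n + 1))⟩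

/-- The name of a ground model function `ℕ → ℕ`. -/
def realN (r : ℕ → ℕ) : Nm P := fullN (fun n => natN (r n))

theorem isFun_realN (r : ℕ → ℕ) :
    IsFun (E U) (mk U (realN r)) (mk U omegaN) (mk U omegaN) :=
  (cl (Q := fun U : Ult P => IsFun (E U) (mk U (realN r)) (mk U omegaN) (mk U omegaN))).all
    (fun q => ⟨q, le_rfl, isFun_fullN fun _ _ _ => nat_mem_omega _⟩) U

theorem app_realN {r : ℕ → ℕ} {n k : ℕ} :
    App (E U) (mk U (realN r)) (mk U (natN n)) (mk U (natN k)) ↔ k = r n :=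
  app_fullN_iff.trans ⟨natN_inj, fun h => h ▸ rfl⟩

theorem realN_inj {r s : ℕ → ℕ} (h : mk U (realN r) = mk U (realN s)) : r = s :=
  funext fun _ => app_realN.1 (h ▸ app_realN.2 rfl)

theorem eq_fullN {f B : Nm P} {g : ℕ → Nm P} {p : P}
    (hf : Frc p (fun U => IsFun (E U) (mk U f) (mk U omegaN) (mk U B)))
    (h : ∀ n, Frc p (fun U => App (E U) (mk U f) (mk U (natN n)) (mk U (g n)))) :
    Frc p (fun U => mk U f = mk U (fullN g)) := by
  intro U hU
  refine ((isFun_fullN (B := B) (fun n U hU => ((hf U hU).dom (h n U hU)).2) U hU).eq (hf U hU)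
    fun a b h' => ?_).symm
  obtain ⟨a, rfl⟩ := mk_surj a
  obtain ⟨b, rfl⟩ := mk_surj b
  revert hU
  refine rel_cases (fun i U _ e1 e2 hU => ?_) U h'
  rw [e1, e2]
  exact h i U hU

theorem no_new_real (hP : SClosed P) {z : Nm P} {p : P}
    (h : Frc p (fun U => IsFun (E U) (mk U z) (mk U omegaN) (mk U omegaN))) :
    ∃ q ≤ p, ∃ r, Frc q (fun U => mk U z = mk U (realN r)) := by
  obtain ⟨q, hq, r, hr⟩ := omega_cases hP (p := p)
    (R := fun n k U => App (E U) (mk U z) (mk U (natN n)) (mk U (natN k)))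
    fun n q hq => decide_app fun U hU => ⟨h.mono hq U hU, nat_mem_omega n⟩
  exact ⟨q, hq, r, eq_fullN (h.mono hq) hr⟩

end closed

/-- Partial functions from `L` to `V` with domain of size below `θ`. -/
structure Fn (θ : Cardinal.{0}) (L V : Type) where
  f : L → Option V
  small : #{x | f x ≠ none} < θ

variable {θ : Cardinal.{0}} {L V : Type}

instance : Preorder (Fn θ L V) where
  le q p := ∀ x k, p.f x = some k → q.f x = some k
  le_refl _ _ _ h := h
  le_trans _ _ _ h h' x k h'' := h x k (h' x k h'')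

theorem Fn.le_def {p q : Fn θ L V} : q ≤ p ↔ ∀ x k, p.f x = some k → q.f x = some k := Iff.rfl

open Classical in
/-- restriction -/
noncomputable def Fn.res (p : Fn θ L V) (A : Set L) : Fn θ L V :=
  ⟨fun x => if x ∈ A then p.f x else none, lt_of_le_of_lt (mk_le_mk_of_subset fun x hx => by
    by_cases h : x ∈ A <;> simp_all) p.small⟩

theorem Fn.res_some {p : Fn θ L V} {A : Set L} {x : L} {k : V} :
    (p.res A).f x = some k ↔ x ∈ A ∧ p.f x = some k := by
  by_cases h : x ∈ A <;> simp [Fn.res, h]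

theorem Fn.le_res (p : Fn θ L V) (A : Set L) : p ≤ p.res A := fun _ _ h => (Fn.res_some.1 h).2

theorem Fn.res_mono {p q : Fn θ L V} (h : q ≤ p) {A B : Set L} (h' : A ⊆ B) :
    q.res B ≤ p.res A := fun x k h1 =>
  Fn.res_some.2 ⟨h' (Fn.res_some.1 h1).1, h x k (Fn.res_some.1 h1).2⟩

/-- union, with priority to the left -/
def Fn.un (hθ : ℵ₀ ≤ θ) (p q : Fn θ L V) : Fn θ L V :=
  ⟨fun x => (p.f x).or (q.f x), lt_of_le_of_lt
    ((mk_le_mk_of_subset (t := {x | p.f x ≠ none} ∪ {x | q.f x ≠ none}) fun x hx => by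
      by_cases h : p.f x = none <;> simp_all).trans (mk_union_le _ _))
    (add_lt_of_lt hθ p.small q.small)⟩

theorem Fn.un_some {hθ : ℵ₀ ≤ θ} {p q : Fn θ L V} {x : L} {k : V} :
    (Fn.un hθ p q).f x = some k ↔ p.f x = some k ∨ p.f x = none ∧ q.f x = some k := by
  simp [Fn.un, Option.or_eq_some_iff]

theorem Fn.un_le (hθ : ℵ₀ ≤ θ) (p q : Fn θ L V) : Fn.un hθ p q ≤ p :=
  fun _ _ h => Fn.un_some.2 (Or.inl h)

theorem Fn.un_le' (hθ : ℵ₀ ≤ θ) {p q : Fn θ L V}
    (h : ∀ x k l, p.f x = some k → q.f x = some l → k = l) : Fn.un hθ p q ≤ q := by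
  intro x k hk
  rw [Fn.un_some]
  cases hp : p.f x with
  | none => exact Or.inr ⟨rfl, hk⟩
  | some l => exact Or.inl (by rw [h x l k hp hk])

theorem Fn.compat {p q r : Fn θ L V} (h1 : r ≤ p) (h2 : r ≤ q) (x : L) (k l : V)
    (hk : p.f x = some k) (hl : q.f x = some l) : k = l :=
  Option.some.inj ((h1 x k hk).symm.trans (h2 x l hl))

open Classical in
/-- the condition with a single value -/
noncomputable def Fn.one (hθ : ℵ₀ ≤ θ) (x : L) (k : V) : Fn θ L V :=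
  ⟨fun y => if y = x then some k else none, lt_of_le_of_lt
    (mk_le_mk_of_subset (t := {x}) fun y hy => by by_contra h; simp_all)
    (by rw [mk_singleton]; exact one_lt_aleph0.trans_le hθ)⟩

theorem Fn.one_some {hθ : ℵ₀ ≤ θ} {x y : L} {k l : V} :
    (Fn.one hθ x k).f y = some l ↔ y = x ∧ k = l := by
  by_cases h : y = x <;> simp [Fn.one, h]

/-- Adding a value at a new point. -/
theorem Fn.add (hθ : ℵ₀ ≤ θ) (p : Fn θ L V) {x : L} (h : p.f x = none) (k : V) :
    ∃ q ≤ p, q.f x = some k ∧ ∀ y, y ≠ x → q.f y = p.f y := by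
  refine ⟨Fn.un hθ p (Fn.one hθ x k), Fn.un_le _ _ _,
    Fn.un_some.2 (Or.inr ⟨h, Fn.one_some.2 ⟨rfl, rfl⟩⟩), fun y hy => ?_⟩
  simp [Fn.un, Fn.one, hy]

theorem Fn.val (hθ : ℵ₀ ≤ θ) [Nonempty V] (p : Fn θ L V) (x : L) :
    ∃ q ≤ p, ∃ k, q.f x = some k := by
  cases h : p.f x with
  | none =>
    obtain ⟨q, hq, h1, -⟩ := p.add hθ h (Classical.arbitrary V)
    exact ⟨q, hq, _, h1⟩
  | some k => exact ⟨p, le_rfl, k, h⟩

/-- The conditions that give `x` the value `k`. -/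
def gen (x : L) (k : V) : LowerSet (Fn θ L V) := ⟨{p | p.f x = some k}, fun _ _ h h' => h x k h'⟩

theorem gen_uniq {U : Ult (Fn θ L V)} {x : L} {k l : V}
    (h : ((gen x k : LowerSet (Fn θ L V)) : Set (Fn θ L V)) ∈ U.U)
    (h' : ((gen x l : LowerSet (Fn θ L V)) : Set (Fn θ L V)) ∈ U.U) : k = l := by
  obtain ⟨p, h1, h2⟩ := Filter.nonempty_of_mem (Filter.inter_mem h h')
  exact Option.some.inj ((show p.f x = some k from h1).symm.trans h2)

theorem frc_lower {P : Type} [Preorder P] {S : LowerSet P} {p : P} (h : p ∈ S) :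
    Frc p (fun U => (S : Set P) ∈ U.U) :=
  fun _ hU => Filter.mem_of_superset hU fun _ hq => S.lower hq h

theorem Fn.sup (hθ : θ.IsRegular) {ι : Type} (hι : #ι < θ) (p : ι → Fn θ L V)
    (h : ∀ i j x k l, (p i).f x = some k → (p j).f x = some l → k = l) :
    ∃ q : Fn θ L V, (∀ i, q ≤ p i) ∧ ∀ x k, q.f x = some k → ∃ i, (p i).f x = some k := by
  classical
  refine ⟨⟨fun x => if h : ∃ i, (p i).f x ≠ none then (p h.choose).f x else none, ?_⟩,
    fun i x k hk => ?_, fun x k hk => ?_⟩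
  · refine lt_of_le_of_lt (mk_le_mk_of_subset (t := ⋃ i, {x | (p i).f x ≠ none}) fun x hx => ?_)
      ((card_iUnion_lt_iff_forall_of_isRegular hθ hι).2 fun i => (p i).small)
    by_contra hc
    simp only [mem_iUnion, not_exists] at hc
    exact hx (dif_neg fun ⟨i, hi⟩ => hc i hi)
  · have h1 : ∃ i, (p i).f x ≠ none := ⟨i, by simp [hk]⟩
    simp only [dif_pos h1]
    obtain ⟨l, hl⟩ := Option.ne_none_iff_exists'.1 h1.choose_spec
    rw [hl, h _ _ x l k hl hk]
  · by_cases h1 : ∃ i, (p i).f x ≠ none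
    · simp only [dif_pos h1] at hk; exact ⟨_, hk⟩
    · simp only [dif_neg h1] at hk; cases hk

theorem Fn.sup_nat (hθ : θ.IsRegular) (h0 : ℵ₀ < θ) (p : ℕ → Fn θ L V) (h : Antitone p) :
    ∃ q : Fn θ L V, (∀ i, q ≤ p i) ∧ ∀ x k, q.f x = some k → ∃ i, (p i).f x = some k :=
  Fn.sup hθ (by rwa [mk_nat]) p fun i j =>
    Fn.compat (h (le_max_left i j)) (h (le_max_right i j))

theorem Fn.sclosed (hθ : θ.IsRegular) (h0 : ℵ₀ < θ) : SClosed (Fn θ L V) := fun p h =>
  (Fn.sup_nat hθ h0 p h).imp fun _ h => h.1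

/-- `Q` depends only on the coordinates in `A`. -/
def Supp (A : Set L) (Q : Ult (Fn θ L V) → Prop) : Prop := ∀ p, Frc p Q → Frc (p.res A) Q

theorem Supp.mono {A B : Set L} {Q : Ult (Fn θ L V) → Prop} (h : Supp A Q) (h' : A ⊆ B) :
    Supp B Q := fun p hp => (h p hp).mono (Fn.res_mono le_rfl h')

theorem exists_closed {α L : Type} {β : α → Type} {κ : Cardinal.{0}}
    (hκ : sum (fun a => κ ^ #(β a)) ≤ κ) (Φ : ∀ a, (β a → L) → L) :
    ∃ A : Set L, #A ≤ κ ∧ ∀ a f, (∀ i, f i ∈ A) → Φ a f ∈ A := by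
  let ev : WType β → L := WType.elim L (fun t => Φ t.1 t.2)
  refine ⟨range ev, mk_range_le.trans (WType.cardinalMk_le_of_le' (by simpa using hκ)), fun a f hf => ?_⟩
  choose g hg using hf
  exact ⟨WType.mk a g, by simp only [ev, WType.elim]; congr 1; exact funext hg⟩

theorem exists_supp (hθ : ℵ₀ ≤ θ) [Nonempty L] {κ : Cardinal.{0}} (h1 : θ ≤ κ) (h2 : #V ≤ κ)
    (h3 : ∀ μ < θ, κ ^ μ ≤ κ) (Q : Ult (Fn θ L V) → Prop) [C Q] :
    ∃ A : Set L, #A ≤ κ ∧ Supp A Q := by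
  classical
  have hκ : ℵ₀ ≤ κ := hθ.trans h1
  let J := θ.ord.ToType
  have hJ : #J = θ := mk_ord_toType _
  have hI : ∀ j : J, #(Iio j) < θ := fun j => mk_Iio_toType_ord_lt j
  have hdec : ∀ p : Fn θ L V, ∃ q ≤ p, Frc q Q ∨ Frc q (fun U => ¬ Q U) := fun p => by
    by_cases h : Frc p Q
    · exact ⟨p, le_rfl, Or.inl h⟩
    · obtain ⟨q, hq, h'⟩ := (cl (Q := Q)).decide h
      exact ⟨q, hq, Or.inr h'⟩
  choose ext hext hd using hdec
  have hen : ∀ p : Fn θ L V, ∃ e : J → L, ∀ x, p.f x ≠ none → ∃ j, e j = x := fun p => by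
    obtain ⟨i⟩ : Nonempty ({x | p.f x ≠ none} ↪ J) := by
      rw [← Cardinal.le_def, hJ]; exact p.small.le
    refine ⟨fun j => if h : ∃ x, i x = j then h.choose.1 else Classical.arbitrary L,
      fun x hx => ⟨i ⟨x, hx⟩, ?_⟩⟩
    have h : ∃ y, i y = i ⟨x, hx⟩ := ⟨_, rfl⟩
    simp only [dif_pos h]
    rw [i.injective h.choose_spec]
  choose en hen using hen
  let cond : ∀ j : J, (Iio j → V) → (Iio j → L) → Fn θ L V := fun j v e =>
    ⟨fun x => if h : ∃ i, e i = x then some (v h.choose) else none,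
      lt_of_le_of_lt ((mk_le_mk_of_subset (t := range e) fun x hx => by
        by_contra hc; exact hx (dif_neg hc)).trans mk_range_le) (hI j)⟩
  obtain ⟨A, hA, hcl⟩ := exists_closed (α := Σ j : J, (Iio j → V) × J) (β := fun a => Iio a.1)
    (κ := κ) (by
      refine (sum_le_sum _ (fun _ => κ) fun a : Σ j : J, (Iio j → V) × J =>
        h3 _ (hI a.1)).trans ?_
      rw [sum_const']
      refine (mul_le_mul_left ?_ _).trans (mul_eq_self hκ).le
      rw [mk_sigma]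
      refine (sum_le_sum _ (fun _ => κ) fun j => ?_).trans ?_
      · rw [mk_prod, lift_id, lift_id, mk_arrow, lift_id, lift_id, hJ]
        exact (mul_le_mul' ((power_le_power_right h2).trans (h3 _ (hI j))) h1).trans
          (mul_eq_self hκ).le
      · rw [sum_const', hJ]
        exact (mul_le_mul_left h1 _).trans (mul_eq_self hκ).le)
    (fun a e => en (ext (cond a.1 a.2.1 e)) a.2.2)
  have key : ∀ p : Fn θ L V, (∀ x k, p.f x = some k → x ∈ A) →
      ∃ q ≤ p, (∀ x k, q.f x = some k → x ∈ A) ∧ (Frc q Q ∨ Frc q (fun U => ¬ Q U)) := by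
    intro p hp
    obtain ⟨j, hj⟩ : ∃ j : J, #(Iio j) = #{x | p.f x ≠ none} := by
      refine ⟨Ordinal.enum (α := J) (· < ·) ⟨(#{x | p.f x ≠ none}).ord, by
        rw [Ordinal.type_toType]; exact mem_Iio.2 (ord_lt_ord.2 p.small)⟩, ?_⟩
      refine (Ordinal.card_typein (r := (· < ·)) _).symm.trans ?_
      exact (congrArg Ordinal.card (Ordinal.typein_enum _ _)).trans (card_ord _)
    obtain ⟨e⟩ := Cardinal.eq.1 hj
    have hv : ∀ i, ∃ k, p.f (e i).1 = some k := fun i => Option.ne_none_iff_exists'.1 (e i).2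
    choose v hv using hv
    have hle : cond j v (fun i => (e i).1) ≤ p := by
      intro x k hk
      have h : ∃ i, (e i).1 = x := ⟨e.symm ⟨x, by simp [hk]⟩, by simp⟩
      simp only [cond, dif_pos h]
      rw [← hv, h.choose_spec, hk]
    refine ⟨_, (hext _).trans hle, fun x k hk => ?_, hd _⟩
    obtain ⟨i, rfl⟩ := hen _ x (by rw [hk]; simp)
    exact hcl ⟨j, v, i⟩ (fun i => (e i).1) fun i => hp _ _ (hv i)
  refine ⟨A, hA, fun p hp => ?_⟩
  by_contra hc
  obtain ⟨q, hq, hq'⟩ := (cl (Q := Q)).decide hc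
  obtain ⟨r, hr, hrA, hr'⟩ := key (q.res A) fun x k h => (Fn.res_some.1 h).1
  rcases hr' with h | h
  · have h1 : Fn.un hθ r q ≤ q := Fn.un_le' hθ fun x k l hk hl =>
      Option.some.inj (hk.symm.trans (hr x l (Fn.res_some.2 ⟨hrA x k hk, hl⟩)))
    obtain ⟨U, hU, h2⟩ := (h.mono (Fn.un_le hθ r q)).ex
    exact hq'.mono h1 U hU h2
  · have h1 : Fn.un hθ r p ≤ p := Fn.un_le' hθ fun x k l hk hl =>
      Option.some.inj (hk.symm.trans (hr x l (Fn.res_some.2 ⟨hrA x k hk,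
        hq x l (Fn.res_some.2 ⟨hrA x k hk, hl⟩)⟩)))
    obtain ⟨U, hU, h2⟩ := (h.mono (Fn.un_le hθ r p)).ex
    exact h2 (hp.mono h1 U hU)

/-- A common support for a family of statements. -/
theorem exists_supp' (hθ : ℵ₀ ≤ θ) [Nonempty L] {κ : Cardinal.{0}} (h1 : θ ≤ κ) (h2 : #V ≤ κ)
    (h3 : ∀ μ < θ, κ ^ μ ≤ κ) {ι : Type} (hι : #ι ≤ κ) (Q : ι → Ult (Fn θ L V) → Prop)
    [∀ i, C (Q i)] : ∃ A : Set L, #A ≤ κ ∧ ∀ i, Supp A (Q i) := by
  choose A hA hQ using fun i => exists_supp hθ h1 h2 h3 (Q i)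
  refine ⟨⋃ i, A i, mk_iUnion_le_sum_mk.trans ((sum_le_sum _ (fun _ => κ) hA).trans ?_),
    fun i => (hQ i).mono (subset_iUnion _ i)⟩
  rw [sum_const']
  exact (mul_le_mul_left hι _).trans (mul_eq_self (hθ.trans h1)).le

/-- A statement supported in `A` and forced by an extension of `p` is forced by an extension that
agrees with `p` outside `A`. -/
theorem Supp.ext (hθ : ℵ₀ ≤ θ) {A : Set L} {Q : Ult (Fn θ L V) → Prop} (h : Supp A Q)
    {p q : Fn θ L V} (hq : q ≤ p) (hQ : Frc q Q) :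
    ∃ r ≤ p, Frc r Q ∧ ∀ x, x ∉ A → r.f x = p.f x := by
  refine ⟨Fn.un hθ p (q.res A), Fn.un_le _ _ _, (h q hQ).mono (Fn.un_le' hθ fun x k l hk hl =>
    Option.some.inj ((hq x k hk).symm.trans (Fn.res_some.1 hl).2)), fun x hx => ?_⟩
  simp [Fn.un, Fn.res, hx]

end Pool.Agent.H42.ZF
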