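import Pool.Agent.H42.FwDefs
import Pool.Agent.H42.Dirac

/-! A Lindelöf tree whose square is not Lindelöf. -/

namespace Pool.Agent.H42.Fw1

open Set Filter Topology Pool.Agent.H42.FwDefs Pool.Agent.H42.Dirac

lemma pairs (h : DomAleph1) : ∃ a b : W → ℕ → ℕ, (∀ α m n, a α m ≤ n ∨ b α n ≤ m) ∧
    ∀ G : ℕ → ℕ, {α | a α ≤ G ∨ b α ≤ G}.Countable := by
  classical
  obtain ⟨D, d1, d2⟩ := h
  obtain ⟨e⟩ : Nonempty (D ↪ W) := by rwa [← Cardinal.le_def, W_card]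
  have : Nonempty D := let ⟨g, x, _⟩ := d2 0; ⟨⟨g, x⟩⟩
  let d : W → ℕ → ℕ := fun α => (Function.invFun e α).1
  choose r hr using fun α : W => (Iic_count α).exists_eq_range nonempty_Iic
  let y : W → ℕ → ℕ := fun α n => n + 1 + ∑ i ∈ Finset.range (n + 1), d (r α i) n
  have s : ∀ α, StrictMono fun k => (y α)^[k] 0 := fun α => strictMono_nat_of_lt_succ fun k => by
    simp only [Function.iterate_succ_apply', y]; omega
  let c : ℕ → W → ℕ → ℕ := fun i α m => if ∃ k, (y α)^[2 * k + i] 0 = m then y α m else 0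
  refine ⟨c 0, c 1, fun α m n => ?_, fun G => ?_⟩
  · simp only [c]
    split_ifs with h1 h2
    · obtain ⟨k, rfl⟩ := h1
      obtain ⟨j, rfl⟩ := h2
      simp only [← Function.iterate_succ_apply' (y α)]
      exact (le_or_gt k j).imp (fun l => (s α).monotone (by omega)) fun l => (s α).monotone (by omega)
    all_goals simp
  obtain ⟨g, g1, g2⟩ := d2 G
  obtain ⟨N, hN⟩ := eventually_atTop.1 g2
  refine (Iio_count (e ⟨g, g1⟩)).mono fun α x => ?_
  refine not_le.1 fun l : e ⟨g, g1⟩ ≤ α => ?_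
  obtain ⟨i, hi⟩ : e ⟨g, g1⟩ ∈ range (r α) := hr α ▸ l
  have k : ∀ j, ¬ c j α ≤ G := fun j z => by
    have l := (s α).le_apply (x := 2 * (N + i) + j)
    have := z ((y α)^[2 * (N + i) + j] 0)
    simp only [c, if_pos (⟨N + i, rfl⟩ : ∃ k, (y α)^[2 * k + j] 0 = (y α)^[2 * (N + i) + j] 0)] at this
    generalize (y α)^[2 * (N + i) + j] 0 = m at this l
    have u := Finset.single_le_sum (f := fun i => d (r α i) m) (fun _ _ => Nat.zero_le _)
      (Finset.mem_range.2 (by omega : i < m + 1))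
    have v := hN m (by omega)
    simp only [hi, d, Function.leftInverse_invFun e.injective _] at u
    simp only [y, d] at this
    omega
  exact x.elim (k 0) (k 1)

/-- Finite sequences together with the infinite sequences in `X`. -/
def TT (X : Set (ℕ → ℕ)) : Type :=
  {p : ℕ∞ × (ℕ → ℕ) // (∀ i : ℕ, p.1 ≤ i → p.2 i = 0) ∧ (p.1 = ⊤ → p.2 ∈ X)}

variable {X : Set (ℕ → ℕ)}

lemma TT.ext (x y : TT X) (a : x.1.1 = y.1.1) (b : ∀ i : ℕ, i < x.1.1 → x.1.2 i = y.1.2 i) : x = y :=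
  Subtype.ext (Prod.ext a (funext fun i => (lt_or_ge (i : ℕ∞) x.1.1).elim (b i) fun c =>
    (x.2.1 i c).trans (y.2.1 i (a ▸ c)).symm))

instance : PartialOrder (TT X) where
  le x y := x.1.1 ≤ y.1.1 ∧ ∀ i : ℕ, i < x.1.1 → x.1.2 i = y.1.2 i
  le_refl _ := ⟨le_rfl, fun _ _ => rfl⟩
  le_trans _ _ _ a b := ⟨a.1.trans b.1, fun i c => (a.2 i c).trans (b.2 i (c.trans_le a.1))⟩
  le_antisymm x y a b := TT.ext x y (a.1.antisymm b.1) a.2

lemma cmp {x y t : TT X} (a : x ≤ t) (b : y ≤ t) (l : x.1.1 ≤ y.1.1) : x ≤ y :=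
  ⟨l, fun i z => (a.2 i z).trans (b.2 i (z.trans_le l)).symm⟩

/-- The finite node of length `n` along `f`. -/
def nd (X) (f : ℕ → ℕ) (n : ℕ) : TT X :=
  ⟨(n, fun i => if i < n then f i else 0), fun _ h => if_neg (Nat.cast_le.1 h).not_gt,
    fun h => (ENat.natCast_ne_top n h).elim⟩

lemma nd_le {f n} {u : TT X} : nd X f n ≤ u ↔ n ≤ u.1.1 ∧ ∀ i < n, f i = u.1.2 i :=
  and_congr_right fun _ => forall_congr' fun i => by
    simp only [nd, Nat.cast_lt]
    exact imp_congr_right fun h => by rw [if_pos h]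

lemma op (t : TT X) : IsOpen (X := FW (TT X)) {s : TT X | t ≤ s} ∧
    IsOpen (X := FW (TT X)) {s : TT X | t ≤ s}ᶜ :=
  ⟨.basic _ (Or.inl ⟨t, rfl⟩), .basic _ (Or.inr ⟨t, rfl⟩)⟩

lemma base {U : Set (FW (TT X))} (h : IsOpen U) (t : TT X) (x : t ∈ U) :
    ∃ k, ∀ u : TT X, t ≤ u → (∀ n : ℕ, t.1.1 = n → k < u.1.2 n) → u ∈ U := by
  induction h with
  | basic s h =>
    rcases h with ⟨s, rfl⟩ | ⟨s, rfl⟩
    · exact ⟨0, fun u a _ => le_trans x a⟩
    refine ⟨s.1.2 t.1.1.toNat, fun u a b c => ?_⟩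
    have l := not_le.1 fun l => x (cmp c a l)
    obtain ⟨n, e⟩ := ENat.ne_top_iff_exists.1 l.ne_top
    exact (b n e.symm).ne (by rw [← e]; exact c.2 n (e ▸ l))
  | univ => exact ⟨0, fun _ _ _ => trivial⟩
  | inter s s' _ _ a b =>
    obtain ⟨k, a⟩ := a x.1
    obtain ⟨j, b⟩ := b x.2
    exact ⟨max k j, fun u c d => ⟨a u c fun n e => (le_max_left _ _).trans_lt (d n e),
      b u c fun n e => (le_max_right _ _).trans_lt (d n e)⟩⟩
  | sUnion S _ a =>
    obtain ⟨s, s1, s2⟩ := x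
    obtain ⟨k, a⟩ := a s s1 s2
    exact ⟨k, fun u c d => ⟨s, s1, a u c d⟩⟩

lemma lind (h : ∀ G, {x ∈ X | x ≤ G}.Countable) : LindelofSpace (FW (TT X)) := by
  refine ⟨isLindelof_of_countable_subcover fun U u1 u2 => ?_⟩
  choose j hj using fun t : TT X => mem_iUnion.1 (u2 (mem_univ t))
  choose g hg using fun t => base (u1 (j t)) t (hj t)
  let K := {f : ℕ → ℕ | ∀ n, f n ≤ g (nd X f n)}
  have fin : ∀ n, ((nd X · n) '' K).Finite := fun n => by
    induction n with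
    | zero => exact (finite_singleton (nd X 0 0)).subset (image_subset_iff.2 fun f _ =>
        TT.ext _ _ rfl fun i l => (not_lt_zero l).elim)
    | succ n ih =>
      refine (ih.biUnion fun t _ => (finite_Iic (g t)).image fun i =>
        nd X (Function.update t.1.2 n i) (n + 1)).subset (image_subset_iff.2 fun f x =>
          mem_biUnion (mem_image_of_mem _ x) ⟨f n, x n, TT.ext _ _ rfl fun i l => ?_⟩)
      replace l : i < n + 1 := Nat.cast_lt.1 l
      by_cases e : i = n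
      · simp [nd, e]
      · simp [nd, e, (Nat.lt_succ_iff.1 l).lt_of_ne e]
  choose G hG using fun n => ((fin n).image g).bddAbove
  have c : ({t : TT X | t.1.1 ≠ ⊤} ∪ {t | t.1.1 = ⊤ ∧ t.1.2 ≤ G}).Countable := by
    refine .union (.mono (fun t x => ?_) (countable_range fun p : ℕ × (ℕ →₀ ℕ) => nd X p.2 p.1))
      (MapsTo.countable_of_injOn (f := fun t => t.1.2) (t := {x ∈ X | x ≤ G})
        (fun t x => ⟨t.2.2 x.1, x.2⟩)
        (fun t x u y e => Subtype.ext (Prod.ext (x.1.trans y.1.symm) e)) (h G))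
    obtain ⟨n, e⟩ := ENat.ne_top_iff_exists.1 x
    exact ⟨(n, .ofSupportFinite t.1.2 ((finite_Iio n).subset fun i y => not_le.1 fun l =>
      y (t.2.1 i (e ▸ Nat.cast_le.2 l)))), TT.ext _ _ e fun i l => if_pos (Nat.cast_lt.1 l)⟩
  refine ⟨_, c.image j, fun (t : TT X) _ => by_contra fun e => e (mem_biUnion (mem_image_of_mem j
    (by_contra fun d => e ?_)) (hj t))⟩
  rw [mem_union, not_or] at d
  have k := not_not.1 d.1
  obtain ⟨n, l⟩ := not_forall.1 fun z : t.1.2 ∈ K => d.2 ⟨k, fun n => (z n).trans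
    (hG n (mem_image_of_mem g (mem_image_of_mem _ z)))⟩
  exact mem_biUnion (mem_image_of_mem j (Or.inl (ENat.natCast_ne_top n))) (hg (nd X t.1.2 n) t
    (nd_le.2 ⟨le_top.trans k.ge, fun _ _ => rfl⟩) fun m z => Nat.cast_injective (R := ℕ∞) z ▸ not_le.1 l)

theorem main (h : DomAleph1) : ∃ (T : Type) (_ : PartialOrder T), IsForest T ∧
    LindelofSpace (FW T) ∧ ¬ LindelofSpace (FW T × FW T) := by
  obtain ⟨a, b, h1, h2⟩ := pairs h
  let X := range a ∪ range b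
  have sm : StrictMono fun x : TT X => x.1.1 := fun x y l =>
    l.le.1.lt_of_ne fun c => l.ne (TT.ext x y c l.le.2)
  have wf : WellFoundedLT (TT X) := sm.wellFoundedLT
  refine ⟨TT X, inferInstance, fun t => ⟨fun x c y d _ => (le_total x.1.1 y.1.1).imp
    (cmp c.le d.le) (cmp d.le c.le), .of_wellFoundedLT _⟩, lind fun G =>
      (((h2 G).image a).union ((h2 G).image b)).mono ?_, fun H => ?_⟩
  · rintro _ ⟨⟨α, rfl⟩ | ⟨α, rfl⟩, x⟩
    exacts [Or.inl ⟨α, Or.inl x, rfl⟩, Or.inr ⟨α, Or.inr x, rfl⟩]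
  let φ : W → FW (TT X) × FW (TT X) := fun α =>
    (⟨(⊤, a α), by simp, fun _ => Or.inl ⟨α, rfl⟩⟩, ⟨(⊤, b α), by simp, fun _ => Or.inr ⟨α, rfl⟩⟩)
  have nb : ∀ (t : TT X) (k : ℕ), ∃ V ∈ @nhds (FW (TT X)) _ t, ∀ u : TT X, u ∈ V → u.1.1 = ⊤ →
      u.1.2 ≤ t.1.2 ∨ t.1.1 ≠ ⊤ ∧ k < u.1.2 t.1.1.toNat := fun t k => by
    cases e : t.1.1 with
    | top => exact ⟨_, (op t).1.mem_nhds (le_refl t), fun u x _ => Or.inl fun i =>
        (x.2 i ((ENat.natCast_lt_top i).trans_eq e.symm)).ge⟩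
    | coe n =>
      refine ⟨_, ((op t).1.inter ((finite_Iic k).isOpen_biInter fun i _ =>
        (op (nd X (Function.update t.1.2 n i) (n + 1))).2)).mem_nhds ⟨le_refl t, mem_iInter₂.2
          fun i _ x => Nat.not_succ_le_self n (Nat.cast_le.1 ((nd_le.1 x).1.trans_eq e))⟩, fun u x y => Or.inr ⟨ENat.natCast_ne_top n,
            not_le.1 fun l => mem_iInter₂.1 x.2 _ l (nd_le.2 ⟨le_top.trans y.ge, fun i z => ?_⟩)⟩⟩
      by_cases d : i = n
      · simp [d]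
      · rw [Function.update_of_ne d]
        exact x.1.2 i (e ▸ Nat.cast_lt.2 ((Nat.lt_succ_iff.1 z).lt_of_ne d))
  choose V v1 v2 using nb
  obtain ⟨t, t1, t2⟩ := LindelofSpace.elim_nhds_subcover
    (fun z : FW (TT X) × FW (TT X) => V z.1 z.2.1.1.toNat ×ˢ V z.2 z.1.1.1.toNat)
    fun z => prod_mem_nhds (v1 _ _) (v1 _ _)
  obtain ⟨γ, hγ⟩ := bdd _ (t1.biUnion fun z _ => (h2 z.1.1.2).union (h2 z.2.1.2))
  obtain ⟨z, z1, z2, z3⟩ := mem_iUnion₂.1 (t2.symm.subset (mem_univ (φ γ)))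
  refine lt_irrefl γ (hγ γ (mem_biUnion z1 ?_))
  rcases v2 _ _ _ z2 rfl with x | x
  · exact Or.inl (Or.inl x)
  rcases v2 _ _ _ z3 rfl with y | y
  · exact Or.inr (Or.inr y)
  exact ((h1 γ _ _).elim x.2.not_ge y.2.not_ge).elim

end Pool.Agent.H42.Fw1
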