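import Mathlib

/-! Trees with the fine wedge topology. -/

namespace Pool.Agent.H42.FwDefs

open Set

/-- A tree: the predecessors of every node are well-ordered. -/
def IsForest (T : Type) [PartialOrder T] : Prop :=
  ∀ x : T, IsChain (· ≤ ·) (Iio x) ∧ (Iio x).IsWF

/-- A copy of `T` that carries the fine wedge topology. -/
def FW (T : Type) : Type := T

/-- The fine wedge topology, generated by the cones and their complements. -/
instance fwTop (T : Type) [PartialOrder T] : TopologicalSpace (FW T) :=
  TopologicalSpace.generateFrom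
    ({V | ∃ t : T, V = {s : T | t ≤ s}} ∪ {V | ∃ t : T, V = {s : T | t ≤ s}ᶜ})

/-- The dominating number is `ℵ₁`: some family of at most `ℵ₁` functions is cofinal for eventual
domination. -/
def DomAleph1 : Prop := ∃ D : Set (ℕ → ℕ), Cardinal.mk D ≤ Cardinal.aleph 1 ∧
  ∀ f : ℕ → ℕ, ∃ g ∈ D, ∀ᶠ n in Filter.atTop, f n ≤ g n

end Pool.Agent.H42.FwDefs
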