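import Mathlib

/-! Absolutely homogeneous edge colourings with countably many colours. -/

namespace Pool.Agent.H42.GEC

open Set
open Cardinal hiding univ

universe u v

variable {V : Type u} {C : Type v} {κ : V → V → C} {e : C}

/-- Extension of colour preserving correspondences to automorphisms. -/
def Ext (κ : V → V → C) : Prop :=
  ∀ (A : Set V) (f : A → V), (∀ x y, κ (f x) (f y) = κ x y) →
    ∃ g : V ≃ V, (∀ x y, κ (g x) (g y) = κ x y) ∧ ∀ x : A, g x = f x

theorem ext_fam (he : ∀ x y, κ x y = e ↔ x = y) (h : Ext κ) {ι : Type*} (a b : ι → V)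
    (hab : ∀ i j, κ (b i) (b j) = κ (a i) (a j)) :
    ∃ g : V ≃ V, (∀ x y, κ (g x) (g y) = κ x y) ∧ ∀ i, g (a i) = b i := by
  choose s hs using fun x : range a => x.2
  obtain ⟨g, g1, g2⟩ := h (range a) (fun x => b (s x)) fun x y => by rw [hab, hs, hs]
  refine ⟨g, g1, fun i => (g2 ⟨a i, i, rfl⟩).trans ?_⟩
  rw [← he, hab, hs, he]

theorem no_clique (hs : ∀ x y, κ x y = κ y x) (he : ∀ x y, κ x y = e ↔ x = y) (h : Ext κ) {c : C}
    {K : Set V} (hK : K.Infinite) (hc : K.Pairwise fun x y => κ x y = c) : False := by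
  obtain ⟨M, hKM, hM⟩ := zorn_subset_nonempty {M : Set V | M.Pairwise fun x y => κ x y = c}
    (fun D hD hch _ => ⟨⋃₀ D, (pairwise_sUnion hch.directedOn).2 fun M hM => hD hM,
      fun M hM => subset_sUnion_of_mem hM⟩) K hc
  have : Infinite M := (hK.mono hKM).to_subtype
  obtain ⟨f, f1, f2⟩ : ∃ f : M → M, Function.Injective f ∧ ¬ Function.Surjective f := by
    by_contra hh
    push Not at hh
    obtain ⟨φ⟩ : Nonempty (Option M ≃ M) := by
      rw [← Cardinal.eq, mk_option, add_one_eq (aleph0_le_mk M)]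
    obtain ⟨x, hx⟩ := hh (fun x => φ (some x))
      (φ.injective.comp (Option.some_injective _)) (φ none)
    exact Option.some_ne_none _ (φ.injective hx)
  have hp : (M.Pairwise fun x y => κ x y = c) := hM.prop
  obtain ⟨g, g1, g2⟩ := h M (fun x => f x) fun x y => by
    by_cases d : x = y
    · rw [d, (he _ _).2 rfl, (he _ _).2 rfl]
    · rw [hp x.2 y.2 (Subtype.coe_ne_coe.2 d),
        hp (f x).2 (f y).2 (Subtype.coe_ne_coe.2 (f1.ne d))]
  obtain ⟨z, hz⟩ : ∃ z, ∀ x, f x ≠ z := by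
    by_contra hh
    push Not at hh
    exact f2 hh
  have k : ∀ x ∈ M, κ (g.symm z) x = c := fun x hx => by
    rw [← g1, Equiv.apply_symm_apply, g2 ⟨x, hx⟩]
    exact hp z.2 (f _).2 (Subtype.coe_ne_coe.2 (hz _).symm)
  have hin : g.symm z ∈ M := by
    refine hM.le_of_ge (y := insert (g.symm z) M) ?_ (subset_insert _ _) (mem_insert _ _)
    refine (pairwise_insert).2 ⟨hp, fun x hx _ => ⟨k x hx, (hs _ _).trans (k x hx)⟩⟩
  refine hz ⟨_, hin⟩ (Subtype.ext ?_)
  rw [← g2, Equiv.apply_symm_apply]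

theorem limit (hs : ∀ x y, κ x y = κ y x) (he : ∀ x y, κ x y = e ↔ x = y) (h : Ext κ)
    (a : ℕ → V) (c : ℕ → C) (hf : ∀ n, ∃ x, ∀ i < n, κ x (a i) = c i) :
    ∃ x, ∀ i, κ x (a i) = c i := by
  choose x hx using hf
  have st : ∀ n (g : V ≃ V), ∃ g' : V ≃ V, (∀ x y, κ (g x) (g y) = κ x y) →
      (∀ x y, κ (g' x) (g' y) = κ x y) ∧ g' (x (n + 1)) = g (x n) ∧
        ∀ i < n, g' (a i) = g (a i) := by
    intro n g
    by_cases hg : ∀ x y, κ (g x) (g y) = κ x y
    · obtain ⟨g', g1, g2⟩ := ext_fam he h (ι := Option (Fin n))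
        (fun o => o.elim (x (n + 1)) fun i => a i) (fun o => g (o.elim (x n) fun i => a i)) (by
          have q : ∀ i : Fin n, κ (x n) (a i) = κ (x (n + 1)) (a i) := fun i => by
            rw [hx n i i.2, hx (n + 1) i (i.2.trans (Nat.lt_succ_self n))]
          rintro (_ | i) (_ | j) <;> simp only [hg, Option.elim]
          · rw [(he _ _).2 rfl, (he _ _).2 rfl]
          · exact q j
          · rw [hs, q i, hs])
      exact ⟨g', fun _ => ⟨g1, g2 none, fun i hi => g2 (some ⟨i, hi⟩)⟩⟩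
    · exact ⟨g, fun hh => absurd hh hg⟩
  choose s hs' using st
  let G : ℕ → V ≃ V := fun n => Nat.rec (Equiv.refl V) (fun n g => s n g) n
  have G1 : ∀ n, (∀ x y, κ (G n x) (G n y) = κ x y) ∧ G n (x n) = x 0 := by
    intro n
    induction n with
    | zero => exact ⟨fun _ _ => rfl, rfl⟩
    | succ n ih => exact ⟨(hs' n _ ih.1).1, (hs' n _ ih.1).2.1.trans ih.2⟩
  have G2 : ∀ i n, i < n → G n (a i) = G (i + 1) (a i) := by
    intro i n hn
    induction n, hn using Nat.le_induction with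
    | base => rfl
    | succ n hn ih => exact ((hs' n _ (G1 n).1).2.2 i hn).trans ih
  obtain ⟨g, g1, g2⟩ := ext_fam he h (fun i => G (i + 1) (a i)) a fun i j => by
    rw [← G2 i (i + j + 1) (by omega), ← G2 j (i + j + 1) (by omega), (G1 (i + j + 1)).1]
  refine ⟨g (x 0), fun i => ?_⟩
  rw [← g2 i, g1, ← (G1 (i + 1)).2, (G1 (i + 1)).1, hx _ _ (Nat.lt_succ_self i)]

theorem fib {X : Type*} {P : Set C} (hP : P.Countable) (f : X → C) (hf : ∀ x, f x ∈ P) {U : Set X}
    (hU : ¬ U.Countable) : ∃ c, ¬ {x | x ∈ U ∧ f x = c}.Countable := by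
  by_contra hc
  push Not at hc
  refine hU ((hP.biUnion fun c _ => hc c).mono fun x hx => ?_)
  exact mem_biUnion (hf x) ⟨hx, rfl⟩

theorem split (hs : ∀ x y, κ x y = κ y x) (he : ∀ x y, κ x y = e ↔ x = y) (h : Ext κ)
    {P : Set C} (hP : P.Countable) (hκ : ∀ x y, κ x y ∈ P) {U : Set V} (hU : ¬ U.Countable) :
    ∃ a, ∃ c : Bool → C, c false ≠ c true ∧ ∀ b, ¬ {x | x ∈ U ∧ κ x a = c b}.Countable := by
  by_contra hc
  have k : ∀ a, ∃ c ∈ P, {x | x ∈ U ∧ κ x a ≠ c}.Countable := by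
    intro a
    obtain ⟨c, hc'⟩ := fib hP (fun x => κ x a) (fun x => hκ x a) hU
    obtain ⟨x, -, hx⟩ : {x | x ∈ U ∧ κ x a = c}.Nonempty :=
      nonempty_iff_ne_empty.2 fun q => hc' (q ▸ countable_empty)
    refine ⟨c, hx ▸ hκ x a, ?_⟩
    by_contra hn
    obtain ⟨d, hd⟩ := fib hP (fun x => κ x a) (fun x => hκ x a) hn
    obtain ⟨y, hy, hy'⟩ : {x | x ∈ {x | x ∈ U ∧ κ x a ≠ c} ∧ κ x a = d}.Nonempty :=
      nonempty_iff_ne_empty.2 fun q => hd (q ▸ countable_empty)
    refine hc ⟨a, fun b => cond b c d, fun q => hy.2 (hy'.trans q), fun b => ?_⟩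
    cases b
    · exact fun q => hd (q.mono fun x hx => by exact ⟨hx.1.1, hx.2⟩)
    · exact hc'
  choose c c1 c2 using k
  obtain ⟨d, hd⟩ := fib hP c c1 hU
  have st : ∀ s : Finset V, ∃ x, (x ∈ U ∧ c x = d) ∧ x ∉ s ∧ ∀ y ∈ s, κ x y = c y := by
    intro s
    by_contra hh
    push Not at hh
    refine hd ((s.countable_toSet.union (s.countable_toSet.biUnion fun y _ => c2 y)).mono ?_)
    intro x hx
    by_cases q : x ∈ s
    · exact Or.inl q
    · obtain ⟨y, y1, y2⟩ := hh x hx q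
      exact Or.inr (mem_biUnion y1 ⟨hx.1, y2⟩)
  have : Std.Symm (fun x y => x ≠ y ∧ κ x y = d) :=
    ⟨fun x y q => ⟨q.1.symm, (hs _ _).trans q.2⟩⟩
  obtain ⟨f, f1, f2⟩ := exists_seq_of_forall_finset_exists' (fun x => x ∈ U ∧ c x = d)
    (fun x y => x ≠ y ∧ κ x y = d)
    (fun s hs' => by
      obtain ⟨x, x1, x2, x3⟩ := st s
      exact ⟨x, x1, fun y hy => ⟨fun q => x2 (q ▸ hy), (hs _ _).trans
        ((x3 y hy).trans (hs' y hy).2)⟩⟩)
  refine no_clique hs he h (c := d) (infinite_range_of_injective (f := f) fun i j q => ?_) ?_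
  · by_contra hn
    exact (f2 hn).1 q
  · rintro _ ⟨i, rfl⟩ _ ⟨j, rfl⟩ q
    exact (f2 fun w => q (congrArg f w)).2

theorem main (hs : ∀ x y, κ x y = κ y x) (he : ∀ x y, κ x y = e ↔ x = y) (h : Ext κ)
    {P : Set C} (hP : P.Countable) (hκ : ∀ x y, κ x y ∈ P) (hV : ℵ₀ < #V) : 𝔠 ≤ #V := by
  have hU : ¬ (univ : Set V).Countable := fun q => by
    have := le_aleph0_iff_set_countable.2 q
    rw [mk_univ] at this
    exact hV.not_ge this
  choose a c c1 c2 using fun U : {U : Set V // ¬ U.Countable} => split hs he h hP hκ U.2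
  let T : (ℕ → Bool) → ℕ → {U : Set V // ¬ U.Countable} := fun σ n =>
    Nat.rec ⟨univ, hU⟩ (fun n U => ⟨_, c2 U (σ n)⟩) n
  have T1 : ∀ σ n, ∀ x ∈ (T σ n).1, ∀ i < n, κ x (a (T σ i)) = c (T σ i) (σ i) := by
    intro σ n
    induction n with
    | zero => exact fun _ _ i hi => absurd hi (Nat.not_lt_zero i)
    | succ n ih =>
      intro x hx i hi
      rcases (Nat.lt_succ_iff.1 hi).eq_or_lt with q | q
      · rw [q]; exact hx.2
      · exact ih x hx.1 i q
  have T2 : ∀ σ τ n, (∀ i < n, σ i = τ i) → T σ n = T τ n := by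
    intro σ τ n
    induction n with
    | zero => exact fun _ => rfl
    | succ n ih =>
      intro q
      have q1 := ih fun i hi => q i (hi.trans (Nat.lt_succ_self n))
      refine Subtype.ext ?_
      show {x | x ∈ (T σ n).1 ∧ κ x (a (T σ n)) = c (T σ n) (σ n)} =
        {x | x ∈ (T τ n).1 ∧ κ x (a (T τ n)) = c (T τ n) (τ n)}
      rw [q1, q n (Nat.lt_succ_self n)]
  choose x hx using fun σ => limit hs he h (fun i => a (T σ i)) (fun i => c (T σ i) (σ i))
    fun n => by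
      obtain ⟨x, hx⟩ : (T σ n).1.Nonempty :=
        nonempty_iff_ne_empty.2 fun q => (T σ n).2 (q ▸ countable_empty)
      exact ⟨x, T1 σ n x hx⟩
  have hi : Function.Injective x := by
    intro σ τ q
    funext n
    induction n using Nat.strong_induction_on with
    | _ n ih =>
      have q1 := hx σ n
      rw [q, T2 σ τ n ih, hx τ n] at q1
      have q2 := c1 (T τ n)
      revert q1
      cases σ n <;> cases τ n <;> simp [q2, q2.symm]
  have := lift_mk_le_lift_mk_of_injective hi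
  simpa using this

end Pool.Agent.H42.GEC
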