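import Pool.Agent.H42.ZFDefs

/-! The multiboard Gale-Stewart game interpreted in a structure `(M, E)`.
Here `w` stands for `ω`, `K` for the set of boards and `V` for the set of moves `K → ω`. -/

namespace Pool.Agent.H42.ZF

variable {M : Type 1} (E : M → M → Prop)

/-- `n` is an even natural number -/
def Ev (n : M) : Prop :=
  ∀ I, (∀ e, (∀ z, ¬ E z e) → E e I) →
    (∀ k s t, E k I → Succ E s k → Succ E t s → E t I) → E n I

/-- `σ` assigns one move to every finite sequence of moves -/
def Strat (σ w V : M) : Prop :=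
  ∀ n s, E n w → IsFun E s n V → ∃ m, E m V ∧ App E σ s m ∧ ∀ m', App E σ s m' → m' = m

/-- `f n = σ (f ↾ n)` -/
def Follows (σ f n : M) : Prop := ∀ s m, Restr E s f n → App E f n m → App E σ s m

/-- on some board `a` the sequence `n ↦ f n a` is a member of `S` -/
def Win (S K w f : M) : Prop :=
  ∃ a, E a K ∧ ∃ z, E z S ∧ ∀ n m k, E n w → App E f n m → App E m a k → App E z n k

/-- ONE, who makes the even-numbered moves, has a winning strategy -/
def OneWins (S K w V : M) : Prop :=
  ∃ σ, Strat E σ w V ∧ ∀ f, IsFun E f w V → (∀ n, E n w → Ev E n → Follows E σ f n) →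
    Win E S K w f

/-- TWO, who makes the odd-numbered moves, has a winning strategy -/
def TwoWins (S K w V : M) : Prop :=
  ∃ τ, Strat E τ w V ∧ ∀ f, IsFun E f w V → (∀ n, E n w → ¬ Ev E n → Follows E τ f n) →
    ¬ Win E S K w f

end Pool.Agent.H42.ZF
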