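import Mathlib

/-! Basic tools for well-orders of regular uncountable type. -/

namespace Pool.Agent.H42.Reg

open Cardinal Set

universe u v

/-- A well-order whose type is a regular uncountable cardinal. -/
structure RegUnc (T : Type u) [LinearOrder T] : Prop where
  unc : ℵ₀ < #T
  bdd : ∀ s : Set T, #s < #T → ∃ b, ∀ a ∈ s, a < b
  init : ∀ a : T, #(Iio a) < #T

theorem exists_lub {T : Type u} [LinearOrder T] [WellFoundedLT T] (s : Set T) (b : T)
    (hb : ∀ a ∈ s, a ≤ b) :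
    ∃ c, (∀ a ∈ s, a ≤ c) ∧ c ≤ b ∧ ∀ i < c, ∃ a ∈ s, i < a := by
  have hne : ({c | ∀ a ∈ s, a ≤ c} : Set T).Nonempty := ⟨b, hb⟩
  refine ⟨wellFounded_lt.min _ hne, wellFounded_lt.min_mem _ hne,
    not_lt.1 (wellFounded_lt.not_lt_min _ (show b ∈ {c | ∀ a ∈ s, a ≤ c} from hb)), ?_⟩
  intro i hi
  by_contra hc
  push Not at hc
  exact wellFounded_lt.not_lt_min _ (show i ∈ {c | ∀ a ∈ s, a ≤ c} from hc) hi

theorem exists_min {T : Type u} [LinearOrder T] [WellFoundedLT T] (p : T → Prop)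
    (h : ∃ a, p a) : ∃ a, p a ∧ ∀ b < a, ¬ p b := by
  have hne : ({c | p c} : Set T).Nonempty := h
  exact ⟨wellFounded_lt.min _ hne, wellFounded_lt.min_mem _ hne,
    fun b hb hp => wellFounded_lt.not_lt_min _ (show b ∈ {c | p c} from hp) hb⟩

/-- Recursion along a well-order with a local step function. -/
theorem exists_rec {T : Type u} [LinearOrder T] [WellFoundedLT T] {α : Type v} (a₀ : α)
    (Φ : T → (T → α) → α)
    (hΦ : ∀ δ f f', (∀ i < δ, f i = f' i) → Φ δ f = Φ δ f') :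
    ∃ f : T → α, ∀ δ, f δ = Φ δ f := by
  classical
  let f : T → α := (wellFounded_lt (α := T)).fix
    (fun δ prev => Φ δ (fun i => if h : i < δ then prev i h else a₀))
  refine ⟨f, fun δ => ?_⟩
  have : f δ = Φ δ (fun i => if h : i < δ then f i else a₀) := by
    show (wellFounded_lt (α := T)).fix _ δ = _
    rw [WellFounded.fix_eq]
  rw [this]
  apply hΦ
  intro i hi
  simp [hi]

variable {T : Type u} [LinearOrder T]

theorem RegUnc.inf (h : RegUnc T) : ℵ₀ ≤ #T := h.unc.le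

theorem RegUnc.nonempty (h : RegUnc T) : Nonempty T := by
  rw [← mk_ne_zero_iff]
  exact (aleph0_pos.trans h.unc).ne'

theorem RegUnc.bdd_fun (h : RegUnc T) {ι : Type u} (hι : #ι < #T) (f : ι → T) :
    ∃ b, ∀ j, f j < b := by
  obtain ⟨b, hb⟩ := h.bdd (range f) (mk_range_le.trans_lt hι)
  exact ⟨b, fun j => hb _ ⟨j, rfl⟩⟩

theorem RegUnc.bdd_countable (h : RegUnc T) {s : Set T} (hs : s.Countable) :
    ∃ b, ∀ a ∈ s, a < b :=
  h.bdd s ((le_aleph0_iff_set_countable.2 hs).trans_lt h.unc)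

theorem RegUnc.bdd_nat (h : RegUnc T) (f : ℕ → T) : ∃ b, ∀ j, f j < b := by
  obtain ⟨b, hb⟩ := h.bdd_countable (countable_range f)
  exact ⟨b, fun j => hb _ ⟨j, rfl⟩⟩

theorem RegUnc.exists_gt (h : RegUnc T) (a : T) : ∃ b, a < b := by
  obtain ⟨b, hb⟩ := h.bdd_nat (fun _ => a)
  exact ⟨b, hb 0⟩

theorem RegUnc.init_le (h : RegUnc T) (a : T) : #(Iic a) < #T := by
  obtain ⟨b, hb⟩ := h.exists_gt a
  exact (mk_le_mk_of_subset (fun x hx => lt_of_le_of_lt hx hb)).trans_lt (h.init b)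

theorem RegUnc.card_of_unbdd (h : RegUnc T) {s : Set T} (hs : ∀ b, ∃ a ∈ s, b ≤ a) :
    #s = #T := by
  refine (mk_set_le s).antisymm (not_lt.1 fun hc => ?_)
  obtain ⟨b, hb⟩ := h.bdd s hc
  obtain ⟨a, ha, hba⟩ := hs b
  exact (hb a ha).not_ge hba

theorem RegUnc.unbdd_of_card (h : RegUnc T) {s : Set T} (hs : ¬ #s < #T) (b : T) :
    ∃ a ∈ s, b < a := by
  by_contra hc
  push Not at hc
  exact hs ((mk_le_mk_of_subset (fun x hx => hc x hx)).trans_lt (h.init_le b))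

/-- Closure points of a small family of functions are unbounded. -/
theorem RegUnc.closure [WellFoundedLT T] (h : RegUnc T) {ι : Type u} (hι : #ι < #T)
    (g : ι → T → T) (δ : T) : ∃ β, δ < β ∧ ∀ j, ∀ i < β, g j i < β := by
  have step : ∀ b : T, ∃ b', b < b' ∧ ∀ j, ∀ i < b, g j i < b' := by
    intro b
    have hc : #(ι × Iio b) < #T := by
      rw [mk_prod, lift_id, lift_id]
      exact mul_lt_of_lt h.inf hι (h.init b)
    obtain ⟨c, hc⟩ := h.bdd_fun hc (fun p => g p.1 p.2)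
    obtain ⟨d, hd⟩ := h.exists_gt (max b c)
    refine ⟨d, (le_max_left _ _).trans_lt hd, fun j i hi => ?_⟩
    exact (hc (j, ⟨i, hi⟩)).trans ((le_max_right _ _).trans_lt hd)
  choose st hst1 hst2 using step
  let s : ℕ → T := fun n => st^[n] δ
  have hs : ∀ n, s (n + 1) = st (s n) := fun n => Function.iterate_succ_apply' _ _ _
  obtain ⟨b, hb⟩ := h.bdd_nat s
  obtain ⟨c, hc1, -, hc3⟩ := exists_lub (range s) b (by rintro _ ⟨n, rfl⟩; exact (hb n).le)
  refine ⟨c, ?_, fun j i hi => ?_⟩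
  · have := hc1 _ ⟨1, rfl⟩
    rw [hs] at this
    exact (hst1 δ).trans_le this
  · obtain ⟨_, ⟨n, rfl⟩, hn⟩ := hc3 i hi
    have := hc1 _ ⟨n + 1, rfl⟩
    rw [hs] at this
    exact (hst2 _ j i hn).trans_le this

theorem RegUnc.closure_nat [WellFoundedLT T] (h : RegUnc T)
    (g : ℕ → T → T) (δ : T) : ∃ β, δ < β ∧ ∀ j, ∀ i < β, g j i < β := by
  obtain ⟨β, h1, h2⟩ := h.closure (ι := ULift.{u} ℕ) (by simpa using h.unc) (fun j => g j.down) δ
  exact ⟨β, h1, fun j => h2 ⟨j⟩⟩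

theorem regUnc_toType {κ : Cardinal.{u}} (hκ : κ.IsRegular) (hu : ℵ₀ < κ) :
    RegUnc κ.ord.ToType := by
  have hcard : #κ.ord.ToType = κ := mk_ord_toType κ
  refine ⟨hcard.symm ▸ hu, fun s hs => ?_, fun a => ?_⟩
  · by_contra hc
    push Not at hc
    have hcof : IsCofinal s := fun b => by
      obtain ⟨a, ha, hba⟩ := hc b
      exact ⟨a, ha, hba⟩
    have h1 := Order.cof_le hcof
    rw [Ordinal.cof_toType, hκ.cof_ord] at h1
    rw [hcard] at hs
    exact h1.not_gt hs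
  · rw [hcard]; exact mk_Iio_toType_ord_lt a

/-- The first `ω + 1` elements of an uncountable initial ordinal. -/
theorem exists_nat_init {κ : Cardinal.{u}} (hu : ℵ₀ < κ) :
    ∃ (e : ℕ → κ.ord.ToType) (w : κ.ord.ToType), StrictMono e ∧ (∀ n, e n < w) ∧
      ∀ a < w, ∃ n, a = e n := by
  have hω : Ordinal.omega0 < κ.ord := by
    rw [← ord_aleph0]; exact ord_lt_ord.2 hu
  have hn : ∀ n : ℕ, (n : Ordinal) < κ.ord := fun n => (Ordinal.natCast_lt_omega0 n).trans hω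
  refine ⟨fun n => Ordinal.ToType.mk ⟨n, hn n⟩, Ordinal.ToType.mk ⟨Ordinal.omega0, hω⟩, ?_, ?_, ?_⟩
  · intro a b hab
    apply Ordinal.ToType.mk.strictMono
    show (a : Ordinal) < b
    exact_mod_cast hab
  · intro n
    apply Ordinal.ToType.mk.strictMono
    exact Ordinal.natCast_lt_omega0 n
  · intro a ha
    obtain ⟨x, rfl⟩ := Ordinal.ToType.mk.surjective a
    have : x.1 < Ordinal.omega0 := Ordinal.ToType.mk.lt_iff_lt.1 ha
    obtain ⟨n, hn'⟩ := Ordinal.lt_omega0.1 this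
    refine ⟨n, ?_⟩
    congr 1
    exact Subtype.ext hn'

end Pool.Agent.H42.Reg
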