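import Pool.Agent.H42.Frc4
import Pool.Agent.H42.GSDefs
import Pool.Agent.H42.Reg

namespace Pool.Agent.H42.ZF

open Set

variable {P : Type} [Preorder P] {U : Ult P}

instance cEv (x : Nm P) : C (fun U => Ev (E U) (mk U x)) := by unfold Ev; infer_instance
instance cStrat (x y z : Nm P) : C (fun U => Strat (E U) (mk U x) (mk U y) (mk U z)) := by
  unfold Strat; infer_instance
instance cFollows (x y z : Nm P) : C (fun U => Follows (E U) (mk U x) (mk U y) (mk U z)) := by
  unfold Follows; infer_instance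
instance cWin (x y z t : Nm P) : C (fun U => Win (E U) (mk U x) (mk U y) (mk U z) (mk U t)) := by
  unfold Win; infer_instance
instance cOne (x y z t : Nm P) :
    C (fun U => OneWins (E U) (mk U x) (mk U y) (mk U z) (mk U t)) := by
  unfold OneWins; infer_instance
instance cTwo (x y z t : Nm P) :
    C (fun U => TwoWins (E U) (mk U x) (mk U y) (mk U z) (mk U t)) := by
  unfold TwoWins; infer_instance

theorem ev_natN {n : ℕ} : Ev (E U) (mk U (natN n)) ↔ Even n := by
  constructor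
  · intro h
    have h1 := h (mk U (fam (fun k => natN (2 * k)) (fun _ _ => True)))
      (fun e he => eq_zero he ▸ fam_intro (A := fun k => natN (2 * k)) 0 trivial) (by
        intro k s t hk hs ht
        obtain ⟨k, rfl⟩ := mk_surj k
        obtain ⟨s, rfl⟩ := mk_surj s
        obtain ⟨t, rfl⟩ := mk_surj t
        clear h
        revert hs ht
        refine fam_cases (fun i U _ e hs ht => ?_) U hk
        rw [e] at hs
        rw [hs.uniq (succ_natN _)] at ht
        rw [ht.uniq (succ_natN _)]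
        exact fam_intro (A := fun k => natN (2 * k)) (i + 1) trivial)
    exact fam_cases (R := fun _ => Even n)
      (fun i U _ e => by rw [natN_inj e]; exact even_two_mul i) U h1
  · rintro ⟨k, rfl⟩ I h0 h2
    induction k with
    | zero => exact h0 _ not_mem_zero
    | succ k ih =>
      rw [show k + 1 + (k + 1) = k + k + 1 + 1 by ring]
      exact h2 _ _ _ ih (succ_natN _) (succ_natN _)

theorem exists_seq {α : Type*} [Nonempty α] (Φ : ℕ → (ℕ → α) → α)
    (h : ∀ n f g, (∀ i < n, f i = g i) → Φ n f = Φ n g) : ∃ f : ℕ → α, ∀ n, f n = Φ n f :=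
  Reg.exists_rec (Classical.arbitrary α) Φ h

theorem seqN_congr {f g : ℕ → Nm P} {n : ℕ} (h : ∀ i < n, f i = g i) : seqN f n = seqN g n := by
  unfold seqN
  congr 1
  exact funext fun i => h i i.2

instance : Nonempty (Nm P) := ⟨natN 0⟩

theorem exists_nxt (σ : Nm P) : ∃ nxt : Nm P → Nm P, ∀ s U, (∃ y, App (E U) (mk U σ) (mk U s) y) →
    App (E U) (mk U σ) (mk U s) (mk U (nxt s)) := by
  choose nxt h using fun s => max_pr (fun U y => App (E U) (mk U σ) (mk U s) y) fun _ => cl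
  exact ⟨nxt, h⟩

theorem Strat.nxt {σ s V t : Nm P} {n : ℕ} (h : Strat (E U) (mk U σ) (mk U omegaN) (mk U V))
    (hs : IsFun (E U) (mk U s) (mk U (natN n)) (mk U V))
    (ht : (∃ y, App (E U) (mk U σ) (mk U s) y) → App (E U) (mk U σ) (mk U s) (mk U t)) :
    E U (mk U t) (mk U V) ∧ App (E U) (mk U σ) (mk U s) (mk U t) := by
  obtain ⟨m, h1, h2, h3⟩ := h _ _ (nat_mem_omega n) hs
  exact ⟨h3 _ (ht ⟨m, h2⟩) ▸ h1, ht ⟨m, h2⟩⟩

theorem isFun_niceN {ι : Type} {A : ι → Nm P} {g : ι → ℕ → LowerSet P} {K : Nm P} {p : P}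
    (h1 : ∀ i k U, Iic p ∈ U.U → (g i k : Set P) ∈ U.U → E U (mk U (A i)) (mk U K))
    (h2 : ∀ a, ∀ q ≤ p, Frc q (fun U => E U (mk U a) (mk U K)) →
      ∃ r ≤ q, ∃ i k, Frc r (fun U => mk U a = mk U (A i) ∧ (g i k : Set P) ∈ U.U))
    (h3 : ∀ i j k l U, Iic p ∈ U.U → (g i k : Set P) ∈ U.U → (g j l : Set P) ∈ U.U →
      mk U (A i) = mk U (A j) → k = l) :
    Frc p (fun U => IsFun (E U) (mk U (niceN A g)) (mk U K) (mk U omegaN)) := by
  intro U hU
  refine isFun_of rel_pairs (fun a b h' => ?_) (fun a ha => ?_) (fun a b c h4 h5 => ?_)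
  · obtain ⟨a, rfl⟩ := mk_surj a
    obtain ⟨b, rfl⟩ := mk_surj b
    revert hU
    refine rel_cases (fun t U ht e1 e2 hU => ?_) U h'
    rw [e1, e2]
    exact ⟨h1 _ _ U hU ht, nat_mem_omega _⟩
  · obtain ⟨a, rfl⟩ := mk_surj a
    refine by_dense (H := fun U => Iic p ∈ U.U ∧ E U (mk U a) (mk U K))
      (R := fun U => ∃ b, App (E U) (mk U (niceN A g)) (mk U a) b) (fun q hq => ?_) U ⟨hU, ha⟩
    obtain ⟨V, hV, h4⟩ := hq.ex
    obtain ⟨r, hr1, hr2⟩ := Filter.nonempty_of_mem (Filter.inter_mem hV h4.1)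
    obtain ⟨s, hs, i, k, h5⟩ := h2 a r hr2 ((hq.mono hr1).imp fun _ h => h.2)
    refine ⟨s, hs.trans hr1, h5.imp fun U h6 => ?_⟩
    rw [h6.1]
    exact ⟨_, app_niceN h6.2⟩
  · obtain ⟨a, rfl⟩ := mk_surj a
    obtain ⟨b, rfl⟩ := mk_surj b
    obtain ⟨c, rfl⟩ := mk_surj c
    revert hU h5
    refine rel_cases (fun t U ht e1 e2 hU h5 => ?_) U h4
    revert hU ht e1 e2
    refine rel_cases (fun t' U ht' e1' e2' ht e1 e2 hU => ?_) U h5
    rw [e2, e2', h3 _ _ _ _ U hU ht ht' (e1.symm.trans e1')]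

theorem app_niceN_inv {ι : Type} {A : ι → Nm P} {g : ι → ℕ → LowerSet P} {i : ι} {k : ℕ}
    (hA : ∀ i j U, mk U (A i) = mk U (A j) → i = j)
    (h : App (E U) (mk U (niceN A g)) (mk U (A i)) (mk U (natN k))) : (g i k : Set P) ∈ U.U := by
  refine rel_cases (fun t U ht e1 e2 => ?_) U h
  rw [hA _ _ U e1, natN_inj e2]
  exact ht

/-- Proving a forced statement by refuting every extension that forces its negation. -/
theorem frc_by_contra {Q : Ult P → Prop} [C Q] {p : P}
    (h : ∀ q ≤ p, Frc q (fun U => ¬ Q U) → False) : Frc p Q := by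
  by_contra hc
  obtain ⟨q, hq, h'⟩ := (cl (Q := Q)).decide hc
  exact h q hq h'

theorem frc_false {p : P} (h : Frc p (fun _ => False)) : False := h.ex.elim fun _ h => h.2

end Pool.Agent.H42.ZF
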