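import Pool.Agent.H42.GS0

/-! After forcing with countable partial functions on a large set every game on continuum many
boards is determined. -/

namespace Pool.Agent.H42.ZF

open Set Cardinal

section gen
variable {P : Type} [Preorder P] {U : Ult P}

/-- the Baire space -/
def baire : Nm P := funN omegaN omegaN

/-- the set of moves -/
def moves : Nm P := funN baire omegaN

theorem real_mem (r : ℕ → ℕ) : E U (mk U (realN r)) (mk U baire) :=
  (isFunSet_funN _ _ _).2 (isFun_realN r)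

theorem baire_elim (hP : SClosed P) (a : Nm P) (p : P)
    (h : Frc p (fun U => E U (mk U a) (mk U baire))) :
    ∃ q ≤ p, ∃ r, Frc q (fun U => mk U a = mk U (realN r)) :=
  no_new_real hP (h.imp fun _ h => (isFunSet_funN _ _ _).1 h)

abbrev G (P : Type) [Preorder P] : Type := (ℕ → ℕ) → ℕ → LowerSet P

def mv (g : G P) : Nm P := niceN realN g

def hist {α : Type} (f : ℕ → α) (n : ℕ) : List α := (List.range n).map f

theorem hist_len {α : Type} (f : ℕ → α) (n : ℕ) : (hist f n).length = n := by simp [hist]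

theorem hist_getD {α : Type} (f : ℕ → α) {n j : ℕ} (d : α) (h : j < n) :
    (hist f n).getD j d = f j := by simp [hist, List.getD, h]

def seqL (l : List (G P)) : Nm P := seqN (fun i => mv (l.getD i ⊥)) l.length

def Lst (l : List (G P)) (U : Ult P) : Prop :=
  ∀ i : Fin l.length, least mv (fun _ _ => True) (l.getD i ⊥) U

instance cLst (l : List (G P)) : C (Lst l) := ⟨cl_fin fun _ => cl⟩

/-- The strategy that answers the position with least names `l` by `X l`. -/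
def stratN (X : List (G P) → G P) : Nm P := rel seqL (fun l => mv (X l)) Lst

theorem seqL_inj {l l' : List (G P)} (h1 : Lst l U) (h2 : Lst l' U)
    (h : mk U (seqL l) = mk U (seqL l')) : l = l' := by
  have key : ∀ {l l' : List (G P)}, mk U (seqL l) = mk U (seqL l') → ∀ i < l.length,
      i < l'.length ∧ mk U (mv (l.getD i ⊥)) = mk U (mv (l'.getD i ⊥)) := by
    intro l l' h i hi
    have : App (E U) (mk U (seqL l)) (mk U (natN i)) (mk U (mv (l.getD i ⊥))) :=
      app_seqN.2 ⟨i, hi, rfl, rfl⟩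
    rw [h] at this
    obtain ⟨j, hj, e1, e2⟩ := app_seqN.1 this
    obtain rfl := natN_inj e1
    exact ⟨hj, e2⟩
  have hl : l.length = l'.length := by
    rcases lt_trichotomy l.length l'.length with h' | h' | h'
    · exact absurd (key h.symm _ h').1 (lt_irrefl _)
    · exact h'
    · exact absurd (key h _ h').1 (lt_irrefl _)
  refine List.ext_getElem hl fun i h3 h4 => ?_
  have := least_uniq (h1 ⟨i, h3⟩) (h2 ⟨i, h4⟩) (key h i h3).2
  simpa [List.getD, h3, h4] using this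

theorem least_move (hP : SClosed P) {f A a : Nm P} {p : P}
    (h : Frc p (fun U => IsFun (E U) (mk U f) (mk U A) (mk U moves) ∧ E U (mk U a) (mk U A))) :
    ∃ q ≤ p, ∃ g, Frc q (fun U => least mv (fun _ _ => True) g U ∧
      App (E U) (mk U f) (mk U a) (mk U (mv g))) := by
  obtain ⟨m, hm⟩ := frc_ex (S := fun U y => App (E U) (mk U f) (mk U a) y)
    (h.imp fun U h => h.1.ex h.2)
  obtain ⟨q, hq, g, hg⟩ := least_ex (A := mv) (Q := fun _ _ => True) (i := nice realN m) (p := p)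
    fun _ _ => trivial
  refine ⟨q, hq, g, fun U hU => ⟨(hg U hU).1, ?_⟩⟩
  have h1 := hm.mono hq U hU
  rw [(hg U hU).2, mv, ← eq_niceN (baire_elim hP)
    ((isFunSet_funN _ _ _).1 ((h.mono hq U hU).1.dom h1).2)]
  exact h1

theorem app_stratN {X : List (G P) → G P} {l : List (G P)} {y : M U} (hl : Lst l U)
    (h : App (E U) (mk U (stratN X)) (mk U (seqL l)) y) : y = mk U (mv (X l)) := by
  obtain ⟨y, rfl⟩ := mk_surj y
  revert hl
  refine rel_cases (fun l' U h1 e1 e2 hl => ?_) U h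
  rw [e2, seqL_inj hl h1 e1]

theorem strat_ok (hP : SClosed P) {X : List (G P) → G P}
    (hX : ∀ l p, (∀ i < l.length, Frc p (fun U => E U (mk U (mv (l.getD i ⊥))) (mk U moves))) →
      Frc p (fun U => E U (mk U (mv (X l))) (mk U moves))) (U : Ult P) :
    Strat (E U) (mk U (stratN X)) (mk U omegaN) (mk U moves) := by
  intro n s hn hs
  obtain ⟨n, rfl⟩ := mk_surj n
  obtain ⟨s, rfl⟩ := mk_surj s
  revert hs
  refine nat_cases (fun N U e hs => ?_) U hn
  rw [e] at hs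
  refine by_dense (H := fun U => IsFun (E U) (mk U s) (mk U (natN N)) (mk U moves))
    (R := fun U => ∃ m, E U m (mk U moves) ∧ App (E U) (mk U (stratN X)) (mk U s) m ∧
      ∀ m', App (E U) (mk U (stratN X)) (mk U s) m' → m' = m) (fun p hp => ?_) U hs
  obtain ⟨q, hq, g, hg⟩ := fin_cases (p := p) (R := fun i g U => least mv (fun _ _ => True) g U ∧
    App (E U) (mk U s) (mk U (natN i)) (mk U (mv g))) N fun i hi q hq =>
      least_move hP fun U hU => ⟨hp.mono hq U hU, natN_mem.2 hi⟩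
  refine ⟨q, hq, fun U hU => ?_⟩
  have h1 : Lst (hist g N) U := fun i => by
    have hi : i.1 < N := i.2.trans_eq (hist_len g N)
    rw [hist_getD g _ hi]; exact (hg i hi U hU).1
  have h2 : mk U s = mk U (seqL (hist g N)) := by
    rw [seqL, hist_len, seqN_congr fun i hi => congrArg mv (hist_getD g _ hi)]
    exact seqN_eq (hp.mono hq U hU) fun i hi => (hg i hi U hU).2
  beta_reduce
  rw [h2]
  refine ⟨_, hX (hist g N) q (fun i hi V hV => ?_) U hU, rel_intro _ h1,
    fun y hy => app_stratN h1 hy⟩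
  rw [hist_len] at hi
  rw [hist_getD g _ hi]
  exact ((hp.mono hq V hV).dom (hg i hi V hV).2).2

theorem play_cases (hP : SClosed P) {f : Nm P} {p : P}
    (h : Frc p (fun U => IsFun (E U) (mk U f) (mk U omegaN) (mk U moves))) :
    ∃ q ≤ p, ∃ g : ℕ → G P, ∀ n, Frc q (fun U => least mv (fun _ _ => True) (g n) U ∧
      App (E U) (mk U f) (mk U (natN n)) (mk U (mv (g n)))) :=
  omega_cases hP fun n _ hq => least_move hP fun U hU => ⟨h.mono hq U hU, nat_mem_omega n⟩

theorem follows_eq {X : List (G P) → G P} {f : M U} {g : ℕ → G P} {n : ℕ}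
    (hf : IsFun (E U) f (mk U omegaN) (mk U moves))
    (hg : ∀ n, least mv (fun _ _ => True) (g n) U ∧ App (E U) f (mk U (natN n)) (mk U (mv (g n))))
    (h : Follows (E U) (mk U (stratN X)) f (mk U (natN n))) :
    mk U (mv (g n)) = mk U (mv (X (hist g n))) := by
  refine app_stratN (fun i => ?_) (h _ _ ?_ (hg n).2)
  · have hi : i.1 < n := i.2.trans_eq (hist_len g n)
    rw [hist_getD g _ hi]; exact (hg i).1
  · rw [seqL, hist_len, seqN_congr fun i hi => congrArg mv (hist_getD g _ hi)]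
    exact restr_seqN hf fun i _ => (hg i).2

theorem mv_val {g : G P} {r : ℕ → ℕ} {k : ℕ} :
    App (E U) (mk U (mv g)) (mk U (realN r)) (mk U (natN k)) ↔ (g r k : Set P) ∈ U.U :=
  ⟨app_niceN_inv fun _ _ _ => realN_inj, app_niceN⟩

theorem mv_fun {g : G P} (h : E U (mk U (mv g)) (mk U moves)) :
    IsFun (E U) (mk U (mv g)) (mk U baire) (mk U omegaN) := (isFunSet_funN _ _ _).1 h

theorem mv_decide {g : G P} {p : P} (h : Frc p (fun U => E U (mk U (mv g)) (mk U moves)))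
    (r : ℕ → ℕ) : ∃ q ≤ p, ∃ k, Frc q (fun U => (g r k : Set P) ∈ U.U) := by
  obtain ⟨q, hq, k, hk⟩ := decide_app (h.imp fun U h => ⟨mv_fun h, real_mem r⟩)
  exact ⟨q, hq, k, hk.imp fun _ => mv_val.1⟩

theorem two_wins (hP : SClosed P) {S : Nm P} {p : P} {τ : List ℕ → ℕ}
    (hS : Frc p (fun U => Sub (E U) (mk U S) (mk U baire)))
    (hτ : ∀ z : ℕ → ℕ, (∀ n, ¬ Even n → z n = τ (hist z n)) →
      Frc p (fun U => ¬ E U (mk U (realN z)) (mk U S))) :
    Frc p (fun U => TwoWins (E U) (mk U S) (mk U baire) (mk U omegaN) (mk U moves)) := by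
  let X : List (G P) → G P := fun l r k => ⟨{q | ∃ t : ℕ → ℕ,
    (∀ i < l.length, Frc q (fun U => (l.getD i ⊥ r (t i) : Set P) ∈ U.U)) ∧
      τ (hist t l.length) = k}, fun _ _ hab ⟨t, h1, h2⟩ => ⟨t, fun i hi => (h1 i hi).mono hab, h2⟩⟩
  intro U hU
  refine ⟨_, strat_ok hP (X := X) (fun l q hq U hU => (isFunSet_funN _ _ _).2
    (isFun_niceN (fun r _ _ _ _ => real_mem r) (fun a q' hq' ha => ?_)
      (fun r r' k k' U hU h1 h2 e => ?_) U hU)) U, fun f hf h1 h2 => ?_⟩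
  · obtain ⟨q1, h1, r, hr⟩ := baire_elim hP a q' ha
    obtain ⟨q2, h2, t, ht⟩ := fin_cases (p := q1)
      (R := fun i k U => (l.getD i ⊥ r k : Set P) ∈ U.U) l.length fun i hi s hs =>
        mv_decide ((hq i hi).mono (hs.trans (h1.trans hq'))) r
    exact ⟨q2, h2.trans h1, r, _, fun U hU => ⟨hr.mono h2 U hU,
      frc_lower (S := X l r _) ⟨t, ht, rfl⟩ U hU⟩⟩
  · obtain rfl := realN_inj e
    obtain ⟨s, ⟨⟨t, h3, rfl⟩, t', h4, rfl⟩, h5⟩ :=
      Filter.nonempty_of_mem (Filter.inter_mem (Filter.inter_mem h1 h2) hU)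
    obtain ⟨V, hV⟩ := ex_ult s
    refine congrArg τ (List.map_congr_left fun i hi => ?_)
    have hi := List.mem_range.1 hi
    exact natN_inj ((mv_fun ((hq i hi).mono h5 V hV)).uniq (mv_val.2 (h3 i hi V hV))
      (mv_val.2 (h4 i hi V hV)))
  · obtain ⟨f, rfl⟩ := mk_surj f
    obtain ⟨q, hq, h3⟩ := (cl (Q := fun U =>
      IsFun (E U) (mk U f) (mk U omegaN) (mk U moves) ∧
      (∀ n, E U n (mk U omegaN) → ¬ Ev (E U) n → Follows (E U) (mk U (stratN X)) (mk U f) n) ∧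
      Win (E U) (mk U S) (mk U baire) (mk U omegaN) (mk U f))).ex hU ⟨hf, h1, h2⟩
    clear hf h1 h2 hU U
    obtain ⟨a, ha⟩ := frc_ex (h3.imp fun _ h => h.2.2)
    obtain ⟨z, hz⟩ := frc_ex (ha.imp fun _ h => h.2)
    obtain ⟨q1, hq1, r, hr⟩ := baire_elim hP a q (ha.imp fun _ h => h.1)
    obtain ⟨q2, hq2, z', hz'⟩ := baire_elim hP z q1 fun U hU =>
      hS.mono (hq1.trans hq) U hU _ (hz.mono hq1 U hU).1
    obtain ⟨q3, hq3, g, hg⟩ := play_cases hP ((h3.mono (hq2.trans hq1)).imp fun _ h => h.1)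
    have hq' : q3 ≤ q := hq3.trans (hq2.trans hq1)
    have hmv : ∀ n, Frc q3 (fun U => E U (mk U (mv (g n))) (mk U moves)) := fun n U hU =>
      ((h3.mono hq' U hU).1.dom (hg n U hU).2).2
    have hval : ∀ n k (U : Ult P), Iic q3 ∈ U.U → (g n r k : Set P) ∈ U.U → k = z' n := by
      intro n k U hU h
      have h4 := (hz.mono hq' U hU).2 _ _ (mk U (natN k)) (nat_mem_omega n) (hg n U hU).2 (by
        rw [hr.mono (hq3.trans hq2) U hU]; exact mv_val.2 h)
      rw [hz'.mono hq3 U hU] at h4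
      exact app_realN.1 h4
    have hv2 : ∀ n, Frc q3 (fun U => (g n r (z' n) : Set P) ∈ U.U) := fun n =>
      cl.dense fun s hs => by
        obtain ⟨t, ht, k, hk⟩ := mv_decide ((hmv n).mono hs) r
        exact ⟨t, ht, fun U hU => hval n k U (frc_G (ht.trans hs) U hU) (hk U hU) ▸ hk U hU⟩
    obtain ⟨U, hU⟩ := ex_ult q3
    refine (hτ z' fun n hn => ?_).mono (hq'.trans hq) U hU
      (hz'.mono hq3 U hU ▸ (hz.mono hq' U hU).1)
    refine (hval n _ U hU (mv_val.1 ?_)).symm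
    rw [follows_eq (h3.mono hq' U hU).1 (fun n => hg n U hU)
      ((h3.mono hq' U hU).2.1 _ (nat_mem_omega n) fun h => hn (ev_natN.1 h))]
    refine mv_val.2 (frc_lower (S := X (hist g n) r _) ⟨z', fun i hi => ?_, by rw [hist_len]⟩ U hU)
    rw [hist_len] at hi
    rw [hist_getD g _ hi]
    exact hv2 i

end gen

abbrev L1 : Type := Set (ℕ → ℕ) × ℕ × (ℕ → ℕ)

abbrev Sg : Type := Fn ℵ₁ L1 ℕ

theorem sg_closed : SClosed Sg := Fn.sclosed isRegular_aleph_one aleph0_lt_aleph_one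

theorem sg_supp {ι : Type} (hι : #ι ≤ 𝔠) (Q : ι → Ult Sg → Prop) [∀ i, C (Q i)] :
    ∃ A : Set L1, #A ≤ 𝔠 ∧ ∀ i, Supp A (Q i) :=
  exists_supp' aleph0_lt_aleph_one.le aleph_one_le_continuum (by simp [aleph0_le_continuum])
    (fun μ hμ => by
      rw [← succ_aleph0, Order.lt_succ_iff] at hμ
      exact (power_le_power_left continuum_ne_zero hμ).trans_eq continuum_power_aleph0) hι Q

/-- depth of a node of the tree of finite sequences, coded by pairing -/
def dep : ℕ → ℕ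
  | 0 => 0
  | n + 1 => dep n.unpair.2 + 1
  decreasing_by exact Nat.lt_succ_of_le (Nat.unpair_right_le n)

/-- the node reached by the even entries of `z` -/
def nd (z : ℕ → ℕ) : ℕ → ℕ
  | 0 => 0
  | m + 1 => Nat.pair (z (2 * m)) (nd z m) + 1

theorem dep_nd (z : ℕ → ℕ) (m : ℕ) : dep (nd z m) = m := by
  induction m with
  | zero => simp [nd, dep]
  | succ m ih => rw [nd, dep, Nat.unpair_pair, ih]

theorem nd_congr {z z' : ℕ → ℕ} {m : ℕ} (h : ∀ i < 2 * m, z i = z' i) : nd z m = nd z' m := by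
  induction m with
  | zero => rfl
  | succ m ih => rw [nd, nd, h _ (by omega), ih fun i hi => h i (by omega)]

theorem tree {θ : Cardinal.{0}} {L : Type} (hθ : ℵ₀ ≤ θ) {B : Set L} {γ : ℕ → L}
    {A : ℕ → Set L} {R : ℕ → ℕ → Ult (Fn θ L ℕ) → Prop} {p : Fn θ L ℕ}
    (h1 : ∀ j, γ j ∉ B) (h2 : ∀ i j, i < j → γ j ∉ A i) (h3 : Function.Injective γ)
    (h4 : ∀ j, p.f (γ j) = none) (h5 : ∀ i k, Supp (A i) (R i k))
    (h6 : ∀ i, ∀ q ≤ p, ∃ r ≤ q, ∃ k, Frc r (R i k)) :
    ∃ (Q : ℕ → Fn θ L ℕ) (k : ℕ → ℕ), (∀ n, Q n ≤ p) ∧ (∀ n, Q (n + 1) ≤ (Q n).res B) ∧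
      ∀ a v, Q (Nat.pair a v + 1) ≤ Q v ∧ (Q (Nat.pair a v + 1)).f (γ (2 * dep v)) = some a ∧
        Frc (Q (Nat.pair a v + 1)) (R (2 * dep v + 1) (k (Nat.pair a v + 1))) := by
  classical
  let St : ℕ → Fn θ L ℕ → Fn θ L ℕ → Fn θ L ℕ × ℕ → Prop := fun n u v y =>
    y.1 ≤ v ∧ y.1 ≤ u.res B ∧ y.1.f (γ (2 * dep n.unpair.2)) = some n.unpair.1 ∧
      Frc y.1 (R (2 * dep n.unpair.2 + 1) y.2) ∧ ∀ j ≥ 2 * dep (n + 1), y.1.f (γ j) = none
  have step : ∀ n u v, v ≤ p → u.res B ≤ v.res B → (∀ j ≥ 2 * dep n.unpair.2, v.f (γ j) = none) →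
      ∃ y, St n u v y := by
    intro n u v hv huv hγ
    have a1 : Fn.un hθ v (u.res B) ≤ u.res B := Fn.un_le' hθ fun x k l hk hl =>
      Option.some.inj ((huv x k (Fn.res_some.2 ⟨(Fn.res_some.1 hl).1, hk⟩)).symm.trans hl)
    have a2 : ∀ j ≥ 2 * dep n.unpair.2, (Fn.un hθ v (u.res B)).f (γ j) = none := fun j hj => by
      simp [Fn.un, Fn.res, hγ j hj, h1 j]
    obtain ⟨s, hs, a3, a4⟩ := (Fn.un hθ v (u.res B)).add hθ (a2 _ le_rfl) n.unpair.1
    obtain ⟨r, hr, k, hk⟩ := h6 (2 * dep n.unpair.2 + 1) s (hs.trans ((Fn.un_le _ _ _).trans hv))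
    obtain ⟨t, ht, a5, a6⟩ := (h5 _ k).ext hθ hr hk
    refine ⟨(t, k), ht.trans (hs.trans (Fn.un_le _ _ _)), ht.trans (hs.trans a1), ht _ _ a3, a5,
      fun j hj => ?_⟩
    rw [dep] at hj
    show t.f (γ j) = none
    rw [a6 _ (h2 _ _ (by omega)), a4 _ (fun h => by have := h3 h; omega), a2 j (by omega)]
  have : Nonempty (Fn θ L ℕ × ℕ) := ⟨(p, 0)⟩
  choose! Y hY using step
  obtain ⟨f, hf⟩ := exists_seq (fun n (f : ℕ → Fn θ L ℕ × ℕ) =>
    Nat.casesOn n (p, 0) fun n => Y n (f n).1 (f n.unpair.2).1) (by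
      rintro (_ | n) f g h
      · rfl
      · simp only
        rw [h n (by omega), h _ (Nat.lt_succ_of_le (Nat.unpair_right_le n))])
  have inv : ∀ n, (f n).1 ≤ p ∧ (∀ j ≥ 2 * dep n, (f n).1.f (γ j) = none) ∧
      (∀ v ≤ n, (f n).1.res B ≤ (f v).1.res B) ∧
      ∀ m, n = m + 1 → St m (f m).1 (f m.unpair.2).1 (f n) := by
    intro n
    induction n using Nat.strong_induction_on with
    | _ n ih =>
      cases n with
      | zero =>
        refine ⟨by rw [hf]; exact le_rfl, fun j _ => by rw [hf]; exact h4 j, fun v hv => ?_, fun m h => by omega⟩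
        rw [Nat.le_zero.1 hv]
      | succ n =>
        have b1 := ih n (by omega)
        have b2 := ih _ (Nat.lt_succ_of_le (Nat.unpair_right_le n))
        have b3 : St n (f n).1 (f n.unpair.2).1 (f (n + 1)) := by
          rw [hf (n + 1)]
          exact hY n _ _ b2.1 (b1.2.2.1 _ (Nat.unpair_right_le n)) b2.2.1
        refine ⟨b3.1.trans b2.1, b3.2.2.2.2, fun v hv => ?_, fun m h => ?_⟩
        · rcases Nat.le_succ_iff.1 hv with h | rfl
          · refine le_trans (fun x k h => ?_) (b1.2.2.1 v h)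
            exact Fn.res_some.2 ⟨(Fn.res_some.1 h).1, b3.2.1 x k h⟩
          · exact le_rfl
        · obtain rfl : n = m := by omega
          exact b3
  refine ⟨fun n => (f n).1, fun n => (f n).2, fun n => (inv n).1,
    fun n => ((inv _).2.2.2 n rfl).2.1, fun a v => ?_⟩
  have := (inv _).2.2.2 (Nat.pair a v) rfl
  simp only [St, Nat.unpair_pair] at this
  exact ⟨this.1, this.2.2.1, this.2.2.2.1⟩

theorem one_wins {S : Nm Sg} {p : Sg}
    (hτ : ∀ q ≤ p, ∀ τ : List ℕ → ℕ, ∃ z : ℕ → ℕ, (∀ n, ¬ Even n → z n = τ (hist z n)) ∧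
      ¬ Frc q (fun U => ¬ E U (mk U (realN z)) (mk U S))) :
    Frc p (fun U => OneWins (E U) (mk U S) (mk U baire) (mk U omegaN) (mk U moves)) := by
  have hθ : ℵ₀ ≤ (ℵ₁ : Cardinal.{0}) := aleph0_lt_aleph_one.le
  obtain ⟨B, hB, hBs⟩ := sg_supp (ι := ℕ → ℕ) (by simp) fun z U => E U (mk U (realN z)) (mk U S)
  choose sp hsp hsp' using fun g : G Sg => sg_supp (ι := (ℕ → ℕ) × ℕ) (by simp)
    fun t U => (g t.1 t.2 : Set Sg) ∈ U.U
  have hβ : ∀ l : List (G Sg), ∃ β : Set (ℕ → ℕ),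
      β ∉ Prod.fst '' (B ∪ ⋃ i : ℕ, sp (l.getD i ⊥)) := by
    intro l
    by_contra hc
    push Not at hc
    have h1 : #(Set (ℕ → ℕ)) ≤ 𝔠 := by
      rw [← mk_univ, ← eq_univ_of_forall hc]
      refine mk_image_le.trans ((mk_union_le _ _).trans ((add_le_add hB
        (mk_iUnion_le_sum_mk.trans ((sum_le_sum _ (fun _ => 𝔠) fun _ => hsp _).trans_eq
          (by simp)))).trans_eq (add_eq_self aleph0_le_continuum)))
    rw [mk_set] at h1
    exact absurd h1 (not_le.2 (by simpa using cantor 𝔠))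
  choose β hβ using hβ
  let X : List (G Sg) → G Sg := fun l r k => gen (β l, l.length, r) k
  intro U hU
  refine ⟨_, strat_ok sg_closed (X := X) (fun l q _ U hU => (isFunSet_funN _ _ _).2
    (isFun_niceN (fun r _ _ _ _ => real_mem r) (fun a q' _ ha => ?_)
      (fun r r' k k' U _ h1 h2 e => ?_) U hU)) U, fun f hf h1 => ?_⟩
  · obtain ⟨q1, h1, r, hr⟩ := baire_elim sg_closed a q' ha
    obtain ⟨q2, h2, k, hk⟩ := q1.val hθ (β l, l.length, r)
    exact ⟨q2, h2.trans h1, r, k, fun U hU => ⟨hr.mono h2 U hU, frc_lower (S := X l r k) hk U hU⟩⟩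
  · obtain rfl := realN_inj e
    exact gen_uniq h1 h2
  · obtain ⟨f, rfl⟩ := mk_surj f
    by_contra h2
    obtain ⟨q, hq, h3⟩ := (cl (Q := fun U =>
      IsFun (E U) (mk U f) (mk U omegaN) (mk U moves) ∧
      (∀ n, E U n (mk U omegaN) → Ev (E U) n → Follows (E U) (mk U (stratN X)) (mk U f) n) ∧
      ¬ Win (E U) (mk U S) (mk U baire) (mk U omegaN) (mk U f))).ex hU ⟨hf, h1, h2⟩
    clear hf h1 h2 hU U
    obtain ⟨q1, hq1, g, hg⟩ := play_cases sg_closed (h3.imp fun _ h => h.1)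
    have hmv : ∀ n, Frc q1 (fun U => E U (mk U (mv (g n))) (mk U moves)) := fun n U hU =>
      ((h3.mono hq1 U hU).1.dom (hg n U hU).2).2
    obtain ⟨r, hr⟩ : ∃ r : ℕ → ℕ, r ∉ (fun x : L1 => x.2.2) '' {x | q1.f x ≠ none} := by
      by_contra hc
      push Not at hc
      have h1 : #(ℕ → ℕ) < ℵ₁ := by
        rw [← mk_univ, ← eq_univ_of_forall hc]
        exact mk_image_le.trans_lt q1.small
      exact absurd h1 (not_lt.2 (by simpa using aleph_one_le_continuum))
    obtain ⟨Q, k, hQ1, hQ2, hQ3⟩ := tree hθ (B := B) (γ := fun j => (β (hist g j), j, r))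
      (A := fun i => sp (g i)) (R := fun i k U => (g i r k : Set Sg) ∈ U.U) (p := q1)
      (fun j h => hβ _ ⟨_, Or.inl h, rfl⟩)
      (fun i j hij h => hβ _ ⟨_, Or.inr (mem_iUnion.2 ⟨i, by rwa [hist_getD g _ hij]⟩), rfl⟩)
      (fun i j h => congrArg (fun x : L1 => x.2.1) h)
      (fun j => by by_contra h; exact hr ⟨_, h, rfl⟩) (fun i k => hsp' (g i) (r, k))
      (fun i s hs => mv_decide ((hmv i).mono hs) r)
    obtain ⟨R, hR1, hR2⟩ := Fn.sup_nat isRegular_aleph_one aleph0_lt_aleph_one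
      (fun n => (Q n).res B) (antitone_nat_of_succ_le fun n x k h =>
        Fn.res_some.2 ⟨(Fn.res_some.1 h).1, hQ2 n x k h⟩)
    have hR3 : Fn.un hθ R q1 ≤ q1 := Fn.un_le' hθ fun x k l hk hl => by
      obtain ⟨n, hn⟩ := hR2 x k hk
      exact Option.some.inj ((Fn.res_some.1 hn).2.symm.trans (hQ1 n x l hl))
    obtain ⟨z, hz1, hz2⟩ := hτ _ (hR3.trans (hq1.trans hq))
      fun t => k (nd (fun i => t.getD i 0) ((t.length + 1) / 2))
    obtain ⟨R', hR', hz3⟩ := cl.decide hz2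
    have hz4 := hBs z R' (hz3.imp fun _ => not_not.1)
    obtain ⟨T, hT1, hT2⟩ := Fn.sup_nat isRegular_aleph_one aleph0_lt_aleph_one
      (fun m => Q (nd z m)) (antitone_nat_of_succ_le fun m => (hQ3 _ _).1)
    have hT3 : Fn.un hθ T (R'.res B) ≤ R'.res B := Fn.un_le' hθ fun x k l hk hl => by
      obtain ⟨n, hn⟩ := hT2 x k hk
      exact Option.some.inj (((hR'.trans ((Fn.un_le _ _ _).trans (hR1 _))) x k
        (Fn.res_some.2 ⟨(Fn.res_some.1 hl).1, hn⟩)).symm.trans (Fn.res_some.1 hl).2)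
    have hT4 : ∀ m, Fn.un hθ T (R'.res B) ≤ Q (nd z m) := fun m => (Fn.un_le _ _ _).trans (hT1 m)
    have hT5 : Fn.un hθ T (R'.res B) ≤ q1 := (hT4 0).trans (hQ1 _)
    generalize Fn.un hθ T (R'.res B) = T' at hT3 hT4 hT5
    have hval : ∀ n, Frc T' (fun U =>
        App (E U) (mk U (mv (g n))) (mk U (realN r)) (mk U (natN (z n)))) := by
      intro n U hU
      obtain ⟨m, rfl | rfl⟩ := Nat.even_or_odd' n
      · have h4 := (hQ3 (z (2 * m)) (nd z m)).2.1
        rw [dep_nd] at h4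
        rw [follows_eq (h3.mono (hT5.trans hq1) U hU).1 (fun n => (hg n).mono hT5 U hU)
          ((h3.mono (hT5.trans hq1) U hU).2.1 _ (nat_mem_omega _) (ev_natN.2 (even_two_mul m)))]
        refine mv_val.2 (frc_lower (S := X _ r _) ?_ U hU)
        simp only [X, hist_len]
        exact hT4 (m + 1) _ _ h4
      · have h4 := (hQ3 (z (2 * m)) (nd z m)).2.2
        rw [dep_nd] at h4
        have h5 : z (2 * m + 1) = k (nd z (m + 1)) := by
          rw [hz1 _ (by simp), hist_len, show (2 * m + 1 + 1) / 2 = m + 1 by omega, nd, nd,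
            hist_getD z _ (by omega), nd_congr fun i hi => hist_getD z _ (by omega)]
        rw [h5]
        exact mv_val.2 (h4.mono (hT4 (m + 1)) U hU)
    obtain ⟨U, hU⟩ := ex_ult T'
    refine (h3.mono (hT5.trans hq1) U hU).2.2 ⟨_, real_mem r, _, hz4.mono hT3 U hU,
      fun n m k hn => ?_⟩
    obtain ⟨n, rfl⟩ := mk_surj n
    obtain ⟨m, rfl⟩ := mk_surj m
    obtain ⟨k, rfl⟩ := mk_surj k
    revert hU
    refine nat_cases (fun n' U e hU h4 h5 => ?_) U hn
    rw [e] at h4 ⊢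
    rw [(h3.mono (hT5.trans hq1) U hU).1.uniq h4 ((hg n').mono hT5 U hU).2] at h5
    rw [(mv_fun ((hmv n').mono hT5 U hU)).uniq h5 (hval n' U hU)]
    exact app_realN.2 rfl

theorem determined (U : Ult Sg) (S : M U) (hS : Sub (E U) S (mk U baire)) :
    OneWins (E U) S (mk U baire) (mk U omegaN) (mk U moves) ∨
      TwoWins (E U) S (mk U baire) (mk U omegaN) (mk U moves) := by
  obtain ⟨S, rfl⟩ := mk_surj S
  refine by_dense (H := fun U => Sub (E U) (mk U S) (mk U baire))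
    (R := fun U => OneWins (E U) (mk U S) (mk U baire) (mk U omegaN) (mk U moves) ∨
      TwoWins (E U) (mk U S) (mk U baire) (mk U omegaN) (mk U moves)) (fun p hp => ?_) U hS
  by_cases h : ∃ q ≤ p, ∃ τ : List ℕ → ℕ, ∀ z : ℕ → ℕ, (∀ n, ¬ Even n → z n = τ (hist z n)) →
      Frc q (fun U => ¬ E U (mk U (realN z)) (mk U S))
  · obtain ⟨q, hq, τ, hτ⟩ := h
    exact ⟨q, hq, (two_wins sg_closed (hp.mono hq) hτ).imp fun _ => Or.inr⟩
  · push Not at h
    exact ⟨p, le_rfl, (one_wins h).imp fun _ => Or.inl⟩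

end Pool.Agent.H42.ZF
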