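import Pool.Agent.H42.GS0

/-! After adding `ℵ₁` Cohen reals there is a payoff set that is undetermined on every set of
boards. -/

namespace Pool.Agent.H42.ZF

open Set Cardinal

abbrev W1 : Type := (ℵ₁ : Cardinal.{0}).ord.ToType

abbrev Co : Type := Fn ℵ₀ (W1 × ℕ) ℕ

def Lo (ξ : W1) : Set (W1 × ℕ) := {x | x.1 < ξ}

def Le (ξ : W1) : Set (W1 × ℕ) := {x | x.1 ≤ ξ}

theorem regW1 : Reg.RegUnc W1 := Reg.regUnc_toType isRegular_aleph_one aleph0_lt_aleph_one

instance : Nonempty W1 := regW1.nonempty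

theorem exists_bound {ι : Type} [Countable ι] (Q : ι → Ult Co → Prop) [∀ i, C (Q i)] :
    ∃ ξ, ∀ i, Supp (Lo ξ) (Q i) := by
  obtain ⟨A, hA, h⟩ := exists_supp' (θ := ℵ₀) le_rfl le_rfl (by simp)
    (fun μ hμ => by
      obtain ⟨n, rfl⟩ := lt_aleph0.1 hμ
      rw [power_natCast]
      exact power_nat_le le_rfl) mk_le_aleph0 Q
  obtain ⟨b, hb⟩ := regW1.bdd_countable ((le_aleph0_iff_set_countable.1 hA).image Prod.fst)
  exact ⟨b, fun i => (h i).mono fun x hx => hb _ ⟨x, hx, rfl⟩⟩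

theorem supp_lower {θ : Cardinal.{0}} {L V : Type} (hθ : ℵ₀ ≤ θ) {A : Set L}
    {S : LowerSet (Fn θ L V)} (h : ∀ p ∈ S, p.res A ∈ S) :
    Supp A (fun U => (S : Set (Fn θ L V)) ∈ U.U) := by
  intro p hp
  rw [frc_iff S.lower fun _ => Iff.rfl] at hp ⊢
  intro q hq
  have h1 : Fn.un hθ (q.res A) p ≤ p := Fn.un_le' hθ fun x k l hk hl =>
    Option.some.inj ((Fn.res_some.1 hk).2.symm.trans
      (hq x l (Fn.res_some.2 ⟨(Fn.res_some.1 hk).1, hl⟩)))
  obtain ⟨r, hr, hS⟩ := hp _ h1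
  refine ⟨Fn.un hθ (r.res A) q, Fn.un_le' hθ fun x k l hk hl => ?_,
    S.lower (Fn.un_le _ _ _) (h r hS)⟩
  exact Option.some.inj ((Fn.res_some.1 hk).2.symm.trans (hr x l (Fn.un_some.2 (Or.inl
    (Fn.res_some.2 ⟨(Fn.res_some.1 hk).1, hl⟩)))))

/-- A sequence supported below `η` differs from the Cohen real `η` on every infinite set. -/
theorem fresh {η : W1} {R : ℕ → ℕ → Ult Co → Prop} (h1 : ∀ n k, Supp (Lo η) (R n k)) {p : Co}
    (h2 : ∀ n, ∀ q ≤ p, ∃ r ≤ q, ∃ k, Frc r (R n k)) {T : Set ℕ} (hT : T.Infinite)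
    (h3 : ∀ n ∈ T, ∀ k l U, Iic p ∈ U.U → R n k U →
      ((gen (η, n) l : LowerSet Co) : Set Co) ∈ U.U → k = l) : False := by
  obtain ⟨n, hn, hp⟩ : ∃ n ∈ T, p.f (η, n) = none := by
    by_contra hc
    push Not at hc
    refine hT (((lt_aleph0_iff_set_finite.1 p.small).image Prod.snd).subset fun n hn => ?_)
    exact ⟨(η, n), hc n hn, rfl⟩
  obtain ⟨q, hq, k, hk⟩ := h2 n p le_rfl
  obtain ⟨r, hr, h4, h5⟩ := (h1 n k).ext le_rfl hq hk
  obtain ⟨s, hs, h6, -⟩ := r.add le_rfl ((h5 (η, n) (lt_irrefl η)).trans hp) (k + 1)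
  obtain ⟨U, hU, h7⟩ := (h4.mono hs).ex
  have := h3 n hn k (k + 1) U (frc_G (hs.trans hr) U hU) h7 (frc_lower h6 U hU)
  omega

/-- Indices for the members of the payoff set. -/
def Idx : Type := {t : (ℕ → ℕ → LowerSet Co) × W1 //
  (∀ n k, Supp (Le t.2) (fun U => (t.1 n k : Set Co) ∈ U.U)) ∧
    ∀ n, Even n → ∀ k, t.1 n k = gen (t.2, n) k}

/-- The payoff set. -/
def payoff : Nm Co := fam (fun t : Idx => niceN natN t.1.1)
  (fun t U => IsFun (E U) (mk U (niceN natN t.1.1)) (mk U omegaN) (mk U omegaN))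

theorem payoff_sub (U : Ult Co) : Sub (E U) (mk U payoff) (mk U (funN omegaN omegaN)) := by
  intro z hz
  obtain ⟨z, rfl⟩ := mk_surj z
  refine fam_cases (fun t U h e => ?_) U hz
  rw [e]
  exact (isFunSet_funN _ _ _).2 h

theorem not_one {K V : Nm Co} {p : Co}
    (hV : Frc p (fun U => IsFunSet (E U) (mk U V) (mk U K) (mk U omegaN)))
    (h : Frc p (fun U => OneWins (E U) (mk U payoff) (mk U K) (mk U omegaN) (mk U V))) :
    False := by
  obtain ⟨σ, hσ⟩ := frc_ex h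
  obtain ⟨nxt, hn⟩ := exists_nxt σ
  choose bnd hb using fun (x : Nm Co) (i : K.ι) =>
    exists_bound (fun k U => App (E U) (mk U x) (mk U (K.A i)) (mk U (natN k)))
  let L := least K.A (fun i U => Iic (K.b i) ∈ U.U)
  let g : (K.ι → W1) → ℕ → K.ι → ℕ → LowerSet Co := fun F n i k =>
    ⟨{q | Frc q (L i)}, lower_frc _⟩ ⊓ gen (F i, n) k
  have hg : ∀ F n i k (U : Ult Co), (g F n i k : Set Co) ∈ U.U ↔
      L i U ∧ ((gen (F i, n) k : LowerSet Co) : Set Co) ∈ U.U := fun F n i k U =>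
    Filter.inter_mem_iff.trans (and_congr_left' (cl (Q := L i) U).symm)
  have hgf : ∀ F n, Frc p (fun U => E U (mk U (niceN K.A (g F n))) (mk U V)) := by
    intro F n U hU
    refine (hV U hU _).2 (isFun_niceN (fun i k U _ h => mem_intro K i U ((hg _ _ _ _ U).1 h).1.1)
      (fun a q _ ha => ?_) (fun i j k l U _ h1 h2 e => ?_) U hU)
    · obtain ⟨r, hr, i, h1, h2⟩ := mem_elim ha
      obtain ⟨s, hs, j, h3⟩ := least_ex (A := K.A) (Q := fun i U => Iic (K.b i) ∈ U.U) (frc_G h1)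
      obtain ⟨t, ht, k, h4⟩ := s.val le_rfl (F j, n)
      exact ⟨t, ht.trans (hs.trans hr), j, k, fun U hU =>
        ⟨(h2.mono (ht.trans hs) U hU).trans (h3.mono ht U hU).2.symm,
          (hg _ _ _ _ U).2 ⟨(h3.mono ht U hU).1, frc_lower h4 U hU⟩⟩⟩
    · obtain rfl := least_uniq ((hg _ _ _ _ U).1 h1).1 ((hg _ _ _ _ U).1 h2).1 e
      exact gen_uniq ((hg _ _ _ _ U).1 h1).2 ((hg _ _ _ _ U).1 h2).2
  obtain ⟨m, hm⟩ := exists_seq (fun n (m : ℕ → Nm Co) => if Even n then nxt (seqN m n) else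
    niceN K.A (g (bnd (m (n / 2).unpair.1)) n)) (by
      intro n f f' hf
      by_cases hn : Even n
      · simp only [if_pos hn, seqN_congr hf]
      · have : n ≠ 0 := by rintro rfl; simp at hn
        simp only [if_neg hn]
        rw [hf _ ((Nat.unpair_left_le _).trans_lt (by omega))])
  have hmV : ∀ n, Frc p (fun U => E U (mk U (m n)) (mk U V)) := by
    intro n
    induction n using Nat.strong_induction_on with
    | _ n ih =>
      intro U hU
      rw [hm]
      split_ifs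
      · exact ((hσ U hU).1.nxt (isFun_seqN fun i hi => ih i hi U hU) (hn _ U)).1
      · exact hgf _ _ U hU
  have hf := isFun_fullN hmV
  have hw : Frc p (fun U => Win (E U) (mk U payoff) (mk U K) (mk U omegaN) (mk U (fullN m))) := by
    intro U hU
    refine (hσ U hU).2 _ (hf U hU) fun n hn' => ?_
    obtain ⟨n, rfl⟩ := mk_surj n
    revert hU
    refine nat_cases (fun k U e hU he => ?_) U hn'
    rw [e] at he ⊢
    intro s y hs hy
    rw [hs.uniq (restr_seqN (hf U hU) fun i _ => app_fullN m i), app_fullN_iff.1 hy, hm k,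
      if_pos (ev_natN.1 he)]
    exact ((hσ U hU).1.nxt (isFun_seqN fun i _ => hmV i U hU) (hn _ U)).2
  obtain ⟨a, ha⟩ := frc_ex hw
  obtain ⟨z, hz⟩ := frc_ex (ha.imp fun _ h => h.2)
  obtain ⟨q1, hq1, i0, h1, h2⟩ := mem_elim (ha.imp fun _ h => h.1)
  obtain ⟨q2, hq2, i, h3⟩ := least_ex (A := K.A) (Q := fun i U => Iic (K.b i) ∈ U.U) (frc_G h1)
  obtain ⟨q, hq3, t, h4⟩ := fam_elim ((hz.mono (hq2.trans hq1)).imp fun _ h => h.1)
  have hq : q ≤ p := hq3.trans (hq2.trans hq1)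
  have key : ∀ n k U, Iic q ∈ U.U → App (E U) (mk U (m n)) (mk U (K.A i)) (mk U (natN k)) →
      (t.1.1 n k : Set Co) ∈ U.U := by
    intro n k U hU h5
    have e1 : mk U (K.A i) = mk U a :=
      (h3.mono hq3 U hU).2.trans (h2.mono (hq3.trans hq2) U hU).symm
    have h6 := (hz.mono hq U hU).2 _ _ _ (nat_mem_omega n) (app_fullN m n) (e1 ▸ h5)
    rw [(h4 U hU).2] at h6
    exact app_niceN_inv (fun _ _ _ => natN_inj) h6
  have huq : ∀ n k l (U : Ult Co), Iic q ∈ U.U → (t.1.1 n k : Set Co) ∈ U.U → (t.1.1 n l : Set Co) ∈ U.U →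
      k = l := fun n k l U hU h5 h6 =>
    natN_inj ((h4 U hU).1.uniq (app_niceN h5) (app_niceN h6))
  have hdec : ∀ n, ∀ r ≤ q, ∃ s ≤ r, ∃ k,
      Frc s (fun U => App (E U) (mk U (m n)) (mk U (K.A i)) (mk U (natN k))) := fun n r hr =>
    decide_app fun U hU => ⟨(hV.mono (hr.trans hq) U hU _).1 ((hmV n).mono (hr.trans hq) U hU),
      mem_intro K i U (h3.mono (hr.trans hq3) U hU).1.1⟩
  by_cases hc : ∃ j, t.1.2 < bnd (m j) i
  · obtain ⟨j, hj⟩ := hc
    refine fresh (η := bnd (m j) i) (R := fun n k U => (t.1.1 n k : Set Co) ∈ U.U)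
      (fun n k => (t.2.1 n k).mono fun x hx => lt_of_le_of_lt hx hj) (p := q) (fun n r hr => ?_)
      (T := range fun b => 2 * Nat.pair j b + 1) (infinite_range_of_injective fun b c h => ?_) ?_
    · obtain ⟨s, hs, k, h5⟩ := hdec n r hr
      exact ⟨s, hs, k, fun U hU => key n k U (frc_G (hs.trans hr) U hU) (h5 U hU)⟩
    · exact (Nat.pair_eq_pair.1 (show Nat.pair j b = Nat.pair j c by
        omega)).2
    · rintro _ ⟨b, rfl⟩ k l U hU h5 h6
      refine huq _ k l U hU h5 (key _ l U hU ?_)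
      rw [hm, if_neg (by simp), show (2 * Nat.pair j b + 1) / 2 = Nat.pair j b by omega,
        Nat.unpair_pair]
      exact app_niceN ((hg _ _ _ _ U).2 ⟨(h3.mono hq3 U hU).1, h6⟩)
  · push Not at hc
    refine fresh (η := t.1.2)
      (R := fun n k U => App (E U) (mk U (m n)) (mk U (K.A i)) (mk U (natN k)))
      (fun n k => (hb (m n) i k).mono fun x hx => lt_of_lt_of_le hx (hc n)) hdec
      (T := range fun b => 2 * b) (infinite_range_of_injective fun b c h => by
        omega) ?_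
    rintro _ ⟨b, rfl⟩ k l U hU h5 h6
    exact huq _ k l U hU (key _ k U hU h5) (t.2.2 _ (even_two_mul b) l ▸ h6)

theorem match_gen (ξ : W1) (n : ℕ) (p : Co) :
    ∃ q ≤ p, ∃ s : List ℕ, ∀ j < n, q.f (ξ, j) = some (s.getD j 0) := by
  have : ∃ q ≤ p, ∃ s : ℕ → ℕ, ∀ j < n, q.f (ξ, j) = some (s j) := by
    induction n with
    | zero => exact ⟨p, le_rfl, id, fun _ h => absurd h (by omega)⟩
    | succ n ih =>
      obtain ⟨q, hq, s, hs⟩ := ih
      obtain ⟨r, hr, k, hk⟩ := q.val le_rfl (ξ, n)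
      refine ⟨r, hr.trans hq, Function.update s n k, fun j hj => ?_⟩
      rcases Nat.lt_succ_iff_lt_or_eq.1 hj with h | rfl
      · rw [Function.update_of_ne h.ne]; exact hr _ _ (hs j h)
      · rwa [Function.update_self]
  obtain ⟨q, hq, s, hs⟩ := this
  exact ⟨q, hq, (List.range n).map s, fun j hj => by simp [List.getD, hj, hs j hj]⟩

theorem not_two {K V : Nm Co} {p : Co}
    (hV : Frc p (fun U => IsFunSet (E U) (mk U V) (mk U K) (mk U omegaN))) (i : K.ι)
    (hi : p ≤ K.b i)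
    (h : Frc p (fun U => TwoWins (E U) (mk U payoff) (mk U K) (mk U omegaN) (mk U V))) :
    False := by
  obtain ⟨σ, hσ⟩ := frc_ex h
  obtain ⟨nxt, hn⟩ := exists_nxt σ
  let c : ℕ → K.ι → ℕ → LowerSet Co := fun a i k => ⟨{q | q ≤ K.b i ∧ k = a},
    fun _ _ hab h => ⟨hab.trans h.1, h.2⟩⟩
  have hc : ∀ a i k (U : Ult Co), (c a i k : Set Co) ∈ U.U → Iic (K.b i) ∈ U.U ∧ k = a :=
    fun a i k U h => ⟨Filter.mem_of_superset h fun _ h => h.1,
      (Filter.nonempty_of_mem h).elim fun _ h => h.2⟩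
  have hcf : ∀ a, Frc p (fun U => E U (mk U (niceN K.A (c a))) (mk U V)) := by
    intro a U hU
    refine (hV U hU _).2 (isFun_niceN (fun i k U _ h => mem_intro K i U (hc _ _ _ U h).1)
      (fun b q _ hb => ?_) (fun i j k l U _ h1 h2 _ => ?_) U hU)
    · obtain ⟨r, hr, i, h1, h2⟩ := mem_elim hb
      exact ⟨r, hr, i, a, fun U hU => ⟨h2 U hU, frc_lower (S := c a i a) ⟨h1, rfl⟩ U hU⟩⟩
    · rw [(hc _ _ _ U h1).2, (hc _ _ _ U h2).2]
  choose m hm using fun s : List ℕ => exists_seq (fun n (m : ℕ → Nm Co) =>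
    if Even n then niceN K.A (c (s.getD n 0)) else nxt (seqN m n)) (by
      intro n f f' hf
      simp only [seqN_congr hf])
  have hmm : ∀ s s' n, (∀ j ≤ n, s.getD j 0 = s'.getD j 0) → m s n = m s' n := by
    intro s s' n
    induction n using Nat.strong_induction_on with
    | _ n ih =>
      intro h
      rw [hm s, hm s', h n le_rfl, seqN_congr fun i hi => ih i hi fun j hj => h j (by omega)]
  have hmV : ∀ s n, Frc p (fun U => E U (mk U (m s n)) (mk U V)) := by
    intro s n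
    induction n using Nat.strong_induction_on with
    | _ n ih =>
      intro U hU
      rw [hm]
      split_ifs
      · exact hcf _ U hU
      · exact ((hσ U hU).1.nxt (isFun_seqN fun i hi => ih i hi U hU) (hn _ U)).1
  obtain ⟨ξ, hξ⟩ := exists_bound (fun (t : List ℕ × ℕ × ℕ) U =>
    App (E U) (mk U (m t.1 t.2.1)) (mk U (K.A i)) (mk U (natN t.2.2)))
  let mt : List ℕ → ℕ → LowerSet Co := fun s n =>
    ⟨{q | ∀ j < n + 1, q.f (ξ, j) = some (s.getD j 0)}, fun _ _ hab h j hj => hab _ _ (h j hj)⟩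
  have hmt : ∀ s s' n (U : Ult Co), (mt s n : Set Co) ∈ U.U → (mt s' n : Set Co) ∈ U.U →
      m s n = m s' n := by
    intro s s' n U h1 h2
    obtain ⟨q, h3, h4⟩ := Filter.nonempty_of_mem (Filter.inter_mem h1 h2)
    exact hmm s s' n fun j hj =>
      Option.some.inj ((h3 j (by omega)).symm.trans (h4 j (by omega)))
  let f : Nm Co := rel (fun t : List ℕ × ℕ => natN t.2) (fun t => m t.1 t.2)
    (fun t U => (mt t.1 t.2 : Set Co) ∈ U.U)
  have hfa : ∀ s n (U : Ult Co), (mt s n : Set Co) ∈ U.U →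
      App (E U) (mk U f) (mk U (natN n)) (mk U (m s n)) := fun s n U h =>
    rel_intro (A := fun t : List ℕ × ℕ => natN t.2) (B := fun t => m t.1 t.2)
      (Q := fun t U => (mt t.1 t.2 : Set Co) ∈ U.U) (s, n) h
  have hmc : ∀ n (R : Ult Co → Prop) [C R], (∀ s U, (mt s n : Set Co) ∈ U.U → R U) → ∀ U, R U := by
    intro n R _ h
    refine (cl (Q := R)).all fun q => ?_
    obtain ⟨r, hr, s, hs⟩ := match_gen ξ (n + 1) q
    exact ⟨r, hr, (frc_lower (S := mt s n) hs).imp (h s)⟩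
  have hf : Frc p (fun U => IsFun (E U) (mk U f) (mk U omegaN) (mk U V)) := by
    intro U hU
    refine isFun_of rel_pairs (fun a b h' => ?_) (fun a ha => ?_) (fun a b c h1 h2 => ?_)
    · obtain ⟨a, rfl⟩ := mk_surj a
      obtain ⟨b, rfl⟩ := mk_surj b
      revert hU
      refine rel_cases (fun t U _ e1 e2 hU => ?_) U h'
      rw [e1, e2]
      exact ⟨nat_mem_omega _, hmV _ _ U hU⟩
    · obtain ⟨a, rfl⟩ := mk_surj a
      refine nat_cases (fun n U e => ?_) U ha
      rw [e]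
      exact hmc n (fun U => ∃ b, App (E U) (mk U f) (mk U (natN n)) b)
        (fun s U h => ⟨_, hfa s n U h⟩) U
    · obtain ⟨a, rfl⟩ := mk_surj a
      obtain ⟨b, rfl⟩ := mk_surj b
      obtain ⟨c, rfl⟩ := mk_surj c
      revert h2
      refine rel_cases (fun t U ht e1 e2 h2 => ?_) U h1
      revert ht e1 e2
      refine rel_cases (fun t' U ht' e1' e2' ht e1 e2 => ?_) U h2
      have e := natN_inj (e1.symm.trans e1')
      rw [e2, e2', ← e, hmt _ _ _ U ht (e ▸ ht')]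
  let g : ℕ → ℕ → LowerSet Co := fun n k => if Even n then gen (ξ, n) k else
    ⟨{q | ∃ s, q ∈ mt s n ∧ Frc (q.res (Lo ξ))
      (fun U => App (E U) (mk U (m s n)) (mk U (K.A i)) (mk U (natN k)))},
      fun _ _ hab ⟨s, h1, h2⟩ => ⟨s, (mt s n).lower hab h1, h2.mono (Fn.res_mono hab le_rfl)⟩⟩
  have hg : ∀ s n k (U : Ult Co), Iic p ∈ U.U → (mt s n : Set Co) ∈ U.U →
      ((g n k : Set Co) ∈ U.U ↔ App (E U) (mk U (m s n)) (mk U (K.A i)) (mk U (natN k))) := by
    intro s n k U hU h1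
    have h0 := (hV U hU _).1 (hmV s n U hU)
    by_cases hn : Even n
    · have h2 : ((gen (ξ, n) (s.getD n 0) : LowerSet Co) : Set Co) ∈ U.U :=
        Filter.mem_of_superset h1 fun q hq => hq n (by omega)
      have h3 : App (E U) (mk U (m s n)) (mk U (K.A i)) (mk U (natN (s.getD n 0))) := by
        rw [hm, if_pos hn]
        exact app_niceN (Filter.mem_of_superset hU fun q hq => ⟨le_trans hq hi, rfl⟩)
      simp only [g, if_pos hn]
      exact ⟨fun h => gen_uniq h h2 ▸ h3, fun h => natN_inj (h0.uniq h h3) ▸ h2⟩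
    · simp only [g, if_neg hn]
      refine Iff.trans ?_
        (cl (Q := fun U => App (E U) (mk U (m s n)) (mk U (K.A i)) (mk U (natN k))) U).symm
      constructor
      · intro h
        filter_upwards [h, h1] with q ⟨s', h2, h3⟩ h4
        rw [hmm s s' n fun j hj =>
          Option.some.inj ((h4 j (by omega)).symm.trans (h2 j (by omega)))]
        exact h3.mono (q.le_res _)
      · intro h
        filter_upwards [h, h1] with q h2 h3
        exact ⟨s, h3, hξ (s, n, k) q h2⟩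
  have hz : Frc p (fun U => IsFun (E U) (mk U (niceN natN g)) (mk U omegaN) (mk U omegaN)) := by
    refine isFun_niceN (fun n _ _ _ _ => nat_mem_omega n) (fun a q hq ha => ?_)
      (fun n n' k l U hU h1 h2 e => ?_)
    · obtain ⟨r, hr, n, h1⟩ := decide_nat ha
      obtain ⟨r', hr', s, hs⟩ := match_gen ξ (n + 1) r
      have h2 : r' ≤ p := hr'.trans (hr.trans hq)
      obtain ⟨t, ht, k, h3⟩ := decide_app (f := m s n) (a := K.A i) (p := r') fun U hU =>
        ⟨(hV.mono h2 U hU _).1 ((hmV s n).mono h2 U hU), (mem_intro K i).mono (h2.trans hi) U hU⟩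
      exact ⟨t, ht.trans (hr'.trans hr), n, k, fun U hU => ⟨h1.mono (ht.trans hr') U hU,
        (hg s n k U (frc_G (ht.trans h2) U hU) ((frc_lower (S := mt s n) hs).mono ht U hU)).2
          (h3 U hU)⟩⟩
    · obtain rfl := natN_inj e
      refine hmc n (fun U => Iic p ∈ U.U → (g n k : Set Co) ∈ U.U → (g n l : Set Co) ∈ U.U → k = l)
        (fun s U h hU h1 h2 => ?_) U hU h1 h2
      exact natN_inj (((hV U hU _).1 (hmV s n U hU)).uniq ((hg s n k U hU h).1 h1)
        ((hg s n l U hU h).1 h2))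
  let t : Idx := ⟨(g, ξ), fun n k => supp_lower le_rfl fun q hq => by
      by_cases hn : Even n
      · simp only [g, if_pos hn] at hq ⊢
        exact Fn.res_some.2 ⟨le_refl ξ, hq⟩
      · simp only [g, if_neg hn] at hq ⊢
        obtain ⟨s, h1, h2⟩ := hq
        exact ⟨s, fun j hj => Fn.res_some.2 ⟨le_refl ξ, h1 j hj⟩, h2.mono fun x k h =>
          Fn.res_some.2 ⟨(Fn.res_some.1 h).1, (Fn.res_some (A := Le ξ) (x := x)).2
            ⟨le_of_lt (show x.1 < ξ from (Fn.res_some.1 h).1), (Fn.res_some.1 h).2⟩⟩⟩,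
    fun n hn k => if_pos hn⟩
  obtain ⟨U, hU⟩ := ex_ult p
  refine (hσ U hU).2 _ (hf U hU) (fun n hn' => ?_) ⟨_, (mem_intro K i).mono hi U hU, _,
    fam_intro (A := fun t : Idx => niceN natN t.1.1) t (hz U hU), fun n y k hn' => ?_⟩
  · obtain ⟨n, rfl⟩ := mk_surj n
    revert hU
    refine nat_cases (fun k U e hU => ?_) U hn'
    rw [e]
    clear e
    revert hU
    refine hmc k (fun U => Iic p ∈ U.U → ¬ Ev (E U) (mk U (natN k)) →
      Follows (E U) (mk U σ) (mk U f) (mk U (natN k))) (fun s U h hU he => ?_) U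
    intro s' y hs hy
    rw [hs.uniq (restr_seqN (g := m s) (hf U hU) fun j hj => hfa s j U
      (Filter.mem_of_superset h fun q hq j' hj' => hq j' (by omega))),
      (hf U hU).uniq hy (hfa s k U h), hm s k, if_neg fun h => he (ev_natN.2 h)]
    exact ((hσ U hU).1.nxt (isFun_seqN fun i _ => hmV s i U hU) (hn _ U)).2
  · obtain ⟨n, rfl⟩ := mk_surj n
    obtain ⟨y, rfl⟩ := mk_surj y
    obtain ⟨k, rfl⟩ := mk_surj k
    revert hU
    refine nat_cases (fun n' U e hU => ?_) U hn'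
    rw [e]
    clear e
    revert hU
    refine hmc n' (fun U => Iic p ∈ U.U → App (E U) (mk U f) (mk U (natN n')) (mk U y) →
      App (E U) (mk U y) (mk U (K.A i)) (mk U k) →
      App (E U) (mk U (niceN natN g)) (mk U (natN n')) (mk U k)) (fun s U h hU h1 h2 => ?_) U
    rw [(hf U hU).uniq h1 (hfa s n' U h)] at h2
    have h3 := (((hV U hU _).1 (hmV s n' U hU)).dom h2).2
    clear h1
    revert h hU h2
    refine nat_cases (fun k' U e h hU h2 => ?_) U h3
    rw [e] at h2 ⊢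
    exact app_niceN ((hg s n' k' U hU h).2 h2)

theorem undetermined (U : Ult Co) (K V : M U) (hK : ∃ a, E U a K)
    (hV : IsFunSet (E U) V K (mk U omegaN)) :
    ¬ (OneWins (E U) (mk U payoff) K (mk U omegaN) V ∨
      TwoWins (E U) (mk U payoff) K (mk U omegaN) V) := by
  obtain ⟨K, rfl⟩ := mk_surj K
  obtain ⟨V, rfl⟩ := mk_surj V
  obtain ⟨a, ha⟩ := hK
  obtain ⟨a, rfl⟩ := mk_surj a
  rintro (h | h)
  · obtain ⟨p, hp⟩ := Filter.nonempty_of_mem ((cl (Q := fun U =>
      IsFunSet (E U) (mk U V) (mk U K) (mk U omegaN) ∧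
      OneWins (E U) (mk U payoff) (mk U K) (mk U omegaN) (mk U V)) U).1 ⟨hV, h⟩)
    exact not_one (hp.imp fun _ h => h.1) (hp.imp fun _ h => h.2)
  · obtain ⟨p, hp⟩ := Filter.nonempty_of_mem ((cl (Q := fun U => E U (mk U a) (mk U K) ∧
      IsFunSet (E U) (mk U V) (mk U K) (mk U omegaN) ∧
      TwoWins (E U) (mk U payoff) (mk U K) (mk U omegaN) (mk U V)) U).1 ⟨ha, hV, h⟩)
    obtain ⟨q, hq, i, hi, -⟩ := mem_elim (hp.imp fun _ h => h.1)
    exact not_two ((hp.mono hq).imp fun _ h => h.2.1) i hi ((hp.mono hq).imp fun _ h => h.2.2)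

end Pool.Agent.H42.ZF
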