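import Pool.Agent.H42.HExt1

/-! Under CH: a `γ`-space of countable `i`-weight with uncountably many isolated points. -/

open Set Filter Cardinal Topology TopologicalSpace

namespace Pool.Agent.H42.GamM

open Pool.Agent.H42.Dirac

lemma tower (hc : (𝔠 : Cardinal.{0}) = ℵ₁) : ∃ x : W → Set ℕ, (∀ α, (x α).Infinite) ∧
    Function.Injective x ∧ (∀ α β, α ≤ β → (x β \ x α).Finite) ∧
    ∀ m : ℕ → ℕ, StrictMono m → ∃ α, ∃ᶠ n in atTop, ∀ i ∈ x α, ¬ (m n ≤ i ∧ i < m (n + 1)) := by
  obtain ⟨b, hb⟩ := HExt.onto (ℕ → ℕ) (by rw [← hc]; simp)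
  obtain ⟨f, hf⟩ := TStar.rec_o (T := W) (σ := Set ℕ)
    (fun α g s => s.Infinite ∧ (∀ β, (s \ g β).Finite ∧ s ≠ g β) ∧ (StrictMono (b α) →
      ∃ᶠ n in atTop, ∀ i ∈ s, ¬ (b α n ≤ i ∧ i < b α (n + 1))))
    (fun α g hg => by
      have := (Iio_count α).to_subtype
      obtain ⟨E, hE, hEg⟩ := Tau.pseudo g (fun β => (hg β).1) fun β γ => by
        rcases lt_trichotomy β γ with h | rfl | h
        exacts [Or.inr ((hg γ).2.1 ⟨β, h⟩).1, Or.inl (by simp), Or.inl ((hg β).2.1 ⟨γ, h⟩).1]
      obtain ⟨p, hp, hs⟩ : ∃ p < 2, (E ∩ {i | sInf {n | i < b α n} % 2 = p}).Infinite := by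
        by_contra h
        push Not at h
        refine hE (((h 0 (by omega)).union (h 1 (by omega))).subset fun i hi => ?_)
        rcases Nat.mod_two_eq_zero_or_one (sInf {n | i < b α n}) with h' | h'
        exacts [Or.inl ⟨hi, h'⟩, Or.inr ⟨hi, h'⟩]
      let u := Set.Infinite.natEmbedding _ hs
      refine ⟨range fun n => (u (2 * n) : ℕ), infinite_range_of_injective fun a b h => by
        have := u.injective (Subtype.ext h); omega, fun β => ⟨(hEg β).subset
        (sdiff_subset_sdiff_left (range_subset_iff.2 fun n => (u _).2.1)), fun h => ?_⟩,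
        fun hm => frequently_atTop.2 fun N => ⟨2 * N + p, by omega, ?_⟩⟩
      · refine infinite_range_of_injective (f := fun n => (u (2 * n + 1) : ℕ)) (fun a b h => by
          have := u.injective (Subtype.ext h); omega) ((hEg β).subset ?_)
        rintro _ ⟨n, rfl⟩
        refine ⟨(u _).2.1, h ▸ fun ⟨k, hk⟩ => ?_⟩
        have := u.injective (Subtype.ext hk); omega
      · rintro _ ⟨n, rfl⟩ ⟨h1, h2⟩
        have h3 : sInf {k | (u (2 * n) : ℕ) < b α k} % 2 = p := (u (2 * n)).2.2
        rw [IsLeast.csInf_eq (s := {k | (u (2 * n) : ℕ) < b α k}) (a := 2 * N + p + 1) ⟨h2, fun k hk =>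
          Nat.succ_le_of_lt (hm.lt_iff_lt.1 (h1.trans_lt hk))⟩] at h3
        omega)
  refine ⟨f, fun α => (hf α).1, fun α β h => ?_, fun α β h => ?_, fun m hm => ?_⟩
  · rcases lt_trichotomy α β with h' | h' | h'
    exacts [absurd h.symm ((hf β).2.1 ⟨α, h'⟩).2, h', absurd h ((hf α).2.1 ⟨β, h'⟩).2]
  · rcases h.eq_or_lt with rfl | h
    exacts [by simp, ((hf β).2.1 ⟨α, h⟩).1]
  · obtain ⟨α, rfl⟩ := hb m
    exact ⟨α, (hf α).2.2 hm⟩

theorem main (hc : (𝔠 : Cardinal.{0}) = ℵ₁) : ∃ (X : Type) (_ : TopologicalSpace X), T35Space X ∧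
    SeparableSpace {f : X → ℝ // Continuous f} ∧ FrechetUrysohnSpace {f : X → ℝ // Continuous f} ∧
    ∃ D : Set {f : X → ℝ // Continuous f}, ¬ SeparableSpace D := by
  classical
  obtain ⟨x, hx1, hx2, hx3, hx4⟩ := tower hc
  let φ : Finset ℕ ⊕ W → ℕ → Bool := fun y i => decide (i ∈ y.elim (fun s : Finset ℕ => (s : Set ℕ)) x)
  have hφ : Function.Injective φ := by
    have h : ∀ y z, φ y = φ z →
        y.elim (fun s : Finset ℕ => (s : Set ℕ)) x = z.elim (fun s : Finset ℕ => (s : Set ℕ)) x :=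
      fun y z h => Set.ext fun i => decide_eq_decide.1 (congrFun h i)
    rintro (s | α) (t | β) h' <;> have := h _ _ h'
    · exact congrArg _ (Finset.coe_injective this)
    · exact absurd (s.finite_toSet.subset this.ge) (hx1 β)
    · exact absurd (t.finite_toSet.subset this.le) (hx1 α)
    · exact congrArg _ (hx2 this)
  let ψ : Finset ℕ ⊕ W → (ℕ → Bool) × (W → Bool) := fun y => (φ y, fun α => decide (y = .inr α))
  let τ : TopologicalSpace (Finset ℕ ⊕ W) := .induced ψ inferInstance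
  have he : IsEmbedding ψ := ⟨⟨rfl⟩, fun y z h => hφ (congrArg Prod.fst h)⟩
  have hφc : Continuous φ := continuous_fst.comp he.continuous
  have hδ : ∀ α, Continuous fun y : Finset ℕ ⊕ W => if y = .inr α then (1 : ℝ) else 0 := fun α => by
    have := (continuous_of_discreteTopology (f := fun b : Bool => if b then (1 : ℝ) else 0)).comp
      ((continuous_apply α).comp (continuous_snd.comp he.continuous))
    simpa [ψ, Function.comp_def] using this
  have hn : ∀ (s : Finset ℕ) (U : Set (Finset ℕ ⊕ W)), U ∈ 𝓝 (.inl s) →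
      ∀ᶠ n in atTop, ∀ y, (∀ i < n, φ y i = φ (.inl s) i) → y ∈ U := fun s U hU => by
    have h1 : comap φ (𝓝 (φ (.inl s))) ≤ 𝓝 (.inl s) := by
      rw [he.nhds_eq_comap, ← tendsto_iff_comap]
      refine tendsto_comap.prodMk_nhds (tendsto_pi_nhds.2 fun α => tendsto_const_nhds.congr' ?_)
      filter_upwards [preimage_mem_comap (compl_singleton_mem_nhds
        (hφ.ne (Sum.inl_ne_inr (a := s) (b := α))))] with y hy
      simpa using fun h : y = .inr α => hy (congrArg φ h)
    obtain ⟨V, hV, hVU⟩ := h1 hU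
    rw [nhds_pi, Filter.mem_pi'] at hV
    obtain ⟨I, v, hv, hI⟩ := hV
    filter_upwards [eventually_gt_atTop (I.sup id)] with n hn y hy
    exact hVU (hI fun i hi => by
      rw [hy i ((Finset.le_sup (f := id) hi).trans_lt hn)]; exact mem_of_mem_nhds (hv i))
  have hden : ∀ (f : {f : Finset ℕ ⊕ W → ℝ // Continuous f}) (A), f ∈ closure A ↔
      ∀ (I : Finset (Finset ℕ ⊕ W)) (ε : ℝ), 0 < ε → ∃ g ∈ A, ∀ y ∈ I, dist (g.1 y) (f.1 y) < ε := by
    intro f A
    rw [mem_closure_iff_frequently]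
    refine ⟨fun h I ε hε => ?_, fun h => frequently_iff.2 fun {U} hU => ?_⟩
    · exact (h.and_eventually ((eventually_all_finset I).2 fun y _ => Metric.tendsto_nhds.1
        (((continuous_apply y).comp continuous_subtype_val).tendsto f) ε hε)).exists
    · obtain ⟨V, hV, hVU⟩ := (mem_nhds_subtype _ _ _).1 hU
      rw [nhds_pi, Filter.mem_pi'] at hV
      obtain ⟨I, v, hv, hI⟩ := hV
      obtain ⟨ε, h1, h2⟩ := (((eventually_all_finset I).2 fun y _ =>
        eventually_ball_subset (hv y)).filter_mono (nhdsWithin_le_nhds (s := Ioi 0))).and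
        self_mem_nhdsWithin |>.exists
      obtain ⟨g, hg, h3⟩ := h I ε h2
      exact ⟨g, hVU (hI fun y hy => h1 y hy (h3 y hy)), hg⟩
  refine ⟨_, τ, he.t35Space, ?_, ⟨fun A f hf => ?_⟩, range fun α => ⟨_, hδ α⟩, fun hs => ?_⟩
  · refine DenseRange.separableSpace (f := fun g : C(ℕ → Bool, ℝ) =>
      (⟨g ∘ φ, g.continuous.comp hφc⟩ : {f : Finset ℕ ⊕ W → ℝ // Continuous f}))
      (fun f => (hden f _).2 fun I ε hε => ?_)
      (Continuous.subtype_mk (continuous_pi fun y => continuous_eval_const (φ y)) _)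
    have hI := (I.finite_toSet.image φ)
    have := hI.to_subtype
    obtain ⟨g, hg⟩ := ContinuousMap.exists_restrict_eq hI.isClosed
      ⟨fun z => f.1 (Function.invFun φ z), continuous_of_discreteTopology⟩
    refine ⟨_, ⟨g, rfl⟩, fun y hy => ?_⟩
    have := DFunLike.congr_fun hg ⟨φ y, y, hy, rfl⟩
    simp only [ContinuousMap.restrict_apply, ContinuousMap.coe_mk,
      Function.leftInverse_invFun hφ y] at this
    simp [this, hε]
  · let U : {f : Finset ℕ ⊕ W → ℝ // Continuous f} → ℕ → Set (Finset ℕ ⊕ W) := fun g k =>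
      {y | dist (g.1 y) (f.1 y) < 1 / (k + 1)}
    have gm : ∀ (k m : ℕ) (F : Finset (Finset ℕ ⊕ W)), ∃ g ∈ A, ∃ m' > m, (∀ y ∈ F, y ∈ U g k) ∧
        ∀ y, (∀ i, φ y i = true → ¬ (m ≤ i ∧ i < m')) → y ∈ U g k := fun k m F => by
      obtain ⟨g, hg, h⟩ := (hden f A).1 hf (F ∪ (Finset.range m).powerset.image .inl)
        (1 / (k + 1)) (by positivity)
      obtain ⟨m', h1, h2⟩ := ((eventually_gt_atTop m).and ((eventually_all_finset _).2 fun s hs =>
        hn s (U g k) ((isOpen_lt (g.2.dist f.2) continuous_const).mem_nhds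
          (h _ (Finset.mem_union_right _ (Finset.mem_image_of_mem _ hs)))))).exists
      refine ⟨g, hg, m', h1, fun y hy => h y (Finset.mem_union_left _ hy), fun y hy =>
        h2 ((Finset.range m).filter fun i => φ y i = true)
          (Finset.mem_powerset.2 (Finset.filter_subset _ _)) y fun i hi => ?_⟩
      rw [Bool.eq_iff_iff]
      simp only [φ, Sum.elim_inl, Finset.coe_filter, Finset.mem_range, mem_ofPred_eq,
        decide_eq_true_eq]
      exact ⟨fun h => ⟨not_le.1 fun h' => hy i (decide_eq_true h) ⟨h', hi⟩, h⟩, fun h => h.2⟩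
    choose G hG M hM h1 h2 using gm
    let Z : W → Set (Finset ℕ ⊕ W) := fun α => range .inl ∪ .inr '' Iio α
    have hZ : ∀ α, ∃ e : ℕ → _, Z α = range e := fun α =>
      ((countable_range _).union ((Iio_count α).image _)).exists_eq_range ⟨_, Or.inl ⟨∅, rfl⟩⟩
    choose e he' using hZ
    let F : W → ℕ → Finset (Finset ℕ ⊕ W) := fun α n => (Finset.range n).image (e α)
    let m : W → ℕ → ℕ := fun α n => Nat.rec 0 (fun n r => M n r (F α n)) n
    choose β hβ using fun α => hx4 (m α) (strictMono_nat_of_lt_succ fun n => hM n _ _)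
    have : Nonempty W := (Cardinal.infinite_iff.2 (W_card ▸ aleph0_le_aleph 1)).nonempty
    let a : ℕ → W := fun j => Nat.rec (Classical.arbitrary W) (fun _ r => max r (β r)) j
    have ha : Monotone a := monotone_nat_of_le_succ fun j => le_max_left _ _
    obtain ⟨s, hs, hsm⟩ := wellFounded_lt.has_min {γ | ∀ j, a j ≤ γ}
      (let ⟨γ, h⟩ := bdd _ (countable_range a); ⟨γ, fun j => (h _ ⟨j, rfl⟩).le⟩)
    have hk : ∀ k, ∃ n, k ≤ n ∧ (∀ y ∈ F s k, y ∈ Z (a k) → y ∈ F (a k) n) ∧
        ∀ i ∈ x s, ¬ (m (a k) n ≤ i ∧ i < m (a k) (n + 1)) := fun k => by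
      obtain ⟨N, hN⟩ := (hx3 _ _ ((le_max_right _ _).trans (hs (k + 1)))).bddAbove
      have h3 : ∀ᶠ n in atTop, ∀ y ∈ F s k, y ∈ Z (a k) → y ∈ F (a k) n :=
        (eventually_all_finset _).2 fun y _ => by
          by_cases hy : y ∈ Z (a k)
          · obtain ⟨i, rfl⟩ := he' _ ▸ hy
            exact (eventually_gt_atTop i).mono fun n hn _ =>
              Finset.mem_image_of_mem _ (Finset.mem_range.2 hn)
          · exact Eventually.of_forall fun _ h => absurd h hy
      obtain ⟨n, h4, h5, h6, h7⟩ := ((hβ (a k)).and_eventually ((eventually_ge_atTop k).and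
        ((eventually_gt_atTop N).and h3))).exists
      refine ⟨n, h5, h7, fun i hi h8 => h4 i (by_contra fun h9 => ?_) h8⟩
      have := (strictMono_nat_of_lt_succ (f := m (a k)) fun n => hM n _ _).le_apply (x := n)
      have := hN ⟨hi, h9⟩
      omega
    choose n hn1 hn2 hn3 using hk
    refine ⟨fun k => G (n k) (m (a k) (n k)) (F (a k) (n k)), fun k => hG _ _ _,
      tendsto_subtype_rng.2 (tendsto_pi_nhds.2 fun y => ?_)⟩
    have h3 : ∀ᶠ k in atTop, y ∈ U (G (n k) (m (a k) (n k)) (F (a k) (n k))) (n k) := by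
      by_cases hy : ∃ j, y ∈ Z (a j)
      · obtain ⟨j, hj⟩ := hy
        have hm : ∀ γ, a j ≤ γ → y ∈ Z γ := fun γ h =>
          hj.imp_right fun h' => image_mono (Iio_subset_Iio h) h'
        obtain ⟨i, hi⟩ := he' _ ▸ hm s (hs j)
        filter_upwards [eventually_gt_atTop i, eventually_ge_atTop j] with k h4 h5
        exact h1 _ _ _ y (hn2 k y (Finset.mem_image.2 ⟨i, Finset.mem_range.2 h4, hi⟩)
          (hm _ (ha h5)))
      · rcases y with t | γ
        · exact absurd ⟨0, Or.inl ⟨t, rfl⟩⟩ hy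
        obtain ⟨N, hN⟩ := (hx3 s γ (not_lt.1 (hsm γ fun j => not_lt.1 fun h =>
          hy ⟨j, Or.inr ⟨γ, h, rfl⟩⟩))).bddAbove
        filter_upwards [eventually_gt_atTop N] with k hk
        refine h2 _ _ _ _ fun i hi h8 => hn3 k i (by_contra fun h9 => ?_) h8
        have := (strictMono_nat_of_lt_succ (f := m (a k)) fun n => hM n _ _).le_apply (x := n k)
        have := hN ⟨of_decide_eq_true hi, h9⟩
        have := hn1 k
        omega
    refine tendsto_iff_dist_tendsto_zero.2 (squeeze_zero' (Eventually.of_forall fun _ => dist_nonneg)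
      (h3.mono fun k hk => le_of_lt hk) (tendsto_one_div_add_atTop_nhds_zero_nat.comp
        (tendsto_atTop_mono hn1 tendsto_id)))
  · obtain ⟨c, hc1, hc2⟩ := hs.exists_countable_dense
    have := hc1.to_subtype
    choose a ha using fun g : c => g.1.2
    obtain ⟨α, hα⟩ := bdd _ (countable_range a)
    obtain ⟨g, hg, h⟩ := hc2.exists_mem_open (U := {g | 0 < g.1.1 (.inr α)})
      (isOpen_lt continuous_const ((continuous_apply _).comp
        (continuous_subtype_val.comp continuous_subtype_val))) ⟨⟨_, α, rfl⟩, by simp⟩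
    have h1 := ha ⟨g, hg⟩
    have h2 : 0 < g.1.1 (.inr α) := h
    rw [← h1] at h2
    simp [(hα _ ⟨⟨g, hg⟩, rfl⟩).ne'] at h2

end Pool.Agent.H42.GamM
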