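import Mathlib

/-! Many sets with different families of gauges of positive measure. -/

namespace Pool.Agent.H42.Gauge

open Set MeasureTheory Filter Topology Metric
open scoped NNReal ENNReal

/-- One ternary digit. -/
noncomputable def dg (ε : ℕ → Bool) (j : ℕ) : ℝ := if ε j then (1 / 3) ^ j else 0

/-- The Cantor map. -/
noncomputable def cf (ε : ℕ → Bool) : ℝ := ∑' j, dg ε j

theorem dg_nonneg (ε : ℕ → Bool) (j : ℕ) : 0 ≤ dg ε j := by
  unfold dg; split_ifs <;> positivity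

theorem dg_le (ε : ℕ → Bool) (j : ℕ) : dg ε j ≤ (1 / 3) ^ j := by
  unfold dg; split_ifs
  · exact le_rfl
  · positivity

theorem dg_summable (ε : ℕ → Bool) : Summable (dg ε) :=
  Summable.of_nonneg_of_le (dg_nonneg ε) (dg_le ε)
    (summable_geometric_of_lt_one (by norm_num) (by norm_num))

theorem cf_tail (ε ε' : ℕ → Bool) (n : ℕ) :
    |cf ε - cf ε' - ∑ j ∈ Finset.range n, (dg ε j - dg ε' j)| ≤ (1 / 3) ^ n * (3 / 2) := by
  have h1 : cf ε - cf ε' = ∑' j, (dg ε j - dg ε' j) :=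
    ((dg_summable ε).tsum_sub (dg_summable ε')).symm
  rw [h1, ← ((dg_summable ε).sub (dg_summable ε')).sum_add_tsum_nat_add n, add_sub_cancel_left]
  have h2 : HasSum (fun j : ℕ => ((1 : ℝ) / 3) ^ n * (1 / 3) ^ j) ((1 / 3) ^ n * (3 / 2)) := by
    have := (hasSum_geometric_of_lt_one (r := (1 : ℝ) / 3) (by norm_num) (by norm_num)).mul_left
      ((1 / 3) ^ n)
    rwa [show ((1 : ℝ) - 1 / 3)⁻¹ = 3 / 2 by norm_num] at this
  rw [← Real.norm_eq_abs]
  refine tsum_of_norm_bounded h2 fun j => ?_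
  rw [Real.norm_eq_abs, abs_le, ← pow_add, add_comm n j]
  constructor <;> linarith [dg_nonneg ε (j + n), dg_nonneg ε' (j + n), dg_le ε (j + n),
    dg_le ε' (j + n)]

theorem cf_close {ε ε' : ℕ → Bool} {n : ℕ} (h : ∀ j < n, ε j = ε' j) :
    |cf ε - cf ε'| ≤ (1 / 3) ^ n * (3 / 2) := by
  have := cf_tail ε ε' n
  rwa [Finset.sum_eq_zero (fun j hj => by simp [dg, h j (Finset.mem_range.1 hj)]), sub_zero] at this

theorem cf_far {ε ε' : ℕ → Bool} {n : ℕ} (h : ∀ j < n, ε j = ε' j) (hn : ε n ≠ ε' n) :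
    (1 / 3) ^ n / 2 ≤ |cf ε - cf ε'| := by
  have := cf_tail ε ε' (n + 1)
  rw [Finset.sum_range_succ,
    Finset.sum_eq_zero (fun j hj => by simp [dg, h j (Finset.mem_range.1 hj)]), zero_add,
    abs_le, pow_succ] at this
  have hp : (0 : ℝ) < (1 / 3) ^ n := by positivity
  unfold dg at this
  cases h1 : ε n <;> cases h2 : ε' n <;> simp only [h1, h2] at hn this
  · exact absurd rfl hn
  · refine le_abs.2 (Or.inr ?_)
    simp only [Bool.false_eq_true, if_false, if_true] at this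
    linarith [this.2]
  · refine le_abs.2 (Or.inl ?_)
    simp only [Bool.false_eq_true, if_false, if_true] at this
    linarith [this.1]
  · exact absurd rfl hn

/-- The scales. -/
noncomputable def tau (n : ℕ) : ℝ≥0 := (1 / 3) ^ n / 2

theorem tau_pos (n : ℕ) : 0 < tau n := by unfold tau; positivity

theorem tau_coe (n : ℕ) : (tau n : ℝ) = (1 / 3) ^ n / 2 := by simp [tau]

theorem exists_tau {t : ℝ≥0} (ht : 0 < t) : ∃ n, tau n ≤ t := by
  obtain ⟨n, hn⟩ := exists_pow_lt_of_lt_one (show (0 : ℝ) < t from ht)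
    (show (1 : ℝ) / 3 < 1 by norm_num)
  refine ⟨n, ?_⟩
  rw [← NNReal.coe_le_coe, tau_coe]
  have : (0 : ℝ) < (1 / 3) ^ n := by positivity
  linarith

open Classical in
/-- The gauge attached to a set of positions. -/
noncomputable def gauge (P : ℕ → Prop) (t : ℝ≥0) : ℝ≥0 :=
  if h : ∃ n, tau n ≤ t then (1 / 2) ^ (Nat.count P (Nat.find h)) else 0

open Classical in
theorem gauge_eq (P : ℕ → Prop) {t : ℝ≥0} {n : ℕ} (h1 : tau n ≤ t) (h2 : ∀ j < n, t < tau j) :
    gauge P t = (1 / 2) ^ (Nat.count P n) := by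
  have h : ∃ n, tau n ≤ t := ⟨n, h1⟩
  rw [gauge, dif_pos h, (Nat.find_eq_iff h).2 ⟨h1, fun j hj => not_le.2 (h2 j hj)⟩]

theorem exists_level {t : ℝ≥0} (ht : 0 < t) : ∃ n, tau n ≤ t ∧ ∀ j < n, t < tau j := by
  classical
  exact ⟨Nat.find (exists_tau ht), Nat.find_spec (exists_tau ht),
    fun j hj => not_le.1 (Nat.find_min (exists_tau ht) hj)⟩

theorem gauge_zero (P : ℕ → Prop) : gauge P 0 = 0 :=
  dif_neg fun ⟨n, hn⟩ => (tau_pos n).not_ge hn

open Classical in
theorem half_pow_anti (P : ℕ → Prop) {m n : ℕ} (h : m ≤ n) :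
    ((1 : ℝ≥0) / 2) ^ (Nat.count P n) ≤ (1 / 2) ^ (Nat.count P m) :=
  pow_le_pow_of_le_one (by positivity) (by norm_num) (Nat.count_monotone P h)

theorem tau_anti : StrictAnti tau := strictAnti_nat_of_succ_lt fun n => by
  rw [← NNReal.coe_lt_coe, tau_coe, tau_coe, pow_succ]
  have : (0 : ℝ) < (1 / 3) ^ n := by positivity
  linarith

open Classical in
theorem gauge_le (P : ℕ → Prop) {t : ℝ≥0} {n : ℕ} (h : t < tau n) :
    gauge P t ≤ (1 / 2) ^ (Nat.count P (n + 1)) := by
  rcases (zero_le (a := t)).eq_or_lt with rfl | ht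
  · rw [gauge_zero]; positivity
  obtain ⟨m, h1, h2⟩ := exists_level ht
  rw [gauge_eq P h1 h2]
  exact half_pow_anti P (Nat.succ_le_of_lt (tau_anti.lt_iff_gt.1 (h1.trans_lt h)))

theorem gauge_mono (P : ℕ → Prop) : Monotone (gauge P) := by
  intro s t hst
  rcases (zero_le (a := s)).eq_or_lt with rfl | hs
  · rw [gauge_zero]; positivity
  obtain ⟨m, h1, h2⟩ := exists_level hs
  obtain ⟨n, h3, h4⟩ := exists_level (hs.trans_le hst)
  rw [gauge_eq P h1 h2, gauge_eq P h3 h4]
  refine half_pow_anti P (not_lt.1 fun h => (h4 m h).not_ge (h1.trans hst))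

theorem gauge_pos (P : ℕ → Prop) {t : ℝ≥0} (ht : 0 < t) : 0 < gauge P t := by
  obtain ⟨m, h1, h2⟩ := exists_level ht
  rw [gauge_eq P h1 h2]; positivity

open Classical in
theorem gauge_cont {P : ℕ → Prop} (hP : ∀ C, ∃ n, C ≤ Nat.count P n) (x : ℝ≥0) :
    ContinuousWithinAt (gauge P) (Ici x) x := by
  rcases (zero_le (a := x)).eq_or_lt with rfl | hx
  · apply ContinuousAt.continuousWithinAt
    rw [ContinuousAt, gauge_zero]
    refine tendsto_order.2 ⟨fun a ha => absurd ha (not_lt.2 (zero_le)), fun a ha => ?_⟩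
    obtain ⟨C, hC⟩ := exists_pow_lt_of_lt_one ha (show (1 : ℝ≥0) / 2 < 1 by norm_num)
    obtain ⟨n, hn⟩ := hP C
    filter_upwards [gt_mem_nhds (tau_pos n)] with s hs
    refine (gauge_le P hs).trans_lt (lt_of_le_of_lt ?_ hC)
    exact pow_le_pow_of_le_one (by positivity) (by norm_num)
      (hn.trans (Nat.count_monotone P (Nat.le_succ n)))
  · obtain ⟨n, h1, h2⟩ := exists_level hx
    have h3 : ∀ᶠ s in 𝓝 x, ∀ j ∈ Finset.range n, s < tau j :=
      (Finset.range n).eventually_all.2 fun j hj => gt_mem_nhds (h2 j (Finset.mem_range.1 hj))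
    refine (continuousWithinAt_const (b := gauge P x)).congr_of_eventuallyEq ?_ rfl
    filter_upwards [mem_nhdsWithin_of_mem_nhds h3, self_mem_nhdsWithin] with s hs hxs
    rw [gauge_eq P h1 h2, gauge_eq P (h1.trans hxs) (fun j hj => hs j (Finset.mem_range.2 hj))]

/-- The Cantor set with free digits in `P`. -/
def cs (P : ℕ → Prop) : Set ℝ := cf '' {ε | ∀ j, ¬ P j → ε j = false}

/-- The Hausdorff outer measure of a gauge. -/
noncomputable def hm (f : ℝ≥0 → ℝ≥0) : OuterMeasure ℝ :=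
  OuterMeasure.mkMetric (fun r : ℝ≥0∞ => ((f r.toNNReal : ℝ≥0) : ℝ≥0∞))

theorem le_half_pow {a : ℝ≥0∞} (h : ∀ C : ℕ, a ≤ (1 / 2) ^ C) : a = 0 := by
  have := ENNReal.tendsto_pow_atTop_nhds_zero_of_lt_one (r := 1 / 2) (by norm_num)
  exact le_antisymm (ge_of_tendsto' this h) zero_le

theorem coe_half_pow (k : ℕ) : ((((1 : ℝ≥0) / 2) ^ k : ℝ≥0) : ℝ≥0∞) = (1 / 2) ^ k := by
  rw [ENNReal.coe_pow, ENNReal.coe_div (by norm_num)]
  rfl

open Classical in
theorem cs_pos {P : ℕ → Prop} (hP : ∀ C, ∃ n, C ≤ Nat.count P n) : 0 < hm (gauge P) (cs P) := by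
  let ν : Measure (ℕ → Bool) :=
    Measure.infinitePi fun _ => ProbabilityTheory.uniformOn (univ : Set Bool)
  let g : (ℕ → Bool) → ℝ := fun ε => cf fun j => if P j then ε j else false
  let μ : OuterMeasure ℝ := OuterMeasure.map g ν.toOuterMeasure
  have hμ : ∀ s, μ s = ν (g ⁻¹' s) := fun s => rfl
  have h1 : μ (cs P) = 1 := by
    rw [hμ, show g ⁻¹' cs P = univ from eq_univ_of_forall fun ε => ⟨_, fun j hj => if_neg hj, rfl⟩]
    exact measure_univ
  have key : μ ≤ hm (gauge P) := by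
    refine OuterMeasure.le_mkMetric _ μ 1 one_pos fun s hs => ?_
    have hs' : ediam s ≠ ⊤ := (hs.trans_lt ENNReal.one_lt_top).ne
    have claim : ∀ n, (∀ j < n, (ediam s).toNNReal < tau j) →
        μ s ≤ (1 / 2) ^ (Nat.count P n) := by
      intro n hn
      rw [hμ]
      rcases (g ⁻¹' s).eq_empty_or_nonempty with h0 | ⟨ε₀, h0⟩
      · rw [h0, measure_empty]; exact zero_le
      have hsub : g ⁻¹' s ⊆ Set.pi (((Finset.range n).filter P : Finset ℕ) : Set ℕ)
          (fun j => {ε₀ j}) := by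
        intro ε hε
        have : ∀ j, j < n → (if P j then ε j else false) = if P j then ε₀ j else false := by
          intro j
          induction j using Nat.strong_induction_on with
          | _ j ih =>
            intro hj
            by_contra hc
            have a1 := cf_far (ε := fun j => if P j then ε j else false)
              (ε' := fun j => if P j then ε₀ j else false) (fun i hi => ih i hi (hi.trans hj)) hc
            have a2 : dist (g ε) (g ε₀) ≤ diam s := dist_le_diam_of_mem' hs' hε h0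
            have a3 : diam s < (tau j : ℝ) := hn j hj
            rw [tau_coe] at a3
            rw [Real.dist_eq] at a2
            exact (a1.trans a2).not_gt a3
        intro j hj
        simp only [Finset.coe_filter, Finset.mem_range, mem_ofPred_eq] at hj
        simpa [hj.2] using this j hj.1
      refine (measure_mono hsub).trans (le_of_eq ?_)
      rw [Measure.infinitePi_pi _ (fun _ _ => measurableSet_singleton _),
        Nat.count_eq_card_filter_range]
      rw [Finset.prod_congr rfl (g := fun _ => 1 / 2), Finset.prod_const]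
      intro j _
      rw [ProbabilityTheory.uniformOn_univ]
      simp
    rcases (zero_le (a := (ediam s).toNNReal)).eq_or_lt with h0 | h0
    · rw [le_half_pow (a := μ s)]
      · exact zero_le
      intro C
      obtain ⟨n, hn⟩ := hP C
      refine (claim n fun j _ => h0 ▸ tau_pos j).trans ?_
      exact pow_le_pow_of_le_one zero_le (by norm_num) hn
    · obtain ⟨n, a1, a2⟩ := exists_level h0
      simp only [gauge_eq P a1 a2]
      rw [coe_half_pow]
      exact claim n a2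
  exact lt_of_lt_of_le (h1 ▸ one_pos) (key (cs P))

open Classical in
theorem cs_null {P Q : ℕ → Prop}
    (h : ∀ C N, ∃ m ≥ N, Nat.count Q (m + 2) + C ≤ Nat.count P (m + 1)) :
    hm (gauge P) (cs Q) = 0 := by
  apply le_half_pow
  intro C
  unfold hm
  rw [OuterMeasure.coe_mkMetric]
  let t : ∀ m : ℕ, ((Finset.range (m + 2)).filter Q).powerset → Set ℝ := fun m T =>
    cf '' {ε | ∀ j < m + 2, ε j = decide (j ∈ T.1)}
  have hd : ∀ m T, ediam (t m T) ≤ tau (m + 1) := by
    intro m T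
    refine Metric.ediam_le ?_
    rintro _ ⟨ε, hε, rfl⟩ _ ⟨ε', hε', rfl⟩
    rw [edist_dist, Real.dist_eq, ← ENNReal.ofReal_coe_nnreal, tau_coe]
    refine ENNReal.ofReal_le_ofReal ((cf_close (n := m + 2)
      fun j hj => (hε j hj).trans (hε' j hj).symm).trans (le_of_eq ?_))
    ring
  have hr : Tendsto (fun m : ℕ => (tau (m + 1) : ℝ≥0∞)) atTop (𝓝 0) := by
    rw [← ENNReal.coe_zero, ENNReal.tendsto_coe]
    refine tendsto_order.2 ⟨fun a ha => absurd ha (not_lt.2 zero_le), fun a ha => ?_⟩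
    obtain ⟨n, hn⟩ := exists_tau ha
    filter_upwards [eventually_ge_atTop n] with m hm
    exact (tau_anti (Nat.lt_succ_of_le hm)).trans_le hn
  refine (Measure.mkMetric_le_liminf_sum (cs Q) _ hr t (Eventually.of_forall hd)
    (Eventually.of_forall fun m => ?_) _).trans ?_
  · rintro _ ⟨ε, hε, rfl⟩
    refine mem_iUnion.2 ⟨⟨((Finset.range (m + 2)).filter Q).filter fun j => ε j = true,
      Finset.mem_powerset.2 (Finset.filter_subset _ _)⟩, ε, fun j hj => ?_, rfl⟩
    by_cases hQ : Q j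
    · simp [hj, hQ]
    · simp [hQ, hε j hQ]
  · refine liminf_le_of_frequently_le' (frequently_atTop.2 fun N => ?_)
    obtain ⟨m, hm, hc⟩ := h C N
    refine ⟨m, hm, ?_⟩
    have a1 : ∀ T, ((gauge P (ediam (t m T)).toNNReal : ℝ≥0) : ℝ≥0∞) ≤
        (1 / 2) ^ (Nat.count Q (m + 2) + C) := by
      intro T
      have b1 : (ediam (t m T)).toNNReal < tau m := by
        refine lt_of_le_of_lt ?_ (tau_anti (Nat.lt_succ_self m))
        simpa using ENNReal.toNNReal_mono ENNReal.coe_ne_top (hd m T)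
      have b2 := ENNReal.coe_le_coe.2 (gauge_le P b1)
      refine b2.trans ?_
      rw [coe_half_pow]
      exact pow_le_pow_of_le_one zero_le (by norm_num) hc
    refine (Finset.sum_le_card_nsmul _ _ _ fun T _ => a1 T).trans (le_of_eq ?_)
    rw [Finset.card_univ, Fintype.card_coe, Finset.card_powerset, ← Nat.count_eq_card_filter_range,
      nsmul_eq_mul, pow_add, ← mul_assoc, Nat.cast_pow, ← mul_pow]
    simp [ENNReal.mul_inv_cancel]

open Classical in
theorem count_block {A B : ℕ → Prop} {n : ℕ} (hA : A n) (hB : ¬ B n) :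
    Nat.count (fun j => B (Nat.log 3 j)) (3 ^ (n + 1)) ≤ 3 ^ n ∧
    2 * 3 ^ n ≤ Nat.count (fun j => A (Nat.log 3 j)) (3 ^ (n + 1)) := by
  have hlog : ∀ j, 3 ^ n ≤ j → j < 3 ^ (n + 1) → Nat.log 3 j = n := fun j h1 h2 =>
    Nat.log_eq_of_pow_le_of_lt_pow h1 h2
  rw [Nat.count_eq_card_filter_range, Nat.count_eq_card_filter_range]
  constructor
  · refine le_trans (Finset.card_le_card fun j hj => ?_) (Finset.card_range (3 ^ n)).le
    simp only [Finset.mem_filter, Finset.mem_range] at hj ⊢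
    by_contra hc
    exact hB (hlog j (not_lt.1 hc) hj.1 ▸ hj.2)
  · refine le_trans (le_of_eq ?_) (Finset.card_le_card (s := Finset.Ico (3 ^ n) (3 ^ (n + 1)))
      fun j hj => ?_)
    · rw [Nat.card_Ico, pow_succ]; omega
    · simp only [Finset.mem_filter, Finset.mem_range, Finset.mem_Ico] at hj ⊢
      exact ⟨hj.2, (hlog j hj.1 hj.2).symm ▸ hA⟩

open Classical in
theorem count_gap {A B : ℕ → Prop} (h : ∀ N, ∃ n ≥ N, A n ∧ ¬ B n) (C N : ℕ) :
    ∃ m ≥ N, Nat.count (fun j => B (Nat.log 3 j)) (m + 2) + C ≤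
      Nat.count (fun j => A (Nat.log 3 j)) (m + 1) := by
  obtain ⟨n, hn, hA, hB⟩ := h (N + C + 1)
  obtain ⟨h1, h2⟩ := count_block hA hB
  have h3 : n < 3 ^ n := Nat.lt_pow_self (by norm_num)
  have h4 : 3 ^ (n + 1) = 3 * 3 ^ n := by ring
  obtain ⟨m, hm⟩ : ∃ m, 3 ^ (n + 1) = m + 2 := ⟨3 ^ (n + 1) - 2, by omega⟩
  rw [hm] at h1 h2
  refine ⟨m, by omega, ?_⟩
  rw [Nat.count_succ] at h2
  split_ifs at h2 <;> omega

theorem exists_family : ∃ (f : (ℕ → Bool) → ℝ≥0 → ℝ≥0) (K : (ℕ → Bool) → Set ℝ),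
    (∀ x, Monotone (f x) ∧ f x 0 = 0 ∧ (∀ r : ℝ≥0, 0 < r → 0 < f x r) ∧
      (∀ r : ℝ≥0, ContinuousWithinAt (f x) (Set.Ici r) r)) ∧
    (∀ x, 0 < hm (f x) (K x)) ∧ ∀ x, hm (f x) (⋃ y ∈ ({x}ᶜ : Set (ℕ → Bool)), K y) = 0 := by
  classical
  obtain ⟨s, hs⟩ := exists_surjective_nat (ℕ × Bool)
  let e : ℕ → ℕ × Bool := fun n => s (Nat.unpair n).1
  have he : ∀ p N, ∃ n ≥ N, e n = p := by
    intro p N
    obtain ⟨a, rfl⟩ := hs p
    exact ⟨Nat.pair a N, Nat.right_le_pair a N, by simp [e]⟩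
  let A : (ℕ → Bool) → ℕ → Prop := fun x n => x (e n).1 = (e n).2
  let B : (ℕ → Bool) → ℕ → ℕ → Prop := fun x k n => e n ≠ (k, x k)
  have hAB : ∀ x k N, ∃ n ≥ N, A x n ∧ ¬ B x k n := by
    intro x k N
    obtain ⟨n, h1, h2⟩ := he (k, x k) N
    exact ⟨n, h1, by simp [A, h2], by simp [B, h2]⟩
  have hP : ∀ x C, ∃ n, C ≤ Nat.count (fun j => A x (Nat.log 3 j)) n := by
    intro x C
    obtain ⟨m, -, h⟩ := count_gap (hAB x 0) C 0
    have h' := (Nat.le_add_left _ _).trans h
    exact ⟨m + 1, le_of_le_of_eq h' (by congr)⟩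
  refine ⟨fun x => gauge fun j => A x (Nat.log 3 j), fun x => cs fun j => A x (Nat.log 3 j),
    fun x => ⟨gauge_mono _, gauge_zero _, fun r hr => gauge_pos _ hr,
      gauge_cont (by convert hP x)⟩, fun x => cs_pos (by convert hP x), fun x => ?_⟩
  refine measure_mono_null (t := ⋃ k, cs fun j => B x k (Nat.log 3 j)) ?_
    (measure_iUnion_null fun k => cs_null (count_gap (hAB x k)))
  intro z hz
  obtain ⟨y, hy, ε, hε, rfl⟩ := mem_iUnion₂.1 hz
  obtain ⟨k, hk⟩ := Function.ne_iff.1 (show y ≠ x from hy)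
  refine mem_iUnion.2 ⟨k, ε, fun j hj => hε j fun hA => hk ?_, rfl⟩
  have : e (Nat.log 3 j) = (k, x k) := not_not.1 hj
  simpa [A, this] using hA

end Pool.Agent.H42.Gauge
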