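import Mathlib

/-! The Stone space of an algebra of sets and Grothendieck spaces. -/

namespace Pool.Agent.H42.GroDefs

open Filter Topology

/-- the Stone space of an algebra of sets `B`: the Boolean homomorphisms `B → {0,1}`
(the ultrafilters of `B`), a subspace of the product `{0,1}^B` -/
abbrev St {X : Type} (B : Set (Set X)) : Type :=
  {u : B → Bool // (∀ A A' : B, A'.1 = A.1ᶜ → u A' = !u A) ∧
    ∀ A A' C : B, C.1 = A.1 ∪ A'.1 → u C = (u A || u A')}

instance {X : Type} (B : Set (Set X)) : CompactSpace (St B) := by
  refine isCompact_iff_compactSpace.1 (IsClosed.isCompact (IsClosed.inter ?_ ?_))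
  · change IsClosed {u : B → Bool | ∀ A A' : B, A'.1 = A.1ᶜ → u A' = !u A}
    simp only [Set.ofPred_forall]
    refine isClosed_iInter fun A => isClosed_iInter fun A' => isClosed_iInter fun _ => ?_
    exact isClosed_eq (continuous_apply _)
      ((continuous_of_discreteTopology (f := fun b => !b)).comp (continuous_apply _))
  · change IsClosed {u : B → Bool | ∀ A A' C : B, C.1 = A.1 ∪ A'.1 → u C = (u A || u A')}
    simp only [Set.ofPred_forall]
    refine isClosed_iInter fun A => isClosed_iInter fun A' => isClosed_iInter fun C =>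
      isClosed_iInter fun _ => ?_
    have := (continuous_of_discreteTopology (f := fun b : Bool × Bool => (b.1 || b.2))).comp
      ((continuous_apply (A := fun _ : B => Bool) A).prodMk (continuous_apply A'))
    exact isClosed_eq (continuous_apply _) this

/-- a Grothendieck space: weak* convergent sequences of the dual converge weakly -/
def Groth (E : Type) [NormedAddCommGroup E] [NormedSpace ℝ E] : Prop :=
  ∀ (φ : ℕ → StrongDual ℝ E) (ψ : StrongDual ℝ E),
    (∀ x, Tendsto (fun n => φ n x) atTop (𝓝 (ψ x))) →
    ∀ Φ : StrongDual ℝ (StrongDual ℝ E), Tendsto (fun n => Φ (φ n)) atTop (𝓝 (Φ ψ))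

end Pool.Agent.H42.GroDefs
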