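import Pool.Agent.H42.GroT1

/-! The forcing algebra with property (T) and the null sequence. -/

namespace Pool.Agent.H42.GroT2

open Set MeasureTheory Filter Topology Pool.Agent.H42.PropT Pool.Agent.H42.GroT1

def z : ℕ → Bool := fun _ => false

/-- the partition at stage `k` -/
def Pk (k : ℕ) : Set (Set (ℕ → Bool)) :=
  {P | (∃ x ∉ atom z (lv k), P = atom x (lv k)) ∨ (∃ j > k, P = C j) ∨
    P = atom z (lv k) \ CU (Ioi k)}

def B0 : Set (Set (ℕ → Bool)) :=
  {A | MeasurableSet A ∧ ∀ᶠ k in (hyperfilter ℕ : Filter ℕ), ∀ P ∈ Pk k, P ⊆ A ∨ P ⊆ Aᶜ}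

theorem atom_meas (x : ℕ → Bool) (n : ℕ) : MeasurableSet (atom x n) := by
  simp only [atom, ofPred_forall]
  exact .iInter fun i => .iInter fun _ => mV i _

theorem core {k : ℕ} {A : Set (ℕ → Bool)} (h : ∀ P ∈ Pk k, P ⊆ A ∨ P ⊆ Aᶜ)
    (h' : atom z (lv k) \ CU (Ioi k) ⊆ Aᶜ) :
    lam.real (A ∩ atom z (lv k)) ≤ 2⁻¹ ^ (lv (k + 1) + 1) ∧
      ∀ m, |psi m (A ∩ atom z (lv k))| ≤ 2⁻¹ ^ (max (lv (k + 1) + 1) m) := by
  set Y := {j | k < j ∧ C j ⊆ A}
  have e : A ∩ atom z (lv k) = CU Y := by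
    refine Subset.antisymm (fun x hx => ?_) (subset_inter (iUnion₂_subset fun j hj => hj.2)
      (CU_sub fun j hj => lv_mono.monotone hj.1.le))
    obtain ⟨j, hj, h1⟩ := mem_iUnion₂.1 (by_contra fun h1 => h' ⟨hx.2, h1⟩ hx.1 : x ∈ CU (Ioi k))
    exact mem_iUnion₂.2 ⟨j, ⟨hj, (h _ (Or.inr (Or.inl ⟨j, hj, rfl⟩))).resolve_right
      fun h2 => h2 h1 hx.1⟩, h1⟩
  rw [e]
  refine ⟨(measureReal_mono (CU_sub fun j hj => lv_mono.monotone hj.1)).trans_eq
    (lam_atom _ _), fun m => ?_⟩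
  have e2 : CU Y = CU (Y ∩ {j | lv j + 1 < m}) ∪ CU (Y \ {j | lv j + 1 < m}) := by
    rw [CU, CU, CU, ← biUnion_union, inter_union_sdiff]
  rw [e2, psi_union _ (CU_disj (disjoint_sdiff_self_right.mono_left inter_subset_right))
    (CU_meas _), psi_CU fun j hj => hj.2, zero_add]
  refine (abs_psi (CU_sub (n := max (lv (k + 1)) (m - 1)) fun j hj => ?_)).trans_eq ?_
  · have h1 := lv_mono.monotone (Nat.succ_le_of_lt hj.1.1)
    have h2 : ¬lv j + 1 < m := hj.2
    simp only [Nat.succ_eq_add_one] at h1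
    omega
  · rw [lam_atom]; congr 1; omega

theorem B0_T : HasT B0 := by
  refine ⟨fun A h => h.1, fun A h => ⟨h.isOpen.measurableSet, hyperfilter_le_cofinite ?_⟩,
    fun A h => ⟨h.1.compl, h.2.mono fun k hk P hP => by rw [compl_compl]; exact (hk P hP).symm⟩,
    fun A h A' h' => ⟨h.1.union h'.1, (h.2.and h'.2).mono fun k hk P hP => ?_⟩,
    fun F hF hf ε hε => ?_⟩
  · rw [Nat.cofinite_eq_atTop]
    filter_upwards [lv_mono.tendsto_atTop.eventually (clopen_dep h)] with k hk P hP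
    obtain ⟨x, hx⟩ : ∃ x, P ⊆ atom x (lv k) := by
      rcases hP with ⟨x, -, rfl⟩ | ⟨j, hj, rfl⟩ | rfl
      exacts [⟨x, Subset.rfl⟩, ⟨z, fun y hy i hi => hy.1 i (hi.trans (lv_mono.monotone hj.le))⟩,
        ⟨z, sdiff_subset⟩]
    exact (hk x).imp hx.trans hx.trans
  · rcases hk.1 P hP with h1 | h1
    · exact Or.inl (h1.trans subset_union_left)
    · exact (hk.2 P hP).imp (·.trans subset_union_right) fun h2 => by
        rw [compl_union]; exact subset_inter h1 h2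
  obtain ⟨k, h1, h2⟩ := (((eventually_all_finite hf).2 fun A hA => (hF hA).2).and
    (hyperfilter_le_cofinite (Nat.cofinite_eq_atTop ▸ small hε))).exists
  have h0 : 0 < lv k := (lv_mono.monotone (Nat.zero_le k)).trans_lt' one_pos
  have h3 : ∀ x (m : ℕ), 0 ≤ ε * lam.real (atom x (lv k)) / m := fun x m => by positivity
  refine ⟨lv k, h0, fun x A hA => ?_⟩
  by_cases hx : x ∈ atom z (lv k)
  swap
  · rcases h1 A hA _ (Or.inl ⟨x, hx, rfl⟩) with h | h
    · rw [sdiff_eq_empty.2 h, inter_eq_right.2 h]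
      exact ⟨Or.inr (by simpa using h3 x _), fun m hm => (phi_atom x hm).trans_le (h3 x m)⟩
    · rw [(subset_compl_iff_disjoint_left.1 h).inter_eq]
      exact ⟨Or.inl (by simpa using h3 x _), fun m hm => by simpa [phi] using h3 x m⟩
  have e : atom x (lv k) = atom z (lv k) := by
    ext y; exact forall₂_congr fun i hi => by rw [hx i hi]
  have key : ∀ m t : ℕ, 0 < m → m ≤ t → lv (k + 1) ≤ t →
      (2⁻¹ : ℝ) ^ t ≤ ε * lam.real (atom z (lv k)) / m := fun m t h3 h4 h5 => by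
    rw [lam_atom, le_div_iff₀ (by exact_mod_cast h3), mul_comm]
    refine le_trans ?_ (h2 t h5)
    gcongr
  have := lv_lt k
  rw [e]
  rcases h1 A hA _ (Or.inr (Or.inr rfl)) with h | h
  · obtain ⟨c1, c2⟩ := core (A := Aᶜ)
      (fun P hP => by rw [compl_compl]; exact (h1 A hA P hP).symm) (by rwa [compl_compl])
    refine ⟨Or.inr (by
      rw [sdiff_eq, inter_comm]; exact c1.trans (key _ _ h0 (by omega) (by omega))),
      fun m hm => ?_⟩
    have h4 := psi_union m (A := A ∩ atom z (lv k)) (A' := Aᶜ ∩ atom z (lv k))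
      (disjoint_compl_right.mono inter_subset_left inter_subset_left)
      ((hF hA).1.compl.inter (atom_meas _ _))
    rw [← union_inter_distrib_right, union_compl_self, univ_inter,
      show psi m (atom z (lv k)) = 0 from abs_eq_zero.1 (phi_atom z hm), eq_comm, add_eq_zero_iff_eq_neg] at h4
    change |psi m _| ≤ _
    rw [h4, abs_neg]
    exact (c2 m).trans (key _ _ (by omega) (by omega) (by omega))
  · obtain ⟨c1, c2⟩ := core (h1 A hA) h
    exact ⟨Or.inl (c1.trans (key _ _ h0 (by omega) (by omega))),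
      fun m hm => (c2 m).trans (key _ _ (by omega) (by omega) (by omega))⟩

theorem CU_B0 {Y : Set ℕ} (hY : Y ∉ hyperfilter ℕ) : CU Y ∈ B0 := by
  refine ⟨CU_meas Y, mem_of_superset (Ultrafilter.compl_mem_iff_notMem.2 hY)
    fun k hk P hP => ?_⟩
  rcases hP with ⟨x, hx, rfl⟩ | ⟨j, -, rfl⟩ | rfl
  · have key : ∀ y y' : ℕ → Bool, y ∈ atom x (lv k) → y' ∈ atom x (lv k) → y ∈ CU Y →
        y' ∈ CU Y := fun y y' h1 h2 h3 => by
      obtain ⟨j, hj, h4⟩ := mem_iUnion₂.1 h3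
      have h5 : j < k := by
        by_contra h5
        exact hx fun i hi => (h1 i hi).symm.trans
          (h4.1 i (hi.trans (lv_mono.monotone (not_lt.1 h5))))
      have h6 := lv_lt' h5
      have h7 : lv (j + 1) ≤ lv k := lv_mono.monotone h5
      have e : ∀ i ≤ lv k, y' i = y i := fun i hi => (h2 i hi).trans (h1 i hi).symm
      refine mem_iUnion₂.2 ⟨j, hj, fun i hi => ?_, ?_, ?_⟩
      · rw [e i (by omega)]; exact h4.1 i hi
      · rw [e _ (by omega)]; exact h4.2.1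
      · rw [e _ (by omega), e _ h7]; exact h4.2.2
    by_cases h : x ∈ CU Y
    · exact Or.inl fun y hy => key x y (fun _ _ => rfl) hy h
    · exact Or.inr fun y hy h' => h (key y x hy (fun _ _ => rfl) h')
  · by_cases h : j ∈ Y
    · exact Or.inl (subset_biUnion_of_mem (u := C) h)
    · refine Or.inr fun y hy h' => ?_
      obtain ⟨i, hi, h4⟩ := mem_iUnion₂.1 h'
      exact disjoint_left.1 (C_disj fun e : i = j => h (e ▸ hi)) h4 hy
  · refine Or.inr fun y hy h' => ?_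
    obtain ⟨i, hi, h4⟩ := mem_iUnion₂.1 h'
    rcases lt_trichotomy i k with h | rfl | h
    · have := lv_lt' h
      simpa [h4.2.1, z] using hy.1 (lv i + 1) (by omega)
    · exact hk hi
    · exact hy.2 (mem_iUnion₂.2 ⟨i, h, h4⟩)

theorem inter_mem {B : Set (Set (ℕ → Bool))} (h : HasT B) {A A' : Set (ℕ → Bool)} (hA : A ∈ B)
    (hA' : A' ∈ B) : A ∩ A' ∈ B := by
  have := h.2.2.1 _ (h.2.2.2.1 _ (h.2.2.1 _ hA) _ (h.2.2.1 _ hA'))
  rwa [compl_union, compl_compl, compl_compl] at this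

theorem null {B : Set (Set (ℕ → Bool))} (h : HasT B) (h0 : B0 ⊆ B) {A : Set (ℕ → Bool)}
    (hA : A ∈ B) : Tendsto (fun k => (lv (k + 1) : ℝ) * psi (lv (k + 1)) (A ∩ C k)) atTop (𝓝 0) := by
  rw [Metric.tendsto_nhds]
  by_contra! hc
  obtain ⟨δ, hδ, hc⟩ := hc
  simp only [Real.dist_eq, sub_zero, abs_mul, Nat.abs_cast] at hc
  obtain ⟨Y1, h1, h2, h3⟩ : ∃ Y1 : Set ℕ, Y1 ∉ hyperfilter ℕ ∧ Y1.Infinite ∧
      ∀ k ∈ Y1, δ ≤ lv (k + 1) * |psi (lv (k + 1)) (A ∩ C k)| := by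
    obtain ⟨e, he, h1⟩ := extraction_of_frequently_atTop hc
    by_cases h : range (fun n => e (2 * n)) ∈ hyperfilter ℕ
    · refine ⟨range fun n => e (2 * n + 1), fun h' => ?_, infinite_range_of_injective
        fun a b hab => by have := he.injective hab; omega, forall_mem_range.2 fun n => h1 _⟩
      obtain ⟨_, ⟨a, rfl⟩, b, hb⟩ := Ultrafilter.nonempty_of_mem (Filter.inter_mem h h')
      have := he.injective hb; omega
    · exact ⟨_, h, infinite_range_of_injective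
        fun a b hab => by have := he.injective hab; omega, forall_mem_range.2 fun n => h1 _⟩
  have hd : ∀ Y ⊆ Y1, ∀ᶠ k in atTop, lv (k + 1) * |psi (lv (k + 1)) (A ∩ CU Y)| ≤ δ / 4 :=
    fun Y hY => (lv_mono.tendsto_atTop.comp (tendsto_add_atTop_nat 1)).eventually
      (decay h (inter_mem h hA (h0 (CU_B0 fun h' => h1 (mem_of_superset h' hY)))) (by positivity))
  obtain ⟨Y, hY⟩ : ∃ Y : Set ℕ, ∀ k, k ∈ Y ↔ k ∈ Y1 ∧
      lv (k + 1) * |psi (lv (k + 1)) (A ∩ CU (Y ∩ Iio k))| ≤ δ / 4 := by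
    let Q : ℕ → Set ℕ → Prop := fun k S => k ∈ Y1 ∧
      lv (k + 1) * |psi (lv (k + 1)) (A ∩ CU S)| ≤ δ / 4
    refine ⟨wellFounded_lt.fix (C := fun _ => Prop) fun k ih => Q k {j | ∃ h : j < k, ih j h},
      fun k => ?_⟩
    change wellFounded_lt.fix (C := fun _ => Prop) _ k ↔ Q k _
    rw [WellFounded.fix_eq]
    refine iff_of_eq (congrArg (Q k) (Set.ext fun j => ?_))
    exact ⟨fun ⟨a, b⟩ => ⟨b, a⟩, fun ⟨a, b⟩ => ⟨b, a⟩⟩
  have hs : Y ⊆ Y1 := fun k hk => ((hY k).1 hk).1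
  have hi : Y.Infinite := fun hf => by
    obtain ⟨N, hN⟩ := hf.bddAbove
    obtain ⟨k, k1, k2, k3⟩ := ((Nat.frequently_atTop_iff_infinite.2 h2).and_eventually
      ((hd Y hs).and (eventually_gt_atTop N))).exists
    exact (hN ((hY k).2 ⟨k1, by
      rwa [inter_eq_left.2 (show Y ⊆ Iio k from fun j hj => (hN hj).trans_lt k3)]⟩)).not_gt k3
  obtain ⟨k, k1, k2, k3⟩ := ((Nat.frequently_atTop_iff_infinite.2 hi).and_eventually
    ((hd Y hs).and (small (ε := δ / 4) (by positivity)))).exists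
  have k4 := ((hY k).1 k1).2
  have k5 := h3 k (hs k1)
  have k6 : |psi (lv (k + 1)) (A ∩ CU (Y ∩ Ioi k))| ≤ 2⁻¹ ^ (lv (k + 1) + 1) :=
    (abs_psi (inter_subset_right.trans (CU_sub fun j hj => lv_mono.monotone hj.2))).trans_eq
      (lam_atom _ _)
  have e : A ∩ CU Y = A ∩ CU (Y ∩ Iio k) ∪ (A ∩ CU {k} ∪ A ∩ CU (Y ∩ Ioi k)) := by
    rw [← inter_union_distrib_left, ← inter_union_distrib_left, CU, CU, CU, CU, ← biUnion_union,
      ← biUnion_union]
    have : Y ∩ Iio k ∪ ({k} ∪ Y ∩ Ioi k) = Y := by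
      ext j
      simp only [mem_union, mem_inter_iff, mem_Iio, mem_singleton_iff, mem_Ioi]
      rcases lt_trichotomy j k with h | rfl | h
      · simp [h, h.ne, h.not_gt]
      · exact iff_of_true (Or.inr (Or.inl rfl)) k1
      · simp [h, h.ne', h.not_gt]
    rw [this]
  have mA := h.1 A hA
  have d : ∀ {Y Z}, Disjoint Y Z → Disjoint (A ∩ CU Y) (A ∩ CU Z) := fun h =>
    (CU_disj h).mono inter_subset_right inter_subset_right
  rw [e, psi_union _ (disjoint_union_right.2 ⟨d (by simp), d (disjoint_left.2 fun j a b =>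
      lt_asymm (mem_Iio.1 a.2) b.2)⟩) ((mA.inter (CU_meas _)).union (mA.inter (CU_meas _))),
    psi_union _ (d (by simp)) (mA.inter (CU_meas _)), show CU {k} = C k by simp [CU]] at k2
  have k7 := k3 _ le_rfl
  have k8 : (2⁻¹ : ℝ) ^ (lv k + 1) ≤ 1 := pow_le_one₀ (by norm_num) (by norm_num)
  have k9 : (2⁻¹ : ℝ) ^ (lv (k + 1) + 1) ≤ 2⁻¹ ^ lv (k + 1) :=
    pow_le_pow_of_le_one (by norm_num) (by norm_num) (by omega)
  have k0 : (0 : ℝ) ≤ lv (k + 1) := by positivity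
  set a := psi (lv (k + 1)) (A ∩ CU (Y ∩ Iio k))
  set b := psi (lv (k + 1)) (A ∩ C k)
  set c := psi (lv (k + 1)) (A ∩ CU (Y ∩ Ioi k))
  have t : |b| ≤ |a + (b + c)| + |a| + |c| := by
    rw [abs_le]
    constructor <;> linarith [le_abs_self (a + (b + c)), neg_abs_le (a + (b + c)), le_abs_self a,
      neg_abs_le a, le_abs_self c, neg_abs_le c]
  nlinarith [mul_le_mul_of_nonneg_left t k0, mul_le_mul_of_nonneg_left (k6.trans k9) k0]

end Pool.Agent.H42.GroT2
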