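import Pool.Agent.H42.GroT2
import Pool.Agent.H42.GroDefs

/-! A maximal algebra with property (T) without the Grothendieck property. -/

namespace Pool.Agent.H42.GroT3

open Set MeasureTheory Filter Topology Pool.Agent.H42.PropT Pool.Agent.H42.GroT1
  Pool.Agent.H42.GroT2 Pool.Agent.H42.GroDefs

section
variable {X : Type} {B : Set (Set X)}

/-- the indicator function of a basic clopen set -/
def ind (A : B) : C(St B, ℝ) :=
  ⟨fun u => if u.1 A then 1 else 0,
    (continuous_of_discreteTopology (f := fun b : Bool => if b then (1 : ℝ) else 0)).comp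
      ((continuous_apply A).comp continuous_subtype_val)⟩

open Classical in
/-- the principal ultrafilter -/
noncomputable def pr (B : Set (Set X)) (x : X) : St B :=
  ⟨fun A => decide (x ∈ A.1), fun A A' h => by simp [h], fun A A' C h => by simp [h]⟩

theorem ind_pr (A : B) (x : X) : ind A (pr B x) = A.1.indicator 1 x := by
  by_cases h : x ∈ A.1 <;> simp [ind, pr, h]

theorem norm_ind (A : B) : ‖ind A‖ ≤ 1 :=
  (ContinuousMap.norm_le _ one_pos.le).2 fun u => by
    simp only [ind, ContinuousMap.coe_mk]; split_ifs <;> simp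

theorem induct (h0 : univ ∈ B) (h1 : ∀ A ∈ B, Aᶜ ∈ B) (h2 : ∀ A ∈ B, ∀ A' ∈ B, A ∪ A' ∈ B)
    (S : Submodule ℝ C(St B, ℝ)) (hS : IsClosed (S : Set C(St B, ℝ))) (h : ∀ A, ind A ∈ S) :
    S = ⊤ := by
  have hm : ∀ A A' : B, ∃ D : B, ind A * ind A' = ind D := fun A A' => by
    refine ⟨⟨_, h1 _ (h2 _ (h1 _ A.2) _ (h1 _ A'.2))⟩, ContinuousMap.ext fun u => ?_⟩
    simp only [ind, ContinuousMap.mul_apply, ContinuousMap.coe_mk]
    rw [u.2.1 ⟨_, h2 _ (h1 _ A.2) _ (h1 _ A'.2)⟩ ⟨_, h1 _ (h2 _ (h1 _ A.2) _ (h1 _ A'.2))⟩ rfl,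
      u.2.2 ⟨_, h1 _ A.2⟩ ⟨_, h1 _ A'.2⟩ ⟨_, h2 _ (h1 _ A.2) _ (h1 _ A'.2)⟩ rfl, u.2.1 A ⟨_, h1 _ A.2⟩ rfl,
      u.2.1 A' ⟨_, h1 _ A'.2⟩ rfl]
    cases u.1 A <;> cases u.1 A' <;> simp
  have h1 : ind ⟨_, h0⟩ = 1 := ContinuousMap.ext fun u => by
    have := u.2.2 ⟨_, h0⟩ ⟨_, h1 _ h0⟩ ⟨_, h0⟩ (union_compl_self _).symm
    rw [u.2.1 ⟨_, h0⟩ ⟨_, h1 _ h0⟩ rfl] at this
    simp [ind, this.trans (Bool.or_not_self _)]
  let T := (Submodule.span ℝ (range (ind (B := B)))).toSubalgebra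
    (Submodule.subset_span ⟨_, h1⟩) fun x y hx hy => by
      have := Submodule.mul_mem_mul hx hy
      rw [Submodule.span_mul_span] at this
      refine Submodule.span_mono ?_ this
      rintro _ ⟨_, ⟨A, rfl⟩, _, ⟨A', rfl⟩, rfl⟩
      exact (hm A A').imp fun _ => Eq.symm
  have hT := ContinuousMap.subalgebra_topologicalClosure_eq_top_of_separatesPoints T
    fun u v huv => by
      obtain ⟨A, hA⟩ := Function.ne_iff.1 fun e => huv (Subtype.ext e)
      refine ⟨_, ⟨ind A, Submodule.subset_span ⟨A, rfl⟩, rfl⟩, ?_⟩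
      simp only [ind, ContinuousMap.coe_mk]
      revert hA
      cases u.1 A <;> cases v.1 A <;> simp
  refine eq_top_iff.2 fun f _ => ?_
  have hf : f ∈ T.topologicalClosure := hT ▸ trivial
  exact closure_minimal (Submodule.span_le.2 (range_subset_iff.2 h)) hS hf

end

theorem not_weak {E : Type} [NormedAddCommGroup E] [NormedSpace ℝ E]
    (f : ℕ → E) (hf : ∀ n, ‖f n‖ ≤ 1) :
    ∃ Φ : StrongDual ℝ (StrongDual ℝ E), ∀ ν r, Tendsto (fun n => ν (f n)) atTop (𝓝 r) →
      Φ ν = r := by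
  have key : ∀ ν : StrongDual ℝ E, ∃ r, ‖r‖ ≤ 1 * ‖ν‖ ∧
      Tendsto (fun n => ν (f n)) (hyperfilter ℕ) (𝓝 r) := fun ν => by
    obtain ⟨r, h1, h2⟩ := (isCompact_closedBall (0 : ℝ) (1 * ‖ν‖)).ultrafilter_le_nhds
      ((hyperfilter ℕ).map fun n => ν (f n)) (le_principal_iff.2 (mem_map.2 (univ_mem' fun n =>
        mem_closedBall_zero_iff.2
          ((ν.le_of_opNorm_le_of_le le_rfl (hf n)).trans_eq (mul_comm _ _)))))
    exact ⟨r, mem_closedBall_zero_iff.1 h1, h2⟩
  choose L h1 h2 using key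
  refine ⟨LinearMap.mkContinuous
    ⟨⟨L, fun a b => tendsto_nhds_unique (h2 _) ((h2 a).add (h2 b))⟩,
      fun c a => tendsto_nhds_unique (h2 _) ((h2 a).const_smul c)⟩ 1 h1, fun ν r h => ?_⟩
  exact tendsto_nhds_unique (h2 ν)
    (h.mono_left (hyperfilter_le_cofinite.trans Nat.cofinite_eq_atTop.le))

theorem lam_E (k : ℕ) (b : Bool) :
    (lv (k + 1) : ℝ) * lam.real (C k ∩ {x | x (lv (k + 1)) = b}) = 2⁻¹ := by
  have h := lv_lt k
  have key : lam (C k ∩ {x | x (lv (k + 1)) = false}) = 2⁻¹ ^ (lv k + 4) := by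
    have := lam_pi (insert (lv (k + 1)) (Finset.range (lv k + 3))) fun i => decide (i = lv k + 1)
    rw [Finset.card_insert_of_notMem (by simp; omega), Finset.card_range] at this
    rw [← this]
    congr 1
    ext x
    simp only [C, mem_inter_iff, mem_ofPred, Finset.mem_insert, Finset.mem_range,
      forall_eq_or_imp]
    rw [decide_eq_false (by omega)]
    refine ⟨fun ⟨⟨a, b, c⟩, d⟩ => ⟨d, fun i hi => ?_⟩, fun ⟨a, b⟩ =>
      ⟨⟨fun i hi => (b i (by omega)).trans (decide_eq_false (by omega)),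
        (b _ (by omega)).trans (decide_eq_true rfl),
        (b _ (by omega)).trans ((decide_eq_false (by omega)).trans a.symm)⟩, a⟩⟩
    rcases lt_trichotomy i (lv k + 1) with h | rfl | h
    · rw [a i (by omega), decide_eq_false (by omega)]
    · simpa using b
    · rw [show i = lv k + 2 by omega, c, d, decide_eq_false (by omega)]
  have : lam (C k ∩ {x | x (lv (k + 1)) = b}) = 2⁻¹ ^ (lv k + 4) := by
    cases b
    exacts [key, (C_bal (by omega)).symm.trans key]
  rw [Measure.real, this, lv]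
  simp only [Nat.cast_pow, Nat.cast_ofNat, ENNReal.toReal_pow, ENNReal.toReal_inv,
    ENNReal.toReal_ofNat]
  rw [pow_succ _ (lv k + 3), ← mul_assoc, ← mul_pow]
  simp

theorem not_groth {B : Set (Set (ℕ → Bool))} (h : HasT B) (h0 : B0 ⊆ B) :
    ¬Groth C(St B, ℝ) := by
  have hind := induct (h.2.1 _ isClopen_univ) h.2.2.1 h.2.2.2.1
  have hm : ∀ f : C(St B, ℝ), Measurable fun x => f (pr B x) := fun f => by
    have := hind ⟨⟨⟨{f | Measurable fun x => f (pr B x)}, fun a b => a.add b⟩,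
      measurable_const⟩, fun c _ a => a.const_smul c⟩
      (IsSeqClosed.isClosed fun g f hg hf => measurable_of_tendsto_metrizable hg
        (tendsto_pi_nhds.2 fun x => ((continuous_eval_const (pr B x)).tendsto f).comp hf))
      fun A => by
        change Measurable fun x => ind A (pr B x)
        simp only [ind_pr]
        exact measurable_one.indicator (h.1 _ A.2)
    exact Submodule.eq_top_iff'.1 this f
  have hi : ∀ (f : C(St B, ℝ)) S, Integrable (fun x => f (pr B x)) (lam.restrict S) := fun f S =>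
    .of_bound (hm f).aestronglyMeasurable ‖f‖ (.of_forall fun x => f.norm_coe_le_norm _)
  have hb : ∀ (f : C(St B, ℝ)) S, ‖∫ x in S, f (pr B x) ∂lam‖ ≤ lam.real S * ‖f‖ := fun f S =>
    (norm_setIntegral_le_of_norm_le_const (measure_lt_top _ _)
      fun x _ => f.norm_coe_le_norm _).trans_eq (mul_comm _ _)
  let I : Set (ℕ → Bool) → StrongDual ℝ C(St B, ℝ) := fun S => LinearMap.mkContinuous
    ⟨⟨fun f => ∫ x in S, f (pr B x) ∂lam, fun f g => integral_add (hi f S) (hi g S)⟩,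
      fun c f => integral_smul c _⟩ (lam.real S) fun f => hb f S
  let φ : ℕ → StrongDual ℝ C(St B, ℝ) := fun k => (lv (k + 1) : ℝ) •
    (I (C k ∩ {x | x (lv (k + 1)) = false}) - I (C k ∩ {x | x (lv (k + 1)) = true}))
  have hφ : ∀ k A, φ k (ind A) = lv (k + 1) * psi (lv (k + 1)) (A.1 ∩ C k) := fun k A => by
    have : ∀ S, I S (ind A) = lam.real (A.1 ∩ S) := fun S => by
      change ∫ x in S, ind A (pr B x) ∂lam = _
      simp only [ind_pr]
      rw [integral_indicator_one (h.1 _ A.2), measureReal_restrict_apply (h.1 _ A.2)]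
    simp [φ, this, psi, inter_assoc]
  have hn : ∀ k, ‖φ k‖₊ ≤ 1 := fun k => by
    refine (φ k).opNorm_le_bound one_pos.le fun f => ?_
    have h1 := hb f (C k ∩ {x | x (lv (k + 1)) = false})
    have h2 := hb f (C k ∩ {x | x (lv (k + 1)) = true})
    refine (norm_smul_le (lv (k + 1) : ℝ) (_ - _ : ℝ)).trans ((mul_le_mul_of_nonneg_left
      ((norm_sub_le _ _).trans (add_le_add h1 h2)) (norm_nonneg _)).trans_eq ?_)
    rw [Real.norm_natCast, mul_add, ← mul_assoc, ← mul_assoc, lam_E, lam_E]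
    norm_num
    ring
  have hw : ∀ f, Tendsto (fun k => φ k f) atTop (𝓝 0) := fun f => by
    have := hind ⟨⟨⟨{f | Tendsto (fun k => φ k f) atTop (𝓝 0)},
      fun a b => by simpa using a.add b⟩, by simp⟩, fun c _ a => by simpa using a.const_smul c⟩
      ((LipschitzWith.uniformEquicontinuous (fun k f => φ k f) 1
        fun k => (φ k).lipschitz.weaken (hn k)).equicontinuous.isClosed_setOfPred_tendsto
          continuous_const)
      fun A => by
        change Tendsto (fun k => φ k (ind A)) _ _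
        simpa only [hφ] using null h h0 A.2
    exact Submodule.eq_top_iff'.1 this f
  let A : ℕ → B := fun N => ⟨⋃ j ∈ Iic N, C j ∩ {x | x (lv (j + 1)) = false}, h.2.1 _
    ((finite_Iic N).isClopen_biUnion fun j _ => (C_clopen j).inter
      ((isClopen_discrete {false}).preimage (continuous_apply _)))⟩
  obtain ⟨Φ, hΦ⟩ := not_weak (fun N => ind (A N)) fun N => norm_ind _
  intro hG
  have h1 := hG φ 0 hw Φ
  have h2 : ∀ k, Φ (φ k) = 2⁻¹ := fun k => hΦ _ _ (tendsto_const_nhds.congr' ?_)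
  · simp only [h2, map_zero, tendsto_const_nhds_iff] at h1
    norm_num at h1
  filter_upwards [eventually_ge_atTop k] with N hN
  have e : (A N).1 ∩ C k = C k ∩ {x | x (lv (k + 1)) = false} := by
    refine Subset.antisymm (fun x ⟨a, b⟩ => ?_) (subset_inter
      (subset_biUnion_of_mem (u := fun j => C j ∩ {x | x (lv (j + 1)) = false}) hN)
      inter_subset_left)
    obtain ⟨j, -, c⟩ := mem_iUnion₂.1 a
    by_cases e : j = k
    · exact e ▸ c
    · exact (disjoint_left.1 (C_disj e) c.1 b).elim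
  rw [hφ, e, psi, inter_assoc, inter_self, inter_assoc,
    show {x : ℕ → Bool | x (lv (k + 1)) = false} ∩ {x | x (lv (k + 1)) = true} = ∅ by
      ext; simp, inter_empty, measureReal_empty, sub_zero, lam_E]

theorem ex_max' {B0 : Set (Set (ℕ → Bool))} (h0 : HasT B0) : ∃ B, B0 ⊆ B ∧ Maximal HasT B :=
  zorn_subset_nonempty {B | HasT B} (fun C hC hc ⟨B0, h0⟩ => ⟨⋃₀ C,
    ⟨fun A ⟨B, h1, h2⟩ => (hC h1).1 A h2, fun A h => ⟨B0, h0, (hC h0).2.1 A h⟩,
      fun A ⟨B, h1, h2⟩ => ⟨B, h1, (hC h1).2.2.1 A h2⟩,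
      fun A ⟨B, h1, h2⟩ A' ⟨B', h3, h4⟩ => (hc.total h1 h3).elim
        (fun h => ⟨B', h3, (hC h3).2.2.2.1 A (h h2) A' h4⟩)
        fun h => ⟨B, h1, (hC h1).2.2.2.1 A h2 A' (h h4)⟩, fun F hF hf => by
      obtain ⟨B, h1, h2⟩ : ∃ B ∈ C, F ⊆ B := by
        induction F, hf using Set.Finite.induction_on with
        | empty => exact ⟨B0, h0, empty_subset _⟩
        | insert _ _ ih =>
          obtain ⟨B, h1, h2⟩ := ih ((subset_insert _ _).trans hF)
          obtain ⟨B', h3, h4⟩ := hF (mem_insert _ _)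
          rcases hc.total h1 h3 with h | h
          exacts [⟨B', h3, insert_subset h4 (h2.trans h)⟩, ⟨B, h1, insert_subset (h h4) h2⟩]
      exact (hC h1).2.2.2.2 F h2 hf⟩, fun _ h => subset_sUnion_of_mem h⟩) _ h0

theorem main : ∃ B, Maximal HasT B ∧ ¬Groth C(St B, ℝ) := by
  obtain ⟨B, h1, h2⟩ := ex_max' B0_T
  exact ⟨B, h2, not_groth h2.1 h1⟩

end Pool.Agent.H42.GroT3
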