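import Pool.Agent.H42.BG3

/-! Hereditarily concentrated sets and continuous images of nu-sets. -/

namespace Pool.Agent.H42.HConc

open Set Filter Classical Cardinal Pool.Agent.H42.Dirac Pool.Agent.H42.BG TopologicalSpace

def ND (P K : Set C) : Prop := ∀ O, IsOpen O → (O ∩ P).Nonempty → ¬ O ∩ P ⊆ K

lemma baire {P : Set C} (hP : IsClosed P) (hne : P.Nonempty) {𝒦 : Set (Set C)}
    (hc : 𝒦.Countable) (hK : ∀ K ∈ 𝒦, IsClosed K) : ∃ x ∈ P, ∀ K ∈ 𝒦, ND P K → x ∉ K := by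
  have : CompactSpace P := isCompact_iff_compactSpace.1 hP.isCompact
  have := hne.to_subtype
  obtain ⟨x, hx⟩ := (dense_biInter_of_isOpen (S := {K ∈ 𝒦 | ND P K})
    (f := fun K => (Subtype.val ⁻¹' Kᶜ : Set P))
    (fun K h => (hK K h.1).isOpen_compl.preimage continuous_subtype_val)
    (hc.mono (sep_subset _ _)) fun K h => by
      refine dense_iff_inter_open.2 fun U hU ⟨y, hy⟩ => ?_
      obtain ⟨O, hO, rfl⟩ := isOpen_induced_iff.1 hU
      obtain ⟨z, h1, h2⟩ := not_subset.1 (h.2 O hO ⟨y, hy, y.2⟩)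
      exact ⟨⟨z, h1.2⟩, h1.1, h2⟩).nonempty
  exact ⟨x, x.2, fun K h1 h2 => mem_iInter₂.1 hx K ⟨h1, h2⟩⟩

lemma nd_of {P D K : Set C} (h : P ∩ closure D ⊆ closure (D ∩ P)) (hK : Disjoint K D) :
    ND P (K ∩ closure D) := by
  rintro O hO ⟨x, hx⟩ hs
  obtain ⟨y, h1, h2⟩ := mem_closure_iff.1 (h ⟨hx.2, (hs hx).2⟩) O hO hx.1
  exact disjoint_left.1 hK (hs ⟨h1, h2.2⟩).1 h2.1

lemma ex_P {𝒟 : Set (Set C)} (hD : 𝒟.Countable) (A : ℕ → Set C) :
    ∃ P : Set C, IsClosed P ∧ P.Nonempty ∧ (∀ n, (A n).Infinite → ¬ A n ⊆ P) ∧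
      ∀ D ∈ 𝒟, P ∩ closure D ⊆ closure (D ∩ P) := by
  obtain ⟨t, ht⟩ := ((hD.insert ∅).prod ((countable_countableBasis C).insert ∅)).exists_eq_range
    ⟨(∅, ∅), by simp⟩
  have st : ∀ (n : ℕ) (s : {s : Set C × Set C // IsClopen s.1 ∧ s.2.Finite ∧ Disjoint s.1 s.2}),
      ∃ s' : {s : Set C × Set C // IsClopen s.1 ∧ s.2.Finite ∧ Disjoint s.1 s.2},
      s.1.1 ⊆ s'.1.1 ∧ s.1.2 ⊆ s'.1.2 ∧ ((A n).Infinite → (A n ∩ s'.1.1).Nonempty) ∧
      ((t n).1 ∩ (t n).2 ⊆ s.1.1 ∨ ((t n).1 ∩ (t n).2 ∩ s'.1.2).Nonempty) := by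
    rintro n ⟨⟨V, E⟩, h1, h2, h3⟩
    obtain ⟨E', a1, a2, a3, a4⟩ : ∃ E' : Set C, E'.Finite ∧ Disjoint V E' ∧ E ⊆ E' ∧
        ((t n).1 ∩ (t n).2 ⊆ V ∨ ((t n).1 ∩ (t n).2 ∩ E').Nonempty) := by
      by_cases h : (t n).1 ∩ (t n).2 ⊆ V
      · exact ⟨E, h2, h3, subset_rfl, Or.inl h⟩
      · obtain ⟨d, b1, b2⟩ := not_subset.1 h
        exact ⟨insert d E, h2.insert d, disjoint_insert_right.2 ⟨b2, h3⟩, subset_insert _ _,
          Or.inr ⟨d, b1, Or.inl rfl⟩⟩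
    by_cases h : (A n).Infinite
    · obtain ⟨c, b1, b2⟩ := (h.sdiff a1).nonempty
      obtain ⟨U, b3, b4, b5⟩ := isTopologicalBasis_isClopen.exists_subset_of_mem_open
        (show c ∈ E'ᶜ from b2) a1.isClosed.isOpen_compl
      exact ⟨⟨(V ∪ U, E'), h1.union b3, a1, disjoint_union_left.2
        ⟨a2, subset_compl_iff_disjoint_right.1 b5⟩⟩, subset_union_left, a3,
        fun _ => ⟨c, b1, Or.inr b4⟩, a4⟩
    · exact ⟨⟨(V, E'), h1, a1, a2⟩, subset_rfl, a3, fun h' => absurd h' h, a4⟩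
  choose nx h1 h2 h3 h4 using st
  let s : ℕ → {s : Set C × Set C // IsClopen s.1 ∧ s.2.Finite ∧ Disjoint s.1 s.2} := fun n =>
    Nat.rec ⟨(∅, {default}), isClopen_empty, finite_singleton _, by simp⟩ nx n
  have m1 : Monotone fun n => (s n).1.1 := monotone_nat_of_le_succ fun n => h1 n (s n)
  have m2 : Monotone fun n => (s n).1.2 := monotone_nat_of_le_succ fun n => h2 n (s n)
  have hE : ∀ n, (s n).1.2 ⊆ (⋃ n, (s n).1.1)ᶜ := by
    intro n x hx hx'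
    obtain ⟨m, hm⟩ := mem_iUnion.1 hx'
    exact disjoint_left.1 (s (max n m)).2.2.2 (m1 (le_max_right _ _) hm) (m2 (le_max_left _ _) hx)
  refine ⟨(⋃ n, (s n).1.1)ᶜ, (isOpen_iUnion fun n => (s n).2.1.isOpen).isClosed_compl,
    ⟨default, hE 0 rfl⟩, fun n hn hs => ?_, fun D hD' x hx => ?_⟩
  · obtain ⟨c, a1, a2⟩ := h3 n (s n) hn
    exact hs a1 (mem_iUnion.2 ⟨n + 1, a2⟩)
  · rw [(isBasis_countableBasis C).mem_closure_iff]
    intro B hB hxB
    obtain ⟨n, hn⟩ : (D, B) ∈ range t := ht ▸ ⟨Or.inr hD', Or.inr hB⟩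
    rcases h4 n (s n) with h | ⟨d, a1, a2⟩
    · rw [hn] at h
      have := closure_minimal h (s n).2.1.isClosed
        (((isBasis_countableBasis C).isOpen hB).closure_inter ⟨hx.2, hxB⟩)
      exact absurd (mem_iUnion.2 ⟨n, this⟩) hx.1
    · rw [hn] at a1
      exact ⟨d, a1.2, a1.1, hE (n + 1) a2⟩

lemma dense_ev (b : Bool) : Dense {x : C | ∀ᶠ n in atTop, x n = b} := by
  refine (PiNat.isTopologicalBasis_cylinders fun _ => Bool).dense_iff.2 ?_
  rintro _ ⟨x, n, rfl⟩ -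
  refine ⟨fun i => if i < n then x i else b, fun i hi => by simp [hi], ?_⟩
  filter_upwards [eventually_ge_atTop n] with i hi using by simp [not_lt.2 hi]

theorem core (hCH : (𝔠 : Cardinal.{0}) = ℵ₁) : ∃ X : Set C,
    (∀ Y ⊆ X, ∃ D ⊆ Y, D.Countable ∧ ∀ K, IsClosed K → Disjoint K D → (Y ∩ K).Countable) ∧
    ∀ A : ℕ → Set C, (∀ n, IsClosed (A n)) → ∃ P, IsClosed P ∧ ¬ (P ∩ X).Countable ∧
      ∀ n, (A n).Infinite → ¬ A n ⊆ P := by
  obtain ⟨e, he⟩ := ex_enum hCH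
    (τ := (ℕ → C) × (ℕ → {s : Set C // MeasurableSet s})) (by
      have h1 : #(ℕ → {s : Set C // MeasurableSet s}) ≤ 𝔠 := by
        simp only [mk_pi, prod_const, lift_id, mk_nat]
        calc _ ≤ 𝔠 ^ ℵ₀ := power_le_power_right card_meas
          _ = 𝔠 := by simp
      simp only [mk_prod, lift_id]
      calc _ ≤ 𝔠 * 𝔠 := mul_le_mul' (by simp) h1
        _ = 𝔠 := by simp)
  choose P hP1 hP2 hP3 hP4 using fun γ : W => ex_P
    (𝒟 := (fun β => range (e β).1) '' Iic γ ∪ range fun b : Bool => {x : C | ∀ᶠ n in atTop, x n = b})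
    (((Iic_count γ).image _).union (countable_range _)) fun n => ((e γ).2 n).1
  choose x hx1 hx2 using fun γ α : W => baire (hP1 γ) (hP2 γ)
    (𝒦 := {K ∈ ⋃ β ∈ Iic (max γ α), range fun n => ((e β).2 n).1 | IsClosed K})
    (((Iic_count _).biUnion fun _ _ => countable_range _).mono (sep_subset _ _)) fun K h => h.2
  have key : ∀ K, IsClosed K → ∃ β, ∀ γ α, ND (P γ) K → x γ α ∈ K → γ < β ∧ α < β := by
    intro K hK
    obtain ⟨β, hβ⟩ := he (default, fun _ => ⟨K, hK.measurableSet⟩)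
    refine ⟨β, fun γ α h1 h2 => max_lt_iff.1 (not_le.1 fun h => hx2 γ α K ⟨?_, hK⟩ h1 h2)⟩
    exact mem_iUnion₂.2 ⟨β, h, 0, by simp [hβ]⟩
  have cnt : ∀ β, (image2 x (Iio β) (Iio β)).Countable := fun β =>
    (Iio_count β).image2 (Iio_count β) _
  refine ⟨range (Function.uncurry x), fun Y hY => ?_, fun A hA => ?_⟩
  · rcases Y.eq_empty_or_nonempty with rfl | hne
    · exact ⟨∅, subset_rfl, countable_empty, by simp⟩
    obtain ⟨D0, a2, a1, a3⟩ := (IsSeparable.of_separableSpace Y).exists_countable_dense_subset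
    obtain ⟨d, rfl⟩ := a1.exists_eq_range (by simpa using hne.mono a3)
    obtain ⟨α0, hα0⟩ := he (d, fun _ => ⟨∅, MeasurableSet.empty⟩)
    choose D b2 b1 b3 using fun γ =>
      (IsSeparable.of_separableSpace (Y ∩ P γ)).exists_countable_dense_subset
    refine ⟨range d ∪ ⋃ γ ∈ Iio α0, D γ, union_subset a2 (iUnion₂_subset fun γ _ =>
      (b2 γ).trans inter_subset_left), a1.union ((Iio_count _).biUnion fun γ _ => b1 γ),
      fun K hK hd => ?_⟩
    obtain ⟨β0, h0⟩ := key _ (hK.inter (isClosed_closure (s := range d)))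
    choose β hβ using fun γ => key _ (hK.inter (isClosed_closure (s := D γ)))
    refine ((cnt β0).union ((Iio_count α0).biUnion fun γ _ => cnt (β γ))).mono fun y hy => ?_
    obtain ⟨⟨γ, α⟩, rfl⟩ := hY hy.1
    rcases lt_or_ge γ α0 with h | h
    · have := hβ γ γ α (nd_of (fun z hz => closure_mono (subset_inter subset_rfl
        ((b2 γ).trans inter_subset_right)) hz.2) (hd.mono_right fun z hz =>
          Or.inr (mem_iUnion₂.2 ⟨γ, h, hz⟩))) ⟨hy.2, b3 γ ⟨hy.1, hx1 γ α⟩⟩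
      exact Or.inr (mem_iUnion₂.2 ⟨γ, h, mem_image2_of_mem this.1 this.2⟩)
    · have := h0 γ α (nd_of (hP4 γ _ (Or.inl ⟨α0, h, by simp [hα0]⟩))
        (hd.mono_right subset_union_left)) ⟨hy.2, a3 hy.1⟩
      exact Or.inl (mem_image2_of_mem this.1 this.2)
  · obtain ⟨γ, hγ⟩ := he (default, fun n => ⟨A n, (hA n).measurableSet⟩)
    refine ⟨P γ, hP1 γ, fun hc => ?_, by simpa [hγ] using hP3 γ⟩
    choose β hβ using fun y : C => key {y} isClosed_singleton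
    obtain ⟨α, hα⟩ := Dirac.bdd _ (hc.image β)
    refine lt_asymm (hβ (x γ α) γ α ?_ rfl).2 (hα _ ⟨_, ⟨hx1 γ α, (γ, α), rfl⟩, rfl⟩)
    rintro O hO ⟨z, hz⟩ hs
    have h1 : ∀ b : Bool, ∀ᶠ n in atTop, x γ α n = b := fun b => by
      obtain ⟨y, c1, c2⟩ := mem_closure_iff.1 (hP4 γ _ (Or.inr ⟨b, rfl⟩) ⟨hz.2, dense_ev b z⟩)
        O hO hz.1
      have := hs ⟨c1, c2.2⟩
      rw [← show y = x γ α from this]
      exact c2.1
    obtain ⟨n, c1, c2⟩ := ((h1 true).and (h1 false)).exists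
    simp [c1] at c2

/-- every subset of `X` is concentrated on a countable subset of itself -/
def HerConc (X : Set ℝ) : Prop :=
  ∀ Y : Set ℝ, Y ⊆ X → ∃ D : Set ℝ, D ⊆ Y ∧ D.Countable ∧
    ∀ U : Set ℝ, IsOpen U → D ⊆ U → (Y \ U).Countable

/-- `X` is a continuous image of a nu-set of reals -/
def NuImage (X : Set ℝ) : Prop :=
  ∃ Z : Set ℝ, (∀ Y : Set Z, IsNowhereDense Y → Y.Countable) ∧
    ∃ f : Z → ℝ, Continuous f ∧ range f = X

theorem neg (hCH : (𝔠 : Cardinal.{0}) = ℵ₁) : ∃ X : Set ℝ, HerConc X ∧ ¬ NuImage X := by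
  obtain ⟨X, h1, h2⟩ := core hCH
  obtain ⟨φ, -, hc, hi⟩ := (PerfectSpace.univ_perfect (α := ℝ)).exists_nat_bool_injection
    univ_nonempty
  have hφ := hc.isClosedEmbedding hi
  refine ⟨φ '' X, fun Y hY => ?_, ?_⟩
  · obtain ⟨Y, hY', rfl⟩ := subset_image_iff.1 hY
    obtain ⟨D, a1, a2, a3⟩ := h1 Y hY'
    refine ⟨φ '' D, image_mono a1, a2.image _, fun U hU hD => ?_⟩
    refine ((a3 (φ ⁻¹' Uᶜ) (hU.isClosed_compl.preimage hc) (disjoint_left.2 fun x b1 b2 =>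
      b1 (hD ⟨x, b2, rfl⟩))).image φ).mono ?_
    rintro _ ⟨⟨x, b1, rfl⟩, b2⟩
    exact ⟨x, ⟨b1, b2⟩, rfl⟩
  · rintro ⟨Z, hZ, f, hf, hr⟩
    obtain ⟨b, hb⟩ := ((countable_countableBasis Z).insert ∅).exists_eq_range (insert_nonempty _ _)
    obtain ⟨P, a1, a2, a3⟩ := h2 (fun n => φ ⁻¹' closure (f '' b n))
      fun n => isClosed_closure.preimage hc
    have hF : IsClosed (f ⁻¹' (φ '' P)) := (hφ.isClosedMap _ a1).preimage hf
    have h3 := hZ (frontier (f ⁻¹' (φ '' P)))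
      (isClosed_frontier.isNowhereDense_iff.2 (interior_frontier hF))
    refine a2 (Countable.preimage_of_injOn (f := φ) ((h3.image f).union (countable_iUnion
      fun n => (show (f '' (b n) ∩ {_y | b n ⊆ f ⁻¹' (φ '' P)}).Countable from ?_)))
      hi.injOn |>.mono ?_)
    · by_cases h : b n ⊆ f ⁻¹' (φ '' P)
      · refine (Finite.countable (not_not.1 fun hinf => a3 n ?_ ?_)).mono inter_subset_left
        · refine Set.Infinite.mono (preimage_mono subset_closure) (Set.Infinite.preimage hinf ?_)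
          exact (image_subset_iff.2 h).trans (image_subset_range _ _)
        · exact (preimage_mono (closure_minimal (image_subset_iff.2 h)
            (hφ.isClosedMap _ a1))).trans (preimage_image_eq _ hi).le
      · simp [h]
    · rintro x ⟨b1, b2⟩
      obtain ⟨z, hz⟩ : φ x ∈ range f := hr ▸ ⟨x, b2, rfl⟩
      have hzF : z ∈ f ⁻¹' (φ '' P) := ⟨x, b1, hz.symm⟩
      by_cases h : z ∈ interior (f ⁻¹' (φ '' P))
      · obtain ⟨B, c1, c2, c3⟩ := (isBasis_countableBasis Z).exists_subset_of_mem_open h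
          isOpen_interior
        obtain ⟨n, rfl⟩ : B ∈ range b := hb ▸ Or.inr c1
        exact Or.inr (mem_iUnion.2 ⟨n, ⟨z, c2, hz⟩, c3.trans interior_subset⟩)
      · exact Or.inl ⟨z, ⟨subset_closure hzF, h⟩, hz⟩

theorem pos (hb : ℵ₁ < IMeag.bN) (X : Set ℝ) (hX : HerConc X) : NuImage X := by
  suffices h : X.Countable from ⟨X, fun Y _ => have := h.to_subtype; to_countable Y,
    Subtype.val, continuous_subtype_val, Subtype.range_val⟩
  obtain ⟨D, -, h1, h2⟩ := hX X subset_rfl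
  by_contra hc
  obtain ⟨d, hd⟩ := (h1.insert 0).exists_eq_range (insert_nonempty _ _)
  have h3 : ℵ₁ ≤ #(X \ range d : Set ℝ) := by
    rw [← succ_aleph0, Order.succ_le_iff, ← not_le, le_aleph0_iff_set_countable]
    exact fun h => hc ((h.union (countable_range d)).mono (subset_sdiff_union _ _))
  obtain ⟨Y, h4, h5⟩ := le_mk_iff_exists_subset.1 h3
  have h6 : ∀ (y : Y) (n : ℕ), ∃ m : ℕ, 1 / ((m : ℝ) + 1) < dist (y : ℝ) (d n) := fun y n =>
    exists_nat_one_div_lt (dist_pos.2 fun e => (h4 y.2).2 ⟨n, e.symm⟩)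
  choose f hf using h6
  obtain ⟨g, hg⟩ := IMeag.bdd (h5 ▸ hb) f
  have h7 : Y.Countable := by
    refine (countable_iUnion fun N : ℕ => h2 (⋃ n, Metric.ball (d n) (1 / ((max (g n) N : ℕ) + 1)))
      (isOpen_iUnion fun _ => Metric.isOpen_ball) fun z hz => ?_).mono fun y hy => ?_
    · obtain ⟨n, rfl⟩ : z ∈ range d := hd ▸ Or.inr hz
      exact mem_iUnion.2 ⟨n, Metric.mem_ball_self Nat.one_div_pos_of_nat⟩
    · obtain ⟨k, hk⟩ := eventually_atTop.1 (hg ⟨y, hy⟩)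
      obtain ⟨N, -, hN⟩ := fin_bd ((finite_lt_nat k).image (f ⟨y, hy⟩)) 0
      refine mem_iUnion.2 ⟨N, (h4 hy).1, fun h => ?_⟩
      obtain ⟨n, hn⟩ := mem_iUnion.1 h
      have h8 : f ⟨y, hy⟩ n ≤ max (g n) N := by
        rcases lt_or_ge n k with h | h
        exacts [le_max_of_le_right (le_of_lt (hN ⟨n, h, rfl⟩)), le_max_of_le_left (hk n h)]
      exact lt_asymm (Metric.mem_ball.1 hn) ((Nat.one_div_le_one_div h8).trans_lt (hf ⟨y, hy⟩ n))
  rw [← le_aleph0_iff_set_countable, h5] at h7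
  exact absurd h7 (not_le.2 aleph0_lt_aleph_one)

end Pool.Agent.H42.HConc
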