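import Pool.Agent.H42.TStar

/-! Sums of Hausdorff ultrafilters along selective ultrafilters. -/

open Set Filter Cardinal

namespace Pool.Agent.H42.HExt

open Pool.Agent.H42.Dirac

abbrev UF := Ultrafilter ℕ

def Haus (U : UF) : Prop := ∀ f g : ℕ → ℕ, U.map f = U.map g → ∀ᶠ x in (U : Filter ℕ), f x = g x

def Sel (V : UF) : Prop := (V : Filter ℕ) ≤ cofinite ∧
  ∀ B : ℕ → Set ℕ, (∀ k, B k ∈ V) → ∃ A ∈ V, ∀ k ∈ A, ∀ n ∈ A, k < n → n ∈ B k

def RK (p q : UF) : Prop := ∃ f, q.map f = p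

noncomputable def sum (V : UF) (U : ℕ → UF) : UF := V.bind fun n => (U n).map (Nat.pair n)

lemma mem_bind {V : UF} {y : ℕ → UF} {s : Set ℕ} :
    s ∈ V.bind y ↔ ∀ᶠ n in (V : Filter ℕ), s ∈ y n := Iff.rfl

lemma RK.trans {p q r : UF} (h : RK p q) (h' : RK q r) : RK p r := by
  obtain ⟨f, rfl⟩ := h
  obtain ⟨g, rfl⟩ := h'
  exact ⟨f ∘ g, rfl⟩

lemma RK.haus {p q : UF} (h : RK p q) (hq : Haus q) : Haus p := by
  obtain ⟨f, rfl⟩ := h
  exact fun a b hab => hq (a ∘ f) (b ∘ f) hab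

lemma dif (a p : UF) : ∃ T, Tᶜ ∈ p ∧ (a ≠ p → T ∈ a) := by
  by_cases h : a = p
  · exact ⟨∅, compl_empty ▸ univ_mem, fun h' => absurd h h'⟩
  · by_contra hn
    push Not at hn
    exact h (Ultrafilter.coe_le_coe.1 fun s hs => Ultrafilter.compl_notMem_iff.1
      (hn sᶜ (by simpa using hs)).2)

lemma sep {V : UF} (hV : Sel V) (z : ℕ → Filter ℕ) (T : ℕ → Set ℕ)
    (h1 : ∀ᶠ n in (V : Filter ℕ), T n ∈ z n) (h2 : ∀ k, ∀ᶠ n in (V : Filter ℕ), (T k)ᶜ ∈ z n) :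
    ∃ h : ℕ → ℕ, ∀ᶠ n in (V : Filter ℕ), ∀ᶠ m in z n, h m = n := by
  obtain ⟨A, hA, h⟩ := hV.2 _ h2
  refine ⟨fun m => sInf {n | n ∈ A ∧ m ∈ T n}, ?_⟩
  filter_upwards [hA, h1] with n hn hT
  have : ∀ᶠ m in z n, ∀ k ∈ Iio n, k ∈ A → m ∉ T k :=
    (eventually_all_finite (finite_Iio n)).2 fun k hk => by
      by_cases hkA : k ∈ A
      · filter_upwards [h k hkA n hn hk] with m hm _ using hm
      · exact Eventually.of_forall fun m h' => absurd h' hkA
  filter_upwards [this, hT] with m hm hmT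
  exact IsLeast.csInf_eq ⟨⟨hn, hmT⟩, fun k hk => not_lt.1 fun h' => hm k h' hk.1 hk.2⟩

lemma key1 {V : UF} (hV : Sel V) {U x y : ℕ → UF} (hU : ∀ n, ¬ RK V (U n))
    (hx : ∀ n, RK (x n) (U n)) (he : V.bind x = V.bind y)
    (hn : ∀ᶠ n in (V : Filter ℕ), x n ≠ y n) : ∀ᶠ n in (V : Filter ℕ), x n ≠ V.bind x := by
  refine Ultrafilter.eventually_not.2 fun hc => ?_
  choose T hT hT' using fun n => dif (y n) (V.bind y)
  obtain ⟨h, hh⟩ := sep hV (fun n => y n) T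
    (by filter_upwards [hc, hn] with n h1 h2 using hT' n (by rw [← he, ← h1]; exact h2.symm)) hT
  obtain ⟨n, h1⟩ := hc.exists
  refine hU n (RK.trans ⟨h, ?_⟩ (hx n))
  rw [h1, he]
  refine Ultrafilter.coe_le_coe.1 fun Z hZ => ?_
  show ∀ᶠ n in (V : Filter ℕ), h ⁻¹' Z ∈ y n
  filter_upwards [hh, hZ] with n h2 h3
  filter_upwards [h2] with m hm
  exact show h m ∈ Z from hm ▸ h3

lemma haus_sum {V : UF} (hV : Sel V) {U : ℕ → UF} (h : ∀ n, Haus (U n))
    (hU : ∀ n, ¬ RK V (U n)) : Haus (sum V U) := by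
  intro f g hfg
  let x : ℕ → UF := fun n => (U n).map (f ∘ Nat.pair n)
  let y : ℕ → UF := fun n => (U n).map (g ∘ Nat.pair n)
  have he : V.bind x = V.bind y := Ultrafilter.ext fun s => Ultrafilter.ext_iff.1 hfg s
  suffices ∀ᶠ n in (V : Filter ℕ), x n = y n from this.mono fun n hn => h n _ _ hn
  by_contra hc
  have hn := Ultrafilter.eventually_not.2 hc
  have h1 := key1 hV hU (x := x) (fun n => ⟨_, rfl⟩) he hn
  have h2 := key1 hV hU (x := y) (fun n => ⟨_, rfl⟩) he.symm (hn.mono fun n => Ne.symm)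
  choose S hS hS' using fun n => dif (x n) (V.bind x)
  choose T hT hT' using fun n => dif (y n) (V.bind y)
  choose R hR hR' using fun n => dif (x n) (y n)
  obtain ⟨k, hk⟩ := sep hV (fun n => (x n : Filter ℕ) ⊔ y n) (fun n => S n ∪ T n)
    (by filter_upwards [h1, h2] with n a b using
      ⟨mem_of_superset (hS' n a) subset_union_left, mem_of_superset (hT' n b) subset_union_right⟩)
    (fun j => by
      have h3 : (S j ∪ T j)ᶜ ∈ V.bind x := by
        rw [compl_union]; exact inter_mem (hS j) (he ▸ hT j :)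
      exact (mem_bind.1 h3).and (mem_bind.1 (he ▸ h3)))
  have h3 : {m | m ∈ R (k m)} ∈ V.bind x := by
    rw [mem_bind]
    filter_upwards [hk, hn] with n a b
    filter_upwards [a.filter_mono le_sup_left, hR' n b] with m c d
    exact show m ∈ R (k m) from c.symm ▸ d
  have h4 : {m | m ∈ R (k m)}ᶜ ∈ V.bind y := by
    rw [mem_bind]
    filter_upwards [hk] with n a
    filter_upwards [a.filter_mono le_sup_right, hR n] with m c d
    exact show m ∉ R (k m) from c.symm ▸ d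
  exact Ultrafilter.compl_mem_iff_notMem.1 h4 (he ▸ h3)

lemma bind_rk {V : UF} {U x : ℕ → UF} (h : ∀ᶠ n in (V : Filter ℕ), RK (x n) (U n)) :
    RK (V.bind x) (sum V U) := by
  choose! φ hφ using fun n (h : RK (x n) (U n)) => h
  refine ⟨fun m => φ m.unpair.1 m.unpair.2, Ultrafilter.coe_le_coe.1 fun s hs => ?_⟩
  show ∀ᶠ n in (V : Filter ℕ), _
  filter_upwards [h, mem_bind.1 hs] with n h1 h2
  rw [← hφ n h1] at h2
  show ∀ᶠ m in (U n : Filter ℕ), _
  filter_upwards [h2] with m hm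
  simpa using hm

lemma onto (α : Type) [Nonempty α] (h : #α ≤ ℵ₁) : ∃ k : W → α, Function.Surjective k := by
  obtain ⟨j⟩ := (Cardinal.le_def _ _).1 (h.trans W_card.ge)
  exact ⟨Function.invFun j, Function.invFun_surjective j.injective⟩

lemma sel (hc : (𝔠 : Cardinal.{0}) = ℵ₁) (w : W → UF) : ∃ V, Sel V ∧ ∀ α, V ≠ w α := by
  obtain ⟨b, hb⟩ := onto (ℕ → Set ℕ) (by rw [← hc]; simp)
  obtain ⟨f, hf⟩ := TStar.rec_o (T := W) (σ := Set ℕ)
    (fun α g s => s.Infinite ∧ (∀ β, (s \ g β).Finite) ∧ s ∉ w α ∧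
      ((∀ k ∈ s, ∀ n ∈ s, k < n → n ∈ b α k) ∨ ∃ k, (s ∩ {n | ∀ j ≤ k, n ∈ b α j}).Finite))
    (fun α g hg => by
      have := (Iio_count α).to_subtype
      obtain ⟨E, hE, hEg⟩ := Tau.pseudo g (fun β => (hg β).1) fun β γ => by
        rcases lt_trichotomy β γ with h | rfl | h
        exacts [Or.inr ((hg γ).2.1 ⟨β, h⟩), Or.inl (by simp), Or.inl ((hg β).2.1 ⟨γ, h⟩)]
      let r : ℕ → ℕ → Prop := fun k n => k < n ∧ ∀ j ≤ k, n ∈ b α j
      have : IsTrans ℕ r := ⟨fun _ _ _ h1 h2 => ⟨h1.1.trans h2.1,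
        fun j hj => h2.2 j (hj.trans h1.1.le)⟩⟩
      obtain ⟨e, he⟩ := exists_increasing_or_nonincreasing_subseq r (Nat.nth (· ∈ E))
      have hu : StrictMono fun n => Nat.nth (· ∈ E) (e n) :=
        (Nat.nth_strictMono hE).comp e.strictMono
      set u := fun n => Nat.nth (· ∈ E) (e n)
      obtain ⟨s, hs, hsu, hsw⟩ : ∃ s : Set ℕ, s.Infinite ∧ s ⊆ range u ∧ s ∉ w α := by
        by_cases h : range (fun n => u (2 * n)) ∈ w α
        · refine ⟨range fun n => u (2 * n + 1), infinite_range_of_injective fun a b h => by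
            have := hu.injective h; omega, range_subset_iff.2 fun n => ⟨_, rfl⟩, fun h' => ?_⟩
          obtain ⟨_, ⟨a, rfl⟩, c, h2⟩ := (w α).nonempty_of_mem (inter_mem h h')
          have := hu.injective h2
          omega
        · exact ⟨_, infinite_range_of_injective fun a b h => by
            have := hu.injective h; omega, range_subset_iff.2 fun n => ⟨_, rfl⟩, h⟩
      refine ⟨s, hs, fun β => (hEg β).subset (sdiff_subset_sdiff_left (hsu.trans
        (range_subset_iff.2 fun n => Nat.nth_mem_of_infinite hE _))), hsw, he.imp ?_ ?_⟩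
      · intro h k hk n hn hkn
        obtain ⟨k, rfl⟩ := hsu hk
        obtain ⟨n, rfl⟩ := hsu hn
        exact (h k n (hu.lt_iff_lt.1 hkn)).2 _ le_rfl
      · refine fun h => ⟨u 0, (finite_singleton (u 0)).subset fun n hn => ?_⟩
        obtain ⟨n, rfl⟩ := hsu hn.1
        rcases n.eq_zero_or_pos with rfl | h0
        exacts [rfl, absurd ⟨hu h0, hn.2⟩ (h 0 n h0)])
  have : Nonempty W := (Cardinal.infinite_iff.2 (W_card ▸ aleph0_le_aleph 1)).nonempty
  have hle : ∀ α β, α ≤ β → cofinite ⊓ 𝓟 (f β) ≤ cofinite ⊓ 𝓟 (f α) := fun α β h => by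
    refine le_inf inf_le_left (le_principal_iff.2 (mem_inf_principal.2 ?_))
    rcases h.eq_or_lt with rfl | h
    · simp
    · exact ((hf β).2.1 ⟨α, h⟩).subset fun x hx => Classical.not_imp.1 hx
  have hne : (⨅ α, cofinite ⊓ 𝓟 (f α)).NeBot := iInf_neBot_of_directed'
    (fun α β => ⟨max α β, hle _ _ (le_max_left _ _), hle _ _ (le_max_right _ _)⟩)
    fun α => (hf α).1.cofinite_inf_principal_neBot
  let V := Ultrafilter.of (⨅ α, cofinite ⊓ 𝓟 (f α))
  have hV : ∀ α, (V : Filter ℕ) ≤ cofinite ⊓ 𝓟 (f α) := fun α =>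
    (Ultrafilter.of_le _).trans (iInf_le _ α)
  have hm : ∀ α, f α ∈ V := fun α => le_principal_iff.1 ((hV α).trans inf_le_right)
  have hco := (hV (Classical.arbitrary W)).trans inf_le_left
  refine ⟨V, ⟨hco, fun B hB => ?_⟩, fun α h => (hf α).2.2.1 (h ▸ hm α)⟩
  obtain ⟨α, rfl⟩ := hb B
  refine ⟨f α, hm α, (hf α).2.2.2.resolve_right fun ⟨k, hk⟩ => ?_⟩
  refine Ultrafilter.compl_mem_iff_notMem.1 (hco hk.compl_mem_cofinite) (inter_mem (hm α) ?_)
  exact (eventually_all_finite (finite_Iic k)).2 fun j _ => hB j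

lemma chain (hc : (𝔠 : Cardinal.{0}) = ℵ₁) : ∃ U : W → UF, ∀ α, Haus (U α) ∧
    ∃ V : UF, (V : Filter ℕ) ≤ cofinite ∧
      ∀ β < α, ∀ x : ℕ → UF, (∀ n, RK (x n) (U β)) → RK (V.bind x) (U α) := by
  have hb : ∀ V q : UF, V.bind (fun _ => q) = q := fun V q =>
    Ultrafilter.ext fun s => by simp [mem_bind]
  obtain ⟨f, hf⟩ := TStar.rec_o (T := W) (σ := UF)
    (fun α g s => Haus s ∧ ∃ V : UF, (V : Filter ℕ) ≤ cofinite ∧
      ∀ β, ∀ x : ℕ → UF, (∀ n, RK (x n) (g β)) → RK (V.bind x) s)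
    (fun α g hg => by
      rcases isEmpty_or_nonempty (Iio α) with h0 | h0
      · exact ⟨pure 0, fun a b h => Ultrafilter.pure_injective h, hyperfilter ℕ,
          hyperfilter_le_cofinite, fun β => isEmptyElim β⟩
      have := (Iio_count α).to_subtype
      obtain ⟨c, hc'⟩ := exists_surjective_nat (Iio α)
      obtain ⟨k, hk⟩ := onto (ℕ × (ℕ → ℕ)) (by rw [← hc]; simp)
      obtain ⟨V, hV, hw⟩ := sel hc fun a => (g (partialSups c (k a).1)).map (k a).2
      refine ⟨sum V fun n => g (partialSups c n), haus_sum hV (fun n => (hg _).1) ?_, V, hV.1,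
        fun β x hx => bind_rk ?_⟩
      · rintro n ⟨φ, hφ⟩
        obtain ⟨a, ha⟩ := hk (n, φ)
        exact hw a (by rw [ha, hφ])
      obtain ⟨i, rfl⟩ := hc' β
      refine hV.1 (Nat.cofinite_eq_atTop ▸ (eventually_ge_atTop i).mono fun n hn => ?_)
      refine (hx n).trans ?_
      rcases (le_partialSups_of_le c hn).eq_or_lt with h | h
      · exact h ▸ ⟨id, rfl⟩
      · obtain ⟨V', -, h'⟩ := (hg (partialSups c n)).2
        have := h' ⟨c i, h⟩ (fun _ => g (c i)) fun _ => ⟨id, rfl⟩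
        rwa [hb] at this)
  exact ⟨f, fun α => ⟨(hf α).1, let ⟨V, h1, h2⟩ := (hf α).2; ⟨V, h1, fun β h => h2 ⟨β, h⟩⟩⟩⟩

lemma space (hc : (𝔠 : Cardinal.{0}) = ℵ₁) : ∃ Y : Set UF, (∀ p ∈ Y, Haus p) ∧
    (∀ p ∈ Y, ∀ f, p.map f ∈ Y) ∧ (∀ n, pure n ∈ Y) ∧
    (∀ p ∈ Y, ∀ q ∈ Y, ∃ r ∈ Y, r.map (·.unpair.1) = p ∧ r.map (·.unpair.2) = q) ∧
    (∃ p ∈ Y, ∀ n, p ≠ pure n) ∧ IsCountablyCompact Y := by
  obtain ⟨U, hU⟩ := chain hc
  have : Nonempty W := (Cardinal.infinite_iff.2 (W_card ▸ aleph0_le_aleph 1)).nonempty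
  have hb : ∀ V q : UF, V.bind (fun _ => q) = q := fun V q =>
    Ultrafilter.ext fun s => by simp [mem_bind]
  have hm : ∀ β α, β < α → RK (U β) (U α) := fun β α h => by
    obtain ⟨V, _, h'⟩ := (hU α).2
    have := h' β h (fun _ => U β) fun _ => ⟨id, rfl⟩
    rwa [hb] at this
  have hp : ∀ n α, RK (pure n) (U α) := fun n α => ⟨fun _ => n, Ultrafilter.ext fun s => by
    by_cases h : n ∈ s <;> simp [h, ← Ultrafilter.mem_coe]⟩
  have hseq : ∀ x : ℕ → UF, (∀ n, ∃ α, RK (x n) (U α)) → ∃ V : UF, (V : Filter ℕ) ≤ cofinite ∧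
      ∃ α, (∀ n, RK (x n) (U α)) ∧ ∃ β, RK (V.bind x) (U β) := fun x hx => by
    choose a ha using hx
    obtain ⟨α, hα⟩ := bdd _ (countable_range a)
    obtain ⟨β, hβ⟩ := bdd {α} (countable_singleton α)
    obtain ⟨V, h1, h2⟩ := (hU β).2
    have := fun n => (ha n).trans (hm _ _ (hα _ ⟨n, rfl⟩))
    exact ⟨V, h1, α, this, β, h2 α (hβ α rfl) x this⟩
  refine ⟨{p | ∃ α, RK p (U α)}, fun p ⟨α, h⟩ => h.haus (hU α).1,
    fun p ⟨α, h⟩ f => ⟨α, RK.trans ⟨f, rfl⟩ h⟩, fun n => ⟨Classical.arbitrary W, hp n _⟩,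
    fun p hp q hq => ?_, ?_, isCountablyCompact_iff_seq_clusterPt.2 fun x hx => ?_⟩
  · obtain ⟨-, -, α, h, -⟩ := hseq (fun n => if n = 0 then p else q) fun n => by
      split_ifs; exacts [hp, hq]
    obtain ⟨a, ha⟩ := h 0
    obtain ⟨b, hb⟩ := h 1
    refine ⟨(U α).map fun n => Nat.pair (a n) (b n), ⟨α, _, rfl⟩, ?_, ?_⟩
    · simpa [Ultrafilter.map_map, Function.comp_def] using ha
    · simpa [Ultrafilter.map_map, Function.comp_def] using hb
  · obtain ⟨V, h1, -, -, h⟩ := hseq pure fun n => ⟨Classical.arbitrary W, hp n _⟩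
    refine ⟨_, h, fun n hn => ?_⟩
    have : ({n} : Set ℕ) ∈ V.bind pure := hn ▸ rfl
    exact Ultrafilter.compl_mem_iff_notMem.1 (h1 (finite_singleton n).compl_mem_cofinite) this
  · obtain ⟨N, hN⟩ := eventually_atTop.1 hx
    obtain ⟨V, h1, -, -, h⟩ := hseq (fun n => x (n + N)) fun n => hN _ (by omega)
    refine ⟨_, h, mapClusterPt_iff_frequently.2 fun s hs => ?_⟩
    obtain ⟨_, ⟨t, rfl⟩, ht, hts⟩ := ultrafilterBasis_is_basis.mem_nhds_iff.1 hs
    have := ((mem_bind.1 ht).frequently.filter_mono (h1.trans_eq Nat.cofinite_eq_atTop))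
    exact ((tendsto_add_atTop_nat N).frequently (p := fun n => x n ∈ s)
      (this.mono fun n hn => hts hn))

end Pool.Agent.H42.HExt
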