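import Pool.Agent.H42.HExt1

/-! A countably compact Hausdorff hyperextension of `ℕ` under CH. -/

open Set Filter Cardinal Topology

namespace Pool.Agent.H42.HExt

open Classical in
lemma main (hc : (𝔠 : Cardinal.{0}) = ℵ₁) : ∃ (Y : Type) (τ : TopologicalSpace Y) (ι : ℕ → Y)
    (star : (ℕ → ℕ) → Y → Y), IsEmbedding ι ∧ DenseRange ι ∧ ¬ Function.Surjective ι ∧
      (∀ f, Continuous (star f)) ∧ (∀ f x, star f (ι x) = ι (f x)) ∧
      (∀ f g, star (g ∘ f) = star g ∘ star f) ∧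
      (∀ f g ξ, star (fun x => if f x = g x then 1 else 0) ξ =
        if star f ξ = star g ξ then ι 1 else ι 0) ∧
      (∃ p q, ∀ ξ η, ∃ ζ, star p ζ = ξ ∧ star q ζ = η) ∧
      τ = TopologicalSpace.generateFrom
        {S | ∃ A : Set ℕ, S = {ξ | star (fun x => if x ∈ A then 1 else 0) ξ = ι 1}} ∧
      T2Space Y ∧ CountablyCompactSpace Y := by
  obtain ⟨Y, h1, h2, h3, h4, ⟨p, hp, hpn⟩, h6⟩ := space hc
  have key : ∀ (ξ : UF) (f : ℕ → ℕ) (c : ℕ), ξ.map f = pure c ↔ ∀ᶠ x in (ξ : Filter ℕ), f x = c :=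
    fun ξ f c => by
      rw [← Ultrafilter.coe_le_coe, Ultrafilter.coe_pure, le_pure_iff]; rfl
  refine ⟨Y, inferInstance, fun n => ⟨pure n, h3 n⟩, fun f ξ => ⟨ξ.1.map f, h2 _ ξ.2 f⟩,
    isDenseEmbedding_pure.isEmbedding.codRestrict Y h3, ?_, fun h => ?_, fun f => ?_,
    fun _ _ => rfl, fun _ _ => rfl, fun f g ξ => ?_,
    ⟨(·.unpair.1), (·.unpair.2), fun ξ η => ?_⟩, ?_, inferInstance,
    isCountablyCompact_iff_countablyCompactSpace.1 h6⟩
  · refine IsInducing.subtypeVal.dense_iff.2 fun ξ => closure_mono ?_ (denseRange_pure ξ.1)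
    rintro _ ⟨n, rfl⟩
    exact ⟨_, ⟨n, rfl⟩, rfl⟩
  · obtain ⟨n, hn⟩ := h ⟨p, hp⟩
    exact hpn n (congrArg Subtype.val hn).symm
  · refine Continuous.subtype_mk (Continuous.comp (g := fun u : UF => u.map f) ?_
      continuous_subtype_val) _
    refine continuous_generateFrom_iff.2 ?_
    rintro _ ⟨s, rfl⟩
    exact ultrafilter_isOpen_basic (f ⁻¹' s)
  · split_ifs with h
    · refine Subtype.ext ((key _ _ _).2 ?_)
      exact (h1 _ ξ.2 f g (congrArg Subtype.val h)).mono fun x hx => if_pos hx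
    · refine Subtype.ext ((key _ _ _).2 ?_)
      refine (Ultrafilter.eventually_not.2 fun h' => h (Subtype.ext ?_)).mono fun x hx => if_neg hx
      exact Ultrafilter.coe_injective (map_congr h')
  · obtain ⟨r, hr, ha, hb⟩ := h4 _ ξ.2 _ η.2
    exact ⟨⟨r, hr⟩, Subtype.ext ha, Subtype.ext hb⟩
  · refine induced_generateFrom_eq.trans (congrArg _ (Set.ext fun S => ?_))
    have : ∀ A : Set ℕ, {ξ : Y | (⟨ξ.1.map fun x => if x ∈ A then 1 else 0, h2 _ ξ.2 _⟩ : Y) =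
        ⟨pure 1, h3 1⟩} = Subtype.val ⁻¹' {u | A ∈ u} := fun A => Set.ext fun ξ => by
      simp [key, ← Ultrafilter.mem_coe]
    constructor
    · rintro ⟨_, ⟨A, rfl⟩, rfl⟩
      exact ⟨A, (this A).symm⟩
    · rintro ⟨A, rfl⟩
      exact ⟨_, ⟨A, rfl⟩, (this A).symm⟩

end Pool.Agent.H42.HExt
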