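import Mathlib

/-! The distributivity number is at most the Borel almost disjointness number. -/

namespace Pool.Agent.H42.HMad

open Set Cardinal Filter PiNat

/-- `D` is dense in the infinite subsets of `ℕ` under almost inclusion -/
def IsDense (D : Set (Set ℕ)) : Prop :=
  ∀ A : Set ℕ, A.Infinite → ∃ B ∈ D, B.Infinite ∧ (B \ A).Finite

/-- `D` is a dense open family of infinite subsets of `ℕ` -/
def DenseOpen (D : Set (Set ℕ)) : Prop :=
  (∀ A ∈ D, A.Infinite) ∧ (∀ A ∈ D, ∀ B : Set ℕ, B.Infinite → (B \ A).Finite → B ∈ D) ∧ IsDense D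

/-- the distributivity number -/
noncomputable def hNum : Cardinal.{0} :=
  sInf {κ | ∃ 𝒟 : Set (Set (Set ℕ)), #𝒟 = κ ∧ (∀ D ∈ 𝒟, DenseOpen D) ∧ ¬ IsDense (⋂₀ 𝒟)}

/-- the subset of `ℕ` with characteristic function `x` -/
def st (x : ℕ → Bool) : Set ℕ := {n | x n = true}

/-- `F` is (the set of characteristic functions of) a mad family -/
def Mad (F : Set (ℕ → Bool)) : Prop :=
  F.Infinite ∧ (∀ x ∈ F, (st x).Infinite) ∧
    (∀ x ∈ F, ∀ y ∈ F, x ≠ y → (st x ∩ st y).Finite) ∧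
    ∀ z, (st z).Infinite → ∃ x ∈ F, (st x ∩ st z).Infinite

/-- the least number of Borel sets whose union is a mad family -/
noncomputable def aBorel : Cardinal.{0} :=
  sInf {κ | ∃ 𝒜 : Set (Set (ℕ → Bool)), #𝒜 = κ ∧
    (∀ A ∈ 𝒜, @MeasurableSet (ℕ → Bool) (borel (ℕ → Bool)) A) ∧ Mad (⋃₀ 𝒜)}

theorem ramseyU {U : Ultrafilter ℕ} (hU : (U : Filter ℕ) ≤ atTop) {W : Set ℕ} (hW : W ∈ U)
    {G : ℕ → ℕ → Prop} (h : ∀ V ⊆ W, V.Infinite → ∃ i ∈ V, ∃ j ∈ V, i < j ∧ G i j) :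
    {i | {j | G i j} ∈ U} ∈ U := by
  by_contra hc
  have h1 := Ultrafilter.compl_mem_iff_notMem.2 hc
  obtain ⟨f, h2, h3⟩ := exists_seq_of_forall_finset_exists (fun i => i ∈ W ∧ {j | G i j} ∉ U)
    (fun i j => i < j ∧ ¬ G i j) fun s hs => by
      have h4 : ∀ x ∈ s, {j | x < j ∧ ¬ G x j} ∈ U := fun x hx =>
        inter_mem (hU (eventually_gt_atTop x)) (Ultrafilter.compl_mem_iff_notMem.2 (hs x hx).2)
      obtain ⟨y, ⟨h5, h6⟩, h7⟩ := Ultrafilter.nonempty_of_mem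
        (inter_mem (inter_mem hW h1) ((biInter_finset_mem s).2 h4))
      exact ⟨y, ⟨h5, h6⟩, fun x hx => mem_iInter₂.1 h7 x hx⟩
  have hf : StrictMono f := fun m n hmn => (h3 m n hmn).1
  obtain ⟨_, ⟨m, rfl⟩, _, ⟨n, rfl⟩, h4, h5⟩ := h (range f) (range_subset_iff.2 fun n => (h2 n).1)
    (infinite_range_of_injective hf.injective)
  exact (h3 m n (hf.lt_iff_lt.1 h4)).2 h5

theorem fusion {ι : Type} [Countable ι] [Nonempty ι] (P : ι → Set ℕ → Prop)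
    (hP : ∀ i V W, P i W → (V \ W).Finite → P i V) {W0 : Set ℕ} (h0 : W0.Infinite) :
    ∃ W ⊆ W0, W.Infinite ∧ ∀ i, P i W ∨ ∀ V ⊆ W, V.Infinite → ¬ P i V := by
  obtain ⟨e, he⟩ := exists_surjective_nat ι
  have step : ∀ n (W : {W : Set ℕ // W.Infinite}), ∃ V : {W : Set ℕ // W.Infinite}, V.1 ⊆ W.1 ∧
      (P (e n) V.1 ∨ ∀ V' ⊆ V.1, V'.Infinite → ¬ P (e n) V') := by
    intro n W
    by_cases h : ∃ V ⊆ W.1, V.Infinite ∧ P (e n) V
    · obtain ⟨V, h1, h2, h3⟩ := h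
      exact ⟨⟨V, h2⟩, h1, Or.inl h3⟩
    · exact ⟨W, subset_rfl, Or.inr fun V h1 h2 h3 => h ⟨V, h1, h2, h3⟩⟩
  choose s h1 h2 using step
  let W : ℕ → {W : Set ℕ // W.Infinite} := fun n => Nat.rec ⟨W0, h0⟩ s n
  have hW : Antitone fun n => (W n).1 := antitone_nat_of_succ_le fun n => h1 n (W n)
  choose a a1 a2 using fun n => (W n).2.exists_gt n
  have h3 : ∀ n, (range a \ (W n).1).Finite := fun n =>
    ((finite_lt_nat n).image a).subset fun _ ⟨⟨k, hk⟩, h⟩ =>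
      ⟨k, not_le.1 fun h' => h (hk ▸ hW h' (a1 k)), hk⟩
  refine ⟨range a, range_subset_iff.2 fun n => hW (Nat.zero_le n) (a1 n),
    infinite_of_forall_exists_gt fun n => ⟨a n, ⟨n, rfl⟩, a2 n⟩, fun i => ?_⟩
  obtain ⟨n, rfl⟩ := he i
  rcases h2 n (W n) with h | h
  · exact Or.inl (hP _ _ _ h (h3 (n + 1)))
  · refine Or.inr fun V h4 h5 h6 => h (V ∩ (W (n + 1)).1) inter_subset_right ?_
      (hP _ _ _ h6 (by simp [sdiff_eq_empty.2 inter_subset_left]))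
    exact Set.Infinite.mono (fun x hx =>
      ⟨hx.1, by by_contra h9; exact hx.2 ⟨h4 hx.1, h9⟩⟩) (h5.sdiff (h3 (n + 1)))

/-- only finitely many `i ∈ W` have a point `c i j` in `y` with `i < j ∈ W` -/
def Sm (c : ℕ → ℕ → ℕ) (W y : Set ℕ) : Prop := {i ∈ W | ∃ j ∈ W, i < j ∧ c i j ∈ y}.Finite

theorem Sm.mono {c : ℕ → ℕ → ℕ} {V W y : Set ℕ} (h : Sm c W y) (hV : (V \ W).Finite) :
    Sm c V y := by
  obtain ⟨N, hN⟩ := hV.bddAbove
  refine (h.union (finite_le_nat N)).subset fun i ⟨h1, j, h2, h3, h4⟩ => ?_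
  by_cases h5 : i ≤ N
  · exact Or.inr h5
  · refine Or.inl ⟨?_, j, ?_, h3, h4⟩
    · by_contra h6; exact h5 (hN ⟨h1, h6⟩)
    · by_contra h6; exact h5 (h3.le.trans (hN ⟨h2, h6⟩))

theorem cyl {F : (ℕ → ℕ) → ℕ → Bool} (hF : Continuous F) (x : ℕ → ℕ) (m : ℕ) :
    ∃ n, ∀ t ∈ cylinder x n, F t m = F x m := by
  have h : IsOpen {t | F t m = F x m} :=
    (isOpen_discrete {F x m}).preimage ((continuous_apply m).comp hF)
  obtain ⟨_, ⟨y, n, rfl⟩, h1, h2⟩ :=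
    (isTopologicalBasis_cylinders fun _ => ℕ).exists_subset_of_mem_open (a := x) (by simp) h
  exact ⟨n, fun t ht => h2 (mem_cylinder_iff_eq.1 h1 ▸ ht)⟩

theorem lim {x : ℕ → ℕ → ℕ} {n : ℕ → ℕ} (hn : StrictMono n)
    (h : ∀ k, x (k + 1) ∈ cylinder (x k) (n k)) : ∃ u, ∀ k, u ∈ cylinder (x k) (n k) := by
  have h1 : ∀ k l, k ≤ l → x l ∈ cylinder (x k) (n k) := fun k l hkl => by
    induction l, hkl using Nat.le_induction with
    | base => exact self_mem_cylinder _ _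
    | succ l hkl ih => exact fun i hi => (h l i (hi.trans_le (hn.monotone hkl))).trans (ih i hi)
  refine ⟨fun i => x (i + 1) i, fun k i hi => ?_⟩
  rcases le_total k (i + 1) with h2 | h2
  · exact h1 _ _ h2 i hi
  · exact (h1 _ _ h2 i ((Nat.lt_succ_self i).trans_le hn.le_apply)).symm

theorem main {F : (ℕ → ℕ) → ℕ → Bool} (hF : Continuous F) {c : ℕ → ℕ → ℕ}
    (hc : ∀ i j i' j', c i j = c i' j' → i = i')
    (ad : ∀ x x', F x ≠ F x' → (st (F x) ∩ st (F x')).Finite)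
    (one : ∀ x i i', {j | c i j ∈ st (F x)}.Infinite → {j | c i' j ∈ st (F x)}.Infinite → i = i')
    {W0 : Set ℕ} (h0 : W0.Infinite) : ∃ W ⊆ W0, W.Infinite ∧ ∀ x, Sm c W (st (F x)) := by
  obtain ⟨W, h1, h2, h3⟩ := fusion
    (fun (σ : List ℕ) W => ∀ x, res x σ.length = σ → Sm c W (st (F x)))
    (fun _ _ _ h hV x hx => (h x hx).mono hV) h0
  by_contra hcon
  let Good : (ℕ → ℕ) → Prop := fun x => ¬ Sm c W (st (F x))
  obtain ⟨U, hU⟩ : ∃ U : Ultrafilter ℕ, (U : Filter ℕ) ≤ atTop ⊓ 𝓟 W :=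
    have : (atTop ⊓ 𝓟 W).NeBot := frequently_iff_neBot.1 (Nat.frequently_atTop_iff_infinite.2 h2)
    ⟨Ultrafilter.of _, Ultrafilter.of_le _⟩
  have hU1 : (U : Filter ℕ) ≤ atTop := hU.trans inf_le_left
  have hinf : ∀ A ∈ U, A.Infinite := fun A hA => Nat.frequently_atTop_iff_infinite.1
    ((Ultrafilter.eventually_or.1 (Eventually.of_forall fun x => em (x ∈ A))).elim
      (fun h => h.frequently.filter_mono hU1) fun h =>
        absurd hA (Ultrafilter.compl_mem_iff_notMem.1 h))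
  have big : ∀ x n, Good x →
      {i | {j | ∃ z ∈ cylinder x n, Good z ∧ c i j ∈ st (F z)} ∈ U} ∈ U := by
    intro x n hx
    refine ramseyU hU1 (le_principal_iff.1 (hU.trans inf_le_right)) fun V h4 h5 => ?_
    have h6 := (h3 (res x n)).resolve_left (fun h => hx (h x (by rw [res_length]))) V h4 h5
    push Not at h6
    obtain ⟨z, h7, h8⟩ := h6
    obtain ⟨i, h9, j, h10, h11, h12⟩ := Set.Infinite.nonempty h8
    rw [res_length] at h7
    exact ⟨i, h9, j, h10, h11, z, res_eq_res.1 h7,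
      fun h => h8 (h.mono (by simp [sdiff_eq_empty.2 h4])), h12⟩
  obtain ⟨x0, g0⟩ : ∃ x, Good x := by
    by_contra h
    exact hcon ⟨W, h1, h2, fun x => not_not.1 fun h' => h ⟨x, h'⟩⟩
  obtain ⟨x1, g1, hne⟩ : ∃ x, Good x ∧ F x0 ≠ F x := by
    by_contra h
    push Not at h
    have h4 : ∀ i, {j | ∃ z ∈ cylinder x0 0, Good z ∧ c i j ∈ st (F z)} ∈ U →
        {j | c i j ∈ st (F x0)}.Infinite := fun i hi =>
      Set.Infinite.mono (by rintro j ⟨z, _, h5, h6⟩; rwa [← h z h5] at h6) (hinf _ hi)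
    obtain ⟨i, hi, i', hi', h5⟩ := (hinf _ (big x0 0 g0)).nontrivial
    exact h5 (one x0 i i' (h4 i hi) (h4 i' hi'))
  obtain ⟨m, hm⟩ := Function.ne_iff.1 hne
  have step : ∀ s : {s : (ℕ → ℕ) × (ℕ → ℕ) × ℕ // Good s.1 ∧ Good s.2.1},
      ∃ t : {s : (ℕ → ℕ) × (ℕ → ℕ) × ℕ // Good s.1 ∧ Good s.2.1}, s.1.2.2 < t.1.2.2 ∧
        t.1.1 ∈ cylinder s.1.1 s.1.2.2 ∧ t.1.2.1 ∈ cylinder s.1.2.1 s.1.2.2 ∧
        ∃ i ≥ s.1.2.2, ∃ j, (∀ u ∈ cylinder t.1.1 t.1.2.2, c i j ∈ st (F u)) ∧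
          ∀ u ∈ cylinder t.1.2.1 t.1.2.2, c i j ∈ st (F u) := by
    rintro ⟨⟨x, x', n⟩, g, g'⟩
    obtain ⟨i, ⟨a1, a2⟩, a3⟩ := Ultrafilter.nonempty_of_mem
      (inter_mem (inter_mem (big x n g) (big x' n g')) (hU1 (eventually_ge_atTop n)))
    obtain ⟨j, ⟨z, b1, b2, b3⟩, z', b4, b5, b6⟩ := Ultrafilter.nonempty_of_mem (inter_mem a1 a2)
    obtain ⟨k, hk⟩ := cyl hF z (c i j)
    obtain ⟨k', hk'⟩ := cyl hF z' (c i j)
    exact ⟨⟨(z, z', n + 1 + k + k'), b2, b5⟩, by simp only; omega, b1, b4, i, a3, j,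
      fun u hu => (hk u (cylinder_anti _ (by simp only; omega) hu)).trans b3,
      fun u hu => (hk' u (cylinder_anti _ (by simp only; omega) hu)).trans b6⟩
  choose s s1 s2 s3 I s4 J s5 s6 using step
  obtain ⟨k, hk⟩ := cyl hF x0 m
  obtain ⟨k', hk'⟩ := cyl hF x1 m
  let t : ℕ → {s : (ℕ → ℕ) × (ℕ → ℕ) × ℕ // Good s.1 ∧ Good s.2.1} := fun n =>
    Nat.rec ⟨(x0, x1, k + k'), g0, g1⟩ (fun _ => s) n
  have hn : StrictMono fun n => (t n).1.2.2 := strictMono_nat_of_lt_succ fun n => s1 (t n)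
  obtain ⟨u, hu⟩ := lim (x := fun n => (t n).1.1) hn fun n => s2 (t n)
  obtain ⟨u', hu'⟩ := lim (x := fun n => (t n).1.2.1) hn fun n => s3 (t n)
  have h4 := ad u u' fun h => hm (by
    rw [← hk u (cylinder_anti _ (Nat.le_add_right k k') (hu 0)),
      ← hk' u' (cylinder_anti _ (Nat.le_add_left k' k) (hu' 0)), h])
  have h5 : {i | ∃ j, c i j ∈ st (F u) ∩ st (F u')}.Finite := by
    refine (h4.biUnion (t := fun y => {i | ∃ j, c i j = y}) fun y _ =>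
      Set.Subsingleton.finite fun i ⟨j, hj⟩ i' ⟨j', hj'⟩ => hc _ _ _ _ (hj.trans hj'.symm)).subset
      fun i ⟨j, hj⟩ => mem_biUnion hj ⟨j, rfl⟩
  obtain ⟨N, hN⟩ := h5.bddAbove
  have h6 := hN (a := I (t (N + 1))) ⟨J (t (N + 1)), s5 _ u (hu (N + 2)), s6 _ u' (hu' (N + 2))⟩
  have h7 := s4 (t (N + 1))
  have h8 : N + 1 ≤ (t (N + 1)).1.2.2 := hn.le_apply
  omega

theorem ex_mad : ∃ F, Mad F := by
  classical
  let A : ℕ → ℕ → Bool := fun k n => decide (n.unpair.1 = k)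
  have hA : ∀ k, (st (A k)).Infinite := fun k => infinite_of_injective_forall_mem
    (f := fun j => Nat.pair k j) (fun _ _ h => (Nat.pair_eq_pair.1 h).2) fun j => by simp [st, A]
  have hA' : ∀ k l, k ≠ l → (st (A k) ∩ st (A l)).Finite := fun k l h =>
    finite_empty.subset fun n ⟨h1, h2⟩ => by simp only [st, A, mem_ofPred, decide_eq_true_eq] at h1 h2
                                             exact h (h1.symm.trans h2)
  obtain ⟨m, h1, h2⟩ := zorn_subset_nonempty {F : Set (ℕ → Bool) | (∀ x ∈ F, (st x).Infinite) ∧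
      ∀ x ∈ F, ∀ y ∈ F, x ≠ y → (st x ∩ st y).Finite} (fun C hC hc _ => ⟨⋃₀ C,
        ⟨fun x ⟨s, hs, hx⟩ => (hC hs).1 x hx, fun x ⟨s, hs, hx⟩ y ⟨t, ht, hy⟩ =>
          (hc.total hs ht).elim (fun h => (hC ht).2 x (h hx) y hy)
            fun h => (hC hs).2 x hx y (h hy)⟩, fun s hs => subset_sUnion_of_mem hs⟩) (range A)
    ⟨by rintro _ ⟨k, rfl⟩; exact hA k, by
      rintro _ ⟨k, rfl⟩ _ ⟨l, rfl⟩ h; exact hA' k l fun h' => h (h' ▸ rfl)⟩
  refine ⟨m, (infinite_range_of_injective fun k l h => ?_).mono h1, h2.1.1, h2.1.2, fun z hz => ?_⟩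
  · by_contra h'
    have := hA' k l h'
    rw [h, inter_self] at this
    exact hA l this
  · by_contra h
    push Not at h
    have h3 : z ∈ m := h2.2 (y := insert z m) ⟨?_, ?_⟩ (subset_insert _ _) (mem_insert _ _)
    · exact hz (by simpa using h z h3)
    · rintro x (rfl | hx)
      exacts [hz, h2.1.1 x hx]
    · rintro x (rfl | hx) y (rfl | hy) hxy
      exacts [absurd rfl hxy, inter_comm _ _ ▸ h y hy, h x hx, h2.1.2 x hx y hy hxy]

theorem h_le : hNum ≤ aBorel := by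
  classical
  refine le_csInf ?_ ?_
  · obtain ⟨F, hF⟩ := ex_mad
    refine ⟨_, (fun x => {x}) '' F, rfl, ?_, by simpa using hF⟩
    rintro _ ⟨x, -, rfl⟩
    rw [← BorelSpace.measurable_eq]
    exact isClosed_singleton.measurableSet
  rintro _ ⟨𝒜, rfl, hB, h1, h2, h3, h4⟩
  let A := h1.natEmbedding
  have hA : ∀ i, (st (A i).1 \ ⋃ k ∈ Iio i, st (A k).1).Infinite := fun i =>
    Set.Infinite.mono (fun n h => ⟨h.1, fun h7 => h.2 (by
        obtain ⟨k, hk, h8⟩ := mem_iUnion₂.1 h7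
        exact mem_biUnion hk ⟨h.1, h8⟩)⟩)
      ((h2 _ (A i).2).sdiff ((finite_Iio i).biUnion (t := fun k => st (A i).1 ∩ st (A k).1)
        fun k hk => h3 _ (A i).2 _ (A k).2 fun h =>
          (ne_of_gt hk) (A.injective (Subtype.ext h))))
  let c : ℕ → ℕ → ℕ := fun i j => ((hA i).natEmbedding _ j).1
  have c1 : ∀ i j, c i j ∈ st (A i).1 \ ⋃ k ∈ Iio i, st (A k).1 := fun i j =>
    ((hA i).natEmbedding _ j).2
  have c2 : ∀ i j i' j', c i j = c i' j' → i = i' := fun i j i' j' h => by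
    rcases lt_trichotomy i i' with h5 | h5 | h5
    · exact ((c1 i' j').2 (mem_iUnion₂.2 ⟨i, h5, h ▸ (c1 i j).1⟩)).elim
    · exact h5
    · exact ((c1 i j).2 (mem_iUnion₂.2 ⟨i', h5, h.symm ▸ (c1 i' j').1⟩)).elim
  have c3 : ∀ y ∈ ⋃₀ 𝒜, ∀ i, {j | c i j ∈ st y}.Infinite → y = (A i).1 := fun y hy i h => by
    by_contra h5
    exact h (Finite.of_injOn (f := c i) (fun j hj => mem_inter hj (c1 i j).1)
      (fun j _ j' _ h => ((hA i).natEmbedding _).injective (Subtype.ext h))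
      (h3 y hy _ (A i).2 h5))
  let D : 𝒜 → Set (Set ℕ) := fun B => {W | W.Infinite ∧ ∀ y ∈ B.1, Sm c W (st y)}
  refine le_trans (csInf_le' ⟨range D, rfl, ?_, fun h => ?_⟩) mk_range_le
  · rintro _ ⟨B, rfl⟩
    refine ⟨fun _ h => h.1, fun W h V h5 h6 => ⟨h5, fun y hy => (h.2 y hy).mono h6⟩,
      fun W hW => ?_⟩
    have h5 : MeasureTheory.AnalyticSet B.1 := by
      have : PolishSpace (ℕ → Bool) := ⟨⟩
      have := hB _ B.2
      rw [← BorelSpace.measurable_eq] at this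
      exact this.analyticSet
    rw [MeasureTheory.AnalyticSet] at h5
    rcases h5 with h5 | ⟨F, hF, h5⟩
    · exact ⟨W, ⟨hW, by simp [h5]⟩, hW, by simp⟩
    · have h6 : ∀ x, F x ∈ ⋃₀ 𝒜 := fun x => ⟨B.1, B.2, h5 ▸ mem_range_self x⟩
      obtain ⟨V, h7, h8, h9⟩ := main hF c2 (fun x x' => h3 _ (h6 x) _ (h6 x'))
        (fun x i i' a b => A.injective (Subtype.ext
          ((c3 _ (h6 x) i a).symm.trans (c3 _ (h6 x) i' b)))) hW
      refine ⟨V, ⟨h8, fun y hy => ?_⟩, h8, by simp [sdiff_eq_empty.2 h7]⟩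
      rw [← h5] at hy
      obtain ⟨x, rfl⟩ := hy
      exact h9 x
  · obtain ⟨W, h5, h6, -⟩ := h univ infinite_univ
    choose nx n1 n2 using h6.exists_gt
    obtain ⟨y, ⟨B, hB, hy⟩, h7⟩ := h4 (fun n => decide (n ∈ (fun i => c i (nx i)) '' W)) (by
      simpa only [st, decide_eq_true_eq, ofPred_mem_eq] using
        h6.image (f := fun i => c i (nx i)) fun i _ i' _ h => c2 _ _ _ _ h)
    refine h7 ((((h5 _ ⟨⟨B, hB⟩, rfl⟩).2 y hy).image fun i => c i (nx i)).subset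
      fun n ⟨h8, h9⟩ => ?_)
    obtain ⟨i, hi, rfl⟩ : n ∈ (fun i => c i (nx i)) '' W := by simpa [st] using h9
    exact ⟨i, ⟨hi, nx i, n1 i, n2 i, h8⟩, rfl⟩

end Pool.Agent.H42.HMad
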