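import Pool.Agent.H42.HalfDefs

namespace Pool.Agent.H42.Half1
open Pool.Agent.H42.HalfDefs Set

variable {P : Type} [Preorder P]

def cst (k : ℕ) : NName P where
  D _ j := j = k
  mono _ h := h
  uniq h h' := h.trans h'.symm
  dense p := ⟨p, le_rfl, k, rfl⟩

theorem many (u : ℕ → NName P) (a : ℕ) (p : P) :
    ∃ q ≤ p, ∃ κ : ℕ → ℕ, ∀ i < a, (u i).D q (κ i) := by
  induction a with
  | zero => exact ⟨p, le_rfl, fun _ => 0, fun i hi => absurd hi (Nat.not_lt_zero _)⟩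
  | succ a ih =>
    obtain ⟨q, hq, κ, hκ⟩ := ih
    obtain ⟨q', hq', k, hk⟩ := (u a).dense q
    refine ⟨q', hq'.trans hq, Function.update κ a k, fun i hi => ?_⟩
    by_cases h : i = a
    · subst h; simpa using hk
    · rw [Function.update_of_ne h]; exact (u i).mono hq' (hκ i (by omega))

/-- a predense antichain -/
structure AC (A : Set P) : Prop where
  anti : ∀ a ∈ A, ∀ b ∈ A, ∀ q, q ≤ a → q ≤ b → a = b
  pre : ∀ p, ∃ a ∈ A, ∃ q ≤ p, q ≤ a

theorem exists_AC (D : Set P) (hD : ∀ p, ∃ q ≤ p, q ∈ D) : ∃ A ⊆ D, AC A := by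
  obtain ⟨A, hA⟩ := zorn_subset
    {A : Set P | A ⊆ D ∧ ∀ a ∈ A, ∀ b ∈ A, ∀ q, q ≤ a → q ≤ b → a = b} (by
      intro c hc hch
      refine ⟨⋃₀ c, ⟨sUnion_subset fun s hs => (hc hs).1, ?_⟩, fun s hs => subset_sUnion_of_mem hs⟩
      rintro a ⟨s, hs, has⟩ b ⟨t, ht, hbt⟩ q h1 h2
      rcases hch.total hs ht with h | h
      · exact (hc ht).2 a (h has) b hbt q h1 h2
      · exact (hc hs).2 a has b (h hbt) q h1 h2)
  refine ⟨A, hA.prop.1, hA.prop.2, fun p => ?_⟩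
  by_contra hne
  push Not at hne
  obtain ⟨q, hq, hqD⟩ := hD p
  have h1 : insert q A ∈
      {A : Set P | A ⊆ D ∧ ∀ a ∈ A, ∀ b ∈ A, ∀ q, q ≤ a → q ≤ b → a = b} := by
    refine ⟨insert_subset hqD hA.prop.1, ?_⟩
    rintro a (rfl | ha) b (rfl | hb) r h1 h2
    · rfl
    · exact absurd h2 (hne b hb r (h1.trans hq))
    · exact absurd h1 (hne a ha r (h2.trans hq))
    · exact hA.prop.2 a ha b hb r h1 h2
  have h2 : q ∈ A := hA.le_of_ge h1 (subset_insert _ _) (mem_insert _ _)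
  exact hne q h2 q hq le_rfl

def glue {A : Set P} (hA : AC A) (Y : P → NName P) : NName P where
  D p k := ∃ a ∈ A, p ≤ a ∧ (Y a).D p k
  mono h := fun ⟨a, ha, h1, h2⟩ => ⟨a, ha, h.trans h1, (Y a).mono h h2⟩
  uniq := fun ⟨a, ha, h1, h2⟩ ⟨b, hb, h3, h4⟩ => by
    obtain rfl := hA.anti a ha b hb _ h1 h3
    exact (Y a).uniq h2 h4
  dense p := by
    obtain ⟨a, ha, q, hq, hqa⟩ := hA.pre p
    obtain ⟨r, hr, k, hk⟩ := (Y a).dense q
    exact ⟨r, hr.trans hq, k, a, ha, hr.trans hqa, hk⟩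

theorem glue_D {A : Set P} (hA : AC A) (Y : P → NName P) {a q : P} (ha : a ∈ A) (hq : q ≤ a)
    {k : ℕ} : (glue hA Y).D q k ↔ (Y a).D q k := by
  constructor
  · rintro ⟨b, hb, h1, h2⟩
    obtain rfl := hA.anti a ha b hb _ hq h1
    exact h2
  · exact fun h => ⟨a, ha, hq, h⟩

def Eqv (p : P) (u v : NName P) : Prop := ∀ q ≤ p, ∀ k j, u.D q k → v.D q j → k = j

theorem Eqv.rfl' (p : P) (u : NName P) : Eqv p u u := fun _ _ _ _ h h' => u.uniq h h'

theorem Eqv.tr {p : P} {u v w : NName P} (h : Eqv p u v) (h' : Eqv p v w) : Eqv p u w := by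
  intro q hq k j hk hj
  obtain ⟨r, hr, i, hi⟩ := v.dense q
  exact (h r (hr.trans hq) k i (u.mono hr hk) hi).trans
    (h' r (hr.trans hq) i j hi (w.mono hr hj))

theorem Eqv.sy {p : P} {u v : NName P} (h : Eqv p u v) : Eqv p v u :=
  fun q hq k j hk hj => (h q hq j k hj hk).symm

theorem Eqv.reg {p : P} {u v : NName P} (h : ∀ q ≤ p, ∃ r ≤ q, Eqv r u v) : Eqv p u v := by
  intro q hq k j hk hj
  obtain ⟨r, hr, h1⟩ := h q hq
  exact h1 r le_rfl k j (u.mono hr hk) (v.mono hr hj)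

def Lec (p : P) (e u v : NName P) : Prop :=
  ∀ q ≤ p, ∀ k j ε, k ≠ 0 → v.D q k → u.D q j → e.D q ε → min j (ε + 1) = min k (ε + 1)

theorem Eqv.lec {p : P} {u v : NName P} (h : Eqv p u v) (e : NName P) : Lec p e u v :=
  fun q hq k j _ _ hk hj _ => by rw [h q hq j k hj hk]

theorem Lec.mono {p q : P} {e u v : NName P} (hq : q ≤ p) (h : Lec p e u v) : Lec q e u v :=
  fun r hr => h r (hr.trans hq)

theorem Lec.reg {p : P} {e u v : NName P} (h : ∀ q ≤ p, ∃ r ≤ q, Lec r e u v) :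
    Lec p e u v := by
  intro q hq k j ε h0 hk hj he
  obtain ⟨r, hr, h1⟩ := h q hq
  exact h1 r le_rfl k j ε h0 (v.mono hr hk) (u.mono hr hj) (e.mono hr he)

theorem Lec.tr {p : P} {e u v w : NName P} (h : Lec p e u v) (h' : Lec p e v w) :
    Lec p e u w := by
  intro q hq k j ε h0 hk hj he
  obtain ⟨r, hr, i, hi⟩ := v.dense q
  have h1 := h' r (hr.trans hq) k i ε h0 (w.mono hr hk) hi (e.mono hr he)
  have h2 := h r (hr.trans hq) i j ε (by omega) hi (u.mono hr hj) (e.mono hr he)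
  omega

/-- names for partial functions with coinfinite domain (`0` codes undefined) -/
def SX (P : Type) [Preorder P] : Type :=
  {x : ℕ → NName P // ∀ (p : P) (m : ℕ), ∃ q ≤ p, ∃ n ≥ m, (x n).D q 0}

def SQ (d : ℕ → NName P) : PName P (SX P) where
  le p x y := ∀ i, Lec p (d i) (x.1 i) (y.1 i)
  mono h h' i := (h' i).mono h
  reg h i := Lec.reg fun q hq => (h q hq).imp fun _ hr => ⟨hr.1, hr.2 i⟩
  refl p _ _ := (Eqv.rfl' p _).lec _
  trans h h' i := (h i).tr (h' i)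

def ow (x : SX P) (a : ℕ) (w : ℕ → NName P) : SX P :=
  ⟨fun i => if i < a then w i else x.1 i, fun p m => by
    obtain ⟨q, hq, n, hn, h⟩ := x.2 p (max m a)
    refine ⟨q, hq, n, le_of_max_le_left hn, ?_⟩
    have : ¬ n < a := not_lt.2 (le_of_max_le_right hn)
    simpa [this] using h⟩

theorem ow_lt (x : SX P) {a : ℕ} (w : ℕ → NName P) {i : ℕ} (h : i < a) :
    (ow x a w).1 i = w i := if_pos h

theorem ow_ge (x : SX P) {a : ℕ} (w : ℕ → NName P) {i : ℕ} (h : ¬ i < a) :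
    (ow x a w).1 i = x.1 i := if_neg h

theorem upd_le (d : ℕ → NName P) (x : SX P) (a : ℕ) (S : ℕ → Prop) [DecidablePred S]
    (v : ℕ → ℕ) (p : P) (h : ∀ i < a, S i → (x.1 i).D p 0) :
    (SQ d).le p (ow x a fun i => if S i then cst (v i) else x.1 i) x := by
  intro i
  by_cases hi : i < a
  · rw [ow_lt _ _ hi]
    by_cases hs : S i
    · intro q hq k j ε h0 hk
      exact absurd ((x.1 i).uniq hk ((x.1 i).mono hq (h i hi hs))) h0
    · rw [if_neg hs]; exact (Eqv.rfl' _ _).lec _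
  · rw [ow_ge _ _ hi]; exact (Eqv.rfl' _ _).lec _

def gen (d : ℕ → NName P) (n : ℕ) : NName (Iter (SQ d)) where
  D r k := ∀ q ≤ r.fst, ∀ j ε, (r.snd.1 n).D q j → (d n).D q ε → min j (ε + 1) = k + 1
  mono := by
    intro r r' k h hr q hq j ε hj he
    obtain ⟨q', hq', i, hi⟩ := (r.snd.1 n).dense q
    have h1 := hr q' ((hq'.trans hq).trans h.1) i ε hi ((d n).mono hq' he)
    have h2 := h.2 n q' (hq'.trans hq) i j ε (by omega) hi ((r'.snd.1 n).mono hq' hj)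
      ((d n).mono hq' he)
    omega
  uniq := by
    intro r k j h h'
    obtain ⟨q, hq, i, hi⟩ := (r.snd.1 n).dense r.fst
    obtain ⟨q', hq', ε, he⟩ := (d n).dense q
    have h1 := h q' (hq'.trans hq) i ε ((r.snd.1 n).mono hq' hi) he
    have h2 := h' q' (hq'.trans hq) i ε ((r.snd.1 n).mono hq' hi) he
    omega
  dense := by
    intro r
    obtain ⟨q, hq, i, hi⟩ := (r.snd.1 n).dense r.fst
    obtain ⟨q', hq', ε, he⟩ := (d n).dense q
    have hi' := (r.snd.1 n).mono hq' hi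
    by_cases h0 : i = 0
    · subst h0
      refine ⟨⟨q', ow r.snd (n + 1) fun i => if i = n then cst 1 else r.snd.1 i⟩,
        ⟨hq'.trans hq, upd_le d r.snd (n + 1) (· = n) (fun _ => 1) q' ?_⟩, 0, ?_⟩
      · rintro i _ rfl; exact hi'
      · intro q'' _ j ε' hj _
        simp only [ow_lt _ _ (Nat.lt_succ_self n), if_true] at hj
        have : j = 1 := hj
        omega
    · refine ⟨⟨q', r.snd⟩, ⟨hq'.trans hq, (SQ d).refl _ _⟩, min i (ε + 1) - 1, ?_⟩
      intro q'' h'' j ε' hj he'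
      have h1 := (r.snd.1 n).uniq hj ((r.snd.1 n).mono h'' hi')
      have h2 := (d n).uniq he' ((d n).mono h'' he)
      omega

theorem adds [Nonempty P] (d : ℕ → NName P)
    (hd : ∀ (f : ℕ → ℕ) (p : P), ∃ p' ≤ p, ∃ m, ∀ q ≤ p', ∀ n ≥ m, ∀ e, (d n).D q e → f n ≤ e) :
    AddsHC (Iter (SQ d)) := by
  refine ⟨gen d, ⟨Classical.arbitrary P, ⟨fun _ => cst 0, fun p m => ⟨p, le_rfl, m, le_rfl, rfl⟩⟩⟩,
    fun f m r _ => ?_⟩
  obtain ⟨p', hp', m', hm'⟩ := hd f r.fst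
  obtain ⟨q, hq, n, hn, h0⟩ := r.snd.2 p' (max m m')
  refine ⟨⟨q, ow r.snd (n + 1) fun i => if i = n then cst (f n + 1) else r.snd.1 i⟩,
    ⟨hq.trans hp', upd_le d r.snd (n + 1) (· = n) (fun _ => f n + 1) q ?_⟩, n,
    le_of_max_le_left hn, ?_⟩
  · rintro i _ rfl; exact h0
  · intro q' hq' j ε hj he
    simp only [ow_lt _ _ (Nat.lt_succ_self n), if_true] at hj
    have h1 : j = f n + 1 := hj
    have h2 := hm' q' (hq'.trans hq) n (le_of_max_le_right hn) ε he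
    omega

end Pool.Agent.H42.Half1
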