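import Pool.Agent.H42.Half1

namespace Pool.Agent.H42.Half2
open Pool.Agent.H42.HalfDefs Pool.Agent.H42.Half1 Set

variable {P : Type} [Preorder P] (d : ℕ → NName P)

theorem loc0 (c : NName (Iter (SQ d))) (p : P) (x : SX P) (a : ℕ) (T : Set (ℕ → ℕ))
    (hT : T.Finite) :
    ∃ p' ≤ p, ∃ (y : SX P) (h : ℕ), (∀ i < a, y.1 i = x.1 i) ∧ (SQ d).le p' y x ∧
      ∀ σ ∈ T, ∀ (z : SX P) (q : P), q ≤ p' →
        (SQ d).le q z (ow y a fun i => cst (σ i + 1)) → ∀ k, c.D ⟨q, z⟩ k → k < h := by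
  induction T, hT using Set.Finite.induction_on with
  | empty => exact ⟨p, le_rfl, x, 0, fun _ _ => rfl, (SQ d).refl _ _, by simp⟩
  | @insert σ T _ _ ih =>
    obtain ⟨p', hp', y, h, h1, h2, h3⟩ := ih
    obtain ⟨⟨p'', w⟩, ⟨hp'', hw⟩, k₀, hk₀⟩ := c.dense ⟨p', ow y a fun i => cst (σ i + 1)⟩
    simp only at hp'' hw
    have hge : ∀ i, ¬ i < a → Lec p'' (d i) (w.1 i) (y.1 i) := fun i hi => by
      have := hw i
      rwa [ow_ge _ _ hi] at this
    refine ⟨p'', hp''.trans hp', ow w a y.1, max h (k₀ + 1), fun i hi => ?_, ?_, ?_⟩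
    · rw [ow_lt _ _ hi, h1 i hi]
    · refine (SQ d).trans (y := y) (fun i => ?_) ((SQ d).mono hp'' h2)
      by_cases hi : i < a
      · rw [ow_lt _ _ hi]; exact (Eqv.rfl' _ _).lec _
      · rw [ow_ge _ _ hi]; exact hge i hi
    · rintro τ (rfl | hτ) z q hq hz k hk
      · have h4 : (SQ d).le p'' (ow (ow w a y.1) a fun i => cst (τ i + 1)) w := by
          intro i
          by_cases hi : i < a
          · rw [ow_lt _ _ hi]
            intro r hr k j ε _ hk hj he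
            have h5 := hw i
            rw [ow_lt _ _ hi] at h5
            have h6 : j = τ i + 1 := hj
            have := h5 r hr (τ i + 1) k ε (by omega) rfl hk he
            omega
          · rw [ow_ge _ _ hi, ow_ge _ _ hi]; exact (Eqv.rfl' _ _).lec _
        have h5 : (⟨q, z⟩ : Iter (SQ d)) ≤ ⟨p'', w⟩ :=
          ⟨hq, (SQ d).trans hz ((SQ d).mono hq h4)⟩
        have := c.uniq hk (c.mono h5 hk₀)
        omega
      · have h4 : (SQ d).le p'' (ow (ow w a y.1) a fun i => cst (τ i + 1))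
            (ow y a fun i => cst (τ i + 1)) := by
          intro i
          by_cases hi : i < a
          · rw [ow_lt _ _ hi, ow_lt _ _ hi]; exact (Eqv.rfl' _ _).lec _
          · rw [ow_ge _ _ hi, ow_ge _ _ hi, ow_ge _ _ hi]; exact hge i hi
        have := h3 τ hτ z q (hq.trans hp'') ((SQ d).trans hz ((SQ d).mono hq h4)) k hk
        omega

def Loc (c : NName (Iter (SQ d))) (x : SX P) (p' : P) (a : ℕ) (y : SX P) (h a' : ℕ) : Prop :=
  (∀ i < a, y.1 i = x.1 i) ∧ (SQ d).le p' y x ∧ (∃ i, a ≤ i ∧ i < a' ∧ (y.1 i).D p' 0) ∧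
    ∀ (z : SX P) (q : P), q ≤ p' → (SQ d).le q z y →
      (∀ i < a, ∃ k ≠ 0, (z.1 i).D q k) → ∀ k, c.D ⟨q, z⟩ k → k < h

theorem loc (c : NName (Iter (SQ d))) (p : P) (x : SX P) (a : ℕ) :
    ∃ p' ≤ p, ∃ (y : SX P) (h a' : ℕ), Loc d c x p' a y h a' := by
  classical
  obtain ⟨p₁, hp₁, δ, hδ⟩ := many d a p
  have hT : {σ : ℕ → ℕ | ∀ i, σ i ≤ if i < a then δ i else 0}.Finite := by
    refine Set.Finite.of_finite_image (f := fun σ (i : Fin a) => σ i) ?_ ?_
    · refine (Set.Finite.pi' (fun i : Fin a => Set.finite_Iic (δ i))).subset ?_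
      rintro _ ⟨σ, hσ, rfl⟩ i
      have := hσ i
      simpa [i.2] using this
    · intro σ hσ τ hτ h
      funext i
      by_cases hi : i < a
      · exact congrFun h ⟨i, hi⟩
      · have h1 := hσ i
        have h2 := hτ i
        simp only [hi, if_false] at h1 h2
        omega
  obtain ⟨p₂, hp₂, y, h, h1, h2, h3⟩ := loc0 d c p₁ x a _ hT
  obtain ⟨p₃, hp₃, n, hn, h0⟩ := y.2 p₂ a
  refine ⟨p₃, hp₃.trans (hp₂.trans hp₁), y, h, n + 1, h1, (SQ d).mono hp₃ h2,
    ⟨n, hn, Nat.lt_succ_self n, h0⟩, fun z q hq hz hk => ?_⟩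
  choose! κ hκ0 hκ using hk
  refine h3 (fun i => if i < a then min (κ i - 1) (δ i) else 0) (fun i => ?_) z q
    (hq.trans hp₃) (fun i => ?_)
  · by_cases hi : i < a <;> simp [hi]
  · by_cases hi : i < a
    · rw [ow_lt _ _ hi]
      intro r hr k j ε _ hk hj he
      have h4 : k = (if i < a then min (κ i - 1) (δ i) else 0) + 1 := hk
      rw [if_pos hi] at h4
      have h5 := (z.1 i).uniq hj ((z.1 i).mono hr (hκ i hi))
      have h6 := (d i).uniq he ((d i).mono (hr.trans (hq.trans (hp₃.trans hp₂))) (hδ i hi))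
      have := hκ0 i hi
      omega
    · rw [ow_ge _ _ hi]; exact hz i

def Stage (c : NName (Iter (SQ d))) (s s' : SX P × NName P) (h : NName P) : Prop :=
  (∀ p, (SQ d).le p s'.1 s.1) ∧
  (∀ q a, s.2.D q a → ∀ i < a, Eqv q (s'.1.1 i) (s.1.1 i)) ∧
  (∀ q a a', s.2.D q a → s'.2.D q a' → ∃ i, a ≤ i ∧ i < a' ∧ (s'.1.1 i).D q 0) ∧
  ∀ q z a, s.2.D q a → (SQ d).le q z s'.1 → (∀ i < a, ∃ k ≠ 0, (z.1 i).D q k) →
    ∀ k e, c.D ⟨q, z⟩ k → h.D q e → k < e

theorem stage (c : NName (Iter (SQ d))) (s : SX P × NName P) :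
    ∃ s' h, Stage d c s s' h := by
  obtain ⟨A, hAD, hA⟩ := exists_AC
    {p : P | ∃ a, s.2.D p a ∧ ∃ y h a', Loc d c s.1 p a y h a'} (fun p => by
      obtain ⟨q, hq, a, ha⟩ := s.2.dense p
      obtain ⟨p', hp', y, h, a', hl⟩ := loc d c q s.1 a
      exact ⟨p', hp'.trans hq, a, s.2.mono hp' ha, y, h, a', hl⟩)
  have : ∀ b : P, ∃ (a : ℕ) (y : SX P) (h a' : ℕ),
      b ∈ A → s.2.D b a ∧ Loc d c s.1 b a y h a' := fun b => by
    by_cases hb : b ∈ A
    · obtain ⟨a, ha, y, h, a', hl⟩ := hAD hb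
      exact ⟨a, y, h, a', fun _ => ⟨ha, hl⟩⟩
    · exact ⟨0, s.1, 0, 0, fun h => absurd h hb⟩
  choose α Y H α' hY using this
  let x' : SX P := ⟨fun i => glue hA fun b => (Y b).1 i, fun p m => by
    obtain ⟨b, hb, q, hq, hqb⟩ := hA.pre p
    obtain ⟨r, hr, n, hn, h0⟩ := (Y b).2 q m
    exact ⟨r, hr.trans hq, n, hn, (glue_D hA _ hb (hr.trans hqb)).2 h0⟩⟩
  have hE : ∀ b ∈ A, ∀ q ≤ b, ∀ i, Eqv q (x'.1 i) ((Y b).1 i) := fun b hb q hq i r hr k j hk hj =>
    ((Y b).1 i).uniq ((glue_D hA _ hb (hr.trans hq)).1 hk) hj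
  refine ⟨(x', glue hA fun b => cst (α' b)), glue hA fun b => cst (H b), ?_, ?_, ?_, ?_⟩
  · intro p
    refine (SQ d).reg fun q _ => ?_
    obtain ⟨b, hb, r, hr, hrb⟩ := hA.pre q
    exact ⟨r, hr, (SQ d).trans (y := Y b) (fun i => (hE b hb r hrb i).lec _)
      ((SQ d).mono hrb (hY b hb).2.2.1)⟩
  · intro q a ha i hi
    refine Eqv.reg fun q' hq' => ?_
    obtain ⟨b, hb, r, hr, hrb⟩ := hA.pre q'
    have h1 := s.2.uniq (s.2.mono (hr.trans hq') ha) (s.2.mono hrb (hY b hb).1)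
    refine ⟨r, hr, ?_⟩
    have h2 := hE b hb r hrb i
    rwa [(hY b hb).2.1 i (h1 ▸ hi)] at h2
  · rintro q a a' ha ⟨b, hb, hqb, h2⟩
    have h1 := s.2.uniq ha (s.2.mono hqb (hY b hb).1)
    have h3 : a' = α' b := h2
    obtain ⟨i, hi1, hi2, h0⟩ := (hY b hb).2.2.2.1
    exact ⟨i, h1 ▸ hi1, h3 ▸ hi2, (glue_D hA _ hb hqb).2 (((Y b).1 i).mono hqb h0)⟩
  · rintro q z a ha hz hk k e hc ⟨b, hb, hqb, h2⟩
    have h1 := s.2.uniq ha (s.2.mono hqb (hY b hb).1)
    have h3 : e = H b := h2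
    rw [h3]
    exact (hY b hb).2.2.2.2 z q hqb
      ((SQ d).trans hz (fun i => (hE b hb q hqb i).lec _)) (h1 ▸ hk) k hc

theorem noHC : ForcesNoHC (SQ d) := by
  classical
  intro c r
  choose F G hFG using fun n s => stage d (c n) s
  let S : ℕ → SX P × NName P := fun n => Nat.rec (r.snd, cst 0) (fun n s => F n s) n
  have hS : ∀ n, Stage d (c n) (S n) (S (n + 1)) (G n (S n)) := fun n => hFG n (S n)
  have hmono : ∀ n n', n ≤ n' → ∀ q a a', (S n).2.D q a → (S n').2.D q a' →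
      a + (n' - n) ≤ a' := by
    intro n n' h
    induction n', h using Nat.le_induction with
    | base => intro q a a' h h'; have := (S n).2.uniq h h'; omega
    | succ n' hn ih =>
      intro q a a' h h'
      obtain ⟨q', hq', b, hb⟩ := (S n').2.dense q
      have h1 := ih q' a b ((S n).2.mono hq' h) hb
      obtain ⟨i, h2, h3, -⟩ := (hS n').2.2.1 q' b a' hb ((S (n' + 1)).2.mono hq' h')
      omega
  have hge : ∀ n q a, (S n).2.D q a → n ≤ a := fun n q a h => by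
    have := hmono 0 n (Nat.zero_le _) q 0 a rfl h
    omega
  have hfr : ∀ n n', n ≤ n' → ∀ q a, (S n).2.D q a → ∀ i < a,
      Eqv q ((S n').1.1 i) ((S n).1.1 i) := by
    intro n n' h
    induction n', h using Nat.le_induction with
    | base => intro q a _ i _; exact Eqv.rfl' _ _
    | succ n' hn ih =>
      intro q a h i hi
      refine Eqv.tr (Eqv.reg fun q' hq' => ?_) (ih q a h i hi)
      obtain ⟨q'', hq'', b, hb⟩ := (S n').2.dense q'
      have := hmono n n' hn q'' a b ((S n).2.mono (hq''.trans hq') h) hb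
      exact ⟨q'', hq'', (hS n').2.1 q'' b hb i (by omega)⟩
  have hle : ∀ n n', n ≤ n' → ∀ p, (SQ d).le p (S n').1 (S n).1 := by
    intro n n' h p
    induction n', h using Nat.le_induction with
    | base => exact (SQ d).refl _ _
    | succ n' hn ih => exact (SQ d).trans ((hS n').1 p) ih
  let x : SX P := ⟨fun i => (S (i + 1)).1.1 i, fun p m => by
    obtain ⟨q, hq, a, ha⟩ := (S m).2.dense p
    obtain ⟨q', hq', a', ha'⟩ := (S (m + 1)).2.dense q
    obtain ⟨i, h1, h2, h0⟩ := (hS m).2.2.1 q' a a' ((S m).2.mono hq' ha) ha'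
    have h3 := hge m q a ha
    obtain ⟨q'', hq'', k, hk⟩ := ((S (i + 1)).1.1 i).dense q'
    have h4 := hfr (m + 1) (i + 1) (by omega) q' a' ha' i h2 q'' hq'' k 0 hk
      (((S (m + 1)).1.1 i).mono hq'' h0)
    exact ⟨q'', hq''.trans (hq'.trans hq), i, by omega, h4 ▸ hk⟩⟩
  have hx : ∀ n p, (SQ d).le p x (S n).1 := by
    intro n p i
    rcases le_total n (i + 1) with h | h
    · exact hle n (i + 1) h p i
    · refine Lec.reg fun q _ => ?_
      obtain ⟨q', hq', a, ha⟩ := (S (i + 1)).2.dense q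
      exact ⟨q', hq', (hfr (i + 1) n h q' a ha i (hge _ _ _ ha)).sy.lec _⟩
  refine ⟨⟨r.fst, x⟩, ⟨le_rfl, hx 0 _⟩, fun n => G n (S n), 0, fun s hs n _ k hk hf => ?_⟩
  obtain ⟨q, hq, a, ha⟩ := (S n).2.dense s.fst
  obtain ⟨q', hq', κ, hκ⟩ := many s.snd.1 a q
  have h1 := upd_le d s.snd a (fun i => κ i = 0) (fun _ => 1) q'
    (fun i hi h => by have := hκ i hi; rwa [show κ i = 0 from h] at this)
  have h2 : (⟨q', ow s.snd a fun i => if κ i = 0 then cst 1 else s.snd.1 i⟩ : Iter (SQ d)) ≤ s :=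
    ⟨hq'.trans hq, h1⟩
  refine lt_irrefl k ((hS n).2.2.2 q' _ a ((S n).2.mono hq' ha)
    ((SQ d).trans h1 ((SQ d).trans ((SQ d).mono (hq'.trans hq) hs.2) (hx (n + 1) q')))
    (fun i hi => ?_) k k ((c n).mono h2 hk) ((G n (S n)).mono (hq'.trans hq) hf))
  rw [ow_lt _ _ hi]
  by_cases h : κ i = 0
  · exact ⟨1, one_ne_zero, by rw [if_pos h]; rfl⟩
  · exact ⟨κ i, h, by rw [if_neg h]; exact hκ i hi⟩

end Pool.Agent.H42.Half2
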