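import Pool.Agent.H42.Half2

namespace Pool.Agent.H42.Half3
open Pool.Agent.H42.HalfDefs Pool.Agent.H42.Half1 Set Filter

/-- Laver conditions: a stem and the set of nodes above it (lists grow at the head). -/
structure Lav where
  s : List ℕ
  N : Set (List ℕ)
  stem : s ∈ N
  succ : ∀ t ∈ N, {k | k :: t ∈ N}.Infinite
  down : ∀ t ∈ N, t = s ∨ ∃ k t', t = k :: t' ∧ t' ∈ N

instance : Preorder Lav := Preorder.lift Lav.N

theorem le_def {p q : Lav} : p ≤ q ↔ p.N ⊆ q.N := Iff.rfl

instance : Nonempty Lav :=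
  ⟨⟨[], univ, trivial, fun _ _ => by simpa using Set.infinite_univ, fun t _ => by
    cases t with
    | nil => exact Or.inl rfl
    | cons k t => exact Or.inr ⟨k, t, rfl, trivial⟩⟩⟩

theorem Lav.suf (p : Lav) : ∀ t ∈ p.N, p.s <:+ t := by
  intro t
  induction t with
  | nil =>
    intro h
    rcases p.down _ h with h | ⟨k, t', h, -⟩
    · rw [← h]
    · cases h
  | cons k t ih =>
    intro h
    rcases p.down _ h with h | ⟨k', t', h, h'⟩
    · rw [← h]
    · cases h
      exact (ih h').trans (List.suffix_cons _ _)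

theorem Lav.pred (p : Lav) {k : ℕ} {t : List ℕ} (h : k :: t ∈ p.N) (hs : p.s <:+ t) :
    t ∈ p.N := by
  rcases p.down _ h with h | ⟨k', t', h, h'⟩
  · have := hs.length_le
    rw [← h] at this
    simp at this
  · cases h; exact h'

def Lav.res (p : Lav) (u : List ℕ) (hu : u ∈ p.N) : Lav where
  s := u
  N := {t | t ∈ p.N ∧ u <:+ t}
  stem := ⟨hu, List.suffix_rfl⟩
  succ t ht := (p.succ t ht.1).mono fun k hk => ⟨hk, ht.2.trans (List.suffix_cons _ _)⟩
  down t ht := by
    obtain ⟨h1, h2⟩ := ht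
    cases t with
    | nil => exact Or.inl (List.suffix_nil.1 h2).symm
    | cons k t =>
      rcases List.suffix_cons_iff.1 h2 with h | h
      · exact Or.inl h.symm
      · exact Or.inr ⟨k, t, rfl, p.pred h1 ((p.suf u hu).trans h), h⟩

theorem Lav.res_le (p : Lav) (u : List ℕ) (hu : u ∈ p.N) : p.res u hu ≤ p := fun _ h => h.1

def Lav.thin (p : Lav) (G : List ℕ → Prop) (h0 : G p.s)
    (h1 : ∀ t ∈ p.N, G t → {k | k :: t ∈ p.N ∧ G (k :: t)}.Infinite) : Lav where
  s := p.s
  N := {t | t ∈ p.N ∧ ∀ u, p.s <:+ u → u <:+ t → G u}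
  stem := ⟨p.stem, fun u h h' => by rw [h'.eq_of_length_le h.length_le]; exact h0⟩
  succ t ht := (h1 t ht.1 (ht.2 t (p.suf t ht.1) List.suffix_rfl)).mono fun k hk =>
    ⟨hk.1, fun u h h' => by
      rcases List.suffix_cons_iff.1 h' with h2 | h2
      · rw [h2]; exact hk.2
      · exact ht.2 u h h2⟩
  down t ht := by
    rcases p.down t ht.1 with h | ⟨k, t', h, h'⟩
    · exact Or.inl h
    · exact Or.inr ⟨k, t', h, h', fun u h1 h2 =>
        ht.2 u h1 (h ▸ h2.trans (List.suffix_cons _ _))⟩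

theorem long (p : Lav) (n : ℕ) : ∃ q ≤ p, n < q.s.length := by
  induction n with
  | zero =>
    obtain ⟨k, hk⟩ := (p.succ _ p.stem).nonempty
    exact ⟨p.res _ hk, p.res_le _ _, by simp [Lav.res]⟩
  | succ n ih =>
    obtain ⟨q, hq, h⟩ := ih
    obtain ⟨k, hk⟩ := (q.succ _ q.stem).nonempty
    exact ⟨q.res _ hk, (q.res_le _ _).trans hq, by simpa [Lav.res] using h⟩

def lav (n : ℕ) : NName Lav where
  D p e := ∃ t, t.length = n ∧ e :: t <:+ p.s
  mono := by
    rintro p q k h ⟨t, h1, h2⟩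
    exact ⟨t, h1, h2.trans (p.suf q.s (h q.stem))⟩
  uniq := fun ⟨t, h1, h2⟩ ⟨t', h3, h4⟩ => by
    have := (List.suffix_of_suffix_length_le h2 h4 (by simp [h1, h3])).eq_of_length
      (by simp [h1, h3])
    exact (List.cons.inj this).1
  dense p := by
    obtain ⟨q, hq, h⟩ := long p n
    refine ⟨q, hq, ?_⟩
    have h1 : (q.s.drop (q.s.length - (n + 1))).length = n + 1 := by
      rw [List.length_drop]; omega
    obtain ⟨e, t, h2⟩ := List.exists_cons_of_length_eq_add_one h1
    refine ⟨e, t, ?_, h2 ▸ List.drop_suffix _ _⟩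
    rw [h2] at h1
    simpa using h1

theorem dom (f : ℕ → ℕ) (p : Lav) :
    ∃ p' ≤ p, ∃ m, ∀ q ≤ p', ∀ n ≥ m, ∀ e, (lav n).D q e → f n ≤ e := by
  refine ⟨p.thin (fun u => u = p.s ∨ ∃ k t, u = k :: t ∧ f t.length ≤ k) (Or.inl rfl)
    (fun t ht _ => ?_), fun _ h => h.1, p.s.length, ?_⟩
  · refine ((p.succ t ht).sdiff (Set.finite_Iio (f t.length))).mono fun k hk => ?_
    exact ⟨hk.1, Or.inr ⟨k, t, rfl, not_lt.1 hk.2⟩⟩
  · rintro q hq n hn e ⟨t, h1, h2⟩
    obtain ⟨h3, h4⟩ := hq q.stem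
    have h5 : p.s <:+ e :: t :=
      List.suffix_of_suffix_length_le (p.suf _ h3) h2 (by simp; omega)
    rcases h4 _ h5 h2 with h | ⟨k, t', h, h'⟩
    · have := congrArg List.length h
      simp at this; omega
    · cases h; exact h1 ▸ h'

def Dec (c : NName Lav) (b : ℕ) (q : Lav) (v : ℕ) : Prop := ∀ r ≤ q, ∀ k, c.D r k → min k b = v

theorem pure1 (c : NName Lav) (b : ℕ) (p : Lav) :
    ∃ q ≤ p, q.s = p.s ∧ ∃ v ≤ b, Dec c b q v := by
  by_contra hne
  let good : List ℕ → ℕ → Prop := fun t v => ∃ q ≤ p, q.s = t ∧ Dec c b q v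
  have key : ∀ t ∈ p.N, (∀ v ≤ b, ¬ good t v) →
      {k | k :: t ∈ p.N ∧ ∀ v ≤ b, ¬ good (k :: t) v}.Infinite := by
    intro t ht hbad hfin
    have h1 : ∃ v ≤ b, {k | good (k :: t) v}.Infinite := by
      by_contra h
      push Not at h
      refine p.succ t ht ((hfin.union ((Set.finite_Iic b).biUnion fun v hv => h v hv)).subset ?_)
      intro k hk
      by_cases h2 : ∀ v ≤ b, ¬ good (k :: t) v
      · exact Or.inl ⟨hk, h2⟩
      · push Not at h2
        obtain ⟨v, hv, h3⟩ := h2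
        exact Or.inr (mem_biUnion hv h3)
    obtain ⟨v, hv, hinf⟩ := h1
    have h2 : ∀ k : {k | good (k :: t) v}, ∃ q ≤ p, q.s = k.1 :: t ∧ Dec c b q v :=
      fun k => k.2
    choose R hR hRs hRd using h2
    let q : Lav :=
      { s := t
        N := {u | u = t ∨ ∃ k, u ∈ (R k).N}
        stem := Or.inl rfl
        succ := by
          rintro u (rfl | ⟨k, hk⟩)
          · exact hinf.mono fun k hk => Or.inr ⟨⟨k, hk⟩, hRs ⟨k, hk⟩ ▸ (R ⟨k, hk⟩).stem⟩
          · exact ((R k).succ u hk).mono fun j hj => Or.inr ⟨k, hj⟩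
        down := by
          rintro u (rfl | ⟨k, hk⟩)
          · exact Or.inl rfl
          · rcases (R k).down u hk with h | ⟨j, u', h, h'⟩
            · exact Or.inr ⟨k.1, t, h.trans (hRs k), Or.inl rfl⟩
            · exact Or.inr ⟨j, u', h, Or.inr ⟨k, h'⟩⟩ }
    refine hbad v hv ⟨q, ?_, rfl, fun r hr k hk => ?_⟩
    · rintro u (rfl | ⟨k, hk⟩)
      · exact ht
      · exact hR k hk
    · obtain ⟨r', hr', hl⟩ := long r t.length
      have hq := hr'.trans hr
      rcases hq r'.stem with h | ⟨j, hj⟩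
      · rw [h] at hl; exact absurd hl (lt_irrefl _)
      · refine hRd j r' (fun u hu => ?_) k (c.mono hr' hk)
        have h3 := r'.suf u hu
        rcases hq hu with h | ⟨i, hi⟩
        · have := h3.length_le
          rw [h] at this; omega
        · have h4 := (R i).suf u hi
          have h5 := ((R j).suf _ hj).trans h3
          rw [hRs] at h4 h5
          have h6 := (List.suffix_of_suffix_length_le h4 h5 (by simp)).eq_of_length (by simp)
          obtain rfl : i = j := Subtype.ext (List.cons.inj h6).1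
          exact hi
  have h0 : ∀ v ≤ b, ¬ good p.s v := fun v hv ⟨q, h1, h2, h3⟩ => hne ⟨q, h1, h2, v, hv, h3⟩
  obtain ⟨r, hr, k, hk⟩ := c.dense (p.thin (fun t => ∀ v ≤ b, ¬ good t v) h0 key)
  obtain ⟨h1, h2⟩ := hr r.stem
  refine h2 r.s (p.suf _ h1) List.suffix_rfl (min k b) (min_le_right _ _)
    ⟨r, fun u hu => (hr hu).1, rfl, fun r' hr' j hj => ?_⟩
  rw [c.uniq hj (c.mono hr' hk)]

theorem pure (c : ℕ → NName Lav) (b : ℕ → ℕ) (p : Lav) (m : ℕ) :
    ∃ q ≤ p, q.s = p.s ∧ ∃ w : ∀ n, Fin (b n + 1), ∀ n < m, Dec (c n) (b n) q (w n) := by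
  induction m with
  | zero => exact ⟨p, le_rfl, rfl, fun _ => 0, fun n hn => absurd hn (Nat.not_lt_zero _)⟩
  | succ m ih =>
    obtain ⟨q, hq, h1, w, hw⟩ := ih
    obtain ⟨q', hq', h2, v, hv, h3⟩ := pure1 (c m) (b m) q
    refine ⟨q', hq'.trans hq, h2.trans h1, Function.update w m ⟨v, by omega⟩, fun n hn => ?_⟩
    by_cases h : n = m
    · subst h; simpa using h3
    · rw [Function.update_of_ne h]
      exact fun r hr => hw n (by omega) r (hr.trans hq')

theorem noHC : ¬ AddsHC Lav := by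
  classical
  rintro ⟨c, p, hc⟩
  let b : ℕ → ℕ := fun n => (n + 1) * (n + 2) + 1
  let m : List ℕ → ℕ := fun t => Encodable.encode t
  choose F hF hFs W hW using pure c b
  let Q : List ℕ → Lav := fun t => List.rec p
    (fun k t' q => if k :: t' = p.s then p else if h : k :: t' ∈ (F q (m t')).N then
      (F q (m t')).res _ h else p) t
  let R : List ℕ → Lav := fun t => F (Q t) (m t)
  let w : List ℕ → ∀ n, Fin (b n + 1) := fun t => W (Q t) (m t)
  have hQs : Q p.s = p := by
    cases h : p.s with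
    | nil => rfl
    | cons k t => exact if_pos h.symm
  have hQc : ∀ k t, p.s <:+ t → ∀ h : k :: t ∈ (R t).N, Q (k :: t) = (R t).res _ h := by
    intro k t ht h
    have h1 : k :: t ≠ p.s := fun h2 => by
      have := ht.length_le
      rw [← h2] at this
      simp at this
    exact (if_neg h1).trans (dif_pos h)
  have hK : ∀ t, ∃ K : ℕ → ℕ, (R t).s = t → (∀ j, j ≤ K j ∧ K j :: t ∈ (R t).N) ∧
      ∀ n j, n < j → w (K j :: t) n = w (K (n + 1) :: t) n := by
    intro t
    by_cases ht : (R t).s = t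
    swap
    · exact ⟨id, fun h => absurd h ht⟩
    have hinf : {k | k :: t ∈ (R t).N}.Infinite := (R t).succ t (by have := (R t).stem; rwa [ht] at this)
    have : (cofinite ⊓ 𝓟 {k | k :: t ∈ (R t).N}).NeBot :=
      Filter.cofinite_inf_principal_neBot_iff.2 hinf
    let U := Ultrafilter.of (cofinite ⊓ 𝓟 {k | k :: t ∈ (R t).N})
    have hU : (U : Filter ℕ) ≤ cofinite ⊓ 𝓟 {k | k :: t ∈ (R t).N} := Ultrafilter.of_le _
    have h1 : ∀ n, ∃ v, ∀ᶠ k in U, w (k :: t) n = v := fun n => by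
      have : ∀ᶠ k in U, ∃ v ∈ (univ : Set (Fin (b n + 1))), w (k :: t) n = v :=
        Eventually.of_forall fun k => ⟨_, trivial, rfl⟩
      obtain ⟨v, -, hv⟩ := (Ultrafilter.eventually_exists_mem_iff Set.finite_univ).1 this
      exact ⟨v, hv⟩
    choose x hx using h1
    have h2 : ∀ j, ∃ k, (j ≤ k ∧ k :: t ∈ (R t).N) ∧ ∀ n ∈ Set.Iio j, w (k :: t) n = x n := by
      intro j
      refine (Eventually.and (Eventually.and ?_ ?_) ?_ : ∀ᶠ k in U, _).exists
      · refine (hU.trans inf_le_left) ?_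
        rw [Nat.cofinite_eq_atTop]
        exact eventually_ge_atTop j
      · exact (hU.trans inf_le_right) (mem_principal_self _)
      · exact (eventually_all_finite (Set.finite_Iio j)).2 fun n _ => hx n
    choose K hK1 hK2 using h2
    exact ⟨K, fun _ => ⟨hK1, fun n j h => (hK2 j n h).trans
      (hK2 (n + 1) n (Nat.lt_succ_self n)).symm⟩⟩
  choose K hK using hK
  have hf : ∀ n, ∃ v < b n, ∀ t j, m t ≤ n → j ≤ n + 1 → (w (K t j :: t) n : ℕ) ≠ v := by
    intro n
    let S : Finset ℕ := (Finset.range (n + 1) ×ˢ Finset.range (n + 2)).image fun aj =>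
      (w (K (Denumerable.ofNat (List ℕ) aj.1) aj.2 :: Denumerable.ofNat (List ℕ) aj.1) n : ℕ)
    have h1 : S.card < (Finset.range (b n)).card := by
      refine Finset.card_image_le.trans_lt ?_
      simp [b]
    obtain ⟨v, hv, hvS⟩ := Finset.exists_mem_notMem_of_card_lt_card h1
    refine ⟨v, Finset.mem_range.1 hv, fun t j ht hj h => hvS ?_⟩
    refine Finset.mem_image.2 ⟨(m t, j), by simp; omega, ?_⟩
    simpa [m] using h
  choose f hfb hf using hf
  let G : List ℕ → Prop := fun u => ((R u).s = u ∧ R u ≤ p) ∧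
    (u = p.s ∨ ∃ j t, u = K t j :: t ∧ R u ≤ R t)
  have hG0 : G p.s := ⟨⟨(hFs _ _).trans (by rw [hQs]), (hF _ _).trans (by rw [hQs])⟩, Or.inl rfl⟩
  have hG1 : ∀ t ∈ p.N, G t → {k | k :: t ∈ p.N ∧ G (k :: t)}.Infinite := by
    intro t ht hG
    obtain ⟨h1, -⟩ := hK t hG.1.1
    refine Set.infinite_of_forall_exists_gt fun j => ⟨K t (j + 1), ?_, (h1 (j + 1)).1⟩
    have h2 := (h1 (j + 1)).2
    have h3 := hQc _ t (p.suf t ht) h2
    have h4 : R (K t (j + 1) :: t) ≤ R t := (hF _ _).trans (by rw [h3]; exact Lav.res_le _ _ _)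
    exact ⟨hG.1.2 h2, ⟨(hFs _ _).trans (by rw [h3]; rfl), h4.trans hG.1.2⟩,
      Or.inr ⟨j + 1, t, rfl, h4⟩⟩
  let q := p.thin G hG0 hG1
  have hqG : ∀ u ∈ q.N, G u := fun u hu => hu.2 u (p.suf u hu.1) List.suffix_rfl
  have hstep : ∀ k t, k :: t ∈ q.N → k :: t ≠ p.s →
      t ∈ q.N ∧ R (k :: t) ≤ R t ∧ ∃ j, k = K t j := by
    intro k t h hne
    rcases (hqG _ h).2 with h1 | ⟨j, t', h1, h2⟩
    · exact absurd h1 hne
    · obtain ⟨rfl, rfl⟩ := List.cons.inj h1
      refine ⟨?_, h2, j, rfl⟩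
      rcases q.down _ h with h3 | ⟨k', t'', h3, h4⟩
      · exact absurd h3 hne
      · exact (List.cons.inj h3).2 ▸ h4
  have hgood : ∀ n, m p.s ≤ n → ∀ u ∈ q.N, n < m u → ∀ r ≤ R u, ¬ (c n).D r (f n) := by
    intro n hn u
    induction u with
    | nil =>
      intro hu h
      have := List.suffix_nil.1 (p.suf _ hu.1)
      rw [this] at hn; omega
    | cons k t ih =>
      intro hu h r hr hD
      have hne : k :: t ≠ p.s := fun h2 => by rw [h2] at h; omega
      obtain ⟨h1, h2, j, rfl⟩ := hstep k t hu hne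
      by_cases h3 : n < m t
      · exact ih h1 h3 r (hr.trans h2) hD
      · have h4 := hW _ _ n h r hr _ hD
        have h5 := hfb n
        have h6 : (w (K t j :: t) n : ℕ) = f n := by
          change _ = (w (K t j :: t) n : ℕ) at h4
          omega
        rcases le_or_gt j n with h7 | h7
        · exact hf n t j (not_lt.1 h3) (by omega) h6
        · rw [(hK t (hqG t h1).1.1).2 n j h7] at h6
          exact hf n t (n + 1) (not_lt.1 h3) le_rfl h6
  obtain ⟨r, hr, n, hn, hD⟩ := hc f (m p.s) q (fun _ h => h.1)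
  have h1 : ∃ k, k :: r.s ∈ r.N ∧ n < m (k :: r.s) := by
    by_contra h
    push Not at h
    refine r.succ _ r.stem (Set.Finite.of_finite_image (f := fun k => m (k :: r.s))
      ((Set.finite_Iic n).subset ?_) ?_)
    · rintro _ ⟨k, hk, rfl⟩; exact h k hk
    · intro k _ k' _ h'
      exact (List.cons.inj (Encodable.encode_injective h')).1
  obtain ⟨k, hk, hn'⟩ := h1
  refine hgood n hn _ (hr hk) hn' (r.res _ hk) ?_ ((c n).mono (r.res_le _ _) hD)
  have h2 : ∀ v ∈ (r.res _ hk).N, R v ≤ R (k :: r.s) := by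
    intro v
    induction v with
    | nil => intro hv; exact absurd (List.suffix_nil.1 hv.2) (by simp)
    | cons i v ih =>
      intro hv
      rcases (r.res _ hk).down _ hv with h | ⟨i', v', h, h'⟩
      · rw [h]; exact le_rfl
      · obtain ⟨rfl, rfl⟩ := List.cons.inj h
        refine (hstep i v (hr hv.1) fun h3 => ?_).2.1.trans (ih h')
        have := (p.suf _ (hr h'.1).1).length_le
        rw [← h3] at this
        simp at this
  intro v hv
  exact h2 v hv (by have := (R v).stem; rwa [(hqG v (hr hv.1)).1.1] at this)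

end Pool.Agent.H42.Half3
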