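import Mathlib

namespace Pool.Agent.H42.HalfDefs

/-- A nice name for a natural number over the forcing `P` (smaller conditions are stronger):
`D p k` says that `p` decides the value `k`. -/
structure NName (P : Type) [Preorder P] where
  D : P → ℕ → Prop
  mono : ∀ {p q : P} {k : ℕ}, q ≤ p → D p k → D q k
  uniq : ∀ {p : P} {k j : ℕ}, D p k → D p j → k = j
  dense : ∀ p : P, ∃ q ≤ p, ∃ k, D q k

/-- Some condition forces that the real named by `c` agrees infinitely often with every
ground-model real. -/
def AddsHC (P : Type) [Preorder P] : Prop :=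
  ∃ (c : ℕ → NName P) (p₀ : P), ∀ (f : ℕ → ℕ) (m : ℕ), ∀ p ≤ p₀, ∃ q ≤ p, ∃ n ≥ m,
    (c n).D q (f n)

/-- A `P`-name for a preorder on the ground-model set `X`: `le p x y` says that `p` forces
`x ≤ y`. -/
structure PName (P X : Type) [Preorder P] where
  le : P → X → X → Prop
  mono : ∀ {p q : P} {x y : X}, q ≤ p → le p x y → le q x y
  reg : ∀ {p : P} {x y : X}, (∀ q ≤ p, ∃ r ≤ q, le r x y) → le p x y
  refl : ∀ (p : P) (x : X), le p x x
  trans : ∀ {p : P} {x y z : X}, le p x y → le p y z → le p x z

/-- The two-step iteration of `P` and the name `Q`. -/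
structure Iter {P X : Type} [Preorder P] (Q : PName P X) where
  fst : P
  snd : X

instance {P X : Type} [Preorder P] (Q : PName P X) : Preorder (Iter Q) where
  le r s := r.fst ≤ s.fst ∧ Q.le r.fst r.snd s.snd
  le_refl r := ⟨le_rfl, Q.refl _ _⟩
  le_trans _ _ _ h h' := ⟨h.1.trans h'.1, Q.trans h.2 (Q.mono h.1 h'.2)⟩

/-- `P` forces that `Q` adds no half-Cohen real over the intermediate model: every real of
the final model is densely often forced to be eventually different from a real with a
`P`-name. -/
def ForcesNoHC {P X : Type} [Preorder P] (Q : PName P X) : Prop :=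
  ∀ (c : ℕ → NName (Iter Q)) (r : Iter Q), ∃ r' ≤ r, ∃ (f : ℕ → NName P) (m : ℕ),
    ∀ s ≤ r', ∀ n ≥ m, ∀ k, (c n).D s k → ¬ (f n).D s.fst k

end Pool.Agent.H42.HalfDefs
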