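import Mathlib

/-! A dimension zero set whose translates by few reals cover an interval. -/

namespace Pool.Agent.H42.Hdz

open Set Cardinal Filter Topology MeasureTheory ENNReal NNReal

/-- the pseudo-intersection number -/
noncomputable def pNum : Cardinal.{0} :=
  sInf {c | ∃ F : Set (Set ℕ), #F = c ∧ (∀ A ∈ F, A.Infinite) ∧
    (∀ G ⊆ F, G.Finite → (⋂₀ G).Infinite) ∧ ¬ ∃ B : Set ℕ, B.Infinite ∧ ∀ A ∈ F, (B \ A).Finite}

/-- the least size of a family `F ⊆ ∏ b` such that every `z ∈ ∏ b` agrees infinitely often with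
some member of `F` (the anti-localization number `𝔟^{aLc}_{b,1}`) -/
noncomputable def aLc (b : ℕ → ℕ) : Cardinal.{0} :=
  sInf {c | ∃ F : Set (ℕ → ℕ), #F = c ∧ (∀ f ∈ F, ∀ n, f n < b n) ∧
    ∀ z : ℕ → ℕ, (∀ n, z n < b n) → ∃ f ∈ F, ∃ᶠ n in atTop, f n = z n}

def N : ℕ → ℕ
  | 0 => 1
  | n + 1 => N n * (2 * ((2 * N n + 1) * 2 ^ n) ^ (n + 1))

def b (n : ℕ) : ℕ := 2 * ((2 * N n + 1) * 2 ^ n) ^ (n + 1)

theorem b_pos (n) : 0 < b n := by unfold b; positivity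

theorem N_succ (n) : N (n + 1) = N n * b n := rfl

theorem N_pos (n) : 0 < N n := by
  induction n with
  | zero => decide
  | succ n ih => exact Nat.mul_pos ih (b_pos n)

def J (n : ℕ) (q : ℤ) : Set ℝ := Icc (q / N n - 1 / N (n + 1)) (q / N n + 1 / N (n + 1))

def Y : Set ℝ := {y | ∃ᶠ n in atTop, ∃ q ∈ Finset.Icc (-(N n : ℤ)) (N n), y ∈ J n q}

theorem diam_J (n q) : Metric.ediam (J n q) ≤ ((((2 * N n + 1) * 2 ^ n : ℕ) : ℝ≥0∞)⁻¹) ^ (n + 1) := by
  rw [J, Real.ediam_Icc, ← ENNReal.inv_pow, ← Nat.cast_pow, ← ENNReal.ofReal_natCast,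
    ← ENNReal.ofReal_inv_of_pos (by positivity)]
  refine ENNReal.ofReal_le_ofReal ?_
  have h1 : (1 : ℝ) ≤ N n := by exact_mod_cast N_pos n
  have h2 : (0 : ℝ) < (((2 * N n + 1) * 2 ^ n) ^ (n + 1) : ℕ) := by positivity
  have h3 : (N (n + 1) : ℝ) = N n * (2 * (((2 * N n + 1) * 2 ^ n) ^ (n + 1) : ℕ)) := by
    rw [N]; push_cast; ring
  rw [h3]
  generalize ((((2 * N n + 1) * 2 ^ n) ^ (n + 1) : ℕ) : ℝ) = c at *
  rw [show ∀ u v : ℝ, u + v - (u - v) = 2 * v by intros; ring, mul_one_div, div_le_iff₀ (by positivity)]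
  field_simp
  linarith

theorem dim_Y : dimH Y = 0 := by
  refine le_antisymm (dimH_le fun d hd => ?_) bot_le
  by_contra h
  have h0 : (0 : ℝ) < d := by simpa [pos_iff_ne_zero] using h
  have hc : ∀ n, (1 : ℝ≥0∞) ≤ (((2 * N n + 1) * 2 ^ n : ℕ) : ℝ≥0∞) := fun n => by
    exact_mod_cast Nat.one_le_iff_ne_zero.2 (by positivity)
  have hc2 : ∀ n, ((((2 * N n + 1) * 2 ^ n : ℕ) : ℝ≥0∞)⁻¹) ≤ 2⁻¹ ^ n := fun n => by
    rw [← ENNReal.inv_pow]
    exact ENNReal.inv_le_inv.2 (by exact_mod_cast Nat.le_mul_of_pos_left _ (by omega))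
  have := Measure.hausdorffMeasure_le_liminf_tsum d Y (l := atTop)
    (ι := fun _ => Σ n : ℕ, Finset.Icc (-(N n : ℤ)) (N n)) (fun M => 2⁻¹ ^ M)
    (ENNReal.tendsto_pow_atTop_nhds_zero_of_lt_one (by norm_num))
    (fun M i => if M ≤ i.1 then J i.1 i.2 else ∅) (.of_forall fun M i => by
      split_ifs with a
      · refine (diam_J _ _).trans ((pow_le_of_le_one bot_le (ENNReal.inv_le_one.2 (hc _))
          (by omega)).trans ((hc2 _).trans (pow_le_pow_of_le_one bot_le (by norm_num) a)))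
      · simp) (.of_forall fun M y a => by
      obtain ⟨n, c, q, e, f⟩ := frequently_atTop.1 a M
      exact mem_iUnion.2 ⟨⟨n, q, e⟩, by simpa [c] using f⟩)
  rw [hd] at this
  obtain ⟨K, hK⟩ := exists_nat_gt (1 / (d : ℝ))
  refine (this.trans (liminf_le_of_frequently_le' (x := ∑' n : ℕ, 2⁻¹ ^ n)
    ((eventually_ge_atTop K).mono fun M a => ?_).frequently)).not_gt (by simp [ENNReal.tsum_geometric])
  rw [ENNReal.tsum_sigma']
  refine ENNReal.tsum_le_tsum fun n => ?_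
  by_cases c : M ≤ n
  · simp only [if_pos c]
    refine (ENNReal.tsum_le_tsum fun q : Finset.Icc (-(N n : ℤ)) (N n) =>
      (ENNReal.rpow_le_rpow (diam_J n q) h0.le).trans
      (?_ : _ ≤ (((2 * N n + 1) * 2 ^ n : ℕ) : ℝ≥0∞)⁻¹)).trans ?_
    · rw [← ENNReal.rpow_natCast, ← ENNReal.rpow_mul]
      refine (ENNReal.rpow_le_rpow_of_exponent_ge (ENNReal.inv_le_one.2 (hc _)) (?_ : (1 : ℝ) ≤ _)).trans_eq
        (ENNReal.rpow_one _)
      rw [div_lt_iff₀ h0] at hK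
      have : (K : ℝ) ≤ (n + 1 : ℕ) := by exact_mod_cast (a.trans c).trans n.le_succ
      nlinarith
    · rw [tsum_fintype, Finset.sum_const, Finset.card_univ, Fintype.card_coe, Int.card_Icc,
        show ((N n : ℤ) + 1 - -(N n : ℤ)).toNat = 2 * N n + 1 by omega, nsmul_eq_mul, Nat.cast_mul,
        ENNReal.mul_inv (by simp) (by simp), ← mul_assoc, ENNReal.mul_inv_cancel (by simp) (ENNReal.natCast_ne_top _),
        one_mul, ← ENNReal.inv_pow]
      simp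
  · simp [if_neg c, h0]

theorem ex_real {f : ℕ → ℕ} (hf : ∀ n, f n < b n) : ∃ x ∈ Icc (0 : ℝ) 1, ∀ n, ∃ a : ℕ,
    (a * b n + f n : ℝ) ≤ x * N (n + 1) ∧ x * N (n + 1) ≤ a * b n + f n + 1 := by
  obtain ⟨a, a0, ha0⟩ : ∃ a : ℕ → ℕ, a 0 = 0 ∧ ∀ n, a (n + 1) = a n * b n + f n :=
    ⟨fun n => n.rec 0 fun n x => x * b n + f n, rfl, fun _ => rfl⟩
  have ha : ∀ n : ℕ, (a (n + 1) : ℝ) = a n * b n + f n := fun n => by exact_mod_cast ha0 n
  have hN : ∀ n, (0 : ℝ) < N n := fun n => by exact_mod_cast N_pos n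
  have hb : ∀ n, (0 : ℝ) < b n := fun n => by exact_mod_cast b_pos n
  have h1 : Monotone fun n => (a n / N n : ℝ) := monotone_nat_of_le_succ fun n => by
    rw [ha, N_succ, Nat.cast_mul, div_le_div_iff₀ (hN n) (mul_pos (hN n) (hb n))]
    have : (0 : ℝ) ≤ f n := by positivity
    nlinarith [hN n]
  have h2 : Antitone fun n => ((a n + 1) / N n : ℝ) := antitone_nat_of_succ_le fun n => by
    rw [ha, N_succ, Nat.cast_mul, div_le_div_iff₀ (mul_pos (hN n) (hb n)) (hN n)]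
    have : (f n + 1 : ℝ) ≤ b n := by exact_mod_cast hf n
    nlinarith [hN n]
  have h3 := mem_iInter.1 (h1.ciSup_mem_iInter_Icc_of_antitone h2 fun n =>
    div_le_div_of_nonneg_right (by linarith) (hN n).le)
  refine ⟨_, by simpa [a0, N] using h3 0, fun n => ⟨a n, ?_⟩⟩
  rw [← ha, ← div_le_iff₀ (hN _), ← le_div_iff₀ (hN _)]
  exact h3 (n + 1)

theorem main : ∃ X : Set ℝ, #X ≤ aLc b ∧ 1 ≤ dimH (X ×ˢ Y) := by
  obtain ⟨F, h1, h2, h3⟩ := csInf_mem (s := {c | ∃ F : Set (ℕ → ℕ), #F = c ∧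
    (∀ f ∈ F, ∀ n, f n < b n) ∧
    ∀ z : ℕ → ℕ, (∀ n, z n < b n) → ∃ f ∈ F, ∃ᶠ n in atTop, f n = z n})
    ⟨_, {f | ∀ n, f n < b n}, rfl, fun _ => id, fun z a => ⟨z, a, .of_forall fun _ => rfl⟩⟩
  choose x hx hx' using fun f : F => ex_real (h2 _ f.2)
  refine ⟨range x, mk_range_le.trans h1.le, ?_⟩
  have h4 : Ico (0 : ℝ) 1 ⊆ (fun p : ℝ × ℝ => p.1 + p.2) '' (range x ×ˢ Y) := fun z hz => by
    obtain ⟨f, a, c⟩ := h3 (fun n => ⌊z * N (n + 1)⌋₊ % b n) fun n => Nat.mod_lt _ (b_pos n)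
    refine ⟨(x ⟨f, a⟩, z - x ⟨f, a⟩), ⟨⟨_, rfl⟩, c.mono fun n d => ?_⟩, by simp⟩
    obtain ⟨k, e1, e2⟩ := hx' ⟨f, a⟩ n
    have hN : (0 : ℝ) < N n := by exact_mod_cast N_pos n
    have hb : (2 : ℝ) ≤ b n := by
      exact_mod_cast Nat.le_mul_of_pos_right 2 (by positivity)
    have e3 := Nat.floor_le (a := z * N (n + 1)) (mul_nonneg hz.1 (by positivity))
    have e4 := Nat.lt_floor_add_one (z * N (n + 1))
    have e5 := congrArg (Nat.cast : ℕ → ℝ) (Nat.div_add_mod ⌊z * N (n + 1)⌋₊ (b n))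
    rw [← d] at e5
    push_cast at e5
    generalize ⌊z * N (n + 1)⌋₊ / b n = q at e5
    rw [← e5] at e3 e4
    simp only [N_succ, Nat.cast_mul] at e1 e2 e3 e4 e5
    have e6 := hx ⟨f, a⟩
    set u := x ⟨f, a⟩
    have e7 : z * (N n * b n) ≤ N n * b n := mul_le_of_le_one_left (by positivity) hz.2.le
    have e8 : u * (N n * b n) ≤ N n * b n := mul_le_of_le_one_left (by positivity) e6.2
    have e9 : (0 : ℝ) ≤ f n := by positivity
    have q1 : (q : ℝ) ≤ N n := le_of_mul_le_mul_right (by nlinarith) (by linarith : (0 : ℝ) < b n)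
    have q2 : (k : ℝ) ≤ N n := le_of_mul_le_mul_right (by nlinarith) (by linarith : (0 : ℝ) < b n)
    refine ⟨q - k, Finset.mem_Icc.2 ⟨by have : k ≤ N n := by exact_mod_cast q2
                                        omega, by have : q ≤ N n := by exact_mod_cast q1
                                                  omega⟩, ?_, ?_⟩
    · rw [N_succ, Nat.cast_mul, div_sub_div _ _ hN.ne' (by positivity), div_le_iff₀ (by positivity)]
      push_cast
      nlinarith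
    · rw [N_succ, Nat.cast_mul, div_add_div _ _ hN.ne' (by positivity), le_div_iff₀ (by positivity)]
      push_cast
      nlinarith
  have h5 : LipschitzWith (1 + 1) fun p : ℝ × ℝ => p.1 + p.2 :=
    LipschitzWith.prod_fst.add LipschitzWith.prod_snd
  refine le_trans ?_ ((dimH_mono h4).trans (h5.dimH_image_le _))
  rw [Real.dimH_of_nonempty_interior (by simp)]
  simp

/-- `C` witnesses that the preorder `P` is `σ`-centered -/
def Centered {P : Type} [Preorder P] (C : ℕ → Set P) : Prop :=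
  (∀ p, ∃ k, p ∈ C k) ∧ ∀ k, ∀ T ⊆ C k, T.Finite → ∃ r, ∀ p ∈ T, r ≤ p

theorem good {P : Type} [Preorder P] {C : ℕ → Set P} (hC : Centered C) (c : ℕ → ℕ)
    (D : ℕ → P → ℕ → Prop) (hD : ∀ n p, ∃ q ≤ p, ∃ v < c n, D n q v) :
    ∃ y : ℕ → ℕ → ℕ, (∀ k n, y k n < c n) ∧ ∀ f : ℕ → ℕ, (∀ k, ∃ᶠ n in atTop, f n = y k n) →
      ∀ p M, ∃ q ≤ p, ∃ n ≥ M, D n q (f n) := by
  have : ∀ k n, ∃ v < c n, ∀ p ∈ C k, ∃ q ≤ p, D n q v := fun k n => by
    by_contra h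
    push Not at h
    choose p h1 h2 using fun v : Fin (c n) => h v v.2
    obtain ⟨r, hr⟩ := hC.2 k (range p) (by rintro _ ⟨v, rfl⟩; exact h1 v) (finite_range p)
    obtain ⟨q, a, v, d, e⟩ := hD n r
    exact h2 ⟨v, d⟩ q (a.trans (hr _ ⟨_, rfl⟩)) e
  choose y h1 h2 using this
  refine ⟨y, h1, fun f hf p M => ?_⟩
  obtain ⟨k, a⟩ := hC.1 p
  obtain ⟨n, d, e⟩ := frequently_atTop.1 (hf k) M
  obtain ⟨q, g, i⟩ := h2 k n p a
  exact ⟨q, g, n, d, e ▸ i⟩

end Pool.Agent.H42.Hdz
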