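import Pool.Agent.H42.HfcDefs

/-! Every HFC space is strongly D. -/

namespace Pool.Agent.H42.Hfc1

open Set Filter Topology Pool.Agent.H42.HfcDefs

variable {L : Type*} [LinearOrder L] {X : Set (L → Bool)}

/-- `x ∈ [p] ∩ [F * b] ⊆ U x`. -/
def Typ (U : X → Set X) (p : Set (L × Bool)) {n : ℕ} (b : Fin n → Bool) (x : X)
    (F : Fin n ↪o L) : Prop :=
  (∀ q ∈ p, x.1 q.1 = q.2) ∧ (∀ i, x.1 (F i) = b i) ∧
    ∀ y : X, (∀ q ∈ p, y.1 q.1 = q.2) → (∀ i, y.1 (F i) = b i) → y ∈ U x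

theorem step (hX : HFC X) (U : X → Set X) (Y A : Set X) (hA : A.Countable) (hAY : A ⊆ Y)
    (p : Set (L × Bool)) {n : ℕ} (b : Fin n → Bool) :
    ∃ (D : Set X) (H : Set L) (C : Set X), D ⊆ Y ∧ D.Countable ∧ (∀ a ∈ A, (U a ∩ D).Finite) ∧
      H.Countable ∧ C.Countable ∧ ∀ x ∈ Y, ∀ F, Typ U p b x F → Disjoint (range F) H →
        (x ∉ C ∨ n = 0) → x ∈ ⋃ d ∈ D, U d := by
  classical
  by_cases h : ∃ (G : Set X) (H : Set L), G.Finite ∧ G ⊆ Y ∧ H.Finite ∧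
      ∀ x ∈ Y, ∀ F, Typ U p b x F → Disjoint (range F) H → x ∈ ⋃ d ∈ G, U d
  · obtain ⟨G, H, h1, h2, h3, h4⟩ := h
    exact ⟨G, H, ∅, h2, h1.countable, fun a _ => h1.inter_of_right _, h3.countable,
      countable_empty, fun x hx F a b _ => h4 x hx F a b⟩
  push Not at h
  obtain ⟨x0, h0, -⟩ := h ∅ ∅ finite_empty (empty_subset _) finite_empty
  obtain ⟨a, ha⟩ := (hA.insert x0).exists_eq_range (insert_nonempty _ _)
  have haY : ∀ i, a i ∈ Y := fun i => insert_subset h0 hAY (ha ▸ mem_range_self i)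
  obtain ⟨f, f1, f2⟩ := exists_seq_of_forall_finset_exists
    (fun t : ℕ × X × (Fin n ↪o L) => t.2.1 ∈ Y ∧ Typ U p b t.2.1 t.2.2 ∧ ∀ i < t.1, t.2.1 ∉ U (a i))
    (fun t t' => t.1 < t'.1 ∧ t'.2.1 ∉ U t.2.1 ∧ Disjoint (range t.2.2) (range t'.2.2))
    fun s hs => by
      obtain ⟨x, h1, F, h2, h3, h4⟩ := h (a '' Iio (s.sup Prod.fst + 1) ∪
        (fun t : ℕ × X × (Fin n ↪o L) => t.2.1) '' s)
        (⋃ t ∈ s, range t.2.2) (((finite_Iio _).image _).union (s.finite_toSet.image _))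
        (union_subset (image_subset_iff.2 fun i _ => haY i) (image_subset_iff.2 fun t ht => (hs t ht).1))
        (s.finite_toSet.biUnion fun _ _ => finite_range _)
      exact ⟨(s.sup Prod.fst + 1, x, F), ⟨h1, h2, fun i hi c => h4 (mem_biUnion (Or.inl ⟨i, hi, rfl⟩) c)⟩,
        fun t ht => ⟨Nat.lt_succ_of_le (Finset.le_sup (f := Prod.fst) ht),
          fun c => h4 (mem_biUnion (Or.inr ⟨t, ht, rfl⟩) c),
          (h3.mono_right (subset_biUnion_of_mem (u := fun t : ℕ × X × (Fin n ↪o L) => range t.2.2)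
            ht)).symm⟩⟩
  have hm : StrictMono fun m => (f m).1 := fun m k h => (f2 m k h).1
  have hi : Function.Injective fun m => (f m).2.2 := fun m k e => by
    have key : ∀ m k, m < k → (f m).2.2 ≠ (f k).2.2 := fun m k h e =>
      (f2 m k h).2.1 ((f1 m).2.1.2.2 _ (f1 k).2.1.1 (e ▸ (f1 k).2.1.2.1))
    rcases lt_trichotomy m k with c | c | c
    exacts [absurd e (key _ _ c), c, absurd e.symm (key _ _ c)]
  have hc := hX n b _ (infinite_range_of_injective hi) (by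
    rintro _ ⟨m, rfl⟩ _ ⟨k, rfl⟩ e
    rcases lt_trichotomy m k with c | c | c
    exacts [(f2 _ _ c).2.2, absurd (c ▸ rfl) e, (f2 _ _ c).2.2.symm])
  refine ⟨range fun m => (f m).2.1, ∅, _, range_subset_iff.2 fun m => (f1 m).1, countable_range _,
    fun c hc => ?_, countable_empty, hc.preimage Subtype.val_injective, fun x hx F h1 _ h2 => ?_⟩
  · obtain ⟨i, rfl⟩ : c ∈ range a := ha ▸ mem_insert_of_mem _ hc
    refine ((finite_Iic i).image fun m => (f m).2.1).subset ?_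
    rintro _ ⟨h1, m, rfl⟩
    exact ⟨m, not_lt.1 fun c => (f1 m).2.2 i (c.trans_le (hm.id_le m)) h1, rfl⟩
  · have : ∃ m, ∀ i, x.1 ((f m).2.2 i) = b i := by
      rcases h2 with h2 | rfl
      · by_contra c
        refine h2 ⟨x.2, fun e => ?_⟩
        obtain ⟨_, ⟨m, rfl⟩, e⟩ := mem_iUnion₂.1 e
        exact c ⟨m, e⟩
      · exact ⟨0, fun i => i.elim0⟩
    obtain ⟨m, e⟩ := this
    exact mem_biUnion (mem_range_self m) ((f1 m).2.1.2.2 x h1.1 e)

/-- Bookkeeping recursion. -/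
noncomputable def seq {σ τ : Type*} (s0 : σ) (st : σ → τ → σ) (e : σ → ℕ → τ) : ℕ → σ
  | 0 => s0
  | k + 1 => st (seq s0 st e k) (e (seq s0 st e k.unpair.1) k.unpair.2)
decreasing_by
  all_goals first | exact Nat.lt_succ_of_le (Nat.unpair_left_le k) | exact Nat.lt_succ_self k

theorem closing (U : X → Set X) (hU : ∀ x, IsOpen (U x) ∧ x ∈ U x) (Y : Set X)
    (P : Set X → Set X → Prop)
    (hs : ∀ (D : Set X) (p : Set (L × Bool)) (n : ℕ) (b : Fin n → Bool),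
      ∃ (D' : Set X) (H : Set L) (C : Set X), P D D' ∧ H.Countable ∧ C.Countable ∧
      ∀ x ∈ Y, x ∉ ⋃ d ∈ D, U d → ∀ F, Typ U p b x F → Disjoint (range F) H →
        (x ∉ C ∨ n = 0) → x ∈ ⋃ d ∈ D', U d) :
    ∃ D D' : ℕ → Set X, D 0 = ∅ ∧ (∀ k, D (k + 1) = D k ∪ D' k) ∧ (∀ k, P (D k) (D' k)) ∧
      Y ⊆ ⋃ d ∈ ⋃ k, D k, U d := by
  classical
  have hS : ∀ x : X, ∃ S : Finset L, ∀ y : X, (∀ i ∈ S, y.1 i = x.1 i) → y ∈ U x := fun x => by
    obtain ⟨V, hV, hVU⟩ := (mem_nhds_subtype _ _ _).1 ((hU x).1.mem_nhds (hU x).2)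
    rw [nhds_pi, Filter.mem_pi'] at hV
    obtain ⟨I, v, hv, hI⟩ := hV
    exact ⟨I, fun y hy => hVU (hI fun i hi => hy i hi ▸ mem_of_mem_nhds (hv i))⟩
  choose S hS using hS
  choose D' H C h1 h2 h3 h4 using hs
  have he : ∀ K : Set L, ∃ e : ℕ → Set (L × Bool) × Σ n, Fin n → Bool, K.Countable →
      ∀ t : Set (L × Bool) × Σ n, Fin n → Bool, t.1.Finite → t.1 ⊆ K ×ˢ univ → t ∈ range e := fun K => by
    by_cases hK : K.Countable
    · obtain ⟨e, he⟩ := ((countable_ofPred_finite_subset (hK.prod (countable_univ (α := Bool)))).prod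
        (countable_univ (α := Σ n, Fin n → Bool))).exists_eq_range
        ⟨(∅, ⟨0, fun _ => true⟩), ⟨finite_empty, empty_subset _⟩, trivial⟩
      exact ⟨e, fun _ t a b => he ▸ ⟨⟨a, b⟩, trivial⟩⟩
    · exact ⟨fun _ => (∅, ⟨0, fun _ => true⟩), fun c => absurd c hK⟩
  choose e he using he
  let s := seq (σ := Set X × Set L) (∅, ∅) (fun s (t : Set (L × Bool) × Σ n, Fin n → Bool) =>
    (s.1 ∪ D' s.1 t.1 t.2.1 t.2.2, s.2 ∪ (H s.1 t.1 t.2.1 t.2.2 ∪ ⋃ c ∈ C s.1 t.1 t.2.1 t.2.2, S c)))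
    fun s => e s.2
  let t := fun k : ℕ => e (s k.unpair.1).2 k.unpair.2
  have s0 : s 0 = (∅, ∅) := by simp only [s, seq]
  have s1 : ∀ k, s (k + 1) = ((s k).1 ∪ D' (s k).1 (t k).1 (t k).2.1 (t k).2.2,
      (s k).2 ∪ (H (s k).1 (t k).1 (t k).2.1 (t k).2.2 ∪
        ⋃ c ∈ C (s k).1 (t k).1 (t k).2.1 (t k).2.2, S c)) := fun k => by
    simp only [s, t]; rw [seq]
  have sc : ∀ k, (s k).2.Countable := fun k => by
    induction k with
    | zero => rw [s0]; exact countable_empty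
    | succ k ih =>
      rw [s1]
      exact ih.union ((h2 ..).union ((h3 ..).biUnion fun c _ => (S c).countable_toSet))
  have sm : Monotone fun k => (s k).2 := monotone_nat_of_le_succ fun k => by
    rw [s1]; exact subset_union_left
  refine ⟨fun k => (s k).1, fun k => D' (s k).1 (t k).1 (t k).2.1 (t k).2.2, congrArg Prod.fst s0,
    fun k => congrArg Prod.fst (s1 k), fun k => h1 .., fun x hx => by_contra fun hc => ?_⟩
  let K := ⋃ k, (s k).2
  let R := (S x).filter (· ∉ K)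
  let F := R.orderEmbOfFin rfl
  have hF : range F = R := R.range_orderEmbOfFin rfl
  obtain ⟨i, hi⟩ : ∃ i, (S x : Set L) ∩ K ⊆ (s i).2 := by
    obtain ⟨i, hi⟩ := sm.directed_le.exists_mem_subset_of_finset_subset_biUnion
      (s := (S x).filter (· ∈ K)) fun l hl => (Finset.mem_filter.1 hl).2
    exact ⟨i, fun l hl => hi (Finset.mem_filter.2 hl)⟩
  obtain ⟨j, hj⟩ := he _ (sc i) ((fun l => (l, x.1 l)) '' (S x ∩ K), ⟨_, fun m => x.1 (F m)⟩)
    (((S x).finite_toSet.inter_of_left _).image _) (image_subset_iff.2 fun l hl => ⟨hi hl, trivial⟩)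
  have ht : t (Nat.pair i j) = _ := (by simp only [t, Nat.unpair_pair] : _ = _).trans hj
  have k1 := s1 (Nat.pair i j)
  rw [ht] at k1
  have hH := subset_union_right.trans ((congrArg Prod.snd k1).ge.trans
    (subset_iUnion (fun k => (s k).2) _))
  have := h4 (s (Nat.pair i j)).1 ((fun l => (l, x.1 l)) '' (S x ∩ K)) _ (fun m => x.1 (F m)) x hx
    (fun c => hc (biUnion_subset_biUnion_left (subset_iUnion (fun k => (s k).1) _) c)) F
    ⟨by rintro _ ⟨l, -, rfl⟩; rfl, fun _ => rfl, fun y a b => hS x y fun l hl => by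
      by_cases c : l ∈ K
      · exact a _ ⟨l, ⟨hl, c⟩, rfl⟩
      · obtain ⟨m, rfl⟩ : l ∈ range F := hF ▸ Finset.mem_filter.2 ⟨hl, c⟩
        exact b m⟩
    (hF ▸ disjoint_left.2 fun l hl c => (Finset.mem_filter.1 hl).2 (hH (Or.inl c)))
    (or_iff_not_imp_left.2 fun c => Finset.card_eq_zero.2 (Finset.filter_eq_empty_iff.2 fun l hl c' =>
      c' (hH (Or.inr (mem_biUnion (not_not.1 c) hl)))))
  exact hc (biUnion_subset_biUnion_left ((subset_union_right.trans (congrArg Prod.fst k1).ge).trans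
    (subset_iUnion (fun k => (s k).1) _)) this)

theorem lind (hX : HFC X) (U : X → Set X) (hU : ∀ x, IsOpen (U x) ∧ x ∈ U x) (Y : Set X) :
    ∃ A ⊆ Y, A.Countable ∧ Y ⊆ ⋃ a ∈ A, U a := by
  obtain ⟨D, D', h0, h1, h2, h3⟩ := closing U hU Y (fun _ D' => D' ⊆ Y ∧ D'.Countable)
    fun D p n b => by
      obtain ⟨D', H, C, a1, a2, -, a3, a4, a5⟩ := step hX U Y ∅ countable_empty (empty_subset _) p b
      exact ⟨D', H, C, ⟨a1, a2⟩, a3, a4, fun x hx _ => a5 x hx⟩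
  have : ∀ k, D k ⊆ Y ∧ (D k).Countable := fun k => by
    induction k with
    | zero => exact h0 ▸ ⟨empty_subset _, countable_empty⟩
    | succ k ih => exact h1 k ▸ ⟨union_subset ih.1 (h2 k).1, ih.2.union (h2 k).2⟩
  exact ⟨_, iUnion_subset fun k => (this k).1, countable_iUnion fun k => (this k).2, h3⟩

theorem strong (hX : HFC X) : StronglyD X := fun U hU => by
  obtain ⟨D, D', h0, h1, h2, h3⟩ := closing U hU univ
    (fun D D' => D' ⊆ (⋃ d ∈ D, U d)ᶜ ∧ ∀ z, ∃ a, z ∈ U a ∧ (U a ∩ D').Finite) fun D p n b => by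
      obtain ⟨A, c1, c2, c3⟩ := lind hX U hU (⋃ d ∈ D, U d)ᶜ
      obtain ⟨D', H, C, a1, -, a2, a3, a4, a5⟩ := step hX U _ A c2 c1 p b
      refine ⟨D', H, C, ⟨a1, fun z => ?_⟩, a3, a4, fun x _ hx => a5 x hx⟩
      by_cases hz : z ∈ ⋃ d ∈ D, U d
      · obtain ⟨d, d1, d2⟩ := mem_iUnion₂.1 hz
        exact ⟨d, d2, finite_empty.subset fun y hy => a1 hy.2 (mem_biUnion d1 hy.1)⟩
      · obtain ⟨a, d1, d2⟩ := mem_iUnion₂.1 (c3 hz)
        exact ⟨a, d2, a2 a d1⟩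
  have hm : Monotone D := monotone_nat_of_le_succ fun k => h1 k ▸ subset_union_left
  refine ⟨_, univ_subset_iff.1 h3, fun z => ?_⟩
  have k1 : ∀ k, ∃ F : Set X, F.Finite ∧ z ∈ ⋂ x ∈ F, U x ∧ ((⋂ x ∈ F, U x) ∩ D k).Finite := by
    intro k
    induction k with
    | zero => exact ⟨∅, finite_empty, by simp, by simp [h0]⟩
    | succ k ih =>
      obtain ⟨F, f1, f2, f3⟩ := ih
      obtain ⟨a, a1, a2⟩ := (h2 k).2 z
      refine ⟨insert a F, f1.insert a, biInter_insert a F U ▸ ⟨a1, f2⟩, (f3.union a2).subset ?_⟩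
      rw [biInter_insert, h1]
      exact fun y hy => hy.2.imp (fun c => ⟨hy.1.2, c⟩) fun c => ⟨hy.1.1, c⟩
  obtain ⟨d, d1, d2⟩ := mem_iUnion₂.1 (h3 (mem_univ z))
  obtain ⟨j, hj⟩ := mem_iUnion.1 d1
  have k2 : ∀ k, U d ∩ D k ⊆ D j := fun k => by
    rcases le_total k j with c | c
    · exact inter_subset_right.trans (hm c)
    induction k, c using Nat.le_induction with
    | base => exact inter_subset_right
    | succ k c ih =>
      rw [h1]
      exact fun y hy => hy.2.elim (fun e => ih ⟨hy.1, e⟩)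
        fun e => absurd (mem_biUnion (hm c hj) hy.1) ((h2 k).1 e)
  obtain ⟨F, f1, f2, f3⟩ := k1 j
  refine ⟨insert d F, f1.insert d, biInter_insert d F U ▸ ⟨d2, f2⟩, f3.subset ?_⟩
  rw [biInter_insert]
  rintro y ⟨a, b⟩
  obtain ⟨k, hk⟩ := mem_iUnion.1 b
  exact ⟨a.2, k2 k ⟨a.1, hk⟩⟩

theorem dspace (hX : HFC X) : DSpace X := fun U hU => by
  obtain ⟨D, h1, h2⟩ := strong hX U hU
  refine ⟨D, and_assoc.1 ⟨isClosed_and_discrete_iff.2 fun z => ?_, h1⟩⟩
  obtain ⟨F, f1, f2, f3⟩ := h2 z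
  refine disjoint_principal_right.2 (mem_of_superset (inter_mem (mem_nhdsWithin_of_mem_nhds
    ((f1.isOpen_biInter fun x _ => (hU x).1).mem_nhds f2)) (inter_mem self_mem_nhdsWithin
      (mem_nhdsWithin_of_mem_nhds ((f3.sdiff (t := {z})).isClosed.isOpen_compl.mem_nhds
        fun c => c.2 rfl)))) fun y hy c => hy.2.2 ⟨⟨hy.1, c⟩, hy.2.1⟩)

end Pool.Agent.H42.Hfc1
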