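import Mathlib

/-! HFC subspaces of Cantor cubes, D-spaces and strongly D spaces. -/

namespace Pool.Agent.H42.HfcDefs

open Set

/-- `X ⊆ 2^L` is HFC. An `n`-element subset of `L` is given by its increasing enumeration
`F : Fin n ↪o L`, and `[F * b]` is the set of `x` with `x (F i) = b i` for all `i`. -/
def HFC {L : Type*} [LinearOrder L] (X : Set (L → Bool)) : Prop :=
  ∀ (n : ℕ) (b : Fin n → Bool) (𝓕 : Set (Fin n ↪o L)), 𝓕.Infinite →
    (𝓕.Pairwise fun F G => Disjoint (range F) (range G)) →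
    (X \ ⋃ F ∈ 𝓕, {x | ∀ i, x (F i) = b i}).Countable

/-- Every neighbourhood assignment has a closed discrete kernel. -/
def DSpace (E : Type*) [TopologicalSpace E] : Prop :=
  ∀ U : E → Set E, (∀ x, IsOpen (U x) ∧ x ∈ U x) →
    ∃ D : Set E, IsClosed D ∧ IsDiscrete D ∧ ⋃ x ∈ D, U x = univ

/-- Every neighbourhood assignment has a kernel that is locally finite in the topology generated
by the assignment. -/
def StronglyD (E : Type*) [TopologicalSpace E] : Prop :=
  ∀ U : E → Set E, (∀ x, IsOpen (U x) ∧ x ∈ U x) →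
    ∃ D : Set E, ⋃ x ∈ D, U x = univ ∧
      ∀ z, ∃ F : Set E, F.Finite ∧ z ∈ ⋂ x ∈ F, U x ∧ ((⋂ x ∈ F, U x) ∩ D).Finite

end Pool.Agent.H42.HfcDefs
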