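import Pool.Agent.H42.HnhDefs

/-! Twisted group bundles over the complete feather. -/

namespace Pool.Agent.H42.Hnh1

open Set Filter Topology Pool.Agent.H42.HnhDefs symmDiff

/-- Points of the bundle. -/
@[ext] structure Pt (G : Type) where
  r : ℝ
  S : Finset ℝ
  u : G
  h : ∀ a ∈ S, a ≤ r

variable {G : Type} [AddCommGroup G] [TopologicalSpace G] [IsTopologicalAddGroup G] (γ : ℝ → G)

/-- Charts. -/
noncomputable def Φ (S : Finset ℝ) (p : ℝ × G) : Pt G :=
  ⟨p.1, S.filter (· ≤ p.1), p.2 + ∑ a ∈ S, γ (a - p.1), fun _ h => (Finset.mem_filter.1 h).2⟩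

/-- The final topology for the charts. -/
@[reducible] noncomputable def τ : TopologicalSpace (Pt G) :=
  ⨆ S, .coinduced (Φ γ S) inferInstance

variable {γ}

omit [TopologicalSpace G] [IsTopologicalAddGroup G] in
lemma self (h0 : ∀ x ≤ 0, γ x = 0) (x : Pt G) : Φ γ x.S (x.r, x.u) = x :=
  Pt.ext rfl (Finset.filter_true_of_mem x.h) (by
    simp only [Φ]
    rw [Finset.sum_eq_zero fun a ha => h0 _ (sub_nonpos.2 (x.h a ha)), add_zero])

lemma emb (h1 : ContinuousOn γ (Ioi 0)) (S : Finset ℝ) : letI := τ γ; IsOpenEmbedding (Φ γ S) := by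
  let := τ γ
  refine .of_continuous_injective_isOpenMap (continuous_iSup_rng continuous_coinduced_rng)
    (fun p q e => ?_) fun U hU => isOpen_iSup_iff.2 fun T => isOpen_coinduced.2 ?_
  · have e1 : p.1 = q.1 := congrArg Pt.r e
    have e2 := congrArg Pt.u e
    simp only [Φ, e1, add_left_inj] at e2
    exact Prod.ext e1 e2
  have hc : ∀ R : Finset ℝ, R ⊆ S ∆ T → ContinuousOn (fun p : ℝ × G => ∑ a ∈ R, γ (a - p.1))
      {p | ∀ a ∈ S ∆ T, p.1 < a} := fun R hR => continuousOn_finsetSum _ fun a ha =>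
    h1.comp (by fun_prop) fun p hp => sub_pos.2 (hp a (hR ha))
  convert (continuousOn_fst.prodMk ((continuousOn_snd.add (hc (T \ S) fun a ha => by
    simp_all [Finset.mem_symmDiff])).sub (hc (S \ T) fun a ha => by
      simp_all [Finset.mem_symmDiff]))).isOpen_inter_preimage
    (by simpa only [ofPred_forall] using
      isOpen_biInter_finset fun a _ => isOpen_lt continuous_fst continuous_const) hU using 1
  have key : ∀ r : ℝ, ∑ a ∈ T \ S, γ (a - r) - ∑ a ∈ S \ T, γ (a - r) =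
      ∑ a ∈ T, γ (a - r) - ∑ a ∈ S, γ (a - r) := fun r => Finset.sum_sdiff_sub_sum_sdiff
  ext p
  simp only [mem_preimage, mem_inter_iff, mem_ofPred_eq, Pi.add_apply, Pi.sub_apply, add_sub_assoc,
    key]
  refine ⟨fun ⟨q, a, e⟩ => ?_, fun ⟨a, b⟩ => ⟨_, b, Pt.ext rfl ?_ (by simp only [Φ]; abel)⟩⟩
  · have e1 : q.1 = p.1 := congrArg Pt.r e
    have e2 := congrArg Pt.S e
    have e3 := congrArg Pt.u e
    simp only [Φ, e1] at e2 e3
    refine ⟨fun b hb => not_le.1 fun c => ?_, ?_⟩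
    · have := Finset.ext_iff.1 e2 b
      simp only [Finset.mem_filter, c, and_true] at this
      simp [Finset.mem_symmDiff, this] at hb
    · rwa [← add_sub_assoc, ← e3, add_sub_cancel_right, ← e1]
  · refine Finset.ext fun b => ?_
    simp only [Φ, Finset.mem_filter]
    refine and_congr_left fun c => by_contra fun d => (a b ?_).not_ge c
    rw [Finset.mem_symmDiff]
    tauto

/-- Lifts of maps of the base. -/
noncomputable def lift (ψ : ℝ ≃o ℝ) (A : Finset ℝ) (k : ℝ → G) (x : Pt G) : Pt G :=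
  ⟨ψ x.r, (x.S.image ψ ∆ A).filter (· ≤ ψ x.r), x.u + k x.r, fun _ h => (Finset.mem_filter.1 h).2⟩

omit [TopologicalSpace G] [IsTopologicalAddGroup G] in
lemma mem_lift (ψ : ℝ ≃o ℝ) (A : Finset ℝ) (k : ℝ → G) (x : Pt G) (b : ℝ) :
    ψ b ∈ (lift ψ A k x).S ↔ (b ∈ x.S ∧ ψ b ∉ A ∨ ψ b ∈ A ∧ b ∉ x.S) ∧ b ≤ x.r := by
  refine Finset.mem_filter.trans ?_
  simp only [Finset.mem_symmDiff, ψ.injective.mem_finset_image, OrderIso.le_iff_le]

lemma homeo (h0 : ∀ x ≤ 0, γ x = 0) (h1 : ContinuousOn γ (Ioi 0)) (ψ : ℝ ≃o ℝ) (A : Finset ℝ)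
    (k : ℝ → G) (hk : ∀ S : Finset ℝ, Continuous fun r =>
      ∑ a ∈ S, γ (a - r) + k r - ∑ a ∈ S.image ψ ∆ A, γ (a - ψ r)) :
    letI := τ γ; IsHomeomorph (lift ψ A k) := by
  let := τ γ
  let h : Finset ℝ → ℝ → G := fun S r =>
    ∑ a ∈ S, γ (a - r) + k r - ∑ a ∈ S.image ψ ∆ A, γ (a - ψ r)
  let H : Finset ℝ → ℝ × G ≃ₜ ℝ × G := fun S =>
    { toFun := fun p => (ψ p.1, p.2 + h S p.1)
      invFun := fun p => (ψ.symm p.1, p.2 - h S (ψ.symm p.1))
      left_inv := fun p => by simp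
      right_inv := fun p => by simp
      continuous_toFun := (ψ.continuous.comp continuous_fst).prodMk
        (continuous_snd.add ((hk S).comp continuous_fst))
      continuous_invFun := (ψ.symm.continuous.comp continuous_fst).prodMk
        (continuous_snd.sub ((hk S).comp (ψ.symm.continuous.comp continuous_fst))) }
  have hF : ∀ S p, lift ψ A k (Φ γ S p) = Φ γ (S.image ψ ∆ A) (H S p) := fun S p => by
    refine Pt.ext rfl (Finset.ext fun b => ?_) ?_
    · obtain ⟨b, rfl⟩ := ψ.surjective b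
      refine Finset.mem_filter.trans (Iff.trans ?_ Finset.mem_filter.symm)
      simp only [Φ, H, Finset.mem_filter, Finset.mem_symmDiff, ψ.injective.mem_finset_image,
        Homeomorph.homeomorph_mk_coe, Equiv.coe_fn_mk, OrderIso.le_iff_le]
      tauto
    · simp only [lift, Φ, H, h, Homeomorph.homeomorph_mk_coe, Equiv.coe_fn_mk]
      abel
  refine ⟨continuous_iSup_dom.2 fun S => continuous_coinduced_dom.2 ?_, fun U hU => ?_,
    fun x y e => ?_, fun y => ?_⟩
  · exact ((emb h1 _).continuous.comp (H S).continuous).congr fun p => (hF S p).symm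
  · convert isOpen_iUnion fun S => (emb h1 (S.image ψ ∆ A)).isOpenMap _ ((H S).isOpenMap _
      (hU.preimage (emb h1 S).continuous))
    refine Subset.antisymm ?_ (iUnion_subset ?_)
    · rintro _ ⟨x, hx, rfl⟩
      exact mem_iUnion.2 ⟨x.S, _, ⟨(x.r, x.u), by rwa [mem_preimage, self h0], rfl⟩, by
        rw [← hF, self h0]⟩
    · rintro S _ ⟨_, ⟨p, hp, rfl⟩, rfl⟩
      exact ⟨_, hp, hF S p⟩
  · have e1 : x.r = y.r := ψ.injective (congrArg Pt.r e)
    have e2 := congrArg Pt.S e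
    have e3 := congrArg Pt.u e
    simp only [lift, e1, add_left_inj] at e2 e3
    refine Pt.ext e1 (Finset.ext fun b => ?_) e3
    have := Finset.ext_iff.1 e2 (ψ b)
    have a1 := x.h b
    have a2 := y.h b
    simp only [Finset.mem_filter, Finset.mem_symmDiff, ψ.injective.mem_finset_image,
      OrderIso.le_iff_le] at this
    rw [e1] at a1
    tauto
  · obtain ⟨p, hp⟩ := (H ((y.S ∆ A).image ψ.symm)).surjective (y.r, y.u)
    refine ⟨Φ γ ((y.S ∆ A).image ψ.symm) p, (hF _ p).trans ?_⟩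
    rw [hp, Finset.image_image, show ψ ∘ ψ.symm = id from funext ψ.apply_symm_apply,
      Finset.image_id, symmDiff_symmDiff_cancel_right]
    exact self h0 y

lemma cube : ∃ ψ : ℝ ≃o ℝ, ∀ r, ψ r = r ^ 3 :=
  ⟨StrictMono.orderIsoOfSurjective _ (Odd.strictMono_pow (n := 3) (by decide)) 
    ((continuous_pow 3).surjective (tendsto_pow_atTop (by decide)) (by
      simpa [Function.comp_def, Odd.neg_pow (n := 3) (by decide)] using tendsto_neg_atTop_atBot.comp
        ((tendsto_pow_atTop (α := ℝ) (n := 3) (by decide)).comp tendsto_neg_atBot_atTop))),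
    fun _ => rfl⟩

theorem main [T2Space G] [ConnectedSpace G] (h0 : ∀ x ≤ 0, γ x = 0) (h1 : ContinuousOn γ (Ioi 0))
    (h2 : Continuous fun r => γ (-r) + γ (-r ^ 3))
    (h3 : ∀ b ≠ 0, Continuous fun r => γ (b - r) - γ (b ^ 3 - r ^ 3))
    (h4 : ∀ w, ∀ W ∈ 𝓝 w, ∃ w' ∈ W, ∃ᶠ x in 𝓝[>] 0, γ x = w') {n : ℕ}
    (h5 : ∀ p : ℝ × G, ∃ U : Set (ℝ × G), IsOpen U ∧ p ∈ U ∧
      Nonempty (U ≃ₜ EuclideanSpace ℝ (Fin n))) :
    ∃ (M : Type) (_ : TopologicalSpace M), HNH n M ∧ ∀ z : M, Nonempty (NH z ≃ₜ G) := by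
  let := τ γ
  let o : Pt G := ⟨0, ∅, 0, by simp⟩
  obtain ⟨ψ, hψ⟩ := cube
  have ψ0 : ψ 0 = 0 := by simp [hψ]
  have tr := fun (c : ℝ) (a : G) => homeo h0 h1 (OrderIso.addRight c) ∅ (fun _ => a) fun S => by
    rw [show S.image (OrderIso.addRight c) ∆ ∅ = S.image (OrderIso.addRight c) from symmDiff_bot _]
    simp only [Finset.sum_image (OrderIso.addRight c).injective.injOn]
    simpa using continuous_const
  have sw := homeo h0 h1 ψ {0} (fun r => γ (-r ^ 3)) fun S => by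
    have hs := continuous_finsetSum (S.erase 0) fun b hb => h3 b (Finset.ne_of_mem_erase hb)
    by_cases c : 0 ∈ S
    · have : S.image ψ ∆ {0} = (S.erase 0).image ψ := by
        ext b
        obtain ⟨b, rfl⟩ := ψ.surjective b
        have : ψ b = 0 ↔ b = 0 := ψ.injective.eq_iff' ψ0
        simp only [Finset.mem_symmDiff, ψ.injective.mem_finset_image, Finset.mem_singleton, this]
        by_cases b = 0 <;> simp [*]
      refine (hs.add h2).congr fun r => ?_
      rw [this, Finset.sum_image ψ.injective.injOn, ← Finset.add_sum_erase _ _ c]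
      simp only [hψ, Pi.add_apply, Finset.sum_sub_distrib, zero_sub]
      abel
    · have : S.image ψ ∆ {0} = (insert 0 S).image ψ := by
        ext b
        obtain ⟨b, rfl⟩ := ψ.surjective b
        have : ψ b = 0 ↔ b = 0 := ψ.injective.eq_iff' ψ0
        simp only [Finset.mem_symmDiff, ψ.injective.mem_finset_image, Finset.mem_singleton, this]
        by_cases b = 0 <;> simp [*]
      refine hs.congr fun r => ?_
      rw [this, Finset.sum_image ψ.injective.injOn, Finset.sum_insert c, ψ0,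
        Finset.erase_eq_of_notMem c]
      simp only [hψ, Finset.sum_sub_distrib, zero_sub]
      abel
  have ho : ∀ (m : ℕ) (x : Pt G), x.S.card = m → ∃ h : Pt G ≃ₜ Pt G, h x = o := fun m => by
    induction m using Nat.strong_induction_on with
    | _ m ih =>
    rintro x rfl
    rcases x.S.eq_empty_or_nonempty with c | ⟨a, c⟩
    · exact ⟨(tr (-x.r) (-x.u)).homeomorph, Pt.ext (by simp [lift, o]) (by simp [lift, o, c])
        (by simp [lift, o])⟩
    · refine (fun ⟨h, e⟩ => ⟨((tr (-a) 0).homeomorph.trans sw.homeomorph).trans h, e⟩)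
        (ih _ ?_ (lift ψ {0} (fun r => γ (-r ^ 3))
          (lift (OrderIso.addRight (-a)) ∅ (fun _ => 0) x)) rfl)
      refine ((Finset.card_le_card (t := (x.S.erase a).image fun b => ψ (b + -a)) fun b hb => ?_).trans
        Finset.card_image_le).trans_lt (Finset.card_erase_lt_of_mem c)
      obtain ⟨b, rfl⟩ := ψ.surjective b
      obtain ⟨b, rfl⟩ := (OrderIso.addRight (-a)).surjective b
      have := x.h a c
      simp only [mem_lift, Finset.mem_singleton] at hb
      refine Finset.mem_image_of_mem _ (Finset.mem_erase.2 ?_)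
      have : ψ (OrderIso.addRight (-a) b) = 0 ↔ b = a :=
        (ψ.injective.eq_iff' ψ0).trans add_neg_eq_zero
      rw [this] at hb
      by_cases b = a <;> simp_all
  have pc : Continuous (Pt.r : Pt G → ℝ) :=
    continuous_iSup_dom.2 fun S => continuous_coinduced_dom.2 continuous_fst
  have oo : Φ γ ∅ (0, 0) = o := self h0 o
  have hN : NH o = range fun w => Φ γ {0} (0, w) := by
    refine Subset.antisymm (fun y ⟨a, b⟩ => ?_) ?_
    · have e1 : y.r = 0 := by_contra fun c => by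
        obtain ⟨U, V, u1, u2, u3, u4, u5⟩ := t2_separation c
        obtain ⟨z, hz⟩ := b _ _ (u1.preimage pc) (u2.preimage pc) u3 u4
        exact disjoint_left.1 u5 hz.1 hz.2
      have e2 : ∀ c ∈ y.S, c = 0 := fun c hc => (e1 ▸ y.h c hc).antisymm (not_lt.1 fun d => by
        obtain ⟨_, ⟨p, p1, rfl⟩, q, e⟩ := b _ _ ((emb h1 y.S).isOpenMap _
          (isOpen_lt (f := fun _ => c) continuous_const continuous_fst)) (emb h1 ∅).isOpen_range
          ⟨_, (e1 ▸ d :), self h0 y⟩ ⟨_, oo⟩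
        have := (congrArg Pt.S e).ge (Finset.mem_filter.2 ⟨hc, p1.le⟩)
        simp [Φ] at this)
      rcases y.S.eq_empty_or_nonempty with c | ⟨c, hc⟩
      · obtain ⟨U, V, u1, u2, u3, u4, u5⟩ := t2_separation (x := (y.r, y.u)) (y := (0, 0))
          fun e => a (by rw [← self h0 y, c, e, oo])
        obtain ⟨_, ⟨p, p1, e'⟩, q, q1, e⟩ := b _ _ ((emb h1 ∅).isOpenMap _ u1)
          ((emb h1 ∅).isOpenMap _ u2) ⟨_, u3, c ▸ self h0 y⟩ ⟨_, u4, oo⟩
        exact (disjoint_left.1 u5 p1 ((emb h1 ∅).injective (e.trans e'.symm) ▸ q1)).elim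
      · refine ⟨y.u, ?_⟩
        have := self h0 y
        rwa [Finset.eq_singleton_iff_unique_mem.2 ⟨e2 c hc ▸ hc, e2⟩, e1] at this
    rintro _ ⟨w, rfl⟩
    refine ⟨fun e => by simpa [Φ, o] using congrArg Pt.S e, fun U V hU hV a b => ?_⟩
    obtain ⟨w', c1, c2⟩ := h4 (-w) _ ((hU.preimage (f := fun w => Φ γ {0} (0, -w))
      ((emb h1 _).continuous.comp (by fun_prop))).mem_nhds (by simpa using a))
    have t1 : ∀ S v, Tendsto (fun x : ℝ => Φ γ S (-x, v)) (𝓝[>] 0) (𝓝 (Φ γ S (0, v))) := fun S v =>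
      (((emb h1 S).continuous.comp (show Continuous fun x : ℝ => (-x, v) by fun_prop)).tendsto' 0 _
        (by simp)).mono_left nhdsWithin_le_nhds
    obtain ⟨x, x1, x2, x3, x4⟩ := (c2.and_eventually (((t1 _ _).eventually (hU.mem_nhds c1)).and
      (((t1 ∅ 0).eventually (hV.mem_nhds (oo ▸ b))).and self_mem_nhdsWithin))).exists
    have : Φ γ ∅ (-x, 0) = Φ γ {0} (-x, -w') :=
      Pt.ext rfl (by simpa [Φ, Finset.filter_singleton] using x4) (by simp [Φ, x1])
    exact ⟨_, x2, this ▸ x3⟩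
  refine ⟨Pt G, τ γ, ⟨?_, fun x => ?_, fun x y => ?_, fun t => ?_⟩, fun z => ?_⟩
  · refine connectedSpace_iff_univ.2 ⟨⟨o, trivial⟩, isPreconnected_of_forall o fun y _ =>
      ⟨range (Φ γ ∅) ∪ range (Φ γ y.S), subset_univ _, Or.inl ⟨_, oo⟩, Or.inr ⟨_, self h0 y⟩, ?_⟩⟩
    obtain ⟨r, hr⟩ := y.S.finite_toSet.bddBelow
    refine (isPreconnected_range (emb h1 _).continuous).union
      (Φ γ y.S (r - 1, 0)) ⟨(r - 1, ∑ a ∈ y.S, γ (a - (r - 1))), Pt.ext rfl ?_ (by simp [Φ])⟩ ⟨_, rfl⟩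
      (isPreconnected_range (emb h1 _).continuous)
    exact (Finset.filter_false_of_mem fun a ha => not_le.2 ((sub_one_lt r).trans_le (hr ha))).symm
  · obtain ⟨U, u1, u2, ⟨e⟩⟩ := h5 (x.r, x.u)
    exact ⟨_, (emb h1 x.S).isOpenMap _ u1, ⟨_, u2, self h0 x⟩,
      ⟨((emb h1 x.S).isEmbedding.homeomorphImage U).symm.trans e⟩⟩
  · obtain ⟨h, e⟩ := ho _ x rfl
    obtain ⟨h', e'⟩ := ho _ y rfl
    exact ⟨h.trans h'.symm, by simp [e, ← e']⟩
  · obtain ⟨a, b⟩ : Φ γ {0} (0, 0) ∈ NH o := hN ▸ mem_range_self _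
    obtain ⟨U, V, u1, u2, u3, u4, u5⟩ := t2_separation a
    exact (b U V u1 u2 u3 u4).ne_empty u5.inter_eq
  · obtain ⟨h, e⟩ := ho _ z rfl
    have : NH z = h ⁻¹' NH o := by
      ext y
      refine and_congr (e ▸ h.injective.ne_iff.symm) ⟨fun a U V u1 u2 u3 u4 => ?_,
        fun a U V u1 u2 u3 u4 => ?_⟩
      · obtain ⟨x, hx⟩ := a _ _ (u1.preimage h.continuous) (u2.preimage h.continuous) u3 (e ▸ u4 :)
        exact ⟨_, hx⟩
      · obtain ⟨x, hx⟩ := a _ _ (u1.preimage h.symm.continuous) (u2.preimage h.symm.continuous)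
          (by simpa using u3) (by simpa [← e] using u4)
        exact ⟨_, hx⟩
    exact ⟨(h.sets this).trans ((Homeomorph.setCongr hN).trans
      ((emb h1 {0}).isEmbedding.comp (isEmbedding_prodMkRight 0)).toHomeomorph.symm)⟩

end Pool.Agent.H42.Hnh1
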