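import Pool.Agent.H42.Hnh1

/-! A slowly oscillating twist function. -/

namespace Pool.Agent.H42.Hnh2

open Set Filter Topology Real Asymptotics

/-- The oscillation. -/
noncomputable def F (t : ℝ) : ℝ := √t * sin (π / log 3 * t)

/-- The twist. -/
noncomputable def g (x : ℝ) : ℝ := if x ≤ 0 then 0 else F (log (max 1 (-log x)))

lemma l3 : 0 < log 3 := log_pos (by norm_num)

lemma sq {α : Type} {l : Filter α} {a b : α → ℝ} {d : ℝ} (ha : Tendsto a l atTop)
    (h : Tendsto (fun x => b x - a x) l (𝓝 d)) (s : α → ℝ) :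
    Tendsto (fun x => (√(b x) - √(a x)) * sin (s x)) l (𝓝 0) := by
  have hb : Tendsto b l atTop := by simpa using h.add_atTop ha
  refine bdd_le_mul_tendsto_zero' 1 (.of_forall fun x => abs_sin_le_one (s x)) ?_ |>.congr
    fun x => mul_comm _ _
  refine (h.div_atTop ((tendsto_sqrt_atTop.comp hb).atTop_add_atTop
    (tendsto_sqrt_atTop.comp ha))).congr' ?_
  filter_upwards [ha.eventually_gt_atTop 0, hb.eventually_gt_atTop 0] with x h1 h2
  rw [div_eq_iff (by simp only [Function.comp]; positivity)]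
  simp only [Function.comp]
  nlinarith [mul_self_sqrt h1.le, mul_self_sqrt h2.le]

lemma slow {α : Type} {l : Filter α} {a b : α → ℝ} {d : ℝ} (ha : Tendsto a l atTop)
    (h : Tendsto (fun x => b x - a x) l (𝓝 d)) :
    Tendsto (fun x => F (log (b x)) - F (log (a x))) l (𝓝 0) := by
  have hb : Tendsto b l atTop := by simpa using h.add_atTop ha
  have h1 : Tendsto (fun x => b x / a x) l (𝓝 1) := by
    refine (by simpa using (h.div_atTop ha).add_const 1 :
      Tendsto (fun x => (b x - a x) / a x + 1) l (𝓝 1)).congr' ?_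
    filter_upwards [ha.eventually_gt_atTop 0] with x hx
    field_simp
    ring
  have e : (fun x => log (b x / a x)) =ᶠ[l] fun x => log (b x) - log (a x) := by
    filter_upwards [ha.eventually_gt_atTop 0, hb.eventually_gt_atTop 0] with x h1 h2
    exact log_div h2.ne' h1.ne'
  have h2 : Tendsto (fun x => √(log (a x)) / a x) l (𝓝 0) := by
    refine squeeze_zero' ((ha.eventually_ge_atTop 0).mono fun x hx => by positivity) ?_
      (isLittleO_log_id_atTop.tendsto_div_nhds_zero.comp ha)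
    filter_upwards [ha.eventually_ge_atTop 0, (tendsto_log_atTop.comp ha).eventually_ge_atTop 1]
      with x h1 h2
    exact div_le_div_of_nonneg_right (sqrt_le_self_iff.2 (Or.inr h2)) h1
  have h3 : Tendsto (fun x => √(log (a x)) * (log (b x) - log (a x))) l (𝓝 0) := by
    refine (((isBigO_refl (fun x => √(log (a x))) l).mul
      ((((hasDerivAt_log one_ne_zero).isBigO_sub.comp_tendsto h1)).congr' (by simpa [Function.comp_def] using e)
        .rfl)).trans_tendsto ((by simpa using h2.mul h :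
          Tendsto (fun x => √(log (a x)) / a x * (b x - a x)) l (𝓝 0)).congr' ?_))
    filter_upwards [ha.eventually_gt_atTop 0] with x hx
    simp only [Function.comp]
    field_simp
  have h4 : Tendsto (fun x => √(log (a x)) * (sin (π / log 3 * log (b x)) -
      sin (π / log 3 * log (a x)))) l (𝓝 0) := by
    refine squeeze_zero_norm (fun x => ?_) (by simpa using (h3.const_mul (π / log 3)).norm)
    rw [norm_eq_abs, abs_mul, ← abs_div, mul_left_comm, ← abs_mul (π / log 3), mul_sub]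
    exact mul_le_mul_of_nonneg_left (abs_sin_sub_sin_le _ _) (abs_nonneg _)
  simpa [F] using ((sq (tendsto_log_atTop.comp ha) (by simpa using
    ((continuousAt_log one_ne_zero).tendsto.comp h1).congr' e)
      fun x => π / log 3 * log (b x)).add h4).congr fun x => by simp only [Function.comp]; ring

lemma anti {α : Type} {l : Filter α} {a : α → ℝ} (ha : Tendsto a l atTop) :
    Tendsto (fun x => F (log (a x)) + F (log (3 * a x))) l (𝓝 0) := by
  refine (by simpa using (sq (tendsto_log_atTop.comp ha) (b := fun x => log (a x) + log 3)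
    (d := log 3) (by simpa using tendsto_const_nhds) fun x => π / log 3 * log (a x)).neg : Tendsto (fun x =>
      -((√(log (a x) + log 3) - √(log (a x))) * sin (π / log 3 * log (a x)))) l (𝓝 0)).congr' ?_
  filter_upwards [ha.eventually_gt_atTop 0] with x hx
  rw [log_mul (by norm_num) hx.ne', F, F, add_comm (log 3), mul_add, div_mul_cancel₀ _ l3.ne',
    sin_add_pi]
  ring

lemma Fc : Continuous F := by unfold F; fun_prop

lemma g0 (x : ℝ) (h : x ≤ 0) : g x = 0 := if_pos h

lemma g1 : ContinuousOn g (Ioi 0) :=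
  (Fc.comp_continuousOn ((continuousOn_const.sup (continuousOn_log.mono fun _ h => ne_of_gt h).neg).log
    fun _ _ => (one_pos.trans_le le_sup_left).ne')).congr fun _ h => if_neg (not_le.2 h)

lemma gev {α : Type} {l : Filter α} {v : α → ℝ} (hv : Tendsto v l (𝓝[>] 0)) :
    Tendsto (fun x => -log (v x)) l atTop ∧ ∀ᶠ x in l, g (v x) = F (log (-log (v x))) := by
  have h := tendsto_neg_atBot_atTop.comp (tendsto_log_nhdsGT_zero.comp hv)
  refine ⟨h, ?_⟩
  filter_upwards [h.eventually_ge_atTop 1, hv.eventually self_mem_nhdsWithin] with x h1 h2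
  rw [g, if_neg (not_le.2 h2), max_eq_right (show 1 ≤ -log (v x) from h1)]

lemma glue {f : ℝ → ℝ} {b : ℝ} (h0 : ∀ r, b ≤ r → f r = 0) (h1 : ContinuousOn f (Iio b))
    (h2 : Tendsto f (𝓝[<] b) (𝓝 0)) : Continuous f := continuous_iff_continuousAt.2 fun r => by
  rcases lt_trichotomy r b with c | rfl | c
  · exact h1.continuousAt (Iio_mem_nhds c)
  · rw [ContinuousAt, h0 r le_rfl, ← nhdsLT_sup_nhdsGE, tendsto_sup]
    exact ⟨h2, tendsto_const_nhds.congr' (eventually_nhdsWithin_of_forall fun x hx => (h0 x hx).symm)⟩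
  · exact continuousAt_const.congr ((lt_mem_nhds c).mono fun x hx => (h0 x hx.le).symm)

lemma tsub {u : ℝ → ℝ} (hu : Continuous u) (hm : StrictMono u) (b : ℝ) :
    Tendsto (fun r => u b - u r) (𝓝[<] b) (𝓝[>] 0) :=
  tendsto_nhdsWithin_iff.2 ⟨((continuous_const.sub hu).tendsto' b 0 (sub_self _)).mono_left
    nhdsWithin_le_nhds, eventually_nhdsWithin_of_forall fun _ h => sub_pos.2 (hm h)⟩

lemma m3 : StrictMono fun r : ℝ => r ^ 3 := Odd.strictMono_pow (by decide)

lemma gon (b : ℝ) : ContinuousOn (fun r => g (b - r)) (Iio b) ∧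
    ContinuousOn (fun r => g (b ^ 3 - r ^ 3)) (Iio b) :=
  ⟨g1.comp (by fun_prop) fun _ h => mem_Ioi.2 (sub_pos.2 (mem_Iio.1 h)),
    g1.comp (by fun_prop) fun _ h => mem_Ioi.2 (sub_pos.2 (m3 h))⟩

lemma g2 : Continuous fun r => g (-r) + g (-r ^ 3) := by
  refine glue (b := 0) (fun r h => by
    rw [g0 _ (neg_nonpos.2 h), g0 _ (neg_nonpos.2 (by positivity)), add_zero])
    (by simpa using (gon 0).1.fun_add (gon 0).2) ?_
  have h1 := gev (tsub continuous_id strictMono_id 0)
  refine (anti h1.1).congr' ?_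
  filter_upwards [h1.2, (gev (tsub (continuous_pow 3) m3 0)).2] with r a b
  simp only [id, zero_sub, ne_eq, OfNat.ofNat_ne_zero, not_false_eq_true, zero_pow] at a b ⊢
  rw [a, b]
  simp

lemma g3 (b : ℝ) (hb : b ≠ 0) : Continuous fun r => g (b - r) - g (b ^ 3 - r ^ 3) := by
  refine glue (b := b) (fun r h => by
    rw [g0 _ (sub_nonpos.2 h), g0 _ (sub_nonpos.2 (m3.monotone h)), sub_zero])
    ((gon b).1.sub (gon b).2) ?_
  have h1 := gev (tsub continuous_id strictMono_id b)
  have h2 := gev (tsub (continuous_pow 3) m3 b)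
  have h3 : b ^ 2 + b * b + b ^ 2 ≠ 0 := by
    have := sq_pos_of_ne_zero hb
    nlinarith
  have h4 : Tendsto (fun r : ℝ => b ^ 2 + b * r + r ^ 2) (𝓝[<] b) (𝓝 (b ^ 2 + b * b + b ^ 2)) :=
    (Continuous.tendsto (by fun_prop) b).mono_left nhdsWithin_le_nhds
  refine (slow h2.1 (b := fun r => -log (b - r)) ((h4.log h3).congr' ?_)).congr' ?_
  · filter_upwards [h4.eventually_ne h3, self_mem_nhdsWithin] with r h5 h6
    rw [show b ^ 3 - r ^ 3 = (b - r) * (b ^ 2 + b * r + r ^ 2) by ring,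
      log_mul (sub_pos.2 h6).ne' h5]
    ring
  · filter_upwards [h1.2, h2.2] with r a b
    exact congrArg₂ _ a.symm b.symm

lemma g4 (y : ℝ) : ∃ᶠ x in 𝓝[>] 0, g x = y := by
  have ht : Tendsto (fun t => exp (-exp t)) atTop (𝓝[>] 0) :=
    tendsto_exp_atBot_nhdsGT.comp (tendsto_neg_atTop_atBot.comp tendsto_exp_atTop)
  refine ht.frequently ((frequently_atTop.2 fun T => ?_).mp ((gev ht).2.mono fun t a (b : F t = y) =>
    a.trans (by simpa using b)))
  obtain ⟨k, hk⟩ := exists_nat_ge (max T (y ^ 2) / log 3)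
  rw [div_le_iff₀ l3, max_le_iff] at hk
  have k0 : 0 ≤ k * log 3 := mul_nonneg k.cast_nonneg l3.le
  have e : ∀ c : ℝ, π / log 3 * ((2 * k + c) * log 3) = c * π + k * (2 * π) := fun c => by
    field_simp [l3.ne']
    ring
  have s : ∀ c : ℝ, 0 ≤ c → |y| ≤ √((2 * k + c) * log 3) := fun c hc =>
    abs_le_sqrt (by nlinarith [mul_nonneg hc l3.le])
  obtain ⟨t, t1, t2⟩ := intermediate_value_Icc' (a := (2 * k + 1 / 2) * log 3)
    (b := (2 * k + 3 / 2) * log 3) (by nlinarith [l3]) Fc.continuousOn (show y ∈ _ from ⟨by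
      rw [F, e, sin_add_nat_mul_two_pi, show 3 / 2 * π = π / 2 + π by ring, sin_add_pi,
        sin_pi_div_two]
      linarith [(abs_le.1 (s (3 / 2) (by norm_num))).1], by
      rw [F, e, sin_add_nat_mul_two_pi, show 1 / 2 * π = π / 2 by ring, sin_pi_div_two]
      linarith [(abs_le.1 (s (1 / 2) (by norm_num))).2]⟩)
  exact ⟨t, by nlinarith [t1.1, l3], t2⟩

open Pool.Agent.H42.HnhDefs in
theorem main {G : Type} [AddCommGroup G] [TopologicalSpace G] [IsTopologicalAddGroup G] [T2Space G]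
    [ConnectedSpace G] (e : ℝ →+ G) (he : Continuous e) (hd : DenseRange e) {n : ℕ}
    (h5 : ∀ p : ℝ × G, ∃ U : Set (ℝ × G), IsOpen U ∧ p ∈ U ∧
      Nonempty (U ≃ₜ EuclideanSpace ℝ (Fin n))) :
    ∃ (M : Type) (_ : TopologicalSpace M), HNH n M ∧ ∀ z : M, Nonempty (NH z ≃ₜ G) :=
  Hnh1.main (γ := e ∘ g) (fun x h => by simp [g0 x h]) (he.comp_continuousOn g1)
    ((he.comp g2).congr fun _ => map_add e _ _) (fun b hb => (he.comp (g3 b hb)).congr
      fun _ => map_sub e _ _) (fun w W hW => let ⟨_, a, y, b⟩ := mem_closure_iff_nhds.1 (hd w) W hW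
        ⟨_, a, (g4 y).mono fun _ h => b ▸ congrArg e h⟩) h5

lemma circ (u : UnitAddCircle) : ∃ U : Set UnitAddCircle, IsOpen U ∧ u ∈ U ∧ Nonempty (U ≃ₜ ℝ) := by
  obtain ⟨a, rfl⟩ := QuotientAddGroup.mk_surjective u
  let φ := AddCircle.openPartialHomeomorphCoe (1 : ℝ) (a - 1 / 2)
  refine ⟨φ.target, φ.open_target, φ.map_source (x := a) ⟨by linarith, by linarith⟩,
    ⟨φ.toHomeomorphSourceTarget.symm.trans ?_⟩⟩
  refine .trans ?_ (orderIsoIooNegOneOne ℝ).toHomeomorph.symm
  refine ((Homeomorph.addRight (-a)).trans (Homeomorph.mulLeft₀ 2 two_ne_zero)).sets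
    (Set.ext fun x => ?_)
  simp only [φ, AddCircle.openPartialHomeomorphCoe_source, mem_Ioo, mem_preimage,
    Homeomorph.trans_apply, Homeomorph.coe_addRight, Homeomorph.coe_mulLeft₀]
  constructor <;> intro h <;> constructor <;> linarith [h.1, h.2]

/-- The plane. -/
noncomputable def e2 : ℝ × ℝ ≃ₜ EuclideanSpace ℝ (Fin 2) :=
  (ContinuousLinearEquiv.ofFinrankEq (𝕜 := ℝ) (by simp)).toHomeomorph

/-- Three-space. -/
noncomputable def e3 : ℝ × ℝ × ℝ ≃ₜ EuclideanSpace ℝ (Fin 3) :=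
  (ContinuousLinearEquiv.ofFinrankEq (𝕜 := ℝ) (by simp)).toHomeomorph

open Pool.Agent.H42.HnhDefs

theorem line : ∃ (M : Type) (_ : TopologicalSpace M), HNH 2 M ∧ ∀ z : M, Nonempty (NH z ≃ₜ ℝ) :=
  main (.id ℝ) continuous_id denseRange_id fun _ =>
    ⟨univ, isOpen_univ, trivial, ⟨(Homeomorph.Set.univ _).trans e2⟩⟩

theorem circle : ∃ (M : Type) (_ : TopologicalSpace M), HNH 2 M ∧
    ∀ z : M, Nonempty (NH z ≃ₜ Circle) := by
  obtain ⟨M, _, h1, h2⟩ := main (G := UnitAddCircle) (QuotientAddGroup.mk' _)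
    continuous_quotient_mk' (QuotientAddGroup.mk'_surjective _).denseRange fun p => by
      obtain ⟨U, u1, u2, ⟨u3⟩⟩ := circ p.2
      exact ⟨univ ×ˢ U, isOpen_univ.prod u1, ⟨trivial, u2⟩, ⟨((Homeomorph.Set.prod _ _).trans
        ((Homeomorph.Set.univ _).prodCongr u3)).trans e2⟩⟩
  exact ⟨M, _, h1, fun z => ⟨(h2 z).some.trans (AddCircle.homeomorphCircle one_ne_zero)⟩⟩

theorem torus : ∃ (M : Type) (_ : TopologicalSpace M), HNH 3 M ∧
    ∀ z : M, Nonempty (NH z ≃ₜ Circle × Circle) := by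
  let e : ℝ →+ UnitAddCircle × UnitAddCircle := (QuotientAddGroup.mk' _).prod
    ((QuotientAddGroup.mk' _).comp (AddMonoidHom.mulRight √2))
  have hd : DenseRange e := fun p => by
    obtain ⟨y, hy⟩ := QuotientAddGroup.mk_surjective p.1
    have := (AddCircle.denseRange_zsmul_coe_iff (a := √2) (p := 1)).2
      (by simpa using irrational_sqrt_two) (p.2 - ↑(y * √2))
    have h := map_mem_closure (f := fun w : UnitAddCircle => (p.1, w + ↑(y * √2))) (by fun_prop) this
      (t := range e) (by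
        rintro _ ⟨n, rfl⟩
        refine ⟨n + y, Prod.ext ?_ ?_⟩
        · simp [e, hy]
        · show ((_ : ℝ) : UnitAddCircle) = n • _ + _
          rw [← AddCircle.coe_zsmul, ← AddCircle.coe_add, zsmul_eq_mul, ← add_mul]
          rfl)
    simpa using h
  obtain ⟨M, _, h1, h2⟩ := main e (continuous_quotient_mk'.prodMk
    (continuous_quotient_mk'.comp (continuous_mul_const _))) hd fun p => by
      obtain ⟨U, u1, u2, ⟨u3⟩⟩ := circ p.2.1
      obtain ⟨V, v1, v2, ⟨v3⟩⟩ := circ p.2.2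
      exact ⟨univ ×ˢ U ×ˢ V, isOpen_univ.prod (u1.prod v1), ⟨trivial, u2, v2⟩,
        ⟨((Homeomorph.Set.prod _ _).trans ((Homeomorph.Set.univ _).prodCongr
          ((Homeomorph.Set.prod _ _).trans (u3.prodCongr v3)))).trans e3⟩⟩
  exact ⟨M, _, h1, fun z => ⟨(h2 z).some.trans ((AddCircle.homeomorphCircle one_ne_zero).prodCongr
    (AddCircle.homeomorphCircle one_ne_zero))⟩⟩

end Pool.Agent.H42.Hnh2
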