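import Mathlib

/-! Homogeneous non-Hausdorff manifolds. -/

namespace Pool.Agent.H42.HnhDefs

/-- The points other than `z` that cannot be separated from `z` by open sets. -/
def NH {M : Type} [TopologicalSpace M] (z : M) : Set M :=
  {y | y ≠ z ∧ ∀ U V : Set M, IsOpen U → IsOpen V → y ∈ U → z ∈ V → (U ∩ V).Nonempty}

/-- `M` is connected, each point has an open neighbourhood homeomorphic to `ℝ ^ n`, `M` is
homogeneous and `M` is not Hausdorff. -/
structure HNH (n : ℕ) (M : Type) [TopologicalSpace M] : Prop where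
  conn : ConnectedSpace M
  loc : ∀ x : M, ∃ U : Set M, IsOpen U ∧ x ∈ U ∧ Nonempty (U ≃ₜ EuclideanSpace ℝ (Fin n))
  homog : ∀ x y : M, ∃ h : M ≃ₜ M, h x = y
  nonT2 : ¬ T2Space M

end Pool.Agent.H42.HnhDefs
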