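import Pool.Agent.H42.Bern

/-! A small subgroup of the reals all of whose invariant Borel supersets are co-countable. -/

namespace Pool.Agent.H42.Hull

open Set MeasureTheory Filter Topology
open scoped Nat

/-- Truncation at scale `1 / m!`. -/
noncomputable def tr (m : ℕ) (z : ℝ) : ℝ := (⌊(m ! : ℝ) * z⌋ : ℝ) / (m ! : ℝ)

theorem fac_pos (m : ℕ) : (0 : ℝ) < (m ! : ℝ) := by exact_mod_cast Nat.factorial_pos m

theorem tr_le (m : ℕ) (z : ℝ) : tr m z ≤ z := by
  rw [tr, div_le_iff₀ (fac_pos m), mul_comm]; exact Int.floor_le _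

theorem sub_tr_le (m : ℕ) (z : ℝ) : z - tr m z ≤ 1 / (m ! : ℝ) := by
  rw [tr, sub_le_iff_le_add, ← add_div, le_div_iff₀ (fac_pos m), mul_comm, add_comm]
  exact (Int.lt_floor_add_one _).le

theorem tr_mono (m : ℕ) (z : ℝ) : tr m z ≤ tr (m + 1) z := by
  have h : ((m + 1 : ℕ) : ℤ) * ⌊(m ! : ℝ) * z⌋ ≤ ⌊((m + 1)! : ℝ) * z⌋ := by
    rw [Int.le_floor, Nat.factorial_succ]
    push_cast
    rw [mul_assoc]
    exact mul_le_mul_of_nonneg_left (Int.floor_le _) (by positivity)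
  have h' : ((m : ℝ) + 1) * (⌊(m ! : ℝ) * z⌋ : ℝ) ≤ (⌊((m + 1)! : ℝ) * z⌋ : ℝ) := by
    exact_mod_cast h
  rw [tr, tr, div_le_div_iff₀ (fac_pos _) (fac_pos _)]
  have e : (((m + 1)! : ℕ) : ℝ) = ((m : ℝ) + 1) * (m ! : ℝ) := by
    rw [Nat.factorial_succ]; push_cast; ring
  calc (⌊(m ! : ℝ) * z⌋ : ℝ) * (((m + 1)! : ℕ) : ℝ)
      = ((m : ℝ) + 1) * (⌊(m ! : ℝ) * z⌋ : ℝ) * (m ! : ℝ) := by rw [e]; ring
    _ ≤ _ := mul_le_mul_of_nonneg_right h' (fac_pos m).le

theorem tr_int {j m : ℕ} (h : j ≤ m) (z : ℝ) : (((m ! : ℝ) * tr j z : ℝ) : UnitAddCircle) = 0 := by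
  obtain ⟨c, hc⟩ := Nat.factorial_dvd_factorial h
  rw [AddCircle.coe_eq_zero_iff]
  refine ⟨c * ⌊(j ! : ℝ) * z⌋, ?_⟩
  rw [tr, hc]
  have := (fac_pos j).ne'
  push_cast
  simp only [zsmul_eq_mul, mul_one]
  push_cast
  field_simp

theorem tr_tendsto (z : ℝ) : Tendsto (fun m => tr m z) atTop (𝓝 z) := by
  have h1 : Tendsto (fun m : ℕ => z - 1 / (m ! : ℝ)) atTop (𝓝 (z - 0)) :=
    tendsto_const_nhds.sub (tendsto_const_nhds.div_atTop
      (tendsto_natCast_atTop_atTop.comp factorial_tendsto_atTop))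
  rw [sub_zero] at h1
  exact tendsto_of_tendsto_of_tendsto_of_le_of_le h1 tendsto_const_nhds
    (fun m => by linarith [sub_tr_le m z]) (fun m => tr_le m z)

theorem hasSum_tail (k : ℕ) (z : ℝ) :
    HasSum (fun j => tr (j + k + 1) z - tr (j + k) z) (z - tr k z) := by
  rw [hasSum_iff_tendsto_nat_of_nonneg (fun j => sub_nonneg.2 (tr_mono _ z))]
  have : ∀ n, ∑ j ∈ Finset.range n, (tr (j + k + 1) z - tr (j + k) z) = tr (n + k) z - tr k z := by
    intro n
    have := Finset.sum_range_sub (fun j => tr (j + k) z) n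
    simpa only [Nat.add_right_comm _ 1 k, zero_add] using this
  simp only [this]
  exact ((tr_tendsto z).comp (tendsto_add_atTop_nat k)).sub tendsto_const_nhds

open Classical in
/-- The selected digit. -/
noncomputable def dig (p : ℕ → Prop) (z : ℝ) (m : ℕ) : ℝ :=
  if p m then tr (m + 1) z - tr m z else 0

theorem dig_nonneg (p : ℕ → Prop) (z : ℝ) (m : ℕ) : 0 ≤ dig p z m := by
  unfold dig; split_ifs
  · exact sub_nonneg.2 (tr_mono _ z)
  · exact le_rfl

theorem dig_le (p : ℕ → Prop) (z : ℝ) (m : ℕ) : dig p z m ≤ tr (m + 1) z - tr m z := by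
  unfold dig; split_ifs
  · exact le_rfl
  · exact sub_nonneg.2 (tr_mono _ z)

theorem dig_summable (p : ℕ → Prop) (z : ℝ) : Summable (dig p z) :=
  Summable.of_nonneg_of_le (dig_nonneg p z) (dig_le p z) (hasSum_tail 0 z).summable

theorem dig_add (p : ℕ → Prop) (z : ℝ) :
    ∑' m, dig p z m + ∑' m, dig (fun m => ¬ p m) z m = z - tr 0 z := by
  rw [← (dig_summable _ z).tsum_add (dig_summable _ z), ← (hasSum_tail 0 z).tsum_eq]
  congr 1
  funext m
  unfold dig
  by_cases h : p m <;> simp [h]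

theorem dig_norm {p : ℕ → Prop} (z : ℝ) {m : ℕ} (h : ¬ p m) :
    ‖(((m ! : ℝ) * ∑' j, dig p z j : ℝ) : UnitAddCircle)‖ ≤ 1 / ((m : ℝ) + 1) := by
  rw [← (dig_summable p z).sum_add_tsum_nat_add (m + 1), mul_add, AddCircle.coe_add]
  have h1 : ∀ k ≤ m, (((m ! : ℝ) * ∑ j ∈ Finset.range k, dig p z j : ℝ) : UnitAddCircle) = 0 := by
    intro k
    induction k with
    | zero => simp
    | succ k ih =>
      intro hk
      rw [Finset.sum_range_succ, mul_add, AddCircle.coe_add, ih (Nat.le_of_succ_le hk), zero_add]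
      unfold dig
      split_ifs
      · rw [mul_sub, AddCircle.coe_sub, tr_int hk, tr_int (Nat.le_of_succ_le hk), sub_zero]
      · simp
  have h2 : dig p z m = 0 := if_neg h
  rw [Finset.sum_range_succ, h2, add_zero, h1 m le_rfl, zero_add]
  have h3 : 0 ≤ ∑' j, dig p z (j + (m + 1)) := tsum_nonneg fun j => dig_nonneg _ _ _
  have h4 : ∑' j, dig p z (j + (m + 1)) ≤ z - tr (m + 1) z :=
    hasSum_le (fun j => dig_le p z _)
      ((summable_nat_add_iff (m + 1)).2 (dig_summable p z)).hasSum (hasSum_tail (m + 1) z)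
  refine (QuotientAddGroup.norm_mk_le_norm).trans ?_
  rw [Real.norm_eq_abs, abs_of_nonneg (mul_nonneg (fac_pos m).le h3)]
  refine (mul_le_mul_of_nonneg_left (h4.trans (sub_tr_le _ z)) (fac_pos m).le).trans (le_of_eq ?_)
  have := (fac_pos m).ne'
  rw [Nat.factorial_succ]
  push_cast
  field_simp

theorem measurable_tr (m : ℕ) : Measurable (tr m) := by
  unfold tr
  fun_prop

theorem measurable_dig {E : ℕ → Set ℝ} (hE : ∀ m, MeasurableSet (E m)) :
    Measurable fun z => ∑' m, dig (fun m => z ∈ E m) z m := by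
  refine measurable_of_tendsto_metrizable
    (f := fun n z => ∑ m ∈ Finset.range n, dig (fun m => z ∈ E m) z m) (fun n => ?_) ?_
  · refine Finset.measurable_sum _ fun m _ => ?_
    unfold dig
    exact Measurable.ite (hE m) ((measurable_tr _).sub (measurable_tr _)) measurable_const
  · exact tendsto_pi_nhds.2 fun z => (dig_summable _ z).hasSum.tendsto_sum_nat

/-- Reals that are close to the lattices `ℤ / m!` for `m` in `M`. -/
def CC (M : Set ℕ) (K : ℕ) : Set ℝ :=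
  {h | ∀ m ∈ M, ‖(((m ! : ℝ) * h : ℝ) : UnitAddCircle)‖ ≤ K / ((m : ℝ) + 1)}

theorem CC_closed (M : Set ℕ) (K : ℕ) : IsClosed (CC M K) := by
  have : CC M K = ⋂ m ∈ M, {h | ‖(((m ! : ℝ) * h : ℝ) : UnitAddCircle)‖ ≤ K / ((m : ℝ) + 1)} := by
    ext; simp [CC]
  rw [this]
  refine isClosed_biInter fun m _ => isClosed_le ?_ continuous_const
  exact ((AddCircle.continuous_mk' 1).comp (continuous_const.mul continuous_id)).norm

theorem CC_null {M : Set ℕ} (hM : ∀ N, ∃ m ≥ N, m ∈ M) (K : ℕ) : volume (CC M K) = 0 := by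
  have key : ∀ t : ℝ, volume (CC M K ∩ Ioc t (t + 1)) = 0 := by
    intro t
    have h1 : ∀ m ∈ M, volume (CC M K ∩ Ioc t (t + 1)) ≤ ENNReal.ofReal (2 * (K / ((m : ℝ) + 1))) := by
      intro m hm
      have hp := (Measure.measurePreserving_zsmul (volume : Measure UnitAddCircle)
        (n := (m ! : ℤ)) (by exact_mod_cast (Nat.factorial_pos m).ne')).comp
        (UnitAddCircle.measurePreserving_mk t)
      have h2 := hp.measure_preimage (s := Metric.closedBall 0 (K / ((m : ℝ) + 1)))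
        Metric.isClosed_closedBall.measurableSet.nullMeasurableSet
      rw [AddCircle.volume_closedBall, Measure.restrict_apply' measurableSet_Ioc] at h2
      refine le_trans (measure_mono (inter_subset_inter_left _ fun h hh => ?_))
        (h2.le.trans (ENNReal.ofReal_le_ofReal (min_le_right _ _)))
      have := hh m hm
      simp only [mem_preimage, Function.comp, mem_closedBall_zero_iff]
      rw [← AddCircle.coe_zsmul]
      simpa using this
    refine le_antisymm (le_of_forall_gt_imp_ge_of_dense fun c hc => ?_) zero_le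
    have h2 : Tendsto (fun m : ℕ => ENNReal.ofReal (2 * (K / ((m : ℝ) + 1)))) atTop (𝓝 0) := by
      rw [← ENNReal.ofReal_zero]
      refine ENNReal.tendsto_ofReal ?_
      have := (tendsto_one_div_add_atTop_nhds_zero_nat (𝕜 := ℝ)).const_mul (2 * (K : ℝ))
      rw [mul_zero] at this
      refine this.congr fun m => by ring
    obtain ⟨N, hN⟩ := eventually_atTop.1 (h2.eventually (gt_mem_nhds hc))
    obtain ⟨m, h3, h4⟩ := hM N
    exact (h1 m h4).trans (hN m h3).le
  refine measure_mono_null (t := ⋃ t : ℤ, CC M K ∩ Ioc (t : ℝ) (t + 1)) ?_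
    (measure_iUnion_null fun t => key t)
  rw [← inter_iUnion, iUnion_Ioc_intCast]
  simp

theorem exists_sep : ∃ E : ℕ → Set ℝ, (∀ i, MeasurableSet (E i)) ∧
    ∀ Z W : Set ℝ, Z.Finite → W.Finite → Disjoint Z W → ∃ i, Z ⊆ E i ∧ W ⊆ (E i)ᶜ := by
  obtain ⟨s, hs⟩ := exists_surjective_nat (Finset (ℚ × ℚ))
  refine ⟨fun i => ⋃ q ∈ s i, Ioo (q.1 : ℝ) q.2,
    fun i => Finset.measurableSet_biUnion _ fun _ _ => measurableSet_Ioo, fun Z W hZ hW hd => ?_⟩
  have : ∀ z : Z, ∃ q : ℚ × ℚ, z.1 ∈ Ioo (q.1 : ℝ) q.2 ∧ Ioo (q.1 : ℝ) q.2 ⊆ Wᶜ := by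
    intro z
    obtain ⟨a, b, h1, h2⟩ := mem_nhds_iff_exists_Ioo_subset.1
      (hW.isClosed.isOpen_compl.mem_nhds (disjoint_left.1 hd z.2))
    obtain ⟨p, hp1, hp2⟩ := exists_rat_btwn h1.1
    obtain ⟨q, hq1, hq2⟩ := exists_rat_btwn h1.2
    exact ⟨(p, q), ⟨hp2, hq1⟩, (Ioo_subset_Ioo hp1.le hq2.le).trans h2⟩
  choose q hq1 hq2 using this
  have := hZ.to_subtype
  obtain ⟨i, hi⟩ := hs (finite_range q).toFinset
  refine ⟨i, fun z hz => mem_iUnion₂.2 ⟨q ⟨z, hz⟩, by simp [hi], hq1 _⟩, fun w hw h => ?_⟩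
  obtain ⟨p, h1, h2⟩ := mem_iUnion₂.1 h
  rw [hi] at h1
  obtain ⟨z, rfl⟩ := (finite_range q).mem_toFinset.1 h1
  exact hq2 z h2 hw

theorem exists_group : ∃ (H : AddSubgroup ℝ) (C : ℕ × ℕ → Set ℝ), (∀ p, IsClosed (C p)) ∧
    (∀ p, volume (C p) = 0) ∧ (H : Set ℝ) ⊆ ⋃ p, C p ∧
    ∀ D : Set ℝ, MeasurableSet D → (H : Set ℝ) ⊆ D → (∀ d ∈ D, ∀ h ∈ H, d + h ∈ D) →
      Dᶜ.Countable := by
  obtain ⟨B, hB⟩ := Pool.Agent.H42.Bern.exists_bernstein
  obtain ⟨E, hE1, hE2⟩ := exists_sep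
  let x : ℝ → ℝ := fun z => ∑' m, dig (fun m => ¬ z ∈ E (Nat.unpair m).1) z m
  let y : ℝ → ℝ := fun z => tr 0 z + ∑' m, dig (fun m => z ∈ E (Nat.unpair m).1) z m
  have hxy : ∀ z, y z + x z = z := fun z => by
    simp only [x, y]
    rw [add_assoc, dig_add]; ring
  have hy : Measurable y := (measurable_tr 0).add (measurable_dig fun m => hE1 _)
  let H : AddSubgroup ℝ := AddSubgroup.closure (x '' B ∪ y '' Bᶜ)
  refine ⟨H, fun p => CC {m | (Nat.unpair m).1 = p.1} p.2, fun p => CC_closed _ _,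
    fun p => CC_null (fun N => ⟨Nat.pair p.1 N, Nat.right_le_pair _ _, by simp⟩) _, ?_, ?_⟩
  · have key : ∀ h ∈ H, ∃ (Z W : Set ℝ) (K : ℕ), Z.Finite ∧ W.Finite ∧ Z ⊆ B ∧ W ⊆ Bᶜ ∧
        ∀ i, Z ⊆ E i → W ⊆ (E i)ᶜ → h ∈ CC {m | (Nat.unpair m).1 = i} K := by
      intro h hh
      induction hh using AddSubgroup.closure_induction with
      | mem h hh =>
        rcases hh with ⟨z, hz, rfl⟩ | ⟨z, hz, rfl⟩
        · refine ⟨{z}, ∅, 1, finite_singleton _, finite_empty, singleton_subset_iff.2 hz,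
            empty_subset _, fun i h1 _ m hm => ?_⟩
          rw [Nat.cast_one]
          exact dig_norm z (not_not.2 (by rw [show (Nat.unpair m).1 = i from hm]; exact h1 rfl))
        · refine ⟨∅, {z}, 1, finite_empty, finite_singleton _, empty_subset _,
            singleton_subset_iff.2 hz, fun i _ h1 m hm => ?_⟩
          simp only [y]
          rw [Nat.cast_one, mul_add, AddCircle.coe_add, tr_int (Nat.zero_le m), zero_add]
          exact dig_norm z (by rw [show (Nat.unpair m).1 = i from hm]; exact h1 rfl)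
      | zero =>
        exact ⟨∅, ∅, 0, finite_empty, finite_empty, empty_subset _, empty_subset _,
          fun i _ _ m _ => by simp⟩
      | add a b _ _ iha ihb =>
        obtain ⟨Z, W, K, a1, a2, a3, a4, a5⟩ := iha
        obtain ⟨Z', W', K', b1, b2, b3, b4, b5⟩ := ihb
        refine ⟨Z ∪ Z', W ∪ W', K + K', a1.union b1, a2.union b2, union_subset a3 b3,
          union_subset a4 b4, fun i h1 h2 m hm => ?_⟩
        rw [mul_add, AddCircle.coe_add, Nat.cast_add, add_div]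
        exact (norm_add_le _ _).trans (add_le_add
          (a5 i (subset_union_left.trans h1) (subset_union_left.trans h2) m hm)
          (b5 i (subset_union_right.trans h1) (subset_union_right.trans h2) m hm))
      | neg a _ iha =>
        obtain ⟨Z, W, K, a1, a2, a3, a4, a5⟩ := iha
        refine ⟨Z, W, K, a1, a2, a3, a4, fun i h1 h2 m hm => ?_⟩
        rw [mul_neg, AddCircle.coe_neg, norm_neg]
        exact a5 i h1 h2 m hm
    intro h hh
    obtain ⟨Z, W, K, a1, a2, a3, a4, a5⟩ := key h hh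
    obtain ⟨i, h1, h2⟩ := hE2 Z W a1 a2 (disjoint_compl_right.mono a3 a4)
    exact mem_iUnion.2 ⟨(i, K), a5 i h1 h2⟩
  · intro D hD hHD hinv
    have h1 : (y ⁻¹' D)ᶜ.Countable := (hB _ (hy hD).compl).1 fun z hz => by
      by_contra hc
      exact hz (hHD (AddSubgroup.subset_closure (Or.inr ⟨z, hc, rfl⟩)))
    have h2 : (Dᶜ ∩ y ⁻¹' D).Countable := (hB _ (hD.compl.inter (hy hD))).2 fun z hz hc =>
      hz.1 (hxy z ▸ hinv _ hz.2 _ (AddSubgroup.subset_closure (Or.inl ⟨z, hc, rfl⟩)))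
    refine (h1.union h2).mono fun z hz => ?_
    by_cases h : z ∈ y ⁻¹' D
    · exact Or.inr ⟨hz, h⟩
    · exact Or.inl h

end Pool.Agent.H42.Hull
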