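import Mathlib
import Pool.Agent.H42.Reg

/-! Covering posets without large antichains by few ideals. -/

namespace Pool.Agent.H42.IdCov

open Cardinal hiding univ
open Set Pool.Agent.H42.Reg

universe u

variable {P : Type u} [PartialOrder P]

def Dir (ρ : Cardinal.{u}) (C : Set P) : Prop :=
  ∀ F ⊆ C, #F ≤ ρ → ∃ z ∈ C, ∀ f ∈ F, f ≤ z

def Cen (ρ : Cardinal.{u}) (Z : Set P) : Prop :=
  ∀ F ⊆ Z, #F ≤ ρ → ∃ z, ∀ f ∈ F, f ≤ z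

def Cov (ρ : Cardinal.{u}) (A : Set P) : Prop :=
  ∃ 𝒵 : Set (Set P), #𝒵 ≤ ρ ∧ (∀ Z ∈ 𝒵, Cen ρ Z) ∧ A ⊆ ⋃₀ 𝒵

theorem Cov.mono {ρ : Cardinal.{u}} {A B : Set P} (h : Cov ρ B) (hAB : A ⊆ B) : Cov ρ A := by
  obtain ⟨𝒵, h1, h2, h3⟩ := h
  exact ⟨𝒵, h1, h2, hAB.trans h3⟩

theorem cov_iUnion {ρ : Cardinal.{u}} (hρ : ℵ₀ ≤ ρ) {ι : Type u} (hι : #ι ≤ ρ) (A : ι → Set P)
    (h : ∀ i, Cov ρ (A i)) : Cov ρ (⋃ i, A i) := by
  choose 𝒵 h1 h2 h3 using h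
  refine ⟨⋃ i, 𝒵 i, (mk_iUnion_le _).trans ((mul_le_mul' hι (ciSup_le' h1)).trans_eq
    (mul_eq_self hρ)), fun Z hZ => ?_, iUnion_subset fun i => (h3 i).trans
      (sUnion_mono (subset_iUnion 𝒵 i))⟩
  obtain ⟨i, hi⟩ := mem_iUnion.1 hZ
  exact h2 i Z hi

theorem cov_Iic {ρ : Cardinal.{u}} (hρ : ℵ₀ ≤ ρ) (a : P) : Cov ρ (Iic a) :=
  ⟨{Iic a}, by simpa using one_le_aleph0.trans hρ, by
    rintro _ rfl F hF -
    exact ⟨a, fun f hf => hF hf⟩, by simp⟩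

theorem Cov.union {ρ : Cardinal.{u}} (hρ : ℵ₀ ≤ ρ) {A B : Set P} (hA : Cov ρ A) (hB : Cov ρ B) :
    Cov ρ (A ∪ B) := by
  obtain ⟨𝒵, h1, h2, h3⟩ := hA
  obtain ⟨𝒵', h1', h2', h3'⟩ := hB
  refine ⟨𝒵 ∪ 𝒵', (mk_union_le _ _).trans ((add_le_add h1 h1').trans_eq (add_eq_self hρ)),
    fun Z hZ => hZ.elim (h2 Z) (h2' Z), ?_⟩
  rw [sUnion_union]
  exact union_subset_union h3 h3'

theorem tree {O : Type u} [LinearOrder O] [WellFoundedLT O] (ρ : O → Cardinal.{u})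
    (hm : Monotone ρ) (hi : ∀ i, ℵ₀ ≤ ρ i) (hp : ∀ i, ρ i ^ #(Iio i) ≤ ρ i) (X : Set P)
    (hX : ∀ A ⊆ X, IsAntichain (· ≤ ·) A → #A < #O) :
    ∃ 𝒞 : O → Set (Set P), (∀ i, #(𝒞 i) ≤ ρ i) ∧ (∀ i, ∀ C ∈ 𝒞 i, Dir (ρ i) C) ∧
      X ⊆ ⋃ i, ⋃₀ 𝒞 i := by
  classical
  let Y : Set P → Set P := fun s => {y ∈ X | ∀ a ∈ s, ¬ a ≤ y ∧ ¬ y ≤ a}
  have hb : ∀ i s, ∃ b ⊆ Y s, #b ≤ ρ i ∧ (¬ Dir (ρ i) (Y s) → ∀ z ∈ Y s, ∃ f ∈ b, ¬ f ≤ z) := by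
    intro i s
    by_cases h : Dir (ρ i) (Y s)
    · exact ⟨∅, empty_subset _, by simp, fun h' => absurd h h'⟩
    · unfold Dir at h
      push Not at h
      obtain ⟨F, h1, h2, h3⟩ := h
      exact ⟨F, h1, h2, fun _ => h3⟩
  choose b b1 b2 b3 using hb
  obtain ⟨M, hM⟩ := exists_rec (T := O) (∅ : Set P)
    (fun i f => (⋃ j : Iio i, f j) ∪
      ⋃ s : {s : Set P // s ⊆ (⋃ j : Iio i, f j) ∧ #s ≤ #(Iio i)}, b i s)
    (fun δ f f' h => by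
      rw [show (fun j : Iio δ => f j) = fun j : Iio δ => f' j from funext fun j => h j j.2])
  have hio : ∀ i, #(Iio i) ≤ ρ i := fun i =>
    ((cantor' _ (one_lt_aleph0.trans_le (hi i))).trans_le (hp i)).le
  have cnt : ∀ i, #(⋃ j : Iio i, M j) ≤ ρ i →
      #{s : Set P // s ⊆ (⋃ j : Iio i, M j) ∧ #s ≤ #(Iio i)} ≤ ρ i := fun i h =>
    (mk_bounded_subset_le _ _).trans ((power_le_power_right (max_le h (hi i))).trans (hp i))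
  have un : ∀ i, (∀ j < i, #(M j) ≤ ρ j) → #(⋃ j : Iio i, M j) ≤ ρ i := fun i h =>
    (mk_iUnion_le _).trans ((mul_le_mul' (hio i) (ciSup_le' fun j : Iio i =>
      (h j j.2).trans (hm (le_of_lt j.2)))).trans_eq (mul_eq_self (hi i)))
  have cM : ∀ i, #(M i) ≤ ρ i := by
    intro i
    induction i using WellFoundedLT.induction with
    | ind i ih =>
      rw [hM]
      refine (mk_union_le _ _).trans ((add_le_add (un i ih) ((mk_iUnion_le _).trans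
        ((mul_le_mul' (cnt i (un i ih)) (ciSup_le' ?_)).trans_eq
          (mul_eq_self (hi i))))).trans_eq (add_eq_self (hi i)))
      exact fun s => b2 i s
  refine ⟨fun i => ((fun s : {s : Set P // s ⊆ (⋃ j : Iio i, M j) ∧ #s ≤ #(Iio i)} => Y s) ''
    {s | Dir (ρ i) (Y s)}) ∪ Iic '' M i, fun i => ?_, ?_, fun x hx => ?_⟩
  · exact (mk_union_le _ _).trans ((add_le_add (mk_image_le.trans ((mk_set_le _).trans
      (cnt i (un i fun j _ => cM j)))) (mk_image_le.trans (cM i))).trans_eq (add_eq_self (hi i)))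
  · rintro i _ (⟨s, hs, rfl⟩ | ⟨a, -, rfl⟩)
    · exact hs
    · exact fun F hF _ => ⟨a, le_rfl, fun f hf => hF hf⟩
  by_contra hc
  simp only [mem_iUnion, mem_sUnion, not_exists, not_and] at hc
  obtain ⟨a, ha⟩ := exists_rec (T := O) x
    (fun i f => if h : ∃ c ∈ b i (range fun j : Iio i => f j), ¬ c ≤ x then h.choose else x)
    (fun δ f f' h => by
      rw [show (fun j : Iio δ => f j) = fun j : Iio δ => f' j from funext fun j => h j j.2])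
  have key : ∀ i, a i ∈ M i ∧ a i ∈ Y (range fun j : Iio i => a j) ∧ ¬ a i ≤ x ∧ ¬ x ≤ a i := by
    intro i
    induction i using WellFoundedLT.induction with
    | ind i ih =>
      have s1 : (range fun j : Iio i => a j) ⊆ ⋃ j : Iio i, M j := by
        rintro _ ⟨j, rfl⟩
        exact mem_iUnion.2 ⟨j, (ih j j.2).1⟩
      have s2 : x ∈ Y (range fun j : Iio i => a j) := ⟨hx, by
        rintro _ ⟨j, rfl⟩
        exact (ih j j.2).2.2⟩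
      have s3 : ∃ c ∈ b i (range fun j : Iio i => a j), ¬ c ≤ x :=
        b3 i _ (fun h => hc i _ (Or.inl ⟨⟨_, s1, mk_range_le⟩, h, rfl⟩) s2) x s2
      have s4 : a i = s3.choose := by rw [ha i, dif_pos s3]
      have s5 : a i ∈ b i (range fun j : Iio i => a j) := s4 ▸ s3.choose_spec.1
      have s6 : a i ∈ M i := by
        rw [hM]
        exact Or.inr (mem_iUnion.2 ⟨⟨_, s1, mk_range_le⟩, s5⟩)
      exact ⟨s6, b1 i _ s5, s4 ▸ s3.choose_spec.2, fun h => hc i _ (Or.inr ⟨_, s6, rfl⟩) h⟩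
  have nl : ∀ i j, i ≠ j → ¬ a i ≤ a j := fun i j h => by
    rcases lt_or_gt_of_ne h with e | e
    · exact ((key j).2.1.2 _ ⟨⟨i, e⟩, rfl⟩).1
    · exact ((key i).2.1.2 _ ⟨⟨j, e⟩, rfl⟩).2
  refine (hX (range a) ?_ ?_).ne (mk_range_eq a fun i j e => by_contra fun h => nl i j h e.le)
  · rintro _ ⟨i, rfl⟩
    exact (key i).2.1.1
  · rintro _ ⟨i, rfl⟩ _ ⟨j, rfl⟩ h
    exact nl i j fun e => h (by rw [e])

theorem pw {θ c : Cardinal.{u}} (hθ : ℵ₀ ≤ θ) (h : c ≤ θ) :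
    ((2 : Cardinal.{u}) ^ θ) ^ c ≤ 2 ^ θ := by
  rw [← power_mul]
  exact power_le_power_left two_ne_zero ((mul_le_mul' le_rfl h).trans_eq (mul_eq_self hθ))

theorem narrow {θ : Cardinal.{u}} (hθ : ℵ₀ ≤ θ) (X : Set P)
    (hX : ∀ A ⊆ X, IsAntichain (· ≤ ·) A → #A ≤ θ) : Cov (2 ^ θ) X := by
  have h2 : ℵ₀ ≤ 2 ^ θ := hθ.trans (cantor θ).le
  obtain ⟨𝒞, h1, h3, h4⟩ := tree (O := (Order.succ θ).ord.ToType) (fun _ => 2 ^ θ) monotone_const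
    (fun _ => h2) (fun i => pw hθ (Order.lt_succ_iff.1 (mk_Iio_toType_ord_lt i))) X
    (fun A a b => (Order.lt_succ_iff.2 (hX A a b)).trans_eq (mk_ord_toType _).symm)
  refine (cov_iUnion h2 ((mk_ord_toType _).trans_le (Order.succ_le_of_lt (cantor θ))) _
    fun i => ⟨𝒞 i, h1 i, fun Z hZ F a b => ?_, subset_rfl⟩).mono h4
  obtain ⟨z, -, hz⟩ := h3 i Z hZ F a b
  exact ⟨z, hz⟩

theorem col {ρ τ : Cardinal.{u}} (hρ : ℵ₀ ≤ ρ) (h1 : ρ ≤ τ) (h2 : τ ^ ρ ≤ τ)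
    (hA : ∀ A : Set P, #A ≤ τ → Cov ρ A) (𝒟 : Set (Set P)) (d1 : #𝒟 ≤ τ)
    (d2 : ∀ C ∈ 𝒟, Dir τ C) : Cov ρ (⋃₀ 𝒟) := by
  have hτ := hρ.trans h1
  have hF : ∀ a : Set (Set P), ∃ F ⊆ ⋃₀ a, #F ≤ ρ ∧ (¬ Cen ρ (⋃₀ a) → ¬ ∃ z, ∀ f ∈ F, f ≤ z) := by
    intro a
    by_cases h : Cen ρ (⋃₀ a)
    · exact ⟨∅, empty_subset _, by simp, fun h' => absurd h h'⟩
    · unfold Cen at h
      simp only [not_forall] at h
      obtain ⟨F, h1, h2, h3⟩ := h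
      exact ⟨F, h1, h2, fun _ => h3⟩
  choose F F1 F2 F3 using hF
  let W : Set P := ⋃ a : {a : Set (Set P) // a ⊆ 𝒟 ∧ #a ≤ ρ}, F a
  have cW : #W ≤ τ := by
    refine (mk_iUnion_le _).trans ((mul_le_mul' (b := τ) (d := τ) ?_ (ciSup_le' ?_)).trans_eq
      (mul_eq_self hτ))
    · exact (mk_bounded_subset_le _ _).trans ((power_le_power_right (max_le d1 hτ)).trans h2)
    · exact fun a => (F2 a.1).trans h1
  have hx : ∀ C : 𝒟, ∃ z ∈ C.1, ∀ f ∈ W ∩ C.1, f ≤ z := fun C =>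
    d2 C C.2 _ inter_subset_right ((mk_le_mk_of_subset inter_subset_left).trans cW)
  choose x x1 x2 using hx
  obtain ⟨𝒵, z1, z2, z3⟩ := hA (range x) (mk_range_le.trans d1)
  refine ⟨(fun Z => ⋃ C ∈ {C : 𝒟 | x C ∈ Z}, C.1) '' 𝒵, mk_image_le.trans z1, ?_, ?_⟩
  · rintro _ ⟨Z, hZ, rfl⟩ G G1 G2
    have hc : ∀ g : G, ∃ C : 𝒟, x C ∈ Z ∧ g.1 ∈ C.1 := fun g => by simpa using G1 g.2
    choose c c1 c2 using hc
    have a1 : (range fun g => (c g).1) ⊆ 𝒟 := by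
      rintro _ ⟨g, rfl⟩
      exact (c g).2
    by_cases h : Cen ρ (⋃₀ range fun g => (c g).1)
    · exact h G (fun g hg => ⟨_, ⟨⟨g, hg⟩, rfl⟩, c2 ⟨g, hg⟩⟩) G2
    · obtain ⟨z, hz⟩ := z2 Z hZ (range fun g => x (c g)) (by
        rintro _ ⟨g, rfl⟩
        exact c1 g) (mk_range_le.trans G2)
      refine absurd ⟨z, fun f hf => ?_⟩ (F3 _ h)
      obtain ⟨_, ⟨g, rfl⟩, e⟩ := F1 _ hf
      exact (x2 (c g) f ⟨mem_iUnion.2 ⟨⟨_, a1, mk_range_le.trans G2⟩, hf⟩, e⟩).trans (hz _ ⟨g, rfl⟩)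
  · rintro y ⟨C, hC, hy⟩
    obtain ⟨Z, hZ, e⟩ := z3 ⟨⟨C, hC⟩, rfl⟩
    exact ⟨_, ⟨Z, hZ, rfl⟩, mem_biUnion (x := (⟨C, hC⟩ : 𝒟)) e hy⟩

theorem ideals {ρ : Cardinal.{u}} (hρ : ℵ₀ ≤ ρ) (h : Cov ρ (univ : Set P)) :
    ∃ 𝓘 : Set (Set P), #𝓘 ≤ ρ ∧ (∀ I ∈ 𝓘, Order.IsIdeal I) ∧ ⋃₀ 𝓘 = univ := by
  obtain ⟨𝒵, z1, z2, z3⟩ := h
  have nx : ∀ Z : 𝒵, ∃ Z' : 𝒵, ∀ x ∈ Z.1, ∀ y ∈ Z.1, ∃ z ∈ Z'.1, x ≤ z ∧ y ≤ z := by
    intro Z
    by_contra hc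
    push Not at hc
    choose x x1 y y1 e using hc
    obtain ⟨z, hz⟩ := z2 Z Z.2 (range x ∪ range y) (by
      rintro _ (⟨i, rfl⟩ | ⟨i, rfl⟩)
      exacts [x1 i, y1 i]) ((mk_union_le _ _).trans ((add_le_add (mk_range_le.trans z1)
        (mk_range_le.trans z1)).trans_eq (add_eq_self hρ)))
    obtain ⟨Z', a, b⟩ := z3 (mem_univ z)
    exact e ⟨Z', a⟩ z b (hz _ (Or.inl ⟨_, rfl⟩)) (hz _ (Or.inr ⟨_, rfl⟩))
  choose nx hn using nx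
  have up : ∀ (Z : 𝒵) n m, n ≤ m → ∀ x ∈ (nx^[n] Z).1, ∃ z ∈ (nx^[m] Z).1, x ≤ z := by
    intro Z n m h x hx
    induction m, h using Nat.le_induction with
    | base => exact ⟨x, hx, le_rfl⟩
    | succ m _ ih =>
      obtain ⟨z, a, b⟩ := ih
      obtain ⟨w, c, d, -⟩ := hn _ z a z a
      exact ⟨w, by rwa [Function.iterate_succ_apply'], b.trans d⟩
  refine ⟨(fun Z : 𝒵 => {w | ∃ n, ∃ v ∈ (nx^[n] Z).1, w ≤ v}) '' {Z | Z.1.Nonempty},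
    mk_image_le.trans ((mk_set_le _).trans z1), ?_, eq_univ_of_forall fun x => ?_⟩
  · rintro _ ⟨Z, ⟨x, hx⟩, rfl⟩
    refine ⟨?_, ⟨x, 0, x, hx, le_rfl⟩, ?_⟩
    · rintro a b hab ⟨n, v, c, d⟩
      exact ⟨n, v, c, hab.trans d⟩
    · rintro a ⟨n, v, c, d⟩ b ⟨m, w, c', d'⟩
      obtain ⟨v', e1, e2⟩ := up Z n _ (le_max_left n m) v c
      obtain ⟨w', e3, e4⟩ := up Z m _ (le_max_right n m) w c'
      obtain ⟨z, e5, e6, e7⟩ := hn _ v' e1 w' e3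
      exact ⟨z, ⟨max n m + 1, z, by rwa [Function.iterate_succ_apply'], le_rfl⟩,
        d.trans (e2.trans e6), d'.trans (e4.trans e7)⟩
  · obtain ⟨Z, a, b⟩ := z3 (mem_univ x)
    exact ⟨_, ⟨⟨Z, a⟩, ⟨x, b⟩, rfl⟩, 0, x, b, le_rfl⟩

theorem small {μ : Cardinal.{u}} (h1 : μ.IsSingular) (h2 : μ.IsStrongLimit)
    (h : ∀ A : Set P, IsAntichain (· ≤ ·) A → #A < μ) :
    ∃ θ < μ, μ.ord.cof ≤ θ ∧ ℵ₀ ≤ θ ∧ ∀ A : Set P, #A < μ → Cov (2 ^ θ) A := by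
  classical
  by_contra hc
  have h0 := h1.aleph0_le
  have hG : ∀ θ, ∃ A : Set P, #A < μ ∧ (θ < μ → μ.ord.cof ≤ θ → ℵ₀ ≤ θ → ¬ Cov (2 ^ θ) A) := by
    intro θ
    by_cases e : θ < μ ∧ μ.ord.cof ≤ θ ∧ ℵ₀ ≤ θ
    · by_contra hh
      push Not at hh
      exact hc ⟨θ, e.1, e.2.1, e.2.2, fun A hA => (hh A hA).2.2.2⟩
    · exact ⟨∅, by simpa using h1.pos, fun a b c => absurd ⟨a, b, c⟩ e⟩
  choose G G1 G2 using hG
  obtain ⟨s, s1, s2⟩ := Order.exists_cof_eq μ.ord.ToType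
  rw [Ordinal.cof_toType] at s2
  obtain ⟨e⟩ := Cardinal.eq.1 ((mk_ord_toType μ.ord.cof).trans s2.symm)
  obtain ⟨θ, hθ⟩ := exists_rec (T := μ.ord.cof.ord.ToType) (0 : Cardinal.{u})
    (fun i f => μ.ord.cof + #(Iic (e i).1) + #(⋃ j : Iio i, G (f j)))
    (fun δ f f' h => by
      rw [show (fun j : Iio δ => G (f j)) = fun j : Iio δ => G (f' j) from
        funext fun j => by rw [h j j.2]])
  have c0 : ℵ₀ ≤ μ.ord.cof :=
    Ordinal.aleph0_le_cof_iff.2 (Ordinal.one_lt_cof_iff.2 (isSuccLimit_ord h0))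
  have t1 : ∀ i, μ.ord.cof ≤ θ i := fun i => (le_self_add.trans le_self_add).trans_eq (hθ i).symm
  have t2 : ∀ i, #(Iic (e i).1) ≤ θ i := fun i =>
    (le_add_self.trans le_self_add).trans_eq (hθ i).symm
  have t3 : ∀ i, #(⋃ j : Iio i, G (θ j)) ≤ θ i := fun i => le_add_self.trans_eq (hθ i).symm
  have t4 : ∀ i, ℵ₀ ≤ θ i := fun i => c0.trans (t1 i)
  have t5 : ∀ i, ℵ₀ ≤ 2 ^ θ i := fun i => (t4 i).trans (cantor _).le
  have t6 : ∀ i, θ i < μ := fun i => by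
    rw [hθ]
    refine add_lt_of_lt h0 (add_lt_of_lt h0 h1.cof_ord_lt ?_) ((mk_iUnion_le _).trans_lt
      (mul_lt_of_lt h0 ((mk_Iio_toType_ord_lt i).trans h1.cof_ord_lt)
        (iSup_lt_of_lt_cof_ord (mk_Iio_toType_ord_lt i) fun j => G1 _)))
    rw [← Iio_insert]
    exact mk_insert_le.trans_lt
      (add_lt_of_lt h0 (mk_Iio_toType_ord_lt _) (one_lt_aleph0.trans_le h0))
  have p1 : ∀ i, ∃ A ⊆ G (θ i), ¬ Cov (2 ^ θ i) A ∧ ∀ x ∈ A, ∀ y ∈ A, ∀ j < i, ∀ a ∈ G (θ j),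
      (a ≤ x → a ≤ y) ∧ (x ≤ a → y ≤ a) := by
    intro i
    by_contra hh
    let B := ⋃ j : Iio i, G (θ j)
    refine G2 _ (t6 i) (t1 i) (t4 i) ((cov_iUnion (t5 i) (ι := Set B × Set B) ?_
      (fun t => {x ∈ G (θ i) | {a : B | a.1 ≤ x} = t.1 ∧ {a : B | x ≤ a.1} = t.2})
      fun t => by_contra fun n => hh ⟨_, sep_subset _ _, n, ?_⟩).mono
        fun x hx => mem_iUnion.2 ⟨(_, _), hx, rfl, rfl⟩)
    · rw [mk_prod, lift_id, mk_set]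
      exact (mul_le_mul' (power_le_power_left two_ne_zero (t3 i))
        (power_le_power_left two_ne_zero (t3 i))).trans_eq (mul_eq_self (t5 i))
    · rintro x ⟨-, x1, x2⟩ y ⟨-, y1, y2⟩ j hj a ha
      have hB : a ∈ B := mem_iUnion.2 ⟨⟨j, hj⟩, ha⟩
      exact ⟨(Set.ext_iff.1 (x1.trans y1.symm) ⟨a, hB⟩).1,
        (Set.ext_iff.1 (x2.trans y2.symm) ⟨a, hB⟩).1⟩
  choose A A1 A2 A3 using p1
  have p2 : ∀ i, (A i).Nonempty := fun i => nonempty_iff_ne_empty.2 fun n =>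
    A2 i ⟨∅, by simp, by simp, by simp [n]⟩
  choose y y1 using p2
  have p3 : ∀ i, ∃ S ⊆ A i \ ⋃ j, Iic (y j), IsAntichain (· ≤ ·) S ∧ θ i < #S := by
    intro i
    by_contra hh
    push Not at hh
    exact A2 i (((narrow (t4 i) _ hh).union (t5 i) (cov_iUnion (t5 i)
      ((mk_ord_toType _).trans_le ((t1 i).trans (cantor _).le)) _
        fun j => cov_Iic (t5 i) (y j))).mono (subset_diff_union _ _))
  choose S S1 S2 S3 using p3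
  have p4 : ∀ i j, i < j → ∀ a ∈ S i, ∀ b ∈ S j, ¬ a ≤ b ∧ ¬ b ≤ a := by
    intro i j hij a ha b hb
    have k := fun z hz => A3 j b (S1 j hb).1 z hz i hij a (A1 i (S1 i ha).1)
    exact ⟨fun n => (S1 i ha).2 (mem_iUnion.2 ⟨j, (k _ (y1 j)).1 n⟩),
      fun n => A2 j ((cov_Iic (t5 j) a).mono fun z hz => (k z hz).2 n)⟩
  have p5 := h (⋃ i, S i) (by
    intro a ha b hb hab
    obtain ⟨i, ha⟩ := mem_iUnion.1 ha
    obtain ⟨j, hb⟩ := mem_iUnion.1 hb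
    rcases lt_trichotomy i j with n | rfl | n
    · exact (p4 i j n a ha b hb).1
    · exact S2 i ha hb hab
    · exact (p4 j i n b hb a ha).2)
  have p6 : (univ : Set μ.ord.ToType) ⊆ ⋃ i, Iic (e i).1 := fun a _ => by
    obtain ⟨b, b1, b2⟩ := s1 a
    exact mem_iUnion.2 ⟨e.symm ⟨b, b1⟩, by simpa using b2⟩
  refine (mul_lt_of_lt h0 h1.cof_ord_lt p5).not_ge (((mk_ord_toType μ).symm.trans
    mk_univ.symm).trans_le ((mk_le_mk_of_subset p6).trans ((mk_iUnion_le _).trans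
      (mul_le_mul' (mk_ord_toType _).le (ciSup_le' fun i => ?_)))))
  exact (t2 i).trans ((S3 i).le.trans (mk_le_mk_of_subset (subset_iUnion S i)))

theorem main {μ : Cardinal.{u}} (h1 : μ.IsSingular) (h2 : μ.IsStrongLimit)
    (h : ∀ A : Set P, IsAntichain (· ≤ ·) A → #A < μ) :
    ∃ 𝓘 : Set (Set P), #𝓘 < μ ∧ (∀ I ∈ 𝓘, Order.IsIdeal I) ∧ ⋃₀ 𝓘 = univ := by
  obtain ⟨θ, t1, t2, t3, t4⟩ := small h1 h2 h
  have h0 := h1.aleph0_le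
  have t5 : ℵ₀ ≤ 2 ^ θ := t3.trans (cantor _).le
  suffices H : Cov (2 ^ θ) (univ : Set P) by
    obtain ⟨𝓘, a, b⟩ := ideals t5 H
    exact ⟨𝓘, a.trans_lt (h2.isStrongPrelimit t1), b⟩
  obtain ⟨s, s1, s2⟩ := Order.exists_cof_eq μ.ord.ToType
  rw [Ordinal.cof_toType] at s2
  have hr := fun i => exists_min (fun e => e ∈ s ∧ i ≤ e) (s1 i)
  choose r r1 r2 using hr
  let σ : μ.ord.ToType → Cardinal.{u} := fun e => max #(Iic e) (2 ^ θ)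
  have u1 : ∀ e, ℵ₀ ≤ σ e := fun e => t5.trans (le_max_right _ _)
  have u2 : ∀ e, ℵ₀ ≤ 2 ^ σ e := fun e => (u1 e).trans (cantor _).le
  have u3 : ∀ e, 2 ^ σ e < μ := fun e => h2.isStrongPrelimit (max_lt (by
    rw [← Iio_insert]
    exact mk_insert_le.trans_lt (add_lt_of_lt h0 (mk_Iio_toType_ord_lt _)
      (one_lt_aleph0.trans_le h0))) (h2.isStrongPrelimit t1))
  obtain ⟨𝒞, c1, c2, c3⟩ := tree (O := μ.ord.ToType) (fun i => 2 ^ σ (r i))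
    (fun i j hij => power_le_power_left two_ne_zero (max_le_max (mk_le_mk_of_subset
      (Iic_subset_Iic.2 (not_lt.1 fun n => r2 i _ n ⟨(r1 j).1, hij.trans (r1 j).2⟩))) le_rfl))
    (fun i => u2 _) (fun i => pw (u1 _) ((mk_le_mk_of_subset (Iio_subset_Iic_self.trans
      (Iic_subset_Iic.2 (r1 i).2))).trans (le_max_left _ _))) (univ : Set P)
    (fun A _ b => (h A b).trans_eq (mk_ord_toType _).symm)
  refine (cov_iUnion t5 (ι := s) (s2.trans_le (t2.trans (cantor _).le))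
    (fun e => ⋃₀ ⋃ i : {i | r i = e}, 𝒞 i) fun e => col (τ := 2 ^ σ e) t5
      ((le_max_right _ _).trans (cantor _).le) (pw (u1 _) (le_max_right _ _))
      (fun A hA => t4 A (hA.trans_lt (u3 _))) _ ?_ ?_).mono (c3.trans ?_)
  · refine (mk_iUnion_le _).trans ((mul_le_mul' (b := 2 ^ σ e) (d := 2 ^ σ e) ?_
      (ciSup_le' ?_)).trans_eq (mul_eq_self (u2 _)))
    · exact (mk_le_mk_of_subset (t := Iic e.1) fun i hi => (r1 i).2.trans_eq hi).trans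
        ((le_max_left _ _).trans (cantor _).le)
    · rintro ⟨i, hi⟩
      exact (c1 i).trans_eq (by rw [show r i = e from hi])
  · intro C hC
    obtain ⟨⟨i, hi⟩, hC⟩ := mem_iUnion.1 hC
    have := c2 i C hC
    rwa [show r i = e from hi] at this
  · intro x hx
    obtain ⟨i, C, a, b⟩ := mem_iUnion.1 hx
    exact mem_iUnion.2 ⟨⟨r i, (r1 i).1⟩, C, mem_iUnion.2 ⟨⟨i, rfl⟩, a⟩, b⟩

end Pool.Agent.H42.IdCov
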