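import Mathlib

/-! Independent group topologies do not exist on groups of strong limit size of cofinality omega. -/

namespace Pool.Agent.H42.IndT

open Set Filter Topology Cardinal

universe u

/-- The Zariski topology: solution sets of `n • x = g` form a subbase of closed sets. -/
def zar (G : Type u) [AddCommGroup G] : TopologicalSpace G :=
  TopologicalSpace.generateFrom {U | ∃ (n : ℤ) (g : G), U = {x | n • x = g}ᶜ}

def ZCof (G : Type u) [AddCommGroup G] : Prop :=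
  ∀ s : Set G, @IsClosed G (zar G) s ↔ s = Set.univ ∨ s.Finite

def Indep {G : Type u} (t₁ t₂ : TopologicalSpace G) : Prop :=
  ∀ s : Set G, (@IsClosed G t₁ s ∧ @IsClosed G t₂ s) ↔ s = Set.univ ∨ s.Finite

def HGT {G : Type u} [AddCommGroup G] (t : TopologicalSpace G) : Prop :=
  @IsTopologicalAddGroup G t _ ∧ @T2Space G t

variable {G : Type u}

lemma cl_small [TopologicalSpace G] [T2Space G] {κ : Cardinal.{u}} (hκ : IsStrongLimit κ)
    {s : Set G} (hs : #s < κ) : #(closure s) < κ := by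
  refine lt_of_le_of_lt (mk_le_of_injective (f := fun x : closure s =>
    (comap (Subtype.val : s → G) (𝓝 x.1)).sets) fun x y h => ?_) ?_
  · have h' : comap (Subtype.val : s → G) (𝓝 x.1) = comap Subtype.val (𝓝 y.1) :=
      Filter.filter_eq h
    have := mem_closure_iff_comap_neBot.1 x.2
    refine Subtype.ext (tendsto_nhds_unique (l := comap (Subtype.val : s → G) (𝓝 x.1))
      tendsto_comap ?_)
    rw [h']; exact tendsto_comap
  · rw [mk_set, mk_set]
    exact hκ.isStrongPrelimit (hκ.isStrongPrelimit hs)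

lemma escape [TopologicalSpace G] [T1Space G] (x : ℕ → G) (C : ℕ → Set G)
    (hC : ∀ n, IsClosed (C n)) (hx : ∀ n m, n ≤ m → x m ∈ C n) (hy : ∀ y, ∃ n, y ∉ C n) :
    IsClosed (range x) := by
  refine isClosed_of_closure_subset fun y hy' => ?_
  obtain ⟨n, hn⟩ := hy y
  have : closure (range x) ⊆ x '' Iio n ∪ C n := closure_minimal (by
    rintro _ ⟨m, rfl⟩
    rcases lt_or_ge m n with h | h
    exacts [Or.inl ⟨m, h, rfl⟩, Or.inr (hx n m h)])
    (((finite_Iio n).image x).isClosed.union (hC n))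
  exact image_subset_range _ _ ((this hy').resolve_right hn)

variable [AddCommGroup G]

lemma sg_small {κ : Cardinal.{u}} (hκ : ℵ₀ < κ) {s : Set G} (hs : #s < κ) :
    #(AddSubgroup.closure s) < κ := by
  rcases s.eq_empty_or_nonempty with rfl | hne
  · simpa using one_lt_aleph0.trans hκ
  have := hne.to_subtype
  have h : AddSubgroup.closure s ≤ (FreeAbelianGroup.lift (Subtype.val : s → G)).range :=
    (AddSubgroup.closure_le _).2 fun x hx => ⟨FreeAbelianGroup.of ⟨x, hx⟩, by simp⟩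
  refine lt_of_le_of_lt ((mk_le_mk_of_subset h).trans (mk_range_le (f := FreeAbelianGroup.lift
    (Subtype.val : s → G)))) ?_
  rw [mk_freeAbelianGroup]
  exact max_lt hs hκ

lemma half [TopologicalSpace G] [IsTopologicalAddGroup G] {U : Set G} (hU : U ∈ 𝓝 (0 : G)) :
    ∃ V ∈ 𝓝 (0 : G), ∀ a ∈ V, ∀ b ∈ V, a - b ∈ U := exists_nhds_half_neg hU

lemma sepclosed [TopologicalSpace G] [IsTopologicalAddGroup G] [T1Space G] {W : Set G}
    (hW : W ∈ 𝓝 (0 : G)) (x : ℕ → G) (hx : ∀ m n, m < n → x n - x m ∉ W) :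
    IsClosed (range x) := by
  refine isClosed_of_closure_subset fun y hy => ?_
  obtain ⟨N, hN, hN'⟩ := half hW
  have hV : (fun z => z - y) ⁻¹' N ∈ 𝓝 y :=
    (continuous_sub_right y).continuousAt.preimage_mem_nhds (by simpa using hN)
  have hs : (range x ∩ (fun z => z - y) ⁻¹' N).Subsingleton := by
    rintro _ ⟨⟨m, rfl⟩, hm⟩ _ ⟨⟨n, rfl⟩, hn⟩
    rcases lt_trichotomy m n with h | h | h
    · exact absurd (by simpa using hN' _ hn _ hm) (hx m n h)
    · rw [h]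
    · exact absurd (by simpa using hN' _ hm _ hn) (hx n m h)
  have : y ∈ closure (range x ∩ (fun z => z - y) ⁻¹' N) := by
    rw [mem_closure_iff_nhds] at hy ⊢
    intro t ht
    obtain ⟨z, h1, h2⟩ := hy _ (inter_mem ht hV)
    exact ⟨z, h1.1, h2, h1.2⟩
  rw [hs.finite.isClosed.closure_eq] at this
  exact this.1

def Bi (t₁ t₂ : TopologicalSpace G) : Prop :=
  ∃ S : Set G, IsClosed[t₁] S ∧ IsClosed[t₂] S ∧ S.Infinite ∧ S ≠ Set.univ

lemma ne_univ {S : Set G} (h : #S < #G) : S ≠ Set.univ := by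
  rintro rfl
  simp at h

lemma caseB {t₁ t₂ : TopologicalSpace G} (h₁ : HGT t₁) (h₂ : HGT t₂) (hκ : IsStrongLimit #G)
    (h0 : ℵ₀ < #G) (H : AddSubgroup G) (hH : #H < #G) {V₁ V₂ F : Set G} (hV : V₂ ∈ @nhds G t₂ 0)
    (hd : ∀ a ∈ V₁, ∀ b ∈ V₁, ∀ c ∈ V₂, ∀ d ∈ V₂, a - b = c - d → a - b ∈ H) (hF : F.Finite)
    (hc : ∀ g, ∃ f ∈ F, g - f ∈ V₁) : Bi t₁ t₂ := by
  have hs : #V₂ < #G := by
    have : ∀ f, #(V₂ ∩ {g | g - f ∈ V₁} : Set G) < #G := by
      intro f
      rcases (V₂ ∩ {g | g - f ∈ V₁}).eq_empty_or_nonempty with e | ⟨a, ha⟩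
      · rw [e]; simpa using aleph0_pos.trans h0
      refine lt_of_le_of_lt (mk_le_of_injective (f := fun b : (V₂ ∩ {g | g - f ∈ V₁} : Set G) =>
        (⟨b - a, by simpa using hd _ b.2.2 _ ha.2 _ b.2.1 _ ha.1 (by simp)⟩ : H))
        fun b c e => Subtype.ext (by simpa using e)) hH
    refine lt_of_le_of_lt (mk_le_mk_of_subset (t := ⋃ f ∈ F, V₂ ∩ {g | g - f ∈ V₁}) fun g hg => ?_)
      ?_
    · obtain ⟨f, a, b⟩ := hc g
      exact mem_iUnion₂.2 ⟨f, a, hg, b⟩
    · clear hc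
      induction F, hF using Set.Finite.induction_on with
      | empty => simpa using aleph0_pos.trans h0
      | insert _ _ ih =>
        rw [biUnion_insert]
        exact (mk_union_le _ _).trans_lt (add_lt_of_lt h0.le (this _) ih)
  have : Infinite G := infinite_iff.2 h0.le
  let e := Infinite.natEmbedding G
  let K := AddSubgroup.closure (V₂ ∪ range e)
  have hK : #K < #G := sg_small h0 ((mk_union_le _ _).trans_lt (add_lt_of_lt h0.le hs
    ((le_aleph0_iff_set_countable.2 (countable_range e)).trans_lt h0)))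
  obtain ⟨g₁, s₁⟩ := h₁
  obtain ⟨g₂, s₂⟩ := h₂
  let L := @AddSubgroup.topologicalClosure G t₁ _ _ K
  have hL : (K : Set G) ⊆ L := @subset_closure G t₁ _
  refine ⟨L, @isClosed_closure G t₁ _, ?_, (infinite_range_of_injective e.injective).mono
    ((subset_union_right.trans AddSubgroup.subset_closure).trans hL),
    ne_univ (@cl_small G t₁ _ _ hκ _ hK)⟩
  exact @AddSubgroup.isClosed_of_isOpen G _ t₂ _ L (@AddSubgroup.isOpen_of_mem_nhds G _ t₂ _ L 0
    (mem_of_superset hV ((subset_union_left.trans AddSubgroup.subset_closure).trans hL)))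

lemma reg [TopologicalSpace G] [IsTopologicalAddGroup G] {O C : Set G} (hO : IsOpen O)
    (hC : IsClosed C) {x : G} (h1 : x ∈ O) (h2 : x ∉ C) :
    ∃ P, IsOpen P ∧ x ∈ P ∧ closure P ⊆ O \ C := by
  obtain ⟨t, a, b, c⟩ := exists_mem_nhds_isClosed_subset ((hO.sdiff hC).mem_nhds ⟨h1, h2⟩)
  exact ⟨interior t, isOpen_interior, mem_interior_iff_mem_nhds.2 a,
    (closure_minimal interior_subset b).trans c⟩

theorem main {t₁ t₂ : TopologicalSpace G} (h₁ : HGT t₁) (h₂ : HGT t₂) (hκ : IsStrongLimit #G)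
    (h0 : ℵ₀ < #G) (A : ℕ → Set G) (hA : ∀ n, #(A n) < #G) (hU : ⋃ n, A n = Set.univ) :
    Bi t₁ t₂ := by
  have cnt : ∀ x : ℕ → G, range x ≠ Set.univ := fun x =>
    ne_univ ((le_aleph0_iff_set_countable.2 (countable_range x)).trans_lt h0)
  obtain ⟨H, H0, HS⟩ : ∃ H : ℕ → AddSubgroup G, H 0 = ⊥ ∧ ∀ n, H (n + 1) = AddSubgroup.closure
      (closure[t₁] (H n) ∪ closure[t₂] (H n) ∪ A n) :=
    ⟨fun n => Nat.rec ⊥ (fun n K => AddSubgroup.closure
      (closure[t₁] K ∪ closure[t₂] K ∪ A n)) n, rfl, fun _ => rfl⟩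
  have hH : ∀ n, closure[t₁] (H n) ∪ closure[t₂] (H n) ∪ A n ⊆ H (n + 1) := fun n => by
    rw [HS]; exact AddSubgroup.subset_closure
  have hs : ∀ n, #(H n) < #G := by
    intro n
    induction n with
    | zero => simpa [H0] using one_lt_aleph0.trans h0
    | succ n ih =>
      rw [HS]
      exact sg_small h0 ((mk_union_le _ _).trans_lt (add_lt_of_lt h0.le ((mk_union_le _ _).trans_lt
        (add_lt_of_lt h0.le (@cl_small G t₁ h₁.2 _ hκ _ ih) (@cl_small G t₂ h₂.2 _ hκ _ ih)))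
        (hA n)))
  have hcov : ∀ y, ∃ n, y ∈ H n := fun y => by
    obtain ⟨n, hn⟩ := mem_iUnion.1 (hU.ge (mem_univ y))
    exact ⟨n + 1, hH n (Or.inr hn)⟩
  by_cases hc : ∀ n O₁ O₂, IsOpen[t₁] O₁ → IsOpen[t₂] O₂ → (O₁ ∩ O₂).Nonempty →
      ¬ O₁ ∩ O₂ ⊆ H n
  · have st : ∀ n (O : Set G × Set G), ∃ P : Set G × Set G, IsOpen[t₁] O.1 ∧ IsOpen[t₂] O.2 ∧
        (O.1 ∩ O.2).Nonempty → (IsOpen[t₁] P.1 ∧ IsOpen[t₂] P.2 ∧ (P.1 ∩ P.2).Nonempty) ∧
          closure[t₁] P.1 ⊆ O.1 \ H n ∧ closure[t₂] P.2 ⊆ O.2 \ H n := by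
      intro n O
      by_cases h : IsOpen[t₁] O.1 ∧ IsOpen[t₂] O.2 ∧ (O.1 ∩ O.2).Nonempty
      · obtain ⟨x, x1, x2⟩ := not_subset.1 (hc (n + 1) _ _ h.1 h.2.1 h.2.2)
        obtain ⟨P, a1, a2, a3⟩ := @reg G _ t₁ h₁.1 _ _ h.1 (@isClosed_closure G t₁ (H n)) x x1.1
          fun h => x2 (hH n (Or.inl (Or.inl h)))
        obtain ⟨Q, b1, b2, b3⟩ := @reg G _ t₂ h₂.1 _ _ h.2.1 (@isClosed_closure G t₂ (H n)) x x1.2
          fun h => x2 (hH n (Or.inl (Or.inr h)))
        exact ⟨(P, Q), fun _ => ⟨⟨a1, b1, x, a2, b2⟩,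
          a3.trans (sdiff_subset_sdiff_right (@subset_closure G t₁ _)),
          b3.trans (sdiff_subset_sdiff_right (@subset_closure G t₂ _))⟩⟩
      · exact ⟨O, fun h' => absurd h' h⟩
    choose f hf using st
    obtain ⟨O, O0, OS⟩ : ∃ O : ℕ → Set G × Set G, O 0 = (Set.univ, Set.univ) ∧
      ∀ n, O (n + 1) = f n (O n) := ⟨fun n => Nat.rec (Set.univ, Set.univ) f n, rfl, fun _ => rfl⟩
    have hO : ∀ n, IsOpen[t₁] (O n).1 ∧ IsOpen[t₂] (O n).2 ∧ ((O n).1 ∩ (O n).2).Nonempty := by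
      intro n
      induction n with
      | zero => rw [O0]; exact ⟨@isOpen_univ G t₁, @isOpen_univ G t₂, 0, trivial, trivial⟩
      | succ n ih => rw [OS]; exact (hf n _ ih).1
    have k1 : ∀ n, closure[t₁] (O (n + 1)).1 ⊆ (O n).1 \ H n := fun n => by
      rw [OS]; exact (hf n _ (hO n)).2.1
    have k2 : ∀ n, closure[t₂] (O (n + 1)).2 ⊆ (O n).2 \ H n := fun n => by
      rw [OS]; exact (hf n _ (hO n)).2.2
    have a1 : Antitone fun n => (O n).1 := antitone_nat_of_succ_le fun n =>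
      (@subset_closure G t₁ _).trans ((k1 n).trans sdiff_subset)
    have a2 : Antitone fun n => (O n).2 := antitone_nat_of_succ_le fun n =>
      (@subset_closure G t₂ _).trans ((k2 n).trans sdiff_subset)
    choose x hx using fun n => (hO (n + 1)).2.2
    have m1 : ∀ n m, n ≤ m → x m ∈ closure[t₁] (O (n + 1)).1 := fun n m h =>
      @subset_closure G t₁ _ _ (a1 (Nat.succ_le_succ h) (hx m).1)
    have m2 : ∀ n m, n ≤ m → x m ∈ closure[t₂] (O (n + 1)).2 := fun n m h =>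
      @subset_closure G t₂ _ _ (a2 (Nat.succ_le_succ h) (hx m).2)
    refine ⟨range x, @escape G t₁ (@T2Space.t1Space G t₁ h₁.2) x
      (fun n => closure[t₁] (O (n + 1)).1) (fun n => @isClosed_closure G t₁ _) m1
      fun y => (hcov y).imp fun n hn h => (k1 n h).2 hn,
      @escape G t₂ (@T2Space.t1Space G t₂ h₂.2) x
      (fun n => closure[t₂] (O (n + 1)).2) (fun n => @isClosed_closure G t₂ _) m2
      fun y => (hcov y).imp fun n hn h => (k2 n h).2 hn, fun hfin => ?_, cnt x⟩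
    have := hfin.to_subtype
    obtain ⟨y, hy⟩ := Finite.exists_infinite_fiber fun n => (⟨x n, n, rfl⟩ : range x)
    obtain ⟨n, hn⟩ := hcov y
    obtain ⟨m, e1, e2⟩ := (infinite_coe_iff.1 hy).exists_gt n
    refine (k1 n (m1 n m e2.le)).2 ?_
    rw [← show _ = y from e1] at hn
    exact hn
  push Not at hc
  obtain ⟨n, O₁, O₂, o₁, o₂, ⟨z, z₁, z₂⟩, hsub⟩ := hc
  have tr : ∀ {t : TopologicalSpace G}, HGT t → ∀ {O}, IsOpen[t] O → z ∈ O →
      ∃ V ∈ @nhds G t 0, (∀ a ∈ V, ∀ b ∈ V, a - b + z ∈ O) ∧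
        ∃ W ∈ @nhds G t 0, W ⊆ V ∧ ∀ a ∈ W, ∀ b ∈ W, a - b ∈ V := by
    intro t ⟨_, _⟩ O o hz
    obtain ⟨V, a, b⟩ := half (U := (· + z) ⁻¹' O)
      ((continuous_add_const z).continuousAt.preimage_mem_nhds (by simpa using o.mem_nhds hz))
    obtain ⟨W, c, d⟩ := half a
    exact ⟨V, a, b, W, c, fun w hw => by simpa using d w hw 0 (mem_of_mem_nhds c), d⟩
  obtain ⟨V₁, v₁, p₁, W₁, w₁, -, r₁⟩ := tr h₁ o₁ z₁
  obtain ⟨V₂, v₂, p₂, W₂, w₂, q₂, -⟩ := tr h₂ o₂ z₂
  have hd : ∀ a ∈ V₁, ∀ b ∈ V₁, ∀ c ∈ V₂, ∀ d ∈ V₂, a - b = c - d → a - b ∈ H n := by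
    intro a ha b hb c hc d hd e
    have := (H n).sub_mem (hsub ⟨p₁ a ha b hb, e ▸ p₂ c hc d hd⟩) (hsub ⟨z₁, z₂⟩)
    simpa using this
  by_cases c1 : ∃ F : Set G, F.Finite ∧ ∀ g, ∃ f ∈ F, g - f ∈ V₁
  · obtain ⟨F, a, b⟩ := c1
    exact caseB h₁ h₂ hκ h0 _ (hs n) v₂ hd a b
  by_cases c2 : ∃ F : Set G, F.Finite ∧ ∀ g, ∃ f ∈ F, g - f ∈ V₂
  · obtain ⟨F, a, b⟩ := c2
    obtain ⟨S, s1, s2, s3⟩ := caseB h₂ h₁ hκ h0 _ (hs n) v₁
      (fun a ha b hb c hc d hd' e => e ▸ hd c hc d hd' a ha b hb e.symm) a b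
    exact ⟨S, s2, s1, s3⟩
  have nx : ∀ F : Set G, F.Finite → ∃ g, ∀ f ∈ F, g - f ∉ W₁ ∧ g - f ∉ W₂ := by
    intro F hF
    by_contra h
    push Not at h c1 c2
    obtain ⟨g, hg⟩ := c1 _ (hF.image2 (· - ·) hF)
    obtain ⟨y, hy⟩ := c2 _ (hF.union (hF.image (· - g)))
    obtain ⟨f, f1, f2⟩ := h y
    have y1 : y - f ∈ W₁ := by_contra fun h => hy f (Or.inl f1) (q₂ (f2 h))
    obtain ⟨f', g1, g2⟩ := h (y + g)
    have y2 : y + g - f' ∈ W₁ := by_contra fun h =>
      hy (f' - g) (Or.inr ⟨f', g1, rfl⟩) (q₂ (by convert g2 h using 1; abel))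
    exact hg (f' - f) ⟨f', g1, f, f1, rfl⟩ (by convert r₁ _ y2 _ y1 using 1; abel)
  obtain ⟨x, hx⟩ := exists_seq_of_forall_finset_exists (fun _ : G => True)
    (fun f g => g - f ∉ W₁ ∧ g - f ∉ W₂) fun s _ =>
      (nx s s.finite_toSet).imp fun g hg => ⟨trivial, hg⟩
  refine ⟨range x, @sepclosed G _ t₁ h₁.1 (@T2Space.t1Space G t₁ h₁.2) _ w₁ x
    fun m n h => (hx.2 m n h).1, @sepclosed G _ t₂ h₂.1 (@T2Space.t1Space G t₂ h₂.2) _ w₂ x
    fun m n h => (hx.2 m n h).2, infinite_range_of_injective (Function.Injective.of_lt_imp_ne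
      fun m n h e => (hx.2 m n h).1 (by rw [e, sub_self]; exact @mem_of_mem_nhds G t₁ _ _ w₁)),
    cnt x⟩

noncomputable def b : ℕ → Cardinal.{0} := fun n => Nat.rec ℵ₀ (fun _ c => 2 ^ c) n

theorem ex : ∃ (G : Type) (_ : AddCommGroup G), ZCof G ∧ IsStrongLimit #G ∧ ℵ₀ < #G ∧
    ∃ A : ℕ → Set G, (∀ n, #(A n) < #G) ∧ ⋃ n, A n = Set.univ := by
  let ι := Σ n : ℕ, (b n).out
  have hb : StrictMono b := strictMono_nat_of_lt_succ fun n => cantor _
  have h1 : #ι = sum b := by simp [ι]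
  have hlt : ∀ n, b n < #ι := fun n => h1 ▸ (hb (Nat.lt_succ_self n)).trans_le (le_sum b _)
  have h0 : ℵ₀ < #ι := hlt 0
  have : Infinite ι := infinite_iff.2 h0.le
  have hG : #(ι →₀ ZMod 2) = #ι := by
    simpa using ((natCast_lt_aleph0 (n := 2)).trans h0).le
  obtain ⟨e⟩ := Cardinal.eq.1 hG.symm
  refine ⟨ι →₀ ZMod 2, inferInstance, fun s => ⟨fun h => ?_, ?_⟩, ?_, hG ▸ h0,
    fun n => range fun a : (b n).out => e ⟨n, a⟩,
    fun n => hG ▸ (mk_range_le.trans_eq (mk_out _)).trans_lt (hlt n), eq_univ_of_forall fun g => ?_⟩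
  · have : ∀ U, TopologicalSpace.GenerateOpen {U | ∃ (n : ℤ) (g : ι →₀ ZMod 2),
        U = {x | n • x = g}ᶜ} U → U = ∅ ∨ Uᶜ.Finite := by
      intro U hU
      induction hU with
      | basic U hU =>
        obtain ⟨n, g, rfl⟩ := hU
        rw [compl_compl, compl_empty_iff]
        have e : ∀ x : ι →₀ ZMod 2, n • x = (n : ZMod 2) • x := fun x =>
          (Int.cast_smul_eq_zsmul _ _ _).symm
        simp only [e]
        have : (n : ZMod 2) = 0 ∨ (n : ZMod 2) = 1 := by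
          generalize (n : ZMod 2) = k; revert k; decide
        rcases this with h | h <;> rw [h]
        · by_cases hg : 0 = g <;> simp [hg]
        · simp
      | univ => simp
      | inter U V _ _ a b =>
        rcases a with rfl | a
        · simp
        rcases b with rfl | b
        · simp
        exact Or.inr (by rw [compl_inter]; exact a.union b)
      | sUnion S _ a =>
        by_cases h : ∀ U ∈ S, U = ∅
        · exact Or.inl (sUnion_eq_empty.2 h)
        · push Not at h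
          obtain ⟨U, u1, u2⟩ := h
          exact Or.inr (((a U u1).resolve_left u2.ne_empty).subset
            (compl_subset_compl.2 (subset_sUnion_of_mem u1)))
    simpa using this _ (@IsClosed.isOpen_compl _ (zar _) _ h)
  · letI := zar (ι →₀ ZMod 2)
    rintro (rfl | h)
    · exact isClosed_univ
    · have : T1Space (ι →₀ ZMod 2) := ⟨fun g => ⟨TopologicalSpace.GenerateOpen.basic _
        ⟨1, g, by simp⟩⟩⟩
      exact h.isClosed
  · rw [hG]
    refine ⟨(aleph0_pos.trans h0).ne', fun x hx => ?_⟩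
    by_contra hn
    have : ∀ n, b n ≤ x := fun n => le_of_not_gt fun h =>
      hn ((power_le_power_left two_ne_zero h.le).trans_lt (hlt (n + 1)))
    refine hx.not_ge (h1 ▸ (sum_le_sum _ _ this).trans ?_)
    rw [sum_const', mk_nat, mul_eq_max le_rfl (this 0)]
    exact max_le (this 0) le_rfl
  · obtain ⟨⟨n, a⟩, rfl⟩ := e.surjective g
    exact mem_iUnion.2 ⟨n, a, rfl⟩

end Pool.Agent.H42.IndT
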