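import Mathlib

/-! An even two-colouring of the reals with both colours on the differences of every
uncountable set. -/

namespace Pool.Agent.H42.IsoCol

open Set

theorem fib {X Y : Type*} [Countable Y] (f : X → Y) {U : Set X} (hU : ¬ U.Countable) :
    ∃ c, ¬ {x | x ∈ U ∧ f x = c}.Countable := by
  by_contra hc
  push Not at hc
  exact hU ((countable_iUnion hc).mono fun x hx => mem_iUnion.2 ⟨f x, by exact ⟨hx, rfl⟩⟩)

variable {ι : Type*} [LinearOrder ι] [WellFoundedLT ι]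

theorem sierp (s : ι → ℝ) {U : Set ι} (h : ∀ u ∈ U, ∀ v ∈ U, u < v → s u < s v) :
    U.Countable := by
  have : ∀ u, ∃ q : ℚ, u ∈ U → s u < q ∧ ∀ v ∈ U, u < v → q < s v := by
    intro u
    by_cases hu : u ∈ U
    · by_cases c : {v | v ∈ U ∧ u < v}.Nonempty
      · obtain ⟨w, w1, w2⟩ := wellFounded_lt.has_min _ c
        obtain ⟨q, q1, q2⟩ := exists_rat_btwn (h u hu w w1.1 w1.2)
        refine ⟨q, fun _ => ⟨q1, fun v hv huv => q2.trans_le ?_⟩⟩
        rcases (not_lt.1 (w2 v ⟨hv, huv⟩)).eq_or_lt with d | d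
        · rw [d]
        · exact (h w w1.1 v hv d).le
      · obtain ⟨q, hq⟩ := exists_rat_gt (s u)
        exact ⟨q, fun _ => ⟨hq, fun v hv huv => absurd ⟨v, hv, huv⟩ c⟩⟩
    · exact ⟨0, fun c => absurd c hu⟩
  choose q hq using this
  refine MapsTo.countable_of_injOn (f := q) (mapsTo_univ _ _) (fun u hu v hv e => ?_)
    countable_univ
  by_contra hne
  rcases lt_or_gt_of_ne hne with c | c
  · exact ((hq u hu).2 v hv c).not_gt (e ▸ (hq v hv).1)
  · exact ((hq v hv).2 u hu c).not_gt (e ▸ (hq u hu).1)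

/-- The first two points of the support, in the order given by `r`, increase in the
well-order. -/
def Col (r : ι → ℝ) (z : ι →₀ ℚ) : Prop :=
  ∃ u v, z u ≠ 0 ∧ z v ≠ 0 ∧ r u < r v ∧ u < v ∧ ∀ w, z w ≠ 0 → w = u ∨ r v ≤ r w

omit [WellFoundedLT ι] in
theorem col_neg (r : ι → ℝ) (z : ι →₀ ℚ) : Col r (-z) ↔ Col r z := by
  simp [Col]

theorem base {r : ι → ℝ} (hr : Function.Injective r) {X : Set (ι →₀ ℚ)} (hX : ¬ X.Countable)
    (hp : ∀ p, {x | x ∈ X ∧ x p ≠ 0}.Countable) :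
    (∃ x ∈ X, ∃ y ∈ X, x ≠ y ∧ Col r (x - y)) ∧ ∃ x ∈ X, ∃ y ∈ X, x ≠ y ∧ ¬ Col r (x - y) := by
  have h0 : ¬ (X \ {0}).Countable := fun c =>
    hX ((c.insert 0).mono fun x hx => (eq_or_ne x 0).imp_right fun d => ⟨hx, d⟩)
  obtain ⟨x₀, hx₀⟩ : (X \ {0}).Nonempty := nonempty_iff_ne_empty.2 fun c => h0 (c ▸ countable_empty)
  obtain ⟨p₀, -⟩ := Finsupp.support_nonempty_iff.2 hx₀.2
  have hu : ∀ x : ι →₀ ℚ, ∃ u, ∃ q : ℚ, x ≠ 0 →
      x u ≠ 0 ∧ r u < q ∧ ∀ w, x w ≠ 0 → w = u ∨ q < r w := by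
    intro x
    by_cases hx : x = 0
    · exact ⟨p₀, 0, fun c => absurd hx c⟩
    obtain ⟨u, u1, u2⟩ := x.support.exists_min_image r (Finsupp.support_nonempty_iff.2 hx)
    by_cases c : (x.support.erase u).Nonempty
    · obtain ⟨v, v1, v2⟩ := Finset.exists_min_image _ r c
      rw [Finset.mem_erase] at v1
      obtain ⟨q, q1, q2⟩ := exists_rat_btwn ((u2 v v1.2).lt_of_ne (hr.ne v1.1.symm))
      exact ⟨u, q, fun _ => ⟨Finsupp.mem_support_iff.1 u1, q1, fun w hw =>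
        (eq_or_ne w u).imp_right fun d => q2.trans_le
          (v2 w (Finset.mem_erase.2 ⟨d, Finsupp.mem_support_iff.2 hw⟩))⟩⟩
    · obtain ⟨q, hq⟩ := exists_rat_gt (r u)
      exact ⟨u, q, fun _ => ⟨Finsupp.mem_support_iff.1 u1, hq, fun w hw =>
        (eq_or_ne w u).imp_right fun d =>
          absurd ⟨w, Finset.mem_erase.2 ⟨d, Finsupp.mem_support_iff.2 hw⟩⟩ c⟩⟩
  choose u q hu using hu
  obtain ⟨c, hc⟩ := fib q h0
  set Y := {x | x ∈ X \ {0} ∧ q x = c} with hY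
  have hU : ¬ (u '' Y).Countable := fun d => hc ((d.biUnion fun p _ => hp p).mono fun x hx =>
    mem_biUnion (mem_image_of_mem u hx) (by exact ⟨hx.1.1, (hu x hx.1.2).1⟩))
  have k : ∀ x ∈ Y, ∀ y ∈ Y, r (u x) < r (u y) →
      x ≠ y ∧ (x - y) (u x) ≠ 0 ∧ (x - y) (u y) ≠ 0 ∧
        ∀ w, (x - y) w ≠ 0 → w = u x ∨ r (u y) ≤ r w := by
    intro x hx y hy hxy
    obtain ⟨a1, a2, a3⟩ := hu x hx.1.2
    obtain ⟨b1, b2, b3⟩ := hu y hy.1.2
    rw [hx.2] at a2 a3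
    rw [hy.2] at b2 b3
    have n : u x ≠ u y := fun e => hxy.ne (congrArg r e)
    have c1 : y (u x) = 0 := by
      by_contra e
      exact (b3 _ e).elim n a2.not_gt
    have c2 : x (u y) = 0 := by
      by_contra e
      exact (a3 _ e).elim n.symm b2.not_gt
    refine ⟨fun e => n (congrArg u e), by simpa [c1] using a1, by simpa [c2] using b1,
      fun w hw => ?_⟩
    by_cases e : x w = 0
    · have : y w ≠ 0 := by simpa [e] using hw
      exact Or.inr ((b3 w this).elim (fun d => d ▸ le_rfl) fun d => (b2.trans d).le)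
    · exact (a3 w e).imp_right fun d => (b2.trans d).le
  constructor
  · by_contra hn
    refine hU (sierp (fun i => - r i) ?_)
    rintro _ ⟨x, hx, rfl⟩ _ ⟨y, hy, rfl⟩ hxy
    refine neg_lt_neg ((lt_or_gt_of_ne (hr.ne hxy.ne)).resolve_left fun d => hn ?_)
    obtain ⟨k1, k2, k3, k4⟩ := k x hx y hy d
    exact ⟨x, hx.1.1, y, hy.1.1, k1, _, _, k2, k3, d, hxy, k4⟩
  · by_contra hn
    refine hU (sierp r ?_)
    rintro _ ⟨y, hy, rfl⟩ _ ⟨x, hx, rfl⟩ hxy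
    refine (lt_or_gt_of_ne (hr.ne hxy.ne)).resolve_right fun d => hn ?_
    obtain ⟨k1, k2, k3, k4⟩ := k x hx y hy d
    refine ⟨x, hx.1.1, y, hy.1.1, k1, ?_⟩
    rintro ⟨a, b, c1, c2, c3, c4, c5⟩
    have e1 : u x = a := (c5 _ k2).resolve_right fun e =>
      (k4 a c1).elim (fun f => (f ▸ c3).not_ge e) fun f => ((c3.trans_le e).trans d).not_ge f
    have e2 : r b = r (u y) := le_antisymm
      ((c5 _ k3).resolve_left fun e => hxy.ne (e.trans e1.symm))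
      ((k4 b c2).resolve_left fun e => c4.ne (e1.symm.trans e.symm))
    exact hxy.not_gt (e1 ▸ hr e2 ▸ c4)

theorem both {r : ι → ℝ} (hr : Function.Injective r) (n : ℕ) :
    ∀ X : Set (ι →₀ ℚ), ¬ X.Countable → (∀ x ∈ X, x.support.card = n) →
    (∃ x ∈ X, ∃ y ∈ X, x ≠ y ∧ Col r (x - y)) ∧ ∃ x ∈ X, ∃ y ∈ X, x ≠ y ∧ ¬ Col r (x - y) := by
  induction n with
  | zero =>
    intro X hX h
    refine absurd ((countable_singleton 0).mono fun x hx => ?_) hX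
    simpa using h x hx
  | succ n ih =>
    intro X hX h
    by_cases hp : ∀ p, {x | x ∈ X ∧ x p ≠ 0}.Countable
    · exact base hr hX hp
    push Not at hp
    obtain ⟨p, hp⟩ := hp
    obtain ⟨c, hc⟩ := fib (fun x : ι →₀ ℚ => x p) hp
    set Y := {x | x ∈ {x | x ∈ X ∧ x p ≠ 0} ∧ x p = c} with hY
    have k : ∀ x ∈ Y, ∀ y ∈ Y, x.erase p - y.erase p = x - y := fun x hx y hy => by
      ext w
      by_cases e : w = p
      · simp [e, hx.2, hy.2]
      · simp [Finsupp.erase_ne e]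
    obtain ⟨⟨_, ⟨x, hx, rfl⟩, _, ⟨y, hy, rfl⟩, a1, a2⟩, _, ⟨z, hz, rfl⟩, _, ⟨w, hw, rfl⟩, b1, b2⟩ :=
      ih (Finsupp.erase p '' Y) (fun d => hc (countable_of_injective_of_countable_image
        (fun x hx y hy e => sub_eq_zero.1 (by rw [← k x hx y hy, e, sub_self])) d)) (by
          rintro _ ⟨x, hx, rfl⟩
          rw [Finsupp.support_erase,
            Finset.card_erase_of_mem (Finsupp.mem_support_iff.2 hx.1.2), h x hx.1.1]
          rfl)
    exact ⟨⟨x, hx.1.1, y, hy.1.1, fun e => a1 (congrArg _ e), k x hx y hy ▸ a2⟩,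
      z, hz.1.1, w, hw.1.1, fun e => b1 (congrArg _ e), k z hz w hw ▸ b2⟩

theorem main : ∃ f : ℝ → Prop, (∀ z, f (-z) ↔ f z) ∧ ∀ X : Set ℝ, ¬ X.Countable →
    (∃ x ∈ X, ∃ y ∈ X, x ≠ y ∧ f (x - y)) ∧ ∃ x ∈ X, ∃ y ∈ X, x ≠ y ∧ ¬ f (x - y) := by
  let b := Module.Basis.ofVectorSpace ℚ ℝ
  obtain ⟨lo, wf⟩ := exists_wellFoundedLT (Module.Basis.ofVectorSpaceIndex ℚ ℝ)
  refine ⟨fun z => @Col _ lo Subtype.val (b.repr z), fun z => by
    simp only [map_neg]; exact @col_neg _ lo _ _,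
    fun X hX => ?_⟩
  obtain ⟨n, hn⟩ := fib (fun x => (b.repr x).support.card) hX
  obtain ⟨⟨_, ⟨x, hx, rfl⟩, _, ⟨y, hy, rfl⟩, a1, a2⟩, _, ⟨z, hz, rfl⟩, _, ⟨w, hw, rfl⟩, b1, b2⟩ :=
    @both _ lo wf _ Subtype.val_injective n (b.repr '' {x | x ∈ X ∧ (b.repr x).support.card = n})
      (fun d => hn (countable_of_injective_of_countable_image b.repr.injective.injOn d))
      (by rintro _ ⟨x, hx, rfl⟩; exact hx.2)
  exact ⟨⟨x, hx.1, y, hy.1, fun e => a1 (congrArg _ e), by simpa only [map_sub] using a2⟩,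
    z, hz.1, w, hw.1, fun e => b1 (congrArg _ e), by simpa only [map_sub] using b2⟩

end Pool.Agent.H42.IsoCol
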