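import Mathlib

/-! Sets of reals that map onto all their large suborders map onto all suborders. -/

namespace Pool.Agent.H42.KSurj

open Set

universe u

variable {L : Type u} [LinearOrder L]

def Onto (K : Set L) : Prop := ∃ f : L → L, Monotone f ∧ range f = K

theorem Onto.dual {K : Set L} (h : Onto K) : Onto (L := Lᵒᵈ) K := by
  obtain ⟨f, h1, h2⟩ := h
  exact ⟨f, fun a b hab => h1 (a := b) (b := a) hab, h2⟩

theorem win_le {sm : Set L → Prop} (mono : ∀ s t, s ⊆ t → sm t → sm s)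
    (H : ∀ K, ¬ sm K → Onto K) {K : Set L} {f : L → L} (hf : Monotone f) (hK : K ⊆ range f)
    {x y : L} (hx : x ∈ K) (hy : f y = x) (hyx : y ≤ x) (hb : ¬ sm (Icc y x)) : Onto K := by
  classical
  obtain ⟨h, h1, h2⟩ := H ({z | z < y ∧ f z ∈ K} ∪ Icc y x ∪ (K ∩ Ioi x))
    fun c => hb (mono _ _ (fun z hz => Or.inl (Or.inr hz)) c)
  let g : L → L := fun z => if z < y then f z else max z x
  have g1 : Monotone g := by
    intro a b hab
    by_cases c : b < y
    · simp only [g, c, hab.trans_lt c, if_true]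
      exact hf hab
    · by_cases d : a < y
      · simp only [g, c, d, if_true, if_false]
        exact (hf d.le).trans (hy.le.trans (le_max_right _ _))
      · simp only [g, c, d, if_false]
        exact max_le_max hab le_rfl
  refine ⟨g ∘ h, g1.comp h1, ?_⟩
  rw [range_comp, h2]
  refine Subset.antisymm ?_ fun k hk => ?_
  · rintro _ ⟨z, (hz | hz) | hz, rfl⟩
    · simp only [g, hz.1, if_true]; exact hz.2
    · simp only [g, hz.1.not_gt, if_false, max_eq_right hz.2]; exact hx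
    · have : x < z := hz.2
      simp only [g, (hyx.trans this.le).not_gt, if_false, max_eq_left this.le]; exact hz.1
  · rcases lt_trichotomy k x with c | c | c
    · obtain ⟨z, rfl⟩ := hK hk
      have : z < y := not_le.1 fun d => c.not_ge (hy.ge.trans (hf d))
      exact ⟨z, Or.inl (Or.inl ⟨this, hk⟩), if_pos this⟩
    · exact ⟨x, Or.inl (Or.inr ⟨hyx, le_rfl⟩), (if_neg hyx.not_gt).trans ((max_self x).trans c.symm)⟩
    · exact ⟨k, Or.inr ⟨hk, c⟩, (if_neg (hyx.trans c.le).not_gt).trans (max_eq_left c.le)⟩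

theorem win {sm : Set L → Prop} (mono : ∀ s t, s ⊆ t → sm t → sm s)
    (H : ∀ K, ¬ sm K → Onto K) {K : Set L} {f : L → L} (hf : Monotone f) (hK : K ⊆ range f)
    {x y : L} (hx : x ∈ K) (hy : f y = x) (hb : ¬ sm (uIcc x y)) : Onto K := by
  rcases le_total y x with c | c
  · exact win_le mono H hf hK hx hy c (by rwa [uIcc_of_ge c] at hb)
  · rw [uIcc_of_le c] at hb
    refine Onto.dual (L := Lᵒᵈ) (win_le (L := Lᵒᵈ) (sm := sm) mono (fun K h => (H K h).dual)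
      (f := f) (fun a b hab => hf (a := b) (b := a) hab) hK (x := x) (y := y) hx hy c
      fun d => hb (mono _ _ (fun z hz => ?_) d))
    exact ⟨hz.2, hz.1⟩

theorem core_lt {sm : Set L → Prop} (mono : ∀ s t, s ⊆ t → sm t → sm s)
    (H : ∀ K, ¬ sm K → Onto K) {K : Set L} {k y : L} (hk : k ∈ K) (hy : y ∉ K) (hky : k < y)
    (hD : ∀ x, x ≠ y → ¬ sm (uIcc x y)) (hI : ¬ sm (Iic k)) : Onto K := by
  obtain ⟨f, f1, f2⟩ := H (K ∪ Iic k) fun c => hI (mono _ _ subset_union_right c)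
  have hK : K ⊆ range f := f2 ▸ subset_union_left
  by_cases c : f y ∈ K
  · exact win mono H f1 hK c rfl (hD _ fun d => hy (d ▸ c))
  · have h1 : f y ≤ k := (show f y ∈ K ∪ Iic k from f2 ▸ mem_range_self y).resolve_left c
    obtain ⟨z, hz⟩ := hK hk
    have h2 : y ≤ z := not_lt.1 fun d => c ((le_antisymm h1 (hz.ge.trans (f1 d.le))) ▸ hk)
    refine win mono H f1 hK hk hz fun d => hD k hky.ne (mono _ _ ?_ d)
    rw [uIcc_of_le hky.le, uIcc_of_le (hky.le.trans h2)]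
    exact Icc_subset_Icc_right h2

theorem right {sm : Set L → Prop} (mono : ∀ s t, s ⊆ t → sm t → sm s)
    (un : ∀ s : ℚ → Set L, (∀ q, sm (s q)) → sm (⋃ q, s q)) (un2 : ∀ s t, sm s → sm t → sm (s ∪ t))
    (sub : ∀ s : Set L, s.Subsingleton → sm s) (e : L → ℝ) (he : StrictMono e) :
    sm {y | (∃ x, y < x ∧ sm (Icc y x)) ∨ ∀ x, x ≤ y} := by
  refine un2 {y | ∃ x, y < x ∧ sm (Icc y x)} {y | ∀ x, x ≤ y} ?_
    (sub _ fun a ha b hb => le_antisymm (hb a) (ha b))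
  refine mono _ (⋃ q : ℚ, {y | e y < q ∧ sm {z | y ≤ z ∧ e z < q}}) ?_ (un _ fun q => ?_)
  · rintro y ⟨x, h1, h2⟩
    obtain ⟨q, q1, q2⟩ := exists_rat_btwn (he h1)
    exact mem_iUnion.2 ⟨q, q1, mono _ _
      (fun z hz => by exact ⟨hz.1, (he.lt_iff_lt.1 (hz.2.trans q2)).le⟩) h2⟩
  · refine mono _ ((⋃ p : ℚ, {z | ((p : ℝ) < e z ∧ e z < q) ∧ sm {z | (p : ℝ) < e z ∧ e z < q}}) ∪
      {y | (e y < q ∧ sm {z | y ≤ z ∧ e z < q}) ∧
        ∀ y', (e y' < q ∧ sm {z | y' ≤ z ∧ e z < q}) → y ≤ y'}) (fun y hy => ?_)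
      (un2 _ _ (un _ fun p => ?_) (sub _ fun a ha b hb => le_antisymm (ha.2 b hb.1) (hb.2 a ha.1)))
    · by_cases c : ∀ y', (e y' < q ∧ sm {z | y' ≤ z ∧ e z < q}) → y ≤ y'
      · exact Or.inr ⟨hy, c⟩
      · push Not at c
        obtain ⟨y', c1, c2⟩ := c
        obtain ⟨p, p1, p2⟩ := exists_rat_btwn (he c2)
        refine Or.inl (mem_iUnion.2 ⟨p, ⟨p2, hy.1⟩, mono _ _ (fun z hz => ?_) c1.2⟩)
        exact ⟨(he.lt_iff_lt.1 (p1.trans hz.1)).le, hz.2⟩
    · by_cases c : sm {z | (p : ℝ) < e z ∧ e z < q}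
      · exact mono _ _ (fun z hz => hz.1) c
      · exact sub _ fun a ha => absurd ha.2 c

theorem init {sm : Set L → Prop} (mono : ∀ s t, s ⊆ t → sm t → sm s)
    (un2 : ∀ s t, sm s → sm t → sm (s ∪ t)) (sub : ∀ s : Set L, s.Subsingleton → sm s)
    (im : ∀ (f : L → L) s, sm s → sm (f '' s)) (H : ∀ K, ¬ sm K → Onto K) (hu : ¬ sm univ)
    {D : Set L} (hD : sm Dᶜ) (hD' : ∀ d ∈ D, ∃ x, ¬ sm (Icc x d)) (k : L) : ¬ sm (Iic k) := by
  obtain ⟨f, f1, f2⟩ := H D fun c => hu (mono _ _ (union_compl_self D).ge (un2 _ _ c hD))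
  obtain ⟨x, hx⟩ := hD' (f k) (f2 ▸ mem_range_self k)
  refine fun c => hx (mono _ _ (fun w hw => ?_) (un2 _ _ hD (im f _ c)))
  by_cases d : w ∈ D
  · right
    rw [← f2] at d
    obtain ⟨z, rfl⟩ := d
    rcases le_total z k with q | q
    · exact ⟨z, q, rfl⟩
    · exact ⟨k, le_rfl, le_antisymm (f1 q) hw.2⟩
  · exact Or.inl d

theorem main {sm : Set L → Prop} (mono : ∀ s t, s ⊆ t → sm t → sm s)
    (un : ∀ s : ℚ → Set L, (∀ q, sm (s q)) → sm (⋃ q, s q)) (un2 : ∀ s t, sm s → sm t → sm (s ∪ t))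
    (sub : ∀ s : Set L, s.Subsingleton → sm s) (im : ∀ (f : L → L) s, sm s → sm (f '' s))
    (e : L → ℝ) (he : StrictMono e) (H : ∀ K, ¬ sm K → Onto K) (hu : ¬ sm univ)
    {K : Set L} (hK : K.Nonempty) : Onto K := by
  by_cases hs : sm K
  swap
  · exact H K hs
  have r1 := right mono un un2 sub e he
  have r2 : sm {y | (∃ x, x < y ∧ sm (Icc x y)) ∨ ∀ x, y ≤ x} := by
    refine mono _ _ (fun y hy => ?_) (right (L := Lᵒᵈ) (sm := sm) mono un un2 sub
      (fun z => - e (OrderDual.ofDual z)) fun a b hab => neg_lt_neg (he hab))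
    rcases hy with ⟨x, h1, h2⟩ | h
    · exact Or.inl ⟨x, h1, mono _ _ (fun z hz => by exact ⟨hz.2, hz.1⟩) h2⟩
    · exact Or.inr h
  let D : Set L := {y | ((∀ x, y < x → ¬ sm (Icc y x)) ∧ ∃ x, y < x) ∧
    (∀ x, x < y → ¬ sm (Icc x y)) ∧ ∃ x, x < y}
  have hD : sm Dᶜ := by
    refine mono _ _ (fun y hy => ?_) (un2 _ _ r1 r2)
    by_contra hc
    simp only [mem_union, mem_ofPred_eq, not_or, not_exists, not_and, not_forall, not_le] at hc
    exact hy hc
  obtain ⟨y, y1, y2⟩ : ∃ y ∈ D, y ∉ K := by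
    by_contra hc
    push Not at hc
    exact hu (mono _ _ (union_compl_self D).ge (un2 _ _ (mono _ _ hc hs) hD))
  have hy : ∀ x, x ≠ y → ¬ sm (uIcc x y) := fun x hx => by
    rcases hx.lt_or_gt with c | c
    · rw [uIcc_of_le c.le]; exact y1.2.1 x c
    · rw [uIcc_of_ge c.le]; exact y1.1.1 x c
  obtain ⟨k, hk⟩ := hK
  rcases (show k ≠ y from fun c => y2 (c ▸ hk)).lt_or_gt with c | c
  · exact core_lt mono H hk y2 c hy (init mono un2 sub im H hu hD
      (fun d hd => hd.2.2.imp fun x hx => hd.2.1 x hx) k)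
  · refine Onto.dual (L := Lᵒᵈ) (core_lt (L := Lᵒᵈ) (sm := sm) mono (fun K h => (H K h).dual)
      (k := k) (y := y) hk y2 c (fun x hx d => hy x hx (mono _ _ (fun z hz => ?_) d))
      (init (L := Lᵒᵈ) (sm := sm) mono un2 sub im (fun K h => (H K h).dual) hu hD
        (fun d hd => hd.1.2.imp fun x hx q => hd.1.1 x hx (mono _ _ (fun z hz => ?_) q)) k))
    · exact ⟨hz.2, hz.1⟩
    · exact ⟨hz.2, hz.1⟩

end Pool.Agent.H42.KSurj
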