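import Mathlib

/-! A Komlos type subsequence theorem for events. -/

namespace Pool.Agent.H42.Kom

open Set Filter Topology MeasureTheory Finset

lemma saks {H : Type*} [NormedAddCommGroup H] [InnerProductSpace ℝ H] [CompleteSpace H]
    (x : ℕ → H) (hx : ∀ n, ‖x n‖ ≤ 1) : ∃ φ : ℕ → ℕ, StrictMono φ ∧ ∃ y, ∀ m : ℕ,
      ‖∑ j ∈ range m, (x (φ j) - y)‖ ^ 2 ≤ 6 * m := by
  obtain ⟨f, hf, h⟩ := (WeakDual.isCompact_closedBall (0 : StrongDual ℝ H) 1).exists_mapClusterPt
    (f := atTop) (u := fun n => StrongDual.toWeakDual (InnerProductSpace.toDual ℝ H (x n)))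
    (le_principal_iff.2 (Filter.mem_map.2 (Eventually.of_forall fun n => by simpa using hx n)))
  obtain ⟨y, hy⟩ := (InnerProductSpace.toDual ℝ H).surjective (WeakDual.toStrongDual f)
  have y1 : ‖y‖ ≤ 1 := by
    rw [Set.mem_preimage, ← hy] at hf
    simpa using hf
  have key : ∀ t : ℕ × H, ∃ n, t.1 < n ∧ inner ℝ (x n - y) t.2 ≤ 1 := fun t => by
    have := (h.continuousAt_comp (WeakDual.eval_continuous t.2).continuousAt).frequently
      (Iio_mem_nhds (lt_add_one (f t.2)))
    obtain ⟨n, a, b⟩ := (this.and_eventually (eventually_gt_atTop t.1)).exists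
    refine ⟨n, b, ?_⟩
    have e : f t.2 = inner ℝ y t.2 := (congrArg (fun g : StrongDual ℝ H => g t.2) hy).symm
    have a' : inner ℝ (x n) t.2 < f t.2 + 1 := a
    rw [inner_sub_left]
    linarith
  choose g g1 g2 using key
  let t : ℕ → ℕ × H := fun m => Nat.rec (0, 0) (fun _ s => (g s, s.2 + (x (g s) - y))) m
  have ht : ∀ m, (t m).2 = ∑ j ∈ range m, (x (g (t j)) - y) := fun m => by
    induction m with
    | zero => rfl
    | succ m ih => rw [sum_range_succ, ← ih]
  refine ⟨fun j => g (t j), strictMono_nat_of_lt_succ fun j => g1 (t (j + 1)), y, fun m => ?_⟩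
  induction m with
  | zero => simp
  | succ m ih =>
    rw [sum_range_succ, norm_add_sq_real, ← ht, real_inner_comm]
    rw [← ht] at ih
    have := g2 (t m)
    have a : ‖x (g (t m)) - y‖ ≤ 2 := (norm_sub_le _ _).trans (by linarith [hx (g (t m))])
    have b := pow_le_pow_left₀ (norm_nonneg _) a 2
    push_cast
    linarith

open Classical in
theorem komlos {Ω : Type*} [MeasurableSpace Ω] (μ : Measure Ω) [IsProbabilityMeasure μ]
    (b : ℕ → Set Ω) (hb : ∀ n, MeasurableSet (b n)) : ∃ φ : ℕ → ℕ, StrictMono φ ∧ ∀ᵐ ω ∂μ,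
      ∃ l : ℝ, Tendsto (fun m : ℕ => (#{j ∈ range m | ω ∈ b (φ j)} : ℝ) / m) atTop (𝓝 l) := by
  let x : ℕ → Lp ℝ 2 μ := fun n => indicatorConstLp 2 (hb n) (measure_ne_top _ _) 1
  obtain ⟨φ, h1, y, h2⟩ := saks x fun n => norm_indicatorConstLp_le.trans (by
    simpa using Real.rpow_le_one measureReal_nonneg measureReal_le_one (by norm_num))
  refine ⟨φ, h1, ?_⟩
  let F : ℕ → Lp ℝ 2 μ := fun m =>
    (((m + 1) ^ 4 : ℕ) : ℝ)⁻¹ • ∑ j ∈ range ((m + 1) ^ 4), (x (φ j) - y)
  have hF : ∀ m, ‖F m‖ ≤ 3 * (1 / ((m + 1 : ℕ) : ℝ) ^ 2) := fun m => by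
    have a := h2 ((m + 1) ^ 4)
    have c : (0 : ℝ) < ((m + 1 : ℕ) : ℝ) := by positivity
    have d : ‖∑ j ∈ range ((m + 1) ^ 4), (x (φ j) - y)‖ ≤ 3 * ((m + 1 : ℕ) : ℝ) ^ 2 :=
      le_of_sq_le_sq (a.trans (by rw [Nat.cast_pow]; nlinarith [pow_pos c 4])) (by positivity)
    simp only [F, norm_smul, norm_inv, Real.norm_natCast]
    refine (mul_le_mul_of_nonneg_left d (by positivity)).trans_eq ?_
    rw [Nat.cast_pow]
    field_simp
  have hs : Summable fun m => ‖F m‖ := .of_nonneg_of_le (fun _ => norm_nonneg _) hF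
    (((summable_nat_add_iff 1).2 (Real.summable_one_div_nat_pow.2 one_lt_two)).mul_left 3)
  have h3 := summable_norm_of_tsum_eLpNorm_ne_top (p := 2) (μ := μ) (by norm_num)
    (f := fun m => F m) (fun m => Lp.aestronglyMeasurable _) (by
      simpa only [← Lp.enorm_def] using tsum_enorm_ne_top_iff_summable_norm.2 hs)
  have h4 : ∀ m : ℕ, ∀ᵐ ω ∂μ, (∑ j ∈ range m, (x (φ j) - y) : Lp ℝ 2 μ) ω =
      #{j ∈ range m | ω ∈ b (φ j)} - m * y ω := fun m => by
    induction m with
    | zero => simp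
    | succ m ih =>
      rw [sum_range_succ]
      filter_upwards [ih, Lp.coeFn_add (∑ j ∈ range m, (x (φ j) - y)) (x (φ m) - y),
        Lp.coeFn_sub (x (φ m)) y, indicatorConstLp_coeFn (p := 2) (hs := hb (φ m))
          (hμs := measure_ne_top μ _) (c := (1 : ℝ))] with ω a c d e
      rw [c, Pi.add_apply, a, d, Pi.sub_apply, e, range_add_one, filter_insert]
      by_cases k : ω ∈ b (φ m)
      · rw [if_pos k, card_insert_of_notMem (by simp), indicator_of_mem k]
        push_cast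
        ring
      · rw [if_neg k, indicator_of_notMem k]
        push_cast
        ring
  filter_upwards [h3, ae_all_iff.2 h4, ae_all_iff.2 fun m : ℕ => Lp.coeFn_smul
    (((m + 1) ^ 4 : ℕ) : ℝ)⁻¹ (∑ j ∈ range ((m + 1) ^ 4), (x (φ j) - y))] with ω a c d
  refine ⟨y ω, tendsto_div_of_monotone_of_exists_subseq_tendsto_div _ _
    (fun m n h => Nat.cast_le.2 (card_le_card (filter_subset_filter _ (range_mono h))))
    fun r hr => ⟨fun m => (m + 1) ^ 4, ?_, (tendsto_pow_atTop (by norm_num)).comp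
      (tendsto_add_atTop_nat 1), ?_⟩⟩
  · have : Tendsto (fun m : ℕ => (1 + 1 / ((m : ℝ) + 1)) ^ 4) atTop (𝓝 ((1 + 0) ^ 4)) :=
      (tendsto_const_nhds.add tendsto_one_div_add_atTop_nhds_zero_nat).pow 4
    filter_upwards [this.eventually_lt_const (by simpa using hr)] with m hm
    refine le_trans (le_of_eq ?_) (mul_le_mul_of_nonneg_right hm.le (by positivity))
    push_cast
    field_simp
  · have := (tendsto_zero_iff_norm_tendsto_zero.2 a.tendsto_atTop_zero).add_const (y ω)
    rw [zero_add] at this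
    refine this.congr fun m => ?_
    simp only [F]
    rw [d, Pi.smul_apply, c, smul_eq_mul]
    field_simp
    ring

end Pool.Agent.H42.Kom
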