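import Pool.Agent.H42.OmB
import Pool.Agent.H42.TStar
import Pool.Agent.H71.Dual

/-! Weight of `ω`-bounded abelian groups, part 1. -/

open Set Filter Topology Cardinal TopologicalSpace

namespace Pool.Agent.H42.Kur

open Pool.Agent.H42.Dirac Pool.Agent.H42.OmB

lemma wt_pi {A Y : Type} [TopologicalSpace Y] [SecondCountableTopology Y] {κ : Cardinal.{0}}
    (h : #A ≤ κ) (h0 : ℵ₀ ≤ κ) : wt (A → Y) ≤ κ := by
  classical
  let B : Finset (A × countableBasis Y) → Set (A → Y) := fun T => {x | ∀ p ∈ T, x p.1 ∈ p.2.1}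
  refine (wt_le (B := range B) (isTopologicalBasis_of_isOpen_of_nhds ?_ ?_)).trans
    (mk_range_le.trans ?_)
  · rintro _ ⟨T, rfl⟩
    have : B T = ⋂ p ∈ T, (fun x : A → Y => x p.1) ⁻¹' p.2.1 := by ext; simp [B]
    rw [this]
    exact isOpen_biInter_finset fun p _ =>
      (isOpen_of_mem_countableBasis p.2.2).preimage (continuous_apply _)
  · intro a u hau hu
    have hU := hu.mem_nhds hau
    rw [nhds_pi, Filter.mem_pi'] at hU
    obtain ⟨I, v, hv, hI⟩ := hU
    choose w hw haw hwv using fun i => (isBasis_countableBasis Y).mem_nhds_iff.1 (hv i)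
    refine ⟨_, ⟨I.image fun i => (i, ⟨w i, hw i⟩), rfl⟩, fun p hp => ?_, fun x hx => hI
      fun i hi => hwv i (hx _ (Finset.mem_image_of_mem _ hi))⟩
    obtain ⟨i, -, rfl⟩ := Finset.mem_image.1 hp
    exact haw i
  · have h1 : #(A × countableBasis Y) ≤ κ := by
      rw [mk_prod, lift_id, lift_id]
      exact (mul_le_mul' h (mk_le_aleph0.trans h0)).trans (mul_eq_self h0).le
    rcases finite_or_infinite (A × countableBasis Y) with h2 | h2
    · exact mk_le_aleph0.trans h0
    · rwa [mk_finset_of_infinite]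

lemma fip {X I : Type} [TopologicalSpace X] [CompactSpace X] [Nonempty X] [LinearOrder I]
    (Z : I → Set X) (hc : ∀ i, IsClosed (Z i)) (h : ∀ i, ∃ x, ∀ j ≤ i, x ∈ Z j) :
    ∃ x, ∀ i, x ∈ Z i := by
  obtain ⟨x, -, hx⟩ := isCompact_univ.inter_iInter_nonempty Z hc fun u => by
    rcases u.eq_empty_or_nonempty with rfl | hu
    · simp
    · obtain ⟨x, hx⟩ := h (u.max' hu)
      exact ⟨x, trivial, mem_iInter₂.2 fun j hj => hx j (u.le_max' j hj)⟩
  exact ⟨x, mem_iInter.1 hx⟩

section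

variable {K : Type} [CommGroup K] [TopologicalSpace K] [IsTopologicalGroup K] [CompactSpace K]
  [T2Space K]

lemma emb {ι : Type} (S : ι → PontryaginDual K) (h : ∀ y, (∀ i, S i y = 1) → y = 1) :
    IsInducing fun (x : K) i => S i x := by
  refine (Continuous.isClosedEmbedding (continuous_pi fun i => map_continuous (S i))
    fun x y hxy => mul_inv_eq_one.1 (h _ fun i => ?_)).isInducing
  rw [map_mul, map_inv, mul_inv_eq_one]
  exact congrFun hxy i

lemma cnt (hK : #K ≤ ℵ₁) : Countable (PontryaginDual K) := by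
  suffices ∃ (α : W) (S : Iio α → PontryaginDual K), ∀ y, (∀ i, S i y = 1) → y = 1 by
    obtain ⟨α, S, h⟩ := this
    have := (Iio_count α).to_subtype
    have := (emb S h).secondCountableTopology
    have : SecondCountableTopology (PontryaginDual K) :=
      (ContinuousMonoidHom.isInducing_toContinuousMap K Circle).secondCountableTopology
    exact countable_of_Lindelof_of_discrete
  by_contra hn
  push Not at hn
  obtain ⟨k, hk⟩ : ∃ k : W → K, Function.Surjective k := by
    obtain ⟨j⟩ := (Cardinal.le_def _ _).1 (hK.trans W_card.ge)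
    exact ⟨Function.invFun j, Function.invFun_surjective j.injective⟩
  have hcl : ∀ s : PontryaginDual K × Circle, IsClosed {x | s.1 x = s.2} := fun s =>
    isClosed_eq (map_continuous s.1) continuous_const
  obtain ⟨f, hf⟩ := TStar.rec_o (T := W) (σ := PontryaginDual K × Circle)
    (fun α g s => (∃ x, (∀ β, (g β).1 x = (g β).2) ∧ s.1 x = s.2) ∧ s.1 (k α) ≠ s.2)
    (fun α g hg => by
      obtain ⟨x, hx⟩ := fip (fun β => {x | (g β).1 x = (g β).2}) (fun β => hcl _) fun β => by
        obtain ⟨⟨x, h1, h2⟩, -⟩ := hg β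
        refine ⟨x, fun γ hγ => ?_⟩
        rcases hγ.eq_or_lt with rfl | h
        exacts [h2, h1 ⟨γ.1, h⟩]
      obtain ⟨y, hy, hy1⟩ := hn α fun β => (g β).1
      obtain ⟨q, hq, hqk⟩ : ∃ q, (∀ β, (g β).1 q = (g β).2) ∧ q ≠ k α := by
        by_cases h : x = k α
        · exact ⟨x * y, fun β => by rw [map_mul, hy, mul_one]; exact hx β,
            fun h' => hy1 (mul_eq_left.1 (h'.trans h.symm))⟩
        · exact ⟨x, hx, h⟩
      obtain ⟨χ, hχ⟩ := H71.Dual.sepChar (x := k α * q⁻¹) (fun h => hqk (mul_inv_eq_one.1 h).symm)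
      refine ⟨(χ, χ q), ⟨q, hq, rfl⟩, fun h => hχ ?_⟩
      rw [map_mul, map_inv, mul_inv_eq_one]
      exact h)
  obtain ⟨x, hx⟩ := fip (fun β => {x | (f β).1 x = (f β).2}) (fun β => hcl _) fun β => by
    obtain ⟨⟨x, h1, h2⟩, -⟩ := hf β
    refine ⟨x, fun γ hγ => ?_⟩
    rcases hγ.eq_or_lt with rfl | h
    exacts [h2, h1 ⟨γ, h⟩]
  obtain ⟨α, rfl⟩ := hk x
  exact (hf α).2 (hx α)

end

lemma tb {X : Type} [UniformSpace X] (h : ∀ S : Set X, S.Countable → IsCompact (closure S)) :
    TotallyBounded (univ : Set X) := by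
  intro V hV
  by_contra hn
  push Not at hn
  obtain ⟨u, hu⟩ := seq_of_forall_finite_exists (P := fun c t => ∀ y ∈ t, (c, y) ∉ V)
    (fun t ht => by
      obtain ⟨c, -, hc⟩ := not_subset.1 (hn t ht)
      exact ⟨c, fun y hy h => hc (mem_iUnion₂.2 ⟨y, hy, h⟩)⟩)
  obtain ⟨U, hU, hs, hUV⟩ := comp_symm_of_uniformity hV
  obtain ⟨t, ht, hc⟩ := ((h _ (countable_range u)).totallyBounded.subset subset_closure) U hU
  choose g hg hgu using fun n => mem_iUnion₂.1 (hc (mem_range_self n))
  obtain ⟨m, n, hmn, he⟩ := ht.exists_lt_map_eq_of_forall_mem hg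
  exact hu n _ ⟨m, hmn, rfl⟩ (hUV ⟨g n, hgu n, hs (he ▸ hgu m)⟩)

lemma wt_img {G H : Type} [AddCommGroup G] [TopologicalSpace G] [IsTopologicalAddGroup G]
    [AddCommGroup H] [TopologicalSpace H] [IsTopologicalAddGroup H]
    (h : ∀ S : Set G, S.Countable → IsCompact (closure S)) (f : G →+ H) (hf : Continuous f)
    (hs : Function.Surjective f) : wt H ≤ wt G := by
  let := IsTopologicalAddGroup.rightUniformSpace G
  have : IsUniformAddGroup G := isUniformAddGroup_of_addCommGroup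
  obtain ⟨B, hB, hb⟩ := wt_ex G
  refine (wt_le (B := (fun U => interior (closure (f '' U))) '' B)
    (isTopologicalBasis_of_isOpen_of_nhds ?_ ?_)).trans (mk_image_le.trans hb.le)
  · rintro _ ⟨T, -, rfl⟩
    exact isOpen_interior
  intro a u hau hu
  obtain ⟨t, ht, htc, htu⟩ := exists_mem_nhds_isClosed_subset (hu.mem_nhds hau)
  obtain ⟨g, rfl⟩ := hs a
  obtain ⟨U, hU, hgU, hUt⟩ := hB.mem_nhds_iff.1 (hf.continuousAt.preimage_mem_nhds ht)
  refine ⟨_, ⟨U, hU, rfl⟩, ?_, interior_subset.trans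
    ((closure_minimal (image_subset_iff.2 hUt) htc).trans htu)⟩
  obtain ⟨V, hV, hVU⟩ := exists_nhds_half_neg (s := (fun x => g + x) ⁻¹' U)
    (((hB.isOpen hU).preimage (continuous_const_add g)).mem_nhds (by simpa using hgU))
  obtain ⟨T, hT, hc⟩ := totallyBounded_iff_subset_finite_iUnion_nhds_zero.1 (tb h) V hV
  obtain ⟨z, hz⟩ : (interior (closure (f '' V))).Nonempty := by
    by_contra hn
    rw [not_nonempty_iff_eq_empty, interior_eq_empty_iff_dense_compl] at hn
    obtain ⟨w, hw⟩ := ((hT.image fun y => (fun z => -f y + z) ⁻¹' (closure (f '' V))ᶜ).dense_sInter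
      (by rintro _ ⟨y, -, rfl⟩
          exact isClosed_closure.isOpen_compl.preimage (continuous_const_add _))
      (by rintro _ ⟨y, -, rfl⟩; exact hn.preimage (isOpenMap_add_left _))).nonempty
    obtain ⟨x, rfl⟩ := hs w
    obtain ⟨y, hy, v, hv, rfl⟩ := mem_iUnion₂.1 (hc (mem_univ x))
    exact hw _ ⟨y, hy, rfl⟩ (subset_closure ⟨v, hv, by simp⟩)
  refine mem_interior.2 ⟨(fun w => w - f g + z) ⁻¹' interior (closure (f '' V)), fun w hw => ?_,
    isOpen_interior.preimage (by fun_prop), by simpa using hz⟩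
  have := map_mem_closure₂ (f := fun a b => f g + (a - b)) (by fun_prop) (interior_subset hw)
    (interior_subset hz) (u := f '' U) (by
      rintro _ ⟨a, ha, rfl⟩ _ ⟨b, hb, rfl⟩
      exact ⟨_, hVU a ha b hb, by simp⟩)
  simpa using this

end Pool.Agent.H42.Kur
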