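import Mathlib

/-! Definitions for the problem on projectively weight-small `ω`-bounded groups. -/

open Set Cardinal TopologicalSpace

namespace Pool.Agent.H42.KurDefs

/-- The weight of a space: the least cardinality of a base. -/
noncomputable def weight (X : Type) [TopologicalSpace X] : Cardinal.{0} :=
  sInf {c | ∃ B : Set (Set X), IsTopologicalBasis B ∧ #B = c}

/-- The closure of every countable set is compact. -/
def OmegaBounded (X : Type) [TopologicalSpace X] : Prop :=
  ∀ S : Set X, S.Countable → IsCompact (closure S)

/-- Every Hausdorff group `H` that is a continuous homomorphic image of `G` has `w(H) ≤ |H|`. -/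
def ProjWeightSmall (G : Type) [AddGroup G] [TopologicalSpace G] : Prop :=
  ∀ (H : Type) [AddGroup H] [TopologicalSpace H] [IsTopologicalAddGroup H] [T2Space H]
    (f : G →+ H), Continuous f → Function.Surjective f → weight H ≤ #H

/-- The least weight of an `ω`-bounded abelian group that is not projectively weight-small. -/
noncomputable def sigma : Cardinal.{0} :=
  sInf {κ | ∃ (G : Type) (_ : AddCommGroup G) (_ : TopologicalSpace G),
    IsTopologicalAddGroup G ∧ T2Space G ∧ OmegaBounded G ∧ weight G = κ ∧ ¬ ProjWeightSmall G}

/-- Kurepa's hypothesis: there is a family of more than `ℵ₁` subsets of `ω₁` with countably many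
traces on each countable ordinal. -/
def KH : Prop :=
  ∃ F : Set (Set (Ordinal.omega.{0} 1).ToType), ℵ₁ < #F ∧
    ∀ α, ((fun a => a ∩ Iio α) '' F).Countable

end Pool.Agent.H42.KurDefs
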