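import Pool.Agent.H42.Kur1
import Pool.Agent.H42.KurDefs

/-! Weight of `ω`-bounded abelian groups, part 2. -/

open Set Filter Topology Cardinal TopologicalSpace

namespace Pool.Agent.H42.Kur

open Pool.Agent.H42.Dirac Pool.Agent.H42.OmB Pool.Agent.H42.KurDefs

lemma small {H : Type} [AddCommGroup H] [TopologicalSpace H] [IsTopologicalAddGroup H] [T2Space H]
    (h : OmegaBounded H) (hK : ¬ KH) (hH : #H ≤ ℵ₁) : wt H ≤ ℵ₁ := by
  let := IsTopologicalAddGroup.rightUniformSpace H
  have : IsUniformAddGroup H := isUniformAddGroup_of_addCommGroup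
  let C := UniformSpace.Completion H
  have hd : DenseRange ((↑) : H → C) := UniformSpace.Completion.denseRange_coe
  have : CompactSpace C := ⟨by
    rw [isCompact_iff_totallyBounded_isComplete, ← hd.closure_range, ← image_univ]
    exact ⟨((tb h).image (UniformSpace.Completion.uniformContinuous_coe H)).closure,
      isClosed_closure.isComplete⟩⟩
  have : T2Space (Multiplicative C) := inferInstanceAs (T2Space C)
  have he := emb (K := Multiplicative C) id fun y hy => by_contra fun h1 =>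
    let ⟨χ, hχ⟩ := H71.Dual.sepChar h1; hχ (hy χ)
  refine (wt_mono (he.comp (UniformSpace.Completion.isUniformInducing_coe H).isInducing)).trans
    (wt_pi (not_lt.1 fun hA => hK ?_) (aleph0_le_aleph 1))
  obtain ⟨k, hk⟩ : ∃ k : W → H, Function.Surjective k := by
    obtain ⟨j⟩ := (Cardinal.le_def _ _).1 (hH.trans W_card.ge)
    exact ⟨Function.invFun j, Function.invFun_surjective j.injective⟩
  obtain ⟨e⟩ : Nonempty (W × countableBasis Circle ↪ W) := by
    rw [← Cardinal.le_def, mk_prod, lift_id, lift_id, W_card]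
    exact (mul_le_mul' le_rfl (mk_le_aleph0.trans (aleph0_le_aleph 1))).trans
      (mul_eq_self (aleph0_le_aleph 1)).le
  let F : PontryaginDual (Multiplicative C) → Set W := fun χ =>
    e '' {p | χ (Multiplicative.ofAdd (k p.1 : C)) ∈ p.2.1}
  have hF : Function.Injective F := fun χ ψ hh => by
    have h1 := e.injective.image_injective hh
    refine DFunLike.coe_injective (hd.equalizer (map_continuous χ) (map_continuous ψ)
      (funext fun x => ?_))
    obtain ⟨α, rfl⟩ := hk x
    exact (isBasis_countableBasis Circle).eq_iff.2 fun s hs => Set.ext_iff.1 h1 (α, ⟨s, hs⟩)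
  refine ⟨range F, by rwa [mk_range_eq _ hF], fun β => ?_⟩
  have hS : (k '' (Prod.fst '' (e ⁻¹' Iio β))).Countable :=
    (((Iio_count β).preimage e.injective).image _).image _
  have := hS.to_subtype
  let P := (Submodule.span ℤ (range ((↑) : k '' (Prod.fst '' (e ⁻¹' Iio β)) → H))).toAddSubgroup
  have : CompactSpace P.topologicalClosure := isCompact_iff_compactSpace.1
    (h _ (countable_coe_iff.1 (inferInstanceAs (Countable (Submodule.span ℤ _)))))
  have : T2Space (Multiplicative P.topologicalClosure) :=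
    inferInstanceAs (T2Space P.topologicalClosure)
  have := cnt (K := Multiplicative P.topologicalClosure) ((mk_subtype_le _).trans hH)
  let i : Multiplicative P.topologicalClosure →ₜ* Multiplicative C :=
    ⟨AddMonoidHom.toMultiplicative
      (UniformSpace.Completion.toCompl.comp P.topologicalClosure.subtype),
      (UniformSpace.Completion.continuous_coe H).comp continuous_subtype_val⟩
  refine (countable_range fun θ : PontryaginDual (Multiplicative P.topologicalClosure) =>
    {w | w < β ∧ ∃ p, e p = w ∧ ∃ hp : k p.1 ∈ P.topologicalClosure,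
      θ (Multiplicative.ofAdd ⟨k p.1, hp⟩) ∈ p.2.1}).mono ?_
  rintro _ ⟨_, ⟨χ, rfl⟩, rfl⟩
  refine ⟨PontryaginDual.map i χ, Set.ext fun w => ⟨?_, ?_⟩⟩
  · rintro ⟨hw, p, rfl, hp, h1⟩
    exact ⟨⟨p, h1, rfl⟩, hw⟩
  · rintro ⟨⟨p, h1, rfl⟩, hw⟩
    exact ⟨hw, p, rfl, P.le_topologicalClosure
      (Submodule.subset_span ⟨⟨_, _, ⟨p, hw, rfl⟩, rfl⟩, rfl⟩), h1⟩

lemma img {G H : Type} [AddCommGroup G] [TopologicalSpace G] [IsTopologicalAddGroup G]
    [AddGroup H] [TopologicalSpace H] [IsTopologicalAddGroup H] [T2Space H]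
    (h : OmegaBounded G) (f : G →+ H) (hf : Continuous f) (hs : Function.Surjective f) :
    wt H ≤ wt G ∧ (#H ≤ ℵ₀ → wt H ≤ #H) ∧ (¬ KH → #H ≤ ℵ₁ → wt H ≤ ℵ₁) := by
  let : AddCommGroup H := { ‹AddGroup H› with
    add_comm := fun a b => by
      obtain ⟨a, rfl⟩ := hs a
      obtain ⟨b, rfl⟩ := hs b
      rw [← map_add, ← map_add, add_comm] }
  have hH : OmegaBounded H := fun S hS => by
    obtain ⟨g, hg⟩ := hs.hasRightInverse
    have hc := (h _ (hS.image g)).image hf
    exact hc.of_isClosed_subset isClosed_closure (closure_minimal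
      (fun x hx => ⟨g x, subset_closure ⟨x, hx, rfl⟩, hg x⟩) hc.isClosed)
  refine ⟨wt_img h f hf hs, fun h0 => ?_, small hH⟩
  have : Countable H := mk_le_aleph0_iff.1 h0
  have : CompactSpace H := ⟨by simpa using hH univ countable_univ⟩
  obtain ⟨x, y, hy⟩ := nonempty_interior_of_iUnion_of_closed (f := fun x : H => {x})
    (fun _ => isClosed_singleton) (iUnion_of_singleton H)
  have : DiscreteTopology H := discreteTopology_of_isOpen_singleton_zero (by
    have h1 : IsOpen ({x} : Set H) := by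
      rw [← interior_eq_iff_isOpen]
      exact interior_subset.antisymm (singleton_subset_iff.2 (by
        obtain rfl := interior_subset hy; exact hy))
    simpa using h1.preimage (continuous_const_add x))
  refine (wt_le (isTopologicalBasis_singletons H)).trans ?_
  refine (mk_le_mk_of_subset (t := range (singleton : H → Set H)) ?_).trans mk_range_le
  rintro _ ⟨x, rfl⟩
  exact ⟨x, rfl⟩

lemma ex {L : Type} [Infinite L] {μ : Cardinal.{0}} (h0 : ℵ₀ ≤ μ) (hL : #L ^ ℵ₀ ≤ μ)
    {F0 : Set (Set L)} (h1 : μ < #F0)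
    (h2 : ∀ S : Set L, S.Countable → 2 ^ #((fun a => a ∩ S) '' F0) ≤ μ) :
    ∃ (G : Type) (_ : AddCommGroup G) (_ : TopologicalSpace G),
    IsTopologicalAddGroup G ∧ T2Space G ∧ OmegaBounded G ∧ weight G = Order.succ μ ∧
      ¬ ProjWeightSmall G := by
  classical
  obtain ⟨F, hF0, hF⟩ := le_mk_iff_exists_subset.1 (Order.succ_le_of_lt h1)
  let Z : Set L → Set (F → ZMod 2) := fun α =>
    {x | ∀ a b : F, a.1 ∩ α = b.1 ∩ α → x a = x b}
  have hZ : Monotone Z := fun α β hαβ x hx a b hab => hx a b (by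
    rw [← inter_eq_right.2 hαβ, ← inter_assoc, ← inter_assoc, hab])
  have hZc : ∀ α, IsClosed (Z α) := fun α => by
    simp only [Z, ofPred_forall]
    exact isClosed_iInter fun a => isClosed_iInter fun b => isClosed_iInter fun _ =>
      isClosed_eq (continuous_apply a) (continuous_apply b)
  let G : AddSubgroup (F → ZMod 2) :=
    { carrier := {x | ∃ α : Set L, α.Countable ∧ x ∈ Z α}
      zero_mem' := ⟨∅, countable_empty, fun _ _ _ => rfl⟩
      add_mem' := fun ⟨α, hα, ha⟩ ⟨β, hβ, hb⟩ => ⟨α ∪ β, hα.union hβ, fun a b hab =>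
        congrArg₂ (· + ·) (hZ subset_union_left ha a b hab) (hZ subset_union_right hb a b hab)⟩
      neg_mem' := fun ⟨α, hα, ha⟩ => ⟨α, hα, fun a b hab => congrArg Neg.neg (ha a b hab)⟩ }
  have hG : #G ≤ μ := by
    have : (G : Set (F → ZMod 2)) = ⋃ α : {t : Set L // #t ≤ ℵ₀}, Z α := by ext; simp [G]
    refine (show #G = #(⋃ α : {t : Set L // #t ≤ ℵ₀}, Z α) from
      mk_congr (Equiv.setCongr this)).trans_le
      ((mk_iUnion_le _).trans ((mul_le_mul' ((mk_bounded_set_le_of_infinite L ℵ₀).trans hL)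
        (ciSup_le' fun ⟨α, hα⟩ => ?_)).trans (mul_eq_self h0).le))
    let r : (((fun a => a ∩ α) '' F0) → ZMod 2) → F → ZMod 2 := fun y a =>
      y ⟨_, a.1, hF0 a.2, rfl⟩
    refine (mk_le_mk_of_subset (t := range r) fun x hx => ?_).trans (mk_range_le.trans ?_)
    · refine ⟨fun s => if h : ∃ a : F, a.1 ∩ α = s.1 then x h.choose else 0, funext fun a => ?_⟩
      have h : ∃ b : F, b.1 ∩ α = a.1 ∩ α := ⟨a, rfl⟩
      exact (dif_pos h).trans (hx _ _ h.choose_spec)
    · rw [← power_def, show #(ZMod 2) = 2 by simp]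
      exact h2 α (le_aleph0_iff_set_countable.1 hα)
  have hw : μ < wt G := by
    obtain ⟨B, hB, hb⟩ := wt_ex G
    by_contra hn
    have : ∀ a : F, ∃ U : B, (0 : G) ∈ U.1 ∧ ∀ x ∈ U.1, x.1 a = 0 := fun a => by
      have ho : IsOpen {x : G | x.1 a = 0} := (isOpen_discrete ({0} : Set (ZMod 2))).preimage
        ((continuous_apply (A := fun _ : F => ZMod 2) a).comp continuous_subtype_val)
      obtain ⟨U, hU, h0, h⟩ := hB.mem_nhds_iff.1 (ho.mem_nhds (x := 0) rfl)
      exact ⟨⟨U, hU⟩, h0, fun x hx => h hx⟩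
    choose U hU0 hU using this
    have hfin : ∀ V, (U ⁻¹' {V}).Finite := fun V => by
      by_cases h0 : (0 : G) ∈ V.1
      swap
      · exact finite_empty.subset fun a ha => h0 (by obtain rfl := ha; exact hU0 a)
      obtain ⟨O, hO, hOV⟩ := (mem_nhds_subtype _ _ _).1 ((hB.isOpen V.2).mem_nhds h0)
      rw [nhds_pi, Filter.mem_pi'] at hO
      obtain ⟨I, v, hv, hI⟩ := hO
      refine I.finite_toSet.subset fun a ha => by_contra fun haI => ?_
      obtain rfl := ha
      have : ∀ b : I, ∃ ξ, ¬ (ξ ∈ b.1.1 ↔ ξ ∈ a.1) := fun b => not_forall.1 fun h =>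
        haI (by rw [← Subtype.ext (Set.ext h)]; exact b.2)
      choose ξ hξ using this
      have := hU a ⟨fun b => if b.1 ∩ range ξ = a.1 ∩ range ξ then 1 else 0, _, countable_range ξ,
        fun b c hbc => by simp only [hbc]⟩ (hOV (hI fun b hb => by
          have : b.1 ∩ range ξ ≠ a.1 ∩ range ξ := fun h => hξ ⟨b, hb⟩ (by
            simpa using Set.ext_iff.1 h (ξ ⟨b, hb⟩))
          simpa [this] using mem_of_mem_nhds (hv b)))
      simp at this
    have : Infinite F := Cardinal.infinite_iff.2 ((h0.trans (Order.le_succ _)).trans hF.ge)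
    obtain ⟨V, hV⟩ := exists_infinite_fiber U
      ((hb.le.trans (not_lt.1 hn)).trans_lt ((Order.lt_succ _).trans_eq hF.symm))
    exact infinite_coe_iff.1 hV (hfin V)
  refine ⟨G, inferInstance, inferInstance, inferInstance, inferInstance, fun S hS => ?_,
    ((wt_mono IsInducing.subtypeVal).trans (wt_pi hF.le
      (h0.trans (Order.le_succ _)))).antisymm (Order.succ_le_of_lt hw),
    fun h => (hG.trans_lt hw).not_ge (h G (AddMonoidHom.id G) continuous_id fun x => ⟨x, rfl⟩)⟩
  have := hS.to_subtype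
  choose a hc ha using fun x : S => x.1.2
  refine (IsInducing.subtypeVal.isCompact_preimage' (hZc (⋃ x, a x)).isCompact
    fun x hx => ⟨(⟨x, _, countable_iUnion hc, hx⟩ : G), rfl⟩).of_isClosed_subset isClosed_closure
      (closure_minimal (fun x hx => hZ (subset_iUnion a ⟨x, hx⟩) (ha ⟨x, hx⟩))
      ((hZc _).preimage continuous_subtype_val))

lemma ex1 (hc : (𝔠 : Cardinal.{0}) = ℵ₁) (hK : KH) :
    ∃ (G : Type) (_ : AddCommGroup G) (_ : TopologicalSpace G),
    IsTopologicalAddGroup G ∧ T2Space G ∧ OmegaBounded G ∧ weight G = Order.succ ℵ₁ ∧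
      ¬ ProjWeightSmall G := by
  obtain ⟨F, h1, h2⟩ := hK
  have : Infinite W := Cardinal.infinite_iff.2 (W_card ▸ aleph0_le_aleph 1)
  refine ex (L := W) (aleph0_le_aleph 1) (by rw [W_card, ← hc]; simp) h1 fun S hS => ?_
  obtain ⟨α, hα⟩ := bdd S hS
  rw [← hc, ← two_power_aleph0]
  refine power_le_power_left two_ne_zero (le_aleph0_iff_set_countable.2
    (((h2 α).image fun a => a ∩ S).mono ?_))
  rintro _ ⟨a, ha, rfl⟩
  exact ⟨_, ⟨a, ha, rfl⟩, by
    simp only [inter_assoc, inter_eq_right.2 (show S ⊆ Iio α from hα)]⟩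

lemma ex2 : ∃ (G : Type) (_ : AddCommGroup G) (_ : TopologicalSpace G),
    IsTopologicalAddGroup G ∧ T2Space G ∧ OmegaBounded G ∧ weight G = Order.succ (2 ^ 𝔠) ∧
      ¬ ProjWeightSmall G := by
  refine ex (L := Set ℝ) (F0 := univ) (aleph0_le_continuum.trans (cantor _).le)
    (by simp [← power_mul, mk_real]) (by simpa [mk_real] using cantor _) fun S hS => ?_
  refine power_le_power_left two_ne_zero ((mk_le_mk_of_subset (t := 𝒫 S) ?_).trans ?_)
  · rintro _ ⟨a, -, rfl⟩
    exact inter_subset_right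
  · rw [mk_powerset, ← two_power_aleph0]
    exact power_le_power_left two_ne_zero (le_aleph0_iff_set_countable.2 hS)

lemma lt1 (c : Cardinal.{0}) (h : c < ℵ₁) : c ≤ ℵ₀ := by
  rwa [← succ_aleph0, Order.lt_succ_iff] at h

lemma up : sigma ≤ Order.succ (2 ^ 𝔠) := csInf_le' ex2

lemma low (hc : (𝔠 : Cardinal.{0}) = ℵ₁) : Order.succ 𝔠 ≤ sigma := by
  rw [hc]
  refine le_csInf ⟨_, ex2⟩ ?_
  rintro _ ⟨G, _, _, _, _, hb, rfl, hn⟩
  refine Order.succ_le_of_lt (not_le.1 fun hw => hn fun H _ _ _ _ f hf hs => ?_)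
  obtain ⟨h1, h2, -⟩ := img hb f hf hs
  rcases lt_or_ge (#H) ℵ₁ with h4 | h4
  · exact h2 (lt1 _ h4)
  · exact (h1.trans hw).trans h4

lemma main (hc : (𝔠 : Cardinal.{0}) = ℵ₁) : sigma = Order.succ 𝔠 ↔ KH := by
  refine ⟨fun h => by_contra fun hK => ?_, fun hK => le_antisymm ?_ (low hc)⟩
  · obtain ⟨G, _, _, _, _, hb, hw, hn⟩ := csInf_mem (α := Cardinal.{0}) (s := {κ | ∃ (G : Type)
      (_ : AddCommGroup G) (_ : TopologicalSpace G), IsTopologicalAddGroup G ∧ T2Space G ∧
      OmegaBounded G ∧ weight G = κ ∧ ¬ ProjWeightSmall G}) ⟨_, ex2⟩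
    refine hn fun H _ _ _ _ f hf hs => ?_
    obtain ⟨h1, h2, h3⟩ := img hb f hf hs
    rcases lt_trichotomy (#H) ℵ₁ with h4 | h4 | h4
    · exact h2 (lt1 _ h4)
    · exact (h3 hK h4.le).trans h4.ge
    · exact h1.trans ((hw.trans h).trans_le (Order.succ_le_of_lt (hc.trans_lt h4)))
  · rw [hc]
    exact csInf_le' (ex1 hc hK)

lemma main2 (hc : (𝔠 : Cardinal.{0}) = ℵ₁) (h2 : (2 : Cardinal.{0}) ^ 𝔠 = Order.succ 𝔠)
    (hK : ¬ KH) : sigma = Order.succ (Order.succ 𝔠) :=
  (up.trans_eq (by rw [h2])).antisymm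
    (Order.succ_le_of_lt ((low hc).lt_of_ne fun h => hK ((main hc).1 h.symm)))

end Pool.Agent.H42.Kur
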