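import Pool.Agent.H42.RndDefs

/-! Oscillation of relative densities and null sets, inside a structure `(M, E)`.
Here `w` stands for `ω`, and `2 ^ ω` is identified with the power set of `ω`. -/

namespace Pool.Agent.H42.ZF

variable {M : Type 1} (E : M → M → Prop)

/-- `A` holds for unboundedly many elements of `w` -/
def Unb (A : M → Prop) (w : M) : Prop := ∀ n, E n w → ∃ m, E m w ∧ Sub E n m ∧ A m

/-- `P = A × k` -/
def IsProd (P : M) (A : M → Prop) (k : M) : Prop :=
  ∀ p, E p P ↔ ∃ a b, A a ∧ E b k ∧ IsPair E p a b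

/-- `|A| * |k| ≤ |B| * |i|` -/
def LeMul (A : M → Prop) (k : M) (B : M → Prop) (i : M) : Prop :=
  ∃ P Q j, IsProd E P A k ∧ IsProd E Q B i ∧ Inj E j P Q

/-- `d_R(S)` oscillates: for some `i, k` the ratio `|S ∩ R ∩ n| / |R ∩ n|` is infinitely often
at most `i / k` and infinitely often at least `(i + 1) / k` -/
def Osc (S R w : M) : Prop :=
  ∃ i i' k, E i w ∧ Succ E i' i ∧ E k w ∧
    Unb E (fun n => LeMul E (fun z => E z S ∧ E z R ∧ E z n) k (fun z => E z R ∧ E z n) i) w ∧
    Unb E (fun n => LeMul E (fun z => E z R ∧ E z n) i' (fun z => E z S ∧ E z R ∧ E z n) k) w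

/-- `F` is a family as in the definition of the oscillation reaping number -/
def OscReap (F w : M) : Prop :=
  (∀ R, E R F → Sub E R w ∧ Unb E (fun m => E m R) w) ∧
    ∀ S, Sub E S w → Unb E (fun m => E m S) w → Unb E (fun m => ¬E m S) w →
      ∃ R, E R F ∧ ¬Osc E S R w

/-- `O` is a set of pairs `(l, s)` such that for each `l` at most `2 ^ l / k` subsets `s` of `l`
have `(l, s)` in `O` -/
def Thin (O k w : M) : Prop :=
  ∀ l, E l w → ∃ P Y j, IsProd E P (fun s => Sub E s l ∧ App E O l s) k ∧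
    (∀ s, E s Y ↔ Sub E s l) ∧ Inj E j P Y

/-- `(l, x ∩ l)` is in `O` for all large `l` -/
def Caught (x O w : M) : Prop :=
  ∃ n, E n w ∧ ∀ l s, E l w → Sub E n l → (∀ z, E z s ↔ E z x ∧ E z l) → App E O l s

/-- `N` is a Lebesgue null set -/
def Null (N w : M) : Prop := ∀ k, E k w → ∃ O, Thin E O k w ∧ ∀ x, E x N → Caught E x O w

/-- `D` is a family of null sets that covers `2 ^ ω` -/
def NullCov (D w : M) : Prop :=
  (∀ N, E N D → Null E N w) ∧ ∀ x, Sub E x w → ∃ N, E N D ∧ E x N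

end Pool.Agent.H42.ZF
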