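import Pool.Agent.H42.Rnd2
import Pool.Agent.H42.Kom
import Pool.Agent.H42.OscDefs

/-! In the random model the ground model sets are an oscillation reaping family. -/

namespace Pool.Agent.H42.ZF

open Set MeasureTheory Filter Topology

section
variable {P : Type} [Preorder P] {U : Ult P}

instance cUnb (A : ∀ U : Ult P, M U → Prop) [∀ x, C fun U => A U (mk U x)] (w : Nm P) :
    C fun U => Unb (E U) (A U) (mk U w) := by unfold Unb; infer_instance
instance cIsProd (A : ∀ U : Ult P, M U → Prop) [∀ x, C fun U => A U (mk U x)] (x k : Nm P) :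
    C fun U => IsProd (E U) (mk U x) (A U) (mk U k) := by unfold IsProd; infer_instance
instance cLeMul (A B : ∀ U : Ult P, M U → Prop) [∀ x, C fun U => A U (mk U x)]
    [∀ x, C fun U => B U (mk U x)] (k i : Nm P) :
    C fun U => LeMul (E U) (A U) (mk U k) (B U) (mk U i) := by unfold LeMul; infer_instance
instance cOsc (x y z : Nm P) : C fun U => Osc (E U) (mk U x) (mk U y) (mk U z) := by
  unfold Osc; infer_instance
instance cThin (x y z : Nm P) : C fun U => Thin (E U) (mk U x) (mk U y) (mk U z) := by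
  unfold Thin; infer_instance
instance cCaught (x y z : Nm P) : C fun U => Caught (E U) (mk U x) (mk U y) (mk U z) := by
  unfold Caught; infer_instance
instance cNull (x y : Nm P) : C fun U => Null (E U) (mk U x) (mk U y) := by
  unfold Null; infer_instance
instance cNullCov (x y : Nm P) : C fun U => NullCov (E U) (mk U x) (mk U y) := by
  unfold NullCov; infer_instance

theorem card_inj {α β : Type} (s : Finset α) (t : Finset β) (f : α → M U) (g : β → M U)
    (hf : InjOn f s) {j X Y : M U} (h : Inj (E U) j X Y) (h1 : ∀ a ∈ s, E U (f a) X)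
    (h2 : ∀ y, E U y Y → ∃ b ∈ t, y = g b) : s.card ≤ t.card := by
  have : ∀ a : s, ∃ b ∈ t, App (E U) j (f a) (g b) := fun a => by
    obtain ⟨y, hy⟩ := h.1.ex (h1 _ a.2)
    obtain ⟨b, c, rfl⟩ := h2 y (h.1.dom hy).2
    exact ⟨b, c, hy⟩
  choose b b1 b2 using this
  rw [← Finset.card_attach]
  exact Finset.card_le_card_of_injOn b (fun a _ => b1 a) fun a _ a' _ e =>
    Subtype.ext (hf a.2 a'.2 (h.2 _ _ _ (b2 a) (e ▸ b2 a')))

theorem card_prod {α β : Type} (s : Finset α) (t : Finset β) (f : α → Nm P) (g : β → M U)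
    (hf : InjOn (fun a => mk U (f a)) s) {j X Y : M U} {A : M U → Prop} {k : ℕ}
    (h : Inj (E U) j X Y) (hX : IsProd (E U) X A (mk U (natN k))) (h1 : ∀ a ∈ s, A (mk U (f a)))
    (h2 : ∀ y, E U y Y → ∃ b ∈ t, y = g b) : s.card * k ≤ t.card := by
  have := card_inj (s ×ˢ Finset.range k) t (fun a => mk U (kpair (f a.1) (natN a.2))) g
    (fun a ha b hb e => by
      have := (isPair_kpair _ _).inj ((show mk U _ = mk U _ from e) ▸ isPair_kpair (f b.1) (natN b.2))
      exact Prod.ext (hf (Finset.mem_product.1 ha).1 (Finset.mem_product.1 hb).1 this.1)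
        (natN_inj this.2)) h
    (fun a ha => (hX _).2 ⟨_, _, h1 _ (Finset.mem_product.1 ha).1,
      natN_mem.2 (Finset.mem_range.1 (Finset.mem_product.1 ha).2), isPair_kpair _ _⟩) h2
  simpa using this

theorem leMul {s t : Finset ℕ} {A B : M U → Prop} {k i : ℕ}
    (h : LeMul (E U) A (mk U (natN k)) B (mk U (natN i))) (h1 : ∀ a ∈ s, A (mk U (natN a)))
    (h2 : ∀ y, B y → ∃ b ∈ t, y = mk U (natN b)) : s.card * k ≤ t.card * i := by
  obtain ⟨X, Y, j, a, b, c⟩ := h
  have := card_prod s (t ×ˢ Finset.range i) natN (fun a => mk U (kpair (natN a.1) (natN a.2)))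
    (fun _ _ _ _ e => natN_inj e) c a h1 fun y hy => by
      obtain ⟨u, v, d, e, f⟩ := (b y).1 hy
      obtain ⟨u, d', rfl⟩ := h2 u d
      obtain ⟨v, e', rfl⟩ := mem_natN.1 e
      exact ⟨(u, v), by simp [d', e'], f.uniq (isPair_kpair _ _)⟩
  simpa using this

/-- A condition that forces a true statement. -/
theorem ex_frc' (Q : Ult P → Prop) [C Q] (h : Q U) : ∃ p, Frc p Q :=
  Filter.nonempty_of_mem ((cl (Q := Q) U).1 h)

/-- the name of a ground model set of natural numbers -/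
def setN (s : Set ℕ) : Nm P := fam natN fun n _ => n ∈ s

theorem mem_setN {s : Set ℕ} {n : ℕ} : E U (mk U (natN n)) (mk U (setN s)) ↔ n ∈ s :=
  ⟨fun h => fam_cases (fun _ _ a b => natN_inj b ▸ a) U h, fun h => fam_intro n h⟩

theorem sub_setN (s : Set ℕ) : Sub (E U) (mk U (setN s)) (mk U omegaN) := fun z hz => by
  obtain ⟨z, rfl⟩ := mk_surj z
  exact fam_cases (fun n U _ b => b ▸ nat_mem_omega n) U hz

end

variable {Ω : Type} [MeasurableSpace Ω] {μ : Measure Ω} [IsProbabilityMeasure μ]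

theorem ae_ult {ι : Type} [Finite ι] (Q : ι → Ult (Rand μ) → Prop) [∀ i, C (Q i)] (q : Rand μ) :
    ∀ᵐ ω ∂μ, ω ∈ q.1 → ∃ U : Ult (Rand μ), Iic q ∈ U.U ∧ ∀ i, Q i U ↔ ω ∈ val (Q i) := by
  let a : Set ι → Set Ω := fun σ => q.1 ∩ ⋂ i, {ω | ω ∈ val (Q i) ↔ i ∈ σ}
  have ha : ∀ σ, MeasurableSet (a σ) := fun σ => q.2.1.inter (.iInter fun i => by
    by_cases c : i ∈ σ
    · simp only [c, iff_true]; exact val_meas (Q i)
    · simp only [c, iff_false]; exact (val_meas (Q i)).compl)
  have : ∀ᵐ ω ∂μ, ∀ σ, μ (a σ) = 0 → ω ∉ a σ := ae_all_iff.2 fun σ => by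
    by_cases c : μ (a σ) = 0
    · filter_upwards [measure_eq_zero_iff_ae_notMem.1 c] with ω h _ using h
    · exact .of_forall fun _ h => absurd h c
  filter_upwards [this] with ω h hq
  let r : Rand μ := ⟨a {i | ω ∈ val (Q i)}, ha _, fun c =>
    h _ c ⟨hq, mem_iInter.2 fun i => Iff.rfl⟩⟩
  obtain ⟨U, hU⟩ := ex_ult r
  refine ⟨U, frc_G (p := r) inter_subset_left U hU, fun i => ⟨fun c => ?_, fun c => ?_⟩⟩
  · obtain ⟨s, s1, s2⟩ := Filter.nonempty_of_mem (Filter.inter_mem hU ((cl (Q := Q i) U).1 c))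
    by_contra d
    exact s.2.2 (measure_mono_null (t := s.1 \ val (Q i)) (fun x hx => ⟨hx, fun e =>
      d ((mem_iInter.1 (s1 hx).2 i).1 e)⟩) (frc_val.1 s2))
  · refine (frc_val (q := r)).2 ?_ U hU
    rw [sdiff_eq_empty.2 fun x hx => (mem_iInter.1 hx.2 i).2 c, measure_empty]

theorem ae_unb {A : ∀ U : Ult (Rand μ), M U → Prop} [∀ x, C fun U => A U (mk U x)] {q : Rand μ}
    (h : Frc q fun U => Unb (E U) (A U) (mk U omegaN)) :
    ∀ᵐ ω ∂μ, ω ∈ q.1 → ∃ᶠ n in atTop, ω ∈ val fun U => A U (mk U (natN n)) := by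
  have : ∀ N : ℕ, μ (q.1 \ ⋃ n : Ici N, val fun U => A U (mk U (natN n))) = 0 := fun N =>
    null_of_dense (fun (n : Ici N) U => A U (mk U (natN n))) fun r hr => by
      obtain ⟨m, hm⟩ := frc_ex (S := fun U m => E U m (mk U omegaN) ∧
        Sub (E U) (mk U (natN N)) m ∧ A U m) ((h.mono hr).imp fun U h => h _ (nat_mem_omega N))
      obtain ⟨s, hs, k, hk⟩ := decide_nat (x := m) (p := r) (hm.imp fun _ h => h.1)
      obtain ⟨U, a, b⟩ := hk.ex
      have c := (hm.mono hs U a).2.1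
      rw [b] at c
      exact ⟨s, hs, ⟨k, sub_natN.1 c⟩, fun V hV => by
        have d := (hm.mono hs V hV).2.2
        rwa [show mk V m = mk V (natN k) from hk V hV] at d⟩
  filter_upwards [ae_all_iff.2 fun N => measure_eq_zero_iff_ae_notMem.1 (this N)] with ω a b
  refine frequently_atTop.2 fun N => ?_
  by_contra! c
  exact a N ⟨b, fun d => by obtain ⟨n, d⟩ := mem_iUnion.1 d; exact c n n.2 d⟩

open Classical in
theorem ae_le (S : Nm (Rand μ)) (R : Set ℕ) (n k i : ℕ) : ∀ᵐ ω ∂μ,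
    (ω ∈ val (fun U => LeMul (E U) (fun z => E U z (mk U S) ∧ E U z (mk U (setN R)) ∧
      E U z (mk U (natN n))) (mk U (natN k)) (fun z => E U z (mk U (setN R)) ∧
      E U z (mk U (natN n))) (mk U (natN i))) →
      ((Finset.range n).filter fun m => ω ∈ val (fun U => E U (mk U (natN m)) (mk U S)) ∧
        m ∈ R).card * k ≤ ((Finset.range n).filter (· ∈ R)).card * i) ∧
    (ω ∈ val (fun U => LeMul (E U) (fun z => E U z (mk U (setN R)) ∧
      E U z (mk U (natN n))) (mk U (natN i)) (fun z => E U z (mk U S) ∧ E U z (mk U (setN R)) ∧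
      E U z (mk U (natN n))) (mk U (natN k))) →
      ((Finset.range n).filter (· ∈ R)).card * i ≤
        ((Finset.range n).filter fun m => ω ∈ val (fun U => E U (mk U (natN m)) (mk U S)) ∧
        m ∈ R).card * k) := by
  have key : ∀ (Q : Ult (Rand μ) → Prop) [C Q], ∀ᵐ ω ∂μ, ω ∈ val Q → ∃ U, Q U ∧
      ∀ m < n, E U (mk U (natN m)) (mk U S) ↔ ω ∈ val fun U => E U (mk U (natN m)) (mk U S) := by
    intro Q _
    by_cases c : μ (val Q) = 0
    · filter_upwards [measure_eq_zero_iff_ae_notMem.1 c] with ω a b using absurd b a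
    filter_upwards [ae_ult (fun (m : Fin n) U => E U (mk U (natN m)) (mk U S))
      ⟨_, val_meas Q, c⟩] with ω a b
    obtain ⟨U, d, e⟩ := a b
    exact ⟨U, (frc_val (Q := Q) (q := ⟨_, val_meas Q, c⟩)).2 (by simp) U d, fun m hm => e ⟨m, hm⟩⟩
  filter_upwards [key fun U => LeMul (E U) (fun z => E U z (mk U S) ∧ E U z (mk U (setN R)) ∧
      E U z (mk U (natN n))) (mk U (natN k)) (fun z => E U z (mk U (setN R)) ∧
      E U z (mk U (natN n))) (mk U (natN i)), key fun U => LeMul (E U)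
      (fun z => E U z (mk U (setN R)) ∧ E U z (mk U (natN n))) (mk U (natN i))
      (fun z => E U z (mk U S) ∧ E U z (mk U (setN R)) ∧ E U z (mk U (natN n)))
      (mk U (natN k))] with ω a a'
  refine ⟨fun b => ?_, fun b => ?_⟩
  · obtain ⟨U, c, d⟩ := a b
    refine leMul c (fun m hm => ?_) fun y hy => ?_
    · simp only [Finset.mem_filter, Finset.mem_range] at hm
      exact ⟨(d m hm.1).2 hm.2.1, mem_setN.2 hm.2.2, natN_mem.2 hm.1⟩
    · obtain ⟨m, e, rfl⟩ := mem_natN.1 hy.2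
      exact ⟨m, by simp [e, mem_setN.1 hy.1], rfl⟩
  · obtain ⟨U, c, d⟩ := a' b
    refine leMul c (fun m hm => ?_) fun y hy => ?_
    · simp only [Finset.mem_filter, Finset.mem_range] at hm
      exact ⟨mem_setN.2 hm.2, natN_mem.2 hm.1⟩
    · obtain ⟨m, e, rfl⟩ := mem_natN.1 hy.2.2
      exact ⟨m, by simp [e, mem_setN.1 hy.2.1, (d m e).1 hy.1], rfl⟩

open Classical in
theorem no_osc {φ : ℕ → ℕ} (hφ : StrictMono φ) (p : ℕ → Prop) {l : ℝ} {i k : ℕ}
    (h : Tendsto (fun m : ℕ => (((Finset.range m).filter fun j => p (φ j)).card : ℝ) / m)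
      atTop (𝓝 l))
    (h1 : ∃ᶠ n in atTop, ((Finset.range n).filter fun m => p m ∧ m ∈ range φ).card * k ≤
      ((Finset.range n).filter (· ∈ range φ)).card * i)
    (h2 : ∃ᶠ n in atTop, ((Finset.range n).filter (· ∈ range φ)).card * (i + 1) ≤
      ((Finset.range n).filter fun m => p m ∧ m ∈ range φ).card * k) : False := by
  let c : ℕ → ℕ := fun n => Nat.find (⟨n, hφ.le_apply⟩ : ∃ j, n ≤ φ j)
  have hc : ∀ n j, j < c n ↔ φ j < n := fun n j => by
    simp only [c, Nat.lt_find_iff, not_le]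
    exact ⟨fun h => h j le_rfl, fun h m hm => (hφ.monotone hm).trans_lt h⟩
  have ht : Tendsto c atTop atTop := tendsto_atTop.2 fun j =>
    (eventually_gt_atTop (φ j)).mono fun n hn => ((hc n j).2 hn).le
  have e1 : ∀ n, ((Finset.range n).filter fun m => p m ∧ m ∈ range φ).card =
      ((Finset.range (c n)).filter fun j => p (φ j)).card := fun n => by
    rw [← Finset.card_image_of_injective ((Finset.range (c n)).filter _) hφ.injective]
    congr 1
    ext m
    simp only [Finset.mem_filter, Finset.mem_range, Finset.mem_image, hc, mem_range]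
    exact ⟨fun ⟨a, b, j, d⟩ => ⟨j, d ▸ ⟨a, b⟩, d⟩, fun ⟨j, a, d⟩ => d ▸ ⟨a.1, a.2, j, rfl⟩⟩
  have e2 : ∀ n, ((Finset.range n).filter (· ∈ range φ)).card = c n := fun n => by
    rw [← Finset.card_range (c n), ← Finset.card_image_of_injective (Finset.range (c n))
      hφ.injective]
    congr 1
    ext m
    simp only [Finset.mem_filter, Finset.mem_range, Finset.mem_image, hc, mem_range]
    exact ⟨fun ⟨a, j, d⟩ => ⟨j, d ▸ a, d⟩, fun ⟨j, a, d⟩ => d ▸ ⟨a, j, rfl⟩⟩
  simp only [e1, e2] at h1 h2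
  have h3 := (h.comp ht).mul_const (k : ℝ)
  have a : l * k ≤ i := le_of_tendsto_of_frequently h3
    ((h1.and_eventually (ht.eventually_gt_atTop 0)).mono fun n hn => by
      have : (0 : ℝ) < c n := by exact_mod_cast hn.2
      rw [Function.comp_apply, div_mul_eq_mul_div, div_le_iff₀ this, mul_comm (i : ℝ)]
      exact_mod_cast hn.1)
  have b : (i : ℝ) + 1 ≤ l * k := ge_of_tendsto_of_frequently h3
    ((h2.and_eventually (ht.eventually_gt_atTop 0)).mono fun n hn => by
      have : (0 : ℝ) < c n := by exact_mod_cast hn.2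
      rw [Function.comp_apply, div_mul_eq_mul_div, le_div_iff₀ this, mul_comm ((i : ℝ) + 1)]
      exact_mod_cast hn.1)
  linarith

/-- the name of the family of infinite ground model sets -/
def infN {P : Type} [Preorder P] : Nm P :=
  fam (fun s : {s : Set ℕ // s.Infinite} => setN s.1) fun _ _ => True

theorem reap (U : Ult (Rand μ)) : OscReap (E U) (mk U infN) (mk U omegaN) := by
  refine ⟨fun R hR => ?_, fun S _ _ _ => ?_⟩
  · obtain ⟨R, rfl⟩ := mk_surj R
    refine fam_cases (fun s U _ e => ?_) U hR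
    rw [e]
    refine ⟨sub_setN _, fun n hn => ?_⟩
    obtain ⟨n, rfl⟩ := mk_surj n
    refine nat_cases (fun k U e => ?_) U hn
    obtain ⟨m, a, b⟩ := s.2.exists_gt k
    exact ⟨_, nat_mem_omega m, e ▸ sub_natN.2 b.le, mem_setN.2 a⟩
  obtain ⟨S, rfl⟩ := mk_surj S
  obtain ⟨φ, h1, h2⟩ := Kom.komlos μ (fun m => val fun U => E U (mk U (natN m)) (mk U S))
    fun _ => val_meas _
  refine ⟨_, fam_intro (A := fun s : {s : Set ℕ // s.Infinite} => setN s.1)
    ⟨range φ, infinite_range_of_injective h1.injective⟩ trivial, ?_⟩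
  rintro ⟨i, i', k, a, b, c, d⟩
  obtain ⟨i, rfl⟩ := mk_surj i
  obtain ⟨i', rfl⟩ := mk_surj i'
  obtain ⟨k, rfl⟩ := mk_surj k
  revert b c d
  refine nat_cases (fun i U e b c d => ?_) U a
  rw [e] at b d
  rw [b.uniq (succ_natN i)] at d
  clear e b
  revert d
  refine nat_cases (fun k U e d => ?_) U c
  rw [e] at d
  clear e
  obtain ⟨q, hq⟩ := ex_frc' (fun U => Unb (E U) (fun n => LeMul (E U) (fun z => E U z (mk U S) ∧
      E U z (mk U (setN (range φ))) ∧ E U z n) (mk U (natN k))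
      (fun z => E U z (mk U (setN (range φ))) ∧ E U z n) (mk U (natN i))) (mk U omegaN) ∧
    Unb (E U) (fun n => LeMul (E U) (fun z => E U z (mk U (setN (range φ))) ∧ E U z n)
      (mk U (natN (i + 1))) (fun z => E U z (mk U S) ∧ E U z (mk U (setN (range φ))) ∧ E U z n)
      (mk U (natN k))) (mk U omegaN)) d
  refine q.2.2 ?_
  refine measure_eq_zero_iff_ae_notMem.2 ?_
  filter_upwards [h2, ae_unb (hq.imp fun _ h => h.1), ae_unb (hq.imp fun _ h => h.2),
    ae_all_iff.2 fun n => ae_le S (range φ) n k i,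
    ae_all_iff.2 fun n => ae_le S (range φ) n k (i + 1)] with ω ⟨l, a⟩ b c d e f
  exact no_osc h1 (fun m => ω ∈ val fun U => E U (mk U (natN m)) (mk U S)) a
    ((b f).mono fun n h => (d n).1 h) ((c f).mono fun n h => (e n).2 h)

end Pool.Agent.H42.ZF
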