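import Pool.Agent.H42.LevDefs
import Pool.Agent.H42.Osc1

/-! The Levy collapse of the continuum destroys the strong polarized relation. -/

namespace Pool.Agent.H42.ZF

open Set Cardinal

theorem ordN_inj {P α : Type} [Preorder P] [LinearOrder α] [WellFoundedLT α] {U : Ult P} {a b : α}
    (h : mk U (ordN a) = mk U (ordN b)) : a = b := by
  have key : ∀ {a b : α}, a < b → E U (mk U (ordN a)) (mk U (ordN b)) := fun {a b} h => by
    rw [show (ordN b : Nm P) = fam (fun c : Iio b => ordN c.1) fun _ _ => True from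
      wellFounded_lt.fix_eq _ b]
    exact fam_intro (A := fun c : Iio b => ordN c.1) ⟨a, h⟩ trivial
  rcases lt_trichotomy a b with c | c | c
  · exact absurd (h ▸ key c) (not_mem_self _)
  · exact c
  · exact absurd (h ▸ key c) (not_mem_self _)

theorem small_cases {θ : Cardinal.{0}} {L V : Type} (hθ : θ.IsRegular) {ι : Type} (hι : #ι < θ)
    {p : Fn θ L V} {D : ι → Fn θ L V → Prop} (hD : ∀ i q r, r ≤ q → D i q → D i r)
    (h : ∀ i, ∀ q ≤ p, ∃ r ≤ q, D i r) : ∃ q ≤ p, ∀ i, D i q := by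
  obtain ⟨F, hF⟩ := zorn_subset {F : Set (ι × Fn θ L V) | (∀ x ∈ F, x.2 ≤ p ∧ D x.1 x.2) ∧
      ∀ x ∈ F, ∀ y ∈ F, (x.2 ≤ y.2 ∨ y.2 ≤ x.2) ∧ (x.1 = y.1 → x = y)} fun c hc hch =>
    ⟨⋃₀ c, ⟨fun x ⟨A, a, b⟩ => (hc a).1 x b, by
      rintro x ⟨A, hA, ha⟩ y ⟨B, hB, hb⟩
      rcases hch.total hA hB with h | h
      · exact (hc hB).2 x (h ha) y hb
      · exact (hc hA).2 x ha y (h hb)⟩, fun _ => subset_sUnion_of_mem⟩
  obtain ⟨q, hq, -⟩ := Fn.sup hθ (ι := Option F) (by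
      rw [mk_option]
      exact add_lt_of_lt hθ.aleph0_le ((mk_le_of_injective (f := fun x : F => x.1.1) fun x y e =>
        Subtype.ext ((hF.1.2 _ x.2 _ y.2).2 e)).trans_lt hι) (one_lt_aleph0.trans_le hθ.aleph0_le))
    (fun o => o.elim p fun x => x.1.2) (by
      rintro (_ | x) (_ | y)
      · exact Fn.compat le_rfl le_rfl
      · exact Fn.compat (hF.1.1 _ y.2).1 le_rfl
      · exact Fn.compat le_rfl (hF.1.1 _ x.2).1
      · exact (hF.1.2 _ x.2 _ y.2).1.elim (Fn.compat le_rfl) fun h => Fn.compat h le_rfl)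
  refine ⟨q, hq none, fun i => ?_⟩
  by_contra c
  obtain ⟨r, a, b⟩ := h i q (hq none)
  have d : ∀ x ∈ F, x.1 ≠ i := fun x e f => c (hD _ _ _ (hq (some ⟨x, e⟩)) (f ▸ (hF.1.1 x e).2))
  refine d (i, r) (hF.2 (y := insert (i, r) F) ⟨?_, ?_⟩ (subset_insert _ _) (mem_insert _ _)) rfl
  · rintro x (rfl | e)
    exacts [⟨a.trans (hq none), b⟩, hF.1.1 x e]
  · rintro x (rfl | e) y (rfl | f)
    · exact ⟨Or.inl le_rfl, fun _ => rfl⟩
    · exact ⟨Or.inl (a.trans (hq (some ⟨y, f⟩))), fun g => (d y f g.symm).elim⟩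
    · exact ⟨Or.inr (a.trans (hq (some ⟨x, e⟩))), fun g => (d x e g).elim⟩
    · exact hF.1.2 x e y f

theorem pol_of_lt {κ : Cardinal.{0}} (hκ : κ.IsRegular) (h0 : ℵ₀ < κ) (hs : κ < splitNum) :
    κ < 𝔠 ∧ PolD.Pol κ := by
  refine ⟨hs.trans_le ?_, fun c => ?_⟩
  · obtain ⟨S, a, -⟩ := csInf_mem (s := {c | ∃ S : Set (Set ℕ), #S = c ∧ (∀ s ∈ S, s.Infinite) ∧
      ∀ X : Set ℕ, X.Infinite → ∃ s ∈ S, (X ∩ s).Infinite ∧ (X \ s).Infinite})
      (nonempty_iff_ne_empty.2 fun e => by simp [splitNum, e] at hs)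
    exact a.ge.trans ((mk_set_le S).trans_eq (by simp))
  obtain ⟨X, h1, h2⟩ : ∃ X : Set ℕ, X.Infinite ∧ ∀ a, ∃ t : ℕ × Bool,
      ∀ n ∈ X, t.1 < n → c a n = t.2 := by
    by_contra! d
    refine hs.not_ge (le_trans (b := #({s | s.Infinite} ∩ range fun a => {n | c a n = true} :
      Set (Set ℕ))) (csInf_le' ⟨_, rfl, fun s h => h.1, fun X hX => ?_⟩)
      ((mk_le_mk_of_subset inter_subset_right).trans (mk_range_le.trans_eq (mk_out κ))))
    obtain ⟨a, ha⟩ := d X hX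
    have e : (X ∩ {n | c a n = true}).Infinite := infinite_of_forall_exists_gt fun N => by
      obtain ⟨n, a, b, c⟩ := ha (N, false)
      exact ⟨n, ⟨a, by simpa using c⟩, b⟩
    refine ⟨_, ⟨e.mono inter_subset_right, a, rfl⟩, e, infinite_of_forall_exists_gt fun N => ?_⟩
    obtain ⟨n, a, b, c⟩ := ha (N, true)
    exact ⟨n, ⟨a, c⟩, b⟩
  choose t ht using h2
  obtain ⟨u, hu⟩ := Cardinal.infinite_pigeonhole_card t κ (mk_out κ).ge hκ.aleph0_le
    (by rw [hκ.cof_ord]; exact mk_le_aleph0.trans_lt h0)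
  exact ⟨t ⁻¹' {u}, X \ Iic u.1, u.2, le_antisymm ((mk_set_le _).trans_eq (mk_out κ)) hu,
    h1.sdiff (finite_Iic _), fun a ha n hn =>
      (show t a = u from ha) ▸ ht a n hn.1 ((show t a = u from ha) ▸ not_le.1 hn.2)⟩

theorem levy {κ : Cardinal.{0}} (hκ : κ.IsRegular) (h0 : ℵ₀ < κ) (hr : κ ≤ reapNum)
    (U : Ult (Levy κ 𝔠)) : ¬PolM (E U) (mk U (cardN κ)) (mk U omegaN) := by
  obtain ⟨ρ⟩ : Nonempty (continuum.{0}.ord.ToType ≃ Set ℕ) := Cardinal.eq.1 (by simp)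
  have : Nonempty continuum.{0}.ord.ToType := ⟨ρ.symm ∅⟩
  have hI : ∀ a : κ.ord.ToType, #(Iio a) < κ := fun a => by
    simpa using mk_Iio_lt a (by simp)
  have hs : ∀ (a : κ.ord.ToType) (g : Iio a → continuum.{0}.ord.ToType), ∃ s : Set ℕ, ∀ b,
      (ρ (g b)).Infinite → (ρ (g b) ∩ s).Infinite ∧ (ρ (g b) \ s).Infinite := fun a g => by
    by_contra! d
    refine (hI a).not_ge (hr.trans (le_trans (b := #({s | s.Infinite} ∩ range fun b => ρ (g b) :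
      Set (Set ℕ))) (csInf_le' ⟨_, rfl, fun s h => h.1, fun s => ?_⟩)
      ((mk_le_mk_of_subset inter_subset_right).trans mk_range_le)))
    obtain ⟨b, e, f⟩ := d s
    exact ⟨_, ⟨e, b, rfl⟩, by by_contra! k; exact k.2 (f k.1)⟩
  choose s hs using hs
  let Lw : κ.ord.ToType × ℕ → LowerSet (Levy κ 𝔠) := fun t =>
    ⟨{p | ∃ g : Iio t.1 → continuum.{0}.ord.ToType, (∀ b : Iio t.1, p.f b = some (g b)) ∧ t.2 ∈ s t.1 g},
      fun _ _ h ⟨g, a, b⟩ => ⟨g, fun c => h _ _ (a c), b⟩⟩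
  let col : Nm (Levy κ 𝔠) := rel (fun t : κ.ord.ToType × ℕ => ordN t.1) (fun t => natN t.2)
    fun t U => (Lw t : Set (Levy κ 𝔠)) ∈ U.U
  intro h
  obtain ⟨A, B, h3, ⟨h, h4⟩, h5, h6, h7⟩ := h (mk U col)
  obtain ⟨A, rfl⟩ := mk_surj A
  obtain ⟨B, rfl⟩ := mk_surj B
  obtain ⟨h, rfl⟩ := mk_surj h
  obtain ⟨p, hp⟩ := ex_frc' (fun U => Sub (E U) (mk U A) (mk U (cardN κ)) ∧
    Inj (E U) (mk U h) (mk U (cardN κ)) (mk U A) ∧ Sub (E U) (mk U B) (mk U omegaN) ∧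
    (∀ n, E U n (mk U omegaN) → ∃ m, E U m (mk U B) ∧ Sub (E U) n m) ∧
    ((∀ a b, E U a (mk U A) → E U b (mk U B) → App (E U) (mk U col) a b) ∨
      ∀ a b, E U a (mk U A) → E U b (mk U B) → ¬App (E U) (mk U col) a b)) ⟨h3, h4, h5, h6, h7⟩
  obtain ⟨q, hq, b, hb⟩ := omega_cases (Fn.sclosed hκ h0) (p := p)
    (R := fun n (a : Prop) U => E U (mk U (natN n)) (mk U B) ↔ a) fun n q _ => by
      by_cases c : Frc q fun U => E U (mk U (natN n)) (mk U B)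
      · exact ⟨q, le_rfl, True, c.imp fun _ h => iff_true_intro h⟩
      · obtain ⟨r, d, e⟩ := cl.decide c
        exact ⟨r, d, False, e.imp fun _ h => iff_false_intro h⟩
  have hb' : {n | b n}.Infinite := infinite_of_forall_exists_gt fun N => by
    obtain ⟨m, hm⟩ := frc_ex (S := fun U m => E U m (mk U B) ∧ Sub (E U) (mk U (natN (N + 1))) m)
      ((hp.mono hq).imp fun U h => h.2.2.2.1 _ (nat_mem_omega _))
    obtain ⟨r, hr, k, hk⟩ := decide_nat (x := m) (p := q)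
      fun U hU => (hp.mono hq U hU).2.2.1 _ (hm U hU).1
    obtain ⟨U, a, c⟩ := hk.ex
    have d := hm.mono hr U a
    beta_reduce at d
    rw [c] at d
    exact ⟨k, ((hb k).mono hr U a).1 d.1, sub_natN.1 d.2⟩
  have out : ∀ T : Set κ.ord.ToType, #T < κ → ∃ a, a ∉ T := fun T c => by
    by_contra! d
    rw [eq_univ_of_forall d] at c
    simp at c
  obtain ⟨β, hβ⟩ := out _ q.small
  obtain ⟨q1, hq1, e1, -⟩ := q.add hκ.aleph0_le (not_not.1 hβ) (ρ.symm {n | b n})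
  have hJ : #(Iic β) < κ := by
    rw [← Iio_insert]
    exact mk_insert_le.trans_lt (add_lt_of_lt h0.le (hI β) (one_lt_aleph0.trans h0))
  obtain ⟨q2, hq2, e2⟩ := small_cases hκ hJ (p := q1) (D := fun (γ : Iic β) r =>
    ∃ a : κ.ord.ToType, Frc r fun U => ∀ x, App (E U) (mk U h) x (mk U (ordN γ.1)) →
      x = mk U (ordN a)) (fun _ _ _ c ⟨a, d⟩ => ⟨a, d.mono c⟩) fun γ r hr => by
    by_cases c : Frc r fun U => ¬∃ x, App (E U) (mk U h) x (mk U (ordN γ.1))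
    · exact ⟨r, le_rfl, β, fun U hU x d => (c U hU ⟨x, d⟩).elim⟩
    obtain ⟨r1, d, c⟩ := cl.decide c
    obtain ⟨x, hx⟩ := frc_ex (S := fun U x => App (E U) (mk U h) x (mk U (ordN γ.1)))
      (c.imp fun _ => not_not.1)
    have k := hp.mono (d.trans (hr.trans (hq1.trans hq)))
    obtain ⟨r2, f, a, ha⟩ := fam_elim (z := x) (p := r1) (A := fun a : κ.ord.ToType => ordN a)
      fun U hU => ((k U hU).2.1.1.dom (hx U hU)).1
    exact ⟨r2, f.trans d, a, fun U hU y g =>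
      ((k.mono f U hU).2.1.2 _ _ _ g (hx.mono f U hU)).trans (ha U hU).2⟩
  choose a ha using e2
  obtain ⟨α, hα⟩ := out _ ((mk_range_le (f := a)).trans_lt hJ)
  have k := hp.mono (hq2.trans (hq1.trans hq))
  obtain ⟨y, hy⟩ := frc_ex (S := fun U y => App (E U) (mk U h) (mk U (ordN α)) y) (p := q2)
    fun U hU => (k U hU).2.1.1.ex (fam_intro (A := fun a : κ.ord.ToType => ordN a) α trivial)
  obtain ⟨r, hr, γ, hγ⟩ := fam_elim (z := y) (p := q2) (A := fun a : κ.ord.ToType => ordN a)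
    fun U hU => (k U hU).1 _ ((k U hU).2.1.1.dom (hy U hU)).2
  have hy' : Frc r fun U => App (E U) (mk U h) (mk U (ordN α)) (mk U (ordN γ)) := fun U hU => by
    have := hy.mono hr U hU
    beta_reduce at this
    rwa [(hγ U hU).2] at this
  rcases le_or_gt γ β with c | c
  · obtain ⟨U, d, e⟩ := hy'.ex
    exact hα ⟨⟨γ, c⟩, (ordN_inj ((ha ⟨γ, c⟩).mono hr U d _ e)).symm⟩
  obtain ⟨r1, hr1, e3⟩ := small_cases hκ (hI γ) (p := r) (D := fun (δ : Iio γ) r =>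
    ∃ v, r.f δ = some v) (fun _ _ _ c ⟨a, d⟩ => ⟨a, c _ _ d⟩) fun δ r _ => r.val h0.le δ
  choose g hg using e3
  have e4 : ρ (g ⟨β, c⟩) = {n | b n} := by
    rw [Fn.compat le_rfl (hr1.trans (hr.trans hq2)) _ _ _ (hg ⟨β, c⟩) e1, ρ.apply_symm_apply]
  obtain ⟨⟨n, n1, n2⟩, m, m1, m2⟩ := (hs γ g ⟨β, c⟩ (e4 ▸ hb')).imp Set.Infinite.nonempty
    Set.Infinite.nonempty
  rw [e4] at n1 m1
  obtain ⟨U, hU⟩ := ex_ult r1
  have u := hr1.trans (hr.trans (hq2.trans hq1))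
  have k := hp.mono (u.trans hq) U hU
  have hA := (k.2.1.1.dom (hy'.mono hr1 U hU)).2
  rcases k.2.2.2.2 with k | k
  · have := k _ _ hA (((hb m).mono u U hU).2 m1)
    revert hU
    refine rel_cases (fun t U d e f hU => ?_) U this
    obtain ⟨w, w1, g', w2, w3⟩ := Filter.nonempty_of_mem (Filter.inter_mem hU d)
    obtain ⟨δ, l⟩ := t
    obtain rfl : γ = δ := ordN_inj e
    obtain rfl : m = l := natN_inj f
    obtain rfl : g = g' := funext fun i => Fn.compat w1 le_rfl _ _ _ (hg i) (w2 i)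
    exact m2 w3
  · exact k _ _ hA (((hb n).mono u U hU).2 n1) (rel_intro (A := fun t : κ.ord.ToType × ℕ => ordN t.1)
      (B := fun t => natN t.2) (γ, n) (frc_lower (S := Lw (γ, n)) (p := r1) ⟨g, hg, n2⟩ U hU))

end Pool.Agent.H42.ZF
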