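import Mathlib

/-! The strong polarized relation at the dominating number holds iff `u < d`. -/

namespace Pool.Agent.H42.PolD

open Set Cardinal Filter

/-- the dominating number -/
noncomputable def dNum : Cardinal.{0} :=
  sInf {c | ∃ F : Set (ℕ → ℕ), #F = c ∧ ∀ g : ℕ → ℕ, ∃ f ∈ F, ∀ᶠ n in atTop, g n ≤ f n}

/-- the ultrafilter number -/
noncomputable def uNum : Cardinal.{0} :=
  sInf {c | ∃ (U : Ultrafilter ℕ) (B : Set (Set ℕ)), (∀ n : ℕ, ({n} : Set ℕ) ∉ U) ∧ #B = c ∧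
    (∀ b ∈ B, b ∈ U) ∧ ∀ A ∈ U, ∃ b ∈ B, b ⊆ A}

/-- the strong polarized relation `(l, ω) → (l, ω)` for two colours -/
def Pol (l : Cardinal.{0}) : Prop :=
  ∀ c : l.out → ℕ → Bool, ∃ (A : Set l.out) (B : Set ℕ) (i : Bool),
    #A = l ∧ B.Infinite ∧ ∀ a ∈ A, ∀ b ∈ B, c a b = i

theorem ex_dom : ∃ F : Set (ℕ → ℕ), #F = dNum ∧
    ∀ g : ℕ → ℕ, ∃ f ∈ F, ∀ᶠ n in atTop, g n ≤ f n :=
  csInf_mem (s := {c | ∃ F : Set (ℕ → ℕ), #F = c ∧
    ∀ g : ℕ → ℕ, ∃ f ∈ F, ∀ᶠ n in atTop, g n ≤ f n})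
    ⟨_, univ, rfl, fun g => ⟨g, trivial, Eventually.of_forall fun _ => le_rfl⟩⟩

theorem ex_base : ∃ (U : Ultrafilter ℕ) (B : Set (Set ℕ)), (∀ n, {n} ∉ U) ∧ #B = uNum ∧
    (∀ b ∈ B, b ∈ U) ∧ ∀ A ∈ U, ∃ b ∈ B, b ⊆ A :=
  csInf_mem (s := {c | ∃ (U : Ultrafilter ℕ) (B : Set (Set ℕ)),
    (∀ n : ℕ, ({n} : Set ℕ) ∉ U) ∧ #B = c ∧ (∀ b ∈ B, b ∈ U) ∧ ∀ A ∈ U, ∃ b ∈ B, b ⊆ A})
    ⟨_, hyperfilter ℕ, {b | b ∈ hyperfilter ℕ},
      fun n => (finite_singleton n).notMem_hyperfilter, rfl, fun _ h => h,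
      fun A h => ⟨A, h, subset_rfl⟩⟩

theorem not_dom {ι : Type} (h : #ι < dNum) (f : ι → ℕ → ℕ) :
    ∃ g : ℕ → ℕ, StrictMono g ∧ (∀ n, n < g n) ∧ ∀ i, ∃ᶠ n in atTop, f i n < g n := by
  have : ∃ g : ℕ → ℕ, ∀ i, ∃ᶠ n in atTop, f i n < g n := by
    by_contra hc
    push Not at hc
    refine (mk_range_le.trans_lt h).not_ge (csInf_le' ⟨range f, rfl, fun g => ?_⟩)
    obtain ⟨i, hi⟩ := hc g
    exact ⟨_, ⟨i, rfl⟩, hi⟩
  obtain ⟨g, hg⟩ := this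
  refine ⟨fun n => (∑ m ∈ Finset.range (n + 1), g m) + n + 1,
    strictMono_nat_of_lt_succ fun n => ?_, fun n => by beta_reduce; omega,
    fun i => (hg i).mono fun n hn => ?_⟩
  · rw [Finset.sum_range_succ _ (n + 1)]; omega
  · beta_reduce; rw [Finset.sum_range_succ]; omega

theorem aleph0_lt_d : ℵ₀ < dNum := by
  by_contra h
  obtain ⟨F, hF, hd⟩ := ex_dom
  have hc : F.Countable := by rw [← le_aleph0_iff_set_countable, hF]; exact not_lt.1 h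
  obtain ⟨f0, hf0, -⟩ := hd id
  obtain ⟨e, rfl⟩ := hc.exists_eq_range ⟨f0, hf0⟩
  obtain ⟨_, ⟨i, rfl⟩, hi⟩ := hd fun n => (∑ m ∈ Finset.range (n + 1), e m n) + 1
  obtain ⟨n, h1, h2⟩ := (hi.and (eventually_ge_atTop i)).exists
  have := Finset.single_le_sum (f := fun m => e m n) (fun _ _ => Nat.zero_le _)
    (Finset.mem_range.2 (show i < n + 1 from Nat.lt_succ_of_le h2))
  omega

theorem inf_of_mem {U : Ultrafilter ℕ} (hU : ∀ n, {n} ∉ U) {A : Set ℕ} (h : A ∈ U) :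
    A.Infinite := fun hf => by
  obtain ⟨a, -, ha⟩ := Ultrafilter.eq_pure_of_finite_mem hf h
  exact hU a (by rw [ha]; exact Ultrafilter.mem_pure.2 rfl)

theorem ex_next {B : Set ℕ} (h : B.Infinite) : ∃ s : ℕ → ℕ, ∀ n, s n ∈ B ∧ n ≤ s n := by
  choose s h1 h2 using h.exists_gt
  exact ⟨s, fun n => ⟨h1 n, (h2 n).le⟩⟩

theorem regular_d (h : uNum < dNum) : dNum.IsRegular := by
  obtain ⟨U, B, hU, hB, h1, h2⟩ := ex_base
  choose s hs using fun b : B => ex_next (inf_of_mem hU (h1 b b.2))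
  have key : ∀ {ι : Type}, #ι < dNum → ∀ f : ι → ℕ → ℕ, ∃ g : ℕ → ℕ, ∀ i,
      {n | f i n < g n} ∈ U := by
    intro ι hι f
    obtain ⟨g, g1, -, g3⟩ := not_dom (ι := ι × B)
      (by rw [mk_prod, lift_id, lift_id, hB]; exact mul_lt_of_lt aleph0_lt_d.le hι h)
      fun x n => f x.1 (s x.2 n)
    refine ⟨g, fun i => ?_⟩
    by_contra hc
    obtain ⟨b, hb, h3⟩ := h2 _ (Ultrafilter.compl_mem_iff_notMem.2 hc)
    obtain ⟨n, hn⟩ := (g3 (i, ⟨b, hb⟩)).exists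
    exact h3 (hs ⟨b, hb⟩ n).1 (hn.trans_le (g1.monotone (hs ⟨b, hb⟩ n).2))
  refine ⟨aleph0_lt_d.le, not_lt.1 fun hc => ?_⟩
  obtain ⟨F, hF, hd⟩ := ex_dom
  obtain ⟨e⟩ : Nonempty (dNum.ord.ToType ≃ F) := Cardinal.eq.1 (by simp [hF])
  obtain ⟨C, hC, hC'⟩ := Order.exists_cof_eq dNum.ord.ToType
  rw [Ordinal.cof_toType] at hC'
  choose g hg using fun a : C => key (ι := Iic a.1)
    ((mk_Iic_lt a.1 (by simp) (by simpa using aleph0_lt_d.le)).trans_eq (by simp))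
    fun x => (e x.1).1
  obtain ⟨k, hk⟩ := key (hC' ▸ hc) g
  obtain ⟨f, hf, h3⟩ := hd k
  obtain ⟨a, ha, h4⟩ := hC (e.symm ⟨f, hf⟩)
  have h5 := hg ⟨a, ha⟩ ⟨_, h4⟩
  simp only [Equiv.apply_symm_apply] at h5
  obtain ⟨N, hN⟩ := eventually_atTop.1 h3
  obtain ⟨n, ⟨h6, h7⟩, h8⟩ := (inf_of_mem hU (inter_mem h5 (hk ⟨a, ha⟩))).exists_gt N
  exact (hN n h8.le).not_gt (h6.trans h7)

theorem pol_of_lt (h : uNum < dNum) : Pol dNum := by
  intro c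
  obtain ⟨U, B, hU, hB, h1, h2⟩ := ex_base
  have : ∀ a, ∃ x : B × Bool, ∀ b ∈ x.1.1, c a b = x.2 := by
    intro a
    rcases U.mem_or_compl_mem {b | c a b = true} with h3 | h3
    · obtain ⟨b, hb, h4⟩ := h2 _ h3
      exact ⟨(⟨b, hb⟩, true), h4⟩
    · obtain ⟨b, hb, h4⟩ := h2 _ h3
      exact ⟨(⟨b, hb⟩, false), fun x hx => by simpa using h4 hx⟩
  choose x hx using this
  obtain ⟨y, hy⟩ := infinite_pigeonhole x (by simpa using aleph0_lt_d.le) (by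
    rw [mk_out, (regular_d h).cof_ord, mk_prod, lift_id, lift_id, hB]
    exact mul_lt_of_lt aleph0_lt_d.le h ((lt_aleph0_of_finite _).trans aleph0_lt_d))
  refine ⟨_, y.1.1, y.2, hy.trans (mk_out _), inf_of_mem hU (h1 _ y.1.2), fun a ha b hb => ?_⟩
  obtain rfl : x a = y := ha
  exact hx a b hb

/-- A finite-to-one map with infinitely many fibres containing an interval `[n, f i n]`. -/
theorem ex_part {ι : Type} (h : #ι < dNum) (f : ι → ℕ → ℕ) :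
    ∃ φ : ℕ → ℕ, ∀ i N, ∃ n ≥ N, N ≤ φ n ∧ ∀ m, n ≤ m → m ≤ f i n → φ m = φ n := by
  classical
  let f' : ι → ℕ → ℕ := fun i n => (∑ m ∈ Finset.range (n + 1), f i m) + n
  have m1 : ∀ i, Monotone (f' i) := fun i => monotone_nat_of_le_succ fun n => by
    simp only [f']; rw [Finset.sum_range_succ _ (n + 1)]; omega
  have m2 : ∀ i n, f i n ≤ f' i n := fun i n => by
    simp only [f']; rw [Finset.sum_range_succ]; omega
  have m3 : ∀ i n, n ≤ f' i n := fun i n => by simp only [f']; omega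
  obtain ⟨g, g1, g2, g3⟩ := not_dom h fun i n => f' i (f' i n)
  let p : ℕ → ℕ := fun k => g^[k] 0
  have p1 : ∀ k, p (k + 1) = g (p k) := fun k => Function.iterate_succ_apply' _ _ _
  have p2 : StrictMono p := strictMono_nat_of_lt_succ fun k => by rw [p1]; exact g2 _
  have p3 : ∀ m, ∃ k, m < p (k + 1) := fun m => ⟨m, (Nat.lt_succ_self m).trans_le p2.le_apply⟩
  have p4 : ∀ m k, p k ≤ m → m < p (k + 1) → Nat.find (p3 m) = k := fun m k h1 h2 =>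
    (Nat.find_eq_iff _).2 ⟨h2, fun j hj => not_lt.2 ((p2.monotone hj).trans h1)⟩
  refine ⟨fun m => Nat.find (p3 m), fun i N => ?_⟩
  beta_reduce
  obtain ⟨n, hn, h1⟩ := frequently_atTop.1 (g3 i) (p N)
  have hk := Nat.find_spec (p3 n)
  have hk' : p (Nat.find (p3 n)) ≤ n := by
    rcases h2 : Nat.find (p3 n) with _ | j
    · exact Nat.zero_le _
    · exact not_lt.1 (Nat.find_min (p3 n) (h2 ▸ Nat.lt_succ_self j))
  generalize Nat.find (p3 n) = k at hk hk'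
  have hN : N ≤ k := Nat.lt_succ_iff.1 (p2.lt_iff_lt.1 (hn.trans_lt hk))
  by_cases h2 : f' i n < p (k + 1)
  · refine ⟨n, p2.le_apply.trans hn, by rwa [p4 n k hk' hk], fun m h3 h4 => ?_⟩
    rw [p4 n k hk' hk, p4 m k (hk'.trans h3) ((h4.trans (m2 i n)).trans_lt h2)]
  · have h5 : p (k + 1) < p (k + 1 + 1) := p2 (Nat.lt_succ_self _)
    refine ⟨p (k + 1), p2.le_apply.trans (hn.trans hk.le), by rw [p4 _ _ le_rfl h5]; omega,
      fun m h3 h4 => ?_⟩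
    rw [p4 _ _ le_rfl h5, p4 m (k + 1) h3]
    rw [p1 (k + 1)]
    exact (h4.trans ((m2 _ _).trans (m1 i (not_lt.1 h2)))).trans_lt (h1.trans (g1 hk))

theorem ex_split (hdu : dNum ≤ uNum) {ι : Type} (h : #ι < dNum) (f : ι → ℕ → ℕ) :
    ∃ X : ℕ → Bool, ∀ i b N, ∃ n ≥ N, ∀ m, n ≤ m → m ≤ f i n → X m = b := by
  classical
  have hf : #(Finset ι) < dNum := by
    rcases finite_or_infinite ι with _ | _
    · exact (lt_aleph0_of_finite _).trans aleph0_lt_d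
    · rwa [mk_finset_of_infinite]
  obtain ⟨φ, hφ⟩ := ex_part hf fun s n => s.sup fun i => f i n
  let A : Finset ι × ℕ → Set ℕ := fun x =>
    {k | ∃ n ≥ x.2, x.2 ≤ k ∧ φ n = k ∧ ∀ m, n ≤ m → m ≤ x.1.sup (fun i => f i n) → φ m = k}
  have hA : ∀ x y, x ≤ y → A y ⊆ A x := fun x y hxy k ⟨n, h1, h2, h3, h4⟩ =>
    ⟨n, hxy.2.trans h1, hxy.2.trans h2, h3, fun m h5 h6 =>
      h4 m h5 (h6.trans (Finset.sup_mono hxy.1))⟩
  have hne : ∀ x, (A x).Nonempty := fun x => by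
    obtain ⟨n, h1, h2, h3⟩ := hφ x.1 x.2
    exact ⟨_, n, h1, h2, rfl, h3⟩
  have : (⨅ x, 𝓟 (A x)).NeBot := iInf_neBot_of_directed
    (directed_of_isDirected_le fun x y hxy => principal_mono.2 (hA x y hxy))
    fun x => principal_neBot_iff.2 (hne x)
  let U := Ultrafilter.of (⨅ x, 𝓟 (A x))
  have hU : ∀ x, A x ∈ U := fun x => Ultrafilter.of_le _ (mem_iInf_of_mem x (mem_principal_self _))
  have hY : ∃ Y ∈ U, ∀ x, ¬ A x ⊆ Y := by
    by_contra hc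
    push Not at hc
    have h1 : uNum ≤ #(range A) := csInf_le' ⟨U, range A, fun n hn => ?_, rfl, ?_, fun Y hY => ?_⟩
    · refine (h1.trans mk_range_le).not_gt (lt_of_lt_of_le ?_ hdu)
      rw [mk_prod, lift_id, lift_id, mk_nat]
      exact mul_lt_of_lt aleph0_lt_d.le hf aleph0_lt_d
    · obtain ⟨k, rfl, _, _, h2, _⟩ := Ultrafilter.nonempty_of_mem (inter_mem hn (hU (∅, n + 1)))
      exact absurd h2 (by simp)
    · rintro _ ⟨x, rfl⟩; exact hU x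
    · obtain ⟨x, hx⟩ := hc Y hY
      exact ⟨_, ⟨x, rfl⟩, hx⟩
  obtain ⟨Y, hY, h1⟩ := hY
  refine ⟨fun m => decide (φ m ∈ Y), fun i b N => ?_⟩
  have : ∃ k ∈ A ({i}, N), decide (k ∈ Y) = b := by
    cases b
    · obtain ⟨k, h2, h3⟩ := not_subset.1 (h1 ({i}, N))
      exact ⟨k, h2, by simpa using h3⟩
    · obtain ⟨k, h2, h3⟩ := Ultrafilter.nonempty_of_mem (inter_mem (hU ({i}, N)) hY)
      exact ⟨k, h2, by simpa using h3⟩
  obtain ⟨k, ⟨n, h2, -, -, h3⟩, h4⟩ := this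
  exact ⟨n, h2, fun m h5 h6 => by rw [← h4, ← h3 m h5 (by simpa using h6)]⟩

theorem not_pol (hdu : dNum ≤ uNum) : ¬ Pol dNum := by
  intro hp
  obtain ⟨F, hF, hd⟩ := ex_dom
  obtain ⟨e⟩ : Nonempty (dNum.ord.ToType ≃ F) := Cardinal.eq.1 (by simp [hF])
  obtain ⟨e'⟩ : Nonempty (dNum.out ≃ dNum.ord.ToType) := Cardinal.eq.1 (by simp)
  choose X hX using fun a : dNum.ord.ToType => ex_split hdu (ι := Iio a)
    ((mk_Iio_lt a (by simp)).trans_eq (by simp)) fun x => (e x.1).1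
  obtain ⟨A, B, i, hA, hB, h⟩ := hp fun a => X (e' a)
  obtain ⟨s, hs⟩ := ex_next hB
  obtain ⟨f, hf, h3⟩ := hd s
  obtain ⟨N, hN⟩ := eventually_atTop.1 h3
  have h4 : e' '' A ⊆ Iic (e.symm ⟨f, hf⟩) := by
    rintro _ ⟨a, ha, rfl⟩
    by_contra hc
    obtain ⟨n, h5, h6⟩ := hX (e' a) ⟨e.symm ⟨f, hf⟩, mem_Iio.2 (not_le.1 hc)⟩ (!i) N
    have h7 := h6 (s n) (hs n).2 (by simpa using hN n h5)
    rw [h a ha _ (hs n).1] at h7
    simp at h7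
  have h5 := (mk_le_mk_of_subset h4).trans_lt
    (mk_Iic_lt _ (by simp) (by simpa using aleph0_lt_d.le))
  rw [mk_image_eq e'.injective, hA] at h5
  simp at h5

theorem pol_iff : Pol dNum ↔ uNum < dNum :=
  ⟨fun h => not_le.1 fun h' => not_pol h' h, pol_of_lt⟩

end Pool.Agent.H42.PolD
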