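import Pool.Agent.H42.ZFDefs

/-! Random forcing, and the polarized relation at the dominating number inside a structure. -/

namespace Pool.Agent.H42.ZF

open MeasureTheory

/-- the fair-coin product measure on `2^(L × ω)` -/
noncomputable def coin (L : Type) : Measure (L × ℕ → Bool) :=
  Measure.infinitePi fun _ => (PMF.uniformOfFintype Bool).toMeasure

/-- the measurable sets of positive measure, ordered by inclusion -/
abbrev Rand {Ω : Type} [MeasurableSpace Ω] (μ : Measure Ω) : Type :=
  {s : Set Ω // MeasurableSet s ∧ μ s ≠ 0}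

variable {M : Type 1} (E : M → M → Prop)

/-- `D` is a dominating family of functions `w → w` -/
def Dom (D w : M) : Prop :=
  (∀ f, E f D → IsFun E f w w) ∧ ∀ g, IsFun E g w w → ∃ f, E f D ∧ ∃ N, E N w ∧
    ∀ n, E n w → Sub E N n → ∀ a b, App E g n a → App E f n b → Sub E a b

/-- `j` is an injection of `A` into `B` -/
def Inj (j A B : M) : Prop := IsFun E j A B ∧ ∀ a a' b, App E j a b → App E j a' b → a = a'

/-- `D` is a dominating family of least size -/
def MinDom (D w : M) : Prop := Dom E D w ∧ ∀ D', Dom E D' w → ∃ j, Inj E j D D'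

/-- the relation `(|D|, ω) → (|D|, ω)`: a colouring is given by the set `c` of pairs of colour 1 -/
def PolM (D w : M) : Prop :=
  ∀ c, ∃ A B, Sub E A D ∧ (∃ h, Inj E h D A) ∧ Sub E B w ∧ (∀ n, E n w → ∃ m, E m B ∧ Sub E n m) ∧
    ((∀ a b, E a A → E b B → App E c a b) ∨ ∀ a b, E a A → E b B → ¬App E c a b)

end Pool.Agent.H42.ZF
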