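import Pool.Agent.H42.Frc4
import Pool.Agent.H42.RndDefs
import Pool.Agent.H42.PolD

/-! Splitting and reaping numbers, and the canonical names of ordinals. -/

namespace Pool.Agent.H42.ZF

open Cardinal

/-- the splitting number -/
noncomputable def splitNum : Cardinal.{0} :=
  sInf {c | ∃ S : Set (Set ℕ), #S = c ∧ (∀ s ∈ S, s.Infinite) ∧
    ∀ X : Set ℕ, X.Infinite → ∃ s ∈ S, (X ∩ s).Infinite ∧ (X \ s).Infinite}

/-- the reaping number -/
noncomputable def reapNum : Cardinal.{0} :=
  sInf {c | ∃ R : Set (Set ℕ), #R = c ∧ (∀ r ∈ R, r.Infinite) ∧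
    ∀ s : Set ℕ, ∃ r ∈ R, (r ∩ s).Finite ∨ (r \ s).Finite}

/-- the canonical name of the ordinal that is the order type of the predecessors of `a` -/
noncomputable def ordN {P α : Type} [Preorder P] [LinearOrder α] [WellFoundedLT α] : α → Nm P :=
  wellFounded_lt.fix fun a ih => fam (fun b : Set.Iio a => ih b.1 b.2) fun _ _ => True

/-- the canonical name of the cardinal `κ` -/
noncomputable def cardN {P : Type} [Preorder P] (κ : Cardinal.{0}) : Nm P :=
  fam (fun a : κ.ord.ToType => ordN a) fun _ _ => True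

/-- partial functions from `κ` to `l` of size below `κ` -/
abbrev Levy (κ l : Cardinal.{0}) : Type := Fn κ κ.ord.ToType l.ord.ToType

end Pool.Agent.H42.ZF
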