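import Pool.Agent.H42.LocDefs

namespace Pool.Agent.H42.Loc1
open Pool.Agent.H42.LocDefs Set Filter MeasureTheory Topology
open scoped ENNReal

theorem pre {l l' : List (Finset ℕ)} (h : l <+: l') {i : ℕ} (hi : i < l.length) :
    l'.getD i ∅ = l.getD i ∅ := by
  obtain ⟨t, rfl⟩ := h
  exact List.getD_append _ _ _ _ hi

instance : Preorder LOC where
  le_refl p := ⟨List.prefix_rfl, subset_rfl, fun _ _ _ h h' => absurd h' (not_lt.2 h)⟩
  le_trans r q p h h' := ⟨h'.1.trans h.1, h'.2.1.trans h.2.1, fun f hf i h1 h2 => by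
    by_cases h3 : i < q.s.length
    · rw [pre h.1 h3]; exact h'.2.2 f hf i h1 h3
    · exact h.2.2 f (h'.2.1 hf) i (not_lt.1 h3) h2⟩

def Sl : Type := {φ : ℕ → Finset ℕ // ∀ i, (φ i).card ≤ i}

def U (p : LOC) : Set Sl :=
  {φ | (∀ i < p.s.length, φ.1 i = p.s.getD i ∅) ∧ ∀ f ∈ p.F, ∀ i, p.s.length ≤ i → f i ∈ φ.1 i}

theorem U_mono {p q : LOC} (h : q ≤ p) : U q ⊆ U p := fun φ hφ =>
  ⟨fun i hi => (hφ.1 i (hi.trans_le h.1.length_le)).trans (pre h.1 hi), fun f hf i hi => by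
    by_cases h3 : i < q.s.length
    · rw [hφ.1 i h3]; exact h.2.2 f hf i hi h3
    · exact hφ.2 f (h.2.1 hf) i (not_lt.1 h3)⟩

theorem getD_mk (φ : ℕ → Finset ℕ) {n i : ℕ} (h : i < n) :
    ((List.range n).map φ).getD i ∅ = φ i := by simp [h]

def mk (φ : Sl) (n : ℕ) (F : Finset (ℕ → ℕ)) (h : F.card ≤ n) : LOC where
  s := (List.range n).map φ.1
  F := F
  hs i hi := by rw [getD_mk _ (by simpa using hi)]; exact φ.2 i
  hF := by simpa using h

theorem mk_le {φ : Sl} {p : LOC} (hφ : φ ∈ U p) {n : ℕ} {F : Finset (ℕ → ℕ)} (h : F.card ≤ n)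
    (hn : p.s.length ≤ n) (hF : p.F ⊆ F) : mk φ n F h ≤ p := by
  refine ⟨?_, hF, fun f hf i h1 h2 => ?_⟩
  · rw [List.prefix_iff_eq_take]
    refine List.ext_getElem (by simp [mk, hn]) fun i h1 h2 => ?_
    have := hφ.1 i h1
    simp only [List.getD_eq_getElem _ _ h1] at this
    simp [mk, this]
  · simp only [mk]
    rw [getD_mk _ (by simpa [mk] using h2)]
    exact hφ.2 f hf i h1

theorem mem_mk {φ ψ : Sl} {n : ℕ} {F : Finset (ℕ → ℕ)} (h : F.card ≤ n)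
    (h1 : ∀ i < n, ψ.1 i = φ.1 i) (h2 : ∀ f ∈ F, ∀ i, n ≤ i → f i ∈ ψ.1 i) :
    ψ ∈ U (mk φ n F h) :=
  ⟨fun i hi => by
    have hi' : i < n := by simpa [mk] using hi
    simp only [mk]
    rw [getD_mk _ hi', h1 i hi'], fun f hf i hi => h2 f hf i (by simpa [mk] using hi)⟩

theorem add_f (p : LOC) (f : ℕ → ℕ) :
    ∃ q ≤ p, f ∈ q.F ∧ p.s.length < q.s.length ∧ (U q).Nonempty := by
  classical
  let φ : Sl := ⟨fun i => if i < p.s.length then p.s.getD i ∅ else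
    if i = p.s.length then p.F.image (· i) else (insert f p.F).image (· i), fun i => by
      beta_reduce
      split_ifs with h1 h2
      · exact p.hs i h1
      · exact Finset.card_image_le.trans (h2 ▸ p.hF)
      · refine Finset.card_image_le.trans ((Finset.card_insert_le _ _).trans ?_)
        have := p.hF
        omega⟩
  have hφ : φ ∈ U p := ⟨fun i hi => if_pos hi, fun g hg i hi => by
    simp only [φ, not_lt.2 hi, if_false]
    split_ifs
    · exact Finset.mem_image_of_mem _ hg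
    · exact Finset.mem_image_of_mem _ (Finset.mem_insert_of_mem hg)⟩
  have hc : (insert f p.F).card ≤ p.s.length + 1 :=
    (Finset.card_insert_le _ _).trans (Nat.succ_le_succ p.hF)
  refine ⟨mk φ _ _ hc, mk_le hφ hc (Nat.le_succ _) (Finset.subset_insert _ _),
    Finset.mem_insert_self _ _, by simp [mk], φ, mem_mk hc (fun _ _ => rfl) fun g hg i hi => ?_⟩
  simp only [φ, show ¬ i < p.s.length by omega, show i ≠ p.s.length by omega, if_false]
  exact Finset.mem_image_of_mem _ hg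

theorem U_ne (p : LOC) : (U p).Nonempty := by
  obtain ⟨q, h, -, -, h'⟩ := add_f p id
  exact h'.mono (U_mono h)

theorem meet {φ : Sl} {p p' : LOC} (h : φ ∈ U p) (h' : φ ∈ U p') :
    ∃ q, q ≤ p ∧ q ≤ p' ∧ φ ∈ U q := by
  classical
  have hc : (p.F ∪ p'.F).card ≤ p.s.length + p'.s.length :=
    (Finset.card_union_le _ _).trans (add_le_add p.hF p'.hF)
  refine ⟨mk φ _ _ hc, mk_le h hc (by omega) Finset.subset_union_left,
    mk_le h' hc (by omega) Finset.subset_union_right, mem_mk hc (fun _ _ => rfl) fun f hf i hi => ?_⟩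
  rcases Finset.mem_union.1 hf with hf | hf
  · exact h.2 f hf i (by omega)
  · exact h'.2 f hf i (by omega)

instance : TopologicalSpace Sl := TopologicalSpace.generateFrom (range U)

theorem basis : TopologicalSpace.IsTopologicalBasis (range U) where
  exists_subset_inter := by
    rintro _ ⟨p, rfl⟩ _ ⟨p', rfl⟩ φ ⟨h, h'⟩
    obtain ⟨q, h1, h2, h3⟩ := meet h h'
    exact ⟨_, ⟨q, rfl⟩, h3, subset_inter (U_mono h1) (U_mono h2)⟩
  sUnion_eq := eq_univ_of_forall fun φ => ⟨_, ⟨mk φ 0 ∅ le_rfl, rfl⟩,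
    mem_mk _ (fun _ _ => rfl) (by simp)⟩
  eq_generateFrom := rfl

theorem U_open (p : LOC) : IsOpen (U p) := basis.isOpen ⟨p, rfl⟩

theorem shrink {O : Set Sl} (hO : IsOpen O) {p : LOC} (h : (U p ∩ O).Nonempty) :
    ∃ q ≤ p, U q ⊆ O := by
  obtain ⟨φ, h1, h2⟩ := h
  obtain ⟨_, ⟨p', rfl⟩, h3, h4⟩ := basis.exists_subset_of_mem_open h2 hO
  obtain ⟨q, h5, h6, -⟩ := meet h1 h3
  exact ⟨q, h5, (U_mono h6).trans h4⟩

instance : BaireSpace Sl := ⟨fun f ho hd => by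
  refine basis.dense_iff.2 ?_
  rintro _ ⟨p, rfl⟩ -
  have : ∀ n (p : LOC), ∃ q ≤ p, U q ⊆ f n ∧ p.s.length < q.s.length := fun n p => by
    obtain ⟨q, hq, -, h, -⟩ := add_f p id
    obtain ⟨r, hr, h'⟩ := shrink (ho n) ((hd n).inter_open_nonempty _ (U_open q) (U_ne q))
    exact ⟨r, hr.trans hq, h', h.trans_le hr.1.length_le⟩
  choose g hg1 hg2 hg3 using this
  let P : ℕ → LOC := fun n => Nat.rec p (fun n q => g n q) n
  have hP : Antitone P := antitone_nat_of_succ_le fun n => hg1 n _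
  have hl : ∀ n, n ≤ (P n).s.length := fun n => by
    induction n with
    | zero => exact Nat.zero_le _
    | succ n ih => exact Nat.succ_le_of_lt (ih.trans_lt (hg3 n _))
  let φ : Sl := ⟨fun i => (P (i + 1)).s.getD i ∅, fun i => (P (i + 1)).hs i (hl _)⟩
  have hφ : ∀ n, φ ∈ U (P n) := fun n => ⟨fun i hi => by
    rcases le_total n (i + 1) with h | h
    · exact pre (hP h).1 hi
    · exact (pre (hP h).1 (hl _)).symm, fun f hf i hi =>
      (hP (show n ≤ i + 1 by have := hl n; omega)).2.2 f hf i hi (hl _)⟩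
  exact ⟨φ, hφ 0, mem_iInter.2 fun n => hg2 n _ (hφ (n + 1))⟩⟩

theorem capt (f : ℕ → ℕ) : ∀ᶠ φ in residual Sl, ∀ᶠ i in atTop, f i ∈ φ.1 i := by
  refine mem_of_superset (residual_of_dense_open (s := ⋃ q ∈ {q : LOC | f ∈ q.F}, U q)
    (isOpen_biUnion fun q _ => U_open q) (basis.dense_iff.2 ?_)) ?_
  · rintro _ ⟨p, rfl⟩ -
    obtain ⟨q, h1, h2, -, φ, h3⟩ := add_f p f
    exact ⟨φ, U_mono h1 h3, mem_biUnion h2 h3⟩
  · intro φ h
    obtain ⟨q, h1, h2⟩ := mem_iUnion₂.1 h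
    exact eventually_atTop.2 ⟨_, h2.2 f h1⟩

/-- finite unions of rational intervals -/
def O (k : ℕ) : Set ℝ := ⋃ z ∈ (Encodable.decode k : Option (Finset (ℚ × ℚ))).getD ∅, Ioo z.1 z.2

theorem O_open (k : ℕ) : IsOpen (O k) := isOpen_biUnion fun _ _ => isOpen_Ioo

theorem rat_nhd {V : Set ℝ} (hV : IsOpen V) {x : ℝ} (hx : x ∈ V) :
    ∃ z : ℚ × ℚ, x ∈ Ioo (z.1 : ℝ) z.2 ∧ Icc (z.1 : ℝ) z.2 ⊆ V := by
  obtain ⟨l, u, ⟨h1, h2⟩, h3⟩ := mem_nhds_iff_exists_Ioo_subset.1 (hV.mem_nhds hx)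
  obtain ⟨a, h4, h5⟩ := exists_rat_btwn h1
  obtain ⟨b, h6, h7⟩ := exists_rat_btwn h2
  exact ⟨(a, b), ⟨h5, h6⟩, (Icc_subset_Ioo h4 h7).trans h3⟩

theorem cover_cpt {K : Set ℝ} (hK : IsCompact K) {γ : ℝ≥0∞} (h : volume K < γ) :
    ∃ k, K ⊆ O k ∧ volume (O k) ≤ γ := by
  classical
  obtain ⟨V, h1, h2, h3⟩ := K.exists_isOpen_lt_of_lt γ h
  choose z hz1 hz2 using fun x : K => rat_nhd h2 (h1 x.2)
  obtain ⟨t, ht⟩ := hK.elim_finite_subcover (fun x : K => Ioo ((z x).1 : ℝ) (z x).2)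
    (fun _ => isOpen_Ioo) fun x hx => mem_iUnion.2 ⟨⟨x, hx⟩, hz1 _⟩
  refine ⟨Encodable.encode (t.image z), ?_, (measure_mono ?_).trans h3.le⟩
  · simp only [O, Encodable.encodek, Option.getD_some, Finset.set_biUnion_finset_image]
    exact ht
  · simp only [O, Encodable.encodek, Option.getD_some, Finset.set_biUnion_finset_image]
    exact iUnion₂_subset fun x _ => Ioo_subset_Icc_self.trans (hz2 x)

theorem cover_null {N : Set ℝ} (hN : volume N = 0) (γ : ℕ → ℝ≥0∞) (hγ : ∀ m, 0 < γ m) :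
    ∃ c : ℕ → ℕ, (∀ m, volume (O (c m)) ≤ γ m) ∧ ∀ x ∈ N, ∃ m, x ∈ O (c m) := by
  obtain ⟨V, h1, h2, h3⟩ := N.exists_isOpen_lt_of_lt (μ := volume) (min (γ 0) 1)
    (by rw [hN]; exact lt_min (hγ 0) one_pos)
  obtain ⟨e, he⟩ := exists_surjective_nat (ℚ × ℚ)
  let J : ℕ → Set ℕ := fun i => {j | j < i ∧ Icc ((e j).1 : ℝ) (e j).2 ⊆ V}
  let A : ℕ → Set ℝ := fun i => ⋃ j ∈ J i, Ioo ((e j).1 : ℝ) (e j).2
  let K : ℕ → Set ℝ := fun i => ⋃ j ∈ J i, Icc ((e j).1 : ℝ) (e j).2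
  have hA : ∀ i, IsOpen (A i) := fun i => isOpen_biUnion fun _ _ => isOpen_Ioo
  have hK : ∀ i, IsCompact (K i) := fun i =>
    ((finite_lt_nat i).subset fun j hj => hj.1).isCompact_biUnion fun _ _ => isCompact_Icc
  have hAm : Monotone A := fun i i' h => biUnion_subset_biUnion_left fun j hj =>
    ⟨hj.1.trans_le h, hj.2⟩
  have hV : ∀ x ∈ V, ∃ i, x ∈ A i := fun x hx => by
    obtain ⟨z, h4, h5⟩ := rat_nhd h2 hx
    obtain ⟨j, rfl⟩ := he z
    exact ⟨j + 1, mem_biUnion (show j ∈ J (j + 1) from ⟨j.lt_succ_self, h5⟩) h4⟩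
  have ht := tendsto_measure_iInter_atTop (μ := volume) (s := fun i => V \ A i)
    (fun i => (h2.measurableSet.diff (hA i).measurableSet).nullMeasurableSet)
    (fun i i' h => sdiff_subset_sdiff_right (hAm h))
    ⟨0, ((measure_mono sdiff_subset).trans_lt (h3.trans_le ((min_le_right _ _).trans le_top)
      |>.trans_le le_rfl)).ne_top⟩
  have h0 : ⋂ i, V \ A i = ∅ := eq_empty_of_forall_notMem fun x hx => by
    obtain ⟨i, hi⟩ := hV x (mem_iInter.1 hx 0).1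
    exact (mem_iInter.1 hx i).2 hi
  rw [h0, measure_empty] at ht
  have h4 : ∀ m, ∃ i, (m = 0 → i = 0) ∧ m ≤ i ∧ volume (V \ A i) < γ m := fun m => by
    rcases Nat.eq_zero_or_pos m with rfl | hm
    · exact ⟨0, fun _ => rfl, le_rfl,
        (measure_mono sdiff_subset).trans_lt (h3.trans_le (min_le_left _ _))⟩
    · obtain ⟨i, h5, h6⟩ := ((ht.eventually (gt_mem_nhds (hγ m))).and
        (eventually_ge_atTop m)).exists
      exact ⟨i, fun h => absurd h hm.ne', h6, h5⟩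
  choose I hI0 hI1 hI2 using h4
  choose c hc1 hc2 using fun m => cover_cpt ((hK (I (m + 1))).diff (hA (I m)))
    ((measure_mono (sdiff_subset_sdiff_left (iUnion₂_subset fun j hj => hj.2))).trans_lt (hI2 m))
  refine ⟨c, hc2, fun x hx => ?_⟩
  classical
  have h5 : ∃ m, x ∈ A (I m) := (hV x (h1 hx)).imp fun i hi => hAm (hI1 i) hi
  have h6 := Nat.find_spec h5
  rcases Nat.eq_zero_or_eq_succ_pred (Nat.find h5) with h | h
  · rw [h, hI0 0 rfl] at h6
    simp [A, J] at h6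
  · refine ⟨_, hc1 (Nat.find h5).pred ⟨?_, Nat.find_min h5 (by omega)⟩⟩
    rw [h] at h6
    exact iUnion₂_mono (fun _ _ => Ioo_subset_Icc_self) h6

end Pool.Agent.H42.Loc1
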