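import Pool.Agent.H42.Loc1

namespace Pool.Agent.H42.Loc2
open Pool.Agent.H42.LocDefs Pool.Agent.H42.Loc1 Set Filter MeasureTheory Topology
open scoped ENNReal

theorem ex_r : ∃ r : Sl → ℝ, (∀ A, MeasurableSet A → BaireMeasurableSet (r ⁻¹' A)) ∧
    (∀ φ, r φ ∈ Icc (0 : ℝ) 1) ∧ ∀ N : Set ℝ, volume N = 0 → ∀ᶠ φ in residual Sl, r φ ∉ N := by
  classical
  obtain ⟨ε, hε, hs⟩ := ENNReal.exists_pos_sum_of_countable (one_ne_zero : (1 : ℝ≥0∞) ≠ 0) ℕ
  let δ : ℕ → ℝ≥0∞ := fun n => (ε n : ℝ≥0∞) / (n + 1)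
  have hδ : ∀ n, 0 < δ n := fun n => ENNReal.div_pos (by simpa using (hε n).ne') (by simp)
  let C : ℕ → ℕ → Set ℝ := fun n k => if volume (O k) ≤ δ n then O k else ∅
  have hCo : ∀ n k, IsOpen (C n k) := fun n k => by
    simp only [C]; split_ifs
    exacts [O_open k, isOpen_empty]
  have hCm : ∀ n k, volume (C n k) ≤ δ n := fun n k => by
    simp only [C]; split_ifs with h
    exacts [h, by simp]
  let W : Sl → ℕ → Set ℝ := fun φ n => ⋃ k ∈ φ.1 n, C n k
  have hWo : ∀ φ n, IsOpen (W φ n) := fun φ n => isOpen_biUnion fun k _ => hCo n k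
  have hWm : ∀ φ n, volume (W φ n) ≤ ε n := fun φ n => by
    refine (measure_biUnion_finset_le _ _).trans ((Finset.sum_le_sum fun k _ => hCm n k).trans ?_)
    rw [Finset.sum_const, nsmul_eq_mul]
    calc ((φ.1 n).card : ℝ≥0∞) * δ n ≤ (n + 1) * δ n := by
          gcongr; exact_mod_cast (φ.2 n).trans n.le_succ
      _ ≤ ε n := ENNReal.mul_div_le
  let K : Sl → Set ℝ := fun φ => Icc 0 1 \ ⋃ n, W φ n
  have hK : ∀ φ, IsCompact (K φ) := fun φ => isCompact_Icc.diff (isOpen_iUnion (hWo φ))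
  have hne : ∀ φ, (K φ).Nonempty := fun φ => by
    by_contra h
    rw [not_nonempty_iff_eq_empty, sdiff_eq_empty] at h
    have := (measure_mono (μ := volume) h).trans ((measure_iUnion_le _).trans
      (ENNReal.tsum_le_tsum (hWm φ)))
    simp only [Real.volume_Icc, sub_zero, ENNReal.ofReal_one] at this
    exact hs.not_ge this
  have hr : ∀ φ, sInf (K φ) ∈ K φ := fun φ => (hK φ).sInf_mem (hne φ)
  refine ⟨fun φ => sInf (K φ), ?_, fun φ => (hr φ).1, fun N hN => ?_⟩
  · borelize Sl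
    have : Measurable fun φ => sInf (K φ) := measurable_of_Ioi fun a => IsOpen.measurableSet <| by
      refine isOpen_iff_forall_mem_open.2 fun φ hφ => ?_
      obtain ⟨t, ht⟩ := (isCompact_Icc.inter_right isClosed_Iic :
        IsCompact (Icc (0 : ℝ) 1 ∩ Iic a)).elim_finite_subcover (W φ) (hWo φ) fun x hx => by
          by_contra h
          exact (csInf_le (hK φ).bddBelow ⟨hx.1, h⟩).not_gt (lt_of_le_of_lt hx.2 hφ)
      refine ⟨U (Loc1.mk φ (t.sup id + 1) ∅ (by simp)), fun ψ hψ => ?_, U_open _,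
        mem_mk _ (fun _ _ => rfl) (by simp)⟩
      by_contra h
      obtain ⟨n, hn, h1⟩ := mem_iUnion₂.1 (ht ⟨(hr ψ).1, (not_lt.1 h : sInf (K ψ) ≤ a)⟩)
      have h2 : n < t.sup id + 1 := Nat.lt_succ_of_le (Finset.le_sup (f := id) hn)
      have h3 := hψ.1 n (by simpa [Loc1.mk] using h2)
      simp only [Loc1.mk] at h3
      rw [getD_mk _ h2] at h3
      refine (hr ψ).2 (mem_iUnion.2 ⟨n, ?_⟩)
      simp only [W, h3]
      exact h1
    exact fun A hA => (this hA).baireMeasurableSet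
  · choose c hc1 hc2 using fun j => cover_null hN (fun m => δ (Nat.pair j m)) fun m => hδ _
    filter_upwards [capt fun n => c n.unpair.1 n.unpair.2] with φ hφ hx
    obtain ⟨j, hj⟩ := eventually_atTop.1 hφ
    obtain ⟨m, hm⟩ := hc2 j _ hx
    have h1 := hj _ (Nat.left_le_pair j m)
    simp only [Nat.unpair_pair] at h1
    refine (hr φ).2 (mem_iUnion.2 ⟨Nat.pair j m, mem_biUnion h1 ?_⟩)
    simp only [C, hc1 j m, if_true]
    exact hm

theorem main : ∃ B : Set (Set LOC), CompleteSub B ∧ Atomless B ∧ ¬ AddsCohen B := by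
  classical
  obtain ⟨r, hr1, hr2, hr3⟩ := ex_r
  let H₀ : Set ℝ → LOC → Prop := fun A p => ∀ᶠ φ in residual Sl, φ ∈ U p → r φ ∈ A
  let h : Set ℝ → Set LOC := fun A => {p | H₀ A p}
  have ev : ∀ {A p}, p ∈ h A → ∀ᶠ φ in residual Sl, φ ∈ U p → r φ ∈ A := fun h => h
  let μ : Measure ℝ := volume.restrict (Icc 0 1)
  have down : ∀ A p q, p ∈ h A → q ≤ p → q ∈ h A := fun A p q hp hq =>
    (ev hp).mono fun φ h1 h2 => h1 (U_mono hq h2)
  have hae : ∀ A B : Set ℝ, A ≤ᵐ[μ] B → h A ⊆ h B := by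
    intro A B hAB p hp
    have h1 : μ (A \ B) = 0 := ae_le_set.1 hAB
    rw [Measure.restrict_apply' measurableSet_Icc] at h1
    filter_upwards [ev hp, hr3 _ h1] with φ h2 h3 h4
    by_contra h5
    exact h3 ⟨⟨h2 h4, h5⟩, hr2 φ⟩
  have hmono : ∀ A B : Set ℝ, A ⊆ B → h A ⊆ h B := fun A B hAB => hae A B hAB.eventuallyLE
  have hemp : ∀ p, p ∉ h ∅ := fun p hp => by
    obtain ⟨φ, h1, h2⟩ := (dense_of_mem_residual (ev hp)).inter_open_nonempty _ (U_open p) (U_ne p)
    exact h2 h1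
  have hnull : ∀ N, μ N = 0 → ∀ p, p ∉ h N := fun N hN p hp =>
    hemp p (hae N ∅ (ae_le_set.2 (by simpa using hN)) hp)
  have hI : ∀ {ι : Type} [Countable ι] (A : ι → Set ℝ) p, (∀ i, p ∈ h (A i)) → p ∈ h (⋂ i, A i) :=
    fun A p hp => (eventually_countable_forall.2 fun i => ev (hp i)).mono fun φ h1 h2 =>
      mem_iInter.2 fun i => h1 i h2
  have hcons : ∀ A p, p ∈ h A → p ∉ h Aᶜ := fun A p h1 h2 =>
    hemp p (((ev h1).and (ev h2)).mono fun φ h3 h4 => h3.2 h4 (h3.1 h4))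
  have hdi : ∀ A, MeasurableSet A → ∀ p, p ∉ h A → ∃ q ≤ p, q ∈ h Aᶜ := by
    intro A hA p hp
    obtain ⟨O, hO, h1⟩ := (hr1 _ hA.compl).residualEq_isOpen
    have h2 := eventuallyEq_set.1 h1
    by_cases h3 : (U p ∩ O).Nonempty
    · obtain ⟨q, h4, h5⟩ := shrink hO h3
      exact ⟨q, h4, h2.mono fun φ h6 h7 => h6.2 (h5 h7)⟩
    · refine absurd (h2.mono fun φ h6 h7 => ?_) hp
      by_contra h8
      exact h3 ⟨φ, h7, h6.1 h8⟩
  have hneg : ∀ A, MeasurableSet A → neg (h A) = h Aᶜ := fun A hA => by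
    ext p
    refine ⟨fun h1 => ?_, fun h1 q hq h2 => hcons A q h2 (down _ _ _ h1 hq)⟩
    by_contra h2
    obtain ⟨q, h3, h4⟩ := hdi _ hA.compl p h2
    rw [compl_compl] at h4
    exact h1 q h3 h4
  have hreg : ∀ A, MeasurableSet A → ∀ p, (∀ q ≤ p, ∃ r ≤ q, r ∈ h A) → p ∈ h A := by
    intro A hA p hp
    by_contra h1
    obtain ⟨q, h2, h3⟩ := hdi A hA p h1
    obtain ⟨s, h4, h5⟩ := hp q h2
    exact hcons A s h5 (down _ _ _ h3 h4)
  refine ⟨h '' {A | MeasurableSet A}, ⟨?_, ?_, fun S hS => ?_⟩, ?_, ?_⟩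
  · rintro _ ⟨A, hA, rfl⟩
    exact ⟨fun p hp q hq => down A p q hp hq, hreg A hA⟩
  · rintro _ ⟨A, hA, rfl⟩
    exact ⟨Aᶜ, MeasurableSet.compl (s := A) hA, (hneg A hA).symm⟩
  · obtain ⟨D, h1, h2, h3⟩ := Measure.exists_ae_subset_biUnion_countable μ
      (C := {A | MeasurableSet A ∧ h Aᶜ ∈ S}) fun s hs => hs.1
    refine ⟨(⋃₀ D)ᶜ, (MeasurableSet.sUnion h2 fun t ht => (h1 ht).1).compl,
      Subset.antisymm (fun p hp V hV => ?_) fun p hp => ?_⟩
    · obtain ⟨A, hA, rfl⟩ := hS hV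
      refine hae _ _ ?_ hp
      have := h3 Aᶜ ⟨MeasurableSet.compl hA, by rwa [compl_compl]⟩
      filter_upwards [this] with x hx hx'
      by_contra h4
      exact hx' (hx h4)
    · have := h2.to_subtype
      rw [sUnion_eq_iUnion, compl_iUnion]
      exact hI _ p fun A => hp _ (h1 A.2).2
  · rintro _ ⟨A, hA, rfl⟩ ⟨p, hp⟩
    by_contra hc
    push Not at hc
    have h1 : ∀ q : ℚ, p ∈ h (Iio (q : ℝ)) ∨ p ∈ h (Iio (q : ℝ))ᶜ := fun q => by
      by_cases h2 : (h (A ∩ Iio (q : ℝ))).Nonempty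
      · have := hc _ ⟨_, MeasurableSet.inter (s₁ := A) hA measurableSet_Iio, rfl⟩ (hmono _ _ inter_subset_left) h2
        exact Or.inl (hmono _ _ inter_subset_right (this ▸ hp))
      · rw [← hneg _ measurableSet_Iio]
        exact Or.inr fun s hs h3 => h2 ⟨s, ((ev (down _ _ _ hp hs)).and (ev h3)).mono
          fun φ h4 h5 => ⟨h4.1 h5, h4.2 h5⟩⟩
    let T : ℚ → Set ℝ := fun q => if p ∈ h (Iio (q : ℝ)) then Iio (q : ℝ) else (Iio (q : ℝ))ᶜ
    refine hnull (⋂ q, T q) (Set.Subsingleton.measure_zero (fun x hx y hy => ?_) _) p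
      (hI T p fun q => ?_)
    · have key : ∀ x ∈ ⋂ q, T q, ∀ y ∈ ⋂ q, T q, ¬ x < y := fun x hx y hy hlt => by
        obtain ⟨q, h2, h3⟩ := exists_rat_btwn hlt
        have h4 := mem_iInter.1 hx q
        have h5 := mem_iInter.1 hy q
        simp only [T] at h4 h5
        split_ifs at h4 h5
        · exact lt_asymm h3 h5
        · exact h4 h2
      exact le_antisymm (not_lt.1 (key y hy x hx)) (not_lt.1 (key x hx y hy))
    · simp only [T]
      split_ifs with h2
      exacts [h2, (h1 q).resolve_left h2]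
  · rintro ⟨b, hb, _, ⟨A₀, hA₀, rfl⟩, ⟨p, hp⟩, H⟩
    choose A hA hAb using hb
    replace hA : ∀ i, MeasurableSet (A i) := hA
    let C : List Bool → Set ℝ := fun t =>
      ⋂ i : Fin t.length, if t.getD i false then A i else (A i)ᶜ
    have hCm : ∀ t, MeasurableSet (C t) := fun t => MeasurableSet.iInter fun i => by
      split_ifs
      exacts [hA i, (hA i).compl]
    have hCa : ∀ t (c : Bool), C (t ++ [c]) ⊆ C t ∩ if c then A t.length else (A t.length)ᶜ := by
      intro t c x hx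
      refine ⟨mem_iInter.2 fun i => ?_, ?_⟩
      · have := mem_iInter.1 hx ⟨i, by simp⟩
        simp only [List.getD_append _ _ _ _ i.2] at this
        exact this
      · have := mem_iInter.1 hx ⟨t.length, by simp⟩
        simpa using this
    have hhalf : ∀ s k, ∃ t, s <+: t ∧ μ (C t) ≤ 2⁻¹ ^ k := by
      intro s k
      induction k with
      | zero =>
        refine ⟨s, List.prefix_rfl, (measure_mono (subset_univ _)).trans ?_⟩
        simp [μ]
      | succ k ih =>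
        obtain ⟨t, h1, h2⟩ := ih
        by_contra hc
        push Not at hc
        have h3 := (hc _ (h1.trans (List.prefix_append t [true]))).trans_le
          (measure_mono (hCa t true))
        have h4 := (hc _ (h1.trans (List.prefix_append t [false]))).trans_le
          (measure_mono (hCa t false))
        simp only [if_true, Bool.false_eq_true, if_false] at h3 h4
        have h5 := ENNReal.add_lt_add h3 h4
        rw [← Set.sdiff_eq, measure_inter_add_sdiff _ (hA _), pow_succ, ← mul_add,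
          ENNReal.inv_two_add_inv_two, mul_one] at h5
        exact h5.not_ge h2
    have hsm : ∀ k : ℕ, ∃ W, MeasurableSet W ∧ μ W ≤ 2⁻¹ ^ k ∧ p ∈ h W := by
      intro k
      obtain ⟨ε, hε, hs⟩ := ENNReal.exists_pos_sum_of_countable
        (pow_ne_zero k (by simp) : (2⁻¹ : ℝ≥0∞) ^ k ≠ 0) (List Bool)
      have : ∀ s, ∃ t, s <+: t ∧ μ (C t) ≤ ε s := fun s => by
        obtain ⟨j, hj⟩ := ENNReal.exists_inv_two_pow_lt (a := ε s) (by simpa using (hε s).ne')
        exact (hhalf s j).imp fun t ht => ⟨ht.1, ht.2.trans hj.le⟩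
      choose T hT1 hT2 using this
      have hW : MeasurableSet (⋃ s, C (T s)) := MeasurableSet.iUnion fun s => hCm _
      refine ⟨⋃ s, C (T s), hW, (measure_iUnion_le _).trans
        ((ENNReal.tsum_le_tsum hT2).trans hs.le), hreg _ hW p fun p' hp' => ?_⟩
      obtain ⟨q, hq, _, ⟨s, rfl⟩, h1⟩ := H (range T) (fun s => ⟨_, ⟨s, rfl⟩, hT1 s⟩) p'
        (down _ _ _ hp hp')
      refine ⟨q, hq, hmono _ _ (subset_iUnion _ s) (hI _ q fun i => ?_)⟩
      have := h1 i i.2
      split_ifs at this ⊢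
      · rwa [hAb]
      · rwa [← hAb, hneg _ (hA i)] at this
    choose W hW1 hW2 hW3 using hsm
    refine hnull (⋂ k, W k) (le_antisymm ?_ bot_le) p (hI W p hW3)
    exact ge_of_tendsto' (ENNReal.tendsto_pow_atTop_nhds_zero_of_lt_one (r := 2⁻¹) (by simp))
      fun k => (measure_mono (iInter_subset _ k)).trans (hW2 k)

end Pool.Agent.H42.Loc2
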