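import Mathlib

namespace Pool.Agent.H42.LocDefs

/-- Conditions of localization forcing. -/
structure LOC where
  s : List (Finset ℕ)
  F : Finset (ℕ → ℕ)
  hs : ∀ i < s.length, (s.getD i ∅).card ≤ i
  hF : F.card ≤ s.length

/-- `q ≤ p`: `q` is stronger than `p`. -/
instance : LE LOC := ⟨fun q p => p.s <+: q.s ∧ p.F ⊆ q.F ∧
  ∀ f ∈ p.F, ∀ i, p.s.length ≤ i → i < q.s.length → f i ∈ q.s.getD i ∅⟩

/-- Regular open subsets of `LOC`: the elements of `r.o.(LOC)`, ordered by inclusion. -/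
def Regular (U : Set LOC) : Prop :=
  (∀ p ∈ U, ∀ q ≤ p, q ∈ U) ∧ ∀ p, (∀ q ≤ p, ∃ r ≤ q, r ∈ U) → p ∈ U

/-- The Boolean complement in `r.o.(LOC)`. -/
def neg (U : Set LOC) : Set LOC := {p | ∀ q ≤ p, q ∉ U}

/-- A complete subalgebra of `r.o.(LOC)`: closed under complements and arbitrary meets
(meets in `r.o.(LOC)` are intersections). -/
def CompleteSub (B : Set (Set LOC)) : Prop :=
  (∀ U ∈ B, Regular U) ∧ (∀ U ∈ B, neg U ∈ B) ∧ ∀ S ⊆ B, ⋂₀ S ∈ B

/-- `B` has no atoms, i.e. its generic filter is forced not to be in the ground model. -/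
def Atomless (B : Set (Set LOC)) : Prop :=
  ∀ U ∈ B, U.Nonempty → ∃ V ∈ B, V ⊆ U ∧ V.Nonempty ∧ V ≠ U

/-- Some nonzero `U ∈ B` forces that the real `c` with Boolean values `b i` of `c(i) = 1`
in `B` meets every ground-model dense subset of Cohen forcing. -/
def AddsCohen (B : Set (Set LOC)) : Prop :=
  ∃ b : ℕ → Set LOC, (∀ i, b i ∈ B) ∧ ∃ U ∈ B, U.Nonempty ∧
    ∀ D : Set (List Bool), (∀ s, ∃ t ∈ D, s <+: t) → ∀ p ∈ U, ∃ q ≤ p, ∃ t ∈ D,
      ∀ i < t.length, q ∈ if t.getD i false then b i else neg (b i)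

end Pool.Agent.H42.LocDefs
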