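import Pool.Agent.H84.Qcf

/-! A free Suslin tree with the wedge topology is a Lusin `γ`-space under `p > ω₁`. -/

namespace Pool.Agent.H42.LusG

open Set Filter Topology TopologicalSpace Pool.Agent.H84.QcfDefs Pool.Agent.H84.Qcf

/-- Lusin spaces in the sense of Kunen. -/
def Lusin (X : Type) [TopologicalSpace X] : Prop :=
  T2Space X ∧ (∀ N : Set X, IsNowhereDense N → N.Countable) ∧
    {x : X | IsOpen ({x} : Set X)}.Countable ∧ Uncountable X

/-- Every open `ω`-cover has an infinite subfamily that is a `γ`-cover. -/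
def GammaSpace (X : Type) [TopologicalSpace X] : Prop :=
  ∀ 𝒰 : Set (Set X), (∀ U ∈ 𝒰, IsOpen U) → univ ∉ 𝒰 →
    (∀ F : Set X, F.Finite → ∃ U ∈ 𝒰, F ⊆ U) →
    ∃ 𝒱 ⊆ 𝒰, 𝒱.Infinite ∧ ⋃₀ 𝒱 = univ ∧ ∀ x, {V ∈ 𝒱 | x ∉ V}.Finite

attribute [local instance 10] wedge

theorem main {T : Type} [PartialOrder T] (h : FreeSuslin T) (hp : PBig) :
    ∃ (X : Type) (_ : TopologicalSpace X), Lusin X ∧ GammaSpace X := by
  classical
  have := h.wf
  refine ⟨T, wedge T, ⟨⟨fun x y e => ?_⟩, fun N hN => ?_, countable_empty.mono fun x hx => ?_,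
    Cardinal.aleph0_lt_mk_iff.1 (h.card ▸ Cardinal.aleph0_lt_aleph_one)⟩, fun 𝒰 h1 h2 h3 => ?_⟩
  · by_cases c : x ≤ y
    · exact ⟨_, _, (clopen_Ici y).compl.2, (clopen_Ici y).2, fun a => e (c.antisymm a), le_rfl,
        disjoint_compl_left⟩
    · exact ⟨_, _, (clopen_Ici x).2, (clopen_Ici x).compl.2, le_rfl, c, disjoint_compl_right⟩
  · refine ((h.anti _ (setOfPred_minimal_antichain fun t => Ici t ⊆ Nᶜ)).biUnion
      fun a _ => h.chain _ (h.tree a)).mono fun x hx => ?_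
    obtain ⟨t, ht⟩ := exists_cone h ((clopen_Ici x).2.inter isClosed_closure.isOpen_compl)
      ((interior_eq_empty_iff_dense_compl.1 hN).inter_open_nonempty _ (clopen_Ici x).2 ⟨x, le_rfl⟩)
    obtain ⟨a, h1, h2⟩ := exists_minimal_le_of_wellFoundedLT (fun t => Ici t ⊆ Nᶜ) t
      fun y hy hN => (ht hy).2 (subset_closure hN)
    exact mem_biUnion h2 ((tot h (ht le_rfl).1 h1).resolve_right fun k => h2.1 k hx)
  · obtain ⟨s, hs⟩ := exists_cone h hx ⟨x, rfl⟩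
    obtain ⟨r, hr⟩ := (h.branch s).nonempty
    exact hr.ne ((hs le_rfl).trans (hs hr.le).symm)
  obtain ⟨I, i1, i2⟩ := cover h (fun i : 𝒰 => i.1) fun F U v => by
    obtain ⟨G, g1, g2⟩ := h3 (F ∪ range v) (F.finite_toSet.union (finite_range v))
    refine ⟨⟨G, g1⟩, subset_union_left.trans g2, fun u => ?_⟩
    obtain ⟨s, hs⟩ := exists_cone h ((clopen_Ici (v u)).2.inter (h1 G g1))
      ⟨v u, le_rfl, g2 (Or.inr ⟨u, rfl⟩)⟩
    exact ⟨s, (hs le_rfl).1, hs.trans inter_subset_right⟩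
  obtain ⟨g, hg⟩ := i1.exists_eq_range (let ⟨i, a, _⟩ := i2 ∅; ⟨i, a⟩)
  let S : T → Set ℕ := fun t => {n | t ∈ (g n.unpair.1).1}
  obtain ⟨B, b1, b2⟩ := hp (range S) (Cardinal.mk_range_le.trans_eq h.card) fun G g1 g2 => by
    obtain ⟨P, -, e⟩ := Finset.subset_set_image_iff.1
      (show (g2.toFinset : Set (Set ℕ)) ⊆ S '' univ by simpa using g1)
    obtain rfl : G = S '' P := by rw [← g2.coe_toFinset, ← e, Finset.coe_image]
    obtain ⟨i, a1, a2⟩ := i2 P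
    obtain ⟨n, rfl⟩ : i ∈ range g := hg ▸ a1
    refine infinite_of_injective_forall_mem (f := Nat.pair n)
      (fun _ _ e => (Nat.pair_eq_pair.1 e).2) fun m => sInter_image _ _ ▸ mem_iInter₂.2 fun p hp => ?_
    simpa [S] using a2 hp
  have hi : ((fun n : ℕ => (g n.unpair.1).1) '' B).Infinite := fun hf => by
    refine b1 (Set.Finite.of_finite_fibers _ hf ?_)
    rintro _ ⟨n, -, rfl⟩
    obtain ⟨t, ht⟩ := (ne_univ_iff_exists_notMem _).1 fun e : (g n.unpair.1).1 = univ =>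
      h2 (e ▸ (g _).2)
    exact (b2 _ ⟨t, rfl⟩).subset fun m ⟨a, b⟩ => ⟨a, fun c => ht
      ((show (g m.unpair.1).1 = (g n.unpair.1).1 from b) ▸ c)⟩
  have hx : ∀ x, {V ∈ (fun n : ℕ => (g n.unpair.1).1) '' B | x ∉ V}.Finite := fun x =>
    ((b2 _ ⟨x, rfl⟩).image fun n : ℕ => (g n.unpair.1).1).subset
      fun _ ⟨⟨n, hn, e⟩, hV⟩ => ⟨n, ⟨hn, fun a => hV (e ▸ a)⟩, e⟩
  refine ⟨_, ?_, hi, eq_univ_of_forall fun x => ?_, hx⟩
  · rintro _ ⟨n, -, rfl⟩
    exact (g _).2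
  · obtain ⟨V, a, b⟩ := hi.exists_notMem_finite (hx x)
    exact ⟨V, a, by_contra fun c => b ⟨a, c⟩⟩

end Pool.Agent.H42.LusG
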