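import Pool.Agent.H42.Stat

/-! An inseparable family without Luzin subsequences from superclub. -/

namespace Pool.Agent.H42.Luzin

open Set Pool.Agent.H42.Reg Pool.Agent.H42.Stat

universe u

/-- The ideal generated by a family of sets and the finite sets. -/
inductive Small (𝓖 : Set (Set ℕ)) : Set ℕ → Prop
  | fin (X : Set ℕ) : X.Finite → Small 𝓖 X
  | gen (X : Set ℕ) : X ∈ 𝓖 → Small 𝓖 X
  | sub (X Y : Set ℕ) : Small 𝓖 Y → X ⊆ Y → Small 𝓖 X
  | union (X Y : Set ℕ) : Small 𝓖 X → Small 𝓖 Y → Small 𝓖 (X ∪ Y)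

theorem Small.mono {𝓖 𝓗 : Set (Set ℕ)} (h : 𝓖 ⊆ 𝓗) {X : Set ℕ} (hX : Small 𝓖 X) : Small 𝓗 X := by
  induction hX with
  | fin X h1 => exact .fin X h1
  | gen X h1 => exact .gen X (h h1)
  | sub X Y _ h1 ih => exact .sub X Y ih h1
  | union X Y _ _ i1 i2 => exact .union X Y i1 i2

theorem Small.diff {𝓖 : Set (Set ℕ)} {Y X : Set ℕ} (hX : Small (insert Y 𝓖) X) :
    Small 𝓖 (X \ Y) := by
  induction hX with
  | fin X h1 => exact .fin _ (h1.subset sdiff_subset)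
  | gen X h1 =>
    rcases h1 with rfl | h1
    · exact .fin _ (by simp)
    · exact .sub _ _ (.gen X h1) sdiff_subset
  | sub X Z _ h1 ih => exact .sub _ _ ih (sdiff_subset_sdiff_left h1)
  | union X Z _ _ i1 i2 => rw [union_sdiff_distrib]; exact .union _ _ i1 i2

theorem Small.ad {𝓖 : Set (Set ℕ)} {A X : Set ℕ} (h : ∀ Y ∈ 𝓖, (A ∩ Y).Finite) (hX : Small 𝓖 X) :
    (A ∩ X).Finite := by
  induction hX with
  | fin X h1 => exact h1.subset inter_subset_right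
  | gen X h1 => exact h X h1
  | sub X Y _ h1 ih => exact ih.subset (inter_subset_inter_right _ h1)
  | union X Y _ _ i1 i2 => rw [inter_union_distrib_left]; exact i1.union i2

theorem exists_pt {𝓖 : Set (Set ℕ)} {P X : Set ℕ} (hP : ¬ Small 𝓖 P) (hX : Small 𝓖 X) (m : ℕ) :
    ∃ x, m ≤ x ∧ x ∈ P ∧ x ∉ X := by
  by_contra hc
  push Not at hc
  refine hP (.sub _ _ (.union _ _ (.fin _ (finite_Iio m)) hX) fun x hx => ?_)
  by_cases h : x < m
  · exact Or.inl h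
  · exact Or.inr (hc x (not_lt.1 h) hx)

theorem exists_cof {𝓖 : Set (Set ℕ)} (h : 𝓖.Countable) :
    ∃ F : ℕ → Set ℕ, Monotone F ∧ (∀ k, Small 𝓖 (F k)) ∧ ∀ X, Small 𝓖 X → ∃ k, X ⊆ F k := by
  obtain ⟨g, hg⟩ := (h.insert ∅).exists_eq_range (insert_nonempty _ _)
  have hs : ∀ i, Small 𝓖 (g i) := fun i => by
    have : g i ∈ insert ∅ 𝓖 := hg ▸ mem_range_self i
    rcases this with h1 | h1
    · rw [h1]; exact .fin _ finite_empty
    · exact .gen _ h1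
  have hmono : Monotone fun k => {x | x < k ∨ ∃ i < k, x ∈ g i} := by
    intro a b hab x hx
    rcases hx with hx | ⟨i, h1, h2⟩
    · exact Or.inl (hx.trans_le hab)
    · exact Or.inr ⟨i, h1.trans_le hab, h2⟩
  refine ⟨fun k => {x | x < k ∨ ∃ i < k, x ∈ g i}, hmono, fun k => ?_, fun X hX => ?_⟩
  · induction k with
    | zero => exact .fin _ (by simp)
    | succ k ih =>
      refine .sub _ _ (.union _ _ (.union _ _ ih (hs k)) (.fin _ (finite_singleton k))) ?_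
      rintro x (hx | ⟨i, h1, h2⟩)
      · rcases Nat.lt_succ_iff_lt_or_eq.1 hx with h | h
        · exact Or.inl (Or.inl (Or.inl h))
        · exact Or.inr h
      · rcases Nat.lt_succ_iff_lt_or_eq.1 h1 with h | h
        · exact Or.inl (Or.inl (Or.inr ⟨i, h, h2⟩))
        · exact Or.inl (Or.inr (h ▸ h2))
  · induction hX with
    | fin X h1 =>
      obtain ⟨b, hb⟩ := h1.bddAbove
      exact ⟨b + 1, fun x hx => Or.inl (Nat.lt_succ_of_le (hb hx))⟩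
    | gen X h1 =>
      obtain ⟨i, rfl⟩ : X ∈ range g := hg ▸ mem_insert_of_mem _ h1
      exact ⟨i + 1, fun x hx => Or.inr ⟨i, Nat.lt_succ_self i, hx⟩⟩
    | sub X Y _ h1 ih => obtain ⟨k, hk⟩ := ih; exact ⟨k, h1.trans hk⟩
    | union X Y _ _ i1 i2 =>
      obtain ⟨k, hk⟩ := i1
      obtain ⟨l, hl⟩ := i2
      exact ⟨max k l, union_subset (hk.trans (hmono (le_max_left k l)))
        (hl.trans (hmono (le_max_right k l)))⟩

theorem exists_enum {𝓟 : Set (Set ℕ)} (h : 𝓟.Countable) (hne : 𝓟.Nonempty) :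
    ∃ p : ℕ → Set ℕ, (∀ k, p k ∈ 𝓟) ∧ ∀ P ∈ 𝓟, ∀ N, ∃ k ≥ N, p k = P := by
  obtain ⟨g, rfl⟩ := h.exists_eq_range hne
  refine ⟨fun k => g (Nat.unpair k).1, fun k => mem_range_self _, ?_⟩
  rintro _ ⟨i, rfl⟩ N
  exact ⟨Nat.pair i N, Nat.right_le_pair i N, by simp⟩

theorem step_A {𝓖 𝓟 : Set (Set ℕ)} (h𝓖 : 𝓖.Countable) (h𝓟 : 𝓟.Countable) (hne : 𝓟.Nonempty)
    (hpos : ∀ P ∈ 𝓟, ¬ Small 𝓖 P) :
    ∃ A : Set ℕ, (∀ P ∈ 𝓟, ¬ Small (insert A 𝓖) P) ∧ (∀ X ∈ 𝓖, (A ∩ X).Finite) ∧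
      ∀ P ∈ 𝓟, (A ∩ P).Infinite := by
  obtain ⟨F, hF1, hF2, hF3⟩ := exists_cof h𝓖
  obtain ⟨p, hp1, hp2⟩ := exists_enum h𝓟 hne
  choose c hc1 hc2 hc3 using fun k m => exists_pt (hpos _ (hp1 (k / 2))) (hF2 k) m
  let z : ℕ → ℕ := fun k => Nat.rec (c 0 0) (fun k x => c (k + 1) (x + 1)) k
  have hz1 : StrictMono z := strictMono_nat_of_lt_succ fun k => hc1 (k + 1) (z k + 1)
  have hz2 : ∀ k, z k ∈ p (k / 2) ∧ z k ∉ F k := fun k => by
    cases k with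
    | zero => exact ⟨hc2 0 0, hc3 0 0⟩
    | succ k => exact ⟨hc2 (k + 1) _, hc3 (k + 1) _⟩
  refine ⟨range fun k => z (2 * k), fun P hP hS => ?_, fun X hX => ?_, fun P hP => ?_⟩
  · obtain ⟨k, hk⟩ := hF3 _ hS.diff
    obtain ⟨j, hj, rfl⟩ := hp2 P hP k
    refine (hz2 (2 * j + 1)).2 (hF1 (show k ≤ 2 * j + 1 by omega) (hk ⟨?_, ?_⟩))
    · have := (hz2 (2 * j + 1)).1
      rwa [show (2 * j + 1) / 2 = j by omega] at this
    · rintro ⟨i, hi⟩
      have : 2 * i = 2 * j + 1 := hz1.injective hi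
      omega
  · obtain ⟨k, hk⟩ := hF3 _ (.gen X hX)
    refine ((finite_Iio k).image fun i => z (2 * i)).subset ?_
    rintro _ ⟨⟨i, rfl⟩, hi⟩
    refine ⟨i, ?_, rfl⟩
    by_contra hc
    exact (hz2 (2 * i)).2 (hF1 (show k ≤ 2 * i by simp at hc; omega) (hk hi))
  · refine infinite_of_forall_exists_gt fun N => ?_
    obtain ⟨j, hj, rfl⟩ := hp2 P hP (N + 1)
    refine ⟨z (2 * j), ⟨⟨j, rfl⟩, ?_⟩, lt_of_lt_of_le (show N < 2 * j by omega) (hz1.id_le (2 * j))⟩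
    have := (hz2 (2 * j)).1
    rwa [show (2 * j) / 2 = j by omega] at this

theorem step_G {ι : Type u} {𝓖 𝓟 : Set (Set ℕ)} (h𝓖 : 𝓖.Countable) (h𝓟 : 𝓟.Countable)
    (hne : 𝓟.Nonempty) (S : Set ι) (A : ι → Set ℕ) (hA : ∀ β ∈ S, A β ∈ 𝓖) (L : Set ℕ)
    (hpos : ∀ P ∈ 𝓟, ¬ Small (insert L 𝓖) P)
    (hL : ∀ m, {β | β ∈ S ∧ ∀ x < m, (x ∈ A β ↔ x ∈ L)}.Infinite) :
    ∃ G : Set ℕ, (∀ P ∈ 𝓟, ¬ Small (insert G 𝓖) P) ∧ {β | β ∈ S ∧ A β ⊆ G}.Infinite := by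
  classical
  obtain ⟨F, hF1, hF2, hF3⟩ := exists_cof h𝓖
  obtain ⟨p, hp1, hp2⟩ := exists_enum h𝓟 hne
  have step : ∀ (k : ℕ) (f : ℕ → ι × ℕ), ∃ q : ι × ℕ, (∀ i < k, (f i).1 ∈ S) → q.1 ∈ S ∧
      (∀ i < k, q.1 ≠ (f i).1 ∧ ((f i).2 ∈ A q.1 ↔ (f i).2 ∈ L) ∧ q.2 ∉ A (f i).1) ∧
      q.2 ∉ A q.1 ∧ q.2 ∈ p k ∧ q.2 ∉ F k ∧ q.2 ∉ L := by
    intro k f
    obtain ⟨m, hm⟩ := ((finite_Iio k).image fun i => (f i).2).bddAbove
    obtain ⟨β, hβ1, hβ2⟩ := (hL (m + 1)).exists_notMem_finite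
      ((finite_Iio k).image fun i => (f i).1)
    by_cases hS : ∀ i < k, (f i).1 ∈ S
    swap
    · exact ⟨(β, 0), fun h => absurd h hS⟩
    have h1 : ∀ j ≤ k, Small (insert L 𝓖) (⋃ i < j, A (f i).1) := by
      intro j
      induction j with
      | zero => intro _; exact .fin _ (by simp)
      | succ j ih =>
        intro hj
        refine .sub _ _ (.union _ _ (ih (Nat.le_of_succ_le hj))
          (.gen _ (mem_insert_of_mem _ (hA _ (hS j hj))))) fun x hx => ?_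
        obtain ⟨i, h2, h3⟩ := mem_iUnion₂.1 hx
        rcases Nat.lt_succ_iff_lt_or_eq.1 h2 with h | h
        · exact Or.inl (mem_iUnion₂.2 ⟨i, h, h3⟩)
        · exact Or.inr (h ▸ h3)
    obtain ⟨x, -, hx1, hx2⟩ := exists_pt (hpos _ (hp1 k)) (.union _ _ (.union _ _ (h1 k le_rfl)
      (.gen _ (mem_insert_of_mem _ (hA β hβ1.1)))) (.union _ _ ((hF2 k).mono (subset_insert _ _))
      (.gen _ (mem_insert _ _)))) 0
    simp only [mem_union, not_or] at hx2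
    refine ⟨(β, x), fun _ => ⟨hβ1.1, fun i hi => ⟨fun h => hβ2 ⟨i, hi, h.symm⟩,
      hβ1.2 _ (Nat.lt_succ_of_le (hm ⟨i, hi, rfl⟩)),
      fun h => hx2.1.1 (mem_iUnion₂.2 ⟨i, hi, h⟩)⟩, hx2.1.2, hx1, hx2.2.1, hx2.2.2⟩⟩
  choose st hst using step
  obtain ⟨β₀, -⟩ := (hL 0).nonempty
  obtain ⟨f, hf⟩ := exists_rec (T := ℕ) (β₀, 0)
    (fun k f => st k (fun i => if i < k then f i else (β₀, 0)))
    (by
      intro k f f' h
      congr 1
      funext i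
      by_cases hi : i < k
      · simp only [if_pos hi, h i hi]
      · simp only [if_neg hi])
  have key : ∀ k, (∀ i < k, (f i).1 ∈ S) → (f k).1 ∈ S ∧
      (∀ i < k, (f k).1 ≠ (f i).1 ∧ ((f i).2 ∈ A (f k).1 ↔ (f i).2 ∈ L) ∧ (f k).2 ∉ A (f i).1) ∧
      (f k).2 ∉ A (f k).1 ∧ (f k).2 ∈ p k ∧ (f k).2 ∉ F k ∧ (f k).2 ∉ L := by
    intro k hk
    have := hst k (fun i => if i < k then f i else (β₀, 0))
      (fun i hi => by simp only [if_pos hi]; exact hk i hi)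
    rw [← hf k] at this
    refine ⟨this.1, fun i hi => ?_, this.2.2⟩
    simpa only [if_pos hi] using this.2.1 i hi
  have hS : ∀ k, (f k).1 ∈ S := fun k => by
    induction k using Nat.strong_induction_on with
    | _ k ih => exact (key k ih).1
  have key' := fun k => key k fun i _ => hS i
  refine ⟨⋃ k, A (f k).1, fun P hP hSm => ?_, ?_⟩
  · obtain ⟨k, hk⟩ := hF3 _ hSm.diff
    obtain ⟨j, hj, rfl⟩ := hp2 P hP k
    refine (key' j).2.2.2.2.1 (hF1 hj (hk ⟨(key' j).2.2.2.1, fun h => ?_⟩))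
    obtain ⟨i, hi⟩ := mem_iUnion.1 h
    rcases lt_trichotomy i j with h1 | h1 | h1
    · exact ((key' j).2.1 i h1).2.2 hi
    · exact (key' j).2.2.1 (h1 ▸ hi)
    · exact (key' j).2.2.2.2.2 (((key' i).2.1 j h1).2.1.1 hi)
  · refine infinite_of_injective_forall_mem (f := fun k => (f k).1) (fun i j hij => ?_)
      fun k => ⟨hS k, subset_iUnion (fun k => A (f k).1) k⟩
    rcases lt_trichotomy i j with h1 | h1 | h1
    · exact absurd hij.symm ((key' j).2.1 i h1).1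
    · exact h1
    · exact absurd hij ((key' i).2.1 j h1).1

section main

variable {T : Type u} [LinearOrder T]

/-- Generators before stage `α`. -/
def Gen (f : T → Set ℕ × Set ℕ) (α : T) : Set (Set ℕ) := {X | ∃ β < α, X = (f β).1 ∨ X = (f β).2}

/-- The union of the guessed sets. -/
def UU (S : T → Set T) (f : T → Set ℕ × Set ℕ) (δ : T) (n : ℕ) : Set ℕ :=
  {x | n ≤ x ∧ ∃ β < δ, β ∈ S δ ∧ x ∈ (f β).2}

/-- The sets that must stay positive. -/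
def PS (S : T → Set T) (f : T → Set ℕ × Set ℕ) (α : T) : Set (Set ℕ) :=
  {P | P = univ ∨ ∃ δ ≤ α, ∃ n, P = UU S f δ n ∧ ¬ Small (Gen f δ) P}

/-- What the stage `α` achieves. -/
def Good (S : T → Set T) (f : T → Set ℕ × Set ℕ) (α : T) (q : Set ℕ × Set ℕ) : Prop :=
  (∀ P ∈ PS S f α, ¬ Small (insert q.2 (insert q.1 (Gen f α))) P) ∧
  (∀ X ∈ Gen f α, (q.2 ∩ X).Finite) ∧ (∀ P ∈ PS S f α, (q.2 ∩ P).Infinite) ∧
  ((∃ L, (∀ P ∈ PS S f α, ¬ Small (insert L (Gen f α)) P) ∧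
      ∀ m, {β | (β < α ∧ β ∈ S α) ∧ ∀ x < m, (x ∈ (f β).2 ↔ x ∈ L)}.Infinite) →
    {β | (β < α ∧ β ∈ S α) ∧ (f β).2 ⊆ q.1}.Infinite)

theorem Gen_mono (f : T → Set ℕ × Set ℕ) {α β : T} (h : α ≤ β) : Gen f α ⊆ Gen f β :=
  fun _ ⟨γ, h1, h2⟩ => ⟨γ, h1.trans_le h, h2⟩

theorem PS_mono (S : T → Set T) (f : T → Set ℕ × Set ℕ) {α β : T} (h : α ≤ β) :
    PS S f α ⊆ PS S f β := by
  rintro P (h1 | ⟨δ, h1, h2⟩)
  · exact Or.inl h1
  · exact Or.inr ⟨δ, h1.trans h, h2⟩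

theorem small_limit {f : T → Set ℕ × Set ℕ} {α δ : T} (hδ : δ < α) {X : Set ℕ}
    (hX : Small (Gen f α) X) :
    ∃ β < α, δ ≤ β ∧ Small (insert (f β).2 (insert (f β).1 (Gen f β))) X := by
  have hm : ∀ β γ, β ≤ γ → insert (f β).2 (insert (f β).1 (Gen f β)) ⊆
      insert (f γ).2 (insert (f γ).1 (Gen f γ)) := by
    intro β γ h
    rcases h.eq_or_lt with rfl | h
    · exact subset_rfl
    · rintro X (h1 | h1 | h1)
      · exact Or.inr (Or.inr ⟨β, h, Or.inr h1⟩)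
      · exact Or.inr (Or.inr ⟨β, h, Or.inl h1⟩)
      · exact Or.inr (Or.inr (Gen_mono f h.le h1))
  induction hX with
  | fin X h1 => exact ⟨δ, hδ, le_rfl, .fin X h1⟩
  | gen X h1 =>
    obtain ⟨β, h2, h3⟩ := h1
    refine ⟨max δ β, max_lt hδ h2, le_max_left _ _, .gen X (hm β _ (le_max_right _ _) ?_)⟩
    rcases h3 with h3 | h3
    · exact Or.inr (Or.inl h3)
    · exact Or.inl h3
  | sub X Y _ h1 ih =>
    obtain ⟨β, h2, h3, h4⟩ := ih
    exact ⟨β, h2, h3, .sub _ _ h4 h1⟩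
  | union X Y _ _ i1 i2 =>
    obtain ⟨β, h2, h3, h4⟩ := i1
    obtain ⟨γ, h5, -, h7⟩ := i2
    exact ⟨max β γ, max_lt h2 h5, h3.trans (le_max_left _ _),
      .union _ _ (h4.mono (hm _ _ (le_max_left _ _))) (h7.mono (hm _ _ (le_max_right _ _)))⟩

theorem exists_good [WellFoundedLT T] (hc : ∀ a : T, (Iic a).Countable) (S : T → Set T) :
    ∃ f : T → Set ℕ × Set ℕ, ∀ α, Good S f α (f α) := by
  classical
  obtain ⟨f, hf⟩ := exists_rec (T := T) ((∅, ∅) : Set ℕ × Set ℕ)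
    (fun α f => if h : ∃ q, Good S f α q then h.choose else (∅, ∅))
    (by
      intro α f f' h
      have h1 : ∀ δ ≤ α, Gen f δ = Gen f' δ := fun δ hδ => by
        ext X
        exact exists_congr fun β => and_congr_right fun hβ => by rw [h β (hβ.trans_le hδ)]
      have h2 : ∀ δ ≤ α, UU S f δ = UU S f' δ := fun δ hδ => by
        ext n x
        exact and_congr_right fun _ => exists_congr fun β => and_congr_right fun hβ => by
          rw [h β (hβ.trans_le hδ)]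
      have h3 : PS S f α = PS S f' α := by
        ext P
        exact or_congr_right (exists_congr fun δ => and_congr_right fun hδ => by
          rw [h1 δ hδ, h2 δ hδ])
      have h4 : ∀ Z : Set ℕ → Prop, {β | (β < α ∧ β ∈ S α) ∧ Z (f β).2} =
          {β | (β < α ∧ β ∈ S α) ∧ Z (f' β).2} := fun Z => by
        ext β
        exact and_congr_right fun hβ => by rw [h β hβ.1]
      have : Good S f α = Good S f' α := by
        funext q
        unfold Good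
        rw [h1 α le_rfl, h3, h4 (fun A => A ⊆ q.1)]
        have h5 : ∀ (L : Set ℕ) (m : ℕ), {β | (β < α ∧ β ∈ S α) ∧ ∀ x < m, (x ∈ (f β).2 ↔ x ∈ L)} =
            {β | (β < α ∧ β ∈ S α) ∧ ∀ x < m, (x ∈ (f' β).2 ↔ x ∈ L)} :=
          fun L m => h4 (fun A => ∀ x < m, (x ∈ A ↔ x ∈ L))
        simp only [h5]
      simp only [this])
  refine ⟨f, fun α => ?_⟩
  induction α using WellFoundedLT.induction with
  | ind α ih =>
    have c1 : (Gen f α).Countable := by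
      refine (((hc α).image fun β => (f β).1).union ((hc α).image fun β => (f β).2)).mono ?_
      rintro X ⟨β, h1, h2 | h2⟩
      · exact Or.inl ⟨β, h1.le, h2.symm⟩
      · exact Or.inr ⟨β, h1.le, h2.symm⟩
    have c2 : (PS S f α).Countable := by
      refine ((countable_singleton univ).union ((hc α).biUnion
        fun δ _ => countable_range (UU S f δ))).mono ?_
      rintro P (h1 | ⟨δ, h1, n, h2, -⟩)
      · exact Or.inl h1
      · exact Or.inr (mem_biUnion (show δ ∈ Iic α from h1) ⟨n, h2.symm⟩)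
    have c3 : (PS S f α).Nonempty := ⟨univ, Or.inl rfl⟩
    have c4 : ∀ P ∈ PS S f α, ¬ Small (Gen f α) P := by
      have c5 : ∀ δ < α, ∀ P ∈ PS S f δ, ¬ Small (Gen f α) P := by
        intro δ hδ P hP hS
        obtain ⟨β, h1, h2, h3⟩ := small_limit hδ hS
        exact (ih β h1).1 P (PS_mono S f h2 hP) h3
      rintro P (h1 | ⟨δ, h1, n, h2, h3⟩)
      · by_cases h : ∃ δ, δ < α
        · obtain ⟨δ, hδ⟩ := h
          exact c5 δ hδ P (Or.inl h1)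
        · intro hS
          have := hS.ad (A := univ) (fun Y hY => absurd (hY.imp fun β hβ => hβ.1) h)
          rw [h1, inter_self] at this
          exact infinite_univ this
      · rcases h1.eq_or_lt with rfl | h1
        · exact h3
        · exact c5 δ h1 P (Or.inr ⟨δ, le_rfl, n, h2, h3⟩)
    have c6 : ∃ G, (∀ P ∈ PS S f α, ¬ Small (insert G (Gen f α)) P) ∧
        ((∃ L, (∀ P ∈ PS S f α, ¬ Small (insert L (Gen f α)) P) ∧
          ∀ m, {β | (β < α ∧ β ∈ S α) ∧ ∀ x < m, (x ∈ (f β).2 ↔ x ∈ L)}.Infinite) →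
        {β | (β < α ∧ β ∈ S α) ∧ (f β).2 ⊆ G}.Infinite) := by
      by_cases h : ∃ L, (∀ P ∈ PS S f α, ¬ Small (insert L (Gen f α)) P) ∧
          ∀ m, {β | (β < α ∧ β ∈ S α) ∧ ∀ x < m, (x ∈ (f β).2 ↔ x ∈ L)}.Infinite
      · obtain ⟨L, h1, h2⟩ := h
        obtain ⟨G, h3, h4⟩ := step_G c1 c2 c3 {β | β < α ∧ β ∈ S α} (fun β => (f β).2)
          (fun β hβ => ⟨β, hβ.1, Or.inr rfl⟩) L h1 h2
        exact ⟨G, h3, fun _ => h4⟩
      · exact ⟨∅, fun P hP hS => c4 P hP (by simpa using hS.diff), fun h' => absurd h' h⟩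
    obtain ⟨G, d1, d2⟩ := c6
    obtain ⟨A, d3, d4, d5⟩ := step_A (c1.insert G) c2 c3 d1
    have hex : ∃ q, Good S f α q :=
      ⟨(G, A), d3, fun X hX => d4 X (mem_insert_of_mem _ hX), d5, d2⟩
    rw [hf α, dif_pos hex]
    exact hex.choose_spec

theorem main [WellFoundedLT T] (hT : RegUnc T) (hc : ∀ a : T, (Iic a).Countable) (S : T → Set T)
    (hS : ∀ A : Set T, ¬ A.Countable → ∃ B ⊆ A, ¬ B.Countable ∧ Stat {α | B ∩ Iio α = S α}) :
    ∃ A : T → Set ℕ, (∀ β, (A β).Infinite) ∧ (∀ β γ, β ≠ γ → (A β ∩ A γ).Finite) ∧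
      (∀ B : Set ℕ, {β | (A β \ B).Finite}.Countable ∨ {β | (A β \ Bᶜ).Finite}.Countable) ∧
      ∀ X : Set T, ¬ X.Countable →
        ∃ α ∈ X, ∃ n, {β | β ∈ X ∧ β < α ∧ A α ∩ A β ⊆ Iio n}.Infinite := by
  classical
  obtain ⟨f, hf⟩ := exists_good hc S
  have hunb : ∀ Y : Set T, ¬ Y.Countable → ∀ i, ∃ y ∈ Y, i < y := by
    intro Y hY i
    by_contra h
    push Not at h
    exact hY ((hc i).mono h)
  have hinf : ∀ β, (f β).2.Infinite := fun β => by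
    simpa using (hf β).2.2.1 univ (Or.inl rfl)
  refine ⟨fun β => (f β).2, hinf, fun β γ h => ?_, fun B => ?_, fun X hX => ?_⟩
  · rcases lt_or_gt_of_ne h with h | h
    · rw [inter_comm]; exact (hf γ).2.1 _ ⟨β, h, Or.inr rfl⟩
    · exact (hf β).2.1 _ ⟨γ, h, Or.inr rfl⟩
  · by_contra hcon
    push Not at hcon
    obtain ⟨n, hn⟩ : ∃ n, ¬ {β | ∀ x ∈ (f β).2, n ≤ x → x ∈ B}.Countable := by
      by_contra h
      push Not at h
      refine hcon.1 ((countable_iUnion h).mono fun β hβ => ?_)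
      obtain ⟨b, hb⟩ := Set.Finite.bddAbove hβ
      refine mem_iUnion.2 ⟨b + 1, fun x h1 h2 => ?_⟩
      by_contra h3
      exact absurd (hb ⟨h1, h3⟩) (by omega)
    obtain ⟨Y, hY1, hY2, hY3⟩ := hS _ hn
    choose g hg1 hg2 using hunb Y hY2
    obtain ⟨α, h1, ⟨δ, hδ⟩, h3⟩ := hY3 g
    have h1' : Y ∩ Iio α = S α := h1
    have hpos : ¬ Small (Gen f α) (UU S f α n) := by
      intro hSm
      obtain ⟨β, b1, -, b3⟩ := small_limit hδ hSm
      have b4 : ((f (g β)).2 ∩ UU S f α n).Finite := by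
        refine b3.ad fun Z hZ => (hf (g β)).2.1 Z ?_
        rcases hZ with hZ | hZ | hZ
        · exact ⟨β, hg2 β, Or.inr hZ⟩
        · exact ⟨β, hg2 β, Or.inl hZ⟩
        · exact Gen_mono f (hg2 β).le hZ
      refine hinf (g β) ((b4.union (finite_Iio n)).subset fun x hx => ?_)
      by_cases h : x < n
      · exact Or.inr h
      · exact Or.inl ⟨hx, not_lt.1 h, g β, h3 β b1, h1' ▸ ⟨hg1 β, h3 β b1⟩, hx⟩
    obtain ⟨γ, c1, c2⟩ := hunb _ hcon.2 α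
    refine (hf γ).2.2.1 _ (Or.inr ⟨α, c2.le, n, rfl, hpos⟩) (Set.Finite.subset c1 ?_)
    rintro x ⟨d1, d2, β, -, d4, d5⟩
    refine ⟨d1, fun h => h ?_⟩
    rw [← h1'] at d4
    exact hY1 d4.1 x d5 d2
  · obtain ⟨Y, hY1, hY2, hY3⟩ := hS _ hX
    let Z : ℕ × Finset ℕ → Set T := fun p => {β | β ∈ Y ∧ ∀ x < p.1, (x ∈ (f β).2 ↔ x ∈ p.2)}
    have hg : ∀ i, ∃ b, ∀ p, ¬ (Z p).Countable → ∃ y ∈ Z p, i < y ∧ y < b := by
      intro i
      have : ∀ p, ∃ y, ¬ (Z p).Countable → y ∈ Z p ∧ i < y := by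
        intro p
        by_cases h : (Z p).Countable
        · exact ⟨i, fun h' => absurd h h'⟩
        · obtain ⟨y, h1, h2⟩ := hunb _ h i
          exact ⟨y, fun _ => ⟨h1, h2⟩⟩
      choose y hy using this
      obtain ⟨b, hb⟩ := hT.bdd_countable (countable_range y)
      exact ⟨b, fun p hp => ⟨y p, (hy p hp).1, (hy p hp).2, hb _ ⟨p, rfl⟩⟩⟩
    choose g hg using hg
    obtain ⟨α, h1, ⟨δ, hδ⟩, h3⟩ := hY3 g
    have h1' : Y ∩ Iio α = S α := h1
    have hbad : (⋃ p ∈ {p | (Z p).Countable}, Z p).Countable :=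
      (to_countable _).biUnion fun p hp => hp
    obtain ⟨γ, c1, c2⟩ := hunb (Y \ ⋃ p ∈ {p | (Z p).Countable}, Z p)
      (fun h => hY2 ((h.union hbad).mono (by
        intro x hx
        by_cases h' : x ∈ ⋃ p ∈ {p | (Z p).Countable}, Z p
        · exact Or.inr h'
        · exact Or.inl ⟨hx, h'⟩))) α
    have d1 := (hf α).2.2.2 ⟨(f γ).2, fun P hP hSm => (hf γ).1 P (PS_mono S f c2.le hP)
      (hSm.mono (insert_subset_insert ((Gen_mono f c2.le).trans (subset_insert _ _)))), fun m => by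
        let p : ℕ × Finset ℕ := (m, (Finset.range m).filter fun x => x ∈ (f γ).2)
        have e1 : γ ∈ Z p := ⟨c1.1, fun x hx => by simp [p]; exact fun _ => hx⟩
        have e2 : ¬ (Z p).Countable := fun h => c1.2 (mem_biUnion (show p ∈ {p | _} from h) e1)
        have e3 : ∀ i < α, ∃ y ∈ {β | (β < α ∧ β ∈ S α) ∧
            ∀ x < m, (x ∈ (f β).2 ↔ x ∈ (f γ).2)}, i < y := by
          intro i hi
          obtain ⟨y, a1, a2, a3⟩ := hg i p e2
          have a4 : y < α := a3.trans (h3 i hi)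
          exact ⟨y, ⟨⟨a4, h1' ▸ ⟨a1.1, a4⟩⟩, fun x hx => (a1.2 x hx).trans (e1.2 x hx).symm⟩, a2⟩
        intro hfin
        obtain ⟨y, a1, -⟩ := e3 δ hδ
        obtain ⟨μ, a2, a3⟩ := hfin.exists_maximal ⟨y, a1⟩
        obtain ⟨z, a4, a5⟩ := e3 μ a2.1.1
        exact a5.not_ge (a3 a4 a5.le)⟩
    obtain ⟨γ', e1, e2⟩ := hunb X hX α
    obtain ⟨b, hb⟩ := ((hf γ').2.1 _ ⟨α, e2, Or.inl rfl⟩).bddAbove
    refine ⟨γ', e1, b + 1, d1.mono fun β hβ => ⟨?_, hβ.1.1.trans e2, fun x hx => ?_⟩⟩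
    · have := hβ.1.2
      rw [← h1'] at this
      exact hY1 this.1
    · exact Nat.lt_succ_of_le (hb ⟨hx.1, hβ.2 hx.2⟩)

end main

end Pool.Agent.H42.Luzin
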