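import Pool.Agent.H42.Reg

/-! Monochromatic transfinite paths at singular strong limit cardinals. -/

namespace Pool.Agent.H42.MPath

open Set Pool.Agent.H42.Reg
open Cardinal hiding univ

universe u

theorem walk {α : Type*} {R : α → α → Prop} {a b : α} (h : Relation.ReflTransGen R a b) :
    ∃ (N : ℕ) (s : ℕ → α), s 0 = a ∧ s N = b ∧ ∀ n < N, R (s n) (s (n + 1)) := by
  induction h with
  | refl => exact ⟨0, fun _ => a, rfl, rfl, fun n hn => absurd hn (Nat.not_lt_zero n)⟩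
  | @tail b c _ hbc ih =>
    obtain ⟨N, s, s1, s2, s3⟩ := ih
    refine ⟨N + 1, Function.update s (N + 1) c, by simpa using s1, by simp, fun n hn => ?_⟩
    rw [Function.update_of_ne hn.ne]
    rcases (Nat.lt_succ_iff.1 hn).eq_or_lt with e | e
    · rw [e, Function.update_self, s2]; exact hbc
    · rw [Function.update_of_ne (by omega)]; exact s3 n e

variable {M : Type u} [LinearOrder M] [WellFoundedLT M]

def Adj (d : M → M → ℕ) (k : ℕ) (a b : M) : Prop := a ≠ b ∧ d a b = k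

def Two (d : M → M → ℕ) (k : ℕ) (a b : M) : Prop := ∃ x, Adj d k a x ∧ Adj d k x b

theorem comp (hM : RegUnc M) (h1 : ℵ₁ < #M) (d : M → M → ℕ) (hd : ∀ a b, d a b = d b a) :
    ∃ k r, ∀ i, ∃ j j', i < j ∧ i < j' ∧ Adj d k j j' ∧ Relation.ReflTransGen (Two d k) r j' := by
  by_contra hc
  push Not at hc
  choose g hg using hc
  have h2 : #{δ : M | ∀ k, ∀ i < δ, g k i < δ} = #M := hM.card_of_unbdd fun b => by
    obtain ⟨β, b1, b2⟩ := hM.closure_nat g b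
    exact ⟨β, b2, b1.le⟩
  obtain ⟨C, c1, c2⟩ := le_mk_iff_exists_subset.1 (h1.le.trans h2.ge)
  obtain ⟨β, hβ⟩ := hM.bdd C (c2 ▸ h1)
  have : ¬ InjOn (fun δ => d δ β) C := fun h => by
    have := le_aleph0_iff_set_countable.2
      (MapsTo.countable_of_injOn (mapsTo_univ _ _) h countable_univ)
    exact aleph0_lt_aleph_one.not_ge (c2 ▸ this)
  have key : ∀ a ∈ C, ∀ b ∈ C, a < b → d a β ≠ d b β := fun a ha b hb hab e =>
    hg (d a β) a β b ((c1 hb _ a hab).trans (hβ b hb)) (c1 hb _ a hab)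
      ⟨(hβ b hb).ne', (hd _ _).trans e.symm⟩ (Relation.ReflTransGen.single
        ⟨β, ⟨(hβ a ha).ne, rfl⟩, (hβ b hb).ne', (hd _ _).trans e.symm⟩)
  refine this fun a ha b hb e => ?_
  by_contra hne
  rcases lt_or_gt_of_ne hne with c | c
  · exact key a ha b hb c e
  · exact key b hb a ha c e.symm

theorem path (hM : RegUnc M) (h1 : ℵ₁ < #M) (d : M → M → ℕ) (hd : ∀ a b, d a b = d b a)
    (lam : M → Cardinal.{u}) (l1 : ∀ i, #M ≤ lam i) (l2 : Monotone lam)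
    {O : Type u} [LinearOrder O] [WellFoundedLT O] (l3 : ∀ i, lam i ≤ #O) :
    ∃ (k : ℕ) (I : Set (M ×ₗ ℕ ×ₗ O ×ₗ Bool)) (l : I → M), (∀ j, #(l ⁻¹' {j}) ≤ lam j) ∧
      (∀ j, lam j ≤ #I) ∧ ∀ u v : I, u < v → ∃ w, u ≤ w ∧ w < v ∧ Adj d k (l w) (l v) := by
  obtain ⟨k, r, hr⟩ := comp hM h1 d hd
  have sy : ∀ a b, Adj d k a b → Adj d k b a := fun a b h => ⟨h.1.symm, (hd _ _).trans h.2⟩
  have pos : ∀ i, 1 ≤ lam i := fun i => (one_le_aleph0.trans hM.inf).trans (l1 i)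
  obtain ⟨o⟩ : Nonempty O := mk_ne_zero_iff.1 (zero_lt_one.trans_le ((pos r).trans (l3 r))).ne'
  let P : M → M × Bool → M × Bool → M → Set O → Prop := fun ξ a b x T =>
    Adj d k a.1 x ∧ Adj d k x b.1 ∧ T.Nonempty ∧ #T ≤ lam x ∧ #T ≤ lam b.1 ∧
      (a.2 ≠ b.2 → lam ξ ≤ #T)
  have ex : ∀ ξ, Relation.ReflTransGen (fun a b => ∃ x T, P ξ a b x T) (r, false) (r, true) := by
    intro ξ
    obtain ⟨j, j', j1, j2, j3, j4⟩ := hr ξ
    have lf : ∀ (f : Bool) a b, Relation.ReflTransGen (Two d k) a b →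
        Relation.ReflTransGen (fun a b => ∃ x T, P ξ a b x T) (a, f) (b, f) := fun f a b h =>
      h.lift (fun a => (a, f)) fun a b ⟨x, x1, x2⟩ => ⟨x, {o}, x1, x2, singleton_nonempty o,
        by simpa using pos x, by simpa using pos b, fun c => absurd rfl c⟩
    obtain ⟨T, hT⟩ := le_mk_iff_exists_set.1 (l3 ξ)
    refine ((lf false r j' j4).tail (c := (j', true)) ⟨j, T, sy _ _ j3, j3, ?_,
      hT.le.trans (l2 j1.le), hT.le.trans (l2 j2.le), fun _ => hT.ge⟩).trans (lf true j' r ?_)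
    · exact nonempty_coe_sort.1 (mk_ne_zero_iff.1 (hT ▸ (zero_lt_one.trans_le (pos ξ)).ne'))
    · clear j3 j2
      induction j4 with
      | refl => exact Relation.ReflTransGen.refl
      | tail _ h ih => exact ih.head ⟨_, sy _ _ h.choose_spec.2, sy _ _ h.choose_spec.1⟩
  choose N s s1 s2 s3 using fun ξ => walk (ex ξ)
  have : ∀ ξ n, ∃ x T, n < N ξ → P ξ (s ξ n) (s ξ (n + 1)) x T := fun ξ n => by
    by_cases c : n < N ξ
    · obtain ⟨x, T, h⟩ := s3 ξ n c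
      exact ⟨x, T, fun _ => h⟩
    · exact ⟨r, ∅, fun h => absurd h c⟩
  choose x T hP using this
  let mk : M → ℕ → O → Bool → M ×ₗ ℕ ×ₗ O ×ₗ Bool := fun ξ n t b =>
    toLex (ξ, toLex (n, toLex (t, b)))
  have mks : ∀ v, ∃ ξ n t b, v = mk ξ n t b := fun v => ⟨_, _, _, _, rfl⟩
  have mkl : ∀ ξ n t b ξ' n' t' b', mk ξ n t b < mk ξ' n' t' b' ↔
      ξ < ξ' ∨ ξ = ξ' ∧ (n < n' ∨ n = n' ∧ (t < t' ∨ t = t' ∧ b < b')) := by
    intros; simp only [mk, Prod.Lex.toLex_lt_toLex]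
  have mkle : ∀ ξ n t b ξ' n' t' b', mk ξ n t b ≤ mk ξ' n' t' b' ↔
      ξ < ξ' ∨ ξ = ξ' ∧ (n < n' ∨ n = n' ∧ (t < t' ∨ t = t' ∧ b ≤ b')) := by
    intros; simp only [mk, Prod.Lex.toLex_le_toLex]
  let I : Set (M ×ₗ ℕ ×ₗ O ×ₗ Bool) := {v | v.2.1 < N v.1 ∧ v.2.2.1 ∈ T v.1 v.2.1}
  let l : M ×ₗ ℕ ×ₗ O ×ₗ Bool → M := fun v =>
    cond v.2.2.2 (s v.1 (v.2.1 + 1)).1 (x v.1 v.2.1)
  refine ⟨k, I, fun v => l v, fun j => ?_, fun j => ?_, ?_⟩
  · rw [← mk_image_eq (f := Subtype.val) Subtype.val_injective]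
    refine (mk_le_mk_of_subset (t := ⋃ p : M × ULift.{u} (ℕ × Bool),
      (fun t => mk p.1 p.2.down.1 t p.2.down.2) ''
        {t | mk p.1 p.2.down.1 t p.2.down.2 ∈ I ∧ l (mk p.1 p.2.down.1 t p.2.down.2) = j}) ?_).trans
      ((mk_iUnion_le _).trans ((mul_le_mul' (b := lam j) ?_ (ciSup_le' ?_)).trans_eq
        (mul_eq_self (hM.inf.trans (l1 j)))))
    · rintro _ ⟨⟨v, hv⟩, e, rfl⟩
      obtain ⟨ξ, n, t, b, rfl⟩ := mks v
      exact mem_iUnion.2 ⟨(ξ, ⟨(n, b)⟩), t, ⟨hv, e⟩, rfl⟩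
    · simp only [mk_prod, lift_id, mk_eq_aleph0]
      rw [mul_aleph0_eq hM.inf]
      exact l1 j
    · rintro ⟨ξ, ⟨n, b⟩⟩
      refine mk_image_le.trans ?_
      rcases eq_empty_or_nonempty {t | mk ξ n t b ∈ I ∧ l (mk ξ n t b) = j} with e | ⟨t, e1, e2⟩
      · exact (mk_eq_zero_iff.2 (isEmpty_coe_sort.2 e)).trans_le zero_le
      · refine (mk_le_mk_of_subset (t := T ξ n) fun t ht => ht.1.2).trans ?_
        rw [← e2]
        cases b
        · exact (hP ξ n e1.1).2.2.2.1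
        · exact (hP ξ n e1.1).2.2.2.2.1
  · obtain ⟨n, n1, n2⟩ : ∃ n < N j, (s j n).2 ≠ (s j (n + 1)).2 := by
      by_contra hc
      push Not at hc
      have : ∀ n ≤ N j, (s j n).2 = false := fun n hn => by
        induction n with
        | zero => rw [s1]
        | succ n ih => rw [← hc n hn]; exact ih (Nat.le_of_succ_le hn)
      have := this _ le_rfl
      rw [s2] at this
      exact Bool.noConfusion this
    refine ((hP j n n1).2.2.2.2.2 n2).trans (mk_le_of_injective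
      (f := fun t => ⟨mk j n t.1 false, n1, t.2⟩) fun a b e => Subtype.ext ?_)
    exact congrArg (fun v : I => v.1.2.2.1) e
  · rintro ⟨u, hu⟩ ⟨v, hv⟩ huv
    obtain ⟨ξ', n', t', b', rfl⟩ := mks u
    obtain ⟨ξ, n, t, b, rfl⟩ := mks v
    have h := (mkl _ _ _ _ _ _ _ _).1 huv
    have hu1 : n' < N ξ' := hu.1
    have top : ∀ m, n' ≤ m → m < N ξ' → ∃ t'' ∈ T ξ' m, mk ξ' n' t' b' ≤ mk ξ' m t'' true := by
      intro m a c
      rcases a.eq_or_lt with e | e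
      · exact ⟨t', e ▸ hu.2, (mkle _ _ _ _ _ _ _ _).2 (Or.inr ⟨rfl, Or.inr ⟨e, Or.inr
          ⟨rfl, Bool.le_true _⟩⟩⟩)⟩
      · obtain ⟨t'', e'⟩ := (hP ξ' m c).2.2.1
        exact ⟨t'', e', (mkle _ _ _ _ _ _ _ _).2 (Or.inr ⟨rfl, Or.inl e⟩)⟩
    cases b
    · rcases h with h | ⟨rfl, h | ⟨rfl, h | ⟨-, h⟩⟩⟩
      · cases n with
        | zero =>
          obtain ⟨m, hm⟩ : ∃ m, N ξ' = m + 1 := ⟨N ξ' - 1, by omega⟩
          obtain ⟨t'', e1, e2⟩ := top m (by omega) (by omega)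
          refine ⟨⟨mk ξ' m t'' true, by show m < N ξ'; omega, e1⟩, e2,
            (mkl _ _ _ _ _ _ _ _).2 (Or.inl h), ?_⟩
          have := (hP ξ 0 hv.1).1
          rw [s1] at this
          show Adj d k (s ξ' (m + 1)).1 (x ξ 0)
          rwa [← hm, s2]
        | succ n =>
          have hn : n < N ξ := (Nat.lt_succ_self n).trans hv.1
          obtain ⟨t'', e'⟩ := (hP ξ n hn).2.2.1
          exact ⟨⟨mk ξ n t'' true, hn, e'⟩, (mkle _ _ _ _ _ _ _ _).2 (Or.inl h),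
            (mkl _ _ _ _ _ _ _ _).2 (Or.inr ⟨rfl, Or.inl (Nat.lt_succ_self n)⟩),
            (hP ξ (n + 1) hv.1).1⟩
      · obtain ⟨m, rfl⟩ : ∃ m, n = m + 1 := ⟨n - 1, by omega⟩
        have hn : m < N ξ' := (Nat.lt_succ_self m).trans hv.1
        obtain ⟨t'', e1, e2⟩ := top m (by omega) hn
        exact ⟨⟨mk ξ' m t'' true, hn, e1⟩, e2,
          (mkl _ _ _ _ _ _ _ _).2 (Or.inr ⟨rfl, Or.inl (Nat.lt_succ_self m)⟩),
          (hP ξ' (m + 1) hv.1).1⟩
      · exact ⟨⟨mk ξ' n' t' true, hu⟩, (mkle _ _ _ _ _ _ _ _).2 (Or.inr ⟨rfl, Or.inr ⟨rfl, Or.inr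
          ⟨rfl, Bool.le_true _⟩⟩⟩), (mkl _ _ _ _ _ _ _ _).2 (Or.inr ⟨rfl, Or.inr ⟨rfl, Or.inl h⟩⟩),
          sy _ _ (hP ξ' n' hu.1).2.1⟩
      · exact absurd h (not_lt.2 (Bool.false_le _))
    · refine ⟨⟨mk ξ n t false, hv⟩, (mkle _ _ _ _ _ _ _ _).2 ?_, (mkl _ _ _ _ _ _ _ _).2
        (Or.inr ⟨rfl, Or.inr ⟨rfl, Or.inr ⟨rfl, Bool.false_lt_true⟩⟩⟩), (hP ξ n hv.1).2.1⟩
      refine h.imp_right (And.imp_right (Or.imp_right (And.imp_right (Or.imp_right
        (And.imp_right fun c => ?_)))))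
      cases b'
      · exact le_rfl
      · exact absurd c (lt_irrefl _)

theorem levels {κ : Cardinal.{u}} (hκ : κ.IsStrongLimit) (hM : RegUnc M) (h1 : #M = κ.ord.cof)
    (h2 : #M < κ) : ∃ lam : M → Cardinal.{u}, (∀ i, lam i < κ) ∧ (∀ i, (lam i).IsRegular) ∧
      (∀ i, ℵ₀ ^ #M < lam i) ∧ (∀ i, ℵ₀ ^ (sum fun j : Iio i => lam j) < lam i) ∧
      κ ≤ sum lam := by
  have h0 : ℵ₀ ≤ κ := hκ.aleph0_le
  obtain ⟨s, s1, s2⟩ := Order.exists_cof_eq κ.ord.ToType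
  rw [Ordinal.cof_toType, ← h1] at s2
  obtain ⟨e⟩ := Cardinal.eq.1 s2.symm
  obtain ⟨lam, hl⟩ := exists_rec (T := M) (0 : Cardinal.{u})
    (fun i f => Order.succ (2 ^ (#M + #(Iic (e i).1) + sum fun j : Iio i => f j)))
    (fun δ f f' h => by
      rw [show (fun j : Iio δ => f j) = fun j : Iio δ => f' j from funext fun j => h j j.2])
  have pw : ∀ i a, a ≤ #M + #(Iic (e i).1) + (sum fun j : Iio i => lam j) → ℵ₀ ^ a < lam i := by
    intro i a ha
    have : ℵ₀ ≤ #M + #(Iic (e i).1) + sum fun j : Iio i => lam j :=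
      hM.inf.trans (le_self_add.trans le_self_add)
    rw [hl, Order.lt_succ_iff, ← power_eq_two_power this (natCast_lt_aleph0 (n := 2)).le this]
    exact power_le_power_left aleph0_ne_zero ha
  refine ⟨lam, fun i => ?_, fun i => ?_, fun i => pw i _ (le_self_add.trans le_self_add),
    fun i => pw i _ le_add_self, ?_⟩
  · induction i using WellFoundedLT.induction with
    | ind i ih =>
      rw [hl]
      refine hκ.isSuccLimit.succ_lt (hκ.isStrongPrelimit (add_lt_of_lt h0 (add_lt_of_lt h0 h2 ?_) ?_))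
      · rw [← Iio_insert]
        exact mk_insert_le.trans_lt
          (add_lt_of_lt h0 (mk_Iio_toType_ord_lt _) (one_lt_aleph0.trans_le h0))
      · exact (sum_le_mk_mul_iSup _).trans_lt (mul_lt_of_lt h0 ((mk_set_le _).trans_lt h2)
          (iSup_lt_of_lt_cof_ord (h1 ▸ hM.init i) fun j => ih j j.2))
  · rw [hl]
    exact isRegular_succ ((hM.inf.trans (le_self_add.trans le_self_add)).trans (cantor _).le)
  · have : (univ : Set κ.ord.ToType) ⊆ ⋃ i, Iic (e i).1 := fun a _ => by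
      obtain ⟨b, b1, b2⟩ := s1 a
      exact mem_iUnion.2 ⟨e.symm ⟨b, b1⟩, by simpa using b2⟩
    refine ((mk_ord_toType κ).symm.trans mk_univ.symm).trans_le ((mk_le_mk_of_subset this).trans
      (mk_iUnion_le_sum_mk.trans (sum_le_sum _ _ fun i => ?_)))
    exact ((cantor' _ one_lt_aleph0).trans (pw i _ (le_add_self.trans le_self_add))).le

theorem canon {V : Type u} (c : V → V → ℕ) (hc : ∀ x y, c x y = c y x) (lam : M → Cardinal.{u})
    (l0 : sum lam ≤ #V) (l1 : ∀ i, (lam i).IsRegular) (l2 : ∀ i, ℵ₀ ^ #M < lam i)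
    (l3 : ∀ i, ℵ₀ ^ (sum fun j : Iio i => lam j) < lam i) :
    ∃ (A : M → Set V) (d : M → M → ℕ), (∀ a b, d a b = d b a) ∧ (∀ i, lam i ≤ #(A i)) ∧
      (∀ i j, ∀ x ∈ A i, x ∈ A j → i = j) ∧ ∀ i j, i ≠ j → ∀ x ∈ A i, ∀ y ∈ A j, c x y = d i j := by
  classical
  obtain ⟨ι⟩ : Nonempty ((Σ i, (lam i).out) ↪ V) := by
    rw [← Cardinal.le_def]; simpa using l0
  have s1 : ∀ i, ∃ f : (Σ j : Iio i, (lam j).out) → ULift.{u} ℕ,
      lam i ≤ #{x : (lam i).out | (fun p : Σ j : Iio i, (lam j).out =>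
        ULift.up.{u} (c (ι ⟨p.1, p.2⟩) (ι ⟨i, x⟩))) = f} := fun i =>
    infinite_pigeonhole_card (fun x : (lam i).out => fun p : Σ j : Iio i, (lam j).out =>
        ULift.up.{u} (c (ι ⟨p.1, p.2⟩) (ι ⟨i, x⟩))) _ (mk_out _).ge (l1 i).aleph0_le (by
      rw [(l1 i).cof_ord, ← power_def, mk_sigma]; simpa using l3 i)
  choose f hf using s1
  have s2 := fun i => infinite_pigeonhole_set (α := M → ULift.{u} ℕ)
    (fun x i' => if h : i < i' then f i' ⟨⟨i, h⟩, x.1⟩ else ⟨0⟩) _ (hf i) (l1 i).aleph0_le (by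
      rw [(l1 i).cof_ord, ← power_def]; simpa using l2 i)
  choose D t t1 t2 t3 using s2
  have k : ∀ i j, i < j → ∀ x ∈ t i, ∀ y ∈ t j, c (ι ⟨i, x⟩) (ι ⟨j, y⟩) = (D i j).down := by
    intro i j hij x hx y hy
    have a1 := congrFun (t3 i hx) j
    have a2 := congrFun (show _ = f j from t1 j hy) ⟨⟨i, hij⟩, x⟩
    simp only [hij, dif_pos] at a1
    rw [← a1, ← a2]
  refine ⟨fun i => (fun x => ι ⟨i, x⟩) '' t i,
    fun i j => if i < j then (D i j).down else if j < i then (D j i).down else 0,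
    fun a b => ?_, fun i => ?_, ?_, ?_⟩
  · rcases lt_trichotomy a b with h | h | h
    · simp [h, h.not_gt]
    · rw [h]
    · simp [h, h.not_gt]
  · rw [mk_image_eq fun a b h => by simpa using ι.injective h]
    exact t2 i
  · rintro i j _ ⟨x, -, rfl⟩ ⟨y, -, e⟩
    exact (congrArg Sigma.fst (ι.injective e)).symm
  · rintro i j h _ ⟨x, hx, rfl⟩ _ ⟨y, hy, rfl⟩
    rcases lt_or_gt_of_ne h with e | e
    · simp only [e, if_true]; exact k i j e x hx y hy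
    · simp only [e, e.not_gt, if_true, if_false]; rw [hc]; exact k j i e y hy x hx

theorem main {κ : Cardinal.{u}} (hκ : κ.IsStrongLimit) (h1 : ℵ₁ < κ.ord.cof) (h2 : κ.ord.cof < κ)
    {V : Type u} (hV : #V = κ) (c : V → V → ℕ) (hc : ∀ x y, c x y = c y x) :
    ∃ (k : ℕ) (I : Type u) (_ : LinearOrder I) (_ : WellFoundedLT I) (φ : I → V),
      Function.Injective φ ∧ #I = κ ∧
      ∀ u v : I, u < v → ∃ w, u ≤ w ∧ w < v ∧ c (φ w) (φ v) = k := by
  have h0 : ℵ₀ ≤ κ := hκ.aleph0_le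
  have hu : ℵ₀ < κ.ord.cof := aleph0_lt_aleph_one.trans h1
  have hM := regUnc_toType (κ := κ.ord.cof) (isRegular_cof (isSuccLimit_ord h0)) hu
  have hc' : #κ.ord.cof.ord.ToType = κ.ord.cof := mk_ord_toType _
  obtain ⟨lam, l0, l1, l2, l3, l4⟩ := levels hκ hM hc' (hc'.trans_lt h2)
  have m1 : ∀ i, #κ.ord.cof.ord.ToType ≤ lam i := fun i =>
    ((cantor' _ one_lt_aleph0).trans (l2 i)).le
  have m2 : Monotone lam := fun i j hij => by
    rcases hij.eq_or_lt with e | e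
    · rw [e]
    · exact (le_sum (fun a : Iio j => lam a) ⟨i, e⟩).trans
        ((cantor' _ one_lt_aleph0).trans (l3 j)).le
  obtain ⟨A, d, d1, a1, a2, a3⟩ := canon c hc lam ((sum_le_mk_mul_iSup _).trans
    ((mul_le_mul' (hc'.trans_lt h2).le (ciSup_le' fun i => (l0 i).le)).trans_eq
      ((mul_eq_self h0).trans hV.symm))) l1 l2 l3
  obtain ⟨k, I, l, p1, p2, p3⟩ := path (O := κ.ord.ToType) hM (h1.trans_eq hc'.symm) d d1 lam m1 m2
    fun i => (l0 i).le.trans_eq (mk_ord_toType κ).symm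
  have g := fun j => ((Cardinal.le_def _ _).1 ((p1 j).trans (a1 j))).some
  have : ∀ j, ∃ G : I → V, (∀ v, l v = j → G v ∈ A j) ∧ InjOn G (l ⁻¹' {j}) := fun j => by
    classical
    obtain ⟨x⟩ : Nonempty V := mk_ne_zero_iff.1 (hV ▸ hκ.ne_zero)
    refine ⟨fun v => if h : l v = j then g j ⟨v, h⟩ else x, fun v h => ?_, fun a ha b hb e => ?_⟩
    · simp only [h, dif_pos]; exact (g j _).2
    · simp only [show l a = j from ha, show l b = j from hb, dif_pos] at e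
      exact congrArg Subtype.val ((g j).injective (Subtype.ext e))
  choose G g1 g2 using this
  have hi : Function.Injective fun v => G (l v) v := fun a b e => by
    have e' : G (l a) a = G (l b) b := e
    have : l a = l b := a2 _ _ _ (g1 _ a rfl) (e' ▸ g1 _ b rfl)
    rw [this] at e'
    exact g2 _ this rfl e'
  refine ⟨k, I, inferInstance, inferInstance, fun v => G (l v) v, hi,
    le_antisymm ((mk_le_of_injective hi).trans hV.le) ?_, fun u v huv => ?_⟩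
  · obtain ⟨i⟩ := hM.nonempty
    exact l4.trans ((sum_le_mk_mul_iSup _).trans ((mul_le_mul' ((m1 i).trans (p2 i))
      (ciSup_le' p2)).trans_eq (mul_eq_self (hM.inf.trans ((m1 i).trans (p2 i))))))
  · obtain ⟨w, w1, w2, w3⟩ := p3 u v huv
    exact ⟨w, w1, w2, (a3 _ _ w3.1 _ (g1 _ w rfl) _ (g1 _ v rfl)).trans w3.2⟩

end Pool.Agent.H42.MPath
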