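import Pool.Agent.H42.Reg

/-! A poset all of whose cofinal subsets have a maximal chain of size `ℵ_ω`. -/

namespace Pool.Agent.H42.Mchain

open Set Cardinal Ordinal Pool.Agent.H42.Reg

abbrev T (n : ℕ) := (Order.succ (ℵ_ n) : Cardinal.{0}).ord.ToType

abbrev R := (Order.succ (ℵ_ ω) : Cardinal.{0}).ord.ToType

lemma reg (o : Ordinal.{0}) : RegUnc (Order.succ (ℵ_ o)).ord.ToType :=
  regUnc_toType (isRegular_succ (aleph0_le_aleph o)) ((aleph0_le_aleph o).trans_lt (Order.lt_succ _))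

lemma bd {o : Ordinal.{0}} {ι : Type} (h : #ι ≤ ℵ_ o) (f : ι → (Order.succ (ℵ_ o)).ord.ToType) :
    ∃ b, ∀ i, f i < b := (reg o).bdd_fun ((Order.lt_succ_of_le h).trans_eq (mk_ord_toType _).symm) f

/-- The poset. -/
def P := ℕ × ((n : ℕ) → T n) × R

instance : PartialOrder P where
  le p q := p = q ∨ p.1 ≤ q.1 ∧ p.2.1 ≤ q.2.1 ∧ p.2.2 < q.2.2
  le_refl _ := Or.inl rfl
  le_trans := by
    rintro p q r (rfl | a) (rfl | b)
    exacts [Or.inl rfl, Or.inr b, Or.inr a,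
      Or.inr ⟨a.1.trans b.1, a.2.1.trans b.2.1, a.2.2.trans b.2.2⟩]
  le_antisymm p q a b := a.elim id fun a => b.elim Eq.symm fun b => (lt_asymm a.2.2 b.2.2).elim

lemma mo {p q : P} (h : p ≤ q) : p.1 ≤ q.1 ∧ p.2.1 ≤ q.2.1 ∧ p.2.2 ≤ q.2.2 :=
  h.elim (fun e => e ▸ ⟨le_rfl, le_rfl, le_rfl⟩) fun e => ⟨e.1, e.2.1, e.2.2.le⟩

def Hd (n : ℕ) (p q : P) : Prop := p.1 = q.1 ∧ ∀ i < n, p.2.1 i = q.2.1 i

def Tl (n : ℕ) (p q : P) : Prop := (∀ i, n ≤ i → p.2.1 i ≤ q.2.1 i) ∧ p.2.2 < q.2.2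

lemma le_of {n} {h p q : P} (a : Hd n h p) (b : Hd n h q) (c : Tl n p q) : p ≤ q :=
  Or.inr ⟨(a.1.symm.trans b.1).le, fun i => (lt_or_ge i n).elim
    (fun l => ((a.2 i l).symm.trans (b.2 i l)).le) (c.1 i), c.2⟩

lemma B (n : ℕ) {ι : Type} (h : #ι ≤ ℵ_ n) (g : ι → P) (u : P) :
    ∃ w, Hd n u w ∧ ∀ j, Tl n (g j) w := by
  have : ∀ i, ∃ b : T i, (i < n → u.2.1 i = b) ∧ (n ≤ i → ∀ j, (g j).2.1 i ≤ b) := fun i => by
    rcases lt_or_ge i n with l | l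
    · exact ⟨_, fun _ => rfl, fun d => (d.not_gt l).elim⟩
    · obtain ⟨b, e⟩ := bd (h.trans (aleph_le_aleph.2 (Nat.cast_le.2 l))) fun j => (g j).2.1 i
      exact ⟨b, fun d => (l.not_gt d).elim, fun _ j => (e j).le⟩
  choose b b1 b2 using this
  obtain ⟨r, e⟩ := bd (h.trans (aleph_le_aleph.2 (natCast_lt_omega0 n).le)) fun j => (g j).2.2
  exact ⟨(u.1, b, r), ⟨rfl, b1⟩, fun j => ⟨fun i l => b2 i l j, e j⟩⟩

lemma block {Q : Set P} (hQ : IsCofinal Q) (n : ℕ) (u : P) : ∃ D ⊆ Q, ∃ v : P, #D = ℵ_ n ∧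
    IsChain (· ≤ ·) D ∧ (∀ d ∈ D, u ≤ d ∧ d ≤ v) ∧ u ≤ v ∧ u.1 < v.1 := by
  have a0 := aleph0_le_aleph (n : Ordinal.{0})
  obtain ⟨h, hh⟩ : ∃ h, ∀ r, ∃ q ∈ Q, u ≤ q ∧ Hd n h q ∧ Tl n r q := by
    by_contra! c
    choose r hr using c
    let k : ℕ × ((i : Fin n) → T i) → P := fun η =>
      (η.1, fun i => if l : i < n then η.2 ⟨i, l⟩ else u.2.1 i, u.2.2)
    obtain ⟨w, w1, w2⟩ := B n (ι := Option (ℕ × ((i : Fin n) → T i))) (by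
      have : Nonempty ((i : Fin n) → T i) := ⟨fun i => u.2.1 i⟩
      rw [mk_option, add_one_eq (aleph0_le_mk _), mk_prod, Cardinal.lift_id, Cardinal.lift_id, mk_pi]
      refine (mul_le_mul' (mk_nat.trans_le a0) ((prod_le_prod _ (fun _ => ℵ_ n) fun i => ?_).trans
        ?_)).trans_eq (mul_eq_self a0)
      · simp
      · simpa using pow_le a0 (natCast_lt_aleph0 (n := n))) (fun o => o.elim u fun η => r (k η)) u
    obtain ⟨q, q1, q2⟩ := hQ w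
    exact hr (k (q.1, fun i => q.2.1 i)) q q1 ((le_of ⟨rfl, fun _ _ => rfl⟩ w1 (w2 none)).trans q2)
      ⟨rfl, fun i l => dif_pos l⟩ ⟨fun i l => ((w2 (some _)).1 i l).trans ((mo q2).2.1 i),
        (w2 (some _)).2.trans_le (mo q2).2.2⟩
  obtain ⟨D, ⟨d1, d2⟩, d3⟩ := zorn_subset {D | (∀ q ∈ D, q ∈ Q ∧ u ≤ q ∧ Hd n h q) ∧
    IsChain (· ≤ ·) D} fun c c1 c2 => ⟨⋃₀ c, ⟨fun q ⟨D, a, b⟩ => (c1 a).1 q b,
      (pairwise_sUnion c2.directedOn).2 fun D a => (c1 a).2⟩, fun _ => subset_sUnion_of_mem⟩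
  obtain ⟨E, e1, e2⟩ := le_mk_iff_exists_subset.1 (le_of_not_ge fun l : #D ≤ ℵ_ n => by
    obtain ⟨w, -, w2⟩ := B n l (·.1) u
    obtain ⟨q, q1, q2, q3, q4⟩ := hh w
    have k : ∀ d ∈ D, Tl n d q := fun d x =>
      ⟨fun i l => ((w2 ⟨d, x⟩).1 i l).trans (q4.1 i l), (w2 ⟨d, x⟩).2.trans q4.2⟩
    exact lt_irrefl _ (k q (d3 (y := insert q D) ⟨forall_mem_insert.2 ⟨⟨q1, q2, q3⟩, d1⟩,
      d2.insert fun d x _ => Or.inr (le_of (d1 d x).2.2 q3 (k d x))⟩ (subset_insert _ _)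
        (mem_insert _ _))).2)
  obtain ⟨w, w1, w2⟩ := B n e2.le (·.1) h
  obtain ⟨r, hr⟩ := bd (ι := Unit) (mk_le_aleph0.trans (aleph0_le_aleph _)) fun _ => w.2.2
  have k : ∀ d ∈ E, u ≤ d ∧ d ≤ w := fun d x =>
    ⟨(d1 d (e1 x)).2.1, le_of (d1 d (e1 x)).2.2 w1 (w2 ⟨d, x⟩)⟩
  have l : w ≤ (w.1 + 1, w.2.1, r) := Or.inr ⟨Nat.le_succ _, le_rfl, hr ()⟩
  obtain ⟨d, x⟩ : E.Nonempty := nonempty_coe_sort.1 (mk_ne_zero_iff.1 (e2 ▸ (aleph_pos _).ne'))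
  have m := (k d x).1.trans (k d x).2
  exact ⟨E, fun d x => (d1 d (e1 x)).1, _, e2, d2.mono e1, fun d x => ⟨(k d x).1, (k d x).2.trans l⟩,
    m.trans l, Nat.lt_succ_of_le (mo m).1⟩

theorem main {Q : Set P} (hQ : IsCofinal Q) :
    ∃ M, Maximal (fun C => C ⊆ Q ∧ IsChain (· ≤ ·) C) M ∧ #M = ℵ_ ω := by
  choose D d1 v d2 d3 d4 d5 d6 using block hQ
  have ne : ∀ o : Ordinal.{0}, Nonempty (Order.succ (ℵ_ o)).ord.ToType := fun o =>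
    mk_ne_zero_iff.1 (aleph0_pos.trans (reg o).unc).ne'
  let u : ℕ → P := Nat.rec (0, fun i => (ne i).some, (ne _).some) v
  have m : Monotone u := monotone_nat_of_le_succ fun n => d5 n (u n)
  have s : StrictMono fun n => (u n).1 := strictMono_nat_of_lt_succ fun n => d6 n (u n)
  obtain ⟨M, m1, m2⟩ := zorn_subset_nonempty {C | C ⊆ Q ∧ IsChain (· ≤ ·) C} (fun c c1 c2 _ =>
    ⟨⋃₀ c, ⟨sUnion_subset fun D a => (c1 a).1, (pairwise_sUnion c2.directedOn).2 fun D a =>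
      (c1 a).2⟩, fun _ => subset_sUnion_of_mem⟩) (⋃ n, D n (u n)) ⟨iUnion_subset fun n => d1 n _, by
    intro x a y b e
    obtain ⟨i, a⟩ := mem_iUnion.1 a
    obtain ⟨j, b⟩ := mem_iUnion.1 b
    rcases lt_trichotomy i j with l | rfl | l
    exacts [Or.inl ((d4 i _ x a).2.trans ((m (show i + 1 ≤ j from l)).trans (d4 j _ y b).1)),
      d3 i _ a b e, Or.inr ((d4 j _ y b).2.trans ((m (show j + 1 ≤ i from l)).trans (d4 i _ x a).1))]⟩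
  obtain ⟨γ, hγ⟩ := (reg ω).bdd_nat fun n => (u n).2.2
  refine ⟨M, m2, le_antisymm (le_trans (mk_le_of_injective (f := fun x : M => (⟨x.1.2.2, ?_⟩ : Iio γ))
    fun x y e => Subtype.ext ?_) (Order.lt_succ_iff.1 (mk_Iio_toType_ord_lt γ))) ?_⟩
  · obtain ⟨d, a⟩ : (D (x.1.1 + 1) (u (x.1.1 + 1))).Nonempty :=
      nonempty_coe_sort.1 (mk_ne_zero_iff.1 (d2 _ _ ▸ (aleph_pos _).ne'))
    refine ((mo (((m2.prop.2.total x.2 (m1 (mem_iUnion.2 ⟨_, a⟩))).resolve_right fun e => ?_).trans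
      (d4 _ _ d a).2)).2.2).trans_lt (hγ (x.1.1 + 1 + 1))
    exact Nat.not_succ_le_self _ (s.le_apply.trans (mo ((d4 _ _ d a).1.trans e)).1)
  · exact (m2.prop.2.total x.2 y.2).elim (·.resolve_right fun d => d.2.2.ne (congrArg Subtype.val e))
      fun d => (d.resolve_right fun d => d.2.2.ne' (congrArg Subtype.val e)).symm
  · rw [aleph_limit isSuccLimit_omega0]
    refine ciSup_le' fun ⟨o, l⟩ => ?_
    obtain ⟨n, rfl⟩ := lt_omega0.1 l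
    exact (d2 n (u n)).ge.trans (mk_le_mk_of_subset ((subset_iUnion (fun n => D n (u n)) n).trans m1))

end Pool.Agent.H42.Mchain
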