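import Pool.Agent.H42.MetaDefs

/-! The `<κ`-box power is never metanormal. -/

namespace Pool.Agent.H42.Meta1

open Cardinal Set Topology Pool.Agent.H42.MetaDefs

universe u

variable {ι K : Type u}

/-- Graphs of partial injections. -/
def PI (s : Set (ι × K)) : Prop := ∀ a ∈ s, ∀ b ∈ s, a.1 = b.1 ↔ a.2 = b.2

/-- `r` extends `q` with new values in `V`. -/
def Ext (q : Set (ι × K)) (V : Set K) (r : Set (ι × K)) : Prop :=
  PI r ∧ q ⊆ r ∧ ∀ e ∈ r, e ∉ q → e.2 ∈ V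

/-- A partial injection with a large reserve of values. -/
def Wd (q : Set (ι × K)) (V : Set K) : Prop := PI q ∧ (∀ e ∈ q, e.2 ∉ V) ∧ #K ≤ #V

/-- Every small set can be avoided above `p`. -/
def Free (D : Set (ι × K) → Set ι) (p : Set (ι × K)) : Prop :=
  ∀ Z : Set ι, #Z ≤ #K → ∃ s, PI s ∧ p ⊆ s ∧ D s ∩ Z ⊆ Prod.fst '' p

lemma step [Infinite K] {D : Set (ι × K) → Set ι} (hD : ∀ s, #(D s) < #K) {q V} (h : Wd q V) :
    ∃ q' V', Wd q' V' ∧ Ext q V q' ∧ V' ⊆ V ∧ ∀ r, Ext q' V' r → Free D r := by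
  by_contra! H
  obtain ⟨φ⟩ : Nonempty (K × Bool × K ↪ V) := by
    rw [← Cardinal.le_def]
    refine le_trans (le_of_eq ?_) h.2.2
    simp [two_mul, mul_eq_self (aleph0_le_mk K), add_eq_self (aleph0_le_mk K)]
  have hφ : ∀ {x y}, (φ x).1 = (φ y).1 → x = y := fun e => φ.injective (Subtype.ext e)
  let G : Set (ι × K) → K → Prop := fun r ξ => ∀ s, PI s → r ⊆ s → ∃ a ∈ D s, ∃ t, (a, (φ (ξ, t)).1) ∈ s
  obtain ⟨r, r0, ⟨r1, r2⟩, r3⟩ := zorn_subset_nonempty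
    {r | PI r ∧ ∀ e ∈ r, e ∉ q → ∃ ξ t, e.2 = (φ (ξ, t)).1 ∧ G r ξ} (fun c c1 c2 _ =>
      ⟨⋃₀ c, ⟨fun a ⟨x, x1, x2⟩ b ⟨y, y1, y2⟩ => (c2.total x1 y1).elim
        (fun e => (c1 y1).1 a (e x2) b y2) fun e => (c1 x1).1 a x2 b (e y2),
        fun e ⟨x, x1, x2⟩ e' => let ⟨ξ, t, a, b⟩ := (c1 x1).2 e x2 e'
          ⟨ξ, t, a, fun s s1 s2 => b s s1 ((subset_sUnion_of_mem x1).trans s2)⟩⟩,
        fun _ => subset_sUnion_of_mem⟩) q ⟨h.1, fun e a b => (b a).elim⟩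
  have hG : ∀ ξ, G r ξ := fun ξ => by_contra fun g => by
    have hr : ∀ e ∈ r, ∀ t, e.2 ≠ (φ (ξ, t)).1 := fun e he t d => by
      by_cases c : e ∈ q
      · exact h.2.1 e c (d ▸ (φ _).2)
      · obtain ⟨η, t', a, b⟩ := r2 e he c
        obtain rfl : η = ξ := (Prod.ext_iff.1 (hφ (a.symm.trans d))).1
        exact g b
    obtain ⟨r', ⟨a1, a2, a3⟩, a4⟩ := H r (range fun k => (φ (ξ, true, k)).1)
      ⟨r1, fun e he ⟨k, hk⟩ => hr e he _ hk.symm, (mk_range_eq _ fun k k' e =>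
        (Prod.ext_iff.1 (Prod.ext_iff.1 (hφ e)).2).2).ge⟩
      ⟨r1, r0, fun e a b => let ⟨_, _, c, _⟩ := r2 e a b; c ▸ (φ _).2⟩
      (range_subset_iff.2 fun _ => (φ _).2)
    simp only [Free, not_forall, not_exists, not_and] at a4
    obtain ⟨Z, ⟨j⟩, hZ⟩ := a4
    let r'' := r' ∪ {e | ∃ z : Z, z.1 ∉ Prod.fst '' r' ∧ e = (z.1, (φ (ξ, false, j z)).1)}
    have g' : G r'' ξ := fun s s1 s2 => by
      obtain ⟨a, ⟨b, c⟩, d⟩ := not_subset.1 (hZ s s1 (subset_union_left.trans s2))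
      exact ⟨a, b, _, s2 (Or.inr ⟨⟨a, c⟩, d, rfl⟩)⟩
    have k : ∀ e ∈ r', ∀ t, e.2 ≠ (φ (ξ, false, t)).1 := fun e he t d => by
      by_cases c : e ∈ r
      · exact hr e c _ d
      · obtain ⟨k, hk⟩ := a3 e he c
        simpa using hφ (hk.trans d)
    have hs : r ⊆ r'' := a2.trans subset_union_left
    refine g fun s s1 s2 => g' s s1 ((r3 ⟨?_, fun e he c => ?_⟩ hs).trans s2)
    · rintro a (ha | ⟨z, z1, rfl⟩) b (hb | ⟨w, w1, rfl⟩)
      · exact a1 a ha b hb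
      · exact iff_of_false (fun e => w1 ⟨a, ha, e⟩) (k a ha _)
      · exact iff_of_false (fun e => z1 ⟨b, hb, e.symm⟩) (k b hb _).symm
      · exact ⟨fun e => by rw [Subtype.ext e], fun e => congrArg Subtype.val (j.injective
          (Prod.ext_iff.1 (Prod.ext_iff.1 (hφ e)).2).2)⟩
    · by_cases d : e ∈ r
      · obtain ⟨η, t, a, b⟩ := r2 e d c
        exact ⟨η, t, a, fun s s1 s2 => b s s1 (hs.trans s2)⟩
      rcases he with he | ⟨z, -, rfl⟩
      · obtain ⟨k, hk⟩ := a3 e he d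
        exact ⟨ξ, _, hk.symm, g'⟩
      · exact ⟨ξ, _, rfl, g'⟩
  choose a a1 t a2 using fun ξ => hG ξ r r1 subset_rfl
  exact (hD r).not_ge (mk_le_of_injective (f := fun ξ => (⟨a ξ, a1 ξ⟩ : D r)) fun ξ η e =>
    (Prod.ext_iff.1 (hφ ((r1 _ (a2 ξ) _ (a2 η)).1 (congrArg Subtype.val e)))).1)

lemma free [Infinite K] {D : ℕ → Set (ι × K) → Set ι} (hD : ∀ n s, #(D n s) < #K) :
    ∃ p, ∀ n, Free (D n) p := by
  choose q V h1 h2 h3 h4 using fun n (w : {w : Set (ι × K) × Set K // Wd w.1 w.2}) =>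
    step (hD n) w.2
  let w : ℕ → {w : Set (ι × K) × Set K // Wd w.1 w.2} := Nat.rec
    ⟨(∅, univ), fun _ h => h.elim, fun _ h => h.elim, by simp⟩ fun n w => ⟨(q n w, V n w), h1 n w⟩
  have m : Monotone fun n => (w n).1.1 := monotone_nat_of_le_succ fun n => (h2 n (w n)).2.1
  have a : Antitone fun n => (w n).1.2 := antitone_nat_of_succ_le fun n => h3 n (w n)
  refine ⟨⋃ n, (w n).1.1, fun n => h4 n (w n) _ ⟨fun x hx y hy => ?_, subset_iUnion
    (fun n => (w n).1.1) (n + 1), fun e he c => ?_⟩⟩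
  · obtain ⟨i, hi⟩ := mem_iUnion.1 hx
    obtain ⟨j, hj⟩ := mem_iUnion.1 hy
    exact (w (max i j)).2.1 x (m (le_max_left _ _) hi) y (m (le_max_right _ _) hj)
  · obtain ⟨i, hi⟩ := mem_iUnion.1 he
    induction i with
    | zero => exact hi.elim
    | succ i ih =>
      by_cases d : e ∈ (w i).1.1
      · exact ih d
      · exact a (show n + 1 ≤ i from not_lt.1 fun l => c (m (show i + 1 ≤ n + 1 from l) hi))
          ((h2 i (w i)).2.2 e hi d)

open Classical in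
/-- A partial injection completed by a constant. -/
noncomputable def ext (v : K) (s : Set (ι × K)) (a : ι) : K :=
  if h : ∃ w, (a, w) ∈ s then h.choose else v

lemma ext_eq {v w : K} {s : Set (ι × K)} {a : ι} (hs : PI s) (h : (a, w) ∈ s) : ext v s a = w := by
  have e : ∃ w, (a, w) ∈ s := ⟨w, h⟩
  rw [ext, dif_pos e]
  exact (hs _ e.choose_spec _ h).1 rfl

lemma core [Infinite K] (c : ℕ → K) {D : ℕ → Set (ι × K) → Set ι} (hD : ∀ n s, #(D n s) < #K) :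
    ∃ z : ι → K, ∀ n, ∃ s, PI s ∧ ∀ a ∈ D n s, z a = ext (c n) s a := by
  classical
  obtain ⟨p, hp⟩ := free hD
  choose s s1 s2 s3 using fun n (Z : {Z : Set ι // #Z ≤ #K}) => hp n Z.1 Z.2
  let Z : ℕ → {Z : Set ι // #Z ≤ #K} := Nat.rec ⟨∅, by simp⟩ fun n Z => ⟨Z.1 ∪ D n (s n Z),
    (mk_union_le _ _).trans ((add_le_add Z.2 (hD _ _).le).trans_eq (add_eq_self (aleph0_le_mk K)))⟩
  have m : Monotone fun n => (Z n).1 := monotone_nat_of_le_succ fun n => subset_union_left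
  have k : ∀ i j a, i < j → a ∈ D i (s i (Z i)) → a ∈ D j (s j (Z j)) →
      ext (c i) (s i (Z i)) a = ext (c j) (s j (Z j)) a := fun i j a l x y => by
    obtain ⟨e, e1, rfl⟩ := s3 j (Z j) ⟨y, m (show i + 1 ≤ j from l) (Or.inr x)⟩
    exact (ext_eq (s1 _ _) (s2 _ _ e1)).trans (ext_eq (s1 _ _) (s2 _ _ e1)).symm
  refine ⟨fun a => if h : ∃ n, a ∈ D n (s n (Z n)) then ext (c h.choose) (s h.choose (Z h.choose)) a
    else c 0, fun n => ⟨_, s1 n (Z n), fun a ha => ?_⟩⟩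
  have e : ∃ n, a ∈ D n (s n (Z n)) := ⟨n, ha⟩
  simp only [dif_pos e]
  rcases lt_trichotomy e.choose n with l | l | l
  exacts [k _ _ a l e.choose_spec ha, by rw [l], (k _ _ a l ha e.choose_spec).symm]

theorem main (κ : Cardinal.{u}) (hκ : ℵ₀ ≤ κ) : ¬ Metanormal (Box κ) := fun H => by
  have hK : #κ.ord.ToType = κ := mk_ord_toType κ
  have : Infinite κ.ord.ToType := infinite_iff.2 (hκ.trans_eq hK.symm)
  have ho : ∀ (x : Box κ) (D : Set _), D.Finite → {y : Box κ | ∀ a ∈ D, y a = x a} ∈ 𝓝 x :=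
    fun x D h => IsOpen.mem_nhds (TopologicalSpace.isOpen_generateFrom_of_mem
      ⟨x, D, h.lt_aleph0.trans_le hκ, rfl⟩) fun _ _ => rfl
  have hb : ∀ U : Set (Box κ), IsOpen U → ∀ x ∈ U, ∃ D : Set _, #D < κ ∧
      ∀ y : Box κ, (∀ a ∈ D, y a = x a) → y ∈ U := fun U hU => by
    induction hU with
    | basic s h =>
      obtain ⟨x, D, h, rfl⟩ := h
      exact fun y hy => ⟨D, h, fun z hz a ha => (hz a ha).trans (hy a ha)⟩
    | univ => exact fun _ _ => ⟨∅, by simpa using aleph0_pos.trans_le hκ, fun _ _ => trivial⟩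
    | inter s t _ _ a b =>
      intro x hx
      obtain ⟨D, d1, d2⟩ := a x hx.1
      obtain ⟨E, e1, e2⟩ := b x hx.2
      exact ⟨D ∪ E, (mk_union_le _ _).trans_lt (add_lt_of_lt hκ d1 e1), fun y hy =>
        ⟨d2 y fun a h => hy a (Or.inl h), e2 y fun a h => hy a (Or.inr h)⟩⟩
    | sUnion S _ a =>
      rintro x ⟨t, t1, t2⟩
      obtain ⟨D, d1, d2⟩ := a t t1 x t2
      exact ⟨D, d1, fun y hy => ⟨t, t1, d2 y hy⟩⟩
  let c := Infinite.natEmbedding κ.ord.ToType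
  obtain ⟨U, u1, u2⟩ := H (fun n => {x | ∀ a b, x a = x b → x a ≠ c n → a = b}) (fun n =>
    isOpen_compl_iff.1 (isOpen_iff_mem_nhds.2 fun x hx => by
      simp only [mem_compl_iff, mem_ofPred_eq, not_forall] at hx
      obtain ⟨a, b, h1, h2, h3⟩ := hx
      refine Filter.mem_of_superset (ho x {a, b} (toFinite _)) fun y hy e => h3 (e a b ?_ ?_) <;>
        simp only [hy a (by simp), hy b (by simp), h1]
      exact h1 ▸ h2)) fun x => by
    obtain ⟨a, b, h1, h2⟩ : ∃ a b, x a = x b ∧ a ≠ b := by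
      by_contra! e
      simpa using mk_le_of_injective (f := x) fun a b => e a b
    have : ∀ n, ({y : Box κ | ∀ d ∈ ({a, b} : Set _), y d = x d} ∩
        {x | ∀ a b, x a = x b → x a ≠ c n → a = b}).Nonempty → c n = x a := fun n ⟨y, hy, e⟩ =>
      by_contra fun d => h2 (e a b (by rw [hy a (by simp), hy b (by simp), h1])
        (by rw [hy a (by simp)]; exact Ne.symm d))
    exact ⟨_, ho x {a, b} (toFinite _), fun n hn m hm => c.injective
      ((this n hn).trans (this m hm).symm)⟩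
  have : ∀ n s, ∃ D : Set _, #D < #κ.ord.ToType ∧ (PI s →
      ∀ y : Box κ, (∀ a ∈ D, y a = ext (c n) s a) → y ∈ U n) := fun n s => by
    by_cases hs : PI s
    · obtain ⟨D, d1, d2⟩ := hb _ (u1 n).1 (ext (c n) s) ((u1 n).2 fun a b e d => by
        have k : ∀ a, ext (c n) s a ≠ c n → (a, ext (c n) s a) ∈ s := fun a h => by
          obtain ⟨w, hw⟩ : ∃ w, (a, w) ∈ s := by_contra fun e => h (dif_neg e)
          rwa [ext_eq hs hw]
        exact (hs _ (k a d) _ (k b (e ▸ d))).2 e)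
      exact ⟨D, d1.trans_eq hK.symm, fun _ => d2⟩
    · exact ⟨∅, by simpa using aleph0_pos.trans_le hκ, fun h => (hs h).elim⟩
  choose D d1 d2 using this
  obtain ⟨z, hz⟩ := core c d1
  exact infinite_univ ((u2 z).subset fun n _ => let ⟨s, a, b⟩ := hz n; d2 n s a z b)

end Pool.Agent.H42.Meta1
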