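import Mathlib

/-! The `<κ`-box power and metanormality. -/

namespace Pool.Agent.H42.MetaDefs

open Cardinal Set Topology

universe u

/-- All functions from `κ⁺` to `κ`. -/
def Box (κ : Cardinal.{u}) : Type u := (Order.succ κ).ord.ToType → κ.ord.ToType

/-- The `<κ`-box topology: generated by the sets of functions agreeing with a given function on a
set of fewer than `κ` coordinates. -/
instance boxTop (κ : Cardinal.{u}) : TopologicalSpace (Box κ) :=
  TopologicalSpace.generateFrom {E | ∃ (x : Box κ) (D : Set (Order.succ κ).ord.ToType),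
    #D < κ ∧ E = {y : Box κ | ∀ a ∈ D, y a = x a}}

/-- Every discrete sequence of closed sets has a point-finite open expansion. -/
def Metanormal (X : Type u) [TopologicalSpace X] : Prop :=
  ∀ F : ℕ → Set X, (∀ n, IsClosed (F n)) →
    (∀ x, ∃ W ∈ 𝓝 x, {n | (W ∩ F n).Nonempty}.Subsingleton) →
    ∃ U : ℕ → Set X, (∀ n, IsOpen (U n) ∧ F n ⊆ U n) ∧ ∀ x, {n | x ∈ U n}.Finite

end Pool.Agent.H42.MetaDefs
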