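import Pool.Agent.H42.IMeag

namespace Pool.Agent.H42.Slal1
open Pool.Agent.H42.IMeag Set Cardinal Filter

theorem aleph0_le_nonM : ℵ₀ ≤ nonM := by
  refine le_csInf ⟨_, Set.univ, ?_, rfl⟩ ?_
  · intro h
    rw [IsMeagre, compl_univ] at h
    exact (dense_of_mem_residual h).nonempty.ne_empty rfl
  · rintro _ ⟨X, hX, rfl⟩
    exact aleph0_lt_b.le.trans (b_le hX)

/-- Bartoszynski: fewer than `non(M)` many slaloms are eventually evaded by one function. -/
theorem evade {ι : Type} (hι : #ι < nonM) (h : ℕ → ℕ) (S : ι → ℕ → Finset ℕ)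
    (hS : ∀ i n, (S i n).card ≤ h n) : ∃ g : ℕ → ℕ, ∀ i, ∀ᶠ n in atTop, g n ∉ S i n := by
  classical
  by_contra H
  push Not at H
  let φ : ι → ℕ → ℕ := fun i n => n + 1 + (Finset.range (n + 1)).sup fun m => (S i m).sup id
  have hφ : ∀ i, Monotone (φ i) := fun i m n hmn =>
    add_le_add (by omega) (Finset.sup_mono (Finset.range_mono (by omega)))
  let a : ι → ℕ → ℕ := fun i j => (φ i)^[j] 0
  have ha : ∀ i j, a i (j + 1) = φ i (a i j) := fun i j => Function.iterate_succ_apply' _ _ _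
  have ham : ∀ i, StrictMono (a i) := fun i => strictMono_nat_of_lt_succ fun j => by
    rw [ha]; simp only [φ]; omega
  have hex : ∀ i n, ∃ j, a i j ≤ n ∧ n < a i (j + 1) := fun i n => by
    have h1 : ∃ j, n < a i (j + 1) := ⟨n, (ham i).le_apply (x := n + 1)⟩
    refine ⟨Nat.find h1, ?_, Nat.find_spec h1⟩
    rcases Nat.eq_zero_or_eq_succ_pred (Nat.find h1) with h2 | h2
    · rw [h2]; exact Nat.zero_le _
    · rw [h2]; exact not_lt.1 (Nat.find_min h1 (by omega))
  choose idx hidx1 hidx2 using hex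
  have hidx : ∀ i j n, a i j ≤ n → n < a i (j + 1) → idx i n = j := fun i j n h1 h2 => by
    have h3 := (ham i).lt_iff_lt.1 (h1.trans_lt (hidx2 i n))
    have h4 := (ham i).lt_iff_lt.1 ((hidx1 i n).trans_lt h2)
    omega
  have good : ∀ l : ℕ → ℕ, ∃ i, ∃ᶠ j in atTop, l (a i j) ≤ a i (j + 1) := by
    intro l
    let L : ℕ → ℕ := fun n => (Finset.range (n + 1)).sup l
    have hL : Monotone L := fun m n hmn => Finset.sup_mono (Finset.range_mono (by omega))
    have hl : ∀ n, l n ≤ L n := fun n => Finset.le_sup (f := l) (Finset.self_mem_range_succ n)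
    obtain ⟨i, hi⟩ := H (L ∘ L)
    refine ⟨i, ?_⟩
    by_contra hc
    rw [not_frequently, eventually_atTop] at hc
    obtain ⟨J, hJ⟩ := hc
    obtain ⟨n, hn, h1⟩ := frequently_atTop.1 hi (a i J)
    have h2 : J ≤ idx i n := by
      have := (ham i).lt_iff_lt.1 (hn.trans_lt (hidx2 i n))
      omega
    have h3 := not_le.1 (hJ _ h2)
    have h4 := not_le.1 (hJ (idx i n + 1) (by omega))
    have h5 : L (L n) < φ i n := by
      have h6 : L (L n) ≤ (S i n).sup id := Finset.le_sup (f := id) h1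
      have h7 : (S i n).sup id ≤ (Finset.range (n + 1)).sup fun m => (S i m).sup id :=
        Finset.le_sup (f := fun m => (S i m).sup id) (Finset.self_mem_range_succ n)
      simp only [φ]; omega
    have h6 : φ i n ≤ a i (idx i n + 1 + 1) := by rw [ha]; exact hφ i (hidx2 i n).le
    have h7 := hl (a i (idx i n + 1))
    have h8 := hL (h3.le.trans ((hl _).trans (hL (hidx1 i n))))
    omega
  let dec : ℕ → Finset ℕ × List Bool := fun c => (Encodable.decode c).getD (∅, [])
  let Hs : ℕ → ℕ := fun n => ∑ m ∈ Finset.range (n + 1), h m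
  let K : ι → Type := fun i => {k : ℕ × ℕ // k.2 ∈ S i k.1 ∧ Hs k.1 ≤ (dec k.2).1.card}
  have hall : ∀ i, ∃ f : K i → ℕ, Function.Injective f ∧ ∀ k, f k ∈ (dec k.1.2).1 := by
    intro i
    refine (Finset.all_card_le_biUnion_card_iff_exists_injective _).1 fun s => ?_
    rcases s.eq_empty_or_nonempty with rfl | hs
    · simp
    obtain ⟨k, hk, hmax⟩ := Finset.exists_max_image s (fun k => k.1.1) hs
    refine le_trans ?_ (k.2.2.trans (Finset.card_le_card
      (Finset.subset_biUnion_of_mem (fun k : K i => (dec k.1.2).1) hk)))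
    have h1 : s.card ≤ ((Finset.range (k.1.1 + 1)).sigma fun m => S i m).card := by
      refine Finset.card_le_card_of_injOn (fun k => ⟨k.1.1, k.1.2⟩) (fun k' hk' => ?_) ?_
      · simp only [Finset.coe_sigma, mem_sigma_iff, Finset.coe_range, mem_Iio, Finset.mem_coe]
        exact ⟨Nat.lt_succ_of_le (hmax k' hk'), k'.2.1⟩
      · intro x _ y _ hxy
        simp only [Sigma.mk.injEq, heq_eq_eq] at hxy
        exact Subtype.ext (Prod.ext hxy.1 hxy.2)
    rw [Finset.card_sigma] at h1
    exact h1.trans (Finset.sum_le_sum fun m _ => hS i m)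
  choose f hf1 hf2 using hall
  let x : ι × ι → ℕ → Bool := fun p n =>
    if h : ∃ k, f p.2 k = idx p.1 n then (dec h.choose.1.2).2.getD n false else false
  have hM : IsMeagre (range x) := by
    by_contra hc
    refine (csInf_le' (s := {c | ∃ X : Set (ℕ → Bool), ¬ IsMeagre X ∧ #X = c})
      ⟨_, hc, rfl⟩).not_gt (mk_range_le.trans_lt ?_)
    have : #(ι × ι) < nonM := by simpa using mul_lt_of_lt aleph0_le_nonM hι hι
    exact this
  obtain ⟨l, s, hls⟩ := meagre_sub hM
  obtain ⟨i, hi⟩ := good l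
  have hP : ∀ n, ∃ P : Finset ℕ, P.card = Hs n ∧ ∀ j ∈ P, n ≤ j ∧ l (a i j) ≤ a i (j + 1) := by
    intro n
    have h1 : {j | n ≤ j ∧ l (a i j) ≤ a i (j + 1)}.Infinite :=
      Nat.frequently_atTop_iff_infinite.1 ((hi.and_eventually (eventually_ge_atTop n)).mono
        fun _ h => h.symm)
    obtain ⟨P, h2, h3⟩ := h1.exists_subset_card_eq (Hs n)
    exact ⟨P, h3, fun j hj => h2 hj⟩
  choose P hP1 hP2 using hP
  let g : ℕ → ℕ := fun n => Encodable.encode
    (P n, (List.range (a i ((P n).sup id + 1))).map fun m => s (a i (idx i m)) m)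
  have hg : ∀ n, dec (g n) =
      (P n, (List.range (a i ((P n).sup id + 1))).map fun m => s (a i (idx i m)) m) :=
    fun n => by simp only [dec, g, Encodable.encodek, Option.getD_some]
  obtain ⟨i', hi'⟩ := H g
  refine hls (x (i, i')) (frequently_atTop.2 fun N => ?_) ⟨_, rfl⟩
  obtain ⟨n, hn, h1⟩ := frequently_atTop.1 hi' N
  let k : K i' := ⟨(n, g n), h1, by rw [hg, hP1]⟩
  have h2 : f i' k ∈ P n := by
    have := hf2 i' k
    rwa [show k.1.2 = g n from rfl, hg] at this
  obtain ⟨h3, h4⟩ := hP2 n _ h2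
  refine ⟨a i (f i' k), hn.trans (h3.trans (ham i).le_apply), fun m hm1 hm2 => ?_⟩
  have h5 := hidx i _ m hm1 (hm2.trans_le h4)
  have h6 : ∃ k', f i' k' = idx i m := ⟨k, h5.symm⟩
  have h7 : h6.choose = k := hf1 i' (h6.choose_spec.trans h5)
  have h8 : m < a i ((P n).sup id + 1) := (hm2.trans_le h4).trans_le
    ((ham i).monotone (Nat.succ_le_succ (Finset.le_sup (f := id) h2)))
  simp only [x, dif_pos h6, h7]
  rw [show k.1.2 = g n from rfl, hg]
  simp [h8, h5]

end Pool.Agent.H42.Slal1
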