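import Pool.Agent.H42.VecDefs
import Pool.Agent.H42.Slal1

namespace Pool.Agent.H42.Vec1
open Pool.Agent.H42.VecDefs Pool.Agent.H42.IMeag Set Cardinal Filter Submodule

theorem nonMR_le : nonMR ≤ nonM := by
  have hne : {c | ∃ X : Set (ℕ → Bool), ¬ IsMeagre X ∧ #X = c}.Nonempty := ⟨_, Set.univ, by
    intro h
    rw [IsMeagre, compl_univ] at h
    exact (dense_of_mem_residual h).nonempty.ne_empty rfl, rfl⟩
  obtain ⟨X, hX, hc⟩ := csInf_mem hne
  let e : (ℕ → Bool) → ℕ → Fin 2 := fun x n => finTwoEquiv.symm (x n)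
  let π : (ℕ → Bool) → ℝ := fun x => Real.ofDigits (e x)
  have hπ : Continuous π := Real.continuous_ofDigits.comp
    (continuous_pi fun n => continuous_of_discreteTopology.comp (continuous_apply n))
  have hd : ∀ U : Set ℝ, IsOpen U → Dense U → Dense (π ⁻¹' U) := by
    intro U hU hD
    refine (PiNat.isTopologicalBasis_cylinders fun _ => Bool).dense_iff.2 ?_
    rintro _ ⟨z, n, rfl⟩ -
    let c : ℝ := ∑ i ∈ Finset.range n, Real.ofDigitsTerm (e z) i
    have hp : (0 : ℝ) < ((2 : ℕ) ^ n : ℝ)⁻¹ := by positivity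
    obtain ⟨y, hy, h1, h2⟩ := hD.exists_between (show c < c + ((2 : ℕ) ^ n : ℝ)⁻¹ by linarith)
    have ht : (y - c) / ((2 : ℕ) ^ n : ℝ)⁻¹ ∈ Set.Ico (0 : ℝ) 1 :=
      ⟨div_nonneg (by linarith) hp.le, (div_lt_one hp).2 (by linarith)⟩
    let w : ℕ → Bool := fun i => if i < n then z i else
      finTwoEquiv (Real.digits ((y - c) / ((2 : ℕ) ^ n : ℝ)⁻¹) 2 (i - n))
    refine ⟨w, fun i hi => if_pos hi, ?_⟩
    have h3 : π w = y := by
      simp only [π]
      rw [Real.ofDigits_eq_sum_add_ofDigits _ n]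
      have h4 : (fun i => e w (i + n)) = Real.digits ((y - c) / ((2 : ℕ) ^ n : ℝ)⁻¹) 2 := by
        funext i; simp [e, w]
      have h5 : ∑ i ∈ Finset.range n, Real.ofDigitsTerm (e w) i = c :=
        Finset.sum_congr rfl fun i hi => by
          simp [Real.ofDigitsTerm, e, w, Finset.mem_range.1 hi]
      rw [h4, h5, Real.ofDigits_digits (by norm_num) ht]
      field_simp
      ring
    rw [mem_preimage, h3]; exact hy
  refine (csInf_le' (s := {c | ∃ X : Set ℝ, ¬ IsMeagre X ∧ #X = c})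
    ⟨π '' X, fun h => hX ?_, rfl⟩).trans (mk_image_le.trans hc.le)
  obtain ⟨S, h1, h2, h3, h4⟩ := mem_residual_iff.1 h
  refine mem_of_superset ((countable_bInter_mem h3).2 fun U hU =>
    residual_of_dense_open ((h1 U hU).preimage hπ) (hd U (h1 U hU) (h2 U hU))) fun x hx hX => ?_
  exact h4 (fun U hU => mem_iInter₂.1 hx U hU) (mem_image_of_mem π hX)

variable {F E : Type} [Field F] [AddCommGroup E] [Module F E]

theorem rank_inf (Y V X : Submodule F E) :
    Module.rank F ((Y ⊔ V) ⊓ X : Submodule F E) ≤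
      Module.rank F V + Module.rank F (Y ⊓ X : Submodule F E) := by
  let f := Y.mkQ.comp ((Y ⊔ V) ⊓ X).subtype
  rw [← f.rank_range_add_rank_ker]
  refine add_le_add ((Submodule.rank_mono (t := V.map Y.mkQ) ?_).trans (rank_map_le _ _)) ?_
  · rintro _ ⟨⟨x, hx, -⟩, rfl⟩
    obtain ⟨y, hy, v, hv, rfl⟩ := mem_sup.1 hx
    exact ⟨v, hv, by simp [f, (Submodule.Quotient.mk_eq_zero Y).2 hy]⟩
  · rw [(equivMapOfInjective _ ((Y ⊔ V) ⊓ X).injective_subtype (LinearMap.ker f)).rank_eq]
    refine Submodule.rank_mono ?_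
    rintro _ ⟨⟨x, hx⟩, h, rfl⟩
    exact ⟨(Submodule.Quotient.mk_eq_zero Y).1 h, hx.2⟩

theorem fd_iff (X : Submodule F E) : FiniteDimensional F X ↔ Module.rank F X < ℵ₀ :=
  Module.rank_lt_aleph0_iff.symm

theorem ex_seq {X Y : Submodule F E} (hX : ¬ FiniteDimensional F X)
    (h : FiniteDimensional F (Y ⊓ X : Submodule F E)) :
    ∃ v : ℕ → E, ∀ n, v n ∈ X ∧ v n ∉ Y ⊔ span F (v '' Iio n) := by
  have key : ∀ s : Finset E, ∃ x, x ∈ X ∧ x ∉ Y ⊔ span F (s : Set E) := by
    intro s
    by_contra hc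
    push Not at hc
    refine hX ((fd_iff _).2 ?_)
    have h1 : (Y ⊔ span F (s : Set E)) ⊓ X = X := inf_eq_right.2 hc
    rw [← h1]
    exact (rank_inf _ _ _).trans_lt (add_lt_aleph0 ((fd_iff _).1 inferInstance) ((fd_iff _).1 h))
  classical
  choose g hg using key
  obtain ⟨S, hS0, hS1⟩ : ∃ S : ℕ → Finset E, S 0 = ∅ ∧ ∀ n, S (n + 1) = insert (g (S n)) (S n) :=
    ⟨fun n => Nat.rec ∅ (fun _ s => insert (g s) s) n, rfl, fun _ => rfl⟩
  have hS : ∀ n : ℕ, ((S n : Finset E) : Set E) = (fun n => g (S n)) '' Iio n := by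
    intro n
    induction n with
    | zero => simp [hS0]
    | succ n ih =>
      have h1 : Iio (n + 1) = insert n (Iio n) := by
        ext i; simp only [mem_Iio, mem_insert_iff]; omega
      rw [h1, image_insert_eq, ← ih, hS1]
      exact Finset.coe_insert _ _
  exact ⟨fun n => g (S n), fun n => hS n ▸ hg (S n)⟩

theorem main {A : Set (Submodule F E)} (hA : Mad A) (h2 : A.Nontrivial) : nonM ≤ #A := by
  classical
  by_contra hlt
  push Not at hlt
  obtain ⟨X, hX, X₀, hX₀, hne⟩ := h2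
  obtain ⟨v, hv⟩ := ex_seq (hA.1.1 X₀ hX₀) (hA.1.2 hX hX₀ hne)
  obtain ⟨w, hw, hwX⟩ : ∃ w : ℕ → E, LinearIndependent F w ∧ ∀ k, w k ∈ X := by
    let b := Module.Basis.ofVectorSpace F X
    have : Infinite (Module.Basis.ofVectorSpaceIndex F X) := by
      by_contra h
      rw [not_infinite_iff_finite] at h
      exact hA.1.1 X hX (Module.Finite.of_basis b)
    exact ⟨fun k => (b (Infinite.natEmbedding _ k) : E),
      (b.linearIndependent.comp _ (Infinite.natEmbedding _).injective).map' X.subtype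
        X.ker_subtype, fun k => (b _).2⟩
  obtain ⟨V, hV0, hV1⟩ : ∃ V : List ℕ → Submodule F E, V [] = ⊥ ∧
      ∀ k t, V (k :: t) = V t ⊔ span F {v t.length + w k} :=
    ⟨fun t => List.rec ⊥ (fun k t U => U ⊔ span F {v t.length + w k}) t, rfl, fun _ _ => rfl⟩
  have hVr : ∀ t : List ℕ, Module.rank F (V t) ≤ t.length := by
    intro t
    induction t with
    | nil => simp [hV0]
    | cons k t ih =>
      rw [hV1]
      refine (rank_add_le_rank_add_rank (V t) _).trans ?_
      rw [List.length_cons, Nat.cast_succ]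
      exact add_le_add ih ((rank_span_le _).trans (by simp))
  have hVX : ∀ t : List ℕ, V t ≤ X ⊔ span F (v '' Iio t.length) := by
    intro t
    induction t with
    | nil => exact hV0 ▸ bot_le
    | cons k t ih =>
      rw [hV1]
      refine sup_le (ih.trans (sup_le_sup_left (span_mono (image_mono
        (Iio_subset_Iio (by simp)))) _)) ((span_singleton_le_iff_mem _ _).2 ?_)
      exact add_mem (mem_sup_right (subset_span ⟨_, by simp, rfl⟩)) (mem_sup_left (hwX k))
  have hB : ∀ (Y : A) (t : List ℕ), ∃ S : Finset ℕ, S.card ≤ 2 * t.length + 1 ∧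
      (Module.rank F (Y.1 ⊓ X : Submodule F E) ≤ t.length →
        ∀ k, v t.length + w k ∈ Y.1 ⊔ V t → k ∈ S) := by
    intro Y t
    by_cases h : Module.rank F (Y.1 ⊓ X : Submodule F E) ≤ t.length
    swap
    · exact ⟨∅, by simp, fun h' => absurd h' h⟩
    let B : Set ℕ := {k | v t.length + w k ∈ Y.1 ⊔ V t}
    have h1 : ∀ k : B, w k ∈ (Y.1 ⊔ (V t ⊔ span F {v t.length})) ⊓ X := fun k => by
      refine ⟨?_, hwX k⟩
      have : w k = (v t.length + w k) - v t.length := by abel
      rw [this]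
      exact sub_mem ((sup_le_sup_left le_sup_left Y.1 : Y.1 ⊔ V t ≤ _) k.2)
        (mem_sup_right (mem_sup_right (mem_span_singleton_self _)))
    have h3 : LinearIndependent F fun k : B =>
        (⟨w k, h1 k⟩ : ((Y.1 ⊔ (V t ⊔ span F {v t.length})) ⊓ X : Submodule F E)) :=
      LinearIndependent.of_comp (Submodule.subtype _) (hw.comp _ Subtype.val_injective)
    have h4 : #B ≤ (2 * t.length + 1 : ℕ) := by
      refine h3.cardinal_le_rank.trans ((rank_inf _ _ _).trans ?_)
      refine (add_le_add ((rank_add_le_rank_add_rank _ _).trans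
        (add_le_add (hVr t) ((rank_span_le _).trans (mk_singleton _).le))) h).trans_eq ?_
      push_cast; ring
    have h5 : B.Finite := lt_aleph0_iff_set_finite.1 (h4.trans_lt (natCast_lt_aleph0))
    refine ⟨h5.toFinset, ?_, fun _ k hk => h5.mem_toFinset.2 hk⟩
    rw [← h5.coe_toFinset] at h4
    simpa only [Finset.coe_sort_coe, mk_coe_finset, Nat.cast_le] using h4
  choose S hS1 hS2 using hB
  obtain ⟨g, hg⟩ := Slal1.evade hlt (fun n => 2 * (Denumerable.ofNat (List ℕ) n).length + 1)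
    (fun Y n => S Y (Denumerable.ofNat (List ℕ) n)) fun Y n => hS1 _ _
  let s : ℕ → List ℕ := fun n => Nat.rec [] (fun _ t => g (Encodable.encode t) :: t) n
  have hsl : ∀ n, (s n).length = n := fun n => by
    induction n with
    | zero => rfl
    | succ n ih => exact congrArg (· + 1) ih
  let z : ℕ → E := fun n => v (s n).length + w (g (Encodable.encode (s n)))
  have hVs : ∀ n, V (s (n + 1)) = V (s n) ⊔ span F {z n} := fun n => hV1 _ _
  have hmono : Monotone fun n => V (s n) := monotone_nat_of_le_succ fun n => by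
    rw [hVs]; exact le_sup_left
  have hzX : ∀ n, z n ∉ X ⊔ V (s n) := fun n h => by
    refine (hv (s n).length).2 ?_
    have : v (s n).length = z n - w (g (Encodable.encode (s n))) := by simp [z]
    rw [this]
    exact sub_mem (sup_le le_sup_left (hVX _) h) (mem_sup_left (hwX _))
  have hz : ∀ Y ∈ A, ∃ N, ∀ n ≥ N, z n ∉ Y ⊔ V (s n) := by
    intro Y hY
    by_cases h : Y = X
    · exact ⟨0, fun n _ => h ▸ hzX n⟩
    obtain ⟨d, hd⟩ := lt_aleph0.1 ((fd_iff _).1 (hA.1.2 hY hX h))
    have hinj : Function.Injective fun n => Encodable.encode (s n) := fun m n h => by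
      rw [← hsl m, ← hsl n, Encodable.encode_injective h]
    have h1 := hinj.tendsto_cofinite
    rw [Nat.cofinite_eq_atTop] at h1
    obtain ⟨N, hN⟩ := eventually_atTop.1 ((h1.eventually (hg ⟨Y, hY⟩)).and (eventually_ge_atTop d))
    refine ⟨N, fun n hn h2 => (hN n hn).1 ?_⟩
    simp only [Denumerable.ofNat_encode]
    refine hS2 ⟨Y, hY⟩ (s n) ?_ _ h2
    rw [hd, hsl]; exact_mod_cast (hN n hn).2
  let Z : Submodule F E := ⨆ n, V (s n)
  have hfd : ∀ n, FiniteDimensional F (V (s n)) := fun n =>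
    (fd_iff _).2 ((hVr _).trans_lt natCast_lt_aleph0)
  have hZ : ∀ Y ∈ A, FiniteDimensional F (Y ⊓ Z : Submodule F E) := by
    intro Y hY
    obtain ⟨N, hN⟩ := hz Y hY
    have h1 : ∀ n, N ≤ n → Y ⊓ V (s n) ≤ V (s N) := by
      intro n hn
      induction n, hn using Nat.le_induction with
      | base => exact inf_le_right
      | succ n hn ih =>
        rintro y ⟨hy, hy'⟩
        rw [hVs] at hy'
        obtain ⟨u, hu, u', hu', rfl⟩ := mem_sup.1 hy'
        obtain ⟨c, rfl⟩ := mem_span_singleton.1 hu'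
        by_cases hc : c = 0
        · subst hc
          simp only [zero_smul, add_zero] at hy ⊢
          exact ih ⟨hy, hu⟩
        · refine absurd ?_ (hN n hn)
          have : z n = c⁻¹ • ((u + c • z n) - u) := by simp [smul_smul, hc]
          rw [this]
          exact smul_mem _ _ (sub_mem (mem_sup_left hy) (mem_sup_right hu))
    have := hfd N
    refine Submodule.finiteDimensional_of_le (S₂ := V (s N)) ?_
    rintro y ⟨hy, hy'⟩
    obtain ⟨n, hn⟩ := (mem_iSup_of_chain ⟨_, hmono⟩ y).1 hy'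
    exact h1 (max n N) (le_max_right _ _) ⟨hy, hmono (le_max_left _ _) hn⟩
  have hZi : ¬ FiniteDimensional F Z := by
    intro h
    have h1 : ∀ n, n ≤ Module.finrank F (V (s n)) := by
      intro n
      induction n with
      | zero => exact Nat.zero_le _
      | succ n ih =>
        have := hfd (n + 1)
        refine Nat.succ_le_of_lt (ih.trans_lt (Submodule.finrank_lt_finrank_of_lt
          (lt_of_le_of_ne (hmono n.le_succ) fun h => hzX n (mem_sup_right ?_))))
        rw [show V (s n) = V (s (n + 1)) from h, hVs]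
        exact mem_sup_right (mem_span_singleton_self _)
    have h3 := Submodule.finrank_mono (le_iSup (fun n => V (s n)) (Module.finrank F Z + 1))
    have h4 := h1 (Module.finrank F Z + 1)
    change _ ≤ Module.finrank F Z at h3
    omega
  have h3 := hA.2 (insert Z A) ⟨?_, ?_⟩ (subset_insert _ _)
  · have h4 : Z ∈ A := h3 ▸ mem_insert _ _
    have := hZ Z h4
    rw [inf_idem] at this
    exact hZi this
  · rintro Y (rfl | hY)
    exacts [hZi, hA.1.1 Y hY]
  · refine hA.1.2.insert fun Y hY _ => ⟨?_, hZ Y hY⟩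
    rw [inf_comm]; exact hZ Y hY

theorem ex_mad (F : Type) [Field F] :
    ∃ A : Set (Submodule F (ℕ →₀ F)), A.Infinite ∧ Mad A := by
  let X : ℕ → Submodule F (ℕ →₀ F) := fun i => Finsupp.supported F F {n | n.unpair.1 = i}
  have h1 : ∀ i, ¬ FiniteDimensional F (X i) := fun i h => by
    have : Infinite {n : ℕ | n.unpair.1 = i} := (Set.infinite_of_injective_forall_mem
      (f := fun j => Nat.pair i j) (fun a b h => (Nat.pair_eq_pair.1 h).2) (by simp)).to_subtype
    have h2 := (Finsupp.supportedEquivFinsupp (M := F) (R := F) {n : ℕ | n.unpair.1 = i}).rank_eq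
    rw [rank_finsupp_self'] at h2
    exact ((fd_iff _).1 h).not_ge (h2 ▸ aleph0_le_mk _)
  have h2 : ∀ i j, i ≠ j → X i ⊓ X j = ⊥ := fun i j h =>
    (Finsupp.disjoint_supported_supported (Set.disjoint_left.2 fun n h1 h2 =>
      h (h1.symm.trans h2))).eq_bot
  have h3 : Function.Injective X := fun i j h => by
    by_contra hne
    have := h2 i j hne
    rw [h, inf_idem] at this
    exact h1 j (this ▸ inferInstance)
  obtain ⟨A, hA, hm⟩ := zorn_subset_nonempty {A : Set (Submodule F (ℕ →₀ F)) | ADFam A} (by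
    intro c hc hch _
    refine ⟨⋃₀ c, ⟨fun Y ⟨s, hs, hY⟩ => (hc hs).1 Y hY, ?_⟩, fun s hs => subset_sUnion_of_mem hs⟩
    rintro a ⟨s, hs, has⟩ b ⟨t, ht, hbt⟩ hab
    rcases hch.total hs ht with h | h
    · exact (hc ht).2 (h has) hbt hab
    · exact (hc hs).2 has (h hbt) hab) (range X) ⟨by rintro _ ⟨i, rfl⟩; exact h1 i, by
      rintro _ ⟨i, rfl⟩ _ ⟨j, rfl⟩ h
      rw [h2 i j fun h' => h (by rw [h'])]
      infer_instance⟩
  exact ⟨A, (infinite_range_of_injective h3).mono hA, hm.prop,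
    fun B hB h => (hm.eq_of_subset hB h).symm⟩

theorem final (F : Type) [Field F] : nonMR ≤ aVec F := by
  obtain ⟨A, h1, h2⟩ := ex_mad F
  refine le_csInf ⟨_, A, h1, h2, rfl⟩ ?_
  rintro _ ⟨B, h3, h4, rfl⟩
  exact nonMR_le.trans (main h4 h3.nontrivial)

end Pool.Agent.H42.Vec1
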