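import Pool.Agent.H42.VdiaDefs
import Pool.Agent.H42.Vec1
import Pool.Agent.H42.Stat
import Pool.Agent.H42.TStar

namespace Pool.Agent.H42.Vdia1
open Pool.Agent.H42.VecDefs Pool.Agent.H42.VdiaDefs Pool.Agent.H42.IMeag Pool.Agent.H42.Vec1
open Set Cardinal Filter Submodule

theorem reg : Reg.RegUnc Om := Reg.regUnc_toType isRegular_aleph_one aleph0_lt_aleph_one

theorem mkOm : #Om = ℵ₁ := by simp

theorem cnt {s : Set Om} (h : #s < #Om) : s.Countable := by
  rw [mkOm, ← succ_aleph0, Order.lt_succ_iff] at h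
  exact le_aleph0_iff_set_countable.1 h

theorem meas_inf {α : Type} [MeasurableSpace α] {Q : α → ℕ → Prop}
    (h : ∀ k, Measurable fun a => Q a k) : Measurable fun a => sInf {k | Q a k} := by
  refine measurable_to_countable' fun k => ?_
  have : (fun a => sInf {k | Q a k}) ⁻¹' {k} =
      {a | (Q a k ∧ ∀ j, j < k → ¬ Q a j) ∨ (k = 0 ∧ ∀ j, ¬ Q a j)} := by
    ext a
    simp only [mem_preimage, mem_singleton_iff, mem_ofPred_eq]
    by_cases hne : {k | Q a k}.Nonempty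
    · constructor
      · rintro rfl
        exact Or.inl ⟨Nat.sInf_mem hne, fun j hj => Nat.notMem_of_lt_sInf hj⟩
      · rintro (⟨h1, h2⟩ | ⟨-, h2⟩)
        · exact le_antisymm (Nat.sInf_le h1) (not_lt.1 fun h3 => h2 _ h3 (Nat.sInf_mem hne))
        · exact absurd hne.some_mem (h2 _)
    · rw [not_nonempty_iff_eq_empty] at hne
      rw [hne, Nat.sInf_empty]
      have h2 : ∀ j, ¬ Q a j := fun j hj => (hne ▸ hj : j ∈ (∅ : Set ℕ))
      exact ⟨fun h => Or.inr ⟨h.symm, h2⟩, fun h => h.elim (fun h => absurd h.1 (h2 _))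
        fun h => h.1.symm⟩
  rw [this]
  exact measurableSet_setOfPred.2 (((h k).and (.forall fun j => measurable_const.imp (h j).not)).or
    (measurable_const.and (.forall fun j => (h j).not)))

def bit {δ : Om} (h : Iio δ → Bool) (w : Om) : Prop := ∃ hw : w < δ, h ⟨w, hw⟩ = true

theorem meas_bit (δ w : Om) : Measurable fun h : Iio δ → Bool => bit h w :=
  .exists fun hw => (measurable_of_countable fun b : Bool => b = true).comp
    (measurable_pi_apply (⟨w, hw⟩ : Iio δ))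

theorem ex_pi : ∃ π : Option Om × ℕ → Om, Function.Injective π := by
  have : #(Option Om × ℕ) ≤ #Om := by simp [aleph0_lt_aleph_one.le]
  obtain ⟨f⟩ := (Cardinal.le_def _ _).1 this
  exact ⟨f, f.injective⟩

theorem code {π : Option Om × ℕ → Om} (hπ : Function.Injective π) (R : Option Om × ℕ → Prop) :
    ∃ f : Om → Bool, ∀ δ z, π z < δ → (bit (fun β : Iio δ => f β) (π z) ↔ R z) := by
  classical
  refine ⟨fun w => decide (∃ z, π z = w ∧ R z), fun δ z h => ⟨?_, fun h' => ⟨h, ?_⟩⟩⟩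
  · rintro ⟨_, h1⟩
    obtain ⟨z', h2, h3⟩ := of_decide_eq_true h1
    exact hπ h2 ▸ h3
  · exact decide_eq_true ⟨z, rfl, h'⟩

theorem part (H : Diamond) : ∃ a : Om → ℕ → ℕ, (∀ δ, StrictMono (a δ)) ∧
    ∀ l : ℕ → ℕ, ∃ ξ, ∀ δ ≥ ξ, ∃ᶠ j in atTop, l (a δ j) ≤ a δ (j + 1) := by
  obtain ⟨π, hπ⟩ := ex_pi
  obtain ⟨g, hg⟩ := H (fun δ h m => sInf {k | bit h (π (none, Nat.pair m k))})
    fun δ => measurable_pi_lambda _ fun m => meas_inf fun k => meas_bit _ _
  have h1 : ∀ l : ℕ → ℕ, ∃ ξ, ∃ᶠ m in atTop, l m = g ξ m := fun l => by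
    obtain ⟨f, hf⟩ := code hπ fun z => l z.2.unpair.1 = z.2.unpair.2
    obtain ⟨b, hb⟩ := reg.bdd_nat fun n => π (none, n)
    obtain ⟨δ, h2, h3, -⟩ := hg f (Stat.isClub_closure reg (fun _ => b) b)
    refine ⟨δ, h2.mono fun m hm => ?_⟩
    rw [← hm]
    have : {k | bit (fun β : Iio δ => f β) (π (none, Nat.pair m k))} = {l m} := by
      ext k
      simp only [mem_ofPred_eq, hf δ _ ((hb _).trans h3), Nat.unpair_pair, mem_singleton_iff,
        eq_comm]
    rw [this, csInf_singleton]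
  choose ψ hψ using fun δ : Om => bdd (ι := Iic δ)
    ((le_aleph0_iff_set_countable.2 (cnt (reg.init_le δ))).trans_lt aleph0_lt_b) fun ξ => g ξ
  let φ : Om → ℕ → ℕ := fun i n => n + 1 + (Finset.range (n + 1)).sup (ψ i)
  have hφ : ∀ i, Monotone (φ i) := fun i m n hmn =>
    add_le_add (by omega) (Finset.sup_mono (Finset.range_mono (by omega)))
  let a : Om → ℕ → ℕ := fun i j => (φ i)^[j] 0
  have ha : ∀ i j, a i (j + 1) = φ i (a i j) := fun i j => Function.iterate_succ_apply' _ _ _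
  have ham : ∀ i, StrictMono (a i) := fun i => strictMono_nat_of_lt_succ fun j => by
    rw [ha]; simp only [φ]; omega
  have hex : ∀ i n, ∃ j, a i j ≤ n ∧ n < a i (j + 1) := fun i n => by
    classical
    have h1 : ∃ j, n < a i (j + 1) := ⟨n, (ham i).le_apply (x := n + 1)⟩
    refine ⟨Nat.find h1, ?_, Nat.find_spec h1⟩
    rcases Nat.eq_zero_or_eq_succ_pred (Nat.find h1) with h2 | h2
    · rw [h2]; exact Nat.zero_le _
    · rw [h2]; exact not_lt.1 (Nat.find_min h1 (by omega))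
  choose idx hidx1 hidx2 using hex
  refine ⟨a, ham, fun l => ?_⟩
  let L : ℕ → ℕ := fun n => (Finset.range (n + 1)).sup l
  have hL : Monotone L := fun m n hmn => Finset.sup_mono (Finset.range_mono (by omega))
  have hl : ∀ n, l n ≤ L n := fun n => Finset.le_sup (f := l) (Finset.self_mem_range_succ n)
  obtain ⟨ξ, hξ⟩ := h1 (L ∘ L)
  refine ⟨ξ, fun i hi => ?_⟩
  by_contra hc
  rw [not_frequently, eventually_atTop] at hc
  obtain ⟨J, hJ⟩ := hc
  obtain ⟨n, hn, h1, h1'⟩ := frequently_atTop.1 (hξ.and_eventually (hψ i ⟨ξ, hi⟩)) (a i J)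
  have h2 : J ≤ idx i n := by
    have := (ham i).lt_iff_lt.1 (hn.trans_lt (hidx2 i n))
    omega
  have h3 := not_le.1 (hJ _ h2)
  have h4 := not_le.1 (hJ (idx i n + 1) (by omega))
  have h5 : L (L n) < φ i n := by
    have h6 : L (L n) ≤ ψ i n := h1.le.trans h1'
    have h7 : ψ i n ≤ (Finset.range (n + 1)).sup (ψ i) :=
      Finset.le_sup (f := ψ i) (Finset.self_mem_range_succ n)
    simp only [φ]; omega
  have h6 : φ i n ≤ a i (idx i n + 1 + 1) := by rw [ha]; exact hφ i (hidx2 i n).le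
  have h7 := hl (a i (idx i n + 1))
  have h8 := hL (h3.le.trans ((hl _).trans (hL (hidx1 i n))))
  omega

variable {F : Type} [Field F]

def Lo (F : Type) [Field F] (m : ℕ) : Submodule F (ℕ →₀ F) := Finsupp.supported F F (Iio m)
def Hi (F : Type) [Field F] (m : ℕ) : Submodule F (ℕ →₀ F) := Finsupp.supported F F (Ici m)

theorem Lo_mono {m n : ℕ} (h : m ≤ n) : Lo F m ≤ Lo F n := Finsupp.supported_mono (Iio_subset_Iio h)
theorem Hi_mono {m n : ℕ} (h : m ≤ n) : Hi F n ≤ Hi F m := Finsupp.supported_mono (Ici_subset_Ici.2 h)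

theorem lohi {m : ℕ} {v : ℕ →₀ F} (h : v ∈ Lo F m) (h' : v ∈ Hi F m) : v = 0 :=
  (Submodule.disjoint_def.1 (Finsupp.disjoint_supported_supported (Iio_disjoint_Ici le_rfl))) v h h'

theorem mem_Lo (v : ℕ →₀ F) : ∃ m, v ∈ Lo F m :=
  ⟨v.support.sup id + 1, fun _ hi => Nat.lt_succ_of_le (Finset.le_sup (f := id) hi)⟩

instance (m : ℕ) : FiniteDimensional F (Lo F m) := by
  have : Finite (Iio m) := (finite_Iio m).to_subtype
  exact (Finsupp.supportedEquivFinsupp (M := F) (R := F) (Iio m)).symm.finiteDimensional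

theorem fd_le {X : Submodule F (ℕ →₀ F)} (h : FiniteDimensional F X) : ∃ m, X ≤ Lo F m := by
  obtain ⟨s, rfl⟩ := (Submodule.fg_iff_finiteDimensional X).2 h
  choose l hl using mem_Lo (F := F)
  exact ⟨s.sup l, span_le.2 fun v hv => Lo_mono (Finset.le_sup hv) (hl v)⟩

theorem not_fd {X : Submodule F (ℕ →₀ F)} (h : ∀ m, ∃ v ∈ X, v ∈ Hi F m ∧ v ≠ 0) :
    ¬ FiniteDimensional F X := fun h' => by
  obtain ⟨m, hm⟩ := fd_le h'
  obtain ⟨v, h1, h2, h3⟩ := h m
  exact h3 (lohi (hm h1) h2)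

theorem pick {Y : Submodule F (ℕ →₀ F)} (hY : ¬ FiniteDimensional F Y) {ι : Type} (s : Finset ι)
    (T : ι → Submodule F (ℕ →₀ F)) (h : ∀ i, FiniteDimensional F (T i ⊓ Y : Submodule F _))
    (m : ℕ) : ∃ l, ∃ y ∈ Y, y ∈ Hi F m ⊓ Lo F l ∧ ∀ i ∈ s, y ∉ T i ⊔ Lo F m := by
  choose b hb using fun i => fd_le (X := (T i ⊔ Lo F m) ⊓ Y) ((fd_iff _).2
    ((rank_inf _ _ _).trans_lt (add_lt_aleph0 ((fd_iff _).1 inferInstance) ((fd_iff _).1 (h i)))))
  let M := max m (s.sup b)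
  have : ∃ y ∈ Y, y ∈ Hi F M ∧ y ≠ 0 := by
    by_contra hc
    push Not at hc
    have h1 : Hi F M ⊓ Y = ⊥ := eq_bot_iff.2 fun y hy => hc y hy.2 hy.1
    have h2 : Hi F M ⊔ Lo F M = ⊤ := by
      rw [Hi, Lo, ← Finsupp.supported_union, Ici_union_Iio, Finsupp.supported_univ]
    have h3 := rank_inf (Hi F M) (Lo F M) Y
    rw [h1, h2, top_inf_eq, rank_bot, add_zero] at h3
    exact hY ((fd_iff _).2 (h3.trans_lt ((fd_iff _).1 inferInstance)))
  obtain ⟨y, h1, h2, h3⟩ := this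
  obtain ⟨l, hl⟩ := mem_Lo y
  exact ⟨l, y, h1, ⟨Hi_mono (le_max_left _ _) h2, hl⟩, fun i hi h4 => h3 (lohi (Lo_mono
    ((Finset.le_sup hi).trans (le_max_right _ _)) (hb i ⟨h4, h1⟩)) h2)⟩

theorem block_inf {X : Submodule F (ℕ →₀ F)} (h : IsBlock X) : ¬ FiniteDimensional F X := by
  obtain ⟨x, h1, h2, rfl⟩ := h
  refine not_fd fun m => ⟨x m, subset_span ⟨m, rfl⟩, ?_, h1 m⟩
  induction m with
  | zero => exact fun _ _ => Nat.zero_le _
  | succ m ih =>
    obtain ⟨i, hi⟩ := Finsupp.support_nonempty_iff.2 (h1 m)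
    exact fun j hj => Nat.succ_le_of_lt (lt_of_le_of_lt (ih hi) (h2 m i hi j hj))

theorem block_of {a : ℕ → ℕ} (ha : StrictMono a) {x : ℕ → ℕ →₀ F}
    (hx : ∀ j, x j ∈ Hi F (a j) ⊓ Lo F (a (j + 1))) (h : {j | x j ≠ 0}.Infinite) :
    IsBlock (span F (range x)) := by
  refine ⟨fun n => x (Nat.nth (x · ≠ 0) n), fun n => Nat.nth_mem_of_infinite h n,
    fun n i hi j hj => lt_of_lt_of_le ((hx _).2 hi) ((ha.monotone
      (Nat.nth_strictMono h n.lt_succ_self)).trans ((hx _).1 hj)), le_antisymm (span_le.2 ?_)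
      (span_mono (range_comp_subset_range _ x))⟩
  rintro _ ⟨j, rfl⟩
  by_cases h0 : x j = 0
  · rw [h0]; exact zero_mem _
  · classical
    exact subset_span ⟨Nat.count (x · ≠ 0) j, congrArg x (Nat.nth_count h0)⟩

theorem ad_of {a : ℕ → ℕ} (ha : StrictMono a) {x : ℕ → ℕ →₀ F}
    (hx : ∀ j, x j ∈ Lo F (a (j + 1))) {Y : Submodule F (ℕ →₀ F)} {N : ℕ}
    (h : ∀ j ≥ N, x j ≠ 0 → x j ∉ Y ⊔ Lo F (a j)) :
    FiniteDimensional F (Y ⊓ span F (range x) : Submodule F _) := by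
  classical
  have hV : ∀ n, span F (x '' Iio n) ≤ Lo F (a n) := fun n => span_le.2 (by
    rintro _ ⟨j, hj, rfl⟩
    exact Lo_mono (ha.monotone hj) (hx j))
  have h1 : ∀ n, Y ⊓ span F (x '' Iio n) ≤ Lo F (a N) := by
    intro n
    induction n with
    | zero => simp
    | succ n ih =>
      rcases lt_or_ge n N with hn | hn
      · exact inf_le_right.trans ((hV _).trans (Lo_mono (ha.monotone hn)))
      rintro y ⟨hy, hy'⟩
      have h2 : Iio (n + 1) = insert n (Iio n) := by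
        ext i; simp only [mem_Iio, mem_insert_iff]; omega
      rw [h2, image_insert_eq] at hy'
      obtain ⟨c, u, hu, rfl⟩ := mem_span_insert.1 hy'
      by_cases hc : c • x n = 0
      · rw [hc, zero_add] at hy ⊢
        exact ih ⟨hy, hu⟩
      · rw [smul_eq_zero, not_or] at hc
        refine absurd ?_ (h n hn hc.2)
        have : x n = c⁻¹ • ((c • x n + u) - u) := by simp [smul_smul, hc.1]
        rw [this]
        exact smul_mem _ _ (sub_mem (mem_sup_left hy) (mem_sup_right (hV n hu)))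
  refine Submodule.finiteDimensional_of_le (S₂ := Lo F (a N)) ?_
  rintro y ⟨hy, hy'⟩
  obtain ⟨T, h2, h3⟩ := mem_span_finite_of_mem_span hy'
  obtain ⟨t, h4, rfl⟩ := Finset.subset_set_image_iff.1 (image_univ (f := x) ▸ h2)
  refine h1 (t.sup id + 1) ⟨hy, span_mono ?_ h3⟩
  rw [Finset.coe_image]
  exact image_mono fun j hj => Nat.lt_succ_of_le (Finset.le_sup (f := id) hj)

def dec (k : ℕ) : Finset ℕ × List ℕ := (Encodable.decode k).getD (∅, [])

def Valid (c : ℕ → ℕ →₀ F) (a : ℕ → ℕ) (M : ℕ → ℕ → Prop) (m j n : ℕ) : Prop :=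
  c n ∈ Hi F (a j) ⊓ Lo F (a (j + 1)) ∧ ∀ i, i ≤ m → ∀ n', M i n' → c n - c n' ∉ Lo F (a j)

def QQ (c : ℕ → ℕ →₀ F) (a : ℕ → ℕ) (MY : ℕ → Prop) (M : ℕ → ℕ → Prop) (m k : ℕ) : Prop :=
  m < (dec k).1.card ∧ ∀ j, j ∈ (dec k).1 →
    MY ((dec k).2.getD j 0) ∧ Valid c a M m j ((dec k).2.getD j 0)

theorem valid_iff {c : ℕ → ℕ →₀ F} (hc : Function.Surjective c) (T : Submodule F (ℕ →₀ F))
    (v : ℕ →₀ F) (m : ℕ) : (∀ n', c n' ∈ T → v - c n' ∉ Lo F m) ↔ v ∉ T ⊔ Lo F m := by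
  constructor
  · intro h h'
    obtain ⟨y, hy, z, hz, rfl⟩ := mem_sup.1 h'
    obtain ⟨n, rfl⟩ := hc y
    exact h n hy (by simpa using hz)
  · exact fun h n h1 h2 => h (mem_sup.2 ⟨_, h1, _, h2, by abel⟩)

theorem stage {c : ℕ → ℕ →₀ F} (hc : Function.Surjective c) {a : ℕ → ℕ} (ha : StrictMono a)
    (T : ℕ → Submodule F (ℕ →₀ F)) (g : ℕ → ℕ) {B₀ : Submodule F (ℕ →₀ F)} (hB : IsBlock B₀) :
    ∃ X, IsBlock X ∧ (X = B₀ ∨ ∀ i, FiniteDimensional F (T i ⊓ X : Submodule F _)) ∧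
      ∀ Y : Submodule F (ℕ →₀ F), (∃ᶠ m in atTop, QQ c a (c · ∈ Y) (fun i n => c n ∈ T i) m (g m)) →
        ¬ FiniteDimensional F (Y ⊓ X : Submodule F _) := by
  classical
  obtain ⟨sel, hs1, hs2⟩ : ∃ f : {m | m < (dec (g m)).1.card} → ℕ, Function.Injective f ∧
      ∀ m, f m ∈ (dec (g m.1)).1 := by
    refine (Finset.all_card_le_biUnion_card_iff_exists_injective _).1 fun s => ?_
    rcases s.eq_empty_or_nonempty with rfl | hs
    · simp
    obtain ⟨k, hk, hmax⟩ := Finset.exists_max_image s (fun k => k.1) hs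
    refine le_trans ?_ ((Nat.succ_le_of_lt k.2).trans (Finset.card_le_card
      (Finset.subset_biUnion_of_mem (fun k : {m | m < (dec (g m)).1.card} => (dec (g k.1)).1) hk)))
    rw [← Finset.card_range (k.1.succ)]
    exact Finset.card_le_card_of_injOn (fun k => k.1)
      (fun k' hk' => Finset.mem_coe.2 (Finset.mem_range.2 (Nat.lt_succ_of_le (hmax k' hk'))))
      Subtype.val_injective.injOn
  let R : ℕ → {m | m < (dec (g m)).1.card} → Prop := fun j m => sel m = j ∧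
    Valid c a (fun i n => c n ∈ T i) m.1 j ((dec (g m.1)).2.getD j 0)
  let x : ℕ → ℕ →₀ F := fun j =>
    if h : ∃ m, R j m then c ((dec (g h.choose.1)).2.getD j 0) else 0
  have hx : ∀ j, x j ∈ Hi F (a j) ⊓ Lo F (a (j + 1)) := fun j => by
    simp only [x]
    split_ifs with h
    exacts [h.choose_spec.2.1, zero_mem _]
  have hfin : ∀ N, ∃ N', ∀ m : {m | m < (dec (g m)).1.card}, N' ≤ m.1 → N ≤ sel m := fun N => by
    have h1 : (Subtype.val '' (sel ⁻¹' Iio N)).Finite :=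
      ((finite_Iio N).preimage hs1.injOn).image _
    obtain ⟨b, hb⟩ := h1.bddAbove
    exact ⟨b + 1, fun m hm => not_lt.1 fun h => by have := hb ⟨m, h, rfl⟩; omega⟩
  have hY : ∀ Y : Submodule F (ℕ →₀ F),
      (∃ᶠ m in atTop, QQ c a (c · ∈ Y) (fun i n => c n ∈ T i) m (g m)) →
      ∀ N, ∃ j ≥ N, x j ≠ 0 ∧ x j ∈ Y := by
    intro Y h N
    obtain ⟨N', hN'⟩ := hfin N
    obtain ⟨m, hm, h1, h2⟩ := frequently_atTop.1 h N'
    obtain ⟨h3, h4⟩ := h2 _ (hs2 ⟨m, h1⟩)
    have h5 : ∃ m', R (sel ⟨m, h1⟩) m' := ⟨⟨m, h1⟩, rfl, h4⟩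
    have h6 : h5.choose = ⟨m, h1⟩ := hs1 h5.choose_spec.1
    have h7 : x (sel ⟨m, h1⟩) = c ((dec (g m)).2.getD (sel ⟨m, h1⟩) 0) := by
      simp only [x, dif_pos h5, h6]
    refine ⟨_, hN' ⟨m, h1⟩ hm, ?_, h7 ▸ h3⟩
    rw [h7]
    intro h0
    exact (valid_iff hc (T 0) _ _).1 (h4.2 0 (Nat.zero_le _)) (h0 ▸ zero_mem _)
  by_cases hinf : {j | x j ≠ 0}.Infinite
  · refine ⟨_, block_of ha hx hinf, Or.inr fun i => ?_, fun Y h => not_fd fun N => ?_⟩
    · have h1 : (sel '' (Subtype.val ⁻¹' Iio i)).Finite :=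
        ((finite_Iio i).preimage Subtype.val_injective.injOn).image _
      obtain ⟨b, hb⟩ := h1.bddAbove
      refine ad_of ha (fun j => (hx j).2) (N := b + 1) fun j hj h0 => ?_
      have h2 : ∃ m, R j m := by
        by_contra h
        exact h0 (dif_neg h)
      have h3 : x j = c ((dec (g h2.choose.1)).2.getD j 0) := dif_pos h2
      rw [h3]
      refine (valid_iff hc (T i) _ _).1 (h2.choose_spec.2.2 i (not_lt.1 fun h => ?_))
      have := hb ⟨_, h, h2.choose_spec.1⟩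
      omega
    · obtain ⟨j, h1, h2, h3⟩ := hY Y h N
      exact ⟨x j, ⟨h3, subset_span ⟨j, rfl⟩⟩, Hi_mono (h1.trans ha.le_apply) (hx j).1, h2⟩
  · refine ⟨B₀, hB, Or.inl rfl, fun Y h _ => hinf (Set.infinite_of_forall_exists_gt fun N => ?_)⟩
    obtain ⟨j, h1, h2, -⟩ := hY Y h (N + 1)
    exact ⟨j, h2, h1⟩

theorem main [Countable F] (H : Diamond) : ∃ A : Set (Submodule F (ℕ →₀ F)),
    (∀ X ∈ A, IsBlock X) ∧ Mad A ∧ A.Infinite ∧ #A ≤ ℵ₁ := by
  classical
  obtain ⟨c, hc⟩ := exists_surjective_nat (ℕ →₀ F)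
  obtain ⟨a, ha, ha'⟩ := part H
  obtain ⟨π, hπ⟩ := ex_pi
  let B : ℕ → Submodule F (ℕ →₀ F) := fun i =>
    span F (range fun j => Finsupp.single (Nat.pair i j) (1 : F))
  have hB : ∀ i, IsBlock (B i) := fun i => ⟨_, fun n => by simp, fun n k hk j hj => by
    rw [Finsupp.support_single _ one_ne_zero, Finset.mem_singleton] at hk hj
    rw [hk, hj]
    exact Nat.pair_lt_pair_right _ n.lt_succ_self, rfl⟩
  have hB1 : ∀ i, B i ≤ Finsupp.supported F F {n | n.unpair.1 = i} := fun i => span_le.2 (by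
    rintro _ ⟨j, rfl⟩
    exact Finsupp.single_mem_supported F _ (by simp))
  have hB2 : ∀ i j, i ≠ j → B i ⊓ B j = ⊥ := fun i j h =>
    ((Finsupp.disjoint_supported_supported (Set.disjoint_left.2 fun n h1 h2 =>
      h (h1.symm.trans h2))).mono (hB1 i) (hB1 j)).eq_bot
  have hB3 : Function.Injective B := fun i j h => by
    by_contra hne
    have := hB2 i j hne
    rw [h, inf_idem] at this
    exact block_inf (hB j) (this ▸ inferInstance)
  have : ∀ δ : Om, ∃ e : ℕ → ℕ ⊕ Iio δ, Function.Surjective e := fun δ => by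
    have := (cnt (reg.init δ)).to_subtype
    exact exists_surjective_nat _
  choose e he using this
  obtain ⟨g, hg⟩ := H (fun δ h m => sInf {k | QQ c (a δ) (fun n => bit h (π (none, n)))
      (fun i n => (e δ i).elim (c n ∈ B ·) fun α => bit h (π (some α.1, n))) m k}) fun δ =>
    measurable_pi_lambda _ fun m => meas_inf fun k => measurable_const.and (.forall fun j =>
      measurable_const.imp ((meas_bit _ _).and (measurable_const.and (.forall fun i =>
        measurable_const.imp (.forall fun n => Measurable.imp (by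
          beta_reduce
          cases e δ i with
          | inl b => exact measurable_const
          | inr b => exact meas_bit _ _) measurable_const)))))
  obtain ⟨X, hX⟩ := TStar.rec_o (T := Om) (σ := Submodule F (ℕ →₀ F))
    (fun δ p X => IsBlock X ∧
      (X = B 0 ∨ ∀ i, FiniteDimensional F ((e δ i).elim B p ⊓ X : Submodule F _)) ∧
      ∀ Y : Submodule F (ℕ →₀ F), (∃ᶠ m in atTop, QQ c (a δ) (c · ∈ Y)
        (fun i n => c n ∈ (e δ i).elim B p) m (g δ m)) →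
        ¬ FiniteDimensional F (Y ⊓ X : Submodule F _))
    fun δ p _ => stage hc (ha δ) _ (g δ) (hB 0)
  let S : ℕ ⊕ Om → Submodule F (ℕ →₀ F) := Sum.elim B X
  have hblock : ∀ Z ∈ range S, IsBlock Z := by
    rintro _ ⟨i | i, rfl⟩
    exacts [hB i, (hX i).1]
  have hBB : ∀ i j, B i ≠ B j → FiniteDimensional F (B i ⊓ B j : Submodule F _) := fun i j h => by
    rw [hB2 i j fun h' => h (by rw [h'])]; infer_instance
  have hBX : ∀ i δ, B i ≠ X δ → FiniteDimensional F (B i ⊓ X δ : Submodule F _) := fun i δ h => by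
    rcases (hX δ).2.1 with h1 | h1
    · rw [h1] at h ⊢; exact hBB i 0 h
    · obtain ⟨k, hk⟩ := he δ (.inl i)
      have := h1 k
      rwa [hk] at this
  have hXX : ∀ α δ, α < δ → X α ≠ X δ → FiniteDimensional F (X α ⊓ X δ : Submodule F _) := by
    intro α δ hlt h
    rcases (hX δ).2.1 with h1 | h1
    · rw [h1] at h ⊢; rw [inf_comm]; exact hBX 0 α h.symm
    · obtain ⟨k, hk⟩ := he δ (.inr ⟨α, hlt⟩)
      have := h1 k
      rwa [hk] at this
  refine ⟨range S, hblock, ⟨⟨fun Z hZ => block_inf (hblock Z hZ), ?_⟩, fun A' hA' hsub => ?_⟩,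
    (infinite_range_of_injective hB3).mono (by rintro _ ⟨i, rfl⟩; exact ⟨.inl i, rfl⟩),
    mk_range_le.trans (by simpa using (add_eq_right aleph0_lt_aleph_one.le aleph0_lt_aleph_one.le).le)⟩
  · rintro _ ⟨i | i, rfl⟩ _ ⟨j | j, rfl⟩ h
    · exact hBB i j h
    · exact hBX i j h
    · rw [inf_comm]; exact hBX j i h.symm
    · rcases lt_trichotomy i j with h1 | rfl | h1
      · exact hXX i j h1 h
      · exact absurd rfl h
      · rw [inf_comm]; exact hXX j i h1 h.symm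
  refine Subset.antisymm (fun Y hY => ?_) hsub
  by_contra hYA
  have hAD : ∀ k, FiniteDimensional F (S k ⊓ Y : Submodule F _) := fun k =>
    hA'.2 (hsub ⟨k, rfl⟩) hY fun h => hYA ⟨k, h⟩
  choose l y hy1 hy2 hy3 using fun s : Finset (ℕ ⊕ Om) => pick (hA'.1 Y hY) s S hAD
  choose ξ hξ using fun s => ha' (l s)
  obtain ⟨f, hf⟩ := code hπ fun z => c z.2 ∈ z.1.elim Y X
  obtain ⟨b, hb⟩ := reg.bdd_nat fun n => π (none, n)
  have : ∀ β : Om, ∃ γ, (∀ n, π (some β, n) < γ) ∧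
      ∀ s : Finset (ℕ ⊕ Om), (∀ α, .inr α ∈ s → α ≤ β) → ξ s < γ := fun β => by
    have h1 : {s : Finset (ℕ ⊕ Om) | ∀ α, .inr α ∈ s → α ≤ β}.Countable := by
      have h2 : (range Sum.inl ∪ Sum.inr '' Iic β : Set (ℕ ⊕ Om)).Countable :=
        (countable_range _).union ((cnt (reg.init_le β)).image _)
      refine ((Set.countable_ofPred_finite_subset h2).preimage_of_injOn
        (f := fun t : Finset (ℕ ⊕ Om) => (t : Set (ℕ ⊕ Om)))
        (fun _ _ _ _ h => Finset.coe_injective h)).mono fun t ht => And.intro t.finite_toSet ?_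
      rintro (i | i) hi
      exacts [Or.inl ⟨i, rfl⟩, Or.inr ⟨i, ht i hi, rfl⟩]
    obtain ⟨γ, hγ⟩ := reg.bdd_countable
      ((countable_range fun n => π (some β, n)).union (h1.image ξ))
    exact ⟨γ, fun n => hγ _ (Or.inl ⟨n, rfl⟩), fun s hs => hγ _ (Or.inr ⟨s, hs, rfl⟩)⟩
  choose ψ hψ1 hψ2 using this
  obtain ⟨δ, h1, h2, h3⟩ := hg f (Stat.isClub_closure reg ψ b)
  have e1 : (fun n => bit (fun β : Iio δ => f β) (π (none, n))) = (c · ∈ Y) :=
    funext fun n => propext (hf δ _ ((hb n).trans h2))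
  have e2 : (fun i n => (e δ i).elim (c n ∈ B ·)
      fun α => bit (fun β : Iio δ => f β) (π (some α.1, n))) =
      fun i n => c n ∈ (e δ i).elim B fun β : Iio δ => X β := by
    funext i n
    cases e δ i with
    | inl k => rfl
    | inr α => exact propext (hf δ _ ((hψ1 α n).trans (h3 α α.2)))
  simp only [mem_ofPred_eq, e1, e2] at h1
  have := hAD (.inr δ)
  rw [inf_comm] at this
  refine (hX δ).2.2 Y (h1.mono fun m hm => ?_) this
  rw [← hm]
  refine Nat.sInf_mem (s := {k | QQ c (a δ) (c · ∈ Y) _ m k}) ?_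
  let s : Finset (ℕ ⊕ Om) := (Finset.range (m + 1)).image fun i => (e δ i).map id Subtype.val
  have h4 : ξ s ≤ δ := by
    have : Nonempty (Iio δ) := ⟨⟨b, h2⟩⟩
    obtain ⟨β, hβ⟩ := Finset.exists_le ((Finset.range (m + 1)).image
      fun i => (e δ i).elim (fun _ => (⟨b, h2⟩ : Iio δ)) id)
    refine ((hψ2 β s fun α hα => ?_).trans (h3 β β.2)).le
    obtain ⟨i, hi, h5⟩ := Finset.mem_image.1 hα
    have := hβ _ (Finset.mem_image_of_mem _ hi)
    cases h6 : e δ i with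
    | inl k => simp [h6] at h5
    | inr α' =>
      rw [h6] at h5 this
      obtain rfl : α'.1 = α := by simpa using h5
      exact this
  obtain ⟨P, hP1, hP2⟩ := (Nat.frequently_atTop_iff_infinite.1 (hξ s δ h4)).exists_subset_card_eq
    (m + 1)
  choose n hn using fun j => hc (y s (a δ j))
  have h5 : dec (Encodable.encode (P, (List.range (P.sup id + 1)).map n)) =
      (P, (List.range (P.sup id + 1)).map n) := by
    simp only [dec, Encodable.encodek, Option.getD_some]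
  refine ⟨Encodable.encode (P, (List.range (P.sup id + 1)).map n), ?_, fun j hj => ?_⟩
  · rw [h5]; simp [hP2]
  · rw [h5] at hj ⊢
    have h6 : j < P.sup id + 1 := Nat.lt_succ_of_le (Finset.le_sup (f := id) hj)
    have h7 : ((List.range (P.sup id + 1)).map n).getD j 0 = n j := by simp [h6]
    simp only [h7]
    refine ⟨by rw [hn]; exact hy1 _ _, ?_, fun i hi => (valid_iff hc _ _ _).2 ?_⟩
    · rw [hn]; exact ⟨(hy2 _ _).1, Lo_mono (hP1 hj) (hy2 _ _).2⟩
    · rw [hn]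
      have := hy3 s (a δ j) _ (Finset.mem_image_of_mem _ (Finset.mem_range.2 (Nat.lt_succ_of_le hi)))
      cases h8 : e δ i <;> rw [h8] at this <;> exact this

theorem one_le {A : Set (Submodule F (ℕ →₀ F))} (h : Mad A) (h' : A.Infinite) : ℵ₁ ≤ #A := by
  refine le_trans ?_ (Vec1.main h h'.nontrivial)
  refine le_csInf ⟨_, Set.univ, ?_, rfl⟩ ?_
  · intro h
    rw [IsMeagre, compl_univ] at h
    exact (dense_of_mem_residual h).nonempty.ne_empty rfl
  · rintro _ ⟨X, hX, rfl⟩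
    rw [← succ_aleph0]
    exact (Order.succ_le_of_lt aleph0_lt_b).trans (b_le hX)

theorem final (F : Type) [Field F] [Countable F] (H : Diamond) :
    (∃ A : Set (Submodule F (ℕ →₀ F)), BlockMad A ∧ Mad A ∧ #A = ℵ₁) ∧ aVec F = ℵ₁ := by
  obtain ⟨A, h1, h2, h3, h4⟩ := main (F := F) H
  refine ⟨⟨A, ⟨⟨h1, h2.1.2⟩, fun B hB h => h2.2 B ⟨fun X hX => block_inf (hB.1 X hX), hB.2⟩ h⟩,
    h2, le_antisymm h4 (one_le h2 h3)⟩, le_antisymm ((csInf_le' (s := {c | ∃ A : Set
      (Submodule F (ℕ →₀ F)), A.Infinite ∧ Mad A ∧ #A = c}) ⟨A, h3, h2, rfl⟩).trans h4)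
      (le_csInf ⟨_, A, h3, h2, rfl⟩ ?_)⟩
  rintro _ ⟨B, h5, h6, rfl⟩
  exact one_le h6 h5

end Pool.Agent.H42.Vdia1
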