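import Pool.Agent.H42.NnrDefs
import Pool.Agent.H42.Half1
import Pool.Agent.H42.Vdia1

namespace Pool.Agent.H42.Nnr1
open Cardinal Set Filter Pool.Agent.H42.HalfDefs Pool.Agent.H42.NnrDefs Pool.Agent.H42.VdiaDefs
open Pool.Agent.H42.Vdia1 Pool.Agent.H42.Half1

structure GN (P : Type) [Preorder P] (Y : Type) where
  D : P → Y → Prop
  mono : ∀ {p q : P} {k : Y}, q ≤ p → D p k → D q k
  uniq : ∀ {p : P} {k j : Y}, D p k → D p j → k = j
  dense : ∀ p : P, ∃ q ≤ p, ∃ k, D q k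

theorem decide_all {P : Type} [Preorder P] (hP : NoNewReals P) {Y I : Type} [Countable I]
    (hY : #Y ≤ 𝔠) (u : I → GN P Y) (p : P) :
    ∃ q ≤ p, ∃ y : I → Y, ∀ i, ∀ r ≤ q, ∀ z, (u i).D r z → z = y i := by
  obtain ⟨code⟩ : Nonempty (Y ↪ Set ℕ) := (Cardinal.le_def _ _).1 (by simpa using hY)
  obtain ⟨e, he⟩ := Countable.exists_injective_nat (I × ℕ)
  obtain ⟨q, hq, h⟩ := hP (fun n => {a | ∃ i j z, e (i, j) = n ∧ (u i).D a z ∧ j ∈ code z}) p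
  have key : ∀ i, ∀ r ≤ q, ∀ r' ≤ q, ∀ z z', (u i).D r z → (u i).D r' z' → code z ⊆ code z' := by
    intro i r hr r' hr' z z' h1 h2 j hj
    rcases h (e (i, j)) with h3 | h3
    · obtain ⟨s, h4, a, ⟨i', j', z'', h5, h6, h7⟩, h8⟩ := h3 r' hr'
      obtain ⟨rfl, rfl⟩ := Prod.mk.inj (he h5)
      rwa [(u i').uniq ((u i').mono h4 h2) ((u i').mono h8 h6)]
    · exact absurd le_rfl (h3 r hr r ⟨i, j, z, rfl, h1, hj⟩)
  choose r hr y hy using fun i => (u i).dense q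
  exact ⟨q, hq, y, fun i s hs z hz => code.injective
    (Subset.antisymm (key i s hs _ (hr i) _ _ hz (hy i)) (key i _ (hr i) s hs _ _ (hy i) hz))⟩

abbrev St := Set Om × ℝ

def Ext (G : Om → St) (c c' : Om × ℚ) : Prop :=
  c.1 ∈ (G c'.1).1 ∧ (G c'.1).2 < c'.2 ∧ c'.2 < c.2

open Classical in
noncomputable def sq (G : Om → St) (e : ℕ → Om × ℚ) (x : ℕ → ℕ) : ℕ → Om × ℚ
  | 0 => ((e 0).1, ((⌊(G (e 0).1).2⌋ + 1 : ℤ) : ℚ))
  | k + 1 => if Ext G (sq G e x k) (e (x k)) then e (x k) else sq G e x k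

noncomputable def cand (G : Om → St) (e : ℕ → Om × ℚ) (x : ℕ → ℕ) : St :=
  (⋃ k, insert (sq G e x k).1 (G (sq G e x k).1).1, ⨅ k, ((sq G e x k).2 : ℝ))

theorem sq_mem (G : Om → St) (e : ℕ → Om × ℚ) (x : ℕ → ℕ) (k : ℕ) :
    ∃ j, (sq G e x k).1 = (e j).1 := by
  induction k with
  | zero => exact ⟨0, rfl⟩
  | succ k ih => rw [sq]; split_ifs; exacts [⟨_, rfl⟩, ih]

theorem sq_congr {G G' : Om → St} {e : ℕ → Om × ℚ} (h : ∀ j, G (e j).1 = G' (e j).1) (x : ℕ → ℕ)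
    (k : ℕ) : sq G e x k = sq G' e x k := by
  induction k with
  | zero => simp only [sq, h]
  | succ k ih =>
    have : Ext G (sq G' e x k) (e (x k)) = Ext G' (sq G' e x k) (e (x k)) := by
      simp only [Ext, h]
    rw [sq, sq, ih, this]

theorem cand_congr {G G' : Om → St} {e : ℕ → Om × ℚ} (h : ∀ j, G (e j).1 = G' (e j).1)
    (x : ℕ → ℕ) : cand G e x = cand G' e x := by
  have : ∀ k, G (sq G' e x k).1 = G' (sq G' e x k).1 := fun k => by
    obtain ⟨j, hj⟩ := sq_mem G' e x k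
    rw [hj, h]
  simp only [cand, sq_congr h, this]

theorem sq_loc (G : Om → St) (e : ℕ → Om × ℚ) {x y : ℕ → ℕ} (k : ℕ) (h : ∀ i < k, x i = y i) :
    sq G e x k = sq G e y k := by
  induction k with
  | zero => rfl
  | succ k ih => rw [sq, sq, ih fun i hi => h i (by omega), h k k.lt_succ_self]

def Valid (G : Om → St) (α : Om) (s : St) : Prop :=
  (∀ β ∈ s.1, β < α ∧ (G β).1 ⊆ s.1 ∧ (G β).2 < s.2) ∧
    ∀ β ∈ s.1, ∀ γ ∈ s.1, β < γ → β ∈ (G γ).1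

theorem valid_congr {G G' : Om → St} {α : Om} (h : ∀ β < α, G β = G' β) {s : St}
    (hs : Valid G α s) : Valid G' α s :=
  ⟨fun β hβ => h β (hs.1 β hβ).1 ▸ hs.1 β hβ, fun β hβ γ hγ h' =>
    h γ (hs.1 γ hγ).1 ▸ hs.2 β hβ γ hγ h'⟩

theorem build {X : Set (ℕ → ℕ)} (hX : #X ≤ ℵ₁) (e : Om → ℕ → Om × ℚ)
    (he : ∀ δ, (∃ i, i < δ) → ∀ j, (e δ j).1 < δ) :
    ∃ G : Om → St, (∀ α, Valid G α (G α)) ∧
      (∀ β (r : ℚ), (G β).2 < r → ∃ α, G α = (insert β (G β).1, (r : ℝ))) ∧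
      ∀ δ, (∃ i, i < δ) → ∀ x ∈ X, (∀ α ≥ δ, Valid G α (cand G (e δ) x)) →
        ∃ α, G α = cand G (e δ) x := by
  classical
  obtain ⟨τ, hτ⟩ : ∃ τ : Om → (Om × (ℚ ⊕ X)) × Om, Function.Surjective τ := by
    have h1 : ℵ₀ ≤ ℵ₁ := aleph0_lt_aleph_one.le
    have : #((Om × (ℚ ⊕ X)) × Om) ≤ #Om := by
      simp only [mk_prod, lift_id, mk_sum, mkOm, mk_eq_aleph0]
      exact mul_le_of_le h1 (mul_le_of_le h1 le_rfl (add_le_of_le h1 h1 hX)) le_rfl
    obtain ⟨f⟩ := (Cardinal.le_def _ _).1 this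
    have := reg.nonempty
    exact ⟨_, Function.invFun_surjective f.injective⟩
  have hτ' : ∀ z b, ∃ α, b < α ∧ (τ α).1 = z := fun z b => by
    choose σ hσ using fun w => hτ (z, w)
    obtain ⟨_, ⟨w, rfl⟩, h⟩ := reg.unbdd_of_card (s := range σ) (by
      rw [mk_range_eq _ fun w w' h => (Prod.mk.inj ((hσ w).symm.trans (h ▸ hσ w'))).2]
      exact lt_irrefl _) b
    exact ⟨_, h, by rw [hσ]⟩
  let cd : (Om → St) → Om × (ℚ ⊕ X) → St := fun G z =>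
    z.2.elim (fun r : ℚ => (insert z.1 (G z.1).1, (r : ℝ))) fun x : X => cand G (e z.1) x.1
  let ex : ∀ α, (Iio α → St) → Om → St := fun α g β => if h : β < α then g ⟨β, h⟩ else (∅, 0)
  obtain ⟨G, hG⟩ := TStar.rec_o (T := Om) (σ := St) (fun α g s => Valid (ex α g) α s ∧
    (Valid (ex α g) α (cd (ex α g) (τ α).1) → s = cd (ex α g) (τ α).1)) fun α g _ => by
      by_cases h : Valid (ex α g) α (cd (ex α g) (τ α).1)
      · exact ⟨_, h, fun _ => rfl⟩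
      · exact ⟨(∅, 0), ⟨by simp, by simp⟩, fun h' => absurd h' h⟩
  have hex : ∀ α, ∀ β < α, ex α (fun β => G β) β = G β := fun α β h => dif_pos h
  have hV : ∀ α, Valid G α (G α) := fun α => valid_congr (hex α) (hG α).1
  refine ⟨G, hV, fun β r hr => ?_, fun δ hδ x hx hv => ?_⟩
  · obtain ⟨α, h1, h2⟩ := hτ' (β, .inl r) β
    have h3 : cd (ex α fun β => G β) (τ α).1 = (insert β (G β).1, (r : ℝ)) := by
      rw [h2]; simp only [cd, Sum.elim_inl, hex α β h1]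
    refine ⟨α, ((hG α).2 ?_).trans h3⟩
    rw [h3]
    refine valid_congr (fun β h => (hex α β h).symm) ⟨?_, ?_⟩
    · rintro γ (rfl | hγ)
      · exact ⟨h1, subset_insert _ _, hr⟩
      · obtain ⟨h4, h5, h6⟩ := (hV β).1 γ hγ
        exact ⟨h4.trans h1, h5.trans (subset_insert _ _), h6.trans hr⟩
    · rintro γ (rfl | hγ) γ' (rfl | hγ') h
      · exact absurd h (lt_irrefl _)
      · exact absurd h ((hV γ).1 γ' hγ').1.not_gt
      · exact hγ
      · exact (hV β).2 γ hγ γ' hγ' h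
  · obtain ⟨α, h1, h2⟩ := hτ' (δ, .inr ⟨x, hx⟩) δ
    have h3 : cd (ex α fun β => G β) (τ α).1 = cand G (e δ) x := by
      rw [h2]
      exact cand_congr (fun j => hex α _ ((he δ hδ j).trans h1)) x
    refine ⟨α, ((hG α).2 ?_).trans h3⟩
    rw [h3]
    exact valid_congr (fun β h => (hex α β h).symm) (hv α h1.le)

theorem core {X : Set (ℕ → ℕ)} (hX : #X ≤ ℵ₁) (hm : ¬ IsMeagre X) :
    ∃ G : Om → St, (∀ α, Valid G α (G α)) ∧ ∀ (P : Type) [Preorder P], Nonempty P →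
      NoNewReals P → ∀ f : Om → NName P,
        ¬ ∀ s t, s ∈ (G t).1 → ∀ p k, (f s).D p k → ¬ (f t).D p k := by
  classical
  have hne := reg.nonempty
  have : ∀ δ : Om, ∃ e : ℕ → Om × ℚ, (∃ i, i < δ) →
      (∀ j, (e j).1 < δ) ∧ ∀ c : Om × ℚ, c.1 < δ → ∃ j, e j = c := fun δ => by
    by_cases h : ∃ i, i < δ
    · obtain ⟨e, he⟩ := ((cnt (reg.init δ)).prod (countable_univ (α := ℚ))).exists_eq_range
        ⟨(h.choose, 0), h.choose_spec, trivial⟩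
      exact ⟨e, fun _ => ⟨fun j => (he.ge ⟨j, rfl⟩).1, fun c hc => he.le ⟨hc, trivial⟩⟩⟩
    · exact ⟨fun _ => (δ, 0), fun h' => absurd h' h⟩
  choose e he using this
  obtain ⟨G, hV, hS, hL⟩ := build hX e fun δ h => (he δ h).1
  refine ⟨G, hV, fun P _ ⟨p⟩ hP f hf => ?_⟩
  choose! su hsu using hS
  have : ∀ (s : Om) (z : ℚ × ℕ), ∃ w : GN P Om, ∀ r β, w.D r β →
      (s ∈ (G β).1 ∧ (G β).2 < z.1 ∧ (f β).D r z.2) ∨
      (β = s ∧ ∀ γ, s ∈ (G γ).1 → (G γ).2 < z.1 → ¬ (f γ).D r z.2) := by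
    intro s z
    obtain ⟨A, hA1, hA⟩ := exists_AC {a : P | ∃ β, (s ∈ (G β).1 ∧ (G β).2 < z.1 ∧ (f β).D a z.2) ∨
      (β = s ∧ ∀ γ, s ∈ (G γ).1 → (G γ).2 < z.1 → ∀ r ≤ a, ¬ (f γ).D r z.2)} fun p => by
        by_cases h : ∀ γ, s ∈ (G γ).1 → (G γ).2 < z.1 → ∀ r ≤ p, ¬ (f γ).D r z.2
        · exact ⟨p, le_rfl, s, Or.inr ⟨rfl, h⟩⟩
        · push Not at h
          obtain ⟨γ, h1, h2, r, h3, h4⟩ := h
          exact ⟨r, h3, γ, Or.inl ⟨h1, h2, h4⟩⟩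
    choose! wit hw using fun a (ha : a ∈ A) => hA1 ha
    refine ⟨⟨fun r β => ∃ a ∈ A, r ≤ a ∧ β = wit a, fun h ⟨a, h1, h2, h3⟩ => ⟨a, h1, h.trans h2, h3⟩,
      fun ⟨a, h1, h2, h3⟩ ⟨b, h4, h5, h6⟩ => by rw [h3, h6, hA.anti a h1 b h4 _ h2 h5],
      fun p => ?_⟩, ?_⟩
    · obtain ⟨a, h1, q, h2, h3⟩ := hA.pre p
      exact ⟨q, h2, _, a, h1, h3, rfl⟩
    · rintro r β ⟨a, h1, h2, rfl⟩
      exact (hw a h1).imp (fun h => ⟨h.1, h.2.1, (f _).mono h2 h.2.2⟩)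
        fun h => ⟨h.1, fun γ h3 h4 => h.2 γ h3 h4 r h2⟩
  choose w hw using this
  let cs : Om → GN P Om := fun β => ⟨fun _ γ => γ = β, fun _ h => h, fun h h' => h.trans h'.symm,
    fun p => ⟨p, le_rfl, β, rfl⟩⟩
  let F : ℕ ⊕ ℚ ⊕ ℚ × ℕ → Om → GN P Om := fun o s =>
    o.elim (fun j => cs (e s j).1) fun o => o.elim (fun r => cs (su s r)) (w s)
  let cp : GN P Om → (Om → GN P Om) → GN P Om := fun u F =>
    ⟨fun p β => ∃ α, u.D p α ∧ (F α).D p β,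
      fun h ⟨α, h1, h2⟩ => ⟨α, u.mono h h1, (F α).mono h h2⟩,
      fun ⟨α, h1, h2⟩ ⟨α', h3, h4⟩ => (F α).uniq h2 (u.uniq h3 h1 ▸ h4), fun p => by
        obtain ⟨q, h1, α, h2⟩ := u.dense p
        obtain ⟨r, h3, β, h4⟩ := (F α).dense q
        exact ⟨r, h3.trans h1, β, α, u.mono h3 h2, h4⟩⟩
  obtain ⟨val, hv1⟩ : ∃ val : List (ℕ ⊕ ℚ ⊕ ℚ × ℕ) → GN P Om,
      ∀ o t, val (o :: t) = cp (val t) (F o) :=
    ⟨fun t => List.rec (cs (Classical.arbitrary _)) (fun o _ u => cp u (F o)) t, fun _ _ => rfl⟩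
  obtain ⟨q, -, y, hy⟩ := decide_all hP (Y := Om × ℕ)
    (by simpa using mul_le_of_le aleph0_le_continuum aleph_one_le_continuum aleph0_le_continuum)
    (fun t => ⟨fun p z => (val t).D p z.1 ∧ (f z.1).D p z.2,
      fun h h' => ⟨(val t).mono h h'.1, (f _).mono h h'.2⟩, fun {_ k j} h h' => by
        have h1 := (val t).uniq h.1 h'.1
        exact Prod.ext h1 ((f _).uniq h.2 (h1 ▸ h'.2)), fun p => by
        obtain ⟨q, h1, α, h2⟩ := (val t).dense p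
        obtain ⟨r, h3, k, h4⟩ := (f α).dense q
        exact ⟨r, h3.trans h1, (α, k), (val t).mono h3 h2, h4⟩⟩) p
  have hy1 : ∀ t, ∀ r ≤ q, ∀ β, (val t).D r β → β = (y t).1 := fun t r hr β h => by
    obtain ⟨r', h1, k, h2⟩ := (f β).dense r
    exact congrArg Prod.fst (hy t r' (h1.trans hr) (β, k) ⟨(val t).mono h1 h, h2⟩)
  have hy2 : ∀ t, ∀ r ≤ q, ∀ k, (f (y t).1).D r k → k = (y t).2 := fun t r hr k h => by
    obtain ⟨r', h1, β, h2⟩ := (val t).dense r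
    obtain rfl := hy1 t r' (h1.trans hr) β h2
    exact congrArg Prod.snd (hy t r' (h1.trans hr) (_, k) ⟨h2, (f _).mono h1 h⟩)
  have hy3 : ∀ o t, ∀ r ≤ q, ∃ r' ≤ r, (F o (y t).1).D r' (y (o :: t)).1 := fun o t r hr => by
    obtain ⟨r', h1, β, h2⟩ := (val (o :: t)).dense r
    obtain rfl := hy1 _ r' (h1.trans hr) β h2
    rw [hv1] at h2
    obtain ⟨α, h3, h4⟩ := h2
    obtain rfl := hy1 _ r' (h1.trans hr) α h3
    exact ⟨r', h1, h4⟩
  obtain ⟨b, hb⟩ := reg.bdd_countable (countable_range fun t => (y t).1)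
  obtain ⟨δ, hδ1, hδ2⟩ := (wellFounded_lt (α := Om)).has_min (range fun t => (y t).1)ᶜ
    ⟨b, fun h => lt_irrefl _ (hb b h)⟩
  have hM1 : ∀ t, (y t).1 < δ := fun t => by
    by_contra h
    have h1 : δ < (y t).1 := lt_of_le_of_ne (not_lt.1 h) fun h' => hδ1 ⟨t, h'.symm⟩
    obtain ⟨j, hj⟩ := (he _ ⟨δ, h1⟩).2 (δ, 0) h1
    obtain ⟨r, -, h2⟩ := hy3 (.inl j) t q le_rfl
    exact hδ1 ⟨_, h2.trans (congrArg Prod.fst hj)⟩
  have hM2 : ∀ β < δ, ∃ t, (y t).1 = β := fun β h => by_contra fun h' => hδ2 β h' h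
  have hδ : ∃ i, i < δ := ⟨_, hM1 []⟩
  let D : ℕ → Om × ℚ → Prop := fun n c => (∃ t, (y t).1 = c.1 ∧ (y t).2 = n) ∨
    ∀ γ, c.1 ∈ (G γ).1 → (G γ).2 < c.2 → ∀ r ≤ q, ¬ (f γ).D r n
  have hD : ∀ n (c : Om × ℚ), c.1 < δ → (G c.1).2 < c.2 →
      ∃ c' : Om × ℚ, c'.1 < δ ∧ Ext G c c' ∧ D n c' := by
    intro n c h1 h2
    obtain ⟨t, ht⟩ := hM2 _ h1
    obtain ⟨r, h3, h4⟩ := hy3 (.inr (.inr (c.2, n))) t q le_rfl
    rw [ht] at h4
    rcases hw _ _ _ _ h4 with ⟨h5, h6, h7⟩ | ⟨h5, -⟩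
    · obtain ⟨u, h8, h9⟩ := exists_rat_btwn h6
      exact ⟨(_, u), hM1 _, ⟨h5, h8, by exact_mod_cast h9⟩,
        Or.inl ⟨_, rfl, (hy2 _ r h3 n h7).symm⟩⟩
    · obtain ⟨u, h8, h9⟩ := exists_rat_btwn h2
      obtain ⟨u', h10, h11⟩ := exists_rat_btwn h9
      obtain ⟨r', -, h12⟩ := hy3 (.inr (.inl u)) t q le_rfl
      have h13 : (y (.inr (.inl u) :: t)).1 = su c.1 u := ht ▸ h12
      have h14 : c.1 ∈ (G (su c.1 u)).1 := by rw [hsu _ _ h8]; exact mem_insert _ _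
      refine ⟨(su c.1 u, u'), h13 ▸ hM1 _, ⟨h14, by rw [hsu _ _ h8]; exact h10,
        by exact_mod_cast h11⟩, Or.inr fun γ h15 h16 s hs h17 => ?_⟩
      obtain ⟨s', h18, h19⟩ := hy3 (.inr (.inr (c.2, n))) t s hs
      rw [ht, h5] at h19
      rcases hw _ _ _ _ h19 with h20 | h20
      · exact lt_irrefl _ ((hV _).1 _ h20.1).1
      · exact h20.2 γ (((hV γ).1 _ h15).2.1 h14) (h16.trans h11) ((f γ).mono h18 h17)
  have hs1 : ∀ x k, (sq G (e δ) x k).1 < δ := fun x k => by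
    obtain ⟨j, hj⟩ := sq_mem G (e δ) x k
    rw [hj]; exact (he δ hδ).1 j
  have hs2 : ∀ x k, (G (sq G (e δ) x k).1).2 < (sq G (e δ) x k).2 := fun x k => by
    induction k with
    | zero => simp [sq]
    | succ k ih => rw [sq]; split_ifs with h; exacts [h.2.1, ih]
  have hres : (⋂ n, {x | ∃ k, n ≤ k ∧ Ext G (sq G (e δ) x k) (sq G (e δ) x (k + 1)) ∧
      D n.unpair.1 (sq G (e δ) x (k + 1))}) ∈ residual (ℕ → ℕ) := by
    refine countable_iInter_mem.2 fun n => residual_of_dense_open ?_ ?_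
    · refine isOpen_iff_forall_mem_open.2 fun x ⟨k, h1, h2⟩ => ⟨PiNat.cylinder x (k + 1),
        fun z hz => ⟨k, h1, ?_⟩, PiNat.isOpen_cylinder _ _ _, PiNat.self_mem_cylinder _ _⟩
      rwa [sq_loc G _ (k + 1) hz, sq_loc G _ k fun i hi => hz i (by omega)]
    · refine (PiNat.isTopologicalBasis_cylinders fun _ => ℕ).dense_iff.2 ?_
      rintro _ ⟨z, N, rfl⟩ -
      obtain ⟨c', h1, h2, h3⟩ := hD n.unpair.1 _ (hs1 z (max n N)) (hs2 z _)
      obtain ⟨j, rfl⟩ := (he δ hδ).2 c' h1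
      have h4 : sq G (e δ) (Function.update z (max n N) j) (max n N) = sq G (e δ) z (max n N) :=
        sq_loc G _ _ fun i hi => Function.update_of_ne hi.ne _ _
      refine ⟨Function.update z (max n N) j, fun i hi => Function.update_of_ne
        (hi.trans_le (le_max_right _ _)).ne _ _, max n N, le_max_left _ _, ?_⟩
      rw [sq, h4, Function.update_self, if_pos h2]
      exact ⟨h2, h3⟩
  obtain ⟨x, hx, hx'⟩ : ∃ x ∈ X, x ∈ ⋂ n, {x | ∃ k, n ≤ k ∧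
      Ext G (sq G (e δ) x k) (sq G (e δ) x (k + 1)) ∧ D n.unpair.1 (sq G (e δ) x (k + 1))} := by
    by_contra hc
    exact hm (mem_of_superset hres fun x h1 h2 => hc ⟨x, h2, h1⟩)
  let c := sq G (e δ) x
  have hc1 : ∀ k k', k ≤ k' → c k = c k' ∨ Ext G (c k) (c k') := by
    intro k k' h
    induction k', h using Nat.le_induction with
    | base => exact Or.inl rfl
    | succ k' _ ih =>
      by_cases h : Ext G (c k') (e δ (x k'))
      · rw [show c (k' + 1) = e δ (x k') from if_pos h]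
        rcases ih with ih | ih
        · exact Or.inr (ih ▸ h)
        · exact Or.inr ⟨((hV _).1 _ h.1).2.1 ih.1, h.2.1, h.2.2.trans ih.2.2⟩
      · rwa [show c (k' + 1) = c k' from if_neg h]
  have hc2 : ∀ k, ∃ k', Ext G (c k) (c k') := fun k => by
    obtain ⟨k', h1, h2, -⟩ := mem_iInter.1 hx' k
    refine ⟨k' + 1, ?_⟩
    rcases hc1 k k' h1 with h | h
    · exact h ▸ h2
    · exact ⟨((hV _).1 _ h2.1).2.1 h.1, h2.2.1, h2.2.2.trans h.2.2⟩
  have hc3 : ∀ k j, (G (c k).1).2 < (c j).2 := fun k j => by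
    rcases le_total k j with h | h <;> rcases hc1 _ _ h with h | h
    · exact h ▸ hs2 x k
    · exact ((hV _).1 _ h.1).2.2.trans h.2.1
    · exact h ▸ hs2 x j
    · exact h.2.1.trans (by exact_mod_cast h.2.2)
  have hc4 : ∀ k, (G (c k).1).2 < ⨅ j, ((c j).2 : ℝ) := fun k => by
    obtain ⟨k', h⟩ := hc2 k
    exact ((hV _).1 _ h.1).2.2.trans_le (le_ciInf fun j => (hc3 k' j).le)
  have hc5 : ∀ k, ⨅ j, ((c j).2 : ℝ) < (c k).2 := fun k => by
    obtain ⟨k', h⟩ := hc2 k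
    exact (ciInf_le ⟨_, by rintro _ ⟨j, rfl⟩; exact (hc3 0 j).le⟩ k').trans_lt
      (by exact_mod_cast h.2.2)
  have hc6 : ∀ β ∈ (cand G (e δ) x).1, ∀ N, ∃ k ≥ N, β ∈ (G (c k).1).1 := fun β hβ N => by
    obtain ⟨k, hk⟩ := mem_iUnion.1 hβ
    obtain ⟨k', h1, h2, -⟩ := mem_iInter.1 hx' (max k N)
    refine ⟨k' + 1, by omega, ?_⟩
    have h3 : (c k).1 ∈ (G (c (k' + 1)).1).1 := by
      rcases hc1 k k' (by omega) with h | h
      · exact h ▸ h2.1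
      · exact ((hV _).1 _ h2.1).2.1 h.1
    rcases hk with rfl | hk
    exacts [h3, ((hV _).1 _ h3).2.1 hk]
  obtain ⟨α, hα⟩ := hL δ hδ x hx fun α hα => ⟨fun β hβ => by
    obtain ⟨k, -, h⟩ := hc6 β hβ 0
    obtain ⟨h1, h2, h3⟩ := (hV _).1 β h
    exact ⟨h1.trans ((hs1 x k).trans_le hα), h2.trans ((subset_insert _ _).trans
      (subset_iUnion (fun k => insert (c k).1 (G (c k).1).1) k)), h3.trans (hc4 k)⟩,
    fun β hβ γ hγ h => by
      obtain ⟨k, -, h1⟩ := hc6 β hβ 0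
      obtain ⟨k', h2, h3⟩ := hc6 γ hγ k
      refine (hV (c k').1).2 β ?_ γ h3 h
      rcases hc1 k k' h2 with h4 | h4
      exacts [h4 ▸ h1, ((hV _).1 _ h4.1).2.1 h1]⟩
  obtain ⟨r, hr, n, hn⟩ := (f α).dense q
  obtain ⟨k, -, -, h1⟩ := mem_iInter.1 hx' (Nat.pair n 0)
  rw [Nat.unpair_pair] at h1
  have h2 : (c (k + 1)).1 ∈ (G α).1 := by
    rw [hα]; exact mem_iUnion.2 ⟨k + 1, mem_insert _ _⟩
  rcases h1 with ⟨t, h3, h4⟩ | h1
  · obtain ⟨r', h5, m, h6⟩ := (f (y t).1).dense r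
    obtain rfl := (hy2 t r' (h5.trans hr) m h6).trans h4
    exact hf _ α (h3 ▸ h2) r' m h6 ((f α).mono h5 hn)
  · exact h1 α h2 (by rw [hα]; exact hc5 (k + 1)) r hr hn

structure Tr where
  v : Om

theorem main {X : Set (ℕ → ℕ)} (hX : #X ≤ ℵ₁) (hm : ¬ IsMeagre X) :
    ∃ (T : Type) (_ : PartialOrder T) (_ : WellFoundedLT T),
      Arons ℵ₁ T ∧ #T = ℵ₁ ∧ ¬ SpecNNR T := by
  classical
  obtain ⟨G, hV, hG⟩ := core hX hm
  let I : PartialOrder Tr :=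
    { le := fun a b => a = b ∨ a.v ∈ (G b.v).1
      lt := fun a b => a.v ∈ (G b.v).1
      le_refl := fun a => Or.inl rfl
      le_trans := by
        rintro a b c (rfl | h) (rfl | h')
        exacts [Or.inl rfl, Or.inr h', Or.inr h, Or.inr (((hV _).1 _ h').2.1 h)]
      lt_iff_le_not_ge := by
        intro a b
        refine ⟨fun h => ⟨Or.inr h, ?_⟩, fun ⟨h, h'⟩ => h.resolve_left fun e => h' (Or.inl e.symm)⟩
        rintro (rfl | h')
        · exact lt_irrefl _ ((hV _).1 _ h).1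
        · exact lt_asymm ((hV _).1 _ h).1 ((hV _).1 _ h').1
      le_antisymm := by
        rintro a b (rfl | h) (h' | h')
        exacts [rfl, rfl, h'.symm, absurd ((hV _).1 _ h).1 ((hV _).1 _ h').1.not_gt] }
  have hlt : ∀ {a b : Tr}, a < b → a.v < b.v := fun h => ((hV _).1 _ h).1
  have hinj : Function.Injective Tr.v := fun ⟨_⟩ ⟨_⟩ h => congrArg Tr.mk h
  have W : WellFoundedLT Tr := ⟨Subrelation.wf hlt (InvImage.wf Tr.v wellFounded_lt)⟩
  have hc : #Tr = ℵ₁ := (mk_congr ⟨Tr.v, Tr.mk, fun _ => rfl, fun _ => rfl⟩).trans mkOm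
  have hns : ¬ SpecNNR Tr := fun ⟨P, _, h1, h2, f, hf⟩ =>
    hG P h1 h2 (fun s => f ⟨s⟩) fun s t h => hf ⟨s⟩ ⟨t⟩ h
  refine ⟨Tr, I, W, ⟨fun t a ha b hb hab => ?_, fun t => ?_, fun α hα => ?_,
    fun α => (mk_set_le _).trans hc.le, fun C hC => ?_⟩, hc, hns⟩
  · rcases lt_or_gt_of_ne (hinj.ne hab) with h | h
    · exact Or.inl (Or.inr ((hV _).2 _ ha _ hb h))
    · exact Or.inr (Or.inr ((hV _).2 _ hb _ ha h))
  · induction t using W.induction with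
    | ind t ih =>
      rw [IsWellFounded.rank_eq]
      have : Countable {b // b < t} :=
        (((cnt (reg.init t.v)).preimage hinj).mono (s₁ := {b | b < t})
          fun b hb => hlt hb).to_subtype
      exact Ordinal.iSup_lt_omega_one fun b =>
        (Cardinal.isSuccLimit_omega 1).succ_lt (ih b.1 b.2)
  · by_contra h
    push Not at h
    have h1 : ∀ t : Tr, IsWellFounded.rank (· < ·) t < α := fun t => not_le.1 fun h' => by
      obtain ⟨s, hs⟩ := IsWellFounded.mem_range_rank_of_le h'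
      exact h s hs
    have h2 : (Iio α).Countable := by
      rw [countable_iff_lt_aleph_one, mk_Iio_ordinal, lift_lt_aleph_one, ← lt_ord, ord_aleph]
      exact hα
    obtain ⟨g, hg⟩ := Set.countable_iff_exists_injOn.1 h2
    refine hns ⟨Unit, inferInstance, inferInstance, fun A p => ⟨p, le_rfl, fun n => ?_⟩,
      fun t => cst (g (IsWellFounded.rank (· < ·) t)), fun s t hst p k h3 h4 => ?_⟩
    · by_cases h3 : () ∈ A n
      · exact Or.inl fun r _ => ⟨(), le_rfl, (), h3, le_rfl⟩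
      · exact Or.inr fun r _ a ha _ => h3 ha
    · exact (IsWellFounded.rank_lt_of_rel hst).ne (hg (h1 s) (h1 t) (h3.symm.trans h4))
  · have : ∀ c : Tr, ∃ r : ℚ, (∃ d ∈ C, c < d) → (G c.v).2 < r ∧
        ∀ d ∈ C, c < d → (r : ℝ) < (G d.v).2 := fun c => by
      by_cases h : ∃ d ∈ C, c < d
      · obtain ⟨d, h1, h2⟩ := W.wf.has_min {d | d ∈ C ∧ c < d} h
        obtain ⟨r, h3, h4⟩ := exists_rat_btwn ((hV _).1 _ h1.2).2.2
        refine ⟨r, fun _ => ⟨h3, fun d' h5 h6 => ?_⟩⟩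
        rcases eq_or_ne d d' with rfl | h7
        · exact h4
        · rcases hC h1.1 h5 h7 with h8 | h8
          · exact h4.trans ((hV _).1 _ (lt_of_le_of_ne h8 h7)).2.2
          · exact absurd (lt_of_le_of_ne h8 h7.symm) (h2 d' ⟨h5, h6⟩)
      · exact ⟨0, fun h' => absurd h' h⟩
    choose r hr using this
    have h1 : {c ∈ C | ∃ d ∈ C, c < d}.Countable := by
      refine Set.countable_of_injective_of_countable_image (f := r) (fun a ha b hb h => ?_)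
        (to_countable _)
      by_contra hab
      rcases hC ha.1 hb.1 hab with h8 | h8
      · have := ((hr a ha.2).2 b hb.1 (lt_of_le_of_ne h8 hab)).trans (hr b hb.2).1
        rw [h] at this; exact lt_irrefl _ this
      · have := ((hr b hb.2).2 a ha.1 (lt_of_le_of_ne h8 (Ne.symm hab))).trans (hr a ha.2).1
        rw [h] at this; exact lt_irrefl _ this
    have h2 : {c ∈ C | ¬ ∃ d ∈ C, c < d}.Subsingleton := fun a ha b hb => by
      by_contra hab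
      rcases hC ha.1 hb.1 hab with h8 | h8
      · exact ha.2 ⟨b, hb.1, lt_of_le_of_ne h8 hab⟩
      · exact hb.2 ⟨a, ha.1, lt_of_le_of_ne h8 (Ne.symm hab)⟩
    refine (h1.union h2.countable).mono fun c hc => ?_
    by_cases h : ∃ d ∈ C, c < d
    exacts [Or.inl ⟨hc, h⟩, Or.inr ⟨hc, h⟩]

end Pool.Agent.H42.Nnr1
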