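import Pool.Agent.H42.HalfDefs

namespace Pool.Agent.H42.NnrDefs
open Cardinal Ordinal Set Pool.Agent.H42.HalfDefs

/-- `(ω₁, ≤ c)`-Aronszajn trees; the height of a node is its well-founded rank. -/
structure Arons (c : Cardinal.{0}) (T : Type) [PartialOrder T] [WellFoundedLT T] : Prop where
  tree : ∀ t : T, IsChain (· ≤ ·) (Iio t)
  height_le : ∀ t : T, IsWellFounded.rank (· < ·) t < ω_ 1
  height_ge : ∀ α < ω_ 1, ∃ t : T, IsWellFounded.rank (· < ·) t = α
  level : ∀ α, #{t : T | IsWellFounded.rank (· < ·) t = α} ≤ c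
  nobranch : ∀ C : Set T, IsChain (· ≤ ·) C → C.Countable

/-- `P` adds no new subsets of `ω`: for the name whose `n`-th part is `A n`, densely many
conditions decide every `n` at once. -/
def NoNewReals (P : Type) [Preorder P] : Prop :=
  ∀ (A : ℕ → Set P) (p : P), ∃ q ≤ p, ∀ n,
    (∀ r ≤ q, ∃ s ≤ r, ∃ a ∈ A n, s ≤ a) ∨ (∀ r ≤ q, ∀ a ∈ A n, ¬ r ≤ a)

/-- `T` can be specialised without adding reals. -/
def SpecNNR (T : Type) [PartialOrder T] : Prop :=
  ∃ (P : Type) (_ : Preorder P), Nonempty P ∧ NoNewReals P ∧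
    ∃ f : T → NName P, ∀ s t : T, s < t → ∀ p k, (f s).D p k → ¬ (f t).D p k

/-- the cardinal `no` -/
noncomputable def noNum : Cardinal.{0} :=
  sInf {c | ℵ₀ ≤ c ∧ ∃ (T : Type) (_ : PartialOrder T) (_ : WellFoundedLT T),
    Arons c T ∧ #T = c ∧ ¬ SpecNNR T}

end Pool.Agent.H42.NnrDefs
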