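import Pool.Agent.H42.Dirac

/-! Under `p > ω₁`, countably compact subsets of `K ^ ω₁` are `ω`-bounded. -/

open Set Filter Topology Cardinal TopologicalSpace

namespace Pool.Agent.H42.OmB

open Pool.Agent.H42.Dirac

/-- `p > ω₁`: every family of at most `ℵ₁` subsets of `ℕ` with infinite finite intersections has
an infinite pseudo-intersection. -/
def PBig : Prop := ∀ 𝓕 : Set (Set ℕ), #𝓕 ≤ ℵ₁ → (∀ G ⊆ 𝓕, G.Finite → (⋂₀ G).Infinite) →
  ∃ A : Set ℕ, A.Infinite ∧ ∀ F ∈ 𝓕, (A \ F).Finite

/-- The weight of a space: the least cardinality of a base. -/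
noncomputable def wt (X : Type) [TopologicalSpace X] : Cardinal.{0} :=
  sInf {c | ∃ B : Set (Set X), IsTopologicalBasis B ∧ #B = c}

/-- `X` is `w`-compact. -/
def WCompact (X : Type) [TopologicalSpace X] : Prop :=
  ∃ C : Set X, IsCompact C ∧ wt C = wt X

/-- Every Hausdorff group that is a continuous homomorphic image of `D` is `w`-compact. -/
def ProjWCompact (D : Type) [AddGroup D] [TopologicalSpace D] : Prop :=
  ∀ (H : Type) [AddGroup H] [TopologicalSpace H] [IsTopologicalAddGroup H] [T2Space H]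
    (f : D →+ H), Continuous f → Function.Surjective f → WCompact H

section

variable {K : Type} [TopologicalSpace K] [T2Space K]

lemma omb [FirstCountableTopology K] (h : PBig) {D S : Set (W → K)} (hD : IsCountablyCompact D)
    (hS : S.Countable) (hSD : S ⊆ D) : closure S ⊆ D := by
  intro x hx
  obtain ⟨s0, rfl⟩ := hS.exists_eq_range (closure_nonempty_iff.1 ⟨x, hx⟩)
  choose V hV using fun i : W => (𝓝 (x i)).exists_antitone_basis
  let s : ℕ → W → K := fun m => s0 m.unpair.1
  let A : W × ℕ → Set ℕ := fun q => {m | s m q.1 ∈ V q.1 q.2}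
  have hfin : ∀ G ⊆ range A, G.Finite → (⋂₀ G).Infinite := by
    intro G hG hf
    have h1 : ∀ᶠ y in 𝓝 x, ∀ F ∈ G, ∀ m, s m = y → m ∈ F := by
      refine (eventually_all_finite hf).2 fun F hF => ?_
      obtain ⟨q, rfl⟩ := hG hF
      filter_upwards [(continuous_apply q.1).continuousAt.preimage_mem_nhds
        ((hV q.1).1.mem_of_mem (i := q.2) trivial)] with y hy m hm
      show s m q.1 ∈ V q.1 q.2
      rw [hm]; exact hy
    obtain ⟨y, ⟨k, rfl⟩, hy⟩ := ((mem_closure_iff_frequently.1 hx).and_eventually h1).exists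
    refine infinite_of_injective_forall_mem (f := fun j => Nat.pair k j)
      (fun a b hab => (Nat.pair_eq_pair.1 hab).2) fun j F hF => hy F hF _ (by simp [s])
  obtain ⟨B, hB, hBA⟩ := h (range A) (mk_range_le.trans (by simp)) hfin
  · have hne : NeBot (cofinite ⊓ 𝓟 B) := hB.cofinite_inf_principal_neBot
    have ht : Tendsto s (cofinite ⊓ 𝓟 B) (𝓝 x) := by
      rw [tendsto_pi_nhds]
      intro i
      rw [(hV i).1.tendsto_right_iff]
      intro n _
      rw [eventually_inf_principal, eventually_cofinite]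
      exact (hBA _ ⟨(i, n), rfl⟩).subset fun m hm => Classical.not_imp.1 hm
    have hcg : (cofinite ⊓ 𝓟 B).IsCountablyGenerated := by
      rw [Nat.cofinite_eq_atTop]; infer_instance
    obtain ⟨y, hy, hc⟩ := hD (f := map s (cofinite ⊓ 𝓟 B))
      (tendsto_principal.2 (Eventually.of_forall fun m => hSD ⟨_, rfl⟩))
    exact eq_of_nhds_neBot (hc.mono ht) ▸ hy

lemma proj [SecondCountableTopology K] [CompactSpace K] (h : PBig) {D : Set (W → K)}
    (hd : Dense D) (hD : IsCountablyCompact D) {J : Set W} (hJ : J.Countable) :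
    ∃ C ⊆ D, IsCompact C ∧ ∀ x : W → K, ∃ c ∈ C, ∀ i ∈ J, c i = x i := by
  have := hJ.to_subtype
  let π : (W → K) → J → K := fun x i => x i
  have hπ : Continuous π := continuous_pi fun i => continuous_apply _
  obtain ⟨T, hT, hTc, hTd⟩ :=
    (IsSeparable.of_separableSpace (π '' D)).exists_countable_dense_subset
  have := hTc.to_subtype
  choose g hg hgπ using fun t : T => hT t.2
  have hC : IsCompact (closure (range g)) := isClosed_closure.isCompact
  refine ⟨closure (range g), omb h hD (countable_range g) (range_subset_iff.2 hg), hC, fun x => ?_⟩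
  have h1 : closure T ⊆ π '' closure (range g) := closure_minimal
    (fun t ht => ⟨g ⟨t, ht⟩, subset_closure ⟨_, rfl⟩, hgπ _⟩) (hC.image hπ).isClosed
  have h2 : π x ∈ closure T := closure_minimal hTd isClosed_closure
    (image_closure_subset_closure_image hπ ⟨x, hd x, rfl⟩)
  obtain ⟨c, hc, he⟩ := h1 h2
  exact ⟨c, hc, fun i hi => congrFun he ⟨i, hi⟩⟩

lemma unc [SecondCountableTopology K] [CompactSpace K] [Nontrivial K] (h : PBig)
    {D : Set (W → K)} (hd : Dense D) (hD : IsCountablyCompact D) :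
    ∃ C ⊆ D, IsCompact C ∧ ¬ C.Countable := by
  have : Infinite W := Cardinal.infinite_iff.2 (W_card ▸ aleph0_le_aleph 1)
  let e := Infinite.natEmbedding W
  obtain ⟨C, hC, hc, hx⟩ := proj h hd hD (countable_range e)
  refine ⟨C, hC, hc, fun hn => ?_⟩
  obtain ⟨a⟩ : Nonempty K := inferInstance
  obtain ⟨c0, hc0, -⟩ := hx fun _ => a
  obtain ⟨g, rfl⟩ := hn.exists_eq_range ⟨c0, hc0⟩
  choose y hy using fun n => exists_ne (g n (e n))
  obtain ⟨_, ⟨n, rfl⟩, he⟩ := hx (Function.extend e y fun _ => a)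
  exact hy n ((e.injective.extend_apply _ _ n).symm.trans (he _ ⟨n, rfl⟩).symm)

end

lemma wt_le {X : Type} [TopologicalSpace X] {B : Set (Set X)} (hB : IsTopologicalBasis B) :
    wt X ≤ #B := csInf_le' ⟨B, hB, rfl⟩

lemma wt_ex (X : Type) [TopologicalSpace X] :
    ∃ B : Set (Set X), IsTopologicalBasis B ∧ #B = wt X :=
  csInf_mem (s := {c | ∃ B : Set (Set X), IsTopologicalBasis B ∧ #B = c})
    ⟨_, _, isTopologicalBasis_opens, rfl⟩

lemma wt_mono {X Y : Type} [TopologicalSpace X] [TopologicalSpace Y] {f : X → Y}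
    (hf : IsInducing f) : wt X ≤ wt Y := by
  obtain ⟨B, hB, h⟩ := wt_ex Y
  exact (wt_le (hB.isInducing hf)).trans (mk_image_le.trans h.le)

lemma nfc {Y : Type} [TopologicalSpace Y] [T1Space Y] {h : W → Y} {y : Y}
    (ht : Tendsto h atTop (𝓝 y)) (hne : ∀ α, h α ≠ y) : ¬ (𝓝 y).IsCountablyGenerated := by
  intro _
  have : Nonempty W := (Cardinal.infinite_iff.2 (W_card ▸ aleph0_le_aleph 1)).nonempty
  obtain ⟨V, hV⟩ := (𝓝 y).exists_antitone_basis
  choose a ha using fun n => eventually_atTop.1 (ht (hV.1.mem_of_mem (i := n) trivial))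
  obtain ⟨b, hb⟩ := bdd _ (countable_range a)
  obtain ⟨n, -, hn⟩ := hV.1.mem_iff.1 (compl_singleton_mem_nhds (hne b).symm)
  exact hn (ha n b (hb _ ⟨n, rfl⟩).le) rfl

lemma tz {d : W → W → ZMod 2} (hd : ∀ α, ∀ i < α, d α i = 0) : Tendsto d atTop (𝓝 0) := by
  refine tendsto_pi_nhds.2 fun i => tendsto_const_nhds.congr' ?_
  obtain ⟨b, hb⟩ := bdd {i} (countable_singleton i)
  exact (eventually_ge_atTop b).mono fun α hα => (hd α i ((hb i rfl).trans_le hα)).symm

lemma wt_H {D : AddSubgroup (W → ZMod 2)} {H : Type} [AddGroup H] [TopologicalSpace H]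
    [IsTopologicalAddGroup H] (f : D →+ H) (hf : Continuous f) (hs : Function.Surjective f) :
    wt H ≤ ℵ₁ := by
  classical
  have : Infinite W := Cardinal.infinite_iff.2 (W_card ▸ aleph0_le_aleph 1)
  let B : Finset (W × ZMod 2) → Set H := fun T =>
    interior (closure (f '' {d : D | ∀ p ∈ T, d.1 p.1 = p.2}))
  refine (wt_le (B := range B) (isTopologicalBasis_of_isOpen_of_nhds ?_ ?_)).trans
    (mk_range_le.trans (by
      rw [mk_finset_of_infinite, mk_prod, lift_id, lift_id, W_card]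
      exact (mul_eq_left (aleph0_le_aleph 1) ((lt_aleph0_of_finite _).le.trans
        (aleph0_le_aleph 1)) (mk_ne_zero _)).le))
  · rintro _ ⟨T, rfl⟩
    exact isOpen_interior
  intro a u hau hu
  obtain ⟨t, ht, htc, htu⟩ := exists_mem_nhds_isClosed_subset (hu.mem_nhds hau)
  obtain ⟨d, rfl⟩ := hs a
  obtain ⟨U, hU, hUt⟩ := (mem_nhds_subtype _ _ _).1 (hf.continuousAt.preimage_mem_nhds ht)
  rw [nhds_pi, Filter.mem_pi'] at hU
  obtain ⟨I, v, hv, hI⟩ := hU
  refine ⟨_, ⟨I.image fun i => (i, d.1 i), rfl⟩, ?_, interior_subset.trans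
    ((closure_minimal ?_ htc).trans htu)⟩
  · let r : D →+ (I → ZMod 2) :=
      { toFun := fun e i => e.1 i, map_zero' := rfl, map_add' := fun _ _ => rfl }
    have h1 : (r.ker.map f).FiniteIndex := ⟨ne_zero_of_dvd_ne_zero
      (AddSubgroup.FiniteIndex.index_ne_zero (H := r.ker)) (r.ker.index_map_dvd hs)⟩
    have h2 : (r.ker.map f).topologicalClosure.FiniteIndex :=
      AddSubgroup.finiteIndex_of_le (r.ker.map f).le_topologicalClosure
    have h3 := AddSubgroup.isOpen_of_isClosed_of_finiteIndex _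
      (r.ker.map f).isClosed_topologicalClosure
    refine mem_interior.2 ⟨(fun y => -f d + y) ⁻¹' _, fun y hy => ?_,
      h3.preimage (continuous_const.add continuous_id), by
        show -f d + f d ∈ (r.ker.map f).topologicalClosure
        rw [neg_add_cancel]; exact zero_mem _⟩
    have := map_mem_closure (f := fun z => f d + z) (continuous_const.add continuous_id) hy
      (t := f '' {e : D | ∀ p ∈ I.image fun i => (i, d.1 i), e.1 p.1 = p.2}) ?_
    · simpa using this
    rintro _ ⟨n, hn, rfl⟩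
    refine ⟨d + n, fun p hp => ?_, map_add f d n⟩
    obtain ⟨i, hi, rfl⟩ := Finset.mem_image.1 hp
    have : n.1 i = 0 := congrFun (r.mem_ker.1 hn) ⟨i, hi⟩
    simp [this]
  · rintro _ ⟨e, he, rfl⟩
    refine hUt (hI fun i hi => ?_)
    rw [he _ (Finset.mem_image_of_mem _ hi)]
    exact mem_of_mem_nhds (hv i)

lemma pw (h : PBig) (D : AddSubgroup (W → ZMod 2)) (hd : Dense (D : Set (W → ZMod 2)))
    (hD : IsCountablyCompact (D : Set (W → ZMod 2))) : ProjWCompact D := by
  intro H _ _ _ _ f hf hs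
  have hk : ∀ C ⊆ (D : Set (W → ZMod 2)), IsCompact C → IsCompact (f '' (Subtype.val ⁻¹' C)) :=
    fun C hC hc => (IsInducing.subtypeVal.isCompact_preimage' hc (by simpa using hC)).image hf
  by_cases hA : ∃ α, ∀ d : D, (∀ i < α, d.1 i = 0) → f d = 0
  · obtain ⟨α, hα⟩ := hA
    obtain ⟨C, hC, hc, hx⟩ := proj h hd hD (Iio_count α)
    refine ⟨univ, (hk C hC hc).of_isClosed_subset isClosed_univ fun a _ => ?_,
      (wt_mono IsInducing.subtypeVal).antisymm (wt_mono (Homeomorph.Set.univ H).symm.isInducing)⟩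
    obtain ⟨d, rfl⟩ := hs a
    obtain ⟨c, hcC, he⟩ := hx d.1
    refine ⟨⟨c, hC hcC⟩, hcC, sub_eq_zero.1 ((map_sub f _ _).symm.trans (hα _ fun i hi => ?_))⟩
    simp [he i hi]
  push Not at hA
  choose d hd0 hdf using hA
  have ht := tz hd0
  have : Nonempty W := (Cardinal.infinite_iff.2 (W_card ▸ aleph0_le_aleph 1)).nonempty
  have hC : closure (range fun α => (d α).1) ⊆ D := by
    intro x hx
    by_cases h0 : x = 0
    · exact h0 ▸ D.zero_mem
    obtain ⟨U, V, hU, hV, hxU, h0V, hUV⟩ := t2_separation h0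
    obtain ⟨α, hα⟩ := eventually_atTop.1 (ht (hV.mem_nhds h0V))
    refine omb h hD ((Iio_count α).image fun α => (d α).1) (by rintro _ ⟨β, -, rfl⟩; simp)
      (closure_mono ?_ (hU.inter_closure ⟨hxU, hx⟩))
    rintro _ ⟨hy, β, rfl⟩
    exact ⟨β, lt_of_not_ge fun hβ => hUV.ne_of_mem hy (hα β hβ) rfl, rfl⟩
  refine ⟨_, hk _ hC isClosed_closure.isCompact, (wt_mono IsInducing.subtypeVal).antisymm
    ((wt_H f hf hs).trans ?_)⟩
  rw [← succ_aleph0, Order.succ_le_iff, ← not_le]
  intro hw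
  obtain ⟨B, hB, hb⟩ := wt_ex (f '' (Subtype.val ⁻¹' closure (range fun α => (d α).1)))
  have := hB.secondCountableTopology (le_aleph0_iff_set_countable.1 (hb.le.trans hw))
  have h0 : (0 : H) ∈ f '' (Subtype.val ⁻¹' closure (range fun α => (d α).1)) :=
    ⟨0, mem_closure_of_tendsto ht (Eventually.of_forall fun α => ⟨α, rfl⟩), map_zero f⟩
  refine nfc (y := (⟨0, h0⟩ : f '' (Subtype.val ⁻¹' closure (range fun α => (d α).1))))
    (h := fun α => ⟨f (d α), d α, subset_closure ⟨α, rfl⟩, rfl⟩) (tendsto_subtype_rng.2 ?_)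
    (fun α hα => hdf α (congrArg Subtype.val hα)) inferInstance
  have := (hf.tendsto 0).comp (tendsto_subtype_rng.2 ht : Tendsto d atTop (𝓝 0))
  rwa [map_zero] at this

lemma nmet : ¬ MetrizableSpace (W → ZMod 2) := by
  classical
  intro _
  refine nfc (tz (d := fun α => Pi.single α 1) fun α i hi => Pi.single_eq_of_ne hi.ne _)
    (fun α hα => ?_) inferInstance
  simpa using congrFun hα α

end Pool.Agent.H42.OmB
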