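import Mathlib
import Pool.Agent.H42.Dirac

namespace Pool.Agent.H42.Orb
open Set Filter Topology Pool.Agent.H42.Dirac Cardinal

variable {K : Type} [MetricSpace K]

noncomputable def D (X : Set K) (a : W) : Set K :=
  X ∩ ⋂ b : Iio a, derivedSet (D X b)
termination_by a
decreasing_by exact b.2

lemma mem_D {X : Set K} {a : W} {x : K} :
    x ∈ D X a ↔ x ∈ X ∧ ∀ b < a, x ∈ derivedSet (D X b) := by
  rw [D]
  simp only [mem_inter_iff, mem_iInter, Subtype.forall, mem_Iio]

lemma D_sub (X : Set K) (a : W) : D X a ⊆ X := fun _ h => (mem_D.1 h).1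

lemma D_mono {X Y : Set K} (h : X ⊆ Y) (a : W) : D X a ⊆ D Y a := by
  induction a using WellFoundedLT.induction with
  | ind a ih =>
    intro x hx
    rw [mem_D] at hx ⊢
    exact ⟨h hx.1, fun b hb => derivedSet_mono _ _ (ih b hb) (hx.2 b hb)⟩

lemma D_anti (X : Set K) {a b : W} (h : a ≤ b) : D X b ⊆ D X a := by
  intro x hx
  rw [mem_D] at hx ⊢
  exact ⟨hx.1, fun c hc => hx.2 c (hc.trans_le h)⟩

lemma D_closed {X : Set K} (h : IsClosed X) (a : W) : IsClosed (D X a) := by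
  rw [D]
  exact h.inter (isClosed_iInter fun _ => isClosed_derivedSet _)

lemma D_loc {X U : Set K} (hU : IsOpen U) (a : W) : U ∩ D X a ⊆ D (X ∩ U) a := by
  induction a using WellFoundedLT.induction with
  | ind a ih =>
    rintro x ⟨hxU, hx⟩
    rw [mem_D] at hx ⊢
    refine ⟨⟨hx.1, hxU⟩, fun b hb => ?_⟩
    have h1 := hx.2 b hb
    rw [mem_derivedSet, accPt_iff_nhds] at h1 ⊢
    intro V hV
    obtain ⟨y, ⟨⟨hyV, hyU⟩, hy⟩, hne⟩ := h1 (V ∩ U) (inter_mem hV (hU.mem_nhds hxU))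
    exact ⟨y, ⟨hyV, ih b hb ⟨hyU, hy⟩⟩, hne⟩

/-- finite-to-finite relation -/
def FF (R : Set (K × K)) : Prop :=
  (∀ x, {y | (x, y) ∈ R}.Finite) ∧ ∀ y, {x | (x, y) ∈ R}.Finite

lemma FF.mono {R S : Set (K × K)} (h : FF S) (hs : R ⊆ S) : FF R :=
  ⟨fun x => (h.1 x).subset fun _ hy => hs hy, fun y => (h.2 y).subset fun _ hx => hs hx⟩

lemma FF.union {R S : Set (K × K)} (h : FF R) (h' : FF S) : FF (R ∪ S) :=
  ⟨fun x => (h.1 x).union (h'.1 x), fun y => (h.2 y).union (h'.2 y)⟩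

lemma FF.swap {R : Set (K × K)} (h : FF R) : FF (Prod.swap ⁻¹' R) := ⟨h.2, h.1⟩

variable [CompactSpace K]

lemma D_inv {X Y : Set K} (hY : IsClosed Y) {R : Set (K × K)} (hR : IsClosed R) (hF : FF R)
    (ht : ∀ x ∈ X, ∃ y ∈ Y, (x, y) ∈ R) (a : W) :
    ∀ x ∈ D X a, ∃ y ∈ D Y a, (x, y) ∈ R := by
  induction a using WellFoundedLT.induction with
  | ind a ih =>
    intro x hx
    rw [mem_D] at hx
    have step : ∀ b < a, ∃ y ∈ Y, (x, y) ∈ R ∧ y ∈ derivedSet (D Y b) := by
      intro b hb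
      have h1 := hx.2 b hb
      rw [mem_derivedSet, AccPt] at h1
      choose! φ hφ using ih b hb
      obtain ⟨U, hU⟩ := exists_ultrafilter_iff.2 h1
      have hU1 : (U : Filter K) ≤ 𝓝[≠] x := hU.trans inf_le_left
      have hU2 : D X b ∈ U := le_principal_iff.1 (hU.trans inf_le_right)
      obtain ⟨y, -, hy⟩ := isCompact_univ.ultrafilter_le_nhds (U.map φ) (by simp)
      have hy' : Tendsto φ U (𝓝 y) := hy
      have hxU : Tendsto id (U : Filter K) (𝓝 x) := hU1.trans nhdsWithin_le_nhds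
      have hr : (x, y) ∈ R := hR.mem_of_tendsto (hxU.prodMk_nhds hy')
        (mem_of_superset hU2 fun z hz => (hφ z hz).2)
      have hyY : y ∈ Y := hY.mem_of_tendsto hy'
        (mem_of_superset hU2 fun z hz => D_sub Y b (hφ z hz).1)
      refine ⟨y, hyY, hr, ?_⟩
      rw [mem_derivedSet, accPt_iff_nhds]
      intro V hV
      have h2 : {z | (z, y) ∈ R}ᶜ ∈ (U : Filter K) :=
        (hU1.trans (nhdsNE_le_cofinite x)) (hF.2 y).compl_mem_cofinite
      have h6 : φ ⁻¹' V ∈ (U : Filter K) := hy' hV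
      obtain ⟨z, ⟨hz1, hz2⟩, hz3⟩ :=
        Filter.nonempty_of_mem (inter_mem (inter_mem h6 hU2) h2)
      refine ⟨φ z, ⟨hz1, (hφ z hz2).1⟩, fun h => hz3 ?_⟩
      have := (hφ z hz2).2
      rwa [h] at this
    by_contra hcon
    push Not at hcon
    have h3 : ∀ y ∈ {y | (x, y) ∈ R} ∩ Y, ∃ b < a, y ∉ derivedSet (D Y b) := by
      rintro y ⟨hy1, hy2⟩
      by_contra h
      push Not at h
      exact hcon y (mem_D.2 ⟨hy2, h⟩) hy1
    have : Nonempty W := ⟨a⟩
    choose! β hβ using h3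
    obtain ⟨y0, hy0, hy0'⟩ := ht x hx.1
    obtain ⟨y1, hy1, hmax⟩ := Set.exists_max_image ({y | (x, y) ∈ R} ∩ Y) β
      ((hF.1 x).subset inter_subset_left) ⟨y0, hy0', hy0⟩
    obtain ⟨y, hy, hy', hy''⟩ := step (β y1) (hβ y1 hy1).1
    exact (hβ y ⟨hy', hy⟩).2 (derivedSet_mono _ _ (D_anti Y (hmax y ⟨hy', hy⟩)) hy'')

lemma D_drop {X : Set K} (hX : IsClosed X) (hne : X.Nonempty) {a : W} (h : D X a = ∅) :
    ∃ b < a, derivedSet (D X b) = ∅ := by
  rw [D] at h
  obtain ⟨t, ht⟩ := hX.isCompact.elim_finite_subfamily_closed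
    (fun b : Iio a => derivedSet (D X b)) (fun _ => isClosed_derivedSet _) h
  rcases t.eq_empty_or_nonempty with rfl | htne
  · simp at ht
    exact absurd ht hne.ne_empty
  · obtain ⟨b, hb, hmax⟩ := t.exists_max_image id htne
    refine ⟨b, b.2, eq_empty_of_forall_notMem fun x hx => ?_⟩
    have : x ∈ X ∩ ⋂ i ∈ t, derivedSet (D X (i : W)) := by
      refine ⟨?_, mem_iInter₂.2 fun i hi => derivedSet_mono _ _ (D_anti X (hmax i hi)) hx⟩
      exact D_sub X b ((isClosed_iff_derivedSet_subset _).1 (D_closed hX b) hx)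
    rw [ht] at this
    exact this

lemma D_term {X : Set K} (hX : IsClosed X) (hc : X.Countable) :
    ∃ a : W, derivedSet (D X a) = ∅ := by
  by_contra h
  push Not at h
  have h1 : ∀ a : W, ∃ x ∈ D X a, x ∉ derivedSet (D X a) := by
    intro a
    by_contra h2
    push Not at h2
    have hP : Perfect (D X a) := ⟨D_closed hX a, h2⟩
    obtain ⟨x, hx⟩ := h a
    obtain ⟨f, hf, -, hi⟩ := hP.exists_nat_bool_injection
      ⟨x, (isClosed_iff_derivedSet_subset _).1 (D_closed hX a) hx⟩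
    have : (range f).Countable := hc.mono (hf.trans (D_sub X a))
    have h5 : #(ℕ → Bool) = 𝔠 := by simp
    have h3 : Countable (ℕ → Bool) := by
      rw [← image_univ] at this
      exact countable_univ_iff.1 (countable_of_injective_of_countable_image hi.injOn this)
    have h4 := Cardinal.mk_le_aleph0_iff.2 h3
    rw [h5] at h4
    exact absurd h4 (not_le.2 aleph0_lt_continuum)
  choose x hx hx' using h1
  have hi : Function.Injective x := by
    intro a b hab
    rcases lt_trichotomy a b with h | h | h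
    · exact absurd ((mem_D.1 (hx b)).2 a h) (hab ▸ hx' a)
    · exact h
    · exact absurd ((mem_D.1 (hx a)).2 b h) (hab ▸ hx' b)
  have : (univ : Set W).Countable := countable_of_injective_of_countable_image hi.injOn
    (hc.mono (by rintro _ ⟨a, -, rfl⟩; exact D_sub X a (hx a)))
  have h3 := Cardinal.mk_le_aleph0_iff.2 (countable_univ_iff.1 this)
  rw [W_card] at h3
  exact absurd h3 (not_le.2 aleph0_lt_aleph_one)

end Pool.Agent.H42.Orb
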