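import Mathlib
import Pool.Agent.H42.Orb1

namespace Pool.Agent.H42.Orb
open Set Filter Topology Pool.Agent.H42.Dirac Cardinal Metric

variable {K : Type} [MetricSpace K]

def Le (X Y : Set K) : Prop :=
  ∃ R : Set (K × K), IsClosed R ∧ FF R ∧ R ⊆ X ×ˢ Y ∧ ∀ x ∈ X, ∃ y, (x, y) ∈ R

lemma Le.mono {X Y Z : Set K} (h : Le X Y) (hs : Y ⊆ Z) : Le X Z := by
  obtain ⟨R, h1, h2, h3, h4⟩ := h
  exact ⟨R, h1, h2, h3.trans (prod_mono_right hs), h4⟩

lemma le_empty (Y : Set K) : Le ∅ Y :=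
  ⟨∅, isClosed_empty, ⟨fun _ => by simp, fun _ => by simp⟩, by simp, by simp⟩

lemma closed_union {Z : Type} [TopologicalSpace Z] (R : ℕ → Set Z) (S : Set Z) (T : ℕ → Set Z)
    (hR : ∀ n, IsClosed (R n)) (hT : ∀ n, IsClosed (T n)) (h1 : ∀ N n, N ≤ n → R n ⊆ T N)
    (h2 : ∀ N, S ⊆ T N) (h3 : ∀ z, (∀ N, z ∈ T N) → z ∈ S) : IsClosed ((⋃ n, R n) ∪ S) := by
  have : (⋃ n, R n) ∪ S = ⋂ N, ((⋃ n ∈ Iio N, R n) ∪ T N) := by
    ext z
    simp only [mem_union, mem_iUnion, mem_iInter, mem_Iio, exists_prop]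
    constructor
    · rintro (⟨n, hn⟩ | hz) N
      · by_cases h : n < N
        · exact Or.inl ⟨n, h, hn⟩
        · exact Or.inr (h1 N n (not_lt.1 h) hn)
      · exact Or.inr (h2 N hz)
    · intro h
      by_cases h' : ∃ n, z ∈ R n
      · exact Or.inl h'
      · refine Or.inr (h3 z fun N => (h N).resolve_left ?_)
        rintro ⟨n, -, hn⟩
        exact h' ⟨n, hn⟩
  rw [this]
  exact isClosed_iInter fun N =>
    ((finite_Iio N).isClosed_biUnion fun n _ => hR n).union (hT N)

noncomputable def t (n : ℕ) : ℝ := 1 / ((n : ℝ) + 1)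

lemma t_pos (n : ℕ) : 0 < t n := by unfold t; positivity

lemma t_anti {m n : ℕ} (h : m ≤ n) : t n ≤ t m := by
  unfold t
  have : (m : ℝ) ≤ n := by exact_mod_cast h
  gcongr

lemma t_lim : Tendsto t atTop (𝓝 0) := tendsto_one_div_add_atTop_nhds_zero_nat

lemma t_fin {r : ℝ} (hr : 0 < r) : {n | r ≤ t n}.Finite := by
  obtain ⟨N, hN⟩ := eventually_atTop.1 (t_lim.eventually (gt_mem_nhds hr))
  exact (finite_Iio N).subset fun n hn => not_le.1 fun h => absurd (hN n h) (not_lt.2 hn)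

lemma t_zero {r : ℝ} (h : ∀ N, r ≤ t N) : r ≤ 0 := ge_of_tendsto' t_lim h

lemma t_ann {r : ℝ} (hr : 0 < r) (h1 : r ≤ 1) : ∃ n, t (n + 1) ≤ r ∧ r ≤ t n := by
  classical
  have hex : ∃ n, t (n + 1) ≤ r := by
    obtain ⟨N, hN⟩ := eventually_atTop.1 (t_lim.eventually (gt_mem_nhds hr))
    exact ⟨N, (hN _ (Nat.le_succ N)).le⟩
  refine ⟨Nat.find hex, Nat.find_spec hex, ?_⟩
  rcases h : Nat.find hex with _ | m
  · simpa [t] using h1
  · exact (not_le.1 (Nat.find_min hex (m := m) (by omega))).le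

lemma near_piece {Y : Set K} (hY : IsClosed Y) {b : W} {y : K} (hy : y ∈ derivedSet (D Y b))
    {r : ℝ} (hr : 0 < r) : ∃ Z, IsClosed Z ∧ Z ⊆ Y ∧ (D Z b).Nonempty ∧ y ∉ Z ∧
      ∀ z ∈ Z, dist z y ≤ r := by
  rw [mem_derivedSet, accPt_iff_nhds] at hy
  obtain ⟨z, ⟨hz1, hz2⟩, hz3⟩ := hy (ball y (r / 2)) (ball_mem_nhds y (by linarith))
  have hd : 0 < dist z y := dist_pos.2 hz3
  rw [mem_ball] at hz1
  refine ⟨Y ∩ closedBall z (dist z y / 2), hY.inter isClosed_closedBall, inter_subset_left,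
    ⟨z, D_mono (inter_subset_inter_right _ ball_subset_closedBall) b
      (D_loc isOpen_ball b ⟨mem_ball_self (by linarith), hz2⟩)⟩, ?_, ?_⟩
  · rintro ⟨-, h⟩
    rw [mem_closedBall, dist_comm] at h
    linarith
  · rintro w ⟨-, h⟩
    rw [mem_closedBall] at h
    linarith [dist_triangle w z y]

variable [CompactSpace K]

lemma le_of_rank (b : W) : ∀ X Y : Set K, IsClosed X → IsClosed Y →
    derivedSet (D X b) = ∅ → (D Y b).Nonempty → Le X Y := by
  induction b using WellFoundedLT.induction with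
  | ind b ih =>
    intro X Y hX hY hXb ⟨y, hy⟩
    have small : ∀ X' : Set K, IsClosed X' → D X' b = ∅ → ∀ r : ℝ, 0 < r →
        ∃ Z, Z ⊆ Y ∧ y ∉ Z ∧ (∀ z ∈ Z, dist z y ≤ r) ∧ Le X' Z := by
      intro X' hX' h0 r hr
      rcases X'.eq_empty_or_nonempty with rfl | hne
      · exact ⟨∅, by simp, by simp, by simp, le_empty _⟩
      · obtain ⟨c, hc, hc'⟩ := D_drop hX' hne h0
        obtain ⟨Z, h1, h2, h3, h4, h5⟩ := near_piece hY ((mem_D.1 hy).2 c hc) hr
        exact ⟨Z, h2, h4, h5, ih c hc X' Z hX' h1 hc' h3⟩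
    rcases (D X b).eq_empty_or_nonempty with h0 | hFne
    · obtain ⟨Z, h1, -, -, h2⟩ := small X hX h0 1 one_pos
      exact h2.mono h1
    have hFc := D_closed hX b
    have hFfin : (D X b).Finite := by
      by_contra hinf
      obtain ⟨x, -, hx⟩ := Set.Infinite.exists_accPt_of_subset_isCompact hinf hFc.isCompact
        subset_rfl
      have : x ∈ derivedSet (D X b) := hx
      rw [hXb] at this
      exact this
    obtain ⟨ψ, hψc, hψ0, hψ1, hψ2⟩ : ∃ ψ : K → ℝ, Continuous ψ ∧ (∀ x, ψ x = 0 ↔ x ∈ D X b) ∧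
        (∀ x, 0 ≤ ψ x) ∧ ∀ x, ψ x ≤ 1 := by
      refine ⟨fun x => min (infDist x (D X b)) 1, (continuous_infDist_pt _).min continuous_const,
        fun x => ?_, fun x => le_min infDist_nonneg zero_le_one, fun x => min_le_right _ _⟩
      rw [hFc.mem_iff_infDist_zero hFne]
      constructor
      · intro h
        rcases min_choice (infDist x (D X b)) 1 with h' | h'
        · exact h'.symm.trans h
        · exact absurd (h'.symm.trans h) one_ne_zero
      · intro h; simp [h]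
    have hA : ∀ n, IsClosed (X ∩ ψ ⁻¹' Icc (t (n + 1)) (t n)) := fun n =>
      hX.inter (isClosed_Icc.preimage hψc)
    have hA0 : ∀ n, D (X ∩ ψ ⁻¹' Icc (t (n + 1)) (t n)) b = ∅ := by
      intro n
      refine eq_empty_of_forall_notMem fun x hx => ?_
      have h1 := (hψ0 x).2 (D_mono inter_subset_left b hx)
      have h2 := (D_sub _ b hx).2.1
      linarith [t_pos (n + 1)]
    choose Z hZ1 hZ2 hZ3 R hR1 hR2 hR3 hR4 using fun n => small _ (hA n) (hA0 n) (t n) (t_pos n)
    refine ⟨(⋃ n, R n) ∪ (D X b) ×ˢ {y}, ?_, FF.union ⟨fun x => ?_, fun z => ?_⟩ ⟨fun x => ?_,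
      fun z => ?_⟩, ?_, ?_⟩
    · refine closed_union R _ (fun N => {p | ψ p.1 ≤ t N ∧ dist p.2 y ≤ t N}) hR1
        (fun N => (isClosed_le (hψc.comp continuous_fst) continuous_const).inter
          (isClosed_le (continuous_snd.dist continuous_const) continuous_const)) ?_ ?_ ?_
      · intro N n hn p hp
        exact ⟨(hR3 n hp).1.2.2.trans (t_anti hn), (hZ3 n _ (hR3 n hp).2).trans (t_anti hn)⟩
      · rintro N ⟨x, z⟩ ⟨h1, h2⟩
        have h3 : z = y := h2
        exact ⟨by simp only [(hψ0 x).2 h1]; exact (t_pos N).le, by simp [h3, (t_pos N).le]⟩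
      · intro p hp
        exact ⟨(hψ0 _).1 (le_antisymm (t_zero fun N => (hp N).1) (hψ1 _)),
          dist_le_zero.1 (t_zero fun N => (hp N).2)⟩
    · rcases (hψ1 x).eq_or_lt with h | h
      · refine finite_empty.subset fun z hz => ?_
        obtain ⟨n, hn⟩ := mem_iUnion.1 hz
        have := (hR3 n hn).1.2.1
        simp only at this
        linarith [t_pos (n + 1)]
      · refine ((t_fin h).biUnion fun n _ => (hR2 n).1 x).subset fun z hz => ?_
        obtain ⟨n, hn⟩ := mem_iUnion.1 hz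
        exact mem_biUnion (hR3 n hn).1.2.2 hn
    · rcases (dist_nonneg (x := z) (y := y)).eq_or_lt with h | h
      · refine finite_empty.subset fun x hx => ?_
        obtain ⟨n, hn⟩ := mem_iUnion.1 hx
        have h1 : z ∈ Z n := (hR3 n hn).2
        rw [dist_eq_zero.1 h.symm] at h1
        exact hZ2 n h1
      · refine ((t_fin h).biUnion fun n _ => (hR2 n).2 z).subset fun x hx => ?_
        obtain ⟨n, hn⟩ := mem_iUnion.1 hx
        exact mem_biUnion (hZ3 n z (hR3 n hn).2) hn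
    · exact (finite_singleton y).subset fun z hz => hz.2
    · exact hFfin.subset fun x hx => hx.1
    · rintro p (hp | hp)
      · obtain ⟨n, hn⟩ := mem_iUnion.1 hp
        exact ⟨(hR3 n hn).1.1, hZ1 n (hR3 n hn).2⟩
      · refine ⟨D_sub X b hp.1, ?_⟩
        have h3 : p.2 = y := hp.2
        rw [h3]
        exact D_sub Y b hy
    · intro x hx
      rcases (hψ1 x).eq_or_lt with h | h
      · exact ⟨y, Or.inr ⟨(hψ0 x).1 h.symm, rfl⟩⟩
      · obtain ⟨n, hn⟩ := t_ann h (hψ2 x)
        obtain ⟨z, hz⟩ := hR4 n x ⟨hx, hn⟩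
        exact ⟨z, Or.inl (mem_iUnion.2 ⟨n, hz⟩)⟩

omit [CompactSpace K] in
lemma high (hP : ∀ (y : K) (r : ℝ), 0 < r → ∃ z, z ≠ y ∧ dist z y < r) (a : W) :
    ∀ (y : K) (r : ℝ), 0 < r → ∃ X : Set K, IsClosed X ∧ X.Countable ∧ y ∈ D X a ∧
      ∀ x ∈ X, dist x y ≤ r := by
  induction a using WellFoundedLT.induction with
  | ind a ih =>
    intro y r hr
    rcases (Iio a).eq_empty_or_nonempty with h0 | hne
    · refine ⟨{y}, isClosed_singleton, countable_singleton y, mem_D.2 ⟨rfl, fun b hb => ?_⟩,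
        fun x hx => by simp [mem_singleton_iff.1 hx, hr.le]⟩
      have : b ∈ Iio a := hb
      rw [h0] at this
      exact this.elim
    obtain ⟨β, hβ⟩ := (Iio_count a).exists_eq_range hne
    have hβ1 : ∀ n, β n < a := fun n => by
      have : β n ∈ Iio a := hβ ▸ mem_range_self n
      exact this
    have hpos : ∀ n, 0 < r / 2 * t n := fun n => mul_pos (by linarith) (t_pos n)
    choose z hz1 hz2 using fun n => hP y _ (hpos n)
    choose X hX1 hX2 hX3 hX4 using fun n => ih (β n.unpair.1) (hβ1 _) (z n) _ (hpos n)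
    have hd : ∀ n, ∀ x ∈ X n, dist x y ≤ r * t n := fun n x hx => by
      linarith [dist_triangle x (z n) y, hX4 n x hx, hz2 n]
    refine ⟨(⋃ n, X n) ∪ {y}, ?_, (countable_iUnion hX2).union (countable_singleton y),
      mem_D.2 ⟨Or.inr rfl, fun b hb => ?_⟩, ?_⟩
    · refine closed_union X _ (fun N => closedBall y (r * t N)) hX1
        (fun N => isClosed_closedBall) ?_ ?_ ?_
      · intro N n hn x hx
        exact (hd n x hx).trans (mul_le_mul_of_nonneg_left (t_anti hn) hr.le)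
      · rintro N x rfl
        exact mem_closedBall_self (mul_pos hr (t_pos N)).le
      · intro x hx
        have : dist x y / r ≤ 0 := t_zero fun N => by
          rw [div_le_iff₀ hr, mul_comm]; exact hx N
        have h2 : dist x y ≤ 0 := by
          by_contra h
          exact absurd this (not_le.2 (div_pos (not_le.1 h) hr))
        exact dist_le_zero.1 h2
    · rw [mem_derivedSet, accPt_iff_nhds]
      intro V hV
      obtain ⟨ε, hε, hV⟩ := Metric.mem_nhds_iff.1 hV
      have : b ∈ range β := hβ ▸ hb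
      obtain ⟨k, rfl⟩ := this
      obtain ⟨N, hN⟩ := eventually_atTop.1 (t_lim.eventually (gt_mem_nhds (div_pos hε hr)))
      have h1 := hN (Nat.pair k N) (Nat.right_le_pair k N)
      have h2 := hX3 (Nat.pair k N)
      rw [Nat.unpair_pair] at h2
      refine ⟨z (Nat.pair k N), ⟨hV ?_, D_mono ((subset_iUnion X _).trans subset_union_left) _ h2⟩,
        hz1 _⟩
      rw [lt_div_iff₀ hr] at h1
      have := hz2 (Nat.pair k N)
      have h3 := hpos (Nat.pair k N)
      rw [mem_ball]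
      nlinarith
    · rintro x (hx | hx)
      · obtain ⟨n, hn⟩ := mem_iUnion.1 hx
        have h1 : t n ≤ 1 := by simpa [t] using t_anti (Nat.zero_le n)
        nlinarith [hd n x hn]
      · simp [mem_singleton_iff.1 hx, hr.le]

end Pool.Agent.H42.Orb
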