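import Mathlib
import Pool.Agent.H42.Orb2

namespace Pool.Agent.H42.Orb
open Set Filter Topology Pool.Agent.H42.Dirac Cardinal Metric

variable {K : Type} [MetricSpace K] (e : ℕ → K)

def L (A : Set ℕ) : Set K :=
  {x | ∃ U : Ultrafilter ℕ, (U : Filter ℕ) ≤ cofinite ∧ A ∈ U ∧ Tendsto e U (𝓝 x)}

def C (f : ℕ → ℕ) (A : Set ℕ) : Set (K × K) :=
  {p | ∃ U : Ultrafilter ℕ, (U : Filter ℕ) ≤ cofinite ∧ A ∈ U ∧ Tendsto e U (𝓝 p.1) ∧
    Tendsto (e ∘ f) U (𝓝 p.2)}

lemma L_closed (A : Set ℕ) : IsClosed (L e A) := by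
  have : L e A = {x | ClusterPt x (map e (cofinite ⊓ 𝓟 A))} := by
    ext x
    change _ ↔ MapClusterPt x (cofinite ⊓ 𝓟 A) e
    rw [mapClusterPt_iff_ultrafilter]
    simp only [L, mem_ofPred_eq, le_inf_iff, le_principal_iff, and_assoc, Ultrafilter.mem_coe]
  rw [this]
  exact isClosed_setOfPred_clusterPt

lemma C_closed (f : ℕ → ℕ) (A : Set ℕ) : IsClosed (C e f A) := by
  have : C e f A = {x | ClusterPt x (map (fun n => (e n, e (f n))) (cofinite ⊓ 𝓟 A))} := by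
    ext x
    change _ ↔ MapClusterPt x (cofinite ⊓ 𝓟 A) (fun n => (e n, e (f n)))
    rw [mapClusterPt_iff_ultrafilter]
    simp only [C, mem_ofPred_eq, le_inf_iff, le_principal_iff, and_assoc, Ultrafilter.mem_coe,
      Prod.tendsto_iff]
    rfl
  rw [this]
  exact isClosed_setOfPred_clusterPt

lemma map_free {U : Ultrafilter ℕ} (hU : (U : Filter ℕ) ≤ cofinite) {f : ℕ → ℕ}
    (hf : Function.Injective f) : ((U.map f : Ultrafilter ℕ) : Filter ℕ) ≤ cofinite :=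
  (hf.tendsto_cofinite.mono_left hU : Tendsto f U cofinite)

variable [CompactSpace K]

lemma ex_lim (U : Ultrafilter ℕ) (u : ℕ → K) : ∃ y, Tendsto u U (𝓝 y) := by
  obtain ⟨y, -, hy⟩ := isCompact_univ.ultrafilter_le_nhds (U.map u) (by simp)
  exact ⟨y, hy⟩

def H : Subgroup (Equiv.Perm ℕ) where
  carrier := {g | FF (C e g univ)}
  one_mem' := by
    have : C e (1 : Equiv.Perm ℕ) univ ⊆ {p | p.1 = p.2} := by
      rintro p ⟨U, -, -, h1, h2⟩
      exact tendsto_nhds_unique h1 h2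
    refine FF.mono (S := {p | p.1 = p.2}) ⟨fun x => (finite_singleton x).subset fun y hy => ?_,
      fun y => (finite_singleton y).subset fun x hx => hx⟩ this
    exact Eq.symm hy
  mul_mem' := by
    intro g h hg hh
    have : C e (g * h : Equiv.Perm ℕ) univ ⊆
        {p | ∃ y, (p.1, y) ∈ C e h univ ∧ (y, p.2) ∈ C e g univ} := by
      rintro p ⟨U, h0, -, h1, h2⟩
      obtain ⟨y, hy⟩ := ex_lim U (e ∘ h)
      exact ⟨y, ⟨U, h0, univ_mem, h1, hy⟩,
        ⟨U.map h, map_free h0 h.injective, univ_mem, hy, h2⟩⟩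
    refine FF.mono ⟨fun x => ((hh.1 x).biUnion fun y _ => hg.1 y).subset ?_,
      fun z => ((hg.2 z).biUnion fun y _ => hh.2 y).subset ?_⟩ this
    · rintro z ⟨y, h1, h2⟩
      exact mem_biUnion h1 h2
    · rintro x ⟨y, h1, h2⟩
      exact mem_biUnion h2 h1
  inv_mem' := by
    intro g hg
    refine FF.mono (FF.swap hg) ?_
    rintro p ⟨U, h0, -, h1, h2⟩
    refine ⟨U.map (g⁻¹ : Equiv.Perm ℕ), map_free h0 (g⁻¹).injective, univ_mem, h2, ?_⟩
    change Tendsto ((e ∘ g) ∘ (g⁻¹ : Equiv.Perm ℕ)) U (𝓝 p.1)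
    refine h1.congr fun n => ?_
    simp

lemma H_inv {g : Equiv.Perm ℕ} (hg : g ∈ H e) (A : Set ℕ) (a : W)
    (h : (D (L e A) a).Nonempty) : (D (L e (g '' A)) a).Nonempty := by
  obtain ⟨x, hx⟩ := h
  obtain ⟨y, hy, -⟩ := D_inv (L_closed e (g '' A)) (C_closed e g univ) hg (X := L e A) (by
    rintro x ⟨U, h0, hA, h1⟩
    obtain ⟨y, hy⟩ := ex_lim U (e ∘ g)
    exact ⟨y, ⟨U.map g, map_free h0 g.injective, image_mem_map hA, hy⟩,
      ⟨U, h0, univ_mem, h1, hy⟩⟩) a x hx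
  exact ⟨y, hy⟩

def Emb (A B : Set ℕ) : Prop := ∃ f : ℕ → ℕ, InjOn f A ∧ MapsTo f A B ∧ FF (C e f A)

omit [CompactSpace K] in
lemma glue {A B : Set ℕ} (h1 : Emb e A B) (h2 : Emb e Aᶜ Bᶜ) : ∃ f : ℕ → ℕ,
    Function.Injective f ∧ (∀ a, a ∈ A ↔ f a ∈ B) ∧ FF (C e f univ) := by
  classical
  obtain ⟨f, f1, f2, f3⟩ := h1
  obtain ⟨g, g1, g2, g3⟩ := h2
  refine ⟨fun a => if a ∈ A then f a else g a, fun a b hab => ?_, fun a => ?_,
    FF.mono (f3.union g3) ?_⟩
  · by_cases ha : a ∈ A <;> by_cases hb : b ∈ A <;> simp only [ha, hb, if_true, if_false] at hab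
    · exact f1 ha hb hab
    · exact absurd (hab ▸ f2 ha) (g2 hb)
    · exact absurd (hab ▸ f2 hb) (g2 ha)
    · exact g1 ha hb hab
  · by_cases ha : a ∈ A <;> simp only [ha, if_true, if_false, true_iff, false_iff]
    · exact f2 ha
    · exact g2 ha
  · rintro p ⟨U, h0, -, h1, h2⟩
    rcases U.mem_or_compl_mem A with h | h
    · refine Or.inl ⟨U, h0, h, h1, h2.congr' (mem_of_superset h fun a ha => ?_)⟩
      simp [ha]
    · refine Or.inr ⟨U, h0, h, h1, h2.congr' (mem_of_superset h fun a ha => ?_)⟩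
      have : a ∉ A := ha
      simp [this]

lemma same_orbit {A B : Set ℕ} (h1 : Emb e A B) (h2 : Emb e Aᶜ Bᶜ) (h3 : Emb e B A)
    (h4 : Emb e Bᶜ Aᶜ) : ∃ g ∈ H e, g '' A = B := by
  obtain ⟨f, f1, f2, f3⟩ := glue e h1 h2
  obtain ⟨h, g1, g2, g3⟩ := glue e h3 h4
  obtain ⟨g, hg, hg'⟩ := Function.Embedding.schroeder_bernstein_of_rel f1 g1
    (fun a b => b = f a ∨ a = h b) (fun _ => Or.inl rfl) (fun _ => Or.inr rfl)
  refine ⟨Equiv.ofBijective g hg, FF.mono (f3.union g3.swap) ?_, ?_⟩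
  · rintro p ⟨U, h0, -, h1, h2⟩
    change Tendsto (e ∘ g) U _ at h2
    rcases U.mem_or_compl_mem {a | g a = f a} with h' | h'
    · refine Or.inl ⟨U, h0, univ_mem, h1, h2.congr' (mem_of_superset h' fun a ha => ?_)⟩
      have : g a = f a := ha
      simp [this]
    · refine Or.inr ⟨U.map g, map_free h0 hg.1, univ_mem, h2, ?_⟩
      change Tendsto ((e ∘ h) ∘ g) U (𝓝 p.1)
      refine h1.congr' (mem_of_superset h' fun a ha => ?_)
      have := (hg' a).resolve_left ha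
      simp [← this]
  · have key : ∀ a, a ∈ A ↔ g a ∈ B := fun a => by
      rcases hg' a with h' | h'
      · rw [h']; exact f2 a
      · rw [g2, ← h']
    ext b
    constructor
    · rintro ⟨a, ha, rfl⟩
      exact (key a).1 ha
    · intro hb
      obtain ⟨a, rfl⟩ := hg.2 b
      exact ⟨a, (key a).2 hb, rfl⟩

lemma inj_choice (N : ℕ → Set ℕ) (hN : ∀ a, (N a).Infinite) :
    ∃ f : ℕ → ℕ, StrictMono f ∧ ∀ a, f a ∈ N a := by
  choose g hg1 hg2 using fun a m => (hN a).exists_gt m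
  refine ⟨fun n => Nat.rec (g 0 0) (fun k m => g (k + 1) m) n,
    strictMono_nat_of_lt_succ fun n => hg2 _ _, fun a => ?_⟩
  cases a with
  | zero => exact hg1 0 0
  | succ k => exact hg1 _ _

omit [CompactSpace K] in
lemma L_inf {B : Set ℕ} {y : K} (hy : y ∈ L e B) {r : ℝ} (hr : 0 < r) :
    {b ∈ B | dist (e b) y < r}.Infinite := by
  obtain ⟨U, h0, hB, h1⟩ := hy
  intro hf
  have h2 : e ⁻¹' ball y r ∈ (U : Filter ℕ) := h1 (ball_mem_nhds y hr)
  obtain ⟨b, ⟨hb1, hb2⟩, hb3⟩ :=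
    Filter.nonempty_of_mem (inter_mem (inter_mem hB h2) (h0 hf.compl_mem_cofinite))
  exact hb3 ⟨hb1, hb2⟩

lemma L_ne {A : Set ℕ} (hA : A.Infinite) : (L e A).Nonempty := by
  have : (cofinite ⊓ 𝓟 A).NeBot := by
    rw [← frequently_mem_iff_neBot, frequently_cofinite_mem_iff_infinite]
    exact hA
  obtain ⟨U, hU⟩ := exists_ultrafilter_iff.2 this
  obtain ⟨y, hy⟩ := ex_lim U e
  exact ⟨y, U, hU.trans inf_le_left, le_principal_iff.1 (hU.trans inf_le_right), hy⟩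

omit [MetricSpace K] [CompactSpace K] in
lemma t_U {U : Ultrafilter ℕ} (h0 : (U : Filter ℕ) ≤ cofinite) : Tendsto t U (𝓝 0) :=
  t_lim.mono_left (h0.trans Nat.cofinite_eq_atTop.le)

lemma emb_of_le {A B : Set ℕ} (hA : A.Infinite) (h : Le (L e A) (L e B)) : Emb e A B := by
  obtain ⟨R, r1, r2, r3, r4⟩ := h
  choose x hx1 hx2 using fun a =>
    (L_closed e A).isCompact.exists_infDist_eq_dist (L_ne e hA) (e a)
  choose y hy using fun a => r4 (x a) (hx1 a)
  obtain ⟨f, f1, f2⟩ := inj_choice _ fun a => L_inf e (r3 (hy a)).2 (t_pos a)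
  refine ⟨f, f1.injective.injOn, fun a _ => (f2 a).1, r2.mono ?_⟩
  rintro p ⟨U, h0, hAU, h1, h2⟩
  have hp : p.1 ∈ L e A := ⟨U, h0, hAU, h1⟩
  have h3 : Tendsto x U (𝓝 p.1) := by
    refine h1.congr_dist (squeeze_zero (fun _ => dist_nonneg) (fun a => ?_)
      (tendsto_iff_dist_tendsto_zero.1 h1))
    rw [← hx2]
    exact infDist_le_dist_of_mem hp
  have h4 : Tendsto y U (𝓝 p.2) :=
    h2.congr_dist (squeeze_zero (fun _ => dist_nonneg) (fun a => (f2 a).2.le) (t_U h0))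
  exact r1.mem_of_tendsto (h3.prodMk_nhds h4) (Eventually.of_forall hy)

omit [CompactSpace K] in
lemma emb_fin {A B : Set ℕ} (hA : A.Finite) (h : A.encard ≤ B.encard) : Emb e A B := by
  obtain ⟨f, f1, f2⟩ := hA.exists_injOn_of_encard_le h
  have : C e f A = ∅ := by
    refine eq_empty_of_forall_notMem ?_
    rintro p ⟨U, h0, hAU, -⟩
    exact (Ultrafilter.compl_mem_iff_notMem.1 (h0 hA.compl_mem_cofinite)) hAU
  exact ⟨f, f2, f1, by rw [this]; exact ⟨fun _ => by simp, fun _ => by simp⟩⟩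

omit [CompactSpace K] in
lemma ex_L (he : ∀ (y : K) (r : ℝ), 0 < r → {n | dist (e n) y < r}.Infinite) {X : Set K}
    (hX : IsClosed X) (hc : X.Countable) (hne : X.Nonempty) : ∃ A, L e A = X := by
  obtain ⟨x, rfl⟩ := hc.exists_eq_range hne
  obtain ⟨f, f1, f2⟩ := inj_choice _ fun n => he (x n.unpair.1) _ (t_pos n)
  refine ⟨range f, Subset.antisymm ?_ ?_⟩
  · rintro z ⟨U, h0, hA, h1⟩
    rw [← hX.closure_eq, Metric.mem_closure_iff]
    intro ε hε
    obtain ⟨N, hN⟩ := eventually_atTop.1 (t_lim.eventually (gt_mem_nhds (half_pos hε)))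
    have h2 : e ⁻¹' ball z (ε / 2) ∈ (U : Filter ℕ) := h1 (ball_mem_nhds z (half_pos hε))
    obtain ⟨b, ⟨⟨n, rfl⟩, hb2⟩, hb3⟩ := Filter.nonempty_of_mem
      (inter_mem (inter_mem hA h2) (h0 ((finite_Iio N).image f).compl_mem_cofinite))
    have hn : N ≤ n := not_lt.1 fun h => hb3 ⟨n, h, rfl⟩
    refine ⟨_, mem_range_self n.unpair.1, ?_⟩
    have h3 : dist (e (f n)) z < ε / 2 := hb2
    have h4 : dist (e (f n)) (x n.unpair.1) < t n := f2 n
    linarith [hN n hn, dist_triangle_left z (x n.unpair.1) (e (f n))]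
  · rintro _ ⟨k, rfl⟩
    have hi : Function.Injective fun m => f (Nat.pair k m) := fun a b hab => by
      simpa using f1.injective hab
    refine ⟨(hyperfilter ℕ).map fun m => f (Nat.pair k m), map_free hyperfilter_le_cofinite hi,
      ?_, ?_⟩
    · exact Ultrafilter.mem_map.2 (univ_mem' fun m => mem_range_self _)
    · change Tendsto (fun m => e (f (Nat.pair k m))) (hyperfilter ℕ) (𝓝 (x k))
      refine tendsto_iff_dist_tendsto_zero.2 (squeeze_zero (fun _ => dist_nonneg) (fun m => ?_)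
        (t_U hyperfilter_le_cofinite))
      have h4 : dist (e (f (Nat.pair k m))) (x (Nat.pair k m).unpair.1) < t (Nat.pair k m) := f2 _
      rw [Nat.unpair_pair] at h4
      exact h4.le.trans (t_anti (Nat.right_le_pair k m))

end Pool.Agent.H42.Orb
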