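import Mathlib
import Pool.Agent.H42.Orb3

namespace Pool.Agent.H42.Orb
open Set Filter Topology Pool.Agent.H42.Dirac Cardinal Metric Pointwise

variable {K : Type} [MetricSpace K] [CompactSpace K] (e : ℕ → K)

open Classical in
noncomputable def inv (A : Set ℕ) : ℕ∞ × Option W :=
  (A.encard, if h : ∃ a : W, derivedSet (D (L e A) a) = ∅ ∧ (L e A).Countable then
    some (wellFounded_lt.min _ h) else none)

lemma emb_of_inv (hK : ∀ X : Set K, IsClosed X → ¬ X.Countable →
      ∃ φ : K → K, range φ ⊆ X ∧ Continuous φ ∧ Function.Injective φ)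
    {A B : Set ℕ} (h : inv e A = inv e B) : Emb e A B := by
  have h1 : A.encard = B.encard := congrArg Prod.fst h
  have h2 := congrArg Prod.snd h
  by_cases hA : A.Finite
  · exact emb_fin e hA h1.le
  have hB : B.Infinite := by
    rw [← encard_eq_top_iff, ← h1, encard_eq_top_iff]; exact hA
  refine emb_of_le e hA ?_
  by_cases hc : (L e B).Countable
  · have hB' : ∃ a : W, derivedSet (D (L e B) a) = ∅ ∧ (L e B).Countable := by
      obtain ⟨a, ha⟩ := D_term (L_closed e B) hc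
      exact ⟨a, ha, hc⟩
    simp only [inv, dif_pos hB'] at h2
    split_ifs at h2 with hA'
    have h3 := Option.some.inj h2
    refine le_of_rank _ _ _ (L_closed e A) (L_closed e B) (wellFounded_lt.min_mem _ hA').1 ?_
    rw [h3, nonempty_iff_ne_empty]
    intro h0
    obtain ⟨b, hb, hb'⟩ := D_drop (L_closed e B) (L_ne e hB) h0
    exact wellFounded_lt.not_lt_min {a | derivedSet (D (L e B) a) = ∅ ∧
      (L e B).Countable} (x := b) ⟨hb', hc⟩ hb
  · obtain ⟨φ, h3, h4, h5⟩ := hK _ (L_closed e B) hc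
    refine ⟨{p | p.1 ∈ L e A ∧ p.2 = φ p.1}, ((L_closed e A).preimage continuous_fst).inter
      (isClosed_eq continuous_snd (h4.comp continuous_fst)), ⟨fun x => ?_, fun y => ?_⟩, ?_,
      fun x hx => ⟨φ x, hx, rfl⟩⟩
    · exact (finite_singleton (φ x)).subset fun y hy => hy.2
    · exact ((finite_singleton y).preimage h5.injOn).subset fun x hx => hx.2.symm
    · rintro ⟨x, y⟩ ⟨h6, h7⟩
      exact ⟨h6, h3 ⟨x, h7.symm⟩⟩

lemma rel_iff (A B : Set ℕ) :
    (MulAction.orbitRel (H e) (Set ℕ)).r A B ↔ ∃ g ∈ H e, g '' B = A := by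
  change A ∈ MulAction.orbit (H e) B ↔ _
  constructor
  · rintro ⟨g, rfl⟩
    exact ⟨g, g.2, rfl⟩
  · rintro ⟨g, hg, rfl⟩
    exact ⟨⟨g, hg⟩, rfl⟩

lemma upper (hK : ∀ X : Set K, IsClosed X → ¬ X.Countable →
      ∃ φ : K → K, range φ ⊆ X ∧ Continuous φ ∧ Function.Injective φ) :
    #(MulAction.orbitRel.Quotient (H e) (Set ℕ)) ≤ ℵ₁ := by
  have h1 : Function.Injective fun o : MulAction.orbitRel.Quotient (H e) (Set ℕ) =>
      (inv e o.out, inv e (o.out)ᶜ) := by
    intro o o' h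
    have h1 := congrArg Prod.fst h
    have h2 := congrArg Prod.snd h
    rw [← Quotient.out_eq o, ← Quotient.out_eq o']
    exact Quotient.sound ((rel_iff e _ _).2 (same_orbit e (emb_of_inv e hK h1.symm)
      (emb_of_inv e hK h2.symm) (emb_of_inv e hK h1) (emb_of_inv e hK h2)))
  refine (mk_le_of_injective h1).trans ?_
  have h2 : #(ℕ∞ × Option W) ≤ ℵ₁ := by
    rw [mk_prod, mk_option, W_card, lift_id, lift_id]
    refine mul_le_of_le aleph0_lt_aleph_one.le (mk_le_aleph0.trans aleph0_lt_aleph_one.le) ?_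
    rw [add_one_eq aleph0_lt_aleph_one.le]
  rw [mk_prod, lift_id]
  exact mul_le_of_le aleph0_lt_aleph_one.le h2 h2

lemma lower [Nonempty K] (he : ∀ (y : K) (r : ℝ), 0 < r → {n | dist (e n) y < r}.Infinite)
    (hP : ∀ (y : K) (r : ℝ), 0 < r → ∃ z, z ≠ y ∧ dist z y < r) :
    ℵ₁ ≤ #(MulAction.orbitRel.Quotient (H e) (Set ℕ)) := by
  obtain ⟨y⟩ := ‹Nonempty K›
  have h1 : ∀ a : W, ∃ A, (L e A).Countable ∧ (D (L e A) a).Nonempty := by
    intro a
    obtain ⟨X, h1, h2, h3, -⟩ := high hP a y 1 one_pos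
    obtain ⟨A, hA⟩ := ex_L e he h1 h2 ⟨y, D_sub X a h3⟩
    exact ⟨A, hA ▸ h2, hA ▸ ⟨y, h3⟩⟩
  choose A hA1 hA2 using h1
  by_contra hlt
  rw [not_le, ← succ_aleph0, Order.lt_succ_iff, mk_le_aleph0_iff] at hlt
  have h2 : ∀ o : MulAction.orbitRel.Quotient (H e) (Set ℕ),
      {a : W | Quotient.mk _ (A a) = o}.Countable := by
    intro o
    rcases {a : W | Quotient.mk _ (A a) = o}.eq_empty_or_nonempty with h | ⟨b, hb⟩
    · rw [h]; exact countable_empty
    obtain ⟨c, hc⟩ := D_term (L_closed e (A b)) (hA1 b)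
    refine (Iic_count c).mono fun a ha => mem_Iic.2 (not_lt.1 fun hca => ?_)
    have h3 : (MulAction.orbitRel (H e) (Set ℕ)).r (A b) (A a) :=
      Quotient.exact (hb.trans (Eq.symm ha))
    obtain ⟨g, hg, hg'⟩ := (rel_iff e _ _).1 h3
    obtain ⟨x, hx⟩ := H_inv e hg (A a) a (hA2 a)
    rw [hg'] at hx
    have := (mem_D.1 hx).2 c hca
    rw [hc] at this
    exact this
  have h3 : (univ : Set W).Countable :=
    (countable_iUnion h2).mono fun a _ => mem_iUnion.2 ⟨Quotient.mk _ (A a), rfl⟩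
  have h4 := Cardinal.mk_le_aleph0_iff.2 (countable_univ_iff.1 h3)
  rw [W_card] at h4
  exact absurd h4 (not_le.2 aleph0_lt_aleph_one)

theorem orbits : ∃ G : Subgroup (Equiv.Perm ℕ),
    #(MulAction.orbitRel.Quotient G (Set ℕ)) = ℵ₁ := by
  have : PolishSpace (ℕ → Bool) := PolishSpace.mk
  have hK : ∀ X : Set (ℕ → Bool), IsClosed X → ¬ X.Countable →
      ∃ φ : (ℕ → Bool) → (ℕ → Bool), range φ ⊆ X ∧ Continuous φ ∧ Function.Injective φ :=
    fun X hX hc => hX.exists_nat_bool_injection_of_not_countable hc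
  have hN : ∀ (y : ℕ → Bool), ∀ V ∈ 𝓝 y, ∃ z ∈ V, z ≠ y := by
    intro y V hV
    have h1 : Tendsto (fun n => Function.update y n (!y n)) atTop (𝓝 y) := by
      refine tendsto_pi_nhds.2 fun k => tendsto_const_nhds.congr' ?_
      filter_upwards [eventually_gt_atTop k] with n hn
      rw [Function.update_of_ne hn.ne]
    obtain ⟨n, hn⟩ := (h1.eventually hV).exists
    refine ⟨_, hn, fun h => ?_⟩
    have := congrFun h n
    simp at this
  let _ : MetricSpace (ℕ → Bool) := TopologicalSpace.metrizableSpaceMetric _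
  have hd := TopologicalSpace.denseRange_denseSeq (ℕ → Bool)
  refine ⟨H (fun n => TopologicalSpace.denseSeq (ℕ → Bool) n.unpair.1),
    le_antisymm (upper _ hK) (lower _ ?_ ?_)⟩
  · intro y r hr
    obtain ⟨k, hk⟩ := hd.exists_dist_lt y hr
    refine infinite_of_injective_forall_mem (f := fun m => Nat.pair k m)
      (fun a b hab => by simpa using hab) fun m => ?_
    simp only [mem_ofPred_eq, Nat.unpair_pair]
    rwa [dist_comm]
  · intro y r hr
    obtain ⟨z, h1, h2⟩ := hN y _ (ball_mem_nhds y hr)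
    exact ⟨z, h2, h1⟩

end Pool.Agent.H42.Orb
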