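import Pool.Agent.H42.Osc1

/-! In the random model few null sets do not cover the reals. -/

namespace Pool.Agent.H42.ZF

open Set MeasureTheory Filter Topology Cardinal symmDiff

variable {L : Type}

open Classical in
theorem flip_mp' (T : Set (L × ℕ)) :
    MeasurePreserving (fun (x : L × ℕ → Bool) i => if i ∈ T then !x i else x i)
      (coin L) (coin L) := by
  refine ⟨measurable_pi_iff.2 fun i => by split_ifs <;> fun_prop, ?_⟩
  rw [coin, Measure.infinitePi_map_pi (f := fun i b => if i ∈ T then !b else b) _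
    fun _ => by fun_prop]
  congr 1
  funext i
  split_ifs
  · refine Measure.ext_of_singleton fun b => ?_
    rw [Measure.map_apply (by fun_prop) (measurableSet_singleton _),
      show (fun b => !b) ⁻¹' {b} = {!b} by ext c; cases b <;> cases c <;> simp]
    simp
  · exact Measure.map_id

/-- the trace of the `a`-th real on `l` -/
def tr (a : L) (l : ℕ) (x : L × ℕ → Bool) : Finset ℕ :=
  (Finset.range l).filter fun i => x (a, i) = true

theorem mtr (a : L) (l : ℕ) (t : Finset ℕ) : MeasurableSet {x | tr a l x = t} := by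
  simp only [tr, Finset.ext_iff, Finset.mem_filter]
  measurability

open Classical in
theorem thin_le (b : Finset ℕ → Set (L × ℕ → Bool)) (hb : ∀ t, MeasurableSet (b t)) (a : L)
    (h : ∀ t x y, (∀ j : L × ℕ, j.1 ≠ a → x j = y j) → x ∈ b t → y ∈ b t) (l k : ℕ) :
    coin L {x | ((Finset.range l).powerset.filter fun t => x ∈ b t).card * k ≤ 2 ^ l ∧
      x ∈ b (tr a l x)} ≤ (k : ENNReal)⁻¹ := by
  set W := {x | ((Finset.range l).powerset.filter fun t => x ∈ b t).card * k ≤ 2 ^ l ∧
      x ∈ b (tr a l x)}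
  have hW : MeasurableSet W := by
    refine MeasurableSet.inter (s₁ := {x | ((Finset.range l).powerset.filter
      fun t => x ∈ b t).card * k ≤ 2 ^ l}) (s₂ := {x | x ∈ b (tr a l x)})
      (measurableSet_le (Measurable.mul_const ?_ _) measurable_const) ?_
    · simp only [Finset.card_filter]
      exact Finset.measurable_sum _ fun t _ => .ite (hb t) measurable_const measurable_const
    · convert MeasurableSet.iUnion fun t => (hb t).inter (mtr a l t) using 1
      ext x
      simp only [mem_iUnion, mem_inter_iff, mem_ofPred_eq, exists_eq_right']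
  let F : Finset ℕ → (L × ℕ → Bool) → L × ℕ → Bool := fun t x i =>
    if i ∈ {j : L × ℕ | j.1 = a ∧ j.2 ∈ t} then !x i else x i
  have hF : ∀ t, MeasurePreserving (F t) (coin L) (coin L) := fun t => by
    convert flip_mp' {j : L × ℕ | j.1 = a ∧ j.2 ∈ t}
  have e : ∀ t s x, F t x ∈ b s ↔ x ∈ b s := fun t s x =>
    ⟨h _ _ _ fun j c => by simp [F, c], h _ _ _ fun j c => by simp [F, c]⟩
  have key : ∀ x, (k : ENNReal) * ∑ t ∈ (Finset.range l).powerset,
      (F t ⁻¹' W).indicator 1 x ≤ 2 ^ l := fun x => by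
    simp only [indicator, Pi.one_apply, Finset.sum_boole]
    rcases ((Finset.range l).powerset.filter fun t => x ∈ F t ⁻¹' W).eq_empty_or_nonempty with
      c | ⟨t, c⟩
    · rw [c]; simp
    have d := (Finset.mem_filter.1 c).2.1
    simp only [e] at d
    refine mod_cast (mul_comm _ _).trans_le ((Nat.mul_le_mul_right k ?_).trans d)
    refine Finset.card_le_card_of_injOn (fun t => tr a l (F t x)) (fun t c => ?_) fun t c s d g => ?_
    · exact Finset.mem_filter.2 ⟨Finset.mem_powerset.2 (Finset.filter_subset _ _),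
        (e _ _ _).1 (Finset.mem_filter.1 c).2.2⟩
    · ext i
      have g := Finset.ext_iff.1 g i
      have c := @Finset.mem_powerset.1 (Finset.mem_filter.1 c).1 i
      have d := @Finset.mem_powerset.1 (Finset.mem_filter.1 d).1 i
      simp only [tr, F, Finset.mem_filter, mem_ofPred_eq, true_and] at g
      by_cases u : i ∈ t <;> by_cases v : i ∈ s <;> simp_all
  have := lintegral_mono (μ := coin L) key
  rw [lintegral_const_mul _ (Finset.measurable_sum _ fun t _ =>
    measurable_one.indicator ((hF t).measurable hW)), lintegral_finsetSum _ fun t _ =>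
    measurable_one.indicator ((hF t).measurable hW)] at this
  simp only [fun t => lintegral_indicator_one (μ := coin L) ((hF t).measurable hW),
    fun t => (hF t).measure_preimage hW.nullMeasurableSet, Finset.sum_const, Finset.card_powerset,
    Finset.card_range, nsmul_eq_mul, lintegral_const, measure_univ, mul_one, Nat.cast_pow,
    Nat.cast_ofNat] at this
  rw [ENNReal.le_inv_iff_mul_le, ← ENNReal.mul_le_mul_iff_left (c := 2 ^ l) (by simp) (by simp)]
  convert this using 1
  · ring
  · simp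

/-- the name of the `a`-th random real -/
def ranN (a : L) : Nm (Rand (coin L)) :=
  fam natN fun n U => (bit (a, n) : Set (Rand (coin L))) ∈ U.U

theorem mem_ranN {a : L} {n : ℕ} {U : Ult (Rand (coin L))} :
    E U (mk U (natN n)) (mk U (ranN a)) ↔ (bit (a, n) : Set (Rand (coin L))) ∈ U.U :=
  ⟨fun h => fam_cases (fun _ _ a b => natN_inj b ▸ a) U h, fun h => fam_intro n h⟩

theorem not_caught (O : ℕ → Nm (Rand (coin L))) (a : L)
    (h : ∀ k l (t : Finset ℕ) x y, (∀ j : L × ℕ, j.1 ≠ a → x j = y j) →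
      x ∈ val (fun U => App (E U) (mk U (O k)) (mk U (natN l)) (mk U (setN t))) →
      y ∈ val fun U => App (E U) (mk U (O k)) (mk U (natN l)) (mk U (setN t)))
    {q : Rand (coin L)} (hq : ∀ k, Frc q fun U => Thin (E U) (mk U (O k)) (mk U (natN k))
      (mk U omegaN) ∧ Caught (E U) (mk U (ranN a)) (mk U (O k)) (mk U omegaN)) : False := by
  classical
  obtain ⟨k, hk⟩ := ENNReal.exists_inv_nat_lt q.2.2
  let b : ℕ → Finset ℕ → Set (L × ℕ → Bool) := fun l t =>
    val fun U => App (E U) (mk U (O k)) (mk U (natN l)) (mk U (setN t))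
  have a1 : ∀ l, ∀ᵐ x ∂coin L, x ∈ q.1 →
      ((Finset.range l).powerset.filter fun t => x ∈ b l t).card * k ≤ 2 ^ l := fun l => by
    filter_upwards [ae_ult (fun (t : (Finset.range l).powerset) U =>
      App (E U) (mk U (O k)) (mk U (natN l)) (mk U (setN t.1))) q] with x c d
    obtain ⟨U, c, e⟩ := c d
    obtain ⟨X, Y, j, f1, f2, f3⟩ := (hq k U c).1 _ (nat_mem_omega l)
    refine (card_prod _ (Finset.range l).powerset (fun t : Finset ℕ => setN t)
      (fun t => mk U (setN t)) (fun t _ s _ g => Finset.ext fun i => ?_) f3 f1 (fun t g => ?_)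
      fun y g => ?_).trans_eq (by simp)
    · exact mem_setN.symm.trans ((congrArg (E U _) g).to_iff.trans mem_setN)
    · obtain ⟨g1, g2⟩ := Finset.mem_filter.1 g
      refine ⟨fun z g => ?_, (e ⟨t, g1⟩).2 g2⟩
      obtain ⟨z, rfl⟩ := mk_surj z
      exact fam_cases (fun n U u v => v ▸ natN_mem.2
        (Finset.mem_range.1 (Finset.mem_powerset.1 g1 u))) U g
    · refine ⟨(Finset.range l).filter fun i => E U (mk U (natN i)) y,
        Finset.mem_powerset.2 (Finset.filter_subset _ _), M_ext fun z => ⟨fun u => ?_, fun u => ?_⟩⟩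
      · obtain ⟨i, v, rfl⟩ := mem_natN.1 ((f2 y).1 g z u)
        exact mem_setN.2 (by simp [v, u])
      · obtain ⟨i, v, rfl⟩ : ∃ i < l, z = mk U (natN i) := by
          obtain ⟨z, rfl⟩ := mk_surj z
          exact mem_natN.1 (fam_cases (fun n U u v => v ▸ natN_mem.2 (by simp at u; exact u.1)) U u)
        simpa [v] using mem_setN.1 u
  let R : ℕ → Ult (Rand (coin L)) → Prop := fun n U => ∀ l s, E U l (mk U omegaN) →
    Sub (E U) (mk U (natN n)) l → (∀ z, E U z s ↔ E U z (mk U (ranN a)) ∧ E U z l) →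
      App (E U) (mk U (O k)) l s
  have a2 := null_of_dense R (p := q) fun r hr => by
    obtain ⟨m, hm⟩ := frc_ex (S := fun U n => E U n (mk U omegaN) ∧ ∀ l s, E U l (mk U omegaN) →
      Sub (E U) n l → (∀ z, E U z s ↔ E U z (mk U (ranN a)) ∧ E U z l) →
        App (E U) (mk U (O k)) l s) (((hq k).mono hr).imp fun U h => h.2)
    obtain ⟨s, hs, n, hn⟩ := decide_nat (x := m) (p := r) (hm.imp fun _ h => h.1)
    exact ⟨s, hs, n, fun V hV => by
      have d := (hm.mono hs V hV).2
      rwa [show mk V m = mk V (natN n) from hn V hV] at d⟩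
  have a3 : ∀ n l t, n ≤ l → coin L ((val (R n) ∩ {x | tr a l x = t}) \ b l t) = 0 :=
    fun n l t c => by
    by_cases d : coin L (val (R n) ∩ {x | tr a l x = t}) = 0
    · exact measure_mono_null sdiff_subset d
    let r : Rand (coin L) := ⟨_, (val_meas _).inter (mtr a l t), d⟩
    refine (frc_val (q := r)).1 fun U hU => (frc_val (Q := R n) (q := r)).2 (by
      rw [sdiff_eq_empty.2 inter_subset_left, measure_empty]) U hU _ _ (nat_mem_omega l)
      (sub_natN.2 c) fun z => ?_
    obtain ⟨x, hx⟩ := nonempty_of_measure_ne_zero d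
    have ht : ∀ i ∈ t, i < l := fun i e => by
      rw [← show tr a l x = t from hx.2] at e
      exact Finset.mem_range.1 (Finset.mem_filter.1 e).1
    refine ⟨fun u => ?_, fun ⟨u, v⟩ => ?_⟩
    · obtain ⟨i, v, rfl⟩ : ∃ i < l, z = mk U (natN i) := by
        obtain ⟨z, rfl⟩ := mk_surj z
        exact mem_natN.1 (fam_cases (fun n U u v => v ▸ natN_mem.2 (ht n u)) U u)
      refine ⟨mem_ranN.2 (frc_lower (p := r) (fun y hy => ?_) U hU), natN_mem.2 v⟩
      have := mem_setN.1 u
      rw [← show tr a l y = t from hy.2] at this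
      exact (Finset.mem_filter.1 this).2
    · obtain ⟨i, v', rfl⟩ := mem_natN.1 v
      obtain ⟨s, s1, s2⟩ := Filter.nonempty_of_mem (Filter.inter_mem hU (mem_ranN.1 u))
      obtain ⟨y, hy⟩ := nonempty_of_measure_ne_zero s.2.2
      refine mem_setN.2 ?_
      rw [← show tr a l y = t from (s1 hy).2]
      exact Finset.mem_filter.2 ⟨Finset.mem_range.2 v', s2 hy⟩
  let W : ℕ → Set (L × ℕ → Bool) := fun l =>
    {x | ((Finset.range l).powerset.filter fun t => x ∈ b l t).card * k ≤ 2 ^ l ∧
      x ∈ b l (tr a l x)}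
  refine hk.not_ge ((measure_mono_ae (t := ⋃ n, ⋂ l ≥ n, W l) ?_).trans ?_)
  · filter_upwards [ae_all_iff.2 a1, measure_eq_zero_iff_ae_notMem.1 a2, ae_all_iff.2 fun n =>
      ae_all_iff.2 fun l => ae_all_iff.2 fun t => ae_all_iff.2 fun c =>
        measure_eq_zero_iff_ae_notMem.1 (a3 n l t c)] with x c d e f
    obtain ⟨n, g⟩ := mem_iUnion.1 (by_contra fun g => d ⟨f, g⟩ : x ∈ ⋃ n, val (R n))
    exact mem_iUnion.2 ⟨n, mem_iInter₂.2 fun l u =>
      ⟨c l f, by_contra fun v => e n l _ u ⟨⟨g, rfl⟩, v⟩⟩⟩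
  · rw [Monotone.measure_iUnion fun n m c => biInter_subset_biInter_left fun l d => c.trans d]
    exact iSup_le fun n => (measure_mono (biInter_subset_of_mem (t := W) le_rfl)).trans
      (thin_le (b n) (fun _ => val_meas _) a (h k n) n k)

theorem cov (hL : 𝔠 < #L) (U : Ult (Rand (coin L))) (D : M U)
    (hD : NullCov (E U) D (mk U omegaN)) : ¬∃ j, Inj (E U) j D (mk U infN) := by
  rintro ⟨j, hj⟩
  obtain ⟨D, rfl⟩ := mk_surj D
  obtain ⟨j, rfl⟩ := mk_surj j
  choose O hO using fun (s : {s : Set ℕ // s.Infinite}) (k : ℕ) => max_pr (fun U O => ∃ N,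
    App (E U) (mk U j) N (mk U (setN s.1)) ∧ Thin (E U) O (mk U (natN k)) (mk U omegaN) ∧
      ∀ x, E U x N → Caught (E U) x O (mk U omegaN)) fun _ => cl
  choose I t hI ht using fun i : {s : Set ℕ // s.Infinite} × ℕ × ℕ × Finset ℕ =>
    (val_meas fun U => App (E U) (mk U (O i.1 i.2.1)) (mk U (natN i.2.2.1))
      (mk U (setN i.2.2.2))).eq_preimage_restrict_countable
  obtain ⟨a, ha⟩ : ∃ a, a ∉ ⋃ i, Prod.fst '' I i := by
    by_contra! c
    refine hL.not_ge ((mk_univ.symm.trans (congrArg (fun s : Set L => #s)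
      (eq_univ_of_forall c).symm)).trans_le (mk_iUnion_le_sum_mk.trans ((sum_le_sum _ (fun _ => ℵ₀)
        fun i => ((hI i).image _).le_aleph0).trans ?_)))
    have : #{s : Set ℕ // s.Infinite} ≤ 𝔠 := (mk_subtype_le _).trans_eq (by simp)
    simpa [mul_assoc] using (mul_le_mul_left this ℵ₀).trans_eq continuum_mul_aleph0
  obtain ⟨p, hp⟩ := ex_frc' (fun U => NullCov (E U) (mk U D) (mk U omegaN) ∧
    Inj (E U) (mk U j) (mk U D) (mk U infN)) ⟨hD, hj⟩
  obtain ⟨N, hN⟩ := frc_ex (S := fun U N => E U N (mk U D) ∧ E U (mk U (ranN a)) N)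
    (hp.imp fun U h => h.1.2 _ fun z hz => by
      obtain ⟨z, rfl⟩ := mk_surj z
      exact fam_cases (fun n U _ b => b ▸ nat_mem_omega n) U hz)
  obtain ⟨y, hy⟩ := frc_ex (S := fun U y => App (E U) (mk U j) (mk U N) y) (p := p)
    fun U hU => (hp U hU).2.1.ex (hN U hU).1
  obtain ⟨q, hq, s, hs⟩ := fam_elim (z := y) (p := p)
    (A := fun s : {s : Set ℕ // s.Infinite} => setN s.1) fun U hU => ((hp U hU).2.1.dom (hy U hU)).2
  refine not_caught (O s) a (q := q) (fun k l u x z c d => ?_) fun k U hU => ?_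
  · rw [ht (s, k, l, u)] at d ⊢
    refine (congrArg (· ∈ t (s, k, l, u)) (funext fun i => c _ fun e => ha ?_)).mp d
    exact mem_iUnion.2 ⟨_, i, i.2, e⟩
  · have c := hy.mono hq U hU
    beta_reduce at c
    rw [(hs U hU).2] at c
    obtain ⟨O', d⟩ := (hp.mono hq U hU).1.1 _ (hN.mono hq U hU).1 _ (nat_mem_omega k)
    obtain ⟨N', e, f, g⟩ := hO s k U ⟨O', _, c, d⟩
    exact ⟨f, g _ ((hp.mono hq U hU).2.2 _ _ _ c e ▸ (hN.mono hq U hU).2)⟩

end Pool.Agent.H42.ZF
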