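import Mathlib

/-! Parsing finitely supported vectors into blocks separated by long gaps. -/

namespace Pool.Agent.H42.PFilter

open Finsupp

variable {F : Type} [Field F]

/-- Block sequences. -/
def Blk (X : ℕ → ℕ →₀ F) : Prop :=
  ∀ n, X n ≠ 0 ∧ ∀ i ∈ (X n).support, ∀ j ∈ (X (n+1)).support, i < j

theorem Blk.lt {X : ℕ → ℕ →₀ F} (h : Blk X) {m n : ℕ} (hmn : m < n) :
    ∀ i ∈ (X m).support, ∀ j ∈ (X n).support, i < j := by
  induction n, hmn using Nat.le_induction with
  | base => exact (h m).2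
  | succ n _ ih =>
    intro i hi j hj
    obtain ⟨k, hk⟩ := support_nonempty_iff.2 (h n).1
    exact (ih i hi k hk).trans ((h n).2 k hk j hj)

theorem Blk.le_supp {X : ℕ → ℕ →₀ F} (h : Blk X) (n : ℕ) : ∀ i ∈ (X n).support, n ≤ i := by
  induction n with
  | zero => intros; exact Nat.zero_le _
  | succ n ih =>
    intro i hi
    obtain ⟨k, hk⟩ := support_nonempty_iff.2 (h n).1
    exact Nat.succ_le_of_lt ((ih k hk).trans_lt ((h n).2 k hk i hi))

theorem Blk.eq_of_mem {X : ℕ → ℕ →₀ F} (h : Blk X) {m n i : ℕ} (hm : X m i ≠ 0) (hn : X n i ≠ 0) :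
    m = n := by
  rcases lt_trichotomy m n with h1 | h1 | h1
  · exact absurd (h.lt h1 i (mem_support_iff.2 hm) i (mem_support_iff.2 hn)) (lt_irrefl _)
  · exact h1
  · exact absurd (h.lt h1 i (mem_support_iff.2 hn) i (mem_support_iff.2 hm)) (lt_irrefl _)

/-- Least point of the support. -/
noncomputable def lo (b : ℕ →₀ F) : ℕ := sInf {i | b i ≠ 0}

/-- Largest point of the support. -/
noncomputable def hi (b : ℕ →₀ F) : ℕ := b.support.sup id

theorem lo_le {b : ℕ →₀ F} {i : ℕ} (h : b i ≠ 0) : lo b ≤ i := Nat.sInf_le h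

theorem lo_ne {b : ℕ →₀ F} (h : b ≠ 0) : b (lo b) ≠ 0 := by
  obtain ⟨k, hk⟩ := support_nonempty_iff.2 h
  exact Nat.sInf_mem (s := {i | b i ≠ 0}) ⟨k, mem_support_iff.1 hk⟩

theorem lo_eq {b : ℕ →₀ F} {m : ℕ} (h : b m ≠ 0) (h' : ∀ i, b i ≠ 0 → m ≤ i) : lo b = m :=
  le_antisymm (lo_le h) (h' _ (lo_ne (by rintro rfl; exact h rfl)))

theorem le_hi {b : ℕ →₀ F} {i : ℕ} (h : b i ≠ 0) : i ≤ hi b :=
  Finset.le_sup (f := id) (mem_support_iff.2 h)

theorem hi_ne {b : ℕ →₀ F} (h : b ≠ 0) : b (hi b) ≠ 0 := by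
  obtain ⟨k, hk, he⟩ := Finset.exists_mem_eq_sup b.support (support_nonempty_iff.2 h) id
  have : hi b = k := he
  rw [this]; exact mem_support_iff.1 hk

theorem hi_eq {b : ℕ →₀ F} {m : ℕ} (h : b m ≠ 0) (h' : ∀ i, b i ≠ 0 → i ≤ m) : hi b = m :=
  le_antisymm (h' _ (hi_ne (by rintro rfl; exact h rfl))) (le_hi h)

theorem lo_smul {c : F} (hc : c ≠ 0) (b : ℕ →₀ F) : lo (c • b) = lo b := by
  unfold lo; congr 1; ext i; simp [hc]

theorem hi_smul {c : F} (hc : c ≠ 0) (b : ℕ →₀ F) : hi (c • b) = hi b := by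
  unfold hi; rw [support_smul_eq hc]

/-- Truncation below `N`. -/
noncomputable def trunc (u : ℕ → F) (N : ℕ) : ℕ →₀ F := ∑ i ∈ Finset.range N, single i (u i)

theorem trunc_succ (u : ℕ → F) (N : ℕ) : trunc u (N + 1) = trunc u N + single N (u N) :=
  Finset.sum_range_succ _ _

theorem trunc_apply (u : ℕ → F) (N i : ℕ) : trunc u N i = if i < N then u i else 0 := by
  induction N with
  | zero => simp [trunc]
  | succ N ih =>
    rw [trunc_succ, Finsupp.add_apply, ih, single_apply]
    by_cases h1 : i < N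
    · simp [h1, h1.ne', Nat.lt_succ_of_lt h1]
    · by_cases h2 : N = i
      · subst h2; simp
      · have : ¬ i < N + 1 := by omega
        simp [h1, h2, this]

open Classical in
/-- The parsing automaton: current block and parity. -/
noncomputable def run (g : (ℕ →₀ F) → ℕ) (w : (ℕ →₀ F) → Bool) (v : ℕ → F) :
    ℕ → (ℕ →₀ F) × Bool
  | 0 => (0, false)
  | n + 1 => if v n = 0 then run g w v n else
      if (run g w v n).1 ≠ 0 ∧ n ≤ g (run g w v n).1 then
        ((run g w v n).1 + single n (v n), (run g w v n).2)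
      else (single n (v n), xor (run g w v n).2 (w (run g w v n).1))

section auto

variable {g : (ℕ →₀ F) → ℕ} {w : (ℕ →₀ F) → Bool}

theorem run_zero {v : ℕ → F} {n : ℕ} (h : v n = 0) : run g w v (n + 1) = run g w v n := by
  rw [run, if_pos h]

theorem run_cont {v : ℕ → F} {n : ℕ} (h : v n ≠ 0)
    (h' : (run g w v n).1 ≠ 0 ∧ n ≤ g (run g w v n).1) :
    run g w v (n + 1) = ((run g w v n).1 + single n (v n), (run g w v n).2) := by
  rw [run, if_neg h, if_pos h']

theorem run_reset {v : ℕ → F} {n : ℕ} (h : v n ≠ 0)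
    (h' : ¬ ((run g w v n).1 ≠ 0 ∧ n ≤ g (run g w v n).1)) :
    run g w v (n + 1) = (single n (v n), xor (run g w v n).2 (w (run g w v n).1)) := by
  rw [run, if_neg h, if_neg h']

theorem run_congr {v v' : ℕ → F} {N : ℕ} (h : ∀ i < N, v i = v' i) :
    run g w v N = run g w v' N := by
  induction N with
  | zero => rfl
  | succ N ih =>
    rw [run, run, ih (fun i hi => h i (Nat.lt_succ_of_lt hi)), h N (Nat.lt_succ_self N)]

theorem run_ext {v : ℕ → F} {M N : ℕ} (hMN : M ≤ N) (h : ∀ i, M ≤ i → i < N → v i = 0) :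
    run g w v N = run g w v M := by
  induction N, hMN using Nat.le_induction with
  | base => rfl
  | succ N hN ih =>
    rw [run_zero (h N hN (Nat.lt_succ_self N)), ih (fun i h1 h2 => h i h1 (Nat.lt_succ_of_lt h2))]

theorem run_supp {v : ℕ → F} {N : ℕ} : ∀ i, (run g w v N).1 i ≠ 0 → i < N ∧ v i ≠ 0 := by
  induction N with
  | zero => intro i hi; exact absurd rfl hi
  | succ N ih =>
    intro i hi
    by_cases h : v N = 0
    · rw [run_zero h] at hi
      exact ⟨Nat.lt_succ_of_lt (ih i hi).1, (ih i hi).2⟩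
    by_cases h1 : i = N
    · subst h1; exact ⟨Nat.lt_succ_self _, h⟩
    by_cases h' : (run g w v N).1 ≠ 0 ∧ N ≤ g (run g w v N).1
    · rw [run_cont h h'] at hi
      simp only [Finsupp.add_apply, single_eq_of_ne h1, add_zero] at hi
      exact ⟨Nat.lt_succ_of_lt (ih i hi).1, (ih i hi).2⟩
    · rw [run_reset h h'] at hi
      simp only [single_eq_of_ne h1] at hi
      exact absurd rfl hi

theorem run_at {v : ℕ → F} {N : ℕ} : (run g w v N).1 N = 0 := by
  by_contra h
  exact lt_irrefl _ (run_supp N h).1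

theorem run_succ_at {v : ℕ → F} {N : ℕ} (h : v N ≠ 0) : (run g w v (N + 1)).1 N = v N := by
  by_cases h' : (run g w v N).1 ≠ 0 ∧ N ≤ g (run g w v N).1
  · rw [run_cont h h']; simp [run_at]
  · rw [run_reset h h']; simp

theorem run_ne {v : ℕ → F} {N i : ℕ} (hi : i < N) (h : v i ≠ 0) : (run g w v N).1 ≠ 0 := by
  induction N with
  | zero => exact absurd hi (Nat.not_lt_zero _)
  | succ N ih =>
    by_cases hN : v N = 0
    · rw [run_zero hN]
      refine ih ?_
      rcases Nat.lt_succ_iff_lt_or_eq.1 hi with h1 | h1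
      · exact h1
      · subst h1; exact absurd hN h
    · intro hc
      have := run_succ_at (g := g) (w := w) hN
      rw [hc] at this
      exact hN this.symm

theorem run_smul (hg : ∀ c : F, c ≠ 0 → ∀ b, g (c • b) = g b)
    (hw : ∀ c : F, c ≠ 0 → ∀ b, w (c • b) = w b) {c : F} (hc : c ≠ 0) (v : ℕ → F) (N : ℕ) :
    run g w (fun i => c * v i) N = (c • (run g w v N).1, (run g w v N).2) := by
  induction N with
  | zero => simp [run]
  | succ N ih =>
    by_cases h : v N = 0
    · rw [run_zero h, run_zero (by simp [h]), ih]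
    have h2 : (fun i => c * v i) N ≠ 0 := mul_ne_zero hc h
    by_cases h' : (run g w v N).1 ≠ 0 ∧ N ≤ g (run g w v N).1
    · rw [run_cont h h', run_cont h2 (by rw [ih]; simpa [hc, hg c hc] using h'), ih]
      simp
    · rw [run_reset h h', run_reset h2 (by rw [ih]; simpa [hc, hg c hc] using h'), ih]
      simp [hw c hc]

theorem run_restart (hw0 : w 0 = false) {v v' : ℕ → F} {m N : ℕ} (hmN : m < N)
    (h0 : ∀ i < m, v' i = 0) (h1 : ∀ i, m ≤ i → i < N → v' i = v i) (hm : v m ≠ 0)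
    (hr : ¬ ((run g w v m).1 ≠ 0 ∧ m ≤ g (run g w v m).1)) :
    run g w v N = ((run g w v' N).1,
      xor (xor (run g w v m).2 (w (run g w v m).1)) (run g w v' N).2) := by
  induction N, hmN using Nat.le_induction with
  | base =>
    have e : run g w v' m = (0, false) := run_ext (Nat.zero_le m) (fun i _ hi => h0 i hi)
    have e1 : v' m = v m := h1 m le_rfl (Nat.lt_succ_self m)
    rw [run_reset hm hr, run_reset (e1 ▸ hm) (by rw [e]; simp), e, e1]
    simp [hw0]
  | succ N hN ih =>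
    have ih' := ih (fun i a b => h1 i a (Nat.lt_succ_of_lt b))
    have e1 : v' N = v N := h1 N (Nat.le_of_succ_le hN) (Nat.lt_succ_self N)
    by_cases h : v N = 0
    · rw [run_zero h, run_zero (e1 ▸ h), ih']
    by_cases h' : (run g w v' N).1 ≠ 0 ∧ N ≤ g (run g w v' N).1
    · rw [run_cont h (by rw [ih']; exact h'), run_cont (e1 ▸ h) h', ih', e1]
    · rw [run_reset h (by rw [ih']; exact h'), run_reset (e1 ▸ h) h', ih', e1]
      simp

variable (g w) in
/-- The final state. -/
noncomputable def fin (v : ℕ →₀ F) : (ℕ →₀ F) × Bool := run g w v (hi v + 1)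

variable (g w) in
/-- The total parity. -/
noncomputable def phi (v : ℕ →₀ F) : Bool := xor (fin g w v).2 (w (fin g w v).1)

theorem run_eq_fin {v : ℕ →₀ F} {N : ℕ} (h : ∀ i, v i ≠ 0 → i < N) : run g w v N = fin g w v := by
  rcases le_total N (hi v + 1) with h1 | h1
  · refine (run_ext h1 fun i h2 _ => ?_).symm
    by_contra hc
    exact (h i hc).not_ge h2
  · refine run_ext h1 fun i h2 _ => ?_
    by_contra hc
    exact (Nat.lt_succ_of_le (le_hi hc)).not_ge h2

theorem fin_zero : fin g w (0 : ℕ →₀ F) = (0, false) :=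
  (run_eq_fin (N := 0) (fun _ h => absurd rfl h)).symm

theorem fin_ne {v : ℕ →₀ F} (h : v ≠ 0) : (fin g w v).1 ≠ 0 :=
  run_ne (Nat.lt_succ_self _) (hi_ne h)

theorem fin_smul (hg : ∀ c : F, c ≠ 0 → ∀ b, g (c • b) = g b)
    (hw : ∀ c : F, c ≠ 0 → ∀ b, w (c • b) = w b) {c : F} (hc : c ≠ 0) (v : ℕ →₀ F) :
    fin g w (c • v) = (c • (fin g w v).1, (fin g w v).2) := by
  unfold fin
  rw [hi_smul hc, ← run_smul hg hw hc]
  rfl

theorem fin_add (hw0 : w 0 = false) {v u : ℕ →₀ F} (hu : u ≠ 0)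
    (hvu : ∀ i, v i ≠ 0 → i < lo u) (hgap : (fin g w v).1 ≠ 0 → g (fin g w v).1 < lo u) :
    fin g w (v + u) = ((fin g w u).1, xor (phi g w v) (fin g w u).2) := by
  have hv0 : ∀ i, lo u ≤ i → v i = 0 := fun i hi => by
    by_contra hc; exact (hvu i hc).not_ge hi
  have hu0 : ∀ i < lo u, u i = 0 := fun i hi => by
    by_contra hc; exact hi.not_ge (lo_le hc)
  have e1 : run g w (⇑(v + u)) (lo u) = fin g w v := by
    rw [← run_eq_fin hvu]
    exact run_congr fun i hi => by simp [hu0 i hi]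
  have hlo : lo u < hi u + 1 := Nat.lt_succ_of_le (le_hi (lo_ne hu))
  have e2 := run_restart (g := g) hw0 (v := ⇑(v + u)) (v' := ⇑u) hlo hu0
    (fun i h1 _ => by simp [hv0 i h1]) (by simpa [hv0 _ le_rfl] using lo_ne hu)
    (by rw [e1]; rintro ⟨h1, h2⟩; exact (hgap h1).not_ge h2)
  rw [← run_eq_fin (v := v + u) (N := hi u + 1), e2, e1]
  · rfl
  · intro i hi
    by_cases h : v i = 0
    · exact Nat.lt_succ_of_le (le_hi (by simpa [h] using hi))
    · exact (hvu i h).trans hlo

theorem phi_add (hw0 : w 0 = false) {v u : ℕ →₀ F} (hu : u ≠ 0)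
    (hvu : ∀ i, v i ≠ 0 → i < lo u) (hgap : (fin g w v).1 ≠ 0 → g (fin g w v).1 < lo u) :
    phi g w (v + u) = xor (phi g w v) (phi g w u) := by
  conv_lhs => unfold phi
  rw [fin_add hw0 hu hvu hgap]
  simp [phi]

theorem dense_step (hw0 : w 0 = false) {a : ℕ → ℕ →₀ F} (ha : Blk a) (M : ℕ) :
    ∃ t ∈ Submodule.span F (Set.range a), t ≠ 0 ∧ M < lo t ∧ phi g w t = false := by
  have key : ∀ M, ∃ t ∈ Submodule.span F (Set.range a), t ≠ 0 ∧ M < lo t := fun M =>
    ⟨a (M + 1), Submodule.subset_span ⟨_, rfl⟩, (ha _).1,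
      ha.le_supp _ _ (mem_support_iff.2 (lo_ne (ha _).1))⟩
  obtain ⟨t, ht, h0, hM⟩ := key M
  by_cases hp : phi g w t = false
  · exact ⟨t, ht, h0, hM, hp⟩
  obtain ⟨t', ht', h0', hM'⟩ := key (max (hi t) (g (fin g w t).1))
  have h1 : ∀ i, t i ≠ 0 → i < lo t' := fun i hi =>
    (le_hi hi).trans_lt ((le_max_left _ _).trans_lt hM')
  by_cases hp' : phi g w t' = false
  · exact ⟨t', ht', h0', hM.trans (h1 _ (lo_ne h0)), hp'⟩
  have h2 : t' (lo t) = 0 := by
    by_contra hc; exact (h1 _ (lo_ne h0)).not_ge (lo_le hc)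
  have h3 : (t + t') (lo t) ≠ 0 := by simpa [h2] using lo_ne h0
  refine ⟨t + t', add_mem ht ht', fun hc => h3 (by rw [hc]; rfl), ?_, ?_⟩
  · rw [lo_eq h3]
    · exact hM
    · intro i hi
      by_cases h : t i = 0
      · exact (h1 _ (lo_ne h0)).le.trans (lo_le (by simpa [h] using hi))
      · exact lo_le h
  · rw [phi_add hw0 h0' h1 (fun _ => (le_max_right _ _).trans_lt hM')]
    simp only [Bool.not_eq_false] at hp hp'
    rw [hp, hp']; rfl

theorem dense (hg : ∀ c : F, c ≠ 0 → ∀ b, g (c • b) = g b)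
    (hw : ∀ c : F, c ≠ 0 → ∀ b, w (c • b) = w b) (hw0 : w 0 = false) {a : ℕ → ℕ →₀ F}
    (ha : Blk a) (k0 : ℕ) :
    ∃ t : ℕ → ℕ →₀ F, Blk t ∧ (∀ n, t n ∈ Submodule.span F (Set.range a)) ∧
      ∀ v ∈ Submodule.span F (Set.range t), phi g w v = false ∧ ∀ i, v i ≠ 0 → k0 < i := by
  choose T hT1 hT2 hT3 hT4 using dense_step (g := g) hw0 ha
  let M : ℕ → ℕ := fun n => Nat.rec k0 (fun _ m => max (hi (T m)) (g (fin g w (T m)).1)) n
  have hM : ∀ n, M (n + 1) = max (hi (T (M n))) (g (fin g w (T (M n))).1) := fun n => rfl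
  have hMlt : ∀ n, M n < M (n + 1) := fun n =>
    ((hT3 (M n)).trans_le (le_hi (lo_ne (hT2 _)))).trans_le (by rw [hM]; exact le_max_left _ _)
  have hM0 : ∀ n, k0 ≤ M n := fun n => (strictMono_nat_of_lt_succ hMlt).monotone (Nat.zero_le n)
  have hsup : ∀ n i, T (M n) i ≠ 0 → M n < i ∧ i ≤ M (n + 1) := fun n i h =>
    ⟨(hT3 _).trans_le (lo_le h), (le_hi h).trans (by rw [hM]; exact le_max_left _ _)⟩
  refine ⟨fun n => T (M n), fun n => ⟨hT2 _, fun i hi j hj => ?_⟩, fun n => hT1 _, ?_⟩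
  · exact (hsup n i (mem_support_iff.1 hi)).2.trans_lt (hsup (n + 1) j (mem_support_iff.1 hj)).1
  have key : ∀ (c : ℕ → F) (N : ℕ),
      phi g w (∑ n ∈ Finset.range N, c n • T (M n)) = false ∧
      (∀ i, (∑ n ∈ Finset.range N, c n • T (M n)) i ≠ 0 → k0 < i ∧ i ≤ M N) ∧
      ((fin g w (∑ n ∈ Finset.range N, c n • T (M n))).1 ≠ 0 →
        g (fin g w (∑ n ∈ Finset.range N, c n • T (M n))).1 ≤ M N) := by
    intro c N
    induction N with
    | zero => simp [phi, fin_zero, hw0]
    | succ N ih =>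
      rw [Finset.sum_range_succ]
      obtain ⟨i1, i2, i3⟩ := ih
      by_cases hc : c N = 0
      · rw [hc, zero_smul, add_zero]
        exact ⟨i1, fun i hi => ⟨(i2 i hi).1, (i2 i hi).2.trans (hMlt N).le⟩,
          fun h => (i3 h).trans (hMlt N).le⟩
      have hu : c N • T (M N) ≠ 0 := smul_ne_zero hc (hT2 _)
      have hl : M N < lo (c N • T (M N)) := by rw [lo_smul hc]; exact hT3 _
      have a1 : ∀ i, (∑ n ∈ Finset.range N, c n • T (M n)) i ≠ 0 → i < lo (c N • T (M N)) :=
        fun i hi => (i2 i hi).2.trans_lt hl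
      have a2 := fun h => (i3 h).trans_lt hl
      refine ⟨?_, fun i hi => ?_, fun _ => ?_⟩
      · rw [phi_add hw0 hu a1 a2, i1]
        have := hT4 (M N)
        unfold phi at this ⊢
        rw [fin_smul hg hw hc, hw _ hc]
        simpa using this
      · by_cases h : (∑ n ∈ Finset.range N, c n • T (M n)) i = 0
        · rw [Finsupp.add_apply, h, zero_add] at hi
          have := hsup N i (fun h' => hi (by simp [h']))
          exact ⟨(hM0 N).trans_lt this.1, this.2⟩
        · exact ⟨(i2 i h).1, (i2 i h).2.trans (hMlt N).le⟩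
      · rw [fin_add hw0 hu a1 a2, fin_smul hg hw hc, hg _ hc, hM]
        exact le_max_right _ _
  intro v hv
  obtain ⟨c, rfl⟩ := mem_span_range_iff_exists_finsupp.1 hv
  have : (c.sum fun i a => a • T (M i)) = ∑ n ∈ Finset.range (hi c + 1), c n • T (M n) := by
    apply sum_of_support_subset
    · intro i hi
      exact Finset.mem_range.2 (Nat.lt_succ_of_le (le_hi (mem_support_iff.1 hi)))
    · intros; simp
  rw [this]
  exact ⟨(key c _).1, fun i hi => ((key c _).2.1 i hi).1⟩

theorem parse (hw0 : w 0 = false) {a : ℕ → ℕ →₀ F} (ha : Blk a)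
    (hgap : ∀ n, g (fin g w (a n)).1 < lo (a (n + 1))) :
    ∃ b : ℕ → ℕ →₀ F, Blk b ∧ (∀ n, a n ∈ Submodule.span F (Set.range b)) ∧
      (∀ j, g (b j) < lo (b (j + 1))) ∧ ∀ j i, b j i ≠ 0 → ∃ n, a n i ≠ 0 := by
  let u : ℕ → F := fun i => ∑ n ∈ Finset.range (i + 1), a n i
  have hu1 : ∀ n i, a n i ≠ 0 → u i = a n i := by
    intro n i h
    apply Finset.sum_eq_single_of_mem
    · exact Finset.mem_range.2 (Nat.lt_succ_of_le (ha.le_supp n i (mem_support_iff.2 h)))
    · intro m _ hm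
      by_contra hc
      exact hm (ha.eq_of_mem hc h)
  have hu2 : ∀ i, u i ≠ 0 → ∃ n, a n i ≠ 0 := by
    intro i h
    obtain ⟨n, _, hn⟩ := Finset.exists_ne_zero_of_sum_ne_zero h
    exact ⟨n, hn⟩
  have hm : ∀ n n' i, n < n' → a n i ≠ 0 → i < lo (a n') := fun n n' i h hi =>
    ha.lt h i (mem_support_iff.2 hi) _ (mem_support_iff.2 (lo_ne (ha n').1))
  have hmono : StrictMono fun n => lo (a n) :=
    strictMono_nat_of_lt_succ fun n => hm n (n + 1) _ (Nat.lt_succ_self n) (lo_ne (ha n).1)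
  have hu3 : ∀ n i, lo (a n) ≤ i → i < lo (a (n + 1)) → a n i = u i := by
    intro n i h1 h2
    by_cases h : a n i = 0
    · rw [h]
      by_contra hc
      obtain ⟨k, hk⟩ := hu2 i (Ne.symm hc)
      rcases lt_trichotomy k n with h3 | h3 | h3
      · exact (hm k n i h3 hk).not_ge h1
      · subst h3; exact hk h
      · exact h2.not_ge ((hmono.monotone (Nat.succ_le_of_lt h3)).trans (lo_le hk))
    · exact (hu1 n i h).symm
  let R : ℕ → Prop := fun n => u n ≠ 0 ∧ ¬ ((run g w u n).1 ≠ 0 ∧ n ≤ g (run g w u n).1)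
  have hR : ∀ n, R (lo (a n)) := by
    intro n
    induction n with
    | zero =>
      refine ⟨by rw [hu1 0 _ (lo_ne (ha 0).1)]; exact lo_ne (ha 0).1, fun h => h.1 ?_⟩
      rw [run_ext (Nat.zero_le _)]
      · rfl
      · intro i _ hi
        by_contra hc
        obtain ⟨k, hk⟩ := hu2 i hc
        exact hi.not_ge ((hmono.monotone (Nat.zero_le k)).trans (lo_le hk))
    | succ n ih =>
      refine ⟨by rw [hu1 _ _ (lo_ne (ha _).1)]; exact lo_ne (ha _).1, fun h => ?_⟩
      have e := run_restart (g := g) hw0 (v := u) (v' := ⇑(a n)) (hmono (Nat.lt_succ_self n))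
        (fun i hi => by by_contra hc; exact hi.not_ge (lo_le hc)) (hu3 n) ih.1 ih.2
      rw [run_eq_fin (v := a n) (fun i hi => hm n _ i (Nat.lt_succ_self n) hi)] at e
      rw [e] at h
      exact (hgap n).not_ge h.2
  have hinf : ({n | R n} : Set ℕ).Infinite :=
    Set.infinite_of_injective_forall_mem hmono.injective hR
  let c : ℕ → ℕ := Nat.nth R
  have hc : StrictMono c := Nat.nth_strictMono hinf
  have hcR : ∀ j, R (c j) := Nat.nth_mem_of_infinite hinf
  have hRc : ∀ n, R n → ∃ k, c k = n := fun n hn => by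
    have : n ∈ Set.range (Nat.nth R) := by rw [Nat.range_nth_of_infinite hinf]; exact hn
    exact this
  have hin : ∀ j N, c j < N → N ≤ c (j + 1) →
      (run g w u N).1 (c j) ≠ 0 ∧ ∀ i, (run g w u N).1 i ≠ 0 → c j ≤ i := by
    intro j N h1
    induction N, h1 using Nat.le_induction with
    | base =>
      intro _
      rw [run_reset (hcR j).1 (hcR j).2]
      refine ⟨by simpa using (hcR j).1, fun i hi => ?_⟩
      by_contra hlt
      exact hi (single_eq_of_ne (by omega))
    | succ N hN ih =>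
      intro h2
      obtain ⟨i1, i2⟩ := ih (Nat.le_of_succ_le h2)
      by_cases h : u N = 0
      · rw [run_zero h]; exact ⟨i1, i2⟩
      have h' : (run g w u N).1 ≠ 0 ∧ N ≤ g (run g w u N).1 := by
        by_contra hn
        obtain ⟨k, rfl⟩ := hRc N ⟨h, hn⟩
        have b1 : j < k := hc.lt_iff_lt.1 hN
        have b2 : k < j + 1 := hc.lt_iff_lt.1 h2
        omega
      rw [run_cont h h']
      refine ⟨?_, fun i hi => ?_⟩
      · have : c j ≠ N := by omega
        simpa [single_eq_of_ne this] using i1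
      · by_cases hiN : i = N
        · omega
        · exact i2 i (by simpa [single_eq_of_ne hiN] using hi)
  let b : ℕ → ℕ →₀ F := fun j => (run g w u (c (j + 1))).1
  have hb1 : ∀ j, b j (c j) ≠ 0 := fun j => (hin j _ (hc (Nat.lt_succ_self j)) le_rfl).1
  have hb2 : ∀ j i, b j i ≠ 0 → c j ≤ i := fun j => (hin j _ (hc (Nat.lt_succ_self j)) le_rfl).2
  have hb0 : ∀ j, b j ≠ 0 := fun j h => hb1 j (by rw [h]; rfl)
  have hcur : ∀ N, R N → (run g w u N).1 ∈ Submodule.span F (Set.range b) := by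
    intro N hN
    obtain ⟨k, rfl⟩ := hRc N hN
    cases k with
    | succ j => exact Submodule.subset_span ⟨j, rfl⟩
    | zero =>
      have : ∀ N ≤ c 0, (run g w u N).1 = 0 := by
        intro N
        induction N with
        | zero => intro _; rfl
        | succ N ih =>
          intro hN
          have ih' := ih (Nat.le_of_succ_le hN)
          by_cases h : u N = 0
          · rw [run_zero h, ih']
          · obtain ⟨k, rfl⟩ := hRc N ⟨h, fun h' => h'.1 ih'⟩
            exact absurd (hc.lt_iff_lt.1 hN) (Nat.not_lt_zero k)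
      rw [this _ le_rfl]; exact zero_mem _
  have htr : ∀ N, trunc u N - (run g w u N).1 ∈ Submodule.span F (Set.range b) := by
    intro N
    induction N with
    | zero => simp [trunc, run]
    | succ N ih =>
      rw [trunc_succ]
      by_cases h : u N = 0
      · rw [run_zero h, h]; simpa using ih
      by_cases h' : (run g w u N).1 ≠ 0 ∧ N ≤ g (run g w u N).1
      · rw [run_cont h h']; simpa using ih
      · rw [run_reset h h']
        simpa using add_mem ih (hcur N ⟨h, h'⟩)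
  have htr' : ∀ n, trunc u (lo (a n)) ∈ Submodule.span F (Set.range b) := fun n => by
    simpa using add_mem (htr (lo (a n))) (hcur _ (hR n))
  refine ⟨b, fun j => ⟨hb0 j, fun i hi k hk => ?_⟩, fun n => ?_, fun j => ?_, fun j i h => ?_⟩
  · exact (run_supp i (mem_support_iff.1 hi)).1.trans_le (hb2 _ k (mem_support_iff.1 hk))
  · have : a n = trunc u (lo (a (n + 1))) - trunc u (lo (a n)) := by
      ext i
      rw [Finsupp.sub_apply, trunc_apply, trunc_apply]
      have hlt : lo (a n) < lo (a (n + 1)) := hmono (Nat.lt_succ_self n)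
      by_cases h1 : i < lo (a n)
      · rw [if_pos h1, if_pos (h1.trans hlt), sub_self]
        by_contra hc; exact h1.not_ge (lo_le hc)
      · by_cases h2 : i < lo (a (n + 1))
        · rw [if_pos h2, if_neg h1, sub_zero]; exact hu3 n i (not_lt.1 h1) h2
        · rw [if_neg h1, if_neg h2, sub_zero]
          by_contra hc; exact h2 (hm n _ i (Nat.lt_succ_self n) hc)
    rw [this]
    exact sub_mem (htr' _) (htr' _)
  · rw [lo_eq (hb1 (j + 1)) (hb2 (j + 1))]
    by_contra hn
    exact (hcR (j + 1)).2 ⟨hb0 j, not_lt.1 hn⟩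
  · exact hu2 i (run_supp i h).2

end auto

end Pool.Agent.H42.PFilter
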