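import Pool.Agent.H42.PFilter1

/-! Parities that force long gaps. -/

namespace Pool.Agent.H42.PFilter

open Finsupp

variable {F : Type} [Field F]

/-- Normalisation: the first coefficient becomes `1`. -/
noncomputable def nm (b : ℕ →₀ F) : ℕ →₀ F := (b (lo b))⁻¹ • b

theorem nm_smul {c : F} (hc : c ≠ 0) (b : ℕ →₀ F) : nm (c • b) = nm b := by
  unfold nm
  rw [lo_smul hc, smul_smul]
  congr 1
  simp only [Finsupp.smul_apply, smul_eq_mul, mul_inv_rev]
  rw [mul_assoc, inv_mul_cancel₀ hc, mul_one]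

/-- The parity attached to `g`, `w` forces long gaps. -/
def Forces (g : (ℕ →₀ F) → ℕ) (w : (ℕ →₀ F) → Bool) : Prop :=
  (∀ c : F, c ≠ 0 → ∀ b, w (c • b) = w b) ∧ w 0 = false ∧
  ∀ v u : ℕ →₀ F, v ≠ 0 → u ≠ 0 → (∀ i, v i ≠ 0 → i < lo u) → phi g w v = false →
    phi g w u = false → (∀ c : F, c ≠ 0 → phi g w (v + c • u) = false) → g (fin g w v).1 < lo u

theorem forces_fin (G : ℕ → ℕ) : ∃ w : (ℕ →₀ F) → Bool, Forces (fun b => G (hi b)) w := by
  classical
  refine ⟨fun b => decide (b ≠ 0), fun c hc b => by simp [hc], by simp, ?_⟩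
  set g : (ℕ →₀ F) → ℕ := fun b => G (hi b) with hg
  set w : (ℕ →₀ F) → Bool := fun b => decide (b ≠ 0) with hw
  have hw1 : ∀ b, b ≠ 0 → w b = true := fun b hb => decide_eq_true hb
  have hw0 : w 0 = false := by simp [hw]
  have hg1 : ∀ b b', hi b = hi b' → g b = g b' := fun b b' h => congrArg G h
  clear_value g w
  intro v u hv hu hvu h1 h2 h3
  by_contra hn
  have hv0 : ∀ i, lo u ≤ i → v i = 0 := fun i hi => by
    by_contra hc; exact (hvu i hc).not_ge hi
  have hu0 : ∀ i < lo u, u i = 0 := fun i hi => by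
    by_contra hc; exact hi.not_ge (lo_le hc)
  have e1 : run g w (⇑(v + u)) (lo u) = fin g w v := by
    rw [← run_eq_fin hvu]
    exact run_congr fun i hi => by simp [hu0 i hi]
  have hhi : ∀ (x : ℕ → F) (N : ℕ), x N ≠ 0 → hi (run g w x (N + 1)).1 = N := by
    intro x N hx
    apply hi_eq
    · rw [run_succ_at hx]; exact hx
    · intro i hi; exact Nat.le_of_lt_succ (run_supp i hi).1
  have key : ∀ N, lo u < N → hi (run g w (⇑(v + u)) N).1 = hi (run g w u N).1 ∧
      (run g w (⇑(v + u)) N).2 = xor (fin g w v).2 (run g w u N).2 := by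
    intro N hN
    induction N, hN using Nat.le_induction with
    | base =>
      have a1 : (v + u) (lo u) ≠ 0 := by simpa [hv0 _ le_rfl] using lo_ne hu
      have e : run g w u (lo u) = (0, false) := run_ext (Nat.zero_le _) (fun i _ hi => hu0 i hi)
      refine ⟨by rw [hhi _ _ a1, hhi _ _ (lo_ne hu)], ?_⟩
      rw [run_cont a1 (by rw [e1]; exact ⟨fin_ne hv, not_lt.1 hn⟩),
        run_reset (lo_ne hu) (by rw [e]; simp), e, e1]
      simp [hw0]
    | succ N hN ih =>
      have a0 : (v + u) N = u N := by simp [hv0 N (Nat.le_of_succ_le hN)]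
      by_cases h : u N = 0
      · rw [run_zero h, run_zero (a0 ▸ h)]; exact ih
      have a1 : (v + u) N ≠ 0 := a0 ▸ h
      refine ⟨by rw [hhi _ _ a1, hhi _ _ h], ?_⟩
      have b1 : (run g w u N).1 ≠ 0 := run_ne hN (lo_ne hu)
      have b2 : (run g w (⇑(v + u)) N).1 ≠ 0 :=
        run_ne hN (by simpa [hv0 _ le_rfl] using lo_ne hu)
      have b3 : g (run g w (⇑(v + u)) N).1 = g (run g w u N).1 := hg1 _ _ ih.1
      by_cases h' : N ≤ g (run g w u N).1
      · rw [run_cont h ⟨b1, h'⟩, run_cont a1 ⟨b2, b3 ▸ h'⟩]; exact ih.2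
      · rw [run_reset h (fun hc => h' hc.2), run_reset a1 (fun hc => h' (b3 ▸ hc.2)), ih.2,
          hw1 _ b1, hw1 _ b2]
        simp
  have hlo : lo u < hi u + 1 := Nat.lt_succ_of_le (le_hi (lo_ne hu))
  have e2 : run g w (⇑(v + u)) (hi u + 1) = fin g w (v + u) := by
    apply run_eq_fin
    intro i hi
    by_cases h : v i = 0
    · exact Nat.lt_succ_of_le (le_hi (by simpa [h] using hi))
    · exact (hvu i h).trans hlo
  have e3 := (key _ hlo).2
  rw [e2] at e3
  have h4 := h3 1 one_ne_zero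
  rw [one_smul] at h4
  have hvu0 : v + u ≠ 0 := fun hc => by
    have : (v + u) (lo u) = 0 := by rw [hc]; rfl
    exact lo_ne hu (by simpa [hv0 _ le_rfl] using this)
  have c1 := fin_ne (g := g) (w := w) hv
  have c2 := fin_ne (g := g) (w := w) hu
  have c3 := fin_ne (g := g) (w := w) hvu0
  unfold phi at h1 h2 h4
  rw [e3] at h4
  have e4 : run g w u (hi u + 1) = fin g w u := rfl
  rw [e4] at h4
  rw [hw1 _ c1] at h1
  rw [hw1 _ c2] at h2
  rw [hw1 _ c3] at h4
  revert h1 h2 h4
  cases (fin g w v).2 <;> cases (fin g w u).2 <;> simp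

theorem forces_inf [Countable F] [Infinite F] (code : (ℕ →₀ F) → ℕ) (hcode : code.Injective)
    (g : (ℕ →₀ F) → ℕ) (hg : ∀ b, code (nm b) ≤ g b) : ∃ w : (ℕ →₀ F) → Bool, Forces g w := by
  classical
  obtain ⟨_⟩ := nonempty_denumerable F
  let enc : F ≃ ℕ := Denumerable.eqv F
  refine ⟨fun b => decide (b ≠ 0 ∧ enc (b (hi b) / b (lo b)) % 2 = 1), fun c hc b => ?_,
    by simp, ?_⟩
  · simp only [hi_smul hc, lo_smul hc, Finsupp.smul_apply, smul_eq_mul,
      mul_div_mul_left _ _ hc, ne_eq, smul_eq_zero, hc, false_or]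
  set w : (ℕ →₀ F) → Bool := fun b => decide (b ≠ 0 ∧ enc (b (hi b) / b (lo b)) % 2 = 1) with hw
  intro v u hv hu hvu _ _ h3
  by_contra hn
  have hv0 : ∀ i, lo u ≤ i → v i = 0 := fun i hi => by
    by_contra hc; exact (hvu i hc).not_ge hi
  have hu0 : ∀ i < lo u, u i = 0 := fun i hi => by
    by_contra hc; exact hi.not_ge (lo_le hc)
  set b := (fin g w v).1 with hb
  have hb0 : b ≠ 0 := fin_ne hv
  have hbs : ∀ i, b i ≠ 0 → i < lo u := fun i hi => hvu i (run_supp i hi).2
  have hlo : ∀ (p : ℕ →₀ F) (c : F), (∀ i < lo u, p i = 0) →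
      (b + c • p) (lo b) = b (lo b) ∧ lo (b + c • p) = lo b := by
    intro p c hp
    have a1 : (b + c • p) (lo b) = b (lo b) := by simp [hp _ (hbs _ (lo_ne hb0))]
    refine ⟨a1, lo_eq (a1 ▸ lo_ne hb0) fun i hi => ?_⟩
    by_cases h : b i = 0
    · by_contra hc
      apply hi
      simp [h, hp i ((not_le.1 hc).trans (hbs _ (lo_ne hb0)))]
    · exact lo_le h
  have htr : ∀ N, ∀ i < lo u, trunc u N i = 0 := fun N i hi => by
    rw [trunc_apply]; simp [hu0 i hi]
  have hbad : ∀ N, {c : F | trunc u N ≠ 0 ∧ code (nm (b + c • trunc u N)) ≤ hi u}.Finite := by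
    intro N
    by_cases h : trunc u N = 0
    · simp [h]
    refine Set.Finite.subset (Set.Finite.preimage (f := fun c : F => code (nm (b + c • trunc u N)))
      (Function.Injective.injOn ?_) (Set.finite_Iic (hi u))) (fun c hc => hc.2)
    intro c c' hcc
    have a1 := hcode hcc
    unfold nm at a1
    rw [(hlo _ c (htr N)).2, (hlo _ c' (htr N)).2, (hlo _ c (htr N)).1, (hlo _ c' (htr N)).1] at a1
    have a2 := smul_right_injective _ (inv_ne_zero (lo_ne hb0)) a1
    exact smul_left_injective F h (add_left_cancel a2)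
  have hα : u (hi u) / b (lo b) ≠ 0 := div_ne_zero (hi_ne hu) (lo_ne hb0)
  have hgood : {c : F | enc (c * (u (hi u) / b (lo b))) % 2 =
      if (fin g w v).2 then 0 else 1}.Infinite := by
    refine Set.infinite_of_injective_forall_mem
      (f := fun k : ℕ => enc.symm (2 * k + if (fin g w v).2 then 0 else 1) / (u (hi u) / b (lo b)))
      ?_ ?_
    · intro k k' h
      have := enc.symm.injective ((div_left_inj' hα).1 h)
      omega
    · intro k
      show enc _ % 2 = _
      rw [div_mul_cancel₀ _ hα, Equiv.apply_symm_apply]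
      split_ifs <;> omega
  have hfin : ({0} ∪ ⋃ N ∈ Set.Iic (hi u),
      {c : F | trunc u N ≠ 0 ∧ code (nm (b + c • trunc u N)) ≤ hi u}).Finite :=
    (Set.finite_singleton 0).union ((Set.finite_Iic _).biUnion fun N _ => hbad N)
  obtain ⟨c, hc1, hc2⟩ := hgood.exists_notMem_finite hfin
  have hc0 : c ≠ 0 := fun h => hc2 (Or.inl h)
  have hc3 : ∀ N ≤ hi u, trunc u N ≠ 0 → hi u < code (nm (b + c • trunc u N)) := by
    intro N hN h
    by_contra hcc
    exact hc2 (Or.inr (Set.mem_biUnion (show N ∈ Set.Iic (hi u) from hN) ⟨h, not_lt.1 hcc⟩))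
  have key : ∀ N, lo u ≤ N → run g w (⇑(v + c • u)) N = (b + c • trunc u N, (fin g w v).2) := by
    intro N hN
    induction N, hN using Nat.le_induction with
    | base =>
      have : trunc u (lo u) = 0 := by
        ext i; rw [trunc_apply]; split_ifs with h
        · exact hu0 i h
        · rfl
      rw [this, smul_zero, add_zero, hb, ← run_eq_fin hvu]
      exact run_congr fun i hi => by simp [hu0 i hi]
    | succ N hN ih =>
      have a0 : (v + c • u) N = c * u N := by simp [hv0 N hN]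
      rw [trunc_succ]
      by_cases h : u N = 0
      · rw [run_zero (by rw [a0, h, mul_zero]), ih, h]; simp
      rw [run_cont (by rw [a0]; exact mul_ne_zero hc0 h), ih, a0]
      · simp [add_assoc]
      rw [ih]
      refine ⟨fun hc => lo_ne hb0 ?_, ?_⟩
      · rw [← (hlo _ c (htr N)).1]
        exact (DFunLike.congr_fun hc (lo b) :)
      by_cases h' : trunc u N = 0
      · have : N ≤ lo u := by
          by_contra hc
          have := DFunLike.congr_fun h' (lo u)
          rw [trunc_apply, if_pos (not_le.1 hc)] at this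
          exact lo_ne hu this
        rw [h', smul_zero, add_zero]
        exact this.trans (not_lt.1 hn)
      · exact (le_hi h).trans ((hc3 N (le_hi h) h').le.trans (hg _))
  have hlo' : lo u < hi u + 1 := Nat.lt_succ_of_le (le_hi (lo_ne hu))
  have e2 : run g w (⇑(v + c • u)) (hi u + 1) = fin g w (v + c • u) := by
    apply run_eq_fin
    intro i hi
    by_cases h : v i = 0
    · exact Nat.lt_succ_of_le (le_hi (by simpa [h, hc0] using hi))
    · exact (hvu i h).trans hlo'
  have e3 : trunc u (hi u + 1) = u := by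
    ext i; rw [trunc_apply]; split_ifs with h
    · rfl
    · by_contra hc; exact h (Nat.lt_succ_of_le (le_hi (Ne.symm hc)))
  have h4 := h3 c hc0
  unfold phi at h4
  rw [← e2, key _ hlo'.le, e3] at h4
  have a1 : b (hi u) = 0 := by
    by_contra hc; exact (hbs _ hc).not_ge (lo_le (hi_ne hu))
  have a2 : (b + c • u) (hi u) = c * u (hi u) := by simp [a1]
  have a3 : hi (b + c • u) = hi u := by
    apply hi_eq (by rw [a2]; exact mul_ne_zero hc0 (hi_ne hu))
    intro i hi
    by_cases h : b i = 0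
    · exact le_hi (by simpa [h, hc0] using hi)
    · exact (hbs i h).le.trans (lo_le (hi_ne hu))
  have a4 : b + c • u ≠ 0 := fun hc => lo_ne hb0 (by rw [← (hlo _ c hu0).1, hc]; rfl)
  have hc1' : enc (c * (u (hi u) / b (lo b))) % 2 = if (fin g w v).2 then 0 else 1 := hc1
  have a5 : w (b + c • u) = !(fin g w v).2 := by
    have : w (b + c • u) = decide (b + c • u ≠ 0 ∧ enc ((b + c • u) (hi (b + c • u)) /
      (b + c • u) (lo (b + c • u))) % 2 = 1) := rfl
    rw [this, a3, a2, (hlo _ c hu0).2, (hlo _ c hu0).1, mul_div_assoc, hc1']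
    cases (fin g w v).2 <;> simp [a4]
  simp only [a5] at h4
  revert h4
  cases (fin g w v).2 <;> simp

theorem core [Countable F] : ∃ ht : (ℕ →₀ F) → ℕ, (∀ c : F, c ≠ 0 → ∀ b, ht (c • b) = ht b) ∧
    (∀ b, hi b ≤ ht b) ∧ (∀ h, {x | ∃ b, x = nm b ∧ ht b ≤ h}.Finite) ∧
    ∀ G : ℕ → ℕ, (∀ h, h ≤ G h) → ∃ w, Forces (fun b => G (ht b)) w := by
  cases finite_or_infinite F with
  | inl hF =>
    refine ⟨hi, fun c hc b => hi_smul hc b, fun b => le_rfl, fun h => ?_, fun G _ => forces_fin G⟩
    refine Set.Finite.of_injOn (f := fun x => fun i : Fin (h + 1) => x i)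
      (t := Set.univ) (fun _ _ => trivial) ?_ Set.finite_univ
    rintro _ ⟨b, rfl, hb⟩ _ ⟨b', rfl, hb'⟩ he
    ext i
    by_cases hi : i < h + 1
    · exact congrFun he ⟨i, hi⟩
    · have a1 : b i = 0 := by by_contra hc; have := le_hi hc; omega
      have a2 : b' i = 0 := by by_contra hc; have := le_hi hc; omega
      simp [nm, a1, a2]
  | inr hF =>
    obtain ⟨code, hcode⟩ := exists_injective_nat (ℕ →₀ F)
    refine ⟨fun b => max (code (nm b)) (hi b), fun c hc b => by simp only [nm_smul hc, hi_smul hc],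
      fun b => le_max_right _ _, fun h => ?_, fun G hG => forces_inf code hcode _
        fun b => (le_max_left _ _).trans (hG _)⟩
    refine (Set.Finite.preimage hcode.injOn (Set.finite_Iic h)).subset ?_
    rintro _ ⟨b, rfl, hb⟩
    exact (le_max_left _ _).trans hb

end Pool.Agent.H42.PFilter
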