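import Pool.Agent.H42.PFilter2

/-! Full `(p)`-filters on a countable vector space are strong and strategic. -/

namespace Pool.Agent.H42.PFilter

open Finsupp

variable {F : Type} [Field F]

/-- The span with zero removed. -/
def bsp (X : ℕ → ℕ →₀ F) : Set (ℕ →₀ F) := (Submodule.span F (Set.range X) : Set (ℕ →₀ F)) \ {0}

theorem lc_apply (X : ℕ → ℕ →₀ F) (a : ℕ →₀ F) (i : ℕ) :
    linearCombination F X a i = ∑ n ∈ a.support, a n * X n i := by
  rw [linearCombination_apply, Finsupp.sum, Finsupp.finsetSum_apply]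
  simp

theorem lc_supp {X : ℕ → ℕ →₀ F} {a : ℕ →₀ F} {i : ℕ} (h : linearCombination F X a i ≠ 0) :
    ∃ n, a n ≠ 0 ∧ X n i ≠ 0 := by
  rw [lc_apply] at h
  obtain ⟨n, _, hn⟩ := Finset.exists_ne_zero_of_sum_ne_zero h
  exact ⟨n, left_ne_zero_of_mul hn, right_ne_zero_of_mul hn⟩

theorem Blk.lc_eq {X : ℕ → ℕ →₀ F} (hX : Blk X) (a : ℕ →₀ F) {n i : ℕ} (h : X n i ≠ 0) :
    linearCombination F X a i = a n * X n i := by
  rw [lc_apply]
  apply Finset.sum_eq_single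
  · intro m _ hm
    have : X m i = 0 := by by_contra hc; exact hm (hX.eq_of_mem hc h)
    rw [this, mul_zero]
  · intro hn
    rw [notMem_support_iff.1 hn, zero_mul]

theorem Blk.lc_ne {X : ℕ → ℕ →₀ F} (hX : Blk X) {a : ℕ →₀ F} {n : ℕ} (h : a n ≠ 0) :
    linearCombination F X a (lo (X n)) ≠ 0 := by
  rw [hX.lc_eq a (lo_ne (hX n).1)]
  exact mul_ne_zero h (lo_ne (hX n).1)

theorem Blk.lc_inj {X : ℕ → ℕ →₀ F} (hX : Blk X) : Function.Injective (linearCombination F X) := by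
  rw [injective_iff_map_eq_zero]
  intro a ha
  by_contra h
  exact hX.lc_ne (lo_ne h) (by rw [ha]; rfl)

theorem Blk.lc_blk {X a : ℕ → ℕ →₀ F} (hX : Blk X) (ha : Blk a) :
    Blk fun n => linearCombination F X (a n) := by
  intro n
  refine ⟨fun h => hX.lc_ne (lo_ne (ha n).1) (DFunLike.congr_fun h _), fun i hi j hj => ?_⟩
  obtain ⟨p, hp1, hp2⟩ := lc_supp (mem_support_iff.1 hi)
  obtain ⟨q, hq1, hq2⟩ := lc_supp (mem_support_iff.1 hj)
  exact hX.lt ((ha n).2 p (mem_support_iff.2 hp1) q (mem_support_iff.2 hq1)) i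
    (mem_support_iff.2 hp2) j (mem_support_iff.2 hq2)

theorem Blk.of_lc {X a : ℕ → ℕ →₀ F} (hX : Blk X)
    (ha : Blk fun n => linearCombination F X (a n)) : Blk a := by
  intro n
  refine ⟨fun h => (ha n).1 (by simp [h]), fun i hi j hj => ?_⟩
  have h := (ha n).2 _ (mem_support_iff.2 (hX.lc_ne (mem_support_iff.1 hi))) _
    (mem_support_iff.2 (hX.lc_ne (mem_support_iff.1 hj)))
  by_contra hc
  rcases (not_lt.1 hc).eq_or_lt with h1 | h1
  · rw [h1] at h; exact lt_irrefl _ h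
  · exact lt_asymm h (hX.lt h1 _ (mem_support_iff.2 (lo_ne (hX j).1)) _
      (mem_support_iff.2 (lo_ne (hX i).1)))

theorem lc_tail (X : ℕ → ℕ →₀ F) {a : ℕ →₀ F} {k : ℕ} (h : ∀ n, a n ≠ 0 → k ≤ n) :
    linearCombination F X a ∈ Submodule.span F (Set.range fun n => X (n + k)) := by
  rw [linearCombination_apply, Finsupp.sum]
  refine Submodule.sum_mem _ fun n hn => Submodule.smul_mem _ _ (Submodule.subset_span ⟨n - k, ?_⟩)
  simp only [Nat.sub_add_cancel (h n (mem_support_iff.1 hn))]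

theorem span_lc (X t : ℕ → ℕ →₀ F) :
    Submodule.span F (Set.range fun n => linearCombination F X (t n)) =
      (Submodule.span F (Set.range t)).map (linearCombination F X) := by
  rw [Submodule.map_span, ← Set.range_comp]; rfl

theorem Blk.not_fd {t : ℕ → ℕ →₀ F} (ht : Blk t) :
    ¬ FiniteDimensional F (Submodule.span F (Set.range t)) := by
  intro h
  have h1 : LinearIndependent F t := ht.lc_inj
  have := (linearIndependent_span h1).finite
  exact not_finite ℕ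

theorem exists_coord {X Z : ℕ → ℕ →₀ F} (hX : Blk X) (hZ : Blk Z) (h : bsp Z ⊆ bsp X) :
    ∃ a, Blk a ∧ Z = fun n => linearCombination F X (a n) := by
  have : ∀ n, ∃ a, linearCombination F X a = Z n := by
    intro n
    have := (h ⟨Submodule.subset_span ⟨n, rfl⟩, (hZ n).1⟩).1
    rw [← range_linearCombination] at this
    exact this
  choose a ha using this
  have e : Z = fun n => linearCombination F X (a n) := funext fun n => (ha n).symm
  exact ⟨a, hX.of_lc (e ▸ hZ), e⟩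

/-- Block filters. -/
def Base (𝓕 : Filter (ℕ →₀ F)) : Prop := ∀ A ∈ 𝓕, ∃ X, Blk X ∧ bsp X ∈ 𝓕 ∧ bsp X ⊆ A

/-- Full filters. -/
def Full (𝓕 : Filter (ℕ →₀ F)) : Prop :=
  ∀ D : Set (ℕ →₀ F), (∀ X, Blk X → bsp X ∈ 𝓕 → ∃ V : Submodule F (ℕ →₀ F),
    ¬ FiniteDimensional F V ∧ ((V : Set (ℕ →₀ F)) \ {0}) ⊆ bsp X ∧
      ((V : Set (ℕ →₀ F)) \ {0}) ⊆ D) → D ∈ 𝓕

/-- The property `(p)`. -/
def PProp (𝓕 : Filter (ℕ →₀ F)) : Prop :=
  ∀ Xs : ℕ → ℕ → ℕ →₀ F, (∀ m, Blk (Xs m) ∧ bsp (Xs m) ∈ 𝓕) → ∃ X, Blk X ∧ bsp X ∈ 𝓕 ∧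
    ∀ m, ∃ k : ℕ, Submodule.span F (Set.range (fun n : ℕ => X (n + k))) ≤
      Submodule.span F (Set.range (Xs m))

/-- The strong property `(p)`. -/
def StrongP (𝓕 : Filter (ℕ →₀ F)) : Prop :=
  ∀ Y : List (ℕ →₀ F) → ℕ → ℕ →₀ F, (∀ l, Blk (Y l) ∧ bsp (Y l) ∈ 𝓕) → ∃ X, Blk X ∧ bsp X ∈ 𝓕 ∧
    ∀ k : ℕ, Submodule.span F (Set.range (fun n : ℕ => X (n + k))) ≤
      Submodule.span F (Set.range (Y (List.ofFn (fun i : Fin k => X i.val))))

theorem strongP [Countable F] {𝓕 : Filter (ℕ →₀ F)} (hb : Base 𝓕) (hf : Full 𝓕)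
    (hp : PProp 𝓕) : StrongP 𝓕 := by
  intro Y hY
  obtain ⟨en, hen⟩ := exists_surjective_nat (List (ℕ →₀ F))
  obtain ⟨X, hX, hXF, hK⟩ := hp (fun m => Y (en m)) (fun m => hY _)
  have hK' : ∀ l, ∃ k : ℕ, Submodule.span F (Set.range (fun n : ℕ => X (n + k))) ≤
      Submodule.span F (Set.range (Y l)) := fun l => by
    obtain ⟨m, rfl⟩ := hen l; exact hK m
  choose K hK using hK'
  obtain ⟨ht, ht1, ht2, ht3, ht4⟩ := core (F := F)
  have hG : ∀ h : ℕ, ∃ M, h ≤ M ∧ ∀ l : List (ℕ →₀ F), l.length ≤ h + 1 →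
      (∀ x ∈ l, ∃ b, x = nm b ∧ ht b ≤ h) → K (l.map (linearCombination F X)) ≤ M := by
    intro h
    have := (ht3 h).to_subtype
    have hfin := ((List.finite_length_le {x | ∃ b, x = nm b ∧ ht b ≤ h} (h + 1)).image
      (fun l => K ((l.map Subtype.val).map (linearCombination F X)))).bddAbove
    obtain ⟨M, hM⟩ := hfin
    refine ⟨max h M, le_max_left _ _, fun l h1 h2 => le_trans (hM ?_) (le_max_right _ _)⟩
    refine ⟨l.pmap Subtype.mk h2, by simpa using h1, ?_⟩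
    simp [List.map_pmap]
  choose G hG1 hG2 using hG
  obtain ⟨w, hw1, hw0, hw2⟩ := ht4 G hG1
  set g : (ℕ →₀ F) → ℕ := fun b => G (ht b) with hg
  have hg1 : ∀ c : F, c ≠ 0 → ∀ b, g (c • b) = g b := fun c hc b => by simp only [hg, ht1 c hc]
  have hD : {x | ∃ a, x = linearCombination F X a ∧ phi g w a = false ∧
      ∀ i, a i ≠ 0 → K [] < i} ∈ 𝓕 := by
    apply hf
    intro Z hZ hZF
    obtain ⟨Z', hZ', -, hsub⟩ := hb _ (Filter.inter_mem hZF hXF)
    obtain ⟨a, ha, rfl⟩ := exists_coord hX hZ' (hsub.trans Set.inter_subset_right)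
    obtain ⟨t, h1, h2, h3⟩ := dense hg1 hw1 hw0 ha (K [])
    refine ⟨_, (hX.lc_blk h1).not_fd, ?_, ?_⟩
    · refine Set.Subset.trans ?_ (hsub.trans Set.inter_subset_left)
      apply Set.sdiff_subset_sdiff_left
      rw [span_lc, span_lc]
      exact Submodule.map_mono (Submodule.span_le.2 (by rintro _ ⟨n, rfl⟩; exact h2 n))
    · rintro x ⟨hx, -⟩
      rw [span_lc] at hx
      obtain ⟨v, hv, rfl⟩ := hx
      exact ⟨v, rfl, h3 v hv⟩
  obtain ⟨Z, hZ, hZF, hsub⟩ := hb _ (Filter.inter_mem hD hXF)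
  obtain ⟨a, ha, rfl⟩ := exists_coord hX hZ (hsub.trans Set.inter_subset_right)
  have hin : ∀ v ∈ Submodule.span F (Set.range a), v ≠ 0 →
      phi g w v = false ∧ ∀ i, v i ≠ 0 → K [] < i := by
    intro v hv h0
    have : linearCombination F X v ∈ bsp fun n => linearCombination F X (a n) := by
      refine ⟨?_, fun h => h0 (hX.lc_inj (by rw [map_zero]; exact h))⟩
      rw [span_lc]; exact ⟨v, hv, rfl⟩
    obtain ⟨v', h1, h2⟩ := (hsub this).1
    rw [hX.lc_inj h1]; exact h2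
  have hmem : ∀ n, a n ∈ Submodule.span F (Set.range a) := fun n => Submodule.subset_span ⟨n, rfl⟩
  have hgap : ∀ n, g (fin g w (a n)).1 < lo (a (n + 1)) := by
    intro n
    have hlt : ∀ i, a n i ≠ 0 → i < lo (a (n + 1)) := fun i hi =>
      (ha n).2 i (mem_support_iff.2 hi) _ (mem_support_iff.2 (lo_ne (ha _).1))
    refine hw2 _ _ (ha n).1 (ha _).1 hlt (hin _ (hmem _) (ha _).1).1 (hin _ (hmem _) (ha _).1).1
      fun c _ => (hin _ (add_mem (hmem _) (Submodule.smul_mem _ _ (hmem _))) fun h => ?_).1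
    have h1 : a (n + 1) (lo (a n)) = 0 := by
      by_contra hc; exact (hlt _ (lo_ne (ha n).1)).not_ge (lo_le hc)
    have h2 := DFunLike.congr_fun h (lo (a n))
    exact lo_ne (ha n).1 (by simpa [h1] using h2)
  obtain ⟨b, b1, b2, b3, b4⟩ := parse hw0 ha hgap
  have hnm : ∀ j i, nm (b j) i ≠ 0 → b j i ≠ 0 := fun j i h h' => h (by simp [nm, h'])
  have hnb : Blk fun j => nm (b j) := fun j =>
    ⟨smul_ne_zero (inv_ne_zero (lo_ne (b1 j).1)) (b1 j).1, fun i hi k hk =>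
      (b1 j).2 i (mem_support_iff.2 (hnm _ _ (mem_support_iff.1 hi))) k
        (mem_support_iff.2 (hnm _ _ (mem_support_iff.1 hk)))⟩
  have hmono : StrictMono fun j => lo (b j) := strictMono_nat_of_lt_succ fun j =>
    (b1 j).2 _ (mem_support_iff.2 (lo_ne (b1 j).1)) _ (mem_support_iff.2 (lo_ne (b1 _).1))
  refine ⟨fun j => linearCombination F X (nm (b j)), hX.lc_blk hnb, ?_, fun k => ?_⟩
  · refine Filter.mem_of_superset hZF (Set.sdiff_subset_sdiff_left ?_)
    rw [span_lc, span_lc]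
    refine Submodule.map_mono (Submodule.span_le.2 ?_)
    rintro _ ⟨n, rfl⟩
    refine (Submodule.span_le.2 ?_ : Submodule.span F (Set.range b) ≤ _) (b2 n)
    rintro _ ⟨j, rfl⟩
    have : b j = b j (lo (b j)) • nm (b j) := by
      rw [nm, smul_smul, mul_inv_cancel₀ (lo_ne (b1 j).1), one_smul]
    rw [this]
    exact Submodule.smul_mem _ _ (Submodule.subset_span ⟨j, rfl⟩)
  · refine le_trans (Submodule.span_le.2 ?_) (hK _)
    rintro _ ⟨n, rfl⟩
    refine lc_tail X fun i hi => ?_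
    have hi' := hnm _ _ hi
    cases k with
    | zero =>
      obtain ⟨m, hm⟩ := b4 _ _ hi'
      exact ((hin _ (hmem m) (ha m).1).2 i hm).le
    | succ j =>
      have e : (List.ofFn fun i : Fin (j + 1) => linearCombination F X (nm (b i.val))) =
          (List.ofFn fun i : Fin (j + 1) => nm (b i.val)).map (linearCombination F X) := by
        rw [List.map_ofFn]; rfl
      rw [e]
      have hj : lo (b j) ≤ ht (b j) := (le_hi (lo_ne (b1 j).1)).trans (ht2 _)
      refine le_trans (hG2 (ht (b j)) _ ?_ ?_) ((b3 j).le.trans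
        ((hmono.monotone (Nat.le_add_left (j + 1) n)).trans (lo_le hi')))
      · rw [List.length_ofFn]
        exact Nat.succ_le_succ ((hmono.id_le j).trans hj)
      · intro x hx
        obtain ⟨i, rfl⟩ := List.mem_ofFn.1 hx
        refine ⟨_, rfl, ?_⟩
        rcases (Nat.le_of_lt_succ i.2).eq_or_lt with h | h
        · rw [h]
        · exact (hG1 _).trans ((b3 i).le.trans ((hmono.monotone (Nat.succ_le_of_lt h)).trans hj))

/-- The sequence of answers of the strategy `α` to the moves `Y`. -/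
def play (α : List (ℕ → ℕ →₀ F) → ℕ →₀ F) (Y : ℕ → ℕ → ℕ →₀ F) (k : ℕ) : ℕ →₀ F :=
  α (List.ofFn fun i : Fin (k + 1) => Y i.val)

theorem play_congr (α : List (ℕ → ℕ →₀ F) → ℕ →₀ F) {Y Y' : ℕ → ℕ → ℕ →₀ F} {k : ℕ}
    (h : ∀ i ≤ k, Y i = Y' i) : play α Y k = play α Y' k := by
  unfold play
  congr 2
  funext i
  exact h i (Nat.le_of_lt_succ i.2)

theorem strategic {𝓕 : Filter (ℕ →₀ F)} (hb : Base 𝓕) (hf : Full 𝓕) (hs : StrongP 𝓕)
    {X : ℕ → ℕ →₀ F} (hX : Blk X) (hXF : bsp X ∈ 𝓕) (α : List (ℕ → ℕ →₀ F) → ℕ →₀ F)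
    (hα : ∀ Y : ℕ → ℕ → ℕ →₀ F, (∀ k, Blk (Y k) ∧ bsp (Y k) ⊆ bsp X) →
      Blk (play α Y) ∧ ∀ k, play α Y k ∈ bsp (Y k)) :
    ∃ Y : ℕ → ℕ → ℕ →₀ F, (∀ k, Blk (Y k) ∧ bsp (Y k) ⊆ bsp X) ∧ bsp (play α Y) ∈ 𝓕 := by
  classical
  let S := ℕ × {Y : ℕ → ℕ → ℕ →₀ F // ∀ k, Blk (Y k) ∧ bsp (Y k) ⊆ bsp X}
  let Q : S → (ℕ →₀ F) → S → Prop := fun p z q => p.1 < q.1 ∧ (∀ i < p.1, q.2.1 i = p.2.1 i) ∧
    z ∈ Submodule.span F (play α q.2.1 '' Set.Iio q.1)
  have hD : ∀ p : S, {z | ∃ q, Q p z q} ∈ 𝓕 := by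
    intro p
    apply hf
    intro Z hZ hZF
    obtain ⟨Z', hZ', -, hsub⟩ := hb _ (Filter.inter_mem hZF hXF)
    let Y : ℕ → ℕ → ℕ →₀ F := fun i => if i < p.1 then p.2.1 i else Z'
    have hY : ∀ k, Blk (Y k) ∧ bsp (Y k) ⊆ bsp X := by
      intro k
      by_cases h : k < p.1
      · simp only [Y, if_pos h]; exact p.2.2 k
      · simp only [Y, if_neg h]; exact ⟨hZ', hsub.trans Set.inter_subset_right⟩
    obtain ⟨h1, h2⟩ := hα Y hY
    have h3 : Blk fun n => play α Y (n + p.1) := fun n => by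
      have := h1 (n + p.1)
      rwa [show n + p.1 + 1 = n + 1 + p.1 by omega] at this
    refine ⟨_, h3.not_fd, ?_, ?_⟩
    · refine Set.Subset.trans ?_ (hsub.trans Set.inter_subset_left)
      apply Set.sdiff_subset_sdiff_left
      refine Submodule.span_le.2 ?_
      rintro _ ⟨n, rfl⟩
      have := (h2 (n + p.1)).1
      simp only [Y, if_neg (show ¬ n + p.1 < p.1 by omega)] at this
      exact this
    · rintro x ⟨hx, -⟩
      obtain ⟨c, rfl⟩ := mem_span_range_iff_exists_finsupp.1 hx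
      refine ⟨(hi c + p.1 + 1, ⟨Y, hY⟩), by show p.1 < hi c + p.1 + 1; omega,
        fun i hi => by simp only [Y, if_pos hi], ?_⟩
      refine Submodule.sum_mem _ fun n hn => Submodule.smul_mem _ _ (Submodule.subset_span ?_)
      refine ⟨n + p.1, ?_, rfl⟩
      have := le_hi (mem_support_iff.1 hn)
      show n + p.1 < hi c + p.1 + 1
      omega
  have hnext : ∀ (p : S) (z : ℕ →₀ F), ∃ q, (∃ q, Q p z q) → Q p z q := by
    intro p z
    by_cases h : ∃ q, Q p z q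
    · obtain ⟨q, hq⟩ := h; exact ⟨q, fun _ => hq⟩
    · exact ⟨p, fun h' => absurd h' h⟩
  choose nx hnx using hnext
  choose B hB1 hB2 hB3 using fun p => hb _ (hD p)
  let p0 : S := (0, ⟨fun _ => X, fun _ => ⟨hX, subset_rfl⟩⟩)
  obtain ⟨Z, hZ, hZF, hZs⟩ := hs (fun l => B (l.foldl nx p0)) (fun l => ⟨hB1 _, hB2 _⟩)
  let P : ℕ → S := fun k => (List.ofFn fun i : Fin k => Z i.val).foldl nx p0
  have hP : ∀ k, P (k + 1) = nx (P k) (Z k) := by
    intro k
    simp only [P]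
    rw [List.ofFn_succ_last, List.foldl_append]
    rfl
  have hQ : ∀ k, Q (P k) (Z k) (P (k + 1)) := by
    intro k
    rw [hP]
    apply hnx
    apply hB3 (P k)
    exact ⟨hZs k (Submodule.subset_span ⟨0, by simp⟩), (hZ k).1⟩
  have hmono : StrictMono fun k => (P k).1 := strictMono_nat_of_lt_succ fun k => (hQ k).1
  have hagree : ∀ k m, k ≤ m → ∀ i < (P k).1, (P m).2.1 i = (P k).2.1 i := by
    intro k m hkm
    induction m, hkm using Nat.le_induction with
    | base => intros; rfl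
    | succ m hm ih =>
      intro i hi
      rw [(hQ m).2.1 i (hi.trans_le (hmono.monotone hm)), ih i hi]
  have hlim : ∀ m i, i < (P m).1 → (P (i + 1)).2.1 i = (P m).2.1 i := by
    intro m i hi
    rcases le_total m (i + 1) with h | h
    · exact hagree m _ h i hi
    · exact (hagree _ m h i (hmono.id_le (i + 1))).symm
  refine ⟨fun i => (P (i + 1)).2.1 i, fun k => (P (k + 1)).2.2 k, ?_⟩
  refine Filter.mem_of_superset hZF (Set.sdiff_subset_sdiff_left (Submodule.span_le.2 ?_))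
  rintro _ ⟨n, rfl⟩
  refine Submodule.span_mono ?_ (hQ n).2.2
  rintro _ ⟨k, hk, rfl⟩
  exact ⟨k, play_congr α fun i hi => hlim _ i (hi.trans_lt hk)⟩

end Pool.Agent.H42.PFilter
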