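import Pool.Agent.H42.PlDefs

/-! `ℕ ∪ {p} ⊆ βℕ` is not an `ℝ`-quotient image of a subset of `L_Γ ^ ℕ`. -/

namespace Pool.Agent.H42.Pl1

open Set Filter Topology Pool.Agent.H42.PlDefs

universe u

theorem noseq (k : ℕ → ℕ) (h : ∀ s ∈ hyperfilter ℕ, ∀ᶠ n in atTop, k n ∈ s) : False := by
  obtain ⟨φ, h1, h2⟩ := strictMono_subseq_of_tendsto_atTop (u := k)
    fun s hs => h s (hyperfilter_le_cofinite (Nat.cofinite_eq_atTop ▸ hs))
  rcases (hyperfilter ℕ).mem_or_compl_mem (range fun j => k (φ (2 * j))) with c | c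
  · obtain ⟨j, i, e⟩ := ((h1.tendsto_atTop.comp (tendsto_atTop_mono (f := id) (g := fun j => 2 * j + 1)
      (fun j => by simp only [id]; omega) tendsto_id)).eventually (h _ c)).exists
    have : 2 * i = 2 * j + 1 := h2.injective e
    omega
  · obtain ⟨j, e⟩ := ((h1.tendsto_atTop.comp (tendsto_atTop_mono (f := id) (g := fun j => 2 * j)
      (fun j => by simp only [id]; omega) tendsto_id)).eventually (h _ c)).exists
    exact e ⟨j, rfl⟩

theorem main : ∃ (T : Type) (_ : TopologicalSpace T), T35Space T ∧ PrimLindelof T ∧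
    MonoSokolov T ∧ ∀ (Γ : Type u) (F : Set (ℕ → LL Γ)) (f : F → T), ¬ RQuotient f := by
  classical
  let e : Option ℕ → Ultrafilter ℕ := fun x => x.elim (hyperfilter ℕ) pure
  let p : range e := ⟨_, none, rfl⟩
  let j : ℕ → range e := fun n => ⟨_, some n, rfl⟩
  have ho : ∀ s : Set ℕ, IsOpen {u : range e | s ∈ u.1} := fun s =>
    (ultrafilter_isOpen_basic s).preimage continuous_subtype_val
  have hc : Countable (range e) := (countable_range e).to_subtype
  refine ⟨range e, inferInstance, inferInstance, ⟨ℕ, univ, fun x => ⟨_, x.1 0, rfl⟩, isClosed_univ,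
    ?_, fun ⟨_, x, rfl⟩ => ⟨⟨fun _ => x, trivial⟩, rfl⟩⟩, ⟨fun _ => id, fun _ => range singleton,
      fun _ _ => ⟨continuous_id, fun _ => rfl, fun _ _ => mapsTo_id _, countable_range _,
        fun U _ x hx => ⟨_, ⟨x, rfl⟩, rfl, singleton_subset_iff.2 hx.1⟩⟩, fun _ _ _ _ _ => Subset.rfl,
      fun _ _ _ => (iUnion_const _).symm⟩, fun Γ F f ⟨h1, _, h3⟩ => ?_⟩
  · have : DiscreteTopology (LL ℕ) := discreteTopology_iff_forall_isOpen.2 fun U _ =>
      Set.to_countable (α := Option ℕ) _
    exact (continuous_of_discreteTopology (f := fun x : LL ℕ => (⟨_, x, rfl⟩ : range e))).comp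
      ((continuous_apply 0).comp continuous_subtype_val)
  have key : IsOpen (f ⁻¹' {p}) := isOpen_iff_mem_nhds.2 fun x hx => by_contra fun hn => by
    let U : ℕ → Set (LL Γ) → Set F := fun n C =>
      {y | ∀ i < n, y.1 i = x.1 i ∨ (x.1 i = (none : Option Γ) ∧ y.1 i ∉ C)}
    have u1 : ∀ n C, C.Countable → U n C ∈ 𝓝 x := fun n C hC => by
      refine (eventually_all_finite (finite_lt_nat n)).2 fun i _ => ?_
      have ho : IsOpen {z : LL Γ | z = x.1 i ∨ (x.1 i = (none : Option Γ) ∧ z ∉ C)} := fun h =>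
        hC.mono fun z hz => by_contra fun c => hz (Or.inr ⟨h.elim Eq.symm And.left, c⟩)
      exact (ho.preimage (f := fun y : F => y.1 i) ((continuous_apply (A := fun _ => LL Γ) i).comp
        continuous_subtype_val)).mem_nhds (Or.inl rfl)
    have u2 : ∀ V ∈ 𝓝 x, ∃ C, C.Countable ∧ ∀ᶠ n in atTop, U n C ⊆ V := fun V hV => by
      obtain ⟨V, hV, hVU⟩ := (mem_nhds_subtype _ _ _).1 hV
      rw [nhds_pi] at hV
      obtain ⟨I, v, hv, hI⟩ := Filter.mem_pi'.1 hV
      refine ⟨⋃ i ∈ {i | x.1 i = (none : Option Γ)}, (v i)ᶜ, (to_countable _).biUnion fun i hi => ?_, ?_⟩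
      · have h : IsOpen (interior (v i)) := isOpen_interior
        have h' : x.1 i ∈ interior (v i) := mem_interior_iff_mem_nhds.2 (hv i)
        exact (h ((show x.1 i = (none : Option Γ) from hi) ▸ h')).mono
          (compl_subset_compl.2 interior_subset)
      filter_upwards [eventually_gt_atTop (I.sup id)] with n hn y hy
      refine hVU (hI fun i hi => ?_)
      rcases hy i ((Finset.le_sup (f := id) hi).trans_lt hn) with c | c
      · exact c ▸ mem_of_mem_nhds (hv i)
      · exact by_contra fun c' => c.2 (mem_biUnion c.1 c')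
    have u3 : ∀ n, ∃ k, ∀ C, C.Countable → ∃ y ∈ U n C, f y = j k := fun n => by
      by_contra! c
      choose C c1 c2 using c
      refine hn (mem_of_superset (u1 n _ (countable_iUnion c1)) fun y hy => ?_)
      obtain ⟨_ | k, hy'⟩ := (f y).2
      · exact Subtype.ext hy'.symm
      · exact absurd (Subtype.ext hy'.symm) (c2 k y fun i hi => (hy i hi).imp_right fun a =>
          ⟨a.1, fun b => a.2 (mem_iUnion_of_mem k b)⟩)
    choose k hk using u3
    refine noseq k fun s hs => ?_
    obtain ⟨C, c1, c2⟩ := u2 _ (((ho s).preimage h1).mem_nhds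
      (show s ∈ (f x).1 from (mem_singleton_iff.1 hx).symm ▸ hs))
    filter_upwards [c2] with n hn
    obtain ⟨y, a, b⟩ := hk n C c1
    exact (show s ∈ (j (k n)).1 from b ▸ hn a)
  have h4 := h3 (indicator {p} fun _ => 1)
    (IsClopen.continuous_indicator (f := fun _ => 1) ⟨isClosed_singleton.preimage h1, key⟩
      continuous_const)
  have h5 : {p} ∈ 𝓝 p := mem_of_superset (h4.continuousAt.eventually_ne (x := p) (y := 0) (by simp))
    fun z hz => by_contra fun c => hz (indicator_of_notMem c _)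
  obtain ⟨n, hn⟩ := ((IsInducing.subtypeVal.tendsto_nhds_iff (f := j) (y := p)).2
    (hyperfilter ℕ).tendsto_pure_self).eventually h5 |>.exists
  exact (finite_singleton n).notMem_hyperfilter
    ((show pure n = hyperfilter ℕ from congrArg Subtype.val hn) ▸ Ultrafilter.mem_pure.2 rfl)

end Pool.Agent.H42.Pl1
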