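import Mathlib

/-! Primarily Lindelöf and monotonically Sokolov spaces. -/

namespace Pool.Agent.H42.PlDefs

open Set

universe u

/-- The one-point Lindelöfication `L_Γ` of a discrete set; `none` is the point at infinity. -/
def LL (Γ : Type u) : Type u := Option Γ

/-- Points of `Γ` are isolated; a set containing `∞` is open iff its complement is countable. -/
instance (Γ : Type u) : TopologicalSpace (LL Γ) where
  IsOpen U := (none : Option Γ) ∈ U → Uᶜ.Countable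
  isOpen_univ _ := by simp
  isOpen_inter U V hU hV h := compl_inter U V ▸ (hU h.1).union (hV h.2)
  isOpen_sUnion S hS := fun ⟨U, h1, h2⟩ =>
    (hS U h1 h2).mono (compl_subset_compl.2 (subset_sUnion_of_mem h1))

/-- Continuous images of closed subsets of some `L_Γ ^ ℕ`. -/
def PrimLindelof (T : Type) [TopologicalSpace T] : Prop :=
  ∃ (Γ : Type) (F : Set (ℕ → LL Γ)) (f : F → T), IsClosed F ∧ Continuous f ∧ Function.Surjective f

/-- Countable families of nonempty closed sets. -/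
def Adm {T : Type} [TopologicalSpace T] (𝓐 : Set (Set T)) : Prop :=
  𝓐.Countable ∧ ∀ F ∈ 𝓐, F.Nonempty ∧ IsClosed F

/-- Monotonically Sokolov spaces. -/
def MonoSokolov (T : Type) [TopologicalSpace T] : Prop :=
  ∃ (r : Set (Set T) → T → T) (N : Set (Set T) → Set (Set T)),
    (∀ 𝓐, Adm 𝓐 → Continuous (r 𝓐) ∧ (∀ x, r 𝓐 (r 𝓐 x) = r 𝓐 x) ∧ (∀ F ∈ 𝓐, MapsTo (r 𝓐) F F) ∧
      (N 𝓐).Countable ∧ ∀ U, IsOpen U → ∀ x ∈ U ∩ range (r 𝓐), ∃ M ∈ N 𝓐, x ∈ M ∧ M ⊆ U) ∧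
    (∀ 𝓐 𝓑, Adm 𝓐 → Adm 𝓑 → 𝓐 ⊆ 𝓑 → N 𝓐 ⊆ N 𝓑) ∧
    ∀ 𝓐 : ℕ → Set (Set T), (∀ n, Adm (𝓐 n)) → Monotone 𝓐 → N (⋃ n, 𝓐 n) = ⋃ n, N (𝓐 n)

/-- `ℝ`-quotient maps. -/
def RQuotient {X : Type u} {Y : Type} [TopologicalSpace X] [TopologicalSpace Y] (f : X → Y) : Prop :=
  Continuous f ∧ Function.Surjective f ∧ ∀ g : Y → ℝ, Continuous (g ∘ f) → Continuous g

end Pool.Agent.H42.PlDefs
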