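import Pool.Agent.H42.PolODefs
import Pool.Agent.H42.PolD
import Pool.Agent.H42.Tau1

/-! The polarized relation for omega-covers holds for compact spaces and for small spaces. -/

namespace Pool.Agent.H42.PolO

open Set Filter Cardinal Topology Pool.Agent.H42.PolD

theorem aleph0_lt_u : ℵ₀ < uNum := by
  by_contra h
  obtain ⟨U, B, hU, hB, h1, h2⟩ := ex_base
  have hc : B.Countable := by rw [← le_aleph0_iff_set_countable, hB]; exact not_lt.1 h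
  have : (U : Filter ℕ).IsCountablyGenerated := ⟨⟨B, hc, le_antisymm
    (le_generate_iff.2 h1) fun A hA => (h2 A hA).elim fun b hb =>
      mem_of_superset (mem_generate_of_mem hb.1) hb.2⟩⟩
  obtain ⟨c, hc⟩ := exists_seq_tendsto (U : Filter ℕ)
  rw [← Nat.cofinite_eq_atTop] at hc
  have key : ∀ A ∈ U, (range c \ A).Finite := fun A hA => (Finite.image c (hc hA)).subset (by
    rintro _ ⟨⟨n, rfl⟩, hn⟩; exact ⟨n, hn, rfl⟩)
  obtain ⟨A, a1, a2, a3⟩ := Tau.two (S := range c) fun hf => by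
    obtain ⟨n, hn⟩ := Filter.nonempty_of_mem (mem_map.1
      (hc (Ultrafilter.compl_mem_iff_notMem.2 fun h => inf_of_mem hU h hf)))
    exact hn ⟨n, rfl⟩
  rcases U.mem_or_compl_mem A with h | h
  · exact a3 (key A h)
  · exact a2 ((key _ h).subset fun x hx => ⟨a1 hx, not_not.2 hx⟩)

theorem ex_split' {ι : Type} (h : #ι < dNum) (hu : #ι < uNum) (f : ι → ℕ → ℕ) :
    ∃ X : ℕ → Bool, ∀ i b, ∃ n, X n = b ∧ ∀ m, n ≤ m → m ≤ f i n → X m = b := by
  classical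
  have hf : ∀ c, ℵ₀ < c → #ι < c → #(Finset ι) < c := fun c h0 h => by
    rcases finite_or_infinite ι with _ | _
    · exact (lt_aleph0_of_finite _).trans h0
    · rwa [mk_finset_of_infinite]
  obtain ⟨φ, hφ⟩ := ex_part (hf _ aleph0_lt_d h) fun s n => s.sup fun i => f i n
  let A : Finset ι × ℕ → Set ℕ := fun x =>
    {k | ∃ n, x.2 ≤ k ∧ φ n = k ∧ ∀ m, n ≤ m → m ≤ x.1.sup (fun i => f i n) → φ m = k}
  have hA : ∀ x y, x ≤ y → A y ⊆ A x := fun x y hxy k ⟨n, h2, h3, h4⟩ =>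
    ⟨n, hxy.2.trans h2, h3, fun m h5 h6 => h4 m h5 (h6.trans (Finset.sup_mono hxy.1))⟩
  have hne : ∀ x, (A x).Nonempty := fun x => by
    obtain ⟨n, -, h2, h3⟩ := hφ x.1 x.2
    exact ⟨_, n, h2, rfl, h3⟩
  have : (⨅ x, 𝓟 (A x)).NeBot := iInf_neBot_of_directed
    (directed_of_isDirected_le fun x y hxy => principal_mono.2 (hA x y hxy))
    fun x => principal_neBot_iff.2 (hne x)
  let U := Ultrafilter.of (⨅ x, 𝓟 (A x))
  have hU : ∀ x, A x ∈ U := fun x => Ultrafilter.of_le _ (mem_iInf_of_mem x (mem_principal_self _))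
  have hY : ∃ Y ∈ U, ∀ x, ¬ A x ⊆ Y := by
    by_contra hc
    push Not at hc
    have h1 : uNum ≤ #(range A) := csInf_le' ⟨U, range A, fun n hn => ?_, rfl, ?_, fun Y hY => ?_⟩
    · refine (h1.trans mk_range_le).not_gt ?_
      rw [mk_prod, lift_id, lift_id, mk_nat]
      exact mul_lt_of_lt aleph0_lt_u.le (hf _ aleph0_lt_u hu) aleph0_lt_u
    · obtain ⟨k, rfl, _, h2, _⟩ := Ultrafilter.nonempty_of_mem (inter_mem hn (hU (∅, n + 1)))
      exact absurd h2 (by simp)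
    · rintro _ ⟨x, rfl⟩; exact hU x
    · obtain ⟨x, hx⟩ := hc Y hY
      exact ⟨_, ⟨x, rfl⟩, hx⟩
  obtain ⟨Y, hY, h1⟩ := hY
  refine ⟨fun m => decide (φ m ∈ Y), fun i b => ?_⟩
  have : ∃ k ∈ A ({i}, 0), decide (k ∈ Y) = b := by
    cases b
    · obtain ⟨k, h2, h3⟩ := not_subset.1 (h1 ({i}, 0))
      exact ⟨k, h2, by simpa using h3⟩
    · obtain ⟨k, h2, h3⟩ := Ultrafilter.nonempty_of_mem (inter_mem (hU ({i}, 0)) hY)
      exact ⟨k, h2, by simpa using h3⟩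
  obtain ⟨k, ⟨n, -, h2, h3⟩, h4⟩ := this
  exact ⟨n, by rw [← h4, ← h2], fun m h5 h6 => by rw [← h4, ← h3 m h5 (by simpa using h6)]⟩

variable {X : Type} [TopologicalSpace X]

lemma enum [SecondCountableTopology X] {𝒰 : Set (Set X)} (h : Om 𝒰) :
    ∃ (u : ℕ → 𝒰) (U : Ultrafilter ℕ), ∀ F : Set X, F.Finite → {a | F ⊆ u a} ∈ U := by
  obtain ⟨U0, h0, -⟩ := h.2.2 ∅ finite_empty
  have hc := countable_ofPred_finite_subset (TopologicalSpace.countable_countableBasis X)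
  obtain ⟨t, ht⟩ := hc.exists_eq_range ⟨∅, finite_empty, empty_subset _⟩
  have : ∀ n, ∃ U : 𝒰, (∃ V ∈ 𝒰, ⋃₀ t n ⊆ V) → ⋃₀ t n ⊆ U := fun n => by
    by_cases h : ∃ V ∈ 𝒰, ⋃₀ t n ⊆ V
    · obtain ⟨V, a, b⟩ := h; exact ⟨⟨V, a⟩, fun _ => b⟩
    · exact ⟨⟨U0, h0⟩, fun h' => absurd h' h⟩
  choose u hu using this
  have key : ∀ F : Set X, F.Finite → ∃ a, F ⊆ u a := fun F hF => by
    obtain ⟨V, a, b⟩ := h.2.2 F hF
    choose! O h1 h2 h3 using fun x (hx : x ∈ F) =>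
      (TopologicalSpace.isBasis_countableBasis X).exists_subset_of_mem_open (b hx) (h.1 V a)
    obtain ⟨n, hn⟩ : O '' F ∈ range t := ht ▸ ⟨hF.image O, image_subset_iff.2 h1⟩
    refine ⟨n, Subset.trans (fun x hx => ?_) (hu n ⟨V, a, ?_⟩)⟩
    · exact hn ▸ ⟨_, ⟨x, hx, rfl⟩, h2 x hx⟩
    · exact hn ▸ sUnion_subset (forall_mem_image.2 h3)
  have : (⨅ F : {F : Set X // F.Finite}, 𝓟 {a | F.1 ⊆ u a}).NeBot :=
    have : Nonempty {F : Set X // F.Finite} := ⟨⟨∅, finite_empty⟩⟩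
    iInf_neBot_of_directed (fun F G => ⟨⟨_, F.2.union G.2⟩,
      principal_mono.2 fun _ h => subset_union_left.trans h,
      principal_mono.2 fun _ h => subset_union_right.trans h⟩)
      fun F => principal_neBot_iff.2 (key F F.2)
  exact ⟨u, Ultrafilter.of (⨅ F : {F : Set X // F.Finite}, 𝓟 {a | F.1 ⊆ u a}), fun F hF =>
    Ultrafilter.of_le _ (mem_iInf_of_mem ⟨F, hF⟩ (mem_principal_self _))⟩

lemma lim {k : ℕ} (U : Ultrafilter ℕ) (c : ℕ → Fin k) : ∃ i, {a | c a = i} ∈ U :=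
  Ultrafilter.eventually_exists_iff.1 (Eventually.of_forall fun a => ⟨c a, rfl⟩)

theorem pol_of [SecondCountableTopology X] {ι : Type} (h : #ι < dNum) (hu : #ι < uNum)
    (K : ι → Set (Set X)) (h1 : ∀ F : Set X, F.Finite → ∃ i, F ∈ K i)
    (h2 : ∀ (u : ℕ → Set X) (S : Set ℕ), (∀ a, IsOpen (u a)) →
      (∀ F : Set X, F.Finite → ∃ a ∈ S, F ⊆ u a) →
      ∀ i, ∃ m, ∀ F ∈ K i, ∃ a ∈ S, a ≤ m ∧ F ⊆ u a) : PolP X := by
  intro k _ 𝒰 𝒱 hU hV f
  obtain ⟨u, U, h3⟩ := enum hU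
  obtain ⟨v, V, h4⟩ := enum hV
  choose l1 hl1 using fun a => lim V fun b => f (u a, v b)
  choose l2 hl2 using fun b => lim U fun a => f (u a, v b)
  obtain ⟨c1, hc1⟩ := lim U l1
  obtain ⟨c2, hc2⟩ := lim V l2
  let SA : ℕ → Set ℕ := fun n => {a | l1 a = c1} ∩ ⋂ b ∈ Iio n, {a | f (u a, v b) = l2 b}
  let SB : ℕ → Set ℕ := fun n => {b | l2 b = c2} ∩ ⋂ a ∈ Iio n, {b | f (u a, v b) = l1 a}
  choose f1 hf1 using fun n => h2 (fun a => u a) (SA n) (fun a => hU.1 _ (u a).2) fun F hF =>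
    Ultrafilter.nonempty_of_mem (inter_mem (inter_mem hc1
      ((biInter_mem (finite_Iio n)).2 fun b _ => hl2 b)) (h3 F hF))
  choose f2 hf2 using fun n => h2 (fun b => v b) (SB n) (fun b => hV.1 _ (v b).2) fun F hF =>
    Ultrafilter.nonempty_of_mem (inter_mem (inter_mem hc2
      ((biInter_mem (finite_Iio n)).2 fun a _ => hl1 a)) (h4 F hF))
  obtain ⟨col, hcol⟩ := ex_split' h hu fun i n => max (f1 n i) (f2 n i)
  let A : (ℕ → Set ℕ) → Bool → Set ℕ := fun S b =>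
    {a | ∃ n, a ∈ S n ∧ col n = b ∧ ∀ m, n ≤ m → m ≤ a → col m = b}
  refine ⟨(fun a => (u a).1) '' A SA true, image_subset_iff.2 fun a _ => (u a).2,
    (fun b => (v b).1) '' A SB false, image_subset_iff.2 fun b _ => (v b).2,
    ⟨forall_mem_image.2 fun a _ => hU.1 _ (u a).2, fun ⟨a, _, e⟩ => hU.2.1 (e ▸ (u a).2),
      fun F hF => ?_⟩,
    ⟨forall_mem_image.2 fun b _ => hV.1 _ (v b).2, fun ⟨b, _, e⟩ => hV.2.1 (e ▸ (v b).2),
      fun F hF => ?_⟩, ?_⟩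
  · obtain ⟨i, hi⟩ := h1 F hF
    obtain ⟨n, a1, a2⟩ := hcol i true
    obtain ⟨a, b1, b2, b3⟩ := hf1 n i F hi
    exact ⟨_, ⟨a, ⟨n, b1, a1, fun m c d => a2 m c (d.trans (b2.trans (le_max_left _ _)))⟩, rfl⟩, b3⟩
  · obtain ⟨i, hi⟩ := h1 F hF
    obtain ⟨n, a1, a2⟩ := hcol i false
    obtain ⟨a, b1, b2, b3⟩ := hf2 n i F hi
    exact ⟨_, ⟨a, ⟨n, b1, a1, fun m c d => a2 m c (d.trans (b2.trans (le_max_right _ _)))⟩, rfl⟩, b3⟩
  refine (ncard_le_ncard (t := {c1, c2}) ?_ (toFinite _)).trans_lt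
    ((ncard_insert_le _ _).trans_lt (by simp))
  rintro _ ⟨⟨p, q⟩, ⟨⟨a, ⟨n, a1, a2, a3⟩, e1⟩, b, ⟨n', b1, b2, b3⟩, e2⟩, rfl⟩
  obtain rfl : u a = p := Subtype.ext e1
  obtain rfl : v b = q := Subtype.ext e2
  rcases lt_trichotomy n n' with h | rfl | h
  · exact Or.inl ((mem_iInter₂.1 b1.2 a (show a < n' from not_le.1 fun h' => by
      simp [a3 n' h.le h'] at b2)).trans a1.1)
  · simp [a2] at b2
  · exact Or.inr ((mem_iInter₂.1 a1.2 b (show b < n from not_le.1 fun h' => by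
      simp [b3 n h.le h'] at a2)).trans b1.1)

theorem pol_small [SecondCountableTopology X] (h : #X < dNum) (hu : #X < uNum) : PolP X := by
  have hf : ∀ c, ℵ₀ < c → #X < c → #(Finset X) < c := fun c h0 h => by
    rcases finite_or_infinite X with _ | _
    · exact (lt_aleph0_of_finite _).trans h0
    · rwa [mk_finset_of_infinite]
  refine pol_of (hf _ aleph0_lt_d h) (hf _ aleph0_lt_u hu) (fun s => {↑s})
    (fun F hF => ⟨hF.toFinset, by simp⟩) fun u S _ h s => ?_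
  obtain ⟨a, h1, h2⟩ := h s s.finite_toSet
  exact ⟨a, fun F hF => ⟨a, h1, le_rfl, hF ▸ h2⟩⟩

theorem pol_compact [SecondCountableTopology X] [CompactSpace X] : PolP X := by
  refine pol_of (ι := ℕ) (by simpa using aleph0_lt_d) (by simpa using aleph0_lt_u)
    (fun i => {F | ∃ x : Fin i → X, F = range x}) (fun F hF => ?_) fun u S h0 h i => ?_
  · obtain ⟨n, f, hf⟩ := hF.fin_embedding
    exact ⟨n, f, hf.symm⟩
  obtain ⟨t, ht⟩ := (isCompact_univ (X := Fin i → X)).elim_finite_subcover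
    (fun a : S => Set.pi Set.univ fun _ => u a)
    (fun a => isOpen_set_pi finite_univ fun _ _ => h0 a) fun x _ => by
      obtain ⟨a, h1, h2⟩ := h _ (finite_range x)
      exact mem_iUnion.2 ⟨⟨a, h1⟩, fun j _ => h2 ⟨j, rfl⟩⟩
  refine ⟨t.sup Subtype.val, ?_⟩
  rintro _ ⟨x, rfl⟩
  obtain ⟨a, h1, h2⟩ := mem_iUnion₂.1 (ht (mem_univ x))
  exact ⟨a, a.2, Finset.le_sup (f := Subtype.val) h1, range_subset_iff.2 fun j => h2 j trivial⟩

end Pool.Agent.H42.PolO
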