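import Pool.Agent.H42.PolO1

/-! The unit interval separates the relation from `S_1(Ω, Ω)`; the critical cardinality. -/

namespace Pool.Agent.H42.PolO

open Set Filter Cardinal Topology MeasureTheory Pool.Agent.H42.PolD Classical

theorem not_S1 : ¬S1 (Icc (0 : ℝ) 1) := fun h => by
  obtain ⟨ε, h1, h2⟩ := ENNReal.exists_pos_sum_of_countable' one_ne_zero ℕ
  have key : ∀ O : Set ℝ, Subtype.val ⁻¹' O = (Set.univ : Set (Icc (0 : ℝ) 1)) → 1 ≤ volume O :=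
    fun O hO => by
      simpa using measure_mono (μ := volume) fun x (hx : x ∈ Icc (0 : ℝ) 1) =>
        (hO.ge (mem_univ ⟨x, hx⟩) : x ∈ O)
  obtain ⟨U, h3, h4⟩ := h (fun n => {U | ∃ O, IsOpen O ∧ volume O < ε n ∧ U = Subtype.val ⁻¹' O})
    fun n => ⟨fun _ ⟨O, a, _, b⟩ => b ▸ a.preimage continuous_subtype_val,
      fun ⟨O, _, a, b⟩ => ((key O b.symm).trans_lt
        (a.trans_le ((ENNReal.le_tsum n).trans h2.le))).false, fun F hF => by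
      obtain ⟨O, a, b, c⟩ := Set.exists_isOpen_lt_of_lt (μ := volume) (Subtype.val '' F) (ε n)
        (((hF.image _).measure_zero _).trans_lt (h1 n))
      exact ⟨_, ⟨O, b, c, rfl⟩, image_subset_iff.1 a⟩⟩
  choose O a b c using h3
  refine ((key (⋃ n, O n) (eq_univ_of_forall fun x => ?_)).trans ((measure_iUnion_le _).trans
    (ENNReal.tsum_le_tsum fun n => (b n).le))).not_gt h2
  obtain ⟨_, ⟨n, rfl⟩, d⟩ := h4.2.2 {x} (finite_singleton x)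
  exact mem_iUnion.2 ⟨n, ((c n).le (d rfl) :)⟩

lemma fail_of {τ : Type} (T : τ → Set ℕ)
    (h1 : ∀ G : Set τ, G.Finite → ∃ i, ∀ t ∈ G, i ∈ T t) (h2 : ∀ i, ∃ t, i ∉ T t)
    (c : ℕ → ℕ → Fin 3) (h3 : ∀ A B : Set ℕ, (∀ G : Set τ, G.Finite → ∃ i ∈ A, ∀ t ∈ G, i ∈ T t) →
      (∀ G : Set τ, G.Finite → ∃ i ∈ B, ∀ t ∈ G, i ∈ T t) → ∀ j, ∃ a ∈ A, ∃ b ∈ B, c a b = j) :
    ∃ X : Set ℝ, ¬PolP X ∧ #X ≤ #τ := by
  obtain ⟨φ, -, hc, hi⟩ := (PerfectSpace.univ_perfect (α := ℝ)).exists_nat_bool_injection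
    univ_nonempty
  let x : τ → ℝ := fun t => φ fun i => decide (i ∈ T t)
  let U : ℕ → Set (range x) := fun i => Subtype.val ⁻¹' (φ '' {y | y i = false})ᶜ
  have hU : ∀ i t, (⟨_, t, rfl⟩ : range x) ∈ U i ↔ i ∈ T t := fun i t => by
    simp [U, x, hi.eq_iff]
  have hO : Om (range U) := ⟨forall_mem_range.2 fun i => (((isClosed_eq (continuous_apply i)
    continuous_const).isCompact.image hc).isClosed.isOpen_compl).preimage continuous_subtype_val,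
    fun ⟨i, hi⟩ => (h2 i).elim fun t ht => ht ((hU i t).1 (hi ▸ trivial)), fun F hF => by
      choose g hg using fun y : range x => y.2
      obtain ⟨i, hi⟩ := h1 _ (hF.image g)
      exact ⟨_, ⟨i, rfl⟩, fun y hy => by
        have := (hU i _).2 (hi _ ⟨y, hy, rfl⟩)
        simpa only [hg] using this⟩⟩
  refine ⟨range x, fun h => ?_, mk_range_le⟩
  choose idx hidx using fun V : range U => V.2
  obtain ⟨𝒱, a1, 𝒲, a2, a3, a4, a5⟩ := h 3 three_pos _ _ hO hO fun p => c (idx p.1) (idx p.2)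
  have key : ∀ 𝒱 ⊆ range U, Om 𝒱 → ∀ G : Set τ, G.Finite →
      ∃ i ∈ idx '' {V | V.1 ∈ 𝒱}, ∀ t ∈ G, i ∈ T t := fun 𝒱 b1 b2 G hG => by
    obtain ⟨V, c1, c2⟩ := b2.2.2 _ (hG.image fun t => (⟨_, t, rfl⟩ : range x))
    exact ⟨_, ⟨⟨V, b1 c1⟩, c1, rfl⟩, fun t ht => (hU _ t).1
      ((hidx ⟨V, b1 c1⟩).ge (c2 ⟨t, ht, rfl⟩))⟩
  rw [eq_univ_of_forall (s := _ '' _) fun j => ?_] at a5
  · simp [ncard_univ] at a5
  obtain ⟨_, ⟨V, b1, rfl⟩, _, ⟨W, b2, rfl⟩, b3⟩ := h3 _ _ (key _ a1 a3) (key _ a2 a4) j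
  exact ⟨(V, W), ⟨b1, b2⟩, b3⟩

lemma le_u : ∃ X : Set ℝ, ¬PolP X ∧ #X ≤ uNum := by
  obtain ⟨U, B, hU, hB, h1, h2⟩ := ex_base
  rw [← hB]
  have key : ∀ A : Set ℕ, (∀ G : Set B, G.Finite → ∃ i ∈ A, ∀ t ∈ G, i ∈ t.1) → A ∈ U :=
    fun A h => by
      by_contra hc
      obtain ⟨b, b1, b2⟩ := h2 _ (Ultrafilter.compl_mem_iff_notMem.2 hc)
      obtain ⟨i, i1, i2⟩ := h {⟨b, b1⟩} (finite_singleton _)
      exact b2 (i2 _ rfl) i1
  refine fail_of (fun b : B => b.1) (fun G hG => ?_) (fun i => ?_)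
    (fun a b => if a < b then 0 else if a = b then 1 else 2) fun A A' a1 a2 j => ?_
  · obtain ⟨i, hi⟩ := Ultrafilter.nonempty_of_mem ((biInter_mem hG).2 fun t _ => h1 _ t.2)
    exact ⟨i, mem_iInter₂.1 hi⟩
  · obtain ⟨b, b1, b2⟩ := h2 _ (Ultrafilter.compl_mem_iff_notMem.2 (hU i))
    exact ⟨⟨b, b1⟩, fun h => b2 h rfl⟩
  have hi := inf_of_mem hU (inter_mem (key A a1) (key A' a2))
  obtain ⟨a, ha⟩ := hi.nonempty
  obtain ⟨b, hb, hab⟩ := hi.exists_gt a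
  fin_cases j
  · exact ⟨a, ha.1, b, hb.2, by simp [hab]⟩
  · exact ⟨a, ha.1, a, ha.2, by simp⟩
  · exact ⟨b, hb.1, a, ha.2, by simp [hab.not_gt, hab.ne']⟩

lemma le_d : ∃ X : Set ℝ, ¬PolP X ∧ #X ≤ dNum := by
  obtain ⟨F, hF, hd⟩ := ex_dom
  rw [show dNum = #(F × ℕ) by simp [hF, mul_eq_left aleph0_lt_d.le aleph0_lt_d.le aleph0_ne_zero]]
  obtain ⟨f0, hf0, -⟩ := hd id
  have key : ∀ A : Set ℕ, (∀ G : Set (F × ℕ), G.Finite → ∃ i ∈ A, ∀ t ∈ G,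
      t.2 ≤ i.unpair.1 ∧ t.1.1 i.unpair.1 ≤ i.unpair.2) → ∀ n, ∃ i ∈ A, n ≤ i.unpair.1 :=
    fun A h n => by
      obtain ⟨i, i1, i2⟩ := h {(⟨f0, hf0⟩, n)} (finite_singleton _)
      exact ⟨i, i1, (i2 _ rfl).1⟩
  refine fail_of (fun t : F × ℕ => {i | t.2 ≤ i.unpair.1 ∧ t.1.1 i.unpair.1 ≤ i.unpair.2})
    (fun G hG => ?_) (fun i => ⟨(⟨f0, hf0⟩, i.unpair.1 + 1), fun h => by simpa using h.1⟩)
    (fun a b => if a < b.unpair.1 then 0 else if b < a.unpair.1 then 1 else 2)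
    fun A B a1 a2 j => ?_
  · obtain ⟨n, hn⟩ := (hG.image Prod.snd).bddAbove
    obtain ⟨m, hm⟩ := (hG.image fun t => t.1.1 n).bddAbove
    exact ⟨Nat.pair n m, fun t ht => by simpa using ⟨hn ⟨t, ht, rfl⟩, hm ⟨t, ht, rfl⟩⟩⟩
  obtain ⟨a, ha, -⟩ := key A a1 0
  obtain ⟨b, hb, -⟩ := key B a2 0
  fin_cases j
  · obtain ⟨b, b1, b2⟩ := key B a2 (a + 1)
    exact ⟨a, ha, b, b1, if_pos b2⟩
  · obtain ⟨a, b1, b2⟩ := key A a1 (b + 1)
    have := a.unpair_left_le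
    have := b.unpair_left_le
    exact ⟨a, b1, b, hb, by rw [if_neg (by omega), if_pos (by omega)]; rfl⟩
  by_contra! hc
  have : ∀ n, ∃ m, ∀ a ∈ A, a.unpair.1 = n → a.unpair.2 < m := fun n => by
    obtain ⟨b, b1, b2⟩ := key B a2 n
    refine ⟨b.unpair.1, fun a a1 a2 => a.unpair_right_le.trans_lt (not_le.1 fun h => ?_)⟩
    have := b.unpair_left_le
    exact hc a a1 b b1 (by rw [if_neg (by omega), if_neg (by omega)]; rfl)
  choose g hg using this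
  obtain ⟨f, hf, h⟩ := hd g
  obtain ⟨N, hN⟩ := eventually_atTop.1 h
  obtain ⟨i, i1, i2⟩ := a1 {(⟨f, hf⟩, N)} (finite_singleton _)
  exact (hg _ i i1 rfl).not_ge ((hN _ (i2 _ rfl).1).trans (i2 _ rfl).2)

theorem nonP_eq : nonP = min dNum uNum := by
  obtain ⟨X, h1, h2⟩ := le_u
  obtain ⟨Y, h3, h4⟩ := le_d
  have key : ∀ X : Set ℝ, ¬PolP X → nonP ≤ #X := fun X h => csInf_le' ⟨X, h, rfl⟩
  refine le_antisymm (le_min ((key Y h3).trans h4) ((key X h1).trans h2))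
    (le_csInf ⟨_, X, h1, rfl⟩ ?_)
  rintro _ ⟨Z, h5, rfl⟩
  exact not_lt.1 fun h => h5 (pol_small (lt_min_iff.1 h).1 (lt_min_iff.1 h).2)

end Pool.Agent.H42.PolO
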