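import Mathlib

/-! Omega-covers, `S_1(Ω, Ω)` and the polarized partition relation for omega-covers. -/

namespace Pool.Agent.H42.PolO

open Cardinal

/-- an open ω-cover -/
def Om {X : Type} [TopologicalSpace X] (𝒰 : Set (Set X)) : Prop :=
  (∀ U ∈ 𝒰, IsOpen U) ∧ Set.univ ∉ 𝒰 ∧ ∀ F : Set X, F.Finite → ∃ U ∈ 𝒰, F ⊆ U

/-- `S_1(Ω, Ω)` -/
def S1 (X : Type) [TopologicalSpace X] : Prop :=
  ∀ 𝒰 : ℕ → Set (Set X), (∀ n, Om (𝒰 n)) →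
    ∃ U : ℕ → Set X, (∀ n, U n ∈ 𝒰 n) ∧ Om (Set.range U)

/-- the polarized partition relation, for every number `k` of colours -/
def PolP (X : Type) [TopologicalSpace X] : Prop :=
  ∀ k : ℕ, 0 < k → ∀ 𝒰₁ 𝒰₂ : Set (Set X), Om 𝒰₁ → Om 𝒰₂ → ∀ f : 𝒰₁ × 𝒰₂ → Fin k,
    ∃ 𝒱₁ ⊆ 𝒰₁, ∃ 𝒱₂ ⊆ 𝒰₂, Om 𝒱₁ ∧ Om 𝒱₂ ∧
      (f '' {p | p.1.1 ∈ 𝒱₁ ∧ p.2.1 ∈ 𝒱₂}).ncard < 3

/-- the critical cardinality of the relation -/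
noncomputable def nonP : Cardinal.{0} := sInf {c | ∃ X : Set ℝ, ¬PolP X ∧ #X = c}

end Pool.Agent.H42.PolO
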