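import Mathlib

/-! Every maximal subalgebra of the Borel algebra of the Cantor space with property (T)
has cardinality continuum. -/

namespace Pool.Agent.H42.PropT

open Set Cardinal MeasureTheory Filter

/-- the standard product measure on the Cantor space -/
noncomputable def lam : Measure (ℕ → Bool) :=
  Measure.infinitePi fun _ => (PMF.uniformOfFintype Bool).toMeasure

/-- the atom of `𝒜_n` containing `x` -/
def atom (x : ℕ → Bool) (n : ℕ) : Set (ℕ → Bool) := {y | ∀ i ≤ n, y i = x i}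

/-- `φ_m(A)` -/
noncomputable def phi (m : ℕ) (A : Set (ℕ → Bool)) : ℝ :=
  |lam.real (A ∩ {x | x m = false}) - lam.real (A ∩ {x | x m = true})|

/-- `B` is a subalgebra of the Borel algebra containing the clopen sets, with property (T) -/
def HasT (B : Set (Set (ℕ → Bool))) : Prop :=
  (∀ A ∈ B, MeasurableSet A) ∧ (∀ A, IsClopen A → A ∈ B) ∧ (∀ A ∈ B, Aᶜ ∈ B) ∧
    (∀ A ∈ B, ∀ A' ∈ B, A ∪ A' ∈ B) ∧
    ∀ F ⊆ B, F.Finite → ∀ ε : ℝ, 0 < ε → ∃ n : ℕ, 0 < n ∧ ∀ x, ∀ A ∈ F,
      (lam.real (A ∩ atom x n) ≤ ε * lam.real (atom x n) / n ∨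
        lam.real (atom x n \ A) ≤ ε * lam.real (atom x n) / n) ∧
      ∀ m > n, phi m (A ∩ atom x n) ≤ ε * lam.real (atom x n) / m

/-- the least size of a maximal subalgebra with property (T) -/
noncomputable def propT : Cardinal.{0} := sInf {c | ∃ B, Maximal HasT B ∧ #B = c}

theorem lam_pi (s : Finset ℕ) (x : ℕ → Bool) :
    lam {y | ∀ i ∈ s, y i = x i} = 2⁻¹ ^ s.card := by
  have : {y : ℕ → Bool | ∀ i ∈ s, y i = x i} = Set.pi s fun i => {x i} := by ext; simp
  rw [this, lam, Measure.infinitePi_pi _ fun _ _ => measurableSet_singleton _]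
  simp

theorem lam_single (x : ℕ → Bool) : lam {x} = 0 := by
  refine le_antisymm (ge_of_tendsto' (ENNReal.tendsto_pow_atTop_nhds_zero_of_lt_one
    (r := 2⁻¹) (by simp)) fun n => ?_) zero_le
  rw [← Finset.card_range n, ← lam_pi _ x]
  exact measure_mono (by rintro _ rfl; simp)

theorem phi_atom (x : ℕ → Bool) {n m : ℕ} (h : n < m) : phi m (atom x n) = 0 := by
  have key : ∀ b, lam.real (atom x n ∩ {y | y m = b}) = (2⁻¹ ^ (n + 2) : ENNReal).toReal := by
    intro b
    have := lam_pi (insert m (Finset.range (n + 1))) (Function.update x m b)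
    rw [Finset.card_insert_of_notMem (by simp; omega), Finset.card_range] at this
    rw [Measure.real, ← this]
    congr 2
    ext y
    simp only [atom, mem_inter_iff, mem_ofPred, Finset.mem_insert, Finset.mem_range,
      forall_eq_or_imp, Function.update_self, Nat.lt_succ_iff, and_comm]
    refine and_congr_right fun _ => forall_congr' fun i => forall_congr' fun hi => ?_
    rw [Function.update_of_ne (by omega)]
  simp [phi, key]

theorem clopen_dep {A : Set (ℕ → Bool)} (h : IsClopen A) :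
    ∀ᶠ n in atTop, ∀ x, atom x n ⊆ A ∨ atom x n ⊆ Aᶜ := by
  have h1 : ∀ x : ℕ → Bool, ∃ n, PiNat.cylinder x n ⊆ A ∨ PiNat.cylinder x n ⊆ Aᶜ := by
    intro x
    have key : ∀ S : Set (ℕ → Bool), IsOpen S → x ∈ S → ∃ n, PiNat.cylinder x n ⊆ S := by
      intro S h1 h2
      obtain ⟨_, ⟨y, n, rfl⟩, h3, h4⟩ :=
        (PiNat.isTopologicalBasis_cylinders fun _ => Bool).exists_subset_of_mem_open h2 h1
      exact ⟨n, PiNat.mem_cylinder_iff_eq.1 h3 ▸ h4⟩
    by_cases hx : x ∈ A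
    · exact (key A h.isOpen hx).imp fun _ => Or.inl
    · exact (key Aᶜ h.compl.isOpen hx).imp fun _ => Or.inr
  choose k hk using h1
  obtain ⟨t, ht⟩ := isCompact_univ.elim_finite_subcover (fun x => PiNat.cylinder x (k x))
    (fun x => PiNat.isOpen_cylinder _ x _) fun x _ => mem_iUnion.2 ⟨x, PiNat.self_mem_cylinder _ _⟩
  filter_upwards [eventually_ge_atTop (t.sup k)] with n hn x
  obtain ⟨z, hz, h2⟩ := mem_iUnion₂.1 (ht (mem_univ x))
  have : atom x n ⊆ PiNat.cylinder z (k z) := fun y hy i hi =>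
    (hy i (hi.le.trans ((Finset.le_sup hz).trans hn))).trans (h2 i hi)
  exact (hk z).imp this.trans this.trans

theorem clopen_T : HasT {A | IsClopen A} := by
  refine ⟨fun A h => h.isOpen.measurableSet, fun A h => h, fun A h => h.compl,
    fun A h A' h' => h.union h', fun F hF hf ε hε => ?_⟩
  obtain ⟨n, h1, h2⟩ := ((eventually_gt_atTop 0).and
    ((eventually_all_finite hf).2 fun A hA => clopen_dep (hF hA))).exists
  have h3 : ∀ x (m : ℕ), 0 ≤ ε * lam.real (atom x n) / m := fun x m => by positivity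
  refine ⟨n, h1, fun x A hA => ?_⟩
  rcases h2 A hA x with h | h
  · rw [sdiff_eq_empty.2 h, inter_eq_right.2 h]
    exact ⟨Or.inr (by simpa using h3 x n), fun m hm => (phi_atom x hm).trans_le (h3 x m)⟩
  · rw [(subset_compl_iff_disjoint_left.1 h).inter_eq]
    exact ⟨Or.inl (by simpa using h3 x n), fun m hm => by simpa [phi] using h3 x m⟩

theorem ex_max : ∃ B, Maximal HasT B := by
  obtain ⟨B, -, h⟩ := zorn_subset_nonempty {B | HasT B} (fun C hC hc ⟨B0, h0⟩ => ⟨⋃₀ C,
    ⟨fun A ⟨B, h1, h2⟩ => (hC h1).1 A h2, fun A h => ⟨B0, h0, (hC h0).2.1 A h⟩,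
      fun A ⟨B, h1, h2⟩ => ⟨B, h1, (hC h1).2.2.1 A h2⟩,
      fun A ⟨B, h1, h2⟩ A' ⟨B', h3, h4⟩ => (hc.total h1 h3).elim
        (fun h => ⟨B', h3, (hC h3).2.2.2.1 A (h h2) A' h4⟩)
        fun h => ⟨B, h1, (hC h1).2.2.2.1 A h2 A' (h h4)⟩, fun F hF hf => by
      obtain ⟨B, h1, h2⟩ : ∃ B ∈ C, F ⊆ B := by
        induction F, hf using Set.Finite.induction_on with
        | empty => exact ⟨B0, h0, empty_subset _⟩
        | insert _ _ ih =>
          obtain ⟨B, h1, h2⟩ := ih ((subset_insert _ _).trans hF)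
          obtain ⟨B', h3, h4⟩ := hF (mem_insert _ _)
          rcases hc.total h1 h3 with h | h
          exacts [⟨B', h3, insert_subset h4 (h2.trans h)⟩, ⟨B, h1, insert_subset (h h4) h2⟩]
      exact (hC h1).2.2.2.2 F h2 hf⟩, fun _ h => subset_sUnion_of_mem h⟩) _ clopen_T
  exact ⟨B, h⟩

theorem ae_T {B : Set (Set (ℕ → Bool))} (h : HasT B) :
    HasT {A | MeasurableSet A ∧ ∃ A' ∈ B, A =ᵐ[lam] A'} := by
  refine ⟨fun A h => h.1, fun A h1 => ⟨h1.isOpen.measurableSet, A, h.2.1 A h1, ae_eq_refl _⟩,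
    fun A ⟨h1, A', h2, h3⟩ => ⟨h1.compl, _, h.2.2.1 A' h2, h3.compl⟩,
    fun A ⟨h1, A', h2, h3⟩ C ⟨h4, C', h5, h6⟩ =>
      ⟨h1.union h4, _, h.2.2.2.1 A' h2 C' h5, h3.union h6⟩, fun F hF hf ε hε => ?_⟩
  choose! g g1 g2 using fun A (hA : A ∈ F) => (hF hA).2
  obtain ⟨n, h1, h2⟩ := h.2.2.2.2 (g '' F) (image_subset_iff.2 g1) (hf.image g) ε hε
  refine ⟨n, h1, fun x A hA => ?_⟩
  have h3 := h2 x _ ⟨A, hA, rfl⟩
  have h4 := (g2 A hA).inter (ae_eq_refl (atom x n))
  rw [measureReal_congr h4, measureReal_congr ((ae_eq_refl (atom x n)).diff (g2 A hA))]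
  refine ⟨h3.1, fun m hm => ?_⟩
  have h5 : ∀ S, lam.real (A ∩ atom x n ∩ S) = lam.real (g A ∩ atom x n ∩ S) := fun S =>
    measureReal_congr (h4.inter (ae_eq_refl S))
  rw [phi, h5, h5]
  exact h3.2 m hm

theorem card_max {B : Set (Set (ℕ → Bool))} (h : Maximal HasT B) : #B = 𝔠 := by
  refine le_antisymm ?_ ?_
  · have := MeasurableSpace.cardinal_measurableSet_le_continuum
      (s := MeasurableSpace.countableGeneratingSet (ℕ → Bool))
      ((le_aleph0_iff_set_countable.2 MeasurableSpace.countable_countableGeneratingSet).trans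
        aleph0_le_continuum)
    rw [MeasurableSpace.generateFrom_countableGeneratingSet] at this
    exact (mk_le_mk_of_subset h.1.1).trans this
  · have h1 : ∀ x, {x} ∈ B := fun x =>
      h.2 (ae_T h.1) (fun A hA => ⟨h.1.1 A hA, A, hA, ae_eq_refl _⟩)
        ⟨measurableSet_singleton x, ∅, h.1.2.1 _ isClopen_empty, ae_eq_empty.2 (lam_single x)⟩
    have := mk_le_of_injective (f := fun x : ℕ → Bool => (⟨{x}, h1 x⟩ : B))
      fun x y hxy => singleton_injective (congrArg Subtype.val hxy)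
    simpa using this

theorem propT_eq : propT = 𝔠 := by
  obtain ⟨B, hB⟩ := ex_max
  obtain ⟨B', h, h'⟩ := csInf_mem (s := {c | ∃ B, Maximal HasT B ∧ #B = c}) ⟨_, B, hB, rfl⟩
  exact h'.symm.trans (card_max h)

end Pool.Agent.H42.PropT
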