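import Pool.Agent.H42.RayDefs

/-! Representing a space by paths of a forest gives a quasi-ray space. -/

namespace Pool.Agent.H42.Ray1

open Set Pool.Agent.H42.RayDefs

universe u

lemma blow {T X : Type u} [PartialOrder T] [WellFoundedLT T] [TopologicalSpace X]
    (hc : ∀ t : T, IsChain (· ≤ ·) (Iic t)) (p : X → Set T) (ne : ∀ x, (p x).Nonempty)
    (ch : ∀ x, IsChain (· ≤ ·) (p x)) (lo : ∀ x, IsLowerSet (p x)) (inj : Function.Injective p)
    (sur : ∀ R, IsRay R → R ∈ range p) (cl : ∀ t, IsClopen {x | t ∈ p x}) : QuasiRay X := by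
  let S := {z : T ×ₗ ℕ // (ofLex z).2 = 0 ∨ Iic (ofLex z).1 ∈ range p}
  let a : S → T := fun w => (ofLex w.1).1
  let b : S → ℕ := fun w => (ofLex w.1).2
  let o : T → S := fun t => ⟨toLex (t, 0), Or.inl rfl⟩
  have le : ∀ {v w : S}, v ≤ w ↔ a v < a w ∨ a v = a w ∧ b v ≤ b w := Prod.Lex.le_iff
  have lt : ∀ {v w : S}, v < w ↔ a v < a w ∨ a v = a w ∧ b v < b w := Prod.Lex.lt_iff
  have mo : ∀ {v w : S}, v ≤ w → a v ≤ a w := fun h => (le.1 h).elim le_of_lt fun e => e.1.le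
  have cm : ∀ (Q : Set T), IsChain (· ≤ ·) Q →
      IsChain (· ≤ ·) {z : WithBot S | ∀ w : S, z = w → a w ∈ Q} := fun Q h z hz z' hz' _ => by
    cases z
    · exact Or.inl bot_le
    cases z'
    · exact Or.inr bot_le
    simp only [WithBot.coe_le_coe, le]
    rcases h.total (hz _ rfl) (hz' _ rfl) with e | e <;> rcases e.lt_or_eq with e | e <;> simp [e]
    all_goals exact le_total _ _
  have eq : ∀ (Q : Set T) t, IsChain (· ≤ ·) Q → IsLowerSet Q → t ∈ Q → (¬ ∃ s ∈ Q, t < s) →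
      Q = Iic t := fun Q t h1 h2 h3 h4 => Subset.antisymm (fun s hs => (h1.total hs h3).elim id
    fun e => e.lt_or_eq.elim (fun d => (h4 ⟨s, hs, d⟩).elim) fun d => d.ge) fun s hs => h2 hs h3
  refine ⟨WithBot S, inferInstance, ⟨⟨⊥, fun _ => bot_le⟩, fun z => ⟨?_, .of_wellFoundedLT _⟩⟩,
    fun x => ⟨{z | ∀ w : S, z = w → a w ∈ p x}, ⟨⊥, by simp⟩, cm _ (ch x), fun z z' h hz w e => ?_,
      fun z hz => ?_⟩, continuous_induced_rng.2 (continuous_pi fun z =>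
        (continuous_boolIndicator_iff_isClopen {x | ∀ w : S, z = w → a w ∈ p x}).2 ?_),
    fun x y h => inj (Set.ext fun t => ?_), fun ⟨R, r1, r2, r3, r4⟩ => ?_⟩
  · cases z with
    | bot => exact fun _ h _ _ _ => Or.inl (h.trans bot_le)
    | coe v => 
      refine IsChain.mono ?_ (cm _ (hc (a v)))
      rintro _ hz w rfl
      exact mo (WithBot.coe_le_coe.1 hz)
  · subst e
    obtain ⟨v, rfl, h'⟩ := WithBot.coe_le_iff.1 h
    exact lo x (mo h') (hz v rfl)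
  · cases z with
    | bot => exact let ⟨t, h⟩ := ne x; ⟨o t, by simpa [a, o] using h, WithBot.bot_lt_coe _⟩
    | coe v =>
      by_cases h : ∃ s ∈ p x, a v < s
      · obtain ⟨s, h1, h2⟩ := h
        exact ⟨o s, by simpa [a, o] using h1, WithBot.coe_lt_coe.2 (lt.2 (Or.inl h2))⟩
      · exact ⟨(⟨toLex (a v, b v + 1), Or.inr ⟨x, eq _ _ (ch x) (lo x) (hz v rfl) h⟩⟩ : S),
          by simpa [a] using hz v rfl, WithBot.coe_lt_coe.2 (lt.2 (Or.inr ⟨rfl, Nat.lt_succ_self _⟩))⟩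
  · cases z with
    | bot => simpa using isClopen_univ
    | coe v => simpa using cl (a v)
  · simpa [a, o] using Set.ext_iff.1 (congrArg Subtype.val h) (o t)
  let Q : Set T := {t | ∃ w : S, ↑w ∈ R ∧ a w = t}
  have q1 : IsChain (· ≤ ·) Q := by
    rintro _ ⟨v, hv, rfl⟩ _ ⟨w, hw, rfl⟩ -
    exact (r2.total hv hw).imp (fun e => mo (WithBot.coe_le_coe.1 e))
      fun e => mo (WithBot.coe_le_coe.1 e)
  have q2 : IsLowerSet Q := by
    rintro _ t h ⟨v, hv, rfl⟩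
    exact ⟨o t, r3 (WithBot.coe_le_coe.2 (le.2 (h.lt_or_eq.imp id fun e => ⟨e, Nat.zero_le _⟩))) hv, rfl⟩
  have up : ∀ z ∈ R, ∃ w : S, ↑w ∈ R ∧ z < w := fun z hz => by
    obtain ⟨z', h1, h2⟩ := r4 z hz
    obtain ⟨w, rfl⟩ := WithBot.ne_bot_iff_exists.1 h2.ne_bot
    exact ⟨w, h1, h2⟩
  obtain ⟨x, hx⟩ : Q ∈ range p := by
    by_cases h : ∀ t ∈ Q, ∃ s ∈ Q, t < s
    · obtain ⟨z, hz⟩ := r1
      obtain ⟨w, h1, -⟩ := up z hz
      exact sur Q ⟨⟨_, w, h1, rfl⟩, q1, q2, h⟩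
    · obtain ⟨_, h⟩ := not_forall.1 h
      obtain ⟨⟨v, hv, rfl⟩, h⟩ := Classical.not_imp.1 h
      obtain ⟨w, h1, h2⟩ := up _ hv
      obtain ⟨h3, h4⟩ := (lt.1 (WithBot.coe_lt_coe.1 h2)).resolve_left fun e => h ⟨_, ⟨w, h1, rfl⟩, e⟩
      rw [eq Q _ q1 q2 ⟨v, hv, rfl⟩ h, h3]
      exact w.2.resolve_left (Nat.ne_zero_of_lt h4)
  refine ⟨x, Subtype.ext (Set.ext fun z => ⟨fun h => ?_, fun h w e => hx ▸ ⟨w, e ▸ h, rfl⟩⟩)⟩
  cases z with
  | bot => exact let ⟨z, hz⟩ := r1; r3 bot_le hz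
  | coe v =>
    have : ∀ n, ∃ w : S, ↑w ∈ R ∧ (a v < a w ∨ a v = a w ∧ n ≤ b w) := fun n => by
      induction n with
      | zero =>
        obtain ⟨w, h1, h2⟩ : a v ∈ Q := hx ▸ h v rfl
        exact ⟨w, h1, Or.inr ⟨h2.symm, Nat.zero_le _⟩⟩
      | succ n ih =>
        obtain ⟨w, h1, h2⟩ := ih
        obtain ⟨w', h3, h4⟩ := up _ h1
        refine ⟨w', h3, ?_⟩
        rcases lt.1 (WithBot.coe_lt_coe.1 h4) with e | e <;> rcases h2 with d | d
        exacts [Or.inl (d.trans e), Or.inl (d.1 ▸ e), Or.inl (e.1 ▸ d),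
          Or.inr ⟨d.1.trans e.1, d.2.trans_lt e.2⟩]
    obtain ⟨w, h1, h2⟩ := this (b v)
    exact r3 (WithBot.coe_le_coe.2 (le.2 h2)) h1

end Pool.Agent.H42.Ray1
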