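import Pool.Agent.H42.Ray1

/-! Rearranging a tree so that its rays correspond to an open set of rays. -/

namespace Pool.Agent.H42.Ray2

open Set Pool.Agent.H42.RayDefs

universe u

variable {T : Type u} [PartialOrder T] [Nonempty T] (N : Set (Set T))

/-- A node of `R` above which `R` is the least omitted ray. -/
noncomputable def a (R : Set T) : T := Classical.epsilon fun a => a ∈ R ∧ ∀ R' ∈ N, a ∈ R' → R ⊆ R'

/-- Omitted rays that are isolated from below. -/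
def Bad (R : Set T) : Prop := IsRay R ∧ R ∈ N ∧ a N R ∈ R ∧ ∀ R' ∈ N, a N R ∈ R' → R ⊆ R'

/-- The first ray after the chosen node. -/
def X (R : Set T) : Set T := {s ∈ R | (Icc (a N R) s).Finite}

/-- Nodes where the tree is cut. -/
def A (c : T) : Prop := ((∃ R ∈ N, c ∈ R) ∧ ∀ s < c, ∃ R ∈ N, s ∈ R ∧ c ∉ R) ∨ Iio c ∈ N ∨
  ∃ R, Bad N R ∧ (c ∈ X N R ∧ a N R ≤ c ∨ Iio c = X N R)

/-- The last uncut part of a path. -/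
def Tl (S : Set T) : Set T := {s | s ∈ S ∧ ∀ c ∈ S, s < c → ¬ A N c}

/-- The part put below a path. -/
def L (S : Set T) : Set T :=
  {s | ∃ R, Bad N R ∧ s ∈ R ∧ s ∉ X N R ∧ a N R ∈ S ∧ ∀ u ∈ R, u ∈ S → u ∈ X N R}

/-- The new path. -/
def P (S : Set T) : Set T := Tl N S ∪ L N S

variable {N} {R R' S S' : Set T} {s s' t c u : T}

lemma tot (h : IsChain (· ≤ ·) S) (h1 : s ∈ S) (h2 : t ∈ S) : s ≤ t ∨ t < s :=
  (h.total h1 h2).elim Or.inl fun e => e.lt_or_eq.elim Or.inr fun d => Or.inl d.ge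

lemma a_le (h : s ∈ R) (h' : s ∉ X N R) : a N R ≤ s :=
  by_contra fun e => h' ⟨h, by simp [Icc_eq_empty e]⟩

lemma Bad.aX (h : Bad N R) : a N R ∈ X N R := ⟨h.2.2.1, by simp⟩

lemma Bad.low (h : Bad N R) : IsLowerSet (X N R) := fun _ _ e x =>
  ⟨h.1.2.2.1 e x.1, x.2.subset (Icc_subset_Icc_right e)⟩

lemma Bad.eq (h : Bad N R) (h' : Bad N R') (e : a N R ∈ R') (e' : a N R' ∈ R) : R = R' :=
  (h.2.2.2 _ h'.2.1 e).antisymm (h'.2.2.2 _ h.2.1 e')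

lemma Bad.eq' (h : Bad N R) (h' : Bad N R') (x : s ∈ R) (y : s ∉ X N R) (x' : s ∈ R')
    (y' : s ∉ X N R') : R = R' :=
  h.eq h' (h'.1.2.2.1 (a_le x y) x') (h.1.2.2.1 (a_le x' y') x)

lemma Bad.NA (h : Bad N R) (x : s ∈ R) (y : s ∉ X N R) (z : c ∈ R) (l : s < c) : ¬ A N c := by
  have k := a_le x y
  rintro (⟨-, e⟩ | e | ⟨R', r, ⟨e, d⟩ | e⟩)
  · obtain ⟨R', e1, e2, e3⟩ := e _ (k.trans_lt l)
    exact e3 (h.2.2.2 _ e1 e2 z)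
  · exact lt_irrefl c (h.2.2.2 _ e (k.trans_lt l) z)
  · obtain rfl := h.eq r (r.1.2.2.1 (k.trans l.le) e.1) (h.1.2.2.1 d z)
    exact y (h.low l.le e)
  · obtain rfl := h.eq r (e.subset (k.trans_lt l)).1 (h.1.2.2.1 (e.symm.subset r.aX).le z)
    exact y (e.subset l)

lemma nl (h : Bad N R) (x : s ∈ R) (y : s ∉ X N R) (e : s' ∈ L N (Iic s)) : False := by
  obtain ⟨R', r, e1, e2, e3, e4⟩ := e
  rcases tot h.1.2.1 (r.2.2.2 _ h.2.1 (h.1.2.2.1 e3 x) e1) x with d | d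
  · exact e2 (e4 _ e1 d)
  · have := r.1.2.2.1 d.le e1
    obtain rfl := h.eq r (r.1.2.2.1 (a_le x y) this) (h.1.2.2.1 e3 x)
    exact y (e4 _ x le_rfl)

lemma uq (hS : IsChain (· ≤ ·) S) (hl : IsLowerSet S) (h : Bad N R) (h' : Bad N R')
    (x : s ∈ R ∧ s ∉ X N R ∧ a N R ∈ S ∧ ∀ u ∈ R, u ∈ S → u ∈ X N R)
    (y : s' ∈ R' ∧ s' ∉ X N R' ∧ a N R' ∈ S ∧ ∀ u ∈ R', u ∈ S → u ∈ X N R') : R = R' := by
  wlog e : a N R ≤ a N R' generalizing R R' s s'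
  · exact (this h' h y x ((hS.total x.2.2.1 y.2.2.1).resolve_left e)).symm
  have k := h'.1.2.2.1 e h'.2.2.1
  refine h.eq h' k ((tot h'.1.2.1 h'.2.2.1 (h.2.2.2 _ h'.2.1 k x.1)).elim (h.1.2.2.1 · x.1)
    fun d => (x.2.1 (x.2.2.2 _ x.1 (hl d.le y.2.2.1))).elim)

lemma refl (s : T) : s ∈ P N (Iic s) := Or.inl ⟨le_rfl, fun _ x y => (y.not_ge x).elim⟩

lemma L2 (hS : IsChain (· ≤ ·) S) (hl : IsLowerSet S) (x : s ∈ P N S) (y : s' ∈ P N S) :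
    s ∈ P N (Iic s') ∨ s' ∈ P N (Iic s) := by
  have k : ∀ {s s'}, s ∈ Tl N S → s' ∈ L N S → s' ∈ P N (Iic s) := fun x ⟨R, r, y⟩ =>
    Or.inr ⟨R, r, y.1, y.2.1, (tot hS y.2.2.1 x.1).resolve_right fun e => x.2 _ y.2.2.1 e
      (Or.inr (Or.inr ⟨R, r, Or.inl ⟨r.aX, le_rfl⟩⟩)), fun u a b => y.2.2.2 u a (hl b x.1)⟩
  rcases x with x | ⟨R, r, x⟩ <;> rcases y with y | ⟨R', r', y⟩
  · exact (hS.total x.1 y.1).imp (fun e => Or.inl ⟨e, fun c d => x.2 c (hl d y.1)⟩)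
      fun e => Or.inl ⟨e, fun c d => y.2 c (hl d x.1)⟩
  · exact Or.inr (k x ⟨R', r', y⟩)
  · exact Or.inl (k y ⟨R, r, x⟩)
  · obtain rfl := uq hS hl r r' x y
    exact (r.1.2.1.total x.1 y.1).imp
      (fun e => Or.inl ⟨e, fun c d => r.NA x.1 x.2.1 (r.1.2.2.1 d y.1)⟩)
      fun e => Or.inl ⟨e, fun c d => r.NA y.1 y.2.1 (r.1.2.2.1 d x.1)⟩

variable [WellFoundedLT T]

omit [Nonempty T] in
lemma top (h : u ∉ S) : ∃ v ≤ u, v ∉ S ∧ ∀ s < v, s ∈ S := by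
  obtain ⟨v, h1, h2⟩ := WellFoundedLT.exists_minimal ‹_› {v | v ≤ u ∧ v ∉ S} ⟨u, le_rfl, h⟩
  exact ⟨v, h1.1, h1.2, fun s l => by_contra fun e => l.not_ge (h2 ⟨l.le.trans h1.1, e⟩ l.le)⟩

lemma top' (hR : IsRay R) (hl : IsLowerSet S) (e : S ⊆ R) (x : u ∈ R) (h : u ∉ S) :
    ∃ v ≤ u, v ∈ R ∧ v ∉ S ∧ Iio v = S := by
  obtain ⟨v, v1, v2, v3⟩ := top h
  have := hR.2.2.1 v1 x
  exact ⟨v, v1, this, v2, Subset.antisymm v3 fun s y =>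
    (tot hR.2.1 this (e y)).resolve_left fun d => v2 (hl d y)⟩

lemma Bad.r (h : Bad N R) (x : u ∈ R) (y : u ∉ X N R) :
    ∃ v ≤ u, v ∈ R ∧ v ∉ X N R ∧ Iio v = X N R ∧ A N v :=
  let ⟨v, a, b, c, d⟩ := top' h.1 h.low (fun _ e => e.1) x y
  ⟨v, a, b, c, d, Or.inr (Or.inr ⟨R, h, Or.inr d⟩)⟩

lemma Bad.up (h : Bad N R) (x : s ∈ X N R) : ∃ c ∈ X N R, s < c ∧ A N c := by
  obtain ⟨m, m1, m2, m3⟩ : ∃ m ∈ X N R, s ≤ m ∧ a N R ≤ m := (h.1.2.1.total x.1 h.2.2.1).elim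
    (fun e => ⟨_, h.aX, e, le_rfl⟩) fun e => ⟨_, x, le_rfl, e⟩
  obtain ⟨w, w1, w2⟩ := h.1.2.2.2 m m1.1
  obtain ⟨v, -, v1, v2, v3⟩ := top' h.1 (isLowerSet_Iic m) (fun _ e => h.1.2.2.1 e m1.1) w1 w2.not_ge
  have l : m < v := v3.symm.subset le_rfl
  have : v ∈ X N R := ⟨v1, (m1.2.insert v).subset fun z e =>
    e.2.lt_or_eq.symm.imp_right fun d => ⟨e.1, v3.subset d⟩⟩
  exact ⟨v, this, m2.trans_lt l, Or.inr (Or.inr ⟨R, h, Or.inl ⟨this, m3.trans l.le⟩⟩)⟩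

lemma L1b (hS : IsChain (· ≤ ·) S) (hl : IsLowerSet S) (x : s ∈ Tl N S) (y : s' ∈ L N (Iic s)) :
    s' ∈ L N S := by
  obtain ⟨R, r, y⟩ := y
  refine ⟨R, r, y.1, y.2.1, hl y.2.2.1 x.1, fun u b c => by_contra fun d => ?_⟩
  obtain ⟨v, v1, v2, v3, -, v4⟩ := r.r b d
  exact (tot hS (hl v1 c) x.1).elim (fun e => v3 (y.2.2.2 v v2 e)) fun e => x.2 v (hl v1 c) e v4

lemma L1 (hS : IsChain (· ≤ ·) S) (hl : IsLowerSet S) (x : s ∈ P N S) (y : s' ∈ P N (Iic s)) :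
    s' ∈ P N S := by
  rcases x with x | ⟨R, r, x⟩ <;> rcases y with y | y
  · exact Or.inl ⟨hl y.1 x.1, fun c d e => (tot hS d x.1).elim (y.2 c · e) (x.2 c d)⟩
  · exact Or.inr (L1b hS hl x y)
  · refine Or.inr ⟨R, r, r.1.2.2.1 y.1 x.1, fun e => ?_, x.2.2⟩
    obtain ⟨v, v1, -, -, v3, v4⟩ := r.r x.1 x.2.1
    exact y.2 v v1 (v3.symm.subset e) v4
  · exact (nl r x.1 x.2.1 y).elim

lemma lk (hc : ∀ t : T, IsChain (· ≤ ·) (Iic t)) (x : s ∈ P N (Iic t)) :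
    ¬ (L N (Iic s)).Nonempty ∧ (L N (Iic t)).Nonempty ∨
      ((L N (Iic s)).Nonempty ↔ (L N (Iic t)).Nonempty) ∧ s ≤ t := by
  rcases x with x | ⟨R, r, x⟩
  · have : (L N (Iic s)).Nonempty → (L N (Iic t)).Nonempty := fun ⟨_, y⟩ =>
      ⟨_, L1b (hc t) (isLowerSet_Iic t) x y⟩
    have := x.1
    tauto
  · exact Or.inl ⟨fun ⟨_, y⟩ => nl r x.1 x.2.1 y, s, R, r, x⟩

/-- A basic neighbourhood of `S` missing the omitted rays. -/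
def Nb (N : Set (Set T)) (S : Set T) (t : T) (F : Set T) : Prop :=
  t ∈ S ∧ F.Finite ∧ (∀ v ∈ F, Iio v = S) ∧ ∀ R ∈ N, t ∈ R → ∃ v ∈ F, v ∈ R

variable (hN : ∀ R ∈ N, IsRay R) {F : Set T}
include hN

omit [WellFoundedLT T] in
lemma Nb.ex (h : Nb N S t F) (hl : IsLowerSet S') (hF : ∀ v ∈ F, v ∉ S') (x : c ∈ S') (l : t < c)
    (e : A N c) : ∃ R, Bad N R ∧ (c ∈ X N R ∧ a N R ≤ c ∨ Iio c = X N R) := by
  rcases e with ⟨⟨R, r1, r2⟩, e⟩ | e | e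
  · obtain ⟨R', e1, e2, e3⟩ := e t l
    obtain ⟨v, v1, v2⟩ := h.2.2.2 R r1 ((hN R r1).2.2.1 l.le r2)
    obtain ⟨w, w1, w2⟩ := h.2.2.2 R' e1 e2
    exact (e3 ((hN R' e1).2.2.1 (((h.2.2.1 v v1).trans (h.2.2.1 w w1).symm).subset
      ((tot (hN R r1).2.1 v2 r2).resolve_left fun d => hF v v1 (hl d x))).le w2)).elim
  · obtain ⟨v, v1, v2⟩ := h.2.2.2 _ e l
    exact (hF v v1 (hl v2.le x)).elim
  · exact e

omit [WellFoundedLT T] in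
lemma Nb.K (h : Nb N S t F) (hS : IsRay S) (e : ¬ (Tl N S).Nonempty) :
    ∃ R, Bad N R ∧ S = X N R ∧ ∃ u ∈ R, u ∉ X N R := by
  have H : ∀ s ∈ S, t ≤ s → ∃ R, Bad N R ∧ s ∈ X N R ∧ a N R ∈ S ∧ ∃ v ∈ R, Iio v = S :=
    fun s x l => by
    obtain ⟨c, c1, c2, c3⟩ : ∃ c ∈ S, s < c ∧ A N c := by
      by_contra! d
      exact e ⟨s, x, d⟩
    obtain ⟨R, r, d⟩ := h.ex hN hS.2.2.1 (fun v y z => lt_irrefl v ((h.2.2.1 v y).symm.subset z))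
      c1 (l.trans_lt c2) c3
    have k : s ∈ X N R := d.elim (fun d => r.low c2.le d.1) fun d => d.subset c2
    obtain ⟨v, v1, v2⟩ := h.2.2.2 R r.2.1 (r.1.2.2.1 l k.1)
    exact ⟨R, r, k, hS.2.2.1 (d.elim (·.2) fun d => (d.symm.subset r.aX).le) c1, v, v2, h.2.2.1 v v1⟩
  obtain ⟨R, r, k1, k2, v, v1, rfl⟩ := H t h.1 le_rfl
  have hv : v ∉ X N R := fun d => by
    obtain ⟨m, m1, m2⟩ := (d.2.subset (fun z (y : z ∈ Ico (a N R) v) =>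
      ⟨y.1, y.2.le⟩)).exists_maximal ⟨_, le_rfl, k2⟩
    obtain ⟨z, z1, z2⟩ := hS.2.2.2 m m1.2
    exact z2.not_ge (m2 ⟨m1.1.trans z2.le, z1⟩ z2.le)
  refine ⟨R, r, Subset.antisymm (fun s x => (hS.2.1.total x h.1).elim (r.low · k1) fun d => ?_)
    fun s x => (tot r.1.2.1 v1 x.1).resolve_left fun d => hv (r.low d x), v, v1, hv⟩
  obtain ⟨R', r', e1, e2, w, e3, e4⟩ := H s x d
  exact r.eq r' (r'.1.2.2.1 (e4.symm.subset k2).le e3) (r.1.2.2.1 e2.le v1) ▸ e1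

omit hN in
lemma sub (hS : IsRay S) (n : S ∉ N) (e : P N S = P N S') (x : s ∈ Tl N S) : s ∈ S' := by
  rcases e.subset (Or.inl x) with y | ⟨R, r, y⟩
  · exact y.1
  have k : R ⊆ S := fun w b => (r.1.2.1.total b y.1).elim (hS.2.2.1 · x.1) fun d => by
    have m : w ∉ X N R := fun m => y.2.1 (r.low d m)
    rcases e.symm.subset (Or.inr ⟨R, r, b, m, y.2.2⟩) with z | ⟨R', r', z⟩
    · exact z.1
    · obtain rfl := r.eq' r' b m z.1 z.2.1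
      exact (y.2.1 (z.2.2.2 s y.1 x.1)).elim
  obtain ⟨w, w1, w2⟩ := not_subset.1 fun d => n (k.antisymm d ▸ r.2.1)
  obtain ⟨v, -, v1, -, v2⟩ := top' hS r.1.2.2.1 k w1 w2
  exact (x.2 v v1 (v2.symm.subset y.1) (Or.inr (Or.inl (v2 ▸ r.2.1)))).elim

lemma inj {t' F'} (hS : IsRay S) (n : S ∉ N) (h : Nb N S t F) (hS' : IsRay S') (n' : S' ∉ N)
    (h' : Nb N S' t' F') (e : P N S = P N S') : S ⊆ S' := by
  by_cases d : (Tl N S).Nonempty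
  · obtain ⟨s, x⟩ := d
    exact fun w b => (hS.2.1.total b x.1).elim (hS'.2.2.1 · (sub hS n e x)) fun l =>
      sub hS n e ⟨b, fun c y z => x.2 c y (l.trans_lt z)⟩
  have d' : ¬ (Tl N S').Nonempty := fun ⟨s, x⟩ => (e.symm.subset (Or.inl x)).elim (d ⟨s, ·⟩)
    fun ⟨R, _, y⟩ => y.2.1 (y.2.2.2 s y.1 (sub hS' n' e.symm x))
  have k : ∀ {S R : Set T} {u}, ¬ (Tl N S).Nonempty → Bad N R → u ∈ R → u ∉ X N R →
      P N (X N R) = P N S → a N R ∈ S := fun d r x y e =>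
    (e.subset (Or.inr ⟨_, r, x, y, r.aX, fun _ _ => id⟩)).elim (fun z => (d ⟨_, z⟩).elim)
      fun ⟨_, r', z⟩ => r.eq' r' x y z.1 z.2.1 ▸ z.2.2.1
  obtain ⟨R, r, rfl, u, u1, u2⟩ := h.K hN hS d
  obtain ⟨R', r', rfl, v, v1, v2⟩ := h'.K hN hS' d'
  rw [r.eq r' (k d' r u1 u2 e).1 (k d r' v1 v2 e.symm).1]

end Pool.Agent.H42.Ray2
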