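import Pool.Agent.H42.Ray2

/-! Open subspaces of ray spaces are quasi-ray spaces. -/

namespace Pool.Agent.H42.Ray3

open Set Topology Pool.Agent.H42.RayDefs Pool.Agent.H42.Ray2

universe u

variable {T : Type u} [PartialOrder T] [Nonempty T] [WellFoundedLT T] {N : Set (Set T)}

lemma sur (hc : ∀ t : T, IsChain (· ≤ ·) (Iic t)) (hN : ∀ R ∈ N, IsRay R) {Q : Set T}
    (q1 : Q.Nonempty) (q2 : ∀ s ∈ Q, ∀ t ∈ Q, s ∈ P N (Iic t) ∨ t ∈ P N (Iic s))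
    (q3 : ∀ s t, s ∈ P N (Iic t) → t ∈ Q → s ∈ Q)
    (q4 : ∀ s ∈ Q, ∃ t ∈ Q, s ∈ P N (Iic t) ∧ s ≠ t) : ∃ S, IsRay S ∧ S ∉ N ∧ P N S = Q := by
  obtain ⟨q, q0, H⟩ : ∃ q ∈ Q, ∀ s, ∀ t ∈ Q, q ∈ P N (Iic s) → s ∈ P N (Iic t) →
      s ∈ Tl N (Iic t) := by
    by_cases h : ∃ q ∈ Q, (L N (Iic q)).Nonempty
    · obtain ⟨q, h1, h2⟩ := h
      refine ⟨q, h1, fun s t _ x y => y.resolve_right fun ⟨R, r, z⟩ => ?_⟩
      obtain ⟨_, e⟩ := (lk hc x).elim (·.2) (·.1.1 h2)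
      exact nl r z.1 z.2.1 e
    · obtain ⟨q, h1⟩ := q1
      exact ⟨q, h1, fun s t x _ y => y.resolve_right fun e => h ⟨t, x, s, e⟩⟩
  let S := {w | ∃ t ∈ Q, q ∈ P N (Iic t) ∧ w ≤ t}
  have hS : IsRay S := ⟨⟨q, q, q0, refl q, le_rfl⟩, fun v ⟨s, a1, a2, a3⟩ w ⟨t, b1, b2, b3⟩ _ =>
    (q2 s a1 t b1).elim (fun e => (hc t).total (a3.trans (H s t b1 a2 e).1) b3)
      fun e => (hc s).total a3 (b3.trans (H t s a1 b2 e).1),
    fun v w l ⟨s, a1, a2, a3⟩ => ⟨s, a1, a2, l.trans a3⟩, fun v ⟨s, a1, a2, a3⟩ =>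
      let ⟨t, b1, b2, b3⟩ := q4 s a1
      ⟨t, ⟨t, b1, L1 (hc t) (isLowerSet_Iic t) b2 a2, le_rfl⟩,
        a3.trans_lt ((H s t b1 a2 b2).1.lt_of_ne b3)⟩⟩
  have tl : ∀ t ∈ Q, q ∈ P N (Iic t) → t ∈ Tl N S := fun t a1 a2 =>
    ⟨⟨t, a1, a2, le_rfl⟩, fun c ⟨s, b1, b2, b3⟩ l => (q2 t a1 s b1).elim
      (fun e => (H t s b1 a2 e).2 c b3 l) fun e => (l.not_ge (b3.trans (H s t a1 b2 e).1)).elim⟩
  have fin : ∀ S', IsRay S' → (∀ t ∈ Q, q ∈ P N (Iic t) → t ∈ P N S') →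
      (∀ s ∈ P N S', ∃ t ∈ Q, s ∈ P N (Iic t)) → P N S' = Q := fun S' h h1 h2 =>
    Subset.antisymm (fun s x => let ⟨t, a, b⟩ := h2 s x; q3 s t b a) fun t x =>
      (q2 q q0 t x).elim (h1 t x) (L1 h.2.1 h.2.2.1 (h1 q q0 (refl q)))
  by_cases n : S ∈ N
  swap
  · refine ⟨S, hS, n, fin S hS (fun t a b => Or.inl (tl t a b)) ?_⟩
    rintro s (⟨⟨t, a1, a2, a3⟩, x⟩ | ⟨R, r, x1, x2, ⟨t, a1, a2, a3⟩, x3⟩)
    · exact ⟨t, a1, Or.inl ⟨a3, fun c d => x c ⟨t, a1, a2, d⟩⟩⟩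
    · exact ⟨t, a1, Or.inr ⟨R, r, x1, x2, a3, fun u b d => x3 u b ⟨t, a1, a2, d⟩⟩⟩
  have hq := tl q q0 (refl q)
  have r : Bad N S := ⟨hS, n, Classical.epsilon_spec (p := fun a => a ∈ S ∧ ∀ R' ∈ N, a ∈ R' → S ⊆ R')
    ⟨q, hq.1, fun R a b s => by
      induction s using WellFoundedLT.induction with | ind s ih
      intro x
      refine (tot hS.2.1 x hq.1).elim ((hN R a).2.2.1 · b) fun l => by_contra fun e =>
        hq.2 s x l (Or.inl ⟨⟨S, n, x⟩, fun s' l' => ⟨R, a, ih s' l' (hS.2.2.1 l'.le x), e⟩⟩)⟩⟩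
  have hx : q ∉ X N S := fun e => let ⟨c, a, b, d⟩ := r.up e; hq.2 c a.1 b d
  have hX : IsRay (X N S) := ⟨⟨_, r.aX⟩, hS.2.1.mono fun _ e => e.1, r.low, fun s e =>
    let ⟨c, a, b, _⟩ := r.up e; ⟨c, a, b⟩⟩
  refine ⟨X N S, hX, fun e => hx (r.2.2.2 _ e r.aX hq.1), fin _ hX (fun t a b => Or.inr
    ⟨S, r, (tl t a b).1, fun e => hx (r.low (H q t a (refl q) b).1 e), r.aX, fun _ _ => id⟩) ?_⟩
  rintro s (x | ⟨R, r', x⟩)
  · exact let ⟨c, a, b, d⟩ := r.up x.1; (x.2 c a b d).elim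
  obtain rfl := uq hX.2.1 hX.2.2.1 r r' ⟨hq.1, hx, r.aX, fun _ _ => id⟩ x
  obtain ⟨t, a1, a2, a3⟩ := x.1
  exact ⟨t, a1, Or.inl ⟨a3, fun c d => r.NA x.1 x.2.1 ⟨t, a1, a2, d⟩⟩⟩

omit [Nonempty T] [WellFoundedLT T] in
lemma co (t : T) : IsClopen {S : Ray T | t ∈ S.1} :=
  (continuous_boolIndicator_iff_isClopen _).1 
    ((continuous_apply t).comp (continuous_induced_dom (f := fun R : Ray T => R.1.boolIndicator)))

lemma nb {U : Set (Ray T)} (hU : IsOpen U) {S : Ray T} (h : S ∈ U) {s : T} (hs : s ∈ S.1) :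
    ∃ t F, s ≤ t ∧ Nb (Subtype.val '' Uᶜ) S.1 t F := by
  classical
  obtain ⟨V, v1, rfl⟩ := isOpen_induced_iff.1 hU
  obtain ⟨I, u, u1, u2⟩ := isOpen_pi_iff.1 v1 _ h
  have : ∀ i, ∃ v w, w ∈ S.1 ∧ (i ∈ S.1 → i ≤ w) ∧ (i ∉ S.1 → v ≤ i ∧ v ∉ S.1 ∧
      (Iio v = S.1 ∨ ¬ w ≤ v)) := fun i => by
    by_cases e : i ∈ S.1
    · exact ⟨i, i, e, fun _ => le_rfl, fun d => (d e).elim⟩
    obtain ⟨v, a, b, c⟩ := top e
    by_cases d : ∀ w ∈ S.1, w ≤ v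
    · exact ⟨v, s, hs, fun d => (e d).elim, fun _ => ⟨a, b, Or.inl (Subset.antisymm c fun w x =>
        (d w x).lt_of_ne fun y => b (y ▸ x))⟩⟩
    · push Not at d
      obtain ⟨w, x, y⟩ := d
      exact ⟨v, w, x, fun d => (e d).elim, fun _ => ⟨a, b, Or.inr y⟩⟩
  choose v w w1 w2 w3 using this
  have : Nonempty S.1 := ⟨⟨s, hs⟩⟩
  obtain ⟨⟨t, ht⟩, k⟩ := S.2.2.1.directedOn.directed_val.finset_le
    (insert ⟨s, hs⟩ (I.image fun i => ⟨w i, w1 i⟩))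
  have k' : ∀ i ∈ I, w i ≤ t := fun i x => k ⟨w i, w1 i⟩ (by simp; exact Or.inr ⟨i, x, rfl⟩)
  refine ⟨t, {x ∈ v '' I | Iio x = S.1}, k ⟨s, hs⟩ (by simp), ht,
    (I.finite_toSet.image v).sep _, fun _ x => x.2, ?_⟩
  rintro _ ⟨R, r, rfl⟩ x
  by_contra! e
  refine r (u2 fun i y => (congrArg (· ∈ u i)
    (?_ : R.1.boolIndicator i = S.1.boolIndicator i)).mpr (u1 i y).2)
  refine Bool.eq_iff_iff.2 (by
    rw [← mem_iff_boolIndicator, ← mem_iff_boolIndicator]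
    refine ⟨fun a => by_contra fun b => ?_, fun a => R.2.2.2.1 ((w2 i a).trans (k' i y)) x⟩
    obtain ⟨c1, c2, c3⟩ := w3 i b
    have := R.2.2.2.1 c1 a
    exact c3.elim (fun d => e _ ⟨⟨i, y, rfl⟩, d⟩ this) fun d => (R.2.2.1.total x this).elim
      (fun z => d ((k' i y).trans z)) fun z => c2 (S.2.2.2.1 z ht))

lemma cl {U : Set (Ray T)} (hU : IsOpen U) (t : T) :
    IsClopen {S : U | t ∈ P (Subtype.val '' Uᶜ) S.1.1} := by
  set N := Subtype.val '' Uᶜ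
  have hN : ∀ R ∈ N, IsRay R := by rintro _ ⟨R, -, rfl⟩; exact R.2
  have c : ∀ t, IsClopen {S : U | t ∈ S.1.1} := fun t => (co t).preimage continuous_subtype_val
  refine IsClopen.union (s := {S : U | t ∈ Tl N S.1.1}) (t := {S : U | t ∈ L N S.1.1})
    ⟨?_, isOpen_iff_mem_nhds.2 fun S h => ?_⟩ ?_
  · convert (c t).1.inter (isClosed_iInter fun s => isClosed_iInter fun _ : t < s ∧ A N s =>
      (c s).compl.1) using 1
    exact Set.ext fun S => and_congr_right fun _ => ⟨fun h => mem_iInter₂.2 fun s a b =>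
      h s b a.1 a.2, fun h s a b d => mem_iInter₂.1 h s ⟨b, d⟩ a⟩
  · obtain ⟨s, F, l, n⟩ := nb hU S.2 h.1
    refine Filter.mem_of_superset (((c s).2.inter (n.2.1.isOpen_biInter fun v _ =>
      (c v).compl.2)).mem_nhds ⟨n.1, mem_iInter₂.2 fun v a b => lt_irrefl v
        ((n.2.2.1 v a).symm.subset b)⟩) fun S' ⟨x, y⟩ => ⟨S'.1.2.2.2.1 l x, fun d z e f => ?_⟩
    replace y : ∀ v ∈ F, v ∉ S'.1.1 := mem_iInter₂.1 y
    rcases tot S'.1.2.2.1 z x with g | g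
    · exact h.2 d (S.1.2.2.2.1 g n.1) e f
    obtain ⟨R, r, k⟩ := n.ex hN S'.1.2.2.2.1 y z g f
    have m : s ∈ X N R := k.elim (fun k => r.low g.le k.1) fun k => k.subset g
    obtain ⟨v, v1, v2⟩ := n.2.2.2 R r.2.1 m.1
    have o : ∀ w ∈ R, ¬ v ≤ w → w ∈ S.1.1 := fun w a b =>
      (n.2.2.1 v v1).subset ((tot r.1.2.1 v2 a).resolve_left b)
    rcases k with k | k
    · exact h.2 d (o d k.1.1 fun b => y v v1 (S'.1.2.2.2.1 b z)) e f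
    · obtain ⟨w, w1, w2, w3⟩ := r.up m
      exact h.2 w (o w w1.1 fun b => y v v1 (S'.1.2.2.2.1 (b.trans (k.symm.subset w1).le) z))
        (l.trans_lt w2) w3
  by_cases e : ∃ R, Bad N R ∧ t ∈ R ∧ t ∉ X N R
  · obtain ⟨R, r, x, y⟩ := e
    obtain ⟨v, -, v1, v2, v3, -⟩ := r.r x y
    convert (c (a N R)).inter (c v).compl using 1
    refine Set.ext fun S => ⟨fun ⟨R', r', z⟩ => ?_, fun z => ⟨R, r, x, y, z.1, fun u a b =>
      v3.subset ((tot r.1.2.1 v1 a).resolve_left fun d => z.2 (S.1.2.2.2.1 d b))⟩⟩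
    obtain rfl := r.eq' r' x y z.1 z.2.1
    exact ⟨z.2.2.1, fun d => v2 (z.2.2.2 v v1 d)⟩
  · convert isClopen_empty
    exact eq_empty_of_forall_notMem fun S ⟨R, r, z⟩ => e ⟨R, r, z.1, z.2.1⟩

/-- A copy of the node set. -/
def Syn (T : Type u) : Type u := T

omit [Nonempty T] [WellFoundedLT T] in
theorem main (hT : IsTree T) (U : Set (Ray T)) (hU : IsOpen U) : QuasiRay U := by
  classical
  have : Nonempty T := ⟨hT.1.choose⟩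
  have hc := fun t => (hT.2 t).1
  have : WellFoundedLT T := ⟨⟨fun t => by
    exact (hT.2 t).2.induction (P := Acc (· < ·)) le_rfl fun s x ih =>
      ⟨_, fun y l => ih y (l.le.trans x) l⟩⟩⟩
  set N := Subtype.val '' Uᶜ
  have hN : ∀ R ∈ N, IsRay R := by rintro _ ⟨R, -, rfl⟩; exact R.2
  have n : ∀ S : U, S.1.1 ∉ N := fun S ⟨R, a, b⟩ => a (Subtype.ext b ▸ S.2)
  have hb : ∀ S : U, ∃ t F, Nb N S.1.1 t F := fun S =>
    let ⟨_, a⟩ := S.1.2.1; let ⟨t, F, _, b⟩ := nb hU S.2 a; ⟨t, F, b⟩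
  let i : PartialOrder (Syn T) :=
    { le := fun s t : T => s ∈ P N (Iic t)
      le_refl := fun t : T => Ray2.refl t
      le_trans := fun (s t u : T) a b => L1 (hc u) (isLowerSet_Iic u) b a
      le_antisymm := fun (s t : T) a b => by
        have := lk hc a
        have := lk hc b
        exact le_antisymm (α := T) (by tauto) (by tauto) }
  have wf : WellFoundedLT (Syn T) := StrictMono.wellFoundedLT (β := ℕ ×ₗ T)
    (f := fun t : T => toLex (if (L N (Iic t)).Nonempty then 1 else 0, t)) fun (s t : T) l => by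
      rcases lk hc l.1 with e | e
      · exact Prod.Lex.lt_iff.2 (Or.inl (by simp [e]))
      · exact Prod.Lex.lt_iff.2 (Or.inr ⟨by simp [e], e.2.lt_of_ne l.ne⟩)
  refine Ray1.blow (T := Syn T)
    (fun (t : T) (s : T) a (s' : T) b _ => L2 (T := T) (hc t) (isLowerSet_Iic t) a b)
    (fun S => P (T := T) N S.1.1) (fun S => ?_)
    (fun S s a s' b _ => L2 (T := T) S.1.2.2.1 S.1.2.2.2.1 a b)
    (fun S s s' a b => L1 (T := T) S.1.2.2.1 S.1.2.2.2.1 b a) (fun S S' e => ?_) (fun Q q => ?_)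
    fun t : T => cl (T := T) hU t
  · by_cases d : (Tl N S.1.1).Nonempty
    · exact d.mono subset_union_left
    obtain ⟨t, F, b⟩ := hb S
    obtain ⟨R, r, e, u, u1, u2⟩ := b.K hN S.1.2 d
    exact ⟨u, Or.inr ⟨R, r, u1, u2, e ▸ r.aX, fun _ _ x => e ▸ x⟩⟩
  · obtain ⟨t, F, b⟩ := hb S
    obtain ⟨t', F', b'⟩ := hb S'
    exact Subtype.ext (Subtype.ext ((inj hN S.1.2 (n S) b S'.1.2 (n S') b' e).antisymm
      (inj hN S'.1.2 (n S') b' S.1.2 (n S) b e.symm)))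
  · obtain ⟨S, a, b, c⟩ := sur (Q := Q) hc hN q.1 (fun s x t y => q.2.1.total x y)
      (fun s t x y => q.2.2.1 x y) fun s x => let ⟨t, y, z⟩ := q.2.2.2 s x; ⟨t, y, z.le, z.ne⟩
    exact ⟨⟨⟨S, a⟩, by_contra fun e => b ⟨⟨S, a⟩, e, rfl⟩⟩, c⟩

end Pool.Agent.H42.Ray3
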