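import Mathlib

/-! Order trees, ray spaces and quasi-ray spaces. -/

namespace Pool.Agent.H42.RayDefs

open Set

universe u

/-- An order tree: a least element, and the elements below any node are well-ordered. -/
def IsTree (T : Type u) [PartialOrder T] : Prop :=
  (∃ r : T, ∀ t, r ≤ t) ∧ ∀ t : T, IsChain (· ≤ ·) (Iic t) ∧ (Iic t).IsWF

/-- A ray: a nonempty down-closed chain without a maximal element. -/
def IsRay {T : Type u} [PartialOrder T] (R : Set T) : Prop :=
  R.Nonempty ∧ IsChain (· ≤ ·) R ∧ IsLowerSet R ∧ ∀ a ∈ R, ∃ b ∈ R, a < b

/-- The set of rays of `T`. -/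
def Ray (T : Type u) [PartialOrder T] : Type u := {R : Set T // IsRay R}

/-- The ray space, a subspace of the Cantor cube `T → Bool`. -/
noncomputable instance rayTop (T : Type u) [PartialOrder T] : TopologicalSpace (Ray T) :=
  TopologicalSpace.induced (fun R => (R.1.boolIndicator : T → Bool)) inferInstance

/-- There is a continuous bijection onto the ray space of an order tree. -/
def QuasiRay (X : Type u) [TopologicalSpace X] : Prop :=
  ∃ (T : Type u) (_ : PartialOrder T), IsTree T ∧
    ∃ f : X → Ray T, Continuous f ∧ Function.Bijective f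

end Pool.Agent.H42.RayDefs
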