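import Pool.Agent.H42.SemfDefs
import Pool.Agent.H42.TStar

/-! A semifilter that is not strongly homogeneous: the measure part. -/

namespace Pool.Agent.H42.Semf1

open Set Filter Topology Cardinal MeasureTheory TopologicalSpace

abbrev C := ℕ → ZMod 2

lemma indep : ∃ c : ℝ → C, Measurable c ∧
    ∀ (T : Finset ℝ) (π : ℝ → ZMod 2), ∃ᶠ n in cofinite, ∀ t ∈ T, c t n = π t := by
  classical
  obtain ⟨e, he⟩ := exists_surjective_nat (Finset (countableBasis ℝ) × ℕ)
  refine ⟨fun t n => (⋃ b ∈ (e n).1, b.1).indicator 1 t, measurable_pi_lambda _ fun n =>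
    measurable_const.indicator (isOpen_biUnion fun b _ =>
      isOpen_of_mem_countableBasis b.2).measurableSet, fun T π => ?_⟩
  choose b b1 b2 b3 using fun s : {s // π s = 1} => (isBasis_countableBasis ℝ).exists_subset_of_mem_open
    (a := s.1) (u := ({t | π t ≠ 1} ∩ T)ᶜ) (fun h => h.1 s.2)
    (T.finite_toSet.inter_of_right _).isClosed.isOpen_compl
  choose m hm using fun k => he ((T.subtype (π · = 1)).image fun s => ⟨b s, b1 s⟩, k)
  refine frequently_cofinite_iff_infinite.2 (infinite_of_injective_forall_mem (f := m)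
    (fun k l h => (Prod.ext_iff.1 ((hm k).symm.trans (h ▸ hm l))).2) fun k t ht => ?_)
  simp only [hm]
  by_cases h : π t = 1
  · rw [h]
    exact indicator_of_mem (mem_biUnion (Finset.mem_image_of_mem _
      (Finset.mem_subtype.2 ht : (⟨t, h⟩ : {s // π s = 1}) ∈ _)) (b2 ⟨t, h⟩)) _
  · refine (indicator_of_notMem (fun c => ?_) _).trans (by revert h; generalize π t = a; decide +revert)
    obtain ⟨_, h1, h2⟩ := mem_iUnion₂.1 c
    obtain ⟨s, -, rfl⟩ := Finset.mem_image.1 h1
    exact b3 s h2 ⟨h, ht⟩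

lemma many {c : ℝ → C} (hc : Measurable c) {Γ : Set (C × C)} (h1 : IsClosed Γ)
    (h2 : ∀ p ∈ Γ, p.2 0 = 0) : ∃ z : C, 𝔠 ≤ #{t | ∀ F : ℕ →₀ ZMod 2, (z + c t, z + c t + F) ∈ Γ →
      ∃ F' ≠ F, (z + c t + F + (F' : ℕ →₀ ZMod 2), z + c t + F) ∈ Γ} := by
  let μ := Measure.addHaarMeasure (⊤ : PositiveCompacts C)
  let E : (ℕ →₀ ZMod 2) → Set C := fun F =>
    {y | (y + F, y) ∈ Γ} ∩ ⋂ F' ≠ F, {y | (y + (F' : ℕ →₀ ZMod 2), y) ∈ Γ}ᶜ
  have hm : ∀ F : ℕ →₀ ZMod 2, MeasurableSet {y : C | (y + F, y) ∈ Γ} := fun F =>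
    (h1.preimage (by fun_prop)).measurableSet
  have hE : ∀ F, MeasurableSet (E F) := fun F =>
    (hm F).inter (.iInter fun F' => .iInter fun _ => (hm F').compl)
  let B := ⋃ F : ℕ →₀ ZMod 2, (· + (F : C)) ⁻¹' E F
  have hB : MeasurableSet B := .iUnion fun F => measurable_add_const _ (hE F)
  have h0 : IsClopen {y : C | y 0 = 0} := (isClopen_discrete {0}).preimage (continuous_apply 0)
  have h3 : μ B ≤ μ {y | y 0 = 0} := by
    refine (measure_iUnion_le _).trans ?_
    simp only [measure_preimage_add_right]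
    rw [← measure_iUnion (fun F F' h => disjoint_left.2 fun y a b =>
      (mem_iInter₂.1 a.2 F' h.symm :) b.1) hE]
    exact measure_mono (iUnion_subset fun F y hy => h2 _ hy.1)
  have h4 : μ Bᶜ ≠ 0 := fun e => by
    have := (measure_add_measure_compl hB).symm.trans_le (add_le_add h3 e.le)
    rw [← measure_add_measure_compl h0.1.measurableSet, ENNReal.add_le_add_iff_left
      (measure_ne_top _ _)] at this
    exact (h0.compl.2.measure_pos μ ⟨1, by simp⟩).not_ge this
  obtain ⟨z, hz⟩ : ∃ z, volume {t | z + c t ∉ B} ≠ 0 := by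
    by_contra! d
    obtain ⟨t, ht⟩ := ((Measure.ae_ae_comm (μ := μ) (ν := volume) (p := fun z t => z + c t ∈ B)
      ((measurable_fst.add (hc.comp measurable_snd)) hB)).1 (.of_forall d)).exists
    exact h4 ((measure_preimage_add_right μ _ _).symm.trans ht)
  obtain ⟨K, k1, k2, k3⟩ := (((measurable_const.add hc) hB).compl).exists_lt_isCompact
    (μ := volume) (pos_iff_ne_zero.2 hz)
  obtain ⟨f, f1, -, f2⟩ := k2.isClosed.exists_nat_bool_injection_of_not_countable
    fun c => k3.ne' (c.measure_zero _)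
  refine ⟨z, le_trans (by rw [mk_range_eq _ f2]; simp) (mk_le_mk_of_subset
    (f1.trans (k1.trans fun t ht F hF => by_contra fun c' => ht (mem_iUnion.2 ⟨F, ?_, ?_⟩))))⟩
  · have : ∀ x : C, x + F + F = x := fun x => by rw [add_assoc, CharTwo.add_self_eq_zero, add_zero]
    exact (congrArg (fun a => (a, _) ∈ Γ) (this _)).mpr hF
  · exact mem_iInter₂.2 fun F' a b => c' ⟨F', a, b⟩

variable (c : ℝ → C)

/-- Sets meeting all Boolean combinations of the independent family. -/
def Good (b : Set ℕ) : Prop :=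
  ∀ (T : Finset ℝ) (π : ℝ → ZMod 2), ∃ᶠ n in cofinite, n ∈ b ∧ ∀ t ∈ T, c t n = π t

/-- Negligible sets. -/
def Neg (a : Set ℕ) : Prop := ∀ b, Good c b → Good c (b \ a)

variable {c}

lemma Neg.mono {a a' : Set ℕ} (h : Neg c a) (h' : (a' \ a).Finite) : Neg c a' := fun b hb T π =>
  ((h b hb T π).and_eventually h'.eventually_cofinite_notMem).mono
    fun _ ⟨⟨x, y⟩, z⟩ => ⟨⟨x.1, fun e => z ⟨e, x.2⟩⟩, y⟩

lemma Neg.union {a a' : Set ℕ} (h : Neg c a) (h' : Neg c a') : Neg c (a ∪ a') := fun b hb =>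
  sdiff_sdiff_left (a := b) ▸ h' _ (h b hb)

lemma neg_empty : Neg c ∅ := fun b hb => by simpa using hb

lemma fin (z : C) {a : Set ℕ} (ha : ¬ Neg c a) (ε : ZMod 2) :
    {t | {n | n ∈ a ∧ (z + c t) n ≠ ε}.Finite}.Finite := by
  classical
  refine by_contra fun h => ha fun b hb T π => ?_
  obtain ⟨u, u1, u2⟩ := Set.Infinite.exists_notMem_finset h T
  obtain ⟨v, v1, v2⟩ := Set.Infinite.exists_notMem_finset h (insert u T)
  rw [Finset.mem_insert, not_or] at v2
  refine ((hb (insert u (insert v T)) (Function.update (Function.update π u 0) v 1)).and_eventually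
    (u1.eventually_cofinite_notMem.and v1.eventually_cofinite_notMem)).mono
      fun n ⟨⟨a1, a2⟩, a3, a4⟩ => ⟨⟨a1, fun e => ?_⟩, fun t ht => ?_⟩
  · have := (not_not.1 fun d => a3 ⟨e, d⟩).trans (not_not.1 fun d => a4 ⟨e, d⟩).symm
    simp [a2, Ne.symm v2.1] at this
  · rw [a2 t (by simp [ht]), Function.update_of_ne (fun e : t = v => v2.2 (e ▸ ht)),
      Function.update_of_ne fun e : t = u => u2 (e ▸ ht)]

lemma sub (hc : Good c univ) (z : C) (ε : ZMod 2) :
    {t | Neg c {n | (z + c t) n = ε}}.Subsingleton := fun t h t' h' => by_contra fun e => by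
  classical
  obtain ⟨n, a, b⟩ := ((h.union h') _ hc {t, t'} (Function.update 0 t 1)).exists
  have := a.2
  simp only [mem_union, mem_ofPred_eq, Pi.add_apply, b t (by simp), b t' (by simp),
    Function.update_self, Function.update_of_ne (Ne.symm e), Pi.zero_apply] at this
  exact this ((by decide : ∀ x y : ZMod 2, x + 1 = y ∨ x + 0 = y) _ _)

end Pool.Agent.H42.Semf1
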