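import Pool.Agent.H42.RcofDefs
import Pool.Agent.H42.Semf1
import Pool.Agent.H42.Dirac

/-! A maximal ideal of cofinality continuum and relative cofinality `ℵ₁`. -/

namespace Pool.Agent.H42.Rcof1

open Set Filter Cardinal Pool.Agent.H42.RcofDefs Pool.Agent.H42.Dirac

lemma base : ∃ (a : W → ℕ → ZMod 2) (d : ℝ → Set ℕ) (F : Filter ℕ), F ≤ cofinite ∧ (∀ t, d t ∈ F) ∧
    (∀ T : Set ℝ, T.Infinite → (⋂ t ∈ T, d t)ᶜ ∈ F) ∧
    ∀ (T : Finset W) (π : W → ZMod 2), ∃ᶠ n in F, ∀ α ∈ T, a α n = π α := by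
  classical
  obtain ⟨c, -, hc⟩ := Semf1.indep
  obtain ⟨e⟩ : Nonempty (W ⊕ ℝ ↪ ℝ) := by
    rw [← Cardinal.le_def]
    simp [mk_real, add_eq_right aleph0_le_continuum aleph_one_le_continuum]
  let G : Finset ℝ → Finset ℝ → Filter ℕ := fun s s' =>
    cofinite ⊓ 𝓟 {n | ∀ t ∈ s', c (e (.inr t)) n = if t ∈ s then 1 else 0}
  have k : ∀ s s' X, X ∈ G s s' → X ∈ ⨅ s', G s s' := fun s s' X h => iInf_le (G s) s' h
  refine ⟨fun α => c (e (.inl α)), fun t => {n | c (e (.inr t)) n = 1},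
    atTop.bind fun s => ⨅ s', G s s', fun X hX => mem_bind'.2 (univ_mem' fun s =>
      k s ∅ X (mem_inf_of_left hX)), fun t => (eventually_ge_atTop {t}).mono fun s hs =>
      k s {t} _ (mem_inf_of_right fun n hn => ?_), fun T hT => mem_bind'.2 (univ_mem' fun s => ?_),
    fun T π => frequently_bind.2 (Frequently.of_forall fun s h => ?_)⟩
  · simpa [Finset.singleton_subset_iff.1 hs] using hn
  · obtain ⟨t, t1, t2⟩ := hT.exists_notMem_finset s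
    refine k s {t} _ (mem_inf_of_right fun n hn h => ?_)
    have := mem_iInter₂.1 h t t1
    simp_all
  · obtain ⟨s', h⟩ := (mem_iInf_of_directed (f := G s) (Antitone.directed_ge fun x y l =>
      inf_le_inf_left _ (principal_mono.2 fun n hn t ht => hn t (Finset.mem_of_subset l ht))) _).1 h
    obtain ⟨n, h1, h2⟩ := ((hc ((T.disjSum s').map e) (Function.extend e
      (Sum.elim π fun t => if t ∈ s then 1 else 0) 0)).and_eventually
        (eventually_inf_principal.1 h)).exists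
    simp only [Finset.forall_mem_map, e.injective.extend_apply] at h1
    exact h2 (fun t ht => h1 (.inr t) (by simpa)) fun α h => h1 (.inl α) (by simpa)

lemma ultra {ι : Type} {F : Filter ℕ} (s : ι → Set ℕ) (h : ∀ i j, ∃ k, s k ⊆ s i ∩ s j)
    (h' : ∀ i, ∃ᶠ n in F, n ∈ s i) (i : ι) : ∃ u : Ultrafilter ℕ, ↑u ≤ F ∧ ∀ i, s i ∈ u := by
  have := iInf_neBot_of_directed (f := fun i => F ⊓ 𝓟 (s i)) (fun i j => let ⟨k, e⟩ := h i j
    ⟨k, inf_le_inf_left _ (principal_mono.2 fun _ x => (e x).1),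
      inf_le_inf_left _ (principal_mono.2 fun _ x => (e x).2)⟩) fun i =>
    frequently_mem_iff_neBot.1 (h' i)
  obtain ⟨u, hu⟩ := Ultrafilter.exists_le (⨅ i, F ⊓ 𝓟 (s i))
  exact ⟨u, (hu.trans (iInf_le _ i)).trans inf_le_left, fun i =>
    le_principal_iff.1 ((hu.trans (iInf_le _ i)).trans inf_le_right)⟩

lemma ideal {P : Set (Ultrafilter ℕ)} (h : P.Nonempty) (h' : ∀ u ∈ P, (u : Filter ℕ) ≤ cofinite) :
    IsIdeal {X | ∀ u ∈ P, X ∉ u} :=
  ⟨fun _ a _ b u c d => a u c (mem_of_superset d b), fun _ a _ b u c d =>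
    (Ultrafilter.union_mem_iff.1 d).elim (a u c) (b u c), fun a => let ⟨u, c⟩ := h; a u c univ_mem,
    fun _ a u c => Ultrafilter.compl_mem_iff_notMem.1 (h' u c a.compl_mem_cofinite)⟩

theorem main : ∃ I J : Set (Set ℕ), Maximal IsIdeal I ∧ cof I = 𝔠 ∧ IsIdeal J ∧ J ⊆ I ∧
    cofRel J I = ℵ₁ := by
  classical
  obtain ⟨a, d, F0, f1, f2, f3, f4⟩ := base
  let C : Finset W → (W → ZMod 2) → Set ℕ := fun T π => {n | ∀ α ∈ T, a α n = π α}
  obtain ⟨F, g1, g2, g3⟩ : ∃ F : Filter ℕ, F ≤ F0 ∧ (∀ T π, ∃ᶠ n in F, n ∈ C T π) ∧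
    ∀ ⦃G : Filter ℕ⦄, (∀ T π, ∃ᶠ n in G, n ∈ C T π) → G ≤ F → F ≤ G := zorn_le_nonempty₀ (α := (Filter ℕ)ᵒᵈ)
    {F : Filter ℕ | ∀ T π, ∃ᶠ n in F, n ∈ C T π} (fun c c1 c2 y hy => ⟨(⨅ x : Filter ℕ, ⨅ _ : x ∈ c, x : Filter ℕ),
      fun T π h => let ⟨x, x1, x2⟩ := (mem_biInf_of_directed (f := fun x : Filter ℕ => x)
        c2.directedOn ⟨y, hy⟩).1 h; c1 x1 T π x2, fun z hz =>
        biInf_le (α := Filter ℕ) (s := c) (fun x => x) hz⟩) F0 f4
  have D : ∀ Y : Set ℕ, (∃ᶠ n in F, n ∈ Y) → ∃ T π, ∀ᶠ n in F, n ∈ C T π → n ∈ Y := fun Y h => by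
    by_contra! e
    have : F ≤ F ⊓ 𝓟 Yᶜ := g3 (fun T π => frequently_inf_principal.2
      (Frequently.mono (e T π) fun n h => h.symm)) inf_le_left
    exact h (le_principal_iff.1 (this.trans inf_le_right))
  let S : Set ℕ → W → Prop := fun X α => ∀ T π, (∀ᶠ n in F, n ∈ C T π → n ∈ X) →
    ∀ᶠ n in F, n ∈ C (T.filter (· < α)) π → n ∈ X
  have E : ∀ X, ∃ β, ∀ α, β ≤ α → S X α := fun X => by
    have : ∀ n, ∃ k : Finset W × (W → ZMod 2), (∀ᶠ m in F, m ∈ C k.1 k.2 → m ∉ X) ∧ n ∈ C k.1 k.2 ∨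
        ∀ T π, (∀ᶠ m in F, m ∈ C T π → m ∉ X) → n ∉ C T π := fun n => by
      by_cases h : ∀ T π, (∀ᶠ m in F, m ∈ C T π → m ∉ X) → n ∉ C T π
      · exact ⟨(∅, 0), Or.inr h⟩
      · push Not at h
        obtain ⟨T, π, h⟩ := h
        exact ⟨(T, π), Or.inl h⟩
    choose k hk using this
    obtain ⟨β, hβ⟩ := bdd (⋃ n, (k n).1) (countable_iUnion fun n => (k n).1.countable_toSet)
    refine ⟨β, fun α l T π h => by_contra fun e => ?_⟩
    obtain ⟨T', π', h'⟩ := D (C (T.filter (· < α)) π \ X) ((not_eventually.1 e).mono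
      fun n x => Classical.not_imp.1 x)
    obtain ⟨n, n1, n2⟩ := ((g2 T' π').and_eventually h').exists
    obtain ⟨k1, k2⟩ := (hk n).resolve_right fun x => x T' π' (h'.mono fun m y z => (y z).2) n1
    obtain ⟨m, m1, m2, m3⟩ := ((g2 (T ∪ (k n).1) fun γ => if γ ∈ T then π γ else
      (k n).2 γ).and_eventually (h.and k1)).exists
    refine m3 (fun γ x => (m1 γ (by simp [x])).trans ?_)
      (m2 fun γ x => (m1 γ (by simp [x])).trans (if_pos x))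
    beta_reduce
    split_ifs with y
    exacts [((n2 n1).1 γ (Finset.mem_filter.2 ⟨y, (hβ γ (mem_iUnion.2 ⟨n, x⟩)).trans_le l⟩)).symm.trans
      (k2 γ x), rfl]
  obtain ⟨p, p1, p2⟩ := ultra (F := F) (fun T => C T 1) (fun T T' => ⟨T ∪ T', fun n h =>
    ⟨fun γ x => h γ (by simp [x]), fun γ x => h γ (by simp [x])⟩⟩) (g2 · 1) ∅
  have : ∀ α, ∃ u : Ultrafilter ℕ, ↑u ≤ F ∧ (∀ X ∈ p, S X α → X ∈ u) ∧
      ∀ γ, α ≤ γ → C {γ} 1 ∉ u := fun α => by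
    obtain ⟨u, u1, u2⟩ := ultra (F := F) (fun i : {X // X ∈ p ∧ S X α} × Finset W =>
      i.1.1 ∩ C (i.2.filter (α ≤ ·)) 0) (fun ⟨X, T⟩ ⟨Y, T'⟩ => ⟨(⟨X.1 ∩ Y.1, inter_mem X.2.1 Y.2.1,
        fun U π h => ((X.2.2 U π (h.mono fun n x y => (x y).1)).and
          (Y.2.2 U π (h.mono fun n x y => (x y).2))).mono fun n x y => ⟨x.1 y, x.2 y⟩⟩, T ∪ T'),
        fun n h => ⟨⟨h.1.1, fun γ x => h.2 γ (by simp_all)⟩, h.1.2, fun γ x => h.2 γ (by simp_all)⟩⟩)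
      (fun ⟨X, T⟩ => by
        obtain ⟨U, π, h⟩ := D X.1 ((Ultrafilter.frequently_iff_eventually.2 X.2.1).filter_mono p1)
        refine ((g2 (U ∪ T) fun γ => if γ < α then π γ else 0).and_eventually
          (X.2.2 U π h)).mono fun n x => ⟨x.2 fun γ y => ?_, fun γ y => ?_⟩ <;>
          rw [Finset.mem_filter] at y
        · exact (x.1 γ (by simp [y.1])).trans (if_pos y.2)
        · exact (x.1 γ (by simp [y.1])).trans (if_neg y.2.not_gt))
      (⟨Set.univ, univ_mem, fun _ _ _ => .of_forall fun _ _ => trivial⟩, ∅)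
    refine ⟨u, u1, fun X x y => mem_of_superset (u2 (⟨X, x, y⟩, ∅)) inter_subset_left,
      fun γ l h => ?_⟩
    obtain ⟨n, n1, -, n2⟩ := u.nonempty_of_mem (inter_mem h (u2 (⟨Set.univ, univ_mem,
      fun _ _ _ => .of_forall fun _ _ => trivial⟩, {γ})))
    exact one_ne_zero ((n1 γ (by simp)).symm.trans (n2 γ (by simp [l])))
  choose x x1 x2 x3 using this
  have hI := ideal (singleton_nonempty p) fun u h => h ▸ p1.trans (g1.trans f1)
  simp only [mem_singleton_iff, forall_eq] at hI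
  have co : ∀ {X} {u : Ultrafilter ℕ}, Xᶜ ∈ u ↔ X ∉ u := Ultrafilter.compl_mem_iff_notMem
  have co' : ∀ {X} {u : Ultrafilter ℕ}, Xᶜ ∉ u ↔ X ∈ u := Ultrafilter.compl_notMem_iff
  refine ⟨{X | X ∉ p}, {X | ∀ u ∈ insert p (range x), X ∉ u}, ⟨hI, fun J h1 h2 X h3 h4 =>
    h1.2.2.1 (union_compl_self X ▸ h1.2.1 _ h3 _ (h2 (co'.2 h4)))⟩, le_antisymm
    (le_trans (csInf_le' (a := #{X | X ∉ p}) ⟨_, subset_rfl, rfl, fun X h => ⟨X, h, subset_rfl⟩⟩)
      ((mk_set_le _).trans (by simp))) (le_csInf ⟨_, _, subset_rfl, rfl,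
      fun X h => ⟨X, h, subset_rfl⟩⟩ ?_), ideal (insert_nonempty p (range x)) ?_,
    fun X h => h p (Or.inl rfl), le_antisymm (le_trans (csInf_le'
      (a := #(range fun α => (C {α} 1)ᶜ)) ⟨_, range_subset_iff.2 fun α => co'.2 (p2 _), rfl,
        fun X h => ?_⟩) (mk_range_le.trans W_card.le)) (le_csInf ⟨_, _, subset_rfl, rfl, fun X h =>
        ⟨X, h, fun u _ => by simp⟩⟩ ?_)⟩
  · rintro _ ⟨B, b1, rfl, b2⟩
    by_contra! h
    choose A a1 a2 using fun t => b2 (d t)ᶜ (co'.2 (p1 (g1 (f2 t))))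
    obtain ⟨Y, hY⟩ := exists_infinite_fiber (fun t => (⟨A t, a1 t⟩ : B)) (h.trans_eq mk_real.symm)
    exact b1 Y.2 (mem_of_superset (p1 (g1 (f3 _ (infinite_coe_iff.1 hY)))) fun n hn => by
      simp only [mem_compl_iff, mem_iInter, not_forall] at hn
      obtain ⟨t, rfl, hn⟩ := hn
      exact a2 t hn)
  · rintro _ (rfl | ⟨α, rfl⟩)
    exacts [p1.trans (g1.trans f1), (x1 α).trans (g1.trans f1)]
  · obtain ⟨β, hβ⟩ := E Xᶜ
    refine ⟨_, ⟨β, rfl⟩, ?_⟩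
    rintro _ (rfl | ⟨α, rfl⟩) e
    · exact h (mem_of_superset e sdiff_subset)
    · rcases le_total α β with l | l
      · exact x3 α β l (mem_of_superset e fun n y => not_not.1 y.2)
      · exact co.1 (x2 α _ (co.2 h) (hβ α l)) (mem_of_superset e sdiff_subset)
  · rintro _ ⟨B, b1, rfl, b2⟩
    by_contra! h
    choose β hβ using fun X => E Xᶜ
    obtain ⟨γ, hγ⟩ := bdd (β '' B) ((countable_iff_lt_aleph_one B).2 h |>.image _)
    obtain ⟨A, a1, a2⟩ := b2 (C {γ} 1)ᶜ (co'.2 (p2 _))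
    exact a2 (x γ) (Or.inr ⟨γ, rfl⟩) (inter_mem (co.2 (x3 γ γ le_rfl))
      (x2 γ _ (co.2 (b1 a1)) (hβ A γ (hγ _ ⟨A, a1, rfl⟩).le)))

end Pool.Agent.H42.Rcof1
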