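import Mathlib

/-! Ideals on `ℕ`, cofinality and relative cofinality. -/

namespace Pool.Agent.H42.RcofDefs

open Cardinal Set

/-- A proper ideal on `ℕ` containing all finite sets. -/
def IsIdeal (I : Set (Set ℕ)) : Prop :=
  (∀ A ∈ I, ∀ B, B ⊆ A → B ∈ I) ∧ (∀ A ∈ I, ∀ B ∈ I, A ∪ B ∈ I) ∧ Set.univ ∉ I ∧
    ∀ A : Set ℕ, A.Finite → A ∈ I

/-- The least size of a subfamily of `I` that is cofinal under inclusion. -/
noncomputable def cof (I : Set (Set ℕ)) : Cardinal.{0} :=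
  sInf {c | ∃ B ⊆ I, #B = c ∧ ∀ X ∈ I, ∃ A ∈ B, X ⊆ A}

/-- The least size of a subfamily of `I` that is cofinal under inclusion modulo `J`. -/
noncomputable def cofRel (J I : Set (Set ℕ)) : Cardinal.{0} :=
  sInf {c | ∃ B ⊆ I, #B = c ∧ ∀ X ∈ I, ∃ A ∈ B, X \ A ∈ J}

end Pool.Agent.H42.RcofDefs
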