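import Pool.Agent.H42.GS0
import Pool.Agent.H42.RndDefs

/-! Truth values for random forcing, the bounding property and genericity of random reals. -/

namespace Pool.Agent.H42.ZF

open Set MeasureTheory Filter Topology

section
variable {Ω : Type} [MeasurableSpace Ω] {μ : Measure Ω} [IsFiniteMeasure μ]

theorem ex_val (Q : Ult (Rand μ) → Prop) [C Q] :
    ∃ a, MeasurableSet a ∧ ∀ q : Rand μ, Frc q Q ↔ μ (q.1 \ a) = 0 := by
  obtain ⟨D, h1, h2, h3⟩ := Measure.exists_ae_subset_biUnion_countable μ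
    (C := Subtype.val '' {q : Rand μ | Frc q Q}) (by rintro _ ⟨q, -, rfl⟩; exact q.2.1)
  have hm : ∀ t ∈ D, MeasurableSet t := fun t ht => by
    obtain ⟨q, -, rfl⟩ := h1 ht; exact q.2.1
  refine ⟨⋃₀ D, .sUnion h2 hm, fun q => ⟨fun h => ae_le_set.1 (h3 _ ⟨q, h, rfl⟩), fun h => ?_⟩⟩
  refine (cl (Q := Q)).dense fun r hr => ?_
  by_contra! hc
  refine r.2.2 (measure_mono_null (t := q.1 \ ⋃₀ D ∪ ⋃ t ∈ D, r.1 ∩ t) (fun x hx => ?_)
    (measure_union_null h ((measure_biUnion_null_iff h2).2 fun t ht => ?_)))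
  · by_cases h' : x ∈ ⋃₀ D
    · obtain ⟨t, a, b⟩ := h'
      exact Or.inr (mem_iUnion₂.2 ⟨t, a, hx, b⟩)
    · exact Or.inl ⟨hr hx, h'⟩
  · by_contra h'
    obtain ⟨s, hs, rfl⟩ := h1 ht
    exact hc ⟨_, r.2.1.inter s.2.1, h'⟩ inter_subset_left (Frc.mono hs inter_subset_right)

/-- the truth value of `Q` -/
noncomputable def val (Q : Ult (Rand μ) → Prop) [C Q] : Set Ω := (ex_val Q).choose

theorem val_meas (Q : Ult (Rand μ) → Prop) [C Q] : MeasurableSet (val Q) :=
  (ex_val Q).choose_spec.1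

theorem frc_val {Q : Ult (Rand μ) → Prop} [C Q] {q : Rand μ} : Frc q Q ↔ μ (q.1 \ val Q) = 0 :=
  (ex_val Q).choose_spec.2 q

theorem null_of_dense {T : Type} [Countable T] (R : T → Ult (Rand μ) → Prop) [∀ k, C (R k)]
    {p : Rand μ} (h : ∀ q ≤ p, ∃ r ≤ q, ∃ k, Frc r (R k)) : μ (p.1 \ ⋃ k, val (R k)) = 0 := by
  by_contra hc
  obtain ⟨r, h1, k, h2⟩ := h (⟨_, p.2.1.diff (.iUnion fun k => val_meas _), hc⟩ : Rand μ)
    sdiff_subset
  exact r.2.2 (measure_mono_null (t := r.1 \ val (R k))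
    (fun x hx => ⟨hx, fun h' => (h1 hx).2 (mem_iUnion.2 ⟨k, h'⟩)⟩) (frc_val.1 h2))

theorem bounding {T : Type} [Countable T] (R : T → ℕ → Ult (Rand μ) → Prop) [∀ t k, C (R t k)]
    {p : Rand μ} (h : ∀ t, ∀ q ≤ p, ∃ r ≤ q, ∃ k, Frc r (R t k)) :
    ∃ q ≤ p, ∃ g : T → ℕ, ∀ t, Frc q fun U => ∃ k ≤ g t, R t k U := by
  obtain ⟨ε, h1, h2⟩ := ENNReal.exists_pos_sum_of_countable' p.2.2 T
  have key : ∀ t, ∃ N, μ (p.1 \ accumulate (fun k => val (R t k)) N) < ε t := fun t => by
    have := tendsto_measure_iInter_atTop (μ := μ)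
      (s := fun N => p.1 \ accumulate (fun k => val (R t k)) N)
      (fun N => (p.2.1.diff (.biUnion (to_countable _) fun k _ => val_meas _)).nullMeasurableSet)
      (fun _ _ h => sdiff_subset_sdiff_right (monotone_accumulate h)) ⟨0, measure_ne_top _ _⟩
    rw [← sdiff_iUnion, iUnion_accumulate, null_of_dense _ (h t)] at this
    exact (this.eventually_lt_const (h1 t)).exists
  choose g hg using key
  have hm : ∀ t, MeasurableSet (p.1 \ accumulate (fun k => val (R t k)) (g t)) := fun t =>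
    p.2.1.diff (.biUnion (to_countable _) fun k _ => val_meas _)
  refine ⟨⟨p.1 \ ⋃ t, p.1 \ accumulate (fun k => val (R t k)) (g t), p.2.1.diff (.iUnion hm),
    fun h0 => ?_⟩, sdiff_subset, g, fun t => ?_⟩
  · refine ((measure_mono_ae (ae_le_set.2 h0)).trans ((measure_iUnion_le _).trans
      (ENNReal.tsum_le_tsum fun t => (hg t).le))).not_gt h2
  have : C fun U => ∃ k ≤ g t, R t k U :=
    ⟨(cl_not (cl_fin (ι := Fin (g t + 1)) fun i => cl_not (cl (Q := R t i)))).congr fun U => by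
      simp only [not_forall, not_not]
      exact ⟨fun ⟨k, a, b⟩ => ⟨⟨k, Nat.lt_succ_of_le a⟩, b⟩,
        fun ⟨k, a⟩ => ⟨k, Nat.le_of_lt_succ k.2, a⟩⟩⟩
  refine frc_by_contra fun r hr h3 => r.2.2 (measure_mono_null
    (t := ⋃ k ∈ Iic (g t), r.1 ∩ val (R t k)) (fun x hx => ?_)
    ((measure_biUnion_null_iff (to_countable _)).2 fun k hk => ?_))
  · obtain ⟨k, a, b⟩ := mem_accumulate.1 (by_contra fun h' =>
      (hr hx).2 (mem_iUnion.2 ⟨t, (hr hx).1, h'⟩) : x ∈ accumulate (fun k => val (R t k)) (g t))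
    exact mem_iUnion₂.2 ⟨k, a, hx, b⟩
  · by_contra h'
    let s : Rand μ := ⟨_, r.2.1.inter (val_meas _), h'⟩
    have h4 : Frc s (R t k) := frc_val.2 (by rw [sdiff_eq_empty.2 inter_subset_right]; simp)
    obtain ⟨U, a, b⟩ := h4.ex
    exact h3.mono (q := s) inter_subset_left U a ⟨k, hk, b⟩

end

variable {L : Type}

instance : IsProbabilityMeasure (coin L) := by unfold coin; infer_instance

open Classical in
theorem flip_mp (t : L × ℕ) :
    MeasurePreserving (fun (x : L × ℕ → Bool) i => if i = t then !x i else x i)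
      (coin L) (coin L) := by
  refine ⟨measurable_pi_iff.2 fun i => by split_ifs <;> fun_prop, ?_⟩
  rw [coin, Measure.infinitePi_map_pi (f := fun i b => if i = t then !b else b) _
    fun _ => by fun_prop]
  congr 1
  funext i
  split_ifs
  · refine Measure.ext_of_singleton fun b => ?_
    rw [Measure.map_apply (by fun_prop) (measurableSet_singleton _),
      show (fun b => !b) ⁻¹' {b} = {!b} by ext c; cases b <;> cases c <;> simp]
    simp
  · exact Measure.map_id

theorem mcoord (t : L × ℕ) (i : Bool) : MeasurableSet {x : L × ℕ → Bool | x t = i} :=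
  show MeasurableSet ((fun x : L × ℕ → Bool => x t) ⁻¹' {i}) from
    measurable_pi_apply t (measurableSet_singleton i)

theorem split_null (b : ℕ → Set (L × ℕ → Bool)) (hb : ∀ n, MeasurableSet (b n)) :
    ∃ S : Set L, S.Countable ∧ ∀ a ∉ S, ∀ i,
      coin L {x | (∃ᶠ n in atTop, x ∈ b n) ∧ ∀ n, x ∈ b n → x (a, n) = i} = 0 := by
  classical
  choose I t hI ht using fun n => (hb n).eq_preimage_restrict_countable
  refine ⟨Prod.fst '' ⋃ n, I n, (countable_iUnion hI).image _, fun a ha i => ?_⟩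
  have hf : ∀ n m (x : L × ℕ → Bool),
      (fun j => if j = (a, n) then !x j else x j) ∈ b m ↔ x ∈ b m := fun n m x => by
    rw [ht m]
    refine iff_of_eq (congrArg (· ∈ t m) (funext fun j => if_neg fun e => ha ?_))
    exact ⟨j, mem_iUnion.2 ⟨m, j.2⟩, congrArg Prod.fst e⟩
  let W : Set (L × ℕ → Bool) := {x | ∀ n, x ∈ b n → x (a, n) = i}
  have hW : MeasurableSet W := by
    simp only [W, ofPred_forall (ι := ℕ)]
    exact .iInter fun n => by
      simp only [imp_iff_not_or]; exact (hb n).compl.union (mcoord (a, n) i)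
  have h1 := tsum_measure_le_measure_univ (μ := coin L)
    (s := fun n => (fun (x : L × ℕ → Bool) j => if j = (a, n) then !x j else x j) ⁻¹' (W ∩ b n))
    (fun n => ((flip_mp _).measurable (hW.inter (hb n))).nullMeasurableSet)
    fun n m e => Disjoint.aedisjoint (disjoint_left.2 fun x h1 h2 => by
      have h3 := h1.1 n h1.2
      have h4 := h2.1 n ((hf _ _ _).2 ((hf _ _ _).1 h1.2))
      simp only [if_true, Prod.mk.injEq, true_and, e, if_false] at h3 h4
      simp [← h4] at h3)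
  simp only [fun n => (flip_mp (a, n)).measure_preimage (hW.inter (hb n)).nullMeasurableSet] at h1
  exact measure_mono_null (fun x hx => hx.1.mono fun n hn => ⟨hx.2, hn⟩)
    (measure_setOfPred_frequently_eq_zero (p := fun n x => x ∈ W ∩ b n)
      (h1.trans_lt (measure_lt_top _ _)).ne)

end Pool.Agent.H42.ZF
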