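import Pool.Agent.H42.Rnd1
import Pool.Agent.H42.PolD

/-! Random reals destroy the polarized relation at the dominating number. -/

namespace Pool.Agent.H42.ZF

open Set MeasureTheory Filter Topology Cardinal

section
variable {P : Type} [Preorder P] {U : Ult P}

instance cDom (x y : Nm P) : C (fun U => Dom (E U) (mk U x) (mk U y)) := by
  unfold Dom; infer_instance
instance cInj (x y z : Nm P) : C (fun U => Inj (E U) (mk U x) (mk U y) (mk U z)) := by
  unfold Inj; infer_instance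

theorem sub_natN {a b : ℕ} : Sub (E U) (mk U (natN a)) (mk U (natN b)) ↔ a ≤ b :=
  ⟨fun h => not_lt.1 fun h' => lt_irrefl b (natN_mem.1 (h _ (natN_mem.2 h'))),
    fun h _ hz => mem_natN.2 ((mem_natN.1 hz).imp fun _ h' => ⟨h'.1.trans_le h, h'.2⟩)⟩

/-- the name of a ground model family of functions -/
def famN (F : Set (ℕ → ℕ)) : Nm P := fam (fun f : F => realN f) (fun _ _ => True)

end

theorem dom_famN {Ω : Type} [MeasurableSpace Ω] {μ : Measure Ω} [IsFiniteMeasure μ]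
    {F : Set (ℕ → ℕ)} (hF : ∀ g : ℕ → ℕ, ∃ f ∈ F, ∀ᶠ n in atTop, g n ≤ f n) (U : Ult (Rand μ)) :
    Dom (E U) (mk U (famN F)) (mk U omegaN) := by
  refine ⟨fun f hf => ?_, fun g hg => ?_⟩
  · obtain ⟨f, rfl⟩ := mk_surj f
    exact fam_cases (fun i U _ e => e ▸ isFun_realN _) U hf
  obtain ⟨g, rfl⟩ := mk_surj g
  refine by_dense (H := fun U => IsFun (E U) (mk U g) (mk U omegaN) (mk U omegaN))
    (R := fun U => ∃ f, E U f (mk U (famN F)) ∧ ∃ N, E U N (mk U omegaN) ∧
      ∀ n, E U n (mk U omegaN) → Sub (E U) N n → ∀ a b, App (E U) (mk U g) n a →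
        App (E U) f n b → Sub (E U) a b) (fun p hp => ?_) U hg
  obtain ⟨q, hq, b, hb⟩ := bounding
    (fun n k U => App (E U) (mk U g) (mk U (natN n)) (mk U (natN k))) (p := p)
    fun n q hq => decide_app (frc_and (hp.mono hq) fun _ _ => nat_mem_omega n)
  obtain ⟨f, hf, h⟩ := hF b
  obtain ⟨N, hN⟩ := eventually_atTop.1 h
  refine ⟨q, hq, fun U hU => ⟨_, fam_intro (A := fun f : F => realN f) ⟨f, hf⟩ trivial, _,
    nat_mem_omega N, fun n hn => ?_⟩⟩
  obtain ⟨n, rfl⟩ := mk_surj n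
  revert hU
  refine nat_cases (fun k U e hU => ?_) U hn
  rw [e]
  intro h1 a c h2 h3
  obtain ⟨l, h4, h5⟩ := hb k U hU
  rw [(hp.mono hq U hU).uniq h2 h5, app_fullN_iff.1 h3]
  exact sub_natN.2 (h4.trans (hN k (sub_natN.1 h1)))

variable {L : Type} {F : Set (ℕ → ℕ)}

/-- the conditions that give the value 1 to a coordinate -/
def bit (t : L × ℕ) : LowerSet (Rand (coin L)) :=
  ⟨{q | q.1 ⊆ {x | x t = true}}, fun _ _ h h' => Subset.trans h h'⟩

def bitN (e : F ↪ L) : Nm (Rand (coin L)) :=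
  rel (fun t : F × ℕ => realN t.1) (fun t => natN t.2)
    (fun t U => (bit (e t.1, t.2) : Set (Rand (coin L))) ∈ U.U)

def colN (e : F ↪ L) (D j : Nm (Rand (coin L))) : Nm (Rand (coin L)) :=
  rel (fun t : D.ι × ℕ => D.A t.1) (fun t => natN t.2)
    (fun t U => ∃ y, App (E U) (mk U j) (mk U (D.A t.1)) y ∧
      App (E U) (mk U (bitN e)) y (mk U (natN t.2)))

theorem app_colN {e : F ↪ L} {D j y : Nm (Rand (coin L))} {f : F} {n : ℕ}
    {U : Ult (Rand (coin L))} (hj : IsFun (E U) (mk U j) (mk U D) (mk U (famN F)))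
    (hy : App (E U) (mk U j) (mk U y) (mk U (realN f))) :
    App (E U) (mk U (colN e D j)) (mk U y) (mk U (natN n)) ↔
      (bit (e f, n) : Set (Rand (coin L))) ∈ U.U := by
  constructor
  · intro h
    revert hj hy
    refine rel_cases (fun t U ⟨z, h1, h2⟩ e1 e2 hj hy => ?_) U h
    rw [← e1] at h1
    rw [hj.uniq h1 hy, ← e2] at h2
    refine rel_cases (fun s U h3 e3 e4 => ?_) U h2
    rwa [natN_inj e4, show f = s.1 from Subtype.ext (realN_inj e3)]
  · have := (hj.dom hy).1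
    revert hy
    clear hj
    refine mem_cases (fun k U _ e1 hy h => ?_) U this
    rw [e1] at hy ⊢
    exact rel_intro (A := fun t : D.ι × ℕ => D.A t.1) (B := fun t => natN t.2) (k, n)
      ⟨_, hy, rel_intro (A := fun t : F × ℕ => realN t.1) (B := fun t => natN t.2) (f, n) h⟩

theorem small (e : F ↪ L) (D j A B : Nm (Rand (coin L))) (i : Bool) (p : Rand (coin L))
    (h2 : Frc p fun U => Inj (E U) (mk U j) (mk U D) (mk U (famN F)))
    (h5 : Frc p fun U => Sub (E U) (mk U B) (mk U omegaN))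
    (h6 : Frc p fun U => ∀ n, E U n (mk U omegaN) → ∃ m, E U m (mk U B) ∧ Sub (E U) n m)
    (h7 : Frc p fun U => ∀ a b, E U a (mk U A) → E U b (mk U B) →
      (App (E U) (mk U (colN e D j)) a b ↔ i = true)) :
    ∃ S : Set L, S.Countable ∧ ∀ (f : F) y, ∀ r ≤ p, (Frc r fun U => E U (mk U y) (mk U A) ∧
      App (E U) (mk U j) (mk U y) (mk U (realN f))) → e f ∈ S := by
  choose b b1 b2 using
    fun n => ex_val fun U : Ult (Rand (coin L)) => E U (mk U (natN n)) (mk U B)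
  obtain ⟨S, hS, hS'⟩ := split_null b b1
  refine ⟨S, hS, fun f y r hr hy => ?_⟩
  by_contra hc
  have a1 : ∀ N : ℕ, coin L (r.1 \ ⋃ n : Ici N, b n) = 0 := fun N => by
    by_contra h'
    let q : Rand (coin L) := ⟨_, r.2.1.diff (.iUnion fun n => b1 _), h'⟩
    have hq : q ≤ r := sdiff_subset
    obtain ⟨m, hm⟩ := frc_ex (S := fun U m => E U m (mk U B) ∧ Sub (E U) (mk U (natN N)) m)
      ((h6.mono (hq.trans hr)).imp fun U h => h _ (nat_mem_omega N))
    obtain ⟨s, hs, k, hk⟩ := decide_nat (x := m) (p := q)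
      fun U hU => h5.mono (hq.trans hr) U hU _ (hm U hU).1
    obtain ⟨U, a, b⟩ := hk.ex
    have c := (hm.mono hs U a).2
    rw [b] at c
    refine s.2.2 (measure_mono_null (t := s.1 \ _) (fun x hx => ⟨hx, fun h' => (hs hx).2
      (mem_iUnion.2 ⟨⟨k, sub_natN.1 c⟩, h'⟩)⟩) ((b2 k s).1 fun U hU => ?_))
    have d : mk U m = mk U (natN k) := hk U hU
    have d' := (hm.mono hs U hU).1
    rwa [d] at d'
  have a2 : ∀ n, coin L (r.1 ∩ b n ∩ {x | x (e f, n) = !i}) = 0 := fun n => by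
    by_contra h'
    let s : Rand (coin L) := ⟨_, (r.2.1.inter (b1 _)).inter (mcoord _ _), h'⟩
    have hs : s ≤ r := inter_subset_left.trans inter_subset_left
    have c : Frc s fun U => E U (mk U (natN n)) (mk U B) := (b2 n s).2 (by
      rw [sdiff_eq_empty.2 (inter_subset_left.trans inter_subset_right)]; simp)
    obtain ⟨U, a, b⟩ := c.ex
    have d := (app_colN (h2.mono (hs.trans hr) U a).1 (hy.mono hs U a).2).symm.trans
      (h7.mono (hs.trans hr) U a _ _ (hy.mono hs U a).1 b)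
    cases i
    · exact absurd (d.1 (frc_lower (p := s) inter_subset_right U a)) (by simp)
    · obtain ⟨t, t1, t2⟩ := Filter.nonempty_of_mem (Filter.inter_mem a (d.2 rfl))
      obtain ⟨x, hx⟩ := nonempty_of_measure_ne_zero t.2.2
      exact absurd ((t1 hx).2.symm.trans (t2 hx)) (by simp)
  have a3 := hS' _ hc i
  refine r.2.2 (measure_mono_null (fun x hx => ?_) (measure_union_null a3
    (measure_union_null (measure_iUnion_null a1) (measure_iUnion_null a2))))
  by_contra h'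
  simp only [mem_union, not_or, mem_iUnion, not_exists, Set.mem_sdiff, hx, true_and, not_not,
    mem_inter_iff, not_and, mem_ofPred, not_forall, Bool.not_eq_not] at h'
  obtain ⟨n, a, b⟩ := h'.1 (frequently_atTop.2 fun N => by
    obtain ⟨n, hn⟩ := by simpa using h'.2.1 N
    exact ⟨n, hn⟩)
  exact b (h'.2.2 n a)

theorem core (e : F ↪ L) (D j A h : Nm (Rand (coin L))) (p : Rand (coin L))
    (h1 : Frc p fun U => Dom (E U) (mk U D) (mk U omegaN))
    (h2 : Frc p fun U => Inj (E U) (mk U j) (mk U D) (mk U (famN F)))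
    (h3 : Frc p fun U => Sub (E U) (mk U A) (mk U D))
    (h4 : Frc p fun U => Inj (E U) (mk U h) (mk U D) (mk U A)) {S : Set L} (hS : S.Countable)
    (c1 : ∀ (f : F) y, ∀ r ≤ p, (Frc r fun U => E U (mk U y) (mk U A) ∧
      App (E U) (mk U j) (mk U y) (mk U (realN f))) → e f ∈ S) : False := by
  have : Countable {f : F // e f ∈ S} := (hS.preimage e.injective).to_subtype
  obtain ⟨q, hq, g, hg⟩ := bounding (fun (t : {f : F // e f ∈ S} × ℕ) k U => ∀ x y,
    App (E U) (mk U h) x y → App (E U) (mk U j) y (mk U (realN t.1.1)) →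
      App (E U) x (mk U (natN t.2)) (mk U (natN k))) (p := p) fun t q hq => by
    by_cases hc : Frc q fun U => ¬∃ x y, App (E U) (mk U h) x y ∧
      App (E U) (mk U j) y (mk U (realN t.1.1))
    · exact ⟨q, le_rfl, 0, fun U hU x y a b => (hc U hU ⟨x, y, a, b⟩).elim⟩
    obtain ⟨r, hr, c⟩ := cl.decide hc
    obtain ⟨x, hx⟩ := frc_ex (S := fun U x => ∃ y, App (E U) (mk U h) x y ∧
      App (E U) (mk U j) y (mk U (realN t.1.1))) (c.imp fun _ => not_not.1)
    obtain ⟨s, hs, k, hk⟩ := decide_app (f := x) (a := natN t.2) (p := r) fun U hU => by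
      obtain ⟨y, a, -⟩ := hx U hU
      exact ⟨(h1.mono (hr.trans hq) U hU).1 _ ((h4.mono (hr.trans hq) U hU).1.dom a).1,
        nat_mem_omega _⟩
    refine ⟨s, hs.trans hr, k, fun U hU x' y' a b => ?_⟩
    obtain ⟨y, a', b'⟩ := hx.mono hs U hU
    rw [(h2.mono (hs.trans (hr.trans hq)) U hU).2 _ _ _ b b'] at a
    rw [(h4.mono (hs.trans (hr.trans hq)) U hU).2 _ _ _ a a']
    exact hk U hU
  obtain ⟨code, hcode⟩ := exists_injective_nat {f : F // e f ∈ S}
  let g' : ℕ → ℕ := fun n =>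
    ((Finset.range (n + 1)).preimage code hcode.injOn).sup (fun f => g (f, n)) + 1
  obtain ⟨x, hx⟩ := frc_ex (S := fun U x => E U x (mk U D) ∧ ∃ N, E U N (mk U omegaN) ∧
    ∀ n, E U n (mk U omegaN) → Sub (E U) N n → ∀ a b, App (E U) (mk U (realN g')) n a →
      App (E U) x n b → Sub (E U) a b) ((h1.mono hq).imp fun U h => h.2 _ (isFun_realN g'))
  obtain ⟨N, hN⟩ := frc_ex (S := fun U N => E U N (mk U omegaN) ∧
    ∀ n, E U n (mk U omegaN) → Sub (E U) N n → ∀ a b, App (E U) (mk U (realN g')) n a →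
      App (E U) (mk U x) n b → Sub (E U) a b) (hx.imp fun U h => h.2)
  obtain ⟨y, hy⟩ := frc_ex (S := fun U y => App (E U) (mk U h) (mk U x) y) (p := q)
    fun U hU => (h4.mono hq U hU).1.ex (hx U hU).1
  have hA : Frc q fun U => E U (mk U y) (mk U A) :=
    fun U hU => ((h4.mono hq U hU).1.dom (hy U hU)).2
  obtain ⟨z, hz⟩ := frc_ex (S := fun U z => App (E U) (mk U j) (mk U y) z) (p := q)
    fun U hU => (h2.mono hq U hU).1.ex (h3.mono hq U hU _ (hA U hU))
  obtain ⟨r, hr, f, hf⟩ := fam_elim (z := z) (p := q) (A := fun f : F => realN f)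
    fun U hU => ((h2.mono hq U hU).1.dom (hz U hU)).2
  have hf' : Frc r fun U => App (E U) (mk U j) (mk U y) (mk U (realN f)) :=
    fun U hU => by
      have := hz.mono hr U hU
      beta_reduce at this
      rwa [(hf U hU).2] at this
  have c2 := c1 f y r (hr.trans hq) (frc_and (hA.mono hr) hf')
  obtain ⟨s, hs, k, hk⟩ := decide_nat (x := N) (p := r) fun U hU => (hN.mono hr U hU).1
  obtain ⟨U, a, b⟩ := hk.ex
  obtain ⟨l, l1, l2⟩ := (hg (⟨f, c2⟩, max k (code ⟨f, c2⟩))).mono (hs.trans hr) U a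
  have := sub_natN.1 ((hN.mono (hs.trans hr) U a).2 _ (nat_mem_omega _)
    (b ▸ sub_natN.2 (le_max_left k (code ⟨f, c2⟩))) _ _ (app_realN.2 rfl)
    (l2 _ _ (hy.mono (hs.trans hr) U a) (hf'.mono hs U a)))
  refine (l1.trans_lt (Nat.lt_succ_of_le ?_)).not_ge this
  exact Finset.le_sup (f := fun f' => g (f', max k (code ⟨f, c2⟩)))
    (Finset.mem_preimage.2 (Finset.mem_range.2 (Nat.lt_succ_of_le (le_max_right _ _))))

theorem not_pol (hL : PolD.dNum ≤ #L) (U : Ult (Rand (coin L))) (w D : M U)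
    (hw : IsOmega (E U) w) (hD : MinDom (E U) D w) : ¬PolM (E U) D w := by
  obtain ⟨F, h1, hF⟩ := PolD.ex_dom
  obtain ⟨e⟩ := (Cardinal.le_def F L).1 (h1.trans_le hL)
  obtain rfl := hw.eq
  obtain ⟨D, rfl⟩ := mk_surj D
  obtain ⟨j, hj⟩ := hD.2 _ (dom_famN hF U)
  obtain ⟨j, rfl⟩ := mk_surj j
  intro h
  obtain ⟨A, B, h3, ⟨h, h4⟩, h5, h6, h7⟩ := h (mk U (colN e D j))
  obtain ⟨A, rfl⟩ := mk_surj A
  obtain ⟨B, rfl⟩ := mk_surj B
  obtain ⟨h, rfl⟩ := mk_surj h
  obtain ⟨i, h7⟩ : ∃ i : Bool, ∀ a b, E U a (mk U A) → E U b (mk U B) →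
      (App (E U) (mk U (colN e D j)) a b ↔ i = true) := h7.elim
    (fun h => ⟨true, fun a b x y => iff_of_true (h a b x y) rfl⟩)
    fun h => ⟨false, fun a b x y => iff_of_false (h a b x y) (by simp)⟩
  obtain ⟨p, hp⟩ := Filter.nonempty_of_mem ((cl (Q := fun U => Dom (E U) (mk U D) (mk U omegaN) ∧
    Inj (E U) (mk U j) (mk U D) (mk U (famN F)) ∧ Sub (E U) (mk U A) (mk U D) ∧
    Inj (E U) (mk U h) (mk U D) (mk U A) ∧ Sub (E U) (mk U B) (mk U omegaN) ∧
    (∀ n, E U n (mk U omegaN) → ∃ m, E U m (mk U B) ∧ Sub (E U) n m) ∧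
    ∀ a b, E U a (mk U A) → E U b (mk U B) →
      (App (E U) (mk U (colN e D j)) a b ↔ i = true)) U).1 ⟨hD.1, hj, h3, h4, h5, h6, h7⟩)
  obtain ⟨S, s1, s2⟩ := small e D j A B i p (hp.imp fun _ h => h.2.1)
    (hp.imp fun _ h => h.2.2.2.2.1) (hp.imp fun _ h => h.2.2.2.2.2.1)
    (hp.imp fun _ h => h.2.2.2.2.2.2)
  exact core e D j A h p (hp.imp fun _ h => h.1) (hp.imp fun _ h => h.2.1)
    (hp.imp fun _ h => h.2.2.1) (hp.imp fun _ h => h.2.2.2.1) s1 s2

end Pool.Agent.H42.ZF
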