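import Mathlib

/-! Short uncountable linear orders. -/

namespace Pool.Agent.H42.Short

open Set

variable {L : Type*} [LinearOrder L]

theorem cof (h1 : ∀ S : Set L, S.WellFoundedOn (· < ·) → S.Countable) (S : Set L) :
    ∃ T ⊆ S, T.Countable ∧ ∀ s ∈ S, ∃ t ∈ T, s ≤ t := by
  obtain ⟨r, wf, tri⟩ : ∃ r : L → L → Prop, WellFounded r ∧ ∀ a b, r a b ∨ a = b ∨ r b a :=
    ⟨WellOrderingRel, IsWellFounded.wf, fun a b => trichotomous_of WellOrderingRel a b⟩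
  refine ⟨{x | x ∈ S ∧ ∀ y ∈ S, r y x → y < x}, fun x hx => hx.1, h1 _ ?_, fun s hs => ?_⟩
  · refine Subrelation.wf (r := InvImage r Subtype.val) ?_ (InvImage.wf _ wf)
    intro x y hxy
    rcases tri x y with c | c | c
    · exact c
    · exact absurd c (ne_of_lt hxy)
    · exact absurd (x.2.2 y y.2.1 c) (not_lt.2 (le_of_lt hxy))
  · obtain ⟨x, x1, x2⟩ := wf.has_min {x | x ∈ S ∧ s ≤ x} ⟨s, hs, le_rfl⟩
    exact ⟨x, ⟨x1.1, fun y hy c => (not_le.1 fun d => x2 y ⟨hy, d⟩ c).trans_le x1.2⟩, x1.2⟩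

theorem low (h1 : ∀ S : Set L, S.WellFoundedOn (· < ·) → S.Countable) (U : Set L) :
    {x | x ∈ U ∧ (U ∩ Iic x).Countable}.Countable := by
  obtain ⟨T, t1, t2, t3⟩ := cof h1 {x | x ∈ U ∧ (U ∩ Iic x).Countable}
  refine (t2.biUnion fun t ht => (t1 ht).2).mono fun x hx => ?_
  obtain ⟨t, a, b⟩ := t3 x hx
  exact mem_biUnion a ⟨hx.1, b⟩

theorem mid (h1 : ∀ S : Set L, S.WellFoundedOn (· < ·) → S.Countable)
    (h2 : ∀ S : Set L, S.WellFoundedOn (· > ·) → S.Countable) {U : Set L} (hU : ¬ U.Countable) :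
    ∃ x ∈ U, ¬ (U ∩ Iic x).Countable ∧ ¬ (U ∩ Ici x).Countable := by
  by_contra hc
  refine hU (((low h1 U).union (low (L := Lᵒᵈ) h2 U)).mono fun x hx => ?_)
  by_cases c : (U ∩ Iic x).Countable
  · exact Or.inl ⟨hx, c⟩
  · exact Or.inr ⟨hx, by_contra fun d => hc ⟨x, hx, c, d⟩⟩

theorem exists_emb (h1 : ∀ S : Set L, S.WellFoundedOn (· < ·) → S.Countable)
    (h2 : ∀ S : Set L, S.WellFoundedOn (· > ·) → S.Countable) (hU : ¬ (univ : Set L).Countable) :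
    ∃ g : ℚ ↪o L, ¬ (Icc (g 0) (g 1)).Countable := by
  obtain ⟨r, wf, tri⟩ : ∃ r : L → L → Prop, WellFounded r ∧ ∀ a b, r a b ∨ a = b ∨ r b a :=
    ⟨WellOrderingRel, IsWellFounded.wf, fun a b => trichotomous_of WellOrderingRel a b⟩
  let D : Set L := {x | ∀ y, (uIcc x y).Countable → ¬ r y x}
  have rep : ∀ z, ∃ x ∈ D, (uIcc z x).Countable := fun z => by
    obtain ⟨x, x1, x2⟩ := wf.has_min {x | (uIcc z x).Countable} ⟨z, by simp⟩
    exact ⟨x, fun y hy => x2 y ((x1.union hy).mono uIcc_subset_uIcc_union_uIcc), x1⟩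
  have sep : ∀ x ∈ D, ∀ y ∈ D, x < y → ¬ (Icc x y).Countable := fun x hx y hy hxy c => by
    rcases tri x y with d | d | d
    · exact hy x (by rwa [uIcc_of_ge hxy.le]) d
    · exact hxy.ne d
    · exact hx y (by rwa [uIcc_of_le hxy.le]) d
  have : DenselyOrdered D := ⟨fun x y hxy => by
    obtain ⟨z, z1, z2, z3⟩ := mid h1 h2 (sep x x.2 y y.2 hxy)
    obtain ⟨w, w1, w2⟩ := rep z
    refine ⟨⟨w, w1⟩, not_le.1 fun c => z2 (w2.mono fun v hv => ?_),
      not_le.1 fun c => z3 (w2.mono fun v hv => ?_)⟩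
    · exact mem_uIcc_of_ge ((show w ≤ x from c).trans hv.1.1) hv.2
    · exact mem_uIcc_of_le hv.2 (hv.1.2.trans c)⟩
  have : Nontrivial D := by
    obtain ⟨z, -, z2, -⟩ := mid h1 h2 hU
    obtain ⟨z', -, -, z3⟩ := mid h1 h2 z2
    obtain ⟨w, w1, w2⟩ := rep z
    obtain ⟨w', w3, w4⟩ := rep z'
    refine ⟨⟨w, w1⟩, ⟨w', w3⟩, fun c => z3 ?_⟩
    obtain rfl : w = w' := congrArg Subtype.val c
    refine (w4.union w2).mono fun v hv => ?_
    rw [uIcc_comm z]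
    exact uIcc_subset_uIcc_union_uIcc (mem_uIcc_of_le hv.2 hv.1.2)
  obtain ⟨g⟩ := Order.embedding_from_countable_to_dense ℚ D
  exact ⟨g.trans (OrderEmbedding.subtype _), sep _ (g 0).2 _ (g 1).2 (g.strictMono zero_lt_one)⟩

theorem collapse (g : ℚ ↪o L) {J : Set L} (hJ : J ⊆ Icc (g 0) (g 1)) :
    ∃ f : (range g ∪ J : Set L) → ℚ, Monotone f ∧ Function.Surjective f ∧
      ∀ y, y.1 ∈ J → f y = 0 := by
  have : ∀ y : (range g ∪ J : Set L), ∃ q, g q = y ∨ (q = 0 ∧ g 0 ≤ y ∧ y ≤ g 1) := fun y => by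
    rcases y.2 with ⟨q, hq⟩ | h
    · exact ⟨q, Or.inl hq⟩
    · exact ⟨0, Or.inr ⟨rfl, hJ h⟩⟩
  choose r hr using this
  refine ⟨fun y => min (r y) 0 + max (r y - 1) 0, fun a b hab => ?_, fun p => ?_,
    fun y hy => ?_⟩
  · have hab' : a.1 ≤ b.1 := hab
    rcases hr a with c | c <;> rcases hr b with d | d
    · have : r a ≤ r b := g.le_iff_le.1 (by rwa [c, d])
      simp only
      gcongr
    · have : r a ≤ 1 := g.le_iff_le.1 (c.le.trans (hab'.trans d.2.2))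
      simp only [d.1]
      grind
    · have : 0 ≤ r b := g.le_iff_le.1 (c.2.1.trans (hab'.trans d.ge))
      simp only [c.1]
      grind
    · simp only [c.1, d.1, le_rfl]
  · rcases le_or_gt p 0 with c | c
    · refine ⟨⟨g p, Or.inl ⟨p, rfl⟩⟩, ?_⟩
      rcases hr ⟨g p, Or.inl ⟨p, rfl⟩⟩ with d | d
      · simp only [g.injective d]
        grind
      · have := g.le_iff_le.1 d.2.1
        simp only [d.1]
        grind
    · refine ⟨⟨g (p + 1), Or.inl ⟨_, rfl⟩⟩, ?_⟩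
      rcases hr ⟨g (p + 1), Or.inl ⟨_, rfl⟩⟩ with d | d
      · simp only [g.injective d]
        grind
      · have := g.le_iff_le.1 d.2.2
        linarith
  · rcases hr y with d | d
    · have a1 := g.le_iff_le.1 ((hJ hy).1.trans d.ge)
      have a2 := g.le_iff_le.1 (d.le.trans (hJ hy).2)
      grind
    · simp [d.1]

theorem collapse' (g : ℚ ↪o L) {J : Set L} (hJ : J ⊆ Icc (g 0) (g 1)) (K : Type*) [LinearOrder K]
    [Countable K] [Nonempty K] :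
    ∃ M : Set L, J ⊆ M ∧ M ⊆ range g ∪ J ∧ ∃ f : M → K, Monotone f ∧ Function.Surjective f := by
  obtain ⟨f, f1, f2, f3⟩ := collapse g hJ
  obtain ⟨e⟩ := Order.embedding_from_countable_to_dense K ℚ
  obtain ⟨k⟩ := ‹Nonempty K›
  let M : Set L := {y | ∃ h : y ∈ range g ∪ J, ∃ z, f ⟨y, h⟩ = e z - e k}
  choose h z hz using fun y : M => y.2
  refine ⟨M, fun y hy => ⟨Or.inr hy, k, by rw [f3 _ hy, sub_self]⟩, fun y hy => hy.1, z,
    fun a b hab => ?_, fun w => ?_⟩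
  · have := f1 (show (⟨a, h a⟩ : (range g ∪ J : Set L)) ≤ ⟨b, h b⟩ from hab)
    rw [hz, hz] at this
    exact e.le_iff_le.1 (by linarith)
  · obtain ⟨y, hy⟩ := f2 (e w - e k)
    refine ⟨⟨y, y.2, w, hy⟩, e.injective ?_⟩
    have := hz ⟨y, y.2, w, hy⟩
    linarith [hy]

end Pool.Agent.H42.Short
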