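import Mathlib

/-! Deleting a point from a strongly surjective order. -/

namespace Pool.Agent.H42.SSurj

open Set Function

universe u

variable {L : Type u} [LinearOrder L]

theorem fin_retr (K : Set L) (hK : K.Finite) (hne : K.Nonempty) :
    ∃ f : L → K, Monotone f ∧ Surjective f := by
  classical
  obtain ⟨m, hm, hm'⟩ := exists_min_image K id hK hne
  have : ∀ y, ∃ z : K, (z.1 ≤ y ∨ z.1 = m) ∧ ∀ k ∈ K, k ≤ y → k ≤ z.1 := by
    intro y
    by_cases h : (K ∩ Iic y).Nonempty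
    · obtain ⟨z, h1, h2⟩ := exists_max_image _ id (hK.subset inter_subset_left) h
      exact ⟨⟨z, h1.1⟩, Or.inl h1.2, fun k a b => h2 k ⟨a, b⟩⟩
    · exact ⟨⟨m, hm⟩, Or.inr rfl, fun k a b => absurd ⟨k, a, b⟩ h⟩
  choose f h1 h2 using this
  refine ⟨f, fun a b hab => ?_, fun k => ⟨k, Subtype.ext (le_antisymm ?_ (h2 _ _ k.2 le_rfl))⟩⟩
  · rcases h1 a with h | h
    · exact h2 b _ (f a).2 (h.trans hab)
    · show (f a).1 ≤ (f b).1
      rw [h]; exact hm' _ (f b).2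
  · rcases h1 k with h | h
    · exact h
    · rw [h]; exact hm' _ k.2

theorem shift (x : L) (h : L → L)
    (h1 : ∀ y y', x ≤ y → (Icc x y).Infinite → y ≤ y' → h y ≤ h y')
    (h2 : ∀ y, x ≤ y → (Icc x y).Infinite → ∀ p, (Icc x p).Finite → p ≤ h y)
    (h3 : ∀ z, x ≤ z → (Icc x z).Infinite → ∃ y, x ≤ y ∧ (Icc x y).Infinite ∧ h y = z)
    (h4 : ∀ z, x ≤ z → (Icc x z).Finite → (∀ p, (Icc x p).Finite → p ≤ z) →
      ∃ y, x ≤ y ∧ (Icc x y).Infinite ∧ h y = z) :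
    ∃ g : ({x}ᶜ : Set L) → L, Monotone g ∧ Surjective g := by
  classical
  have hp : ∀ y, ∃ z, x < y → (Icc x y).Finite → (x ≤ z ∧ z < y) ∧ ∀ w, x ≤ w → w < y → w ≤ z := by
    intro y
    by_cases hy : x < y ∧ (Icc x y).Finite
    · obtain ⟨z, a1, a2⟩ := exists_max_image (Ico x y) id (hy.2.subset Ico_subset_Icc_self)
        ⟨x, le_rfl, hy.1⟩
      exact ⟨z, fun _ _ => ⟨a1, fun w a b => a2 w ⟨a, b⟩⟩⟩
    · exact ⟨x, fun a b => absurd ⟨a, b⟩ hy⟩
  choose π hπ using hp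
  have hne : ∀ y, (Icc x y).Infinite → y ≠ x := by
    rintro y hy rfl
    exact hy (by simp)
  refine ⟨fun y => if y.1 < x then y.1 else if (Icc x y.1).Finite then π y.1 else h y.1, ?_, ?_⟩
  · rintro ⟨a, ha⟩ ⟨b, hb⟩ hab
    have hab' : a ≤ b := hab
    have xb : ¬ b < x → x < b := fun h => lt_of_le_of_ne (not_lt.1 h) (Ne.symm hb)
    have xa : ¬ a < x → x < a := fun h => lt_of_le_of_ne (not_lt.1 h) (Ne.symm ha)
    simp only
    split_ifs with c1 c2 c3 c4 c5 c6 c7 c8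
    · exact hab'
    · exact c1.le.trans (hπ b (xb c2) c3).1.1
    · exact c1.le.trans (h2 b (not_lt.1 c2) c3 x (by simp))
    · exact absurd (hab'.trans_lt c5) c1
    · exact (hπ b (xb c5) c6).2 _ (hπ a (xa c1) c4).1.1 ((hπ a (xa c1) c4).1.2.trans_le hab')
    · exact (hπ a (xa c1) c4).1.2.le.trans (h2 b (not_lt.1 c5) c6 a c4)
    · exact absurd (hab'.trans_lt c7) c1
    · exact absurd (c8.subset (Icc_subset_Icc_right hab')) c4
    · exact h1 a b (not_lt.1 c1) c4 hab'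
  · intro z
    have key : (∃ y, x ≤ y ∧ (Icc x y).Infinite ∧ h y = z) → ∃ y : ({x}ᶜ : Set L),
        (if y.1 < x then y.1 else if (Icc x y.1).Finite then π y.1 else h y.1) = z := by
      rintro ⟨y, a1, a2, a3⟩
      exact ⟨⟨y, hne y a2⟩, by rw [if_neg (not_lt.2 a1), if_neg a2, a3]⟩
    by_cases c1 : z < x
    · exact ⟨⟨z, c1.ne⟩, if_pos c1⟩
    have c1' := not_lt.1 c1
    by_cases c2 : (Icc x z).Finite
    swap
    · exact key (h3 z c1' c2)
    by_cases c3 : ∀ p, (Icc x p).Finite → p ≤ z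
    · exact key (h4 z c1' c2 c3)
    push Not at c3
    obtain ⟨p, a1, a2⟩ := c3
    obtain ⟨s, b1, b2⟩ := exists_min_image (Ioc z p) id
      (a1.subset fun w hw => ⟨c1'.trans hw.1.le, hw.2⟩) ⟨p, a2, le_rfl⟩
    have b3 : x < s := c1'.trans_lt b1.1
    have b4 : (Icc x s).Finite := a1.subset (Icc_subset_Icc_right b1.2)
    refine ⟨⟨s, b3.ne'⟩, ?_⟩
    simp only [if_neg b3.not_gt, if_pos b4]
    refine le_antisymm (not_lt.1 fun hc => ?_) ((hπ s b3 b4).2 z c1' b1.1)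
    exact (hπ s b3 b4).1.2.not_ge (b2 _ ⟨hc, (hπ s b3 b4).1.2.le.trans b1.2⟩)

theorem nomax {x : L} (hn : ∀ z, x ≤ z → (Icc x z).Finite → ∃ p, (Icc x p).Finite ∧ z < p) :
    ∃ g : ({x}ᶜ : Set L) → L, Monotone g ∧ Surjective g := by
  refine shift x id (fun _ _ _ _ h => h) (fun y a b p c => not_lt.1 fun hc => ?_)
    (fun z a b => ⟨z, a, b, rfl⟩) fun z a b c => ?_
  · exact b (c.subset (Icc_subset_Icc_right hc.le))
  · obtain ⟨p, h1, h2⟩ := hn z a b
    exact absurd (c p h1) h2.not_ge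

theorem onto_right {x m : L} (hm1 : x ≤ m) (hm2 : (Icc x m).Finite)
    (hm3 : ∀ p, (Icc x p).Finite → p ≤ m) (f : L → L) (hf : Monotone f)
    (hs : ∀ z, m < z → ∃ y, f y = z) {a : L} (ha : f a ≤ m) (hma : m < a) :
    ∃ g : ({x}ᶜ : Set L) → L, Monotone g ∧ Surjective g := by
  have hinf : ∀ y, m < y → (Icc x y).Infinite := fun y hy hc => (hm3 y hc).not_gt hy
  refine shift x (fun y => max m (f y)) (fun _ _ _ _ h => max_le_max le_rfl (hf h))
    (fun y _ _ p c => (hm3 p c).trans (le_max_left _ _)) (fun z _ b => ?_) fun z _ b c => ?_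
  · have h1 : m < z := not_le.1 fun hc => b (hm2.subset (Icc_subset_Icc_right hc))
    obtain ⟨y, rfl⟩ := hs z h1
    have h2 : m < y := hma.trans (not_le.1 fun hc => ((hf hc).trans ha).not_gt h1)
    exact ⟨y, hm1.trans h2.le, hinf y h2, max_eq_right h1.le⟩
  · exact ⟨a, hm1.trans hma.le, hinf a hma,
      (max_eq_left ha).trans (le_antisymm (c m hm2) (hm3 z b))⟩

theorem dual {x : L} (h : ∃ g : ({OrderDual.toDual x}ᶜ : Set Lᵒᵈ) → Lᵒᵈ, Monotone g ∧ Surjective g) :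
    ∃ g : ({x}ᶜ : Set L) → L, Monotone g ∧ Surjective g := by
  obtain ⟨g, h1, h2⟩ := h
  exact ⟨g, fun a b hab => h1 (a := b) (b := a) hab, h2⟩

theorem onto [Infinite L] (hL : ∀ K : Set L, K.Nonempty → ∃ f : L → K, Monotone f ∧ Surjective f)
    (x : L) : ∃ g : ({x}ᶜ : Set L) → L, Monotone g ∧ Surjective g := by
  by_cases c1 : ∀ z, x ≤ z → (Icc x z).Finite → ∃ p, (Icc x p).Finite ∧ z < p
  · exact nomax c1
  by_cases c2 : ∀ z, z ≤ x → (Icc z x).Finite → ∃ p, (Icc p x).Finite ∧ p < z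
  · refine dual (nomax fun z a b => ?_)
    obtain ⟨p, h1, h2⟩ := c2 z a (b.subset fun w hw => ⟨hw.2, hw.1⟩)
    exact ⟨p, h1.subset fun w hw => ⟨hw.2, hw.1⟩, h2⟩
  push Not at c1 c2
  obtain ⟨m, m1, m2, m3⟩ := c1
  obtain ⟨n, n1, n2, n3⟩ := c2
  have hfin : (Icc n m).Finite := (n2.union m2).subset Icc_subset_Icc_union_Icc
  have hA : ∀ a < n, (Ioo a n).Infinite := fun a ha hc =>
    (n3 a (((hc.insert a).union n2).subset fun w hw => by
      rcases lt_or_ge w n with h | h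
      · rcases hw.1.eq_or_lt with h' | h'
        · exact Or.inl (Or.inl h'.symm)
        · exact Or.inl (Or.inr ⟨h', h⟩)
      · exact Or.inr ⟨h, hw.2⟩)).not_gt ha
  have hB : ∀ b, m < b → (Ioo m b).Infinite := fun b hb hc =>
    (m3 b (((hc.insert b).union m2).subset fun w hw => by
      rcases lt_or_ge m w with h | h
      · rcases hw.2.eq_or_lt with h' | h'
        · exact Or.inl (Or.inl h')
        · exact Or.inl (Or.inr ⟨h, h'⟩)
      · exact Or.inr ⟨hw.1, h⟩)).not_gt hb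
  obtain ⟨f, f1, f2⟩ := hL (Icc n m)ᶜ hfin.infinite_compl.nonempty
  have hs : ∀ z, z ∉ Icc n m → ∃ y, (f y).1 = z := fun z hz => by
    obtain ⟨y, hy⟩ := f2 ⟨z, hz⟩
    exact ⟨y, congrArg Subtype.val hy⟩
  have f1' : Monotone fun y => (f y).1 := f1
  have hout : ∀ y, (f y).1 < n ∨ m < (f y).1 := fun y => by
    have := (f y).2
    simpa only [mem_compl_iff, mem_Icc, not_and_or, not_le] using this
  have hnm : n ≤ m := n1.trans m1
  rcases hout m with d1 | d1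
  · obtain ⟨z, hz⟩ := (hA _ d1).nonempty
    obtain ⟨a, rfl⟩ := hs z fun h => hz.2.not_ge h.1
    exact onto_right m1 m2 m3 _ f1' (fun z hz => hs z fun h => hz.not_ge h.2)
      (hz.2.le.trans hnm) (not_le.1 fun hc => hz.1.not_ge (f1' hc))
  rcases hout n with d2 | d2
  · exfalso
    refine hA _ d2 ((hfin.image fun y => (f y).1).subset fun z hz => ?_)
    obtain ⟨a, rfl⟩ := hs z fun h => hz.2.not_ge h.1
    exact ⟨a, ⟨not_lt.1 fun hc => hz.1.not_ge (f1' hc.le),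
      not_lt.1 fun hc => ((hz.2.trans_le hnm).trans d1).not_ge (f1' hc.le)⟩, rfl⟩
  · obtain ⟨z, hz⟩ := (hB _ d2).nonempty
    obtain ⟨a, rfl⟩ := hs z fun h => hz.1.not_ge h.2
    refine dual (onto_right (L := Lᵒᵈ) (m := OrderDual.toDual n) n1
      (n2.subset fun w hw => ⟨hw.2, hw.1⟩)
      (fun p hp => n3 p (hp.subset fun w hw => ⟨hw.2, hw.1⟩)) (fun y => (f y).1)
      (fun a b hab => f1' hab) (fun z hz => hs (OrderDual.ofDual z) fun h =>
        (show OrderDual.ofDual z < n from hz).not_ge h.1)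
      (a := a) (hnm.trans hz.1.le) (not_le.1 fun hc => hz.2.not_ge (f1' hc)))

theorem main (hL : ∀ K : Set L, K.Nonempty → ∃ f : L → K, Monotone f ∧ Surjective f) (x : L)
    (K : Set ({x}ᶜ : Set L)) (hK : K.Nonempty) :
    ∃ f : ({x}ᶜ : Set L) → K, Monotone f ∧ Surjective f := by
  cases finite_or_infinite L with
  | inl h => exact fin_retr K (toFinite K) hK
  | inr h =>
    obtain ⟨g, g1, g2⟩ := onto hL x
    obtain ⟨f, f1, f2⟩ := hL (Subtype.val '' K) (hK.image _)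
    choose e e1 e2 using fun y => (f y).2
    refine ⟨fun y => ⟨e (g y), e1 _⟩, fun a b hab => ?_, fun k => ?_⟩
    · show (e (g a)).1 ≤ (e (g b)).1
      rw [e2, e2]; exact f1 (g1 hab)
    · obtain ⟨y, hy⟩ := f2 ⟨k.1.1, k.1, k.2, rfl⟩
      obtain ⟨w, rfl⟩ := g2 y
      exact ⟨w, Subtype.ext (Subtype.ext (by rw [e2, hy]))⟩

end Pool.Agent.H42.SSurj
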