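import Pool.Agent.H42.Semf1

/-! A semifilter that is not strongly homogeneous. -/

namespace Pool.Agent.H42.Semf2

open Set Filter Topology Cardinal TopologicalSpace Pool.Agent.H42.SemfDefs Pool.Agent.H42.Semf1

lemma sub_trans {x y z : C} (h : Sub x y) (h' : Sub y z) : Sub x z :=
  (h.union h').subset fun n ⟨a, b⟩ => (em (y n = 1)).elim (fun c => Or.inr ⟨c, b⟩) fun c => Or.inl ⟨a, c⟩

lemma sub_refl (x : C) : Sub x x := finite_empty.subset fun _ h => h.2 h.1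

lemma sub_add (x : C) (F : ℕ →₀ ZMod 2) : Sub x (x + F) :=
  F.support.finite_toSet.subset fun n h => Finsupp.mem_support_iff.2 fun e => h.2 (by simp [e, h.1])

lemma ne1 : ∀ a : ZMod 2, a ≠ 1 ↔ a = 0 := by decide

/-- `Γ` behaves like the closure of the graph of an embedding of `S` onto a clopen part. -/
def Match (Γ : Set (C × C)) (S : Set C) : Prop :=
  (∀ p ∈ Γ, p.2 0 = 0) ∧ (∀ x ∈ S, ∃ y, (x, y) ∈ Γ) ∧ (∀ p ∈ Γ, p.1 ∈ S ↔ p.2 ∈ S) ∧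
    ∀ x x', ∀ y ∈ S, (x, y) ∈ Γ → (x', y) ∈ Γ → x = x'

abbrev K := (𝔠 : Cardinal.{0}).ord.ToType

theorem main : ∃ S : Set C, Semifilter S ∧ ∃ U : Set S, IsClopen U ∧ U.Nonempty ∧
    IsEmpty (U ≃ₜ S) := by
  classical
  obtain ⟨c, c1, c2⟩ := indep
  have hc : Good c univ := fun T π => (c2 T π).mono fun _ h => ⟨trivial, h⟩
  have hinf : ∀ a, ¬ Neg c a → a.Infinite := fun a h e => h (neg_empty.mono (e.subset sdiff_subset))
  have hu : ¬ Neg c univ := fun h => let ⟨_, a, _⟩ := (h _ hc ∅ 0).exists; a.2 a.1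
  have h1 : ¬ Neg c {n | (1 : C) n = 1} := by simpa using hu
  have h0 : ¬ Neg c {n | (0 : C) n ≠ 1} := by simpa using hu
  have s1 : ∀ x : C, ¬ Neg c {n | x n ≠ 1} → ¬ Sub 1 x := fun x h e => hinf _ h (by simpa [SemfDefs.Sub] using e)
  have s0 : ∀ x : C, ¬ Neg c {n | x n = 1} → ¬ Sub x 0 := fun x h e => hinf _ h (by simpa [SemfDefs.Sub] using e)
  obtain ⟨b, hb⟩ := (countable_countableBasis (C × C)).exists_eq_range
    (((isBasis_countableBasis _).exists_subset_of_mem_open (mem_univ 0) isOpen_univ).imp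
      fun _ h => h.1)
  obtain ⟨t⟩ : Nonempty (Set ℕ ↪ K) := by rw [← Cardinal.le_def]; simp
  let Γ : K → Set (C × C) := fun α => (⋃ n ∈ Function.invFun t α, b n)ᶜ
  have hΓ : ∀ α, IsClosed (Γ α) := fun α => (isOpen_biUnion fun n _ =>
    isOpen_of_mem_countableBasis (hb ▸ mem_range_self n)).isClosed_compl
  obtain ⟨f, hf⟩ := TStar.rec_o (T := K) (σ := C × C) (fun α g s => (¬ Neg c {n | s.1 n = 1} ∧
    ¬ Neg c {n | s.2 n ≠ 1} ∧ ¬ Sub s.1 s.2 ∧ ∀ β, ¬ Sub s.1 (g β).2 ∧ ¬ Sub (g β).1 s.2) ∧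
    ∀ S : Set C, (∀ x ∈ S, ∀ y, Sub x y → y ∈ S) → (∀ β, (g β).1 ∈ S ∧ (g β).2 ∉ S) → s.1 ∈ S →
      s.2 ∉ S → ¬ Match (Γ α) S) fun α g hg => by
    by_cases h2 : ∀ p ∈ Γ α, p.2 0 = 0
    swap
    · exact ⟨(1, 0), ⟨h1, h0, s0 _ h1, fun β => ⟨s1 _ (hg β).1.2.1, s0 _ (hg β).1.1⟩⟩,
        fun S _ _ _ _ m => h2 m.1⟩
    obtain ⟨z, hz⟩ := many c1 (hΓ α) h2
    have hI : #(Iio α) < 𝔠 := by simpa using mk_Iio_lt α (by simp)
    let Bad : Option (Iio α) → Set ℝ := fun β => β.elim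
      ({t | Neg c {n | (z + c t) n = 1}} ∪ {t | Neg c {n | (z + c t) n = 0}}) fun β =>
      {t | {n | n ∈ {n | (g β).1 n = 1} ∧ (z + c t) n ≠ 1}.Finite} ∪
      {t | {n | n ∈ {n | (g β).2 n ≠ 1} ∧ (z + c t) n ≠ 0}.Finite}
    have hc' : ∀ β, (Bad β).Countable := by
      rintro (_ | β)
      · exact ((sub hc z 1).finite.union (sub hc z 0).finite).countable
      · exact ((fin z (hg β).1.1 1).union (fin z (hg β).1.2.1 0)).countable
    have hl : #(⋃ β, Bad β) < 𝔠 := (mk_iUnion_le_sum_mk.trans (sum_le_sum _ (fun _ => ℵ₀)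
      fun β => le_aleph0_iff_set_countable.2 (hc' β))).trans_lt (by
        simpa using mul_lt_of_lt aleph0_le_continuum (add_lt_of_lt aleph0_le_continuum hI
          (nat_lt_continuum 1)) aleph0_lt_continuum)
    obtain ⟨v, u0, u⟩ := not_subset.1 fun e => hl.not_ge (hz.trans (mk_le_mk_of_subset e))
    obtain ⟨x, hx⟩ : ∃ x, x = z + c v := ⟨_, rfl⟩
    replace u0 : ∀ F : ℕ →₀ ZMod 2, (x, x + F) ∈ Γ α →
      ∃ F' ≠ F, (x + F + (F' : ℕ →₀ ZMod 2), x + F) ∈ Γ α := by rw [hx]; exact u0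
    have x1 : ¬ Neg c {n | x n = 1} := fun e => u (mem_iUnion.2 ⟨none, Or.inl (by
      rw [hx] at e; exact e)⟩)
    have x0 : ¬ Neg c {n | x n ≠ 1} := fun e => u (mem_iUnion.2 ⟨none, Or.inr (by
      simp only [ne1, hx] at e; exact e)⟩)
    have x2 : ∀ β, ¬ Sub (g β).1 x := fun β e => u (mem_iUnion.2 ⟨some β, Or.inl (by
      rw [hx] at e; exact e)⟩)
    have x3 : ∀ β, ¬ Sub x (g β).2 := fun β e => u (mem_iUnion.2 ⟨some β, Or.inr
      (by rw [hx] at e; exact e.subset fun n h => ⟨not_not.1 fun d => h.2 ((ne1 _).1 d), h.1⟩)⟩)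
    have A := And.intro x1 (And.intro h0 (And.intro (s0 _ x1) fun β =>
      And.intro (x3 β) (s0 _ (hg β).1.1)))
    by_cases k : ∃ y, (x, y) ∈ Γ α ∧ ¬ (Sub x y ∧ Sub y x)
    · obtain ⟨y, y1, y2⟩ := k
      by_cases k1 : ∃ β, Sub (g β).1 y
      · obtain ⟨β, e⟩ := k1
        exact ⟨(1, x), ⟨h1, x0, s1 _ x0, fun β => ⟨s1 _ (hg β).1.2.1, x2 β⟩⟩,
          fun S a b _ d m => d ((m.2.2.1 _ y1).2 (a _ (b β).1 _ e))⟩
      by_cases k2 : ∃ β, Sub y (g β).2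
      · obtain ⟨β, e⟩ := k2
        exact ⟨(x, 0), A, fun S a b d _ m => (b β).2 (a _ ((m.2.2.1 _ y1).1 d) _ e)⟩
      by_cases k3 : ¬ Sub x y ∧ ¬ Neg c {n | y n ≠ 1}
      · exact ⟨(x, y), ⟨x1, k3.2, k3.1, fun β => ⟨x3 β, fun e => k1 ⟨β, e⟩⟩⟩,
          fun S _ _ d e m => e ((m.2.2.1 _ y1).1 d)⟩
      rw [not_and_or, not_not, not_not] at k3
      refine ⟨(y, x), ⟨fun e => ?_, x0, fun e => ?_, fun β => ⟨fun e => k2 ⟨β, e⟩, x2 β⟩⟩,
        fun S _ _ d e m => e ((m.2.2.1 _ y1).2 d)⟩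
      · exact k3.elim (fun d => x1 (e.mono d)) fun d => hu ((e.union d).mono
          (finite_empty.subset fun n h => h.2 (em _)))
      · exact k3.elim (fun d => y2 ⟨d, e⟩) fun d => x0 (d.mono
          (e.subset fun n h => ⟨not_not.1 h.2, h.1⟩))
    refine ⟨(x, 0), A, fun S a _ d _ m => ?_⟩
    obtain ⟨y, hy⟩ := m.2.1 x d
    obtain ⟨y1, y2⟩ := not_not.1 fun e => k ⟨y, hy, e⟩
    obtain ⟨F, rfl⟩ : ∃ F : ℕ →₀ ZMod 2, y = x + F := ⟨.ofSupportFinite (y - x) ((y1.union y2).subset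
      fun n h => (by decide : ∀ a b : ZMod 2, b - a ≠ 0 → a = 1 ∧ b ≠ 1 ∨ b = 1 ∧ a ≠ 1) _ _ h), by
        simp [Finsupp.ofSupportFinite_coe]⟩
    obtain ⟨F', e1, e2⟩ := u0 F hy
    have := m.2.2.2 _ _ _ (a _ d _ y1) hy e2
    rw [add_assoc, left_eq_add, CharTwo.add_eq_zero] at this
    exact e1 (DFunLike.coe_injective this.symm)
  let S : Set C := {y | ∃ α, Sub (f α).1 y}
  have up : ∀ x ∈ S, ∀ y, Sub x y → y ∈ S := fun x ⟨α, a⟩ y b => ⟨α, sub_trans a b⟩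
  have hS : ∀ α, (f α).1 ∈ S ∧ (f α).2 ∉ S := fun α => ⟨⟨α, sub_refl _⟩, fun ⟨β, e⟩ => by
    rcases lt_trichotomy α β with d | rfl | d
    exacts [((hf β).1.2.2.2 ⟨α, d⟩).1 e, (hf α).1.2.2.1 e, ((hf α).1.2.2.2 ⟨β, d⟩).2 e]⟩
  refine ⟨S, ⟨⟨_, (hS (t ∅)).1⟩, fun x ⟨α, a⟩ e => hinf _ (hf α).1.1 ((a.union e).subset
    fun n h => (em _).symm.imp_left fun d => ⟨h, d⟩), up⟩, {y | y.1 0 = 0},
    (isClopen_discrete {0}).preimage (f := fun y : S => y.1 0)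
      ((continuous_apply (A := fun _ => ZMod 2) 0).comp continuous_subtype_val),
    ⟨⟨_, up _ (hS (t ∅)).1 _ (sub_add _ (.single 0 ((f (t ∅)).1 0)))⟩, by
      simp [CharTwo.add_self_eq_zero]⟩, ⟨fun h => ?_⟩⟩
  let G := closure (range fun y => ((h y).1, y.1.1))
  obtain ⟨M, m1, m2⟩ := (isBasis_countableBasis (C × C)).open_eq_sUnion
    (isClosed_closure.isOpen_compl : IsOpen Gᶜ)
  have hG : Γ (t (b ⁻¹' M)) = G := by
    simp only [Γ, Function.leftInverse_invFun t.injective _]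
    rw [← sUnion_image, image_preimage_eq_of_subset (hb ▸ m1), ← m2, compl_compl]
  have g0 : ∀ p ∈ G, p.2 0 = 0 := fun p hp => closure_minimal (t := {p : C × C | p.2 0 = 0})
    (range_subset_iff.2 fun y => y.2) (isClosed_eq (by fun_prop) continuous_const) hp
  have g1 : ∀ p ∈ G, p.1 ∈ S ∨ p.2 ∈ S → ∃ y, ((h y).1, y.1.1) = p := fun p hp e => by
    obtain ⟨s, s1, s2⟩ := mem_closure_iff_seq_limit.1 hp
    choose y hy using s1
    obtain rfl : (fun n => ((h (y n)).1, (y n).1.1)) = s := funext hy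
    obtain ⟨y0, e⟩ : ∃ y0, Tendsto y atTop (𝓝 y0) := by
      rcases e with e | e
      · have e1 : Tendsto (h ∘ y) atTop (𝓝 ⟨_, e⟩) := tendsto_subtype_rng.2 s2.fst_nhds
        exact ⟨h.symm ⟨_, e⟩, by
          simpa [Function.comp_def] using (h.symm.continuous.tendsto _).comp e1⟩
      · exact ⟨⟨⟨_, e⟩, g0 p hp⟩, tendsto_subtype_rng.2 (tendsto_subtype_rng.2 s2.snd_nhds)⟩
    exact ⟨y0, tendsto_nhds_unique ((Continuous.tendsto (f := fun y => ((h y).1, y.1.1))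
      (by fun_prop) y0).comp e) s2⟩
  refine (hf (t (b ⁻¹' M))).2 S up (fun β => hS β) (hS _).1 (hS _).2 ?_
  rw [hG]
  refine ⟨g0, fun x hx => ⟨(h.symm ⟨x, hx⟩).1.1, subset_closure ⟨h.symm ⟨x, hx⟩, by simp⟩⟩,
    fun p hp => ⟨fun e => ?_, fun e => ?_⟩, fun x x' y hy a b => ?_⟩
  · obtain ⟨y, rfl⟩ := g1 p hp (Or.inl e)
    exact y.1.2
  · obtain ⟨y, rfl⟩ := g1 p hp (Or.inr e)
    exact (h y).2
  · obtain ⟨v, e⟩ := g1 _ a (Or.inr hy)
    obtain ⟨v', e'⟩ := g1 _ b (Or.inr hy)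
    obtain rfl : v = v' := Subtype.ext (Subtype.ext ((congrArg Prod.snd e).trans
      (congrArg Prod.snd e').symm))
    exact congrArg Prod.fst (e.symm.trans e')

end Pool.Agent.H42.Semf2
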