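import Mathlib

/-! Semifilters as subspaces of the Cantor set. -/

namespace Pool.Agent.H42.SemfDefs

/-- Almost inclusion of subsets of `ℕ` given by characteristic functions. -/
def Sub (x y : ℕ → ZMod 2) : Prop := {n | x n = 1 ∧ y n ≠ 1}.Finite

/-- A nonempty family of infinite sets closed under almost supersets. -/
def Semifilter (S : Set (ℕ → ZMod 2)) : Prop :=
  S.Nonempty ∧ (∀ x ∈ S, {n | x n = 1}.Infinite) ∧ ∀ x ∈ S, ∀ y, Sub x y → y ∈ S

end Pool.Agent.H42.SemfDefs
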