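import Mathlib

/-! Order types of well-ordered shift orbits. -/

namespace Pool.Agent.H42.Shift

open Set Ordinal

/-- The real number whose binary digits are the `i`-th shift of `b`. -/
noncomputable def val (b : ℕ → Bool) (i : ℕ) : ℝ :=
  ∑' n, (if b (n + i) then 1 else 0) * (1 / 2 : ℝ) ^ (n + 1)

theorem hs : HasSum (fun n : ℕ => (1 / 2 : ℝ) ^ (n + 1)) 1 := by
  have := hasSum_geometric_two.mul_left (1 / 2)
  simpa [pow_succ, mul_comm] using this

theorem term_le (b : ℕ → Bool) (i n : ℕ) :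
    0 ≤ (if b (n + i) then 1 else 0) * (1 / 2 : ℝ) ^ (n + 1) ∧
    (if b (n + i) then 1 else 0) * (1 / 2 : ℝ) ^ (n + 1) ≤ (1 / 2 : ℝ) ^ (n + 1) := by
  split_ifs
  · rw [one_mul]; exact ⟨by positivity, le_rfl⟩
  · rw [zero_mul]; exact ⟨le_rfl, by positivity⟩

theorem summ (b : ℕ → Bool) (i : ℕ) :
    Summable fun n => (if b (n + i) then 1 else 0) * (1 / 2 : ℝ) ^ (n + 1) :=
  Summable.of_nonneg_of_le (fun n => (term_le b i n).1) (fun n => (term_le b i n).2) hs.summable

theorem val_nonneg (b : ℕ → Bool) (i : ℕ) : 0 ≤ val b i := tsum_nonneg fun n => (term_le b i n).1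

theorem val_le (b : ℕ → Bool) (i : ℕ) : val b i ≤ 1 :=
  hasSum_le (fun n => (term_le b i n).2) (summ b i).hasSum hs

theorem val_succ (b : ℕ → Bool) (i : ℕ) :
    val b i = ((if b i then 1 else 0) + val b (i + 1)) / 2 := by
  unfold val
  rw [(summ b i).tsum_eq_zero_add, add_div, ← tsum_div_const]
  congr 1
  · simp [div_eq_mul_inv]
  · congr 1
    funext n
    rw [show n + 1 + i = n + (i + 1) by omega, pow_succ _ (n + 1)]
    ring

theorem val_run (b : ℕ → Bool) (k : ℕ) : ∀ i, (∀ j < k, b (i + j) = true) →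
    1 - val b i = (1 - val b (i + k)) / 2 ^ k := by
  induction k with
  | zero => simp
  | succ k ih =>
    intro i h
    rw [ih i fun j hj => h j (Nat.lt_succ_of_lt hj), val_succ b (i + k),
      h k (Nat.lt_succ_self k), pow_succ, ← add_assoc]
    simp only [if_true]
    field_simp
    ring

theorem main (b : ℕ → Bool) [WellFoundedLT (range (val b))] {δ : Ordinal.{0}}
    (hδ : Order.IsSuccLimit δ) : typeLT (range (val b)) ≠ ω ^ δ := by
  classical
  intro ht
  have hnm : NoMaxOrder (range (val b)) := by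
    rw [← isSuccPrelimit_type_lt_iff, ht]
    exact (isSuccLimit_opow_left isSuccLimit_omega0 hδ.ne_bot).isSuccPrelimit
  have hgt : ∀ i, ∃ j, val b i < val b j := fun i => by
    obtain ⟨⟨_, j, rfl⟩, h⟩ := exists_gt (⟨_, i, rfl⟩ : range (val b))
    exact ⟨j, h⟩
  have hstar : ∃ j, 1 / 2 < val b j := by
    by_cases h : ∃ i, b i = true
    · obtain ⟨i, hi⟩ := h
      obtain ⟨j, hj⟩ := hgt i
      refine ⟨j, lt_of_le_of_lt ?_ hj⟩
      rw [val_succ, hi]
      simp only [if_true]
      linarith [val_nonneg b (i + 1)]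
    · obtain ⟨j, hj⟩ := hgt 0
      push Not at h
      simp [val, h] at hj
  obtain ⟨s, hs'⟩ := hstar
  have hk : ∀ i, ∃ k, b (i + k) = false := by
    intro i
    by_contra hc
    push Not at hc
    obtain ⟨j, hj⟩ := hgt i
    have : val b i = 1 := by
      rw [← hs.tsum_eq]
      unfold val
      congr 1
      funext n
      have := hc n
      rw [add_comm] at this
      simp [Bool.ne_false_iff.1 this]
    linarith [val_le b j]
  have hrep : ∀ a : range (val b), ∃ (k : ℕ) (c : Iio (⟨_, s, rfl⟩ : range (val b))),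
      c.1.1 ≤ 1 / 2 ∧ 1 - a.1 = (1 - c.1.1) / 2 ^ k := by
    rintro ⟨_, i, rfl⟩
    have h1 : val b (i + Nat.find (hk i)) ≤ 1 / 2 := by
      rw [val_succ, Nat.find_spec (hk i)]
      simp only [Bool.false_eq_true, if_false]
      linarith [val_le b (i + Nat.find (hk i) + 1)]
    exact ⟨Nat.find (hk i), ⟨⟨_, _, rfl⟩, h1.trans_lt hs'⟩, h1,
      val_run b _ i fun j hj => Bool.ne_false_iff.1 (Nat.find_min (hk i) hj)⟩
  choose k c h1 h2 using hrep
  have hle : typeLT (range (val b)) ≤ type (Prod.Lex (fun a b : ℕ => a < b)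
      (fun x y : Iio (⟨_, s, rfl⟩ : range (val b)) => x < y)) := by
    refine (RelEmbedding.ofMonotone (fun a => (k a, c a)) fun a a' h => ?_).ordinal_type_le
    have h' : a.1 < a'.1 := h
    have p1 : (0 : ℝ) ≤ (c a').1.1 := by
      obtain ⟨i, hi⟩ := (c a').1.2
      rw [← hi]; exact val_nonneg b i
    have p0 : (0 : ℝ) ≤ (c a).1.1 := by
      obtain ⟨i, hi⟩ := (c a).1.2
      rw [← hi]; exact val_nonneg b i
    have h3 : (1 - (c a').1.1) / 2 ^ k a' < (1 - (c a).1.1) / 2 ^ k a := by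
      rw [← h2, ← h2]; linarith
    rcases lt_trichotomy (k a) (k a') with h4 | h4 | h4
    · exact Prod.Lex.left _ _ h4
    · rw [h4] at h3 ⊢
      refine Prod.Lex.right _ ?_
      have := (div_lt_div_iff_of_pos_right (by positivity)).1 h3
      show (c a).1.1 < (c a').1.1
      linarith
    · exfalso
      refine h3.not_ge ?_
      rw [div_le_div_iff₀ (by positivity) (by positivity)]
      have h5 : (2 : ℝ) ^ (k a' + 1) ≤ 2 ^ k a := pow_le_pow_right₀ (by norm_num) h4
      rw [pow_succ] at h5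
      have h6 : (0 : ℝ) < 2 ^ k a' := by positivity
      nlinarith [h1 a']
  rw [type_prod_lex, ht] at hle
  have h3 : typeLT (Iio (⟨_, s, rfl⟩ : range (val b))) < ω ^ δ := by
    rw [← ht]
    exact typein_lt_type (fun a b : range (val b) => a < b) _
  obtain ⟨γ, h4, h5⟩ := (lt_opow_of_isSuccLimit omega0_ne_zero hδ).1 h3
  have h6 : ω ^ δ ≤ ω ^ (γ + 1) := by
    rw [opow_add_one]
    refine hle.trans ?_
    rw [type_nat_lt]
    gcongr
  exact ((opow_lt_opow_iff_right one_lt_omega0).2 (hδ.succ_lt h4)).not_ge h6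

end Pool.Agent.H42.Shift
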