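import Pool.Agent.H42.PolD
import Pool.Agent.H42.Reg

/-! `d = u = ℵ₁` implies `s_mm = ℵ₁`. -/

namespace Pool.Agent.H42.Smm

open Set Cardinal Filter Pool.Agent.H42.PolD

/-- the ultrafilter number, with bases modulo finite sets -/
noncomputable def uNum : Cardinal.{0} :=
  sInf {c | ∃ (U : Ultrafilter ℕ) (B : Set (Set ℕ)), (∀ n : ℕ, ({n} : Set ℕ) ∉ U) ∧ #B = c ∧
    (∀ b ∈ B, b ∈ U) ∧ ∀ A ∈ U, ∃ b ∈ B, (b \ A).Finite}

/-- ideal independent families of infinite subsets of `ℕ` -/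
def IdInd (I : Set (Set ℕ)) : Prop :=
  (∀ A ∈ I, A.Infinite) ∧ ∀ A ∈ I, ∀ F ⊆ I \ {A}, F.Finite → (A \ ⋃₀ F).Infinite

/-- the least size of an infinite maximal ideal independent family -/
noncomputable def smm : Cardinal.{0} := sInf {c | ∃ I, I.Infinite ∧ Maximal IdInd I ∧ #I = c}

theorem lower {I : Set (Set ℕ)} (h1 : I.Infinite) (h2 : Maximal IdInd I) : ℵ₁ ≤ #I := by
  rw [← succ_aleph0, Order.succ_le_iff, ← not_le, le_aleph0_iff_set_countable]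
  intro hc
  have := hc.to_subtype
  have := h1.to_subtype
  obtain ⟨d⟩ := nonempty_denumerable I
  let A : ℕ → Set ℕ := fun n => (Denumerable.ofNat I n).1
  have a1 : ∀ n, A n ∈ I := fun n => (Denumerable.ofNat I n).2
  have a2 : Function.Injective A := fun m n h =>
    (Denumerable.eqv I).symm.injective (Subtype.ext h)
  have a3 : ∀ X ∈ I, ∃ n, A n = X := fun X hX =>
    ⟨Encodable.encode (⟨X, hX⟩ : I), by simp [A]⟩
  choose x x1 x2 using fun k => (h2.1.2 _ (a1 (k + 1)) (A '' Iic k) (by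
    rintro _ ⟨n, hn, rfl⟩
    exact ⟨a1 n, fun h => by have := a2 h; have : n ≤ k := hn; omega⟩)
    ((finite_Iic k).image A)).exists_gt k
  have x3 : ∀ n, (range x ∩ A n).Finite := fun n => ((finite_lt_nat n).image x).subset (by
    rintro _ ⟨⟨k, rfl⟩, h⟩
    exact ⟨k, lt_of_not_ge (a := k) fun h' => (x1 k).2 ⟨_, ⟨n, h', rfl⟩, h⟩, rfl⟩)
  have x4 : (range x).Infinite := infinite_of_forall_exists_gt fun n => ⟨_, ⟨n, rfl⟩, x2 n⟩
  have x5 : ∀ Y ∈ I, (range x ∩ Y).Finite := fun Y hY => by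
    obtain ⟨n, rfl⟩ := a3 Y hY; exact x3 n
  refine x4 (inter_self (range x) ▸
    x5 _ (h2.2 (y := insert (range x) I) ⟨?_, ?_⟩ (subset_insert _ _) (mem_insert _ _)))
  · rintro Y (rfl | hY)
    exacts [x4, h2.1.1 Y hY]
  · rintro Y hY F hF hf
    by_cases h : Y = range x
    · subst h
      refine Set.Infinite.mono (fun y hy => ⟨hy.1, fun ⟨Z, h3, h4⟩ => hy.2 ?_⟩)
        (x4.sdiff (hf.biUnion (t := fun Z => range x ∩ Z) fun Z hZ =>
          x5 Z ((hF hZ).1.resolve_left (hF hZ).2)))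
      exact mem_biUnion h3 ⟨hy.1, h4⟩
    · have hY' := hY.resolve_left h
      refine Set.Infinite.mono (fun y hy => ⟨hy.1.1, fun ⟨Z, h3, h4⟩ => ?_⟩)
        ((h2.1.2 Y hY' (F \ {range x}) (fun Z hZ => ⟨(hF hZ.1).1.resolve_left hZ.2, (hF hZ.1).2⟩)
          hf.sdiff).sdiff (x5 Y hY'))
      by_cases h5 : Z = range x
      · exact hy.2 ⟨h5 ▸ h4, hy.1.1⟩
      · exact hy.1.2 ⟨Z, ⟨h3, h5⟩, h4⟩

theorem pseudo {U : Ultrafilter ℕ} (hU : ∀ n : ℕ, ({n} : Set ℕ) ∉ U) (𝒞 : Set (Set ℕ)) :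
    ∃ p : ℕ → ℕ, p.Injective ∧ range p ∉ U ∧
      (𝒞.Countable → ∀ C ∈ 𝒞, C ∈ U → (p ⁻¹' Cᶜ).Finite) := by
  have : ∃ e : ℕ → Set ℕ, (∀ n, e n ∈ U) ∧ (𝒞.Countable → ∀ C ∈ 𝒞, C ∈ U → ∃ n, e n = C) := by
    by_cases h : 𝒞.Countable
    · obtain ⟨e, he⟩ := ((h.mono (inter_subset_left (t := {C | C ∈ U}))).insert
        Set.univ).exists_eq_range (insert_nonempty _ _)
      refine ⟨e, fun n => ?_, fun _ C h1 h2 => ?_⟩
      · rcases (he ▸ mem_range_self n : e n ∈ insert Set.univ _) with h | h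
        exacts [h ▸ univ_mem, h.2]
      · exact (he ▸ Or.inr ⟨h1, h2⟩ : C ∈ range e)
    · exact ⟨fun _ => univ, fun _ => univ_mem, fun h' => absurd h' h⟩
  obtain ⟨e, e1, e2⟩ := this
  choose s s1 s2 using fun n m => (inf_of_mem hU
    ((biInter_mem (finite_le_nat n)).2 fun k _ => e1 k)).exists_gt m
  let q : ℕ → ℕ := fun n => Nat.rec (s 0 0) (fun k a => s (k + 1) a) n
  have q1 : StrictMono q := strictMono_nat_of_lt_succ fun n => s2 _ _
  have q2 : ∀ n k, k ≤ n → q n ∈ e k := fun n k h => by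
    cases n
    · exact mem_iInter₂.1 (s1 0 0) k h
    · exact mem_iInter₂.1 (s1 _ _) k h
  have key : ∀ r : ℕ → ℕ, StrictMono r → 𝒞.Countable → ∀ C ∈ 𝒞, C ∈ U →
      ((q ∘ r) ⁻¹' Cᶜ).Finite := fun r hr h C h1 h2 => by
    obtain ⟨k, rfl⟩ := e2 h C h1 h2
    exact (finite_lt_nat k).subset fun n hn => not_le.1 fun h' =>
      hn (q2 _ _ (h'.trans hr.le_apply))
  have r1 : StrictMono fun n : ℕ => 2 * n := fun _ _ h => by beta_reduce; omega
  have r2 : StrictMono fun n : ℕ => 2 * n + 1 := fun _ _ h => by beta_reduce; omega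
  by_cases h : range (q ∘ fun n => 2 * n) ∈ U
  · refine ⟨_, (q1.comp r2).injective, fun h' => ?_, key _ r2⟩
    obtain ⟨_, ⟨m, rfl⟩, n, hn⟩ := Ultrafilter.nonempty_of_mem (inter_mem h h')
    have : 2 * n + 1 = 2 * m := q1.injective hn
    omega
  · exact ⟨_, (q1.comp r1).injective, h, key _ r1⟩

theorem build {W : Type} [LinearOrder W] [WellFoundedLT W] (w1 : ∀ a : W, (Iic a).Countable)
    (w2 : #W = ℵ₁) {U : Ultrafilter ℕ} (hU : ∀ n : ℕ, ({n} : Set ℕ) ∉ U) {b : W → Set ℕ}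
    (b1 : ∀ a, b a ∈ U) (b2 : ∀ A ∈ U, ∃ a, b a ⊆ A) {g : W → ℕ → ℕ}
    (hg : ∀ f : ℕ → ℕ, ∃ a, ∀ n, f n ≤ g a n) :
    ∃ I, I.Infinite ∧ Maximal IdInd I ∧ #I = ℵ₁ := by
  classical
  have fin : ∀ {S : Set ℕ}, S.Finite → S ∉ U := fun h h' => inf_of_mem hU h' h
  have w3 : ∀ S : Set W, ¬ S.Countable → ∀ a, ∃ c ∈ S, a < c := fun S hS a => by
    by_contra h
    push Not at h
    exact hS ((w1 a).mono h)
  have w4 : ¬ (univ : Set W).Countable := by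
    rw [← le_aleph0_iff_set_countable, mk_univ, w2]; exact aleph0_lt_aleph_one.not_ge
  have w5 : ∀ f : ℕ → W, ∃ c, ∀ n, f n ≤ c := fun f => by
    by_contra h
    push Not at h
    exact w4 ((countable_iUnion fun n => w1 (f n)).mono fun c _ =>
      mem_iUnion.2 ((h c).imp fun _ => le_of_lt))
  choose e he using fun a : W => (w1 a).exists_eq_range nonempty_Iic
  obtain ⟨t⟩ : Nonempty (W ≃ (W × W × W) × W) := Cardinal.eq.1 (by simp [w2])
  have ht : ∀ τ a, ∃ c, (t c).1 = τ ∧ a < c := fun τ => w3 {c | (t c).1 = τ} fun h =>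
    w4 (Set.Countable.mono (fun a _ => (mem_image _ _ _).2 ⟨t.symm (τ, a), by simp, by simp⟩)
      (h.image fun c => (t c).2))
  choose ps p1 p2 p3 using pseudo hU
  let X : (W → ℕ → ℕ) → W × W × W → Set ℕ := fun p τ =>
    (b τ.1)ᶜ \ ⋃ n, p (e τ.1 n) '' ⋂ k ≤ g τ.2.2 n, b (e τ.2.1 k)
  let A : (W → ℕ → ℕ) → W → Set ℕ := fun p c =>
    (if (t c).1.1 < c then X p (t c).1 else ∅) ∪ range (p c)
  obtain ⟨p, hp⟩ := Reg.exists_rec id
    (fun c (p : W → ℕ → ℕ) => ps (b '' Iio c ∪ (fun a => (A p a)ᶜ) '' Iio c)) fun c p p' h => by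
      congr 2
      refine image_congr fun a ha => ?_
      simp only [A, h a ha]
      split_ifs with h1
      · simp only [X]
        congr 4
        funext n
        rw [h _ (lt_of_le_of_lt (show e _ n ∈ Iic _ from he _ ▸ mem_range_self n) (h1.trans ha))]
      · rfl
  have q1 : ∀ c, (p c).Injective := fun c => hp c ▸ p1 _
  have q2 : ∀ c, A p c ∉ U := fun c h => by
    rcases Ultrafilter.union_mem_iff.1 h with h | h
    · split_ifs at h
      · exact Ultrafilter.compl_notMem_iff.2 (b1 _) (mem_of_superset h sdiff_subset)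
      · exact fin finite_empty h
    · exact p2 _ (hp c ▸ h)
  have q3 : ∀ c, ∀ C ∈ b '' Iio c ∪ (fun a => (A p a)ᶜ) '' Iio c, C ∈ U →
      (p c ⁻¹' Cᶜ).Finite := fun c => by
    have := ((w1 c).mono Iio_subset_Iic_self)
    conv => enter [C, _, _]; rw [hp c]
    exact p3 _ ((this.image _).union (this.image _))
  have q4 : ∀ a c, a < c → (p c ⁻¹' (b a)ᶜ).Finite := fun a c h =>
    q3 c _ (Or.inl ⟨a, h, rfl⟩) (b1 a)
  have q5 : ∀ a c, a < c → (p c ⁻¹' A p a).Finite := fun a c h => by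
    simpa using q3 c _ (Or.inr ⟨a, h, rfl⟩) (Ultrafilter.compl_mem_iff_notMem.2 (q2 a))
  have q6 : ∀ a c, a ≠ c → p c ⁻¹' A p a ∉ U := fun a c h => by
    rcases h.lt_or_gt with h | h
    · exact fin (q5 a c h)
    · intro h1
      rcases Ultrafilter.union_mem_iff.1 h1 with h1 | h1
      · split_ifs at h1
        · rcases le_or_gt c (t a).1.1 with h2 | h2
          · obtain ⟨n, hn⟩ : c ∈ range (e (t a).1.1) := he _ ▸ mem_Iic.2 h2
            obtain ⟨m, h3, h4⟩ := Ultrafilter.nonempty_of_mem (inter_mem h1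
              ((biInter_mem (finite_le_nat (g (t a).1.2.2 n))).2 fun k _ => b1 (e (t a).1.2.1 k)))
            exact h3.2 (mem_iUnion.2 ⟨n, m, h4, by rw [hn]⟩)
          · exact fin (q4 _ c h2) (mem_of_superset h1 fun _ h => h.1)
        · exact fin finite_empty h1
      · refine fin (Finite.of_injOn (f := p c) ?_ (q1 c).injOn ((q5 c a h).image (p a))) h1
        rintro m ⟨n, hn⟩
        exact ⟨n, Or.inr ⟨m, hn.symm⟩, hn⟩
  have q7 : ∀ c, p c ⁻¹' A p c = Set.univ := fun c => eq_univ_of_forall fun n => Or.inr ⟨n, rfl⟩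
  have q8 : Function.Injective (A p) := fun a c h => by
    by_contra h'
    exact q6 a c h' (by rw [h, q7]; exact univ_mem)
  have q9 : ∀ Y : Set ℕ, (∀ c, p c ⁻¹' Y ∉ U) → ∀ a, ∃ c, a < c ∧ Y ⊆ A p c := by
    intro Y hY a
    have h1 : Y ∉ U := fun h => by
      obtain ⟨α, h1⟩ := b2 Y h
      obtain ⟨c, -, h2⟩ := w3 univ w4 α
      exact hY c (Ultrafilter.compl_notMem_iff.1
        (fin ((q4 α c h2).subset fun n hn h3 => hn (h1 h3))))
    obtain ⟨α, h2⟩ := b2 _ (Ultrafilter.compl_mem_iff_notMem.2 h1)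
    choose ζ hζ using fun n => b2 _ (Ultrafilter.compl_mem_iff_notMem.2 (hY (e α n)))
    obtain ⟨η, hη⟩ := w5 ζ
    choose k hk using fun n => (show ζ n ∈ range (e η) from he η ▸ mem_Iic.2 (hη n))
    obtain ⟨ξ, hξ⟩ := hg k
    obtain ⟨c, h3, h4⟩ := ht (α, η, ξ) (max a α)
    refine ⟨c, (le_max_left _ _).trans_lt h4, fun y hy => Or.inl ?_⟩
    rw [h3, if_pos ((le_max_right _ _).trans_lt h4)]
    refine ⟨fun h => h2 h hy, fun h => ?_⟩
    obtain ⟨n, m, h5, rfl⟩ := mem_iUnion.1 h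
    exact hζ n (hk n ▸ mem_iInter₂.1 h5 (k n) (hξ n)) hy
  have ind : ∀ c, ∀ F ⊆ range (A p) \ {A p c}, F.Finite → (A p c \ ⋃₀ F).Infinite := by
    intro c F hF hf
    have : ⋂ Z ∈ F, (p c ⁻¹' Z)ᶜ ∈ U := (biInter_mem hf).2 fun Z hZ => by
      obtain ⟨⟨a, rfl⟩, h⟩ := hF hZ
      exact Ultrafilter.compl_mem_iff_notMem.2 (q6 a c fun h' => h (h' ▸ rfl))
    refine Set.Infinite.mono ?_ ((inf_of_mem hU this).image (q1 c).injOn)
    rintro _ ⟨n, hn, rfl⟩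
    exact ⟨Or.inr ⟨n, rfl⟩, fun ⟨Z, h1, h2⟩ => mem_iInter₂.1 hn Z h1 h2⟩
  have : Infinite W := by rw [infinite_iff, w2]; exact aleph0_lt_aleph_one.le
  refine ⟨range (A p), infinite_range_of_injective q8, ⟨⟨?_, ?_⟩, fun J hJ h1 Y hY => ?_⟩,
    by rw [mk_range_eq _ q8, w2]⟩
  · rintro _ ⟨c, rfl⟩
    simpa using ind c ∅ (empty_subset _) finite_empty
  · rintro _ ⟨c, rfl⟩
    exact ind c
  · by_contra h2
    by_cases h3 : ∃ a, p a ⁻¹' Y ∈ U
    · obtain ⟨a, h3⟩ := h3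
      obtain ⟨c, h4, h5⟩ := q9 (A p a \ Y) (fun c h => by
        by_cases h4 : a = c
        · subst h4
          exact Ultrafilter.compl_notMem_iff.2 h3 (mem_of_superset h fun _ h => h.2)
        · exact q6 a c h4 (mem_of_superset h fun _ h => h.1)) a
      refine hJ.2 _ (h1 ⟨a, rfl⟩) {Y, A p c} ?_ (toFinite _) (finite_empty.subset fun y hy => ?_)
      · rintro _ (rfl | rfl)
        exacts [⟨hY, fun h => h2 ⟨a, h.symm⟩⟩, ⟨h1 ⟨c, rfl⟩, fun h => h4.ne' (q8 h)⟩]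
      · exact hy.2 ⟨_, Or.inr rfl, h5 ⟨hy.1, fun h => hy.2 ⟨_, Or.inl rfl, h⟩⟩⟩
    · push Not at h3
      obtain ⟨c, -, h5⟩ := q9 Y h3 (Classical.arbitrary W)
      refine hJ.2 _ hY {A p c} ?_ (toFinite _) (finite_empty.subset fun y hy => ?_)
      · rintro _ rfl
        exact ⟨h1 ⟨c, rfl⟩, fun h => h2 ⟨c, h⟩⟩
      · exact hy.2 ⟨_, rfl, h5 hy.1⟩

theorem smm_eq (hd : dNum = ℵ₁) (hu : uNum = ℵ₁) : smm = ℵ₁ := by
  let W := (ℵ₁ : Cardinal.{0}).ord.ToType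
  have w2 : #W = ℵ₁ := mk_ord_toType _
  have sur : ∀ {α : Type} [Nonempty α], #α = ℵ₁ → ∃ f : W → α × ℕ, f.Surjective := by
    intro α _ h
    obtain ⟨f⟩ : Nonempty (W ≃ α × ℕ) := Cardinal.eq.1 (by simp [w2, h])
    exact ⟨f, f.surjective⟩
  obtain ⟨U, B, hU, hB, b1, b2⟩ : ∃ (U : Ultrafilter ℕ) (B : Set (Set ℕ)),
      (∀ n : ℕ, ({n} : Set ℕ) ∉ U) ∧ #B = uNum ∧ (∀ b ∈ B, b ∈ U) ∧
      ∀ A ∈ U, ∃ b ∈ B, (b \ A).Finite :=
    csInf_mem (s := {c | ∃ (U : Ultrafilter ℕ) (B : Set (Set ℕ)),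
      (∀ n : ℕ, ({n} : Set ℕ) ∉ U) ∧ #B = c ∧ (∀ b ∈ B, b ∈ U) ∧
      ∀ A ∈ U, ∃ b ∈ B, (b \ A).Finite}) ⟨_, hyperfilter ℕ, {b | b ∈ hyperfilter ℕ},
        fun n => (finite_singleton n).notMem_hyperfilter, rfl, fun _ h => h,
        fun A h => ⟨A, h, by simp⟩⟩
  obtain ⟨F, hF, f1⟩ := ex_dom
  have : Nonempty B := by obtain ⟨b, h, -⟩ := b2 _ univ_mem; exact ⟨⟨b, h⟩⟩
  have : Nonempty F := by obtain ⟨f, h, -⟩ := f1 id; exact ⟨⟨f, h⟩⟩
  obtain ⟨β, hβ⟩ := sur (hB.trans hu)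
  obtain ⟨γ, hγ⟩ := sur (hF.trans hd)
  obtain ⟨I, h⟩ := build (W := W) (fun a => by
      rw [← le_aleph0_iff_set_countable, ← Order.lt_succ_iff, succ_aleph0]
      exact (mk_Iic_lt a (by simp [W]) (aleph0_lt_aleph_one.le.trans_eq w2.symm)).trans_eq w2)
    w2 hU
    (b := fun a => (β a).1.1 \ Iio (β a).2)
    (fun a => inter_mem (b1 _ (β a).1.2) (Ultrafilter.compl_mem_iff_notMem.2 fun h =>
      inf_of_mem hU h (finite_Iio _)))
    (fun A hA => by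
      obtain ⟨b, h1, h2⟩ := b2 A hA
      obtain ⟨N, hN⟩ := h2.bddAbove
      obtain ⟨a, ha⟩ := hβ (⟨b, h1⟩, N + 1)
      refine ⟨a, fun x hx => ?_⟩
      rw [ha] at hx
      by_contra h3
      exact hx.2 (Nat.lt_succ_of_le (hN ⟨hx.1, h3⟩)))
    (g := fun a n => (γ a).1.1 n + (γ a).2) (fun f => by
      obtain ⟨g, h1, h2⟩ := f1 f
      obtain ⟨N, hN⟩ := eventually_atTop.1 h2
      obtain ⟨a, ha⟩ := hγ (⟨g, h1⟩, ∑ m ∈ Finset.range N, f m)
      refine ⟨a, fun n => ?_⟩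
      rw [ha]
      rcases le_or_gt N n with h | h
      · exact (hN n h).trans (Nat.le_add_right _ _)
      · exact (Finset.single_le_sum (f := f) (fun _ _ => Nat.zero_le _)
          (Finset.mem_range.2 h)).trans (Nat.le_add_left _ _))
  refine le_antisymm (csInf_le' ⟨I, h⟩) (le_csInf ⟨_, I, h⟩ ?_)
  rintro _ ⟨J, h1, h2, rfl⟩
  exact lower h1 h2

end Pool.Agent.H42.Smm
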