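import Pool.Agent.H42.SokDefs

/-! A continuous image of a monotonically Sokolov space that is not monotonically Sokolov. -/

namespace Pool.Agent.H42.Sok1

open Set Filter Topology Pool.Agent.H42.SokDefs

theorem main : ∃ (X Y : Type) (_ : TopologicalSpace X) (_ : TopologicalSpace Y),
    T35Space X ∧ T35Space Y ∧ (∃ r : Set (Set X) → X → X, ∃ N, Sok r N ∧ OmegaCont N) ∧
    (∃ f : X → Y, Continuous f ∧ Function.Surjective f) ∧
    ¬ ∃ r : Set (Set Y) → Y → Y, ∃ N, Sok r N := by
  classical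
  let J := ℝ ⊕ ℚ × ℚ
  let ψ : Option J → {s : Set J // s.Countable} → Bool := fun x s => decide (x ∈ some '' s.1)
  let τ : TopologicalSpace (Option J) := .induced ψ inferInstance
  have he : IsEmbedding ψ := ⟨⟨rfl⟩, by
    rintro (_ | a) (_ | b) h
    · rfl
    · simpa [ψ] using congrFun h ⟨{b}, countable_singleton b⟩
    · simpa [ψ] using congrFun h ⟨{a}, countable_singleton a⟩
    · simpa [ψ] using congrFun h ⟨{a}, countable_singleton a⟩ |>.symm⟩
  have hc : ∀ s : Set J, s.Countable → IsClopen (some '' s) := fun s hs => by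
    convert (isClopen_discrete {true}).preimage ((continuous_apply ⟨s, hs⟩).comp he.continuous)
    ext x
    exact decide_eq_true_iff.symm
  have hn : ∀ U ∈ 𝓝 (none : Option J), Uᶜ.Countable := fun U hU => by
    rw [he.nhds_eq_comap, nhds_pi] at hU
    obtain ⟨V, hV, hVU⟩ := hU
    obtain ⟨I, v, hv, hI⟩ := Filter.mem_pi'.1 hV
    refine (I.countable_toSet.biUnion fun s _ => s.2.image some).mono fun x hx => by_contra fun c =>
      hx (hVU (hI fun s hs => ?_))
    have : ψ x s = ψ none s := by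
      simp only [ψ, decide_eq_decide]
      exact iff_of_false (fun e => c (mem_biUnion hs e)) (by simp)
    exact this ▸ mem_of_mem_nhds (hv s)
  have hg : ∀ {Z : Type} [TopologicalSpace Z] (g : Option J → Z), ContinuousAt g none →
      Continuous g := fun g h => continuous_iff_continuousAt.2 fun x => by
    rcases x with _ | a
    · exact h
    · have := (hc {a} (countable_singleton a)).2
      rw [image_singleton, isOpen_singleton_iff_nhds_eq_pure] at this
      exact (tendsto_pure_nhds g _).mono_left this.le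
  let S : Option J → Set ℝ := fun x => x.elim ∅ fun j => j.elim (fun t => {t})
    fun q : ℚ × ℚ => Ioo (q.1 : ℝ) q.2
  let φ : Option J → ℝ → Bool := fun x t => decide (t ∈ S x)
  let A : Set (Set (Option J)) → Set J := fun 𝓕 => ⋃ F ∈ {F ∈ 𝓕 | none ∉ F}, some ⁻¹' F
  have hA : ∀ 𝓕, Adm 𝓕 → (A 𝓕).Countable := fun 𝓕 h =>
    (h.1.mono (sep_subset _ _)).biUnion fun F hF => (compl_compl F ▸ hn Fᶜ
      ((h.2 F hF.1).isOpen_compl.mem_nhds hF.2)).preimage (Option.some_injective _)
  refine ⟨Option J, range φ, τ, inferInstance, he.t35Space, inferInstance,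
    ⟨fun 𝓕 x => if x ∈ some '' A 𝓕 then x else none,
      fun 𝓕 => singleton '' insert none (some '' A 𝓕), ⟨fun 𝓕 h => hg _ ?_, fun 𝓕 _ x => ?_,
        fun 𝓕 h => (((hA 𝓕 h).image _).insert _).image _, fun 𝓕 _ a ⟨x, hx⟩ U _ hU => ?_,
        fun 𝓕 _ F hF x hx => ?_, fun 𝓕 𝓖 _ _ h => image_mono (insert_subset_insert (image_mono
          (biUnion_subset_biUnion_left fun F hF => ⟨h hF.1, hF.2⟩)))⟩, fun 𝓕 _ _ => ?_⟩,
    ⟨rangeFactorization φ, (hg φ (continuousAt_pi.2 fun t => ?_)).subtype_mk _,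
      rangeFactorization_surjective⟩, fun ⟨r, N, h⟩ => ?_⟩
  · refine (continuousAt_const (y := none)).congr ?_
    filter_upwards [(hc _ (hA 𝓕 h)).compl.2.mem_nhds (x := none) (by simp)] with x hx
    exact (if_neg hx).symm
  · split_ifs with a b <;> simp_all
  · refine ⟨{a}, ⟨a, ?_, rfl⟩, rfl, singleton_subset_iff.2 hU⟩
    rw [← hx]
    beta_reduce
    split_ifs with c
    exacts [Or.inr c, Or.inl rfl]
  · beta_reduce
    split_ifs with c
    · exact hx
    · by_contra e
      rcases x with _ | a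
      exacts [e hx, c ⟨a, mem_biUnion ⟨hF, e⟩ hx, rfl⟩]
  · rw [← image_iUnion, ← insert_iUnion, ← image_iUnion]
    refine congrArg (fun B => singleton '' insert none (some '' B)) (Set.ext fun a => ?_)
    simp only [A, mem_iUnion, mem_ofPred_eq, exists_prop]
    exact ⟨fun ⟨F, ⟨⟨n, a⟩, b⟩, c⟩ => ⟨n, F, ⟨a, b⟩, c⟩, fun ⟨n, F, ⟨a, b⟩, c⟩ => ⟨F, ⟨⟨n, a⟩, b⟩, c⟩⟩
  · refine (continuousAt_const (y := false)).congr ?_
    filter_upwards [(hc _ ((countable_range (Sum.inr : ℚ × ℚ → J)).insert (.inl t))).compl.2.mem_nhds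
      (x := none) (by simp)] with x hx
    rcases x with _ | s | q
    · simp [φ, S]
    · exact (decide_eq_false fun e : t = s => hx ⟨_, Or.inl rfl, e ▸ rfl⟩).symm
    · simp at hx
  let y : J → range φ := fun j => ⟨_, some j, rfl⟩
  have ha : Adm (range fun q : ℚ × ℚ => ({y (.inr q)} : Set (range φ))) :=
    ⟨countable_range _, forall_mem_range.2 fun _ => isClosed_singleton⟩
  have hr : ∀ t, r _ (y (.inl t)) = y (.inl t) := fun t => by
    refine closure_minimal (s := range fun q => y (.inr q)) (t := {z | r _ z = z}) (a := y (.inl t))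
      (forall_mem_range.2 fun q =>
      h.inv _ ha _ ⟨q, rfl⟩ rfl) (isClosed_eq (h.cont _ ha) continuous_id) ?_
    refine mem_closure_iff_nhds.2 fun U hU => ?_
    obtain ⟨V, hV, hVU⟩ := (mem_nhds_subtype _ _ _).1 hU
    rw [nhds_pi] at hV
    obtain ⟨I, v, hv, hI⟩ := Filter.mem_pi'.1 hV
    obtain ⟨a, b, h1, h2⟩ := mem_nhds_iff_exists_Ioo_subset.1
      ((I.finite_toSet.sdiff (t := {t})).isClosed.isOpen_compl.mem_nhds fun c => c.2 rfl)
    obtain ⟨p, p1, p2⟩ := exists_rat_btwn h1.1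
    obtain ⟨q, q1, q2⟩ := exists_rat_btwn h1.2
    refine ⟨y (.inr (p, q)), hVU (hI fun s hs => ?_), _, rfl⟩
    have : (y (.inr (p, q))).1 s = (y (.inl t)).1 s := decide_eq_decide.2
      ⟨fun c => by_contra fun e => h2 ⟨p1.trans c.1, c.2.trans q2⟩ ⟨hs, e⟩,
        fun c => (mem_singleton_iff.1 c).symm ▸ ⟨p2, q1⟩⟩
    exact this ▸ mem_of_mem_nhds (hv s)
  choose M m1 m2 m3 using fun t : ℝ => h.net _ ha _ ⟨_, hr t⟩ {z | z.1 t = true}
    ((isOpen_discrete {true}).preimage (f := fun z : range φ => z.1 t)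
      ((continuous_apply (A := fun _ : ℝ => Bool) t).comp continuous_subtype_val))
    (decide_eq_true (mem_singleton t))
  refine Set.not_countable_univ (MapsTo.countable_of_injOn (f := M) (fun t _ => m1 t)
    (fun s _ t _ e => ?_) (h.count _ ha))
  exact of_decide_eq_true (m3 s (e ▸ m2 t))

end Pool.Agent.H42.Sok1
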