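import Mathlib

/-! Monotonically Sokolov spaces. -/

namespace Pool.Agent.H42.SokDefs

open Set

variable {X : Type} [TopologicalSpace X]

/-- Countable families of closed sets. -/
def Adm (𝓕 : Set (Set X)) : Prop := 𝓕.Countable ∧ ∀ F ∈ 𝓕, IsClosed F

/-- The assignments `r`, `N` witness the monotone Sokolov property. -/
structure Sok (r : Set (Set X) → X → X) (N : Set (Set X) → Set (Set X)) : Prop where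
  cont : ∀ 𝓕, Adm 𝓕 → Continuous (r 𝓕)
  retr : ∀ 𝓕, Adm 𝓕 → ∀ x, r 𝓕 (r 𝓕 x) = r 𝓕 x
  count : ∀ 𝓕, Adm 𝓕 → (N 𝓕).Countable
  net : ∀ 𝓕, Adm 𝓕 → ∀ a ∈ range (r 𝓕), ∀ U, IsOpen U → a ∈ U → ∃ M ∈ N 𝓕, a ∈ M ∧ M ⊆ U
  inv : ∀ 𝓕, Adm 𝓕 → ∀ F ∈ 𝓕, MapsTo (r 𝓕) F F
  mono : ∀ 𝓕 𝓖, Adm 𝓕 → Adm 𝓖 → 𝓕 ⊆ 𝓖 → N 𝓕 ⊆ N 𝓖

/-- `N` commutes with unions of increasing sequences. -/
def OmegaCont (N : Set (Set X) → Set (Set X)) : Prop :=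
  ∀ 𝓕 : ℕ → Set (Set X), (∀ n, Adm (𝓕 n)) → Monotone 𝓕 → N (⋃ n, 𝓕 n) = ⋃ n, N (𝓕 n)

end Pool.Agent.H42.SokDefs
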