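import Pool.Agent.H42.SplDefs
import Pool.Agent.H42.PolO1

/-! Indexed form of `Split(Λ, Λ)` and the counterexample from `d < r`. -/

namespace Pool.Agent.H42.Spl

open Set Filter Cardinal Topology Pool.Agent.H42.Tau Pool.Agent.H42.PolD

def ISplit (Z : Type) [TopologicalSpace Z] : Prop :=
  ∀ U : ℕ → Set Z, (∀ n, IsOpen (U n)) → (∀ z, {n | z ∈ U n}.Infinite) →
    ∃ A, ∀ z, ({n | z ∈ U n} ∩ A).Infinite ∧ ({n | z ∈ U n} \ A).Infinite

variable {Z : Type} [TopologicalSpace Z]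

lemma Large.sub {𝒰 𝒱 : Set (Set Z)} (h : Large 𝒰) (h1 : 𝒱 ⊆ 𝒰)
    (h2 : ∀ z, {U | U ∈ 𝒱 ∧ z ∈ U}.Infinite) : Large 𝒱 :=
  ⟨⟨fun U hU => h.1.1 U (h1 hU), eq_univ_of_forall fun x => (h2 x).nonempty,
    fun h' => h.1.2.2 (h1 h')⟩, h2⟩

lemma ISplit.split [SecondCountableTopology Z] (h : ISplit Z) : SplitL Z := fun 𝒰 hU => by
  rcases isEmpty_or_nonempty Z with h0 | h0
  · exact ⟨𝒰, ∅, union_empty _, disjoint_empty _, ⟨𝒰, Subset.rfl, hU⟩, ∅, Subset.rfl,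
      Large.sub hU (empty_subset _) fun z => isEmptyElim z⟩
  obtain ⟨𝒱, h1, h2, h3⟩ := count_large hU
  have := h2.to_subtype
  have := ((h3 (Classical.arbitrary Z)).mono fun _ h => h.1).to_subtype
  obtain ⟨f⟩ := nonempty_equiv_of_countable (α := ℕ) (β := 𝒱)
  have hf : Function.Injective fun n => (f n).1 := Subtype.val_injective.comp f.injective
  obtain ⟨A, hA⟩ := h (fun n => f n) (fun n => hU.1.1 _ (h1 (f n).2)) fun z hz =>
    h3 z ((hz.image fun n => (f n).1).subset fun U hU =>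
      ⟨f.symm ⟨U, hU.1⟩, by simpa using hU.2, by simp⟩)
  have hs : ∀ B, (fun n => (f n).1) '' B ⊆ 𝒰 := fun B => image_subset_iff.2 fun n _ => h1 (f n).2
  refine ⟨_, 𝒰 \ _, union_sdiff_cancel (hs A), disjoint_sdiff_right,
    ⟨_, Subset.rfl, Large.sub hU (hs A) fun z => ((hA z).1.image hf.injOn).mono ?_⟩,
    (fun n => (f n).1) '' Aᶜ, subset_sdiff.2 ⟨hs _, (disjoint_image_iff hf).2 disjoint_compl_left⟩,
    Large.sub hU (hs _) fun z => ((hA z).2.image hf.injOn).mono ?_⟩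
  all_goals exact image_subset_iff.2 fun n hn => ⟨⟨n, hn.2, rfl⟩, hn.1⟩

lemma SplitL.isplit (h : SplitL Z) : ISplit Z := fun V h1 h2 => by
  obtain ⟨⟨A, B⟩, ⟨m1, m2⟩, hm⟩ := zorn_le₀ {P : Set ℕ × Set ℕ | Disjoint P.1 P.2 ∧
    ∀ z, ∀ k ∈ P.1 ∪ P.2, z ∈ V k → ({n | z ∈ V n} ∩ P.1).Infinite ∧
      ({n | z ∈ V n} ∩ P.2).Infinite} fun c hc hch => ⟨(⋃ P ∈ c, P.1, ⋃ P ∈ c, P.2), ⟨by
        simp only [disjoint_iUnion₂_left, disjoint_iUnion₂_right]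
        exact fun P hP Q hQ => (hch.total hP hQ).elim (fun h => (hc hQ).1.mono_right h.2)
          fun h => (hc hP).1.mono_left h.1, fun z k hk hz => by
        obtain ⟨P, hP, h⟩ : ∃ P ∈ c, k ∈ P.1 ∪ P.2 := by
          rcases hk with hk | hk <;> obtain ⟨P, a, b⟩ := mem_iUnion₂.1 hk
          exacts [⟨P, a, Or.inl b⟩, ⟨P, a, Or.inr b⟩]
        exact ((hc hP).2 z k h hz).imp
          (·.mono (inter_subset_inter_right _ (subset_biUnion_of_mem (u := Prod.fst) hP)))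
          (·.mono (inter_subset_inter_right _ (subset_biUnion_of_mem (u := Prod.snd) hP)))⟩,
      fun P hP => Prod.le_def.2 ⟨subset_biUnion_of_mem (u := Prod.fst) hP,
        subset_biUnion_of_mem (u := Prod.snd) hP⟩⟩
  dsimp only at m1 m2
  let O := ⋃ k ∈ A ∪ B, V k
  have hO : ∀ z ∈ O, ({n | z ∈ V n} ∩ A).Infinite ∧ ({n | z ∈ V n} ∩ B).Infinite := fun z hz => by
    obtain ⟨k, a, b⟩ := mem_iUnion₂.1 hz
    exact m2 z k a b
  by_cases h0 : ∀ z, z ∈ O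
  · exact ⟨A, fun z => (hO z (h0 z)).imp_right (·.mono fun n hn =>
      ⟨hn.1, fun h' => disjoint_left.1 m1 h' hn.2⟩)⟩
  obtain ⟨z0, hz0⟩ := not_forall.1 h0
  have hfin : ∀ W, {k | k ∉ A ∪ B ∧ V k ∪ O = W}.Finite := fun W => by
    by_contra hc
    obtain ⟨M, a1, a2, a3⟩ := two hc
    have key : ∀ z, ∀ k, k ∉ A ∪ B ∧ V k ∪ O = W → z ∈ V k → z ∉ O →
        {k | k ∉ A ∪ B ∧ V k ∪ O = W} ⊆ {n | z ∈ V n} := fun z k a b c j hj =>
      ((hj.2.trans a.2.symm).ge (Or.inl b)).resolve_right c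
    have := hm (y := (A ∪ M, B ∪ ({k | k ∉ A ∪ B ∧ V k ∪ O = W} \ M))) ⟨disjoint_left.2 ?_,
      fun z k hk hz => ?_⟩ ⟨subset_union_left, subset_union_left⟩
    · obtain ⟨k, hk⟩ := a2.nonempty
      exact (a1 hk).1 (Or.inl (this.1 (Or.inr hk)))
    · rintro k (a | a) (b | b)
      exacts [disjoint_left.1 m1 a b, b.1.1 (Or.inl a), (a1 a).1 (Or.inr b), b.2 a]
    by_cases hz' : z ∈ O
    · exact (hO z hz').imp (·.mono (inter_subset_inter_right _ subset_union_left))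
        (·.mono (inter_subset_inter_right _ subset_union_left))
    have hk' : k ∉ A ∪ B ∧ V k ∪ O = W := by
      rcases hk with (a | a) | a | a
      exacts [(hz' (mem_iUnion₂.2 ⟨k, Or.inl a, hz⟩)).elim, a1 a,
        (hz' (mem_iUnion₂.2 ⟨k, Or.inr a, hz⟩)).elim, a.1]
    exact ⟨a2.mono fun j hj => ⟨key z k hk' hz hz' (a1 hj), Or.inr hj⟩,
      a3.mono fun j hj => ⟨key z k hk' hz hz' hj.1, Or.inr hj⟩⟩
  let 𝒰 := (fun k => V k ∪ O) '' (A ∪ B)ᶜ \ {Set.univ}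
  have hl : ∀ z ∉ O, {U | U ∈ 𝒰 ∧ z ∈ U}.Infinite := fun z hz hf =>
    h2 z (((hf.insert Set.univ).biUnion fun W _ => hfin W).subset fun k hk => by
      have : k ∉ A ∪ B := fun h' => hz (mem_iUnion₂.2 ⟨k, h', hk⟩)
      refine mem_iUnion₂.2 ⟨_, ?_, this, rfl⟩
      by_cases e : V k ∪ O = Set.univ
      exacts [Or.inl e, Or.inr ⟨⟨⟨k, this, rfl⟩, e⟩, Or.inl hk⟩])
  have hl' : ∀ z, {U | U ∈ 𝒰 ∧ z ∈ U}.Infinite := fun z => by
    by_cases hz : z ∈ O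
    · refine (hl z0 hz0).mono ?_
      rintro _ ⟨⟨⟨k, a, rfl⟩, b⟩, -⟩
      exact ⟨⟨⟨k, a, rfl⟩, b⟩, Or.inr hz⟩
    · exact hl z hz
  obtain ⟨𝒱, 𝒲, a1, a2, ⟨𝒱', a3, a4⟩, 𝒲', a5, a6⟩ := h 𝒰 ⟨⟨by
    rintro _ ⟨⟨k, -, rfl⟩, -⟩
    exact (h1 k).union (isOpen_biUnion fun k _ => h1 k),
    eq_univ_of_forall fun z => (hl' z).nonempty, fun h => h.2 rfl⟩, hl'⟩
  refine ⟨A ∪ {k | k ∉ A ∪ B ∧ V k ∪ O ∈ 𝒱}, fun z => ?_⟩
  by_cases hz : z ∈ O
  · exact (hO z hz).imp (·.mono (inter_subset_inter_right _ subset_union_left))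
      (·.mono fun n hn => ⟨hn.1, fun h' => h'.elim (fun h' => disjoint_left.1 m1 h' hn.2)
        fun h' => h'.1 (Or.inr hn.2)⟩)
  refine ⟨fun hf => a4.2 z ((hf.image fun k => V k ∪ O).subset fun W hW => ?_),
    fun hf => a6.2 z ((hf.image fun k => V k ∪ O).subset fun W hW => ?_)⟩
  · obtain ⟨⟨k, a, rfl⟩, -⟩ : W ∈ 𝒰 := a1 ▸ Or.inl (a3 hW.1)
    exact ⟨k, ⟨hW.2.resolve_right hz, Or.inr ⟨a, a3 hW.1⟩⟩, rfl⟩
  · obtain ⟨⟨k, a, rfl⟩, -⟩ : W ∈ 𝒰 := a1 ▸ Or.inr (a5 hW.1)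
    exact ⟨k, ⟨hW.2.resolve_right hz, fun h' => h'.elim (fun h' => a (Or.inl h'))
      fun h' => disjoint_left.1 a2 h'.2 (a5 hW.1)⟩, rfl⟩

theorem neg (h : dNum < rNum) : ¬ProdQ := fun hQ => by
  obtain ⟨D, h1, h2⟩ := ex_dom
  have h3 : ISplit D := fun U _ a => by
    by_contra! hc
    refine (mk_range_le.trans_lt (h1.trans_lt h)).not_ge (csInf_le'
      ⟨range fun y : D => {n | y ∈ U n}, rfl, forall_mem_range.2 a, fun A => ?_⟩)
    obtain ⟨y, hy⟩ := hc A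
    exact ⟨_, ⟨y, rfl⟩, (Set.finite_or_infinite _).symm.imp hy id⟩
  obtain ⟨A, hA⟩ := (hQ (ℕ → Bool) D h3.split).isplit (fun n => {z | z.1 n = true ∨
    ∃ k j, z.2.1 k = j ∧ ∀ m ∈ Icc k (k + j), z.1 m = false}) (fun n => by
      have o : ∀ m b, IsOpen {z : (ℕ → Bool) × D | z.1 m = b} := fun m b =>
        (isOpen_discrete {b}).preimage (f := fun z : (ℕ → Bool) × D => z.1 m) (by fun_prop)
      simp only [ofPred_or, ofPred_exists, ofPred_and]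
      refine (o _ _).union (isOpen_iUnion fun k => isOpen_iUnion fun j => IsOpen.inter
        ((isOpen_discrete {j}).preimage (f := fun z : (ℕ → Bool) × D => z.2.1 k)
          ((continuous_apply k).comp (continuous_subtype_val.comp continuous_snd))) ?_)
      convert (finite_Icc k (k + j)).isOpen_biInter fun m _ => o m false using 1
      ext; simp) fun z => by
    by_cases h : ∃ k j, z.2.1 k = j ∧ ∀ m ∈ Icc k (k + j), z.1 m = false
    · exact infinite_univ.mono fun n _ => Or.inr h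
    refine infinite_of_forall_exists_gt fun k => ?_
    push Not at h
    obtain ⟨m, a, b⟩ := h (k + 1) _ rfl
    exact ⟨m, Or.inl (by simpa using b), a.1⟩
  obtain ⟨f0, hf0, -⟩ := h2 id
  obtain ⟨s, hs⟩ := ex_next ((hA (fun _ => true, ⟨f0, hf0⟩)).1.mono inter_subset_right)
  obtain ⟨f, hf, h4⟩ := h2 s
  obtain ⟨N, hN⟩ := eventually_atTop.1 h4
  classical
  refine (hA (fun m => decide (m ∈ A ∨ m < N), ⟨f, hf⟩)).2 ((finite_lt_nat N).subset ?_)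
  rintro n ⟨a | ⟨k, _, rfl, a⟩, b⟩
  · simpa [b] using a
  by_cases hk : k < N
  · simpa [hk] using a k (by simp)
  · have := hN k (not_lt.1 hk)
    simpa [(hs k).1] using a (s k) ⟨(hs k).2, by dsimp only; omega⟩

end Pool.Agent.H42.Spl
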