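import Pool.Agent.H42.Spl1

/-! `u < g` implies that `Split(Λ, Λ)` is preserved by products with compact spaces. -/

namespace Pool.Agent.H42.Spl

open Set Filter Cardinal Topology Pool.Agent.H42.Tau Pool.Agent.H42.PolD Pool.Agent.H42.PolO

lemma gd {Y : Type} (Ψ : Y → Set ℕ) (hΨ : ∀ q : ℕ → ℕ, StrictMono q →
    ∃ y, {k | ∀ n ∈ Ψ y, n ∉ Ico (q k) (q (k + 1))}.Infinite) {b : Set ℕ} (hb : b.Infinite) :
    GD {Z | Z.Infinite ∧ ∃ y N, ∀ n ∈ Ψ y, N ≤ n → ∃ m ∈ b, ∀ z ∈ Z, z ≤ n ↔ z ≤ m} := by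
  refine ⟨fun _ h => h.1, fun Z ⟨h1, y, N, h2⟩ Z' h3 h4 => ⟨h3, ?_⟩, fun p hp => ?_⟩
  · obtain ⟨M, hM⟩ := h4.bddAbove
    obtain ⟨z0, a1, a2⟩ := h1.exists_gt M
    refine ⟨y, max N z0, fun n hn h => ?_⟩
    obtain ⟨m, a3, a4⟩ := h2 n hn (le_of_max_le_left h)
    refine ⟨m, a3, fun z hz => ?_⟩
    by_cases h' : z ∈ Z
    · exact a4 z h'
    have a5 := le_of_max_le_right h
    have a6 := (a4 z0 a1).1 a5
    have := hM ⟨hz, h'⟩
    omega
  obtain ⟨s, hs⟩ := ex_next hb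
  let t : ℕ → ℕ := fun k => (fun j => s (p (j + 1)) + 1)^[k] 0
  have ht : ∀ k, t (k + 1) = s (p (t k + 1)) + 1 := fun k => Function.iterate_succ_apply' _ _ _
  have ht' : StrictMono t := strictMono_nat_of_lt_succ fun k => by
    have := (hs (p (t k + 1))).2
    have := hp.le_apply (x := t k + 1)
    rw [ht]; omega
  obtain ⟨y, hy⟩ := hΨ (p ∘ t) (hp.comp ht')
  refine ⟨_, hy.image ht'.injective.injOn, (hy.image (hp.comp ht').injective.injOn).mono ?_, ?_⟩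
  · rintro _ ⟨k, hk, rfl⟩
    exact mem_iUnion₂.2 ⟨_, ⟨k, hk, rfl⟩, le_rfl, hp (Nat.lt_succ_self _)⟩
  obtain ⟨k0, h0⟩ := hy.nonempty
  refine ⟨y, p (t k0), fun n hn h => ?_⟩
  obtain ⟨k, ⟨a1, a2⟩, a3⟩ := exists_max_image
    {k | (∀ n ∈ Ψ y, n ∉ Ico (p (t k)) (p (t (k + 1)))) ∧ p (t k) ≤ n} id
    ((finite_le_nat n).subset fun k hk => (hp.comp ht').le_apply.trans hk.2) ⟨k0, h0, h⟩
  have a4 : p (t (k + 1)) ≤ n := not_lt.1 fun h' => a1 n hn ⟨a2, h'⟩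
  have a5 := hs (p (t k + 1))
  have a6 : t (k + 1) ≤ p (t (k + 1)) := hp.le_apply
  have a7 := ht k
  refine ⟨_, a5.1, fun z hz => ?_⟩
  obtain ⟨_, ⟨j, hj, rfl⟩, b1, b2⟩ := mem_iUnion₂.1 hz
  rcases le_or_gt j k with h' | h'
  · have := hp.monotone (Nat.succ_le_succ (ht'.monotone h'))
    simp only [Nat.succ_eq_add_one] at this
    omega
  · have c1 : n < p (t j) := not_le.1 fun c => (a3 j ⟨hj, c⟩).not_gt h'
    omega

lemma ex_part {Y : Type} [TopologicalSpace Y] (h : uNum < gNum) (hY : ISplit Y) (Ψ : Y → Set ℕ)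
    (h1 : ∀ n, IsOpen {y | n ∈ Ψ y}) (h2 : ∀ y, (Ψ y).Infinite) : ∃ q : ℕ → ℕ, StrictMono q ∧
    ∀ y, ∃ k0, ∀ k, k0 ≤ k → ∃ n ∈ Ψ y, n ∈ Ico (q k) (q (k + 1)) := by
  by_contra! hc
  obtain ⟨U, B, a1, a2, a3, a4⟩ := ex_base
  obtain ⟨Z, hZ⟩ := nonempty_iff_ne_empty.2 fun e => (mk_range_le.trans_lt (a2.trans_lt h)).not_ge
    (csInf_le' ⟨range fun b : B => {Z : Set ℕ | Z.Infinite ∧ ∃ y N, ∀ n ∈ Ψ y, N ≤ n →
      ∃ m ∈ b.1, ∀ z ∈ Z, z ≤ n ↔ z ≤ m}, rfl, forall_mem_range.2 fun b => gd Ψ (fun q hq => by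
        obtain ⟨y, hy⟩ := hc q hq
        refine ⟨y, infinite_of_forall_exists_gt fun k => ?_⟩
        obtain ⟨j, c1, c2⟩ := hy (k + 1)
        exact ⟨j, c2, c1⟩) (inf_of_mem a1 (a3 _ b.2)), e⟩)
  have hZ' := forall_mem_range.1 hZ
  obtain ⟨b0, hb0, -⟩ := a4 _ univ_mem
  let φ : ℕ → ℕ := fun n => sInf {z | z ∈ Z ∧ n < z}
  have key : ∀ A, {n | φ n ∈ A} ∈ U → ∃ y, ({k | ∃ n ∈ Ψ y, φ n = k} \ A).Finite := fun A hA => by
    obtain ⟨b, c1, c2⟩ := a4 _ hA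
    obtain ⟨-, y, N, c3⟩ := hZ' ⟨b, c1⟩
    refine ⟨y, ((finite_lt_nat N).image φ).subset ?_⟩
    rintro _ ⟨⟨n, d1, rfl⟩, d2⟩
    refine ⟨n, (not_le (b := n)).1 fun d3 => d2 ?_, rfl⟩
    obtain ⟨m, d4, d5⟩ := c3 n d1 d3
    have : φ n = φ m := congrArg sInf (Set.ext fun z =>
      and_congr_right fun hz => by have := d5 z hz; omega)
    exact this ▸ c2 d4
  obtain ⟨A, hA⟩ := hY (fun k => {y | ∃ n ∈ Ψ y, φ n = k}) (fun k => by
    simp only [ofPred_exists, ofPred_and]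
    exact isOpen_iUnion fun n => (h1 n).inter isOpen_const) fun y =>
      infinite_of_forall_exists_gt fun k => by
    obtain ⟨n, c1, c2⟩ := (h2 y).exists_gt k
    exact ⟨_, ⟨n, c1, rfl⟩, c2.trans (Nat.sInf_mem ((hZ' ⟨b0, hb0⟩).1.exists_gt n)).2⟩
  rcases U.mem_or_compl_mem {n | φ n ∈ A} with c | c
  · obtain ⟨y, hy⟩ := key A c
    exact (hA y).2 hy
  · obtain ⟨y, hy⟩ := key Aᶜ c
    exact (hA y).1 (by rwa [Set.sdiff_compl] at hy)

theorem pos (h : uNum < gNum) : ProdQ := fun X Y _ _ _ _ _ _ _ hY => by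
  let := TopologicalSpace.metrizableSpaceMetric X
  let := TopologicalSpace.metrizableSpaceMetric Y
  have := UniformSpace.secondCountable_of_separable X
  have := UniformSpace.secondCountable_of_separable Y
  refine ISplit.split fun U h1 h2 => ?_
  let O : ℕ → ℕ → Set Y := fun i b => {y | ∀ x, ∃ n ∈ Ico i b, (x, y) ∈ U n}
  have hm : ∀ i, Monotone (O i) := fun i b c hb y hy x =>
    (hy x).imp fun n hn => ⟨Ico_subset_Ico_right hb hn.1, hn.2⟩
  have hO : ∀ i b, IsOpen (O i b) := fun i b => by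
    have := (isClosedMap_snd_of_compactSpace (X := X) (Y := Y) _
      (isOpen_biUnion (s := Ico i b) fun n _ => h1 n).isClosed_compl).isOpen_compl
    convert this using 1
    ext y; simp [O, and_assoc]
  have hg : ∀ i, ∃ g : C(Y, ℝ), ∀ y, g y ∈ {r : ℝ | y ∈ O i ⌊r⌋₊} := fun i =>
    exists_continuous_forall_mem_convex_of_local_const
      (fun y => (IsUpperSet.ordConnected fun r s hs hr => hm i (Nat.floor_mono hs) hr).convex)
      fun y => by
    obtain ⟨b, hb⟩ := isCompact_univ.elim_directed_cover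
      (fun b => {x | ∃ n ∈ Ico i b, (x, y) ∈ U n}) (fun b => by
        simp only [ofPred_exists, ofPred_and]
        exact isOpen_iUnion fun n => isOpen_const.inter ((h1 n).preimage (by fun_prop)))
      (fun x _ => by
        obtain ⟨n, a1, a2⟩ := (h2 (x, y)).exists_gt i
        exact mem_iUnion.2 ⟨n + 1, n, ⟨a2.le, Nat.lt_succ_self n⟩, a1⟩)
      (Monotone.directed_le fun b c hb x hx =>
        hx.imp fun n hn => ⟨Ico_subset_Ico_right hb hn.1, hn.2⟩)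
    refine ⟨b, ?_⟩
    simp only [mem_ofPred_eq, Nat.floor_natCast]
    exact (hO i b).mem_nhds fun x => hb trivial
  choose g hg using hg
  let H : ℕ → Y → ℝ := fun i y => ∑ j ∈ Finset.range (i + 1), (|g j y| + 1)
  have H1 : ∀ y, Monotone (H · y) := fun y => monotone_nat_of_le_succ fun i => by
    simp only [H]; rw [Finset.sum_range_succ _ (i + 1)]; linarith [abs_nonneg (g (i + 1) y)]
  have H2 : ∀ i y, g i y ≤ H i y := fun i y => (le_abs_self _).trans ((le_add_of_nonneg_right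
    zero_le_one).trans (Finset.single_le_sum (f := fun j => |g j y| + 1) (fun _ _ => by positivity)
    (Finset.self_mem_range_succ i)))
  have H3 : ∀ (i : ℕ) y, (i : ℝ) + 1 ≤ H i y := fun i y => by
    simpa using Finset.card_nsmul_le_sum (Finset.range (i + 1)) (fun j => |g j y| + 1) 1
      fun j _ => by simp
  obtain ⟨q, hq, hq'⟩ := ex_part h hY.isplit (fun y => {n | ∃ i, H i y ∈ Ioo (n - 1 : ℝ) (n + 1)})
    (fun n => by
      simp only [mem_ofPred_eq]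
      rw [ofPred_exists]
      exact isOpen_iUnion fun i => isOpen_Ioo.preimage (f := H i) (by fun_prop)) fun y =>
    infinite_of_forall_exists_gt fun k => ⟨⌊H k y⌋₊, ⟨k,
      by linarith [Nat.floor_le (a := H k y) (by linarith [H3 k y])], Nat.lt_floor_add_one _⟩,
      Nat.le_floor (by simpa using H3 k y)⟩
  have hF : ∀ y, ∃ N, ∀ j, N ≤ j → y ∈ O j (q (3 * j)) := fun y => by
    obtain ⟨k, hk⟩ := hq' y
    have key : ∀ j, ∃ l, j ≤ l ∧ H l y < q (k + 2 * j + 1) := fun j => by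
      induction j with
      | zero =>
        obtain ⟨n, ⟨l, a1⟩, a2⟩ := hk k le_rfl
        exact ⟨l, l.zero_le, a1.2.trans_le (by exact_mod_cast a2.2)⟩
      | succ j ih =>
        obtain ⟨l, a0, a3⟩ := ih
        obtain ⟨n, ⟨m, a1⟩, a2⟩ := hk (k + 2 * j + 1 + 1) (by omega)
        refine ⟨m, a0.trans_lt (not_le.1 fun c => ?_), a1.2.trans_le (by exact_mod_cast a2.2)⟩
        have a4 : (q (k + 2 * j + 1) : ℝ) + 1 ≤ n := by
          exact_mod_cast (hq (Nat.lt_succ_self _)).trans_le a2.1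
        linarith [H1 y c, a1.1]
    refine ⟨k + 1, fun j hj => hm j (Nat.floor_le_of_le ?_) (hg j y)⟩
    obtain ⟨l, a1, a2⟩ := key j
    exact (H2 j y).trans ((H1 y a1).trans (a2.le.trans (Nat.cast_le.2 (hq.monotone (by omega)))))
  obtain ⟨c, hc⟩ := ex_split' (ι := ℕ) (by simpa using aleph0_lt_d) (by simpa using aleph0_lt_u)
    fun N n => q (3 * max n N)
  have key : ∀ z b, {n | z ∈ U n ∧ c n = b}.Infinite := fun ⟨x, y⟩ b =>
    infinite_of_forall_exists_gt fun k => by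
      obtain ⟨N, hN⟩ := hF y
      obtain ⟨n, a1, a2⟩ := hc (max N (k + 1)) b
      obtain ⟨m, ⟨a3, a4⟩, a5⟩ := hN (max n (max N (k + 1))) (by omega) x
      exact ⟨m, ⟨a5, a2 m (by omega) a4.le⟩, by omega⟩
  exact ⟨{n | c n = true}, fun z => ⟨key z true, (key z false).mono fun n hn =>
    ⟨hn.1, by simp [hn.2]⟩⟩⟩

end Pool.Agent.H42.Spl
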