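import Mathlib

namespace Pool.Agent.H42.Stk
open Set Cardinal Ordinal

/-- Stäckel-compact: Hausdorff, with a linear order on the underlying set in which every nonempty
closed set has a least and a greatest element. -/
def Stackel (X : Type) [TopologicalSpace X] : Prop :=
  T2Space X ∧ ∃ o : LinearOrder X, ∀ F : Set X, IsClosed F → F.Nonempty →
    (∃ m ∈ F, ∀ x ∈ F, o.le m x) ∧ (∃ M ∈ F, ∀ x ∈ F, o.le x M)

/-- Friedman's principle at `ω₂`: every stationary set of ordinals of cofinality `ω` below `ω₂`
contains a closed copy of `ω₁`, i.e. the range of a strictly increasing continuous `ω₁`-sequence. -/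
def Fr : Prop :=
  ∀ S : Set (ω_ 2 : Ordinal.{0}).ToType, (∀ a ∈ S, Order.cof (Set.Iio a) = ℵ₀) → IsStationary S →
    ∃ f : (ω_ 1 : Ordinal.{0}).ToType → (ω_ 2 : Ordinal.{0}).ToType,
      Order.IsNormal f ∧ Set.range f ⊆ S

end Pool.Agent.H42.Stk
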