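import Mathlib
import Pool.Agent.H42.StkDefs
import Pool.Agent.H42.Dirac

namespace Pool.Agent.H42.Stk
open Set Filter Topology Cardinal Order Pool.Agent.H42.Dirac

variable {α : Type} [LinearOrder α] [WellFoundedLT α]

def XX (α : Type) [LinearOrder α] : Set α := {a | Order.cof (Set.Iio a) ≤ ℵ₀}

omit [WellFoundedLT α] in
lemma mem_XX {a : α} : a ∈ XX α ↔ ∃ s : Set α, s.Countable ∧ s ⊆ Iio a ∧ ∀ b < a, ∃ c ∈ s, b ≤ c := by
  constructor
  · intro h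
    obtain ⟨s, h1, h2⟩ := Order.exists_cof_eq (Set.Iio a)
    refine ⟨Subtype.val '' s, (le_aleph0_iff_set_countable.1 (h2.le.trans h)).image _, ?_, ?_⟩
    · rintro _ ⟨c, -, rfl⟩
      exact c.2
    · intro b hb
      obtain ⟨c, hc, hc'⟩ := h1 ⟨b, hb⟩
      exact ⟨c, ⟨c, hc, rfl⟩, hc'⟩
  · rintro ⟨s, h1, h2, h3⟩
    refine (Order.cof_le (s := Subtype.val ⁻¹' s) fun b => ?_).trans
      (le_aleph0_iff_set_countable.2 (h1.preimage Subtype.val_injective))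
    obtain ⟨c, hc, hc'⟩ := h3 b b.2
    exact ⟨⟨c, h2 hc⟩, hc, hc'⟩

omit [WellFoundedLT α] in
lemma club_Ici (b : α) : IsClub (Ici b) :=
  ⟨(isUpperSet_Ici b).dirSupClosed, fun a => ⟨max a b, le_max_right _ _, le_max_left _ _⟩⟩

lemma ex_lub (h : ℵ₀ < Order.cof α) (u : ℕ → α) : ∃ a, IsLUB (range u) a := by
  have hb : BddAbove (range u) := by
    refine .of_not_isCofinal fun hg ↦ (Order.cof_le hg).not_gt (h.trans_le' ?_)
    exact le_aleph0_iff_set_countable.2 (countable_range u)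
  exact ⟨_, wellFounded_lt.min_mem _ hb, fun b hb' => not_lt.1 (wellFounded_lt.not_lt_min _ hb')⟩

lemma diag (h : ℵ₀ < Order.cof α) (h' : ∀ a : α, #(Iio a) < Order.cof α) (C : α → Set α)
    (hC : ∀ y, IsClub (C y)) : IsClub {a | ∀ y < a, a ∈ C y} := by
  constructor
  · intro t ht hne _ a ha y hy
    obtain ⟨c, hc, hyc⟩ := (lt_isLUB_iff ha).1 hy
    refine (hC y).isLUB_mem (t := t ∩ Ici c) (fun z hz => ht hz.1 y (hyc.trans_le hz.2))
      ⟨c, hc, self_mem_Ici⟩ ⟨fun z hz => ha.1 hz.1, fun b hb => ha.2 fun z hz => ?_⟩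
    rcases le_total z c with h1 | h1
    · exact h1.trans (hb ⟨hc, self_mem_Ici⟩)
    · exact hb ⟨hz, h1⟩
  · intro a
    have h1 : ∀ b : α, ∃ c, b ≤ c ∧ ∀ y < b, c ∈ C y := fun b => by
      obtain ⟨c, hc, hc'⟩ := (IsClub.iInter (f := fun y : Iio b => C y) h.ne'
        (by simpa using h' b) fun y => hC y).isCofinal b
      exact ⟨c, hc', fun y hy => mem_iInter.1 hc ⟨y, hy⟩⟩
    choose g hg1 hg2 using h1
    obtain ⟨u, u0, uS⟩ : ∃ u : ℕ → α, u 0 = a ∧ ∀ n, u (n + 1) = g (u n) :=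
      ⟨fun n => Nat.rec a (fun _ b => g b) n, rfl, fun _ => rfl⟩
    have hm : Monotone u := monotone_nat_of_le_succ fun n => uS n ▸ hg1 _
    obtain ⟨s, hs⟩ := ex_lub h u
    refine ⟨s, fun y hy => ?_, u0 ▸ hs.1 (mem_range_self 0)⟩
    obtain ⟨_, ⟨n, rfl⟩, hn⟩ := (lt_isLUB_iff hs).1 hy
    refine (hC y).isLUB_mem (t := range fun k => u (n + k + 1)) ?_ (range_nonempty _)
      ⟨?_, fun b hb => hs.2 ?_⟩
    · rintro _ ⟨k, rfl⟩
      simp only [uS]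
      exact hg2 _ y (hn.trans_le (hm (Nat.le_add_right n k)))
    · rintro _ ⟨k, rfl⟩
      exact hs.1 (mem_range_self _)
    · rintro _ ⟨k, rfl⟩
      exact (hm (by omega)).trans (hb (mem_range_self k))

lemma club_pt [NoMaxOrder α] (h : ℵ₀ < Order.cof α) {C : Set α} (hC : IsClub C) :
    ∃ a ∈ C, a ∈ XX α ∧ IsSuccLimit a := by
  have h1 : ∀ b : α, ∃ c ∈ C, b < c := fun b => by
    obtain ⟨b', hb'⟩ := exists_gt b
    obtain ⟨c, hc, hc'⟩ := hC.isCofinal b'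
    exact ⟨c, hc, hb'.trans_le hc'⟩
  choose g hg1 hg2 using h1
  have : Nonempty α := by
    by_contra hn
    rw [not_nonempty_iff] at hn
    simp at h
  obtain ⟨a⟩ := this
  obtain ⟨u, u0, uS⟩ : ∃ u : ℕ → α, u 0 = g a ∧ ∀ n, u (n + 1) = g (u n) :=
    ⟨fun n => Nat.rec (g a) (fun _ b => g b) n, rfl, fun _ => rfl⟩
  have hm : ∀ n, u n < u (n + 1) := fun n => uS n ▸ hg2 _
  obtain ⟨s, hs⟩ := ex_lub h u
  have hlt : ∀ n, u n < s := fun n => (hm n).trans_le (hs.1 (mem_range_self _))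
  refine ⟨s, hC.isLUB_mem ?_ (range_nonempty u) hs, mem_XX.2 ⟨range u, countable_range u, ?_, ?_⟩,
    ?_⟩
  · rintro _ ⟨n, rfl⟩
    cases n with
    | zero => exact u0 ▸ hg1 a
    | succ n => exact uS n ▸ hg1 _
  · rintro _ ⟨n, rfl⟩
    exact hlt n
  · intro b hb
    obtain ⟨c, hc, hc'⟩ := (lt_isLUB_iff hs).1 hb
    exact ⟨c, hc, hc'.le⟩
  · refine ⟨not_isMin_of_lt (hlt 0), fun b hb => ?_⟩
    obtain ⟨_, ⟨n, rfl⟩, hc'⟩ := (lt_isLUB_iff hs).1 hb.lt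
    exact hb.2 hc' (hlt n)

omit [WellFoundedLT α] in
lemma lim_closed : DirSupClosed {a : α | IsSuccLimit a} := by
  intro t ht ⟨c, hc⟩ _ a ha
  by_cases hat : a ∈ t
  · exact ht hat
  have hlt : ∀ z ∈ t, z < a := fun z hz => lt_of_le_of_ne (ha.1 hz) fun h => hat (h ▸ hz)
  refine ⟨not_isMin_of_lt (hlt c hc), fun b hb => ?_⟩
  obtain ⟨z, hz, hz'⟩ := (lt_isLUB_iff ha).1 hb.lt
  exact hb.2 hz' (hlt z hz)

omit [WellFoundedLT α] in
lemma cof_lim {a : α} (h1 : a ∈ XX α) (h2 : IsSuccLimit a) : Order.cof (Iio a) = ℵ₀ := by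
  refine le_antisymm h1 ?_
  obtain ⟨b, hb⟩ := not_isMin_iff.1 h2.not_isMin
  have : Nonempty (Iio a) := ⟨⟨b, hb⟩⟩
  have : NoMaxOrder (Iio a) := ⟨fun c => by
    obtain ⟨d, h3, h4⟩ := h2.lt_iff_exists_lt.1 c.2
    exact ⟨⟨d, h3⟩, h4⟩⟩
  exact Order.aleph0_le_cof

variable [TopologicalSpace α] [OrderTopology α]

lemma Iic_nhds [NoMaxOrder α] (a : α) : Iic a ∈ 𝓝 a := by
  obtain ⟨b, hb⟩ := exists_gt a
  have hm : a < wellFounded_lt.min (Ioi a) ⟨b, hb⟩ := wellFounded_lt.min_mem (Ioi a) ⟨b, hb⟩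
  refine mem_of_superset (Iio_mem_nhds hm) fun x hx => not_lt.1 fun h => ?_
  exact wellFounded_lt.not_lt_min (Ioi a) (x := x) h hx

lemma closed_of_dir [NoMaxOrder α] {s : Set α} (hs : DirSupClosed s) : IsClosed s := by
  refine isClosed_of_closure_subset fun x hx => ?_
  have h1 : ∀ V ∈ 𝓝 x, (s ∩ Iic x ∩ V).Nonempty := fun V hV => by
    obtain ⟨y, hy1, hy2⟩ := mem_closure_iff_nhds.1 hx _ (inter_mem hV (Iic_nhds x))
    exact ⟨y, ⟨hy2, hy1.2⟩, hy1.1⟩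
  refine hs (d := s ∩ Iic x) inter_subset_left ((h1 univ univ_mem).mono inter_subset_left)
    (.of_linearOrder _) ⟨fun z hz => hz.2, fun b hb => not_lt.1 fun h => ?_⟩
  obtain ⟨y, hy1, hy2⟩ := h1 _ (Ioi_mem_nhds h)
  exact absurd (hb hy1) (not_le.2 hy2)

lemma range_closed [NoMaxOrder α] {f : W → α} (hf : IsNormal f) :
    IsClosed ((↑) ⁻¹' (range f) : Set (XX α)) := by
  have h1 : DirSupClosed (range f ∪ {a | IsLUB (range f) a}) := by
    intro t ht hne _ a ha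
    by_cases hat : a ∈ t
    · exact ht hat
    have hlt : ∀ z ∈ t, z < a := fun z hz => lt_of_le_of_ne (ha.1 hz) fun h => hat (h ▸ hz)
    have h2 : t ⊆ range f := fun z hz => (ht hz).resolve_right fun h => by
      refine absurd (ha.2 fun w hw => ?_) (not_le.2 (hlt z hz))
      rcases ht hw with h' | h'
      · exact h.1 h'
      · exact (h'.unique h).le
    have h3 : f '' (f ⁻¹' t) = t := image_preimage_eq_of_subset h2
    by_cases hb : BddAbove (f ⁻¹' t)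
    · have h4 : IsLUB (f ⁻¹' t) (wellFounded_lt.min _ hb) :=
        ⟨wellFounded_lt.min_mem _ hb, fun b hb' => not_lt.1 (wellFounded_lt.not_lt_min _ hb')⟩
      have h5 := hf.map_isLUB h4 (by
        obtain ⟨z, hz⟩ := hne
        obtain ⟨w, rfl⟩ := h2 hz
        exact ⟨w, hz⟩)
      rw [h3] at h5
      exact Or.inl ⟨_, h5.unique ha⟩
    · refine Or.inr ⟨?_, fun b hb' => ha.2 fun z hz => hb' (h2 hz)⟩
      rintro _ ⟨w, rfl⟩
      obtain ⟨v, hv, hv'⟩ := not_bddAbove_iff.1 hb w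
      exact (hf.monotone hv'.le).trans (ha.1 hv)
  have h2 : ((↑) ⁻¹' (range f) : Set (XX α)) = (↑) ⁻¹' (range f ∪ {a | IsLUB (range f) a}) := by
    ext ⟨a, ha⟩
    refine ⟨Or.inl, fun h => h.resolve_right fun h' => ?_⟩
    obtain ⟨s, s1, s2, s3⟩ := mem_XX.1 ha
    have h3 : ∀ c : s, ∃ w, c.1 < f w := fun c => by
      obtain ⟨_, ⟨w, rfl⟩, hw⟩ := (lt_isLUB_iff h').1 (s2 c.2)
      exact ⟨w, hw⟩
    choose w hw using h3
    have := s1.to_subtype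
    obtain ⟨η, hη⟩ := bdd (range w) (countable_range w)
    obtain ⟨η', hη'⟩ := bdd {η} (countable_singleton η)
    obtain ⟨c, hc, hc'⟩ := s3 (f η)
      ((hf.strictMono (hη' η rfl)).trans_le (h'.1 (mem_range_self η')))
    exact absurd ((hw ⟨c, hc⟩).trans (hf.strictMono (hη _ (mem_range_self _)))) (not_lt.2 hc')
  rw [h2]
  exact (closed_of_dir h1).preimage continuous_subtype_val

theorem not_stackel [NoMaxOrder α] (h : ℵ₀ < Order.cof α) (h' : ∀ a : α, #(Iio a) < Order.cof α)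
    (hF : ∀ S : Set α, (∀ a ∈ S, Order.cof (Set.Iio a) = ℵ₀) → IsStationary S →
      ∃ f : W → α, IsNormal f ∧ range f ⊆ S) : ¬ Stackel (XX α) := by
  classical
  rintro ⟨-, o, ho⟩
  obtain ⟨D, hD⟩ : ∃ D : XX α → Prop, ∀ y, D y ↔ ∃ C b, IsClub C ∧
      ∀ z : XX α, z.1 ∈ C → ¬ o.le y z → z.1 < b := ⟨_, fun _ => Iff.rfl⟩
  have h1 : ∀ y : α, ∃ C, IsClub C ∧ ∀ hy : y ∈ XX α, D ⟨y, hy⟩ →
      ∀ z : XX α, z.1 ∈ C → o.le ⟨y, hy⟩ z := by
    intro y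
    by_cases hy : ∃ hy : y ∈ XX α, D ⟨y, hy⟩
    · obtain ⟨hy, hd⟩ := hy
      obtain ⟨C, b, hC, hb⟩ := (hD _).1 hd
      refine ⟨C ∩ Ici b, hC.inter h.ne' (club_Ici b), fun _ _ z hz => ?_⟩
      by_contra hn
      exact absurd (hb z hz.1 hn) (not_lt.2 hz.2)
    · exact ⟨univ, .univ, fun h1 h2 => absurd ⟨h1, h2⟩ hy⟩
  choose C hC1 hC2 using h1
  have hΔ := diag h h' C hC1
  have hL : IsClub {a : α | IsSuccLimit a} := ⟨lim_closed, fun b => by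
    obtain ⟨a, h1, -, h2⟩ := club_pt h (club_Ici b)
    exact ⟨a, h2, h1⟩⟩
  obtain ⟨f, hf, hfS⟩ := hF {a | (∀ y < a, a ∈ C y) ∧ IsSuccLimit a ∧ ∃ ha : a ∈ XX α, D ⟨a, ha⟩}
    (fun a ha => cof_lim ha.2.2.1 ha.2.1) (by
      intro E hE
      have hK := (hE.inter h.ne' hΔ).inter h.ne' hL
      obtain ⟨a, h1, h2, -⟩ := club_pt h hK
      obtain ⟨m, hm, hm'⟩ := (ho _ ((closed_of_dir hK.dirSupClosed).preimage
        continuous_subtype_val) ⟨⟨a, h2⟩, h1⟩).1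
      exact ⟨m.1, ⟨hm.1.2, hm.2, m.2, (hD _).2 ⟨_, m.1, hK, fun z hz hn => absurd (hm' z hz) hn⟩⟩,
        hm.1.1⟩)
  obtain ⟨w0, -⟩ := bdd ∅ countable_empty
  obtain ⟨⟨_, hM⟩, ⟨w, rfl⟩, hM'⟩ := (ho _ (range_closed hf)
    ⟨⟨f w0, (hfS (mem_range_self w0)).2.2.1⟩, mem_range_self w0⟩).2
  obtain ⟨v, hv⟩ := bdd {w} (countable_singleton w)
  have hlt := hf.strictMono (hv w rfl)
  obtain ⟨h1, -, h2, -⟩ := hfS (mem_range_self v)
  obtain ⟨-, -, h3, h4⟩ := hfS (mem_range_self w)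
  have h5 := hC2 (f w) h3 h4 ⟨f v, h2⟩ (h1 _ hlt)
  have h6 := o.le_antisymm _ _ h5 (hM' ⟨f v, h2⟩ (mem_range_self v))
  exact hlt.ne (congrArg Subtype.val h6)

lemma conv [NoMaxOrder α] (h : ℵ₀ < Order.cof α) (p : Ultrafilter (XX α)) {s : Set (XX α)}
    (hs : s.Countable) (hp : s ∈ p) : ∃ a, (p : Filter (XX α)) ≤ 𝓝 a := by
  obtain ⟨u, rfl⟩ := hs.exists_eq_range (p.nonempty_of_mem hp)
  obtain ⟨b, hb⟩ := ex_lub h fun n => (u n).1
  have hne : {c : α | {z : XX α | z.1 ≤ c} ∈ p}.Nonempty :=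
    ⟨b, mem_of_superset hp (by rintro _ ⟨n, rfl⟩; exact hb.1 (mem_range_self n))⟩
  obtain ⟨a, ha1, ha2⟩ := wellFounded_lt.has_min _ hne
  have ha3 : ∀ c < a, {z : XX α | c < z.1} ∈ p := fun c hc =>
    mem_of_superset (Ultrafilter.compl_mem_iff_notMem.2 fun h1 => ha2 c h1 hc)
      fun z hz => not_le.1 hz
  have haX : a ∈ XX α := by
    by_cases h1 : ∃ n, (u n).1 = a
    · obtain ⟨n, rfl⟩ := h1
      exact (u n).2
    push Not at h1
    refine mem_XX.2 ⟨range (fun n => (u n).1) ∩ Iio a, (countable_range _).mono inter_subset_left,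
      inter_subset_right, fun c hc => ?_⟩
    obtain ⟨z, ⟨⟨n, rfl⟩, h2⟩, h3⟩ := p.nonempty_of_mem (inter_mem (inter_mem hp ha1) (ha3 c hc))
    exact ⟨_, ⟨mem_range_self n, lt_of_le_of_ne h2 (h1 n)⟩, le_of_lt h3⟩
  refine ⟨⟨a, haX⟩, ?_⟩
  have : Tendsto (fun z : XX α => z.1) p (𝓝 a) :=
    tendsto_order.2 ⟨ha3, fun c hc => mem_of_superset ha1 fun z hz => lt_of_le_of_lt hz hc⟩
  exact tendsto_subtype_rng.2 this

lemma ccomp [NoMaxOrder α] (h : ℵ₀ < Order.cof α) : CountablyCompactSpace (XX α) := by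
  refine ⟨isCountablyCompact_iff_seq_clusterPt.2 fun x _ => ?_⟩
  obtain ⟨a, ha⟩ := conv h ((hyperfilter ℕ).map x) (countable_range x)
    (Ultrafilter.mem_map.2 (univ_mem' fun n => mem_range_self n))
  exact ⟨a, trivial, mapClusterPt_iff_ultrafilter.2
    ⟨hyperfilter ℕ, hyperfilter_le_cofinite.trans Nat.cofinite_eq_atTop.le, ha⟩⟩

end Pool.Agent.H42.Stk
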