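import Mathlib
import Pool.Agent.H42.Stk1
import Pool.Agent.H39.WD1

namespace Pool.Agent.H42.Stk
open Set Filter Topology Cardinal Order

lemma of_bern {Z : Type} [TopologicalSpace Z] [T2Space Z] (T : Set Z)
    (h : ∀ F : Set Z, IsClosed F → F.Infinite → (F ∩ T).Nonempty ∧ (F \ T).Nonempty) :
    Stackel Z := by
  classical
  obtain ⟨w, hw⟩ := exists_wellFoundedLT Z
  obtain ⟨g, hg⟩ : ∃ g : Z → Z ⊕ₗ Zᵒᵈ, ∀ a, g a = if a ∈ T then toLex (Sum.inr (OrderDual.toDual a))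
    else toLex (Sum.inl a) := ⟨_, fun _ => rfl⟩
  have hi : Function.Injective g := by
    intro a b hab
    rw [hg, hg] at hab
    split_ifs at hab <;> simpa using hab
  refine ⟨inferInstance, LinearOrder.lift' g hi, fun F hF hne => ?_⟩
  change (∃ m ∈ F, ∀ x ∈ F, g m ≤ g x) ∧ (∃ m ∈ F, ∀ x ∈ F, g x ≤ g m)
  by_cases hf : F.Finite
  · exact ⟨exists_min_image F g hf hne, exists_max_image F g hf hne⟩
  obtain ⟨h1, h2⟩ := h F hF hf
  obtain ⟨a, ha, ha'⟩ := wellFounded_lt.has_min _ h1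
  obtain ⟨b, hb, hb'⟩ := wellFounded_lt.has_min _ h2
  refine ⟨⟨b, hb.1, fun x hx => ?_⟩, ⟨a, ha.1, fun x hx => ?_⟩⟩
  · rw [hg, hg, if_neg hb.2]
    split_ifs with hx'
    · exact Sum.Lex.inl_le_inr _ _
    · exact Sum.Lex.inl_le_inl_iff.2 (not_lt.1 (hb' x ⟨hx, hx'⟩))
  · rw [hg, hg a, if_pos ha.2]
    split_ifs with hx'
    · exact Sum.Lex.inr_le_inr_iff.2 (OrderDual.toDual_le_toDual.2 (not_lt.1 (ha' x ⟨hx, hx'⟩)))
    · exact Sum.Lex.inl_le_inr _ _

lemma disj {Y : Type} {S : Set (Ultrafilter Y)} (hS : S.Infinite) :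
    ∃ (p : ℕ → Ultrafilter Y) (J : ℕ → Set Y), (∀ n, p n ∈ S ∧ J n ∈ p n) ∧
      ∀ n m, n ≠ m → Disjoint (J n) (J m) := by
  have := hS.to_subtype
  obtain ⟨U, h1, h2, h3⟩ := exists_seq_infinite_isOpen_pairwise_disjoint S
  choose p hp using fun n => (h1 n).nonempty
  have : ∀ n, ∃ K ∈ (p n).1, ∀ m, m ≠ n → K ∉ (p m).1 := fun n => by
    obtain ⟨O, h4, h5⟩ := isOpen_induced_iff.1 (h2 n)
    obtain ⟨_, ⟨s, rfl⟩, h6, h7⟩ := ultrafilterBasis_is_basis.exists_subset_of_mem_open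
      (show (p n).1 ∈ O from (h5 ▸ hp n : p n ∈ Subtype.val ⁻¹' O)) h4
    exact ⟨s, h6, fun m hm h => disjoint_left.1 (h3 hm) (hp m) (h5 ▸ h7 h)⟩
  choose K h4 h5 using this
  refine ⟨fun n => p n, fun n => K n ∩ ⋂ m ∈ Iio n, (K m)ᶜ, fun n => ⟨(p n).2, inter_mem (h4 n)
    ((biInter_mem (finite_Iio n)).2 fun m hm =>
      Ultrafilter.compl_mem_iff_notMem.2 (h5 m n (ne_of_gt hm)))⟩, fun n m h => ?_⟩
  rcases lt_or_gt_of_ne h with h | h
  · exact disjoint_left.2 fun a h6 h7 => mem_iInter₂.1 h7.2 n h h6.1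
  · exact disjoint_left.2 fun a h6 h7 => mem_iInter₂.1 h6.2 m h h7.1

def ZZ (Y : Type) : Set (Ultrafilter Y) := {p | ∃ s : Set Y, s.Countable ∧ s ∈ p}

lemma big {Y : Type} {F : Set (ZZ Y)} (hF : IsClosed F) (hi : F.Infinite) : 2 ^ 𝔠 ≤ #F := by
  obtain ⟨p, J, h1, h2⟩ := disj (hi.image Subtype.val_injective.injOn)
  choose q hq1 hq2 using fun n => (h1 n).1
  choose s hs1 hs2 using fun n => (q n).2
  have hZ : ∀ V : Ultrafilter ℕ, V.bind p ∈ ZZ Y := fun V =>
    ⟨⋃ n, s n, countable_iUnion hs1, H39.WD.mem_bind.2 (univ_mem' fun n =>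
      mem_of_superset (hq2 n ▸ hs2 n) (subset_iUnion s n))⟩
  have hFm : ∀ V : Ultrafilter ℕ, (⟨V.bind p, hZ V⟩ : ZZ Y) ∈ F := fun V => by
    refine hF.mem_of_tendsto (b := (V : Filter ℕ)) (f := q) (tendsto_subtype_rng.2 ?_)
      (Eventually.of_forall hq1)
    refine (ultrafilterBasis_is_basis.nhds_hasBasis.tendsto_right_iff).2 ?_
    rintro _ ⟨⟨t, rfl⟩, ht⟩
    exact mem_of_superset (H39.WD.mem_bind.1 ht) fun n hn => by
      simp only [mem_ofPred_eq, hq2]; exact hn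
  have key : ∀ (V : Ultrafilter ℕ) (A : Set ℕ), (⋃ n ∈ A, J n) ∈ V.bind p ↔ A ∈ V := by
    intro V A
    rw [H39.WD.mem_bind]
    have : {m | (⋃ n ∈ A, J n) ∈ p m} = A := by
      ext m
      refine ⟨fun hm => ?_, fun hm => mem_of_superset (h1 m).2 (subset_biUnion_of_mem (u := J) hm)⟩
      obtain ⟨y, hy1, hy2⟩ := (p m).nonempty_of_mem (inter_mem hm (h1 m).2)
      obtain ⟨n, hn, hy⟩ := mem_iUnion₂.1 hy1
      by_contra hA
      exact disjoint_left.1 (h2 n m fun h => hA (h ▸ hn)) hy hy2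
    rw [this]
  have hinj : Function.Injective fun V : Ultrafilter ℕ => (⟨⟨V.bind p, hZ V⟩, hFm V⟩ : F) := by
    intro V V' h
    have h3 : V.bind p = V'.bind p := congrArg (fun x : F => x.1.1) h
    ext A
    rw [← key V, h3, key]
  exact (H39.WD.mk_free.trans (mk_set_le _)).trans (mk_le_of_injective hinj)

lemma c0 : ℵ₀ ≤ (2 : Cardinal.{0}) ^ 𝔠 := aleph0_le_continuum.trans (cantor _).le

lemma pw {c : Cardinal.{0}} (h : c ≤ 2 ^ 𝔠) : c ^ ℵ₀ ≤ 2 ^ 𝔠 :=
  (power_le_power_right h).trans (by rw [← power_mul]; simp)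

lemma small {Y : Type} (hY : #Y ≤ 2 ^ 𝔠) : #(ZZ Y) ≤ 2 ^ 𝔠 := by
  have h1 : ZZ Y ⊆ range fun x : (ℕ → Y) × Ultrafilter ℕ => x.2.map x.1 := by
    rintro p ⟨s, hs, hp⟩
    obtain ⟨u, rfl⟩ := hs.exists_eq_range (p.nonempty_of_mem hp)
    have : Nonempty ℕ := inferInstance
    refine ⟨(u, p.map (Function.invFun u)), ?_⟩
    simp only [Ultrafilter.map_map]
    refine Ultrafilter.coe_injective ?_
    rw [Ultrafilter.coe_map]
    refine (map_congr (mem_of_superset hp fun y hy => ?_)).trans map_id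
    exact Function.invFun_eq hy
  refine (mk_le_mk_of_subset h1).trans (mk_range_le.trans ?_)
  rw [mk_prod, lift_id, lift_id, ← power_def, mk_nat]
  exact mul_le_of_le c0 (pw hY) (H39.WD.mk_ultra ℕ)

lemma stackel_ZZ {Y : Type} [Infinite Y] (hY : #Y ≤ 2 ^ 𝔠) : Stackel (ZZ Y) := by
  have hi : Function.Injective fun y : Y => (⟨pure y, {y}, countable_singleton y,
      Ultrafilter.mem_pure.2 rfl⟩ : ZZ Y) := fun a b h =>
    Ultrafilter.pure_injective (congrArg Subtype.val h)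
  have : Infinite (ZZ Y) := .of_injective _ hi
  have hZ : #(ZZ Y) = 2 ^ 𝔠 := le_antisymm (small hY)
    ((big isClosed_univ infinite_univ).trans (mk_set_le _))
  obtain ⟨x, hx1, hx2⟩ := H39.CL.inj_choice (X := ZZ Y)
    (I := {y : ℕ → ZZ Y // Function.Injective y} × Bool) (by
      rw [mk_prod, lift_id, lift_id, hZ]
      refine mul_le_of_le c0 ((mk_subtype_le _).trans ?_) (mk_le_aleph0.trans c0)
      rw [← power_def, mk_nat]
      exact pw hZ.le) (fun i => closure (range i.1.1)) fun i => le_antisymm (mk_set_le _)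
      (hZ.trans_le (big isClosed_closure
        ((infinite_range_of_injective i.1.2).mono subset_closure)))
  refine of_bern (range fun y => x (y, true)) fun F hF hi => ?_
  have h1 : closure (range fun n => (hi.natEmbedding F n).1) ⊆ F :=
    closure_minimal (by rintro _ ⟨n, rfl⟩; exact (hi.natEmbedding F n).2) hF
  have h2 : Function.Injective fun n => (hi.natEmbedding F n).1 :=
    Subtype.val_injective.comp (hi.natEmbedding F).injective
  refine ⟨⟨x (⟨_, h2⟩, true), h1 (hx2 (⟨_, h2⟩, true)), mem_range_self _⟩,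
    ⟨x (⟨_, h2⟩, false), h1 (hx2 (⟨_, h2⟩, false)), ?_⟩⟩
  rintro ⟨y, hy⟩
  simpa using congrArg Prod.snd (hx1 hy)

lemma ex_map {Y : Type} [TopologicalSpace Y] [T3Space Y]
    (h : ∀ p : ZZ Y, ∃ a, (p.1 : Filter Y) ≤ 𝓝 a) :
    ∃ f : ZZ Y → Y, Continuous f ∧ Function.Surjective f := by
  choose f hf using h
  refine ⟨f, continuous_iff_continuousAt.2 fun p => ?_, fun y => ⟨⟨pure y, {y},
    countable_singleton y, Ultrafilter.mem_pure.2 rfl⟩, ?_⟩⟩
  · refine ((closed_nhds_basis (f p)).tendsto_right_iff).2 ?_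
    rintro V ⟨h1, h2⟩
    have h3 : {q : ZZ Y | V ∈ q.1} ∈ 𝓝 p :=
      ((ultrafilter_isOpen_basic V).preimage continuous_subtype_val).mem_nhds (hf p h1)
    refine mem_of_superset h3 fun q hq => ?_
    exact IsClosed.mem_of_tendsto (s := V) (f := id) h2 (hf q) hq
  · exact tendsto_nhds_unique (f := id) (hf _) (pure_le_nhds y)

abbrev W2 := (Ordinal.omega 2 : Ordinal.{0}).ToType

lemma W2_card : #W2 = ℵ_ 2 := by simp [W2]

lemma W2_cof : Order.cof W2 = ℵ_ 2 := by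
  have h := (isRegular_aleph_add_one (1 : Ordinal.{0})).cof_ord
  rw [one_add_one_eq_two, ord_aleph] at h
  rw [Ordinal.cof_toType, h]

lemma W2_a : ℵ₀ < Order.cof W2 := by
  rw [W2_cof, ← aleph_zero, aleph_lt_aleph]
  norm_num

lemma W2_b (a : W2) : #(Iio a) < Order.cof W2 := by
  rw [W2_cof, ← W2_card]
  exact mk_Iio_lt a (by simp)

lemma W2_max : NoMaxOrder W2 := by
  refine ⟨fun a => ?_⟩
  by_contra h
  push Not at h
  have := Order.cof_le (s := {a}) fun b => ⟨a, rfl, h b⟩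
  rw [mk_singleton] at this
  exact absurd (W2_a.trans_le this) (not_lt.2 one_le_aleph0)

lemma W2_le : #W2 ≤ 2 ^ 𝔠 := by
  rw [W2_card, ← one_add_one_eq_two, ← succ_aleph]
  exact Order.succ_le_of_lt (aleph_one_le_continuum.trans_lt (cantor _))

theorem ctbl (h : Fr) : ∃ (X : Type) (_ : TopologicalSpace X),
    T35Space X ∧ CountablyCompactSpace X ∧ ¬ Stackel X := by
  let _ : TopologicalSpace W2 := Preorder.topology W2
  have : OrderTopology W2 := ⟨rfl⟩
  have := W2_max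
  exact ⟨XX W2, inferInstance, inferInstance, ccomp W2_a, not_stackel W2_a W2_b h⟩

theorem img (h : Fr) : ∃ (X Y : Type) (_ : TopologicalSpace X) (_ : TopologicalSpace Y)
    (f : X → Y), Stackel X ∧ T2Space Y ∧ Continuous f ∧ ¬ Stackel (range f) := by
  let _ : TopologicalSpace W2 := Preorder.topology W2
  have : OrderTopology W2 := ⟨rfl⟩
  have := W2_max
  have hn := not_stackel W2_a W2_b h
  have : Infinite (XX W2) := by
    by_contra hf
    rw [not_infinite_iff_finite] at hf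
    exact hn (of_bern ∅ fun F _ hi => absurd F.toFinite hi)
  obtain ⟨f, h1, h2⟩ := ex_map (Y := XX W2) fun p => by
    obtain ⟨s, hs, hp⟩ := p.2
    exact conv W2_a p.1 hs hp
  refine ⟨ZZ (XX W2), W2, inferInstance, inferInstance, Subtype.val ∘ f,
    stackel_ZZ ((mk_set_le _).trans W2_le), inferInstance, continuous_subtype_val.comp h1, ?_⟩
  rw [range_comp, h2.range_eq, image_univ, Subtype.range_coe]
  exact hn

end Pool.Agent.H42.Stk
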