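import Pool.Agent.H42.SumDefs
import Pool.Agent.H42.Spl1

/-! A Milliken-Taylor theorem with almost disjoint gaps. -/

namespace Pool.Agent.H42.Sumg

open Set Filter Cardinal Topology

lemma idem : ∃ p : Ultrafilter (Finset ℕ),
    (∀ P ∈ p, ∀ m, ∃ a, m ≤ a ∧ ∀ M, ∃ F ∈ P, ∀ j < M, (j ∈ F ↔ a ≤ j)) ∧
    ∀ P ∈ p, {F | {G | F ∪ G ∈ P} ∈ p} ∈ p := by
  let _ : Semigroup (Finset ℕ) := { mul := (· ∪ ·), mul_assoc := Finset.union_assoc }
  let _ : Semigroup (Ultrafilter (Finset ℕ)) := Ultrafilter.semigroup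
  obtain ⟨p, h1, h2⟩ := exists_idempotent_in_compact_subsemigroup Ultrafilter.continuous_mul_left
    {p : Ultrafilter (Finset ℕ) |
      ∀ P ∈ p, ∀ m, ∃ a, m ≤ a ∧ ∀ M, ∃ F ∈ P, ∀ j < M, (j ∈ F ↔ a ≤ j)}
    ⟨(hyperfilter ℕ).bind fun a => (hyperfilter ℕ).map (Finset.Ico a), fun P hP m => by
      have h : ∀ᶠ a in hyperfilter ℕ, ∀ᶠ b in hyperfilter ℕ, Finset.Ico a b ∈ P := hP
      have h' : ∀ m : ℕ, ∀ᶠ a : ℕ in (hyperfilter ℕ : Filter ℕ), m ≤ a := fun m =>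
        Nat.hyperfilter_le_atTop (eventually_ge_atTop m)
      obtain ⟨a, a1, a2⟩ := ((h' m).and h).exists
      refine ⟨a, a1, fun M => ?_⟩
      obtain ⟨b, a3, a4⟩ := ((h' M).and a2).exists
      exact ⟨_, a4, fun j hj => by simp; omega⟩⟩
    (IsClosed.isCompact (by
      simp only [ofPred_forall]
      refine isClosed_iInter fun P => ?_
      by_cases h : ∀ m, ∃ a, m ≤ a ∧ ∀ M, ∃ F ∈ P, ∀ j < M, (j ∈ F ↔ a ≤ j)
      · simp [h]
      · convert (ultrafilter_isOpen_basic P).isClosed_compl using 1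
        ext p
        simp only [mem_ofPred_eq, mem_compl_iff]
        exact ⟨fun a b => h (a b), fun a b => (a b).elim⟩))
    fun p hp q hq P hP m => by
      obtain ⟨a, a1, a2⟩ := hp {F | {G | F ∪ G ∈ P} ∈ q} hP m
      refine ⟨a, a1, fun M => ?_⟩
      obtain ⟨F, a3, a4⟩ := a2 M
      obtain ⟨b, a5, a6⟩ := hq _ a3 M
      obtain ⟨G, a7, a8⟩ := a6 M
      exact ⟨_, a7, fun j hj => by rw [Finset.mem_union, a4 j hj, a8 j hj]; omega⟩
  exact ⟨p, h1, fun P hP => by rw [← h2] at hP; exact hP⟩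

lemma clos {S : Type} (s0 : S) (step : S → ℕ → S) (l : S → ℕ) : ∃ m : ℕ → ℕ, StrictMono m ∧
    ∀ κ : ℕ → ℕ, StrictMono κ → ∀ r : ℕ → S, r 0 = s0 →
      (∀ n, r (n + 1) = step (r n) (m (κ n))) → ∀ n, l (r (n + 1)) ≤ m (κ n + 1) := by
  classical
  let f : Finset S × ℕ → Finset S × ℕ := fun T => (T.1 ∪ T.1.image (step · T.2),
    T.2 + 1 + (T.1.image (step · T.2)).sup l)
  let T : ℕ → Finset S × ℕ := fun k => f^[k] ({s0}, 0)
  have hT : ∀ k, T (k + 1) = f (T k) := fun k => Function.iterate_succ_apply' _ _ _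
  have h1 : Monotone fun k => (T k).1 := monotone_nat_of_le_succ fun k => by
    rw [hT]; exact Finset.subset_union_left
  refine ⟨fun k => (T k).2, strictMono_nat_of_lt_succ fun k => by rw [hT]; simp only [f]; omega,
    fun κ hκ r h0 hr => ?_⟩
  have h2 : ∀ n, r n ∈ (T (κ n)).1 := fun n => by
    induction n with
    | zero => exact h1 (κ 0).zero_le (by simp [T, h0])
    | succ n ih =>
      refine h1 (Nat.succ_le_of_lt (hκ n.lt_succ_self)) ?_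
      change _ ∈ (T (κ n + 1)).1
      rw [hT, hr]
      exact Finset.mem_union_right _ (Finset.mem_image_of_mem _ ih)
  intro n
  change _ ≤ (T (κ n + 1)).2
  rw [hT, hr]
  exact (Finset.le_sup (f := l) (Finset.mem_image_of_mem (step · _) (h2 n))).trans
    (Nat.le_add_left _ _)

lemma avoid {ι : Type} (h : #ι < 𝔠) (A : ι → Set ℕ) (hA : ∀ i, (A i).Infinite) :
    ∃ K : Set ℕ, K.Infinite ∧ ∀ i, (A i \ K).Infinite := by
  let e : (ℕ → Bool) → ℕ → ℕ := fun r n => Encodable.encode ((List.range n).map r)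
  have he : ∀ r s n m, e r n = e s m → n = m ∧ ∀ j < n, r j = s j := fun r s n m h => by
    have h := Encodable.encode_injective h
    obtain rfl : n = m := by simpa using congrArg List.length h
    exact ⟨rfl, by simpa using h⟩
  by_contra! hc
  choose i hi using fun r => hc (range (e r))
    (infinite_range_of_injective fun n m h => (he _ _ _ _ h).1)
  refine h.not_ge (le_of_eq_of_le (by simp) (mk_le_of_injective (f := i) fun r s hrs => ?_))
  funext n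
  by_contra hn
  refine hA (i r) ((((hi r).union (hrs ▸ hi s)).union ((finite_le_nat n).image (e r))).subset
    fun j hj => ?_)
  by_contra! h'
  simp only [mem_union, Set.mem_sdiff, hj, true_and, not_or, not_not] at h'
  obtain ⟨⟨⟨a, rfl⟩, b, h1⟩, h2⟩ := h'
  obtain ⟨rfl, h3⟩ := he _ _ _ _ h1
  exact h2 ⟨b, not_lt.1 fun h4 => hn (h3 n h4).symm, rfl⟩

theorem mt {ι : Type} (h : #ι < 𝔠) (A : ι → Set ℕ) (hA : ∀ i, (A i).Infinite) {k : ℕ}
    (χ : Finset ℕ → Finset ℕ → Fin k) (g : ℕ → ℕ) : ∃ (c : Fin k) (F : ℕ → Finset ℕ) (a : ℕ → ℕ),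
    StrictMono a ∧ (∀ n, ∀ j ∈ F n, a n ≤ j ∧ j < a (n + 1)) ∧
    (∀ n j, a n ≤ j → j ≤ g (a n) → j ∈ F n) ∧ (∀ i, {j | j ∈ A i ∧ ∃ n, j ∈ F n}.Infinite) ∧
    ∀ H₁ H₂, Lt H₁ H₂ → χ (H₁.biUnion F) (H₂.biUnion F) = c := by
  obtain ⟨p, h1, h2⟩ := idem
  have lim : ∀ f : Finset ℕ → Fin k, ∃ c, {F | f F = c} ∈ p := fun f =>
    (p.map f).eq_pure_of_finite.imp fun c hc => by
      have : {c} ∈ p.map f := by rw [hc]; exact Ultrafilter.mem_pure.2 rfl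
      exact this
  choose d hd using fun F => lim (χ F)
  obtain ⟨c, hc⟩ := lim d
  let S := {s : Set (Finset ℕ) × Set (Finset ℕ) × ℕ // s.1 ∈ p ∧ s.2.1.Finite ∧ ∅ ∈ s.2.1 ∧
    (∀ T ∈ s.2.1, ∀ G ∈ s.1, d (T ∪ G) = c) ∧
    ∀ M, ∃ F ∈ s.1 ∩ {F | {G | F ∪ G ∈ s.1} ∈ p}, ∀ j < M, (j ∈ F ↔ s.2.2 ≤ j)}
  have st : ∀ (s : S) M, ∃ s' : S, ∃ F ∈ s.1.1, s'.1.1 ⊆ s.1.1 ∧ (∀ G ∈ s'.1.1, F ∪ G ∈ s.1.1) ∧
      s.1.2.1 ⊆ s'.1.2.1 ∧ (∀ T ∈ s.1.2.1, T ∪ F ∈ s'.1.2.1 ∧ ∀ G ∈ s'.1.1, χ (T ∪ F) G = c) ∧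
      (∀ j < M + g s.1.2.2 + s.1.2.2 + 1, (j ∈ F ↔ s.1.2.2 ≤ j)) ∧ ∀ j ∈ F, j < s'.1.2.2 := by
    rintro ⟨⟨P, D, a⟩, a1, a2, a3, a4, a5⟩ M
    obtain ⟨F, ⟨b1, b2⟩, b3⟩ := a5 (M + g a + a + 1)
    have b4 : P ∩ {G | F ∪ G ∈ P} ∩ ⋂ T ∈ D, {G | χ (T ∪ F) G = c} ∈ p :=
      inter_mem (inter_mem a1 b2) ((biInter_mem a2).2 fun T hT => a4 T hT F b1 ▸ hd _)
    obtain ⟨b, b5, b6⟩ := h1 _ (inter_mem b4 (h2 _ b4)) (F.sup id + 1)
    refine ⟨⟨⟨_, D ∪ (· ∪ F) '' D, b⟩, b4, a2.union (a2.image _), Or.inl a3, ?_, b6⟩, F, b1,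
      fun G h => h.1.1, fun G h => h.1.2, subset_union_left,
      fun T hT => ⟨Or.inr ⟨T, hT, rfl⟩, fun G h => mem_iInter₂.1 h.2 T hT⟩, b3,
      fun j hj => (Finset.le_sup (f := id) hj).trans_lt b5⟩
    rintro T (hT | ⟨T, hT, rfl⟩) G hG
    · exact a4 T hT G hG.1.1
    · simpa only [Finset.union_assoc] using a4 T hT _ hG.1.2
  choose step blk s1 s2 s3 s4 s5 s6 s7 using st
  obtain ⟨a0, -, h0⟩ := h1 _ (inter_mem hc (h2 _ hc)) 0
  let s0 : S := ⟨⟨_, {∅}, a0⟩, hc, finite_singleton _, rfl,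
    fun T hT G hG => by rw [hT, Finset.empty_union]; exact hG, h0⟩
  obtain ⟨m, m1, m2⟩ := clos s0 step fun s => s.1.2.2
  obtain ⟨K, k1, k2⟩ := avoid h (fun i => {k | ∃ j ∈ A i, m k ≤ j ∧ j < m (k + 1)}) fun i =>
    infinite_of_forall_exists_gt fun k => by
      obtain ⟨j, a1, a2⟩ := (hA i).exists_gt (m (k + 1))
      have a3 : ∃ l, j < m (l + 1) := ⟨j, m1.le_apply⟩
      have a4 := Nat.find_spec a3
      have a5 : k < Nat.find a3 := m1.lt_iff_lt.1 (a2.trans a4) |> Nat.lt_of_succ_lt_succ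
      refine ⟨_, ⟨j, a1, ?_, a4⟩, a5⟩
      have := Nat.find_min a3 (m := Nat.find a3 - 1) (by omega)
      rwa [Nat.sub_add_cancel (by omega), not_lt] at this
  let κ := Nat.nth (· ∈ K)
  let r : ℕ → S := fun n => n.rec s0 fun n s => step s (m (κ n))
  have m3 := m2 κ (Nat.nth_strictMono k1) r rfl fun _ => rfl
  let F : ℕ → Finset ℕ := fun n => blk (r n) (m (κ n))
  have ha : StrictMono fun n => (r n).1.2.2 := strictMono_nat_of_lt_succ fun n =>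
    s7 _ _ _ ((s6 (r n) _ _ (by omega)).2 le_rfl)
  have p1 : Antitone fun n => (r n).1.1 := antitone_nat_of_succ_le fun n => s2 _ _
  have p2 : Monotone fun n => (r n).1.2.1 := monotone_nat_of_le_succ fun n => s4 _ _
  have p3 : ∀ H : Finset ℕ, H.Nonempty → ∀ n, (∀ b ∈ H, n ≤ b) → H.biUnion F ∈ (r n).1.1 := by
    intro H
    induction H using Finset.induction_on_min with
    | empty => simp
    | insert b H hb ih =>
      refine fun _ n hn => p1 (hn b (by simp)) ?_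
      rw [Finset.biUnion_insert]
      rcases H.eq_empty_or_nonempty with rfl | hH
      · simpa using s1 _ _
      · exact s3 _ _ _ (ih hH (b + 1) hb)
  have p4 : ∀ H : Finset ℕ, ∀ n, (∀ b ∈ H, b < n) → H.biUnion F ∈ (r n).1.2.1 := by
    intro H
    induction H using Finset.induction_on_max with
    | empty => exact fun n _ => (r n).2.2.2.1
    | insert b H hb ih =>
      refine fun n hn => p2 (hn b (by simp) : b + 1 ≤ n) ?_
      rw [Finset.biUnion_insert, Finset.union_comm]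
      exact (s5 _ _ _ (ih b hb)).1
  refine ⟨c, F, _, ha, fun n j hj => ⟨?_, s7 _ _ _ hj⟩,
    fun n j a b => (s6 (r n) _ _ (by omega)).2 a, fun i => infinite_of_forall_exists_gt fun l => ?_,
    fun H₁ H₂ ⟨a1, a2, a3⟩ => ?_⟩
  · by_contra h'
    exact h' ((s6 (r n) _ _ (by omega)).1 hj)
  · obtain ⟨k, ⟨⟨j, a1, a2, a3⟩, a4⟩, a5⟩ := (k2 i).exists_gt (l + a0)
    have a6 : k ≤ m k := m1.le_apply
    have a7 : ∃ n, j < (r (n + 1)).1.2.2 := ⟨j, ha.le_apply (x := j + 1)⟩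
    have a8 := Nat.find_spec a7
    refine ⟨j, ⟨a1, Nat.find a7, ?_⟩, by omega⟩
    by_contra h'
    have a9 : (r (Nat.find a7)).1.2.2 ≤ j := by
      rcases e : Nat.find a7 with _ | n
      · change a0 ≤ j; omega
      · exact not_lt.1 (Nat.find_min a7 (by omega))
    have b1 : m (κ (Nat.find a7)) ≤ j := by
      by_contra h''
      exact h' ((s6 (r _) _ _ (by omega)).2 a9)
    have b2 := m1.lt_iff_lt.1 (b1.trans_lt a3)
    have b3 := m1.lt_iff_lt.1 (a2.trans_lt (a8.trans_le (m3 _)))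
    exact a4 ((by omega : κ (Nat.find a7) = k) ▸ Nat.nth_mem_of_infinite k1 _)
  · induction H₁ using Finset.induction_on_max with
    | empty => simp at a1
    | insert b H hb ih =>
      rw [Finset.biUnion_insert, Finset.union_comm]
      exact (s5 _ _ _ (p4 H b hb)).2 _ (p3 _ a2 (b + 1) (a3 b (by simp)))

end Pool.Agent.H42.Sumg
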