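import Pool.Agent.H42.Sum1

/-! Spaces of size less than the continuum have `(*)`; the literal reading is void. -/

namespace Pool.Agent.H42.Sumg

open Set Filter Cardinal Topology Pool.Agent.H42.Tau Pool.Agent.H42.PolD

variable {X : Type} [TopologicalSpace X]

theorem not_lit [T1Space X] [Infinite X] : ¬StarLit X := fun h => by
  have hi : Function.Injective fun x : X => ({x}ᶜ : Set X) :=
    compl_injective.comp singleton_injective
  have hl : ∀ x : X, {U | U ∈ range (fun x : X => ({x}ᶜ : Set X)) ∧ x ∈ U}.Infinite := fun x =>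
    ((finite_singleton x).infinite_compl.image hi.injOn).mono
      (image_subset_iff.2 fun y hy => ⟨⟨y, rfl⟩, Ne.symm hy⟩)
  obtain ⟨F, h1, h2, -, h3, -⟩ := h (range fun x : X => {x}ᶜ) ⟨⟨forall_mem_range.2 fun x =>
    ⟨isOpen_compl_singleton, (finite_singleton x).infinite_compl.nonempty, by simp⟩,
    eq_univ_of_forall fun x => (hl x).nonempty⟩, hl⟩ 1 fun _ => 0
  have key : ∀ i j, i ≠ j → ⋃ n ∈ ({i, j} : Finset ℕ), ⋃₀ F n = Set.univ := fun i j hij => by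
    obtain ⟨U, hU⟩ := (h1 i).2.1
    obtain ⟨V, hV⟩ := (h1 j).2.1
    obtain ⟨x, rfl⟩ := (h1 i).2.2 hU
    obtain ⟨y, rfl⟩ := (h1 j).2.2 hV
    refine eq_univ_of_forall fun z => ?_
    by_cases hz : z = x
    · exact mem_iUnion₂.2 ⟨j, by simp, _, hV, fun e : z = y =>
        disjoint_left.1 (h2 hij) hU (by rwa [← hz, e])⟩
    · exact mem_iUnion₂.2 ⟨i, by simp, _, hU, hz⟩
  exact h3 {0, 1} {2, 3} ⟨by simp, by simp, by simp⟩ (by rw [key, key] <;> simp)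

theorem star_small [SecondCountableTopology X] (h : #X < 𝔠) : Star X := fun 𝒰 hU hf k χ => by
  have : Nonempty X := not_isEmpty_iff.1 fun _ =>
    hf ∅ (empty_subset _) finite_empty (Subsingleton.elim _ _)
  obtain ⟨𝒱, h1, h2, h3⟩ := count_large (𝒰 := 𝒰)
    ⟨⟨fun U a => (hU.1.1 U a).1, hU.1.2, fun a => (hU.1.1 _ a).2.2 rfl⟩, hU.2⟩
  have := h2.to_subtype
  have := ((h3 (Classical.arbitrary X)).mono fun _ h => h.1).to_subtype
  obtain ⟨f⟩ := nonempty_equiv_of_countable (α := ℕ) (β := 𝒱)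
  let U : ℕ → Set X := fun n => f n
  have hi : Function.Injective U := Subtype.val_injective.comp f.injective
  have hs : ∀ B, U '' B ⊆ 𝒰 := fun B => image_subset_iff.2 fun n _ => h1 (f n).2
  have h4 : ∀ x, {n | x ∈ U n}.Infinite := fun z hz =>
    h3 z ((hz.image U).subset fun V hV => ⟨f.symm ⟨V, hV.1⟩, by simpa [U] using hV.2, by simp [U]⟩)
  have h5 : ∀ a, ∃ x g, a ≤ g ∧ x ∈ U g ∧ ∀ j < a, x ∉ U j := fun a => by
    obtain ⟨x, hx⟩ := (ne_univ_iff_exists_notMem _).1 (hf _ (hs (Iio a)) ((finite_Iio a).image _))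
    obtain ⟨g, a1, a2⟩ := (h4 x).exists_gt a
    exact ⟨x, g, a2.le, a1, fun j a3 a4 => hx ⟨_, ⟨j, a3, rfl⟩, a4⟩⟩
  choose x g g1 g2 g3 using h5
  obtain ⟨c, F, a, a1, a2, a3, a4, a5⟩ :=
    mt h _ h4 (fun S T => χ s(⋃ j ∈ S, U j, ⋃ j ∈ T, U j)) g
  have h6 : ∀ y, {V | V ∈ ⋃ n, U '' F n ∧ y ∈ V}.Infinite := fun y =>
    ((a4 y).image hi.injOn).mono
      (image_subset_iff.2 fun j hj => hj.2.elim fun n d => ⟨mem_iUnion.2 ⟨n, j, d, rfl⟩, hj.1⟩)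
  refine ⟨fun n => U '' F n, fun n => ⟨(F n).finite_toSet.image _,
    ⟨_, a n, a3 n _ le_rfl (g1 _), rfl⟩, hs _⟩, fun m n hmn => (disjoint_image_iff hi).2
      (disjoint_left.2 fun j b1 b2 => hmn ?_), ⟨⟨fun V hV => hU.1.1 V (iUnion_subset
      (fun n => hs _) hV), eq_univ_of_forall fun y => (h6 y).nonempty⟩, h6⟩,
    fun H₁ H₂ ⟨_, ⟨n, hn⟩, b⟩ e => ?_, c, fun H₁ H₂ hH => ?_⟩
  · have := a1.lt_iff_lt.1 ((a2 m j b1).1.trans_lt (a2 n j b2).2)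
    have := a1.lt_iff_lt.1 ((a2 n j b2).1.trans_lt (a2 m j b1).2)
    omega
  · obtain ⟨m, b1, _, ⟨j, b2, rfl⟩, b3⟩ := mem_iUnion₂.1 (e.ge (mem_iUnion₂.2
      ⟨n, hn, _, ⟨_, a3 n _ (g1 _) le_rfl, rfl⟩, g2 (a n)⟩))
    exact g3 _ j ((a2 m j b2).2.trans_le (a1.monotone (b m b1 n hn))) b3
  · convert a5 H₁ H₂ hH using 3 <;> ext <;> simp

theorem neg (h : dNum < 𝔠) : ∃ X : Set (ℕ → ℕ), X.Infinite ∧ Star X ∧ ¬Menger X := by
  obtain ⟨D, h1, h2⟩ := ex_dom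
  let X := range fun p : D × ℕ => fun n => p.1.1 n + p.2
  have h3 : ∀ g : ℕ → ℕ, ∃ f ∈ X, ∀ n, g n < f n := fun g => by
    obtain ⟨f, a1, a2⟩ := h2 g
    obtain ⟨N, hN⟩ := eventually_atTop.1 a2
    refine ⟨_, ⟨(⟨f, a1⟩, (Finset.range N).sup g + 1), rfl⟩, fun n => ?_⟩
    by_cases hn : n < N
    · have := Finset.le_sup (f := g) (Finset.mem_range.2 hn)
      dsimp only; omega
    · have := hN n (not_lt.1 hn)
      dsimp only; omega
  refine ⟨X, Infinite.of_image (· 0) (infinite_of_forall_exists_gt fun k => ?_),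
    star_small (mk_range_le.trans_lt ?_), fun hM => ?_⟩
  · obtain ⟨f, a1, a2⟩ := h3 fun _ => k
    exact ⟨_, ⟨f, a1, rfl⟩, a2 0⟩
  · simpa [h1] using mul_lt_of_lt aleph0_le_continuum h aleph0_lt_continuum
  obtain ⟨F, a1, -, a2⟩ := hM (fun n => (fun k => {y : X | y.1 n = k}) '' range fun y : X => y.1 n)
    fun n => ⟨by
      rintro _ ⟨_, ⟨y, rfl⟩, rfl⟩
      obtain ⟨f, b1, b2⟩ := h3 y
      exact ⟨(isOpen_discrete {y.1 n}).preimage (f := fun z : X => z.1 n)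
        ((continuous_apply n).comp continuous_subtype_val), ⟨y, rfl⟩,
        (ne_univ_iff_exists_notMem _).2 ⟨⟨f, b1⟩, (b2 n).ne'⟩⟩,
      eq_univ_of_forall fun y => ⟨_, ⟨_, ⟨y, rfl⟩, rfl⟩, rfl⟩⟩
  have : ∀ n, ∃ b, ∀ U ∈ F n, ∀ y ∈ U, y.1 n ≤ b := fun n => by
    obtain ⟨t, -, b1, b2⟩ := (exists_subset_image_finite_and (p := (· = F n))).1
      ⟨_, (a1 n).2, (a1 n).1, rfl⟩
    obtain ⟨b, hb⟩ := b1.bddAbove
    refine ⟨b, fun U hU y hy => ?_⟩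
    obtain ⟨k, b3, rfl⟩ := b2.ge hU
    exact hy.trans_le (hb b3)
  choose b hb using this
  obtain ⟨f, b1, b2⟩ := h3 b
  obtain ⟨U, b3, b4⟩ := a2.ge (mem_univ ⟨f, b1⟩)
  obtain ⟨n, b5⟩ := mem_iUnion.1 b3
  exact (b2 n).not_ge (hb n U b5 _ b4)

end Pool.Agent.H42.Sumg
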