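import Pool.Agent.H42.Sum2
import Pool.Agent.H42.Spl2

/-! Under `u < g`, property `(*)` implies the Menger property. -/

namespace Pool.Agent.H42.Sumg

open Set Filter Cardinal Topology Pool.Agent.H42.Tau Pool.Agent.H42.PolD Pool.Agent.H42.Spl

variable {X : Type} [TopologicalSpace X]

lemma kill (V : ℕ → Set X) (h1 : ∀ k, IsOpen (V k)) (w : ℕ → X) (h2 : ∀ k, w k ∈ V k)
    (h3 : ∀ j k, j < k → w k ∉ V j) (h4 : ∀ y, {k | y ∈ V k}.Infinite)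
    (h5 : ∀ Z : Set ℕ, Z.Infinite → ∃ y, ({k | y ∈ V k} \ Z).Finite) : ¬Star X := fun h => by
  have hi : Function.Injective V := fun j k e => by
    rcases lt_trichotomy j k with a | a | a
    exacts [(h3 j k a (e ▸ h2 k)).elim, a, (h3 k j a (e ▸ h2 j)).elim]
  have hl : ∀ y, {U | U ∈ range V ∧ y ∈ U}.Infinite := fun y =>
    ((h4 y).image hi.injOn).mono (image_subset_iff.2 fun k hk => ⟨⟨k, rfl⟩, hk⟩)
  let up : Set X → ℕ := fun W => sInf {h | W ⊆ ⋃ j < h, V j}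
  let lo : Set X → ℕ := fun W => sSup {t | t ≤ up W ∧ W ⊆ ⋃ j ∈ Ico t (up W), V j}
  have bd : ∀ F ⊆ range V, F.Finite → ∃ b, ∀ j, V j ∈ F → j < b := fun F _ hF =>
    (hF.preimage hi.injOn).bddAbove.elim fun b hb => ⟨b + 1, fun j hj => Nat.lt_succ_of_le (hb hj)⟩
  obtain ⟨F, a1, a2, ⟨-, a3⟩, -, c, a4⟩ := h (range V) ⟨⟨forall_mem_range.2 fun k =>
    ⟨h1 k, ⟨_, h2 k⟩, (ne_univ_iff_exists_notMem _).2 ⟨_, h3 k _ k.lt_succ_self⟩⟩,
    eq_univ_of_forall fun y => (hl y).nonempty⟩, hl⟩ (fun F b1 b2 e => by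
      obtain ⟨b, hb⟩ := bd F b1 b2
      obtain ⟨U, b3, b4⟩ := e.ge (mem_univ (w b))
      obtain ⟨j, rfl⟩ := b1 b3
      exact h3 j b (hb j b3) b4) 2
    (Sym2.lift ⟨fun W W' => if up W < lo W' ∨ up W' < lo W then 0 else 1,
      fun _ _ => if_congr or_comm rfl rfl⟩)
  have b0 : ∀ n, ⋃₀ F n ⊆ ⋃ j < up (⋃₀ F n), V j := fun n => by
    obtain ⟨b, hb⟩ := bd _ (a1 n).2.2 (a1 n).1
    refine Nat.sInf_mem (s := {h | ⋃₀ F n ⊆ ⋃ j < h, V j}) ⟨b, fun y ⟨U, c1, c2⟩ => ?_⟩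
    obtain ⟨j, rfl⟩ := (a1 n).2.2 c1
    exact mem_iUnion₂.2 ⟨j, hb j c1, c2⟩
  have b1 : ∀ n j, V j ∈ F n → j < up (⋃₀ F n) := fun n j hj => by
    obtain ⟨i, c1, c2⟩ := mem_iUnion₂.1 (b0 n ⟨_, hj, h2 j⟩)
    exact (not_lt.1 fun c => h3 i j c c2).trans_lt c1
  have bb : ∀ W, BddAbove {t | t ≤ up W ∧ W ⊆ ⋃ j ∈ Ico t (up W), V j} :=
    fun W => ⟨up W, fun t ht => ht.1⟩
  have b2 : ∀ n, lo (⋃₀ F n) ≤ up (⋃₀ F n) ∧
      ⋃₀ F n ⊆ ⋃ j ∈ Ico (lo (⋃₀ F n)) (up (⋃₀ F n)), V j := fun n =>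
    Nat.sSup_mem (Set.nonempty_of_mem (x := 0) (by exact ⟨Nat.zero_le _, by simpa using b0 n⟩))
      (bb _)
  have b3 : ∀ t, {n | lo (⋃₀ F n) < t}.Finite := fun t => by
    refine ((finite_lt_nat t).biUnion fun j _ => Set.Subsingleton.finite (s := {n | V j ∈ F n})
      fun m c1 n c2 => not_not.1 fun c => disjoint_left.1 (a2 c) c1 c2).subset fun n hn => ?_
    by_contra c
    simp only [mem_iUnion, mem_ofPred_eq, not_exists] at c
    refine not_le.2 hn (le_csSup (bb _) ?_)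
    refine ⟨?_, fun y ⟨U, c1, c2⟩ => ?_⟩
    · obtain ⟨U, hU⟩ := (a1 n).2.1
      obtain ⟨j, rfl⟩ := (a1 n).2.2 hU
      exact (not_lt.1 fun d => c j d hU).trans (b1 n j hU).le
    · obtain ⟨j, rfl⟩ := (a1 n).2.2 c1
      exact mem_iUnion₂.2 ⟨j, ⟨not_lt.1 fun d => c j d c1, b1 n j c1⟩, c2⟩
  have b4 : ∀ m n, m < n →
      (if up (⋃₀ F m) < lo (⋃₀ F n) ∨ up (⋃₀ F n) < lo (⋃₀ F m) then 0 else 1) = c :=
    fun m n hmn => by simpa using a4 {m} {n} ⟨by simp, by simp, by simpa⟩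
  obtain ⟨n0, c1, c2⟩ := (b3 (up (⋃₀ F 0) + 1)).infinite_compl.exists_gt 0
  have b5 : ∀ m n, m < n → up (⋃₀ F m) < lo (⋃₀ F n) ∨ up (⋃₀ F n) < lo (⋃₀ F m) := fun m n e => by
    by_contra c
    have := (b4 m n e).trans (b4 0 n0 c2).symm
    rw [if_neg c, if_pos (Or.inl (by simpa using c1))] at this
    simp at this
  obtain ⟨y, hy⟩ := h5 {j | ∀ n, j ∉ Ico (lo (⋃₀ F n)) (up (⋃₀ F n))}
    (infinite_of_forall_exists_gt fun t => by
      obtain ⟨n, hn⟩ := (b3 (t + 1)).infinite_compl.nonempty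
      have := (b2 n).1
      simp only [mem_compl_iff, mem_ofPred_eq] at hn
      refine ⟨up (⋃₀ F n), fun m ⟨d1, d2⟩ => ?_, by omega⟩
      rcases lt_trichotomy m n with e | rfl | e
      exacts [by have := b5 m n e; omega, d2.false, by have := b5 n m e; omega])
  obtain ⟨M, hM⟩ := hy.bddAbove
  refine a3 y (((b3 (M + 1)).biUnion fun n _ => (a1 n).1).subset fun U hU => ?_)
  obtain ⟨n, hn⟩ := mem_iUnion.1 hU.1
  obtain ⟨j, d1, d2⟩ := mem_iUnion₂.1 ((b2 n).2 ⟨U, hn, hU.2⟩)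
  exact mem_iUnion₂.2 ⟨n, Nat.lt_succ_of_le (d1.1.trans (hM ⟨d2, fun d => d n d1⟩)), hn⟩

lemma Star.lind (h : Star X) : LindelofSpace X := ⟨isLindelof_of_countable_subcover
  fun {ι} U h1 h2 => by
    classical
    by_cases h0 : ∃ s : Finset ι, ⋃ i ∈ s, U i = Set.univ
    · exact h0.elim fun s hs => ⟨s, s.countable_toSet, hs.ge⟩
    push Not at h0
    let W : Finset ι → Set X := fun s => ⋃ i ∈ s, U i
    have h3 : ∀ F ⊆ range W, F.Finite → ∃ s, ⋃₀ F = W s := fun F a b => by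
      obtain ⟨t, -, c, rfl⟩ := (exists_subset_image_finite_and (f := W) (s := Set.univ)
        (p := (· = F))).1 ⟨_, by simpa using a, b, rfl⟩
      exact ⟨c.toFinset.biUnion id, by ext; simp [W]⟩
    have hl : ∀ x, {V | V ∈ range W \ {∅} ∧ x ∈ V}.Infinite := fun x hf => by
      obtain ⟨s, hs⟩ := h3 _ (fun _ h => h.1.1) hf
      obtain ⟨y, hy⟩ := (ne_univ_iff_exists_notMem _).1 (h0 s)
      obtain ⟨i, hi⟩ := mem_iUnion.1 (h2 (mem_univ x))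
      obtain ⟨j, hj⟩ := mem_iUnion.1 (h2 (mem_univ y))
      have : x ∈ W {i, j} := mem_iUnion₂.2 ⟨i, by simp, hi⟩
      exact hy (hs.le ⟨_, ⟨⟨⟨_, rfl⟩, Nonempty.ne_empty ⟨x, this⟩⟩, this⟩,
        mem_iUnion₂.2 ⟨j, by simp, hj⟩⟩)
    obtain ⟨F, a1, -, a2, -⟩ := h (range W \ {∅}) ⟨⟨by
      rintro _ ⟨⟨s, rfl⟩, a⟩
      exact ⟨isOpen_biUnion fun i _ => h1 i, nonempty_iff_ne_empty.2 a, h0 s⟩,
      eq_univ_of_forall fun x => (hl x).nonempty⟩, hl⟩ (fun F a b => by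
        obtain ⟨s, hs⟩ := h3 F (a.trans sdiff_subset) b
        exact hs ▸ h0 s) 1 fun _ => 0
    choose s hs using fun n => h3 _ ((a1 n).2.2.trans sdiff_subset) (a1 n).1
    refine ⟨⋃ n, s n, countable_iUnion fun n => (s n).countable_toSet, fun x _ => ?_⟩
    obtain ⟨V, b1, b2⟩ := a2.1.2.ge (mem_univ x)
    obtain ⟨n, b3⟩ := mem_iUnion.1 b1
    obtain ⟨i, b4, b5⟩ := mem_iUnion₂.1 ((hs n).le ⟨V, b3, b2⟩)
    exact mem_iUnion₂.2 ⟨i, mem_iUnion.2 ⟨n, b4⟩, b5⟩⟩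

lemma level [CompletelyRegularSpace X] [LindelofSpace X] [Nonempty X] {𝒰 : Set (Set X)}
    (h : OCov 𝒰) : ∃ g : X → ℝ, Continuous g ∧
      ∀ b : ℕ, ∃ F ⊆ 𝒰, F.Finite ∧ ∀ x, g x ≤ b → x ∈ ⋃₀ F := by
  choose U h1 h2 using fun x => h.2.ge (mem_univ x)
  choose f h3 h4 h5 using fun x =>
    CompletelyRegularSpace.completely_regular_isOpen x (U x) (h.1 _ (h1 x)).1 (h2 x)
  obtain ⟨e, he⟩ := isLindelof_univ.indexed_countable_subcover (fun x => {y | f x y ≠ 1})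
    (fun x => isOpen_ne.preimage (f := f x) (h3 x))
    fun x _ => mem_iUnion.2 ⟨x, by simp [h4]⟩
  let Z := ↥{z : ℕ → unitInterval | ∃ j, z j ≠ 1}
  let := TopologicalSpace.metrizableSpaceMetric Z
  obtain ⟨g, hg⟩ := exists_continuous_forall_mem_convex_of_local_const (X := Z)
    (t := fun z => {r : ℝ | ∃ j < ⌊r⌋₊, z.1 j ≠ 1}) (fun z => (IsUpperSet.ordConnected
      fun r s hs hr => hr.imp fun j hj => ⟨hj.1.trans_le (Nat.floor_mono hs), hj.2⟩).convex)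
    fun z => z.2.elim fun j hj => ⟨(j + 1 : ℕ), by
      filter_upwards [(isOpen_ne.preimage (f := fun z : Z => z.1 j)
        ((continuous_apply j).comp continuous_subtype_val)).mem_nhds hj] with y hy
      exact ⟨j, by rw [Nat.floor_natCast]; simp, hy⟩⟩
  refine ⟨fun x => g ⟨fun j => f (e j) x, mem_iUnion.1 (he (mem_univ x))⟩, g.continuous.comp
    ((continuous_pi fun j => h3 _).subtype_mk _), fun b => ⟨(fun j => U (e j)) '' Iio b,
      image_subset_iff.2 fun j _ => h1 _, (finite_Iio b).image _, fun x hx => ?_⟩⟩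
  obtain ⟨j, a1, a2⟩ := hg ⟨fun j => f (e j) x, mem_iUnion.1 (he (mem_univ x))⟩
  exact ⟨_, ⟨j, a1.trans_le (Nat.floor_le_of_le hx), rfl⟩, not_not.1 fun c => a2 (h5 _ c)⟩

lemma g_le_d : gNum ≤ dNum := by
  obtain ⟨D, h1, h2⟩ := ex_dom
  refine le_trans (csInf_le' ⟨range fun f : D => {Z : Set ℕ | Z.Infinite ∧
    ∃ᶠ n in atTop, ∀ z ∈ Z, ¬(n ≤ z ∧ z ≤ f.1 n)}, rfl, forall_mem_range.2 fun ⟨f, _⟩ =>
    ⟨fun _ h => h.1, fun Z hZ Z' a b => ⟨a, ?_⟩, fun p hp => ?_⟩,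
    eq_empty_of_forall_notMem fun Z hZ => ?_⟩) (mk_range_le.trans h1.le)
  · obtain ⟨M, hM⟩ := b.bddAbove
    refine (hZ.2.and_eventually (eventually_gt_atTop M)).mono fun n hn z hz c => ?_
    exact hn.1 z (not_not.1 fun d => (hM ⟨hz, d⟩).not_gt (hn.2.trans_le c.1)) c
  · let t : ℕ → ℕ := fun k => (fun j => f (p (j + 1)) + j + 1)^[k] 0
    have ht : ∀ k, t (k + 1) = f (p (t k + 1)) + t k + 1 := fun k =>
      Function.iterate_succ_apply' _ _ _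
    have ht' : StrictMono t := strictMono_nat_of_lt_succ fun k => by rw [ht]; omega
    refine ⟨range t, infinite_range_of_injective ht'.injective,
      (infinite_range_of_injective (hp.comp ht').injective).mono (range_subset_iff.2 fun k =>
        mem_iUnion₂.2 ⟨_, ⟨k, rfl⟩, le_rfl, hp (Nat.lt_succ_self _)⟩),
      frequently_atTop.2 fun k => ⟨p (t k + 1), ?_, fun z hz => ?_⟩⟩
    · exact (ht'.le_apply.trans (Nat.le_succ _)).trans hp.le_apply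
    obtain ⟨_, ⟨j, rfl⟩, b1, b2⟩ := mem_iUnion₂.1 hz
    rcases le_or_gt j k with c | c
    · have := hp.monotone (Nat.add_le_add_right (ht'.monotone c) 1)
      omega
    · have := ht'.monotone (Nat.succ_le_of_lt c)
      have := hp.le_apply (x := t j)
      have := ht k
      simp only [Nat.succ_eq_add_one] at *
      omega
  · obtain ⟨f0, a0, -⟩ := h2 id
    obtain ⟨s, hs⟩ := ex_next (forall_mem_range.1 hZ ⟨f0, a0⟩).1
    obtain ⟨f, a1, a2⟩ := h2 s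
    obtain ⟨n, a3, a4⟩ := ((forall_mem_range.1 hZ ⟨f, a1⟩).2.and_eventually a2).exists
    exact a3 _ (hs n).1 ⟨(hs n).2, a4⟩

end Pool.Agent.H42.Sumg
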