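import Pool.Agent.H42.SplDefs
import Pool.Agent.H42.PolD

/-! Monochromatic sumgraphs of large covers and the Menger property. -/

namespace Pool.Agent.H42.Sumg

variable {X : Type} [TopologicalSpace X]

/-- open covers by nonempty proper subsets -/
def OCov (𝒰 : Set (Set X)) : Prop :=
  (∀ U ∈ 𝒰, IsOpen U ∧ U.Nonempty ∧ U ≠ Set.univ) ∧ ⋃₀ 𝒰 = Set.univ

/-- large open covers -/
def LCov (𝒰 : Set (Set X)) : Prop := OCov 𝒰 ∧ ∀ x, {U | U ∈ 𝒰 ∧ x ∈ U}.Infinite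

def Menger (X : Type) [TopologicalSpace X] : Prop :=
  ∀ 𝒰 : ℕ → Set (Set X), (∀ n, OCov (𝒰 n)) →
    ∃ F : ℕ → Set (Set X), (∀ n, (F n).Finite ∧ F n ⊆ 𝒰 n) ∧ OCov (⋃ n, F n)

/-- `H₁ < H₂` for nonempty finite sets -/
def Lt (H₁ H₂ : Finset ℕ) : Prop := H₁.Nonempty ∧ H₂.Nonempty ∧ ∀ a ∈ H₁, ∀ b ∈ H₂, a < b

/-- the conclusion of `(*)` for the cover `𝒰` and every colouring -/
def Concl (𝒰 : Set (Set X)) : Prop :=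
  ∀ (k : ℕ) (χ : Sym2 (Set X) → Fin k), ∃ F : ℕ → Set (Set X),
    (∀ n, (F n).Finite ∧ (F n).Nonempty ∧ F n ⊆ 𝒰) ∧ Pairwise (fun m n => Disjoint (F m) (F n)) ∧
    LCov (⋃ n, F n) ∧ (∀ H₁ H₂, Lt H₁ H₂ → (⋃ i ∈ H₁, ⋃₀ F i) ≠ ⋃ i ∈ H₂, ⋃₀ F i) ∧
    ∃ c, ∀ H₁ H₂, Lt H₁ H₂ → χ s(⋃ i ∈ H₁, ⋃₀ F i, ⋃ i ∈ H₂, ⋃₀ F i) = c

/-- `(*)` read literally -/
def StarLit (X : Type) [TopologicalSpace X] : Prop := ∀ 𝒰 : Set (Set X), LCov 𝒰 → Concl 𝒰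

/-- `(*)` for large covers without finite subcover -/
def Star (X : Type) [TopologicalSpace X] : Prop :=
  ∀ 𝒰 : Set (Set X), LCov 𝒰 → (∀ F ⊆ 𝒰, F.Finite → ⋃₀ F ≠ Set.univ) → Concl 𝒰

end Pool.Agent.H42.Sumg
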