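import Pool.Agent.H42.Tau1

/-! Under CH, two Sierpinski sets whose product fails `Split(T, T)`. -/

namespace Pool.Agent.H42.Tau

open Set Filter MeasureTheory Topology Cardinal Pool.Agent.H42.PropT Pool.Agent.H42.Dirac
  Pool.Agent.H42.BG Classical

lemma tower (hCH : (𝔠 : Cardinal.{0}) = ℵ₁) : ∃ t : W → Set ℕ, (∀ α, (t α).Infinite) ∧
    (∀ α β, (t α \ t β).Finite ∨ (t β \ t α).Finite) ∧
    (∀ A, ∃ α, (t α \ A).Finite ∨ (t α ∩ A).Finite) ∧ ∀ n m, n ≠ m → ∃ α, n ∉ t α ∧ m ∈ t α := by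
  obtain ⟨e, he⟩ := ex_enum hCH (τ := Set ℕ × ℕ × ℕ) (by simp)
  obtain ⟨t, ht⟩ := rec_w (σ := Set ℕ) (fun α g s => s.Infinite ∧ (∀ β, (s \ g β).Finite) ∧
    ((s \ (e α).1).Finite ∨ (s ∩ (e α).1).Finite) ∧
      ((e α).2.1 ≠ (e α).2.2 → (e α).2.1 ∉ s ∧ (e α).2.2 ∈ s)) fun α g hg => by
    have := (Iio_count α).to_subtype
    obtain ⟨E, h1, h2⟩ := pseudo g (fun β => (hg β).1) fun β γ => by
      rcases lt_trichotomy β γ with h | rfl | h
      exacts [Or.inr ((hg γ).2.1 ⟨β, h⟩), Or.inl (by simp), Or.inl ((hg β).2.1 ⟨γ, h⟩)]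
    obtain ⟨E', h3, h4, h5⟩ : ∃ E' ⊆ E, E'.Infinite ∧
        (E' \ (e α).1 = ∅ ∨ E' ∩ (e α).1 = ∅) := by
      rcases infinite_union.1 (inter_union_sdiff E (e α).1 ▸ h1) with h | h
      exacts [⟨_, inter_subset_left, h, Or.inl (sdiff_eq_empty.2 inter_subset_right)⟩,
        ⟨_, sdiff_subset, h, Or.inr (by simp)⟩]
    refine ⟨insert (e α).2.2 (E' \ {(e α).2.1}),
      (h4.sdiff (finite_singleton _)).mono (subset_insert _ _),
      fun β => ((h2 β).insert (e α).2.2).subset ?_, h5.imp (fun h => ?_) fun h => ?_,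
      fun h => ⟨by simp [h], mem_insert _ _⟩⟩
    · rintro x ⟨rfl | a, b⟩
      exacts [mem_insert _ _, Or.inr ⟨h3 a.1, b⟩]
    · refine (finite_singleton (e α).2.2).subset ?_
      rintro x ⟨rfl | a, b⟩
      exacts [rfl, (h.le ⟨a.1, b⟩).elim]
    · refine (finite_singleton (e α).2.2).subset ?_
      rintro x ⟨rfl | a, b⟩
      exacts [rfl, (h.le ⟨a.1, b⟩).elim]
  refine ⟨t, fun α => (ht α).1, fun β γ => ?_, fun A => ?_, fun n m h => ?_⟩
  · rcases lt_trichotomy β γ with h | rfl | h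
    exacts [Or.inr ((ht γ).2.1 ⟨β, h⟩), Or.inl (by simp), Or.inl ((ht β).2.1 ⟨γ, h⟩)]
  · obtain ⟨α, hα⟩ := he (A, 0, 0)
    exact ⟨α, by simpa [hα] using (ht α).2.2.1⟩
  · obtain ⟨α, hα⟩ := he (∅, n, m)
    exact ⟨α, by simpa [hα, h] using (ht α).2.2.2⟩

/-- flipping the odd coordinates coded by `t` -/
noncomputable def fl (t : Set ℕ) (x : C) : C := fun i => if i ∈ (2 * · + 1) '' t then !x i else x i

lemma null_ev (x : C) : lam {y | ∀ n, y (2 * n) = x (2 * n)} = 0 := by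
  refine le_antisymm (ge_of_tendsto' (ENNReal.tendsto_pow_atTop_nhds_zero_of_lt_one
    (r := 2⁻¹) (by simp)) fun n => ?_) zero_le
  have := lam_pi ((Finset.range n).image (2 * ·)) x
  rw [Finset.card_image_of_injective _ fun a b h => by simpa using h, Finset.card_range] at this
  rw [← this]
  exact measure_mono fun y hy => by simpa using fun i _ => hy i

lemma points (hCH : (𝔠 : Cardinal.{0}) = ℵ₁) (t : W → Set ℕ) : ∃ a : W → C,
    (∀ N, lam N = 0 → {α | a α ∈ N}.Countable ∧ {α | fl (t α) (a α) ∈ N}.Countable) ∧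
      ∀ α β, (∀ n, a α (2 * n) = a β (2 * n)) → α = β := by
  obtain ⟨e, he⟩ := ex_enum hCH (τ := {s : Set C // MeasurableSet s}) card_meas
  obtain ⟨a, ha⟩ := rec_w (σ := C) (fun α g s => (∀ β ≤ α, lam (e β) = 0 → s ∉ (e β).1 ∧
    fl (t α) s ∉ (e β).1) ∧ ∀ β, ¬∀ n, s (2 * n) = g β (2 * n)) fun α g _ => by
    have := (Iio_count α).to_subtype
    refine Eventually.exists (f := ae lam) (((ae_ball_iff (Iic_count α)).2 fun β _ => ?_).and
      (ae_all_iff.2 fun β => ?_))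
    · by_cases h : lam (e β) = 0
      · exact ((measure_eq_zero_iff_ae_notMem.1 h).and (measure_eq_zero_iff_ae_notMem.1
          (((GroT1.flip_mp _).measure_preimage (e β).2.nullMeasurableSet).trans h))).mono
          fun x hx _ => hx
      · exact .of_forall fun x h' => absurd h' h
    · exact measure_eq_zero_iff_ae_notMem.1 (null_ev (g β))
  refine ⟨a, fun N hN => ?_, fun α β h => ?_⟩
  · obtain ⟨β, hβ⟩ := he ⟨toMeasurable lam N, measurableSet_toMeasurable _ _⟩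
    have := fun α h => (ha α).1 β h (by simp [hβ, hN])
    simp only [hβ] at this
    exact ⟨(Iio_count β).mono fun α h => not_le.1 fun h' =>
      (this α h').1 (subset_toMeasurable _ _ h), (Iio_count β).mono fun α h => not_le.1 fun h' =>
      (this α h').2 (subset_toMeasurable _ _ h)⟩
  · rcases lt_trichotomy α β with h' | h' | h'
    exacts [((ha β).2 ⟨α, h'⟩ fun n => (h n).symm).elim, h', ((ha α).2 ⟨β, h'⟩ h).elim]

lemma not_split {Z : Type} [TopologicalSpace Z] {U : ℕ → Set Z} (h0 : ∀ n, IsOpen (U n))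
    (h1 : ∀ z, {n | z ∈ U n}.Infinite)
    (h2 : ∀ z w, {n | z ∈ U n ∧ w ∉ U n}.Finite ∨ {n | w ∈ U n ∧ z ∉ U n}.Finite)
    (h3 : ∀ A, ∃ z, ({n | z ∈ U n} \ A).Finite ∨ ({n | z ∈ U n} ∩ A).Finite)
    (h4 : ∀ n m, n ≠ m → ∃ z, z ∉ U n ∧ z ∈ U m) : ¬SplitTT Z := fun h => by
  have hi : Function.Injective U := fun n m e => by
    by_contra h'
    obtain ⟨z, a, b⟩ := h4 n m h'
    exact a (e ▸ b)
  have key : ∀ {p : Set Z → Prop}, {n | p (U n)}.Finite → {V | V ∈ range U ∧ p V}.Finite :=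
    fun h => (h.image U).subset fun _ ⟨⟨n, a⟩, b⟩ => ⟨n, by subst a; exact b, a⟩
  obtain ⟨𝒱, 𝒲, a1, a2, ⟨𝒱', a3, a4⟩, 𝒲', a5, a6⟩ := h (range U) ⟨⟨⟨forall_mem_range.2 h0,
    eq_univ_of_forall fun z => (h1 z).nonempty.elim fun n hn => ⟨_, ⟨n, rfl⟩, hn⟩,
    fun ⟨n, hn⟩ => (h4 n (n + 1) (by omega)).elim fun z hz => hz.1 (hn ▸ trivial)⟩,
    fun z => ((h1 z).image hi.injOn).mono (image_subset_iff.2 fun n hn => ⟨⟨n, rfl⟩, hn⟩)⟩,
    fun z w => (h2 z w).imp key key⟩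
  obtain ⟨z, hz | hz⟩ := h3 (U ⁻¹' 𝒱)
  · refine a6.1.2 z ((hz.image U).subset fun V hV => ?_)
    obtain ⟨n, rfl⟩ : V ∈ range U := a1 ▸ Or.inr (a5 hV.1)
    exact ⟨n, ⟨hV.2, fun h' => disjoint_left.1 a2 h' (a5 hV.1)⟩, rfl⟩
  · refine a4.1.2 z ((hz.image U).subset fun V hV => ?_)
    obtain ⟨n, rfl⟩ : V ∈ range U := a1 ▸ Or.inl (a3 hV.1)
    exact ⟨n, ⟨hV.2, a3 hV.1⟩, rfl⟩

lemma emb : ∃ φ : C → ℝ, ∀ a : W → C, ∃ e : range (φ ∘ a) → C, IsInducing e ∧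
    ∀ α, e ⟨_, α, rfl⟩ = a α := by
  obtain ⟨φ, -, hc, hi⟩ := (PerfectSpace.univ_perfect (α := ℝ)).exists_nat_bool_injection
    univ_nonempty
  have hφ := (hc.isClosedEmbedding hi).isEmbedding
  refine ⟨φ, fun a => ?_⟩
  have key : ∀ x : range (φ ∘ a), φ (Function.invFun φ x) = x := fun ⟨_, α, h⟩ =>
    Function.invFun_eq ⟨_, h⟩
  exact ⟨fun x => Function.invFun φ x, (hφ.isInducing.of_comp_iff).1
    (by rw [show φ ∘ _ = Subtype.val from funext key]; exact IsInducing.subtypeVal),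
    fun α => Function.leftInverse_invFun hi _⟩

theorem main (hCH : (𝔠 : Cardinal.{0}) = ℵ₁) :
    ∃ X Y : Set ℝ, TG X ∧ TG Y ∧ ¬SplitTT (X × Y) := by
  obtain ⟨t, t1, t2, t3, t4⟩ := tower hCH
  obtain ⟨a, a1, a2⟩ := points hCH t
  obtain ⟨φ, hφ⟩ := emb
  obtain ⟨e, e1, e2⟩ := hφ a
  obtain ⟨f, f1, f2⟩ := hφ fun α => fl (t α) (a α)
  obtain ⟨α0, -⟩ := t3 ∅
  have key : ∀ (b : W → C) (e : range (φ ∘ b) → C), IsInducing e → (∀ α, e ⟨_, α, rfl⟩ = b α) →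
      (∀ N, lam N = 0 → {α | b α ∈ N}.Countable) → TG (range (φ ∘ b)) := fun b e h1 h2 h3 => by
    have : Nonempty (range (φ ∘ b)) := ⟨⟨_, α0, rfl⟩⟩
    refine tg_of h1 fun N hN => ((h3 N hN).image fun α => ⟨_, α, rfl⟩).mono ?_
    rintro ⟨_, α, rfl⟩ h
    exact ⟨α, by rwa [mem_preimage, h2] at h, rfl⟩
  refine ⟨_, _, key _ e e1 e2 fun N h => (a1 N h).1, key _ f f1 f2 fun N h => (a1 N h).2, ?_⟩
  let U : ℕ → Set (range (φ ∘ a) × range (φ ∘ fun α => fl (t α) (a α))) := fun n =>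
    {z | (∃ k, e z.1 (2 * k) ≠ f z.2 (2 * k)) ∨ e z.1 (2 * n + 1) ≠ f z.2 (2 * n + 1)}
  have ev : ∀ α n, fl (t α) (a α) (2 * n) = a α (2 * n) := fun α n =>
    if_neg fun ⟨m, _, h⟩ => by beta_reduce at h; omega
  have hU : ∀ α, {n | (⟨_, α, rfl⟩, ⟨_, α, rfl⟩) ∈ U n} = t α := fun α => by
    ext n
    simp only [U, mem_ofPred, e2, f2, ev, ne_eq, not_true, exists_false, false_or]
    by_cases h : n ∈ t α <;> simp [fl, h]
  have hz : ∀ z, {n | z ∈ U n} = Set.univ ∨ ∃ α, {n | z ∈ U n} = t α := by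
    rintro ⟨⟨_, α, rfl⟩, _, β, rfl⟩
    by_cases h : α = β
    · subst h; exact Or.inr ⟨α, hU α⟩
    · refine Or.inl (eq_univ_of_forall fun n => Or.inl ?_)
      simp only [e2, f2, ev]
      exact not_forall.1 fun h' => h (a2 _ _ h')
  have op : ∀ i, IsOpen {z : range (φ ∘ a) × range (φ ∘ fun α => fl (t α) (a α)) |
      e z.1 i ≠ f z.2 i} := fun i => isOpen_ne_fun
    ((continuous_apply i).comp (e1.continuous.comp continuous_fst))
    ((continuous_apply i).comp (f1.continuous.comp continuous_snd))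
  refine not_split (U := U) (fun n => IsOpen.union ?_ (op _)) (fun z => ?_) (fun z w => ?_)
    (fun A => (t3 A).elim fun α h => ⟨_, hU α ▸ h⟩) fun n m h => (t4 n m h).elim fun α h =>
      ⟨_, fun h' => h.1 ((hU α).le h'), (hU α).ge h.2⟩
  · have := isOpen_iUnion fun k => op (2 * k)
    rwa [← ofPred_exists] at this
  · rcases hz z with h | ⟨α, h⟩ <;> rw [h]
    exacts [infinite_univ, t1 α]
  · change ({n | z ∈ U n} \ {n | w ∈ U n}).Finite ∨ ({n | w ∈ U n} \ {n | z ∈ U n}).Finite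
    rcases hz z with h | ⟨α, h⟩
    · simp [h]
    rcases hz w with h' | ⟨β, h'⟩
    · simp [h']
    · rw [h, h']; exact t2 α β

end Pool.Agent.H42.Tau
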