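import Mathlib

/-! Large covers, tau-covers, gamma-covers, and two selection properties. -/

namespace Pool.Agent.H42.Tau

variable {X : Type} [TopologicalSpace X]

/-- an open cover that does not contain the whole space -/
def Cov (𝒰 : Set (Set X)) : Prop :=
  (∀ U ∈ 𝒰, IsOpen U) ∧ ⋃₀ 𝒰 = Set.univ ∧ Set.univ ∉ 𝒰

def Large (𝒰 : Set (Set X)) : Prop := Cov 𝒰 ∧ ∀ x, {U | U ∈ 𝒰 ∧ x ∈ U}.Infinite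

def TauC (𝒰 : Set (Set X)) : Prop :=
  Large 𝒰 ∧ ∀ x y, {U | U ∈ 𝒰 ∧ x ∈ U ∧ y ∉ U}.Finite ∨ {U | U ∈ 𝒰 ∧ y ∈ U ∧ x ∉ U}.Finite

def GamC (𝒰 : Set (Set X)) : Prop := Cov 𝒰 ∧ 𝒰.Infinite ∧ ∀ x, {U | U ∈ 𝒰 ∧ x ∉ U}.Finite

/-- `Split(T, T)` -/
def SplitTT (X : Type) [TopologicalSpace X] : Prop :=
  ∀ 𝒰 : Set (Set X), TauC 𝒰 → ∃ 𝒱 𝒲, 𝒱 ∪ 𝒲 = 𝒰 ∧ Disjoint 𝒱 𝒲 ∧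
    (∃ 𝒱' ⊆ 𝒱, TauC 𝒱') ∧ ∃ 𝒲' ⊆ 𝒲, TauC 𝒲'

/-- `T choose Γ` -/
def TG (X : Type) [TopologicalSpace X] : Prop :=
  ∀ 𝒰 : Set (Set X), TauC 𝒰 → ∃ 𝒱 ⊆ 𝒰, GamC 𝒱

end Pool.Agent.H42.Tau
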