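import Pool.Agent.H42.Reg

/-! A colouring of triples of `2 ^ continuum` points. -/

namespace Pool.Agent.H42.Triples

open Cardinal Set Pool.Agent.H42.Reg

universe u v

theorem cmono {S : Type u} {s t : Set S} (ht : t.Countable) (h : ∀ x, x ∈ s → x ∈ t) :
    s.Countable := ht.mono h

theorem exists_thin {S : Type u} {K : Type v} [LinearOrder K] [WellFoundedLT K] (d : S → K)
    {B : Set S} (hB : ¬ B.Countable) (hd : ∀ ξ, {x | x ∈ B ∧ d x = ξ}.Countable) :
    ∃ A ⊆ B, ¬ A.Countable ∧ ∀ a ∈ A, {x | x ∈ A ∧ d x ≤ d a}.Countable := by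
  refine ⟨{a | a ∈ B ∧ {x | x ∈ B ∧ d x < d a}.Countable}, fun a ha => ha.1, fun hc => ?_,
    fun a ha => ?_⟩
  · have hne : ∃ ξ, ∃ a ∈ B, d a = ξ ∧ ¬ {x | x ∈ B ∧ d x < d a}.Countable := by
      by_contra h
      push Not at h
      exact hB (cmono hc fun a ha => ⟨ha, h _ a ha rfl⟩)
    obtain ⟨ξ, ⟨a, ha, rfl, h1⟩, h2⟩ := exists_min _ hne
    refine h1 (cmono hc fun x hx => ⟨hx.1, ?_⟩)
    by_contra h
    exact h2 _ hx.2 ⟨x, hx.1, rfl, h⟩
  · refine (ha.2.union (hd (d a))).mono fun x hx => ?_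
    rcases hx.2.eq_or_lt with h | h
    · exact Or.inr ⟨hx.1.1, h⟩
    · exact Or.inl ⟨hx.1.1, h⟩

theorem exists_cut {S : Type u} (h : S → ℝ) {C : Set S} (hC : ¬ C.Countable)
    (hh : ∀ t, {x | x ∈ C ∧ h x = t}.Countable) :
    ∃ q : ℝ, ¬ {x | x ∈ C ∧ h x < q}.Countable ∧ ¬ {x | x ∈ C ∧ q < h x}.Countable := by
  by_contra hc
  push Not at hc
  apply hC
  let L : Set ℚ := {q | {x | x ∈ C ∧ h x < q}.Countable}
  let R : Set ℚ := {q | {x | x ∈ C ∧ (q : ℝ) < h x}.Countable}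
  let M : Set S := {x | x ∈ C ∧ (∀ q ∈ L, (q : ℝ) ≤ h x) ∧ ∀ q ∈ R, h x ≤ q}
  have hM : M.Countable := by
    rcases M.eq_empty_or_nonempty with h0 | ⟨a, ha⟩
    · rw [h0]; exact countable_empty
    · refine cmono (hh (h a)) fun x hx => ⟨hx.1, ?_⟩
      have key : ∀ y ∈ M, ∀ z ∈ M, ¬ h y < h z := by
        intro y hy z hz hlt
        obtain ⟨q, h1, h2⟩ := exists_rat_btwn hlt
        by_cases hq : q ∈ L
        · exact (hy.2.1 q hq).not_gt h1
        · exact (hz.2.2 q (hc q hq)).not_gt h2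
      exact le_antisymm (not_lt.1 (key a ha x hx)) (not_lt.1 (key x hx a ha))
  have h1 : (⋃ q ∈ L, {x | x ∈ C ∧ h x < q}).Countable :=
    (to_countable L).biUnion fun q hq => hq
  have h2 : (⋃ q ∈ R, {x | x ∈ C ∧ (q : ℝ) < h x}).Countable :=
    (to_countable R).biUnion fun q hq => hq
  refine ((h1.union h2).union hM).mono fun x hx => ?_
  by_cases ha : ∃ q ∈ L, h x < q
  · obtain ⟨q, hq, hlt⟩ := ha
    exact Or.inl (Or.inl (mem_biUnion hq ⟨hx, hlt⟩))
  by_cases hb : ∃ q ∈ R, (q : ℝ) < h x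
  · obtain ⟨q, hq, hlt⟩ := hb
    exact Or.inl (Or.inr (mem_biUnion hq ⟨hx, hlt⟩))
  push Not at ha hb
  exact Or.inr ⟨hx, ha, hb⟩

theorem exists_chain {S : Type u} [LinearOrder S] {K : Type v} [LinearOrder K] (d : S → K)
    (h : S → ℝ) {A : Set S} (h1 : ∀ a ∈ A, {x | x ∈ A ∧ x ≤ a}.Countable)
    (h2 : ∀ a ∈ A, {x | x ∈ A ∧ d x ≤ d a}.Countable)
    (hh : ∀ t, {x | x ∈ A ∧ h x = t}.Countable) (n : ℕ) :
    ∀ C ⊆ A, ¬ C.Countable → ∃ Y : Finset S, (Y : Set S) ⊆ C ∧ Y.card = n ∧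
      ∀ x ∈ Y, ∀ y ∈ Y, x < y → d x < d y ∧ h x < h y := by
  classical
  induction n with
  | zero => intro C _ _; exact ⟨∅, by simp, rfl, by simp⟩
  | succ n ih =>
    intro C hCA hC
    obtain ⟨q, hq1, hq2⟩ := exists_cut h hC
      (fun t => cmono (hh t) fun x hx => ⟨hCA hx.1, hx.2⟩)
    obtain ⟨Y, hY, hcard, hmono⟩ := ih _ (fun x hx => hCA hx.1) hq1
    have hN : (⋃ a ∈ (Y : Set S), ({x | x ∈ A ∧ x ≤ a} ∪ {x | x ∈ A ∧ d x ≤ d a})).Countable :=
      Y.countable_toSet.biUnion fun a ha =>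
        (h1 a (hCA (hY ha).1)).union (h2 a (hCA (hY ha).1))
    obtain ⟨z, hz, hzN⟩ : ∃ z ∈ {x | x ∈ C ∧ q < h x},
        z ∉ ⋃ a ∈ (Y : Set S), ({x | x ∈ A ∧ x ≤ a} ∪ {x | x ∈ A ∧ d x ≤ d a}) := by
      by_contra hc
      push Not at hc
      exact hq2 (hN.mono hc)
    have hzA : z ∈ A := hCA hz.1
    have hz1 : ∀ a ∈ Y, a < z ∧ d a < d z := by
      intro a ha
      constructor
      · by_contra hc
        exact hzN (mem_biUnion ha (Or.inl ⟨hzA, not_lt.1 hc⟩))
      · by_contra hc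
        exact hzN (mem_biUnion ha (Or.inr ⟨hzA, not_lt.1 hc⟩))
    have hzY : z ∉ Y := fun hc => lt_irrefl _ (hz1 z hc).1
    refine ⟨insert z Y, ?_, by rw [Finset.card_insert_of_notMem hzY, hcard], ?_⟩
    · intro x hx
      rcases Finset.mem_insert.1 hx with rfl | hx
      · exact hz.1
      · exact (hY hx).1
    · intro x hx y hy hxy
      rcases Finset.mem_insert.1 hx with h1 | hx' <;> rcases Finset.mem_insert.1 hy with h2 | hy'
      · exact absurd (h1.trans h2.symm) hxy.ne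
      · exact absurd (h1 ▸ hxy) (hz1 y hy').1.not_gt
      · rw [h2]; exact ⟨(hz1 x hx').2, (hY hx').2.trans hz.2⟩
      · exact hmono x hx' y hy' hxy

theorem exists_dl (K : Type v) [LinearOrder K] [WellFoundedLT K] [Nonempty K] :
    ∃ dl : (K → Bool) → (K → Bool) → K,
      (∀ x y, x ≠ y → x (dl x y) ≠ y (dl x y) ∧ ∀ ξ < dl x y, x ξ = y ξ) ∧
      ∀ x y δ, x δ ≠ y δ → (∀ ξ < δ, x ξ = y ξ) → dl x y = δ := by
  have : ∀ x y : K → Bool, ∃ δ, x ≠ y → x δ ≠ y δ ∧ ∀ ξ < δ, x ξ = y ξ := by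
    intro x y
    by_cases h : x = y
    · exact ⟨Classical.arbitrary K, fun h' => absurd h h'⟩
    · obtain ⟨δ, h1, h2⟩ := exists_min (fun δ => x δ ≠ y δ) (Function.ne_iff.1 h)
      exact ⟨δ, fun _ => ⟨h1, fun ξ hξ => not_not.1 (h2 ξ hξ)⟩⟩
  choose dl hdl using this
  refine ⟨dl, hdl, fun x y δ h1 h2 => ?_⟩
  have hxy : x ≠ y := fun h => h1 (h ▸ rfl)
  rcases lt_trichotomy (dl x y) δ with h | h | h
  · exact absurd (h2 _ h) (hdl x y hxy).1
  · exact h
  · exact absurd ((hdl x y hxy).2 _ h) h1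

theorem main {S : Type u} [LinearOrder S] [WellFoundedLT S] {K : Type v} [LinearOrder K]
    [WellFoundedLT K] [Nonempty K] (φ : S → K → Bool) (hφ : Function.Injective φ) (r : K → ℝ)
    (hr : Function.Injective r) :
    ∃ col : S → S → S → Bool, ∀ A : Set S, ¬ A.Countable → ∀ (n : ℕ) (i : Bool),
      ∃ Y : Finset S, (Y : Set S) ⊆ A ∧ Y.card = n ∧
        ∀ x ∈ Y, ∀ y ∈ Y, ∀ z ∈ Y, x < y → y < z → col x y z = i := by
  classical
  obtain ⟨dl, hdl, hdl'⟩ := exists_dl K
  refine ⟨fun x y z => if dl (φ x) (φ y) < dl (φ y) (φ z) then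
    decide (r (dl (φ x) (φ y)) < r (dl (φ y) (φ z))) else φ x (dl (φ x) (φ y)),
    fun A₀ hA₀ n i => ?_⟩
  obtain ⟨A, hAA, hA, hgood⟩ := exists_thin (fun x : S => x) hA₀
    (fun ξ => (countable_singleton ξ).mono fun x hx => hx.2)
  by_cases hsplit : ∀ B ⊆ A, ¬ B.Countable → ∃ (δ : K) (s : K → Bool), ∀ j : Bool,
      ¬ {x | x ∈ B ∧ (∀ ξ < δ, φ x ξ = s ξ) ∧ φ x δ = j}.Countable
  · have key : ∀ B ⊆ A, ¬ B.Countable → ∃ Y : Finset S, (Y : Set S) ⊆ B ∧ Y.card = n ∧
        (∀ x ∈ Y, ∀ y ∈ Y, x < y → φ x (dl (φ x) (φ y)) = i) ∧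
        ∀ x ∈ Y, ∀ y ∈ Y, ∀ z ∈ Y, x < y → y < z → ¬ dl (φ x) (φ y) < dl (φ y) (φ z) := by
      induction n with
      | zero => intro B _ _; exact ⟨∅, by simp, rfl, by simp, by simp⟩
      | succ n ih =>
        intro B hBA hB
        obtain ⟨δ, s, hs⟩ := hsplit B hBA hB
        obtain ⟨Y, hY, hcard, hp, ht⟩ := ih _ (fun x hx => hBA hx.1) (hs i)
        have hN : (⋃ a ∈ (Y : Set S), {x | x ∈ A ∧ x ≤ a}).Countable :=
          Y.countable_toSet.biUnion fun a ha => hgood a (hBA (hY ha).1)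
        obtain ⟨z, hz, hzN⟩ : ∃ z ∈ {x | x ∈ B ∧ (∀ ξ < δ, φ x ξ = s ξ) ∧ φ x δ = !i},
            z ∉ ⋃ a ∈ (Y : Set S), {x | x ∈ A ∧ x ≤ a} := by
          by_contra hc
          push Not at hc
          exact hs (!i) (hN.mono hc)
        have hz1 : ∀ a ∈ Y, a < z := by
          intro a ha
          by_contra hc
          exact hzN (mem_biUnion ha ⟨hBA hz.1, not_lt.1 hc⟩)
        have hzY : z ∉ Y := fun hc => lt_irrefl _ (hz1 z hc)
        have hd : ∀ a ∈ Y, dl (φ a) (φ z) = δ := by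
          intro a ha
          apply hdl'
          · rw [(hY ha).2.2, hz.2.2]; cases i <;> simp
          · intro ξ hξ; rw [(hY ha).2.1 ξ hξ, hz.2.1 ξ hξ]
        refine ⟨insert z Y, ?_, by rw [Finset.card_insert_of_notMem hzY, hcard], ?_, ?_⟩
        · intro x hx
          rcases Finset.mem_insert.1 hx with rfl | hx
          · exact hz.1
          · exact (hY hx).1
        · intro x hx y hy hxy
          rcases Finset.mem_insert.1 hx with h1 | hx' <;>
            rcases Finset.mem_insert.1 hy with h2 | hy'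
          · exact absurd (h1.trans h2.symm) hxy.ne
          · exact absurd (h1 ▸ hxy) (hz1 y hy').not_gt
          · rw [h2, hd x hx']; exact (hY hx').2.2
          · exact hp x hx' y hy' hxy
        · intro x hx y hy w hw hxy hyw
          have hy' : y ∈ Y := by
            rcases Finset.mem_insert.1 hy with rfl | hy
            · rcases Finset.mem_insert.1 hw with rfl | hw
              · exact absurd hyw (lt_irrefl _)
              · exact absurd hyw (hz1 w hw).not_gt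
            · exact hy
          have hx' : x ∈ Y := by
            rcases Finset.mem_insert.1 hx with rfl | hx
            · exact absurd hxy (hz1 y hy').not_gt
            · exact hx
          rcases Finset.mem_insert.1 hw with rfl | hw
          · rw [hd y hy']
            intro hlt
            apply (hdl (φ x) (φ y) (hφ.ne hxy.ne)).1
            rw [(hY hx').2.1 _ hlt, (hY hy').2.1 _ hlt]
          · exact ht x hx' y hy' w hw hxy hyw
    obtain ⟨Y, hY, hcard, hp, ht⟩ := key A subset_rfl hA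
    refine ⟨Y, hY.trans hAA, hcard, fun x hx y hy z hz hxy hyz => ?_⟩
    simp only [if_neg (ht x hx y hy z hz hxy hyz)]
    exact hp x hx y hy hxy
  · push Not at hsplit
    obtain ⟨B, hBA, hB, hns⟩ := hsplit
    obtain ⟨b, hb⟩ := exists_rec (T := K) false
      (fun δ s => decide (¬ {x | x ∈ B ∧ (∀ ξ < δ, φ x ξ = s ξ) ∧ φ x δ = true}.Countable))
      (by
        intro δ f f' hf
        have : {x | x ∈ B ∧ (∀ ξ < δ, φ x ξ = f ξ) ∧ φ x δ = true} =
            {x | x ∈ B ∧ (∀ ξ < δ, φ x ξ = f' ξ) ∧ φ x δ = true} := by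
          ext x
          simp only [mem_ofPred_eq]
          refine and_congr_right fun _ => and_congr_left fun _ => ?_
          exact forall₂_congr fun ξ hξ => by rw [hf ξ hξ]
        rw [this])
    have hD : ∀ δ, {x | x ∈ B ∧ (∀ ξ < δ, φ x ξ = b ξ) ∧ φ x δ ≠ b δ}.Countable := by
      intro δ
      by_cases hc : {x | x ∈ B ∧ (∀ ξ < δ, φ x ξ = b ξ) ∧ φ x δ = true}.Countable
      · have : b δ = false := by rw [hb δ]; simpa using hc
        rw [this]
        simpa using hc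
      · have : b δ = true := by rw [hb δ]; simpa using hc
        rw [this]
        obtain ⟨j, hj⟩ := hns δ b
        cases j with
        | true => exact absurd hj hc
        | false => simpa using hj
    let B' : Set S := {x | x ∈ B ∧ φ x ≠ b}
    have hB' : ¬ B'.Countable := by
      intro hc
      apply hB
      have h1 : {x | φ x = b}.Countable :=
        Set.Subsingleton.countable fun x hx y hy => hφ (hx.trans hy.symm)
      refine (hc.union h1).mono fun x hx => ?_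
      by_cases h : φ x = b
      · exact Or.inr h
      · exact Or.inl ⟨hx, h⟩
    let d : S → K := fun x => dl (φ x) b
    have hfib : ∀ ξ, {x | x ∈ B' ∧ d x = ξ}.Countable := by
      intro ξ
      refine (hD ξ).mono ?_
      rintro x ⟨hx, rfl⟩
      exact ⟨hx.1, (hdl _ _ hx.2).2, (hdl _ _ hx.2).1⟩
    obtain ⟨C, hCB, hC, hthin⟩ := exists_thin d hB' hfib
    let h : S → ℝ := fun x => if i then r (d x) else - r (d x)
    have hh : ∀ t, {x | x ∈ C ∧ h x = t}.Countable := by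
      intro t
      rcases ({x | x ∈ C ∧ h x = t}).eq_empty_or_nonempty with h0 | ⟨a, ha⟩
      · rw [h0]; exact countable_empty
      · refine cmono (hfib (d a)) fun x hx => ⟨hCB hx.1, hr ?_⟩
        have := hx.2.trans ha.2.symm
        cases i <;> simpa [h] using this
    obtain ⟨Y, hY, hcard, hmono⟩ := exists_chain d h (A := C)
      (fun a ha => cmono (hgood a (hBA (hCB ha).1)) fun x hx => ⟨hBA (hCB hx.1).1, hx.2⟩)
      hthin hh n C subset_rfl hC
    have hd : ∀ x ∈ Y, ∀ y ∈ Y, x < y → dl (φ x) (φ y) = d x := by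
      intro x hx y hy hxy
      have hx' := hdl _ _ (hCB (hY hx)).2
      have hy' := hdl _ _ (hCB (hY hy)).2
      have hlt := (hmono x hx y hy hxy).1
      apply hdl'
      · rw [hy'.2 _ hlt]; exact hx'.1
      · intro ξ hξ; rw [hx'.2 _ hξ, hy'.2 _ (hξ.trans hlt)]
    refine ⟨Y, fun x hx => hAA (hBA (hCB (hY hx)).1), hcard, fun x hx y hy z hz hxy hyz => ?_⟩
    simp only [hd x hx y hy hxy, hd y hy z hz hyz, if_pos (hmono x hx y hy hxy).1]
    have := (hmono x hx y hy hxy).2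
    cases i with
    | true => simpa [h] using this
    | false =>
      have h3 : r (d y) < r (d x) := by simpa [h] using this
      simpa using h3.le

theorem sorted_triple {S : Type u} [LinearOrder S] (t : Finset S) (ht : t.card = 3) :
    ∃ x y z, x < y ∧ y < z ∧ t = {x, y, z} := by
  classical
  obtain ⟨a, b, c, hab, hac, hbc, rfl⟩ := Finset.card_eq_three.1 ht
  rcases lt_or_gt_of_ne hab with h1 | h1 <;> rcases lt_or_gt_of_ne hac with h2 | h2 <;>
    rcases lt_or_gt_of_ne hbc with h3 | h3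
  · exact ⟨a, b, c, h1, h3, rfl⟩
  · exact ⟨a, c, b, h2, h3, by ext; simp; tauto⟩
  · exact absurd (h1.trans h3) h2.not_gt
  · exact ⟨c, a, b, h2, h1, by ext; simp; tauto⟩
  · exact ⟨b, a, c, h1, h2, by ext; simp; tauto⟩
  · exact absurd (h2.trans h3) h1.not_gt
  · exact ⟨b, c, a, h3, h2, by ext; simp; tauto⟩
  · exact ⟨c, b, a, h3, h1, by ext; simp; tauto⟩

theorem triple_unique {S : Type u} [LinearOrder S] {x y z x' y' z' : S} (h1 : x < y) (h2 : y < z)
    (h3 : x' < y') (h4 : y' < z') (h : ({x, y, z} : Finset S) = {x', y', z'}) :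
    x = x' ∧ y = y' ∧ z = z' := by
  have a1 : x ∈ ({x', y', z'} : Finset S) := h ▸ by simp
  have a2 : y ∈ ({x', y', z'} : Finset S) := h ▸ by simp
  have a3 : z ∈ ({x', y', z'} : Finset S) := h ▸ by simp
  simp only [Finset.mem_insert, Finset.mem_singleton] at a1 a2 a3
  rcases a1 with rfl | rfl | rfl <;> rcases a2 with rfl | rfl | rfl <;>
    rcases a3 with rfl | rfl | rfl <;> first | exact ⟨rfl, rfl, rfl⟩ | (exfalso; order)

theorem final {S : Type u} (hS : #S ≤ (2 : Cardinal.{u}) ^ (continuum : Cardinal.{u})) :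
    ∃ c : Finset S → Bool, ∀ A : Set S, ¬ A.Countable → ∀ (n : ℕ) (i : Bool),
      ∃ Y : Finset S, (Y : Set S) ⊆ A ∧ Y.card = n ∧ ∀ t ⊆ Y, t.card = 3 → c t = i := by
  classical
  let K := (continuum : Cardinal.{u}).ord.ToType
  have hK : #K = continuum := mk_ord_toType _
  have : Nonempty K := by rw [← mk_ne_zero_iff, hK]; exact continuum_ne_zero
  obtain ⟨φ⟩ : Nonempty (S ↪ (K → Bool)) := by
    rw [← Cardinal.le_def]
    have : #(K → Bool) = (2 : Cardinal.{u}) ^ (continuum : Cardinal.{u}) := by simp [hK]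
    rwa [this]
  obtain ⟨r⟩ : Nonempty (K ↪ ℝ) := by
    rw [← Cardinal.lift_mk_le']
    simp [hK, mk_real]
  obtain ⟨_, _⟩ := exists_wellFoundedLT S
  obtain ⟨col, hcol⟩ := main φ φ.injective r r.injective
  refine ⟨fun t => decide (∃ x y z, x < y ∧ y < z ∧ t = {x, y, z} ∧ col x y z = true),
    fun A hA n i => ?_⟩
  obtain ⟨Y, hY, hcard, hhom⟩ := hcol A hA n i
  refine ⟨Y, hY, hcard, fun t ht h3 => ?_⟩
  obtain ⟨x, y, z, hxy, hyz, rfl⟩ := sorted_triple t h3
  have hc := hhom x (ht (by simp)) y (ht (by simp)) z (ht (by simp)) hxy hyz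
  cases i with
  | true => exact decide_eq_true ⟨x, y, z, hxy, hyz, rfl, hc⟩
  | false =>
    apply decide_eq_false
    rintro ⟨x', y', z', h1, h2, h3, h4⟩
    obtain ⟨rfl, rfl, rfl⟩ := triple_unique hxy hyz h1 h2 h3
    rw [hc] at h4
    exact Bool.false_ne_true h4

end Pool.Agent.H42.Triples
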