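import Mathlib

/-! A universally meager set that is not countably perfectly meager. -/

namespace Pool.Agent.H42.UMeag

open Cardinal hiding univ
open Set TopologicalSpace Filter Topology PiNat

universe u v

theorem nwd_iff {X : Type u} [TopologicalSpace X] {N : Set X} :
    IsNowhereDense N ↔ ∀ U, IsOpen U → U.Nonempty → ∃ V, IsOpen V ∧ V.Nonempty ∧ V ⊆ U ∧
      Disjoint V N := by
  constructor
  · intro h U hU hne
    refine ⟨U \ closure N, hU.sdiff isClosed_closure, ?_, sdiff_subset,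
      disjoint_sdiff_left.mono_right subset_closure⟩
    by_contra hc
    rw [not_nonempty_iff_eq_empty, sdiff_eq_empty] at hc
    have := interior_maximal hc hU
    rw [h] at this
    exact hne.not_subset_empty this
  · intro h
    by_contra hc
    obtain ⟨V, h1, h2, h3, h4⟩ := h _ isOpen_interior (nonempty_iff_ne_empty.2 hc)
    obtain ⟨x, hx⟩ := h2
    exact disjoint_left.1 (h4.closure_right h1) hx (interior_subset (h3 hx))

theorem nwd_basis {X : Type u} [TopologicalSpace X] [SecondCountableTopology X] {N : Set X} :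
    IsNowhereDense N ↔ ∀ b₀ : countableBasis X, ∃ b : countableBasis X, b.1 ⊆ b₀.1 ∧
      Disjoint b.1 N := by
  rw [nwd_iff]
  constructor
  · intro h b₀
    obtain ⟨V, h1, ⟨x, hx⟩, h3, h4⟩ := h b₀ (isOpen_of_mem_countableBasis b₀.2)
      (nonempty_of_mem_countableBasis b₀.2)
    obtain ⟨b, hb1, -, hb3⟩ := (isBasis_countableBasis X).exists_subset_of_mem_open hx h1
    exact ⟨⟨b, hb1⟩, hb3.trans h3, h4.mono_left hb3⟩
  · intro h U hU ⟨x, hx⟩
    obtain ⟨b, hb1, -, hb3⟩ := (isBasis_countableBasis X).exists_subset_of_mem_open hx hU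
    obtain ⟨c, h1, h2⟩ := h ⟨b, hb1⟩
    exact ⟨c, isOpen_of_mem_countableBasis c.2, nonempty_of_mem_countableBasis c.2,
      h1.trans hb3, h2⟩

theorem meagre_seq {X : Type u} [TopologicalSpace X] {M : Set X} (h : IsMeagre M) :
    ∃ N : ℕ → Set X, (∀ k, IsNowhereDense (N k)) ∧ M ⊆ ⋃ k, N k := by
  obtain ⟨S, h1, h2, h3⟩ := isMeagre_iff_countable_union_isNowhereDense.1 h
  obtain ⟨N, hN⟩ := (h2.insert ∅).exists_eq_range (insert_nonempty _ _)
  refine ⟨N, fun k => ?_, h3.trans ?_⟩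
  · have : N k ∈ insert ∅ S := hN ▸ mem_range_self k
    rcases this with h | h
    · rw [h]; exact isNowhereDense_empty
    · exact h1 _ h
  · rw [← sUnion_range, ← hN]
    exact sUnion_subset_sUnion (subset_insert _ _)

theorem ku {X : Type u} {Z : Type v} [TopologicalSpace X] [SecondCountableTopology X]
    [TopologicalSpace Z] [SecondCountableTopology Z] [BaireSpace Z] [MeasurableSpace Z]
    [BorelSpace Z] (B : ℕ → countableBasis X → Set Z) (hB : ∀ k b, MeasurableSet (B k b)) :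
    IsMeagre {y : X | ¬ IsMeagre {z | (∀ k (b₀ : countableBasis X),
      ∃ b : countableBasis X, b.1 ⊆ b₀.1 ∧ z ∈ B k b) ∧
        ∃ k, ∀ b : countableBasis X, y ∈ b.1 → z ∉ B k b}} := by
  have := (countable_countableBasis X).to_subtype
  have := (countable_countableBasis Z).to_subtype
  let Val : Set Z := {z | ∀ k (b₀ : countableBasis X),
      ∃ b : countableBasis X, b.1 ⊆ b₀.1 ∧ z ∈ B k b}
  let T : ℕ → X → Set Z := fun k y =>
    {z | z ∈ Val ∧ ∀ b : countableBasis X, y ∈ b.1 → z ∉ B k b}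
  have hT : ∀ k y, MeasurableSet (T k y) := by
    intro k y
    have e : T k y = (⋂ k, ⋂ b₀ : countableBasis X, ⋃ b : countableBasis X,
        ⋃ (_ : b.1 ⊆ b₀.1), B k b) ∩ ⋂ b : countableBasis X, ⋂ (_ : y ∈ b.1), (B k b)ᶜ := by
      ext z; simp [T, Val]
    rw [e]
    exact (MeasurableSet.iInter fun k => MeasurableSet.iInter fun b₀ => MeasurableSet.iUnion
      fun b => MeasurableSet.iUnion fun _ => hB k b).inter
      (MeasurableSet.iInter fun b => MeasurableSet.iInter fun _ => (hB k b).compl)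
  have hbad : ∀ k (V : countableBasis Z), IsNowhereDense {y | IsMeagre (V.1 \ T k y)} := by
    intro k V
    rw [nwd_basis]
    intro b₀
    by_contra hc
    push Not at hc
    have h1 : ∀ b : countableBasis X, b.1 ⊆ b₀.1 → IsMeagre (V.1 ∩ B k b) := by
      intro b hb
      obtain ⟨y, h1, h2⟩ := not_disjoint_iff.1 (hc b hb)
      refine IsMeagre.mono (fun z hz => ?_) h2
      exact ⟨hz.1, fun h => h.2 b h1 hz.2⟩
    obtain ⟨y, -, h2⟩ := not_disjoint_iff.1 (hc b₀ subset_rfl)
    refine not_isMeagre_of_isOpen (isOpen_of_mem_countableBasis V.2)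
      (nonempty_of_mem_countableBasis V.2) (IsMeagre.mono ?_ (IsMeagre.union h2
        (isMeagre_iUnion fun b : {b : countableBasis X // b.1 ⊆ b₀.1} => h1 b.1 b.2)))
    intro z hz
    by_cases h : z ∈ T k y
    · obtain ⟨b, h3, h4⟩ := h.1 k b₀
      exact Or.inr (mem_iUnion.2 ⟨⟨b, h3⟩, hz, h4⟩)
    · exact Or.inl ⟨hz, h⟩
  refine IsMeagre.mono ?_ (isMeagre_iUnion fun p : ℕ × countableBasis Z =>
    (hbad p.1 p.2).isMeagre)
  intro y hy
  have h1 : ∃ k, ¬ IsMeagre (T k y) := by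
    by_contra hc
    push Not at hc
    refine hy (IsMeagre.mono ?_ (isMeagre_iUnion hc))
    rintro z ⟨h1, k, h2⟩
    exact mem_iUnion.2 ⟨k, h1, h2⟩
  obtain ⟨k, hk⟩ := h1
  obtain ⟨U, hU, hUe⟩ := (hT k y).residualEq_isOpen
  have hUe' := eventuallyEq_set.1 hUe
  rcases U.eq_empty_or_nonempty with rfl | ⟨x, hx⟩
  · exact absurd (mem_of_superset hUe' fun z hz h => hz.1 h) hk
  obtain ⟨V, h1, -, h3⟩ := (isBasis_countableBasis Z).exists_subset_of_mem_open hx hU
  exact mem_iUnion.2 ⟨(k, ⟨V, h1⟩), mem_of_superset hUe' fun z hz h => h.2 (hz.2 (h3 h.1))⟩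

theorem exists_cyl {x : ℕ → Bool} {U : Set (ℕ → Bool)} (hU : IsOpen U) (hx : x ∈ U) (m : ℕ) :
    ∃ n ≥ m, cylinder x n ⊆ U := by
  obtain ⟨_, ⟨y, n, rfl⟩, h1, h2⟩ :=
    (isTopologicalBasis_cylinders fun _ : ℕ => Bool).exists_subset_of_mem_open hx hU
  refine ⟨max n m, le_max_right _ _, (cylinder_anti x (le_max_left _ _)).trans ?_⟩
  rwa [mem_cylinder_iff_eq.1 h1]

theorem exists_pi (Z : Type v) [TopologicalSpace Z] [SecondCountableTopology Z] [T2Space Z]
    [PerfectSpace Z] :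
    ∃ π : Z → ℕ → Bool, ∀ S : Set Z, IsMeagre (π '' S) → IsMeagre S := by
  classical
  cases isEmpty_or_nonempty Z with
  | inl h => exact ⟨fun _ _ => true, fun S _ => S.eq_empty_of_isEmpty ▸ IsMeagre.empty⟩
  | inr h =>
  have hA : ∀ U V : Set Z, ∃ A, IsOpen U → U.Nonempty → IsOpen V → IsOpen A ∧ A.Nonempty ∧
      A ⊆ U ∧ (U \ closure A).Nonempty ∧ ((U ∩ V).Nonempty → A ⊆ V) := by
    intro U V
    by_cases h1 : IsOpen U ∧ U.Nonempty ∧ IsOpen V
    swap
    · exact ⟨∅, fun a b c => absurd ⟨a, b, c⟩ h1⟩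
    obtain ⟨h1, h2, h3⟩ := h1
    have key : ∀ W : Set Z, IsOpen W → W.Nonempty → ∃ A, IsOpen A ∧ A.Nonempty ∧ A ⊆ W ∧
        (W \ closure A).Nonempty := by
      intro W hW ⟨a, ha⟩
      obtain ⟨b, hb1, hb2⟩ := preperfect_iff_nhds.1 hW.preperfect a ha _ univ_mem
      obtain ⟨P, Q, p1, p2, p3, p4, p5⟩ := t2_separation hb2
      refine ⟨Q ∩ W, p2.inter hW, ⟨a, p4, ha⟩, inter_subset_right, b, hb1.2, ?_⟩
      exact disjoint_left.1 ((p5.mono_right inter_subset_left).closure_right p1) p3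
    by_cases h4 : (U ∩ V).Nonempty
    · obtain ⟨A, a1, a2, a3, a4⟩ := key _ (h1.inter h3) h4
      exact ⟨A, fun _ _ _ => ⟨a1, a2, a3.trans inter_subset_left,
        a4.mono (sdiff_subset_sdiff_left inter_subset_left), fun _ => a3.trans inter_subset_right⟩⟩
    · obtain ⟨A, a1, a2, a3, a4⟩ := key _ h1 h2
      exact ⟨A, fun _ _ _ => ⟨a1, a2, a3, a4, fun h => absurd h h4⟩⟩
  choose A hA using hA
  obtain ⟨V, hV⟩ := ((countable_countableBasis Z).insert univ).exists_eq_range (insert_nonempty _ _)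
  have hVo : ∀ n, IsOpen (V n) := fun n => by
    have : V n ∈ insert univ (countableBasis Z) := hV ▸ mem_range_self n
    rcases this with h | h
    · rw [h]; exact isOpen_univ
    · exact isOpen_of_mem_countableBasis h
  let U : (ℕ → Bool) → ℕ → Set Z := fun x n =>
    Nat.rec univ (fun n W => if x n then W \ closure (A W (V n)) else A W (V n)) n
  have hU : ∀ x n, U x (n + 1) = if x n then U x n \ closure (A (U x n) (V n)) else
    A (U x n) (V n) := fun x n => rfl
  have hUo : ∀ x n, IsOpen (U x n) ∧ (U x n).Nonempty := by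
    intro x n
    induction n with
    | zero => exact ⟨isOpen_univ, univ_nonempty⟩
    | succ n ih =>
      have := hA _ _ ih.1 ih.2 (hVo n)
      rw [hU]
      split_ifs
      · exact ⟨ih.1.sdiff isClosed_closure, this.2.2.2.1⟩
      · exact ⟨this.1, this.2.1⟩
  have hUs : ∀ x n, U x (n + 1) ⊆ U x n := by
    intro x n
    rw [hU]
    split_ifs
    · exact sdiff_subset
    · exact (hA _ _ (hUo x n).1 (hUo x n).2 (hVo n)).2.2.1
  have hUc : ∀ x y n, (∀ i < n, x i = y i) → U x n = U y n := by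
    intro x y n
    induction n with
    | zero => intro _; rfl
    | succ n ih =>
      intro h
      rw [hU, hU, ih fun i hi => h i (Nat.lt_succ_of_lt hi), h n (Nat.lt_succ_self n)]
  let W : Z → ℕ → Set Z := fun z n =>
    Nat.rec univ (fun n W => if z ∉ A W (V n) then W \ closure (A W (V n)) else A W (V n)) n
  have hW : ∀ z n, W z (n + 1) = if z ∉ A (W z n) (V n) then W z n \ closure (A (W z n) (V n))
    else A (W z n) (V n) := fun z n => rfl
  let π : Z → ℕ → Bool := fun z n => decide (z ∉ A (W z n) (V n))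
  have hπ : ∀ x z n, z ∈ U x n → W z n = U x n ∧ ∀ i < n, π z i = x i := by
    intro x z n
    induction n with
    | zero => intro _; exact ⟨rfl, fun i hi => absurd hi (Nat.not_lt_zero i)⟩
    | succ n ih =>
      intro hz
      obtain ⟨i1, i2⟩ := ih (hUs x n hz)
      have e : π z n = x n := by
        simp only [π, i1]
        rw [hU] at hz
        cases hx : x n
        · simpa [hx] using hz
        · simp only [hx, if_true] at hz
          exact decide_eq_true fun h => hz.2 (subset_closure h)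
      refine ⟨?_, fun i hi => ?_⟩
      · rw [hW, hU, ← e]
        simp only [π, i1, decide_eq_true_eq]
      · rcases Nat.lt_succ_iff_lt_or_eq.1 hi with h | h
        · exact i2 i h
        · rw [h, e]
  have hdense : ∀ O, IsOpen O → O.Nonempty → ∀ n, ∃ x, (U x n ∩ O).Nonempty := by
    intro O hO hne n
    induction n with
    | zero => exact ⟨fun _ => true, by simpa [U] using hne⟩
    | succ n ih =>
      obtain ⟨x, hx⟩ := ih
      have e : ∀ b, U (Function.update x n b) n = U x n := fun b =>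
        hUc _ _ n fun i hi => Function.update_of_ne hi.ne _ _
      by_cases h : (A (U x n) (V n) ∩ O).Nonempty
      · exact ⟨Function.update x n false, by rw [hU, e]; simpa using h⟩
      · refine ⟨Function.update x n true, ?_⟩
        rw [hU, e]
        obtain ⟨z, h1, h2⟩ := hx
        refine ⟨z, ?_, h2⟩
        simp only [Function.update_self, if_true]
        refine ⟨h1, fun hc => h ?_⟩
        obtain ⟨w, h3, h4⟩ := mem_closure_iff.1 hc O hO h2
        exact ⟨w, h4, h3⟩
  have hnwd : ∀ N, IsNowhereDense N → IsNowhereDense (π ⁻¹' N) := by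
    intro N hN
    rw [nwd_basis]
    intro b₀
    obtain ⟨n, hn⟩ : b₀.1 ∈ range V := hV ▸ mem_insert_of_mem _ b₀.2
    obtain ⟨x, hx⟩ := hdense _ (isOpen_of_mem_countableBasis b₀.2)
      (nonempty_of_mem_countableBasis b₀.2) n
    let x' := Function.update x n false
    have e : U x' n = U x n := hUc _ _ n fun i hi => Function.update_of_ne hi.ne _ _
    have h1 : U x' (n + 1) ⊆ b₀.1 := by
      rw [hU, e, ← hn]
      simp only [x', Function.update_self, Bool.false_eq_true, if_false]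
      exact (hA _ _ (hUo x n).1 (hUo x n).2 (hVo n)).2.2.2.2 (hn ▸ hx)
    obtain ⟨O, o1, ⟨y, o2⟩, o3, o4⟩ := nwd_iff.1 hN _ (isOpen_cylinder _ x' (n + 1))
      ⟨_, self_mem_cylinder _ _⟩
    obtain ⟨m, m1, m2⟩ := exists_cyl o1 o2 (n + 1)
    have h2 : U y m ⊆ U x' (n + 1) := by
      rw [← hUc y x' (n + 1) (o3 o2)]
      exact antitone_nat_of_succ_le (hUs y) m1
    obtain ⟨z, hz⟩ := (hUo y m).2
    obtain ⟨b, hb1, -, hb3⟩ := (isBasis_countableBasis Z).exists_subset_of_mem_open hz (hUo y m).1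
    refine ⟨⟨b, hb1⟩, hb3.trans (h2.trans h1), disjoint_left.2 fun w hw hN => ?_⟩
    exact disjoint_left.1 o4 (m2 (hπ y w m (hb3 hw)).2) hN
  refine ⟨π, fun S hS => ?_⟩
  obtain ⟨N, h1, h2⟩ := meagre_seq hS
  refine IsMeagre.mono (fun z hz => ?_) (isMeagre_iUnion fun k => (hnwd _ (h1 k)).isMeagre)
  obtain ⟨k, hk⟩ := mem_iUnion.1 (h2 ⟨z, hz, rfl⟩)
  exact mem_iUnion.2 ⟨k, hk⟩

/-- Sequences with prescribed odd coordinates. -/
def PT (T : Finset ℕ) : Set (ℕ → Bool) := {x | ∀ n, n % 2 = 1 → x n = decide (n ∈ T)}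

theorem PT_closed (T : Finset ℕ) : IsClosed (PT T) := by
  have : PT T = ⋂ n, ⋂ (_ : n % 2 = 1), {x : ℕ → Bool | x n = decide (n ∈ T)} := by
    ext; simp [PT]
  rw [this]
  exact isClosed_iInter fun n => isClosed_iInter fun _ =>
    isClosed_eq (continuous_apply n) continuous_const

theorem PT_perfect (T : Finset ℕ) : Perfect (PT T) := by
  refine ⟨PT_closed T, preperfect_iff_nhds.2 fun x hx U hU => ?_⟩
  obtain ⟨O, h1, h2, h3⟩ := mem_nhds_iff.1 hU
  obtain ⟨n, -, hn⟩ := exists_cyl h2 h3 0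
  refine ⟨Function.update x (2 * n) (!x (2 * n)), ⟨h1 (hn fun i hi =>
    Function.update_of_ne (by omega) _ _), fun i hi => ?_⟩, fun h => ?_⟩
  · rw [Function.update_of_ne (by omega)]; exact hx i hi
  · simpa using congrFun h (2 * n)

theorem avoid {F : Set (ℕ → Bool)} (hF : IsClosed F)
    (hm : ∀ T, IsMeagre ((↑) ⁻¹' F : Set (PT T))) :
    IsNowhereDense {y : ℕ → Bool | ∃ z ∈ F, ∀ n, (n % 2 = 0 → z n = y n) ∧ (z n = true → y n = true)} := by
  classical
  rw [nwd_iff]
  intro U hU ⟨x, hx⟩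
  obtain ⟨m, -, hm'⟩ := exists_cyl hU hx 0
  have key : ∀ 𝒯 : Finset (Finset ℕ), ∃ (x' : ℕ → Bool) (N : ℕ), m ≤ N ∧ (∀ i < m, x' i = x i) ∧
      (∀ i, i % 2 = 1 → m ≤ i → x' i = false) ∧ ∀ T ∈ 𝒯, ∀ z : ℕ → Bool,
        (∀ i < N, z i = if i % 2 = 1 then decide (i ∈ T) else x' i) → z ∉ F := by
    intro 𝒯
    induction 𝒯 using Finset.induction_on with
    | empty =>
      exact ⟨fun i => if i < m then x i else false, m, le_rfl, fun i hi => if_pos hi,
        fun i _ hi => if_neg (not_lt.2 hi), by simp⟩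
    | insert T 𝒯 _ ih =>
      obtain ⟨x', N, h1, h2, h3, h4⟩ := ih
      have : CompactSpace (PT T) := isCompact_iff_compactSpace.1 (PT_closed T).isCompact
      have hne := not_isMeagre_of_isOpen (X := PT T) (s := (↑) ⁻¹' cylinder
        (fun i => if i % 2 = 1 then decide (i ∈ T) else x' i) N)
        ((isOpen_cylinder _ _ N).preimage continuous_subtype_val)
        ⟨⟨_, fun n hn => if_pos hn⟩, self_mem_cylinder _ _⟩
      obtain ⟨z₀, a1, a2⟩ : ∃ z₀ : PT T, z₀.1 ∈ cylinder
          (fun i => if i % 2 = 1 then decide (i ∈ T) else x' i) N ∧ z₀.1 ∉ F := by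
        by_contra hc
        push Not at hc
        exact hne (IsMeagre.mono (fun z hz => hc z hz) (hm T))
      obtain ⟨N', b1, b2⟩ := exists_cyl hF.isOpen_compl a2 N
      have e : ∀ i < N, (if i % 2 = 1 then x' i else z₀.1 i) = x' i := fun i hi => by
        split_ifs with h
        · rfl
        · exact (a1 i hi).trans (if_neg h)
      refine ⟨fun i => if i % 2 = 1 then x' i else z₀.1 i, N', h1.trans b1,
        fun i hi => (e i (hi.trans_le h1)).trans (h2 i hi),
        fun i hi hi' => (if_pos hi).trans (h3 i hi hi'), fun T' hT' z hz => ?_⟩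
      rcases Finset.mem_insert.1 hT' with rfl | hT'
      · refine b2 fun i hi => ?_
        rw [hz i hi]
        split_ifs with h
        · exact (z₀.2 i h).symm
        · exact if_neg h
      · refine h4 T' hT' z fun i hi => ?_
        rw [hz i (hi.trans_le b1)]
        simp only [e i hi]
  obtain ⟨x', N, h1, h2, h3, h4⟩ := key (Finset.range m).powerset
  refine ⟨cylinder x' N, isOpen_cylinder _ _ _, ⟨_, self_mem_cylinder _ _⟩,
    fun y hy => hm' fun i hi => (hy i (hi.trans_le h1)).trans (h2 i hi), disjoint_left.2 ?_⟩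
  rintro y hy ⟨z, hz, h5⟩
  refine h4 ((Finset.range m).filter fun i => z i = true)
    (Finset.mem_powerset.2 (Finset.filter_subset _ _)) z (fun i hi => ?_) hz
  split_ifs with h
  · by_cases hi' : i < m
    · simp [hi']
    · have : z i = false := by
        by_contra hc
        have := (h5 i).2 (by simpa using hc)
        rw [hy i hi, h3 i h (not_lt.1 hi')] at this
        exact Bool.false_ne_true this
      simp [hi', this]
  · rw [(h5 i).1 (by omega), hy i hi]

theorem singleton_meagre {Z : Type v} [TopologicalSpace Z] [T1Space Z] [PerfectSpace Z] (z : Z) :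
    IsMeagre ({z} : Set Z) :=
  IsNowhereDense.isMeagre (isClosed_singleton.isNowhereDense_iff.2 (interior_singleton z))

theorem main : ∃ A : Set (ℕ → Bool),
    (∀ (Z : Type v) [TopologicalSpace Z] [PolishSpace Z] [PerfectSpace Z] [MeasurableSpace Z]
      [BorelSpace Z] (f : (ℕ → Bool) ≃ᵐ Z), IsMeagre (f '' A)) ∧
    ∀ C : ℕ → Set (ℕ → Bool), (∀ k, IsClosed (C k)) →
      (∀ T, IsMeagre ((↑) ⁻¹' (⋃ k, C k) : Set (PT T))) → ¬ A ⊆ ⋃ k, C k := by
  classical
  have := (countable_countableBasis (ℕ → Bool)).to_subtype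
  have hne : Nonempty (countableBasis (ℕ → Bool)) := by
    obtain ⟨b, hb, -⟩ := (isBasis_countableBasis (ℕ → Bool)).exists_subset_of_mem_open
      (mem_univ fun _ => true) isOpen_univ
    exact ⟨⟨b, hb⟩⟩
  obtain ⟨s, hs⟩ := exists_surjective_nat (ℕ × countableBasis (ℕ → Bool))
  let e : ℕ → ℕ × countableBasis (ℕ → Bool) := fun n => s (Nat.unpair (n / 2)).1
  have he : ∀ j N, ∃ n ≥ N, n % 2 = 1 ∧ e n = j := by
    intro j N
    obtain ⟨a, rfl⟩ := hs j
    refine ⟨2 * Nat.pair a N + 1, by have := Nat.right_le_pair a N; omega, by omega, ?_⟩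
    simp only [e]
    rw [show (2 * Nat.pair a N + 1) / 2 = Nat.pair a N by omega, Nat.unpair_pair]
  let W : ℕ × countableBasis (ℕ → Bool) → Set (ℕ → Bool) := fun j =>
    {x | ∃ n, n % 2 = 1 ∧ e n = j ∧ x n = true}
  have hWo : ∀ j, IsOpen (W j) := by
    intro j
    have : W j = ⋃ n, ⋃ (_ : n % 2 = 1 ∧ e n = j), (fun x : ℕ → Bool => x n) ⁻¹' {true} := by
      ext; simp [W, and_assoc]
    rw [this]
    exact isOpen_iUnion fun n => isOpen_iUnion fun _ =>
      (isOpen_discrete _).preimage (continuous_apply n)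
  have hWm : IsMeagre (⋃ j, (W j)ᶜ) := by
    refine isMeagre_iUnion fun j => IsNowhereDense.isMeagre (nwd_iff.2 ?_)
    intro U hU ⟨x, hx⟩
    obtain ⟨m, -, hm⟩ := exists_cyl hU hx 0
    obtain ⟨n, h1, h2, h3⟩ := he j m
    refine ⟨U ∩ W j, hU.inter (hWo j), ⟨Function.update x n true,
      hm fun i hi => Function.update_of_ne (by omega) _ _, n, h2, h3, by simp⟩, inter_subset_left,
      disjoint_compl_right.mono_left inter_subset_right⟩
  obtain ⟨κ, ⟨Y₀, hY₀, rfl⟩, hmin⟩ := (wellFounded_lt (α := Cardinal.{0})).has_min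
    {c | ∃ Y : Set (ℕ → Bool), ¬ IsMeagre Y ∧ c = #Y}
    ⟨_, Set.univ, not_isMeagre_of_isOpen isOpen_univ univ_nonempty, rfl⟩
  have hsmall : ∀ S : Set (ℕ → Bool), #S < #Y₀ → IsMeagre S := fun S hS => by
    by_contra hc
    exact hmin _ ⟨S, hc, rfl⟩ hS
  let Y : Set (ℕ → Bool) := Y₀ \ ⋃ j, (W j)ᶜ
  have hY : ¬ IsMeagre Y := fun h => hY₀ (IsMeagre.mono (fun y hy => by
    by_cases h' : y ∈ ⋃ j, (W j)ᶜ
    · exact Or.inr h'
    · exact Or.inl ⟨hy, h'⟩) (h.union hWm))
  obtain ⟨r⟩ : Nonempty (Y ↪ (#Y₀).ord.ToType) := by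
    rw [← Cardinal.le_def, mk_ord_toType]
    exact mk_le_mk_of_subset sdiff_subset
  have hinit : ∀ y : Y, #{y' : Y | r y' < r y} < #Y₀ := fun y =>
    lt_of_le_of_lt (mk_le_of_injective (f := fun j : {y' : Y | r y' < r y} =>
      (⟨r j.1, j.2⟩ : Iio (r y)))
      fun a b hab => Subtype.ext (r.injective (congrArg Subtype.val hab)))
      (mk_Iio_toType_ord_lt (r y))
  choose N hN1 hN2 using fun y : Y => meagre_seq (hsmall (Subtype.val '' {y' : Y | r y' < r y})
    (mk_image_le.trans_lt (hinit y)))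
  let a : Y → ℕ → Bool := fun y n =>
    y.1 n && decide (n % 2 = 0 ∨ Disjoint (e n).2.1 (N y (e n).1))
  have ha : ∀ y k b, a y ∈ W (k, b) ↔ Disjoint b.1 (N y k) := by
    intro y k b
    constructor
    · rintro ⟨n, h1, h2, h3⟩
      simp only [a, h2, Bool.and_eq_true, decide_eq_true_eq] at h3
      exact h3.2.resolve_left (by omega)
    · intro h
      obtain ⟨n, h1, h2, h3⟩ : y.1 ∈ W (k, b) := by
        by_contra hc
        exact y.2.2 (mem_iUnion.2 ⟨_, hc⟩)
      exact ⟨n, h1, h2, by simp [a, h2, h3, h]⟩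
  refine ⟨range a, fun Z _ _ _ _ _ f => ?_, fun C hC hm hsub => hY ?_⟩
  · obtain ⟨π, hπ⟩ := exists_pi Z
    have h1 := ku (X := ℕ → Bool) (fun k b => f.symm ⁻¹' W (k, b))
      (fun k b => f.symm.measurable (hWo _).measurableSet)
    obtain ⟨y, hy⟩ : ∃ y : Y, IsMeagre {z | (∀ k (b₀ : countableBasis (ℕ → Bool)),
        ∃ b : countableBasis (ℕ → Bool), b.1 ⊆ b₀.1 ∧ z ∈ f.symm ⁻¹' W (k, b)) ∧
        ∃ k, ∀ b : countableBasis (ℕ → Bool), y.1 ∈ b.1 → z ∉ f.symm ⁻¹' W (k, b)} := by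
      by_contra hc
      push Not at hc
      exact hY (IsMeagre.mono (fun y hy => hc ⟨y, hy⟩) h1)
    have h2 : IsMeagre ((fun y' => f (a y')) '' {y' : Y | r y' < r y}) := by
      apply hπ
      rw [image_image]
      exact hsmall _ (mk_image_le.trans_lt (hinit y))
    refine IsMeagre.mono ?_ ((hy.union h2).union (singleton_meagre (f (a y))))
    rintro _ ⟨_, ⟨y', rfl⟩, rfl⟩
    rcases lt_trichotomy (r y') (r y) with h | h | h
    · exact Or.inl (Or.inr ⟨y', h, rfl⟩)
    · rw [r.injective h]; exact Or.inr rfl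
    · refine Or.inl (Or.inl ⟨fun k b₀ => ?_, ?_⟩)
      · obtain ⟨b, b1, b2⟩ := nwd_basis.1 (hN1 y' k) b₀
        exact ⟨b, b1, by simpa using (ha y' k b).2 b2⟩
      · obtain ⟨k, hk⟩ := mem_iUnion.1 (hN2 y' ⟨y, h, rfl⟩)
        exact ⟨k, fun b hb hc => disjoint_left.1 ((ha y' k b).1 (by simpa using hc)) hb hk⟩
  · refine IsMeagre.mono (fun y hy => ?_) (isMeagre_iUnion fun k => (avoid (hC k) fun T =>
      IsMeagre.mono (preimage_mono (subset_iUnion C k)) (hm T)).isMeagre)
    obtain ⟨k, hk⟩ := mem_iUnion.1 (hsub ⟨⟨y, hy⟩, rfl⟩)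
    refine mem_iUnion.2 ⟨k, _, hk, fun n => ⟨fun h => by simp [a, h], fun h => ?_⟩⟩
    simp only [a, Bool.and_eq_true] at h
    exact h.1

end Pool.Agent.H42.UMeag
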