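import Pool.Agent.H42.Reg

/-! A universally null set that is not countably perfectly null. -/

namespace Pool.Agent.H42.UNull

open Cardinal hiding univ
open Set MeasureTheory Filter Topology TopologicalSpace Pool.Agent.H42.Reg
open scoped ENNReal

/-- Universally null sets. -/
def UN {X : Type} [MeasurableSpace X] (A : Set X) : Prop :=
  ∀ μ : Measure X, IsFiniteMeasure μ → (∀ x, μ {x} = 0) → μ A = 0

theorem UN.mono {X : Type} [MeasurableSpace X] {A B : Set X} (h : UN B) (hA : A ⊆ B) : UN A :=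
  fun μ h1 h2 => measure_mono_null hA (h μ h1 h2)

theorem UN.image {X Z : Type} [MeasurableSpace X] [MeasurableSpace Z] {e : X → Z}
    (he : MeasurableEmbedding e) {A : Set X} (h : UN A) : UN (e '' A) := by
  intro μ h1 h2
  rw [← he.comap_apply]
  refine h _ ⟨?_⟩ fun x => ?_
  · rw [he.comap_apply]; exact measure_lt_top _ _
  · rw [he.comap_apply, image_singleton]; exact h2 _

theorem UN.fib {X Z : Type} [MeasurableSpace X] [MeasurableSpace Z] [MeasurableSingletonClass Z]
    {c : X → Z} (hc : Measurable c) {A : Set X} (h1 : UN (c '' A))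
    (h2 : ∀ u, UN (A ∩ c ⁻¹' {u})) : UN A := by
  intro μ hμ h0
  have hAt := Measure.countable_meas_level_set_pos (μ := μ) hc
  set At := {t | 0 < μ {a | c a = t}}
  have hD : MeasurableSet (c ⁻¹' At)ᶜ := (hc hAt.measurableSet).compl
  have a1 : μ (A ∩ c ⁻¹' At) = 0 := by
    refine measure_mono_null (t := ⋃ u ∈ At, A ∩ c ⁻¹' {u}) (fun x hx => ?_)
      ((measure_biUnion_null_iff hAt).2 fun u _ => h2 u μ hμ h0)
    exact mem_biUnion hx.2 ⟨hx.1, rfl⟩
  have a2 : ((μ.restrict (c ⁻¹' At)ᶜ).map c) (c '' A) = 0 := by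
    refine h1 _ inferInstance fun u => ?_
    rw [Measure.map_apply hc (measurableSet_singleton u), Measure.restrict_apply' hD]
    by_cases h : u ∈ At
    · refine measure_mono_null (t := ∅) (fun x hx => hx.2 ?_) measure_empty
      have : c x = u := hx.1
      show c x ∈ At
      rwa [this]
    · exact measure_mono_null inter_subset_left (le_antisymm (not_lt.1 h) zero_le)
  have a3 : μ (A ∩ (c ⁻¹' At)ᶜ) = 0 := by
    rw [← Measure.restrict_apply' hD]
    exact le_antisymm ((Measure.le_map_apply_image hc.aemeasurable A).trans a2.le) zero_le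
  rw [← inter_union_compl A (c ⁻¹' At)]
  exact measure_union_null a1 a3

theorem UN.prod {X Z : Type} [MeasurableSpace X] [MeasurableSpace Z] [MeasurableSingletonClass X]
    {A : Set X} {B : Set Z} (hA : UN A) (hB : UN B) : UN (A ×ˢ B) := by
  refine UN.fib measurable_fst (hA.mono ?_) fun u =>
    (hB.image (measurableEmbedding_prodMk_left u)).mono ?_
  · rintro _ ⟨p, hp, rfl⟩; exact hp.1
  · rintro ⟨a, b⟩ ⟨h1, h2⟩
    have : a = u := h2
    exact ⟨b, h1.2, by rw [this]⟩

theorem fub {X Y : Type} [MeasurableSpace X] [MeasurableSpace Y] (μ : Measure X) (ν : Measure Y)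
    [SFinite μ] [SFinite ν] {R : Set (X × Y)} (hR : MeasurableSet R) :
    ∀ᵐ y ∂ν, μ {x | ν (Prod.mk x ⁻¹' R) = 0 ∧ (x, y) ∈ R} = 0 := by
  have hV : MeasurableSet {x | ν (Prod.mk x ⁻¹' R) = 0} :=
    measurable_measure_prodMk_left hR (measurableSet_singleton 0)
  have := (Measure.ae_ae_comm (μ := μ) (ν := ν)
    (p := fun x y => ¬ (ν (Prod.mk x ⁻¹' R) = 0 ∧ (x, y) ∈ R))
    ((measurable_fst hV).inter hR).compl).1 (Eventually.of_forall fun x => by
      by_cases h : ν (Prod.mk x ⁻¹' R) = 0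
      · filter_upwards [measure_eq_zero_iff_ae_notMem.1 h] with y hy h' using hy h'.2
      · exact Eventually.of_forall fun y h' => h h'.1)
  filter_upwards [this] with y hy
  simpa only [ae_iff, not_not] using hy

theorem exists_of_ae {Y : Type} [MeasurableSpace Y] {ν : Measure Y} {S : Set Y} (hS : ν S ≠ 0)
    {p : Y → Prop} (hp : ∀ᵐ y ∂ν, p y) : ∃ y ∈ S, p y := by
  by_contra hc
  push Not at hc
  exact hS (measure_mono_null hc (ae_iff.1 hp))

theorem un_of_wo {X : Type} [MeasurableSpace X] [LinearOrder X] [WellFoundedLT X] {A : Set X}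
    {R : Set (X × X)} (hR : MeasurableSet R) (h1 : ∀ x ∈ A, ∀ y ∈ A, x < y → (y, x) ∈ R)
    (h2 : ∀ x y, (x, y) ∈ R → (y, x) ∉ R) : UN A := by
  intro μ hμ h0
  by_contra hc
  obtain ⟨A', a1, a2, a3⟩ : ∃ A' ⊆ A, μ A' ≠ 0 ∧ ∀ y ∈ A', μ {x | x ∈ A' ∧ x < y} = 0 := by
    by_cases h : ∃ y, μ {x | x ∈ A ∧ x < y} ≠ 0
    · obtain ⟨y, b1, b2⟩ := exists_min _ h
      refine ⟨_, fun x hx => hx.1, b1, fun z hz => measure_mono_null
        (fun x hx => ?_) (not_not.1 (b2 z hz.2))⟩
      exact ⟨hx.1.1, hx.2⟩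
    · push Not at h
      exact ⟨A, subset_rfl, hc, fun y _ => h y⟩
  have b1 : ∀ y ∈ A', μ.restrict A' (Prod.mk y ⁻¹' R) = 0 := by
    intro y hy
    rw [Measure.restrict_apply (measurable_prodMk_left hR)]
    refine measure_mono_null (fun x hx => ?_) (a3 y hy)
    refine ⟨hx.2, ?_⟩
    rcases lt_trichotomy x y with h | h | h
    · exact h
    · subst h; exact absurd hx.1 (h2 _ _ hx.1)
    · exact absurd (h1 y (a1 hy) x (a1 hx.2) h) (h2 _ _ hx.1)
  have b2 : μ.restrict A' A' ≠ 0 := by rwa [Measure.restrict_apply_self]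
  obtain ⟨x, hx, b3⟩ := exists_of_ae b2 (fub (μ.restrict A') (μ.restrict A') hR)
  refine b2 (measure_mono_null (fun y hy => ?_) (measure_union_null (measure_union_null b3
    (le_antisymm ((Measure.restrict_le_self _).trans (a3 x hx).le) zero_le))
    (le_antisymm ((Measure.restrict_le_self _).trans (h0 x).le) zero_le)))
  rcases lt_trichotomy y x with h | h | h
  · exact Or.inl (Or.inr ⟨hy, h⟩)
  · exact Or.inr h
  · exact Or.inl (Or.inl ⟨b1 y hy, h1 x (a1 hx) y (a1 hy) h⟩)

theorem exists_scale : ∃ W : Set (ℕ → ℕ), UN W ∧ ∀ h : ℕ → ℕ, ∃ f ∈ W, ∀ N, ∃ n ≥ N, h n < f n := by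
  classical
  let R : Set ((ℕ → ℕ) × (ℕ → ℕ)) := {p | ∃ N, ∀ n ≥ N, p.2 n < p.1 n}
  have hR : MeasurableSet R := by
    have : R = ⋃ N, ⋂ n, ⋂ (_ : n ≥ N), {p : (ℕ → ℕ) × (ℕ → ℕ) | p.2 n < p.1 n} := by
      ext; simp [R]
    rw [this]
    exact MeasurableSet.iUnion fun N => MeasurableSet.iInter fun n => MeasurableSet.iInter fun _ =>
      measurableSet_lt (by fun_prop) (by fun_prop)
  have hasym : ∀ x y, (x, y) ∈ R → (y, x) ∉ R := by
    rintro x y ⟨N, h1⟩ ⟨M, h2⟩
    exact lt_asymm (h1 _ (le_max_left N M)) (h2 _ (le_max_right N M))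
  have key : ∀ {X : Type} (e : X ≃ (ℕ → ℕ)) [LinearOrder X] [WellFoundedLT X], ∃ P : X → Prop,
      ∀ f, P f ↔ ∀ g < f, P g → (e f, e g) ∈ R := by
    intro X e _ _
    obtain ⟨P, hP⟩ := exists_rec (T := X) True (fun f P => ∀ g < f, P g → (e f, e g) ∈ R)
      (fun f P P' h => propext (forall₂_congr fun g hg => by rw [h g hg]))
    exact ⟨P, fun f => by rw [hP f]⟩
  obtain ⟨i1, i2⟩ := exists_wellFoundedLT (ℕ → ℕ)
  obtain ⟨P, hP⟩ := @key _ (Equiv.refl _) i1 i2
  refine ⟨{f | P f}, @un_of_wo _ _ i1 i2 _ _ hR (fun x hx y hy hxy => (hP y).1 hy x hxy hx) hasym,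
    fun h => ?_⟩
  by_contra hc
  push Not at hc
  have h1 : ∀ g, P g → (fun n => h n + 1, g) ∈ R := fun g hg => by
    obtain ⟨N, hN⟩ := hc g hg
    exact ⟨N, fun n hn => Nat.lt_succ_of_le (hN n hn)⟩
  have h2 : P fun n => h n + 1 := (hP _).2 fun g _ hg => h1 g hg
  exact hasym _ _ (h1 _ h2) (h1 _ h2)

theorem exists_grz : ∃ (μ₀ : Measure (ℕ → Bool)) (G : Set ((ℕ → Bool) × (ℕ → Bool))),
    IsFiniteMeasure μ₀ ∧ (∀ x, μ₀ {x} = 0) ∧ μ₀ (Prod.fst '' G) ≠ 0 ∧ UN G := by
  classical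
  have hne : ∃ S : Set (ℕ → Bool), ¬ UN S := by
    let e : ℝ ≃ᵐ (ℕ → Bool) := PolishSpace.measurableEquivNatBoolOfNotCountable
      (not_countable_iff.2 inferInstance)
    refine ⟨univ, fun h => ?_⟩
    have := h ((volume.restrict (Icc (0 : ℝ) 1)).map e) inferInstance fun x => by
      rw [e.map_apply]
      exact Set.Subsingleton.measure_zero (subsingleton_singleton.preimage e.injective) _
    rw [e.map_apply] at this
    simp at this
  obtain ⟨κ, ⟨Y, hY, rfl⟩, hmin⟩ := (wellFounded_lt (α := Cardinal.{0})).has_min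
    {c | ∃ Y : Set (ℕ → Bool), ¬ UN Y ∧ c = #Y} (by
      obtain ⟨S, hS⟩ := hne; exact ⟨_, S, hS, rfl⟩)
  have hsmall : ∀ S : Set (ℕ → Bool), #S < #Y → UN S := fun S hS => by
    by_contra hc
    exact hmin _ ⟨S, hc, rfl⟩ hS
  have hsmall' : ∀ S : Set ((ℕ → Bool) × (ℕ → Bool)), #S < #Y → UN S := fun S hS => by
    have hu : ¬ Countable ((ℕ → Bool) × (ℕ → Bool)) := by
      rw [← Cardinal.mk_le_aleph0_iff]
      simpa using Cardinal.aleph0_lt_continuum
    let e : ((ℕ → Bool) × (ℕ → Bool)) ≃ᵐ (ℕ → Bool) :=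
      PolishSpace.measurableEquivNatBoolOfNotCountable hu
    have := (hsmall (e '' S) (mk_image_le.trans_lt hS)).image e.symm.measurableEmbedding
    simpa [image_image] using this
  unfold UN at hY
  push Not at hY
  obtain ⟨μ₀, m1, m2, m3⟩ := hY
  obtain ⟨r⟩ : Nonempty (Y ↪ (#Y).ord.ToType) := by rw [← Cardinal.le_def, mk_ord_toType]
  have hinit : ∀ y : Y, #{y' : Y | r y' < r y} < #Y := fun y =>
    lt_of_le_of_lt (mk_le_of_injective (f := fun j : {y' : Y | r y' < r y} =>
      (⟨r j.1, j.2⟩ : Iio (r y)))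
      fun a b hab => Subtype.ext (r.injective (congrArg Subtype.val hab)))
      (mk_Iio_toType_ord_lt (r y))
  obtain ⟨V, hV⟩ := ((countable_countableBasis (ℕ → Bool)).insert ∅).exists_eq_range
    (insert_nonempty _ _)
  have hVo : ∀ n, IsOpen (V n) := fun n => by
    have : V n ∈ insert ∅ (countableBasis (ℕ → Bool)) := hV ▸ mem_range_self n
    rcases this with h | h
    · rw [h]; exact isOpen_empty
    · exact isOpen_of_mem_countableBasis h
  let R : Set (((ℕ → Bool) × (ℕ → Bool)) × (ℕ → Bool)) :=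
    {p | ∀ k, ∃ i, p.1.2 (Nat.pair k i) = true ∧ p.2 ∈ V i}
  have hR : MeasurableSet R := by
    have : R = ⋂ k, ⋃ i, (fun p => p.1.2 (Nat.pair k i)) ⁻¹' {true} ∩ Prod.snd ⁻¹' V i := by
      ext; simp [R]
    rw [this]
    exact MeasurableSet.iInter fun k => MeasurableSet.iUnion fun i =>
      ((measurableSet_singleton true).preimage (by fun_prop)).inter
        (measurable_snd (hVo i).measurableSet)
  have hcode : ∀ S : Set (ℕ → Bool), μ₀ S = 0 → ∃ u : ℕ → Bool, ∀ y,
      μ₀ (Prod.mk (y, u) ⁻¹' R) = 0 ∧ S ⊆ Prod.mk (y, u) ⁻¹' R := by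
    intro S hS
    have : ∀ k : ℕ, ∃ U ⊇ S, IsOpen U ∧ μ₀ U < (k : ℝ≥0∞)⁻¹ := fun k =>
      S.exists_isOpen_lt_of_lt _ (by rw [hS]; simp)
    choose U h1 h2 h3 using this
    refine ⟨fun n => decide (V (Nat.unpair n).2 ⊆ U (Nat.unpair n).1), fun y => ⟨?_, ?_⟩⟩
    · refine le_antisymm (ge_of_tendsto' ENNReal.tendsto_inv_nat_nhds_zero fun k => ?_) zero_le
      refine le_trans (measure_mono fun x hx => ?_) (h3 k).le
      obtain ⟨i, a1, a2⟩ := hx k
      simp only [Nat.unpair_pair, decide_eq_true_eq] at a1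
      exact a1 a2
    · intro x hx k
      obtain ⟨b, b1, b2, b3⟩ :=
        (isBasis_countableBasis (ℕ → Bool)).exists_subset_of_mem_open (h1 k hx) (h2 k)
      obtain ⟨i, rfl⟩ : b ∈ range V := hV ▸ mem_insert_of_mem _ b1
      exact ⟨i, by simpa using b3, b2⟩
  choose u hu using fun y : Y => hcode (Subtype.val '' {y' : Y | r y' < r y})
    (hsmall _ (mk_image_le.trans_lt (hinit y)) μ₀ m1 m2)
  refine ⟨μ₀, range fun y : Y => (y.1, u y), m1, m2, ?_, fun μ hμ h0 => ?_⟩
  · rw [← range_comp]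
    have : range (Prod.fst ∘ fun y : Y => (y.1, u y)) = Y := Subtype.range_coe
    rwa [this]
  · obtain ⟨y, hy, a1⟩ := exists_of_ae m3 (fub μ μ₀ hR)
    have a2 := hsmall' ((fun y : Y => (y.1, u y)) '' {y' : Y | r y' < r ⟨y, hy⟩})
      (mk_image_le.trans_lt (hinit _)) μ hμ h0
    refine measure_mono_null ?_ (measure_union_null (measure_union_null a1 a2)
      (h0 (y, u ⟨y, hy⟩)))
    rintro _ ⟨y', rfl⟩
    rcases lt_trichotomy (r y') (r ⟨y, hy⟩) with h | h | h
    · exact Or.inl (Or.inr ⟨y', h, rfl⟩)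
    · rw [r.injective h]; exact Or.inr rfl
    · exact Or.inl (Or.inl ⟨(hu y' _).1, (hu y' _).2 ⟨_, h, rfl⟩⟩)

/-- Interleaving. -/
def join (y z : ℕ → Bool) (n : ℕ) : Bool := if n % 2 = 0 then y (n / 2) else z (n / 2)

theorem join_ev (y z : ℕ → Bool) (n : ℕ) : join y z (2 * n) = y n := by simp [join]

theorem join_od (y z : ℕ → Bool) (n : ℕ) : join y z (2 * n + 1) = z n := by
  unfold join
  rw [if_neg (by omega), show (2 * n + 1) / 2 = n by omega]

theorem measurable_join : Measurable fun p : (ℕ → Bool) × (ℕ → Bool) => join p.1 p.2 := by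
  refine measurable_pi_lambda _ fun n => ?_
  unfold join
  split_ifs <;> fun_prop

/-- Partial sums. -/
def ps (g : ℕ → ℕ) (n : ℕ) : ℕ := ∑ i ∈ Finset.range (n + 1), (g i + 1)

theorem ps_succ (g : ℕ → ℕ) (n : ℕ) : ps g (n + 1) = ps g n + (g (n + 1) + 1) :=
  Finset.sum_range_succ _ _

theorem ps_mono (g : ℕ → ℕ) : StrictMono (ps g) :=
  strictMono_nat_of_lt_succ fun n => by rw [ps_succ]; omega

theorem le_ps (g : ℕ → ℕ) (n : ℕ) : g n ≤ ps g n := by
  unfold ps; rw [Finset.sum_range_succ]; omega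

open Classical in
/-- The characteristic function of the set of partial sums. -/
noncomputable def ch (g : ℕ → ℕ) (j : ℕ) : Bool := decide (∃ n, ps g n = j)

theorem ch_inj : Function.Injective ch := by
  intro g g' h
  have h1 : ps g = ps g' := ((ps_mono g).range_inj (ps_mono g')).1 (by
    ext j; simpa [ch] using congrFun h j)
  funext n
  cases n with
  | zero => simpa [ps] using congrFun h1 0
  | succ n =>
    have a1 := ps_succ g n
    have a2 := ps_succ g' n
    rw [h1] at a1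
    omega

theorem measurable_ch : Measurable ch := by
  refine measurable_pi_lambda _ fun j => measurable_to_bool ?_
  have : (fun g => ch g j) ⁻¹' {true} = ⋃ n, (fun g => ps g n) ⁻¹' {j} := by
    ext; simp [ch]
  rw [this]
  refine MeasurableSet.iUnion fun n => (measurableSet_singleton j).preimage ?_
  unfold ps
  fun_prop

theorem exists_gap (h : ℕ → ℕ) : ∃ H : ℕ → ℕ, ∀ p : ℕ → ℕ, (∀ N, ∃ n ≥ N, H n < p n) →
    ∀ N, ∃ n ≥ N, h (p n) < p (n + 1) := by
  let h' : ℕ → ℕ := fun x => x + ∑ i ∈ Finset.range (x + 1), h i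
  have a1 : Monotone h' := fun a b hab => add_le_add hab
    (Finset.sum_le_sum_of_subset (Finset.range_mono (Nat.succ_le_succ hab)))
  have a2 : ∀ x, x ≤ h' x := fun x => Nat.le_add_right _ _
  have a3 : ∀ x, h x ≤ h' x := fun x => by
    simp only [h', Finset.sum_range_succ]; omega
  refine ⟨fun n => h'^[n] n, fun p hp N => ?_⟩
  by_contra hc
  push Not at hc
  have a4 : ∀ k, p (N + k) ≤ h'^[k] (p N) := by
    intro k
    induction k with
    | zero => exact le_rfl
    | succ k ih =>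
      rw [Function.iterate_succ_apply']
      exact (hc (N + k) (Nat.le_add_right _ _)).trans ((a3 _).trans (a1 ih))
  obtain ⟨n, b1, b2⟩ := hp (max N (p N))
  obtain ⟨k, rfl⟩ := Nat.exists_eq_add_of_le ((le_max_left _ _).trans b1)
  refine b2.not_ge ((a4 k).trans ((a1.iterate k ((le_max_right _ _).trans b1)).trans ?_))
  exact Function.monotone_iterate_of_id_le a2 (Nat.le_add_left k N) _

theorem bound (μ₀ : Measure (ℕ → Bool)) [IsFiniteMeasure μ₀] (C : ℕ → Set (ℕ → Bool))
    (hC : ∀ k, IsClosed (C k))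
    (h0 : ∀ T : Finset ℕ, μ₀ {y | join y (fun j => decide (j ∈ T)) ∈ ⋃ k, C k} = 0) :
    ∃ N : ℕ → ℕ, ∀ᵐ y ∂μ₀, ∀ᶠ m in atTop, ∀ k ≤ m, ∀ z : ℕ → Bool,
      (∀ j, m ≤ j → j < N m → z j = false) → join y z ∉ C k := by
  classical
  let K : ℕ → ℕ → Set (ℕ → Bool) := fun m N =>
    (⋃ k ∈ Iic m, C k) ∩ {x | ∀ j, m ≤ j → j < N → x (2 * j + 1) = false}
  have hK : ∀ m N, IsClosed (K m N) := by
    intro m N
    refine ((finite_Iic m).isClosed_biUnion fun k _ => hC k).inter ?_
    have : {x : ℕ → Bool | ∀ j, m ≤ j → j < N → x (2 * j + 1) = false} =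
        ⋂ j, ⋂ (_ : m ≤ j), ⋂ (_ : j < N), {x : ℕ → Bool | x (2 * j + 1) = false} := by
      ext; simp
    rw [this]
    exact isClosed_iInter fun j => isClosed_iInter fun _ => isClosed_iInter fun _ =>
      isClosed_eq (continuous_apply _) continuous_const
  have hanti : ∀ m, Antitone (K m) := fun m a b hab x hx =>
    ⟨hx.1, fun j h1 h2 => hx.2 j h1 (h2.trans_le hab)⟩
  let ev : (ℕ → Bool) → ℕ → Bool := fun x n => x (2 * n)
  have hev : Continuous ev := continuous_pi fun n => continuous_apply _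
  have hlim : ∀ m, ∃ N, μ₀ (ev '' K m N) ≤ 2⁻¹ ^ m := by
    intro m
    have a1 := tendsto_measure_iInter_atTop (μ := μ₀) (s := fun N => ev '' K m N)
      (fun N => ((hK m N).isCompact.image hev).isClosed.measurableSet.nullMeasurableSet)
      (fun a b hab => image_mono (hanti m hab)) ⟨0, measure_ne_top _ _⟩
    have a2 : μ₀ (⋂ N, ev '' K m N) = 0 := by
      refine measure_mono_null (fun y hy => ?_) (measure_iUnion_null h0)
      obtain ⟨x, hx⟩ := IsCompact.nonempty_iInter_of_sequence_nonempty_isCompact_isClosed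
        (fun N => K m N ∩ ev ⁻¹' {y})
        (fun N => inter_subset_inter_left _ (hanti m (Nat.le_succ N)))
        (fun N => by obtain ⟨x, h1, h2⟩ := mem_iInter.1 hy N; exact ⟨x, h1, h2⟩)
        ((hK m 0).inter (isClosed_singleton.preimage hev)).isCompact
        (fun N => (hK m N).inter (isClosed_singleton.preimage hev))
      rw [mem_iInter] at hx
      refine mem_iUnion.2 ⟨(Finset.range m).filter fun j => x (2 * j + 1) = true, ?_⟩
      have e : join y (fun j => decide (j ∈ (Finset.range m).filter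
          fun j => x (2 * j + 1) = true)) = x := by
        funext n
        obtain ⟨j, rfl | rfl⟩ := Nat.even_or_odd' n
        · rw [join_ev, ← show ev x = y from (hx 0).2]
        · rw [join_od]
          by_cases hj : j < m
          · simp [hj]
          · simp [hj, (hx (j + 1)).1.2 j (not_lt.1 hj) (Nat.lt_succ_self j)]
      show join y _ ∈ ⋃ k, C k
      rw [e]
      obtain ⟨k, -, hk⟩ := mem_iUnion₂.1 (hx 0).1.1
      exact mem_iUnion.2 ⟨k, hk⟩
    rw [a2] at a1
    obtain ⟨N, hN⟩ := (a1.eventually (gt_mem_nhds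
      (show (0 : ℝ≥0∞) < 2⁻¹ ^ m from ENNReal.pow_pos (by simp) m))).exists
    exact ⟨N, hN.le⟩
  choose N hN using hlim
  refine ⟨N, ?_⟩
  have := ae_eventually_notMem (μ := μ₀) (s := fun m => ev '' K m (N m))
    (ne_top_of_le_ne_top (by simp) (ENNReal.tsum_le_tsum hN))
  filter_upwards [this] with y hy
  filter_upwards [hy] with m hm k hk z hz hc
  exact hm ⟨join y z, ⟨mem_biUnion (show k ∈ Iic m from hk) hc,
    fun j h1 h2 => by rw [join_od]; exact hz j h1 h2⟩, funext fun n => join_ev y z n⟩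

theorem main : ∃ A : Set (ℕ → Bool), UN A ∧ ∃ μ : Measure (ℕ → Bool), IsFiniteMeasure μ ∧
    (∀ x, μ {x} = 0) ∧ ∀ C : ℕ → Set (ℕ → Bool), (∀ k, IsClosed (C k)) → A ⊆ ⋃ k, C k →
      μ (⋃ k, C k) ≠ 0 := by
  classical
  obtain ⟨W, w1, w2⟩ := exists_scale
  obtain ⟨μ₀, G, m1, m2, m3, m4⟩ := exists_grz
  let g : ((ℕ → Bool) × (ℕ → Bool)) × (ℕ → ℕ) → ℕ → ℕ := fun p n => 2 * p.2 n + (p.1.2 n).toNat
  let Φ : ((ℕ → Bool) × (ℕ → Bool)) × (ℕ → ℕ) → ℕ → Bool := fun p => join p.1.1 (ch (g p))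
  have hg : Measurable g := measurable_pi_lambda _ fun n =>
    Measurable.add (by fun_prop) ((measurable_of_countable Bool.toNat).comp (by fun_prop))
  have hΦ : MeasurableEmbedding Φ := by
    refine Measurable.measurableEmbedding
      (measurable_join.comp ((by fun_prop : Measurable fun p :
        ((ℕ → Bool) × (ℕ → Bool)) × (ℕ → ℕ) => p.1.1).prodMk (measurable_ch.comp hg))) ?_
    intro p q h
    have a1 : p.1.1 = q.1.1 := funext fun n => by
      simpa only [Φ, join_ev] using congrFun h (2 * n)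
    have a2 : g p = g q := ch_inj (funext fun n => by
      simpa only [Φ, join_od] using congrFun h (2 * n + 1))
    have a3 : ∀ n, p.2 n = q.2 n ∧ p.1.2 n = q.1.2 n := fun n => by
      have := congrFun a2 n
      simp only [g] at this
      cases h1 : p.1.2 n <;> cases h2 : q.1.2 n <;> simp [h1, h2] at this ⊢ <;> omega
    exact Prod.ext (Prod.ext a1 (funext fun n => (a3 n).2)) (funext fun n => (a3 n).1)
  obtain ⟨s, hs⟩ := exists_surjective_nat (Finset ℕ)
  let J : ℕ → (ℕ → Bool) → ℕ → Bool := fun i y => join y fun j => decide (j ∈ s i)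
  have hJ : ∀ i, Measurable (J i) := fun i =>
    measurable_join.comp (measurable_id.prodMk (measurable_const (a := fun j => decide (j ∈ s i))))
  have hJi : ∀ i, (J i).Injective := fun i y y' h => funext fun n => by
    simpa only [J, join_ev] using congrFun h (2 * n)
  refine ⟨Φ '' (G ×ˢ W), (m4.prod w1).image hΦ,
    Measure.sum fun i => (2⁻¹ ^ i : ℝ≥0∞) • μ₀.map (J i), ⟨?_⟩, fun x => ?_, fun C hC hA hμ => ?_⟩
  · rw [Measure.sum_apply _ MeasurableSet.univ]
    simp only [Measure.smul_apply, Measure.map_apply (hJ _) MeasurableSet.univ, preimage_univ,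
      smul_eq_mul]
    rw [ENNReal.tsum_mul_right]
    exact ENNReal.mul_lt_top (by simp) (measure_lt_top _ _)
  · rw [Measure.sum_apply _ (measurableSet_singleton x)]
    refine ENNReal.tsum_eq_zero.2 fun i => ?_
    rw [Measure.smul_apply, Measure.map_apply (hJ _) (measurableSet_singleton x)]
    rcases (subsingleton_singleton.preimage (hJi i) (s := {x})).eq_empty_or_singleton with h | ⟨y, h⟩
    · simp [h]
    · simp [h, m2]
  · have hm : MeasurableSet (⋃ k, C k) := MeasurableSet.iUnion fun k => (hC k).measurableSet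
    rw [Measure.sum_apply _ hm, ENNReal.tsum_eq_zero] at hμ
    obtain ⟨N, hN⟩ := bound μ₀ C hC fun T => by
      obtain ⟨i, rfl⟩ := hs T
      have := hμ i
      rw [Measure.smul_apply, Measure.map_apply (hJ _) hm, smul_eq_mul, mul_eq_zero] at this
      exact this.resolve_left (pow_ne_zero _ (by simp))
    obtain ⟨_, ⟨a, ha, rfl⟩, hy⟩ := exists_of_ae m3 hN
    obtain ⟨m₀, hm₀⟩ := eventually_atTop.1 hy
    obtain ⟨H, hH⟩ := exists_gap fun x => N (x + 1)
    obtain ⟨f, hf1, hf2⟩ := w2 H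
    obtain ⟨k, hk⟩ := mem_iUnion.1 (hA ⟨(a, f), ⟨ha, hf1⟩, rfl⟩)
    obtain ⟨n, b1, b2⟩ := hH (ps (g (a, f))) (fun M => by
      obtain ⟨n, c1, c2⟩ := hf2 M
      refine ⟨n, c1, c2.trans_le (le_trans ?_ (le_ps _ n))⟩
      simp only [g]; omega) (max m₀ k)
    have b3 : n ≤ ps (g (a, f)) n := (ps_mono _).id_le n
    have b4 := le_max_left m₀ k
    have b5 := le_max_right m₀ k
    refine hm₀ (ps (g (a, f)) n + 1) (by omega) k (by omega) _ (fun j c1 c2 => ?_) hk
    refine decide_eq_false ?_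
    rintro ⟨i, rfl⟩
    have d1 : n < i := (ps_mono _).lt_iff_lt.1 c1
    have d2 : i < n + 1 := (ps_mono _).lt_iff_lt.1 (c2.trans b2)
    omega

end Pool.Agent.H42.UNull
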