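import Mathlib
import Pool.Agent.H42.Hfc1

open Pool.Agent.H42.HfcDefs

universe u

/-- Every HFC subspace of a Cantor cube is a D-space. -/
theorem Pool.Agent.H42.Var2abaf2.result {L : Type u} [LinearOrder L]
    (X : Set (L → Bool)) (hX : HFC X) : DSpace X :=
  Pool.Agent.H42.Hfc1.dspace hX
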