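import Mathlib
import Pool.Agent.H42.HExt2

open Cardinal

open Classical in
/-- Under CH, `ℕ` has a functional extension whose S-topology is Hausdorff and countably
compact. -/
theorem Pool.Agent.H42.Var77d395.result (hCH : (𝔠 : Cardinal.{0}) = ℵ₁) :
    ∃ (Y : Type) (ι : ℕ → Y) (star : (ℕ → ℕ) → Y → Y),
      Function.Injective ι ∧ ¬ Function.Surjective ι ∧
      (∀ f x, star f (ι x) = ι (f x)) ∧
      (∀ f g, star (g ∘ f) = star g ∘ star f) ∧
      (∀ f g, star (fun x => if f x = g x then 1 else 0) =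
        fun ξ => if star f ξ = star g ξ then ι 1 else ι 0) ∧
      (∀ ξ η, ∃ p₁ p₂ ζ, star p₁ ζ = ξ ∧ star p₂ ζ = η) ∧
      ∀ τ : TopologicalSpace Y, τ = TopologicalSpace.generateFrom
          {S | ∃ A : Set ℕ, S = {ξ | star (fun x => if x ∈ A then 1 else 0) ξ = ι 1}} →
        T2Space Y ∧ CountablyCompactSpace Y := by
  obtain ⟨Y, τ, ι, star, h1, -, h3, -, h5, h6, h7, ⟨p, q, h8⟩, h9, h10⟩ :=
    Pool.Agent.H42.HExt.main hCH
  refine ⟨Y, ι, star, h1.injective, h3, h5, h6, fun f g => funext (h7 f g),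
    fun ξ η => ⟨p, q, h8 ξ η⟩, fun τ' h => ?_⟩
  obtain rfl : τ = τ' := h9.trans h.symm
  exact h10
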