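import Pool.Agent.H42.DeltaReg

namespace Pool.Agent.H42.Var9a42a6

open Cardinal

universe u

/-- `δ` is the least coordinate at which `x` and `y` differ. -/
def IsDelta {K : Type u} [LinearOrder K] (x y : K → Bool) (δ : K) : Prop :=
  x δ ≠ y δ ∧ ∀ i < δ, x i = y i

/-- For some `μ`, the colour of each pair is below the larger of `μ` and the first difference. -/
def AlmostDeltaRegressive {K : Type u} [LinearOrder K] (c : Sym2 (K → Bool) → K) : Prop :=
  ∃ μ : K, ∀ (x y : K → Bool) (δ : K), IsDelta x y δ → c s(x, y) < max δ μ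

theorem result (κ : Cardinal.{u}) (hκ : ℵ₀ < κ)
    (hpow : ∀ μ < κ, (2 : Cardinal.{u}) ^ μ < 2 ^ κ)
    (c : Sym2 (κ.ord.ToType → Bool) → κ.ord.ToType) (hc : AlmostDeltaRegressive c) :
    ∃ x y z : κ.ord.ToType → Bool, x ≠ y ∧ x ≠ z ∧ y ≠ z ∧
      c s(x, y) = c s(x, z) ∧ c s(x, y) = c s(y, z) := by
  obtain ⟨μ, hμ⟩ := hc
  have hμκ : #(Set.Iio μ) < κ := mk_Iio_toType_ord_lt μ
  obtain ⟨Y, hY, col, hcol⟩ := Pool.Agent.H42.DeltaReg.mono_main
    (ν := max ℵ₀ #(Set.Iio μ)) (le_max_left _ _)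
    (hpow _ (max_lt hκ hμκ)) μ (le_max_right _ _)
    (fun x y => c s(x, y)) (fun x y => by rw [Sym2.eq_swap])
    (fun x y δ h1 h2 h3 => by
      have := hμ x y δ ⟨h1, h2⟩
      rwa [max_eq_left h3.le] at this)
  have hinf : Y.Infinite := by
    rw [← Set.infinite_coe_iff, infinite_iff]
    exact (le_max_left _ _).trans hY.le
  let f := hinf.natEmbedding
  have hne : ∀ i j : ℕ, i ≠ j → (f i).1 ≠ (f j).1 := fun i j hij hh =>
    hij (f.injective (Subtype.ext hh))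
  have h01 := hne 0 1 (by decide)
  have h02 := hne 0 2 (by decide)
  have h12 := hne 1 2 (by decide)
  refine ⟨f 0, f 1, f 2, h01, h02, h12, ?_, ?_⟩
  · exact (hcol _ (f 0).2 _ (f 1).2 h01).trans (hcol _ (f 0).2 _ (f 2).2 h02).symm
  · exact (hcol _ (f 0).2 _ (f 1).2 h01).trans (hcol _ (f 1).2 _ (f 2).2 h12).symm

end Pool.Agent.H42.Var9a42a6
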