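import Pool.Agent.H42.TStar

namespace Pool.Agent.H42.Varb2422a

open Pool.Agent.H42.TStar

theorem result : (PC → ¬ Stmt) ∧ (ShortChains → Stmt) :=
  ⟨Pool.Agent.H42.TStar.neg, Pool.Agent.H42.TStar.pos⟩

end Pool.Agent.H42.Varb2422a
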