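import Pool.Agent.H42.BG4

open Cardinal Pool.Agent.H42.BG

/-- Under CH neither `S1` nor `Sfin` for Borel omega-covers is preserved by squares. -/
theorem Pool.Agent.H42.Varc8e566.result (hCH : (𝔠 : Cardinal.{0}) = ℵ₁) :
    ∃ X : Set ℝ, S1 (BOm X) (BOm X) ∧ Sfin (BOm X) (BOm X) ∧
      ¬ S1 (BOm (Fin 2 → X)) (BOm (Fin 2 → X)) ∧ ¬ Sfin (BOm (Fin 2 → X)) (BOm (Fin 2 → X)) := by
  obtain ⟨X, Y, -, h2, h3, -⟩ := real_core hCH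
  have h4 : S1 (BOm X) (BOm X) := h2.s1.mono (fun _ h => h) fun _ h => h.om
  have h5 : ¬ Sfin (BOm (Fin 2 → X)) (BOm (Fin 2 → X)) := fun h =>
    h3 (h.mono (fun _ h => h) fun _ h => h.1)
  exact ⟨X, h4, h4.sfin, fun h => h5 h.sfin, h5⟩
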