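import Pool.Agent.H42.VecDefs

namespace Pool.Agent.H42.VdiaDefs
open Cardinal Set Filter

/-- the order type `ω₁` -/
abbrev Om := (ℵ₁ : Cardinal.{0}).ord.ToType

/-- the parametrized diamond for infinitely often equal reals -/
def Diamond : Prop :=
  ∀ Φ : ∀ δ : Om, (Iio δ → Bool) → ℕ → ℕ, (∀ δ, Measurable (Φ δ)) →
    ∃ g : Om → ℕ → ℕ, ∀ f : Om → Bool,
      IsStationary {δ | ∃ᶠ n in atTop, Φ δ (fun β => f β) n = g δ n}

variable {F : Type} [Field F]

/-- block subspaces of `ℕ →₀ F` -/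
def IsBlock (X : Submodule F (ℕ →₀ F)) : Prop :=
  ∃ x : ℕ → ℕ →₀ F, (∀ n, x n ≠ 0) ∧
    (∀ n, ∀ i ∈ (x n).support, ∀ j ∈ (x (n + 1)).support, i < j) ∧
    X = Submodule.span F (range x)

/-- a family of pairwise almost disjoint block subspaces -/
def BlockAD (A : Set (Submodule F (ℕ →₀ F))) : Prop :=
  (∀ X ∈ A, IsBlock X) ∧ A.Pairwise fun X Y => FiniteDimensional F (X ⊓ Y : Submodule F _)

/-- a mad family of block subspaces -/
def BlockMad (A : Set (Submodule F (ℕ →₀ F))) : Prop :=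
  BlockAD A ∧ ∀ B, BlockAD B → A ⊆ B → B = A

end Pool.Agent.H42.VdiaDefs
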