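import Mathlib

namespace Pool.Agent.H42.VecDefs
open Cardinal

variable {F E : Type} [Field F] [AddCommGroup E] [Module F E]

/-- an almost disjoint family of infinite-dimensional subspaces -/
def ADFam (A : Set (Submodule F E)) : Prop :=
  (∀ X ∈ A, ¬ FiniteDimensional F X) ∧
    A.Pairwise fun X Y => FiniteDimensional F (X ⊓ Y : Submodule F E)

/-- a mad family of subspaces -/
def Mad (A : Set (Submodule F E)) : Prop := ADFam A ∧ ∀ B, ADFam B → A ⊆ B → B = A

/-- the least size of a nonmeager set of reals -/
noncomputable def nonMR : Cardinal.{0} := sInf {c | ∃ X : Set ℝ, ¬ IsMeagre X ∧ #X = c}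

/-- the vector-space mad number of `E = ⊕_{n} F` -/
noncomputable def aVec (F : Type) [Field F] : Cardinal.{0} :=
  sInf {c | ∃ A : Set (Submodule F (ℕ →₀ F)), A.Infinite ∧ Mad A ∧ #A = c}

end Pool.Agent.H42.VecDefs
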