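import Pool.Agent.H42.Reg

/-! The Devlin-Shelah argument: failure of weak diamond bounds the power set. -/

namespace Pool.Agent.H42.WeakDiamond

open Cardinal Set Pool.Agent.H42.Reg

universe u

variable {T : Type u} [LinearOrder T] [WellFoundedLT T]

omit [WellFoundedLT T] in
theorem exists_code (h : RegUnc T) (B D : Type u) (hT : #T ≤ #B) (hD : #D ≤ #B)
    (hpow : ∀ ν < #T, #B ^ ν ≤ #B) :
    ∃ code : T → (ℕ → T → D) → B, ∀ β P β' P', code β P = code β' P' →
      β = β' ∧ ∀ k, ∀ i < β, P k i = P' k i := by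
  have hB : ℵ₀ ≤ #B := h.inf.trans hT
  have hc : #(Σ β : T, (ℕ → Iio β → D)) ≤ #B := by
    rw [mk_sigma]
    refine (sum_le_sum _ (fun _ => #B) fun β => ?_).trans ?_
    · have : #(ℕ → Iio β → D) = #D ^ (#(Iio β) * ℵ₀) := by
        simp [power_mul]
      rw [this]
      exact (power_le_power_right hD).trans (hpow _ (mul_lt_of_lt h.inf (h.init β) h.unc))
    · rw [sum_const']
      exact mul_le_of_le hB hT le_rfl
  obtain ⟨e⟩ := (Cardinal.le_def _ _).1 hc
  refine ⟨fun β P => e ⟨β, fun k i => P k i⟩, fun β P β' P' hh => ?_⟩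
  have := e.injective hh
  obtain ⟨h1, h2⟩ := Sigma.mk.inj_iff.1 this
  subst h1
  refine ⟨rfl, fun k i hi => ?_⟩
  exact congrFun (congrFun (eq_of_heq h2) k) ⟨i, hi⟩

theorem ds_core (h : RegUnc T) (B : Type u) (hT : #T ≤ #B)
    (hpow : ∀ ν < #T, #B ^ ν ≤ #B) (m : T) (F : T → (T → B) → B)
    (hF : ∀ δ H H', (∀ i < δ, H i = H' i) → F δ H = F δ H')
    (hall : ∀ X : T → B, ∃ (H : T → B) (g : T → T),
      ∀ δ, m < δ → (∀ i < δ, g i < δ) → X δ = F δ H) :
    #(T → B) ≤ #B := by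
  classical
  have hB : ℵ₀ ≤ #B := h.inf.trans hT
  choose Hf gf hHg using hall
  obtain ⟨code, hcode⟩ := exists_code h B (B × B × T) hT (by
    simp only [mk_prod, lift_id]
    exact mul_le_of_le hB le_rfl (mul_le_of_le hB le_rfl hT)) hpow
  let data : (T → B) → T → B × B × T := fun X i => (X i, Hf X i, gf X i)
  have hβ : ∀ (W : ℕ → T → B) (δ : T), ∃ β, (δ < β ∧ ∀ k, ∀ i < β, gf (W k) i < β) ∧
      ∀ b < β, ¬ (δ < b ∧ ∀ k, ∀ i < b, gf (W k) i < b) := fun W δ =>
    exists_min _ (h.closure_nat (fun k => gf (W k)) δ)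
  choose βf hβ1 hβ2 using hβ
  let step : (ℕ → T → B) → (ℕ → T → B) := fun W k =>
    Nat.rec (motive := fun _ => T → B) (fun δ => code (βf W δ) (fun k => data (W k)))
      (fun k _ => W k) k
  let W : (T → B) → ℕ → ℕ → T → B := fun X n => step^[n] (fun _ => X)
  have hWs : ∀ X n, W X (n + 1) = step (W X n) := fun X n => Function.iterate_succ_apply' _ _ _
  have hW0 : ∀ X n δ, W X (n + 1) 0 δ = code (βf (W X n) δ) (fun k => data (W X n k)) := by
    intro X n δ; rw [hWs]; rfl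
  have hW1 : ∀ X n k, W X (n + 1) (k + 1) = W X n k := by
    intro X n k; rw [hWs]
  have hWk : ∀ X n k, W X (n + k) k = W X n 0 := by
    intro X n k
    induction k with
    | zero => rfl
    | succ k ih => rw [← add_assoc, hW1, ih]
  have hseed : ∀ X : T → B, ∃ β, m < β ∧ ∀ n, ∀ i < β, gf (W X n 0) i < β := fun X =>
    h.closure_nat (fun n => gf (W X n 0)) m
  choose δ0 hδ1 hδ2 using hseed
  refine mk_le_of_injective (f := fun X => code (δ0 X) (fun n => data (W X n 0))) ?_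
  intro X X' hXX
  obtain ⟨h1, h2⟩ := hcode _ _ _ _ hXX
  by_contra hne
  have hex : ∃ γ, ∃ n, data (W X n 0) γ ≠ data (W X' n 0) γ := by
    by_contra hc
    push Not at hc
    apply hne
    funext i
    exact congrArg Prod.fst (hc i 0)
  obtain ⟨γ, ⟨n, hn⟩, hγ⟩ := exists_min _ hex
  push Not at hγ
  have hδγ : δ0 X ≤ γ := not_lt.1 fun hc => hn (h2 n γ hc)
  obtain ⟨δ, hδa, hδb, hδc⟩ := exists_lub
    {β | β ≤ γ ∧ m < β ∧ ∀ n, ∀ i < β, gf (W X n 0) i < β} γ (fun a ha => ha.1)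
  have hmδ : m < δ := (hδ1 X).trans_le (hδa _ ⟨hδγ, hδ1 X, hδ2 X⟩)
  have hcl : ∀ n, ∀ i < δ, gf (W X n 0) i < δ := by
    intro n i hi
    obtain ⟨a, ha, hia⟩ := hδc i hi
    exact (ha.2.2 n i hia).trans_le (hδa a ha)
  have hXeq : ∀ n, W X n 0 δ = W X' n 0 δ := by
    intro n
    rw [hHg _ δ hmδ (hcl n), hHg (W X' n 0) δ hmδ]
    · apply hF
      intro i hi
      exact congrArg (fun p => p.2.1) (hγ i (hi.trans_le hδb) n)
    · intro i hi
      have : gf (W X n 0) i = gf (W X' n 0) i :=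
        congrArg (fun p => p.2.2) (hγ i (hi.trans_le hδb) n)
      rw [← this]; exact hcl n i hi
  have hβeq : ∀ n k, ∀ i < βf (W X n) δ, data (W X n k) i = data (W X' n k) i := by
    intro n
    have := hXeq (n + 1)
    rw [hW0, hW0] at this
    exact (hcode _ _ _ _ this).2
  have hβle : ∀ k, βf (W X (n + k)) δ ≤ γ := by
    intro k
    by_contra hc
    have := hβeq (n + k) k γ (not_le.1 hc)
    rw [hWk, hWk] at this
    exact hn this
  have hmono : Monotone (fun j => βf (W X j) δ) := by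
    apply monotone_nat_of_le_succ
    intro j
    by_contra hc
    refine hβ2 _ _ _ (not_le.1 hc) ⟨(hβ1 _ _).1, fun k i hi => ?_⟩
    have := (hβ1 (W X (j + 1)) δ).2 (k + 1) i hi
    rwa [hW1] at this
  obtain ⟨β, hβa, hβb, hβc⟩ := exists_lub (range fun k => βf (W X (n + k)) δ) γ
    (by rintro _ ⟨k, rfl⟩; exact hβle k)
  have hδβ : δ < β := (hβ1 _ _).1.trans_le (hβa _ ⟨0, rfl⟩)
  refine (hδa β ⟨hβb, hmδ.trans hδβ, fun j i hi => ?_⟩).not_gt hδβ
  obtain ⟨_, ⟨k, rfl⟩, hk⟩ := hβc i hi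
  have h3 : i < βf (W X (j + (n + k))) δ := hk.trans_le (hmono (Nat.le_add_left _ _))
  have h4 := (hβ1 (W X (j + (n + k))) δ).2 (n + k) i h3
  rw [hWk] at h4
  refine h4.trans_le (hβa _ ⟨j + k, ?_⟩)
  show βf (W X (n + (j + k))) δ = _
  congr 2
  omega

/-- Failure of weak diamond gives `2 ^ #T ≤ 2 ^ #M`. -/
theorem ds (h : RegUnc T) (M A : Type u) (hM : #M < #T) (hM0 : ℵ₀ ≤ #M) (hT : #T ≤ 2 ^ #M)
    (hA : #A ≤ 2 ^ #M) (hpow : ∀ ν < #T, (2 : Cardinal.{u}) ^ ν ≤ 2 ^ #M) (m : T) (F : T → (T → A) → Bool)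
    (hF : ∀ δ H H', (∀ i < δ, H i = H' i) → F δ H = F δ H')
    (hall : ∀ x : T → Bool, ∃ (H : T → A) (g : T → T),
      ∀ δ, m < δ → (∀ i < δ, g i < δ) → x δ = F δ H) :
    (2 : Cardinal.{u}) ^ #T ≤ 2 ^ #M := by
  classical
  have hB : #(M → Bool) = 2 ^ #M := by simp
  have hMA : #(M → A) ≤ #(M → Bool) := by
    rw [hB, ← power_def]
    refine (power_le_power_right hA).trans ?_
    rw [← power_mul, mul_eq_self hM0]
  obtain ⟨e⟩ := (Cardinal.le_def _ _).1 hMA
  choose Hf gf hHg using hall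
  haveI : Nonempty (M → A) := by
    obtain ⟨t⟩ := h.nonempty
    exact ⟨fun _ => Hf (fun _ => true) t⟩
  have key := ds_core h (M → Bool) (hB ▸ hT) (by
      intro ν hν
      rw [hB, ← power_mul]
      exact hpow _ (mul_lt_of_lt h.inf hM hν)) m
    (fun δ H j => F δ (fun i => Function.invFun e (H i) j)) (by
      intro δ H H' hH
      funext j
      apply hF
      intro i hi
      rw [hH i hi]) (by
      intro X
      have : ∀ i, ∃ b, ∀ j, gf (fun δ => X δ j) i < b := fun i => h.bdd_fun hM _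
      choose g hg using this
      refine ⟨fun i => e (fun j => Hf (fun δ => X δ j) i), g, fun δ hδ hcl => ?_⟩
      funext j
      have := hHg (fun δ => X δ j) δ hδ (fun i hi => (hg i j).trans (hcl i hi))
      simp only [Function.leftInverse_invFun e.injective _]
      exact this)
  rw [hB] at key
  refine le_trans ?_ key
  rw [← power_def, hB]
  apply power_le_power_right
  calc (2 : Cardinal) = 2 ^ (1 : Cardinal) := by simp
    _ ≤ 2 ^ #M := power_le_power_left two_ne_zero (one_le_aleph0.trans hM0)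

end Pool.Agent.H42.WeakDiamond
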