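import Mathlib

/-! A nontrivial cross-cut of the power set of the natural numbers. -/

namespace Pool.Agent.H42.XCut

open Set Filter

def CrossCut {P : Type} [PartialOrder P] (C : Set P) : Prop :=
  Maximal (IsAntichain (· ≤ ·)) C ∧
    ∀ x x' y y', x < x' → x' ∈ C → y' < y → y' ∈ C → x ≤ y → ∃ z ∈ C, x ≤ z ∧ z ≤ y

def Trivial {X : Type} (C : Set (Set X)) : Prop :=
  ∃ k : ℕ, C = {A : Set X | A.encard = (k : ℕ∞)} ∨ compl '' C = {A : Set X | A.encard = (k : ℕ∞)}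

noncomputable def ct (x : Set ℕ) (n : ℕ) : ℕ := (x ∩ Iio n).ncard

def Le (x : Set ℕ) : Prop := ∀ᶠ n in atTop, ct x n ≤ n / 2

def Ge (x : Set ℕ) : Prop := ∃ᶠ n in atTop, n / 2 ≤ ct x n

lemma fi (x : Set ℕ) (n : ℕ) : (x ∩ Iio n).Finite := (finite_Iio n).subset inter_subset_right

lemma ct_mono {x y : Set ℕ} (h : x ⊆ y) (n : ℕ) : ct x n ≤ ct y n :=
  ncard_le_ncard (inter_subset_inter_left _ h) (fi y n)

lemma ct_ins (x : Set ℕ) (a n : ℕ) : ct (insert a x) n ≤ ct x n + 1 :=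
  (ncard_le_ncard (fun _ h => h.1.elim Or.inl fun h' => Or.inr ⟨h', h.2⟩)
    ((fi x n).insert a)).trans (ncard_insert_le _ _)

lemma ct_ins' (x : Set ℕ) {a n : ℕ} (h : n ≤ a) : ct (insert a x) n = ct x n := by
  unfold ct; rw [insert_inter_of_notMem (by simpa using h)]

lemma ct_lt {x y : Set ℕ} (h : x ⊆ y) {a n : ℕ} (h1 : a ∈ y) (h2 : a ∉ x) (h3 : a < n) :
    ct x n < ct y n :=
  ncard_lt_ncard ⟨inter_subset_inter_left _ h, fun h' => h2 (h' ⟨h1, h3⟩).1⟩ (fi y n)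

lemma fin_case (y D : Set ℕ) (hD : D.Finite) (hy : Ge y) :
    ∀ z ⊆ y, y \ z ⊆ D → Le z → ∃ w, (Le w ∧ Ge w) ∧ z ⊆ w ∧ w ⊆ y := by
  induction D, hD using Set.Finite.induction_on with
  | empty =>
    intro z h1 h2 h3
    obtain rfl : z = y := h1.antisymm (sdiff_eq_empty.1 (subset_empty_iff.1 h2))
    exact ⟨z, ⟨h3, hy⟩, le_rfl, le_rfl⟩
  | @insert a D _ _ ih =>
    intro z h1 h2 h3
    by_cases g : Ge z
    · exact ⟨z, ⟨h3, g⟩, le_rfl, h1⟩
    by_cases ha : a ∈ y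
    · obtain ⟨w, w1, w2, w3⟩ := ih (insert a z) (insert_subset ha h1) (fun b hb =>
        (h2 ⟨hb.1, fun h => hb.2 (Or.inr h)⟩).resolve_left fun h => hb.2 (Or.inl h)) (by
          filter_upwards [not_frequently.1 g] with n hn
          have := ct_ins z a n
          omega)
      exact ⟨w, w1, (subset_insert _ _).trans w2, w3⟩
    · exact ih z h1 (fun b hb => (h2 hb).resolve_left fun h => ha (h ▸ hb.1)) h3

theorem between {x y : Set ℕ} (h : x ⊆ y) (hx : Le x) (hy : Ge y) :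
    ∃ w, (Le w ∧ Ge w) ∧ x ⊆ w ∧ w ⊆ y := by
  obtain ⟨N, hN⟩ := eventually_atTop.1 hx
  obtain ⟨z, z1, z2⟩ := zorn_subset_nonempty {z | z ⊆ y ∧ ∀ n ≥ N, ct z n ≤ n / 2}
    (fun c hc hch hne => ⟨⋃₀ c, ⟨sUnion_subset fun s hs => (hc hs).1, fun n hn => by
      obtain ⟨s, s1, s2⟩ := hch.directedOn.exists_mem_subset_of_finset_subset_biUnion hne
        (f := id) (s := (fi (⋃₀ c) n).toFinset) (by
          rw [Finite.coe_toFinset]; exact inter_subset_left.trans sUnion_eq_biUnion.le)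
      refine le_trans (ncard_le_ncard (fun a ha => ?_) (fi s n)) ((hc s1).2 n hn)
      exact ⟨s2 (by simpa using ha), ha.2⟩⟩, fun s hs => subset_sUnion_of_mem hs⟩) x ⟨h, hN⟩
  have lz : Le z := eventually_atTop.2 ⟨N, z2.prop.2⟩
  by_cases g : Ge z
  · exact ⟨z, ⟨lz, g⟩, z1, z2.prop.1⟩
  obtain ⟨M, hM⟩ := eventually_atTop.1 (not_frequently.1 g)
  obtain ⟨w, w1, w2, w3⟩ := fin_case y _ (finite_Iio M) hy z z2.prop.1 (fun a ha => by
    by_contra hn
    refine ha.2 (z2.2 (y := insert a z) ⟨insert_subset ha.1 z2.prop.1, fun n hn' => ?_⟩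
      (subset_insert _ _) (mem_insert _ _))
    rcases le_or_gt n a with c | c
    · rw [ct_ins' z c]; exact z2.prop.2 n hn'
    · have := hM n (by simp at hn; omega)
      have := ct_ins z a n
      omega) lz
  exact ⟨w, w1, z1.trans w2, w3⟩

lemma ct_add (x : Set ℕ) (n : ℕ) : ct x n + ct xᶜ n = n := by
  unfold ct
  rw [← ncard_union_eq (disjoint_compl_right.mono inter_subset_left inter_subset_left) (fi _ _)
    (fi _ _), ← union_inter_distrib_right]
  simp

theorem main : ∃ C : Set (Set ℕ), CrossCut C ∧ ∀ A ∈ C, A.Infinite ∧ Aᶜ.Infinite := by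
  have anti : IsAntichain (· ≤ ·) {x | Le x ∧ Ge x} := fun x hx y hy hne h => by
    obtain ⟨a, a1, a2⟩ := not_subset.1 fun h' => hne (h.antisymm h')
    obtain ⟨n, n1, n2, n3⟩ := (hx.2.and_eventually (hy.1.and (eventually_gt_atTop a))).exists
    have := ct_lt h a1 a2 n3
    omega
  refine ⟨{x | Le x ∧ Ge x}, ⟨⟨anti, fun D hD hs x hx => ?_⟩, fun x x' y y' h1 h2 h3 h4 h => ?_⟩,
    fun A hA => ⟨fun h => ?_, fun h => ?_⟩⟩
  · by_cases c : Le x
    · obtain ⟨w, w1, w2, -⟩ := between (subset_univ x) c (Frequently.of_forall fun n => by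
        have := ct_add univ n
        simp only [compl_univ, ct, empty_inter, ncard_empty] at this ⊢
        omega)
      rwa [hD.eq hx (hs w1) w2]
    · obtain ⟨w, w1, -, w2⟩ := between (empty_subset x) (Eventually.of_forall fun n => by
        simp [ct]) ((not_eventually.1 c).mono fun n hn => by omega)
      rwa [← hD.eq (hs w1) hx w2]
  · obtain ⟨w, w1, w2⟩ := between h (h2.1.mono fun n hn => (ct_mono h1.le n).trans hn)
      (h4.2.mono fun n hn => hn.trans (ct_mono h3.le n))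
    exact ⟨w, w1, w2⟩
  · obtain ⟨n, n1, n2⟩ := (hA.2.and_eventually (eventually_ge_atTop (2 * A.ncard + 2))).exists
    have : ct A n ≤ A.ncard := ncard_le_ncard inter_subset_left h
    omega
  · obtain ⟨n, n1, n2⟩ := (hA.1.and (eventually_ge_atTop (2 * Aᶜ.ncard + 2))).exists
    have : ct Aᶜ n ≤ Aᶜ.ncard := ncard_le_ncard inter_subset_left h
    have := ct_add A n
    omega

end Pool.Agent.H42.XCut
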