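import Mathlib

/-! Models of ZFC and basic set-theoretic notions interpreted in a structure `(M, E)`. -/

namespace Pool.Agent.H42.ZF

/-- Formulas of the language of set theory, with named variables. -/
inductive Fml : Type
  | mem (i j : ℕ) : Fml
  | eq (i j : ℕ) : Fml
  | neg (a : Fml) : Fml
  | and (a b : Fml) : Fml
  | all (i : ℕ) (a : Fml) : Fml

/-- Tarski satisfaction in the structure `(M, E)`. -/
def Sat {M : Type 1} (E : M → M → Prop) : Fml → (ℕ → M) → Prop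
  | .mem i j, v => E (v i) (v j)
  | .eq i j, v => v i = v j
  | .neg a, v => ¬ Sat E a v
  | .and a b, v => Sat E a v ∧ Sat E b v
  | .all i a, v => ∀ x, Sat E a (Function.update v i x)

/-- `(M, E)` is a model of ZFC (the axioms as in Kunen's book). -/
structure ZFC {M : Type 1} (E : M → M → Prop) : Prop where
  ext : ∀ x y, (∀ z, E z x ↔ E z y) → x = y
  found : ∀ x, (∃ y, E y x) → ∃ y, E y x ∧ ¬ ∃ z, E z x ∧ E z y
  sep : ∀ (φ : Fml) (v : ℕ → M) (x : M), ∃ y, ∀ z,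
    E z y ↔ E z x ∧ Sat E φ (Function.update v 0 z)
  pair : ∀ x y, ∃ z, E x z ∧ E y z
  union : ∀ F, ∃ A, ∀ Y x, E x Y → E Y F → E x A
  repl : ∀ (φ : Fml) (v : ℕ → M) (A : M),
    (∀ x, E x A → ∃! y, Sat E φ (Function.update (Function.update v 0 x) 1 y)) →
    ∃ Y, ∀ x, E x A → ∃ y, E y Y ∧ Sat E φ (Function.update (Function.update v 0 x) 1 y)
  inf : ∃ x, (∃ e, E e x ∧ ∀ z, ¬ E z e) ∧ ∀ y, E y x → ∃ s, E s x ∧ ∀ z, E z s ↔ E z y ∨ z = y
  pow : ∀ x, ∃ y, ∀ z, (∀ w, E w z → E w x) → E z y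
  choice : ∀ F, (∀ x, E x F → ∃ y, E y x) →
    (∀ x y, E x F → E y F → x ≠ y → ¬ ∃ z, E z x ∧ E z y) →
    ∃ C, ∀ x, E x F → ∃! z, E z x ∧ E z C

variable {M : Type 1} (E : M → M → Prop)

/-- `x ⊆ y` -/
def Sub (x y : M) : Prop := ∀ z, E z x → E z y

/-- `p = (a, b)`, the Kuratowski pair -/
def IsPair (p a b : M) : Prop :=
  ∀ z, E z p ↔ (∀ w, E w z ↔ w = a) ∨ (∀ w, E w z ↔ w = a ∨ w = b)

/-- `(a, b) ∈ f` -/
def App (f a b : M) : Prop := ∃ p, E p f ∧ IsPair E p a b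

/-- `f` is a function from `A` to `B` -/
def IsFun (f A B : M) : Prop :=
  (∀ p, E p f → ∃ a b, E a A ∧ E b B ∧ IsPair E p a b) ∧
    ∀ a, E a A → ∃ b, App E f a b ∧ ∀ c, App E f a c → c = b

/-- `F` is the set of all functions from `A` to `B` -/
def IsFunSet (F A B : M) : Prop := ∀ f, E f F ↔ IsFun E f A B

/-- `g` is the restriction of `f` to `n` -/
def Restr (g f n : M) : Prop := ∀ p, E p g ↔ E p f ∧ ∃ a b, E a n ∧ IsPair E p a b

/-- `s = n ∪ {n}` -/
def Succ (s n : M) : Prop := ∀ z, E z s ↔ E z n ∨ z = n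

/-- `I` contains the empty set and is closed under successor -/
def Ind (I : M) : Prop :=
  (∀ e, (∀ z, ¬ E z e) → E e I) ∧ ∀ n s, E n I → Succ E s n → E s I

/-- `w = ω`, the least inductive set -/
def IsOmega (w : M) : Prop := Ind E w ∧ ∀ I, Ind E I → Sub E w I

end Pool.Agent.H42.ZF
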